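import Pool.Agent.Helper61.HT.Defs

/-!
# Basic inequalities in a C*-algebra with a faithful tracial state
-/

set_option linter.unusedSectionVars false

namespace Helper61.HT

open scoped ComplexOrder

section basic

variable {N : Type} [CStarAlgebra N] {τ : N →ₗ[ℂ] ℂ}

lemma rt_add (x y : N) : rt τ (x + y) = rt τ x + rt τ y := by simp [rt]
lemma rt_sub (x y : N) : rt τ (x - y) = rt τ x - rt τ y := by simp [rt]
lemma rt_neg (x : N) : rt τ (-x) = -rt τ x := by simp [rt]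
lemma rt_zero : rt τ (0 : N) = 0 := by simp [rt]

lemma map_smul_real (c : ℝ) (x : N) : τ (c • x) = c * τ x := by
  have h1 : c • x = (c : ℂ) • x := (algebraMap_smul ℂ c x).symm
  rw [h1, map_smul, smul_eq_mul]

lemma rt_smul (c : ℝ) (x : N) : rt τ (c • x) = c * rt τ x := by
  unfold rt
  rw [map_smul_real, Complex.re_ofReal_mul]

lemma rt_sum {κ : Type} (s : Finset κ) (f : κ → N) :
    rt τ (∑ i ∈ s, f i) = ∑ i ∈ s, rt τ (f i) := by
  unfold rt
  rw [map_sum, Complex.re_sum]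

lemma hs_eq_rt (x : N) : hs τ x = rt τ (star x * x) := rfl

lemma rt_mul_comm (hτ : Trc τ) (x y : N) : rt τ (x * y) = rt τ (y * x) := by
  unfold rt; rw [hτ.tr]

lemma rt_cycle (hτ : Trc τ) (x y z : N) : rt τ (x * y * z) = rt τ (z * x * y) := by
  rw [rt_mul_comm hτ, mul_assoc]

lemma hs_nonneg (hτ : Trc τ) (x : N) : 0 ≤ hs τ x := (RCLike.nonneg_iff.1 (hτ.nonneg x)).1

lemma hs_zero : hs τ (0 : N) = 0 := by simp [hs]

lemma hs_neg (x : N) : hs τ (-x) = hs τ x := by simp [hs]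

lemma hs_sub_comm (x y : N) : hs τ (x - y) = hs τ (y - x) := by rw [← neg_sub, hs_neg]

lemma hs_star (hτ : Trc τ) (x : N) : hs τ (star x) = hs τ x := by
  unfold hs; rw [star_star, hτ.tr]

lemma hs_eq_zero (hτ : Trc τ) {x : N} (h : hs τ x = 0) : x = 0 := by
  refine hτ.faith x ?_
  obtain ⟨-, h2⟩ := RCLike.nonneg_iff.1 (hτ.nonneg x)
  exact Complex.ext h h2

/-- `τ (x*) = conj (τ x)`. -/
lemma map_star' (hτ : Trc τ) (x : N) : τ (star x) = (starRingEnd ℂ) (τ x) := by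
  have hreal : ∀ y : N, (τ (star y * y)).im = 0 := fun y => (RCLike.nonneg_iff.1 (hτ.nonneg y)).2
  have h1 := hreal (1 + x)
  have h2 := hreal (1 + Complex.I • x)
  have h3 := hreal x
  have e1 : star (1 + x) * (1 + x) = 1 + x + star x + star x * x := by
    rw [star_add, star_one]; noncomm_ring
  have e2 : star (1 + Complex.I • x) * (1 + Complex.I • x) =
      1 + Complex.I • x - Complex.I • star x + star x * x := by
    rw [star_add, star_one, star_smul, RCLike.star_def, Complex.conj_I]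
    have h : -Complex.I • star x * (Complex.I • x) = star x * x := by
      rw [smul_mul_smul_comm, neg_mul, Complex.I_mul_I, neg_neg, one_smul]
    rw [add_mul, mul_add, mul_add, one_mul, one_mul, mul_one, h, neg_smul]
    abel
  rw [e1, map_add, map_add, map_add, hτ.one] at h1
  rw [e2, map_add, map_sub, map_add, map_smul, map_smul, hτ.one] at h2
  simp only [Complex.add_im, Complex.sub_im, Complex.one_im, smul_eq_mul, Complex.mul_im,
    Complex.I_re, Complex.I_im, zero_mul, one_mul, zero_add, h3, add_zero] at h1 h2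
  refine Complex.ext ?_ ?_
  · rw [Complex.conj_re]; linarith
  · rw [Complex.conj_im]; linarith

lemma rt_star (hτ : Trc τ) (x : N) : rt τ (star x) = rt τ x := by
  unfold rt; rw [map_star' hτ, Complex.conj_re]

lemma hs_add (hτ : Trc τ) (x y : N) :
    hs τ (x + y) = hs τ x + hs τ y + 2 * rt τ (star x * y) := by
  have : rt τ (star y * x) = rt τ (star x * y) := by
    rw [← rt_star hτ, star_mul, star_star]
  rw [hs_eq_rt, star_add, add_mul, mul_add, mul_add, rt_add, rt_add, rt_add, this,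
    ← hs_eq_rt, ← hs_eq_rt]
  ring

lemma hs_smul (c : ℝ) (x : N) : hs τ (c • x) = c ^ 2 * hs τ x := by
  unfold hs
  rw [star_smul, star_trivial, smul_mul_smul_comm, map_smul_real, Complex.re_ofReal_mul]
  ring

lemma hs_smulC (c : ℂ) (x : N) : hs τ (c • x) = ‖c‖ ^ 2 * hs τ x := by
  unfold hs
  have h1 : star (c • x) * (c • x) = ((‖c‖ ^ 2 : ℝ) : ℂ) • (star x * x) := by
    rw [star_smul, smul_mul_smul_comm, RCLike.star_def, Complex.conj_mul']
    norm_cast
  rw [h1, map_smul, smul_eq_mul, Complex.re_ofReal_mul]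

/-- Cauchy-Schwarz. -/
lemma norm_map_mul_le (hτ : Trc τ) (x y : N) :
    ‖τ (star x * y)‖ ≤ Real.sqrt (hs τ x) * Real.sqrt (hs τ y) := by
  -- reduce to the real part by a rotation
  have key : ∀ x y : N, rt τ (star x * y) ≤ Real.sqrt (hs τ x) * Real.sqrt (hs τ y) := by
    intro x y
    rw [← Real.sqrt_mul (hs_nonneg hτ x)]
    refine Real.le_sqrt_of_sq_le ?_
    have h1 : ∀ t : ℝ, 0 ≤ hs τ y * (t * t) + (2 * rt τ (star x * y)) * t + hs τ x := by
      intro t
      have h2 := hs_nonneg hτ (x + t • y)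
      rw [hs_add hτ, hs_smul, mul_smul_comm, rt_smul] at h2
      nlinarith
    have h2 := discrim_le_zero h1
    unfold discrim at h2
    nlinarith
  obtain ⟨c, hc, hc'⟩ : ∃ c : ℂ, ‖c‖ = 1 ∧ c * τ (star x * y) = (‖τ (star x * y)‖ : ℂ) := by
    by_cases h0 : τ (star x * y) = 0
    · exact ⟨1, norm_one, by rw [h0, mul_zero, norm_zero, Complex.ofReal_zero]⟩
    · have hn : (‖τ (star x * y)‖ : ℂ) ≠ 0 := by
        exact_mod_cast norm_ne_zero_iff.2 h0
      refine ⟨(starRingEnd ℂ) (τ (star x * y)) / ‖τ (star x * y)‖, ?_, ?_⟩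
      · rw [norm_div, RCLike.norm_conj, Complex.norm_real, norm_norm,
          div_self (norm_ne_zero_iff.2 h0)]
      · rw [div_mul_eq_mul_div, Complex.conj_mul', pow_two, mul_div_assoc, div_self hn, mul_one]
  have h1 := key x (c • y)
  rw [hs_smulC, hc, one_pow, one_mul] at h1
  have h2 : rt τ (star x * c • y) = ‖τ (star x * y)‖ := by
    unfold rt
    rw [mul_smul_comm, map_smul, smul_eq_mul, hc', Complex.ofReal_re]
  rwa [h2] at h1

lemma abs_rt_mul_le (hτ : Trc τ) (x y : N) :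
    |rt τ (x * y)| ≤ Real.sqrt (hs τ x) * Real.sqrt (hs τ y) := by
  refine (Complex.abs_re_le_norm _).trans ?_
  have := norm_map_mul_le hτ (star x) y
  rwa [star_star, hs_star hτ] at this

lemma rt_mul_le (hτ : Trc τ) (x y : N) :
    rt τ (x * y) ≤ Real.sqrt (hs τ x) * Real.sqrt (hs τ y) :=
  (le_abs_self _).trans (abs_rt_mul_le hτ x y)

/-- The triangle inequality for the 2-norm. -/
lemma sqrt_hs_add_le (hτ : Trc τ) (x y : N) :
    Real.sqrt (hs τ (x + y)) ≤ Real.sqrt (hs τ x) + Real.sqrt (hs τ y) := by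
  rw [Real.sqrt_le_iff]
  refine ⟨by positivity, ?_⟩
  have h1 := hs_add hτ x y
  have h2 := rt_mul_le hτ (star x) y
  rw [hs_star hτ] at h2
  have h3 := Real.sq_sqrt (hs_nonneg hτ x)
  have h4 := Real.sq_sqrt (hs_nonneg hτ y)
  nlinarith

lemma sqrt_hs_sub_le (hτ : Trc τ) (x y : N) :
    Real.sqrt (hs τ (x - y)) ≤ Real.sqrt (hs τ x) + Real.sqrt (hs τ y) := by
  have := sqrt_hs_add_le hτ x (-y)
  rwa [hs_neg, ← sub_eq_add_neg] at this

lemma hs_add_le (hτ : Trc τ) (x y : N) : hs τ (x + y) ≤ 2 * hs τ x + 2 * hs τ y := by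
  have h1 := hs_nonneg hτ (x - y)
  rw [sub_eq_add_neg, hs_add hτ, hs_neg, mul_neg, rt_neg] at h1
  rw [hs_add hτ]; linarith

end basic

section order

variable {N : Type} [CStarAlgebra N] [PartialOrder N] [StarOrderedRing N] {τ : N →ₗ[ℂ] ℂ}

lemma herm_of_nonneg {x : N} (hx : 0 ≤ x) : star x = x := (IsSelfAdjoint.of_nonneg hx).star_eq

lemma nonneg_star_mul (x : N) : 0 ≤ star x * x := star_mul_self_nonneg x

lemma nonneg_mul_star (x : N) : 0 ≤ x * star x := mul_star_self_nonneg x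

lemma exists_sqrt {x : N} (hx : 0 ≤ x) : ∃ y : N, 0 ≤ y ∧ y * y = x :=
  ⟨CFC.sqrt x, CFC.sqrt_nonneg x, CFC.sqrt_mul_sqrt_self x hx⟩

lemma conj_nonneg {x : N} (hx : 0 ≤ x) (c : N) : 0 ≤ c * x * star c :=
  star_right_conjugate_nonneg hx c

lemma conj_nonneg' {x : N} (hx : 0 ≤ x) (c : N) : 0 ≤ star c * x * c :=
  star_left_conjugate_nonneg hx c

lemma conj_mono {x y : N} (h : x ≤ y) (c : N) : c * x * star c ≤ c * y * star c :=
  star_right_conjugate_le_conjugate h c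

lemma conj_mono' {x y : N} (h : x ≤ y) (c : N) : star c * x * c ≤ star c * y * c :=
  star_left_conjugate_le_conjugate h c

lemma rt_nonneg (hτ : Trc τ) {x : N} (hx : 0 ≤ x) : 0 ≤ rt τ x := by
  obtain ⟨y, hy, rfl⟩ := exists_sqrt hx
  have := hs_nonneg hτ y
  rwa [hs_eq_rt, herm_of_nonneg hy] at this

lemma rt_mono (hτ : Trc τ) {x y : N} (h : x ≤ y) : rt τ x ≤ rt τ y := by
  have := rt_nonneg hτ (sub_nonneg.2 h)
  rw [rt_sub] at this; linarith

lemma rt_mul_nonneg (hτ : Trc τ) {x y : N} (hx : 0 ≤ x) (hy : 0 ≤ y) : 0 ≤ rt τ (x * y) := by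
  obtain ⟨c, hc, rfl⟩ := exists_sqrt hy
  rw [← mul_assoc, rt_cycle hτ]
  have := conj_nonneg hx c
  rw [herm_of_nonneg hc] at this
  exact rt_nonneg hτ this

lemma rt_mul_mono (hτ : Trc τ) {x y p : N} (h : x ≤ y) (hp : 0 ≤ p) :
    rt τ (x * p) ≤ rt τ (y * p) := by
  have := rt_mul_nonneg hτ (sub_nonneg.2 h) hp
  rw [sub_mul, rt_sub] at this; linarith

lemma rt_mul_mono' (hτ : Trc τ) {x y p : N} (h : x ≤ y) (hp : 0 ≤ p) :
    rt τ (p * x) ≤ rt τ (p * y) := by
  rw [rt_mul_comm hτ p x, rt_mul_comm hτ p y]; exact rt_mul_mono hτ h hp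

lemma smul_nonneg_real {x : N} {c : ℝ} (hc : 0 ≤ c) (hx : 0 ≤ x) : 0 ≤ c • x :=
  smul_nonneg hc hx

lemma smul_mono_real {x y : N} {c : ℝ} (hc : 0 ≤ c) (h : x ≤ y) : c • x ≤ c • y := by
  rw [← sub_nonneg, ← smul_sub]; exact smul_nonneg_real hc (sub_nonneg.2 h)

lemma smul_mono_left {x : N} {c d : ℝ} (h : c ≤ d) (hx : 0 ≤ x) : c • x ≤ d • x := by
  rw [← sub_nonneg, ← sub_smul]; exact smul_nonneg_real (sub_nonneg.2 h) hx

/-! ## norm and order -/

lemma norm_le_of_nonneg {x : N} {c : ℝ} (hc : 0 ≤ c) (hx : 0 ≤ x) (h : x ≤ c • 1) :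
    ‖x‖ ≤ c := by
  rw [CStarAlgebra.norm_le_iff_le_algebraMap x hc hx, Algebra.algebraMap_eq_smul_one]
  exact h

lemma le_smul_of_norm {x : N} (hx : star x = x) : x ≤ ‖x‖ • 1 := by
  have : IsSelfAdjoint x := hx
  have h := this.le_algebraMap_norm_self
  rwa [Algebra.algebraMap_eq_smul_one] at h

lemma neg_smul_le_of_norm {x : N} (hx : star x = x) : -(‖x‖ • 1) ≤ x := by
  have : IsSelfAdjoint x := hx
  have h := this.neg_algebraMap_norm_le_self
  rwa [Algebra.algebraMap_eq_smul_one] at h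

lemma norm_le_one_of_nonneg {x : N} (hx : 0 ≤ x) (h : x ≤ 1) : ‖x‖ ≤ 1 :=
  norm_le_of_nonneg zero_le_one hx (by rwa [one_smul])

lemma star_mul_le (x : N) : star x * x ≤ (‖x‖ ^ 2) • 1 := by
  have h := CStarAlgebra.star_mul_le_algebraMap_norm_sq (a := x)
  rwa [Algebra.algebraMap_eq_smul_one] at h

lemma mul_star_le (x : N) : x * star x ≤ (‖x‖ ^ 2) • 1 := by
  have h := CStarAlgebra.mul_star_le_algebraMap_norm_sq (a := x)
  rwa [Algebra.algebraMap_eq_smul_one] at h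

lemma star_mul_le_one {x : N} (hx : ‖x‖ ≤ 1) : star x * x ≤ 1 := by
  refine (star_mul_le x).trans ?_
  have h : (‖x‖ ^ 2) • (1 : N) ≤ (1 : ℝ) • 1 :=
    smul_mono_left (by nlinarith [norm_nonneg x]) zero_le_one
  rwa [one_smul] at h

lemma mul_star_le_one {x : N} (hx : ‖x‖ ≤ 1) : x * star x ≤ 1 := by
  have := star_mul_le_one (x := star x) (by rwa [norm_star])
  rwa [star_star] at this

/-- Order bound on both sides gives a norm bound. -/
lemma norm_le_of_le {x : N} {c : ℝ} (hc : 0 ≤ c) (hx : star x = x)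
    (h1 : x ≤ c • 1) (h2 : -(c • 1) ≤ x) : ‖x‖ ≤ c := by
  rcases subsingleton_or_nontrivial N with hn | hn
  · have : x = 0 := Subsingleton.elim _ _
    rw [this, norm_zero]; exact hc
  have hsa : IsSelfAdjoint x := hx
  rcases CStarAlgebra.norm_or_neg_norm_mem_spectrum (a := x) hsa with h | h
  · have h3 : ∀ y ∈ spectrum ℝ x, y ≤ c := by
      rw [← le_algebraMap_iff_spectrum_le, Algebra.algebraMap_eq_smul_one]
      exact h1
    exact h3 _ h
  · have h3 : ∀ y ∈ spectrum ℝ x, -c ≤ y := by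
      rw [← algebraMap_le_iff_le_spectrum, Algebra.algebraMap_eq_smul_one, neg_smul]
      exact h2
    linarith [h3 _ h]

lemma le_mul_self_of_le_one {x : N} (hx : 0 ≤ x) (h : x ≤ 1) : x * x ≤ x := by
  obtain ⟨c, hc, rfl⟩ := exists_sqrt hx
  have h1 := conj_mono h c
  rw [herm_of_nonneg hc, mul_one] at h1
  calc c * c * (c * c) = c * (c * c) * c := by noncomm_ring
    _ ≤ c * c := h1

lemma hs_le_rt (hτ : Trc τ) {x : N} (hx : 0 ≤ x) (h : x ≤ 1) : hs τ x ≤ rt τ x := by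
  rw [hs_eq_rt, herm_of_nonneg hx]
  exact rt_mono hτ (le_mul_self_of_le_one hx h)

/-- `hs (x * y)` for a contraction `x`. -/
lemma hs_mul_left_le (hτ : Trc τ) {x y : N} (hx : ‖x‖ ≤ 1) : hs τ (x * y) ≤ hs τ y := by
  rw [hs_eq_rt, hs_eq_rt, star_mul]
  have h1 := conj_mono' (star_mul_le_one hx) y
  rw [mul_one] at h1
  refine rt_mono hτ ?_
  calc star y * star x * (x * y) = star y * (star x * x) * y := by noncomm_ring
    _ ≤ _ := h1

lemma hs_mul_right_le (hτ : Trc τ) {x y : N} (hx : ‖x‖ ≤ 1) : hs τ (y * x) ≤ hs τ y := by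
  rw [← hs_star hτ, star_mul, ← hs_star hτ y]
  exact hs_mul_left_le hτ (by rwa [norm_star])

lemma hs_mul_le (hτ : Trc τ) (x y : N) : hs τ (x * y) ≤ ‖x‖ ^ 2 * hs τ y := by
  rw [hs_eq_rt, hs_eq_rt, star_mul, ← rt_smul]
  have h1 := conj_mono' (star_mul_le x) y
  refine rt_mono hτ ?_
  calc star y * star x * (x * y) = star y * (star x * x) * y := by noncomm_ring
    _ ≤ star y * ((‖x‖ ^ 2) • 1) * y := h1
    _ = _ := by rw [mul_smul_comm, smul_mul_assoc, mul_one]

lemma hs_mul_le' (hτ : Trc τ) (x y : N) : hs τ (x * y) ≤ ‖y‖ ^ 2 * hs τ x := by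
  rw [← hs_star hτ, star_mul, ← hs_star hτ x, ← norm_star y]
  exact hs_mul_le hτ _ _

lemma rt_one (hτ : Trc τ) : rt τ (1 : N) = 1 := by unfold rt; rw [hτ.one]; rfl

/-! ## unitaries -/

lemma Un.star {v : N} (hv : Un v) : Un (star v) :=
  ⟨by rw [star_star]; exact hv.2, by rw [star_star]; exact hv.1⟩

lemma hs_unit_mul {v : N} (hv : Un v) (x : N) : hs τ (v * x) = hs τ x := by
  rw [hs_eq_rt, star_mul, hs_eq_rt]
  congr 1
  calc Star.star x * Star.star v * (v * x) = Star.star x * (Star.star v * v) * x := by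
        noncomm_ring
    _ = _ := by rw [hv.1, mul_one]

lemma hs_mul_unit (hτ : Trc τ) {v : N} (hv : Un v) (x : N) : hs τ (x * v) = hs τ x := by
  rw [← hs_star hτ, star_mul, ← hs_star hτ x]
  exact hs_unit_mul hv.star _

lemma norm_unit_le {v : N} (hv : Un v) : ‖v‖ ≤ 1 := by
  rcases subsingleton_or_nontrivial N with hn | hn
  · have : v = 0 := Subsingleton.elim _ _
    rw [this, norm_zero]; exact zero_le_one
  have h := CStarRing.norm_star_mul_self (x := v)
  have h1 : ‖(1 : N)‖ = 1 := CStarRing.norm_one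
  rw [hv.1, h1] at h
  nlinarith [norm_nonneg v]

lemma hs_comm_unit (hτ : Trc τ) {v : N} (hv : Un v) (x : N) :
    hs τ (v * x - x * v) = hs τ (x - v * x * Star.star v) := by
  rw [hs_sub_comm, ← hs_mul_unit hτ hv.star, sub_mul, mul_assoc x, hv.2, mul_one]

/-! ## projections -/

lemma Pr.nonneg {p : N} (hp : Pr p) : 0 ≤ p := by
  rw [← hp.2]; nth_rewrite 1 [← hp.1]; exact nonneg_star_mul p

lemma Pr.isStar {p : N} (hp : Pr p) : IsStarProjection p := ⟨hp.2, hp.1⟩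

lemma Pr.one_sub {p : N} (hp : Pr p) : Pr (1 - p) := by
  refine ⟨by rw [star_sub, hp.1, star_one], ?_⟩
  rw [sub_mul, mul_sub, mul_sub, one_mul, hp.2]; simp

lemma Pr.le_one {p : N} (hp : Pr p) : p ≤ 1 := sub_nonneg.1 hp.one_sub.nonneg

lemma Pr.one : Pr (1 : N) := ⟨star_one N, mul_one 1⟩

lemma Pr.zero : Pr (0 : N) := ⟨star_zero N, mul_zero 0⟩

lemma Pr.hs {p : N} (hp : Pr p) : Helper61.HT.hs τ p = rt τ p := by
  rw [hs_eq_rt, hp.1, hp.2]

lemma Pr.norm_le {p : N} (hp : Pr p) : ‖p‖ ≤ 1 := norm_le_one_of_nonneg hp.nonneg hp.le_one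

lemma Pr.rt_nonneg (hτ : Trc τ) {p : N} (hp : Pr p) : 0 ≤ rt τ p :=
  Helper61.HT.rt_nonneg hτ hp.nonneg

lemma Pr.rt_pos (hτ : Trc τ) {p : N} (hp : Pr p) (h0 : p ≠ 0) : 0 < rt τ p := by
  refine lt_of_le_of_ne (hp.rt_nonneg hτ) fun h => h0 ?_
  refine hs_eq_zero hτ ?_
  rw [hp.hs]; exact h.symm

/-- If `0 ≤ z ≤ q` and `q` is a projection then `z q = z = q z`. -/
lemma Pr.absorb {q z : N} (hq : Pr q) (hz : 0 ≤ z) (hzq : z ≤ q) : z * q = z ∧ q * z = z :=
  hq.isStar.mul_right_and_mul_left_of_nonneg_of_le hz hzq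

lemma Pr.sub {p e : N} (hp : Pr p) (he : Pr e) (h : p * e = e) : Pr (p - e) := by
  have h2 : e * p = e := by
    have := congrArg Star.star h
    rwa [star_mul, he.1, hp.1] at this
  refine ⟨by rw [star_sub, hp.1, he.1], ?_⟩
  rw [sub_mul, mul_sub, mul_sub, hp.2, h, h2, he.2]; simp

lemma Pr.le_of_mul {p e : N} (hp : Pr p) (he : Pr e) (h : p * e = e) : e ≤ p :=
  sub_nonneg.1 (hp.sub he h).nonneg

/-! ## the resolvents `GG S = (1 + S)⁻¹` -/

lemma isStrictlyPositive_one_add {S : N} (hS : 0 ≤ S) : IsStrictlyPositive (1 + S) :=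
  isStrictlyPositive_one.add_nonneg hS

lemma isUnit_one_add {S : N} (hS : 0 ≤ S) : IsUnit (1 + S) :=
  (isStrictlyPositive_one_add hS).isUnit

lemma GG_mul {S : N} (hS : 0 ≤ S) : GG S * (1 + S) = 1 :=
  Ring.inverse_mul_cancel _ (isUnit_one_add hS)

lemma mul_GG {S : N} (hS : 0 ≤ S) : (1 + S) * GG S = 1 :=
  Ring.mul_inverse_cancel _ (isUnit_one_add hS)

lemma GG_herm {S : N} (hS : 0 ≤ S) : star (GG S) = GG S := by
  have h1 : star (1 + S) = 1 + S := by rw [star_add, star_one, herm_of_nonneg hS]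
  have h2 : star (GG S) * (1 + S) = 1 := by
    rw [← h1, ← star_mul, mul_GG hS, star_one]
  calc star (GG S) = star (GG S) * ((1 + S) * GG S) := by rw [mul_GG hS, mul_one]
    _ = GG S := by rw [← mul_assoc, h2, one_mul]

lemma GG_nonneg {S : N} (hS : 0 ≤ S) : 0 ≤ GG S := by
  have h1 : 0 ≤ GG S * (1 + S) * star (GG S) :=
    conj_nonneg (isStrictlyPositive_one_add hS).nonneg _
  rwa [GG_mul hS, one_mul, GG_herm hS] at h1

lemma GG_zero : GG (0 : N) = 1 := by simp [GG]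

/-- Resolvent identity. -/
lemma GG_sub {A B : N} (hA : 0 ≤ A) (hB : 0 ≤ B) :
    GG A - GG B = GG A * (B - A) * GG B := by
  calc GG A - GG B = GG A * ((1 + B) * GG B) - (GG A * (1 + A)) * GG B := by
        rw [mul_GG hB, GG_mul hA, mul_one, one_mul]
    _ = _ := by noncomm_ring

/-- `GG` is antitone. -/
lemma GG_anti {A B : N} (hA : 0 ≤ A) (h : A ≤ B) : GG B ≤ GG A :=
  CStarAlgebra.ringInverse_le_ringInverse (add_le_add_right h 1) (isStrictlyPositive_one_add hA)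

lemma GG_le_one {S : N} (hS : 0 ≤ S) : GG S ≤ 1 := by
  have := GG_anti (le_refl (0 : N)) hS
  rwa [GG_zero] at this

lemma one_sub_GG_nonneg {S : N} (hS : 0 ≤ S) : 0 ≤ 1 - GG S :=
  sub_nonneg.2 (GG_le_one hS)

lemma one_sub_GG_le_one {S : N} (hS : 0 ≤ S) : 1 - GG S ≤ 1 :=
  sub_le_self _ (GG_nonneg hS)

lemma norm_GG_le {S : N} (hS : 0 ≤ S) : ‖GG S‖ ≤ 1 :=
  norm_le_one_of_nonneg (GG_nonneg hS) (GG_le_one hS)

/-- Uniqueness of the inverse. -/
lemma GG_unique {S G : N} (hS : 0 ≤ S) (h : G * (1 + S) = 1) : G = GG S := by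
  calc G = G * ((1 + S) * GG S) := by rw [mul_GG hS, mul_one]
    _ = GG S := by rw [← mul_assoc, h, one_mul]

lemma GG_conj_unit {S v : N} (hS : 0 ≤ S) (hv : Un v) :
    GG (v * S * Star.star v) = v * GG S * Star.star v := by
  refine (GG_unique (conj_nonneg hS v) ?_).symm
  calc v * GG S * Star.star v * (1 + v * S * Star.star v) =
      v * GG S * Star.star v + v * GG S * (Star.star v * v) * S * Star.star v := by noncomm_ring
    _ = v * (GG S * (1 + S)) * Star.star v := by rw [hv.1]; noncomm_ring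
    _ = 1 := by rw [GG_mul hS, mul_one, hv.2]

lemma GG_comm {S : N} (hS : 0 ≤ S) {x : N} (h : x * S = S * x) : x * GG S = GG S * x := by
  have h1 : (1 + S) * x = x * (1 + S) := by rw [add_mul, mul_add, one_mul, mul_one, h]
  calc x * GG S = GG S * (1 + S) * x * GG S := by rw [GG_mul hS, one_mul]
    _ = GG S * x * ((1 + S) * GG S) := by rw [mul_assoc (GG S), h1]; noncomm_ring
    _ = GG S * x := by rw [mul_GG hS, mul_one]

/-! ## further lemmas -/

variable {ι : Type}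

/-- `hs (H z) ≤ τ (q H H)` for `0 ≤ z ≤ q`. -/
lemma hs_mul_le_of_le (hτ : Trc τ) {H q z : N} (hH : 0 ≤ H) (hq : Pr q) (hz : 0 ≤ z)
    (hzq : z ≤ q) : hs τ (H * z) ≤ rt τ (q * H * H) := by
  have h1 : z * z ≤ q :=
    (le_mul_self_of_le_one hz (hzq.trans hq.le_one)).trans hzq
  rw [hs_eq_rt, star_mul, herm_of_nonneg hH, herm_of_nonneg hz]
  calc rt τ (z * H * (H * z)) = rt τ ((z * z) * (H * H)) := by
        rw [show z * H * (H * z) = (z * (H * H)) * z by noncomm_ring, rt_mul_comm hτ]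
        congr 1; noncomm_ring
    _ ≤ rt τ (q * (H * H)) := by
        refine rt_mul_mono hτ h1 ?_
        have := nonneg_star_mul H
        rwa [herm_of_nonneg hH] at this
    _ = rt τ (q * H * H) := by rw [mul_assoc]

lemma hs_mul_le_of_le' (hτ : Trc τ) {H q z : N} (hH : 0 ≤ H) (hq : Pr q) (hz : 0 ≤ z)
    (hzq : z ≤ q) : hs τ (z * H) ≤ rt τ (q * H * H) := by
  rw [← hs_star hτ, star_mul, herm_of_nonneg hH, herm_of_nonneg hz]
  exact hs_mul_le_of_le hτ hH hq hz hzq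

/-- `‖z - (1-H) z (1-H)‖₂ ≤ 2 sqrt (τ (q H H))`. -/
lemma sqrt_hs_sandwich (hτ : Trc τ) {H q z : N} (hH : 0 ≤ H) (hH1 : H ≤ 1) (hq : Pr q)
    (hz : 0 ≤ z) (hzq : z ≤ q) :
    Real.sqrt (hs τ (z - (1 - H) * z * (1 - H))) ≤ 2 * Real.sqrt (rt τ (q * H * H)) := by
  have h1 : z - (1 - H) * z * (1 - H) = H * z * (1 - H) + z * H := by noncomm_ring
  rw [h1]
  refine (sqrt_hs_add_le hτ _ _).trans ?_
  have h2 : hs τ (H * z * (1 - H)) ≤ hs τ (H * z) :=
    hs_mul_right_le hτ (norm_le_one_of_nonneg (sub_nonneg.2 hH1) (sub_le_self _ hH))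
  have h3 := Real.sqrt_le_sqrt (h2.trans (hs_mul_le_of_le hτ hH hq hz hzq))
  have h4 := Real.sqrt_le_sqrt (hs_mul_le_of_le' hτ hH hq hz hzq)
  linarith

lemma rt_sandwich_le (hτ : Trc τ) {H z : N} (hH : 0 ≤ H) (hH1 : H ≤ 1) (hz : 0 ≤ z) :
    rt τ ((1 - H) * z * (1 - H)) ≤ rt τ z := by
  have h0 : 0 ≤ 1 - H := sub_nonneg.2 hH1
  have h1 : (1 - H) * (1 - H) ≤ 1 :=
    (le_mul_self_of_le_one h0 (sub_le_self _ hH)).trans (sub_le_self _ hH)
  calc rt τ ((1 - H) * z * (1 - H)) = rt τ (((1 - H) * (1 - H)) * z) := by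
        rw [rt_cycle hτ]
    _ ≤ rt τ (1 * z) := rt_mul_mono hτ h1 hz
    _ = rt τ z := by rw [one_mul]

lemma sandwich_nonneg {H z : N} (hH : 0 ≤ H) (hz : 0 ≤ z) :
    0 ≤ (1 - H) * z * (1 - H) := by
  have := conj_nonneg hz (1 - H)
  rwa [star_sub, star_one, herm_of_nonneg hH] at this

lemma hs_sandwich_le (hτ : Trc τ) {H z : N} (hH : 0 ≤ H) (hH1 : H ≤ 1) (hz : 0 ≤ z)
    (hz1 : z ≤ 1) : hs τ ((1 - H) * z * (1 - H)) ≤ rt τ z := by
  have hn : ‖(1 : N) - H‖ ≤ 1 :=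
    norm_le_one_of_nonneg (sub_nonneg.2 hH1) (sub_le_self _ hH)
  exact ((hs_mul_right_le hτ hn).trans (hs_mul_left_le hτ hn)).trans (hs_le_rt hτ hz hz1)

lemma sandwich_le_one {H z : N} (hH : 0 ≤ H) (hH1 : H ≤ 1)
    (hz1 : z ≤ 1) : (1 - H) * z * (1 - H) ≤ 1 := by
  have h := conj_mono hz1 (1 - H)
  rw [star_sub, star_one, herm_of_nonneg hH, mul_one] at h
  exact h.trans ((le_mul_self_of_le_one (sub_nonneg.2 hH1) (sub_le_self _ hH)).trans
    (sub_le_self _ hH))

lemma En_nonneg (hτ : Trc τ) (F : Finset ι) (u : ι → N) (y : N) : 0 ≤ En τ F u y :=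
  Finset.sum_nonneg fun _ _ => hs_nonneg hτ _

lemma En_mono (hτ : Trc τ) {S F : Finset ι} (h : S ⊆ F) (u : ι → N) (y : N) :
    En τ S u y ≤ En τ F u y :=
  Finset.sum_le_sum_of_subset_of_nonneg h fun _ _ _ => hs_nonneg hτ _

lemma En_add_le (hτ : Trc τ) (S : Finset ι) (u : ι → N) (x y : N) :
    En τ S u (x + y) ≤ 2 * En τ S u x + 2 * En τ S u y := by
  unfold En
  rw [Finset.mul_sum, Finset.mul_sum, ← Finset.sum_add_distrib]
  refine Finset.sum_le_sum fun s _ => ?_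
  have h : u s * (x + y) - (x + y) * u s = (u s * x - x * u s) + (u s * y - y * u s) := by
    noncomm_ring
  rw [h]
  exact hs_add_le hτ _ _

lemma En_neg (S : Finset ι) (u : ι → N) (x : N) : En τ S u (-x) = En τ S u x := by
  unfold En
  refine Finset.sum_congr rfl fun s _ => ?_
  rw [← hs_neg]
  congr 1; noncomm_ring

lemma En_sub_le (hτ : Trc τ) (S : Finset ι) (u : ι → N) (x y : N) :
    En τ S u (x - y) ≤ 2 * En τ S u x + 2 * En τ S u y := by
  have := En_add_le hτ S u x (-y)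
  rwa [En_neg, ← sub_eq_add_neg] at this

/-- `En (1 - y) = En y`. -/
lemma En_one_sub (S : Finset ι) (u : ι → N) (x : N) : En τ S u (1 - x) = En τ S u x := by
  unfold En
  refine Finset.sum_congr rfl fun s _ => ?_
  rw [← hs_neg]
  congr 1; noncomm_ring

/-- Energy of `q e q`. -/
lemma En_compress_le (hτ : Trc τ) (S : Finset ι) (u : ι → N) {q e : N} (hq : ‖q‖ ≤ 1)
    (he : ‖e‖ ≤ 1) : En τ S u (q * e * q) ≤ 8 * En τ S u q + 2 * En τ S u e := by
  unfold En
  rw [Finset.mul_sum, Finset.mul_sum, ← Finset.sum_add_distrib]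
  refine Finset.sum_le_sum fun s _ => ?_
  have h : u s * (q * e * q) - q * e * q * u s =
      ((u s * q - q * u s) * (e * q) + (q * e) * (u s * q - q * u s)) +
        q * (u s * e - e * u s) * q := by noncomm_ring
  rw [h]
  refine (hs_add_le hτ _ _).trans ?_
  have h1 := hs_add_le hτ ((u s * q - q * u s) * (e * q)) ((q * e) * (u s * q - q * u s))
  have hqe : ‖q * e‖ ≤ 1 := (norm_mul_le _ _).trans (by nlinarith [norm_nonneg q, norm_nonneg e])
  have heq : ‖e * q‖ ≤ 1 := (norm_mul_le _ _).trans (by nlinarith [norm_nonneg q, norm_nonneg e])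
  have h2 : hs τ ((u s * q - q * u s) * (e * q)) ≤ hs τ (u s * q - q * u s) :=
    hs_mul_right_le hτ heq
  have h3 : hs τ ((q * e) * (u s * q - q * u s)) ≤ hs τ (u s * q - q * u s) :=
    hs_mul_left_le hτ hqe
  have h4 : hs τ (q * (u s * e - e * u s) * q) ≤ hs τ (u s * e - e * u s) :=
    (hs_mul_right_le hτ hq).trans (hs_mul_left_le hτ hq)
  linarith

/-! ## support projections -/

lemma IsSupp.mul_right {b p : N} (h : IsSupp b p) (hb : Star.star b = b) : b * p = b := by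
  have := congrArg Star.star h.2.1
  rwa [star_mul, hb, h.1.1] at this

/-- Support projections are unique. -/
lemma IsSupp.unique {b p q : N} (hb : Star.star b = b) (hp : IsSupp b p) (hq : IsSupp b q) :
    p = q := by
  have h1 : p * (1 - q) = 0 := hp.2.2 _ (by rw [mul_sub, mul_one, hq.mul_right hb, sub_self])
  have h2 : q * (1 - p) = 0 := hq.2.2 _ (by rw [mul_sub, mul_one, hp.mul_right hb, sub_self])
  have h3 : p = p * q := by rwa [mul_sub, mul_one, sub_eq_zero] at h1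
  have h4 : q = q * p := by rwa [mul_sub, mul_one, sub_eq_zero] at h2
  have h5 := congrArg Star.star h4
  rw [star_mul, hq.1.1, hp.1.1] at h5
  rw [h3, ← h5]

/-! ## lemmas on maps -/

@[simp] lemma Cj_apply (c : N) (ψ : N →ₗ[ℂ] N) (x : N) :
    Cj c ψ x = c * ψ (star c * x * c) * star c := rfl

@[simp] lemma Mp_apply (y x : N) : Mp y x = y * x * star y := rfl

lemma Cj_Cj (c d : N) (ψ : N →ₗ[ℂ] N) : Cj c (Cj d ψ) = Cj (c * d) ψ := by
  ext x
  simp only [Cj_apply, star_mul, mul_assoc]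

lemma Cj_Mp (c y : N) : Cj c (Mp y) = Mp (c * y * star c) := by
  ext x
  simp only [Cj_apply, Mp_apply, star_mul, star_star, mul_assoc]

lemma EnM_eq (F : Finset ι) (u : ι → N) (ψ : N →ₗ[ℂ] N) :
    EnM τ F u ψ = ∑ s ∈ F, 2 * (rt τ (ψ 1) - rt τ (star (u s) * ψ (u s))) := rfl

end order

end Helper61.HT
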