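import Pool.Agent.Helper61.HT.StB
import Pool.Agent.Helper61.HT.LibN

/-!
# Project HT: the bimodule of a symmetric completely positive map
-/

namespace Helper61.HT

open scoped ComplexOrder TensorProduct

section bim

variable {N : Type} [CStarAlgebra N] {τ : N →ₗ[ℂ] ℂ} {ψ : N →ₗ[ℂ] N}

/-- the bilinear form `(a ⊗ b, c ⊗ d) ↦ τ(a c ψ(d b))` -/
private noncomputable def bmB (τ : N →ₗ[ℂ] ℂ) (ψ : N →ₗ[ℂ] N) :
    N ⊗[ℂ] N →ₗ[ℂ] N ⊗[ℂ] N →ₗ[ℂ] ℂ :=
  TensorProduct.lift (LinearMap.mk₂ ℂ
    (fun a b => TensorProduct.lift (LinearMap.mk₂ ℂ (fun c d => τ (a * c * ψ (d * b)))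
      (fun c c' d => by rw [mul_add, add_mul, map_add])
      (fun r c d => by rw [mul_smul_comm, smul_mul_assoc, map_smul])
      (fun c d d' => by rw [add_mul, map_add, mul_add, map_add])
      (fun r c d => by rw [smul_mul_assoc, map_smul, mul_smul_comm, map_smul])))
    (fun a a' b => by
      apply TensorProduct.ext'
      intro c d
      simp only [TensorProduct.lift.tmul, LinearMap.mk₂_apply, LinearMap.add_apply]
      rw [add_mul, add_mul, map_add])
    (fun r a b => by
      apply TensorProduct.ext'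
      intro c d
      simp only [TensorProduct.lift.tmul, LinearMap.mk₂_apply, LinearMap.smul_apply]
      rw [smul_mul_assoc, smul_mul_assoc, map_smul])
    (fun a b b' => by
      apply TensorProduct.ext'
      intro c d
      simp only [TensorProduct.lift.tmul, LinearMap.mk₂_apply, LinearMap.add_apply]
      rw [mul_add, map_add, mul_add, map_add])
    (fun r a b => by
      apply TensorProduct.ext'
      intro c d
      simp only [TensorProduct.lift.tmul, LinearMap.mk₂_apply, LinearMap.smul_apply]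
      rw [mul_smul_comm, map_smul, mul_smul_comm, map_smul]))

private lemma bmB_tmul (a b c d : N) : bmB τ ψ (a ⊗ₜ b) (c ⊗ₜ d) = τ (a * c * ψ (d * b)) := by
  unfold bmB
  rw [TensorProduct.lift.tmul, LinearMap.mk₂_apply, TensorProduct.lift.tmul, LinearMap.mk₂_apply]

/-- the sesquilinear form `(a ⊗ b, c ⊗ d) ↦ τ(a* c ψ(d b*))` -/
private noncomputable def bmF (τ : N →ₗ[ℂ] ℂ) (ψ : N →ₗ[ℂ] N) (u w : N ⊗[ℂ] N) : ℂ :=
  bmB τ ψ (star u) w

private lemma bmF_tmul (a b c d : N) :
    bmF τ ψ (a ⊗ₜ b) (c ⊗ₜ d) = τ (star a * c * ψ (d * star b)) := by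
  unfold bmF
  rw [TensorProduct.star_tmul, bmB_tmul]

private lemma bmF_add_left (u u' w : N ⊗[ℂ] N) :
    bmF τ ψ (u + u') w = bmF τ ψ u w + bmF τ ψ u' w := by
  unfold bmF
  rw [star_add, map_add, LinearMap.add_apply]

private lemma bmF_add_right (u w w' : N ⊗[ℂ] N) :
    bmF τ ψ u (w + w') = bmF τ ψ u w + bmF τ ψ u w' := by
  unfold bmF
  rw [map_add]

private lemma bmF_smul_left (r : ℂ) (u w : N ⊗[ℂ] N) :
    bmF τ ψ (r • u) w = star r * bmF τ ψ u w := by
  unfold bmF
  rw [star_smul, map_smul, LinearMap.smul_apply, smul_eq_mul]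

private lemma bmF_zero_left (w : N ⊗[ℂ] N) : bmF τ ψ 0 w = 0 := by
  unfold bmF
  rw [star_zero, map_zero, LinearMap.zero_apply]

private lemma bmF_zero_right (w : N ⊗[ℂ] N) : bmF τ ψ w 0 = 0 := by
  unfold bmF
  rw [map_zero]

private lemma bmF_symm (hτ : Trc τ) (hs : ∀ x, ψ (star x) = star (ψ x)) (u w : N ⊗[ℂ] N) :
    star (bmF τ ψ w u) = bmF τ ψ u w := by
  induction u with
  | zero => rw [bmF_zero_left, bmF_zero_right, star_zero]
  | add u u' h h' => rw [bmF_add_left, bmF_add_right, star_add, h, h']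
  | tmul a b =>
    induction w with
    | zero => rw [bmF_zero_left, bmF_zero_right, star_zero]
    | add u u' h h' => rw [bmF_add_left, bmF_add_right, star_add, h, h']
    | tmul c d =>
      rw [bmF_tmul, bmF_tmul]
      have h1 := map_star' hτ (star c * a * ψ (b * star d))
      rw [RCLike.star_def, ← h1, star_mul, star_mul, star_star, ← hs, star_mul, star_star, hτ.tr,
        mul_assoc]

private lemma bmF_sum_sum {κ : Type} (s t : Finset κ) (a b c d : κ → N) :
    bmF τ ψ (∑ i ∈ s, a i ⊗ₜ b i) (∑ j ∈ t, c j ⊗ₜ d j) =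
      ∑ i ∈ s, ∑ j ∈ t, τ (star (a i) * c j * ψ (d j * star (b i))) := by
  unfold bmF
  rw [star_sum, map_sum (bmB τ ψ), LinearMap.sum_apply]
  refine Finset.sum_congr rfl fun i _ => ?_
  rw [map_sum]
  refine Finset.sum_congr rfl fun j _ => ?_
  rw [TensorProduct.star_tmul, bmB_tmul]

private lemma bmF_nonneg
    (hcp : ∀ (m : ℕ) (x y : Fin m → N),
      0 ≤ (∑ i, ∑ j, τ (star (x i) * x j * ψ (y j * star (y i)))).re) (u : N ⊗[ℂ] N) :
    0 ≤ (bmF τ ψ u u).re := by
  obtain ⟨S, hS⟩ := TensorProduct.exists_finset u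
  let e := S.equivFin.symm
  have h1 : u = ∑ i : Fin S.card, (e i).1.1 ⊗ₜ[ℂ] (e i).1.2 := by
    rw [hS, ← Finset.sum_coe_sort S]
    exact (e.sum_comp (fun x : S => x.1.1 ⊗ₜ[ℂ] x.1.2)).symm
  rw [h1, bmF_sum_sum]
  exact hcp _ _ _

/-- the pre-inner product -/
@[reducible]
private noncomputable def bmCore (hτ : Trc τ) (hs : ∀ x, ψ (star x) = star (ψ x))
    (hcp : ∀ (m : ℕ) (x y : Fin m → N),
      0 ≤ (∑ i, ∑ j, τ (star (x i) * x j * ψ (y j * star (y i)))).re) :
    PreInnerProductSpace.Core ℂ (N ⊗[ℂ] N) where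
  inner u w := bmF τ ψ u w
  conj_inner_symm u w := bmF_symm hτ hs u w
  re_inner_nonneg u := bmF_nonneg hcp u
  add_left u v w := bmF_add_left u v w
  smul_left u v r := bmF_smul_left r u v

/-- left multiplication -/
private noncomputable def bmL : N →ₗ[ℂ] (N ⊗[ℂ] N →ₗ[ℂ] N ⊗[ℂ] N) where
  toFun x := LinearMap.rTensor N (LinearMap.mulLeft ℂ x)
  map_add' x y := by
    apply TensorProduct.ext'
    intro c d
    simp only [LinearMap.rTensor_tmul, LinearMap.mulLeft_apply, LinearMap.add_apply]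
    rw [add_mul, TensorProduct.add_tmul]
  map_smul' r x := by
    apply TensorProduct.ext'
    intro c d
    simp only [LinearMap.rTensor_tmul, LinearMap.mulLeft_apply, LinearMap.smul_apply,
      RingHom.id_apply]
    rw [smul_mul_assoc, TensorProduct.smul_tmul']

/-- right multiplication -/
private noncomputable def bmR : N →ₗ[ℂ] (N ⊗[ℂ] N →ₗ[ℂ] N ⊗[ℂ] N) where
  toFun x := LinearMap.lTensor N (LinearMap.mulRight ℂ x)
  map_add' x y := by
    apply TensorProduct.ext'
    intro c d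
    simp only [LinearMap.lTensor_tmul, LinearMap.mulRight_apply, LinearMap.add_apply]
    rw [mul_add, TensorProduct.tmul_add]
  map_smul' r x := by
    apply TensorProduct.ext'
    intro c d
    simp only [LinearMap.lTensor_tmul, LinearMap.mulRight_apply, LinearMap.smul_apply,
      RingHom.id_apply]
    rw [mul_smul_comm, TensorProduct.tmul_smul]

private lemma bmL_tmul (x c d : N) : bmL x (c ⊗ₜ d) = (x * c) ⊗ₜ d := rfl

private lemma bmR_tmul (x c d : N) : bmR x (c ⊗ₜ d) = c ⊗ₜ (d * x) := rfl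

private lemma bmL_adj (x : N) (u w : N ⊗[ℂ] N) :
    bmF τ ψ (bmL x u) w = bmF τ ψ u (bmL (star x) w) := by
  induction u with
  | zero => rw [map_zero, bmF_zero_left, bmF_zero_left]
  | add u u' h h' => rw [map_add, bmF_add_left, bmF_add_left, h, h']
  | tmul a b =>
    induction w with
    | zero => rw [map_zero, bmF_zero_right, bmF_zero_right]
    | add u u' h h' => rw [map_add, bmF_add_right, bmF_add_right, h, h']
    | tmul c d =>
      rw [bmL_tmul, bmL_tmul, bmF_tmul, bmF_tmul, star_mul, mul_assoc (star a)]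

private lemma bmR_adj (x : N) (u w : N ⊗[ℂ] N) :
    bmF τ ψ (bmR x u) w = bmF τ ψ u (bmR (star x) w) := by
  induction u with
  | zero => rw [map_zero, bmF_zero_left, bmF_zero_left]
  | add u u' h h' => rw [map_add, bmF_add_left, bmF_add_left, h, h']
  | tmul a b =>
    induction w with
    | zero => rw [map_zero, bmF_zero_right, bmF_zero_right]
    | add u u' h h' => rw [map_add, bmF_add_right, bmF_add_right, h, h']
    | tmul c d =>
      rw [bmR_tmul, bmR_tmul, bmF_tmul, bmF_tmul, star_mul, mul_assoc d]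

end bim

section desc

variable {A H : Type} [AddCommGroup A] [Module ℂ A] [AddCommGroup H] [Module ℂ H]

/-- descent of a linear map along a surjection -/
private noncomputable def dsc (q : A →ₗ[ℂ] H) (hq : Function.Surjective q) (f : A →ₗ[ℂ] A)
    (hf : ∀ u, q u = 0 → q (f u) = 0) : H →ₗ[ℂ] H where
  toFun h := q (f (Function.surjInv hq h))
  map_add' h h' := by
    have h1 := hf (Function.surjInv hq (h + h') - Function.surjInv hq h - Function.surjInv hq h')
      (by
        rw [map_sub, map_sub, Function.surjInv_eq hq, Function.surjInv_eq hq,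
          Function.surjInv_eq hq]
        abel)
    rw [map_sub, map_sub, map_sub, map_sub, sub_sub, sub_eq_zero] at h1
    exact h1
  map_smul' r h := by
    have h1 := hf (Function.surjInv hq (r • h) - r • Function.surjInv hq h)
      (by rw [map_sub, map_smul, Function.surjInv_eq hq, Function.surjInv_eq hq, sub_self])
    rw [map_sub, map_sub, map_smul, map_smul, sub_eq_zero] at h1
    exact h1

private lemma dsc_apply (q : A →ₗ[ℂ] H) (hq : Function.Surjective q) (f : A →ₗ[ℂ] A)
    (hf : ∀ u, q u = 0 → q (f u) = 0) (u : A) : dsc q hq f hf (q u) = q (f u) := by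
  have h1 := hf (Function.surjInv hq (q u) - u)
      (by rw [map_sub, Function.surjInv_eq hq, sub_self])
  rw [map_sub, map_sub, sub_eq_zero] at h1
  exact h1

end desc

/-- Every map in `SCP` is the map of a bimodule vector. -/
theorem pBim : StBim := by
  intro N _ _ _ τ ψ hτ hψ
  let _ : SeminormedAddCommGroup (N ⊗[ℂ] N) :=
    @InnerProductSpace.Core.toSeminormedAddCommGroup ℂ (N ⊗[ℂ] N) _ _ _
      (bmCore hτ hψ.map_star hψ.cp)
  let _ : InnerProductSpace ℂ (N ⊗[ℂ] N) := InnerProductSpace.ofCore (bmCore hτ hψ.map_star hψ.cp)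
  have hin : ∀ f g : N ⊗[ℂ] N, inner ℂ f g = bmF τ ψ f g := fun f g => rfl
  let q : N ⊗[ℂ] N →ₗ[ℂ] SeparationQuotient (N ⊗[ℂ] N) :=
    { toFun := SeparationQuotient.mk
      map_add' := fun x y => rfl
      map_smul' := fun r x => rfl }
  have hq : Function.Surjective q := SeparationQuotient.surjective_mk
  have hqi : ∀ f g : N ⊗[ℂ] N, inner ℂ (q f) (q g) = bmF τ ψ f g := fun f g => rfl
  have hq0 : ∀ f : N ⊗[ℂ] N, (∀ g, bmF τ ψ f g = 0) → q f = 0 := by
    intro f hf
    rw [← inner_self_eq_zero (𝕜 := ℂ), hqi]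
    exact hf f
  have hq0' : ∀ f : N ⊗[ℂ] N, q f = 0 → ∀ g, bmF τ ψ f g = 0 := by
    intro f hf g
    rw [← hqi, hf, inner_zero_left]
  have hL : ∀ x (u : N ⊗[ℂ] N), q u = 0 → q (bmL x u) = 0 := by
    intro x u hu
    apply hq0
    intro g
    rw [bmL_adj]
    exact hq0' u hu _
  have hR : ∀ x (u : N ⊗[ℂ] N), q u = 0 → q (bmR x u) = 0 := by
    intro x u hu
    apply hq0
    intro g
    rw [bmR_adj]
    exact hq0' u hu _
  let L : N →ₗ[ℂ] (SeparationQuotient (N ⊗[ℂ] N) →ₗ[ℂ] SeparationQuotient (N ⊗[ℂ] N)) :=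
    { toFun := fun x => dsc q hq (bmL x) (hL x)
      map_add' := fun x y => by
        ext h
        obtain ⟨u, rfl⟩ := hq h
        rw [LinearMap.add_apply, dsc_apply, dsc_apply, dsc_apply, map_add, LinearMap.add_apply,
          map_add]
      map_smul' := fun r x => by
        ext h
        obtain ⟨u, rfl⟩ := hq h
        rw [LinearMap.smul_apply, dsc_apply, dsc_apply, map_smul, LinearMap.smul_apply, map_smul]
        rfl }
  let R : N →ₗ[ℂ] (SeparationQuotient (N ⊗[ℂ] N) →ₗ[ℂ] SeparationQuotient (N ⊗[ℂ] N)) :=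
    { toFun := fun x => dsc q hq (bmR x) (hR x)
      map_add' := fun x y => by
        ext h
        obtain ⟨u, rfl⟩ := hq h
        rw [LinearMap.add_apply, dsc_apply, dsc_apply, dsc_apply, map_add, LinearMap.add_apply,
          map_add]
      map_smul' := fun r x => by
        ext h
        obtain ⟨u, rfl⟩ := hq h
        rw [LinearMap.smul_apply, dsc_apply, dsc_apply, map_smul, LinearMap.smul_apply, map_smul]
        rfl }
  have hLq : ∀ x u, L x (q u) = q (bmL x u) := fun x u => dsc_apply q hq (bmL x) (hL x) u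
  have hRq : ∀ x u, R x (q u) = q (bmR x u) := fun x u => dsc_apply q hq (bmR x) (hR x) u
  have hext : ∀ f g : N ⊗[ℂ] N →ₗ[ℂ] N ⊗[ℂ] N, (∀ c d, f (c ⊗ₜ d) = g (c ⊗ₜ d)) →
      ∀ u, f u = g u := by
    intro f g h u
    have : f = g := TensorProduct.ext' h
    rw [this]
  refine ⟨SeparationQuotient (N ⊗[ℂ] N), inferInstance, inferInstance,
    { L := L
      R := R
      L_one := ?_
      R_one := ?_
      L_mul := ?_
      R_mul := ?_
      comm := ?_
      L_adj := ?_
      R_adj := ?_ }, q (1 ⊗ₜ 1), ?_⟩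
  · intro v
    obtain ⟨u, rfl⟩ := hq v
    rw [hLq]
    congr 1
    exact hext (bmL 1) LinearMap.id (fun c d => by rw [bmL_tmul, one_mul]; rfl) u
  · intro v
    obtain ⟨u, rfl⟩ := hq v
    rw [hRq]
    congr 1
    exact hext (bmR 1) LinearMap.id (fun c d => by rw [bmR_tmul, mul_one]; rfl) u
  · intro x y v
    obtain ⟨u, rfl⟩ := hq v
    rw [hLq, hLq, hLq]
    congr 1
    exact hext (bmL (x * y)) (bmL x ∘ₗ bmL y)
      (fun c d => by rw [LinearMap.comp_apply, bmL_tmul, bmL_tmul, bmL_tmul, mul_assoc]) u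
  · intro x y v
    obtain ⟨u, rfl⟩ := hq v
    rw [hRq, hRq, hRq]
    congr 1
    exact hext (bmR (x * y)) (bmR y ∘ₗ bmR x)
      (fun c d => by rw [LinearMap.comp_apply, bmR_tmul, bmR_tmul, bmR_tmul, mul_assoc]) u
  · intro x y v
    obtain ⟨u, rfl⟩ := hq v
    rw [hRq, hLq, hLq, hRq]
    congr 1
    exact hext (bmL x ∘ₗ bmR y) (bmR y ∘ₗ bmL x)
      (fun c d => by
        rw [LinearMap.comp_apply, LinearMap.comp_apply, bmR_tmul, bmL_tmul, bmL_tmul, bmR_tmul]) u
  · intro x v w
    obtain ⟨u, rfl⟩ := hq v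
    obtain ⟨u', rfl⟩ := hq w
    rw [hLq, hLq, hqi, hqi, bmL_adj]
  · intro x v w
    obtain ⟨u, rfl⟩ := hq v
    obtain ⟨u', rfl⟩ := hq w
    rw [hRq, hRq, hqi, hqi, bmR_adj]
  · intro x y
    show inner ℂ (q (1 ⊗ₜ 1)) (L x (R y (q (1 ⊗ₜ 1)))) = _
    rw [hRq, hLq, hqi, bmR_tmul, bmL_tmul, bmF_tmul, star_one, one_mul, mul_one, one_mul,
      mul_one]

end Helper61.HT
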