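import Pool.Agent.Helper61.HT.StB
import Pool.Agent.Helper61.HT.LibN

/-!
# Project HT, module CC: the crude competitor
-/

set_option linter.unusedSectionVars false

namespace Helper61.HT

open scoped ComplexOrder
open Filter Topology

private lemma exists_k0' (g : ℕ) (e : ℝ) (he : 0 < e) :
    ∃ k₀ : ℕ, ∀ k ≥ k₀, 3 * (4 * g / (2 * (k : ℝ) + 1)) +
      12 * Real.sqrt (8 * g * (4 * g / (2 * (k : ℝ) + 1))) ≤ e := by
  have h0 : Tendsto (fun k : ℕ => 2 * (k : ℝ) + 1) atTop atTop := by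
    refine tendsto_atTop_add_const_right _ _ ?_
    exact Tendsto.const_mul_atTop (by norm_num) tendsto_natCast_atTop_atTop
  have h1 : Tendsto (fun k : ℕ => (4 * (g : ℝ)) / (2 * (k : ℝ) + 1)) atTop (𝓝 0) :=
    h0.const_div_atTop _
  have h2 : Tendsto (fun k : ℕ => 3 * (4 * g / (2 * (k : ℝ) + 1)) +
      12 * Real.sqrt (8 * g * (4 * g / (2 * (k : ℝ) + 1)))) atTop
      (𝓝 (3 * 0 + 12 * Real.sqrt (8 * g * 0))) := by
    refine (h1.const_mul _).add (Tendsto.const_mul _ ?_)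
    exact (Real.continuous_sqrt.tendsto _).comp (h1.const_mul _)
  rw [mul_zero, mul_zero, Real.sqrt_zero, mul_zero, add_zero] at h2
  obtain ⟨k₀, hk₀⟩ := eventually_atTop.1 (h2.eventually (gt_mem_nhds he))
  exact ⟨k₀, fun k hk => (hk₀ k hk).le⟩

private lemma num1 {P Q s d e : ℝ} (hP : 0 ≤ P) (hQs : Q ≤ s) (hs : 0 ≤ s)
    (hd : 0 ≤ d) (hde : 2 * d + d ^ 2 ≤ e) (h1 : P ≤ Q + d * s) : P ^ 2 ≤ Q ^ 2 + e * s ^ 2 := by
  have h2 : P ^ 2 ≤ (Q + d * s) ^ 2 := pow_le_pow_left₀ hP h1 2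
  have h3 : d * s * Q ≤ d * s * s := mul_le_mul_of_nonneg_left hQs (by positivity)
  have h4 : (2 * d + d ^ 2) * s ^ 2 ≤ e * s ^ 2 := mul_le_mul_of_nonneg_right hde (by positivity)
  calc P ^ 2 ≤ (Q + d * s) ^ 2 := h2
    _ = Q ^ 2 + 2 * (d * s * Q) + d ^ 2 * s ^ 2 := by ring
    _ ≤ Q ^ 2 + 2 * (d * s * s) + d ^ 2 * s ^ 2 := by linarith
    _ = Q ^ 2 + (2 * d + d ^ 2) * s ^ 2 := by ring
    _ ≤ _ := by linarith

private lemma num2 {P Q s d e : ℝ} (hP : 0 ≤ P) (hQ : 0 ≤ Q) (hQs : Q ≤ s) (hs : 0 ≤ s)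
    (hd : 0 ≤ d) (he : 0 ≤ e) (hde : 2 * d + d ^ 2 ≤ e) (h1 : Q ≤ P + d * s) :
    Q ^ 2 - e * s ^ 2 ≤ P ^ 2 := by
  rcases le_total Q P with h | h
  · have h2 : Q ^ 2 ≤ P ^ 2 := pow_le_pow_left₀ hQ h 2
    have h3 : 0 ≤ e * s ^ 2 := by positivity
    linarith
  · have := num1 hQ (h.trans hQs) hs hd hde h1
    linarith

section

variable {N : Type} [CStarAlgebra N] [PartialOrder N] [StarOrderedRing N] {τ : N →ₗ[ℂ] ℂ}

private lemma scp_mono {ψ : N →ₗ[ℂ] N} (h : SCP τ ψ) {x y : N} (hxy : x ≤ y) : ψ x ≤ ψ y := by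
  have := h.nonneg _ (sub_nonneg.2 hxy)
  rw [map_sub] at this
  exact sub_nonneg.1 this

private lemma rt_one_map {ψ : N →ₗ[ℂ] N} (h : SCP τ ψ) (p : N) :
    rt τ (ψ p) = rt τ (ψ 1 * p) := by
  have := h.symm 1 p
  rw [one_mul] at this
  unfold rt
  rw [this]

/-- `τ(pψ(p)) ≥ 2 τ(pψ(1)) - τ(ψ(1))`. -/
private lemma rt_pp (hτ : Trc τ) {ψ : N →ₗ[ℂ] N} (h : SCP τ ψ) {p : N} (hp : star p = p) :
    2 * rt τ (p * ψ 1) - rt τ (ψ 1) ≤ rt τ (p * ψ p) := by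
  have h1 := h.pos (1 - p)
  rw [star_sub, star_one, hp, map_sub, sub_mul, one_mul, mul_sub, rt_sub, rt_sub, rt_sub,
    rt_one_map h p, rt_mul_comm hτ (ψ 1) p] at h1
  linarith

/-- `‖GqG - q‖₂ ≤ 2 √τ(qH)`, `G = 1 - H`. -/
private lemma dist_GqG (hτ : Trc τ) {H q : N} (hH0 : 0 ≤ H) (hH1 : H ≤ 1) (hq : Pr q) :
    Real.sqrt (hs τ ((1 - H) * q * (1 - H) - q)) ≤ 2 * Real.sqrt (rt τ (q * H)) := by
  have hHs : star H = H := herm_of_nonneg hH0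
  have hG0 : 0 ≤ 1 - H := sub_nonneg.2 hH1
  have hG1 : 1 - H ≤ 1 := sub_le_self _ hH0
  have hGn : ‖1 - H‖ ≤ 1 := norm_le_one_of_nonneg hG0 hG1
  have e1 : (1 - H) * q * (1 - H) - q = -(H * q * (1 - H)) - q * H := by noncomm_ring
  have hHH := rt_mul_mono' hτ (le_mul_self_of_le_one hH0 hH1) hq.nonneg
  have h1 : hs τ (H * q * (1 - H)) ≤ rt τ (q * H) := by
    refine (hs_mul_right_le hτ hGn).trans ?_
    rw [hs_eq_rt, star_mul, hq.1, hHs, ← mul_assoc, rt_mul_comm hτ, ← mul_assoc, ← mul_assoc,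
      hq.2, mul_assoc]
    exact hHH
  have h2 : hs τ (q * H) ≤ rt τ (q * H) := by
    rw [hs_eq_rt, star_mul, hq.1, hHs, show H * q * (q * H) = H * (q * q * H) by noncomm_ring,
      hq.2, rt_mul_comm hτ, mul_assoc]
    exact hHH
  rw [e1]
  refine (sqrt_hs_sub_le hτ _ _).trans ?_
  rw [hs_neg]
  have h3 := Real.sqrt_le_sqrt h1
  have h4 := Real.sqrt_le_sqrt h2
  linarith

/-- `τ(GqG H) ≤ τ(qH)`. -/
private lemma rt_yH (hτ : Trc τ) {H q : N} (hH0 : 0 ≤ H) (hH1 : H ≤ 1) (hq : Pr q) :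
    rt τ ((1 - H) * q * (1 - H) * H) ≤ rt τ (q * H) := by
  have hHs : star H = H := herm_of_nonneg hH0
  have e1 : rt τ ((1 - H) * q * (1 - H) * H) = rt τ (q * ((1 - H) * H * (1 - H))) := by
    rw [show (1 - H) * q * (1 - H) * H = (1 - H) * (q * ((1 - H) * H)) by noncomm_ring,
      rt_mul_comm hτ (1 - H),
      show q * ((1 - H) * H) * (1 - H) = q * ((1 - H) * H * (1 - H)) by noncomm_ring]
  have e2 : (1 - H) * H * (1 - H) ≤ H := by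
    have h1 : H * (1 - (1 - H)) * H ≤ H * 1 * H := by
      have := conj_mono (show (1 - (1 - H) : N) ≤ 1 by rw [sub_sub_cancel]; exact hH1) H
      rwa [hHs] at this
    have h2 : (1 - H) * H * (1 - H) = H - 2 • (H * H) + H * (1 - (1 - H)) * H := by
      noncomm_ring
    have h3 : 0 ≤ H * H := by
      have := nonneg_star_mul H
      rwa [hHs] at this
    rw [h2]
    calc H - 2 • (H * H) + H * (1 - (1 - H)) * H ≤ H - 2 • (H * H) + H * 1 * H := by gcongr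
      _ = H - H * H := by noncomm_ring
      _ ≤ H := sub_le_self _ h3
  rw [e1]
  exact rt_mul_mono' hτ e2 hq.nonneg

end

theorem pCC (hTT : StTT) (hScp : StScp) (hEnM : StEnM) (hAvg : StAvg) (hHF : StHF)
    (hRound : StRound2) (hPert : StPert) : StCC := by
  intro Λ hΛ
  have hΛ0 : 0 < Λ := lt_of_lt_of_le (by norm_num) hΛ
  -- the constant `σ = ρ ^ 2`
  obtain ⟨ρ, hρ0, hρ1, hρ2⟩ : ∃ ρ : ℝ, 0 < ρ ∧ ρ ≤ 1 / 10 ^ 6 ∧ Λ * ρ ≤ 1 / 3200 := by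
    refine ⟨min (1 / 10 ^ 6) (1 / (3200 * Λ)), by positivity, min_le_left _ _, ?_⟩
    have h1 : Λ * min (1 / 10 ^ 6) (1 / (3200 * Λ)) ≤ Λ * (1 / (3200 * Λ)) :=
      mul_le_mul_of_nonneg_left (min_le_right _ _) hΛ0.le
    refine h1.trans (le_of_eq ?_)
    field_simp
  refine ⟨ρ ^ 2, by positivity, fun ε g hε hg => ?_⟩
  obtain ⟨k₀, hk₀⟩ := exists_k0' g (ε / 2) (by positivity)
  refine ⟨k₀, fun k hk => ?_⟩
  intro N _ _ _ τ ι F u H q φ τ₀ hτ hcpl hF hu hH0 hH1 hq hscp hcut hφ1 hτ₀ hq95 hqτ hun hqH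
    hgapσ hσ
  have hFne : F.Nonempty := by
    rw [← Finset.card_pos, hF]; exact hg
  have hk := hk₀ k hk
  have hT := hTT N τ ι F u hτ hFne hu
  have hqpos : 0 < rt τ q := lt_of_lt_of_le (by positivity) hq95
  have hd1 := dist_GqG hτ hH0 hH1 hq
  have hyH := rt_yH hτ hH0 hH1 hq
  -- the operator `G`
  set G : N := 1 - H with hG
  have hG0 : 0 ≤ G := sub_nonneg.2 hH1
  have hG1 : G ≤ 1 := by rw [hG]; exact sub_le_self _ hH0
  have hGs : star G = G := herm_of_nonneg hG0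
  have hGn : ‖G‖ ≤ 1 := norm_le_one_of_nonneg hG0 hG1
  have hGG1 : G * G ≤ 1 := (le_mul_self_of_le_one hG0 hG1).trans hG1
  -- the element `y = G q G`
  set y : N := G * q * G with hy
  have hy0 : 0 ≤ y := by
    have := conj_nonneg hq.nonneg G
    rwa [hGs] at this
  have hy1 : y ≤ 1 := by
    have := conj_mono hq.le_one G
    rw [hGs, mul_one] at this
    exact this.trans hGG1
  have hyq : rt τ y ≤ rt τ q := by
    rw [hy, rt_cycle hτ]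
    have := rt_mul_mono hτ hGG1 hq.nonneg
    rwa [one_mul] at this
  have hhsy : hs τ y ≤ rt τ q := (hs_le_rt hτ hy0 hy1).trans hyq
  -- the element `a = T^k y`
  set a : N := (TT F u ^ k) y with ha
  have ha0 : 0 ≤ a := hT.nonneg k y hy0
  have ha1 : a ≤ 1 := by
    have h1 := hT.nonneg k (1 - y) (sub_nonneg.2 hy1)
    rw [map_sub, hT.one] at h1
    exact sub_nonneg.1 h1
  have has : star a = a := herm_of_nonneg ha0
  have hra : rt τ a = rt τ y := by unfold rt; rw [ha, hT.tr]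
  have hraq : rt τ a ≤ rt τ q := by rw [hra]; exact hyq
  have hra0 : 0 ≤ rt τ a := rt_nonneg hτ ha0
  -- the maps
  obtain ⟨hS1, -, -, hS4⟩ := hScp N τ hτ
  have hGψ : SCP τ (Cj G φ) := (hS1 φ G hscp hGn).1
  have hGψ1 : (Cj G φ) 1 ≤ y := by
    have h1 : (Cj G φ) 1 = G * φ (G * G) * G := by
      change G * φ (star G * 1 * G) * star G = _
      rw [hGs, mul_one]
    rw [h1, hy]
    have h2 : φ (G * G) ≤ q := (scp_mono hscp hGG1).trans hφ1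
    have := conj_mono h2 G
    rwa [hGs] at this
  set ψa : N →ₗ[ℂ] N := (TM F u)^[k] (Cj G φ) with hψa
  obtain ⟨hψas, hψa1⟩ := hS4 ι F u (Cj G φ) k hFne hu hGψ
  rw [← hψa] at hψas hψa1
  have hψaa : ψa 1 ≤ a := by
    refine hψa1.trans ?_
    have h1 := hT.nonneg k (y - (Cj G φ) 1) (sub_nonneg.2 hGψ1)
    rw [map_sub] at h1
    exact sub_nonneg.1 h1
  -- energies
  obtain ⟨hE1, hE2, -, -⟩ := hEnM N τ ι F u hτ hFne hu
  have hrGψ : rt τ ((Cj G φ) 1) ≤ τ₀ := ((rt_mono hτ hGψ1).trans hyq).trans hqτ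
  have h2k : (0 : ℝ) < 2 * (k : ℝ) + 1 := by positivity
  have hEa : EnM τ F u ψa ≤ 4 * g / (2 * (k : ℝ) + 1) * τ₀ := by
    have h1 := (hE1 (Cj G φ) hGψ F).2.2 k
    rw [← hψa, hF] at h1
    refine h1.trans ?_
    rw [div_mul_eq_mul_div]
    gcongr
  have hEna : En τ F u a ≤ 4 * g / (2 * (k : ℝ) + 1) * τ₀ := by
    have h1 := hT.en_pow k y
    rw [← ha, hF] at h1
    refine h1.trans ?_
    rw [div_mul_eq_mul_div]
    have := hhsy.trans hqτ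
    gcongr
  have hEn0 : ∀ x : N, 0 ≤ En τ F u x := fun x => Finset.sum_nonneg fun s _ => hs_nonneg hτ _
  -- rounding
  obtain ⟨p, hp, hp4, hEp, -, hpq⟩ := hRound N τ ι F u a hτ hcpl hu ha0 ha1
  have hpq := hpq q hq
  have hEp2 : En τ F u p ≤ 2 * Real.sqrt (8 * g * (4 * g / (2 * (k : ℝ) + 1))) * τ₀ := by
    refine hEp.trans ?_
    rw [hF, mul_assoc 2]
    refine mul_le_mul_of_nonneg_left ?_ (by norm_num)
    refine Real.sqrt_le_iff.2 ⟨by positivity, ?_⟩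
    rw [mul_pow, Real.sq_sqrt (by positivity)]
    have h1 := hEn0 a
    have h2 := hraq.trans hqτ
    calc 8 * (g : ℝ) * En τ F u a * rt τ a
        ≤ 8 * g * (4 * g / (2 * (k : ℝ) + 1) * τ₀) * τ₀ := by gcongr
      _ = _ := by ring
  -- distances
  set s₀ : ℝ := Real.sqrt τ₀ with hs₀
  have hs₀0 : 0 < s₀ := Real.sqrt_pos.2 hτ₀
  have hs₀2 : s₀ ^ 2 = τ₀ := Real.sq_sqrt hτ₀.le
  have hdya : Real.sqrt (hs τ (a - y)) ≤ ρ * s₀ := by
    refine Real.sqrt_le_iff.2 ⟨by positivity, ?_⟩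
    rw [mul_pow, hs₀2, hs_sub_comm]
    exact (hT.gap k y).trans hσ
  have ho : rt τ (q * H) ≤ (1 / 10 ^ 6 * s₀) ^ 2 := by
    have h0 : 0 ≤ rt τ (q * H) := rt_mul_nonneg hτ hq.nonneg hH0
    have h1 : 10 ^ 10 * rt τ (q * H) ≤ Λ * rt τ (q * H) := mul_le_mul_of_nonneg_right hΛ h0
    rw [mul_pow, hs₀2]
    linarith
  have hdyq : Real.sqrt (hs τ (y - q)) ≤ 2 / 10 ^ 6 * s₀ := by
    have h1 : Real.sqrt (rt τ (q * H)) ≤ 1 / 10 ^ 6 * s₀ :=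
      Real.sqrt_le_iff.2 ⟨by positivity, ho⟩
    linarith
  have hdaq : Real.sqrt (hs τ (a - q)) ≤ 3 / 10 ^ 6 * s₀ := by
    have h1 := sqrt_hs_add_le hτ (a - y) (y - q)
    rw [sub_add_sub_cancel] at h1
    have h2 : ρ * s₀ ≤ 1 / 10 ^ 6 * s₀ := mul_le_mul_of_nonneg_right hρ1 hs₀0.le
    linarith
  have hdpq : Real.sqrt (hs τ (p - q)) ≤ 12 / 10 ^ 6 * s₀ := by
    refine Real.sqrt_le_iff.2 ⟨by positivity, ?_⟩
    have h1 : hs τ (a - q) ≤ (3 / 10 ^ 6 * s₀) ^ 2 := (Real.sqrt_le_iff.1 hdaq).2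
    calc hs τ (p - q) ≤ 16 * hs τ (a - q) := hpq
      _ ≤ 16 * (3 / 10 ^ 6 * s₀) ^ 2 := by linarith
      _ = _ := by ring
  have hdpa : hs τ (p - a) ≤ (15 / 10 ^ 6 * s₀) ^ 2 := by
    refine (Real.sqrt_le_iff.1 ?_).2
    have h1 := sqrt_hs_add_le hτ (p - q) (q - a)
    rw [sub_add_sub_cancel, hs_sub_comm q a] at h1
    linarith
  -- traces
  have hQ0 : 0 ≤ Real.sqrt (rt τ q) := Real.sqrt_nonneg _
  have hQs : Real.sqrt (rt τ q) ≤ s₀ := Real.sqrt_le_sqrt hqτ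
  have hQ2 : Real.sqrt (rt τ q) ^ 2 = rt τ q := Real.sq_sqrt hqpos.le
  have hrp0 : 0 ≤ rt τ p := hp.rt_nonneg hτ
  have hP2 : Real.sqrt (rt τ p) ^ 2 = rt τ p := Real.sq_sqrt hrp0
  have hP0 : 0 ≤ Real.sqrt (rt τ p) := Real.sqrt_nonneg _
  have hA2 : Real.sqrt (hs τ a) ^ 2 = hs τ a := Real.sq_sqrt (hs_nonneg hτ a)
  have hA0 : 0 ≤ Real.sqrt (hs τ a) := Real.sqrt_nonneg _
  have hPQ : Real.sqrt (rt τ p) ≤ Real.sqrt (rt τ q) + 12 / 10 ^ 6 * s₀ := by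
    have h1 := sqrt_hs_add_le hτ (p - q) q
    rw [sub_add_cancel, hp.hs, hq.hs] at h1
    linarith
  have hQP : Real.sqrt (rt τ q) ≤ Real.sqrt (rt τ p) + 12 / 10 ^ 6 * s₀ := by
    have h1 := sqrt_hs_add_le hτ (q - p) p
    rw [sub_add_cancel, hp.hs, hq.hs, hs_sub_comm] at h1
    linarith
  have hQA : Real.sqrt (rt τ q) ≤ Real.sqrt (hs τ a) + 3 / 10 ^ 6 * s₀ := by
    have h1 := sqrt_hs_add_le hτ (q - a) a
    rw [sub_add_cancel, hq.hs, hs_sub_comm] at h1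
    linarith
  have hrp1 : rt τ p ≤ rt τ q + 25 / 10 ^ 6 * τ₀ := by
    rw [← hP2, ← hQ2, ← hs₀2]
    exact num1 hP0 hQs hs₀0.le (by norm_num) (by norm_num) hPQ
  have hrp2 : rt τ q - 25 / 10 ^ 6 * τ₀ ≤ rt τ p := by
    rw [← hP2, ← hQ2, ← hs₀2]
    exact num2 hP0 hQ0 hQs hs₀0.le (by norm_num) (by norm_num) (by norm_num) hQP
  have hhsa : rt τ q - 7 / 10 ^ 6 * τ₀ ≤ hs τ a := by
    rw [← hA2, ← hQ2, ← hs₀2]
    exact num2 hA0 hQ0 hQs hs₀0.le (by norm_num) (by norm_num) (by norm_num) hQA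
  have h1pa : rt τ ((1 - p) * a) ≤ 17 / 10 ^ 6 * τ₀ := by
    have h1 : hs τ (p - a) = rt τ p + hs τ a - 2 * rt τ (p * a) := by
      rw [sub_eq_add_neg, hs_add hτ, hs_neg, hp.hs, hp.1, mul_neg, rt_neg]
      ring
    rw [mul_pow, hs₀2] at hdpa
    rw [sub_mul, one_mul, rt_sub]
    linarith
  have h1pψ : rt τ (ψa 1) - rt τ (p * ψa 1) ≤ 17 / 10 ^ 6 * τ₀ := by
    have h1 := rt_mul_mono' hτ hψaa hp.one_sub.nonneg
    have h2 : rt τ ((1 - p) * ψa 1) = rt τ (ψa 1) - rt τ (p * ψa 1) := by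
      rw [sub_mul, one_mul, rt_sub]
    linarith
  -- unitality
  obtain ⟨hAv, -⟩ := hAvg N τ ι F u H q φ k hτ hFne hu hscp hq hcut hφ1 hH0 hH1
  rw [← hG] at hAv
  have hgap : gap τ F u k (Cj G φ) = rt τ ((Cj G φ) 1) - rt τ (ψa 1) := rfl
  have hpn : ‖p‖ ≤ 1 := hp.norm_le
  obtain ⟨hps, hp1⟩ := hS1 ψa p hψas hpn
  rw [hp.1, hp.2] at hp1
  have hpp : rt τ ((Cj p ψa) 1) = rt τ (p * ψa p) := by
    have h1 : (Cj p ψa) 1 = p * ψa p * p := by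
      change p * ψa (star p * 1 * p) * star p = _
      rw [hp.1, mul_one, hp.2]
    rw [h1, rt_cycle hτ, hp.2]
  have hpp2 := rt_pp hτ hψas hp.1
  have hρ12 : ρ ^ 2 ≤ 1 / 10 ^ 6 :=
    (pow_le_pow_left₀ hρ0.le hρ1 2).trans (by norm_num)
  have hρτ : ρ ^ 2 * τ₀ ≤ 1 / 10 ^ 6 * τ₀ := mul_le_mul_of_nonneg_right hρ12 hτ₀.le
  rw [mul_pow, hs₀2] at ho
  have huni : rt τ p - rt τ ((Cj p ψa) 1) ≤ 1 / 10 ^ 4 * τ₀ := by
    rw [hpp]
    linarith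
  -- the penalty
  have hd0 : 0 ≤ hs τ y - hs τ a := sub_nonneg.2 (hT.hs_le k y)
  set ζ : ℝ := Real.sqrt ((hs τ y - hs τ a) / rt τ q) with hζ
  have hζ0 : 0 ≤ ζ := Real.sqrt_nonneg _
  have hζ2 : ζ ^ 2 * rt τ q = hs τ y - hs τ a := by
    rw [hζ, Real.sq_sqrt (by positivity), div_mul_cancel₀ _ hqpos.ne']
  have hζZ : ζ * rt τ q ≤ ρ * τ₀ := by
    refine le_of_sq_le_sq ?_ (by positivity)
    calc (ζ * rt τ q) ^ 2 = (ζ ^ 2 * rt τ q) * rt τ q := by ring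
      _ = (hs τ y - hs τ a) * rt τ q := by rw [hζ2]
      _ ≤ (ρ ^ 2 * τ₀) * τ₀ := by gcongr
      _ = (ρ * τ₀) ^ 2 := by ring
  obtain ⟨r, -, -, -, -, hr3⟩ := hPert N τ H q a ζ (τ₀ / (1000 * Λ)) hτ hH0 hH1 hq ha0 hra hζ0
    (by
      rw [hζ2, hs_sub_comm]
      exact hT.gap k y) (by positivity)
  rw [← hG, ← hy] at hr3
  have hpen : Λ * rt τ (p * H) ≤ 5 / 100 * τ₀ := by
    have h1 : rt τ (p * H) ≤ 4 * rt τ (a * H) := by
      have := rt_mul_mono hτ hp4 hH0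
      rwa [smul_mul_assoc, rt_smul] at this
    have h2 : rt τ (p * H) ≤ 4 * (rt τ (q * H) + 4 * (ρ * τ₀) + τ₀ / (1000 * Λ)) := by linarith
    have h3 := mul_le_mul_of_nonneg_left h2 hΛ0.le
    have h4 : Λ * (τ₀ / (1000 * Λ)) = τ₀ / 1000 := by field_simp
    have h5 : Λ * ρ * τ₀ ≤ 1 / 3200 * τ₀ := mul_le_mul_of_nonneg_right hρ2 hτ₀.le
    have h6 : Λ * (4 * (rt τ (q * H) + 4 * (ρ * τ₀) + τ₀ / (1000 * Λ))) =
      4 * (Λ * rt τ (q * H)) + 16 * (Λ * ρ * τ₀) + 4 * (Λ * (τ₀ / (1000 * Λ))) := by ring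
    rw [h6, h4] at h3
    linarith
  -- the object
  have hrp3 : τ₀ / 2 ≤ rt τ p := by linarith
  have hp0 : p ≠ 0 := by
    rintro rfl
    rw [rt_zero] at hrp3
    linarith
  have hsq0 : 0 ≤ Real.sqrt (8 * g * (4 * g / (2 * (k : ℝ) + 1))) := Real.sqrt_nonneg _
  have hg0 : (0 : ℝ) ≤ 4 * g / (2 * (k : ℝ) + 1) := by positivity
  have hkτ := mul_le_mul_of_nonneg_right hk hτ₀.le
  rw [add_mul] at hkτ
  have hετ : ε / 2 * τ₀ ≤ ε * rt τ p := by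
    have := mul_le_mul_of_nonneg_left hrp3 hε.le
    linarith
  have hm1 : 0 ≤ Real.sqrt (8 * g * (4 * g / (2 * (k : ℝ) + 1))) * τ₀ := by positivity
  have hm2 : 0 ≤ 4 * g / (2 * (k : ℝ) + 1) * τ₀ := by positivity
  have hobj : Obj τ F u ε p (Cj p ψa) := by
    refine ⟨hp, hp0, hps, ?_, hp1, ?_, ?_⟩
    · intro x
      change p * ψa (star p * x * p) * star p =
        p * (p * ψa (star p * (p * x * p) * p) * star p) * p
      rw [hp.1]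
      have e1 : p * (p * x * p) * p = p * x * p := by
        calc p * (p * x * p) * p = (p * p) * x * (p * p) := by noncomm_ring
          _ = _ := by rw [hp.2]
      rw [e1]
      calc p * ψa (p * x * p) * p = (p * p) * ψa (p * x * p) * (p * p) := by rw [hp.2]
        _ = _ := by noncomm_ring
    · linarith
    · have h1 := hE2 ψa p F hψas hpn
      linarith
  refine ⟨p, Cj p ψa, hobj, ?_, ?_⟩
  · unfold Gam
    linarith
  · intro m w hw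
    obtain ⟨hF1, hF2, hF3, -, hF5⟩ := hHF N τ ι F u hτ hFne hu
    obtain ⟨m', w', hw1, hw2⟩ := hF5 m w G φ k hG0 hG1 hw
    refine ⟨m', fun j => p * w' j * star p, hF3 m' w' p ψa hpn hw1, ?_⟩
    have h1 := (hF2 m' w' p (star p) hpn (by rwa [norm_star])).1
    have h2 := (hF1 m (fun j => G * w j)).2 k
    have h3 := (hF2 m w G 1 hGn (norm_le_one_of_nonneg zero_le_one le_rfl)).1
    simp only [mul_one] at h3
    linarith

end Helper61.HT
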