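import Pool.Agent.Helper61.HT.LibN

/-!
# `L²(N, τ)` as a pre-Hilbert space
-/

namespace Helper61.HT

open scoped ComplexOrder

/-- Type synonym of `N`. -/
def L2T (N : Type) : Type := N

noncomputable instance (N : Type) [CStarAlgebra N] : AddCommGroup (L2T N) :=
  inferInstanceAs (AddCommGroup N)

noncomputable instance (N : Type) [CStarAlgebra N] : Module ℂ (L2T N) :=
  inferInstanceAs (Module ℂ N)

/-- `(N, ⟨x, y⟩ = τ (x* y))` is (linearly isomorphic to) an inner product space. -/
theorem exists_L2 {N : Type} [CStarAlgebra N] {τ : N →ₗ[ℂ] ℂ} (hτ : Trc τ) :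
    ∃ (H : Type) (_ : NormedAddCommGroup H) (_ : InnerProductSpace ℂ H) (e : N ≃ₗ[ℂ] H),
      (∀ x y, inner ℂ (e x) (e y) = τ (star x * y)) ∧ ∀ x, ‖e x‖ ^ 2 = hs τ x := by
  let e : N ≃ₗ[ℂ] L2T N := LinearEquiv.refl ℂ N
  let c : InnerProductSpace.Core ℂ (L2T N) :=
    { inner := fun x y => τ (star (e.symm x) * e.symm y)
      conj_inner_symm := fun x y => by
        rw [← map_star' hτ, star_mul, star_star]
      re_inner_nonneg := fun x => hs_nonneg hτ (e.symm x)
      add_left := fun x y z => by
        rw [map_add, star_add, add_mul, map_add]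
      smul_left := fun x y r => by
        rw [map_smul, star_smul, smul_mul_assoc, map_smul, RCLike.star_def, smul_eq_mul]
      definite := fun x hx => by
        have h : e.symm x = 0 := hτ.faith _ hx
        exact (LinearEquiv.map_eq_zero_iff e.symm).1 h }
  let i1 : NormedAddCommGroup (L2T N) := c.toNormedAddCommGroup
  let i2 : InnerProductSpace ℂ (L2T N) := InnerProductSpace.ofCore c.toCore
  refine ⟨L2T N, i1, i2, e, fun x y => rfl, fun x => ?_⟩
  have h := @inner_self_eq_norm_sq ℂ (L2T N) _ i1.toSeminormedAddCommGroup i2 (e x)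
  exact h.symm

end Helper61.HT
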