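import Pool.Agent.Helper61.HT.StB
import Pool.Agent.Helper61.HT.LibN

/-!
# Project HT: closure properties of the class SCP
-/

set_option linter.unusedSectionVars false

namespace Helper61.HT

open scoped ComplexOrder

namespace ScpAux

variable {N : Type} [CStarAlgebra N] [PartialOrder N] [StarOrderedRing N] {τ : N →ₗ[ℂ] ℂ}

/-- positivity test -/
theorem nonneg_of_rt (hτ : Trc τ) {h : N} (hh : star h = h)
    (H : ∀ x, 0 ≤ rt τ (star x * x * h)) : 0 ≤ h := by
  obtain ⟨p, n, hp, hn, hnp, hpn⟩ : ∃ p n : N, 0 ≤ p ∧ 0 ≤ n ∧ n * p = 0 ∧ h = p - n :=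
    ⟨h⁺, h⁻, CFC.posPart_nonneg h, CFC.negPart_nonneg h, CFC.negPart_mul_posPart h,
      (CFC.posPart_sub_negPart h hh).symm⟩
  obtain ⟨s, hs0, hss⟩ := exists_sqrt hn
  have h4 := H s
  rw [herm_of_nonneg hs0, hss, hpn, mul_sub, hnp, zero_sub, rt_neg] at h4
  have h5 : hs τ n = rt τ (n * n) := by rw [hs_eq_rt, herm_of_nonneg hn]
  have h6 : hs τ n = 0 := le_antisymm (by rw [h5]; linarith) (hs_nonneg hτ n)
  have h7 := hs_eq_zero hτ h6
  rw [hpn, h7, sub_zero]
  exact hp

theorem le_of_rt (hτ : Trc τ) {a b : N} (ha : star a = a) (hb : star b = b)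
    (H : ∀ x, rt τ (star x * x * a) ≤ rt τ (star x * x * b)) : a ≤ b := by
  rw [← sub_nonneg]
  refine nonneg_of_rt hτ (by rw [star_sub, ha, hb]) fun x => ?_
  rw [mul_sub, rt_sub]
  linarith [H x]

/-- complete positivity for families over arbitrary finite types -/
theorem cpF {ψ : N →ₗ[ℂ] N} (hψ : SCP τ ψ) {κ : Type} [Fintype κ] (x y : κ → N) :
    0 ≤ ∑ i, ∑ j, rt τ (star (x i) * x j * ψ (y j * star (y i))) := by
  classical
  have e := Fintype.equivFin κ
  have h := hψ.cp (Fintype.card κ) (fun i => x (e.symm i)) (fun i => y (e.symm i))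
  simp only [Complex.re_sum] at h
  have h1 : ∑ i, ∑ j, rt τ (star (x i) * x j * ψ (y j * star (y i))) =
      ∑ i, ∑ j, rt τ (star (x (e.symm i)) * x (e.symm j) *
        ψ (y (e.symm j) * star (y (e.symm i)))) := by
    rw [← Equiv.sum_comp e.symm]
    refine Finset.sum_congr rfl fun i _ => ?_
    rw [← Equiv.sum_comp e.symm]
  rw [h1]
  exact h

/-- constructor without positivity -/
theorem mkSCP (hτ : Trc τ) {ψ : N →ₗ[ℂ] N} (h1 : ∀ x, ψ (star x) = star (ψ x))
    (h2 : ∀ (m : ℕ) (x y : Fin m → N),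
      0 ≤ (∑ i, ∑ j, τ (star (x i) * x j * ψ (y j * star (y i)))).re)
    (h3 : ∀ x y, τ (ψ x * y) = τ (x * ψ y)) (h4 : ∀ x, 0 ≤ rt τ (star x * ψ x))
    (h5 : ψ 1 ≤ 1) : SCP τ ψ := by
  refine ⟨h1, ?_, h2, h3, h4, h5⟩
  intro x hx
  refine nonneg_of_rt hτ (by rw [← h1, herm_of_nonneg hx]) fun z => ?_
  obtain ⟨a, ha0, haa⟩ := exists_sqrt hx
  have h := h2 1 (fun _ => z) (fun _ => a)
  simp only [Finset.univ_unique, Finset.sum_singleton] at h
  rw [herm_of_nonneg ha0, haa] at h
  exact h

theorem mono {ψ : N →ₗ[ℂ] N} (hψ : SCP τ ψ) {x y : N} (h : x ≤ y) : ψ x ≤ ψ y := by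
  rw [← sub_nonneg, ← map_sub]
  exact hψ.nonneg _ (sub_nonneg.2 h)

/-! ### conjugation -/

theorem Cj_scp (hτ : Trc τ) {ψ : N →ₗ[ℂ] N} (hψ : SCP τ ψ) {c : N} (hc : ‖c‖ ≤ 1) :
    SCP τ (Cj c ψ) ∧ (Cj c ψ) 1 ≤ c * star c := by
  have h1 : (Cj c ψ) 1 ≤ c * star c := by
    rw [Cj_apply, mul_one]
    have h2 : ψ (star c * c) ≤ 1 := (mono hψ (star_mul_le_one hc)).trans hψ.one
    have h3 := conj_mono h2 c
    rw [mul_one] at h3
    exact h3
  refine ⟨mkSCP hτ ?_ ?_ ?_ ?_ (h1.trans (mul_star_le_one hc)), h1⟩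
  · intro x
    rw [Cj_apply, Cj_apply, star_mul, star_mul, star_star, ← hψ.map_star, star_mul, star_mul,
      star_star]
    simp only [mul_assoc]
  · intro m x y
    have h := hψ.cp m (fun i => x i * c) (fun i => star c * y i)
    have h4 : ∀ i j, τ (star (x i) * x j * (Cj c ψ) (y j * star (y i))) =
        τ (star (x i * c) * (x j * c) * ψ (star c * y j * star (star c * y i))) := by
      intro i j
      rw [Cj_apply, star_mul, star_mul, star_star]
      have e1 : star (x i) * x j * (c * ψ (star c * (y j * star (y i)) * c) * star c) =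
        (star (x i) * x j * c * ψ (star c * (y j * star (y i)) * c)) * star c := by
        simp only [mul_assoc]
      rw [e1, hτ.tr]
      simp only [mul_assoc]
    simp only [h4]
    exact h
  · intro x y
    rw [Cj_apply, Cj_apply]
    have e1 : τ (c * ψ (star c * x * c) * star c * y) =
        τ (ψ (star c * x * c) * (star c * y * c)) := by
      have : c * ψ (star c * x * c) * star c * y = c * (ψ (star c * x * c) * star c * y) := by
        simp only [mul_assoc]
      rw [this, hτ.tr]
      simp only [mul_assoc]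
    have e2 : τ (x * (c * ψ (star c * y * c) * star c)) =
        τ (star c * x * c * ψ (star c * y * c)) := by
      have : x * (c * ψ (star c * y * c) * star c) = (x * c * ψ (star c * y * c)) * star c := by
        simp only [mul_assoc]
      rw [this, hτ.tr]
      simp only [mul_assoc]
    rw [e1, e2, hψ.symm]
  · intro x
    have h := hψ.pos (star c * x * c)
    have e2 : rt τ (star x * (Cj c ψ) x) = rt τ (star (star c * x * c) * ψ (star c * x * c)) := by
      rw [Cj_apply, star_mul, star_mul, star_star]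
      have : star x * (c * ψ (star c * x * c) * star c) =
        (star x * c * ψ (star c * x * c)) * star c := by simp only [mul_assoc]
      rw [this, rt_mul_comm hτ]
      simp only [mul_assoc]
    rw [e2]
    exact h

/-! ### sums -/

theorem sum_scp (hτ : Trc τ) {κ : Type} (s : Finset κ) (θ : κ → N →ₗ[ℂ] N) (r : ℝ) (hr : 0 ≤ r)
    (hθ : ∀ i ∈ s, SCP τ (θ i)) (h1 : r • ∑ i ∈ s, θ i 1 ≤ 1) : SCP τ (r • ∑ i ∈ s, θ i) := by
  have hap : ∀ x, (r • ∑ i ∈ s, θ i) x = r • ∑ i ∈ s, θ i x := by
    intro x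
    rw [LinearMap.smul_apply, LinearMap.sum_apply]
  refine mkSCP hτ ?_ ?_ ?_ ?_ (by rw [hap]; exact h1)
  · intro x
    rw [hap, hap, star_smul, star_trivial r, star_sum]
    congr 1
    exact Finset.sum_congr rfl fun i hi => (hθ i hi).map_star x
  · intro m x y
    have e : ∀ i j, τ (star (x i) * x j * (r • ∑ k ∈ s, θ k) (y j * star (y i))) =
        r * ∑ k ∈ s, τ (star (x i) * x j * θ k (y j * star (y i))) := by
      intro i j
      rw [hap, mul_smul_comm, map_smul_real, Finset.mul_sum, map_sum]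
    simp only [e]
    have e2 : (∑ i, ∑ j, (r : ℂ) * ∑ k ∈ s, τ (star (x i) * x j * θ k (y j * star (y i)))).re =
        r * ∑ k ∈ s, (∑ i, ∑ j, τ (star (x i) * x j * θ k (y j * star (y i)))).re := by
      simp only [← Finset.mul_sum]
      rw [Complex.re_ofReal_mul]
      congr 1
      rw [← Complex.re_sum]
      congr 1
      symm
      rw [Finset.sum_comm]
      refine Finset.sum_congr rfl fun i _ => ?_
      rw [Finset.sum_comm]
    rw [e2]
    exact mul_nonneg hr (Finset.sum_nonneg fun k hk => (hθ k hk).cp m x y)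
  · intro x y
    rw [hap, hap, smul_mul_assoc, mul_smul_comm, map_smul_real, map_smul_real, Finset.sum_mul,
      Finset.mul_sum, map_sum, map_sum]
    congr 1
    exact Finset.sum_congr rfl fun i hi => (hθ i hi).symm x y
  · intro x
    rw [hap, mul_smul_comm, rt_smul, Finset.mul_sum, rt_sum]
    exact mul_nonneg hr (Finset.sum_nonneg fun k hk => (hθ k hk).pos x)

/-! ### multiplication maps -/

theorem Mp_scp (hτ : Trc τ) {y : N} (hy : 0 ≤ y) (hy1 : y ≤ 1) : SCP τ (Mp y) := by
  have hys := herm_of_nonneg hy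
  refine mkSCP hτ ?_ ?_ ?_ ?_ ?_
  · intro x
    rw [Mp_apply, Mp_apply, star_mul, star_mul, star_star, hys]
    simp only [mul_assoc]
  · intro m x z
    have h := hτ.nonneg (∑ j, x j * y * z j)
    have e : star (∑ j, x j * y * z j) * (∑ j, x j * y * z j) =
        ∑ i, ∑ j, (star (z i) * y * (star (x i) * (x j * y * z j))) := by
      rw [star_sum, Finset.sum_mul]
      refine Finset.sum_congr rfl fun i _ => ?_
      rw [Finset.mul_sum]
      refine Finset.sum_congr rfl fun j _ => ?_
      rw [star_mul, star_mul, hys]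
      simp only [mul_assoc]
    rw [e, map_sum] at h
    have e2 : ∀ i j, τ (star (x i) * x j * (Mp y) (z j * star (z i))) =
        τ (star (z i) * y * (star (x i) * (x j * y * z j))) := by
      intro i j
      rw [Mp_apply, hys]
      have : star (x i) * x j * (y * (z j * star (z i)) * y) =
        (star (x i) * (x j * y * z j)) * (star (z i) * y) := by simp only [mul_assoc]
      rw [this, hτ.tr]
    simp only [e2]
    simp only [map_sum] at h
    exact (RCLike.nonneg_iff.1 h).1
  · intro x z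
    rw [Mp_apply, Mp_apply, hys]
    have : y * x * y * z = y * (x * y * z) := by simp only [mul_assoc]
    rw [this, hτ.tr]
    simp only [mul_assoc]
  · intro x
    rw [Mp_apply, hys]
    obtain ⟨s, hs0, hss⟩ := exists_sqrt hy
    have h := hs_nonneg hτ (s * x * s)
    have hs' := herm_of_nonneg hs0
    rw [hs_eq_rt, star_mul, star_mul, hs'] at h
    have e1 : star x * (y * x * y) = star x * (s * s * x * (s * s)) := by rw [hss]
    have e2 : star x * (s * s * x * (s * s)) = (star x * (s * s * x * s)) * s := by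
      simp only [mul_assoc]
    rw [e1, e2, rt_mul_comm hτ]
    have e3 : s * (star x * (s * s * x * s)) = s * (star x * s) * (s * x * s) := by
      simp only [mul_assoc]
    rw [e3]
    exact h
  · rw [Mp_apply, mul_one, hys]
    exact (le_mul_self_of_le_one hy hy1).trans hy1

/-! ### averages -/

section avg

variable {ι : Type} (F : Finset ι) (u : ι → N)

/-- weights -/
noncomputable def cc : Option ({s // s ∈ F} × Bool) → ℝ
  | none => 1 / 2
  | some _ => 1 / (4 * F.card)

/-- unitaries -/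
def ww : Option ({s // s ∈ F} × Bool) → N
  | none => 1
  | some (s, true) => u s
  | some (s, false) => star (u s)

theorem avg {M : Type} [AddCommGroup M] [Module ℝ M] (f : N → M) :
    ∑ α, cc F α • f (ww F u α) =
      (1 / 2 : ℝ) • f 1 + (1 / (4 * F.card) : ℝ) • ∑ s ∈ F, (f (u s) + f (star (u s))) := by
  rw [Fintype.sum_option, Fintype.sum_prod_type]
  simp only [Fintype.sum_bool]
  have h1 : ∑ x : {s // s ∈ F}, (cc F (some (x, true)) • f (ww F u (some (x, true))) +
      cc F (some (x, false)) • f (ww F u (some (x, false)))) =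
      (1 / (4 * F.card) : ℝ) • ∑ x : {s // s ∈ F}, (f (u x) + f (star (u x))) := by
    rw [Finset.smul_sum]
    refine Finset.sum_congr rfl fun x _ => ?_
    rw [smul_add]
    rfl
  rw [h1, Finset.sum_coe_sort F (fun s => f (u s) + f (star (u s)))]
  rfl

theorem cc_nonneg (α : Option ({s // s ∈ F} × Bool)) : 0 ≤ cc F α := by
  cases α with
  | none => exact by norm_num [cc]
  | some p => exact by unfold cc; positivity

theorem cc_sum (hF : F.Nonempty) : ∑ α, cc F α = 1 := by
  have h := avg F (fun _ => (1 : ℂ)) (fun _ => (1 : ℝ))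
  simp only [smul_eq_mul, mul_one] at h
  rw [h, Finset.sum_const, nsmul_eq_mul]
  have : (F.card : ℝ) ≠ 0 := by
    exact_mod_cast hF.card_pos.ne'
  field_simp
  norm_num

variable {u} in
theorem ww_un (hu : ∀ s, Un (u s)) (α : Option ({s // s ∈ F} × Bool)) : Un (ww F u α) := by
  match α with
  | none => exact ⟨by simp [ww], by simp [ww]⟩
  | some (s, true) => exact hu s
  | some (s, false) => exact (hu s).star

theorem TT_eq (y : N) : TT F u y = ∑ α, cc F α • (ww F u α * y * star (ww F u α)) := by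
  rw [avg F u (fun w => w * y * star w)]
  simp only [one_mul, star_one, mul_one, star_star]
  rfl

theorem RA_eq (ψ : N →ₗ[ℂ] N) (x : N) :
    RA F u ψ x = ∑ α, cc F α • (ψ (x * ww F u α) * star (ww F u α)) := by
  rw [avg F u (fun w => ψ (x * w) * star w)]
  simp only [star_one, mul_one, star_star]
  rfl

theorem LA_eq (ψ : N →ₗ[ℂ] N) (x : N) :
    LA F u ψ x = ∑ α, cc F α • (ww F u α * ψ (star (ww F u α) * x)) := by
  rw [avg F u (fun w => w * ψ (star w * x))]
  simp only [star_one, one_mul, star_star]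
  rfl

theorem TM_eq (ψ : N →ₗ[ℂ] N) (x : N) :
    TM F u ψ x = ∑ β, ∑ α, (cc F β * cc F α) •
      (ww F u β * ψ (star (ww F u β) * x * ww F u α) * star (ww F u α)) := by
  unfold TM
  rw [LA_eq]
  refine Finset.sum_congr rfl fun β _ => ?_
  rw [RA_eq, Finset.mul_sum, Finset.smul_sum]
  refine Finset.sum_congr rfl fun α _ => ?_
  rw [mul_smul_comm, smul_smul]
  simp only [mul_assoc]

theorem tau_TM (hτ : Trc τ) (ψ : N →ₗ[ℂ] N) (a b : N) :
    τ (a * TM F u ψ b) = ∑ β, ∑ α, ((cc F β * cc F α : ℝ) : ℂ) *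
      τ (star (ww F u α) * a * ww F u β * ψ (star (ww F u β) * b * ww F u α)) := by
  rw [TM_eq, Finset.mul_sum, map_sum]
  refine Finset.sum_congr rfl fun β _ => ?_
  rw [Finset.mul_sum, map_sum]
  refine Finset.sum_congr rfl fun α _ => ?_
  rw [mul_smul_comm, map_smul_real]
  congr 1
  have e : a * (ww F u β * ψ (star (ww F u β) * b * ww F u α) * star (ww F u α)) =
      (a * ww F u β * ψ (star (ww F u β) * b * ww F u α)) * star (ww F u α) := by
    simp only [mul_assoc]
  rw [e, hτ.tr]
  simp only [mul_assoc]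

theorem rt_TM (hτ : Trc τ) (ψ : N →ₗ[ℂ] N) (a b : N) :
    rt τ (a * TM F u ψ b) = ∑ β, ∑ α, (cc F β * cc F α) *
      rt τ (star (ww F u α) * a * ww F u β * ψ (star (ww F u β) * b * ww F u α)) := by
  unfold rt
  rw [tau_TM F u hτ, Complex.re_sum]
  refine Finset.sum_congr rfl fun β _ => ?_
  rw [Complex.re_sum]
  refine Finset.sum_congr rfl fun α _ => ?_
  rw [Complex.re_ofReal_mul]

theorem TT_nonneg {y : N} (hy : 0 ≤ y) : 0 ≤ TT F u y := by
  rw [TT_eq]
  exact Finset.sum_nonneg fun α _ => smul_nonneg_real (cc_nonneg F α) (conj_nonneg hy _)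

theorem TT_mono {x y : N} (h : x ≤ y) : TT F u x ≤ TT F u y := by
  rw [← sub_nonneg, ← map_sub]
  exact TT_nonneg F u (sub_nonneg.2 h)

theorem TT_star (y : N) : star (TT F u y) = TT F u (star y) := by
  rw [TT_eq, TT_eq, star_sum]
  refine Finset.sum_congr rfl fun α _ => ?_
  rw [star_smul, star_trivial (cc F α), star_mul, star_mul, star_star, mul_assoc]

variable {u} in
theorem TT_one (hF : F.Nonempty) (hu : ∀ s, Un (u s)) : TT F u 1 = 1 := by
  rw [TT_eq]
  have h : ∀ α, cc F α • (ww F u α * 1 * star (ww F u α)) = cc F α • (1 : N) := by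
    intro α
    rw [mul_one, (ww_un F hu α).2]
  simp only [h]
  rw [← Finset.sum_smul, cc_sum F hF, one_smul]

theorem TM_star {ψ : N →ₗ[ℂ] N} (hψ : SCP τ ψ) (x : N) :
    TM F u ψ (star x) = star (TM F u ψ x) := by
  rw [TM_eq, TM_eq, star_sum, Finset.sum_comm]
  refine Finset.sum_congr rfl fun β _ => ?_
  rw [star_sum]
  refine Finset.sum_congr rfl fun α _ => ?_
  rw [star_smul, star_trivial (cc F β * cc F α), star_mul, star_mul, star_star, ← hψ.map_star,
    star_mul, star_mul, star_star, mul_comm (cc F α)]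
  simp only [mul_assoc]

variable {u} in
theorem TM_le (hτ : Trc τ) (hF : F.Nonempty) (hu : ∀ s, Un (u s)) {ψ : N →ₗ[ℂ] N}
    (hψ : SCP τ ψ) : TM F u ψ 1 ≤ TT F u (ψ 1) := by
  have h1 : star (ψ 1) = ψ 1 := by rw [← hψ.map_star, star_one]
  refine le_of_rt hτ (by rw [← TM_star F u hψ, star_one]) (by rw [TT_star, h1]) fun z => ?_
  set B : Option ({s // s ∈ F} × Bool) → Option ({s // s ∈ F} × Bool) → ℝ := fun α β =>
    rt τ (star (z * ww F u α) * (z * ww F u β) * ψ (star (ww F u β) * ww F u α)) with hB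
  have e1 : rt τ (star z * z * TM F u ψ 1) = ∑ β, ∑ α, (cc F β * cc F α) * B α β := by
    rw [rt_TM F u hτ]
    refine Finset.sum_congr rfl fun β _ => Finset.sum_congr rfl fun α _ => ?_
    rw [mul_one, hB]
    simp only [star_mul, mul_assoc]
  have e2 : rt τ (star z * z * TT F u (ψ 1)) = ∑ α, cc F α * B α α := by
    rw [TT_eq, Finset.mul_sum, rt_sum]
    refine Finset.sum_congr rfl fun α _ => ?_
    rw [mul_smul_comm, rt_smul, hB]
    simp only
    rw [(ww_un F hu α).1]
    congr 1
    have e3 : star z * z * (ww F u α * ψ 1 * star (ww F u α)) =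
      (star z * z * (ww F u α * ψ 1)) * star (ww F u α) := by simp only [mul_assoc]
    rw [e3, rt_mul_comm hτ]
    simp only [star_mul, mul_assoc]
  have hpair : ∀ α β, 0 ≤ B α α + B β β - B α β - B β α := by
    intro α β
    have h := hψ.cp 2 ![z * ww F u α, -(z * ww F u β)] ![star (ww F u α), star (ww F u β)]
    simp only [Fin.sum_univ_two, Matrix.cons_val_zero, Matrix.cons_val_one, star_star, star_neg,
      neg_mul, mul_neg, neg_neg, map_neg, Complex.add_re, Complex.neg_re] at h
    have h' : 0 ≤ B α α + -B α β + (-B β α + B β β) := h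
    linarith
  have e4 : ∑ α, cc F α * B α α = ∑ β, ∑ α, (cc F β * cc F α) * ((B α α + B β β) / 2) := by
    have h5 : ∑ β, ∑ α, (cc F β * cc F α) * ((B α α + B β β) / 2) =
        (1 / 2) * (∑ β, ∑ α, cc F β * (cc F α * B α α)) +
        (1 / 2) * (∑ β, ∑ α, (cc F β * B β β) * cc F α) := by
      rw [Finset.mul_sum, Finset.mul_sum, ← Finset.sum_add_distrib]
      refine Finset.sum_congr rfl fun β _ => ?_
      rw [Finset.mul_sum, Finset.mul_sum, ← Finset.sum_add_distrib]
      refine Finset.sum_congr rfl fun α _ => ?_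
      ring
    rw [h5]
    simp only [← Finset.mul_sum, ← Finset.sum_mul, cc_sum F hF]
    ring
  rw [e1, e2, e4]
  refine sub_nonneg.1 ?_
  have e6 : ∑ β, ∑ α, (cc F β * cc F α) * ((B α α + B β β) / 2) -
      ∑ β, ∑ α, (cc F β * cc F α) * B α β =
      ∑ β, ∑ α, (cc F β * cc F α) * ((B α α + B β β - B α β - B β α) / 2) := by
    have e7 : ∑ β, ∑ α, (cc F β * cc F α) * B α β = ∑ β, ∑ α, (cc F β * cc F α) * B β α := by
      rw [Finset.sum_comm]
      refine Finset.sum_congr rfl fun β _ => Finset.sum_congr rfl fun α _ => ?_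
      ring
    have e8 : ∑ β, ∑ α, (cc F β * cc F α) * B α β =
        ∑ β, ∑ α, (cc F β * cc F α) * ((B α β + B β α) / 2) := by
      have e9 : ∑ β, ∑ α, (cc F β * cc F α) * ((B α β + B β α) / 2) =
          (∑ β, ∑ α, (cc F β * cc F α) * B α β) / 2 +
          (∑ β, ∑ α, (cc F β * cc F α) * B β α) / 2 := by
        rw [Finset.sum_div, Finset.sum_div, ← Finset.sum_add_distrib]
        refine Finset.sum_congr rfl fun β _ => ?_
        rw [Finset.sum_div, Finset.sum_div, ← Finset.sum_add_distrib]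
        refine Finset.sum_congr rfl fun α _ => ?_
        ring
      rw [e9, ← e7]
      ring
    rw [e8, ← Finset.sum_sub_distrib]
    refine Finset.sum_congr rfl fun β _ => ?_
    rw [← Finset.sum_sub_distrib]
    refine Finset.sum_congr rfl fun α _ => ?_
    ring
  rw [e6]
  refine Finset.sum_nonneg fun β _ => Finset.sum_nonneg fun α _ => ?_
  refine mul_nonneg (mul_nonneg (cc_nonneg F β) (cc_nonneg F α)) ?_
  have := hpair α β
  linarith

variable {u} in
theorem TM_scp (hτ : Trc τ) (hF : F.Nonempty) (hu : ∀ s, Un (u s)) {ψ : N →ₗ[ℂ] N}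
    (hψ : SCP τ ψ) : SCP τ (TM F u ψ) := by
  refine mkSCP hτ (TM_star F u hψ) ?_ ?_ ?_ ?_
  · intro m x y
    have h := cpF hψ (κ := Fin m × Option ({s // s ∈ F} × Bool))
      (fun p => cc F p.2 • (x p.1 * ww F u p.2)) (fun p => star (ww F u p.2) * y p.1)
    simp only [Fintype.sum_prod_type] at h
    have e : (∑ i, ∑ j, τ (star (x i) * x j * TM F u ψ (y j * star (y i)))).re =
        ∑ i, ∑ α, ∑ j, ∑ β, rt τ (star (cc F α • (x i * ww F u α)) * cc F β • (x j * ww F u β) *
          ψ (star (ww F u β) * y j * star (star (ww F u α) * y i))) := by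
      rw [Complex.re_sum]
      refine Finset.sum_congr rfl fun i _ => ?_
      rw [Complex.re_sum, Finset.sum_comm]
      refine Finset.sum_congr rfl fun j _ => ?_
      have e1 : (τ (star (x i) * x j * TM F u ψ (y j * star (y i)))).re =
        rt τ (star (x i) * x j * TM F u ψ (y j * star (y i))) := rfl
      rw [e1, rt_TM F u hτ, Finset.sum_comm]
      refine Finset.sum_congr rfl fun α _ => Finset.sum_congr rfl fun β _ => ?_
      rw [star_smul, star_trivial (cc F α), smul_mul_smul_comm, smul_mul_assoc, rt_smul, star_mul,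
        star_mul, star_star, mul_comm (cc F α)]
      simp only [mul_assoc]
    rw [e]
    exact h
  · intro x y
    rw [hτ.tr, tau_TM F u hτ, tau_TM F u hτ, Finset.sum_comm]
    refine Finset.sum_congr rfl fun β _ => Finset.sum_congr rfl fun α _ => ?_
    rw [mul_comm (cc F α)]
    congr 1
    have e1 : star (ww F u β) * y * ww F u α * ψ (star (ww F u α) * x * ww F u β) =
      (star (ww F u β) * y * ww F u α) * ψ (star (ww F u α) * x * ww F u β) := rfl
    rw [e1, ← hψ.symm, hτ.tr]
  · intro x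
    rw [rt_TM F u hτ]
    refine Finset.sum_nonneg fun β _ => Finset.sum_nonneg fun α _ => ?_
    refine mul_nonneg (mul_nonneg (cc_nonneg F β) (cc_nonneg F α)) ?_
    have h := hψ.pos (star (ww F u β) * x * ww F u α)
    rw [star_mul, star_mul, star_star] at h
    simp only [mul_assoc] at h ⊢
    exact h
  · exact (TM_le F hτ hF hu hψ).trans ((TT_mono F u hψ.one).trans (TT_one F hF hu).le)

end avg

end ScpAux

theorem pScp : StScp := by
  intro N _ _ _ τ hτ
  refine ⟨fun ψ c hψ hc => ScpAux.Cj_scp hτ hψ hc,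
    fun κ s θ r hr hθ h1 => ScpAux.sum_scp hτ s θ r hr hθ h1,
    fun y hy hy1 => ScpAux.Mp_scp hτ hy hy1, ?_⟩
  intro ι F u ψ k hF hu hψ
  induction k with
  | zero => exact ⟨hψ, le_refl _⟩
  | succ k ih =>
    obtain ⟨ih1, ih2⟩ := ih
    rw [Function.iterate_succ_apply']
    refine ⟨ScpAux.TM_scp F hτ hF hu ih1, ?_⟩
    refine (ScpAux.TM_le F hτ hF hu ih1).trans ?_
    rw [pow_succ']
    exact ScpAux.TT_mono F u ih2

end Helper61.HT
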