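import Pool.Agent.Helper61.HT.StF
import Pool.Agent.Helper61.HT.LibN
import Pool.Agent.Helper61.HT.Ip
import Pool.Agent.Helper61.HT.PScp

/-!
# HT module CE: the conditional expectation onto a finite dimensional subalgebra
-/

namespace Helper61.HT

open scoped ComplexOrder

section CE

private lemma dec_CE {M : Type} [CStarAlgebra M] [PartialOrder M] [StarOrderedRing M] (A : M)
    (hA : star A = A) : ∃ P C : M, 0 ≤ P ∧ 0 ≤ C ∧ P - C = A ∧ P * C = 0 :=
  ⟨A⁺, A⁻, CFC.posPart_nonneg A, CFC.negPart_nonneg A, CFC.posPart_sub_negPart A hA,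
    CFC.posPart_mul_negPart A⟩

/-- A matrix with nonnegative form (with respect to the trace) factors. -/
private lemma factor0_CE {B : Type} [CStarAlgebra B] [PartialOrder B] [StarOrderedRing B]
    {τ : B →ₗ[ℂ] ℂ} (hτ : Trc τ) {m : ℕ} (A : CStarMatrix (Fin m) (Fin m) B) (hA : star A = A)
    (h : ∀ b : Fin m → B, 0 ≤ rt τ (∑ i, ∑ j, star (b i) * A i j * b j)) :
    ∃ Z : CStarMatrix (Fin m) (Fin m) B, A = star Z * Z := by
  obtain ⟨P, C, hP0, hC0, hdec, hpn⟩ := dec_CE A hA
  have hCs : star C = C := (IsSelfAdjoint.of_nonneg hC0).star_eq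
  obtain ⟨Y, hY0, hY⟩ := exists_sqrt hC0
  have hYs : star Y = Y := (IsSelfAdjoint.of_nonneg hY0).star_eq
  have hAC : star C * A * C = -(C * C * C) := by
    rw [hCs, ← hdec, mul_assoc, sub_mul, hpn, zero_sub, mul_neg, ← mul_assoc]
  have hW : star (Y * C) * (Y * C) = C * C * C := by
    rw [star_mul, hCs, hYs]
    calc C * Y * (Y * C) = C * (Y * Y) * C := by noncomm_ring
      _ = C * C * C := by rw [hY]
  have hW0 : Y * C = 0 := by
    ext i k
    have h1 : (star (Y * C) * (Y * C)) k k = ∑ l, star ((Y * C) l k) * (Y * C) l k := rfl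
    have h2 : (star C * A * C) k k = ∑ i, ∑ j, star (C i k) * A i j * C j k := by
      have : (star C * A * C) k k = ∑ j, (∑ i, star (C i k) * A i j) * C j k := rfl
      rw [this, Finset.sum_comm]
      exact Finset.sum_congr rfl fun j _ => Finset.sum_mul _ _ _
    have h3 : rt τ ((star (Y * C) * (Y * C)) k k) ≤ 0 := by
      have h4 : (star (Y * C) * (Y * C)) k k = -((star C * A * C) k k) := by
        rw [hW, hAC]
        simp
      rw [h4, h2, rt_neg]
      exact neg_nonpos.2 (h fun i => C i k)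
    have h5 : ∀ l ∈ Finset.univ, 0 ≤ rt τ (star ((Y * C) l k) * (Y * C) l k) :=
      fun l _ => hs_nonneg hτ _
    rw [h1, rt_sum] at h3
    have h6 := le_antisymm h3 (Finset.sum_nonneg h5)
    have h7 := (Finset.sum_eq_zero_iff_of_nonneg h5).1 h6 i (Finset.mem_univ i)
    have h8 := hs_eq_zero hτ h7
    rw [h8]
    rfl
  have hC3 : C * C * C = 0 := by rw [← hW, hW0, mul_zero]
  have hC2 : C * C = 0 := by
    refine (CStarRing.star_mul_self_eq_zero_iff _).1 ?_
    rw [star_mul, hCs, ← mul_assoc, hC3, zero_mul]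
  have hC1 : C = 0 := by
    refine (CStarRing.star_mul_self_eq_zero_iff _).1 ?_
    rw [hCs, hC2]
  have hA0 : 0 ≤ A := by
    rw [← hdec, hC1, sub_zero]
    exact hP0
  obtain ⟨Z, hZ0, hZ⟩ := exists_sqrt hA0
  exact ⟨Z, by rw [(IsSelfAdjoint.of_nonneg hZ0).star_eq, hZ]⟩

/-- The same without an order in the statement. -/
private lemma factor1_CE {B : Type} [CStarAlgebra B] {τ : B →ₗ[ℂ] ℂ} (hτ : Trc τ) {m : ℕ}
    (A : Fin m → Fin m → B) (hA : ∀ i j, star (A j i) = A i j)
    (h : ∀ b : Fin m → B, 0 ≤ rt τ (∑ i, ∑ j, star (b i) * A i j * b j)) :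
    ∃ Z : Fin m → Fin m → B, ∀ i j, A i j = ∑ k, star (Z k i) * Z k j := by
  let _ := CStarAlgebra.spectralOrder B
  have _ := CStarAlgebra.spectralOrderedRing B
  obtain ⟨Z, hZ⟩ := factor0_CE hτ (CStarMatrix.ofMatrix fun i j => A i j)
    (by ext i j; exact hA i j) h
  refine ⟨fun i j => Z i j, fun i j => ?_⟩
  exact congrArg (fun M : CStarMatrix (Fin m) (Fin m) B => M i j) hZ

/-- Factorization for matrices over a finite dimensional *-subalgebra. -/
private lemma factor_CE {N : Type} [CStarAlgebra N] {τ : N →ₗ[ℂ] ℂ} (hτ : Trc τ)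
    (M : StarSubalgebra ℂ N) (hM : FiniteDimensional ℂ M) {m : ℕ}
    (A : Fin m → Fin m → N) (hAM : ∀ i j, A i j ∈ M) (hA : ∀ i j, star (A j i) = A i j)
    (h : ∀ b : Fin m → N, (∀ i, b i ∈ M) → 0 ≤ rt τ (∑ i, ∑ j, star (b i) * A i j * b j)) :
    ∃ Z : Fin m → Fin m → N, ∀ i j, A i j = ∑ k, star (Z k i) * Z k j := by
  have hcl : IsClosed (M : Set N) := by
    have h1 : FiniteDimensional ℂ (Subalgebra.toSubmodule M.toSubalgebra) := hM
    exact Submodule.closed_of_finiteDimensional (Subalgebra.toSubmodule M.toSubalgebra)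
  let _ : CStarAlgebra M := StarSubalgebra.cstarAlgebra M (h_closed := hcl)
  let τM : M →ₗ[ℂ] ℂ := τ ∘ₗ (M.subtype : M →⋆ₐ[ℂ] N).toAlgHom.toLinearMap
  have hτM : Trc τM := by
    refine ⟨?_, ?_, ?_, ?_⟩
    · exact hτ.one
    · intro x y
      exact hτ.tr x y
    · intro x
      exact hτ.nonneg x
    · intro x hx
      exact Subtype.ext (hτ.faith (x : N) hx)
  obtain ⟨Z, hZ⟩ := factor1_CE hτM (fun i j => (⟨A i j, hAM i j⟩ : M))
    (fun i j => Subtype.ext (hA i j)) (by
      intro b
      have h1 := h (fun i => (b i : N)) (fun i => (b i).2)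
      have h2 : rt τM (∑ i, ∑ j, star (b i) * (⟨A i j, hAM i j⟩ : M) * b j) =
          rt τ (∑ i, ∑ j, star (b i : N) * A i j * (b j : N)) := by
        rw [rt_sum, rt_sum]
        refine Finset.sum_congr rfl fun i _ => ?_
        rw [rt_sum, rt_sum]
        rfl
      rw [h2]
      exact h1)
  refine ⟨fun i j => (Z i j : N), fun i j => ?_⟩
  have h1 := congrArg (fun z : M => (z : N)) (hZ i j)
  simp only at h1
  rw [h1]
  push_cast
  rfl

theorem pCE : StCE := by
  intro N _ _ _ τ M hτ hM
  classical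
  obtain ⟨H, i1, i2, e, hin, hnorm⟩ := exists_L2 hτ
  let W : Submodule ℂ H := (Subalgebra.toSubmodule M.toSubalgebra).map (e : N →ₗ[ℂ] H)
  have hfd0 : FiniteDimensional ℂ (Subalgebra.toSubmodule M.toSubalgebra) := hM
  have hfd : FiniteDimensional ℂ W := by
    exact inferInstanceAs (FiniteDimensional ℂ
      ((Subalgebra.toSubmodule M.toSubalgebra).map (e : N →ₗ[ℂ] H)))
  have : CompleteSpace W := FiniteDimensional.complete ℂ W
  have : W.HasOrthogonalProjection := inferInstance
  let E : N →ₗ[ℂ] N := (e.symm : H →ₗ[ℂ] N) ∘ₗ (W.starProjection : H →ₗ[ℂ] H) ∘ₗ (e : N →ₗ[ℂ] H)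
  have hE : ∀ x, E x = e.symm (W.starProjection (e x)) := fun x => rfl
  have heE : ∀ x, e (E x) = W.starProjection (e x) := fun x => by
    rw [hE, LinearEquiv.apply_symm_apply]
  have hmemW : ∀ x, e x ∈ W ↔ x ∈ M := by
    intro x
    constructor
    · rintro ⟨y, hy, hxy⟩
      have : y = x := e.injective hxy
      rw [← this]; exact hy
    · intro hx
      exact ⟨x, hx, rfl⟩
  have hEM : ∀ x, E x ∈ M := fun x => by
    rw [← hmemW, heE]
    exact Submodule.starProjection_apply_mem W (e x)
  -- the characterization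
  have hchar : ∀ x, ∀ m ∈ M, τ (m * E x) = τ (m * x) := by
    intro x m hm
    have h1 : inner ℂ (e x - W.starProjection (e x)) (e (star m)) = 0 :=
      Submodule.starProjection_inner_eq_zero (e x) (e (star m)) ((hmemW _).2 (star_mem hm))
    have h2 : inner ℂ (e (star m)) (e x - W.starProjection (e x)) = 0 := by
      rw [← inner_conj_symm, h1, map_zero]
    rw [← heE, ← map_sub, hin, star_star, mul_sub, map_sub, sub_eq_zero] at h2
    exact h2.symm
  have hchar' : ∀ x, ∀ m ∈ M, τ (E x * m) = τ (x * m) := by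
    intro x m hm
    rw [hτ.tr, hchar x m hm, hτ.tr]
  have huniq : ∀ x y, y ∈ M → (∀ m ∈ M, τ (m * y) = τ (m * x)) → E x = y := by
    intro x y hy h
    have h1 : E x - y ∈ M := sub_mem (hEM x) hy
    have h2 : τ (star (E x - y) * (E x - y)) = 0 := by
      rw [mul_sub, map_sub, hchar x _ (star_mem h1), h _ (star_mem h1), sub_self]
    exact sub_eq_zero.1 (hτ.faith _ h2)
  have hfix : ∀ x ∈ M, E x = x := fun x hx => huniq x x hx fun m _ => rfl
  have hone : E 1 = 1 := hfix 1 (one_mem M)
  have hτE : ∀ x, τ (E x) = τ x := by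
    intro x
    have := hchar x 1 (one_mem M)
    rwa [one_mul, one_mul] at this
  have hstar : ∀ x, E (star x) = star (E x) := by
    intro x
    refine huniq _ _ (star_mem (hEM x)) fun m hm => ?_
    have h1 : m * star (E x) = star (E x * star m) := by rw [star_mul, star_star]
    have h2 : m * star x = star (x * star m) := by rw [star_mul, star_star]
    rw [h1, h2, map_star' hτ, map_star' hτ, hchar' x _ (star_mem hm)]
  have hl : ∀ m ∈ M, ∀ x, E (m * x) = m * E x := by
    intro m hm x
    refine huniq _ _ (mul_mem hm (hEM x)) fun m' hm' => ?_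
    rw [← mul_assoc, ← mul_assoc, hchar x _ (mul_mem hm' hm)]
  have hr : ∀ m ∈ M, ∀ x, E (x * m) = E x * m := by
    intro m hm x
    refine huniq _ _ (mul_mem (hEM x) hm) fun m' hm' => ?_
    rw [← mul_assoc, ← mul_assoc, hτ.tr, hτ.tr (m' * x), ← mul_assoc, ← mul_assoc,
      hchar x _ (mul_mem hm hm')]
  have hsymm : ∀ x y, τ (E x * y) = τ (x * E y) := by
    intro x y
    rw [← hchar y (E x) (hEM x), hchar' x (E y) (hEM y)]
  have hpos : ∀ x, rt τ (star x * E x) = hs τ (E x) := by
    intro x
    rw [hs_eq_rt, ← hstar]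
    unfold rt
    rw [hchar' (star x) (E x) (hEM x)]
  have hcp : ∀ (m : ℕ) (x y : Fin m → N),
      0 ≤ (∑ i, ∑ j, τ (star (x i) * x j * E (y j * star (y i)))).re := by
    intro m x y
    obtain ⟨Z, hZ⟩ := factor_CE hτ M hM (fun i j => E (y i * star (y j)))
      (fun i j => hEM _) (fun i j => by rw [← hstar, star_mul, star_star]) (by
        intro b hb
        have h1 : ∑ i, ∑ j, star (b i) * E (y i * star (y j)) * b j =
            E ((∑ i, star (b i) * y i) * star (∑ i, star (b i) * y i)) := by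
          rw [star_sum, Finset.sum_mul_sum, map_sum]
          refine Finset.sum_congr rfl fun i _ => ?_
          rw [map_sum]
          refine Finset.sum_congr rfl fun j _ => ?_
          rw [star_mul, star_star, show star (b i) * y i * (star (y j) * b j) =
            star (b i) * (y i * star (y j)) * b j by noncomm_ring, hr _ (hb j),
            hl _ (star_mem (hb i))]
        rw [h1]
        unfold rt
        rw [hτE, hτ.tr]
        exact hs_nonneg hτ _)
    have h2 : ∑ i, ∑ j, τ (star (x i) * x j * E (y j * star (y i))) =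
        ∑ k, τ (star (∑ i, x i * star (Z k i)) * (∑ j, x j * star (Z k j))) := by
      have h3 : ∀ i j, τ (star (x i) * x j * E (y j * star (y i))) =
          ∑ k, τ (star (x i * star (Z k i)) * (x j * star (Z k j))) := by
        intro i j
        rw [hZ j i, Finset.mul_sum, map_sum]
        refine Finset.sum_congr rfl fun k _ => ?_
        rw [show star (x i) * x j * (star (Z k j) * Z k i) =
          (star (x i) * (x j * star (Z k j))) * Z k i by noncomm_ring, hτ.tr, ← mul_assoc,
          star_mul, star_star]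
      simp only [h3]
      have h4 : ∀ k, τ (star (∑ i, x i * star (Z k i)) * (∑ j, x j * star (Z k j))) =
          ∑ i, ∑ j, τ (star (x i * star (Z k i)) * (x j * star (Z k j))) := by
        intro k
        rw [star_sum, Finset.sum_mul_sum, map_sum]
        exact Finset.sum_congr rfl fun i _ => map_sum _ _ _
      simp only [h4]
      rw [Finset.sum_comm (s := Finset.univ (α := Fin m)) (t := Finset.univ (α := Fin m))
        (f := fun k i => ∑ j, τ (star (x i * star (Z k i)) * (x j * star (Z k j))))]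
      exact Finset.sum_congr rfl fun i _ => Finset.sum_comm
    rw [h2, Complex.re_sum]
    exact Finset.sum_nonneg fun k _ => hs_nonneg hτ _
  have hscp : SCP τ E := ScpAux.mkSCP hτ hstar hcp hsymm
    (fun x => by rw [hpos]; exact hs_nonneg hτ _) hone.le
  have hsa : ∀ x, star x = x → ‖E x‖ ≤ ‖x‖ := by
    intro x hx
    have h0 : E (‖x‖ • (1 : N)) = ‖x‖ • 1 := by rw [LinearMap.map_smul_of_tower, hone]
    refine norm_le_of_le (norm_nonneg x) (by rw [← hstar, hx]) ?_ ?_
    · rw [← h0]
      exact ScpAux.mono hscp (le_smul_of_norm hx)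
    · rw [← h0, ← map_neg]
      exact ScpAux.mono hscp (neg_smul_le_of_norm hx)
  refine ⟨E, hscp, hEM, hfix, ?_, ?_⟩
  · intro x
    rw [sub_eq_add_neg, hs_add hτ, hs_neg, mul_neg, rt_neg, ← hpos]
    ring
  · intro x
    have hre : star ((realPart x : selfAdjoint N) : N) = realPart x := (realPart x).2
    have him : star ((imaginaryPart x : selfAdjoint N) : N) = imaginaryPart x :=
      (imaginaryPart x).2
    have hx : (realPart x : N) + Complex.I • (imaginaryPart x : N) = x :=
      realPart_add_I_smul_imaginaryPart x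
    have h1 : ‖((realPart x : selfAdjoint N) : N)‖ ≤ ‖x‖ := realPart.norm_le x
    have h2 : ‖((imaginaryPart x : selfAdjoint N) : N)‖ ≤ ‖x‖ := imaginaryPart.norm_le x
    calc ‖E x‖ = ‖E (realPart x : N) + Complex.I • E (imaginaryPart x : N)‖ := by
          rw [← map_smul, ← map_add, hx]
      _ ≤ ‖E (realPart x : N)‖ + ‖Complex.I • E (imaginaryPart x : N)‖ := norm_add_le _ _
      _ = ‖E (realPart x : N)‖ + ‖E (imaginaryPart x : N)‖ := by
          rw [norm_smul, Complex.norm_I, one_mul]
      _ ≤ ‖x‖ + ‖x‖ := add_le_add ((hsa _ hre).trans h1) ((hsa _ him).trans h2)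
      _ = 2 * ‖x‖ := by ring

end CE

end Helper61.HT
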