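import Pool.Agent.Helper61.HT.LibN

/-!
# Project HT: limits in the 2-norm, greedy principle, averages of unitary conjugates

(helper29) `T2 τ x y`: the sequence `x` converges to `y` in the 2-norm.
-/

set_option autoImplicit false
set_option linter.unusedSectionVars false

namespace Helper61.HT

open scoped ComplexOrder
open Filter Topology

section lim

variable {N : Type} [CStarAlgebra N] [PartialOrder N] [StarOrderedRing N] {τ : N →ₗ[ℂ] ℂ}

/-- Convergence in the 2-norm. -/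
def T2 (τ : N →ₗ[ℂ] ℂ) (x : ℕ → N) (y : N) : Prop :=
  Tendsto (fun n => hs τ (x n - y)) atTop (𝓝 0)

/-- Squeeze for `T2`. -/
lemma T2.of_le (hτ : Trc τ) {x : ℕ → N} {y : N} {f : ℕ → ℝ} (hf : Tendsto f atTop (𝓝 0))
    (h : ∀ n, hs τ (x n - y) ≤ f n) : T2 τ x y :=
  squeeze_zero (fun _ => hs_nonneg hτ _) h hf

lemma T2.const (hτ : Trc τ) (y : N) : T2 τ (fun _ => y) y :=
  T2.of_le hτ tendsto_const_nhds fun _ => by rw [sub_self, hs_zero]

lemma T2.unique (hτ : Trc τ) {x : ℕ → N} {y z : N} (h : T2 τ x y) (h' : T2 τ x z) : y = z := by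
  rw [← sub_eq_zero]
  apply hs_eq_zero hτ
  have h1 : Tendsto (fun n => 2 * hs τ (x n - z) + 2 * hs τ (x n - y)) atTop (𝓝 (2 * 0 + 2 * 0)) :=
    (h'.const_mul 2).add (h.const_mul 2)
  refine le_antisymm ?_ (hs_nonneg hτ _)
  have h2 : ∀ n, hs τ (y - z) ≤ 2 * hs τ (x n - z) + 2 * hs τ (x n - y) := by
    intro n
    have h3 := hs_add_le hτ (x n - z) (-(x n - y))
    rw [hs_neg] at h3
    have h4 : x n - z + -(x n - y) = y - z := by abel
    rwa [h4] at h3
  have := ge_of_tendsto' h1 h2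
  simpa using this

lemma T2.add (hτ : Trc τ) {x x' : ℕ → N} {y y' : N} (h : T2 τ x y) (h' : T2 τ x' y') :
    T2 τ (fun n => x n + x' n) (y + y') := by
  refine T2.of_le hτ (f := fun n => 2 * hs τ (x n - y) + 2 * hs τ (x' n - y')) ?_ ?_
  · simpa using (h.const_mul 2).add (h'.const_mul 2)
  · intro n
    have h3 := hs_add_le hτ (x n - y) (x' n - y')
    have h4 : x n - y + (x' n - y') = x n + x' n - (y + y') := by abel
    rwa [h4] at h3

lemma T2.neg {x : ℕ → N} {y : N} (h : T2 τ x y) : T2 τ (fun n => -x n) (-y) := by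
  have h1 : (fun n => hs τ (-x n - -y)) = fun n => hs τ (x n - y) := by
    funext n
    rw [← hs_neg]
    congr 1; abel
  unfold T2
  rw [h1]
  exact h

lemma T2.sub (hτ : Trc τ) {x x' : ℕ → N} {y y' : N} (h : T2 τ x y) (h' : T2 τ x' y') :
    T2 τ (fun n => x n - x' n) (y - y') := by
  simpa only [sub_eq_add_neg] using T2.add hτ h h'.neg

lemma T2.smul (hτ : Trc τ) {x : ℕ → N} {y : N} (c : ℝ) (h : T2 τ x y) :
    T2 τ (fun n => c • x n) (c • y) := by
  refine T2.of_le hτ (f := fun n => c ^ 2 * hs τ (x n - y)) ?_ ?_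
  · simpa using h.const_mul (c ^ 2)
  · intro n
    rw [← smul_sub, hs_smul]

lemma T2.smulC (hτ : Trc τ) {x : ℕ → N} {y : N} (c : ℂ) (h : T2 τ x y) :
    T2 τ (fun n => c • x n) (c • y) := by
  refine T2.of_le hτ (f := fun n => ‖c‖ ^ 2 * hs τ (x n - y)) ?_ ?_
  · simpa using h.const_mul (‖c‖ ^ 2)
  · intro n
    rw [← smul_sub, hs_smulC]

lemma T2.mul_left (hτ : Trc τ) {x : ℕ → N} {y : N} (a : N) (h : T2 τ x y) :
    T2 τ (fun n => a * x n) (a * y) := by
  refine T2.of_le hτ (f := fun n => ‖a‖ ^ 2 * hs τ (x n - y)) ?_ ?_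
  · simpa using h.const_mul (‖a‖ ^ 2)
  · intro n
    rw [← mul_sub]
    exact hs_mul_le hτ _ _

lemma T2.mul_right (hτ : Trc τ) {x : ℕ → N} {y : N} (a : N) (h : T2 τ x y) :
    T2 τ (fun n => x n * a) (y * a) := by
  refine T2.of_le hτ (f := fun n => ‖a‖ ^ 2 * hs τ (x n - y)) ?_ ?_
  · simpa using h.const_mul (‖a‖ ^ 2)
  · intro n
    rw [← sub_mul]
    exact hs_mul_le' hτ _ _

lemma T2.star (hτ : Trc τ) {x : ℕ → N} {y : N} (h : T2 τ x y) :
    T2 τ (fun n => star (x n)) (star y) := by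
  have h1 : (fun n => hs τ (Star.star (x n) - Star.star y)) = fun n => hs τ (x n - y) := by
    funext n
    rw [← star_sub, hs_star hτ]
  unfold T2
  rw [h1]
  exact h

/-- Products of (one sided) bounded sequences. -/
lemma T2.mul (hτ : Trc τ) {x x' : ℕ → N} {y y' : N} {C : ℝ} (hC : ∀ n, ‖x n‖ ≤ C)
    (h : T2 τ x y) (h' : T2 τ x' y') : T2 τ (fun n => x n * x' n) (y * y') := by
  refine T2.of_le hτ
    (f := fun n => 2 * (C ^ 2 * hs τ (x' n - y')) + 2 * (‖y'‖ ^ 2 * hs τ (x n - y))) ?_ ?_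
  · simpa using ((h'.const_mul (C ^ 2)).const_mul 2).add ((h.const_mul (‖y'‖ ^ 2)).const_mul 2)
  · intro n
    have h3 := hs_add_le hτ (x n * (x' n - y')) ((x n - y) * y')
    have h4 : x n * (x' n - y') + (x n - y) * y' = x n * x' n - y * y' := by noncomm_ring
    rw [h4] at h3
    have h5 := hs_mul_le hτ (x n) (x' n - y')
    have h6 := hs_mul_le' hτ (x n - y) y'
    have h7 : ‖x n‖ ^ 2 ≤ C ^ 2 := pow_le_pow_left₀ (norm_nonneg _) (hC n) 2
    have h8 := mul_le_mul_of_nonneg_right h7 (hs_nonneg hτ (x' n - y'))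
    linarith

lemma T2.comp {x : ℕ → N} {y : N} (h : T2 τ x y) {φ : ℕ → ℕ} (hφ : Tendsto φ atTop atTop) :
    T2 τ (fun n => x (φ n)) y :=
  Tendsto.comp (g := fun n => hs τ (x n - y)) h hφ

/-- The limit of an eventually constant sequence. -/
lemma T2.eq_of_eventually (hτ : Trc τ) {x : ℕ → N} {y z : N} (h : T2 τ x y) (n₀ : ℕ)
    (h' : ∀ n ≥ n₀, x n = z) : y = z := by
  refine T2.unique hτ h ?_
  have h1 : (fun n => hs τ (x n - z)) =ᶠ[atTop] fun _ => (0 : ℝ) := by
    filter_upwards [eventually_ge_atTop n₀] with n hn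
    rw [h' n hn, sub_self, hs_zero]
  exact (tendsto_congr' h1).2 tendsto_const_nhds

lemma norm_map_le (hτ : Trc τ) (x : N) : ‖τ x‖ ≤ Real.sqrt (hs τ x) := by
  have h := norm_map_mul_le hτ 1 x
  have h1 : hs τ (1 : N) = 1 := by rw [hs_eq_rt, star_one, mul_one]; exact rt_one hτ
  rwa [star_one, one_mul, h1, Real.sqrt_one, one_mul] at h

/-- The trace is continuous. -/
lemma T2.tau (hτ : Trc τ) {x : ℕ → N} {y : N} (h : T2 τ x y) :
    Tendsto (fun n => τ (x n)) atTop (𝓝 (τ y)) := by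
  rw [tendsto_iff_norm_sub_tendsto_zero]
  have h1 : Tendsto (fun n => Real.sqrt (hs τ (x n - y))) atTop (𝓝 0) := by
    have := (Real.continuous_sqrt.tendsto 0).comp h
    rwa [Real.sqrt_zero] at this
  refine squeeze_zero (fun _ => norm_nonneg _) (fun n => ?_) h1
  rw [← map_sub]
  exact norm_map_le hτ _

lemma T2.rt (hτ : Trc τ) {x : ℕ → N} {y : N} (h : T2 τ x y) :
    Tendsto (fun n => rt τ (x n)) atTop (𝓝 (rt τ y)) :=
  (Complex.continuous_re.tendsto _).comp (h.tau hτ)

/-- `hs` is continuous. -/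
lemma T2.hs (hτ : Trc τ) {x : ℕ → N} {y : N} (h : T2 τ x y) :
    Tendsto (fun n => hs τ (x n)) atTop (𝓝 (hs τ y)) := by
  have h1 : Tendsto (fun n => Real.sqrt (Helper61.HT.hs τ (x n - y))) atTop (𝓝 0) := by
    have := (Real.continuous_sqrt.tendsto 0).comp h
    rwa [Real.sqrt_zero] at this
  have h2 : Tendsto (fun n => Real.sqrt (Helper61.HT.hs τ (x n))) atTop
      (𝓝 (Real.sqrt (Helper61.HT.hs τ y))) := by
    rw [tendsto_iff_norm_sub_tendsto_zero]
    refine squeeze_zero (fun _ => norm_nonneg _) (fun n => ?_) h1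
    rw [Real.norm_eq_abs, abs_le]
    constructor
    · have h3 := sqrt_hs_add_le hτ (x n) (-(x n - y))
      rw [hs_neg] at h3
      have h4 : x n + -(x n - y) = y := by abel
      rw [h4] at h3
      linarith
    · have h3 := sqrt_hs_add_le hτ y (x n - y)
      have h4 : y + (x n - y) = x n := by abel
      rw [h4] at h3
      linarith
  have h3 := h2.pow 2
  simp only [Real.sq_sqrt (hs_nonneg hτ _)] at h3
  exact h3

/-- Limits in balls of arbitrary radius. -/
lemma Cpl.exists_lim (hτ : Trc τ) (hc : Cpl τ) {x : ℕ → N} {C : ℝ} (hC : 0 < C)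
    (hx : ∀ n, ‖x n‖ ≤ C)
    (h : ∀ ε : ℝ, 0 < ε → ∃ n₀, ∀ m ≥ n₀, ∀ n ≥ n₀, hs τ (x m - x n) ≤ ε) :
    ∃ y, ‖y‖ ≤ C ∧ T2 τ x y := by
  obtain ⟨y, hy, hlim⟩ := hc (fun n => C⁻¹ • x n) (fun n => by
    rw [norm_smul, Real.norm_eq_abs, abs_of_pos (inv_pos.2 hC), inv_mul_le_iff₀ hC, mul_one]
    exact hx n) (fun ε hε => by
    obtain ⟨n₀, hn⟩ := h (C ^ 2 * ε) (by positivity)
    refine ⟨n₀, fun m hm n hn' => ?_⟩
    rw [← smul_sub, hs_smul, inv_pow, inv_mul_le_iff₀ (by positivity)]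
    exact hn m hm n hn')
  refine ⟨C • y, ?_, ?_⟩
  · rw [norm_smul, Real.norm_eq_abs, abs_of_pos hC]
    nlinarith
  · have h1 := T2.smul hτ C (show T2 τ (fun n => C⁻¹ • x n) y from hlim)
    have h2 : (fun n => C • C⁻¹ • x n) = x := by
      funext n
      rw [smul_smul, mul_inv_cancel₀ hC.ne', one_smul]
    rwa [h2] at h1

/-- A convenient Cauchy criterion. -/
lemma cauchy_of_monotone {x : ℕ → N} {f : ℕ → ℝ} {M : ℝ} (hM : ∀ n, f n ≤ M)
    (hf : Monotone f) (h : ∀ n m, n ≤ m → hs τ (x m - x n) ≤ f m - f n) :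
    ∀ ε : ℝ, 0 < ε → ∃ n₀, ∀ m ≥ n₀, ∀ n ≥ n₀, hs τ (x m - x n) ≤ ε := by
  intro ε hε
  have hbdd : BddAbove (Set.range f) := ⟨M, by rintro _ ⟨n, rfl⟩; exact hM n⟩
  have hlim := tendsto_atTop_ciSup hf hbdd
  have h1 : ∃ n₀, (⨆ i, f i) - ε < f n₀ := by
    have h2 : ∀ᶠ n in atTop, (⨆ i, f i) - ε < f n :=
      hlim.eventually_const_lt (by linarith)
    exact h2.exists
  obtain ⟨n₀, hn₀⟩ := h1
  refine ⟨n₀, fun m hm n hn => ?_⟩
  have key : ∀ a b, n₀ ≤ a → a ≤ b → hs τ (x b - x a) ≤ ε := by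
    intro a b ha hab
    have h3 := h a b hab
    have h4 : f n₀ ≤ f a := hf ha
    have h5 : f b ≤ ⨆ i, f i := le_ciSup hbdd b
    linarith
  rcases le_total n m with hnm | hnm
  · exact key n m hn hnm
  · rw [hs_sub_comm]
    exact key m n hm hnm

end lim

/-! ## greedy principle -/

/-- Greedy maximal elements for a preorder with a bounded monotone real function such that
increasing sequences have upper bounds. -/
theorem greedy_max {X : Type} (r : X → X → Prop) (f : X → ℝ)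
    (hrefl : ∀ x, r x x) (htrans : ∀ x y z, r x y → r y z → r x z)
    (M : ℝ) (hM : ∀ x, f x ≤ M) (hmono : ∀ x y, r x y → f x ≤ f y)
    (hchain : ∀ s : ℕ → X, (∀ n, r (s n) (s (n + 1))) → ∃ x, ∀ n, r (s n) x) (x₀ : X) :
    ∃ x, r x₀ x ∧ ∀ y, r x y → f y ≤ f x := by
  have hstep : ∀ (x : X) (n : ℕ), ∃ y, r x y ∧ ∀ z, r x z → f z ≤ f y + 1 / ((n : ℝ) + 1) := by
    intro x n
    have hbdd : BddAbove (f '' {y | r x y}) := ⟨M, by rintro _ ⟨y, _, rfl⟩; exact hM y⟩
    have hne : (f '' {y | r x y}).Nonempty := ⟨f x, x, hrefl x, rfl⟩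
    have hpos : (0 : ℝ) < 1 / ((n : ℝ) + 1) := by positivity
    obtain ⟨_, ⟨y, hy, rfl⟩, hlt⟩ := exists_lt_of_lt_csSup hne
      (show sSup (f '' {y | r x y}) - 1 / ((n : ℝ) + 1) < sSup (f '' {y | r x y}) by linarith)
    refine ⟨y, hy, fun z hz => ?_⟩
    have := le_csSup hbdd ⟨z, hz, rfl⟩
    linarith
  choose g hg1 hg2 using hstep
  let s : ℕ → X := fun n => Nat.rec x₀ (fun k x => g x k) n
  have hs0 : s 0 = x₀ := rfl
  have hsucc : ∀ n, s (n + 1) = g (s n) n := fun n => rfl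
  obtain ⟨x, hx⟩ := hchain s fun n => by rw [hsucc]; exact hg1 _ _
  refine ⟨x, by have := hx 0; rwa [hs0] at this, fun y hy => ?_⟩
  have h1 : ∀ n : ℕ, f y ≤ f x + 1 / ((n : ℝ) + 1) := by
    intro n
    have h2 := hg2 (s n) n y (htrans _ _ _ (hx n) hy)
    have h3 := hmono _ _ (hx (n + 1))
    rw [hsucc] at h3
    linarith
  have h2 : Tendsto (fun n : ℕ => f x + 1 / ((n : ℝ) + 1)) atTop (𝓝 (f x + 0)) :=
    tendsto_const_nhds.add tendsto_one_div_add_atTop_nhds_zero_nat
  have := ge_of_tendsto' h2 h1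
  simpa using this

/-! ## averages of unitary conjugates -/

section avg

variable {N : Type} [CStarAlgebra N] [PartialOrder N] [StarOrderedRing N] {τ : N →ₗ[ℂ] ℂ}

/-- An element which commutes with all unitaries is central. -/
lemma central_of_unitary {z : N} (h : ∀ v, Un v → v * z = z * v) (x : N) : z * x = x * z := by
  have hx : x ∈ Submodule.span ℂ (unitary N : Set N) := by
    rw [CStarAlgebra.span_unitary]; exact Submodule.mem_top
  induction hx using Submodule.span_induction with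
  | mem a ha => exact (h a ⟨(Unitary.mem_iff.1 ha).1, (Unitary.mem_iff.1 ha).2⟩).symm
  | zero => rw [mul_zero, zero_mul]
  | add a b _ _ iha ihb => rw [mul_add, add_mul, iha, ihb]
  | smul c a _ iha => rw [mul_smul_comm, smul_mul_assoc, iha]

/-- Dixmier averaging in the 2-norm in a `II_1` factor. -/
theorem avg_unitary (hN : II1 τ) {κ : Type} [Fintype κ] (y : κ → N) (ε : ℝ) (hε : 0 < ε) :
    ∃ (J : Type) (_ : Fintype J) (c : J → ℝ) (v : J → N), (∀ i, 0 ≤ c i) ∧ ∑ i, c i = 1 ∧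
      (∀ i, Un (v i)) ∧
      ∀ k, hs τ (∑ i, c i • (v i * y k * star (v i)) - τ (y k) • (1 : N)) ≤ ε := by
  classical
  have hτ := hN.trc
  set S : Set (κ → N) := {z | ∃ v, Un v ∧ z = fun k => v * y k * star v} with hS
  set C : Set (κ → N) := convexHull ℝ S with hC
  have hSC : S ⊆ C := subset_convexHull ℝ S
  have hCconv : Convex ℝ C := convex_convexHull ℝ S
  have hUn1 : Un (1 : N) := ⟨by rw [star_one, one_mul], by rw [star_one, one_mul]⟩
  have hUnmul : ∀ v w : N, Un v → Un w → Un (v * w) := by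
    intro v w hv hw
    constructor
    · rw [star_mul]
      calc star w * star v * (v * w) = star w * (star v * v) * w := by noncomm_ring
        _ = 1 := by rw [hv.1, mul_one, hw.1]
    · rw [star_mul]
      calc v * w * (star w * star v) = v * (w * star w) * star v := by noncomm_ring
        _ = 1 := by rw [hw.2, mul_one, hv.2]
  have hyC : y ∈ C := by
    refine hSC ⟨1, hUn1, ?_⟩
    funext k
    rw [star_one, mul_one, one_mul]
  -- conjugation invariance
  have hconj : ∀ v, Un v → ∀ z ∈ C, (fun k => v * z k * star v) ∈ C := by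
    intro v hv z hz
    let L : (κ → N) →ₗ[ℝ] (κ → N) :=
      { toFun := fun z k => v * z k * star v
        map_add' := fun a b => by
          funext k
          simp only [Pi.add_apply, mul_add, add_mul]
        map_smul' := fun r a => by
          funext k
          simp only [Pi.smul_apply, mul_smul_comm, smul_mul_assoc, RingHom.id_apply] }
    have h1 : L z ∈ L '' C := ⟨z, hz, rfl⟩
    rw [hC, LinearMap.image_convexHull] at h1
    refine convexHull_mono ?_ h1
    rintro _ ⟨_, ⟨w, hw, rfl⟩, rfl⟩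
    refine ⟨v * w, hUnmul v w hv hw, ?_⟩
    funext k
    change v * (w * y k * star w) * star v = v * w * y k * star (v * w)
    rw [star_mul]; noncomm_ring
  -- norm bound
  have hnorm : ∀ z ∈ C, ∀ k, ‖z k‖ ≤ ‖y k‖ := by
    intro z hz k
    have h1 : C ⊆ {z | ‖z k‖ ≤ ‖y k‖} := by
      refine convexHull_min ?_ ?_
      · rintro _ ⟨v, hv, rfl⟩
        change ‖v * y k * star v‖ ≤ ‖y k‖
        have h2 := norm_unit_le hv
        have h3 := norm_mul_le (v * y k) (star v)
        have h4 := norm_mul_le v (y k)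
        rw [norm_star] at h3
        nlinarith [norm_nonneg v, norm_nonneg (y k), norm_nonneg (v * y k)]
      · intro a ha b hb s t hs ht hst
        change ‖(s • a + t • b) k‖ ≤ ‖y k‖
        have ha' : ‖a k‖ ≤ ‖y k‖ := ha
        have hb' : ‖b k‖ ≤ ‖y k‖ := hb
        rw [Pi.add_apply, Pi.smul_apply, Pi.smul_apply]
        refine (norm_add_le _ _).trans ?_
        rw [norm_smul, norm_smul, Real.norm_of_nonneg hs, Real.norm_of_nonneg ht]
        calc s * ‖a k‖ + t * ‖b k‖ ≤ s * ‖y k‖ + t * ‖y k‖ := by gcongr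
          _ = ‖y k‖ := by rw [← add_mul, hst, one_mul]
    exact h1 hz
  -- trace
  have htr : ∀ z ∈ C, ∀ k, τ (z k) = τ (y k) := by
    intro z hz k
    have h1 : C ⊆ {z | τ (z k) = τ (y k)} := by
      refine convexHull_min ?_ ?_
      · rintro _ ⟨v, hv, rfl⟩
        change τ (v * y k * star v) = τ (y k)
        rw [hτ.tr, ← mul_assoc, hv.1, one_mul]
      · intro a ha b hb s t hs ht hst
        have ha' : τ (a k) = τ (y k) := ha
        have hb' : τ (b k) = τ (y k) := hb
        change τ ((s • a + t • b) k) = τ (y k)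
        rw [Pi.add_apply, Pi.smul_apply, Pi.smul_apply, map_add, map_smul_real, map_smul_real,
          ha', hb', ← add_mul]
        have : (s : ℂ) + (t : ℂ) = 1 := by exact_mod_cast hst
        rw [this, one_mul]
    exact h1 hz
  -- the minimal norm
  let Q : (κ → N) → ℝ := fun z => ∑ k, hs τ (z k)
  have hQ0 : ∀ z, 0 ≤ Q z := fun z => Finset.sum_nonneg fun k _ => hs_nonneg hτ _
  set d := sInf (Q '' C) with hd
  have hbdd : BddBelow (Q '' C) := ⟨0, by rintro _ ⟨z, _, rfl⟩; exact hQ0 z⟩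
  have hne : (Q '' C).Nonempty := ⟨Q y, y, hyC, rfl⟩
  have hex : ∀ n : ℕ, ∃ z ∈ C, Q z < d + 1 / ((n : ℝ) + 1) := by
    intro n
    have hpos : (0 : ℝ) < 1 / ((n : ℝ) + 1) := by positivity
    obtain ⟨_, ⟨z, hz, rfl⟩, hlt⟩ := exists_lt_of_csInf_lt hne
      (show sInf (Q '' C) < d + 1 / ((n : ℝ) + 1) by rw [← hd]; linarith)
    exact ⟨z, hz, hlt⟩
  choose z hzC hzQ using hex
  -- parallelogram
  have hpar : ∀ a ∈ C, ∀ b ∈ C, ∀ k, hs τ (a k - b k) ≤ 2 * Q a + 2 * Q b - 4 * d := by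
    intro a ha b hb k
    have h1 : ((1 / 2 : ℝ) • a + (1 / 2 : ℝ) • b) ∈ C :=
      hCconv ha hb (by norm_num) (by norm_num) (by norm_num)
    have h2 : d ≤ Q ((1 / 2 : ℝ) • a + (1 / 2 : ℝ) • b) := csInf_le hbdd ⟨_, h1, rfl⟩
    have h3 : ∀ x w : N, hs τ (x - w) = 2 * hs τ x + 2 * hs τ w
        - 4 * hs τ ((1 / 2 : ℝ) • x + (1 / 2 : ℝ) • w) := by
      intro x w
      have h4 := hs_add hτ x w
      have h5 := hs_add hτ x (-w)
      rw [hs_neg, ← sub_eq_add_neg, mul_neg, rt_neg] at h5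
      rw [← smul_add, hs_smul]
      linarith
    have h4 : ∑ k, hs τ (a k - b k) = 2 * Q a + 2 * Q b
        - 4 * Q ((1 / 2 : ℝ) • a + (1 / 2 : ℝ) • b) := by
      change _ = 2 * (∑ k, hs τ (a k)) + 2 * (∑ k, hs τ (b k))
        - 4 * (∑ k, hs τ (((1 / 2 : ℝ) • a + (1 / 2 : ℝ) • b) k))
      rw [Finset.mul_sum, Finset.mul_sum, Finset.mul_sum, ← Finset.sum_add_distrib,
        ← Finset.sum_sub_distrib]
      refine Finset.sum_congr rfl fun k _ => ?_
      rw [h3]
      rfl
    have h5 : hs τ (a k - b k) ≤ ∑ k, hs τ (a k - b k) :=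
      Finset.single_le_sum (f := fun k => hs τ (a k - b k)) (fun k _ => hs_nonneg hτ _)
        (Finset.mem_univ k)
    linarith
  -- limits
  have hlim : ∀ k, ∃ w, T2 τ (fun n => z n k) w := by
    intro k
    have hpos : (0 : ℝ) < ‖y k‖ + 1 := by positivity
    obtain ⟨w, -, hw⟩ := Cpl.exists_lim hτ hN.cpl hpos (x := fun n => z n k)
      (fun n => (hnorm _ (hzC n) k).trans (by linarith)) (fun δ hδ => by
        obtain ⟨n₀, hn₀⟩ := exists_nat_gt (4 / δ)
        refine ⟨n₀, fun m hm n hn => ?_⟩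
        have h1 := hpar _ (hzC m) _ (hzC n) k
        have h2 := hzQ m
        have h3 := hzQ n
        have hb : ∀ l : ℕ, n₀ ≤ l → 1 / ((l : ℝ) + 1) ≤ δ / 4 := by
          intro l hl
          have h4 : (n₀ : ℝ) ≤ l := by exact_mod_cast hl
          have h5 : 4 / δ < (l : ℝ) + 1 := by linarith
          rw [div_le_iff₀ (by positivity)]
          rw [div_lt_iff₀ hδ] at h5
          linarith
        have h4 := hb m hm
        have h5 := hb n hn
        change hs τ (z m k - z n k) ≤ δ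
        linarith)
    exact ⟨w, hw⟩
  choose w hw using hlim
  have hwv : ∀ k v, Un v → v * w k = w k * v := by
    intro k v hv
    have h1 : T2 τ (fun n => v * z n k * star v - z n k) (v * w k * star v - w k) :=
      T2.sub hτ (T2.mul_right hτ _ (T2.mul_left hτ _ (hw k))) (hw k)
    have h2 : T2 τ (fun n => v * z n k * star v - z n k) 0 := by
      refine T2.of_le hτ (f := fun n => 4 * (1 / ((n : ℝ) + 1))) ?_ ?_
      · have := (tendsto_one_div_add_atTop_nhds_zero_nat (𝕜 := ℝ)).const_mul 4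
        simpa using this
      · intro n
        rw [sub_zero]
        have h3 := hpar _ (hconj v hv _ (hzC n)) _ (hzC n) k
        have h4 : Q (fun k => v * z n k * star v) = Q (z n) := by
          refine Finset.sum_congr rfl fun k _ => ?_
          rw [hs_mul_unit hτ hv.star, hs_unit_mul hv]
        have h5 := hzQ n
        rw [h4] at h3
        change hs τ (v * z n k * star v - z n k) ≤ _
        linarith
    have h3 := T2.unique hτ h1 h2
    have h4 : v * w k * star v = w k := sub_eq_zero.1 h3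
    calc v * w k = v * w k * (star v * v) := by rw [hv.1, mul_one]
      _ = v * w k * star v * v := by noncomm_ring
      _ = w k * v := by rw [h4]
  have hwc : ∀ k, w k = τ (y k) • (1 : N) := by
    intro k
    obtain ⟨c, hc⟩ := hN.factor (w k) fun x => central_of_unitary (hwv k) x
    have h1 : τ (w k) = τ (y k) := by
      refine tendsto_nhds_unique ((hw k).tau hτ) ?_
      have : (fun n => τ (z n k)) = fun _ => τ (y k) := by
        funext n; exact htr _ (hzC n) k
      rw [this]; exact tendsto_const_nhds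
    rw [hc, map_smul, hτ.one, smul_eq_mul, mul_one] at h1
    rw [hc, h1]
  have hev : ∀ᶠ n in atTop, ∀ k, hs τ (z n k - τ (y k) • (1 : N)) ≤ ε := by
    rw [eventually_all]
    intro k
    have h1 := hw k
    rw [hwc k] at h1
    exact (h1.eventually_lt_const hε).mono fun n hn => hn.le
  obtain ⟨n, hn⟩ := hev.exists
  obtain ⟨J, hJ, c, zz, hc0, hc1, hzS, hsum⟩ := mem_convexHull_iff_exists_fintype.1 (hzC n)
  choose v hv hzv using hzS
  refine ⟨J, hJ, c, v, hc0, hc1, hv, fun k => ?_⟩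
  have h1 : ∑ i, c i • (v i * y k * star (v i)) = z n k := by
    rw [← hsum, Finset.sum_apply]
    refine Finset.sum_congr rfl fun i _ => ?_
    rw [hzv i]
    rfl
  rw [h1]
  exact hn k

end avg

end Helper61.HT
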