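import Pool.Agent.Helper61.HT.StE
import Pool.Agent.Helper61.HT.Lim

/-!
# Project HT, module Cmp (helper29): comparison of projections in a II_1 factor
-/

set_option autoImplicit false
set_option linter.unusedSectionVars false

namespace Helper61.HT

open scoped ComplexOrder
open Filter Topology

section

variable {N : Type} [CStarAlgebra N] [PartialOrder N] [StarOrderedRing N] {τ : N →ₗ[ℂ] ℂ}

/-- Two non-zero projections in a factor are not centrally orthogonal. -/
lemma exists_unitary_ne_zero (hN : II1 τ) {p q : N} (hp : Pr p) (hq : Pr q) (hp0 : p ≠ 0)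
    (hq0 : q ≠ 0) : ∃ v, Un v ∧ q * v * p ≠ 0 := by
  by_contra hcon
  push Not at hcon
  have hτ := hN.trc
  have hpp := hp.rt_pos hτ hp0
  have hqp := hq.rt_pos hτ hq0
  -- `q v p = 0` for all unitaries
  have hτq : τ q = (rt τ q : ℂ) := by
    have h1 := hτ.nonneg q
    rw [hq.1, hq.2] at h1
    exact Complex.ext rfl (RCLike.nonneg_iff.1 h1).2
  set ε : ℝ := (rt τ q) ^ 2 * rt τ p / 2 with hε
  obtain ⟨J, hJ, c, v, hc0, hc1, hv, h⟩ := avg_unitary hN (fun _ : Unit => q) ε (by positivity)
  have h1 := h ()
  set z := ∑ i, c i • (v i * q * star (v i)) with hz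
  have hpz : p * z = 0 := by
    rw [hz, Finset.mul_sum]
    refine Finset.sum_eq_zero fun i _ => ?_
    rw [mul_smul_comm]
    have h2 := hcon (star (v i)) (hv i).star
    have h3 := congrArg star h2
    rw [star_mul, star_mul, star_star, hp.1, hq.1, star_zero] at h3
    rw [← mul_assoc, ← mul_assoc] at *
    rw [h3]
    simp
  have h2 : hs τ (p * (z - τ q • (1 : N))) ≤ ε := (hs_mul_left_le hτ hp.norm_le).trans h1
  rw [mul_sub, hpz, zero_sub, hs_neg, mul_smul_comm, mul_one, hs_smulC, hp.hs, hτq,
    Complex.norm_real, Real.norm_eq_abs, sq_abs] at h2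
  have h3 : 0 < (rt τ q) ^ 2 * rt τ p := by positivity
  linarith

end

theorem pCmp (hPol : StPol) : StCmp := by
  intro N _ _ _ τ hN p q hp hq hpq
  have hτ := hN.trc
  -- states
  let X := {w : N // w * p = w ∧ q * w = w ∧ w * star w * w = w}
  let r : X → X → Prop := fun a b => (b.1 - a.1) * star a.1 = 0 ∧ star a.1 * (b.1 - a.1) = 0
  let f : X → ℝ := fun a => hs τ a.1
  have hproj : ∀ a : X, Pr (star a.1 * a.1) := by
    intro a
    refine ⟨by rw [star_mul, star_star], ?_⟩
    calc star a.1 * a.1 * (star a.1 * a.1) = star a.1 * (a.1 * star a.1 * a.1) := by noncomm_ring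
      _ = star a.1 * a.1 := by rw [a.2.2.2]
  have hproj' : ∀ a : X, Pr (a.1 * star a.1) := by
    intro a
    refine ⟨by rw [star_mul, star_star], ?_⟩
    calc a.1 * star a.1 * (a.1 * star a.1) = (a.1 * star a.1 * a.1) * star a.1 := by noncomm_ring
      _ = a.1 * star a.1 := by rw [a.2.2.2]
  have hnorm : ∀ a : X, ‖a.1‖ ≤ 1 := by
    intro a
    have h1 := (hproj a).norm_le
    rw [CStarRing.norm_star_mul_self] at h1
    nlinarith [norm_nonneg a.1]
  have hadd : ∀ a b : X, r a b → hs τ b.1 = hs τ a.1 + hs τ (b.1 - a.1) := by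
    intro a b hab
    have h1 := hs_add hτ a.1 (b.1 - a.1)
    rw [hab.2, rt_zero, mul_zero, add_zero] at h1
    have h2 : a.1 + (b.1 - a.1) = b.1 := by abel
    rwa [h2] at h1
  have hrefl : ∀ a : X, r a a := fun a => ⟨by rw [sub_self, zero_mul], by rw [sub_self, mul_zero]⟩
  have htrans : ∀ a b c : X, r a b → r b c → r a c := by
    intro a b c hab hbc
    have h1 : b.1 * star a.1 = a.1 * star a.1 := by
      have := hab.1; rwa [sub_mul, sub_eq_zero] at this
    have h2 : star a.1 * b.1 = star a.1 * a.1 := by
      have := hab.2; rwa [mul_sub, sub_eq_zero] at this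
    have h3 : a.1 * star b.1 = a.1 * star a.1 := by
      have := congrArg star h1
      rwa [star_mul, star_mul, star_star] at this
    have h4 : star b.1 * a.1 = star a.1 * a.1 := by
      have := congrArg star h2
      rwa [star_mul, star_mul, star_star] at this
    have h5 : star a.1 * a.1 * star a.1 = star a.1 := by
      have := congrArg star a.2.2.2
      rw [star_mul, star_mul, star_star] at this
      rw [mul_assoc]; exact this
    constructor
    · have h6 : (c.1 - b.1) * star a.1 = 0 := by
        calc (c.1 - b.1) * star a.1 = (c.1 - b.1) * (star a.1 * a.1 * star a.1) := by rw [h5]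
          _ = (c.1 - b.1) * (star b.1 * a.1 * star a.1) := by rw [h4]
          _ = (c.1 - b.1) * star b.1 * (a.1 * star a.1) := by noncomm_ring
          _ = 0 := by rw [hbc.1, zero_mul]
      calc (c.1 - a.1) * star a.1 = (c.1 - b.1) * star a.1 + (b.1 - a.1) * star a.1 := by
            noncomm_ring
        _ = 0 := by rw [h6, hab.1, add_zero]
    · have h6 : star a.1 * (c.1 - b.1) = 0 := by
        calc star a.1 * (c.1 - b.1) = star a.1 * (a.1 * star a.1) * (c.1 - b.1) := by
              rw [← mul_assoc, h5]
          _ = star a.1 * (a.1 * star b.1) * (c.1 - b.1) := by rw [h3]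
          _ = star a.1 * a.1 * (star b.1 * (c.1 - b.1)) := by noncomm_ring
          _ = 0 := by rw [hbc.2, mul_zero]
      calc star a.1 * (c.1 - a.1) = star a.1 * (c.1 - b.1) + star a.1 * (b.1 - a.1) := by
            noncomm_ring
        _ = 0 := by rw [h6, hab.2, add_zero]
  have hM : ∀ a : X, f a ≤ 1 := by
    intro a
    have h1 := rt_mono hτ (hproj a).le_one
    rw [rt_one hτ] at h1
    exact h1
  have hmono : ∀ a b : X, r a b → f a ≤ f b := by
    intro a b hab
    have h1 := hadd a b hab
    have h2 := hs_nonneg hτ (b.1 - a.1)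
    change hs τ a.1 ≤ hs τ b.1
    linarith
  have hchain : ∀ s : ℕ → X, (∀ n, r (s n) (s (n + 1))) → ∃ x, ∀ n, r (s n) x := by
    intro s hs
    have hs' : ∀ n m, n ≤ m → r (s n) (s m) := by
      intro n m hnm
      induction m, hnm using Nat.le_induction with
      | base => exact hrefl _
      | succ m _ ih => exact htrans _ _ _ ih (hs m)
    obtain ⟨w, -, hw⟩ := Cpl.exists_lim hτ hN.cpl (x := fun n => (s n).1) zero_lt_one
      (fun n => hnorm _)
      (cauchy_of_monotone (f := fun n => f (s n)) (M := 1) (fun n => hM _)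
        (fun n m hnm => hmono _ _ (hs' n m hnm)) (fun n m hnm => by
          have := hadd _ _ (hs' n m hnm)
          change Helper61.HT.hs τ ((s m).1 - (s n).1) ≤ Helper61.HT.hs τ (s m).1 - Helper61.HT.hs τ (s n).1
          linarith))
    have h1 : w * p = w := by
      refine T2.unique hτ (T2.mul_right hτ p hw) ?_
      have : (fun n => (s n).1 * p) = fun n => (s n).1 := by funext n; exact (s n).2.1
      change T2 τ (fun n => (s n).1 * p) w
      rw [this]; exact hw
    have h2 : q * w = w := by
      refine T2.unique hτ (T2.mul_left hτ q hw) ?_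
      have : (fun n => q * (s n).1) = fun n => (s n).1 := by funext n; exact (s n).2.2.1
      change T2 τ (fun n => q * (s n).1) w
      rw [this]; exact hw
    have h3 : w * star w * w = w := by
      have h4 : T2 τ (fun n => (s n).1 * star (s n).1) (w * star w) :=
        T2.mul hτ (C := 1) (fun n => hnorm _) hw (T2.star hτ hw)
      have h5 : T2 τ (fun n => (s n).1 * star (s n).1 * (s n).1) (w * star w * w) :=
        T2.mul hτ (C := 1) (fun n => (hproj' _).norm_le) h4 hw
      refine T2.unique hτ h5 ?_
      have : (fun n => (s n).1 * star (s n).1 * (s n).1) = fun n => (s n).1 := by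
        funext n; exact (s n).2.2.2
      rw [this]; exact hw
    refine ⟨⟨w, h1, h2, h3⟩, fun n => ⟨?_, ?_⟩⟩
    · have h4 : T2 τ (fun m => ((s m).1 - (s n).1) * star (s n).1) ((w - (s n).1) * star (s n).1) :=
        T2.mul_right hτ _ (T2.sub hτ hw (T2.const hτ _))
      exact T2.eq_of_eventually hτ h4 n fun m hm => (hs' n m hm).1
    · have h4 : T2 τ (fun m => star (s n).1 * ((s m).1 - (s n).1)) (star (s n).1 * (w - (s n).1)) :=
        T2.mul_left hτ _ (T2.sub hτ hw (T2.const hτ _))
      exact T2.eq_of_eventually hτ h4 n fun m hm => (hs' n m hm).2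
  obtain ⟨w, -, hmax⟩ := greedy_max r f hrefl htrans 1 hM hmono hchain
    ⟨0, by rw [zero_mul], by rw [mul_zero], by simp⟩
  -- the remainders
  have hwp : star w.1 * w.1 * p = star w.1 * w.1 := by rw [mul_assoc, w.2.1]
  have hpw : p * (star w.1 * w.1) = star w.1 * w.1 := by
    have := congrArg star hwp
    rwa [star_mul, star_mul, star_star, hp.1] at this
  have hqw : q * (w.1 * star w.1) = w.1 * star w.1 := by rw [← mul_assoc, w.2.2.1]
  have hp' : Pr (p - star w.1 * w.1) := hp.sub (hproj w) hpw
  have hq' : Pr (q - w.1 * star w.1) := hq.sub (hproj' w) hqw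
  have hzero : p - star w.1 * w.1 = 0 ∨ q - w.1 * star w.1 = 0 := by
    by_contra hcon
    push Not at hcon
    obtain ⟨v, hv, hne⟩ := exists_unitary_ne_zero hN hp' hq' hcon.1 hcon.2
    set x := (q - w.1 * star w.1) * v * (p - star w.1 * w.1) with hx
    obtain ⟨V, s, hs0, hss, hxV, hVV, hVV', hVs, hsupp, hsupp'⟩ := hPol N τ hτ hN.cpl x
    -- `V` lives under the remainders
    have hxr : x * (1 - (p - star w.1 * w.1)) = 0 := by
      rw [hx, mul_sub, mul_one, mul_assoc _ (p - star w.1 * w.1), hp'.2, sub_self]
    have hxl : star x * (1 - (q - w.1 * star w.1)) = 0 := by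
      have h1 : (1 - (q - w.1 * star w.1)) * x = 0 := by
        rw [hx, sub_mul, one_mul, ← mul_assoc, ← mul_assoc, hq'.2, sub_self]
      have := congrArg star h1
      rwa [star_mul, hq'.one_sub.1, star_zero] at this
    have h1 : star V * V * (1 - (p - star w.1 * w.1)) = 0 :=
      hsupp.2.2 _ (by rw [mul_assoc, hxr, mul_zero])
    have h2 : V * star V * (1 - (q - w.1 * star w.1)) = 0 :=
      hsupp'.2.2 _ (by rw [mul_assoc, hxl, mul_zero])
    have hVPr : V * star V * V = V := by
      -- `V` is a partial isometry
      have h3 : hs τ (V * star V * V - V) = 0 := by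
        have h4 : star (V * star V * V - V) * (V * star V * V - V) =
            (star V * V) * (star V * V) * (star V * V) - (star V * V) * (star V * V)
              - (star V * V) * (star V * V) + star V * V := by
          rw [star_sub, star_mul, star_mul, star_star]
          noncomm_ring
        rw [hs_eq_rt, h4, hVV.2, hVV.2]
        have h5 : star V * V - star V * V - star V * V + star V * V = 0 := by abel
        rw [h5, rt_zero]
      have := hs_eq_zero hτ h3
      rwa [sub_eq_zero] at this
    have hVr : V * (p - star w.1 * w.1) = V := by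
      have h3 : V * (1 - (p - star w.1 * w.1)) = 0 := by
        rw [← hVPr, mul_assoc, mul_assoc, ← mul_assoc (star V), h1, mul_zero]
      rw [mul_sub, mul_one, sub_eq_zero] at h3
      exact h3.symm
    have hVl : (q - w.1 * star w.1) * V = V := by
      have h3 : (1 - (q - w.1 * star w.1)) * (V * star V) = 0 := by
        have := congrArg star h2
        rwa [star_mul, hq'.one_sub.1, star_mul, star_star, star_zero] at this
      have h4 : (1 - (q - w.1 * star w.1)) * V = 0 := by
        rw [← hVPr, ← mul_assoc, h3, zero_mul]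
      rw [sub_mul, one_mul, sub_eq_zero] at h4
      exact h4.symm
    have hw3 : star w.1 * w.1 * star w.1 = star w.1 := by
      have := congrArg star w.2.2.2
      rw [star_mul, star_mul, star_star] at this
      rw [mul_assoc]; exact this
    have hpws : p * star w.1 = star w.1 := by
      have := congrArg star w.2.1
      rwa [star_mul, hp.1] at this
    have hwsq : star w.1 * q = star w.1 := by
      have := congrArg star w.2.2.1
      rwa [star_mul, hq.1] at this
    have hVw : V * star w.1 = 0 := by
      rw [← hVr, mul_assoc, sub_mul, hpws, hw3, sub_self, mul_zero]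
    have hwV : star w.1 * V = 0 := by
      rw [← hVl, ← mul_assoc, mul_sub, hwsq, ← mul_assoc, hw3, sub_self, zero_mul]
    have hwVs : w.1 * star V = 0 := by
      have := congrArg star hVw
      rwa [star_mul, star_star, star_zero] at this
    have hVsw : star V * w.1 = 0 := by
      have := congrArg star hwV
      rwa [star_mul, star_star, star_zero] at this
    have hVp : V * p = V := by
      have h3 : (p - star w.1 * w.1) * p = p - star w.1 * w.1 := by rw [sub_mul, hp.2, hwp]
      rw [← hVr, mul_assoc, h3]
    have hqV : q * V = V := by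
      have h3 : q * (q - w.1 * star w.1) = q - w.1 * star w.1 := by rw [mul_sub, hq.2, hqw]
      rw [← hVl, ← mul_assoc, h3]
    let y : X := ⟨w.1 + V, by rw [add_mul, w.2.1, hVp], by rw [mul_add, w.2.2.1, hqV], by
      have h3 : (w.1 + V) * star (w.1 + V) * (w.1 + V) = w.1 * star w.1 * w.1 +
          V * star V * V + w.1 * (star w.1 * V) + (w.1 * star V) * (w.1 + V) +
            (V * star w.1) * (w.1 + V) + V * (star V * w.1) := by
        rw [star_add]; noncomm_ring
      rw [h3, w.2.2.2, hVPr, hwV, hwVs, hVw, hVsw]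
      simp⟩
    have hry : r w y := by
      have h3 : y.1 - w.1 = V := by change w.1 + V - w.1 = V; abel
      exact ⟨by rw [h3, hVw], by rw [h3, hwV]⟩
    have h3 := hmax y hry
    have h4 := hadd w y hry
    have h5 : y.1 - w.1 = V := by change w.1 + V - w.1 = V; abel
    rw [h5] at h4
    have h6 : hs τ V = 0 := by
      have h7 := hs_nonneg hτ V
      have h8 : hs τ y.1 ≤ hs τ w.1 := h3
      linarith
    have h7 := hs_eq_zero hτ h6
    apply hne
    rw [hxV, h7, zero_mul]
  have hfin : star w.1 * w.1 = p := by
    rcases hzero with h | h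
    · exact (sub_eq_zero.1 h).symm
    · have h1 : rt τ (w.1 * star w.1) = rt τ q := by rw [← sub_eq_zero.1 h]
      have h2 : rt τ (star w.1 * w.1) = rt τ q := by rw [rt_mul_comm hτ, h1]
      have h3 := hp'.rt_nonneg hτ
      rw [rt_sub, h2] at h3
      have h4 : hs τ (p - star w.1 * w.1) = 0 := by
        rw [hp'.hs, rt_sub, h2]
        linarith
      exact (sub_eq_zero.1 (hs_eq_zero hτ h4)).symm
  exact ⟨w.1, hfin, hproj' w, Pr.le_of_mul hq (hproj' w) hqw⟩

end Helper61.HT
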