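import Pool.Agent.Helper61.HT.StB
import Pool.Agent.Helper61.HT.LibN

/-!
# HT module Comp: composition of completely positive maps
-/

namespace Helper61.HT

open scoped ComplexOrder

private lemma psd_of {A : Type} [CStarAlgebra A] [PartialOrder A] [StarOrderedRing A] (P : A)
    (hP : star P = P) (T : A → ℝ) (hT : ∀ x y, T (x - y) = T x - T y)
    (h1 : ∀ x, T (star x * x) ≤ 0 → x = 0)
    (h : ∀ x, 0 ≤ T (star x * x * P)) : 0 ≤ P := by
  have hsa : IsSelfAdjoint P := hP
  have hT0 : T 0 = 0 := by have := hT 0 0; simpa using this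
  have hn : 0 ≤ P⁻ := CFC.negPart_nonneg P
  obtain ⟨Y, hY, hYY⟩ := exists_sqrt hn
  have hd : P⁺ - P⁻ = P := CFC.posPart_sub_negPart P hsa
  have h2 := h Y
  rw [herm_of_nonneg hY, hYY] at h2
  have h3 : P⁻ * P = 0 - star P⁻ * P⁻ := by
    rw [herm_of_nonneg hn]
    calc P⁻ * P = P⁻ * (P⁺ - P⁻) := by rw [hd]
      _ = 0 - P⁻ * P⁻ := by rw [mul_sub, CFC.negPart_mul_posPart]
  rw [h3, hT, hT0] at h2
  have h4 : P⁻ = 0 := h1 _ (by linarith)
  rw [h4, sub_zero] at hd
  rw [← hd]
  exact CFC.posPart_nonneg P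

private lemma matrix_psd {N : Type} [CStarAlgebra N] [PartialOrder N] [StarOrderedRing N]
    {τ : N →ₗ[ℂ] ℂ} (hτ : Trc τ) {m : ℕ} (P : Fin m → Fin m → N)
    (hP : ∀ i j, star (P i j) = P j i)
    (h : ∀ x : Fin m → N, 0 ≤ (∑ i, ∑ j, τ (star (x i) * x j * P j i)).re) :
    ∃ Z : Fin m → Fin m → N, ∀ j i, P j i = ∑ k, Z j k * star (Z i k) := by
  let A := CStarMatrix (Fin m) (Fin m) N
  let Q : A := CStarMatrix.ofMatrix P
  have hQ : star Q = Q := by
    ext i j
    exact hP j i
  let T : A → ℝ := fun M => ∑ i, (τ (M i i)).re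
  have hpos : 0 ≤ Q := by
    refine psd_of Q hQ T ?_ ?_ ?_
    · intro x y
      have e : ∀ i, (τ ((x - y) i i)).re = (τ (x i i)).re - (τ (y i i)).re := by
        intro i
        have e1 : (x - y) i i = x i i - y i i := rfl
        rw [e1, map_sub, Complex.sub_re]
      simp only [T]
      rw [Finset.sum_congr rfl (fun i _ => e i), Finset.sum_sub_distrib]
    · intro x hx
      have h1 : T (star x * x) = ∑ i, ∑ k, (τ (star (x k i) * x k i)).re := by
        refine Finset.sum_congr rfl fun i _ => ?_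
        rw [CStarMatrix.mul_apply, map_sum, Complex.re_sum]
        rfl
      rw [h1] at hx
      have hnn : ∀ k i, 0 ≤ (τ (star (x k i) * x k i)).re := fun k i =>
        hs_nonneg hτ (x k i)
      have h2 : ∑ i, ∑ k, (τ (star (x k i) * x k i)).re = 0 :=
        le_antisymm hx (Finset.sum_nonneg fun i _ => Finset.sum_nonneg fun k _ => hnn k i)
      have h3 := (Finset.sum_eq_zero_iff_of_nonneg
        (fun i _ => Finset.sum_nonneg fun k _ => hnn k i)).1 h2
      ext k i
      have h4 := (Finset.sum_eq_zero_iff_of_nonneg (fun k _ => hnn k i)).1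
        (h3 i (Finset.mem_univ i)) k (Finset.mem_univ k)
      exact hs_eq_zero hτ h4
    · intro x
      have h1 : T (star x * x * Q) =
          ∑ k, (∑ i, ∑ j, τ (star (x k i) * x k j * P j i)).re := by
        have e1 : ∀ i, (star x * x * Q) i i = ∑ j, ∑ k, star (x k i) * x k j * P j i := by
          intro i
          rw [CStarMatrix.mul_apply]
          refine Finset.sum_congr rfl fun j _ => ?_
          rw [CStarMatrix.mul_apply, Finset.sum_mul]
          rfl
        have e2 : T (star x * x * Q) =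
            ∑ i, ∑ j, ∑ k, (τ (star (x k i) * x k j * P j i)).re := by
          refine Finset.sum_congr rfl fun i _ => ?_
          rw [e1 i, map_sum, Complex.re_sum]
          refine Finset.sum_congr rfl fun j _ => ?_
          rw [map_sum, Complex.re_sum]
        rw [e2]
        have e3 : ∀ i, ∑ j, ∑ k, (τ (star (x k i) * x k j * P j i)).re
            = ∑ k, ∑ j, (τ (star (x k i) * x k j * P j i)).re := fun i => Finset.sum_comm
        simp_rw [e3]
        rw [Finset.sum_comm]
        refine Finset.sum_congr rfl fun k _ => ?_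
        rw [Complex.re_sum]
        refine Finset.sum_congr rfl fun i _ => ?_
        rw [Complex.re_sum]
      rw [h1]
      exact Finset.sum_nonneg fun k _ => h (x k)
  obtain ⟨Z, hZ, hZZ⟩ := exists_sqrt hpos
  refine ⟨fun j k => Z j k, fun j i => ?_⟩
  have hZs : star Z = Z := herm_of_nonneg hZ
  have e : Q = Z * star Z := by rw [hZs, hZZ]
  have e1 : Q j i = (Z * star Z) j i := by rw [← e]
  rw [CStarMatrix.mul_apply] at e1
  exact e1

/-- Composition of two `SCP` maps satisfies the positivity condition. -/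
private lemma cp_comp {N : Type} [CStarAlgebra N] [PartialOrder N] [StarOrderedRing N]
    {τ : N →ₗ[ℂ] ℂ} (hτ : Trc τ) {φ ψ : N →ₗ[ℂ] N}
    (hφ : ∀ (m : ℕ) (x y : Fin m → N),
      0 ≤ (∑ i, ∑ j, τ (star (x i) * x j * φ (y j * star (y i)))).re)
    (hψs : ∀ x, ψ (star x) = star (ψ x))
    (hψ : ∀ (m : ℕ) (x y : Fin m → N),
      0 ≤ (∑ i, ∑ j, τ (star (x i) * x j * ψ (y j * star (y i)))).re)
    (m : ℕ) (x y : Fin m → N) :
    0 ≤ (∑ i, ∑ j, τ (star (x i) * x j * φ (ψ (y j * star (y i))))).re := by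
  obtain ⟨Z, hZ⟩ := matrix_psd hτ (fun j i => ψ (y j * star (y i))) (fun i j => by
    rw [← hψs, star_mul, star_star]) (fun x => hψ m x y)
  have h1 : (∑ i, ∑ j, τ (star (x i) * x j * φ (ψ (y j * star (y i))))).re
      = ∑ k, (∑ i, ∑ j, τ (star (x i) * x j * φ (Z j k * star (Z i k)))).re := by
    have e2 : ∀ i j, τ (star (x i) * x j * φ (ψ (y j * star (y i))))
        = ∑ k, τ (star (x i) * x j * φ (Z j k * star (Z i k))) := by
      intro i j
      rw [hZ j i, map_sum, Finset.mul_sum, map_sum]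
    simp_rw [e2]
    have e3 : ∀ i, ∑ j, ∑ k, τ (star (x i) * x j * φ (Z j k * star (Z i k)))
        = ∑ k, ∑ j, τ (star (x i) * x j * φ (Z j k * star (Z i k))) := fun i => Finset.sum_comm
    simp_rw [e3]
    rw [Finset.sum_comm, Complex.re_sum]
  rw [h1]
  exact Finset.sum_nonneg fun k _ => hφ m x (fun j => Z j k)

theorem pComp : StComp := by
  intro N _ _ _ τ φ hτ h
  have hmono : ∀ x y, x ≤ y → φ x ≤ φ y := by
    intro x y hxy
    have := h.nonneg _ (sub_nonneg.2 hxy)
    rw [map_sub] at this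
    exact sub_nonneg.1 this
  refine ⟨?_, ?_, ?_, ?_, ?_, ?_⟩
  · intro x
    simp only [LinearMap.comp_apply, h.map_star]
  · intro x hx
    exact h.nonneg _ (h.nonneg _ (h.nonneg _ hx))
  · intro m x y
    have h2 := cp_comp hτ h.cp h.map_star h.cp
    have h3 := cp_comp (φ := φ) (ψ := φ ∘ₗ φ) hτ h.cp
      (fun x => by simp only [LinearMap.comp_apply, h.map_star]) h2
    exact h3 m x y
  · intro x y
    simp only [LinearMap.comp_apply]
    rw [h.symm, h.symm, h.symm]
  · intro x
    simp only [LinearMap.comp_apply]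
    have e : rt τ (star x * φ (φ (φ x))) = rt τ (star (φ x) * φ (φ x)) := by
      unfold rt
      rw [← h.symm, h.map_star]
    rw [e]
    exact h.pos (φ x)
  · simp only [LinearMap.comp_apply]
    exact (hmono _ _ ((hmono _ _ h.one).trans h.one)).trans h.one

end Helper61.HT
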