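import Pool.Agent.Helper61.HT.StE

/-!
# Project HT: module Conn (Connes' trick: a good level)
-/

namespace Helper61.HT

open MeasureTheory

/-- The kernel `2t |1[t<x] - 1[t<y]|`. -/
private noncomputable def cK (x y t : ℝ) : ℝ :=
  2 * t * |(if t < x then (1 : ℝ) else 0) - (if t < y then (1 : ℝ) else 0)|

private theorem cK_symm (x y t : ℝ) : cK x y t = cK y x t := by
  unfold cK
  rw [abs_sub_comm]

private theorem cK_ind {x y : ℝ} (hxy : x ≤ y) :
    (fun t => cK x y t) = (Set.Ico x y).indicator (fun t => 2 * t) := by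
  funext t
  unfold cK
  by_cases h1 : t < x
  · have h2 : t < y := h1.trans_le hxy
    have h3 : t ∉ Set.Ico x y := fun h => absurd h.1 (not_le.2 h1)
    rw [if_pos h1, if_pos h2, Set.indicator_of_notMem h3]
    simp
  · by_cases h2 : t < y
    · have h3 : t ∈ Set.Ico x y := ⟨not_lt.1 h1, h2⟩
      rw [if_neg h1, if_pos h2, Set.indicator_of_mem h3]
      norm_num
    · have h3 : t ∉ Set.Ico x y := fun h => h2 h.2
      rw [if_neg h1, if_neg h2, Set.indicator_of_notMem h3]
      simp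

private theorem cK_int1 {x y : ℝ} (hxy : x ≤ y) (hx : 0 ≤ x) (a b : ℝ) (_ha : 0 ≤ a) :
    IntegrableOn (fun t => cK x y t) (Set.Icc a b) ∧
      ∫ t in Set.Icc a b, cK x y t ≤ |x ^ 2 - y ^ 2| := by
  have hI : IntegrableOn (fun t : ℝ => 2 * t) (Set.Ico x y) := by
    have : IntegrableOn (fun t : ℝ => 2 * t) (Set.Icc x y) :=
      (continuous_const.mul continuous_id).continuousOn.integrableOn_Icc
    exact this.mono_set Set.Ico_subset_Icc_self
  have hI2 : Integrable (fun t => cK x y t) := by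
    rw [cK_ind hxy]
    exact (integrable_indicator_iff measurableSet_Ico).2 hI
  refine ⟨hI2.integrableOn, ?_⟩
  have hnn : ∀ t, 0 ≤ cK x y t := by
    intro t
    have h0 : cK x y t = (Set.Ico x y).indicator (fun t => 2 * t) t := congrFun (cK_ind hxy) t
    rw [h0]
    refine Set.indicator_nonneg (fun t ht => ?_) t
    have := hx.trans ht.1
    positivity
  have h1 : ∫ t in Set.Icc a b, cK x y t ≤ ∫ t, cK x y t :=
    setIntegral_le_integral hI2 (Filter.Eventually.of_forall hnn)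
  have h2 : ∫ t, cK x y t = y ^ 2 - x ^ 2 := by
    rw [cK_ind hxy, integral_indicator measurableSet_Ico, integral_Ico_eq_integral_Ioo,
      ← integral_Ioc_eq_integral_Ioo, ← intervalIntegral.integral_of_le hxy,
      intervalIntegral.integral_const_mul, integral_id]
    ring
  rw [h2] at h1
  refine h1.trans ?_
  rw [abs_sub_comm]
  exact le_abs_self _

private theorem cK_int {x y : ℝ} (hx : 0 ≤ x) (hy : 0 ≤ y) (a b : ℝ) (ha : 0 ≤ a) :
    IntegrableOn (fun t => cK x y t) (Set.Icc a b) ∧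
      ∫ t in Set.Icc a b, cK x y t ≤ |x ^ 2 - y ^ 2| := by
  rcases le_total x y with h | h
  · exact cK_int1 h hx a b ha
  · have := cK_int1 h hy a b ha
    rw [abs_sub_comm]
    have h2 : (fun t => cK x y t) = fun t => cK y x t := funext fun t => cK_symm x y t
    rw [h2]
    exact this

/-- Pure real part: one substochastic matrix. -/
private theorem conn_one {d : ℕ} (lam : Fin d → ℝ) (m : Fin d → Fin d → ℝ)
    (hl : ∀ i, 0 < lam i) (hm : ∀ i j, 0 ≤ m i j) (hr : ∀ i, ∑ j, m i j ≤ 1)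
    (hc : ∀ j, ∑ i, m i j ≤ 1) (a₀ : ℝ) (ha : 0 < a₀) :
    IntegrableOn (fun t : ℝ => 2 * t * (∑ i, (if t < lam i then (1 : ℝ) else 0) -
      ∑ i, ∑ j, (if t < lam i then (1 : ℝ) else 0) * (if t < lam j then (1 : ℝ) else 0) * m i j))
      (Set.Icc (a₀ / 2) a₀) ∧
    ∀ θ : ℝ, 0 < θ →
      ∫ t in Set.Icc (a₀ / 2) a₀, (2 * t * (∑ i, (if t < lam i then (1 : ℝ) else 0) -
        ∑ i, ∑ j, (if t < lam i then (1 : ℝ) else 0) * (if t < lam j then (1 : ℝ) else 0) *
          m i j)) ≤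
      θ * ∑ i, lam i ^ 2 +
        (2 * ∑ i, lam i ^ 2 - 2 * ∑ i, ∑ j, lam i * lam j * m i j) / (4 * θ) := by
  have ha2 : 0 ≤ a₀ / 2 := by positivity
  set r : Fin d → ℝ := fun i => 1 - ∑ j, m i j with hrdef
  set c : Fin d → ℝ := fun j => 1 - ∑ i, m i j with hcdef
  have hr0 : ∀ i, 0 ≤ r i := fun i => by
    have := hr i
    simp only [hrdef]
    linarith
  have hc0 : ∀ i, 0 ≤ c i := fun i => by
    have := hc i
    simp only [hcdef]
    linarith
  have hid : ∀ t ∈ Set.Icc (a₀ / 2) a₀,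
      2 * t * (∑ i, (if t < lam i then (1 : ℝ) else 0) -
      ∑ i, ∑ j, (if t < lam i then (1 : ℝ) else 0) * (if t < lam j then (1 : ℝ) else 0) * m i j) =
      (1 / 2) * (∑ i, r i * cK (lam i) 0 t + ∑ j, c j * cK (lam j) 0 t +
        ∑ i, ∑ j, m i j * cK (lam i) (lam j) t) := by
    intro t ht
    have ht0 : ¬ t < 0 := not_lt.2 (ha2.trans ht.1)
    set p : Fin d → ℝ := fun i => if t < lam i then (1 : ℝ) else 0 with hp
    have hp01 : ∀ i, p i = 0 ∨ p i = 1 := by
      intro i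
      simp only [hp]
      by_cases h : t < lam i
      · right
        rw [if_pos h]
      · left
        rw [if_neg h]
    have h1 : ∀ i, cK (lam i) 0 t = 2 * t * p i := by
      intro i
      unfold cK
      rw [if_neg ht0, sub_zero]
      congr 1
      change |p i| = p i
      rcases hp01 i with h | h <;> rw [h] <;> simp
    have h2 : ∀ i j, cK (lam i) (lam j) t = 2 * t * (p i + p j - 2 * (p i * p j)) := by
      intro i j
      unfold cK
      congr 1
      change |p i - p j| = _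
      rcases hp01 i with h | h <;> rcases hp01 j with h' | h' <;> rw [h, h'] <;> norm_num
    simp only [h1, h2]
    change 2 * t * (∑ i, p i - ∑ i, ∑ j, p i * p j * m i j) = _
    have h3 : ∑ i, r i * (2 * t * p i) = 2 * t * (∑ i, p i - ∑ i, ∑ j, m i j * p i) := by
      rw [← Finset.sum_sub_distrib, Finset.mul_sum]
      refine Finset.sum_congr rfl fun i _ => ?_
      simp only [hrdef]
      rw [← Finset.sum_mul]
      ring
    have h4 : ∑ i, c i * (2 * t * p i) = 2 * t * (∑ i, p i - ∑ i, ∑ j, m i j * p j) := by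
      rw [Finset.sum_comm (f := fun i j => m i j * p j), ← Finset.sum_sub_distrib, Finset.mul_sum]
      refine Finset.sum_congr rfl fun i _ => ?_
      simp only [hcdef]
      rw [← Finset.sum_mul]
      ring
    have h5 : ∑ i, ∑ j, m i j * (2 * t * (p i + p j - 2 * (p i * p j))) =
        2 * t * (∑ i, ∑ j, m i j * p i + ∑ i, ∑ j, m i j * p j -
          2 * ∑ i, ∑ j, p i * p j * m i j) := by
      simp only [Finset.mul_sum, ← Finset.sum_add_distrib, ← Finset.sum_sub_distrib]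
      refine Finset.sum_congr rfl fun i _ => Finset.sum_congr rfl fun j _ => ?_
      ring
    rw [h3, h4, h5]
    ring
  have hK0 : ∀ i, IntegrableOn (fun t => cK (lam i) 0 t) (Set.Icc (a₀ / 2) a₀) ∧
      ∫ t in Set.Icc (a₀ / 2) a₀, cK (lam i) 0 t ≤ lam i ^ 2 := by
    intro i
    have h := cK_int (hl i).le le_rfl (a₀ / 2) a₀ ha2
    refine ⟨h.1, h.2.trans (le_of_eq ?_)⟩
    rw [abs_of_nonneg (by nlinarith [hl i])]
    ring
  have hK1 : ∀ i j, IntegrableOn (fun t => cK (lam i) (lam j) t) (Set.Icc (a₀ / 2) a₀) ∧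
      ∫ t in Set.Icc (a₀ / 2) a₀, cK (lam i) (lam j) t ≤ |lam i ^ 2 - lam j ^ 2| :=
    fun i j => cK_int (hl i).le (hl j).le (a₀ / 2) a₀ ha2
  have hS1 : IntegrableOn (fun t => ∑ i, r i * cK (lam i) 0 t) (Set.Icc (a₀ / 2) a₀) :=
    integrable_finsetSum _ fun i _ => (hK0 i).1.const_mul _
  have hS2 : IntegrableOn (fun t => ∑ i, c i * cK (lam i) 0 t) (Set.Icc (a₀ / 2) a₀) :=
    integrable_finsetSum _ fun i _ => (hK0 i).1.const_mul _
  have hS3 : IntegrableOn (fun t => ∑ i, ∑ j, m i j * cK (lam i) (lam j) t)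
      (Set.Icc (a₀ / 2) a₀) :=
    integrable_finsetSum _ fun i _ => integrable_finsetSum _ fun j _ => (hK1 i j).1.const_mul _
  have hInt : IntegrableOn (fun t => (1 / 2) * (∑ i, r i * cK (lam i) 0 t +
      ∑ j, c j * cK (lam j) 0 t + ∑ i, ∑ j, m i j * cK (lam i) (lam j) t))
      (Set.Icc (a₀ / 2) a₀) := ((hS1.add hS2).add hS3).const_mul _
  constructor
  · exact hInt.congr_fun (fun t ht => (hid t ht).symm) measurableSet_Icc
  intro θ hθ
  rw [setIntegral_congr_fun measurableSet_Icc hid, integral_const_mul]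
  have e12 : ∫ t in Set.Icc (a₀ / 2) a₀, (∑ i, r i * cK (lam i) 0 t +
      ∑ j, c j * cK (lam j) 0 t + ∑ i, ∑ j, m i j * cK (lam i) (lam j) t) =
      (∫ t in Set.Icc (a₀ / 2) a₀, ∑ i, r i * cK (lam i) 0 t) +
      (∫ t in Set.Icc (a₀ / 2) a₀, ∑ j, c j * cK (lam j) 0 t) +
      ∫ t in Set.Icc (a₀ / 2) a₀, ∑ i, ∑ j, m i j * cK (lam i) (lam j) t := by
    have q1 := integral_add (hS1.add hS2) hS3
    have q2 := integral_add hS1 hS2
    rw [← q2]
    exact q1
  have b1 : ∫ t in Set.Icc (a₀ / 2) a₀, ∑ i, r i * cK (lam i) 0 t ≤ ∑ i, r i * lam i ^ 2 := by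
    rw [integral_finsetSum _ fun i _ => (hK0 i).1.const_mul _]
    refine Finset.sum_le_sum fun i _ => ?_
    rw [integral_const_mul]
    exact mul_le_mul_of_nonneg_left (hK0 i).2 (hr0 i)
  have b2 : ∫ t in Set.Icc (a₀ / 2) a₀, ∑ i, c i * cK (lam i) 0 t ≤ ∑ i, c i * lam i ^ 2 := by
    rw [integral_finsetSum _ fun i _ => (hK0 i).1.const_mul _]
    refine Finset.sum_le_sum fun i _ => ?_
    rw [integral_const_mul]
    exact mul_le_mul_of_nonneg_left (hK0 i).2 (hc0 i)
  have b3 : ∫ t in Set.Icc (a₀ / 2) a₀, ∑ i, ∑ j, m i j * cK (lam i) (lam j) t ≤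
      ∑ i, ∑ j, m i j * |lam i ^ 2 - lam j ^ 2| := by
    rw [integral_finsetSum _ fun i _ => integrable_finsetSum _ fun j _ =>
      (hK1 i j).1.const_mul _]
    refine Finset.sum_le_sum fun i _ => ?_
    rw [integral_finsetSum _ fun j _ => (hK1 i j).1.const_mul _]
    refine Finset.sum_le_sum fun j _ => ?_
    rw [integral_const_mul]
    exact mul_le_mul_of_nonneg_left (hK1 i j).2 (hm i j)
  rw [e12]
  -- AM-GM
  have habs : ∀ i j, |lam i ^ 2 - lam j ^ 2| ≤
      (θ * (lam i + lam j) ^ 2 + (lam i - lam j) ^ 2 / θ) / 2 := by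
    intro i j
    have h1 : lam i ^ 2 - lam j ^ 2 = (lam i + lam j) * (lam i - lam j) := by ring
    rw [h1, abs_mul]
    have h2 : (θ * |lam i + lam j| - |lam i - lam j|) ^ 2 / θ =
        θ * (lam i + lam j) ^ 2 + (lam i - lam j) ^ 2 / θ -
          2 * (|lam i + lam j| * |lam i - lam j|) := by
      have e1 := sq_abs (lam i + lam j)
      have e2 := sq_abs (lam i - lam j)
      field_simp
      rw [← e1, ← e2]
      ring
    have h3 : 0 ≤ (θ * |lam i + lam j| - |lam i - lam j|) ^ 2 / θ := by positivity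
    rw [h2] at h3
    linarith
  have hone : (1 : ℝ) ≤ (θ + 1 / θ) / 2 := by
    have h2 : (θ - 1) ^ 2 / θ = θ + 1 / θ - 2 := by
      field_simp
      ring
    have h3 : 0 ≤ (θ - 1) ^ 2 / θ := by positivity
    rw [h2] at h3
    linarith
  have c1 : ∑ i, r i * lam i ^ 2 ≤ ∑ i, r i * lam i ^ 2 * ((θ + 1 / θ) / 2) :=
    Finset.sum_le_sum fun i _ =>
      le_mul_of_one_le_right (mul_nonneg (hr0 i) (sq_nonneg _)) hone
  have c2 : ∑ i, c i * lam i ^ 2 ≤ ∑ i, c i * lam i ^ 2 * ((θ + 1 / θ) / 2) :=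
    Finset.sum_le_sum fun i _ =>
      le_mul_of_one_le_right (mul_nonneg (hc0 i) (sq_nonneg _)) hone
  have c3 : ∑ i, ∑ j, m i j * |lam i ^ 2 - lam j ^ 2| ≤
      ∑ i, ∑ j, m i j * ((θ * (lam i + lam j) ^ 2 + (lam i - lam j) ^ 2 / θ) / 2) :=
    Finset.sum_le_sum fun i _ => Finset.sum_le_sum fun j _ =>
      mul_le_mul_of_nonneg_left (habs i j) (hm i j)
  set Λ := ∑ i, lam i ^ 2 with hΛ
  set M := ∑ i, ∑ j, lam i * lam j * m i j with hM
  have d1 : ∑ i, r i * lam i ^ 2 * ((θ + 1 / θ) / 2) =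
      (Λ - ∑ i, ∑ j, m i j * lam i ^ 2) * ((θ + 1 / θ) / 2) := by
    rw [hΛ, ← Finset.sum_sub_distrib, Finset.sum_mul]
    refine Finset.sum_congr rfl fun i _ => ?_
    simp only [hrdef]
    rw [← Finset.sum_mul]
    ring
  have d2 : ∑ i, c i * lam i ^ 2 * ((θ + 1 / θ) / 2) =
      (Λ - ∑ i, ∑ j, m i j * lam j ^ 2) * ((θ + 1 / θ) / 2) := by
    rw [hΛ, Finset.sum_comm (f := fun i j => m i j * lam j ^ 2), ← Finset.sum_sub_distrib,
      Finset.sum_mul]
    refine Finset.sum_congr rfl fun i _ => ?_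
    simp only [hcdef]
    rw [← Finset.sum_mul]
    ring
  have d3 : ∑ i, ∑ j, m i j * ((θ * (lam i + lam j) ^ 2 + (lam i - lam j) ^ 2 / θ) / 2) =
      (∑ i, ∑ j, m i j * lam i ^ 2 + ∑ i, ∑ j, m i j * lam j ^ 2) * ((θ + 1 / θ) / 2) +
        M * (θ - 1 / θ) := by
    rw [hM]
    simp only [← Finset.sum_add_distrib, Finset.sum_mul]
    refine Finset.sum_congr rfl fun i _ => Finset.sum_congr rfl fun j _ => ?_
    ring
  have hML : M ≤ Λ := by
    have h1 : 0 ≤ ∑ i, ∑ j, m i j * (lam i - lam j) ^ 2 :=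
      Finset.sum_nonneg fun i _ => Finset.sum_nonneg fun j _ =>
        mul_nonneg (hm i j) (sq_nonneg _)
    have h2 : ∑ i, ∑ j, m i j * (lam i - lam j) ^ 2 =
        ∑ i, ∑ j, m i j * lam i ^ 2 + ∑ i, ∑ j, m i j * lam j ^ 2 - 2 * M := by
      rw [hM]
      simp only [← Finset.sum_add_distrib, Finset.mul_sum, ← Finset.sum_sub_distrib]
      refine Finset.sum_congr rfl fun i _ => Finset.sum_congr rfl fun j _ => ?_
      ring
    have h3 : ∑ i, ∑ j, m i j * lam i ^ 2 ≤ Λ := by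
      rw [hΛ]
      refine Finset.sum_le_sum fun i _ => ?_
      rw [← Finset.sum_mul]
      exact mul_le_of_le_one_left (sq_nonneg _) (hr i)
    have h4 : ∑ i, ∑ j, m i j * lam j ^ 2 ≤ Λ := by
      rw [hΛ, Finset.sum_comm]
      refine Finset.sum_le_sum fun i _ => ?_
      rw [← Finset.sum_mul]
      exact mul_le_of_le_one_left (sq_nonneg _) (hc i)
    linarith
  have hfin : θ * Λ + (2 * Λ - 2 * M) / (4 * θ) =
      (1 / 2) * ((2 * Λ) * ((θ + 1 / θ) / 2) + M * (θ - 1 / θ)) + θ * (Λ - M) / 2 := by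
    field_simp
    ring
  rw [hfin]
  have h5 : 0 ≤ θ * (Λ - M) / 2 := by
    have : 0 ≤ Λ - M := by linarith
    positivity
  linarith [b1, b2, b3, c1, c2, c3, d1, d2, d3]

private theorem conn_alg {g η Λ : ℝ} (hg : 0 < g) (hη : 0 < η) :
    g * g * (η / (2 * g)) * Λ + η ^ 2 * Λ / (4 * (η / (2 * g))) = g * η * Λ := by
  field_simp
  ring

private theorem conn_alg2 {a g η Λ : ℝ} (ha : a ≠ 0) :
    3 / 4 * a ^ 2 * (2 * g * η / a ^ 2 * Λ) = 3 / 2 * (g * η * Λ) := by
  field_simp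
  ring

/-- Module Conn. -/
theorem pConn : StConn := by
  intro H _ _ ι F U d e lam a₀ η hU he hl ha hη hE
  classical
  set m : ι → Fin d → Fin d → ℝ := fun s i j => ‖inner ℂ (e i) (U s (e j))‖ ^ 2 with hmdef
  have hm : ∀ s i j, 0 ≤ m s i j := fun s i j => sq_nonneg _
  have hUin : ∀ s x y, inner ℂ (U s x) (U s y) = inner ℂ x y := fun s =>
    (LinearMap.norm_map_iff_inner_map_map (U s)).1 (hU s)
  have hUe : ∀ s, Orthonormal ℂ (fun j => U s (e j)) := by
    intro s
    rw [orthonormal_iff_ite] at he ⊢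
    intro i j
    rw [hUin, he]
  have hc : ∀ s j, ∑ i, m s i j ≤ 1 := by
    intro s j
    have h := he.sum_inner_products_le (U s (e j)) (s := Finset.univ)
    rw [hU, he.1 j] at h
    simpa using h
  have hr : ∀ s i, ∑ j, m s i j ≤ 1 := by
    intro s i
    have h := (hUe s).sum_inner_products_le (e i) (s := Finset.univ)
    rw [he.1 i] at h
    simp only [hmdef]
    simp only [norm_inner_symm (e i)]
    simpa using h
  set Λ := ∑ i, lam i ^ 2 with hΛ
  have hΛ0 : 0 ≤ Λ := Finset.sum_nonneg fun i _ => sq_nonneg _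
  set f : ι → ℝ → ℝ := fun s t => ∑ i, (if t < lam i then (1 : ℝ) else 0) -
      ∑ i, ∑ j, (if t < lam i then (1 : ℝ) else 0) * (if t < lam j then (1 : ℝ) else 0) *
        m s i j with hf
  have key := fun s => conn_one lam (m s) hl (hm s) (hr s) (hc s) a₀ ha
  have hfint : ∀ s, IntegrableOn (fun t => 2 * t * f s t) (Set.Icc (a₀ / 2) a₀) :=
    fun s => (key s).1
  have hTθ : ∀ θ : ℝ, 0 < θ → ∑ s ∈ F, ∫ t in Set.Icc (a₀ / 2) a₀, 2 * t * f s t ≤
      F.card * θ * Λ + η ^ 2 * Λ / (4 * θ) := by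
    intro θ hθ
    have h1 : ∑ s ∈ F, ∫ t in Set.Icc (a₀ / 2) a₀, 2 * t * f s t ≤
        ∑ s ∈ F, (θ * Λ + (2 * Λ - 2 * ∑ i, ∑ j, lam i * lam j * m s i j) / (4 * θ)) :=
      Finset.sum_le_sum fun s _ => (key s).2 θ hθ
    refine h1.trans ?_
    rw [Finset.sum_add_distrib, Finset.sum_const, nsmul_eq_mul, ← Finset.sum_div]
    have h2 := div_le_div_of_nonneg_right hE (by positivity : (0 : ℝ) ≤ 4 * θ)
    have h3 : (F.card : ℝ) * (θ * Λ) = F.card * θ * Λ := by ring
    rw [h3]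
    linarith
  set T := ∑ s ∈ F, ∫ t in Set.Icc (a₀ / 2) a₀, 2 * t * f s t with hT
  have hTb : T ≤ Real.sqrt F.card * η * Λ := by
    rcases hη.eq_or_lt with h0 | h0
    · rw [← h0]
      simp only [mul_zero, zero_mul]
      refine le_of_forall_pos_le_add fun ε hε => ?_
      have h1 := hTθ (ε / (F.card * Λ + 1)) (by positivity)
      rw [← h0] at h1
      have h2 : (F.card : ℝ) * (ε / (F.card * Λ + 1)) * Λ ≤ ε := by
        rw [mul_div_assoc', div_mul_eq_mul_div, div_le_iff₀ (by positivity)]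
        nlinarith
      simp only [ne_eq, OfNat.ofNat_ne_zero, not_false_eq_true, zero_pow, zero_mul,
        zero_div, add_zero] at h1
      linarith
    · rcases F.eq_empty_or_nonempty with hF | hF
      · have : T = 0 := by
          rw [hT, hF]
          simp
        rw [this]
        positivity
      · have hg : 0 < Real.sqrt F.card := Real.sqrt_pos.2 (by exact_mod_cast hF.card_pos)
        have hgs : (F.card : ℝ) = Real.sqrt F.card * Real.sqrt F.card :=
          (Real.mul_self_sqrt (Nat.cast_nonneg _)).symm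
        have h1 := hTθ (η / (2 * Real.sqrt F.card)) (div_pos h0 (mul_pos two_pos hg))
        have h2 := conn_alg (Λ := Λ) hg h0
        rw [← hgs] at h2
        exact h1.trans (le_of_eq h2)
  -- the averaged function
  set B := 2 * Real.sqrt F.card * η / a₀ ^ 2 * Λ with hB
  have hB0 : 0 ≤ B := by positivity
  set G : ℝ → ℝ := fun t => ∑ s ∈ F, 2 * t * f s t - 2 * t * B with hG
  have hI1 : IntegrableOn (fun t => ∑ s ∈ F, 2 * t * f s t) (Set.Icc (a₀ / 2) a₀) :=
    integrable_finsetSum _ fun s _ => hfint s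
  have hI2 : IntegrableOn (fun t : ℝ => 2 * t * B) (Set.Icc (a₀ / 2) a₀) :=
    ((continuous_const.mul continuous_id).mul continuous_const).continuousOn.integrableOn_Icc
  have hGint : IntegrableOn G (Set.Icc (a₀ / 2) a₀) := hI1.sub hI2
  have hGle : ∫ t in Set.Icc (a₀ / 2) a₀, G t ≤ 0 := by
    have h1 : ∫ t in Set.Icc (a₀ / 2) a₀, G t = T - ∫ t in Set.Icc (a₀ / 2) a₀, 2 * t * B := by
      rw [hT, ← integral_finsetSum _ fun s _ => hfint s]
      exact integral_sub hI1 hI2
    have h2 : ∫ t in Set.Icc (a₀ / 2) a₀, 2 * t * B = 3 / 4 * a₀ ^ 2 * B := by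
      rw [integral_Icc_eq_integral_Ioc, ← intervalIntegral.integral_of_le (by linarith),
        intervalIntegral.integral_mul_const, intervalIntegral.integral_const_mul, integral_id]
      ring
    rw [h1, h2, hB]
    have h3 : 3 / 4 * a₀ ^ 2 * (2 * Real.sqrt F.card * η / a₀ ^ 2 * Λ) =
        3 / 2 * (Real.sqrt F.card * η * Λ) := conn_alg2 ha.ne'
    rw [h3]
    have h4 : 0 ≤ Real.sqrt F.card * η * Λ := by positivity
    linarith
  have hvol : volume (Set.Icc (a₀ / 2) a₀) ≠ 0 := by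
    rw [Real.volume_Icc]
    simp only [ne_eq, ENNReal.ofReal_eq_zero, not_le]
    linarith
  have hvol2 : volume (Set.Icc (a₀ / 2) a₀) ≠ ⊤ := by
    rw [Real.volume_Icc]
    exact ENNReal.ofReal_ne_top
  obtain ⟨t, ht, hGt⟩ := exists_le_setAverage hvol hvol2 hGint
  refine ⟨t, ht, ?_⟩
  have hav : ⨍ a in Set.Icc (a₀ / 2) a₀, G a ≤ 0 := by
    rw [setAverage_eq, smul_eq_mul]
    exact mul_nonpos_of_nonneg_of_nonpos (inv_nonneg.2 ENNReal.toReal_nonneg) hGle
  have h1 : G t ≤ 0 := hGt.trans hav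
  have ht0 : 0 < t := by
    have := ht.1
    linarith
  have h2 : 2 * t * (∑ s ∈ F, f s t - B) ≤ 0 := by
    have : 2 * t * (∑ s ∈ F, f s t - B) = G t := by
      rw [hG]
      simp only [mul_sub, Finset.mul_sum]
    rw [this]
    exact h1
  have h3 : ∑ s ∈ F, f s t - B ≤ 0 := by
    by_contra h
    have := mul_pos (by positivity : (0 : ℝ) < 2 * t) (not_le.1 h)
    linarith
  refine le_trans (le_of_eq ?_) (sub_nonpos.1 h3)
  refine Finset.sum_congr rfl fun s _ => ?_
  simp only [hf]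
  congr 1
  · rw [Finset.card_filter]
    push_cast
    rfl
  · rw [Finset.sum_filter]
    refine Finset.sum_congr rfl fun i _ => ?_
    by_cases hi : t < lam i
    · rw [if_pos hi, Finset.sum_filter]
      refine Finset.sum_congr rfl fun j _ => ?_
      by_cases hj : t < lam j
      · rw [if_pos hj, if_pos hj, if_pos hi]
        simp [hmdef]
      · rw [if_neg hj, if_neg hj]
        simp
    · rw [if_neg hi]
      simp [hi]

end Helper61.HT
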