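import Pool.Agent.Helper61.HT.StE
import Pool.Agent.Helper61.HT.Ip

/-!
# Project HT: the cost of `φ³`
-/

set_option linter.unusedSectionVars false

namespace Helper61.HT

open scoped ComplexOrder
open Filter Topology

section hilbert

variable {H : Type} [NormedAddCommGroup H] [InnerProductSpace ℂ H] {d : ℕ} {e : Fin d → H}

private lemma on_self (he : Orthonormal ℂ e) (r : Fin d → ℝ) (x : H) (i : Fin d) :
    inner ℂ (e i) (∑ j, ((r j : ℂ) * inner ℂ (e j) x) • e j) = (r i : ℂ) * inner ℂ (e i) x :=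
  he.inner_right_fintype _ _

private lemma on_inner (r : Fin d → ℝ) (x y : H) :
    inner ℂ y (∑ j, ((r j : ℂ) * inner ℂ (e j) x) • e j) =
      ∑ j, (r j : ℂ) * (inner ℂ (e j) x * inner ℂ y (e j)) := by
  rw [inner_sum]
  refine Finset.sum_congr rfl fun j _ => ?_
  rw [inner_smul_right]; ring

private lemma on_re (r : Fin d → ℝ) (x : H) :
    (inner ℂ x (∑ j, ((r j : ℂ) * inner ℂ (e j) x) • e j)).re =
      ∑ j, r j * ‖inner ℂ (e j) x‖ ^ 2 := by
  rw [on_inner, Complex.re_sum]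
  refine Finset.sum_congr rfl fun j _ => ?_
  rw [← inner_conj_symm x (e j), Complex.mul_conj, Complex.normSq_eq_norm_sq,
    ← Complex.ofReal_mul, Complex.ofReal_re]

private lemma on_norm (he : Orthonormal ℂ e) (r : Fin d → ℝ) (x : H) :
    ‖∑ j, ((r j : ℂ) * inner ℂ (e j) x) • e j‖ ^ 2 = ∑ j, r j ^ 2 * ‖inner ℂ (e j) x‖ ^ 2 := by
  have f1 := @inner_self_eq_norm_sq ℂ H _ _ _ (∑ j, ((r j : ℂ) * inner ℂ (e j) x) • e j)
  rw [← f1, on_inner, RCLike.re_to_complex, Complex.re_sum]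
  refine Finset.sum_congr rfl fun j _ => ?_
  rw [← inner_conj_symm _ (e j), on_self he, map_mul, Complex.conj_ofReal]
  have : (r j : ℂ) * (inner ℂ (e j) x * ((r j : ℂ) * (starRingEnd ℂ) (inner ℂ (e j) x))) =
      ((r j ^ 2 * ‖inner ℂ (e j) x‖ ^ 2 : ℝ) : ℂ) := by
    have h := Complex.mul_conj (inner ℂ (e j) x)
    rw [Complex.normSq_eq_norm_sq] at h
    push_cast at h ⊢
    rw [← h]; ring
  rw [this, Complex.ofReal_re]

private lemma on_sub (he : Orthonormal ℂ e) (r : Fin d → ℝ) (x : H) :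
    ‖x - ∑ j, ((r j : ℂ) * inner ℂ (e j) x) • e j‖ ^ 2 =
      ‖x‖ ^ 2 - ∑ j, (2 * r j - r j ^ 2) * ‖inner ℂ (e j) x‖ ^ 2 := by
  have h := @norm_sub_sq ℂ H _ _ _ x (∑ j, ((r j : ℂ) * inner ℂ (e j) x) • e j)
  rw [h, RCLike.re_to_complex, on_re, on_norm he, Finset.mul_sum, sub_add,
    ← Finset.sum_sub_distrib]
  congr 1
  refine Finset.sum_congr rfl fun j _ => ?_
  ring

end hilbert

private lemma form_add {N : Type} [CStarAlgebra N] {τ : N →ₗ[ℂ] ℂ} (ψ : N →ₗ[ℂ] N) (x y : N) :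
    rt τ (star (x + y) * ψ (x + y)) + rt τ (star (x - y) * ψ (x - y)) =
      2 * rt τ (star x * ψ x) + 2 * rt τ (star y * ψ y) := by
  simp only [star_add, star_sub, map_add, map_sub, add_mul, mul_add, sub_mul, mul_sub, rt_add,
    rt_sub]
  ring

private lemma smul_real_eq {N : Type} [CStarAlgebra N] (c : ℝ) (x : N) : c • x = (c : ℂ) • x :=
  (algebraMap_smul ℂ c x).symm

theorem pCost (hFF1 : StFF1) (hFF2 : StFF2) (hPhi : StPhi) : StCost := by
  intro N _ _ _ τ φ b m E hτ hφ hb hE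
  obtain ⟨H, _, _, ε, hin, hnorm⟩ := exists_L2 hτ
  obtain ⟨hP1, -, -, -⟩ := hPhi N τ φ hτ hφ
  -- the form of `φ³`
  have hQ : ∀ x, rt τ (star x * φ (φ (φ x))) = rt τ (star (φ x) * φ (φ x)) := by
    intro x
    have h := hφ.symm (star x) (φ (φ x))
    rw [hφ.map_star] at h
    unfold rt
    rw [h]
  have hQadd : ∀ x y, rt τ (star (x + y) * φ (φ (φ (x + y)))) ≤
      2 * rt τ (star x * φ (φ (φ x))) + 2 * rt τ (star y * φ (φ (φ y))) := by
    intro x y
    have h := form_add (τ := τ) (φ ∘ₗ φ ∘ₗ φ) x y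
    simp only [LinearMap.comp_apply] at h
    have h2 : 0 ≤ rt τ (star (x - y) * φ (φ (φ (x - y)))) := by
      rw [hQ]; exact hφ.pos _
    linarith
  have hQle : ∀ x, rt τ (star x * φ (φ (φ x))) ≤ hs τ x := by
    intro x
    rw [hQ]
    have h1 := rt_mul_le hτ (star (φ x)) (φ (φ x))
    rw [hs_star hτ] at h1
    have h2 := Real.sqrt_le_sqrt (hP1 (φ x)).1
    have h3 : Real.sqrt (hs τ (φ x)) * Real.sqrt (hs τ (φ (φ x))) ≤ hs τ (φ x) := by
      calc _ ≤ Real.sqrt (hs τ (φ x)) * Real.sqrt (hs τ (φ x)) :=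
            mul_le_mul_of_nonneg_left h2 (Real.sqrt_nonneg _)
        _ = _ := Real.mul_self_sqrt (hs_nonneg hτ _)
    exact h1.trans (h3.trans (hP1 x).1)
  -- the family `E''`
  let V : Bool → Fin m → N := fun a j => cond a ((Real.sqrt b) • E j) (φ (E j))
  have hdE : ∀ x, dfm τ E (φ x) = ∑ j, ‖inner ℂ (ε (φ (E j))) (ε x)‖ ^ 2 := by
    intro x
    unfold dfm
    refine Finset.sum_congr rfl fun j _ => ?_
    rw [hin, ← hφ.map_star, hφ.symm]
  have hdE' : ∀ x, b * dfm τ E x = ∑ j, ‖inner ℂ (ε ((Real.sqrt b) • E j)) (ε x)‖ ^ 2 := by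
    intro x
    unfold dfm
    rw [Finset.mul_sum]
    refine Finset.sum_congr rfl fun j _ => ?_
    rw [hin, star_smul, (star_trivial (Real.sqrt b) : star (Real.sqrt b) = Real.sqrt b),
      smul_mul_assoc, map_smul_real, norm_mul, Complex.norm_real, mul_pow, Real.norm_eq_abs,
      sq_abs, Real.sq_sqrt hb]
  have hQE : ∀ x, rt τ (star x * φ (φ (φ x))) ≤ b ^ 2 * hs τ x +
      ∑ p : (Σ _ : Bool, Fin m), ‖inner ℂ (ε (V p.1 p.2)) (ε x)‖ ^ 2 := by
    intro x
    rw [Fintype.sum_sigma, Fintype.sum_bool]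
    change _ ≤ b ^ 2 * hs τ x + (∑ j, ‖inner ℂ (ε ((Real.sqrt b) • E j)) (ε x)‖ ^ 2 +
      ∑ j, ‖inner ℂ (ε (φ (E j))) (ε x)‖ ^ 2)
    rw [← hdE, ← hdE', hQ]
    have h1 := hE (φ x)
    have h2 := mul_le_mul_of_nonneg_left ((hP1 x).2.trans (hE x)) hb
    linarith
  obtain ⟨-, -, hF3, -, -, -, hF7⟩ := hFF1 H
  have hEcrs : crs (fun j => ε (E j)) (fun j => ε (E j)) = hsf τ E := by
    unfold crs hsf
    simp only [hin]
  have hEn : 0 ≤ hsf τ E := by
    unfold hsf; positivity
  have hcrs : crs (fun p : (Σ _ : Bool, Fin m) => ε (V p.1 p.2))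
      (fun p : (Σ _ : Bool, Fin m) => ε (V p.1 p.2)) ≤ ((1 + b) * Real.sqrt (hsf τ E)) ^ 2 := by
    have h := hF7 Bool (fun _ => Fin m) (fun a j => ε (V a j))
      (fun a => cond a (b * Real.sqrt (hsf τ E)) (Real.sqrt (hsf τ E))) ?_
    · rw [Fintype.sum_bool] at h
      refine h.trans (le_of_eq ?_)
      simp only [cond_true, cond_false]
      ring
    · intro a
      cases a
      · refine ⟨Real.sqrt_nonneg _, ?_⟩
        simp only [cond_false]
        rw [Real.sq_sqrt hEn, ← hEcrs]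
        have h := (hF3 (Fin m) (Fin m) (fun j => ε (E j)) (fun j => ε (E j))
          (ε.toLinearMap ∘ₗ φ ∘ₗ ε.symm.toLinearMap) ?_).1
        · refine le_trans (le_of_eq ?_) h
          unfold crs
          simp [V]
        · intro x
          have h1 := (hP1 (ε.symm x)).1
          rw [← hnorm, ← hnorm, LinearEquiv.apply_symm_apply] at h1
          exact (pow_le_pow_iff_left₀ (norm_nonneg _) (norm_nonneg _) two_ne_zero).1 h1
      · refine ⟨mul_nonneg hb (Real.sqrt_nonneg _), ?_⟩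
        simp only [cond_true]
        rw [mul_pow, Real.sq_sqrt hEn, ← hEcrs]
        refine le_of_eq ?_
        unfold crs
        rw [Finset.mul_sum]
        refine Finset.sum_congr rfl fun i _ => ?_
        rw [Finset.mul_sum]
        refine Finset.sum_congr rfl fun j _ => ?_
        simp only [V, cond_true]
        rw [smul_real_eq, smul_real_eq, map_smul, map_smul, inner_smul_left, inner_smul_right,
          Complex.conj_ofReal, norm_mul, norm_mul, Complex.norm_real, Real.norm_eq_abs,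
          abs_of_nonneg (Real.sqrt_nonneg b), ← mul_assoc, Real.mul_self_sqrt hb, mul_pow]
  obtain ⟨d, e, lam, he, hlam, -, hker, hcrs'⟩ :=
    (hFF2 H).1 (Σ _ : Bool, Fin m) (fun p => ε (V p.1 p.2))
  -- the form of `E''`
  have hform : ∀ x : H, ∑ p : (Σ _ : Bool, Fin m), ‖inner ℂ (ε (V p.1 p.2)) x‖ ^ 2 =
      ∑ i, lam i * ‖inner ℂ (e i) x‖ ^ 2 := by
    intro x
    have h := congrArg Complex.re (hker x x)
    have key : ∀ y : H, inner ℂ x y * inner ℂ y x = ((‖inner ℂ y x‖ ^ 2 : ℝ) : ℂ) := by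
      intro y
      rw [← inner_conj_symm x y, Complex.conj_mul']
      push_cast; rfl
    simp only [key] at h
    rw [Complex.re_sum, Complex.re_sum] at h
    simp only [← Complex.ofReal_mul, Complex.ofReal_re] at h
    exact h
  have hdw : ∀ i, 0 ≤ 2 * lam i / (1 + lam i) := fun i => by
    have := hlam i; positivity
  let w : Fin d → N := fun i => ε.symm (((Real.sqrt (2 * lam i / (1 + lam i)) : ℝ) : ℂ) • e i)
  have hwx : ∀ x, dfm τ w x = ∑ i, 2 * lam i / (1 + lam i) * ‖inner ℂ (e i) (ε x)‖ ^ 2 := by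
    intro x
    unfold dfm
    refine Finset.sum_congr rfl fun i _ => ?_
    rw [← hin]
    simp only [w, LinearEquiv.apply_symm_apply]
    rw [inner_smul_left, Complex.conj_ofReal, norm_mul, Complex.norm_real, mul_pow,
      Real.norm_eq_abs, sq_abs, Real.sq_sqrt (hdw i)]
  refine ⟨d, w, ?_, ?_, ?_⟩
  · intro x
    rw [hwx]
    set r : Fin d → ℝ := fun i => lam i / (1 + lam i) with hr
    set y : H := ∑ j, ((r j : ℂ) * inner ℂ (e j) (ε x)) • e j with hy
    have h1 := hQadd (ε.symm (ε x - y)) (ε.symm y)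
    have h2 : ε.symm (ε x - y) + ε.symm y = x := by
      rw [← map_add, sub_add_cancel, LinearEquiv.symm_apply_apply]
    rw [h2] at h1
    have h3 := hQE (ε.symm (ε x - y))
    rw [LinearEquiv.apply_symm_apply, hform, ← hnorm, LinearEquiv.apply_symm_apply,
      on_sub he] at h3
    have h4 := hQle (ε.symm y)
    rw [← hnorm, LinearEquiv.apply_symm_apply, on_norm he] at h4
    have h5 : ∀ i, inner ℂ (e i) (ε x - y) = ((1 / (1 + lam i) : ℝ) : ℂ) * inner ℂ (e i) (ε x) := by
      intro i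
      have hl : (1 + lam i) ≠ 0 := by have := hlam i; positivity
      have h6 : (1 : ℝ) - r i = 1 / (1 + lam i) := by
        rw [hr]; field_simp; ring
      rw [inner_sub_right, on_self he, ← h6]
      push_cast; ring
    have h7 : 0 ≤ ∑ j, (2 * r j - r j ^ 2) * ‖inner ℂ (e j) (ε x)‖ ^ 2 := by
      refine Finset.sum_nonneg fun j _ => mul_nonneg ?_ (by positivity)
      have hl := hlam j
      have h8 : 0 ≤ r j := by rw [hr]; positivity
      have h9 : r j ≤ 1 := by
        rw [hr]; rw [div_le_one (by positivity)]; linarith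
      nlinarith
    have h10 : 2 * ∑ i, lam i * ‖inner ℂ (e i) (ε x - y)‖ ^ 2 +
        2 * ∑ j, r j ^ 2 * ‖inner ℂ (e j) (ε x)‖ ^ 2 =
        ∑ i, 2 * lam i / (1 + lam i) * ‖inner ℂ (e i) (ε x)‖ ^ 2 := by
      rw [Finset.mul_sum, Finset.mul_sum, ← Finset.sum_add_distrib]
      refine Finset.sum_congr rfl fun i _ => ?_
      rw [h5, norm_mul, Complex.norm_real, mul_pow, Real.norm_eq_abs, sq_abs]
      have hl : (1 + lam i) ≠ 0 := by have := hlam i; positivity
      simp only [hr]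
      field_simp
    have h11 := hnorm x
    have h12 : b ^ 2 * (‖ε x‖ ^ 2 - ∑ j, (2 * r j - r j ^ 2) * ‖inner ℂ (e j) (ε x)‖ ^ 2) ≤
        b ^ 2 * hs τ x := by
      rw [← h11]
      exact mul_le_mul_of_nonneg_left (by linarith) (sq_nonneg b)
    linarith
  · intro x
    rw [hwx, ← hnorm, ]
    have h1 := he.sum_inner_products_le (x := ε x) (s := Finset.univ)
    have h2 : ∑ i, 2 * lam i / (1 + lam i) * ‖inner ℂ (e i) (ε x)‖ ^ 2 ≤
        ∑ i, 2 * ‖inner ℂ (e i) (ε x)‖ ^ 2 := by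
      refine Finset.sum_le_sum fun i _ => mul_le_mul_of_nonneg_right ?_ (by positivity)
      have hl := hlam i
      rw [div_le_iff₀ (by positivity)]
      nlinarith
    rw [← Finset.mul_sum] at h2
    linarith
  · have h1 : hsf τ w = ∑ i, (2 * lam i / (1 + lam i)) ^ 2 := by
      unfold hsf
      refine Finset.sum_congr rfl fun i _ => ?_
      rw [Finset.sum_eq_single i]
      · rw [← hin]
        simp only [w, LinearEquiv.apply_symm_apply]
        rw [inner_smul_left, inner_smul_right, Complex.conj_ofReal,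
          inner_self_eq_norm_sq_to_K, he.1 i]
        simp only [norm_mul, Complex.norm_real, Real.norm_eq_abs]
        rw [abs_of_nonneg (Real.sqrt_nonneg _)]
        simp only [RCLike.ofReal_one, one_pow, norm_one, mul_one]
        rw [Real.mul_self_sqrt (hdw i)]
      · intro j _ hj
        rw [← hin]
        simp only [w, LinearEquiv.apply_symm_apply]
        rw [inner_smul_left, inner_smul_right, he.2 hj.symm]
        simp
      · intro h; exact absurd (Finset.mem_univ i) h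
    rw [h1]
    have h2 : ∑ i, (2 * lam i / (1 + lam i)) ^ 2 ≤ ∑ i, 4 * lam i ^ 2 := by
      refine Finset.sum_le_sum fun i _ => ?_
      have hl := hlam i
      have h3 : 2 * lam i / (1 + lam i) ≤ 2 * lam i := by
        rw [div_le_iff₀ (by positivity)]; nlinarith
      calc (2 * lam i / (1 + lam i)) ^ 2 ≤ (2 * lam i) ^ 2 := pow_le_pow_left₀ (hdw i) h3 2
        _ = _ := by ring
    rw [← Finset.mul_sum, ← hcrs'] at h2
    refine h2.trans ?_
    have h4 := mul_le_mul_of_nonneg_left hcrs (by norm_num : (0 : ℝ) ≤ 4)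
    refine h4.trans (le_of_eq ?_)
    rw [mul_pow, Real.sq_sqrt hEn]; ring

end Helper61.HT
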