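import Pool.Agent.Helper61.HT.StE
import Pool.Agent.Helper61.HT.Ip

/-!
# Project HT: module D (assembly of part D)
-/

namespace Helper61.HT

open scoped ComplexOrder
open Finset

section gram

variable {N : Type} [CStarAlgebra N] [PartialOrder N] [StarOrderedRing N] {τ : N →ₗ[ℂ] ℂ}

omit [PartialOrder N] [StarOrderedRing N] in
private lemma gram_psd_D (hτ : Trc τ) {J : Type} [Fintype J] (y : J → N) :
    (Matrix.of fun i j => τ (star (y i) * y j) : Matrix J J ℂ).PosSemidef := by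
  classical
  refine Matrix.PosSemidef.of_dotProduct_mulVec_nonneg ?_ ?_
  · ext i j
    rw [Matrix.conjTranspose_apply, Matrix.of_apply, Matrix.of_apply]
    have h := map_star' hτ (star (y j) * y i)
    rw [star_mul, star_star] at h
    rw [h]; rfl
  · intro x
    have h1 : star x ⬝ᵥ ((Matrix.of fun i j => τ (star (y i) * y j) : Matrix J J ℂ).mulVec x) =
        τ (star (∑ i, x i • y i) * ∑ j, x j • y j) := by
      rw [star_sum, Finset.sum_mul_sum, map_sum]
      simp only [dotProduct, Matrix.mulVec, Matrix.of_apply, Pi.star_apply, map_sum]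
      refine Finset.sum_congr rfl fun i _ => ?_
      rw [Finset.mul_sum]
      refine Finset.sum_congr rfl fun j _ => ?_
      rw [star_smul, smul_mul_smul_comm, map_smul, smul_eq_mul]
      ring
    rw [h1]
    exact hτ.nonneg _

open scoped MatrixOrder in
private lemma psd_fac_D {J : Type} [Fintype J] {A : Matrix J J ℂ} (hA : A.PosSemidef) :
    ∃ B : Matrix J J ℂ, A = B.conjTranspose * B := by
  classical
  obtain ⟨X, hX, -, rfl⟩ :=
    CFC.exists_sqrt_of_isSelfAdjoint_of_quasispectrumRestricts hA.isHermitian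
      (QuasispectrumRestricts.nnreal_of_nonneg hA.nonneg)
  exact ⟨X, by rw [← Matrix.star_eq_conjTranspose, hX.star_eq]⟩

/-- A Gram matrix gives a nonnegative density. -/
private lemma gram_pos_D (hτ : Trc τ) {J : Type} [Fintype J] (y w : J → N) :
    0 ≤ ∑ i, ∑ j, τ (star (y i) * y j) • (w i * star (w j)) := by
  classical
  obtain ⟨B, hB⟩ := psd_fac_D (gram_psd_D hτ y)
  have h1 : ∀ i j, τ (star (y i) * y j) = ∑ l, star (B l i) * B l j := by
    intro i j
    have := congrFun (congrFun hB i) j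
    rw [Matrix.of_apply, Matrix.mul_apply] at this
    rw [this]
    rfl
  have h2 : ∑ i, ∑ j, τ (star (y i) * y j) • (w i * star (w j)) =
      ∑ l, (∑ i, star (B l i) • w i) * star (∑ j, star (B l j) • w j) := by
    have h3 : ∀ l, (∑ i, star (B l i) • w i) * star (∑ j, star (B l j) • w j) =
        ∑ i, ∑ j, (star (B l i) * B l j) • (w i * star (w j)) := by
      intro l
      rw [star_sum, Finset.sum_mul_sum]
      refine Finset.sum_congr rfl fun i _ => Finset.sum_congr rfl fun j _ => ?_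
      rw [star_smul, star_star, smul_mul_smul_comm]
    rw [Finset.sum_congr rfl fun l _ => h3 l]
    symm
    rw [Finset.sum_comm]
    refine Finset.sum_congr rfl fun i _ => ?_
    rw [Finset.sum_comm]
    refine Finset.sum_congr rfl fun j _ => ?_
    rw [h1, Finset.sum_smul]
  rw [h2]
  exact Finset.sum_nonneg fun l _ => nonneg_mul_star _

/-- `ρ(D_{Xw}²) ≤ X ρ(D_w²) X*` for a contraction `X`. -/
private lemma dens_le_D (hτ : Trc τ) {J : Type} [Fintype J] (w : J → N) (X : N) (hX : ‖X‖ ≤ 1) :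
    ∑ i, ∑ j, τ (star (X * w i) * (X * w j)) • ((X * w i) * star (X * w j)) ≤
      X * (∑ i, ∑ j, τ (star (w i) * w j) • (w i * star (w j))) * star X := by
  obtain ⟨Y, hY0, hY⟩ := exists_sqrt (sub_nonneg.2 (star_mul_le_one hX))
  have h0 := gram_pos_D hτ (fun i => Y * w i) w
  have h1 : ∀ i j, τ (star (Y * w i) * (Y * w j)) =
      τ (star (w i) * w j) - τ (star (X * w i) * (X * w j)) := by
    intro i j
    rw [← map_sub]
    congr 1
    calc star (Y * w i) * (Y * w j) = star (w i) * (star Y * Y) * w j := by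
          rw [star_mul]; noncomm_ring
      _ = star (w i) * (1 - star X * X) * w j := by rw [herm_of_nonneg hY0, hY]
      _ = _ := by rw [star_mul]; noncomm_ring
  have h2 := conj_nonneg h0 X
  have h3 : X * (∑ i, ∑ j, τ (star (Y * w i) * (Y * w j)) • (w i * star (w j))) * star X =
      X * (∑ i, ∑ j, τ (star (w i) * w j) • (w i * star (w j))) * star X -
        ∑ i, ∑ j, τ (star (X * w i) * (X * w j)) • ((X * w i) * star (X * w j)) := by
    have h4 : ∑ i, ∑ j, τ (star (Y * w i) * (Y * w j)) • (w i * star (w j)) =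
        ∑ i, ∑ j, τ (star (w i) * w j) • (w i * star (w j)) -
          ∑ i, ∑ j, τ (star (X * w i) * (X * w j)) • (w i * star (w j)) := by
      rw [← Finset.sum_sub_distrib]
      refine Finset.sum_congr rfl fun i _ => ?_
      rw [← Finset.sum_sub_distrib]
      refine Finset.sum_congr rfl fun j _ => ?_
      rw [h1, sub_smul]
    rw [h4, mul_sub, sub_mul]
    congr 1
    rw [Finset.mul_sum, Finset.sum_mul]
    refine Finset.sum_congr rfl fun i _ => ?_
    rw [Finset.mul_sum, Finset.sum_mul]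
    refine Finset.sum_congr rfl fun j _ => ?_
    rw [mul_smul_comm, smul_mul_assoc]
    simp only [star_mul, mul_assoc]
  rw [h3] at h2
  exact sub_nonneg.1 h2

omit [PartialOrder N] [StarOrderedRing N] in
/-- The density of the square in terms of the spectral form. -/
private lemma dens_eq_D (hτ : Trc τ) {J : Type} [Fintype J] (z : J → N) (d : ℕ) (f : Fin d → N)
    (lam : Fin d → ℝ) (hort : ∀ i j, τ (star (f i) * f j) = if i = j then 1 else 0)
    (hK : ∀ x y, ∑ j, τ (star x * z j) * τ (star (z j) * y) =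
      ∑ i, (lam i : ℂ) * (τ (star x * f i) * τ (star (f i) * y))) :
    ∑ i, ∑ j, τ (star (z i) * z j) • (z i * star (z j)) =
      ∑ i, (lam i ^ 2) • (f i * star (f i)) := by
  classical
  have hop : ∀ y, ∑ j, τ (star (z j) * y) • z j =
      ∑ i, ((lam i : ℂ) * τ (star (f i) * y)) • f i := by
    intro y
    rw [← sub_eq_zero]
    apply hτ.faith
    set δ := ∑ j, τ (star (z j) * y) • z j - ∑ i, ((lam i : ℂ) * τ (star (f i) * y)) • f i
    have h1 : ∀ x, τ (star x * δ) = 0 := by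
      intro x
      have := hK x y
      rw [mul_sub, map_sub, Finset.mul_sum, Finset.mul_sum, map_sum, map_sum, sub_eq_zero]
      simp only [mul_smul_comm, map_smul, smul_eq_mul]
      rw [show ∑ j, τ (star (z j) * y) * τ (star x * z j) =
        ∑ j, τ (star x * z j) * τ (star (z j) * y) from
          Finset.sum_congr rfl fun j _ => mul_comm _ _, this]
      refine Finset.sum_congr rfl fun i _ => ?_
      ring
    exact h1 δ
  have hst : ∀ y, ∑ j, τ (star y * z j) • star (z j) =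
      ∑ i, ((lam i : ℂ) * τ (star y * f i)) • star (f i) := by
    intro y
    have h1 := congrArg star (hop y)
    rw [star_sum, star_sum] at h1
    have h2 : ∀ x : N, star (τ (star x * y)) = τ (star y * x) := by
      intro x
      have := map_star' hτ (star x * y)
      rw [star_mul, star_star] at this
      rw [this]; rfl
    calc ∑ j, τ (star y * z j) • star (z j) = ∑ j, star (τ (star (z j) * y) • z j) := by
          refine Finset.sum_congr rfl fun j _ => ?_
          rw [star_smul, h2]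
      _ = ∑ i, star (((lam i : ℂ) * τ (star (f i) * y)) • f i) := h1
      _ = _ := by
          refine Finset.sum_congr rfl fun i _ => ?_
          rw [star_smul, star_mul', h2, RCLike.star_def, Complex.conj_ofReal]
  calc ∑ i, ∑ j, τ (star (z i) * z j) • (z i * star (z j))
      = ∑ j, (∑ i, τ (star (z i) * z j) • z i) * star (z j) := by
        rw [Finset.sum_comm]
        refine Finset.sum_congr rfl fun j _ => ?_
        rw [Finset.sum_mul]
        refine Finset.sum_congr rfl fun i _ => ?_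
        rw [smul_mul_assoc]
    _ = ∑ j, ∑ l, ((lam l : ℂ) * τ (star (f l) * z j)) • (f l * star (z j)) := by
        refine Finset.sum_congr rfl fun j _ => ?_
        rw [hop, Finset.sum_mul]
        refine Finset.sum_congr rfl fun i _ => ?_
        rw [smul_mul_assoc]
    _ = ∑ l, (lam l : ℂ) • (f l * ∑ j, τ (star (f l) * z j) • star (z j)) := by
        rw [Finset.sum_comm]
        refine Finset.sum_congr rfl fun l _ => ?_
        rw [Finset.mul_sum, Finset.smul_sum]
        refine Finset.sum_congr rfl fun j _ => ?_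
        rw [mul_smul_comm, smul_smul]
    _ = ∑ l, (lam l : ℂ) • (f l * ((lam l : ℂ) • star (f l))) := by
        refine Finset.sum_congr rfl fun l _ => ?_
        rw [hst]
        congr 2
        rw [Finset.sum_eq_single l]
        · rw [hort, if_pos rfl, mul_one]
        · intro i _ hil
          rw [hort, if_neg (Ne.symm hil), mul_zero, zero_smul]
        · intro h; exact absurd (Finset.mem_univ l) h
    _ = _ := by
        refine Finset.sum_congr rfl fun l _ => ?_
        rw [mul_smul_comm, smul_smul]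
        have : (lam l : ℂ) * (lam l : ℂ) = ((lam l ^ 2 : ℝ) : ℂ) := by push_cast; ring
        rw [this]
        exact algebraMap_smul ℂ (lam l ^ 2 : ℝ) (f l * star (f l))

end gram

section hilb

variable {H : Type} [NormedAddCommGroup H] [InnerProductSpace ℂ H]

private lemma crs_diag_D {J : Type} [Fintype J] (z : J → H) (d : ℕ) (ev : Fin d → H)
    (lam : Fin d → ℝ)
    (hK : ∀ x y, ∑ j, inner ℂ x (z j) * inner ℂ (z j) y =
      ∑ i, (lam i : ℂ) * (inner ℂ x (ev i) * inner ℂ (ev i) y)) (y : H) :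
    ∑ j, ‖inner ℂ (z j) y‖ ^ 2 = ∑ i, lam i * ‖inner ℂ (ev i) y‖ ^ 2 := by
  have h := hK y y
  have h1 : ∀ a b : H, inner ℂ b a * inner ℂ a b = ((‖(inner ℂ a b : ℂ)‖ ^ 2 : ℝ) : ℂ) := by
    intro a b
    rw [← inner_conj_symm b a, mul_comm, mul_comm]
    rw [Complex.conj_mul']
    push_cast; rfl
  simp only [h1] at h
  exact_mod_cast h

private lemma crs_unit_D {J : Type} [Fintype J] (z : J → H) (d : ℕ) (ev : Fin d → H)
    (lam : Fin d → ℝ)
    (hK : ∀ x y, ∑ j, inner ℂ x (z j) * inner ℂ (z j) y =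
      ∑ i, (lam i : ℂ) * (inner ℂ x (ev i) * inner ℂ (ev i) y)) (U U' : H →ₗ[ℂ] H)
    (hU : ∀ x y, inner ℂ (U' x) y = inner ℂ x (U y)) :
    crs z (U ∘ z) = ∑ i, ∑ j, lam i * lam j * ‖inner ℂ (ev i) (U (ev j))‖ ^ 2 := by
  unfold crs
  rw [Finset.sum_comm]
  calc ∑ j, ∑ i, ‖inner ℂ (z i) ((U ∘ z) j)‖ ^ 2
      = ∑ j, ∑ l, lam l * ‖inner ℂ (ev l) (U (z j))‖ ^ 2 := by
        refine Finset.sum_congr rfl fun j _ => ?_
        exact crs_diag_D z d ev lam hK _
    _ = ∑ l, lam l * ∑ j, ‖inner ℂ (z j) (U' (ev l))‖ ^ 2 := by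
        rw [Finset.sum_comm]
        refine Finset.sum_congr rfl fun l _ => ?_
        rw [Finset.mul_sum]
        refine Finset.sum_congr rfl fun j _ => ?_
        rw [← hU, norm_inner_symm]
    _ = _ := by
        refine Finset.sum_congr rfl fun l _ => ?_
        rw [crs_diag_D z d ev lam hK, Finset.mul_sum]
        refine Finset.sum_congr rfl fun j _ => ?_
        rw [norm_inner_symm, hU]
        ring

end hilb

section trans

variable {N : Type} [CStarAlgebra N] [PartialOrder N] [StarOrderedRing N] {τ : N →ₗ[ℂ] ℂ}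
  {H : Type} [NormedAddCommGroup H] [InnerProductSpace ℂ H]

/-- Left multiplication on `H`. -/
private noncomputable def LL (e : N ≃ₗ[ℂ] H) (c : N) : H →ₗ[ℂ] H :=
  e.toLinearMap ∘ₗ (LinearMap.mulLeft ℂ c) ∘ₗ e.symm.toLinearMap

omit [PartialOrder N] [StarOrderedRing N] in
private lemma LL_apply (e : N ≃ₗ[ℂ] H) (c x : N) : LL e c (e x) = e (c * x) := by
  simp [LL]

omit [PartialOrder N] [StarOrderedRing N] in
private lemma LL_inner (e : N ≃ₗ[ℂ] H) (hin : ∀ x y, inner ℂ (e x) (e y) = τ (star x * y))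
    (c : N) (x y : H) : inner ℂ (LL e (star c) x) y = inner ℂ x (LL e c y) := by
  obtain ⟨a, rfl⟩ := e.surjective x
  obtain ⟨b, rfl⟩ := e.surjective y
  rw [LL_apply, LL_apply, hin, hin, star_mul, star_star, mul_assoc]

private lemma LL_norm (hτ : Trc τ) (e : N ≃ₗ[ℂ] H) (hnm : ∀ x, ‖e x‖ ^ 2 = hs τ x) (c : N)
    (hc : ‖c‖ ≤ 1) (x : H) : ‖LL e c x‖ ≤ ‖x‖ := by
  obtain ⟨a, rfl⟩ := e.surjective x
  rw [LL_apply]
  have h : ‖e (c * a)‖ ^ 2 ≤ ‖e a‖ ^ 2 := by rw [hnm, hnm]; exact hs_mul_left_le hτ hc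
  exact (pow_le_pow_iff_left₀ (norm_nonneg _) (norm_nonneg _) (by norm_num)).1 h

private lemma LL_unit (e : N ≃ₗ[ℂ] H) (hnm : ∀ x, ‖e x‖ ^ 2 = hs τ x) (c : N)
    (hc : Un c) (x : H) : ‖LL e c x‖ = ‖x‖ := by
  obtain ⟨a, rfl⟩ := e.surjective x
  rw [LL_apply]
  have h : ‖e (c * a)‖ ^ 2 = ‖e a‖ ^ 2 := by rw [hnm, hnm]; exact hs_unit_mul hc a
  exact (pow_left_inj₀ (norm_nonneg _) (norm_nonneg _) (by norm_num)).1 h

omit [PartialOrder N] [StarOrderedRing N] in
private lemma hsf_crs (e : N ≃ₗ[ℂ] H) (hin : ∀ x y, inner ℂ (e x) (e y) = τ (star x * y))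
    {J : Type} [Fintype J] (v : J → N) : hsf τ v = crs (e ∘ v) (e ∘ v) := by
  simp [hsf, crs, hin]

omit [PartialOrder N] [StarOrderedRing N] in
private lemma crt_crs (e : N ≃ₗ[ℂ] H) (hin : ∀ x y, inner ℂ (e x) (e y) = τ (star x * y))
    {J K : Type} [Fintype J] [Fintype K] (v : J → N) (w : K → N) :
    crt τ v w = crs (e ∘ v) (e ∘ w) := by
  simp [crt, crs, hin]

omit [PartialOrder N] [StarOrderedRing N] in
private lemma dfm_inner (e : N ≃ₗ[ℂ] H) (hin : ∀ x y, inner ℂ (e x) (e y) = τ (star x * y))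
    {J : Type} [Fintype J] (v : J → N) (x : N) :
    dfm τ v x = ∑ j, ‖inner ℂ (e (v j)) (e x)‖ ^ 2 := by
  simp [dfm, hin]

private lemma crs_comm {J K : Type} [Fintype J] [Fintype K] (v : J → H) (w : K → H) :
    crs v w = crs w v := by
  unfold crs
  rw [Finset.sum_comm]
  refine Finset.sum_congr rfl fun i _ => Finset.sum_congr rfl fun j _ => ?_
  rw [norm_inner_symm]

/-- closeness of `v` and `w` -/
private lemma close_D (hF : StFF1) (hτ : Trc τ) (e : N ≃ₗ[ℂ] H)
    (hin : ∀ x y, inner ℂ (e x) (e y) = τ (star x * y)) (hnm : ∀ x, ‖e x‖ ^ 2 = hs τ x)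
    {m m' : ℕ} (v : Fin m → N) (w : Fin m' → N) (G : N) (hG0 : 0 ≤ G) (hG1 : G ≤ 1)
    (_hw : hsf τ w ≤ hsf τ (fun j => G * v j))
    (hcl : hsf τ (fun j => G * v j) + hsf τ w - 2 * crt τ (fun j => G * v j) w ≤
      hsf τ (fun j => G * v j) - hsf τ w) :
    hsf τ (fun j => G * v j) ≤ hsf τ v ∧
      dd (e ∘ v) (e ∘ w) ≤ 2 * (hsf τ v - hsf τ w) := by
  obtain ⟨f1, f2, f3, f4, -⟩ := hF H
  have hGn : ‖G‖ ≤ 1 := norm_le_one_of_nonneg hG0 hG1
  have hcomp : (e ∘ fun j => G * v j) = (LL e G) ∘ (e ∘ v) := by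
    funext j; simp [LL_apply]
  have h4 : crs (LL e G ∘ (e ∘ v)) (LL e G ∘ (e ∘ v)) ≤ crs (e ∘ v) (LL e G ∘ (e ∘ v)) := by
    refine f4 _ _ _ ?_ ?_
    · intro x y
      have := LL_inner e hin G x y
      rwa [herm_of_nonneg hG0] at this
    · intro x
      obtain ⟨a, rfl⟩ := e.surjective x
      rw [LL_apply, hnm, hin, hs_eq_rt]
      have h1 := conj_mono' (le_mul_self_of_le_one hG0 hG1) a
      have h2 := rt_mono hτ h1
      have e1 : star (G * a) * (G * a) = star a * (G * G) * a := by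
        rw [star_mul, herm_of_nonneg hG0]; noncomm_ring
      have e2 : star a * (G * a) = star a * G * a := (mul_assoc _ _ _).symm
      change rt τ (star (G * a) * (G * a)) ≤ rt τ (star a * (G * a))
      rw [e1, e2]
      exact h2
  have h3 : hsf τ (fun j => G * v j) ≤ hsf τ v := by
    rw [hsf_crs e hin, hsf_crs e hin, hcomp]
    exact (f3 _ _ (e ∘ v) (e ∘ v) (LL e G) (LL_norm hτ e hnm G hGn)).1
  refine ⟨h3, ?_⟩
  have hα : dd (e ∘ v) (e ∘ fun j => G * v j) ≤ hsf τ v - hsf τ (fun j => G * v j) := by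
    unfold dd
    rw [hsf_crs e hin, hsf_crs e hin, hcomp]
    linarith
  have hβ : dd (e ∘ fun j => G * v j) (e ∘ w) ≤ hsf τ (fun j => G * v j) - hsf τ w := by
    unfold dd
    rw [← hsf_crs e hin, ← hsf_crs e hin, ← crt_crs e hin]
    exact hcl
  have htri := f2 _ _ _ (e ∘ v) (e ∘ fun j => G * v j) (e ∘ w)
  have hn1 := (f1 _ _ (e ∘ v) (e ∘ fun j => G * v j)).1
  have hn2 := (f1 _ _ (e ∘ fun j => G * v j) (e ∘ w)).1
  have hn3 := (f1 _ _ (e ∘ v) (e ∘ w)).1
  have h5 : dd (e ∘ v) (e ∘ w) ≤ 2 * dd (e ∘ v) (e ∘ fun j => G * v j) +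
      2 * dd (e ∘ fun j => G * v j) (e ∘ w) := by
    have h6 := Real.sq_sqrt hn3
    have h7 := Real.sq_sqrt hn1
    have h8 := Real.sq_sqrt hn2
    have h9 := Real.sqrt_nonneg (dd (e ∘ v) (e ∘ w))
    nlinarith [sq_nonneg (Real.sqrt (dd (e ∘ v) (e ∘ fun j => G * v j)) -
      Real.sqrt (dd (e ∘ fun j => G * v j) (e ∘ w))), mul_self_le_mul_self h9 htri]
  linarith

/-- energy of `z = a h w` -/
private lemma energy_D (hF : StFF1) (hτ : Trc τ) (e : N ≃ₗ[ℂ] H)
    (hin : ∀ x y, inner ℂ (e x) (e y) = τ (star x * y)) (hnm : ∀ x, ‖e x‖ ^ 2 = hs τ x)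
    {m : ℕ} (w : Fin m → N) (a h v : N) (ha0 : 0 ≤ a) (ha1 : a ≤ 1) (hh0 : 0 ≤ h) (hh1 : h ≤ 1)
    (hv : Un v) :
    dd (e ∘ fun j => a * h * w j) (e ∘ fun j => v * (a * h * w j)) ≤
      12 * lhs τ ((a - v * a * star v) * h) w + 12 * lhs τ (h - v * h * star v) w +
        3 * (2 * hsf τ w - 2 * crt τ w (fun j => v * w j)) ∧
    0 ≤ 2 * hsf τ w - 2 * crt τ w (fun j => v * w j) := by
  obtain ⟨f1, f2, f3, f4, f5, -⟩ := hF H
  have han : ‖a‖ ≤ 1 := norm_le_one_of_nonneg ha0 ha1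
  have hhn : ‖h‖ ≤ 1 := norm_le_one_of_nonneg hh0 hh1
  have hvn := norm_unit_le hv
  have hvn' := norm_unit_le hv.star
  have hav : ‖v * a * star v‖ ≤ 1 := by
    refine (norm_mul_le _ _).trans ?_
    have h1 : ‖v * a‖ ≤ 1 := (norm_mul_le _ _).trans (mul_le_one₀ hvn (norm_nonneg _) han)
    exact mul_le_one₀ h1 (norm_nonneg _) hvn'
  have hhv : ‖v * h * star v‖ ≤ 1 := by
    refine (norm_mul_le _ _).trans ?_
    have h1 : ‖v * h‖ ≤ 1 := (norm_mul_le _ _).trans (mul_le_one₀ hvn (norm_nonneg _) hhn)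
    exact mul_le_one₀ h1 (norm_nonneg _) hvn'
  set as := v * a * star v with has
  set hs' := v * h * star v with hhs
  -- the four families
  set W : Fin m → H := e ∘ w with hW
  set V : Fin m → H := e ∘ fun j => v * w j with hV
  have c1 : (e ∘ fun j => a * h * w j) = LL e (a * h) ∘ W := by
    funext j; simp [hW, LL_apply, mul_assoc]
  have c4 : (e ∘ fun j => v * (a * h * w j)) = LL e (as * hs') ∘ V := by
    funext j
    simp only [Function.comp_apply, hV, LL_apply]
    congr 1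
    have : as * hs' * (v * w j) = v * a * (star v * v) * h * (star v * v) * w j := by
      rw [has, hhs]; noncomm_ring
    rw [this, hv.1]; noncomm_ring
  have hmn : ∀ x y : N, ‖x‖ ≤ 1 → ‖y‖ ≤ 1 → ‖x * y‖ ≤ 1 := fun x y hx hy =>
    (norm_mul_le _ _).trans (mul_le_one₀ hx (norm_nonneg _) hy)
  have hlhs : ∀ B C : N, ‖B‖ ≤ 1 → ‖C‖ ≤ 1 → dd (LL e B ∘ W) (LL e C ∘ W) ≤
      4 * lhs τ (B - C) w := by
    intro B C hB hC
    refine (f5 _ W (LL e B) (LL e C) (LL_norm hτ e hnm B hB) (LL_norm hτ e hnm C hC)).trans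
      (le_of_eq ?_)
    unfold lhs
    congr 2
    refine Finset.sum_congr rfl fun i _ => Finset.sum_congr rfl fun j _ => ?_
    simp only [hW, Function.comp_apply, LL_apply, hin, ← map_sub, ← sub_mul]
  have d1 : dd (LL e (a * h) ∘ W) (LL e (as * h) ∘ W) ≤ 4 * lhs τ ((a - as) * h) w := by
    have := hlhs (a * h) (as * h) (hmn _ _ han hhn) (hmn _ _ hav hhn)
    rwa [← sub_mul] at this
  have d2 : dd (LL e (as * h) ∘ W) (LL e (as * hs') ∘ W) ≤ 4 * lhs τ (h - hs') w := by
    have e1 : LL e (as * h) ∘ W = LL e as ∘ (LL e h ∘ W) := by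
      funext j; simp [hW, LL_apply, mul_assoc]
    have e2 : LL e (as * hs') ∘ W = LL e as ∘ (LL e hs' ∘ W) := by
      funext j; simp [hW, LL_apply, mul_assoc]
    rw [e1, e2]
    exact (f3 _ _ _ _ (LL e as) (LL_norm hτ e hnm as hav)).2.trans (hlhs _ _ hhn hhv)
  have d3 : dd (LL e (as * hs') ∘ W) (LL e (as * hs') ∘ V) ≤ dd W V :=
    (f3 _ _ _ _ (LL e (as * hs')) (LL_norm hτ e hnm _ (hmn _ _ hav hhv))).2
  have d4 : dd W V = 2 * hsf τ w - 2 * crt τ w (fun j => v * w j) := by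
    unfold dd
    have e1 : crs V V = crs W W := by
      unfold crs
      refine Finset.sum_congr rfl fun i _ => Finset.sum_congr rfl fun j _ => ?_
      simp only [hV, hW, Function.comp_apply, hin]
      congr 3
      calc star (v * w i) * (v * w j) = star (w i) * (star v * v) * w j := by
            rw [star_mul]; noncomm_ring
        _ = _ := by rw [hv.1, mul_one]
    rw [e1, hW, hV, ← hsf_crs e hin, ← crt_crs e hin]
    ring
  have t1 := f2 _ _ _ (LL e (a * h) ∘ W) (LL e (as * h) ∘ W) (LL e (as * hs') ∘ V)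
  have t2 := f2 _ _ _ (LL e (as * h) ∘ W) (LL e (as * hs') ∘ W) (LL e (as * hs') ∘ V)
  have n1 := (f1 _ _ (LL e (a * h) ∘ W) (LL e (as * h) ∘ W)).1
  have n2 := (f1 _ _ (LL e (as * h) ∘ W) (LL e (as * hs') ∘ W)).1
  have n3 := (f1 _ _ (LL e (as * hs') ∘ W) (LL e (as * hs') ∘ V)).1
  have n4 := (f1 _ _ (LL e (a * h) ∘ W) (LL e (as * hs') ∘ V)).1
  have n5 := (f1 _ _ W V).1
  rw [c1, c4]
  refine ⟨?_, by rw [← d4]; exact n5⟩
  have key : dd (LL e (a * h) ∘ W) (LL e (as * hs') ∘ V) ≤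
      3 * dd (LL e (a * h) ∘ W) (LL e (as * h) ∘ W) +
      3 * dd (LL e (as * h) ∘ W) (LL e (as * hs') ∘ W) +
      3 * dd (LL e (as * hs') ∘ W) (LL e (as * hs') ∘ V) := by
    generalize dd (LL e (a * h) ∘ W) (LL e (as * hs') ∘ V) = D at *
    generalize dd (LL e (a * h) ∘ W) (LL e (as * h) ∘ W) = A at *
    generalize dd (LL e (as * h) ∘ W) (LL e (as * hs') ∘ W) = B at *
    generalize dd (LL e (as * hs') ∘ W) (LL e (as * hs') ∘ V) = C at *
    generalize dd (LL e (as * h) ∘ W) (LL e (as * hs') ∘ V) = E at *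
    have q1 := Real.sq_sqrt n1
    have q2 := Real.sq_sqrt n2
    have q3 := Real.sq_sqrt n3
    have q4 := Real.sq_sqrt n4
    have p1 := Real.sqrt_nonneg A
    have p2 := Real.sqrt_nonneg B
    have p3 := Real.sqrt_nonneg C
    have p4 := Real.sqrt_nonneg D
    have t3 : Real.sqrt D ≤ Real.sqrt A + Real.sqrt B + Real.sqrt C := by linarith
    have t4 := mul_self_le_mul_self p4 t3
    nlinarith [sq_nonneg (Real.sqrt A - Real.sqrt B), sq_nonneg (Real.sqrt A - Real.sqrt C),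
      sq_nonneg (Real.sqrt B - Real.sqrt C)]
  rw [← d4]
  linarith

private lemma sum_equivFin_D {d : ℕ} (I : Finset (Fin d)) {M : Type} [AddCommMonoid M]
    (g : Fin d → M) : ∑ i : Fin I.card, g (I.equivFin.symm i : Fin d) = ∑ i ∈ I, g i :=
  (Equiv.sum_comp I.equivFin.symm (fun x : {x // x ∈ I} => g x)).trans
    (Finset.sum_coe_sort I g)

/-- from the small energy of `z = a h w` to the subspace -/
private lemma core_D (hF1 : StFF1) (hF2 : StFF2) (hCo : StConn) (hτ : Trc τ) (e : N ≃ₗ[ℂ] H)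
    (hin : ∀ x y, inner ℂ (e x) (e y) = τ (star x * y)) (hnm : ∀ x, ‖e x‖ ^ 2 = hs τ x)
    {ι : Type} (F : Finset ι) (u : ι → N) (hu : ∀ s, Un (u s)) {m m' : ℕ} (v : Fin m → N)
    (w : Fin m' → N) (a h : N) (Φ τ₀ κ : ℝ) (hΦ : 0 < Φ) (hτ0 : 0 < τ₀) (hκ : 0 ≤ κ)
    (ha0 : 0 ≤ a) (ha1 : a ≤ 1) (hh0 : 0 ≤ h) (hh1 : h ≤ 1)
    (hwΦ : hsf τ w ≤ Φ) (hdw : ∀ x, dfm τ w x ≤ 2 * hs τ x)
    (hvw : dd (e ∘ v) (e ∘ w) ≤ 2 / 10 ^ 46 * Φ)
    (hdens : h * (∑ i, ∑ j, τ (star (w i) * w j) • (w i * star (w j))) * h ≤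
      (10 ^ 8 * Φ / (4 * τ₀)) • (1 : N))
    (hen : ∑ s ∈ F, dd (e ∘ fun j => a * h * w j) (e ∘ fun j => u s * (a * h * w j)) ≤ κ * Φ)
    (hNS : ∀ (m' : ℕ) (E : Fin m' → N),
      (∀ x, dfm τ (fun j => a * h * v j) x ≤ aa * hs τ x + dfm τ E x) →
      1 / (3 * 10 ^ 44) * Φ ≤ hsf τ E) :
    ∃ (d : ℕ) (x : Fin d → N), 0 < d ∧
      (∀ i j, τ (star (x i) * x j) = if i = j then 1 else 0) ∧
      1 / (48 * 10 ^ 44) * Φ ≤ d ∧
      ∑ j, x j * star (x j) ≤ (10 ^ 8 * Φ / (aa ^ 2 * τ₀)) • a ∧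
      ∑ s ∈ F, ((d : ℝ) - ∑ i, ∑ j, ‖τ (star (x i) * u s * x j)‖ ^ 2) ≤
        2 * Real.sqrt F.card / aa ^ 2 * (Real.sqrt κ * Φ) := by
  classical
  have haa : (0 : ℝ) < aa := by unfold aa; positivity
  obtain ⟨f1, f2, f3, f4, f5, -⟩ := hF1 H
  have han : ‖a‖ ≤ 1 := norm_le_one_of_nonneg ha0 ha1
  have hhn : ‖h‖ ≤ 1 := norm_le_one_of_nonneg hh0 hh1
  have hahn : ‖a * h‖ ≤ 1 := (norm_mul_le _ _).trans (mul_le_one₀ han (norm_nonneg _) hhn)
  set z : Fin m' → N := fun j => a * h * w j with hz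
  obtain ⟨d, ev, lam, hort, hlam, -, hK, hsum⟩ := (hF2 H).1 (Fin m') (e ∘ z)
  set f : Fin d → N := fun i => e.symm (ev i) with hf
  have hef : ∀ i, e (f i) = ev i := fun i => by simp [hf]
  have hoi : ∀ i j, inner ℂ (ev i) (ev j) = if i = j then (1 : ℂ) else 0 :=
    orthonormal_iff_ite.1 hort
  have hortN : ∀ i j, τ (star (f i) * f j) = if i = j then 1 else 0 := by
    intro i j
    rw [← hin, hef, hef, hoi]
  have hKN : ∀ x y, ∑ j, τ (star x * z j) * τ (star (z j) * y) =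
      ∑ i, (lam i : ℂ) * (τ (star x * f i) * τ (star (f i) * y)) := by
    intro x y
    have := hK (e x) (e y)
    simpa only [Function.comp_apply, hin, ← hef] using this
  have hLz : e ∘ z = LL e (a * h) ∘ (e ∘ w) := by
    funext j; simp [hz, LL_apply, mul_assoc]
  have hLv : (e ∘ fun j => a * h * v j) = LL e (a * h) ∘ (e ∘ v) := by
    funext j; simp [LL_apply, mul_assoc]
  -- sum of squares
  have hsumΦ : ∑ i, lam i ^ 2 ≤ Φ := by
    rw [← hsum, hLz]
    refine (f3 _ _ (e ∘ w) (e ∘ w) (LL e (a * h)) (LL_norm hτ e hnm _ hahn)).1.trans ?_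
    rw [← hsf_crs e hin]
    exact hwΦ
  -- lam ≤ 2
  have hdz : ∀ x, dfm τ z x ≤ 2 * hs τ x := by
    intro x
    have e1 : dfm τ z x = dfm τ w (h * a * x) := by
      unfold dfm
      refine Finset.sum_congr rfl fun j _ => ?_
      congr 3
      simp only [hz, star_mul, herm_of_nonneg ha0, herm_of_nonneg hh0]
      noncomm_ring
    rw [e1]
    refine (hdw _).trans ?_
    have : hs τ (h * a * x) ≤ hs τ x := by
      rw [mul_assoc]
      exact (hs_mul_left_le hτ hhn).trans (hs_mul_left_le hτ han)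
    linarith
  have hlam2 : ∀ i, lam i ≤ 2 := by
    intro i
    have h1 := crs_diag_D (e ∘ z) d ev lam hK (ev i)
    have h2 : ∑ l, lam l * ‖inner ℂ (ev l) (ev i)‖ ^ 2 = lam i := by
      rw [Finset.sum_eq_single i]
      · rw [hoi, if_pos rfl]; simp
      · intro l _ hl
        rw [hoi, if_neg hl]; simp
      · intro h; exact absurd (Finset.mem_univ i) h
    have h3 := hdz (f i)
    rw [dfm_inner e hin] at h3
    simp only [Function.comp_apply, ← hef] at h1 h2
    rw [h1, h2, hs_eq_rt] at h3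
    unfold rt at h3
    rw [hortN, if_pos rfl] at h3
    simpa using h3
  -- the second family
  obtain ⟨d', z', -, hz'1, hz'2⟩ := (hF2 H).2 (Fin m) (Fin m') (e ∘ fun j => a * h * v j) (e ∘ z)
  have hz'3 : crs z' z' ≤ 2 / 10 ^ 46 * Φ := by
    refine hz'2.trans (le_trans ?_ hvw)
    rw [hLv, hLz]
    exact (f3 _ _ (e ∘ v) (e ∘ w) (LL e (a * h)) (LL_norm hτ e hnm _ hahn)).2
  set c : Fin d → ℝ := fun i => max (lam i - aa) 0 with hc
  have hc0 : ∀ i, 0 ≤ c i := fun i => le_max_right _ _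
  set E1 : Fin d → N := fun i => Real.sqrt (c i) • f i with hE1
  set E2 : Fin d' → N := fun i => e.symm (z' i) with hE2
  have hE1n : ∀ i x, ‖τ (star (E1 i) * x)‖ ^ 2 = c i * ‖inner ℂ (ev i) (e x)‖ ^ 2 := by
    intro i x
    simp only [hE1]
    rw [star_smul, star_trivial, smul_mul_assoc, map_smul_real, norm_mul, mul_pow,
      Complex.norm_real, Real.norm_of_nonneg (Real.sqrt_nonneg _), Real.sq_sqrt (hc0 i),
      ← hef, hin]
  have hE2n : ∀ i x, ‖τ (star (E2 i) * x)‖ ^ 2 = ‖inner ℂ (z' i) (e x)‖ ^ 2 := by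
    intro i x
    rw [← hin]; simp [hE2]
  have hNS1 := hNS (d + d') (Fin.append E1 E2) (by
    intro x
    have h1 : dfm τ (Fin.append E1 E2) x =
        ∑ i, c i * ‖inner ℂ (ev i) (e x)‖ ^ 2 + ∑ i, ‖inner ℂ (z' i) (e x)‖ ^ 2 := by
      unfold dfm
      rw [Fin.sum_univ_add]
      simp only [Fin.append_left, Fin.append_right, hE1n, hE2n]
    rw [h1, dfm_inner e hin]
    have h2 := hz'1 (e x)
    have h3 := crs_diag_D (e ∘ z) d ev lam hK (e x)
    have h4 : ∑ i, ‖inner ℂ (ev i) (e x)‖ ^ 2 ≤ hs τ x := by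
      rw [← hnm]
      exact hort.sum_inner_products_le (e x) (s := Finset.univ)
    have h5 : ∑ i, lam i * ‖inner ℂ (ev i) (e x)‖ ^ 2 ≤
        aa * ∑ i, ‖inner ℂ (ev i) (e x)‖ ^ 2 + ∑ i, c i * ‖inner ℂ (ev i) (e x)‖ ^ 2 := by
      rw [Finset.mul_sum, ← Finset.sum_add_distrib]
      refine Finset.sum_le_sum fun i _ => ?_
      have : lam i - aa ≤ c i := le_max_left _ _
      have h6 : 0 ≤ ‖(inner ℂ (ev i) (e x) : ℂ)‖ ^ 2 := by positivity
      nlinarith
    have h6 : aa * ∑ i, ‖inner ℂ (ev i) (e x)‖ ^ 2 ≤ aa * hs τ x :=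
      mul_le_mul_of_nonneg_left h4 haa.le
    simp only [Function.comp_apply] at h2 h3
    linarith)
  -- the Hilbert-Schmidt norm of the competitor
  set S : ℝ := ∑ i, c i ^ 2 with hS
  have hSE : hsf τ (Fin.append E1 E2) ≤ 2 * S + 2 * crs z' z' := by
    have e1 : hsf τ (Fin.append E1 E2) = crs (e ∘ E1) (e ∘ E1) + crs (e ∘ E1) z' +
        (crs z' (e ∘ E1) + crs z' z') := by
      unfold hsf crs
      rw [Fin.sum_univ_add]
      simp only [Fin.sum_univ_add, Fin.append_left, Fin.append_right, Finset.sum_add_distrib,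
        Function.comp_apply, ← hin]
      simp [hE2]
    have hE1' : ∀ i j, inner ℂ (ev i) (e (E1 j)) =
        (Real.sqrt (c j) : ℂ) * (if i = j then 1 else 0) := by
      intro i j
      rw [← hef, hin]
      simp only [hE1]
      rw [mul_smul_comm, map_smul_real, hortN]
    have e2 : crs (e ∘ E1) (e ∘ E1) = S := by
      unfold crs
      refine Finset.sum_congr rfl fun i _ => ?_
      simp only [Function.comp_apply, hin, hE1n]
      rw [Finset.sum_eq_single i]
      · rw [hE1', if_pos rfl, mul_one, Complex.norm_real,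
          Real.norm_of_nonneg (Real.sqrt_nonneg _), Real.sq_sqrt (hc0 i)]
        ring
      · intro j _ hj
        rw [hE1', if_neg (Ne.symm hj)]
        simp
      · intro h; exact absurd (Finset.mem_univ i) h
    obtain ⟨-, h2⟩ := f1 _ _ (e ∘ E1) z'
    have h3 : 0 ≤ crs z' z' := by unfold crs; positivity
    have h4 : 0 ≤ S := by rw [hS]; positivity
    rw [e1, e2, crs_comm z' (e ∘ E1)]
    rw [e2] at h2
    have h5 : crs (e ∘ E1) z' ≤ (S + crs z' z') / 2 := by
      by_contra hcon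
      push Not at hcon
      nlinarith [sq_nonneg (S - crs z' z')]
    linarith
  have hSΦ : 1 / (12 * 10 ^ 44) * Φ ≤ S := by
    have h1 := hNS1.trans hSE
    have h2 : 2 * crs z' z' ≤ 4 / 10 ^ 46 * Φ := by linarith
    have h3 : 1 / (3 * 10 ^ 44) * Φ - 4 / 10 ^ 46 * Φ ≤ 2 * S := by linarith
    have h4 : (2 : ℝ) * (1 / (12 * 10 ^ 44)) ≤ 1 / (3 * 10 ^ 44) - 4 / 10 ^ 46 := by norm_num
    nlinarith
  -- the number of large eigenvalues
  have hcard : S ≤ 4 * (({i | aa < lam i} : Finset (Fin d)).card : ℝ) := by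
    rw [hS]
    calc ∑ i, c i ^ 2 ≤ ∑ i, (if aa < lam i then (4 : ℝ) else 0) := by
          refine Finset.sum_le_sum fun i _ => ?_
          split_ifs with hi
          · have h1 : c i ≤ 2 := by
              simp only [hc]
              refine max_le ?_ (by norm_num)
              have := hlam2 i
              linarith
            have := hc0 i
            nlinarith
          · have h1 : c i = 0 := by
              simp only [hc]
              exact max_eq_right (by linarith)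
            rw [h1]; norm_num
      _ = 4 * (({i | aa < lam i} : Finset (Fin d)).card : ℝ) := by
          rw [← Finset.sum_filter, Finset.sum_const, nsmul_eq_mul]
          ring
  have hSpos : 0 < S := lt_of_lt_of_le (by positivity) hSΦ
  set Λ2 : ℝ := ∑ i, lam i ^ 2 with hΛ2
  have hΛpos : 0 < Λ2 := by
    by_contra hcon
    push Not at hcon
    have h1 : ∀ i, lam i = 0 := by
      intro i
      have h2 : lam i ^ 2 ≤ Λ2 :=
        Finset.single_le_sum (f := fun i => lam i ^ 2) (fun j _ => sq_nonneg _)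
          (Finset.mem_univ i)
      have h3 : lam i ^ 2 = 0 := le_antisymm (h2.trans hcon) (sq_nonneg _)
      exact pow_eq_zero_iff (two_ne_zero) |>.1 h3
    have h2 : S = 0 := by
      rw [hS]
      refine Finset.sum_eq_zero fun i _ => ?_
      have : c i = 0 := by
        simp only [hc, h1 i]
        exact max_eq_right (by linarith)
      rw [this]; norm_num
    linarith
  -- Connes' trick
  set Edd : ℝ := ∑ s ∈ F, dd (e ∘ z) (e ∘ fun j => u s * z j) with hEdd
  have hEdd0 : 0 ≤ Edd := Finset.sum_nonneg fun s _ => (f1 _ _ _ _).1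
  set η : ℝ := Real.sqrt (Edd / Λ2) with hη
  have hη0 : 0 ≤ η := Real.sqrt_nonneg _
  have hη2 : η ^ 2 * Λ2 = Edd := by
    rw [hη, Real.sq_sqrt (by positivity)]
    field_simp
  have hdd : ∀ s, dd (e ∘ z) (e ∘ fun j => u s * z j) =
      2 * ∑ i, lam i ^ 2 - 2 * ∑ i, ∑ j, lam i * lam j *
        ‖inner ℂ (ev i) (LL e (u s) (ev j))‖ ^ 2 := by
    intro s
    have e0 : (e ∘ fun j => u s * z j) = LL e (u s) ∘ (e ∘ z) := by
      funext j; simp [LL_apply]
    have e1 : crs (LL e (u s) ∘ (e ∘ z)) (LL e (u s) ∘ (e ∘ z)) = crs (e ∘ z) (e ∘ z) := by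
      rw [← e0]
      unfold crs
      refine Finset.sum_congr rfl fun i _ => Finset.sum_congr rfl fun j _ => ?_
      simp only [Function.comp_apply, hin]
      congr 3
      calc star (u s * z i) * (u s * z j) = star (z i) * (star (u s) * u s) * z j := by
            rw [star_mul]; noncomm_ring
        _ = _ := by rw [(hu s).1, mul_one]
    unfold dd
    rw [e0, e1, hsum, crs_unit_D (e ∘ z) d ev lam hK (LL e (u s)) (LL e (star (u s)))
      (fun x y => LL_inner e hin (u s) x y)]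
    ring
  obtain ⟨t, ht, hfin⟩ := hCo H ι F (fun s => LL e (u s)) d ev lam aa η
    (fun s x => LL_unit e hnm (u s) (hu s) x) hort hlam haa hη0 (by
      rw [← hΛ2, hη2, hEdd]
      exact (Finset.sum_congr rfl fun s _ => (hdd s).symm).le)
  obtain ⟨ht1, ht2⟩ := ht
  set I : Finset (Fin d) := ({i | t < lam i} : Finset (Fin d)) with hI
  have ht0 : 0 < t := by linarith
  have hIcard : (({i | aa < lam i} : Finset (Fin d)).card : ℝ) ≤ I.card := by
    have : ({i | aa < lam i} : Finset (Fin d)) ⊆ I := by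
      intro i hi
      rw [hI, Finset.mem_filter]
      rw [Finset.mem_filter] at hi
      exact ⟨hi.1, lt_of_le_of_lt ht2 hi.2⟩
    exact_mod_cast Finset.card_le_card this
  have hdΦ : 1 / (48 * 10 ^ 44) * Φ ≤ I.card := by
    have h1 : 1 / (12 * 10 ^ 44) * Φ ≤ 4 * (I.card : ℝ) := by linarith
    have h2 : (1 : ℝ) / (48 * 10 ^ 44) * Φ = (1 / (12 * 10 ^ 44) * Φ) / 4 := by ring
    rw [h2]; linarith
  have hdpos : 0 < I.card := by
    have : (0 : ℝ) < I.card := lt_of_lt_of_le (by positivity) hdΦ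
    exact_mod_cast this
  refine ⟨I.card, fun i => f (I.equivFin.symm i : Fin d), hdpos, ?_, hdΦ, ?_, ?_⟩
  · intro i j
    rw [hortN]
    by_cases hij : i = j
    · rw [if_pos hij, if_pos (by rw [hij])]
    · rw [if_neg hij, if_neg]
      intro h
      exact hij (I.equivFin.symm.injective (Subtype.ext h))
  · -- the density
    rw [sum_equivFin_D I (fun i => f i * star (f i))]
    have h1 : ∑ i ∈ I, f i * star (f i) ≤ (1 / t ^ 2) • ∑ i, (lam i ^ 2) • (f i * star (f i)) := by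
      rw [Finset.smul_sum]
      calc ∑ i ∈ I, f i * star (f i) ≤ ∑ i ∈ I, (1 / t ^ 2) • (lam i ^ 2) • (f i * star (f i)) := by
            refine Finset.sum_le_sum fun i hi => ?_
            rw [hI, Finset.mem_filter] at hi
            rw [smul_smul]
            have h2 : (1 : ℝ) ≤ 1 / t ^ 2 * lam i ^ 2 := by
              rw [one_div, inv_mul_eq_div, le_div_iff₀ (by positivity), one_mul]
              have := hi.2
              nlinarith
            calc f i * star (f i) = (1 : ℝ) • (f i * star (f i)) := (one_smul _ _).symm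
              _ ≤ _ := smul_mono_left h2 (nonneg_mul_star _)
        _ ≤ _ := Finset.sum_le_sum_of_subset_of_nonneg (Finset.subset_univ _)
            (fun i _ _ => smul_nonneg_real (by positivity)
              (smul_nonneg_real (sq_nonneg _) (nonneg_mul_star _)))
    have h2 : ∑ i, (lam i ^ 2) • (f i * star (f i)) ≤ (10 ^ 8 * Φ / (4 * τ₀)) • a := by
      rw [← dens_eq_D hτ z d f lam hortN hKN]
      refine (dens_le_D hτ w (a * h) hahn).trans ?_
      have h3 := conj_mono hdens a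
      have h4 : a * h * (∑ i, ∑ j, τ (star (w i) * w j) • (w i * star (w j))) * star (a * h) =
          a * (h * (∑ i, ∑ j, τ (star (w i) * w j) • (w i * star (w j))) * h) * star a := by
        rw [star_mul, herm_of_nonneg hh0]
        simp only [mul_assoc]
      rw [h4]
      refine h3.trans ?_
      rw [mul_smul_comm, smul_mul_assoc, mul_one, herm_of_nonneg ha0]
      exact smul_mono_real (by positivity) (le_mul_self_of_le_one ha0 ha1)
    refine h1.trans ((smul_mono_real (by positivity) h2).trans ?_)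
    rw [smul_smul]
    refine smul_mono_left ?_ ha0
    have h5 : 1 / t ^ 2 ≤ 4 / aa ^ 2 := by
      rw [div_le_div_iff₀ (by positivity) (by positivity)]
      nlinarith
    calc 1 / t ^ 2 * (10 ^ 8 * Φ / (4 * τ₀)) ≤ 4 / aa ^ 2 * (10 ^ 8 * Φ / (4 * τ₀)) := by gcongr
      _ = 10 ^ 8 * Φ / (aa ^ 2 * τ₀) := by field_simp
  · -- the energy
    have h1 : ∀ s, ∑ i : Fin I.card, ∑ j : Fin I.card,
        ‖τ (star (f (I.equivFin.symm i : Fin d)) * u s * f (I.equivFin.symm j : Fin d))‖ ^ 2 =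
        ∑ i ∈ I, ∑ j ∈ I, ‖inner ℂ (ev i) (LL e (u s) (ev j))‖ ^ 2 := by
      intro s
      rw [sum_equivFin_D I (fun i => ∑ j : Fin I.card,
        ‖τ (star (f i) * u s * f (I.equivFin.symm j : Fin d))‖ ^ 2)]
      refine Finset.sum_congr rfl fun i _ => ?_
      rw [sum_equivFin_D I (fun j => ‖τ (star (f i) * u s * f j)‖ ^ 2)]
      refine Finset.sum_congr rfl fun j _ => ?_
      rw [← hef, ← hef, LL_apply, hin, mul_assoc]
    simp only [h1]
    refine hfin.trans ?_
    rw [← hΛ2]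
    have h2 : η * Λ2 ≤ Real.sqrt κ * Φ := by
      have h3 : (η * Λ2) ^ 2 ≤ (Real.sqrt κ * Φ) ^ 2 := by
        rw [mul_pow, mul_pow, Real.sq_sqrt hκ]
        calc η ^ 2 * Λ2 ^ 2 = (η ^ 2 * Λ2) * Λ2 := by ring
          _ = Edd * Λ2 := by rw [hη2]
          _ ≤ (κ * Φ) * Φ := mul_le_mul hen hsumΦ hΛpos.le (by positivity)
          _ = κ * Φ ^ 2 := by ring
      exact (pow_le_pow_iff_left₀ (by positivity) (by positivity) (by norm_num)).1 h3
    calc 2 * Real.sqrt F.card * η / aa ^ 2 * Λ2 = 2 * Real.sqrt F.card / aa ^ 2 * (η * Λ2) := by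
          ring
      _ ≤ _ := by gcongr

end trans

theorem pD (hF1 : StFF1) (hF2 : StFF2) (hTL : StTL) (hDn : StDn) (hCo : StConn) : StD := by
  have haa : (0 : ℝ) < aa := by unfold aa; positivity
  refine ⟨10 ^ 8 * (48 * 10 ^ 44) / aa ^ 2, by positivity, ?_⟩
  intro ε g hε hg
  have hg0 : (0 : ℝ) < g := by exact_mod_cast hg
  set κ : ℝ := ε ^ 2 * aa ^ 4 / (4 * g * (48 * 10 ^ 44) ^ 2) with hκ
  have hκ0 : 0 < κ := by positivity
  set M : ℝ := 120 * g / κ + 4 * g / ε with hM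
  have hM0 : 0 < M := by positivity
  refine ⟨⌈M ^ 2⌉₊, κ / (6 * 10 ^ 8), by positivity, ?_⟩
  intro k hk N _ _ _ τ ι F u m v G τ₀ hτ hFg hu hG0 hG1 hτ0 hΦ hdf
  have hFne : F.Nonempty := by
    rw [← Finset.card_pos]; omega
  have hFg' : (F.card : ℝ) = g := by exact_mod_cast hFg
  set Φ : ℝ := hsf τ v with hΦd
  obtain ⟨H, i1, i2, e, hin, hnm⟩ := exists_L2 hτ
  obtain ⟨m', w, -, hk2, hk3, hk4, hk5, hk6⟩ :=
    hTL N τ ι F u m (fun j => G * v j) k hτ hFne hu
  obtain ⟨hGv, hcl⟩ := close_D hF1 hτ e hin hnm v w G hG0 hG1 hk3 hk5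
  have hwΦ : hsf τ w ≤ Φ := hk3.trans hGv
  have hGn : ‖G‖ ≤ 1 := norm_le_one_of_nonneg hG0 hG1
  have hdw : ∀ x, dfm τ w x ≤ 2 * hs τ x := by
    refine hk4 fun x => ?_
    have e1 : dfm τ (fun j => G * v j) x = dfm τ v (G * x) := by
      unfold dfm
      refine Finset.sum_congr rfl fun j _ => ?_
      rw [star_mul, herm_of_nonneg hG0, mul_assoc]
    rw [e1]
    have := hs_mul_left_le hτ (x := G) (y := x) hGn
    linarith [hdf (G * x)]
  obtain ⟨h, hh0, hh1, hh2, hh3, hh4, hh5⟩ := hDn N τ m' w Φ τ₀ hτ hΦ hτ0 hwΦ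
  -- r
  set r : ℝ := Real.sqrt (2 * k + 1) with hr
  have hr2 : r ^ 2 = 2 * k + 1 := Real.sq_sqrt (by positivity)
  have hMr : M ≤ r := by
    rw [hr]
    apply Real.le_sqrt_of_sq_le
    have h1 : M ^ 2 ≤ ⌈M ^ 2⌉₊ := Nat.le_ceil _
    have h2 : ((⌈M ^ 2⌉₊ : ℕ) : ℝ) ≤ k := by exact_mod_cast hk
    have h3 : (0 : ℝ) ≤ k := Nat.cast_nonneg k
    linarith
  have hr0 : 0 < r := lt_of_lt_of_le hM0 hMr
  have hr1 : 1 ≤ r := by
    rw [hr]
    apply Real.le_sqrt_of_sq_le
    have h3 : (0 : ℝ) ≤ k := Nat.cast_nonneg k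
    linarith
  have hrκ : 120 * g / κ ≤ r := le_trans (by rw [hM]; have : 0 < 4 * g / ε := by positivity
                                             linarith) hMr
  have hrε : 4 * g / ε ≤ r := le_trans (by rw [hM]; have : 0 < 120 * g / κ := by positivity
                                           linarith) hMr
  -- ν
  set ν : ι → ℝ := fun s => 2 * hsf τ w - 2 * crt τ w (fun j => u s * w j) with hν
  have hν0 : ∀ s, 0 ≤ ν s := fun s =>
    (energy_D hF1 hτ e hin hnm w 0 0 (u s) le_rfl zero_le_one le_rfl zero_le_one (hu s)).2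
  have hνs : ∑ s ∈ F, ν s ≤ 4 * g * Φ / r ^ 2 := by
    have h1 : ∑ s ∈ F, ν s = 2 * ∑ s ∈ F, (hsf τ w - crt τ w (fun j => u s * w j)) := by
      rw [Finset.mul_sum]
      refine Finset.sum_congr rfl fun s _ => ?_
      simp only [hν]; ring
    rw [h1, hr2]
    rw [hFg'] at hk6
    calc 2 * ∑ s ∈ F, (hsf τ w - crt τ w (fun j => u s * w j))
        ≤ 2 * (2 * g * hsf τ (fun j => G * v j) / (2 * k + 1)) := by linarith
      _ ≤ 2 * (2 * g * Φ / (2 * k + 1)) := by gcongr
      _ = 4 * g * Φ / (2 * k + 1) := by ring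
  have hsq : ∑ s ∈ F, Real.sqrt (ν s) ≤ 2 * g * Real.sqrt Φ / r := by
    have h1 : (∑ s ∈ F, Real.sqrt (ν s)) ^ 2 ≤ (2 * g * Real.sqrt Φ / r) ^ 2 := by
      refine (sq_sum_le_card_mul_sum_sq).trans ?_
      simp only [Real.sq_sqrt (hν0 _)]
      rw [hFg', div_pow, mul_pow, Real.sq_sqrt hΦ.le]
      calc g * ∑ s ∈ F, ν s ≤ g * (4 * g * Φ / r ^ 2) := by gcongr
        _ = (2 * g) ^ 2 * Φ / r ^ 2 := by ring
    exact (pow_le_pow_iff_left₀ (Finset.sum_nonneg fun s _ => Real.sqrt_nonneg _)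
      (by positivity) (by norm_num)).1 h1
  have hsw : Real.sqrt (hsf τ w) ≤ Real.sqrt Φ := Real.sqrt_le_sqrt hwΦ
  have hsΦ : Real.sqrt Φ * Real.sqrt Φ = Φ := Real.mul_self_sqrt hΦ.le
  have hterm : ∑ s ∈ F, 2 * Real.sqrt (hsf τ w) * Real.sqrt (ν s) ≤ 4 * g * Φ / r := by
    rw [← Finset.mul_sum]
    calc 2 * Real.sqrt (hsf τ w) * ∑ s ∈ F, Real.sqrt (ν s)
        ≤ 2 * Real.sqrt Φ * (2 * g * Real.sqrt Φ / r) := by
          refine mul_le_mul ?_ hsq (Finset.sum_nonneg fun s _ => Real.sqrt_nonneg _)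
            (by positivity)
          linarith
      _ = 4 * g * (Real.sqrt Φ * Real.sqrt Φ) / r := by ring
      _ = _ := by rw [hsΦ]
  refine ⟨h, hh0, hh1, hh2, ?_, ?_⟩
  · -- energy of h
    unfold En
    calc ∑ s ∈ F, hs τ (u s * h - h * u s)
        ≤ ∑ s ∈ F, τ₀ / (10 ^ 8 * Φ) * (2 * Real.sqrt (hsf τ w) * Real.sqrt (ν s)) :=
          Finset.sum_le_sum fun s _ => (hh5 (u s) (hu s)).1
      _ = τ₀ / (10 ^ 8 * Φ) * ∑ s ∈ F, 2 * Real.sqrt (hsf τ w) * Real.sqrt (ν s) := by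
          rw [Finset.mul_sum]
      _ ≤ τ₀ / (10 ^ 8 * Φ) * (4 * g * Φ / r) := by gcongr
      _ = (4 * g / r) * τ₀ / 10 ^ 8 := by field_simp
      _ ≤ ε * τ₀ := by
          have h1 : 4 * g / r ≤ ε := by
            rw [div_le_iff₀ hr0]
            rw [div_le_iff₀ hε] at hrε
            linarith
          have h2 : (4 * g / r) * τ₀ ≤ ε * τ₀ := by gcongr
          have h3 : 0 ≤ ε * τ₀ := by positivity
          have h4 : (4 * g / r) * τ₀ / 10 ^ 8 ≤ ε * τ₀ / 10 ^ 8 := by gcongr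
          refine h4.trans (div_le_self h3 (by norm_num))
  · intro a ha0 ha1 hEa havh hNS
    have hvw : dd (e ∘ v) (e ∘ w) ≤ 2 / 10 ^ 46 * Φ := by
      rw [hk2] at hcl
      refine hcl.trans ?_
      linarith
    have hen : ∑ s ∈ F, dd (e ∘ fun j => a * h * w j) (e ∘ fun j => u s * (a * h * w j)) ≤
        κ * Φ := by
      have h1 : ∑ s ∈ F, dd (e ∘ fun j => a * h * w j) (e ∘ fun j => u s * (a * h * w j)) ≤
          ∑ s ∈ F, (12 * (10 ^ 8 * Φ / (4 * τ₀) * hs τ (u s * a - a * u s)) +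
            12 * (2 * Real.sqrt (hsf τ w) * Real.sqrt (ν s)) + 3 * ν s) := by
        refine Finset.sum_le_sum fun s _ => ?_
        refine (energy_D hF1 hτ e hin hnm w a h (u s) ha0 ha1 hh0 hh1 (hu s)).1.trans ?_
        have h2 := hh4 (a - u s * a * star (u s))
        rw [← hs_comm_unit hτ (hu s)] at h2
        have h3 := (hh5 (u s) (hu s)).2
        simp only [hν]
        linarith
      refine h1.trans ?_
      have q1 : ∑ s ∈ F, 12 * (10 ^ 8 * Φ / (4 * τ₀) * hs τ (u s * a - a * u s)) =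
          12 * (10 ^ 8 * Φ / (4 * τ₀) * ∑ s ∈ F, hs τ (u s * a - a * u s)) := by
        rw [Finset.mul_sum, Finset.mul_sum]
      have q2 : ∑ s ∈ F, 12 * (2 * Real.sqrt (hsf τ w) * Real.sqrt (ν s)) =
          12 * ∑ s ∈ F, 2 * Real.sqrt (hsf τ w) * Real.sqrt (ν s) := by
        rw [Finset.mul_sum]
      have q3 : ∑ s ∈ F, 3 * ν s = 3 * ∑ s ∈ F, ν s := by
        rw [Finset.mul_sum]
      rw [Finset.sum_add_distrib, Finset.sum_add_distrib, q1, q2, q3]
      have h2 : 10 ^ 8 * Φ / (4 * τ₀) * ∑ s ∈ F, hs τ (u s * a - a * u s) ≤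
          10 ^ 8 * Φ / (4 * τ₀) * (κ / (6 * 10 ^ 8) * τ₀) := by
        have : ∑ s ∈ F, hs τ (u s * a - a * u s) ≤ κ / (6 * 10 ^ 8) * τ₀ := hEa
        gcongr
      have h3 : 10 ^ 8 * Φ / (4 * τ₀) * (κ / (6 * 10 ^ 8) * τ₀) = κ * Φ / 24 := by
        field_simp; norm_num
      have h4 : 4 * g * Φ / r ^ 2 ≤ 4 * g * Φ / r := by
        apply div_le_div_of_nonneg_left (by positivity) hr0
        nlinarith
      have h5 : 60 * g / r ≤ κ / 2 := by
        rw [div_le_iff₀ hr0]
        rw [div_le_iff₀ hκ0] at hrκ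
        linarith
      have h6 : 60 * g / r * Φ ≤ κ / 2 * Φ := by gcongr
      have h7 : 12 * (4 * g * Φ / r) + 3 * (4 * g * Φ / r) = 60 * g / r * Φ := by ring
      linarith
    obtain ⟨d, x, hd0, hx1, hx2, hx3, hx4⟩ := core_D hF1 hF2 hCo hτ e hin hnm F u hu v w a h Φ τ₀
      κ hΦ hτ0 hκ0.le ha0 ha1 hh0 hh1 hwΦ hdw hvw hh3 hen hNS
    refine ⟨d, x, hd0, hx1, ?_, ?_⟩
    · refine hx3.trans (smul_mono_left ?_ ha0)
      have h1 : Φ ≤ 48 * 10 ^ 44 * d := by
        have : Φ = 48 * 10 ^ 44 * (1 / (48 * 10 ^ 44) * Φ) := by ring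
        rw [this]; gcongr
      calc 10 ^ 8 * Φ / (aa ^ 2 * τ₀) ≤ 10 ^ 8 * (48 * 10 ^ 44 * d) / (aa ^ 2 * τ₀) := by gcongr
        _ = _ := by field_simp
    · refine hx4.trans ?_
      rw [hFg']
      have h1 : Φ ≤ 48 * 10 ^ 44 * d := by
        have : Φ = 48 * 10 ^ 44 * (1 / (48 * 10 ^ 44) * Φ) := by ring
        rw [this]; gcongr
      have h2 : Real.sqrt κ = ε * aa ^ 2 / (2 * Real.sqrt g * (48 * 10 ^ 44)) := by
        have q1 : (ε * aa ^ 2 / (2 * Real.sqrt g * (48 * 10 ^ 44))) ^ 2 =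
            ε ^ 2 * aa ^ 4 / (4 * (Real.sqrt g) ^ 2 * (48 * 10 ^ 44) ^ 2) := by ring
        rw [hκ, ← Real.sqrt_sq (show 0 ≤ ε * aa ^ 2 / (2 * Real.sqrt g * (48 * 10 ^ 44)) by
          positivity), q1, Real.sq_sqrt hg0.le]
      have hsg : 0 < Real.sqrt g := Real.sqrt_pos.2 hg0
      calc 2 * Real.sqrt g / aa ^ 2 * (Real.sqrt κ * Φ)
          ≤ 2 * Real.sqrt g / aa ^ 2 * (Real.sqrt κ * (48 * 10 ^ 44 * d)) := by gcongr
        _ = ε * d := by rw [h2]; field_simp

end Helper61.HT
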