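import Pool.Agent.Helper61.HT.StE
import Pool.Agent.Helper61.HT.LibN

/-!
# Project HT, module Div: divisibility of projections in a II_1 factor
-/

set_option linter.unusedSectionVars false

namespace Helper61.HT

open scoped ComplexOrder
open Filter Topology

section

variable {N : Type} [CStarAlgebra N] [PartialOrder N] [StarOrderedRing N] {τ : N →ₗ[ℂ] ℂ}

private lemma dv_lim_unique (hτ : Trc τ) {x : ℕ → N} {y z : N}
    (h1 : Tendsto (fun n => hs τ (x n - y)) atTop (𝓝 0))
    (h2 : Tendsto (fun n => hs τ (x n - z)) atTop (𝓝 0)) : y = z := by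
  have h3 : ∀ n, hs τ (y - z) ≤ 2 * hs τ (x n - y) + 2 * hs τ (x n - z) := by
    intro n
    have := hs_add_le hτ (y - x n) (x n - z)
    rw [hs_sub_comm y (x n)] at this
    simpa using this
  have h4 : Tendsto (fun n => 2 * hs τ (x n - y) + 2 * hs τ (x n - z)) atTop
      (𝓝 (2 * 0 + 2 * 0)) := (h1.const_mul 2).add (h2.const_mul 2)
  have h5 : hs τ (y - z) ≤ 0 := by
    have := ge_of_tendsto' h4 h3
    simpa using this
  exact sub_eq_zero.1 (hs_eq_zero hτ (le_antisymm h5 (hs_nonneg hτ _)))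

/-- For projections `e ≤ q` means `e q = e = q e`. -/
private lemma dv_le {e q : N} (he : Pr e) (hq : Pr q) (h : e ≤ q) : e * q = e ∧ q * e = e :=
  hq.absorb he.nonneg h

/-- Limits of increasing sequences of projections. -/
private lemma dv_limit (hτ : Trc τ) (hc : Cpl τ) {e : ℕ → N} {q : N} (he : ∀ n, Pr (e n))
    (hmono : ∀ n, e n ≤ e (n + 1)) (hq : Pr q) (heq : ∀ n, e n ≤ q) :
    ∃ y : N, Pr y ∧ (∀ n, e n ≤ y) ∧ y ≤ q ∧
      Tendsto (fun n => rt τ (e n)) atTop (𝓝 (rt τ y)) := by
  have hmon : Monotone e := monotone_nat_of_le_succ hmono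
  have hdist : ∀ n m, n ≤ m → hs τ (e m - e n) = rt τ (e m) - rt τ (e n) := by
    intro n m h
    obtain ⟨h1, h2⟩ := dv_le (he n) (he m) (hmon h)
    have h3 : star (e m - e n) * (e m - e n) = e m - e n := by
      rw [star_sub, (he m).1, (he n).1, sub_mul, mul_sub, mul_sub, (he m).2, (he n).2, h1, h2]
      abel
    rw [hs_eq_rt, h3, rt_sub]
  have hrmono : Monotone (fun n => rt τ (e n)) := fun n m h => rt_mono hτ (hmon h)
  have hbd : ∀ n, rt τ (e n) ≤ rt τ q := fun n => rt_mono hτ (heq n)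
  have hconv := tendsto_atTop_ciSup hrmono ⟨rt τ q, by rintro _ ⟨n, rfl⟩; exact hbd n⟩
  set s : ℝ := ⨆ n, rt τ (e n) with hs_def
  have hle : ∀ n, rt τ (e n) ≤ s := fun n =>
    le_ciSup (f := fun n => rt τ (e n)) ⟨rt τ q, by rintro _ ⟨n, rfl⟩; exact hbd n⟩ n
  obtain ⟨y, hy1, hy⟩ := hc e (fun n => (he n).norm_le) (by
    intro ε hε
    have h1 : ∀ᶠ n in atTop, s - ε < rt τ (e n) :=
      hconv.eventually (lt_mem_nhds (by linarith : s - ε < s))
    obtain ⟨n₀, hn₀⟩ := eventually_atTop.1 h1
    refine ⟨n₀, fun m hm n hn => ?_⟩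
    rcases le_total n m with h | h
    · rw [hdist n m h]
      have := hn₀ n hn; have := hle m; linarith
    · rw [hs_sub_comm, hdist m n h]
      have := hn₀ m hm; have := hle n; linarith)
  have hstar : star y = y := by
    refine dv_lim_unique (x := e) hτ ?_ hy
    refine hy.congr fun n => ?_
    rw [← hs_star hτ, star_sub, (he n).1]
  have habs : ∀ n, e n * y = e n := by
    intro n
    have h1 : Tendsto (fun m : ℕ => hs τ ((fun _ : ℕ => e n) m - e n * y)) atTop (𝓝 0) := by
      refine squeeze_zero' (Eventually.of_forall fun m => hs_nonneg hτ _) ?_ hy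
      filter_upwards [eventually_ge_atTop n] with m hm
      have h2 : e n - e n * y = e n * (e m - y) := by
        rw [mul_sub, (dv_le (he n) (he m) (hmon hm)).1]
      rw [h2]
      exact hs_mul_left_le hτ (he n).norm_le
    have h3 : Tendsto (fun m : ℕ => hs τ ((fun _ : ℕ => e n) m - e n)) atTop (𝓝 0) := by
      simp only [sub_self, hs_zero]
      exact tendsto_const_nhds
    exact (dv_lim_unique hτ h3 h1).symm
  have hsq : y * y = y := by
    refine dv_lim_unique (x := e) hτ ?_ hy
    have h1 : ∀ n, hs τ (e n - y * y) ≤ hs τ (e n - y) := by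
      intro n
      have h2 : e n - y * y = (e n - y) * y := by rw [sub_mul, habs n]
      rw [h2]
      exact hs_mul_right_le hτ hy1
    exact squeeze_zero (fun n => hs_nonneg hτ _) h1 hy
  have hyP : Pr y := ⟨hstar, hsq⟩
  refine ⟨y, hyP, fun n => ?_, ?_, ?_⟩
  · refine hyP.le_of_mul (he n) ?_
    have := congrArg star (habs n)
    rwa [star_mul, hstar, (he n).1] at this
  · refine hq.le_of_mul hyP ?_
    have h1 : Tendsto (fun n => hs τ (e n - q * y)) atTop (𝓝 0) := by
      refine squeeze_zero (fun n => hs_nonneg hτ _) (fun n => ?_) hy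
      have h2 : e n - q * y = q * (e n - y) := by
        rw [mul_sub, (dv_le (he n) hq (heq n)).2]
      rw [h2]
      exact hs_mul_left_le hτ hq.norm_le
    exact dv_lim_unique hτ h1 hy
  · have h1 : ∀ n, |rt τ (e n) - rt τ y| ≤ Real.sqrt (hs τ (e n - y)) := by
      intro n
      have h2 := abs_rt_mul_le hτ (e n - y) 1
      rw [mul_one, rt_sub] at h2
      have h3 : hs τ (1 : N) = 1 := by rw [Pr.one.hs, rt_one hτ]
      rwa [h3, Real.sqrt_one, mul_one] at h2
    have h4 : Tendsto (fun n => Real.sqrt (hs τ (e n - y))) atTop (𝓝 0) := by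
      have := (Real.continuous_sqrt.tendsto 0).comp hy
      rwa [Real.sqrt_zero] at this
    have h5 : Tendsto (fun n => |rt τ (e n) - rt τ y|) atTop (𝓝 0) :=
      squeeze_zero (fun n => abs_nonneg _) h1 h4
    have h6 : Tendsto (fun n => rt τ (e n) - rt τ y) atTop (𝓝 0) :=
      (tendsto_zero_iff_abs_tendsto_zero _).2 h5
    have h7 := h6.add_const (rt τ y)
    simpa using h7

/-- If `p` is minimal then `p N p = ℂ p`. -/
private lemma dv_corner (hSpec : StSpec) (hτ : Trc τ) (hc : Cpl τ) {p : N} (hp : Pr p)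
    (hmin : ∀ e : N, Pr e → e ≤ p → e = 0 ∨ e = p) :
    ∀ x : N, ∃ c : ℂ, p * x * p = c • p := by
  -- positive contractions
  have key : ∀ a : N, 0 ≤ a → a ≤ 1 → p * a * p ∈ Submodule.span ℂ {p} := by
    intro a ha ha1
    have hb : 0 ≤ p * a * p := by
      have := conj_nonneg ha p
      rwa [hp.1] at this
    have hb1 : p * a * p ≤ 1 := by
      have := conj_mono ha1 p
      rw [hp.1, mul_one, hp.2] at this
      exact this.trans hp.le_one
    have hcomm : p * (p * a * p) = (p * a * p) * p := by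
      rw [← mul_assoc, ← mul_assoc, hp.2, mul_assoc (p * a), hp.2]
    have hpb : (1 - p) * (p * a * p) = 0 := by
      rw [sub_mul, one_mul, ← mul_assoc, ← mul_assoc, hp.2, sub_self]
    set b := p * a * p with hbdef
    obtain ⟨E, hE⟩ := hSpec N τ hτ hc b hb hb1
    have hEp : ∀ l : ℝ, 0 < l → E l = 0 ∨ E l = p := by
      intro l hl
      have hcE := hE.comm l p hcomm
      refine hmin (E l) (hE.pr l) ?_
      refine hp.le_of_mul (hE.pr l) ?_
      have hcE' : (1 - p) * E l = E l * (1 - p) := by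
        rw [sub_mul, mul_sub, one_mul, mul_one, hcE]
      have h1 : (1 - p) * E l * (1 - p) = (1 - p) * E l := by
        rw [hcE', mul_assoc, hp.one_sub.2]
      have h2 := conj_mono (hE.lo l) (1 - p)
      rw [hp.one_sub.1] at h2
      have h3 : (1 - p) * (E l * b * E l) * (1 - p) = 0 := by
        calc (1 - p) * (E l * b * E l) * (1 - p)
            = ((1 - p) * E l) * b * (E l * (1 - p)) := by noncomm_ring
          _ = E l * ((1 - p) * b) * (E l * (1 - p)) := by rw [hcE']; noncomm_ring
          _ = 0 := by rw [hpb, mul_zero, zero_mul]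
      rw [h3, mul_smul_comm, smul_mul_assoc, h1] at h2
      have h4 : 0 ≤ (1 - p) * E l := by
        rw [← h1]
        have := conj_nonneg (hE.pr l).nonneg (1 - p)
        rwa [hp.one_sub.1] at this
      have h5 : (1 - p) * E l ≤ 0 := by
        have h6 := smul_mono_real (c := l⁻¹) (by positivity) h2
        rwa [smul_smul, inv_mul_cancel₀ hl.ne', one_smul, smul_zero] at h6
      have h7 := le_antisymm h5 h4
      rw [sub_mul, one_mul, sub_eq_zero] at h7
      exact h7.symm
    have hmem : b ∈ closure (Submodule.span ℂ {p} : Set N) := by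
      rw [Metric.mem_closure_iff]
      intro ε hε
      obtain ⟨m, hm⟩ := exists_nat_gt (1 / ε)
      have hm0 : 0 < (m : ℝ) := lt_trans (by positivity) hm
      have hm0' : 0 < m := by exact_mod_cast hm0
      refine ⟨(1 / m : ℝ) • ∑ j ∈ Finset.range m, E (((j : ℝ) + 1) / m), ?_, ?_⟩
      · have h1 : ∑ j ∈ Finset.range m, E (((j : ℝ) + 1) / m) ∈ Submodule.span ℂ {p} := by
          refine Submodule.sum_mem _ fun j _ => ?_
          rcases hEp (((j : ℝ) + 1) / m) (by positivity) with h | h
          · rw [h]; exact Submodule.zero_mem _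
          · rw [h]; exact Submodule.mem_span_singleton_self p
        have h2 : (1 / m : ℝ) • ∑ j ∈ Finset.range m, E (((j : ℝ) + 1) / m) =
            ((1 / m : ℝ) : ℂ) • ∑ j ∈ Finset.range m, E (((j : ℝ) + 1) / m) :=
          (algebraMap_smul ℂ (1 / m : ℝ) _).symm
        rw [h2]
        exact Submodule.smul_mem _ _ h1
      · rw [dist_eq_norm]
        refine (hE.lay m hm0').trans_lt ?_
        rw [div_lt_iff₀ hm0]
        rw [div_lt_iff₀ hε] at hm
        linarith
    have hclosed : IsClosed (Submodule.span ℂ {p} : Set N) :=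
      Submodule.closed_of_finiteDimensional _
    rwa [hclosed.closure_eq] at hmem
  intro x
  have hx : x ∈ Submodule.span ℂ ({y : N | 0 ≤ y} ∩ Metric.closedBall 0 1) := by
    rw [CStarAlgebra.span_nonneg_inter_unitClosedBall]; exact Submodule.mem_top
  have h1 : p * x * p ∈ Submodule.span ℂ {p} := by
    induction hx using Submodule.span_induction with
    | mem y hy =>
      refine key y hy.1 ?_
      have h2 : ‖y‖ ≤ 1 := by
        have := hy.2
        rwa [Metric.mem_closedBall, dist_zero_right] at this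
      exact (CStarAlgebra.norm_le_one_iff_of_nonneg y hy.1).1 h2
    | zero => rw [mul_zero, zero_mul]; exact Submodule.zero_mem _
    | add y z _ _ h h' => rw [mul_add, add_mul]; exact Submodule.add_mem _ h h'
    | smul c y _ h => rw [mul_smul_comm, smul_mul_assoc]; exact Submodule.smul_mem _ _ h
  obtain ⟨c, hc'⟩ := Submodule.mem_span_singleton.1 h1
  exact ⟨c, hc'.symm⟩

/-- A II_1 factor has no minimal projection. -/
private lemma dv_nomin (hSpec : StSpec) (hCmp : StCmp) (h : II1 τ) {p : N} (hp : Pr p)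
    (hp0 : p ≠ 0) : ∃ e : N, Pr e ∧ e ≤ p ∧ e ≠ 0 ∧ e ≠ p := by
  by_contra hcon
  push Not at hcon
  have hmin : ∀ e : N, Pr e → e ≤ p → e = 0 ∨ e = p := by
    intro e he hep
    by_cases h0 : e = 0
    · exact Or.inl h0
    · exact Or.inr (hcon e he hep h0)
  have hτ := h.trc
  have hcorner := dv_corner hSpec hτ h.cpl hp hmin
  have hpp := hp.rt_pos hτ hp0
  -- every projection is a finite sum of copies of `p`
  have hsum : ∀ n : ℕ, ∀ q : N, Pr q → rt τ q < n * rt τ p →
      ∃ l : List N, (∀ v ∈ l, star v * v = p) ∧ q = (l.map fun v => v * star v).sum := by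
    intro n
    induction n with
    | zero =>
      intro q hq h1
      have := hq.rt_nonneg hτ
      rw [Nat.cast_zero, zero_mul] at h1
      linarith
    | succ n ih =>
      intro q hq h1
      rcases lt_or_ge (rt τ q) (rt τ p) with h2 | h2
      · obtain ⟨v, hv1, hv2, hv3⟩ := hCmp N τ h q p hq hp h2.le
        refine ⟨[], by simp, ?_⟩
        rw [List.map_nil, List.sum_nil]
        have h3 : rt τ (v * star v) = rt τ q := by rw [rt_mul_comm hτ, hv1]
        rcases hmin _ hv2 hv3 with h4 | h4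
        · rw [h4, rt_zero] at h3
          by_contra h5
          have := hq.rt_pos hτ h5
          linarith
        · rw [h4] at h3; linarith
      · obtain ⟨v, hv1, hv2, hv3⟩ := hCmp N τ h p q hp hq h2
        have h4 := (dv_le hv2 hq hv3).2
        have h5 : rt τ (v * star v) = rt τ p := by rw [rt_mul_comm hτ, hv1]
        obtain ⟨l, hl1, hl2⟩ := ih (q - v * star v) (hq.sub hv2 h4) (by
          rw [rt_sub, h5]; push_cast at h1; linarith)
        refine ⟨v :: l, ?_, ?_⟩
        · intro w hw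
          rcases List.mem_cons.1 hw with rfl | hw
          · exact hv1
          · exact hl1 w hw
        · rw [List.map_cons, List.sum_cons, ← hl2]; abel
  obtain ⟨n, hn⟩ := exists_nat_gt (1 / rt τ p)
  obtain ⟨l, hl1, hl2⟩ := hsum n 1 Pr.one (by
    rw [rt_one hτ]; rwa [div_lt_iff₀ hpp] at hn)
  -- `N` is spanned by `v w*`
  have hvp : ∀ v ∈ l, v * p = v := by
    intro v hv
    have h1 : hs τ (v * (1 - p)) = 0 := by
      rw [hs_eq_rt, star_mul, hp.one_sub.1]
      have h2 : (1 - p) * star v * (v * (1 - p)) = (1 - p) * (star v * v) * (1 - p) := by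
        noncomm_ring
      rw [h2, hl1 v hv, sub_mul, one_mul, hp.2, sub_self, zero_mul, rt_zero]
    have h2 := hs_eq_zero hτ h1
    rw [mul_sub, mul_one, sub_eq_zero] at h2
    exact h2.symm
  refine h.inf ?_
  let S : Finset N := by
    classical
    exact (l.toFinset ×ˢ l.toFinset).image fun z => z.1 * star z.2
  have htop : Submodule.span ℂ (S : Set N) = ⊤ := by
    rw [eq_top_iff]
    intro x _
    have h1 : x = (l.map fun v => v * star v).sum * x * (l.map fun v => v * star v).sum := by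
      rw [← hl2, one_mul, mul_one]
    have h2 : ∀ v ∈ l, ∀ w ∈ l, v * star v * x * (w * star w) ∈
        Submodule.span ℂ (S : Set N) := by
      intro v hv w hw
      have h3 : v * star v * x * (w * star w) = v * (p * (star v * x * w) * p) * star w := by
        have e1 : star v = p * star v := by
          have := congrArg star (hvp v hv)
          rw [star_mul, hp.1] at this
          exact this.symm
        calc v * star v * x * (w * star w) = v * star v * x * ((w * p) * star w) := by
              rw [hvp w hw]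
          _ = v * (p * star v) * x * ((w * p) * star w) := by rw [← e1]
          _ = _ := by noncomm_ring
      obtain ⟨c, hcc⟩ := hcorner (star v * x * w)
      rw [h3, hcc, mul_smul_comm, smul_mul_assoc, hvp v hv]
      refine Submodule.smul_mem _ _ (Submodule.subset_span ?_)
      simp only [S, Finset.coe_image, Set.mem_image, Finset.mem_coe, Finset.mem_product,
        List.mem_toFinset]
      exact ⟨(v, w), ⟨hv, hw⟩, rfl⟩
    rw [h1, mul_assoc, ← List.sum_map_mul_right]
    refine list_sum_mem ?_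
    intro y hy
    obtain ⟨v, hv, rfl⟩ := List.mem_map.1 hy
    rw [← mul_assoc, ← List.sum_map_mul_left]
    refine list_sum_mem ?_
    intro y hy
    obtain ⟨w, hw, rfl⟩ := List.mem_map.1 hy
    exact h2 v hv w hw
  exact ⟨⟨S, htop⟩⟩

/-- Small subprojections. -/
private lemma dv_small (hSpec : StSpec) (hCmp : StCmp) (h : II1 τ) {p : N} (hp : Pr p)
    (hp0 : p ≠ 0) {δ : ℝ} (hδ : 0 < δ) : ∃ e : N, Pr e ∧ e ≤ p ∧ e ≠ 0 ∧ rt τ e ≤ δ := by
  have hτ := h.trc
  have key : ∀ n : ℕ, ∃ e : N, Pr e ∧ e ≤ p ∧ e ≠ 0 ∧ rt τ e ≤ (1 / 2) ^ n := by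
    intro n
    induction n with
    | zero =>
      refine ⟨p, hp, le_refl p, hp0, ?_⟩
      rw [pow_zero, ← rt_one hτ]
      exact rt_mono hτ hp.le_one
    | succ n ih =>
      obtain ⟨e, he, hep, he0, hen⟩ := ih
      obtain ⟨f, hf, hfe, hf0, hfne⟩ := dv_nomin hSpec hCmp h he he0
      have h1 := (dv_le hf he hfe).2
      have h2 : Pr (e - f) := he.sub hf h1
      have h3 : e - f ≤ e := sub_le_self _ hf.nonneg
      rcases le_total (rt τ f) (rt τ (e - f)) with h4 | h4
      · refine ⟨f, hf, hfe.trans hep, hf0, ?_⟩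
        rw [rt_sub] at h4
        rw [pow_succ]; linarith
      · refine ⟨e - f, h2, h3.trans hep, fun h5 => hfne (sub_eq_zero.1 h5).symm, ?_⟩
        rw [rt_sub] at h4 ⊢
        rw [pow_succ]; linarith
  obtain ⟨n, hn⟩ := exists_pow_lt_of_lt_one hδ (by norm_num : (1 / 2 : ℝ) < 1)
  obtain ⟨e, he, hep, he0, hen⟩ := key n
  exact ⟨e, he, hep, he0, hen.trans hn.le⟩

end

theorem pDiv (hSpec : StSpec) (hCmp : StCmp) : StDiv := by
  intro N _ _ _ τ h p hp t ht htp
  have hτ := h.trc
  -- one greedy step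
  have hstep : ∀ e : N, Pr e → e ≤ p → rt τ e ≤ t → ∃ e' : N, Pr e' ∧ e ≤ e' ∧ e' ≤ p ∧
      rt τ e' ≤ t ∧ ∀ f : N, Pr f → f ≤ p - e → rt τ f ≤ t - rt τ e →
        rt τ f ≤ 2 * (rt τ e' - rt τ e) := by
    intro e he hep het
    let A : Set ℝ := {r | ∃ f : N, Pr f ∧ f ≤ p - e ∧ rt τ f ≤ t - rt τ e ∧ rt τ f = r}
    have hA0 : (0 : ℝ) ∈ A := ⟨0, Pr.zero, sub_nonneg.2 hep, by rw [rt_zero]; linarith, rt_zero⟩
    have hAb : BddAbove A := ⟨t - rt τ e, by rintro _ ⟨f, -, -, h1, rfl⟩; exact h1⟩
    have hpe : Pr (p - e) := hp.sub he (dv_le he hp hep).2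
    obtain ⟨f, hf, hfp, hft, hfs⟩ : ∃ f : N, Pr f ∧ f ≤ p - e ∧ rt τ f ≤ t - rt τ e ∧
        sSup A ≤ 2 * rt τ f := by
      rcases le_or_gt (sSup A) 0 with h0 | h0
      · exact ⟨0, Pr.zero, sub_nonneg.2 hep, by rw [rt_zero]; linarith, by
          rw [rt_zero]; linarith⟩
      · obtain ⟨_, ⟨f, hf, hfp, hft, rfl⟩, h1⟩ := exists_lt_of_lt_csSup ⟨0, hA0⟩
          (by linarith : sSup A / 2 < sSup A)
        exact ⟨f, hf, hfp, hft, by linarith⟩
    have h1 : f * (p - e) = f ∧ (p - e) * f = f := dv_le hf hpe hfp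
    have hef : e * f = 0 := by
      rw [← h1.2, ← mul_assoc, mul_sub, (dv_le he hp hep).1, he.2, sub_self, zero_mul]
    have hfe : f * e = 0 := by
      have := congrArg star hef
      rwa [star_mul, hf.1, he.1, star_zero] at this
    refine ⟨e + f, ⟨by rw [star_add, he.1, hf.1], ?_⟩, le_add_of_nonneg_right hf.nonneg, ?_, ?_,
      ?_⟩
    · rw [add_mul, mul_add, mul_add, he.2, hf.2, hef, hfe]; abel
    · have := add_le_add_right hfp e
      simpa using this
    · rw [rt_add]; linarith
    · intro f' hf' hfp' hft'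
      have h2 : rt τ f' ≤ sSup A := le_csSup hAb ⟨f', hf', hfp', hft', rfl⟩
      rw [rt_add]; linarith
  choose! nx hnx using hstep
  let e : ℕ → N := fun n => Nat.rec 0 (fun _ x => nx x) n
  have he0 : e 0 = 0 := rfl
  have hes : ∀ n, e (n + 1) = nx (e n) := fun n => rfl
  have hinv : ∀ n, Pr (e n) ∧ e n ≤ p ∧ rt τ (e n) ≤ t := by
    intro n
    induction n with
    | zero => exact ⟨by rw [he0]; exact Pr.zero, by rw [he0]; exact hp.nonneg, by
        rw [he0, rt_zero]; exact ht⟩
    | succ n ih =>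
      obtain ⟨h1, h2, h3, h4, -⟩ := hnx (e n) ih.1 ih.2.1 ih.2.2
      rw [hes]
      exact ⟨h1, h3, h4⟩
  have hst := fun n => hnx (e n) (hinv n).1 (hinv n).2.1 (hinv n).2.2
  obtain ⟨y, hy, hey, hyp, hlim⟩ := dv_limit hτ h.cpl (fun n => (hinv n).1)
    (fun n => by rw [hes]; exact (hst n).2.1) hp (fun n => (hinv n).2.1)
  have hyt : rt τ y ≤ t := le_of_tendsto' hlim fun n => (hinv n).2.2
  refine ⟨y, hy, hyp, le_antisymm hyt ?_⟩
  by_contra hlt
  rw [not_le] at hlt
  have hpy : Pr (p - y) := hp.sub hy (dv_le hy hp hyp).2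
  have hpy0 : p - y ≠ 0 := by
    intro h0
    have h1 : rt τ (p - y) = 0 := by rw [h0, rt_zero]
    rw [rt_sub] at h1
    linarith
  obtain ⟨f, hf, hfp, hf0, hft⟩ := dv_small hSpec hCmp h hpy hpy0 (sub_pos.2 hlt)
  have hfpos := hf.rt_pos hτ hf0
  have h1 : ∀ n, rt τ f ≤ 2 * (rt τ (e (n + 1)) - rt τ (e n)) := by
    intro n
    rw [hes]
    refine (hst n).2.2.2.2 f hf (hfp.trans (sub_le_sub_left (hey n) p)) ?_
    have := rt_mono hτ (hey n)
    linarith
  have h2 : Tendsto (fun n => 2 * (rt τ (e (n + 1)) - rt τ (e n))) atTop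
      (𝓝 (2 * (rt τ y - rt τ y))) :=
    (((tendsto_add_atTop_iff_nat 1).2 hlim).sub hlim).const_mul 2
  have h3 := ge_of_tendsto' h2 h1
  rw [sub_self, mul_zero] at h3
  linarith

end Helper61.HT
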