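import Pool.Agent.Helper61.HT.StE
import Pool.Agent.Helper61.HT.LibN
import Pool.Agent.Helper61.HT.Ip

/-!
# Project HT: cut to bounded left density (StDn)
-/

namespace Helper61.HT

open scoped ComplexOrder TensorProduct Matrix

section

variable {N : Type} [CStarAlgebra N] [PartialOrder N] [StarOrderedRing N] {τ : N →ₗ[ℂ] ℂ}

/-- The left density of `D_w²`. -/
private noncomputable def kapDn (τ : N →ₗ[ℂ] ℂ) {m : ℕ} (w : Fin m → N) : N :=
  ∑ i, ∑ j, τ (star (w i) * w j) • (w i * star (w j))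

open scoped MatrixOrder in
private lemma facDn {m : ℕ} (G : Matrix (Fin m) (Fin m) ℂ) (h : G.PosSemidef) :
    ∃ B : Matrix (Fin m) (Fin m) ℂ, G = Bᴴ * B := by
  have h0 : 0 ≤ G := h.nonneg
  obtain ⟨B, hB⟩ := CStarAlgebra.nonneg_iff_eq_star_mul_self.1 h0
  exact ⟨B, hB⟩

private lemma kap_nonneg_Dn (hτ : Trc τ) {m : ℕ} (w : Fin m → N) : 0 ≤ kapDn τ w := by
  obtain ⟨H, _, _, e, he, -⟩ := exists_L2 hτ
  obtain ⟨B, hB⟩ := facDn _ (Matrix.posSemidef_gram (𝕜 := ℂ) (fun i => e (w i)))
  have hG : ∀ i j, τ (star (w i) * w j) = ∑ l, star (B l i) * B l j := by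
    intro i j
    have := congrFun (congrFun hB i) j
    rw [Matrix.gram_apply, he, Matrix.mul_apply] at this
    simpa [Matrix.conjTranspose_apply] using this
  have hk : kapDn τ w = ∑ l, (∑ i, star (B l i) • w i) * star (∑ i, star (B l i) • w i) := by
    unfold kapDn
    have h1 : ∀ l, (∑ i, star (B l i) • w i) * star (∑ i, star (B l i) • w i) =
        ∑ i, ∑ j, (star (B l i) * B l j) • (w i * star (w j)) := by
      intro l
      rw [star_sum, Finset.sum_mul_sum]
      refine Finset.sum_congr rfl fun i _ => Finset.sum_congr rfl fun j _ => ?_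
      rw [star_smul, star_star, smul_mul_smul_comm]
    simp only [h1, hG, Finset.sum_smul]
    symm
    rw [Finset.sum_comm]
    refine Finset.sum_congr rfl fun i _ => ?_
    rw [Finset.sum_comm]
  rw [hk]
  exact Finset.sum_nonneg fun l _ => nonneg_mul_star _

private lemma rt_kap_Dn (hτ : Trc τ) {m : ℕ} (w : Fin m → N) (z : N) :
    rt τ (kapDn τ w * (star z * z)) = lhs τ z w := by
  unfold kapDn lhs rt
  congr 1
  rw [Finset.sum_mul, map_sum]
  refine Finset.sum_congr rfl fun i _ => ?_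
  rw [Finset.sum_mul, map_sum]
  refine Finset.sum_congr rfl fun j _ => ?_
  rw [smul_mul_assoc, map_smul, smul_eq_mul]
  congr 1
  rw [mul_assoc, hτ.tr, star_mul]
  congr 1
  noncomm_ring

private lemma norm_sq_Dn (hτ : Trc τ) (x y : N) :
    τ (star x * y) * τ (star y * x) = ((‖τ (star x * y)‖ ^ 2 : ℝ) : ℂ) := by
  have h : τ (star y * x) = (starRingEnd ℂ) (τ (star x * y)) := by
    rw [← map_star' hτ, star_mul, star_star]
  rw [h, Complex.mul_conj, Complex.normSq_eq_norm_sq]

private lemma lhs_one_Dn (hτ : Trc τ) {m : ℕ} (w : Fin m → N) : lhs τ 1 w = hsf τ w := by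
  unfold lhs hsf
  have : (∑ i, ∑ j, τ (star (w i) * w j) * τ (star (1 * w j) * (1 * w i))) =
      ((∑ i, ∑ j, ‖τ (star (w i) * w j)‖ ^ 2 : ℝ) : ℂ) := by
    push_cast
    refine Finset.sum_congr rfl fun i _ => Finset.sum_congr rfl fun j _ => ?_
    rw [one_mul, one_mul, norm_sq_Dn hτ]
    push_cast
    rfl
  rw [this, Complex.ofReal_re]

/-- Comparison of `‖X D_w‖²` and `‖X D_w'‖²`. -/
private lemma keyDn (hτ : Trc τ) {m : ℕ} (w w' : Fin m → N) {X : N} (hX : ‖X‖ ≤ 1) :
    lhs τ X w - lhs τ X w' ≤ (Real.sqrt (hsf τ w) + Real.sqrt (hsf τ w')) *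
      Real.sqrt (hsf τ w + hsf τ w' - 2 * crt τ w w') := by
  obtain ⟨H, _, _, e, he, -⟩ := exists_L2 hτ
  let T : (Fin m → N) → (Fin m → N) → H ⊗[ℂ] H := fun a c => ∑ j, e (a j) ⊗ₜ[ℂ] e (c j)
  have hin : ∀ a c a' c' : Fin m → N, inner ℂ (T a c) (T a' c') =
      ∑ i, ∑ j, τ (star (a i) * a' j) * τ (star (c i) * c' j) := by
    intro a c a' c'
    simp only [T, sum_inner, inner_sum, TensorProduct.inner_tmul, he]
    rw [Finset.sum_comm]
  let Lm : N → H →ₗ[ℂ] H := fun x => e.toLinearMap ∘ₗ LinearMap.mulLeft ℂ x ∘ₗ e.symm.toLinearMap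
  have hLm : ∀ x y, Lm x (e y) = e (x * y) := by
    intro x y
    simp [Lm]
  let M : N → (H ⊗[ℂ] H →ₗ[ℂ] H ⊗[ℂ] H) := fun x => TensorProduct.map (Lm x) LinearMap.id
  have hMT : ∀ x a c, M x (T a c) = T (fun j => x * a j) c := by
    intro x a c
    simp only [M, T, map_sum, TensorProduct.map_tmul, hLm, LinearMap.id_apply]
  -- `1 - X* X = Y* Y`
  obtain ⟨Y, hY, hYY⟩ := exists_sqrt (sub_nonneg.2 (star_mul_le_one hX))
  have hY' : star Y * Y = 1 - star X * X := by rw [herm_of_nonneg hY, hYY]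
  have hsum : ∀ s t : H ⊗[ℂ] H, inner ℂ (M X s) (M X t) + inner ℂ (M Y s) (M Y t) =
      inner ℂ s t := by
    intro s t
    induction s using TensorProduct.induction_on with
    | zero => simp
    | add s₁ s₂ h1 h2 =>
      rw [map_add, map_add, inner_add_left, inner_add_left, inner_add_left, ← h1, ← h2]
      ring
    | tmul a c =>
      induction t using TensorProduct.induction_on with
      | zero => simp
      | add t₁ t₂ h1 h2 =>
        rw [map_add, map_add, inner_add_right, inner_add_right, inner_add_right, ← h1, ← h2]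
        ring
      | tmul a' c' =>
        obtain ⟨x, rfl⟩ := e.surjective a
        obtain ⟨x', rfl⟩ := e.surjective a'
        simp only [M, TensorProduct.map_tmul, hLm, LinearMap.id_apply, TensorProduct.inner_tmul,
          he]
        rw [← add_mul, ← map_add]
        congr 2
        have : star (X * x) * (X * x') + star (Y * x) * (Y * x') =
            star x * (star X * X + star Y * Y) * x' := by
          rw [star_mul, star_mul]; noncomm_ring
        rw [this, hY', add_sub_cancel, mul_one]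
  have hcon : ∀ t : H ⊗[ℂ] H, ‖M X t‖ ≤ ‖t‖ := by
    intro t
    have h1 := congrArg Complex.re (hsum t t)
    rw [Complex.add_re] at h1
    have h2 : ∀ u : H ⊗[ℂ] H, (inner ℂ u u : ℂ).re = ‖u‖ ^ 2 := fun u =>
      (norm_sq_eq_re_inner (𝕜 := ℂ) u).symm
    rw [h2, h2, h2] at h1
    have h3 : ‖M X t‖ ^ 2 ≤ ‖t‖ ^ 2 := by nlinarith [sq_nonneg ‖M Y t‖]
    exact le_of_sq_le_sq h3 (norm_nonneg _)
  have hnsq : ∀ u : H ⊗[ℂ] H, ‖u‖ ^ 2 = (inner ℂ u u : ℂ).re := fun u =>
    norm_sq_eq_re_inner (𝕜 := ℂ) u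
  let S : (Fin m → N) → (Fin m → N) := fun a j => star (a j)
  have hlhs : ∀ a, lhs τ X a = ‖M X (T a (S a))‖ ^ 2 := by
    intro a
    rw [hnsq, hMT, hin]
    unfold lhs
    congr 1
    rw [Finset.sum_comm]
    refine Finset.sum_congr rfl fun i _ => Finset.sum_congr rfl fun j _ => ?_
    simp only [S, star_star]
    rw [mul_comm, hτ.tr (a i) (star (a j))]
  have hhsf : ∀ a, hsf τ a = ‖T a (S a)‖ ^ 2 := by
    intro a
    rw [hnsq, hin]
    unfold hsf
    rw [Complex.re_sum]
    refine Finset.sum_congr rfl fun i _ => ?_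
    rw [Complex.re_sum]
    refine Finset.sum_congr rfl fun j _ => ?_
    simp only [S, star_star]
    rw [hτ.tr (a i) (star (a j)), norm_sq_Dn hτ, Complex.ofReal_re]
  have hcrt : ∀ a b, crt τ a b = (inner ℂ (T a (S a)) (T b (S b)) : ℂ).re := by
    intro a b
    rw [hin]
    unfold crt
    rw [Complex.re_sum]
    refine Finset.sum_congr rfl fun i _ => ?_
    rw [Complex.re_sum]
    refine Finset.sum_congr rfl fun j _ => ?_
    simp only [S, star_star]
    rw [hτ.tr (a i) (star (b j)), norm_sq_Dn hτ, Complex.ofReal_re]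
  set t₁ := T w (S w)
  set t₂ := T w' (S w')
  have hd : hsf τ w + hsf τ w' - 2 * crt τ w w' = ‖t₁ - t₂‖ ^ 2 := by
    rw [hhsf, hhsf, hcrt, norm_sub_sq (𝕜 := ℂ)]
    simp only [RCLike.re_to_complex]
    ring
  rw [hd, Real.sqrt_sq (norm_nonneg _), hlhs, hlhs, hhsf, hhsf, Real.sqrt_sq (norm_nonneg _),
    Real.sqrt_sq (norm_nonneg _)]
  have h1 : ‖M X t₁‖ - ‖M X t₂‖ ≤ ‖t₁ - t₂‖ := by
    refine (norm_sub_norm_le _ _).trans ?_
    rw [← map_sub]
    exact hcon _
  have h2 := hcon t₁
  have h3 := hcon t₂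
  have h4 : ‖M X t₁‖ ^ 2 - ‖M X t₂‖ ^ 2 =
      (‖M X t₁‖ + ‖M X t₂‖) * (‖M X t₁‖ - ‖M X t₂‖) := by ring
  rw [h4]
  calc (‖M X t₁‖ + ‖M X t₂‖) * (‖M X t₁‖ - ‖M X t₂‖)
      ≤ (‖M X t₁‖ + ‖M X t₂‖) * ‖t₁ - t₂‖ :=
        mul_le_mul_of_nonneg_left h1 (by positivity)
    _ ≤ _ := mul_le_mul_of_nonneg_right (add_le_add h2 h3) (norm_nonneg _)

end

theorem pDn : StDn := by
  intro N _ _ _ τ m w Φ τ₀ hτ hΦ hτ₀ hw
  set κ := kapDn τ w with hκ
  have hκ0 : 0 ≤ κ := kap_nonneg_Dn hτ w
  set c : ℝ := τ₀ / (10 ^ 8 * Φ) with hc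
  have hc0 : 0 < c := by positivity
  set S := c • κ with hS
  have hS0 : 0 ≤ S := smul_nonneg_real hc0.le hκ0
  set h := GG S with hh
  have h0 : 0 ≤ h := GG_nonneg hS0
  have h1 : h ≤ 1 := GG_le_one hS0
  have hherm : star h = h := herm_of_nonneg h0
  have hSherm : star S = S := herm_of_nonneg hS0
  have hm1 : h * (1 + S) = 1 := GG_mul hS0
  have hm2 : (1 + S) * h = 1 := mul_GG hS0
  have hrκ : rt τ κ = hsf τ w := by
    rw [← lhs_one_Dn hτ, ← rt_kap_Dn hτ, star_one, mul_one, mul_one]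
  have hcinv : 10 ^ 8 * Φ / (4 * τ₀) = (1 / 4) * c⁻¹ := by
    rw [hc]; field_simp
  have hκS : κ = c⁻¹ • S := by
    rw [hS, smul_smul, inv_mul_cancel₀ hc0.ne', one_smul]
  -- `h S h ≤ 1/4`
  have hq : h * S * h ≤ (1 / 4 : ℝ) • (1 : N) := by
    have e1 : (1 / 4 : ℝ) • (1 : N) - h * S * h =
        (1 / 4 : ℝ) • (star ((1 - S) * h) * ((1 - S) * h)) := by
      have e2 : (1 : N) = h * (1 + S) * ((1 + S) * h) := by rw [hm1, hm2, mul_one]
      have e3 : (1 / 4 : ℝ) • (1 : N) = (1 / 4 : ℝ) • (h * (1 + S) * ((1 + S) * h)) := by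
        rw [← e2]
      have e4 : h * S * h = (1 / 4 : ℝ) • ((4 : ℝ) • (h * S * h)) := by
        rw [smul_smul]; norm_num
      rw [e3, e4, ← smul_sub]
      congr 1
      rw [star_mul, star_sub, star_one, hSherm, hherm]
      have e5 : (4 : ℝ) • (h * S * h) = h * S * h + h * S * h + h * S * h + h * S * h := by
        have : (4 : ℝ) = 1 + 1 + 1 + 1 := by norm_num
        rw [this, add_smul, add_smul, add_smul, one_smul]
      rw [e5]
      noncomm_ring
    rw [← sub_nonneg, e1]
    exact smul_nonneg_real (by norm_num) (nonneg_star_mul _)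
  have hden : h * κ * h ≤ (10 ^ 8 * Φ / (4 * τ₀)) • (1 : N) := by
    rw [hcinv, mul_comm, ← smul_smul, hκS, mul_smul_comm, smul_mul_assoc]
    exact smul_mono_real (by positivity) hq
  refine ⟨h, h0, h1, ?_, hden, ?_, ?_⟩
  · -- `τ(1 - h) ≤ τ(S)`
    have e1 : 1 - h = S * h := by
      have : h + S * h = 1 := by rw [← hm2]; noncomm_ring
      rw [← this]; abel
    rw [e1]
    have e2 := rt_mul_mono' hτ h1 hS0
    rw [mul_one] at e2
    refine e2.trans ?_
    rw [hS, rt_smul, hrκ]
    calc c * hsf τ w ≤ c * Φ := mul_le_mul_of_nonneg_left hw hc0.le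
      _ = τ₀ / 10 ^ 8 := by rw [hc]; field_simp
  · intro z
    rw [← rt_kap_Dn hτ]
    have e1 : rt τ (κ * (star (z * h) * (z * h))) = rt τ (h * κ * h * (star z * z)) := by
      rw [star_mul, hherm]
      have : κ * (h * star z * (z * h)) = (κ * (h * star z * z)) * h := by noncomm_ring
      rw [this, rt_mul_comm hτ]
      congr 1; noncomm_ring
    rw [e1]
    have e2 := rt_mul_mono hτ hden (nonneg_star_mul z)
    rw [smul_mul_assoc, one_mul, rt_smul] at e2
    exact e2
  · intro v hv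
    set hv' := v * h * star v with hhv
    set Sv := v * S * star v with hSv
    have hSv0 : 0 ≤ Sv := conj_nonneg hS0 v
    have hvG : GG Sv = hv' := GG_conj_unit hS0 hv
    have hv0 : 0 ≤ hv' := conj_nonneg h0 v
    have hv1 : hv' ≤ 1 := by rw [← hvG]; exact GG_le_one hSv0
    have hvherm : star hv' = hv' := herm_of_nonneg hv0
    have hvm2 : (1 + Sv) * hv' = 1 := by rw [← hvG]; exact mul_GG hSv0
    set g := hv' - h with hg
    have hgherm : star g = g := by rw [hg, star_sub, hvherm, hherm]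
    have hg1 : (1 + S) * g = (S - Sv) * hv' := by
      calc (1 + S) * g = (1 + S) * hv' - (1 + S) * h := by rw [hg, mul_sub]
        _ = (1 + S) * hv' - (1 + Sv) * hv' := by rw [hm2, hvm2]
        _ = _ := by noncomm_ring
    have hrtg : rt τ g = 0 := by
      rw [hg, rt_sub, hhv, rt_cycle hτ, hv.1, one_mul, sub_self]
    have hrt : rt τ (g * (1 + S) * g) = rt τ ((S - Sv) * (hv' * hv')) := by
      have e1 : rt τ (g * (1 + S) * g) = rt τ ((S - Sv) * hv' * g) := by
        rw [mul_assoc, hg1, rt_mul_comm hτ]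
      have e2 : rt τ ((S - Sv) * hv' * h) = 0 := by
        rw [← hg1, mul_assoc, rt_mul_comm hτ, mul_assoc, hm1, mul_one, hrtg]
      rw [e1]
      nth_rewrite 1 [hg]
      rw [mul_sub, rt_sub, e2, sub_zero, mul_assoc]
    have hbd : rt τ (g * (1 + S) * g) ≤ c * (2 * Real.sqrt (hsf τ w) *
        Real.sqrt (2 * hsf τ w - 2 * crt τ w (fun j => v * w j))) := by
      rw [hrt]
      have e1 : (S - Sv) * (hv' * hv') = c • (κ * (hv' * hv') - v * κ * star v * (hv' * hv')) := by
        rw [hSv, hS, mul_smul_comm, smul_mul_assoc, ← smul_sub, smul_mul_assoc, sub_mul]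
      rw [e1, rt_smul, rt_sub]
      refine mul_le_mul_of_nonneg_left ?_ hc0.le
      have e2 : rt τ (κ * (hv' * hv')) = lhs τ hv' w := by
        rw [← rt_kap_Dn hτ, hvherm]
      have e3 : rt τ (v * κ * star v * (hv' * hv')) = lhs τ hv' (fun j => v * w j) := by
        have e4 : rt τ (v * κ * star v * (hv' * hv')) = rt τ (κ * (star (hv' * v) * (hv' * v))) := by
          rw [star_mul, hvherm]
          have : v * κ * star v * (hv' * hv') = v * (κ * star v * (hv' * hv')) := by noncomm_ring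
          rw [this, rt_mul_comm hτ]
          congr 1; noncomm_ring
        rw [e4, rt_kap_Dn hτ]
        unfold lhs
        congr 1
        refine Finset.sum_congr rfl fun i _ => Finset.sum_congr rfl fun j _ => ?_
        have e5 : star (v * w i) * (v * w j) = star (w i) * w j := by
          rw [star_mul]
          calc star (w i) * star v * (v * w j) = star (w i) * (star v * v) * w j := by
                noncomm_ring
            _ = _ := by rw [hv.1, mul_one]
        rw [e5]
        simp only [mul_assoc]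
      rw [e2, e3]
      have e6 := keyDn hτ w (fun j => v * w j) (norm_le_one_of_nonneg hv0 hv1)
      have e7 : hsf τ (fun j => v * w j) = hsf τ w := by
        unfold hsf
        refine Finset.sum_congr rfl fun i _ => Finset.sum_congr rfl fun j _ => ?_
        have e5 : star (v * w i) * (v * w j) = star (w i) * w j := by
          rw [star_mul]
          calc star (w i) * star v * (v * w j) = star (w i) * (star v * v) * w j := by
                noncomm_ring
            _ = _ := by rw [hv.1, mul_one]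
        rw [e5]
      rw [e7] at e6
      refine e6.trans (le_of_eq ?_)
      congr 1
      · ring
      · congr 1; ring
    have hsplit : rt τ (g * (1 + S) * g) = hs τ g + rt τ (S * (star g * g)) := by
      have : g * (1 + S) * g = g * g + g * S * g := by noncomm_ring
      rw [this, rt_add, hs_eq_rt, hgherm]
      congr 1
      rw [mul_assoc, rt_mul_comm hτ, mul_assoc]
    have hSg : 0 ≤ rt τ (S * (star g * g)) := rt_mul_nonneg hτ hS0 (nonneg_star_mul g)
    have hgs := hs_nonneg hτ g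
    constructor
    · rw [hs_comm_unit hτ hv, hs_sub_comm]
      change hs τ g ≤ _
      linarith
    · have e1 : lhs τ (h - v * h * star v) w = c⁻¹ * rt τ (S * (star g * g)) := by
        have e2 : h - v * h * star v = -g := by rw [hg, hhv]; abel
        rw [e2, ← rt_kap_Dn hτ, star_neg, neg_mul_neg, ← hκ, hκS, smul_mul_assoc, rt_smul]
      rw [e1]
      have e3 : rt τ (S * (star g * g)) ≤ c * (2 * Real.sqrt (hsf τ w) *
          Real.sqrt (2 * hsf τ w - 2 * crt τ w (fun j => v * w j))) := by linarith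
      calc c⁻¹ * rt τ (S * (star g * g)) ≤ c⁻¹ * (c * (2 * Real.sqrt (hsf τ w) *
          Real.sqrt (2 * hsf τ w - 2 * crt τ w (fun j => v * w j)))) :=
            mul_le_mul_of_nonneg_left e3 (inv_nonneg.2 hc0.le)
        _ = _ := by rw [← mul_assoc, inv_mul_cancel₀ hc0.ne', one_mul]

end Helper61.HT
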