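import Pool.Agent.Helper61.HT.StB
import Pool.Agent.Helper61.HT.LibN

/-!
# HT module EnM: energies of maps
-/

namespace Helper61.HT

open scoped ComplexOrder

section moments

variable {H : Type} [NormedAddCommGroup H] [InnerProductSpace ℂ H]

private lemma nrmE (x : H) : (inner ℂ x x).re = ‖x‖ ^ 2 := inner_self_eq_norm_sq (𝕜 := ℂ) x

private lemma symE (x y : H) : (inner ℂ x y).re = (inner ℂ y x).re := inner_re_symm (𝕜 := ℂ) x y

private lemma sub_sqE (x y : H) : ‖x - y‖ ^ 2 = ‖x‖ ^ 2 - 2 * (inner ℂ x y).re + ‖y‖ ^ 2 :=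
  norm_sub_sq (𝕜 := ℂ) x y

private lemma add_sqE (x y : H) : ‖x + y‖ ^ 2 = ‖x‖ ^ 2 + 2 * (inner ℂ x y).re + ‖y‖ ^ 2 :=
  norm_add_sq (𝕜 := ℂ) x y

variable {T : H →ₗ[ℂ] H}

private lemma pow_symE (hs : ∀ x y, inner ℂ (T x) y = inner ℂ x (T y)) (j : ℕ) :
    ∀ x y, inner ℂ ((T ^ j) x) y = inner ℂ x ((T ^ j) y) := by
  induction j with
  | zero => intro x y; simp
  | succ j ih =>
    intro x y
    rw [pow_succ', Module.End.mul_apply, hs, ih, ← Module.End.mul_apply, ← pow_succ, pow_succ']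

private lemma pow_posE (hs : ∀ x y, inner ℂ (T x) y = inner ℂ x (T y))
    (hp : ∀ x, 0 ≤ (inner ℂ x (T x)).re) (j : ℕ) (x : H) :
    0 ≤ (inner ℂ x ((T ^ j) x)).re := by
  obtain ⟨i, rfl | rfl⟩ := Nat.even_or_odd' j
  · have : (T ^ (2 * i)) x = (T ^ i) ((T ^ i) x) := by
      rw [two_mul, pow_add, Module.End.mul_apply]
    rw [this, ← pow_symE hs, nrmE]
    positivity
  · have : (T ^ (2 * i + 1)) x = (T ^ i) (T ((T ^ i) x)) := by
      rw [show 2 * i + 1 = i + (i + 1) by ring, pow_add, Module.End.mul_apply, pow_succ',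
        Module.End.mul_apply]
    rw [this, ← pow_symE hs]
    exact hp _

private lemma momE (hs : ∀ x y, inner ℂ (T x) y = inner ℂ x (T y))
    (hp : ∀ x, 0 ≤ (inner ℂ x (T x)).re) (hc : ∀ x, (inner ℂ x (T x)).re ≤ ‖x‖ ^ 2)
    (ξ : H) (k : ℕ) :
    ‖(T ^ k) ξ‖ ^ 2 ≤ ‖ξ‖ ^ 2 ∧
    (2 * k + 1) * (‖(T ^ k) ξ‖ ^ 2 - (inner ℂ ((T ^ k) ξ) (T ((T ^ k) ξ))).re) ≤ ‖ξ‖ ^ 2 := by
  set b : ℕ → ℝ := fun j => (inner ℂ ξ ((T ^ j) ξ)).re with hb
  have hb0 : b 0 = ‖ξ‖ ^ 2 := by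
    simp only [hb, pow_zero, Module.End.one_apply]
    exact nrmE ξ
  have hbe : ∀ i, b (2 * i) = ‖(T ^ i) ξ‖ ^ 2 := by
    intro i
    have : (T ^ (2 * i)) ξ = (T ^ i) ((T ^ i) ξ) := by
      rw [two_mul, pow_add, Module.End.mul_apply]
    simp only [hb]
    rw [this, ← pow_symE hs, nrmE]
  have hbo : ∀ i, b (2 * i + 1) = (inner ℂ ((T ^ i) ξ) (T ((T ^ i) ξ))).re := by
    intro i
    have : (T ^ (2 * i + 1)) ξ = (T ^ i) (T ((T ^ i) ξ)) := by
      rw [show 2 * i + 1 = i + (i + 1) by ring, pow_add, Module.End.mul_apply, pow_succ',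
        Module.End.mul_apply]
    simp only [hb]
    rw [this, ← pow_symE hs]
  have hconv : ∀ j, b (j + 1) - b (j + 2) ≤ b j - b (j + 1) := by
    intro j
    have h1 := pow_posE hs hp j (ξ - T ξ)
    have h2 : (inner ℂ (ξ - T ξ) ((T ^ j) (ξ - T ξ))).re =
        b j - b (j + 1) - (b (j + 1) - b (j + 2)) := by
      have e1 : (T ^ j) (T ξ) = (T ^ (j + 1)) ξ := by
        rw [pow_succ, Module.End.mul_apply]
      have e2 : ∀ m, T ((T ^ m) ξ) = (T ^ (m + 1)) ξ := by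
        intro m
        rw [pow_succ', Module.End.mul_apply]
      rw [map_sub, e1, inner_sub_left, inner_sub_right, inner_sub_right, hs, hs, e2, e2]
      simp only [Complex.sub_re, hb]
    linarith
  have hanti : Antitone (fun j => b j - b (j + 1)) := antitone_nat_of_succ_le hconv
  have hdk : 0 ≤ b (2 * k) - b (2 * k + 1) := by
    rw [hbe, hbo]
    linarith [hc ((T ^ k) ξ)]
  have hsum : ∀ m, ∑ j ∈ Finset.range m, (b j - b (j + 1)) = b 0 - b m := by
    intro m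
    rw [Finset.sum_range_sub']
  constructor
  · have h1 := hsum (2 * k)
    have h2 : 0 ≤ ∑ j ∈ Finset.range (2 * k), (b j - b (j + 1)) := by
      refine Finset.sum_nonneg fun j hj => ?_
      exact hdk.trans (hanti (Finset.mem_range.1 hj).le)
    rw [h1, hb0, hbe] at h2
    linarith
  · have h1 := hsum (2 * k + 1)
    have h2 : (2 * k + 1 : ℝ) * (b (2 * k) - b (2 * k + 1)) ≤
        ∑ j ∈ Finset.range (2 * k + 1), (b j - b (j + 1)) := by
      have h3 : ∑ j ∈ Finset.range (2 * k + 1), (b (2 * k) - b (2 * k + 1)) ≤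
          ∑ j ∈ Finset.range (2 * k + 1), (b j - b (j + 1)) := by
        refine Finset.sum_le_sum fun j hj => ?_
        exact hanti (Nat.lt_succ_iff.1 (Finset.mem_range.1 hj))
      rw [Finset.sum_const, Finset.card_range, nsmul_eq_mul] at h3
      push_cast at h3
      exact h3
    rw [h1, hb0, hbe, hbo] at h2
    have h4 : 0 ≤ (inner ℂ ((T ^ k) ξ) (T ((T ^ k) ξ))).re := hp _
    linarith

end moments

section bim

variable {N : Type} [CStarAlgebra N] [PartialOrder N] [StarOrderedRing N] {τ : N →ₗ[ℂ] ℂ}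
  {H : Type} [NormedAddCommGroup H] [InnerProductSpace ℂ H] (b : Bimod N H)

/-- `η ↦ v η v*`. -/
private noncomputable def UUE (v : N) : H →ₗ[ℂ] H := (b.L v) ∘ₗ (b.R (star v))

private lemma UUE_apply (v : N) (η : H) : UUE b v η = b.L v (b.R (star v) η) := rfl

private lemma UUE_adj (v : N) (η ζ : H) :
    inner ℂ (UUE b v η) ζ = inner ℂ η (UUE b (star v) ζ) := by
  rw [UUE_apply, UUE_apply, b.L_adj, b.R_adj, b.comm]

private lemma UUE_inv {v : N} (hv : Un v) (η : H) : UUE b (star v) (UUE b v η) = η := by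
  rw [UUE_apply, UUE_apply, star_star, ← b.comm, ← b.L_mul, hv.1, b.L_one, ← b.R_mul, hv.1,
    b.R_one]

private lemma UUE_norm {v : N} (hv : Un v) (η : H) : ‖UUE b v η‖ ^ 2 = ‖η‖ ^ 2 := by
  rw [← nrmE, UUE_adj, UUE_inv b hv, nrmE]

/-- The averaging operator on the bimodule. -/
private noncomputable def TBE {ι : Type} (F : Finset ι) (u : ι → N) : H →ₗ[ℂ] H :=
  (1 / 2 : ℂ) • LinearMap.id +
    (1 / (4 * F.card) : ℂ) • ∑ s ∈ F, (UUE b (u s) + UUE b (star (u s)))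

variable {ι : Type} (F : Finset ι) (u : ι → N)

private lemma TBE_apply (η : H) : TBE b F u η = (1 / 2 : ℂ) • η +
    (1 / (4 * F.card) : ℂ) • ∑ s ∈ F, (UUE b (u s) η + UUE b (star (u s)) η) := by
  simp only [TBE, LinearMap.add_apply, LinearMap.smul_apply, LinearMap.id_apply,
    LinearMap.sum_apply]

private lemma conj_half : (starRingEnd ℂ) (1 / 2 : ℂ) = 1 / 2 := by
  rw [map_div₀, map_one, map_ofNat]

private lemma conj_card (n : ℕ) : (starRingEnd ℂ) (1 / (4 * n) : ℂ) = 1 / (4 * n) := by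
  rw [map_div₀, map_one, map_mul, map_ofNat, map_natCast]

private lemma TBE_inner_left (η ζ : H) : inner ℂ (TBE b F u η) ζ = (1 / 2 : ℂ) * inner ℂ η ζ +
    (1 / (4 * F.card) : ℂ) *
      ∑ s ∈ F, (inner ℂ (UUE b (u s) η) ζ + inner ℂ (UUE b (star (u s)) η) ζ) := by
  rw [TBE_apply, inner_add_left, inner_smul_left, inner_smul_left, conj_half, conj_card,
    sum_inner]
  simp only [inner_add_left]

private lemma TBE_inner_right (η ζ : H) : inner ℂ η (TBE b F u ζ) = (1 / 2 : ℂ) * inner ℂ η ζ +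
    (1 / (4 * F.card) : ℂ) *
      ∑ s ∈ F, (inner ℂ η (UUE b (u s) ζ) + inner ℂ η (UUE b (star (u s)) ζ)) := by
  rw [TBE_apply, inner_add_right, inner_smul_right, inner_smul_right, inner_sum]
  simp only [inner_add_right]

private lemma TBE_sym (η ζ : H) : inner ℂ (TBE b F u η) ζ = inner ℂ η (TBE b F u ζ) := by
  rw [TBE_inner_left, TBE_inner_right]
  congr 2
  refine Finset.sum_congr rfl fun s _ => ?_
  rw [UUE_adj, UUE_adj, star_star, add_comm]

private lemma TBE_re (η : H) : (inner ℂ η (TBE b F u η)).re = 1 / 2 * ‖η‖ ^ 2 +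
    1 / (4 * F.card) * ∑ s ∈ F, 2 * (inner ℂ η (UUE b (u s) η)).re := by
  rw [TBE_inner_right]
  have e1 : (1 / 2 : ℂ) = ((1 / 2 : ℝ) : ℂ) := by push_cast; ring
  have e2 : (1 / (4 * F.card) : ℂ) = ((1 / (4 * F.card) : ℝ) : ℂ) := by push_cast; ring
  rw [e1, e2, Complex.add_re, Complex.re_ofReal_mul, Complex.re_ofReal_mul, nrmE, Complex.re_sum]
  congr 2
  refine Finset.sum_congr rfl fun s _ => ?_
  rw [Complex.add_re, symE η (UUE b (star (u s)) η), UUE_adj, star_star]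
  ring

variable {F u}

private lemma TBE_diff (hF : F.Nonempty) (hu : ∀ s, Un (u s)) (η : H) :
    ‖η‖ ^ 2 - (inner ℂ η (TBE b F u η)).re =
      1 / (4 * F.card) * ∑ s ∈ F, ‖η - UUE b (u s) η‖ ^ 2 := by
  have hg : (0 : ℝ) < F.card := by exact_mod_cast hF.card_pos
  have h1 : ∑ s ∈ F, ‖η - UUE b (u s) η‖ ^ 2 =
      2 * F.card * ‖η‖ ^ 2 - ∑ s ∈ F, 2 * (inner ℂ η (UUE b (u s) η)).re := by
    have : ∀ s ∈ F, ‖η - UUE b (u s) η‖ ^ 2 = 2 * ‖η‖ ^ 2 - 2 * (inner ℂ η (UUE b (u s) η)).re := by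
      intro s _
      rw [sub_sqE, UUE_norm b (hu s)]
      ring
    rw [Finset.sum_congr rfl this, Finset.sum_sub_distrib, Finset.sum_const, nsmul_eq_mul]
    ring
  rw [h1, TBE_re]
  field_simp
  ring

private lemma TBE_pos (hF : F.Nonempty) (hu : ∀ s, Un (u s)) (η : H) :
    0 ≤ (inner ℂ η (TBE b F u η)).re := by
  have hg : (0 : ℝ) < F.card := by exact_mod_cast hF.card_pos
  have h1 : ∑ s ∈ F, ‖η + UUE b (u s) η‖ ^ 2 =
      2 * F.card * ‖η‖ ^ 2 + ∑ s ∈ F, 2 * (inner ℂ η (UUE b (u s) η)).re := by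
    have : ∀ s ∈ F, ‖η + UUE b (u s) η‖ ^ 2 = 2 * ‖η‖ ^ 2 + 2 * (inner ℂ η (UUE b (u s) η)).re := by
      intro s _
      rw [add_sqE, UUE_norm b (hu s)]
      ring
    rw [Finset.sum_congr rfl this, Finset.sum_add_distrib, Finset.sum_const, nsmul_eq_mul]
    ring
  have h2 : (inner ℂ η (TBE b F u η)).re =
      1 / (4 * F.card) * ∑ s ∈ F, ‖η + UUE b (u s) η‖ ^ 2 := by
    rw [h1, TBE_re]
    field_simp
    ring
  rw [h2]
  have : 0 ≤ ∑ s ∈ F, ‖η + UUE b (u s) η‖ ^ 2 := Finset.sum_nonneg fun s _ => by positivity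
  positivity

variable (τ) in
/-- `ξ` is a vector of the map `φ`. -/
private def IsV (ξ : H) (φ : N →ₗ[ℂ] N) : Prop :=
  ∀ x y, inner ℂ ξ (b.L x (b.R y ξ)) = τ (x * φ y)

private lemma mapr (c : ℝ) (x y : N) : τ (x * c • y) = c * τ (x * y) := by
  rw [mul_smul_comm, map_smul_real]

private lemma mapsumE (x : N) (g : ι → N) :
    τ (x * ∑ s ∈ F, g s) = ∑ s ∈ F, τ (x * g s) := by
  rw [Finset.mul_sum, map_sum]

private lemma IsV.TBE {ξ : H} {φ : N →ₗ[ℂ] N} (hτ : Trc τ) (h : IsV τ b ξ φ) :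
    IsV τ b (TBE b F u ξ) (TM F u φ) := by
  have e1 : ((1 / 2 : ℝ) : ℂ) = (1 / 2 : ℂ) := by push_cast; ring
  have e2 : ((1 / (4 * F.card) : ℝ) : ℂ) = (1 / (4 * F.card) : ℂ) := by push_cast; ring
  have h1 : ∀ x y, inner ℂ (Helper61.HT.TBE b F u ξ) (b.L x (b.R y ξ)) = τ (x * RA F u φ y) := by
    intro x y
    have e3 : RA F u φ y = (1 / 2 : ℝ) • φ y + (1 / (4 * F.card) : ℝ) •
      ∑ s ∈ F, (φ (y * u s) * star (u s) + φ (y * star (u s)) * u s) := rfl
    rw [TBE_inner_left, e3, mul_add, map_add, mapr, mapr, e1, e2, h, mapsumE]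
    congr 2
    refine Finset.sum_congr rfl fun s _ => ?_
    have f1 : inner ℂ (UUE b (u s) ξ) (b.L x (b.R y ξ)) = τ (x * (φ (y * u s) * star (u s))) := by
      rw [UUE_adj, UUE_apply, star_star, ← b.comm, ← b.L_mul, ← b.R_mul, h, mul_assoc, hτ.tr,
        mul_assoc]
    have f2 : inner ℂ (UUE b (star (u s)) ξ) (b.L x (b.R y ξ)) =
        τ (x * (φ (y * star (u s)) * u s)) := by
      rw [UUE_adj, UUE_apply, star_star, ← b.comm, ← b.L_mul, ← b.R_mul, h, mul_assoc, hτ.tr,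
        mul_assoc]
    rw [f1, f2, mul_add, map_add]
  intro x y
  have e3 : TM F u φ y = (1 / 2 : ℝ) • RA F u φ y + (1 / (4 * F.card) : ℝ) •
      ∑ s ∈ F, (u s * RA F u φ (star (u s) * y) + star (u s) * RA F u φ (u s * y)) := rfl
  have h2 : b.L x (b.R y (Helper61.HT.TBE b F u ξ)) = (1 / 2 : ℂ) • b.L x (b.R y ξ) +
      (1 / (4 * F.card) : ℂ) • ∑ s ∈ F, (b.L (x * u s) (b.R (star (u s) * y) ξ) +
        b.L (x * star (u s)) (b.R (u s * y) ξ)) := by
    rw [TBE_apply, map_add, map_add, map_smul, map_smul, map_smul, map_smul, map_sum, map_sum]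
    congr 2
    refine Finset.sum_congr rfl fun s _ => ?_
    rw [map_add, map_add, UUE_apply, UUE_apply, star_star, ← b.comm, ← b.comm, ← b.L_mul,
      ← b.L_mul, ← b.R_mul, ← b.R_mul]
  rw [h2, inner_add_right, inner_smul_right, inner_smul_right, inner_sum, e3, mul_add, map_add,
    mapr, mapr, e1, e2, h1, mapsumE]
  congr 2
  refine Finset.sum_congr rfl fun s _ => ?_
  rw [inner_add_right, h1, h1, mul_add, map_add, mul_assoc, mul_assoc]

private lemma IsV.pow {ξ : H} {φ : N →ₗ[ℂ] N} (hτ : Trc τ) (h : IsV τ b ξ φ) (k : ℕ) :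
    IsV τ b ((Helper61.HT.TBE b F u ^ k) ξ) ((TM F u)^[k] φ) := by
  induction k with
  | zero => exact h
  | succ k ih =>
    rw [pow_succ', Module.End.mul_apply, Function.iterate_succ_apply']
    exact ih.TBE b hτ

private lemma IsV.norm {ξ : H} {φ : N →ₗ[ℂ] N} (h : IsV τ b ξ φ) : ‖ξ‖ ^ 2 = rt τ (φ 1) := by
  rw [← nrmE]
  have := h 1 1
  rw [b.L_one, b.R_one, one_mul] at this
  rw [this]
  rfl

private lemma IsV.en {ξ : H} {φ : N →ₗ[ℂ] N} (h : IsV τ b ξ φ) {v : N} (hv : Un v) :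
    ‖ξ - UUE b v ξ‖ ^ 2 = 2 * (rt τ (φ 1) - rt τ (star v * φ v)) := by
  rw [sub_sqE, UUE_norm b hv, h.norm b]
  have h1 : (inner ℂ ξ (UUE b v ξ)).re = rt τ (star v * φ v) := by
    rw [symE, UUE_adj, UUE_apply, star_star, h]
    rfl
  rw [h1]
  ring

private lemma IsV.EnM {ξ : H} {φ : N →ₗ[ℂ] N} (h : IsV τ b ξ φ) (hu : ∀ s, Un (u s))
    (S : Finset ι) : Helper61.HT.EnM τ S u φ = ∑ s ∈ S, ‖ξ - UUE b (u s) ξ‖ ^ 2 := by
  rw [EnM_eq]
  exact Finset.sum_congr rfl fun s _ => (h.en b (hu s)).symm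

private lemma IsV.Cj {ξ : H} {φ : N →ₗ[ℂ] N} (hτ : Trc τ) (h : IsV τ b ξ φ) (c : N) :
    IsV τ b (b.L c (b.R (star c) ξ)) (Cj c φ) := by
  intro x y
  rw [b.L_adj, b.R_adj, star_star, Cj_apply]
  have h1 : b.R c (b.L (star c) (b.L x (b.R y (b.L c (b.R (star c) ξ))))) =
      b.L (star c * x * c) (b.R (star c * y * c) ξ) := by
    rw [← b.comm c y, ← b.R_mul, ← b.L_mul, ← b.L_mul, ← b.comm, ← b.R_mul]
  rw [h1, h]
  calc τ (star c * x * c * φ (star c * y * c)) = τ (star c * (x * (c * φ (star c * y * c)))) := by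
        simp only [mul_assoc]
    _ = τ (x * (c * φ (star c * y * c)) * star c) := hτ.tr _ _
    _ = _ := by simp only [mul_assoc]

/-! ## contractions -/

private lemma L_contr {c : N} (hc : ‖c‖ ≤ 1) (η : H) : ‖b.L c η‖ ≤ ‖η‖ := by
  obtain ⟨z, hz, hzz⟩ := exists_sqrt (sub_nonneg.2 (star_mul_le_one hc))
  have h1 : 0 ≤ (inner ℂ η (b.L (z * z) η)).re := by
    have : inner ℂ η (b.L (z * z) η) = inner ℂ (b.L z η) (b.L z η) := by
      rw [b.L_adj, herm_of_nonneg hz, b.L_mul]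
    rw [this, nrmE]
    positivity
  rw [hzz, map_sub, LinearMap.sub_apply, b.L_one, inner_sub_right, Complex.sub_re, b.L_mul] at h1
  have h2 : inner ℂ η (b.L (star c) (b.L c η)) = inner ℂ (b.L c η) (b.L c η) := by
    rw [b.L_adj]
  rw [h2, nrmE, nrmE] at h1
  exact (pow_le_pow_iff_left₀ (norm_nonneg _) (norm_nonneg _) two_ne_zero).1 (by linarith)

private lemma R_contr {c : N} (hc : ‖c‖ ≤ 1) (η : H) : ‖b.R c η‖ ≤ ‖η‖ := by
  obtain ⟨z, hz, hzz⟩ := exists_sqrt (sub_nonneg.2 (mul_star_le_one hc))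
  have h1 : 0 ≤ (inner ℂ η (b.R (z * z) η)).re := by
    have : inner ℂ η (b.R (z * z) η) = inner ℂ (b.R z η) (b.R z η) := by
      rw [b.R_adj, herm_of_nonneg hz, b.R_mul]
    rw [this, nrmE]
    positivity
  rw [hzz, map_sub, LinearMap.sub_apply, b.R_one, inner_sub_right, Complex.sub_re, b.R_mul] at h1
  have h2 : inner ℂ η (b.R (star c) (b.R c η)) = inner ℂ (b.R c η) (b.R c η) := by
    rw [b.R_adj]
  rw [h2, nrmE, nrmE] at h1
  exact (pow_le_pow_iff_left₀ (norm_nonneg _) (norm_nonneg _) two_ne_zero).1 (by linarith)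

private lemma IsV.L_sq {ξ : H} {φ : N →ₗ[ℂ] N} (h : IsV τ b ξ φ) (x : N) :
    ‖b.L x ξ‖ ^ 2 = rt τ (star x * x * φ 1) := by
  rw [← nrmE, b.L_adj, ← b.L_mul]
  have h1 := h (star x * x) 1
  rw [b.R_one] at h1
  rw [h1]
  rfl

private lemma IsV.R_sq {ξ : H} {φ : N →ₗ[ℂ] N} (h : IsV τ b ξ φ) (hs : SCP τ φ) (y : N) :
    ‖b.R y ξ‖ ^ 2 = rt τ (y * star y * φ 1) := by
  rw [← nrmE, b.R_adj, ← b.R_mul]
  have h1 := h 1 (y * star y)
  rw [b.L_one, one_mul] at h1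
  have h2 := hs.symm (y * star y) 1
  rw [mul_one] at h2
  rw [h1, h2]
  rfl

private lemma three_sq (a b c A : ℝ) (h : A ≤ a + b + c) (hA : 0 ≤ A) :
    A ^ 2 ≤ 3 * (a ^ 2 + b ^ 2 + c ^ 2) := by
  have h1 : A ^ 2 ≤ (a + b + c) ^ 2 := pow_le_pow_left₀ hA h 2
  nlinarith [sq_nonneg (a - b), sq_nonneg (b - c), sq_nonneg (a - c)]

private lemma cj_norm {v c : N} (hv : Un v) (hc : ‖c‖ ≤ 1) : ‖v * c * star v‖ ≤ 1 := by
  have h1 := norm_unit_le hv
  have h2 := norm_unit_le hv.star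
  calc ‖v * c * star v‖ ≤ ‖v * c‖ * ‖star v‖ := norm_mul_le _ _
    _ ≤ (‖v‖ * ‖c‖) * ‖star v‖ := mul_le_mul_of_nonneg_right (norm_mul_le _ _) (norm_nonneg _)
    _ ≤ (1 * 1) * 1 := by gcongr
    _ = 1 := by norm_num

private lemma UUE_cj {v : N} (hv : Un v) (c : N) (ξ : H) :
    UUE b v (b.L c (b.R (star c) ξ)) =
      b.L (v * c * star v) (b.R (star (v * c * star v)) (UUE b v ξ)) := by
  rw [UUE_apply, UUE_apply, ← b.comm c (star v), ← b.L_mul, ← b.R_mul,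
    ← b.comm v (star (v * c * star v)), ← b.L_mul, ← b.R_mul]
  have h1 : v * c * star v * v = v * c := by rw [mul_assoc, hv.1, mul_one]
  have h2 : star v * star (v * c * star v) = star c * star v := by
    rw [star_mul, star_mul, star_star, ← mul_assoc, hv.1, one_mul]
  rw [h1, h2]

private lemma hs_cjE (hτ : Trc τ) {v : N} (hv : Un v) (c : N) :
    hs τ (v * c - c * v) = hs τ (v * c * star v - c) := by
  rw [hs_comm_unit hτ hv, hs_sub_comm]

private lemma part2E {ξ : H} {φ : N →ₗ[ℂ] N} (hτ : Trc τ) (h : IsV τ b ξ φ) (hS : SCP τ φ)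
    {c v : N} (hc : ‖c‖ ≤ 1) (hv : Un v) :
    ‖b.L c (b.R (star c) ξ) - UUE b v (b.L c (b.R (star c) ξ))‖ ^ 2 ≤
      3 * ‖ξ - UUE b v ξ‖ ^ 2 + 6 * hs τ (v * c - c * v) := by
  rw [norm_sub_rev, norm_sub_rev ξ, UUE_cj b hv, hs_cjE hτ hv]
  have hcv := cj_norm hv hc
  set cv := v * c * star v with hcvd
  set ξv := UUE b v ξ with hξv
  have hd : b.L cv (b.R (star cv) ξv) - b.L c (b.R (star c) ξ) =
      b.L (cv - c) (b.R (star cv) ξv) + b.L c (b.R (star cv) (ξv - ξ)) +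
        b.L c (b.R (star cv - star c) ξ) := by
    simp only [map_sub, LinearMap.sub_apply]
    abel
  have hcs : ‖star cv‖ ≤ 1 := by rwa [norm_star]
  have a1 : ‖b.L (cv - c) (b.R (star cv) ξv)‖ ^ 2 ≤ hs τ (cv - c) := by
    have e1 : ‖b.L (cv - c) (b.R (star cv) ξv)‖ ≤ ‖b.L ((cv - c) * v) ξ‖ := by
      rw [b.comm, hξv, UUE_apply]
      refine (R_contr b hcs _).trans ?_
      rw [← b.L_mul, b.comm]
      exact R_contr b (norm_unit_le hv.star) _
    have e2 : ‖b.L ((cv - c) * v) ξ‖ ^ 2 ≤ hs τ (cv - c) := by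
      rw [h.L_sq b]
      have e3 := rt_mul_mono' hτ hS.one (nonneg_star_mul ((cv - c) * v))
      refine e3.trans ?_
      rw [mul_one, ← hs_eq_rt, hs_mul_unit hτ hv]
    exact (pow_le_pow_left₀ (norm_nonneg _) e1 2).trans e2
  have a2 : ‖b.L c (b.R (star cv) (ξv - ξ))‖ ^ 2 ≤ ‖ξv - ξ‖ ^ 2 :=
    pow_le_pow_left₀ (norm_nonneg _) ((L_contr b hc _).trans (R_contr b hcs _)) 2
  have a3 : ‖b.L c (b.R (star cv - star c) ξ)‖ ^ 2 ≤ hs τ (cv - c) := by
    refine (pow_le_pow_left₀ (norm_nonneg _) (L_contr b hc _) 2).trans ?_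
    rw [h.R_sq b hS]
    have e3 := rt_mul_mono' hτ hS.one (nonneg_mul_star (star cv - star c))
    refine e3.trans ?_
    rw [mul_one, ← star_sub, star_star, ← hs_eq_rt]
  rw [hd]
  have h3 := three_sq _ _ _ _ (norm_add₃_le (a := b.L (cv - c) (b.R (star cv) ξv))
    (b := b.L c (b.R (star cv) (ξv - ξ))) (c := b.L c (b.R (star cv - star c) ξ)))
    (norm_nonneg _)
  linarith

private lemma part3E {ξ : H} {φ : N →ₗ[ℂ] N} (hτ : Trc τ) (h : IsV τ b ξ φ) (hS : SCP τ φ)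
    {c q v : N} (hq : φ 1 ≤ q) (hc0 : 0 ≤ c) (hc1 : c ≤ 1) (hv : Un v) :
    ‖b.L c (b.R (star c) ξ) - UUE b v (b.L c (b.R (star c) ξ))‖ ^ 2 ≤
      3 * ‖ξ - UUE b v ξ‖ ^ 2 + 6 * rt τ (q * (c - v * c * star v) * (c - v * c * star v)) := by
  rw [norm_sub_rev, norm_sub_rev ξ, UUE_cj b hv]
  have hc := norm_le_one_of_nonneg hc0 hc1
  have hcv := cj_norm hv hc
  have hcs : star c = c := herm_of_nonneg hc0
  have hcvs : star (v * c * star v) = v * c * star v := by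
    rw [star_mul, star_mul, star_star, hcs, mul_assoc]
  rw [hcvs, hcs]
  set cv := v * c * star v with hcvd
  set ξv := UUE b v ξ with hξv
  have hxs : star (cv - c) = cv - c := by rw [star_sub, hcvs, hcs]
  have hx : ∀ z : N, 0 ≤ z → rt τ (z * φ 1) ≤ rt τ (z * q) := fun z hz => rt_mul_mono' hτ hq hz
  have hqx : rt τ (q * (c - cv) * (c - cv)) = rt τ ((cv - c) * (cv - c) * q) := by
    rw [rt_cycle hτ ((cv - c)) (cv - c) q]
    congr 1
    noncomm_ring
  have hd : b.L cv (b.R cv ξv) - b.L c (b.R c ξ) =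
      b.L (cv - c) (b.R c ξ) + b.L cv (b.R (cv - c) ξ) + b.L cv (b.R cv (ξv - ξ)) := by
    simp only [map_sub, LinearMap.sub_apply]
    abel
  have a1 : ‖b.L (cv - c) (b.R c ξ)‖ ^ 2 ≤ rt τ (q * (c - cv) * (c - cv)) := by
    rw [b.comm]
    refine (pow_le_pow_left₀ (norm_nonneg _) (R_contr b hc _) 2).trans ?_
    rw [h.L_sq b, hqx]
    have := hx _ (nonneg_star_mul (cv - c))
    rwa [hxs] at this ⊢
  have a2 : ‖b.L cv (b.R (cv - c) ξ)‖ ^ 2 ≤ rt τ (q * (c - cv) * (c - cv)) := by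
    refine (pow_le_pow_left₀ (norm_nonneg _) (L_contr b hcv _) 2).trans ?_
    rw [h.R_sq b hS, hqx]
    have := hx _ (nonneg_mul_star (cv - c))
    rwa [hxs] at this ⊢
  have a3 : ‖b.L cv (b.R cv (ξv - ξ))‖ ^ 2 ≤ ‖ξv - ξ‖ ^ 2 :=
    pow_le_pow_left₀ (norm_nonneg _) ((L_contr b hcv _).trans (R_contr b hcv _)) 2
  rw [hd]
  have h3 := three_sq _ _ _ _ (norm_add₃_le (a := b.L (cv - c) (b.R c ξ))
    (b := b.L cv (b.R (cv - c) ξ)) (c := b.L cv (b.R cv (ξv - ξ)))) (norm_nonneg _)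
  linarith

end bim

section mp

variable {N : Type} [CStarAlgebra N] [PartialOrder N] [StarOrderedRing N] {τ : N →ₗ[ℂ] ℂ}
  {ι : Type} {F : Finset ι} {u : ι → N}

private lemma TT_applyE (y : N) : TT F u y = (1 / 2 : ℝ) • y + (1 / (4 * F.card) : ℝ) •
    ∑ s ∈ F, (u s * y * star (u s) + star (u s) * y * u s) := rfl

private lemma TT_starE (y : N) : star (TT F u y) = TT F u (star y) := by
  rw [TT_applyE, TT_applyE, star_add, star_smul, star_smul, star_sum,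
    star_trivial (1 / 2 : ℝ), star_trivial (1 / (4 * F.card) : ℝ)]
  congr 2
  refine Finset.sum_congr rfl fun s _ => ?_
  simp only [star_add, star_mul, star_star, mul_assoc]

private lemma RA_Mp (y : N) (x : N) : RA F u (Mp y) x = y * x * star (TT F u y) := by
  have e3 : RA F u (Mp y) x = (1 / 2 : ℝ) • Mp y x + (1 / (4 * F.card) : ℝ) •
      ∑ s ∈ F, (Mp y (x * u s) * star (u s) + Mp y (x * star (u s)) * u s) := rfl
  rw [TT_starE, TT_applyE, e3, mul_add, mul_smul_comm, mul_smul_comm, Finset.mul_sum]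
  congr 2
  refine Finset.sum_congr rfl fun s _ => ?_
  simp only [Mp_apply, mul_add, mul_assoc]

private lemma TM_Mp (y : N) : TM F u (Mp y) = Mp (TT F u y) := by
  ext x
  have e3 : TM F u (Mp y) x = (1 / 2 : ℝ) • RA F u (Mp y) x + (1 / (4 * F.card) : ℝ) •
      ∑ s ∈ F, (u s * RA F u (Mp y) (star (u s) * x) + star (u s) * RA F u (Mp y) (u s * x)) := rfl
  rw [e3, Mp_apply]
  simp only [RA_Mp]
  generalize star (TT F u y) = Y
  rw [TT_applyE, add_mul, add_mul, smul_mul_assoc, smul_mul_assoc, smul_mul_assoc,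
    smul_mul_assoc, Finset.sum_mul, Finset.sum_mul]
  congr 2
  refine Finset.sum_congr rfl fun s _ => ?_
  simp only [add_mul, mul_assoc]

private lemma TM_iter_Mp (k : ℕ) (y : N) : (TM F u)^[k] (Mp y) = Mp ((TT F u ^ k) y) := by
  induction k with
  | zero => rfl
  | succ k ih =>
    rw [Function.iterate_succ_apply', ih, TM_Mp, pow_succ', Module.End.mul_apply]

private lemma part4E (hτ : Trc τ) (hu : ∀ s, Un (u s)) {y : N} (hy : star y = y) (S : Finset ι) :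
    EnM τ S u (Mp y) = En τ S u y ∧
    ∀ k : ℕ, gap τ F u k (Mp y) = hs τ y - hs τ ((TT F u ^ k) y) := by
  constructor
  · rw [EnM_eq]
    unfold En
    refine Finset.sum_congr rfl fun s _ => ?_
    have h1 : hs τ (u s * y - y * u s) = 2 * hs τ y - 2 * rt τ (star (u s * y) * (y * u s)) := by
      rw [sub_eq_add_neg, hs_add hτ, hs_neg, mul_neg, rt_neg, hs_unit_mul (hu s),
        hs_mul_unit hτ (hu s)]
      ring
    rw [h1, Mp_apply, Mp_apply, mul_one, hy, hs_eq_rt, hy, star_mul, hy]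
    have h2 : rt τ (star (u s) * (y * u s * y)) = rt τ (y * star (u s) * (y * u s)) := by
      rw [rt_mul_comm hτ, rt_mul_comm hτ (y * star (u s))]
      congr 1
      simp only [mul_assoc]
    rw [h2]
    ring
  · intro k
    unfold gap
    rw [TM_iter_Mp, Mp_apply, Mp_apply, mul_one, mul_one, ← hs_star hτ y,
      ← hs_star hτ ((TT F u ^ k) y), hs_eq_rt, hs_eq_rt, star_star, star_star]

end mp

theorem pEnM (hB : StBim) : StEnM := by
  intro N _ _ _ τ ι F u hτ hF hu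
  refine ⟨?_, ?_, ?_, ?_⟩
  · intro ψ hψ S
    obtain ⟨H, _, _, b, ξ, hξ⟩ := hB N τ ψ hτ hψ
    have hv : IsV τ b ξ ψ := hξ
    have hg : (0 : ℝ) < F.card := by exact_mod_cast hF.card_pos
    have hm := fun k => momE (T := TBE b F u) (TBE_sym b F u) (TBE_pos b hF hu) (by
      intro x
      have h1 := TBE_diff b hF hu x
      have h2 : 0 ≤ ∑ s ∈ F, ‖x - UUE b (u s) x‖ ^ 2 := Finset.sum_nonneg fun s _ => by positivity
      have h3 : 0 ≤ 1 / (4 * F.card : ℝ) * ∑ s ∈ F, ‖x - UUE b (u s) x‖ ^ 2 := by positivity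
      linarith) ξ k
    refine ⟨?_, ?_, ?_⟩
    · rw [hv.EnM b hu]
      exact Finset.sum_nonneg fun s _ => by positivity
    · intro k
      unfold gap
      rw [← hv.norm b, ← (hv.pow b hτ k).norm b]
      linarith [(hm k).1]
    · intro k
      rw [(hv.pow b hτ k).EnM b hu, ← hv.norm b]
      have h1 := TBE_diff b hF hu ((TBE b F u ^ k) ξ)
      have h2 := (hm k).2
      rw [h1] at h2
      rw [le_div_iff₀ (by positivity)]
      have h3 : (2 * (k : ℝ) + 1) * (1 / (4 * F.card) *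
          ∑ s ∈ F, ‖(TBE b F u ^ k) ξ - UUE b (u s) ((TBE b F u ^ k) ξ)‖ ^ 2) =
          ((∑ s ∈ F, ‖(TBE b F u ^ k) ξ - UUE b (u s) ((TBE b F u ^ k) ξ)‖ ^ 2) * (2 * k + 1)) /
            (4 * F.card) := by
        field_simp
      rw [h3, div_le_iff₀ (by positivity)] at h2
      linarith
  · intro ψ c S hψ hc
    obtain ⟨H, _, _, b, ξ, hξ⟩ := hB N τ ψ hτ hψ
    have hv : IsV τ b ξ ψ := hξ
    rw [(hv.Cj b hτ c).EnM b hu, hv.EnM b hu]
    unfold En
    rw [Finset.mul_sum, Finset.mul_sum, ← Finset.sum_add_distrib]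
    exact Finset.sum_le_sum fun s _ => part2E b hτ hv hψ hc (hu s)
  · intro ψ c q S hψ hq hc0 hc1
    obtain ⟨H, _, _, b, ξ, hξ⟩ := hB N τ ψ hτ hψ
    have hv : IsV τ b ξ ψ := hξ
    rw [(hv.Cj b hτ c).EnM b hu, hv.EnM b hu, Finset.mul_sum, Finset.mul_sum,
      ← Finset.sum_add_distrib]
    exact Finset.sum_le_sum fun s _ => part3E b hτ hv hψ hq hc0 hc1 (hu s)
  · intro y hy0 hy1 S
    exact part4E hτ hu (herm_of_nonneg hy0) S

end Helper61.HT
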