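import Pool.Agent.Helper61.HT.StE

/-!
# Project HT: module FF1 (Hilbert-Schmidt inequalities for families of vectors)
-/

namespace Helper61.HT

open scoped ComplexOrder
open Matrix

private theorem ff1_schur {α : Type} [Fintype α] {P Q : Matrix α α ℂ} (hP : P.PosSemidef)
    (hQ : Q.PosSemidef) (c : α → ℝ) :
    0 ≤ ∑ a, ∑ b, c a * c b * (P a b * Q b a).re := by
  have h := (hP.hadamard hQ.transpose).dotProduct_mulVec_nonneg (fun a => (c a : ℂ))
  have h2 := (Complex.le_def.1 h).1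
  refine h2.trans (le_of_eq ?_)
  simp only [dotProduct, mulVec, Matrix.hadamard_apply, Matrix.transpose_apply, Pi.star_apply,
    Complex.re_sum, Finset.mul_sum]
  refine Finset.sum_congr rfl fun a _ => Finset.sum_congr rfl fun b _ => ?_
  have h3 : star (c a : ℂ) = (c a : ℂ) := Complex.conj_ofReal _
  rw [h3]
  simp only [Complex.mul_re, Complex.mul_im, Complex.ofReal_re, Complex.ofReal_im]
  ring

private theorem ff1_mono {α : Type} [Fintype α] {P Q : Matrix α α ℂ} (hP : P.PosSemidef)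
    (hQ : Q.PosSemidef) (hPQ : (Q - P).PosSemidef) (c : α → ℝ) :
    ∑ a, ∑ b, c a * c b * (P a b * P b a).re ≤ ∑ a, ∑ b, c a * c b * (Q a b * Q b a).re := by
  have h1 := ff1_schur hPQ hQ c
  have h2 := ff1_schur hP hPQ c
  have h3 := add_nonneg h1 h2
  rw [← sub_nonneg]
  refine h3.trans (le_of_eq ?_)
  simp only [← Finset.sum_add_distrib, ← Finset.sum_sub_distrib]
  refine Finset.sum_congr rfl fun a _ => Finset.sum_congr rfl fun b _ => ?_
  simp only [Matrix.sub_apply, sub_mul, mul_sub, Complex.sub_re]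
  ring

section

variable {H : Type} [NormedAddCommGroup H] [InnerProductSpace ℂ H]

private theorem ff1_normsq (x y : H) : (inner ℂ x y * inner ℂ y x).re = ‖inner ℂ x y‖ ^ 2 := by
  rw [← inner_conj_symm y x, Complex.mul_conj, Complex.normSq_eq_norm_sq, Complex.ofReal_re]

private theorem ff1_self (x : H) : inner ℂ x x = ((‖x‖ ^ 2 : ℝ) : ℂ) := by
  rw [inner_self_eq_norm_sq_to_K]
  simp

private theorem ff1_herm {α : Type} [Fintype α] (x : α → H) (A : H →ₗ[ℂ] H) (c : α → ℂ) :
    star c ⬝ᵥ ((Matrix.of fun i j => inner ℂ (x i) (A (x j))) *ᵥ c) =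
      inner ℂ (∑ i, c i • x i) (A (∑ i, c i • x i)) := by
  simp only [dotProduct, mulVec, Matrix.of_apply, Pi.star_apply, map_sum, map_smul, sum_inner,
    inner_sum, inner_smul_left, inner_smul_right, Finset.mul_sum]
  rw [Finset.sum_comm]
  refine Finset.sum_congr rfl fun a _ => Finset.sum_congr rfl fun b _ => ?_
  rw [RCLike.star_def]
  ring

private theorem ff1_gram {α : Type} [Fintype α] (x : α → H) :
    (Matrix.of fun i j => inner ℂ (x i) (x j) : Matrix α α ℂ).PosSemidef := by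
  refine PosSemidef.of_dotProduct_mulVec_nonneg ?_ fun c => ?_
  · ext i j
    simp [Matrix.conjTranspose_apply]
  · have := ff1_herm x LinearMap.id c
    simp only [LinearMap.id_apply] at this
    rw [this, ff1_self]
    exact Complex.zero_le_real.2 (sq_nonneg _)

private theorem ff1_contr {α : Type} [Fintype α] (x : α → H) (A : H →ₗ[ℂ] H)
    (hA : ∀ x, ‖A x‖ ≤ ‖x‖) :
    ((Matrix.of fun i j => inner ℂ (x i) (x j)) -
      (Matrix.of fun i j => inner ℂ (A (x i)) (A (x j))) : Matrix α α ℂ).PosSemidef := by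
  refine PosSemidef.of_dotProduct_mulVec_nonneg ?_ fun c => ?_
  · exact (ff1_gram x).1.sub (ff1_gram (fun i => A (x i))).1
  · rw [Matrix.sub_mulVec, dotProduct_sub]
    have h1 := ff1_herm x LinearMap.id c
    have h2 := ff1_herm (fun i => A (x i)) LinearMap.id c
    simp only [LinearMap.id_apply] at h1 h2
    rw [h1, h2]
    have h3 : ∑ i, c i • A (x i) = A (∑ i, c i • x i) := by
      rw [map_sum]
      simp
    rw [h3, ff1_self, ff1_self]
    have := hA (∑ i, c i • x i)
    have h4 : ‖A (∑ i, c i • x i)‖ ^ 2 ≤ ‖∑ i, c i • x i‖ ^ 2 :=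
      pow_le_pow_left₀ (norm_nonneg _) this 2
    rw [sub_nonneg]
    exact Complex.real_le_real.2 h4

private theorem ff1_form {α : Type} [Fintype α] (x : α → H) (c : α → ℝ) :
    0 ≤ ∑ a, ∑ b, c a * c b * ‖inner ℂ (x a) (x b)‖ ^ 2 := by
  have h := ff1_schur (ff1_gram x) (ff1_gram x) c
  refine h.trans (le_of_eq ?_)
  refine Finset.sum_congr rfl fun a _ => Finset.sum_congr rfl fun b _ => ?_
  simp only [Matrix.of_apply]
  rw [ff1_normsq]

private theorem ff1_formA {α : Type} [Fintype α] (x : α → H) (A : H →ₗ[ℂ] H)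
    (hA : ∀ x, ‖A x‖ ≤ ‖x‖) (c : α → ℝ) :
    ∑ a, ∑ b, c a * c b * ‖inner ℂ (A (x a)) (A (x b))‖ ^ 2 ≤
      ∑ a, ∑ b, c a * c b * ‖inner ℂ (x a) (x b)‖ ^ 2 := by
  have h := ff1_mono (ff1_gram (fun i => A (x i))) (ff1_gram x) (ff1_contr x A hA) c
  simp only [Matrix.of_apply] at h
  simpa only [ff1_normsq] using h

variable {J K L : Type} [Fintype J] [Fintype K] [Fintype L]

private theorem ff1_symm (v : J → H) (w : K → H) : crs w v = crs v w := by
  unfold crs
  rw [Finset.sum_comm]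
  refine Finset.sum_congr rfl fun a _ => Finset.sum_congr rfl fun b _ => ?_
  rw [norm_inner_symm]

private theorem ff1_form2 (v : J → H) (w : K → H) (s t : ℝ) :
    ∑ a : J ⊕ K, ∑ b : J ⊕ K, Sum.elim (fun _ => s) (fun _ => t) a *
      Sum.elim (fun _ => s) (fun _ => t) b *
        ‖inner ℂ (Sum.elim v w a) (Sum.elim v w b)‖ ^ 2 =
      s ^ 2 * crs v v + 2 * s * t * crs v w + t ^ 2 * crs w w := by
  simp only [Fintype.sum_sum_type, Sum.elim_inl, Sum.elim_inr, Finset.sum_add_distrib]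
  have h := ff1_symm v w
  unfold crs at h ⊢
  have e1 : ∀ (r : ℝ) (J K : Type) [Fintype J] [Fintype K] (v : J → H) (w : K → H),
      ∑ a, ∑ b, r * ‖inner ℂ (v a) (w b)‖ ^ 2 = r * ∑ a, ∑ b, ‖inner ℂ (v a) (w b)‖ ^ 2 := by
    intro r J K _ _ v w
    simp only [Finset.mul_sum]
  rw [e1, e1, e1, e1, h]
  ring

private theorem ff1_disc {a b c : ℝ} (h : ∀ s t : ℝ, 0 ≤ s ^ 2 * a + 2 * s * t * b + t ^ 2 * c) :
    b ^ 2 ≤ a * c := by
  have ha : 0 ≤ a := by simpa using h 1 0
  rcases ha.eq_or_lt with ha | ha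
  · by_cases hb : b = 0
    · rw [hb, ← ha]
      simp
    · exfalso
      have h1 := h (-(c + 1) / (2 * b)) 1
      rw [← ha] at h1
      have h2 : 2 * (-(c + 1) / (2 * b)) * 1 * b = -(c + 1) := by
        field_simp
      rw [h2] at h1
      linarith
  · have h1 := h b (-a)
    have h2 : b ^ 2 * a + 2 * b * (-a) * b + (-a) ^ 2 * c = a * (a * c - b ^ 2) := by ring
    rw [h2] at h1
    have := nonneg_of_mul_nonneg_right h1 ha
    linarith

private theorem ff1_quad (v : J → H) (w : K → H) (s t : ℝ) :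
    0 ≤ s ^ 2 * crs v v + 2 * s * t * crs v w + t ^ 2 * crs w w := by
  rw [← ff1_form2 v w s t]
  exact ff1_form _ _

private theorem ff1_dd_nonneg (v : J → H) (w : K → H) : 0 ≤ dd v w := by
  have := ff1_quad v w 1 (-1)
  unfold dd
  linarith

private theorem ff1_cs (v : J → H) (w : K → H) : crs v w ^ 2 ≤ crs v v * crs w w :=
  ff1_disc (ff1_quad v w)

private theorem ff1_add_left (v : J → H) (w : K → H) (z : L → H) :
    crs (Sum.elim v w) z = crs v z + crs w z := by
  unfold crs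
  simp only [Fintype.sum_sum_type, Sum.elim_inl, Sum.elim_inr]

private theorem ff1_add_right (v : J → H) (w : K → H) (z : L → H) :
    crs z (Sum.elim v w) = crs z v + crs z w := by
  unfold crs
  simp only [Fintype.sum_sum_type, Sum.elim_inl, Sum.elim_inr, Finset.sum_add_distrib]

private theorem ff1_quad3 (v : J → H) (w : K → H) (z : L → H) (r s t : ℝ) :
    0 ≤ r ^ 2 * crs v v + s ^ 2 * crs w w + t ^ 2 * crs z z + 2 * r * s * crs v w +
      2 * r * t * crs v z + 2 * s * t * crs w z := by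
  have h := ff1_form (Sum.elim v (Sum.elim w z))
    (Sum.elim (fun _ => r) (Sum.elim (fun _ => s) (fun _ => t)))
  simp only [Fintype.sum_sum_type, Sum.elim_inl, Sum.elim_inr, Finset.sum_add_distrib] at h
  have h1 := ff1_symm v w
  have h2 := ff1_symm v z
  have h3 := ff1_symm w z
  unfold crs at h1 h2 h3 ⊢
  have e1 : ∀ (r : ℝ) (J K : Type) [Fintype J] [Fintype K] (v : J → H) (w : K → H),
      ∑ a, ∑ b, r * ‖inner ℂ (v a) (w b)‖ ^ 2 = r * ∑ a, ∑ b, ‖inner ℂ (v a) (w b)‖ ^ 2 := by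
    intro r J K _ _ v w
    simp only [Finset.mul_sum]
  rw [e1, e1, e1, e1, e1, e1, e1, e1, e1, h1, h2, h3] at h
  refine h.trans (le_of_eq ?_)
  ring

private theorem ff1_tri (v : J → H) (w : K → H) (z : L → H) :
    Real.sqrt (dd v z) ≤ Real.sqrt (dd v w) + Real.sqrt (dd w z) := by
  set b := crs v w - crs v z - crs w w + crs w z with hb
  have hq : ∀ s t : ℝ, 0 ≤ s ^ 2 * dd v w + 2 * s * t * b + t ^ 2 * dd w z := by
    intro s t
    refine (ff1_quad3 v w z s (t - s) (-t)).trans (le_of_eq ?_)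
    unfold dd
    rw [hb]
    ring
  have h1 := ff1_disc hq
  have h2 : dd v z = dd v w + dd w z + 2 * b := by
    unfold dd
    rw [hb]
    ring
  have h3 := ff1_dd_nonneg v w
  have h4 := ff1_dd_nonneg w z
  have h5 : b ≤ Real.sqrt (dd v w) * Real.sqrt (dd w z) := by
    rw [← Real.sqrt_mul h3]
    exact Real.le_sqrt_of_sq_le h1
  rw [Real.sqrt_le_left (by positivity), h2]
  have h6 := Real.sq_sqrt h3
  have h7 := Real.sq_sqrt h4
  nlinarith

private theorem ff1_compA (v : J → H) (w : K → H) (A : H →ₗ[ℂ] H) (hA : ∀ x, ‖A x‖ ≤ ‖x‖) :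
    crs (A ∘ v) (A ∘ v) ≤ crs v v ∧ dd (A ∘ v) (A ∘ w) ≤ dd v w := by
  constructor
  · have h := ff1_formA v A hA (fun _ => 1)
    simp only [one_mul] at h
    exact h
  · have h := ff1_formA (Sum.elim v w) A hA (Sum.elim (fun _ => 1) (fun _ => -1))
    rw [ff1_form2] at h
    have h2 : ∑ a : J ⊕ K, ∑ b : J ⊕ K, Sum.elim (fun _ => (1 : ℝ)) (fun _ => -1) a *
        Sum.elim (fun _ => 1) (fun _ => -1) b *
        ‖inner ℂ (A (Sum.elim v w a)) (A (Sum.elim v w b))‖ ^ 2 =
        1 ^ 2 * crs (A ∘ v) (A ∘ v) + 2 * 1 * (-1) * crs (A ∘ v) (A ∘ w) +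
          (-1) ^ 2 * crs (A ∘ w) (A ∘ w) := by
      rw [← ff1_form2]
      refine Finset.sum_congr rfl fun a _ => Finset.sum_congr rfl fun b _ => ?_
      rcases a with a | a <;> rcases b with b | b <;> rfl
    rw [h2] at h
    unfold dd
    linarith

private theorem ff1_four (v : J → H) (A : H →ₗ[ℂ] H)
    (hs : ∀ x y, inner ℂ (A x) y = inner ℂ x (A y))
    (hA : ∀ x, ‖A x‖ ^ 2 ≤ (inner ℂ x (A x)).re) :
    crs (A ∘ v) (A ∘ v) ≤ crs v (A ∘ v) := by
  have hre : ∀ x, inner ℂ x (A x) = (((inner ℂ x (A x)).re : ℝ) : ℂ) := by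
    intro x
    have h1 : (starRingEnd ℂ) (inner ℂ x (A x)) = inner ℂ x (A x) := by
      rw [inner_conj_symm, hs]
    exact (Complex.conj_eq_iff_re.1 h1).symm
  have hherm : (Matrix.of fun i j => inner ℂ (v i) (A (v j)) : Matrix J J ℂ).IsHermitian := by
    ext i j
    simp only [Matrix.conjTranspose_apply, Matrix.of_apply, RCLike.star_def, inner_conj_symm]
    exact hs _ _
  have hQ : (Matrix.of fun i j => inner ℂ (v i) (A (v j)) : Matrix J J ℂ).PosSemidef := by
    refine PosSemidef.of_dotProduct_mulVec_nonneg hherm fun c => ?_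
    rw [ff1_herm, hre]
    exact Complex.zero_le_real.2 ((sq_nonneg _).trans (hA _))
  have hQP : ((Matrix.of fun i j => inner ℂ (v i) (A (v j))) -
      (Matrix.of fun i j => inner ℂ (A (v i)) (A (v j))) : Matrix J J ℂ).PosSemidef := by
    refine PosSemidef.of_dotProduct_mulVec_nonneg
      (hherm.sub (ff1_gram (fun i => A (v i))).1) fun c => ?_
    rw [Matrix.sub_mulVec, dotProduct_sub]
    have h2 := ff1_herm (fun i => A (v i)) LinearMap.id c
    simp only [LinearMap.id_apply] at h2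
    rw [h2, ff1_herm, hre]
    have h3 : ∑ i, c i • A (v i) = A (∑ i, c i • v i) := by
      rw [map_sum]
      simp
    rw [h3, ff1_self, sub_nonneg]
    exact Complex.real_le_real.2 (hA (∑ i, c i • v i))
  have h := ff1_mono (ff1_gram (fun i => A (v i))) hQ hQP (fun _ => 1)
  simp only [Matrix.of_apply, one_mul] at h
  unfold crs
  simp only [Function.comp_apply]
  refine le_trans (le_of_eq ?_) (h.trans (le_of_eq ?_))
  · refine Finset.sum_congr rfl fun a _ => Finset.sum_congr rfl fun b _ => ?_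
    rw [ff1_normsq]
  · refine Finset.sum_congr rfl fun a _ => Finset.sum_congr rfl fun b _ => ?_
    rw [← hs (v b) (v a), ff1_normsq]

private theorem ff1_five (v : J → H) (B C : H →ₗ[ℂ] H) (hB : ∀ x, ‖B x‖ ≤ ‖x‖)
    (hC : ∀ x, ‖C x‖ ≤ ‖x‖) : dd (B ∘ v) (C ∘ v) ≤
      4 * (∑ i, ∑ j, inner ℂ (v i) (v j) * inner ℂ (B (v j) - C (v j)) (B (v i) - C (v i))).re := by
  set S : ℝ := ∑ i, ∑ j,
    (inner ℂ (v i) (v j) * inner ℂ (B (v j) - C (v j)) (B (v i) - C (v i))).re with hS
  have hS' : (∑ i, ∑ j, inner ℂ (v i) (v j) *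
      inner ℂ (B (v j) - C (v j)) (B (v i) - C (v i))).re = S := by
    simp only [Complex.re_sum, hS]
  rw [hS']
  -- the two pieces
  have hY : ∑ i, ∑ j, (inner ℂ (B (v i) - C (v i)) (B (v j) - C (v j)) *
      inner ℂ (B (v j)) (B (v i))).re ≤ S := by
    have h := ff1_schur (ff1_gram (fun i => B (v i) - C (v i))) (ff1_contr v B hB) (fun _ => 1)
    simp only [Matrix.of_apply, Matrix.sub_apply, one_mul, mul_sub, Complex.sub_re,
      Finset.sum_sub_distrib] at h
    have h2 : ∑ i, ∑ j, (inner ℂ (B (v i) - C (v i)) (B (v j) - C (v j)) *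
        inner ℂ (v j) (v i)).re = S := by
      rw [hS, Finset.sum_comm]
      refine Finset.sum_congr rfl fun a _ => Finset.sum_congr rfl fun b _ => ?_
      rw [mul_comm]
    linarith
  have hZ : ∑ i, ∑ j, (inner ℂ (C (v i)) (C (v j)) *
      inner ℂ (B (v j) - C (v j)) (B (v i) - C (v i))).re ≤ S := by
    have h := ff1_schur (ff1_contr v C hC) (ff1_gram (fun i => B (v i) - C (v i))) (fun _ => 1)
    simp only [Matrix.of_apply, Matrix.sub_apply, one_mul, sub_mul, Complex.sub_re,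
      Finset.sum_sub_distrib] at h
    linarith
  -- the cross term
  have hX := ff1_schur (ff1_gram (Sum.elim (fun i => B (v i) - C (v i)) (fun i => C (v i))))
    (ff1_gram (Sum.elim (fun i => B (v i)) (fun i => B (v i) - C (v i))))
    (Sum.elim (fun _ => 1) (fun _ => -1))
  simp only [Fintype.sum_sum_type, Sum.elim_inl, Sum.elim_inr, Finset.sum_add_distrib,
    Matrix.of_apply, one_mul, mul_one, neg_mul, neg_neg, Finset.sum_neg_distrib] at hX
  have hid : dd (B ∘ v) (C ∘ v) =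
      ∑ i, ∑ j, (inner ℂ (B (v i) - C (v i)) (B (v j) - C (v j)) *
        inner ℂ (B (v j)) (B (v i))).re +
      ∑ i, ∑ j, (inner ℂ (B (v i) - C (v i)) (C (v j)) *
        inner ℂ (B (v j) - C (v j)) (B (v i))).re +
      (∑ i, ∑ j, (inner ℂ (C (v i)) (B (v j) - C (v j)) *
        inner ℂ (B (v j)) (B (v i) - C (v i))).re +
      ∑ i, ∑ j, (inner ℂ (C (v i)) (C (v j)) *
        inner ℂ (B (v j) - C (v j)) (B (v i) - C (v i))).re) := by
    have h1 : dd (B ∘ v) (C ∘ v) = crs (B ∘ v) (B ∘ v) + crs (C ∘ v) (C ∘ v) -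
        crs (B ∘ v) (C ∘ v) - crs (C ∘ v) (B ∘ v) := by
      rw [ff1_symm (B ∘ v) (C ∘ v)]
      unfold dd
      ring
    rw [h1]
    unfold crs
    simp only [← Finset.sum_add_distrib, ← Finset.sum_sub_distrib, Function.comp_apply]
    refine Finset.sum_congr rfl fun a _ => Finset.sum_congr rfl fun b _ => ?_
    rw [← ff1_normsq, ← ff1_normsq, ← ff1_normsq, ← ff1_normsq]
    simp only [inner_sub_left, inner_sub_right, ← Complex.add_re, ← Complex.sub_re]
    congr 1
    ring
  rw [hid]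
  linarith

end

/-- Module FF1. -/
theorem pFF1 : StFF1 := by
  intro H _ _
  refine ⟨?_, ?_, ?_, ?_, ?_, ?_, ?_⟩
  · intro J K _ _ v w
    exact ⟨ff1_dd_nonneg v w, ff1_cs v w⟩
  · intro J K L _ _ _ v w z
    exact ff1_tri v w z
  · intro J K _ _ v w A hA
    exact ff1_compA v w A hA
  · intro J _ v A hs hA
    exact ff1_four v A hs hA
  · intro J _ v B C hB hC
    exact ff1_five v B C hB hC
  · intro J _ v x
    have h := ff1_cs v (fun _ : Unit => x)
    unfold crs at h ⊢
    simp only [Finset.univ_unique, PUnit.default_eq_unit, Finset.sum_const,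
      Finset.card_singleton, one_smul] at h
    refine h.trans (le_of_eq ?_)
    congr 1
    rw [ff1_self]
    simp
  · intro κ _ J _ v B hB
    have h1 : crs (fun p : Σ a, J a => v p.1 p.2) (fun p : Σ a, J a => v p.1 p.2) =
        ∑ a, ∑ b, crs (v a) (v b) := by
      unfold crs
      rw [Fintype.sum_sigma]
      refine Finset.sum_congr rfl fun a _ => ?_
      rw [Finset.sum_comm]
      have : ∀ i : J a, ∑ q : (Σ a, J a), ‖inner ℂ (v a i) (v q.1 q.2)‖ ^ 2 =
          ∑ b, ∑ j, ‖inner ℂ (v a i) (v b j)‖ ^ 2 := by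
        intro i
        rw [Fintype.sum_sigma]
      rw [Finset.sum_comm]
      simp only [this]
      rw [Finset.sum_comm]
    rw [h1, sq, Finset.sum_mul_sum]
    refine Finset.sum_le_sum fun a _ => Finset.sum_le_sum fun b _ => ?_
    have h2 := ff1_cs (v a) (v b)
    have h3 := (hB a).2
    have h4 := (hB b).2
    have h5 : 0 ≤ crs (v b) (v b) := by
      unfold crs
      positivity
    refine abs_le_of_sq_le_sq' ?_ (mul_nonneg (hB a).1 (hB b).1) |>.2
    calc crs (v a) (v b) ^ 2 ≤ crs (v a) (v a) * crs (v b) (v b) := h2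
      _ ≤ B a ^ 2 * B b ^ 2 := mul_le_mul h3 h4 h5 (sq_nonneg _)
      _ = (B a * B b) ^ 2 := by ring

end Helper61.HT
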