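import Pool.Agent.Helper61.HT.StE

/-!
# Project HT: `StFF2` (spectral form of `D_v`, positive part of `D_v - D_w`)
-/

namespace Helper61.HT

open Finset

section

variable {H : Type} [NormedAddCommGroup H] [InnerProductSpace ℂ H]

private theorem spec {J : Type} [Fintype J] (v : J → H) (ε : J → ℝ) :
    ∃ (d : ℕ) (e : Fin d → H) (lam : Fin d → ℝ), Orthonormal ℂ e ∧
      (∀ i, e i ∈ Submodule.span ℂ (Set.range v)) ∧
      ∀ x y, ∑ j, (ε j : ℂ) * (inner ℂ x (v j) * inner ℂ (v j) y) =
        ∑ i, (lam i : ℂ) * (inner ℂ x (e i) * inner ℂ (e i) y) := by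
  classical
  set W := Submodule.span ℂ (Set.range v) with hW
  have : FiniteDimensional ℂ W := FiniteDimensional.span_of_finite ℂ (Set.finite_range v)
  let v' : J → W := fun j => ⟨v j, Submodule.subset_span ⟨j, rfl⟩⟩
  let A : W →ₗ[ℂ] W := ∑ j, (ε j : ℂ) • ((innerSL ℂ (v' j)).toLinearMap.smulRight (v' j))
  have hA : ∀ x, A x = ∑ j, (ε j : ℂ) • (inner ℂ (v' j) x • v' j) := by
    intro x
    simp [A, LinearMap.sum_apply]
  have hin : ∀ x y, inner ℂ x (A y) = ∑ j, (ε j : ℂ) * (inner ℂ x (v' j) * inner ℂ (v' j) y) := by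
    intro x y
    rw [hA, inner_sum]
    refine Finset.sum_congr rfl fun j _ => ?_
    rw [inner_smul_right, inner_smul_right]
    ring
  have hsym : A.IsSymmetric := by
    intro x y
    rw [← inner_conj_symm, hin, hin, map_sum]
    refine Finset.sum_congr rfl fun j _ => ?_
    rw [map_mul, map_mul, inner_conj_symm, inner_conj_symm, Complex.conj_ofReal]
    ring
  let b := hsym.eigenvectorBasis (rfl : Module.finrank ℂ W = Module.finrank ℂ W)
  let lam := hsym.eigenvalues (rfl : Module.finrank ℂ W = Module.finrank ℂ W)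
  refine ⟨Module.finrank ℂ W, fun i => (b i : H), lam, ?_, fun i => (b i).2, ?_⟩
  · exact b.orthonormal.comp_linearIsometry W.subtypeₗᵢ
  intro x y
  have hv : ∀ j, v j = ∑ i, (inner ℂ (b i) (v' j)) • (b i : H) := by
    intro j
    have := congrArg (Subtype.val) (b.sum_repr' (v' j))
    simpa using this.symm
  have h1 : ∀ j, inner ℂ x (v j) = ∑ i, inner ℂ (b i) (v' j) * inner ℂ x (b i : H) := by
    intro j
    conv_lhs => rw [hv j]
    rw [inner_sum]
    refine Finset.sum_congr rfl fun i _ => ?_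
    rw [inner_smul_right]
  have h2 : ∀ j, inner ℂ (v j) y = ∑ l, inner ℂ (v' j) (b l) * inner ℂ (b l : H) y := by
    intro j
    conv_lhs => rw [hv j]
    rw [sum_inner]
    refine Finset.sum_congr rfl fun i _ => ?_
    rw [inner_smul_left, inner_conj_symm]
  have h3 : ∀ i l, ∑ j, (ε j : ℂ) * (inner ℂ (b i) (v' j) * inner ℂ (v' j) (b l)) =
      if i = l then (lam l : ℂ) else 0 := by
    intro i l
    rw [← hin]
    have hl : A (b l) = (lam l : ℂ) • b l := hsym.apply_eigenvectorBasis rfl l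
    rw [hl, inner_smul_right]
    by_cases h : i = l
    · subst h
      rw [if_pos rfl, inner_self_eq_norm_sq_to_K, b.orthonormal.1 i]
      simp
    · rw [if_neg h, b.orthonormal.2 h, mul_zero]
  calc ∑ j, (ε j : ℂ) * (inner ℂ x (v j) * inner ℂ (v j) y)
      = ∑ j, ∑ i, ∑ l, (inner ℂ x (b i : H) * inner ℂ (b l : H) y) *
          ((ε j : ℂ) * (inner ℂ (b i) (v' j) * inner ℂ (v' j) (b l))) := by
        refine Finset.sum_congr rfl fun j _ => ?_
        rw [h1, h2, Finset.sum_mul_sum, Finset.mul_sum]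
        refine Finset.sum_congr rfl fun i _ => ?_
        rw [Finset.mul_sum]
        refine Finset.sum_congr rfl fun l _ => ?_
        ring
    _ = ∑ i, ∑ l, (inner ℂ x (b i : H) * inner ℂ (b l : H) y) *
          ∑ j, (ε j : ℂ) * (inner ℂ (b i) (v' j) * inner ℂ (v' j) (b l)) := by
        rw [Finset.sum_comm]
        refine Finset.sum_congr rfl fun i _ => ?_
        rw [Finset.sum_comm]
        refine Finset.sum_congr rfl fun l _ => ?_
        rw [Finset.mul_sum]
    _ = ∑ i, (lam i : ℂ) * (inner ℂ x (b i : H) * inner ℂ (b i : H) y) := by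
        refine Finset.sum_congr rfl fun i _ => ?_
        simp_rw [h3]
        simp only [mul_ite, mul_zero, Finset.sum_ite_eq, Finset.mem_univ, if_true]
        ring

private theorem nsq (x y : H) : ((‖inner ℂ x y‖ ^ 2 : ℝ) : ℂ) = inner ℂ y x * inner ℂ x y := by
  rw [← inner_conj_symm y x, Complex.ofReal_pow, ← Complex.conj_mul']

/-- The value of the form on the eigenvectors. -/
private theorem diag {J : Type} [Fintype J] (v : J → H) (ε : J → ℝ) {d : ℕ} {e : Fin d → H}
    {lam : Fin d → ℝ} (he : Orthonormal ℂ e)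
    (h : ∀ x y, ∑ j, (ε j : ℂ) * (inner ℂ x (v j) * inner ℂ (v j) y) =
        ∑ i, (lam i : ℂ) * (inner ℂ x (e i) * inner ℂ (e i) y)) (i : Fin d) :
    ∑ j, ε j * ‖inner ℂ (v j) (e i)‖ ^ 2 = lam i := by
  classical
  have h1 := h (e i) (e i)
  have h2 : ∑ l, (lam l : ℂ) * (inner ℂ (e i) (e l) * inner ℂ (e l) (e i)) = lam i := by
    rw [Finset.sum_eq_single i]
    · rw [inner_self_eq_norm_sq_to_K, he.1 i]
      simp
    · intro l _ hl
      rw [he.2 (Ne.symm hl), zero_mul, mul_zero]
    · intro hi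
      exact absurd (Finset.mem_univ i) hi
  rw [h2] at h1
  have h3 : ((∑ j, ε j * ‖inner ℂ (v j) (e i)‖ ^ 2 : ℝ) : ℂ) = lam i := by
    rw [← h1, Complex.ofReal_sum]
    refine Finset.sum_congr rfl fun j _ => ?_
    rw [Complex.ofReal_mul, nsq]
  exact_mod_cast h3

/-- The form on a vector. -/
private theorem quad {J : Type} [Fintype J] (v : J → H) (ε : J → ℝ) {d : ℕ} {e : Fin d → H}
    {lam : Fin d → ℝ}
    (h : ∀ x y, ∑ j, (ε j : ℂ) * (inner ℂ x (v j) * inner ℂ (v j) y) =
        ∑ i, (lam i : ℂ) * (inner ℂ x (e i) * inner ℂ (e i) y)) (x : H) :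
    ∑ j, ε j * ‖inner ℂ (v j) x‖ ^ 2 = ∑ i, lam i * ‖inner ℂ (e i) x‖ ^ 2 := by
  have h1 := h x x
  have h3 : ((∑ j, ε j * ‖inner ℂ (v j) x‖ ^ 2 : ℝ) : ℂ) =
      ((∑ i, lam i * ‖inner ℂ (e i) x‖ ^ 2 : ℝ) : ℂ) := by
    rw [Complex.ofReal_sum, Complex.ofReal_sum]
    simp_rw [Complex.ofReal_mul, nsq]
    exact h1
  exact_mod_cast h3

/-- The Hilbert-Schmidt norm. -/
private theorem hsn {J : Type} [Fintype J] (v : J → H) (ε : J → ℝ) {d : ℕ} {e : Fin d → H}
    {lam : Fin d → ℝ} (he : Orthonormal ℂ e)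
    (h : ∀ x y, ∑ j, (ε j : ℂ) * (inner ℂ x (v j) * inner ℂ (v j) y) =
        ∑ i, (lam i : ℂ) * (inner ℂ x (e i) * inner ℂ (e i) y)) :
    ∑ l, ∑ j, ε l * ε j * ‖inner ℂ (v l) (v j)‖ ^ 2 = ∑ i, lam i ^ 2 := by
  calc ∑ l, ∑ j, ε l * ε j * ‖inner ℂ (v l) (v j)‖ ^ 2
      = ∑ j, ε j * ∑ l, ε l * ‖inner ℂ (v l) (v j)‖ ^ 2 := by
        rw [Finset.sum_comm]
        refine Finset.sum_congr rfl fun j _ => ?_
        rw [Finset.mul_sum]
        refine Finset.sum_congr rfl fun l _ => ?_
        ring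
    _ = ∑ j, ε j * ∑ i, lam i * ‖inner ℂ (e i) (v j)‖ ^ 2 := by
        refine Finset.sum_congr rfl fun j _ => ?_
        rw [quad v ε h]
    _ = ∑ i, lam i * ∑ j, ε j * ‖inner ℂ (v j) (e i)‖ ^ 2 := by
        simp_rw [Finset.mul_sum]
        rw [Finset.sum_comm]
        refine Finset.sum_congr rfl fun i _ => Finset.sum_congr rfl fun j _ => ?_
        rw [norm_inner_symm]
        ring
    _ = ∑ i, lam i ^ 2 := by
        refine Finset.sum_congr rfl fun i _ => ?_
        rw [diag v ε he h]
        ring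

end

theorem pFF2 : StFF2 := by
  intro H _ _
  refine ⟨?_, ?_⟩
  · intro J _ v
    classical
    obtain ⟨d, e, lam, he, hs, h⟩ := spec v (fun _ => 1)
    have hl : ∀ i, 0 ≤ lam i := by
      intro i
      rw [← diag v (fun _ => 1) he h i]
      positivity
    let S := {i : Fin d // 0 < lam i}
    let φ : Fin (Fintype.card S) ≃ S := (Fintype.equivFin S).symm
    have hsum : ∀ {M : Type} [AddCommMonoid M] (f : Fin d → M), (∀ i, lam i = 0 → f i = 0) →
        ∑ i, f i = ∑ i, f (φ i).1 := by
      intro M _ f hf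
      rw [Equiv.sum_comp φ (fun s : S => f s.1)]
      rw [← Finset.sum_subtype (univ.filter fun i => 0 < lam i) (by simp) f]
      refine (Finset.sum_filter_of_ne fun i _ hi => ?_).symm
      exact lt_of_le_of_ne (hl i) (fun h0 => hi (hf i h0.symm))
    refine ⟨Fintype.card S, fun i => e (φ i).1, fun i => lam (φ i).1, ?_, fun i => (φ i).2,
      fun i => hs _, ?_, ?_⟩
    · exact he.comp _ (fun a b hab => φ.injective (Subtype.ext hab))
    · intro x y
      have := h x y
      simp only [Complex.ofReal_one, one_mul] at this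
      rw [this, hsum (fun i => (lam i : ℂ) * (inner ℂ x (e i) * inner ℂ (e i) y))]
      intro i hi
      simp [hi]
    · have := hsn v (fun _ => 1) he h
      simp only [one_mul] at this
      unfold crs
      rw [this, hsum (fun i => lam i ^ 2)]
      intro i hi
      simp [hi]
  · intro J K _ _ v w
    classical
    let u : J ⊕ K → H := Sum.elim v w
    let ε : J ⊕ K → ℝ := Sum.elim (fun _ => 1) (fun _ => -1)
    obtain ⟨d, e, lam, he, hs, h⟩ := spec u ε
    have hq := quad u ε h
    have hn := hsn u ε he h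
    have hru : Set.range u = Set.range v ∪ Set.range w := Set.Sum.elim_range v w
    refine ⟨d, fun i => (Real.sqrt (max (lam i) 0) : ℂ) • e i, ?_, ?_, ?_⟩
    · intro i
      rw [← hru]
      exact Submodule.smul_mem _ _ (hs i)
    · intro x
      have h1 := hq x
      rw [Fintype.sum_sum_type] at h1
      simp only [u, ε, Sum.elim_inl, Sum.elim_inr, one_mul, neg_mul, Finset.sum_neg_distrib] at h1
      have h2 : ∑ i, ‖inner ℂ ((Real.sqrt (max (lam i) 0) : ℂ) • e i) x‖ ^ 2 =
          ∑ i, max (lam i) 0 * ‖inner ℂ (e i) x‖ ^ 2 := by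
        refine Finset.sum_congr rfl fun i _ => ?_
        rw [inner_smul_left, norm_mul, mul_pow, RCLike.norm_conj, Complex.norm_real,
          Real.norm_eq_abs, sq_abs, Real.sq_sqrt (le_max_right _ _)]
      have h3 : ∑ i, lam i * ‖inner ℂ (e i) x‖ ^ 2 ≤ ∑ i, max (lam i) 0 * ‖inner ℂ (e i) x‖ ^ 2 :=
        Finset.sum_le_sum fun i _ => mul_le_mul_of_nonneg_right (le_max_left _ _) (by positivity)
      rw [h2]
      linarith
    · have h1 : crs (fun i => (Real.sqrt (max (lam i) 0) : ℂ) • e i)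
          (fun i => (Real.sqrt (max (lam i) 0) : ℂ) • e i) = ∑ i, max (lam i) 0 ^ 2 := by
        unfold crs
        refine Finset.sum_congr rfl fun i _ => ?_
        rw [Finset.sum_eq_single i]
        · rw [inner_smul_left, inner_smul_right, inner_self_eq_norm_sq_to_K, he.1 i]
          simp only [norm_mul, RCLike.norm_conj, Complex.norm_real, Real.norm_eq_abs]
          rw [← mul_assoc, abs_mul_abs_self, Real.mul_self_sqrt (le_max_right _ _)]
          simp
        · intro l _ hl
          rw [inner_smul_left, inner_smul_right, he.2 (Ne.symm hl)]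
          simp
        · intro hi
          exact absurd (Finset.mem_univ i) hi
      have h2 : dd v w = ∑ i, lam i ^ 2 := by
        rw [← hn, Fintype.sum_sum_type]
        simp only [Fintype.sum_sum_type, u, ε, Sum.elim_inl, Sum.elim_inr, one_mul, neg_mul,
          mul_neg, mul_one, neg_neg, Finset.sum_neg_distrib, Finset.sum_add_distrib]
        unfold dd crs
        have h4 : ∑ i : K, ∑ j : J, ‖inner ℂ (w i) (v j)‖ ^ 2 =
            ∑ i : J, ∑ j : K, ‖inner ℂ (v i) (w j)‖ ^ 2 := by
          rw [Finset.sum_comm]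
          refine Finset.sum_congr rfl fun i _ => Finset.sum_congr rfl fun j _ => ?_
          rw [norm_inner_symm]
        rw [h4]
        ring
      rw [h1, h2]
      refine Finset.sum_le_sum fun i _ => ?_
      rcases le_total (lam i) 0 with hi | hi
      · rw [max_eq_right hi]
        simpa using sq_nonneg (lam i)
      · rw [max_eq_left hi]

end Helper61.HT
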