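import Pool.Agent.Helper61.HT.StF
import Pool.Agent.Helper61.HT.LibN

/-!
# The final theorem from its parts
-/

set_option linter.unusedSectionVars false

namespace Helper61.HT

open scoped ComplexOrder
open Filter Topology

/-- The final statement. -/
def StFin : Prop := ∀ (N : Type) [CStarAlgebra N] [PartialOrder N] [StarOrderedRing N]
  (τ : N →ₗ[ℂ] ℂ) (B : Type) [CStarAlgebra B] [PartialOrder B] [StarOrderedRing B]
  (τB : B →ₗ[ℂ] ℂ) (U : Ultrafilter ℕ) (θ : ℕ → B → N), (U : Filter ℕ) ≤ atTop → II1 τ →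
  Haag τ → Trc τB → Cpl τB → Emb U τB τ θ → Unif τB →
  ∃ M : ℕ → StarSubalgebra ℂ N, (∀ n, FiniteDimensional ℂ (M n)) ∧
    ∀ b, ∃ y : ℕ → N, (∀ n, y n ∈ M n) ∧ (∃ C : ℝ, ∀ n, ‖y n‖ ≤ C) ∧
      Tendsto (fun n => hs τ (θ n b - y n)) U (𝓝 0)

section

variable {N B : Type} [CStarAlgebra N] [PartialOrder N] [StarOrderedRing N]
  [CStarAlgebra B] [PartialOrder B] [StarOrderedRing B] {τ : N →ₗ[ℂ] ℂ} {τB : B →ₗ[ℂ] ℂ}
  {U : Ultrafilter ℕ} {θ : ℕ → B → N}

private lemma sqrt_tendsto {f : ℕ → ℝ} (h : Tendsto f U (𝓝 0)) :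
    Tendsto (fun n => Real.sqrt (f n)) U (𝓝 0) := by
  have := (Real.continuous_sqrt.tendsto 0).comp h
  rw [Real.sqrt_zero] at this
  exact this

/-- Convergence in the 2-norm is transitive. -/
private lemma tends_trans (hτ : Trc τ) {x y z : ℕ → N}
    (h1 : Tendsto (fun n => hs τ (x n - y n)) U (𝓝 0))
    (h2 : Tendsto (fun n => hs τ (y n - z n)) U (𝓝 0)) :
    Tendsto (fun n => hs τ (x n - z n)) U (𝓝 0) := by
  have h3 : Tendsto (fun n => 2 * hs τ (x n - y n) + 2 * hs τ (y n - z n)) U (𝓝 0) := by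
    have := (h1.const_mul 2).add (h2.const_mul 2)
    simpa using this
  refine squeeze_zero (fun n => hs_nonneg hτ _) (fun n => ?_) h3
  have h4 : x n - z n = (x n - y n) + (y n - z n) := by abel
  rw [h4]
  exact hs_add_le hτ _ _

private lemma tends_symm {x y : ℕ → N}
    (h1 : Tendsto (fun n => hs τ (x n - y n)) U (𝓝 0)) :
    Tendsto (fun n => hs τ (y n - x n)) U (𝓝 0) := by
  simpa only [hs_sub_comm] using h1

/-- `τ (x_n y_n) → τB (a b)`. -/
private lemma pair (hτ : Trc τ) (hθ : Emb U τB τ θ) {x y : ℕ → N} {a b : B}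
    (hx : Tendsto (fun n => hs τ (x n - θ n a)) U (𝓝 0))
    (hy : Tendsto (fun n => hs τ (y n - θ n b)) U (𝓝 0)) (hyb : ∃ C : ℝ, ∀ n, ‖y n‖ ≤ C) :
    Tendsto (fun n => τ (x n * y n)) U (𝓝 (τB (a * b))) := by
  obtain ⟨C, hC⟩ := hyb
  obtain ⟨Ca, hCa⟩ := hθ.bdd a
  have h1 : Tendsto (fun n => τ (x n * y n) - τ (θ n (a * b))) U (𝓝 0) := by
    have h2 : Tendsto (fun n => C * Real.sqrt (hs τ (x n - θ n a)) +
        Ca * Real.sqrt (hs τ (y n - θ n b)) +
        Real.sqrt (hs τ (θ n (a * b) - θ n a * θ n b))) U (𝓝 0) := by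
      have := (((sqrt_tendsto hx).const_mul C).add ((sqrt_tendsto hy).const_mul Ca)).add
        (sqrt_tendsto (hθ.mul a b))
      simpa using this
    refine squeeze_zero_norm (fun n => ?_) h2
    have e1 : τ (x n * y n) - τ (θ n (a * b)) = τ ((x n - θ n a) * y n) +
        τ (θ n a * (y n - θ n b)) - τ (θ n (a * b) - θ n a * θ n b) := by
      rw [← map_add, ← map_sub, ← map_sub]
      congr 1
      noncomm_ring
    have key : ∀ z w : N, ‖τ (z * w)‖ ≤ Real.sqrt (hs τ z) * ‖w‖ := by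
      intro z w
      have k1 := norm_map_mul_le hτ (star z) w
      rw [star_star, hs_star hτ] at k1
      refine k1.trans (mul_le_mul_of_nonneg_left ?_ (Real.sqrt_nonneg _))
      rw [Real.sqrt_le_left (norm_nonneg w)]
      have k2 := hs_mul_le hτ w 1
      rw [mul_one] at k2
      have k3 : hs τ (1 : N) = 1 := by
        rw [hs_eq_rt, star_one, one_mul, rt_one hτ]
      rwa [k3, mul_one] at k2
    have a1 : ‖τ ((x n - θ n a) * y n)‖ ≤ C * Real.sqrt (hs τ (x n - θ n a)) := by
      refine (key _ _).trans ?_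
      rw [mul_comm]
      exact mul_le_mul_of_nonneg_right (hC n) (Real.sqrt_nonneg _)
    have a2 : ‖τ (θ n a * (y n - θ n b))‖ ≤ Ca * Real.sqrt (hs τ (y n - θ n b)) := by
      rw [hτ.tr]
      refine (key _ _).trans ?_
      rw [mul_comm]
      exact mul_le_mul_of_nonneg_right (hCa n) (Real.sqrt_nonneg _)
    have a3 : ‖τ (θ n (a * b) - θ n a * θ n b)‖ ≤
        Real.sqrt (hs τ (θ n (a * b) - θ n a * θ n b)) := by
      have := key (θ n (a * b) - θ n a * θ n b) 1
      rw [mul_one] at this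
      refine this.trans ?_
      have h1n : ‖(1 : N)‖ ≤ 1 := Pr.one.norm_le
      nlinarith [Real.sqrt_nonneg (hs τ (θ n (a * b) - θ n a * θ n b))]
    rw [e1]
    exact (norm_sub_le _ _).trans (add_le_add ((norm_add_le _ _).trans (add_le_add a1 a2)) a3)
  have h3 := h1.add (hθ.tr (a * b))
  simpa using h3

end

theorem pFin (hMG : StMainG) (hGB : StGapB) (hLim : StLim) (hCE : StCE) (hPE : StPE) :
    StFin := by
  classical
  intro N _ _ _ τ B _ _ _ τB U θ hU hII hH hτB hcB hθ hUn
  have hτ := hII.trc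
  -- the index set
  choose V K hV hGB' using fun j : ℕ => hGB B τB hτB hcB hUn (1 / ((j : ℝ) + 1)) (by positivity)
  choose V' κ hV' hκ hUn' using fun j : ℕ => hUn (1 / ((j : ℝ) + 1)) (by positivity)
  let 𝒱 : Set B := {1} ∪ ⋃ j : ℕ, ((V j : Set B) ∪ (V' j : Set B))
  have h𝒱 : ∀ v ∈ 𝒱, Un v := by
    rintro v (hv | hv)
    · rw [hv]; exact ⟨by simp, by simp⟩
    · obtain ⟨j, hj⟩ := Set.mem_iUnion.1 hv
      rcases hj with hj | hj
      · exact hV j v hj
      · exact hV' j v hj
  have hVj : ∀ j, ∀ v ∈ V j, v ∈ 𝒱 := fun j v hv =>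
    Or.inr (Set.mem_iUnion.2 ⟨j, Or.inl hv⟩)
  have hV'j : ∀ j, ∀ v ∈ V' j, v ∈ 𝒱 := fun j v hv =>
    Or.inr (Set.mem_iUnion.2 ⟨j, Or.inr hv⟩)
  have hcount : 𝒱.Countable := by
    refine (Set.countable_singleton 1).union (Set.countable_iUnion fun j => ?_)
    exact (V j).countable_toSet.union (V' j).countable_toSet
  let ι : Type := 𝒱
  have : Countable ι := hcount.to_subtype
  have : Nonempty ι := ⟨⟨1, Or.inl rfl⟩⟩
  -- unitary lifts
  have hlift : ∀ v : B, Un v → ∃ u : ℕ → N, (∀ n, Un (u n)) ∧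
      Tendsto (fun n => hs τ (u n - θ n v)) U (𝓝 0) := by
    intro v hv
    have h1 : ∀ n, ∃ W : N, Un W ∧ hs τ (W - θ n v) ≤ hs τ (star (θ n v) * θ n v - 1) := by
      intro n
      obtain ⟨W, hW1, -, hW2⟩ := hPE N τ hII 1 1 (θ n v) Pr.one Pr.one (one_mul _) (mul_one _)
        le_rfl
      refine ⟨W, ⟨hW1, ?_⟩, hW2⟩
      have h2 : Pr (W * star W) := by
        refine ⟨by rw [star_mul, star_star], ?_⟩
        calc W * star W * (W * star W) = W * (star W * W) * star W := by noncomm_ring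
          _ = W * star W := by rw [hW1, mul_one]
      have h3 : hs τ (1 - W * star W) = 0 := by
        rw [h2.one_sub.hs, rt_sub, rt_mul_comm hτ W, hW1, sub_self]
      have h4 := hs_eq_zero hτ h3
      exact (sub_eq_zero.1 h4).symm
    choose W hW1 hW2 using h1
    refine ⟨W, hW1, squeeze_zero (fun n => hs_nonneg hτ _) hW2 ?_⟩
    -- `θ n v* θ n v → 1`
    obtain ⟨C, hC⟩ := hθ.bdd v
    have h5 : Tendsto (fun n => hs τ (star (θ n v) * θ n v - θ n (star v) * θ n v)) U (𝓝 0) := by
      have h6 : Tendsto (fun n => C ^ 2 * hs τ (θ n (star v) - star (θ n v))) U (𝓝 0) := by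
        have := (hθ.star v).const_mul (C ^ 2)
        simpa using this
      refine squeeze_zero (fun n => hs_nonneg hτ _) (fun n => ?_) h6
      rw [← sub_mul]
      refine (hs_mul_le' hτ _ _).trans ?_
      rw [hs_sub_comm]
      refine mul_le_mul_of_nonneg_right ?_ (hs_nonneg hτ _)
      exact pow_le_pow_left₀ (norm_nonneg _) (hC n) 2
    have h7 := tends_trans hτ h5 (tends_symm (hθ.mul (star v) v))
    rw [hv.1] at h7
    exact tends_trans hτ h7 hθ.one
  choose u0 hu0 hu0' using fun i : ι => hlift i.1 (h𝒱 i.1 i.2)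
  let u : ℕ → ι → N := fun n i => u0 i n
  have hu : ∀ n i, Un (u n i) := fun n i => hu0 i n
  have hut : ∀ i, Tendsto (fun n => hs τ (u n i - θ n i.1)) U (𝓝 0) := hu0'
  -- the main theorem
  obtain ⟨M, hMf, hM⟩ := hMG N τ ι U u hU hII hH hu (by
    intro δ hδ
    obtain ⟨j, hj⟩ := exists_nat_gt (1 / δ)
    have hj' : 1 / ((j : ℝ) + 1) ≤ δ := by
      rw [div_le_iff₀ (by positivity)]
      rw [div_lt_iff₀ hδ] at hj
      nlinarith
    refine ⟨(V j).attach.image (fun v => (⟨v.1, hVj j v.1 v.2⟩ : ι)), K j, ?_⟩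
    intro F hF hFne k
    have h1 := hGB' j N τ U θ ι (fun i => i.1) u
      ((V j).attach.image (fun v => (⟨v.1, hVj j v.1 v.2⟩ : ι))) hτ hθ
      (fun i => h𝒱 i.1 i.2) hu hut (fun v hv => ⟨⟨v, hVj j v hv⟩,
        Finset.mem_image.2 ⟨⟨v, hv⟩, Finset.mem_attach _ _, rfl⟩, rfl⟩) F hF hFne k
    filter_upwards [h1] with n hn ψ hψ
    have := hn ψ hψ
    linarith)
  -- conditional expectations
  choose E hE1 hE2 hE3 hE4 hE5 using fun n => hCE N τ (M n) hτ (hMf n)
  have hEc : ∀ n x, hs τ (x - E n x) ≤ hs τ x := by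
    intro n x
    rw [hE4]
    have := (hE1 n).pos x
    linarith
  obtain ⟨φ, hφ, hφc, -, hφl⟩ := hLim N τ B τB U θ E hτ hτB hcB hθ hE1
  have hone : Tendsto (fun n => hs τ ((1 : N) - θ n 1)) U (𝓝 0) := tends_symm (x := fun n => θ n 1)
    (y := fun _ => (1 : N)) hθ.one
  have hφ1 : rt τB (φ 1) = 1 := by
    have h1 := hφl (fun _ => 1) (fun _ => 1) 1 1 hone hone
    have h2 : ∀ n, τ (1 * E n 1) = 1 := fun n => by
      rw [one_mul, hE3 n 1 (one_mem _), hτ.one]
    simp only [h2] at h1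
    have h3 := tendsto_nhds_unique h1 tendsto_const_nhds
    unfold rt
    rw [one_mul] at h3
    rw [h3]; rfl
  have hstar : ∀ (x : ℕ → N) (b : B), Tendsto (fun n => hs τ (x n - θ n b)) U (𝓝 0) →
      Tendsto (fun n => hs τ (star (x n) - θ n (star b))) U (𝓝 0) := by
    intro x b hx
    have h1 : Tendsto (fun n => hs τ (star (x n) - star (θ n b))) U (𝓝 0) := by
      simpa only [← star_sub, hs_star hτ] using hx
    exact tends_trans hτ h1 (tends_symm (hθ.star b))
  have hφv : ∀ i : ι, rt τB (star i.1 * φ i.1) = 1 := by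
    intro i
    have h1 := hφl (fun n => star (u n i)) (fun n => u n i) (star i.1) i.1
      (hstar _ _ (hut i)) (hut i)
    have h2 : Tendsto (fun n => rt τ (star (u n i) * E n (u n i))) U
        (𝓝 (rt τB (star i.1 * φ i.1))) := (Complex.continuous_re.tendsto _).comp h1
    have h3 : Tendsto (fun n => rt τ (star (u n i) * E n (u n i))) U (𝓝 1) := by
      obtain ⟨y, hy, hyt⟩ := hM i
      have h4 : Tendsto (fun n => hs τ (u n i - E n (u n i))) U (𝓝 0) := by
        refine squeeze_zero (fun n => hs_nonneg hτ _) (fun n => ?_) hyt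
        have h5 : u n i - E n (u n i) = (u n i - y n) - E n (u n i - y n) := by
          rw [map_sub, hE3 n (y n) (hy n).1]; abel
        rw [h5]
        exact hEc n _
      have h6 : ∀ n, rt τ (star (u n i) * E n (u n i)) = 1 - hs τ (u n i - E n (u n i)) := by
        intro n
        rw [hE4, hs_eq_rt, (hu n i).1, rt_one hτ]; ring
      simp only [h6]
      have := h4.const_sub 1
      simpa using this
    exact tendsto_nhds_unique h2 h3
  have hall : ∀ w : B, Un w → 1 ≤ rt τB (star w * φ w) := by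
    intro w hw
    by_contra hcon
    rw [not_le] at hcon
    obtain ⟨j, hj⟩ := exists_nat_gt (1 / (1 - rt τB (star w * φ w)))
    have h1 := hUn' j φ hφ hφc (fun v hv => by
      rw [hφ1, hφv ⟨v, hV'j j v hv⟩, sub_self]; exact (hκ j).le) w hw
    rw [hφ1] at h1
    have h2 : 0 < 1 - rt τB (star w * φ w) := by linarith
    rw [div_lt_iff₀ h2] at hj
    rw [le_div_iff₀ (by positivity)] at h1
    nlinarith
  -- the unitaries of `B`
  have huni : ∀ w : B, Un w → Tendsto (fun n => hs τ (θ n w - E n (θ n w))) U (𝓝 0) := by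
    intro w hw
    have hz : Tendsto (fun n => hs τ (θ n w - θ n w)) U (𝓝 0) := by
      simp [hs_zero]
    have h1 := hφl (fun n => star (θ n w)) (fun n => θ n w) (star w) w (hstar _ _ hz) hz
    have h2 : Tendsto (fun n => rt τ (star (θ n w) * E n (θ n w))) U
        (𝓝 (rt τB (star w * φ w))) := (Complex.continuous_re.tendsto _).comp h1
    have h3 := pair hτ hθ (hstar _ _ hz) hz (hθ.bdd w)
    have h4 : Tendsto (fun n => hs τ (θ n w)) U (𝓝 1) := by
      have h5 := (Complex.continuous_re.tendsto _).comp h3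
      rw [hw.1, hτB.one] at h5
      exact h5
    have h6 : Tendsto (fun n => hs τ (θ n w - E n (θ n w))) U
        (𝓝 (1 - rt τB (star w * φ w))) := by
      have := h4.sub h2
      refine this.congr fun n => ?_
      exact (hE4 n _).symm
    have h7 : 1 - rt τB (star w * φ w) = 0 := by
      have h8 := hall w hw
      have h9 : 0 ≤ 1 - rt τB (star w * φ w) :=
        ge_of_tendsto' h6 fun n => hs_nonneg hτ _
      linarith
    rwa [h7] at h6
  refine ⟨M, hMf, fun b => ⟨fun n => E n (θ n b), fun n => hE2 n _, ?_, ?_⟩⟩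
  · obtain ⟨C, hC⟩ := hθ.bdd b
    exact ⟨2 * C, fun n => (hE5 n _).trans (by linarith [hC n])⟩
  · -- linear combinations
    have hspan : b ∈ Submodule.span ℂ (unitary B : Set B) := by
      rw [CStarAlgebra.span_unitary]; exact Submodule.mem_top
    induction hspan using Submodule.span_induction with
    | mem x hx =>
      exact huni x ⟨(Unitary.mem_iff.1 hx).1, (Unitary.mem_iff.1 hx).2⟩
    | zero =>
      have h1 : Tendsto (fun n => hs τ (θ n 0)) U (𝓝 0) := by
        have := hθ.smul 0 (0 : B)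
        simpa using this
      refine squeeze_zero (fun n => hs_nonneg hτ _) (fun n => hEc n _) h1
    | add x y _ _ hx hy =>
      have h1 : Tendsto (fun n => 3 * hs τ (θ n (x + y) - (θ n x + θ n y)) +
          3 * hs τ (θ n x - E n (θ n x)) + 3 * hs τ (θ n y - E n (θ n y))) U (𝓝 0) := by
        have := (((hθ.add x y).const_mul 3).add (hx.const_mul 3)).add (hy.const_mul 3)
        simpa using this
      refine squeeze_zero (fun n => hs_nonneg hτ _) (fun n => ?_) h1
      have h2 : θ n (x + y) - E n (θ n (x + y)) =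
          ((θ n (x + y) - (θ n x + θ n y)) - E n (θ n (x + y) - (θ n x + θ n y))) +
          ((θ n x - E n (θ n x)) + (θ n y - E n (θ n y))) := by
        simp only [map_sub, map_add]; abel
      have h3 := hEc n (θ n (x + y) - (θ n x + θ n y))
      have h4 := sqrt_hs_add_le hτ ((θ n (x + y) - (θ n x + θ n y)) -
        E n (θ n (x + y) - (θ n x + θ n y))) ((θ n x - E n (θ n x)) + (θ n y - E n (θ n y)))
      have h5 := sqrt_hs_add_le hτ (θ n x - E n (θ n x)) (θ n y - E n (θ n y))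
      rw [h2]
      set A := hs τ ((θ n (x + y) - (θ n x + θ n y)) -
        E n (θ n (x + y) - (θ n x + θ n y)))
      set A₁ := hs τ ((θ n (x + y) - (θ n x + θ n y)) -
        E n (θ n (x + y) - (θ n x + θ n y)) + ((θ n x - E n (θ n x)) + (θ n y - E n (θ n y))))
      have g0 : 0 ≤ A := hs_nonneg hτ _
      have g1 : 0 ≤ A₁ := hs_nonneg hτ _
      have g2 := hs_nonneg hτ (θ n x - E n (θ n x))
      have g3 := hs_nonneg hτ (θ n y - E n (θ n y))
      have s0 := Real.sq_sqrt g0
      have s1 := Real.sq_sqrt g1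
      have s2 := Real.sq_sqrt g2
      have s3 := Real.sq_sqrt g3
      set a0 := Real.sqrt A
      set a1 := Real.sqrt A₁
      set a2 := Real.sqrt (hs τ (θ n x - E n (θ n x)))
      set a3 := Real.sqrt (hs τ (θ n y - E n (θ n y)))
      have p1 : 0 ≤ a1 := Real.sqrt_nonneg _
      have q1 : a1 ≤ a0 + a2 + a3 := by linarith
      have q2 : a1 ^ 2 ≤ (a0 + a2 + a3) ^ 2 := pow_le_pow_left₀ p1 q1 2
      nlinarith [sq_nonneg (a0 - a2), sq_nonneg (a0 - a3), sq_nonneg (a2 - a3)]
    | smul c x _ hx =>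
      have h1 : Tendsto (fun n => 2 * hs τ (θ n (c • x) - c • θ n x) +
          2 * (‖c‖ ^ 2 * hs τ (θ n x - E n (θ n x)))) U (𝓝 0) := by
        have := ((hθ.smul c x).const_mul 2).add ((hx.const_mul (‖c‖ ^ 2)).const_mul 2)
        simpa using this
      refine squeeze_zero (fun n => hs_nonneg hτ _) (fun n => ?_) h1
      have h2 : θ n (c • x) - E n (θ n (c • x)) =
          ((θ n (c • x) - c • θ n x) - E n (θ n (c • x) - c • θ n x)) +
          c • (θ n x - E n (θ n x)) := by
        simp only [map_sub, map_smul, smul_sub]; abel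
      rw [h2]
      refine (hs_add_le hτ _ _).trans ?_
      rw [hs_smulC]
      have h3 := hEc n (θ n (c • x) - c • θ n x)
      linarith

end Helper61.HT
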