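import Pool.Agent.Helper61.HT.StF
import Pool.Agent.Helper61.HT.LibN

/-!
# Module GapB: the gap along the ultrafilter
-/

set_option autoImplicit false
set_option linter.unusedSectionVars false

namespace Helper61.HT

open scoped ComplexOrder
open Filter Topology

section

variable {B N : Type} [CStarAlgebra B] [PartialOrder B] [StarOrderedRing B] [CStarAlgebra N]
  [PartialOrder N] [StarOrderedRing N] {U : Ultrafilter ℕ} {τB : B →ₗ[ℂ] ℂ} {τ : N →ₗ[ℂ] ℂ}
  {θ : ℕ → B → N} {ι : Type}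

/-- `x` represents `θ a`. -/
private def ApG (U : Ultrafilter ℕ) (τ : N →ₗ[ℂ] ℂ) (θ : ℕ → B → N) (x : ℕ → N) (a : B) : Prop :=
  Tendsto (fun n => hs τ (x n - θ n a)) U (𝓝 0)

private lemma apG_of_le (hτ : Trc τ) {x : ℕ → N} {a : B} {f : ℕ → ℝ} (hf : Tendsto f U (𝓝 0))
    (h : ∀ n, hs τ (x n - θ n a) ≤ f n) : ApG U τ θ x a :=
  squeeze_zero (fun _ => hs_nonneg hτ _) h hf

private lemma apG_one (hE : Emb U τB τ θ) : ApG U τ θ (fun _ => 1) 1 := by
  have h := hE.one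
  unfold ApG
  simpa only [hs_sub_comm] using h

private lemma apG_star (hτ : Trc τ) (hE : Emb U τB τ θ) {x : ℕ → N} {a : B}
    (h : ApG U τ θ x a) : ApG U τ θ (fun n => star (x n)) (star a) := by
  refine apG_of_le hτ (f := fun n => 2 * hs τ (x n - θ n a) +
    2 * hs τ (θ n (star a) - star (θ n a))) ?_ ?_
  · simpa using (Tendsto.const_mul 2 h).add ((hE.star a).const_mul 2)
  · intro n
    have e : star (x n) - θ n (star a) =
        star (x n - θ n a) + (star (θ n a) - θ n (star a)) := by rw [star_sub]; abel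
    rw [e]
    refine (hs_add_le hτ _ _).trans ?_
    rw [hs_star hτ, hs_sub_comm (star (θ n a))]

private lemma apG_mul_left (hτ : Trc τ) (hE : Emb U τB τ θ) {v y : ℕ → N} {c b : B}
    (hv : ∀ n, ‖v n‖ ≤ 1) (h : ApG U τ θ v c) (h' : ApG U τ θ y b) :
    ApG U τ θ (fun n => v n * y n) (c * b) := by
  obtain ⟨C, hC⟩ := hE.bdd b
  refine apG_of_le hτ (f := fun n => 2 * hs τ (y n - θ n b) +
    2 * (2 * (C ^ 2 * hs τ (v n - θ n c)) + 2 * hs τ (θ n (c * b) - θ n c * θ n b))) ?_ ?_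
  · simpa using (Tendsto.const_mul 2 h').add
      ((((Tendsto.const_mul (C ^ 2) h).const_mul 2).add ((hE.mul c b).const_mul 2)).const_mul 2)
  · intro n
    have e : v n * y n - θ n (c * b) = v n * (y n - θ n b) +
        ((v n - θ n c) * θ n b + (θ n c * θ n b - θ n (c * b))) := by noncomm_ring
    rw [e]
    refine (hs_add_le hτ _ _).trans ?_
    have h1 := hs_mul_left_le hτ (y := y n - θ n b) (hv n)
    have h2 := hs_add_le hτ ((v n - θ n c) * θ n b) (θ n c * θ n b - θ n (c * b))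
    have h3 := hs_mul_le' hτ (v n - θ n c) (θ n b)
    have h4 : ‖θ n b‖ ^ 2 * hs τ (v n - θ n c) ≤ C ^ 2 * hs τ (v n - θ n c) :=
      mul_le_mul_of_nonneg_right (pow_le_pow_left₀ (norm_nonneg _) (hC n) 2) (hs_nonneg hτ _)
    rw [hs_sub_comm (θ n c * θ n b)] at h2
    linarith

private lemma apG_mul_right (hτ : Trc τ) (hE : Emb U τB τ θ) {v y : ℕ → N} {c b : B}
    (hv : ∀ n, ‖v n‖ ≤ 1) (h : ApG U τ θ v c) (h' : ApG U τ θ y b) :
    ApG U τ θ (fun n => y n * v n) (b * c) := by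
  obtain ⟨C, hC⟩ := hE.bdd b
  refine apG_of_le hτ (f := fun n => 2 * hs τ (y n - θ n b) +
    2 * (2 * (C ^ 2 * hs τ (v n - θ n c)) + 2 * hs τ (θ n (b * c) - θ n b * θ n c))) ?_ ?_
  · simpa using (Tendsto.const_mul 2 h').add
      ((((Tendsto.const_mul (C ^ 2) h).const_mul 2).add ((hE.mul b c).const_mul 2)).const_mul 2)
  · intro n
    have e : y n * v n - θ n (b * c) = (y n - θ n b) * v n +
        (θ n b * (v n - θ n c) + (θ n b * θ n c - θ n (b * c))) := by noncomm_ring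
    rw [e]
    refine (hs_add_le hτ _ _).trans ?_
    have h1 := hs_mul_right_le hτ (y := y n - θ n b) (hv n)
    have h2 := hs_add_le hτ (θ n b * (v n - θ n c)) (θ n b * θ n c - θ n (b * c))
    have h3 := hs_mul_le hτ (θ n b) (v n - θ n c)
    have h4 : ‖θ n b‖ ^ 2 * hs τ (v n - θ n c) ≤ C ^ 2 * hs τ (v n - θ n c) :=
      mul_le_mul_of_nonneg_right (pow_le_pow_left₀ (norm_nonneg _) (hC n) 2) (hs_nonneg hτ _)
    rw [hs_sub_comm (θ n b * θ n c)] at h2
    linarith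

private lemma tau_LA (F : Finset ι) (u : ι → N) (ψ : N →ₗ[ℂ] N) (x y : N) :
    τ (x * LA F u ψ y) = ((1 / 2 : ℝ) : ℂ) * τ (x * ψ y) + ((1 / (4 * F.card) : ℝ) : ℂ) *
      ∑ s ∈ F, (τ ((x * u s) * ψ (star (u s) * y)) + τ ((x * star (u s)) * ψ (u s * y))) := by
  have e : LA F u ψ y = (1 / 2 : ℝ) • ψ y + (1 / (4 * F.card) : ℝ) •
    ∑ s ∈ F, (u s * ψ (star (u s) * y) + star (u s) * ψ (u s * y)) := rfl
  rw [e, mul_add, map_add, mul_smul_comm, mul_smul_comm, map_smul_real, map_smul_real,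
    Finset.mul_sum, map_sum]
  congr 2
  refine Finset.sum_congr rfl fun s _ => ?_
  rw [mul_add, map_add, ← mul_assoc, ← mul_assoc]

private lemma tau_RA (hτ : Trc τ) (F : Finset ι) (u : ι → N) (ψ : N →ₗ[ℂ] N) (x y : N) :
    τ (x * RA F u ψ y) = ((1 / 2 : ℝ) : ℂ) * τ (x * ψ y) + ((1 / (4 * F.card) : ℝ) : ℂ) *
      ∑ s ∈ F, (τ ((star (u s) * x) * ψ (y * u s)) + τ ((u s * x) * ψ (y * star (u s)))) := by
  have e : RA F u ψ y = (1 / 2 : ℝ) • ψ y + (1 / (4 * F.card) : ℝ) •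
    ∑ s ∈ F, (ψ (y * u s) * star (u s) + ψ (y * star (u s)) * u s) := rfl
  rw [e, mul_add, map_add, mul_smul_comm, mul_smul_comm, map_smul_real, map_smul_real,
    Finset.mul_sum, map_sum]
  congr 2
  refine Finset.sum_congr rfl fun s _ => ?_
  rw [mul_add, map_add, ← mul_assoc, ← mul_assoc, hτ.tr (x * ψ (y * u s)),
    hτ.tr (x * ψ (y * star (u s))), ← mul_assoc, ← mul_assoc]

/-- `ψ n` converges to `φ`. -/
private def CvG (U : Ultrafilter ℕ) (τB : B →ₗ[ℂ] ℂ) (τ : N →ₗ[ℂ] ℂ) (θ : ℕ → B → N)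
    (ψ : ℕ → N →ₗ[ℂ] N) (φ : B →ₗ[ℂ] B) : Prop :=
  ∀ (x y : ℕ → N) (a b : B), ApG U τ θ x a → ApG U τ θ y b →
    Tendsto (fun n => τ (x n * ψ n (y n))) U (𝓝 (τB (a * φ b)))

private lemma cvG_LA (hτ : Trc τ) (hE : Emb U τB τ θ) {u : ℕ → ι → N} {b : ι → B}
    (hu : ∀ n i, Un (u n i)) (hub : ∀ i, ApG U τ θ (fun n => u n i) (b i)) (F : Finset ι)
    {ψ : ℕ → N →ₗ[ℂ] N} {φ : B →ₗ[ℂ] B} (h : CvG U τB τ θ ψ φ) :
    CvG U τB τ θ (fun n => LA F (u n) (ψ n)) (LA F b φ) := by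
  intro x y a c hx hy
  have hn : ∀ n i, ‖u n i‖ ≤ 1 := fun n i => norm_unit_le (hu n i)
  have hn' : ∀ n i, ‖star (u n i)‖ ≤ 1 := fun n i => by rw [norm_star]; exact hn n i
  simp only [tau_LA]
  refine (((h x y a c hx hy).const_mul _).add (Tendsto.const_mul _
    (tendsto_finsetSum F fun s _ => ?_)))
  have hs := hub s
  have hs' := apG_star hτ hE hs
  exact (h _ _ _ _ (apG_mul_right hτ hE (fun n => hn n s) hs hx)
      (apG_mul_left hτ hE (fun n => hn' n s) hs' hy)).add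
    (h _ _ _ _ (apG_mul_right hτ hE (fun n => hn' n s) hs' hx)
      (apG_mul_left hτ hE (fun n => hn n s) hs hy))

private lemma cvG_RA (hτ : Trc τ) (hτB : Trc τB) (hE : Emb U τB τ θ) {u : ℕ → ι → N} {b : ι → B}
    (hu : ∀ n i, Un (u n i)) (hub : ∀ i, ApG U τ θ (fun n => u n i) (b i)) (F : Finset ι)
    {ψ : ℕ → N →ₗ[ℂ] N} {φ : B →ₗ[ℂ] B} (h : CvG U τB τ θ ψ φ) :
    CvG U τB τ θ (fun n => RA F (u n) (ψ n)) (RA F b φ) := by
  intro x y a c hx hy
  have hn : ∀ n i, ‖u n i‖ ≤ 1 := fun n i => norm_unit_le (hu n i)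
  have hn' : ∀ n i, ‖star (u n i)‖ ≤ 1 := fun n i => by rw [norm_star]; exact hn n i
  simp only [tau_RA hτ, tau_RA hτB]
  refine (((h x y a c hx hy).const_mul _).add (Tendsto.const_mul _
    (tendsto_finsetSum F fun s _ => ?_)))
  have hs := hub s
  have hs' := apG_star hτ hE hs
  exact (h _ _ _ _ (apG_mul_left hτ hE (fun n => hn' n s) hs' hx)
      (apG_mul_right hτ hE (fun n => hn n s) hs hy)).add
    (h _ _ _ _ (apG_mul_left hτ hE (fun n => hn n s) hs hx)
      (apG_mul_right hτ hE (fun n => hn' n s) hs' hy))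

private lemma cvG_TM (hτ : Trc τ) (hτB : Trc τB) (hE : Emb U τB τ θ) {u : ℕ → ι → N} {b : ι → B}
    (hu : ∀ n i, Un (u n i)) (hub : ∀ i, ApG U τ θ (fun n => u n i) (b i)) (F : Finset ι)
    {ψ : ℕ → N →ₗ[ℂ] N} {φ : B →ₗ[ℂ] B} (h : CvG U τB τ θ ψ φ) (k : ℕ) :
    CvG U τB τ θ (fun n => (TM F (u n))^[k] (ψ n)) ((TM F b)^[k] φ) := by
  induction k with
  | zero => exact h
  | succ k ih =>
    simp only [Function.iterate_succ', Function.comp_apply]
    exact cvG_LA hτ hE hu hub F (cvG_RA hτ hτB hE hu hub F ih)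

/-- lower bound on all unitaries -/
private def LoG (τ : N →ₗ[ℂ] ℂ) (c : ℝ) (ψ : N →ₗ[ℂ] N) : Prop :=
  ∀ w, Un w → c ≤ rt τ (star w * ψ w)

private lemma Un_mul {v w : N} (hv : Un v) (hw : Un w) : Un (v * w) := by
  constructor
  · rw [star_mul]
    calc Star.star w * Star.star v * (v * w) = Star.star w * (Star.star v * v) * w := by
          noncomm_ring
      _ = 1 := by rw [hv.1, mul_one, hw.1]
  · rw [star_mul]
    calc v * w * (Star.star w * Star.star v) = v * (w * Star.star w) * Star.star v := by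
          noncomm_ring
      _ = 1 := by rw [hw.2, mul_one, hv.2]

private lemma avg_le {c x : ℝ} {F : Finset ι} (hF : F.Nonempty) {f g : ι → ℝ} (hx : c ≤ x)
    (hf : ∀ s ∈ F, c ≤ f s) (hg : ∀ s ∈ F, c ≤ g s) :
    c ≤ 1 / 2 * x + 1 / (4 * F.card) * ∑ s ∈ F, (f s + g s) := by
  have hc : (0 : ℝ) < F.card := by exact_mod_cast hF.card_pos
  have h1 : (F.card : ℝ) * (c + c) ≤ ∑ s ∈ F, (f s + g s) := by
    rw [← nsmul_eq_mul]
    exact Finset.card_nsmul_le_sum _ _ _ fun s hs => add_le_add (hf s hs) (hg s hs)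
  have h2 : 1 / (4 * (F.card : ℝ)) * ((F.card : ℝ) * (c + c)) ≤
      1 / (4 * F.card) * ∑ s ∈ F, (f s + g s) :=
    mul_le_mul_of_nonneg_left h1 (by positivity)
  have h3 : 1 / (4 * (F.card : ℝ)) * ((F.card : ℝ) * (c + c)) = c / 2 := by
    field_simp
    ring
  linarith

private lemma loG_LA {c : ℝ} {ψ : N →ₗ[ℂ] N} {F : Finset ι} (hF : F.Nonempty) {u : ι → N}
    (hu : ∀ s, Un (u s)) (h : LoG τ c ψ) : LoG τ c (LA F u ψ) := by
  intro w hw
  have e : rt τ (star w * LA F u ψ w) = 1 / 2 * rt τ (star w * ψ w) + 1 / (4 * F.card) *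
      ∑ s ∈ F, (rt τ ((star w * u s) * ψ (star (u s) * w)) +
        rt τ ((star w * star (u s)) * ψ (u s * w))) := by
    unfold rt
    rw [tau_LA, Complex.add_re, Complex.re_ofReal_mul, Complex.re_ofReal_mul, Complex.re_sum]
    rfl
  rw [e]
  refine avg_le hF (h w hw) (fun s _ => ?_) (fun s _ => ?_)
  · have := h _ (Un_mul (hu s).star hw)
    rwa [star_mul, star_star] at this
  · have := h _ (Un_mul (hu s) hw)
    rwa [star_mul] at this

private lemma loG_RA (hτ : Trc τ) {c : ℝ} {ψ : N →ₗ[ℂ] N} {F : Finset ι} (hF : F.Nonempty)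
    {u : ι → N} (hu : ∀ s, Un (u s)) (h : LoG τ c ψ) : LoG τ c (RA F u ψ) := by
  intro w hw
  have e : rt τ (star w * RA F u ψ w) = 1 / 2 * rt τ (star w * ψ w) + 1 / (4 * F.card) *
      ∑ s ∈ F, (rt τ ((star (u s) * star w) * ψ (w * u s)) +
        rt τ ((u s * star w) * ψ (w * star (u s)))) := by
    unfold rt
    rw [tau_RA hτ, Complex.add_re, Complex.re_ofReal_mul, Complex.re_ofReal_mul, Complex.re_sum]
    rfl
  rw [e]
  refine avg_le hF (h w hw) (fun s _ => ?_) (fun s _ => ?_)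
  · have := h _ (Un_mul hw (hu s))
    rwa [star_mul] at this
  · have := h _ (Un_mul hw (hu s).star)
    rwa [star_mul, star_star] at this

private lemma loG_TM (hτ : Trc τ) {c : ℝ} {ψ : N →ₗ[ℂ] N} {F : Finset ι} (hF : F.Nonempty)
    {u : ι → N} (hu : ∀ s, Un (u s)) (h : LoG τ c ψ) (k : ℕ) : LoG τ c ((TM F u)^[k] ψ) := by
  induction k with
  | zero => exact h
  | succ k ih =>
    rw [Function.iterate_succ', Function.comp_apply]
    exact loG_LA hF hu (loG_RA hτ hF hu ih)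

private lemma scp_zero : SCP τ (0 : N →ₗ[ℂ] N) where
  map_star := fun x => by simp
  nonneg := fun x _ => by simp
  cp := fun m x y => by simp
  symm := fun x y => by simp
  pos := fun x => by simp [rt]
  one := by simpa using (zero_le_one : (0 : N) ≤ 1)

end

theorem pGapB (hLim : StLim) (hEn : StEnM) (hS : StScp) : StGapB := by
  intro B _ _ _ τB hτB hcB hUn δ hδ
  obtain ⟨V, κ, hV, hκ, hU⟩ := hUn (δ / 2) (by linarith)
  refine ⟨V, 1 / κ, hV, ?_⟩
  intro N _ _ _ τ U θ ι b u S hτ hE hb hu hub hSV F hSF hF k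
  by_contra hcon
  rw [← Ultrafilter.eventually_not] at hcon
  have hex : ∀ n, ∃ ψ : N →ₗ[ℂ] N, SCP τ ψ ∧ (¬ GapF τ F (u n) S k (1 / κ) δ →
      1 / κ * EnM τ S (u n) ψ + δ < gap τ F (u n) k ψ) := by
    intro n
    by_cases h : GapF τ F (u n) S k (1 / κ) δ
    · exact ⟨0, scp_zero, fun h' => absurd h h'⟩
    · have h' := h
      unfold GapF at h'
      push Not at h'
      obtain ⟨ψ, h1, h2⟩ := h'
      exact ⟨ψ, h1, fun _ => h2⟩
  choose ψ hψ hψg using hex
  obtain ⟨φ, hφ, hφcp, -, hφlim⟩ := hLim N τ B τB U θ ψ hτ hτB hcB hE hψ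
  have hcv : CvG U τB τ θ ψ φ := fun x y a c hx hy => hφlim x y a c hx hy
  have hub' : ∀ i, ApG U τ θ (fun n => u n i) (b i) := hub
  have hbad : ∀ᶠ n in (U : Filter ℕ), 1 / κ * EnM τ S (u n) (ψ n) + δ < gap τ F (u n) k (ψ n) := by
    filter_upwards [hcon] with n hn using hψg n hn
  have hEpos : ∀ n (S' : Finset ι), 0 ≤ EnM τ S' (u n) (ψ n) := fun n S' =>
    ((hEn N τ ι F (u n) hτ hF (hu n)).1 (ψ n) (hψ n) S').1
  have hgap1 : ∀ n, gap τ F (u n) k (ψ n) ≤ 1 := by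
    intro n
    have h1 : rt τ (ψ n 1) ≤ 1 := by
      have := rt_mono hτ (hψ n).one
      rwa [rt_one hτ] at this
    have h2 : 0 ≤ rt τ (((TM F (u n))^[k] (ψ n)) 1) :=
      rt_nonneg hτ (((hS N τ hτ).2.2.2 ι F (u n) (ψ n) k hF (hu n) (hψ n)).1.nonneg 1 zero_le_one)
    unfold gap
    linarith
  have hEk : ∀ᶠ n in (U : Filter ℕ), EnM τ S (u n) (ψ n) ≤ κ := by
    filter_upwards [hbad] with n hn
    have h1 := hgap1 n
    have h2 : 1 / κ * EnM τ S (u n) (ψ n) ≤ 1 := by linarith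
    rw [one_div, inv_mul_le_iff₀ hκ, mul_one] at h2
    exact h2
  -- the limits
  have hone := apG_one hE
  have hlim1 : Tendsto (fun n => rt τ (ψ n 1)) U (𝓝 (rt τB (φ 1))) := by
    have h := hcv _ _ _ _ hone hone
    have h' := (Complex.continuous_re.tendsto _).comp h
    simpa [rt, Function.comp_def] using h'
  have hlimi : ∀ i, Tendsto (fun n => rt τ (star (u n i) * ψ n (u n i))) U
      (𝓝 (rt τB (star (b i) * φ (b i)))) := by
    intro i
    have h := hcv _ _ _ _ (apG_star hτ hE (hub' i)) (hub' i)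
    exact (Complex.continuous_re.tendsto _).comp h
  have hlimk : Tendsto (fun n => rt τ (((TM F (u n))^[k] (ψ n)) 1)) U
      (𝓝 (rt τB (((TM F b)^[k] φ) 1))) := by
    have h := cvG_TM hτ hτB hE hu hub' F hcv k _ _ _ _ hone hone
    have h' := (Complex.continuous_re.tendsto _).comp h
    simpa [rt, Function.comp_def] using h'
  have hVb : ∀ v ∈ V, rt τB (φ 1) - rt τB (star v * φ v) ≤ κ := by
    intro v hv
    obtain ⟨i, hi, rfl⟩ := hSV v hv
    have h1 : Tendsto (fun n => 2 * (rt τ (ψ n 1) - rt τ (star (u n i) * ψ n (u n i)))) U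
        (𝓝 (2 * (rt τB (φ 1) - rt τB (star (b i) * φ (b i))))) :=
      (hlim1.sub (hlimi i)).const_mul 2
    have h2 : ∀ᶠ n in (U : Filter ℕ),
        2 * (rt τ (ψ n 1) - rt τ (star (u n i) * ψ n (u n i))) ≤ κ := by
      filter_upwards [hEk] with n hn
      refine le_trans ?_ hn
      unfold EnM
      refine Finset.single_le_sum (f := fun s => 2 * (rt τ (ψ n 1) -
        rt τ (star (u n s) * ψ n (u n s)))) (fun s _ => ?_) hi
      have := hEpos n {s}
      unfold EnM at this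
      rwa [Finset.sum_singleton] at this
    have h3 := le_of_tendsto h1 h2
    have h4 : 0 ≤ 2 * (rt τB (φ 1) - rt τB (star (b i) * φ (b i))) := by
      refine ge_of_tendsto h1 (Eventually.of_forall fun n => ?_)
      have := hEpos n {i}
      unfold EnM at this
      rwa [Finset.sum_singleton] at this
    linarith
  have hlo : LoG τB (rt τB (φ 1) - δ / 2) φ := by
    intro w hw
    have := hU φ hφ hφcp hVb w hw
    linarith
  have hlok := loG_TM hτB hF hb hlo k 1 ⟨by rw [star_one, one_mul], by rw [star_one, one_mul]⟩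
  rw [star_one, one_mul] at hlok
  have hgl : Tendsto (fun n => gap τ F (u n) k (ψ n)) U
      (𝓝 (rt τB (φ 1) - rt τB (((TM F b)^[k] φ) 1))) := hlim1.sub hlimk
  have hge : δ ≤ rt τB (φ 1) - rt τB (((TM F b)^[k] φ) 1) := by
    refine ge_of_tendsto hgl ?_
    filter_upwards [hbad] with n hn
    have h1 : 0 ≤ 1 / κ * EnM τ S (u n) (ψ n) := mul_nonneg (by positivity) (hEpos n S)
    linarith
  linarith

end Helper61.HT
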