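import Pool.Agent.Helper61.HT.StC

/-!
# Project HT: additional statements (parts of Spec, Cmp, LQ, FF, UL, D, Init, R, GapT)
-/

namespace Helper61.HT

open scoped ComplexOrder
open Filter Topology

/-! ## spectral projections, polar decomposition -/

/-- `E` is the family of the spectral projections `1_{(l, ∞)}(a)`. -/
structure SpecF {N : Type} [CStarAlgebra N] [PartialOrder N] [StarOrderedRing N] (a : N)
    (E : ℝ → N) : Prop where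
  pr : ∀ l, Pr (E l)
  supp : ∀ l, IsSupp ((a - l • (1 : N))⁺) (E l)
  anti : ∀ l l', l ≤ l' → E l' ≤ E l
  comm : ∀ l x, x * a = a * x → x * E l = E l * x
  lo : ∀ l, l • E l ≤ E l * a * E l
  hi : ∀ l, (1 - E l) * a * (1 - E l) ≤ l • (1 - E l)
  unit : ∀ l v, Un v → IsSupp ((v * a * star v - l • (1 : N))⁺) (v * E l * star v)
  lay : ∀ m : ℕ, 0 < m →
    ‖a - (1 / m : ℝ) • ∑ j ∈ Finset.range m, E (((j : ℝ) + 1) / m)‖ ≤ 1 / m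

def StSpec : Prop := ∀ (N : Type) [CStarAlgebra N] [PartialOrder N] [StarOrderedRing N]
  (τ : N →ₗ[ℂ] ℂ), Trc τ → Cpl τ → ∀ a : N, 0 ≤ a → a ≤ 1 → ∃ E, SpecF a E

/-- Polar decomposition. -/
def StPol : Prop := ∀ (N : Type) [CStarAlgebra N] [PartialOrder N] [StarOrderedRing N]
  (τ : N →ₗ[ℂ] ℂ), Trc τ → Cpl τ → ∀ x : N, ∃ V s : N, 0 ≤ s ∧ s * s = star x * x ∧ x = V * s ∧
    Pr (star V * V) ∧ Pr (V * star V) ∧ star V * V * s = s ∧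
    IsSupp (star x * x) (star V * V) ∧ IsSupp (x * star x) (V * star V)

/-! ## II_1 factors -/

/-- Comparison of projections. -/
def StCmp : Prop := ∀ (N : Type) [CStarAlgebra N] [PartialOrder N] [StarOrderedRing N]
  (τ : N →ₗ[ℂ] ℂ), II1 τ → ∀ p q : N, Pr p → Pr q → rt τ p ≤ rt τ q →
  ∃ v : N, star v * v = p ∧ Pr (v * star v) ∧ v * star v ≤ q

/-- Divisibility of projections. -/
def StDiv : Prop := ∀ (N : Type) [CStarAlgebra N] [PartialOrder N] [StarOrderedRing N]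
  (τ : N →ₗ[ℂ] ℂ), II1 τ → ∀ p : N, Pr p → ∀ t : ℝ, 0 ≤ t → t ≤ rt τ p →
  ∃ e : N, Pr e ∧ e ≤ p ∧ rt τ e = t

/-- A system of `L × L` matrix units. -/
structure MU {N : Type} [CStarAlgebra N] {L : ℕ} (E : Fin L → Fin L → N) : Prop where
  st : ∀ i j, star (E i j) = E j i
  mul : ∀ i j k l, E i j * E k l = if j = k then E i l else 0
  sum : ∑ i, E i i = 1

/-- Matrix units containing a given projection of trace `j / L`. -/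
def StMU : Prop := ∀ (N : Type) [CStarAlgebra N] [PartialOrder N] [StarOrderedRing N]
  (τ : N →ₗ[ℂ] ℂ), II1 τ → ∀ (L j : ℕ), 0 < L → j ≤ L → ∀ p : N, Pr p → rt τ p = j / L →
  ∃ E : Fin L → Fin L → N, MU E ∧
    p = ∑ i ∈ Finset.univ.filter (fun i : Fin L => (i : ℕ) < j), E i i

/-- Matrix units whose relative commutant is almost orthogonal to a finite set of elements of
trace zero. -/
def StLQ0 : Prop := ∀ (N : Type) [CStarAlgebra N] [PartialOrder N] [StarOrderedRing N]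
  (τ : N →ₗ[ℂ] ℂ), II1 τ → ∀ (Y : Finset N) (ε : ℝ) (L₀ : ℕ), 0 < ε →
  ∃ L ≥ L₀, 0 < L ∧ ∃ E : Fin L → Fin L → N, MU E ∧
    ∀ y ∈ Y, hs τ ((1 / L : ℝ) • ∑ a, ∑ b, E a b * y * E b a - τ y • (1 : N)) ≤ ε

/-- Matrix units in general position to a finite set. -/
def StLQ : Prop := ∀ (N : Type) [CStarAlgebra N] [PartialOrder N] [StarOrderedRing N]
  (τ : N →ₗ[ℂ] ℂ), II1 τ → ∀ (Y : Finset N) (ε : ℝ) (L₀ : ℕ), 0 < ε →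
  ∃ L ≥ L₀, 0 < L ∧ ∃ E : Fin L → Fin L → N, MU E ∧
    ∀ y ∈ Y, ∑ l, hs τ (E l l * y * E l l) ≤ ‖τ y‖ ^ 2 + ε

/-- Almost partial isometries are close to partial isometries. -/
def StPE : Prop := ∀ (N : Type) [CStarAlgebra N] [PartialOrder N] [StarOrderedRing N]
  (τ : N →ₗ[ℂ] ℂ), II1 τ → ∀ e q z : N, Pr e → Pr q → q * z = z → z * e = z →
  rt τ e ≤ rt τ q → ∃ V : N, star V * V = e ∧ q * V = V ∧
    hs τ (V - z) ≤ hs τ (star z * z - e)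

/-! ## random selection -/

/-- The random selection, core part: `x = ∑ w_{ij} E_{A(i,m), pos(i,m,j)}` with a random map `A`. -/
def StRS : Prop := ∀ (N : Type) [CStarAlgebra N] [PartialOrder N] [StarOrderedRing N]
  (τ : N →ₗ[ℂ] ℂ) (ι : Type) (F : Finset ι) (u : ι → N) (Q : N) (r : ℕ) (d n : Fin r → ℕ)
  (w : ∀ i, Fin (d i) → N) (L : ℕ) (E : Fin L → Fin L → N)
  (pos : (Σ i : Fin r, Fin (n i) × Fin (d i)) → Fin L) (c ε δ : ℝ),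
  Trc τ → (∀ s, Un (u s)) → Pr Q → 0 < L → MU E → Function.Injective pos →
  (∀ i j j', τ (star (w i j) * w i j') = if j = j' then 1 else 0) →
  (∀ i j j', ∑ l, hs τ (E l l * (star (w i j) * w i j') * E l l) ≤
    ‖τ (star (w i j) * w i j')‖ ^ 2 + ε) →
  0 ≤ c → 0 ≤ ε → 0 < δ → ∑ i, ((n i : ℝ) / L) • ∑ j, w i j * star (w i j) ≤ c • (1 : N) →
  ∃ x : N, x * (∑ b, E (pos b) (pos b)) = x ∧
    hs τ (star x * x - ∑ b, E (pos b) (pos b)) ≤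
      6 * (c * ∑ i, (n i : ℝ) * d i / L + ε * ∑ i, (n i : ℝ) * d i ^ 2 / L) + δ ∧
    hs τ (Q * x) ≤ 6 * rt τ ((∑ i, ((n i : ℝ) / L) • ∑ j, w i j * star (w i j)) * Q) + δ ∧
    ∑ s ∈ F, hs τ ((u s * Q - Q * u s) * x) ≤ 6 * c * En τ F u Q + δ ∧
    ∑ s ∈ F, hs τ ((star (u s) * Q - Q * star (u s)) * x) ≤ 6 * c * En τ F u Q + δ ∧
    ∑ s ∈ F, hs τ (u s * x - x * ∑ i, ∑ m : Fin (n i), ∑ j, ∑ l,
        τ (star (w i l) * u s * w i j) • E (pos ⟨i, m, l⟩) (pos ⟨i, m, j⟩)) ≤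
      6 * ∑ s ∈ F, ∑ i, (n i : ℝ) / L *
        (d i - ∑ j, ∑ l, ‖τ (star (w i l) * u s * w i j)‖ ^ 2) + δ ∧
    ∑ s ∈ F, hs τ (star (u s) * x - x * ∑ i, ∑ m : Fin (n i), ∑ j, ∑ l,
        τ (star (w i l) * star (u s) * w i j) • E (pos ⟨i, m, l⟩) (pos ⟨i, m, j⟩)) ≤
      6 * ∑ s ∈ F, ∑ i, (n i : ℝ) / L *
        (d i - ∑ j, ∑ l, ‖τ (star (w i l) * u s * w i j)‖ ^ 2) + δ

/-- From `x` to the almost invariant projection `q` and the almost partial isometry `z`. -/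
def StRy : Prop := ∀ (g : ℕ) (εf : ℝ), 0 < g → 0 < εf → ∃ ν > (0 : ℝ),
  ∀ (N : Type) [CStarAlgebra N] [PartialOrder N] [StarOrderedRing N]
  (τ : N →ₗ[ℂ] ℂ) (ι : Type) (F : Finset ι) (u θ θ' : ι → N) (e x Q : N) (ω : ℝ),
  Trc τ → Cpl τ → F.card = g → (∀ s, Un (u s)) → Pr e → e ≠ 0 → Pr Q → x * e = x →
  (∀ s, ‖θ s‖ ≤ 1 ∧ star (θ s) = θ' s) → 0 < ω → ω ≤ 1 →
  hs τ (star x * x - e) ≤ ω ^ 2 * rt τ e → hs τ (Q * x) ≤ ω * rt τ e →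
  ∑ s ∈ F, (hs τ (u s * x - x * θ s) + hs τ (star (u s) * x - x * θ' s) +
    hs τ ((u s * Q - Q * u s) * x) + hs τ ((star (u s) * Q - Q * star (u s)) * x)) ≤
      ν * rt τ e →
  ∃ q z : N, Pr q ∧ q * Q = 0 ∧ En τ F u q ≤ εf * rt τ e ∧ ‖z‖ ≤ 1 ∧ q * z = z ∧ z * e = z ∧
    hs τ (z - x) ≤ 100 * Real.sqrt ω * rt τ e ∧
    hs τ (star z * z - e) ≤ 100 * Real.sqrt ω * rt τ e ∧
    |rt τ q - rt τ e| ≤ 100 * Real.sqrt ω * rt τ e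

/-! ## families of vectors as finite rank operators -/

section FF

variable {H : Type} [NormedAddCommGroup H] [InnerProductSpace ℂ H]
  {J K : Type} [Fintype J] [Fintype K]

/-- `Tr(D_v D_w)`. -/
noncomputable def crs (v : J → H) (w : K → H) : ℝ := ∑ i, ∑ j, ‖inner ℂ (v i) (w j)‖ ^ 2

/-- `‖D_v - D_w‖²` (Hilbert-Schmidt norm). -/
noncomputable def dd (v : J → H) (w : K → H) : ℝ := crs v v + crs w w - 2 * crs v w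

end FF

/-- Basic inequalities for Hilbert-Schmidt norms of `D_v - D_w`. -/
def StFF1 : Prop := ∀ (H : Type) [NormedAddCommGroup H] [InnerProductSpace ℂ H],
  (∀ (J K : Type) [Fintype J] [Fintype K] (v : J → H) (w : K → H),
    0 ≤ dd v w ∧ crs v w ^ 2 ≤ crs v v * crs w w) ∧
  (∀ (J K L : Type) [Fintype J] [Fintype K] [Fintype L] (v : J → H) (w : K → H) (z : L → H),
    Real.sqrt (dd v z) ≤ Real.sqrt (dd v w) + Real.sqrt (dd w z)) ∧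
  (∀ (J K : Type) [Fintype J] [Fintype K] (v : J → H) (w : K → H) (A : H →ₗ[ℂ] H),
    (∀ x, ‖A x‖ ≤ ‖x‖) → crs (A ∘ v) (A ∘ v) ≤ crs v v ∧ dd (A ∘ v) (A ∘ w) ≤ dd v w) ∧
  (∀ (J : Type) [Fintype J] (v : J → H) (A : H →ₗ[ℂ] H),
    (∀ x y, inner ℂ (A x) y = inner ℂ x (A y)) → (∀ x, ‖A x‖ ^ 2 ≤ (inner ℂ x (A x)).re) →
    crs (A ∘ v) (A ∘ v) ≤ crs v (A ∘ v)) ∧
  (∀ (J : Type) [Fintype J] (v : J → H) (B C : H →ₗ[ℂ] H), (∀ x, ‖B x‖ ≤ ‖x‖) →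
    (∀ x, ‖C x‖ ≤ ‖x‖) → dd (B ∘ v) (C ∘ v) ≤
      4 * (∑ i, ∑ j, inner ℂ (v i) (v j) * inner ℂ (B (v j) - C (v j)) (B (v i) - C (v i))).re) ∧
  (∀ (J : Type) [Fintype J] (v : J → H) (x : H),
    (∑ j, ‖inner ℂ (v j) x‖ ^ 2) ^ 2 ≤ crs v v * (‖x‖ ^ 2) ^ 2) ∧
  ∀ (κ : Type) [Fintype κ] (J : κ → Type) [∀ a, Fintype (J a)] (v : ∀ a, J a → H) (B : κ → ℝ),
    (∀ a, 0 ≤ B a ∧ crs (v a) (v a) ≤ B a ^ 2) →
    crs (fun p : Σ a, J a => v p.1 p.2) (fun p : Σ a, J a => v p.1 p.2) ≤ (∑ a, B a) ^ 2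

/-- Spectral form of `D_v`, positive part of `D_v - D_w`. -/
def StFF2 : Prop := ∀ (H : Type) [NormedAddCommGroup H] [InnerProductSpace ℂ H],
  (∀ (J : Type) [Fintype J] (v : J → H), ∃ (d : ℕ) (e : Fin d → H) (lam : Fin d → ℝ),
    Orthonormal ℂ e ∧ (∀ i, 0 < lam i) ∧ (∀ i, e i ∈ Submodule.span ℂ (Set.range v)) ∧
    (∀ x y, ∑ j, inner ℂ x (v j) * inner ℂ (v j) y =
      ∑ i, (lam i : ℂ) * (inner ℂ x (e i) * inner ℂ (e i) y)) ∧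
    crs v v = ∑ i, lam i ^ 2) ∧
  ∀ (J K : Type) [Fintype J] [Fintype K] (v : J → H) (w : K → H), ∃ (d : ℕ) (z : Fin d → H),
    (∀ i, z i ∈ Submodule.span ℂ (Set.range v ∪ Set.range w)) ∧
    (∀ x, ∑ j, ‖inner ℂ (v j) x‖ ^ 2 ≤ ∑ j, ‖inner ℂ (w j) x‖ ^ 2 + ∑ j, ‖inner ℂ (z j) x‖ ^ 2) ∧
    crs z z ≤ dd v w

/-! ## unitality lemma -/

/-- Symmetric completely positive maps as operators on `L²`. -/
def StPhi : Prop := ∀ (N : Type) [CStarAlgebra N] [PartialOrder N] [StarOrderedRing N]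
  (τ : N →ₗ[ℂ] ℂ) (φ : N →ₗ[ℂ] N), Trc τ → SCP τ φ →
  (∀ x, hs τ (φ x) ≤ hs τ x ∧ hs τ (φ x) ≤ rt τ (star x * φ x)) ∧
  (∀ x y, rt τ (star x * φ y) ^ 2 ≤ rt τ (star x * φ x) * rt τ (star y * φ y)) ∧
  (∀ v x, Un v → hs τ (φ (v * x) - v * φ x) ≤
      ‖x‖ ^ 2 * (2 * (rt τ (φ 1) - rt τ (star v * φ v))) ∧
    hs τ (φ (x * v) - φ x * v) ≤ ‖x‖ ^ 2 * (2 * (rt τ (φ 1) - rt τ (star v * φ v)))) ∧
  ∀ (ι : Type) (S : Finset ι) (u : ι → N), (∀ s, Un (u s)) →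
    En τ S u (φ 1) ≤ 4 * EnM τ S u φ

/-- The cost of `φ³`. -/
def StCost : Prop := ∀ (N : Type) [CStarAlgebra N] [PartialOrder N] [StarOrderedRing N]
  (τ : N →ₗ[ℂ] ℂ) (φ : N →ₗ[ℂ] N) (b : ℝ) (m : ℕ) (E : Fin m → N), Trc τ → SCP τ φ → 0 ≤ b →
  (∀ x, rt τ (star x * φ x) ≤ b * hs τ x + dfm τ E x) →
  ∃ (m' : ℕ) (w : Fin m' → N),
    (∀ x, rt τ (star x * φ (φ (φ x))) ≤ 2 * b ^ 2 * hs τ x + dfm τ w x) ∧
    (∀ x, dfm τ w x ≤ 2 * hs τ x) ∧ hsf τ w ≤ 4 * (1 + b) ^ 2 * hsf τ E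

/-- The iteration in the unitality lemma. -/
def StIter : Prop := ∀ (J g : ℕ) (e₁ : ℝ), 0 < J → 0 < e₁ → ∃ e₀ > (0 : ℝ),
  ∀ (N : Type) [CStarAlgebra N] [PartialOrder N] [StarOrderedRing N]
  (τ : N →ₗ[ℂ] ℂ) (ι : Type) (F : Finset ι) (u : ι → N) (q₁ : N) (θ : N →ₗ[ℂ] N) (τ₀ : ℝ),
  Trc τ → F.card = g → (∀ s, Un (u s)) → Pr q₁ → SCP τ θ → 0 < τ₀ → rt τ (θ 1) ≤ τ₀ →
  rt τ q₁ ≤ τ₀ → q₁ ≤ (4 : ℝ) • θ 1 → En τ F u q₁ ≤ e₀ * τ₀ → EnM τ F u θ ≤ e₀ * τ₀ →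
  ∃ φ : N →ₗ[ℂ] N, SCP τ φ ∧ (∀ x, φ x = q₁ * φ (q₁ * x * q₁) * q₁) ∧ φ 1 ≤ q₁ ∧
    J * (rt τ q₁ - rt τ (φ 1)) ^ 4 ≤ 16 * τ₀ ^ 4 ∧ EnM τ F u φ ≤ e₁ * τ₀ ∧
    ∀ (b : ℝ) (m : ℕ) (E : Fin m → N), 0 ≤ b →
      (∀ x, rt τ (star x * θ x) ≤ b * hs τ x + dfm τ E x) →
      ∃ (m' : ℕ) (w : Fin m' → N),
        (∀ x, rt τ (star x * φ x) ≤ J * b * hs τ x + dfm τ w x) ∧
        hsf τ w ≤ J ^ 2 * hsf τ E

/-! ## part D -/

/-- `‖L_z D_w‖²` (Hilbert-Schmidt norm). -/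
noncomputable def lhs {N : Type} [CStarAlgebra N] (τ : N →ₗ[ℂ] ℂ) {J : Type} [Fintype J]
    (z : N) (w : J → N) : ℝ :=
  (∑ i, ∑ j, τ (star (w i) * w j) * τ (star (z * w j) * (z * w i))).re

/-- `Tr(D_v D_w)` for families in `N`. -/
noncomputable def crt {N : Type} [CStarAlgebra N] (τ : N →ₗ[ℂ] ℂ) {J K : Type} [Fintype J]
    [Fintype K] (v : J → N) (w : K → N) : ℝ := ∑ i, ∑ j, ‖τ (star (v i) * w j)‖ ^ 2

/-- The average `T_L^k D_v` is again of the form `D_w`. -/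
def StTL : Prop := ∀ (N : Type) [CStarAlgebra N] [PartialOrder N] [StarOrderedRing N]
  (τ : N →ₗ[ℂ] ℂ) (ι : Type) (F : Finset ι) (u : ι → N) (m : ℕ) (v : Fin m → N) (k : ℕ),
  Trc τ → F.Nonempty → (∀ s, Un (u s)) →
  ∃ (m' : ℕ) (w : Fin m' → N), (∀ x y, ker τ w x y = (TLf F u)^[k] (ker τ v) x y) ∧
    hsf τ w = avh τ F u k v ∧ hsf τ w ≤ hsf τ v ∧
    ((∀ x, dfm τ v x ≤ 2 * hs τ x) → ∀ x, dfm τ w x ≤ 2 * hs τ x) ∧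
    hsf τ v + hsf τ w - 2 * crt τ v w ≤ hsf τ v - hsf τ w ∧
    ∑ s ∈ F, (hsf τ w - crt τ w (fun j => u s * w j)) ≤ 2 * F.card * hsf τ v / (2 * k + 1)

/-- Cutting a family to bounded left density by `h = (1 + S)⁻¹`. -/
def StDn : Prop := ∀ (N : Type) [CStarAlgebra N] [PartialOrder N] [StarOrderedRing N]
  (τ : N →ₗ[ℂ] ℂ) (m : ℕ) (w : Fin m → N) (Φ τ₀ : ℝ), Trc τ → 0 < Φ → 0 < τ₀ → hsf τ w ≤ Φ →
  ∃ h : N, 0 ≤ h ∧ h ≤ 1 ∧ rt τ (1 - h) ≤ τ₀ / 10 ^ 8 ∧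
    h * (∑ i, ∑ j, τ (star (w i) * w j) • (w i * star (w j))) * h ≤
      (10 ^ 8 * Φ / (4 * τ₀)) • (1 : N) ∧
    (∀ z, lhs τ (z * h) w ≤ 10 ^ 8 * Φ / (4 * τ₀) * hs τ z) ∧
    ∀ v, Un v →
      hs τ (v * h - h * v) ≤ τ₀ / (10 ^ 8 * Φ) * (2 * Real.sqrt (hsf τ w) *
        Real.sqrt (2 * hsf τ w - 2 * crt τ w (fun j => v * w j))) ∧
      lhs τ (h - v * h * star v) w ≤ 2 * Real.sqrt (hsf τ w) *
        Real.sqrt (2 * hsf τ w - 2 * crt τ w (fun j => v * w j))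

/-- Connes' trick: a good level of `A = ∑ λ_i |e_i⟩⟨e_i|`. -/
def StConn : Prop := ∀ (H : Type) [NormedAddCommGroup H] [InnerProductSpace ℂ H] (ι : Type)
  (F : Finset ι) (U : ι → H →ₗ[ℂ] H) (d : ℕ) (e : Fin d → H) (lam : Fin d → ℝ) (a₀ η : ℝ),
  (∀ s x, ‖U s x‖ = ‖x‖) → Orthonormal ℂ e → (∀ i, 0 < lam i) → 0 < a₀ → 0 ≤ η →
  ∑ s ∈ F, (2 * ∑ i, lam i ^ 2 - 2 * ∑ i, ∑ j, lam i * lam j * ‖inner ℂ (e i) (U s (e j))‖ ^ 2) ≤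
    η ^ 2 * ∑ i, lam i ^ 2 →
  ∃ t ∈ Set.Icc (a₀ / 2) a₀,
    ∑ s ∈ F, (({i | t < lam i} : Finset (Fin d)).card -
      ∑ i with t < lam i, ∑ j with t < lam j, ‖inner ℂ (e i) (U s (e j))‖ ^ 2) ≤
    2 * Real.sqrt F.card * η / a₀ ^ 2 * ∑ i, lam i ^ 2

/-! ## initial object -/

/-- Basic facts on completely positive maps. -/
def StKS : Prop := ∀ (N : Type) [CStarAlgebra N] [PartialOrder N] [StarOrderedRing N]
  (τ : N →ₗ[ℂ] ℂ) (φ : N →ₗ[ℂ] N), Trc τ → CPm φ →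
  (∀ x, φ (star x) = star (φ x)) ∧ (∀ x, 0 ≤ x → 0 ≤ φ x) ∧
  (φ 1 ≤ 1 → ∀ x, star (φ x) * φ x ≤ φ (star x * x)) ∧
  (∀ c : N, CPm ({ toFun := fun x => c * φ x * star c,
                   map_add' := fun x y => by simp only [map_add, mul_add, add_mul]
                   map_smul' := fun r x => by
                     simp only [map_smul, mul_smul_comm, smul_mul_assoc,
                       RingHom.id_apply] } : N →ₗ[ℂ] N)) ∧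
  ∀ (m : ℕ) (x y : Fin m → N),
    0 ≤ (∑ i, ∑ j, τ (φ (star (x i) * x j) * φ (y j * star (y i)))).re

/-- Sakai's Radon-Nikodym theorem. -/
def StRN : Prop := ∀ (N : Type) [CStarAlgebra N] [PartialOrder N] [StarOrderedRing N]
  (τ : N →ₗ[ℂ] ℂ) (f : N →ₗ[ℂ] ℂ), Trc τ → Cpl τ → (∀ x, 0 ≤ x → 0 ≤ f x) →
  (∀ x, 0 ≤ x → (f x).re ≤ rt τ x) → ∃ h : N, 0 ≤ h ∧ h ≤ 1 ∧ ∀ x, f x = τ (h * x)

/-! ## GNS -/

/-- The GNS construction for a positive definite function on a group. -/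
def StGNS : Prop := ∀ (G : Type) [Group G] (P : G → ℂ),
  (∀ (m : ℕ) (c : Fin m → ℂ) (x : Fin m → G),
    0 ≤ ∑ i, ∑ j, star (c i) * c j * P ((x i)⁻¹ * x j)) →
  ∃ (H : Type) (_ : NormedAddCommGroup H) (_ : InnerProductSpace ℂ H) (_ : CompleteSpace H)
    (π : G → H → H) (ξ : H), Helper61.IE.URep π ∧ (∀ g, inner ℂ ξ (π g ξ) = P g) ∧
    Dense (Submodule.span ℂ (Set.range fun g => π g ξ) : Set H)

end Helper61.HT
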