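import Pool.Agent.Helper61.HT.LibN
import Pool.Agent.Helper61.HT.StE

/-!
# Project HT, module Greedy: the greedy process
-/

set_option autoImplicit false
set_option linter.unusedSectionVars false

namespace Helper61.HT

open scoped ComplexOrder

section

variable {N : Type} [CStarAlgebra N] [PartialOrder N] [StarOrderedRing N] {τ : N →ₗ[ℂ] ℂ}
  {ι : Type} {F : Finset ι} {u : ι → N}

private lemma gr_SS_congr {Q : N} {q q' : ℕ → N} {i : ℕ} (h : ∀ j < i, q j = q' j) :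
    SS F u Q q i = SS F u Q q' i := by
  unfold SS
  congr 1
  exact Finset.sum_congr rfl fun j hj => by rw [h j (Finset.mem_range.1 hj)]

private lemma gr_Hi_congr {Q : N} {q q' : ℕ → N} {i : ℕ} (h : ∀ j < i, q j = q' j) :
    Hi F u Q q i = Hi F u Q q' i := by
  unfold Hi Gi
  rw [gr_SS_congr h]

private lemma gr_cut {p : N} {φ : N →ₗ[ℂ] N} (hp : Pr p) (h : ∀ x, φ x = p * φ (p * x * p) * p) :
    Cj p φ = φ := by
  refine LinearMap.ext fun x => ?_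
  change p * φ (star p * x * p) * star p = φ x
  rw [hp.1, ← h x]

/-- `τ(φ(1)) = τ(p* φ(p))`. -/
private lemma gr_one (hτ : Trc τ) {p : N} {φ : N →ₗ[ℂ] N} (hp : Pr p)
    (h : ∀ x, φ x = p * φ (p * x * p) * p) : rt τ (φ 1) = rt τ (star p * φ p) := by
  have e1 : φ 1 = p * φ p * p := by
    conv_lhs => rw [h 1, mul_one, hp.2]
  rw [e1, hp.1, rt_cycle hτ, hp.2]

private lemma gr_gam_le (hτ : Trc τ) {ε Λ : ℝ} {p H : N} {φ : N →ₗ[ℂ] N} (hΛ : 1 ≤ Λ)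
    (hH : 0 ≤ H) (hO : Obj τ F u ε p φ) : Gam τ Λ H p φ ≤ rt τ p := by
  have h1 : rt τ (φ 1) ≤ rt τ p := rt_mono hτ hO.one
  have h2 : 0 ≤ rt τ (p * H) := rt_mul_nonneg hτ hO.pr.nonneg hH
  unfold Gam
  nlinarith

private lemma gr_gam_le_one (hτ : Trc τ) {ε Λ : ℝ} {p H : N} {φ : N →ₗ[ℂ] N} (hΛ : 1 ≤ Λ)
    (hH : 0 ≤ H) (hO : Obj τ F u ε p φ) : Gam τ Λ H p φ ≤ 1 := by
  have h1 := gr_gam_le hτ hΛ hH hO
  have h2 := rt_mono hτ hO.pr.le_one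
  rw [rt_one hτ] at h2
  linarith

/-- Lower bound of the cost of an object with positive `Γ`. -/
private lemma gr_cost (hτ : Trc τ)
    (hHF : ∀ (m : ℕ) (v : Fin m → N) (x : N), dfm τ v x ^ 2 ≤ hsf τ v * hs τ x ^ 2)
    {ε Λ : ℝ} {p H : N} {φ : N →ₗ[ℂ] N} (hΛ : 1 ≤ Λ)
    (hH : 0 ≤ H) (hO : Obj τ F u ε p φ) {m : ℕ} {w : Fin m → N} (hB : Bd τ aa φ w)
    (hG : 0 < Gam τ Λ H p φ) : 99 / 100 ≤ hsf τ w := by
  have hp := hO.pr
  have hrt : 0 < rt τ p := hp.rt_pos hτ hO.ne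
  have h2 : 0 ≤ rt τ (p * H) := rt_mul_nonneg hτ hp.nonneg hH
  have h3 : 999 / 1000 * rt τ p ≤ rt τ (φ 1) := by
    unfold Gam at hG
    nlinarith
  rw [gr_one hτ hp hO.cut] at h3
  have h4 := hB.1 p
  have h5 := hHF m w p
  rw [hp.hs] at h4 h5
  have h6 : aa ≤ 1 / 1000 := by
    unfold aa
    norm_num
  have h7 : 998 / 1000 * rt τ p ≤ dfm τ w p := by
    nlinarith
  have h8 : (998 / 1000 * rt τ p) ^ 2 ≤ hsf τ w * rt τ p ^ 2 :=
    (pow_le_pow_left₀ (by positivity) h7 2).trans h5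
  have h9 : (0 : ℝ) < rt τ p ^ 2 := by positivity
  have h10 : (998 / 1000) ^ 2 ≤ hsf τ w := by
    have : (998 / 1000 : ℝ) ^ 2 * rt τ p ^ 2 ≤ hsf τ w * rt τ p ^ 2 := by
      rw [← mul_pow]; exact h8
    exact le_of_mul_le_mul_right this h9
  norm_num at h10 ⊢
  linarith

/-- The data of a stage. -/
private structure Dt (N : Type) [CStarAlgebra N] where
  q : N
  ψ : N →ₗ[ℂ] N
  m : ℕ
  v : Fin m → N
  R : ℝ

/-- The conditions at one stage. -/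
private def Gd (τ : N →ₗ[ℂ] ℂ) (F : Finset ι) (u : ι → N) (ε Λ ε₀ : ℝ) (H : N) (D : Dt N) :
    Prop :=
  Obj τ F u ε D.q D.ψ ∧ Bd τ aa D.ψ D.v ∧
    (∀ j, D.q * D.v j * D.q = D.v j) ∧ 0 < hsf τ D.v ∧ 0 < D.R ∧
    NearMax τ F u ε Λ H D.R ∧
    (1 - ε₀) * D.R * hsf τ D.v ≤ Gam τ Λ H D.q D.ψ ∧
    0 < Gam τ Λ H D.q D.ψ

/-- One stage. -/
private lemma gr_stage (hHF : StHF) (hτ : Trc τ) (hF : F.Nonempty) (hu : ∀ s, Un (u s))
    {ε Λ ε₀ : ℝ} {H p₀ : N} {ψ₀ : N →ₗ[ℂ] N} {m₀ : ℕ} {w₀ : Fin m₀ → N}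
    (hΛ : 1 ≤ Λ) (h0 : 0 < ε₀) (h1 : ε₀ < 1) (hH : 0 ≤ H)
    (hO : Obj τ F u ε p₀ ψ₀) (hB : Bd τ aa ψ₀ w₀) {γ : ℝ} (hγ : 0 < γ)
    (hG : γ ≤ Gam τ Λ H p₀ ψ₀) :
    ∃ D : Dt N, Gd τ F u ε Λ ε₀ H D ∧ γ / hsf τ w₀ ≤ D.R ∧
      (1 - ε₀) * (γ / hsf τ w₀) * (99 / 100) ≤ rt τ D.q := by
  obtain ⟨hF1, hF2, hF3, hF4, -⟩ := hHF N τ ι F u hτ hF hu
  have hc0 : 99 / 100 ≤ hsf τ w₀ := gr_cost hτ hF4 hΛ hH hO hB (lt_of_lt_of_le hγ hG)
  let S : Set ℝ := {r | ∃ (p : N) (φ : N →ₗ[ℂ] N) (m : ℕ) (w : Fin m → N), Obj τ F u ε p φ ∧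
    Bd τ aa φ w ∧ 0 < Gam τ Λ H p φ ∧ r = Gam τ Λ H p φ / hsf τ w}
  have hSb : BddAbove S := by
    refine ⟨100 / 99, ?_⟩
    rintro r ⟨p, φ, m, w, hO', hB', hG', rfl⟩
    have h2 := gr_cost hτ hF4 hΛ hH hO' hB' hG'
    have h3 := gr_gam_le_one hτ hΛ hH hO'
    rw [div_le_iff₀ (by linarith)]
    nlinarith
  have hm0 : Gam τ Λ H p₀ ψ₀ / hsf τ w₀ ∈ S :=
    ⟨p₀, ψ₀, m₀, w₀, hO, hB, lt_of_lt_of_le hγ hG, rfl⟩
  have hR0 : γ / hsf τ w₀ ≤ sSup S := by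
    refine le_trans ?_ (le_csSup hSb hm0)
    exact div_le_div_of_nonneg_right hG (by linarith)
  have hγ0 : 0 < γ / hsf τ w₀ := by positivity
  have hRpos : 0 < sSup S := lt_of_lt_of_le hγ0 hR0
  have hNM : NearMax τ F u ε Λ H (sSup S) := by
    intro p φ hO' m w hB'
    by_cases hG' : 0 < Gam τ Λ H p φ
    · have h2 := gr_cost hτ hF4 hΛ hH hO' hB' hG'
      have h3 : Gam τ Λ H p φ / hsf τ w ≤ sSup S :=
        le_csSup hSb ⟨p, φ, m, w, hO', hB', hG', rfl⟩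
      rwa [div_le_iff₀ (by linarith)] at h3
    · have h2 := (hF1 m w).1
      push Not at hG'
      exact hG'.trans (mul_nonneg hRpos.le h2)
  have hlt : (1 - ε₀) * sSup S < sSup S := by nlinarith
  obtain ⟨r, ⟨p, φ, m, w, hO', hB', hG', rfl⟩, hr⟩ := exists_lt_of_lt_csSup ⟨_, hm0⟩ hlt
  have hcw := gr_cost hτ hF4 hΛ hH hO' hB' hG'
  have hpn := hO'.pr.norm_le
  have hB2 : Bd τ aa φ (fun j => p * w j * p) := by
    have h2 := hF3 m w p φ hpn hB'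
    rwa [gr_cut hO'.pr hO'.cut, hO'.pr.1] at h2
  have hle : hsf τ (fun j => p * w j * p) ≤ hsf τ w := (hF2 m w p p hpn hpn).1
  have hc2 := gr_cost hτ hF4 hΛ hH hO' hB2 hG'
  have hgood : (1 - ε₀) * sSup S * hsf τ (fun j => p * w j * p) ≤ Gam τ Λ H p φ := by
    have h2 : (1 - ε₀) * sSup S * hsf τ w ≤ Gam τ Λ H p φ := by
      rw [lt_div_iff₀ (by linarith)] at hr
      exact hr.le
    refine le_trans ?_ h2
    exact mul_le_mul_of_nonneg_left hle (mul_nonneg (by linarith) hRpos.le)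
  refine ⟨⟨p, φ, m, fun j => p * w j * p, sSup S⟩, ⟨hO', hB2, fun j => ?_, by
    change 0 < hsf τ (fun j => p * w j * p)
    linarith, hRpos, hNM, hgood, hG'⟩, hR0, ?_⟩
  · change p * (p * w j * p) * p = p * w j * p
    have e : p * (p * w j * p) * p = (p * p) * w j * (p * p) := by noncomm_ring
    rw [e, hO'.pr.2]
  · change (1 - ε₀) * (γ / hsf τ w₀) * (99 / 100) ≤ rt τ p
    refine le_trans ?_ (gr_gam_le hτ hΛ hH hO')
    refine le_trans ?_ hgood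
    have h3 : (1 - ε₀) * (γ / hsf τ w₀) ≤ (1 - ε₀) * sSup S :=
      mul_le_mul_of_nonneg_left hR0 (by linarith)
    exact mul_le_mul h3 hc2 (by norm_num) (mul_nonneg (by linarith) hRpos.le)

private lemma gr_main (hHF : StHF) (hSA : StSumA) (hτ : Trc τ) (hF : F.Nonempty)
    (hu : ∀ s, Un (u s)) (hR : RRFacts τ F u) {Q : N} (hQ : Pr Q) (hQ1 : 0 < rt τ (1 - Q))
    {ε Λ ε₀ : ℝ} {ψ₀ : N →ₗ[ℂ] N} {m₀ : ℕ} {w₀ : Fin m₀ → N} (hΛ : 1 ≤ Λ) (h0 : 0 < ε₀)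
    (h1 : ε₀ < 1) (hO : Obj τ F u ε (1 - Q) ψ₀)
    (hd : rt τ (1 - Q) - rt τ (ψ₀ 1) ≤ 1 / 10 ^ 4 * rt τ (1 - Q)) (hB : Bd τ aa ψ₀ w₀) :
    ∃ (n : ℕ) (D : ℕ → Dt N),
      (∀ i < n, Gd τ F u ε Λ ε₀ (Hi F u Q (fun j => (D j).q) i) (D i)) ∧
      rt τ (1 - Q) / (2 * Λ) ≤ ∑ i ∈ Finset.range n, rt τ (D i).q := by
  classical
  set T : ℝ := rt τ (1 - Q) with hT
  obtain ⟨-, -, -, hF4, -⟩ := hHF N τ ι F u hτ hF hu
  -- the constants
  by_contra hcon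
  push Not at hcon
  -- the object `(1 - Q, ψ₀)`
  have hstart : ∀ (D : ℕ → Dt N) (i : ℕ), (∀ j < i, Pr (D j).q) →
      ∑ j ∈ Finset.range i, rt τ (D j).q < T / (2 * Λ) →
      0 ≤ Hi F u Q (fun j => (D j).q) i ∧
        2 / 5 * T ≤ Gam τ Λ (Hi F u Q (fun j => (D j).q) i) (1 - Q) ψ₀ := by
    intro D i hPr hsum
    obtain ⟨hS1, -⟩ := hSA N τ ι F u Q (fun j => (D j).q) i hτ hF hu hR hQ hPr
    obtain ⟨hH0, -, -, hH3⟩ := hS1 i le_rfl
    refine ⟨hH0, ?_⟩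
    have h2 : Λ * rt τ ((1 - Q) * Hi F u Q (fun j => (D j).q) i) ≤ T / 2 := by
      have h3 : rt τ ((1 - Q) * Hi F u Q (fun j => (D j).q) i) ≤ T / (2 * Λ) :=
        hH3.trans hsum.le
      have h4 : Λ * (T / (2 * Λ)) = T / 2 := by
        field_simp
      calc Λ * rt τ ((1 - Q) * Hi F u Q (fun j => (D j).q) i) ≤ Λ * (T / (2 * Λ)) :=
            mul_le_mul_of_nonneg_left h3 (by linarith)
        _ = T / 2 := h4
    unfold Gam
    rw [← hT]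
    have h5 : 1000 * (T - rt τ (ψ₀ 1)) ≤ 1 / 10 * T := by
      have : 1000 * (T - rt τ (ψ₀ 1)) ≤ 1000 * (1 / 10 ^ 4 * T) :=
        mul_le_mul_of_nonneg_left hd (by norm_num)
      refine this.trans (le_of_eq ?_)
      ring
    linarith
  set γ : ℝ := 2 / 5 * T with hγ
  have hγ0 : 0 < γ := by positivity
  -- arbitrarily long good families
  have hsf0 : 99 / 100 ≤ hsf τ w₀ := by
    have hs0 : ∑ j ∈ Finset.range 0, rt τ ((fun _ : ℕ => (⟨0, ψ₀, m₀, w₀, 0⟩ : Dt N)) j).q <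
        T / (2 * Λ) := by
      rw [Finset.range_zero, Finset.sum_empty]
      positivity
    obtain ⟨ha, hb⟩ := hstart (fun _ => ⟨0, ψ₀, m₀, w₀, 0⟩) 0 (fun j hj => absurd hj (by omega))
      hs0
    exact gr_cost hτ hF4 hΛ ha hO hB (lt_of_lt_of_le hγ0 hb)
  set η : ℝ := (1 - ε₀) * (γ / hsf τ w₀) * (99 / 100) with hη
  have hη0 : 0 < η := by
    have : 0 < 1 - ε₀ := by linarith
    have h2 : 0 < hsf τ w₀ := by linarith
    positivity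
  have hlong : ∀ n : ℕ, ∃ D : ℕ → Dt N,
      (∀ i < n, Gd τ F u ε Λ ε₀ (Hi F u Q (fun j => (D j).q) i) (D i)) ∧
      ∀ i < n, η ≤ rt τ (D i).q := by
    intro n
    induction n with
    | zero => exact ⟨fun _ => ⟨0, ψ₀, m₀, w₀, 0⟩, fun i hi => absurd hi (by omega),
        fun i hi => absurd hi (by omega)⟩
    | succ n ih =>
      obtain ⟨D, hD, hDη⟩ := ih
      have hsum := hcon n D hD
      obtain ⟨hH0, hG0⟩ := hstart D n (fun j hj => (hD j hj).1.pr) hsum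
      obtain ⟨r, hr1, -, hr3⟩ := gr_stage hHF hτ hF hu hΛ h0 h1 hH0 hO hB hγ0 hG0
      have hne : ∀ j, j ≠ n → Function.update D n r j = D j := fun j hj =>
        Function.update_of_ne hj _ _
      have hself : Function.update D n r n = r := Function.update_self _ _ _
      have hHi : ∀ i ≤ n, Hi F u Q (fun j => (Function.update D n r j).q) i =
          Hi F u Q (fun j => (D j).q) i := fun i hi =>
        gr_Hi_congr fun j hj => by rw [hne j (by omega)]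
      refine ⟨Function.update D n r, fun i hi => ?_, fun i hi => ?_⟩
      · rw [hHi i (by omega)]
        by_cases h : i = n
        · rw [h, hself]
          exact hr1
        · rw [hne i h]
          exact hD i (by omega)
      · by_cases h : i = n
        · rw [h, hself]
          exact hr3
        · rw [hne i h]
          exact hDη i (by omega)
  obtain ⟨n, hn⟩ := exists_nat_gt (T / (2 * Λ) / η)
  obtain ⟨D, hD, hDη⟩ := hlong n
  have h2 := hcon n D hD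
  have h3 : (n : ℝ) * η ≤ ∑ i ∈ Finset.range n, rt τ (D i).q := by
    have h4 : ∑ _i ∈ Finset.range n, η ≤ ∑ i ∈ Finset.range n, rt τ (D i).q :=
      Finset.sum_le_sum fun i hi => hDη i (Finset.mem_range.1 hi)
    rwa [Finset.sum_const, Finset.card_range, nsmul_eq_mul] at h4
  rw [div_lt_iff₀ hη0] at hn
  linarith

end

theorem pGreedy (hHF : StHF) (hSA : StSumA) : StGreedy := by
  intro N _ _ _ τ ι F u Q ε Λ ε₀ ψ₀ m₀ w₀ hτ hF hu hR hQ hQ1 _ hΛ h0 h1 hO hd hB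
  obtain ⟨n, D, hD, hs⟩ := gr_main hHF hSA hτ hF hu hR hQ hQ1 hΛ h0 h1 hO hd hB
  exact ⟨n, fun j => (D j).q, fun j => (D j).ψ, fun j => (D j).m, fun j => (D j).v,
    fun j => (D j).R, hD, hs⟩

end Helper61.HT
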