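import Pool.Agent.Helper61.HT.StE
import Pool.Agent.Helper61.HT.Ip

/-!
# Project HT: finite rank forms (StHF)
-/

set_option linter.unusedSectionVars false

namespace Helper61.HT

open scoped ComplexOrder

section

variable {N : Type} [CStarAlgebra N] [PartialOrder N] [StarOrderedRing N] {τ : N →ₗ[ℂ] ℂ}

private lemma hf_aa_nonneg : 0 ≤ aa := by unfold aa; positivity

private lemma hf_dfm_conj (hτ : Trc τ) {J : Type} [Fintype J] (v : J → N) (c c' x : N) :
    dfm τ (fun j => c * v j * c') x = dfm τ v (star c * x * star c') := by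
  unfold dfm
  refine Finset.sum_congr rfl fun j _ => ?_
  congr 2
  rw [star_mul, star_mul, mul_assoc, hτ.tr]
  congr 1
  noncomm_ring

private lemma hf_hs_conj (hτ : Trc τ) {c c' : N} (hc : ‖c‖ ≤ 1) (hc' : ‖c'‖ ≤ 1) (x : N) :
    hs τ (c * x * c') ≤ hs τ x :=
  (hs_mul_right_le hτ hc').trans (hs_mul_left_le hτ hc)

private lemma hf_hsf_conj (hFF1 : StFF1) (hτ : Trc τ) {J : Type} [Fintype J] (v : J → N)
    {c c' : N} (hc : ‖c‖ ≤ 1) (hc' : ‖c'‖ ≤ 1) :
    hsf τ (fun j => c * v j * c') ≤ hsf τ v := by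
  obtain ⟨H, i1, i2, e, he, hn⟩ := exists_L2 hτ
  have h3 := (hFF1 H).2.2.1
  let M : N →ₗ[ℂ] N := (LinearMap.mulRight ℂ c') ∘ₗ (LinearMap.mulLeft ℂ c)
  have hM : ∀ x, M x = c * x * c' := fun x => rfl
  let A : H →ₗ[ℂ] H := e.toLinearMap ∘ₗ M ∘ₗ e.symm.toLinearMap
  have hA : ∀ x : N, A (e x) = e (c * x * c') := by
    intro x
    change e (M (e.symm (e x))) = _
    rw [e.symm_apply_apply, hM]
  have hAn : ∀ y, ‖A y‖ ≤ ‖y‖ := by
    intro y
    obtain ⟨x, rfl⟩ := e.surjective y
    rw [hA]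
    have h1 : ‖e (c * x * c')‖ ^ 2 ≤ ‖e x‖ ^ 2 := by
      rw [hn, hn]; exact hf_hs_conj hτ hc hc' x
    exact (pow_le_pow_iff_left₀ (norm_nonneg _) (norm_nonneg _) two_ne_zero).1 h1
  have h4 := (h3 J J (fun j => e (v j)) (fun j => e (v j)) A hAn).1
  have h5 : (A ∘ fun j => e (v j)) = fun j => e (c * v j * c') := by
    funext j; exact hA _
  rw [h5] at h4
  unfold crs at h4
  simp only [he] at h4
  exact h4

private lemma hf_ker (hτ : Trc τ) {J : Type} [Fintype J] (v : J → N) (x : N) :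
    (ker τ v x x).re = dfm τ v x := by
  unfold ker dfm
  rw [Complex.re_sum]
  refine Finset.sum_congr rfl fun j _ => ?_
  have h1 : τ (star x * v j) = (starRingEnd ℂ) (τ (star (v j) * x)) := by
    rw [← map_star' hτ, star_mul, star_star]
  rw [h1, Complex.conj_mul']
  norm_cast

private lemma hf_form_mul (hτ : Trc τ) (ψ : N →ₗ[ℂ] N) (c x : N) :
    rt τ (star x * (Cj c ψ) x) = rt τ (star (star c * x * c) * ψ (star c * x * c)) := by
  rw [Cj_apply, star_mul, star_mul, star_star, ← mul_assoc, ← mul_assoc,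
    rt_mul_comm hτ _ (star c)]
  congr 1
  noncomm_ring

/-! ### the right average -/

variable {ι : Type}

private noncomputable def hfw (F : Finset ι) : Option (F × Bool) → ℝ
  | none => 1 / 2
  | some _ => 1 / (4 * F.card)

private noncomputable def hfv (F : Finset ι) (u : ι → N) : Option (F × Bool) → N
  | none => 1
  | some (s, true) => u s
  | some (s, false) => star (u s)

private lemma hfw_nonneg (F : Finset ι) (r : Option (F × Bool)) : 0 ≤ hfw F r := by
  cases r with
  | none => unfold hfw; norm_num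
  | some p => unfold hfw; positivity

private lemma hfv_norm (F : Finset ι) {u : ι → N} (hu : ∀ s, Un (u s)) (r : Option (F × Bool)) :
    ‖hfv F u r‖ ≤ 1 := by
  rcases r with _ | ⟨s, b⟩
  · exact Pr.one.norm_le
  · cases b
    · exact norm_unit_le (hu s).star
    · exact norm_unit_le (hu s)

private lemma hfw_sum_mul (F : Finset ι) (f : Option (F × Bool) → ℝ) (g g' : ι → ℝ) (a : ℝ)
    (h0 : f none = a) (h1 : ∀ s : F, f (some (s, true)) = g s)
    (h2 : ∀ s : F, f (some (s, false)) = g' s) :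
    ∑ r, hfw F r * f r = 1 / 2 * a + 1 / (4 * F.card) * ∑ s ∈ F, (g s + g' s) := by
  rw [Fintype.sum_option, Fintype.sum_prod_type, h0]
  congr 1
  rw [← Finset.sum_coe_sort F (fun s => g s + g' s), Finset.mul_sum]
  refine Finset.sum_congr rfl fun s _ => ?_
  rw [Fintype.sum_bool, h1, h2]
  unfold hfw
  ring

private lemma hfw_sum (F : Finset ι) (hF : F.Nonempty) : ∑ r, hfw F r = 1 := by
  have h := hfw_sum_mul F (fun _ => 1) (fun _ => 1) (fun _ => 1) 1 rfl (fun _ => rfl)
    (fun _ => rfl)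
  simp only [mul_one] at h
  rw [h, Finset.sum_const, nsmul_eq_mul]
  have : (F.card : ℝ) ≠ 0 := by
    have := hF.card_pos
    positivity
  field_simp
  norm_num

/-- The form of `RA ψ`. -/
private lemma hf_RA (hτ : Trc τ) (F : Finset ι) (u : ι → N) (ψ : N →ₗ[ℂ] N) (x : N) :
    rt τ (star x * (RA F u ψ) x) =
      ∑ r, hfw F r * rt τ (star (x * hfv F u r) * ψ (x * hfv F u r)) := by
  rw [hfw_sum_mul F (fun r => rt τ (star (x * hfv F u r) * ψ (x * hfv F u r)))
    (fun s => rt τ (star x * (ψ (x * u s) * star (u s))))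
    (fun s => rt τ (star x * (ψ (x * star (u s)) * u s))) (rt τ (star x * ψ x))]
  · change rt τ (star x * ((1 / 2 : ℝ) • ψ x + (1 / (4 * F.card) : ℝ) •
      ∑ s ∈ F, (ψ (x * u s) * star (u s) + ψ (x * star (u s)) * u s))) = _
    rw [mul_add, mul_smul_comm, mul_smul_comm, rt_add, rt_smul, rt_smul, Finset.mul_sum,
      rt_sum]
    congr 2
    refine Finset.sum_congr rfl fun s _ => ?_
    rw [mul_add, rt_add]
  · simp only [hfv, mul_one]
  · intro s
    simp only [hfv]
    rw [star_mul, ← mul_assoc, rt_mul_comm hτ _ (star (u s)), ← mul_assoc]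
  · intro s
    simp only [hfv]
    rw [star_mul, star_star, ← mul_assoc, rt_mul_comm hτ _ (u s), ← mul_assoc]

/-- The form of `LA ψ`. -/
private lemma hf_LA (F : Finset ι) (u : ι → N) (ψ : N →ₗ[ℂ] N) (x : N) :
    rt τ (star x * (LA F u ψ) x) = 1 / 2 * rt τ (star x * ψ x) + 1 / (4 * F.card) *
      ∑ s ∈ F, (rt τ (star (star (u s) * x) * ψ (star (u s) * x)) +
        rt τ (star (u s * x) * ψ (u s * x))) := by
  change rt τ (star x * ((1 / 2 : ℝ) • ψ x + (1 / (4 * F.card) : ℝ) •
      ∑ s ∈ F, (u s * ψ (star (u s) * x) + star (u s) * ψ (u s * x)))) = _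
  rw [mul_add, mul_smul_comm, mul_smul_comm, rt_add, rt_smul, rt_smul, Finset.mul_sum,
    rt_sum]
  congr 2
  refine Finset.sum_congr rfl fun s _ => ?_
  rw [mul_add, rt_add, star_mul, star_mul, star_star]
  congr 2 <;> noncomm_ring

private lemma hf_TLf_re (F : Finset ι) (u : ι → N) (B : N → N → ℂ) (x y : N) :
    (TLf F u B x y).re = 1 / 2 * (B x y).re + 1 / (4 * F.card) *
      ∑ s ∈ F, ((B (star (u s) * x) (star (u s) * y)).re + (B (u s * x) (u s * y)).re) := by
  unfold TLf
  have e1 : (1 / 2 : ℂ) = ((1 / 2 : ℝ) : ℂ) := by norm_num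
  have e2 : (1 / (4 * F.card) : ℂ) = ((1 / (4 * F.card) : ℝ) : ℂ) := by push_cast; ring
  rw [Complex.add_re, e1, e2, Complex.re_ofReal_mul, Complex.re_ofReal_mul, Complex.re_sum]
  congr 2

private lemma hf_sum_aux {P : Type} [Fintype P] (F : Finset ι) (w a : P → ℝ)
    (b d : ι → P → ℝ) (K : ℝ) :
    ∑ p, w p * (1 / 2 * a p + K * ∑ s ∈ F, (b s p + d s p)) =
      1 / 2 * ∑ p, w p * a p + K * ∑ s ∈ F, (∑ p, w p * b s p + ∑ p, w p * d s p) := by
  have h1 : ∑ s ∈ F, (∑ p, w p * b s p + ∑ p, w p * d s p) =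
      ∑ p, w p * ∑ s ∈ F, (b s p + d s p) := by
    simp_rw [Finset.mul_sum, ← Finset.sum_add_distrib, ← mul_add]
    rw [Finset.sum_comm]
  rw [h1, Finset.mul_sum, Finset.mul_sum, ← Finset.sum_add_distrib]
  refine Finset.sum_congr rfl fun p _ => ?_
  ring

/-- The upper bound for the form of `TM^k (Cj G ψ)`. -/
private lemma hf_main (hτ : Trc τ) (F : Finset ι) (hF : F.Nonempty) (u : ι → N)
    (hu : ∀ s, Un (u s)) {J : Type} [Fintype J] (v : J → N) (G : N) (hG : 0 ≤ G) (hG1 : G ≤ 1)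
    (ψ : N →ₗ[ℂ] N) (hψ : ∀ x, rt τ (star x * ψ x) ≤ aa * hs τ x + dfm τ v x) (k : ℕ) :
    ∃ (κ : Type) (_ : Fintype κ) (c : κ → ℝ) (C : κ → N), (∀ i, 0 ≤ c i) ∧ ∑ i, c i = 1 ∧
      (∀ i, ‖C i‖ ≤ 1) ∧ ∀ x, rt τ (star x * ((TM F u)^[k] (Cj G ψ)) x) ≤
        aa * hs τ x + ∑ i, c i * ((TLf F u)^[k] (ker τ (fun j => G * v j)) (x * C i)
          (x * C i)).re := by
  have hGs : star G = G := herm_of_nonneg hG
  have hGn : ‖G‖ ≤ 1 := norm_le_one_of_nonneg hG hG1
  induction k with
  | zero =>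
    refine ⟨Unit, inferInstance, fun _ => 1, fun _ => G, fun _ => zero_le_one, by simp,
      fun _ => hGn, fun x => ?_⟩
    rw [Function.iterate_zero, id_eq, Function.iterate_zero, id_eq, hf_form_mul hτ]
    simp only [Finset.univ_unique, Finset.sum_const, Finset.card_singleton, one_smul, one_mul]
    rw [hf_ker hτ]
    have h1 := hψ (star G * x * G)
    have h2 : hs τ (star G * x * G) ≤ hs τ x :=
      hf_hs_conj hτ (by rwa [norm_star]) hGn x
    have h3 : dfm τ (fun j => G * v j) (x * G) = dfm τ v (star G * x * G) := by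
      have := hf_dfm_conj hτ v G 1 (x * G)
      simp only [mul_one, star_one] at this
      rw [this, mul_assoc]
    rw [h3]
    have h4 := mul_le_mul_of_nonneg_left h2 hf_aa_nonneg
    linarith
  | succ k ih =>
    obtain ⟨κ, hκ, c, C, hc, hcs, hC, hb⟩ := ih
    refine ⟨Option (F × Bool) × κ, inferInstance, fun p => hfw F p.1 * c p.2,
      fun p => hfv F u p.1 * C p.2, fun p => mul_nonneg (hfw_nonneg F _) (hc _), ?_, ?_, ?_⟩
    · rw [Fintype.sum_prod_type]
      simp only
      simp_rw [← Finset.mul_sum, hcs, mul_one]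
      exact hfw_sum F hF
    · intro p
      refine (norm_mul_le _ _).trans ?_
      have h1 := hfv_norm F hu p.1
      have h2 := hC p.2
      nlinarith [norm_nonneg (hfv F u p.1), norm_nonneg (C p.2)]
    · intro x
      rw [Function.iterate_succ_apply', Function.iterate_succ_apply']
      set ψ' := (TM F u)^[k] (Cj G ψ) with hψ'
      set B := (TLf F u)^[k] (ker τ (fun j => G * v j)) with hB
      -- the bound for RA
      set f : N → ℝ := fun y => ∑ p : Option (F × Bool) × κ, hfw F p.1 * c p.2 *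
        (B (y * (hfv F u p.1 * C p.2)) (y * (hfv F u p.1 * C p.2))).re with hf
      have hR : ∀ y, rt τ (star y * (RA F u ψ') y) ≤ aa * hs τ y + f y := by
        intro y
        rw [hf_RA hτ]
        have h1 : aa * hs τ y = ∑ r, hfw F r * (aa * hs τ y) := by
          rw [← Finset.sum_mul, hfw_sum F hF, one_mul]
        rw [h1, hf]
        simp only
        rw [Fintype.sum_prod_type, ← Finset.sum_add_distrib]
        refine Finset.sum_le_sum fun r _ => ?_
        have h2 := hb (y * hfv F u r)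
        have h3 : hs τ (y * hfv F u r) ≤ hs τ y := hs_mul_right_le hτ (hfv_norm F hu r)
        have h4 := mul_le_mul_of_nonneg_left h3 hf_aa_nonneg
        have h5 : ∑ i, hfw F r * c i * (B (y * (hfv F u r * C i)) (y * (hfv F u r * C i))).re =
            hfw F r * ∑ i, c i * (B (y * hfv F u r * C i) (y * hfv F u r * C i)).re := by
          rw [Finset.mul_sum]
          refine Finset.sum_congr rfl fun i _ => ?_
          rw [← mul_assoc y, mul_assoc]
        rw [h5, ← mul_add]
        refine mul_le_mul_of_nonneg_left ?_ (hfw_nonneg F r)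
        linarith
      -- now LA
      have hg : (0 : ℝ) < F.card := by exact_mod_cast hF.card_pos
      change rt τ (star x * (LA F u (RA F u ψ')) x) ≤ _
      rw [hf_LA]
      have e1 : ∑ p : Option (F × Bool) × κ, hfw F p.1 * c p.2 *
          (TLf F u B (x * (hfv F u p.1 * C p.2)) (x * (hfv F u p.1 * C p.2))).re =
          1 / 2 * f x + 1 / (4 * F.card) * ∑ s ∈ F, (f (star (u s) * x) + f (u s * x)) := by
        simp only [hf_TLf_re, hf]
        rw [hf_sum_aux]
        simp only [← mul_assoc]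
      rw [e1]
      have h1 := hR x
      have h2 : ∑ s ∈ F, (rt τ (star (star (u s) * x) * (RA F u ψ') (star (u s) * x)) +
          rt τ (star (u s * x) * (RA F u ψ') (u s * x))) ≤
          2 * F.card * (aa * hs τ x) + ∑ s ∈ F, (f (star (u s) * x) + f (u s * x)) := by
        have h5 : (2 : ℝ) * F.card * (aa * hs τ x) + ∑ s ∈ F, (f (star (u s) * x) + f (u s * x)) =
            ∑ s ∈ F, (2 * (aa * hs τ x) + (f (star (u s) * x) + f (u s * x))) := by
          simp only [Finset.sum_add_distrib, Finset.sum_const, nsmul_eq_mul]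
          ring
        rw [h5]
        refine Finset.sum_le_sum fun s _ => ?_
        have h3 := hR (star (u s) * x)
        have h4 := hR (u s * x)
        rw [hs_unit_mul (hu s).star] at h3
        rw [hs_unit_mul (hu s)] at h4
        linarith
      have h6 := mul_le_mul_of_nonneg_left h2 (show (0 : ℝ) ≤ 1 / (4 * F.card) by positivity)
      have h7 : (1 : ℝ) / (4 * F.card) * (2 * F.card * (aa * hs τ x)) = 1 / 2 * (aa * hs τ x) := by
        field_simp
        ring
      rw [mul_add, h7] at h6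
      linarith

/-- The family of vectors. -/
private lemma hf_final (hFF1 : StFF1) (hTL : StTL) (hτ : Trc τ) (F : Finset ι)
    (hF : F.Nonempty) (u : ι → N) (hu : ∀ s, Un (u s)) {m : ℕ} (v : Fin m → N) (G : N)
    (ψ : N →ₗ[ℂ] N) (k : ℕ) (hG : 0 ≤ G) (hG1 : G ≤ 1) (hψ : Bd τ aa ψ v) :
    ∃ (m' : ℕ) (w : Fin m' → N), Bd τ aa ((TM F u)^[k] (Cj G ψ)) w ∧
      hsf τ w ≤ avh τ F u k (fun j => G * v j) := by
  have hGs : star G = G := herm_of_nonneg hG
  have hGn : ‖G‖ ≤ 1 := norm_le_one_of_nonneg hG hG1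
  obtain ⟨κ, hκ, c, C, hc, hcs, hC, hb⟩ := hf_main hτ F hF u hu v G hG hG1 ψ hψ.1 k
  obtain ⟨m₁, w₁, hw1, hw2, -, hw4, -, -⟩ := hTL N τ ι F u m (fun j => G * v j) k hτ hF hu
  have hGv : ∀ x, dfm τ (fun j => G * v j) x ≤ 2 * hs τ x := by
    intro x
    have h1 : dfm τ (fun j => G * v j) x = dfm τ v (star G * x) := by
      have := hf_dfm_conj hτ v G 1 x
      simpa only [mul_one, star_one] using this
    rw [h1]
    have h2 := hψ.2 (star G * x)
    have h3 : hs τ (star G * x) ≤ hs τ x := hs_mul_left_le hτ (by rwa [norm_star])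
    linarith
  have hw5 := hw4 hGv
  -- the family
  let w : (Σ _ : κ, Fin m₁) → N := fun p => Real.sqrt (c p.1) • (w₁ p.2 * star (C p.1))
  have hdw : ∀ x, dfm τ w x = ∑ i, c i * dfm τ w₁ (x * C i) := by
    intro x
    unfold dfm
    rw [Fintype.sum_sigma]
    refine Finset.sum_congr rfl fun i _ => ?_
    rw [Finset.mul_sum]
    refine Finset.sum_congr rfl fun j _ => ?_
    have h1 : star (w ⟨i, j⟩) * x = Real.sqrt (c i) • (C i * (star (w₁ j) * x)) := by
      change star (Real.sqrt (c i) • (w₁ j * star (C i))) * x = _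
      rw [star_smul, star_trivial, star_mul, star_star, smul_mul_assoc, mul_assoc]
    rw [h1, map_smul_real, hτ.tr, norm_mul, mul_pow, Complex.norm_real, Real.norm_eq_abs,
      sq_abs, Real.sq_sqrt (hc i), mul_assoc]
  have hdw' : ∀ x, dfm τ w x = ∑ i, c i * ((TLf F u)^[k] (ker τ (fun j => G * v j)) (x * C i)
      (x * C i)).re := by
    intro x
    rw [hdw]
    refine Finset.sum_congr rfl fun i _ => ?_
    rw [← hw1, hf_ker hτ]
  have hbd1 : ∀ x, rt τ (star x * ((TM F u)^[k] (Cj G ψ)) x) ≤ aa * hs τ x + dfm τ w x := by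
    intro x
    rw [hdw']
    exact hb x
  have hbd2 : ∀ x, dfm τ w x ≤ 2 * hs τ x := by
    intro x
    rw [hdw]
    have h1 : 2 * hs τ x = ∑ i, c i * (2 * hs τ x) := by
      rw [← Finset.sum_mul, hcs, one_mul]
    rw [h1]
    refine Finset.sum_le_sum fun i _ => mul_le_mul_of_nonneg_left ?_ (hc i)
    have h2 := hw5 (x * C i)
    have h3 : hs τ (x * C i) ≤ hs τ x := hs_mul_right_le hτ (hC i)
    linarith
  have hnn : ∀ {J : Type} [Fintype J] (z : J → N), 0 ≤ hsf τ z := by
    intro J _ z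
    unfold hsf
    positivity
  have hhs : hsf τ w ≤ hsf τ w₁ := by
    obtain ⟨H, i1, i2, e, he, hn⟩ := exists_L2 hτ
    have h7 := (hFF1 H).2.2.2.2.2.2 κ (fun _ => Fin m₁)
      (fun i j => e (Real.sqrt (c i) • (w₁ j * star (C i))))
      (fun i => c i * Real.sqrt (hsf τ w₁)) (fun i => ?_)
    · have h8 : hsf τ w = crs (fun p : Σ _ : κ, Fin m₁ =>
          e (Real.sqrt (c p.1) • (w₁ p.2 * star (C p.1))))
          (fun p : Σ _ : κ, Fin m₁ => e (Real.sqrt (c p.1) • (w₁ p.2 * star (C p.1)))) := by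
        unfold hsf crs
        simp only [he]
        rfl
      rw [h8]
      refine h7.trans ?_
      rw [← Finset.sum_mul, hcs, one_mul, Real.sq_sqrt (hnn _)]
    · refine ⟨mul_nonneg (hc i) (Real.sqrt_nonneg _), ?_⟩
      have h9 := hf_hsf_conj hFF1 hτ w₁ (c := 1) (c' := star (C i)) Pr.one.norm_le
        (by rw [norm_star]; exact hC i)
      rw [mul_pow, Real.sq_sqrt (hnn _)]
      refine le_trans (le_of_eq ?_) (mul_le_mul_of_nonneg_left h9 (sq_nonneg _))
      unfold crs hsf
      simp only [he]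
      rw [Finset.mul_sum]
      refine Finset.sum_congr rfl fun a _ => ?_
      rw [Finset.mul_sum]
      refine Finset.sum_congr rfl fun b _ => ?_
      rw [star_smul, star_trivial, smul_mul_smul_comm, Real.mul_self_sqrt (hc i),
        map_smul_real, norm_mul, mul_pow, Complex.norm_real, Real.norm_eq_abs, sq_abs, one_mul,
        one_mul]
  -- reindexing
  let E := Fintype.equivFin (Σ _ : κ, Fin m₁)
  have hre : ∀ x, dfm τ (fun a => w (E.symm a)) x = dfm τ w x := by
    intro x
    unfold dfm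
    exact E.symm.sum_comp (fun p => ‖τ (star (w p) * x)‖ ^ 2)
  refine ⟨Fintype.card (Σ _ : κ, Fin m₁), fun a => w (E.symm a), ⟨fun x => ?_, fun x => ?_⟩, ?_⟩
  · rw [hre]; exact hbd1 x
  · rw [hre]; exact hbd2 x
  · have h1 : hsf τ (fun a => w (E.symm a)) = hsf τ w := by
      unfold hsf
      rw [E.symm.sum_comp (fun p => ∑ b, ‖τ (star (w p) * w (E.symm b))‖ ^ 2)]
      refine Finset.sum_congr rfl fun p _ => ?_
      exact E.symm.sum_comp (fun q => ‖τ (star (w p) * w q)‖ ^ 2)
    rw [h1, ← hw2]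
    exact hhs

end

/-- Finite rank forms. -/
theorem pHF (hFF1 : StFF1) (hTL : StTL) : StHF := by
  intro N _ _ _ τ ι F u hτ hF hu
  refine ⟨?_, ?_, ?_, ?_, ?_⟩
  · intro m v
    refine ⟨?_, fun k => ?_⟩
    · unfold hsf
      positivity
    · obtain ⟨m', w, -, h2, h3, -⟩ := hTL N τ ι F u m v k hτ hF hu
      rw [← h2]; exact h3
  · intro m v c c' hc hc'
    exact ⟨hf_hsf_conj hFF1 hτ v hc hc', fun x => hf_dfm_conj hτ v c c' x⟩
  · intro m v c ψ hc hψ
    have hcs : ‖star c‖ ≤ 1 := by rwa [norm_star]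
    have h0 : ∀ x, dfm τ (fun j => c * v j * star c) x = dfm τ v (star c * x * c) := by
      intro x
      rw [hf_dfm_conj hτ, star_star]
    refine ⟨fun x => ?_, fun x => ?_⟩
    · rw [hf_form_mul hτ, h0]
      have h1 := hψ.1 (star c * x * c)
      have h2 := mul_le_mul_of_nonneg_left (hf_hs_conj hτ hcs hc x) hf_aa_nonneg
      linarith
    · rw [h0]
      have h1 := hψ.2 (star c * x * c)
      have h2 := hf_hs_conj hτ hcs hc x
      linarith
  · intro m v x
    obtain ⟨H, i1, i2, e, he, hn⟩ := exists_L2 hτ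
    have h6 := (hFF1 H).2.2.2.2.2.1 (Fin m) (fun j => e (v j)) (e x)
    unfold crs at h6
    simp only [he] at h6
    rw [hn] at h6
    exact h6
  · intro m v G ψ k hG hG1 hψ
    exact hf_final hFF1 hTL hτ F hF u hu v G ψ k hG hG1 hψ

end Helper61.HT
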