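import Pool.Agent.Helper61.HT.StE
import Pool.Agent.Helper61.HT.Ip

/-!
# Project HT: the initial object from the Haagerup property
-/

set_option linter.unusedSectionVars false

namespace Helper61.HT

open scoped ComplexOrder
open Filter Topology

variable {N : Type} [CStarAlgebra N] [PartialOrder N] [StarOrderedRing N] {τ : N →ₗ[ℂ] ℂ}

/-- `c = max(a, 1)^{-1/2}`. -/
private lemma exists_cut {a : N} (ha : 0 ≤ a) : ∃ c : N, star c = c ∧ 0 ≤ c ∧ c ≤ 1 ∧
    c * a * c ≤ 1 ∧ (1 - c) * (1 - c) ≤ (a - 1) * (a - 1) := by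
  have hsa : IsSelfAdjoint a := IsSelfAdjoint.of_nonneg ha
  let f : ℝ → ℝ := fun t => (Real.sqrt (max t 1))⁻¹
  have hf0 : ∀ t, 0 < Real.sqrt (max t 1) := fun t =>
    Real.sqrt_pos.2 (lt_of_lt_of_le one_pos (le_max_right _ _))
  have hf1 : ∀ t, 1 ≤ Real.sqrt (max t 1) := fun t => by
    rw [Real.one_le_sqrt]; exact le_max_right _ _
  have hfc : Continuous f := by
    refine Continuous.inv₀ (by fun_prop) fun t => (hf0 t).ne'
  have hfle : ∀ t, f t ≤ 1 := fun t => inv_le_one_of_one_le₀ (hf1 t)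
  have hfpos : ∀ t, 0 < f t := fun t => inv_pos.2 (hf0 t)
  have hfsq : ∀ t, f t * f t * max t 1 = 1 := fun t => by
    have h := Real.mul_self_sqrt (le_trans zero_le_one (le_max_right t 1))
    have h0 := (hf0 t).ne'
    simp only [f]
    nth_rewrite 3 [← h]
    field_simp
  refine ⟨cfc f a, ?_, ?_, ?_, ?_, ?_⟩
  · exact (cfc_predicate f a).star_eq
  · exact cfc_nonneg fun x _ => (hfpos x).le
  · exact cfc_le_one f a fun x _ => hfle x
  · have h1 : cfc f a * a * cfc f a = cfc (fun t => f t * t * f t) a := by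
      have hid : cfc (fun t : ℝ => t) a = a := cfc_id' ℝ a
      nth_rewrite 2 [← hid]
      rw [← cfc_mul f (fun t : ℝ => t) a (by fun_prop) (by fun_prop),
        ← cfc_mul (fun t => f t * t) f a (by fun_prop) (by fun_prop)]
    rw [h1]
    refine cfc_le_one _ a fun t _ => ?_
    have h2 := hfsq t
    have h3 : f t * f t * t ≤ f t * f t * max t 1 :=
      mul_le_mul_of_nonneg_left (le_max_left _ _) (mul_nonneg (hfpos t).le (hfpos t).le)
    calc f t * t * f t = f t * f t * t := by ring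
      _ ≤ 1 := by rw [← h2]; exact h3
  · have h1 : (1 - cfc f a) * (1 - cfc f a) = cfc (fun t => (1 - f t) * (1 - f t)) a := by
      have h2 : (1 : N) - cfc f a = cfc (fun t => 1 - f t) a := by
        rw [cfc_sub (fun _ : ℝ => (1 : ℝ)) f a (by fun_prop) (by fun_prop), cfc_const_one ℝ a]
      rw [h2, ← cfc_mul (fun t => 1 - f t) (fun t => 1 - f t) a (by fun_prop) (by fun_prop)]
    have h3 : (a - 1) * (a - 1) = cfc (fun t : ℝ => (t - 1) * (t - 1)) a := by
      have h2 : a - 1 = cfc (fun t : ℝ => t - 1) a := by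
        rw [cfc_sub (fun t : ℝ => t) (fun _ : ℝ => (1 : ℝ)) a (by fun_prop) (by fun_prop),
          cfc_const_one ℝ a, cfc_id' ℝ a]
      rw [h2, ← cfc_mul (fun t : ℝ => t - 1) (fun t : ℝ => t - 1) a (by fun_prop) (by fun_prop)]
    rw [h1, h3]
    refine cfc_mono (fun t _ => ?_) (by fun_prop) (by fun_prop)
    -- |1 - f t| ≤ |t - 1|
    rcases le_total t 1 with ht | ht
    · have : f t = 1 := by simp only [f, max_eq_right ht, Real.sqrt_one, inv_one]
      rw [this]; nlinarith [mul_self_nonneg (t - 1)]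
    · have h4 : 0 ≤ 1 - f t := sub_nonneg.2 (hfle t)
      have h5 : 1 - f t ≤ t - 1 := by
        have h6 : f t * Real.sqrt t = 1 := by
          simp only [f, max_eq_left ht]
          exact inv_mul_cancel₀ (Real.sqrt_pos.2 (by linarith)).ne'
        have h7 : Real.sqrt t ≤ t := by
          rw [Real.sqrt_le_left (by linarith)]; nlinarith
        have h8 : 1 ≤ Real.sqrt t := by rw [Real.one_le_sqrt]; exact ht
        have h9 := hfpos t
        have h10 := hfle t
        have h11 : 1 - f t = f t * (Real.sqrt t - 1) := by rw [mul_sub, h6, mul_one]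
        rw [h11]
        calc f t * (Real.sqrt t - 1) ≤ 1 * (Real.sqrt t - 1) :=
              mul_le_mul_of_nonneg_right h10 (by linarith)
          _ ≤ t - 1 := by linarith
      exact mul_self_le_mul_self h4 h5

/-- A positive trace reducing map has an adjoint. -/
private lemma exists_adj (hRN : StRN) (hτ : Trc τ) (hC : Cpl τ) (φ : N →ₗ[ℂ] N)
    (hpos : ∀ x, 0 ≤ x → 0 ≤ φ x) (htr : ∀ x, 0 ≤ x → rt τ (φ x) ≤ rt τ x) :
    ∃ φs : N →ₗ[ℂ] N, (∀ x y, τ (y * φ x) = τ (φs y * x)) ∧ (∀ y, 0 ≤ y → 0 ≤ φs y) ∧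
      ∀ y, 0 ≤ y → y ≤ 1 → φs y ≤ 1 := by
  have ext : ∀ z z' : N, (∀ x, τ (z * x) = τ (z' * x)) → z = z' := by
    intro z z' h
    have h1 : τ (star (star (z - z')) * star (z - z')) = 0 := by
      rw [star_star, sub_mul, map_sub, h, sub_self]
    have h2 := hτ.faith _ h1
    exact sub_eq_zero.1 (star_eq_zero.1 h2)
  have real0 : ∀ y z : N, 0 ≤ y → 0 ≤ z → 0 ≤ τ (y * z) := by
    intro y z hy hz
    obtain ⟨c, hc, rfl⟩ := exists_sqrt hy
    have h1 : 0 ≤ τ (c * z * star c) := by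
      obtain ⟨d, hd, rfl⟩ := exists_sqrt hz
      have h2 := hτ.nonneg (d * star c)
      rwa [star_mul, star_star, herm_of_nonneg hd, ← mul_assoc, mul_assoc c d d] at h2
    rw [herm_of_nonneg hc, hτ.tr] at h1
    rwa [mul_assoc]
  have base : ∀ y : N, 0 ≤ y → y ≤ 1 → ∃ z, 0 ≤ z ∧ z ≤ 1 ∧ ∀ x, τ (y * φ x) = τ (z * x) := by
    intro y hy hy1
    refine hRN N τ (τ ∘ₗ LinearMap.mulLeft ℂ y ∘ₗ φ) hτ hC (fun x hx => ?_) (fun x hx => ?_)
    · exact real0 y (φ x) hy (hpos x hx)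
    · refine le_trans ?_ (htr x hx)
      have := rt_mul_mono hτ hy1 (hpos x hx)
      rwa [one_mul] at this
  have all : ∀ y : N, ∃ z, ∀ x, τ (y * φ x) = τ (z * x) := by
    intro y
    have hy : y ∈ Submodule.span ℂ ({x : N | 0 ≤ x} ∩ Metric.closedBall 0 1) := by
      rw [CStarAlgebra.span_nonneg_inter_unitClosedBall]; exact Submodule.mem_top
    refine Submodule.span_induction (p := fun y _ => ∃ z, ∀ x, τ (y * φ x) = τ (z * x))
      ?_ ?_ ?_ ?_ hy
    · rintro w ⟨hw0, hw1⟩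
      have hw2 : w ≤ 1 := by
        have h1 := le_smul_of_norm (herm_of_nonneg hw0)
        have h2 : ‖w‖ ≤ 1 := by simpa using hw1
        refine h1.trans ?_
        have := smul_mono_left h2 (zero_le_one (α := N))
        rwa [one_smul] at this
      obtain ⟨z, -, -, hz⟩ := base w hw0 hw2
      exact ⟨z, hz⟩
    · exact ⟨0, fun x => by rw [zero_mul, zero_mul]⟩
    · rintro a b - - ⟨z, hz⟩ ⟨z', hz'⟩
      exact ⟨z + z', fun x => by rw [add_mul, add_mul, map_add, map_add, hz, hz']⟩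
    · rintro r a - ⟨z, hz⟩
      exact ⟨r • z, fun x => by rw [smul_mul_assoc, smul_mul_assoc, map_smul, map_smul, hz]⟩
  choose g hg using all
  refine ⟨{ toFun := g, map_add' := fun a b => ?_, map_smul' := fun r a => ?_ }, ?_, ?_, ?_⟩
  · refine ext _ _ fun x => ?_
    rw [← hg, add_mul, add_mul, map_add, map_add, hg, hg]
  · refine ext _ _ fun x => ?_
    rw [← hg, RingHom.id_apply, smul_mul_assoc, smul_mul_assoc, map_smul, map_smul, hg]
  · intro x y; exact hg y x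
  · intro y hy
    change 0 ≤ g y
    rcases eq_or_ne y 0 with rfl | h0
    · have : g 0 = 0 := ext _ _ fun x => by rw [← hg, zero_mul, zero_mul]
      rw [this]
    · have hn : 0 < ‖y‖ := norm_pos_iff.2 h0
      have hy' : 0 ≤ ‖y‖⁻¹ • y := smul_nonneg_real (inv_nonneg.2 hn.le) hy
      have hy1 : ‖y‖⁻¹ • y ≤ 1 := by
        have h1 := smul_mono_real (inv_nonneg.2 hn.le) (le_smul_of_norm (herm_of_nonneg hy))
        rwa [smul_smul, inv_mul_cancel₀ hn.ne', one_smul] at h1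
      obtain ⟨z, hz0, -, hz⟩ := base _ hy' hy1
      have h2 : g y = ‖y‖ • z := by
        refine ext _ _ fun x => ?_
        rw [← hg, smul_mul_assoc, map_smul_real, ← hz, smul_mul_assoc, map_smul_real,
          ← mul_assoc, ← Complex.ofReal_mul, mul_inv_cancel₀ hn.ne', Complex.ofReal_one, one_mul]
      rw [h2]
      exact smul_nonneg_real hn.le hz0
  · intro y hy hy1
    change g y ≤ 1
    obtain ⟨z, -, hz1, hz⟩ := base y hy hy1
    have : g y = z := ext _ _ fun x => by rw [← hg, hz]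
    rw [this]; exact hz1

/-- Orthogonal projection on the span of a finite set. -/
private lemma exists_basis (hτ : Trc τ) (s : Finset N) : ∃ (m : ℕ) (e : Fin m → N),
    ∀ y : N, (∑ i, ‖τ (star (e i) * y)‖ ^ 2 ≤ hs τ y) ∧
      ∀ v ∈ s, hs τ y ≤ hs τ (y - v) + ∑ i, ‖τ (star (e i) * y)‖ ^ 2 := by
  obtain ⟨H, _, _, e, he, hn⟩ := exists_L2 hτ
  let V : Submodule ℂ H := Submodule.span ℂ (e '' s)
  have : FiniteDimensional ℂ V :=
    FiniteDimensional.span_of_finite ℂ (s.finite_toSet.image e)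
  let b := stdOrthonormalBasis ℂ V
  refine ⟨Module.finrank ℂ V, fun i => e.symm (b i : H), fun y => ?_⟩
  have hin : ∀ i, τ (star (e.symm (b i : H)) * y) = inner ℂ (b i : H) (e y) := fun i => by
    rw [← he, LinearEquiv.apply_symm_apply]
  have hsum : ∑ i, ‖τ (star (e.symm (b i : H)) * y)‖ ^ 2 = ‖V.starProjection (e y)‖ ^ 2 := by
    have h1 : ‖V.starProjection (e y)‖ = ‖V.orthogonalProjectionOnto (e y)‖ := rfl
    rw [h1, ← b.sum_sq_norm_inner_right]
    refine Finset.sum_congr rfl fun i _ => ?_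
    rw [hin]
    congr 2
    exact (V.inner_orthogonalProjectionOnto_eq_of_mem_left (b i) (e y)).symm
  have hpyth : ‖e y‖ ^ 2 = ‖V.starProjection (e y)‖ ^ 2 + ‖e y - V.starProjection (e y)‖ ^ 2 := by
    have := V.norm_sq_eq_add_norm_sq_starProjection (e y)
    rw [this, Submodule.starProjection_orthogonal_val]
  constructor
  · rw [hsum, ← hn, hpyth]
    nlinarith [sq_nonneg ‖e y - V.starProjection (e y)‖]
  · intro v hv
    have hvV : e v ∈ V := Submodule.subset_span ⟨v, hv, rfl⟩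
    have h3 : ‖e y - V.starProjection (e y)‖ ≤ ‖e y - e v‖ := by
      rw [V.starProjection_minimal]
      exact ciInf_le ⟨0, by rintro _ ⟨x, rfl⟩; exact norm_nonneg _⟩ (⟨e v, hvV⟩ : V)
    have h4 : hs τ (y - v) = ‖e y - e v‖ ^ 2 := by rw [← hn, map_sub]
    rw [hsum, ← hn, hpyth, h4]
    have := norm_nonneg (e y - V.starProjection (e y))
    nlinarith

private lemma hs_le_of_cp (hKS : StKS) (hτ : Trc τ) (φ : N →ₗ[ℂ] N) (hcp : CPm φ)
    (h1 : φ 1 ≤ 1) (htr : ∀ x, 0 ≤ x → rt τ (φ x) ≤ rt τ x) (x : N) : hs τ (φ x) ≤ hs τ x := by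
  obtain ⟨-, -, h3, -⟩ := hKS N τ φ hτ hcp
  exact (rt_mono hτ (h3 h1 x)).trans (htr _ (nonneg_star_mul x))

/-- Symmetrization `ψ₀ = φ* φ`. -/
private lemma exists_psi0 (hKS : StKS) (hRN : StRN) (hτ : Trc τ) (hC : Cpl τ) (φ : N →ₗ[ℂ] N)
    (hcp : CPm φ) (h1 : φ 1 ≤ 1) (htr : ∀ x, 0 ≤ x → rt τ (φ x) ≤ rt τ x) (hcpt : Cpt τ φ) :
    ∃ ψ : N →ₗ[ℂ] N, SCP τ ψ ∧ (∀ x y, τ (x * ψ y) = τ (φ x * φ y)) ∧
      ∃ (m : ℕ) (w : Fin m → N), Bd τ aa ψ w := by
  obtain ⟨hst, hpos, -, -, hlast⟩ := hKS N τ φ hτ hcp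
  have hhs := hs_le_of_cp hKS hτ φ hcp h1 htr
  obtain ⟨φs, hadj, hspos, hs1⟩ := exists_adj hRN hτ hC φ hpos htr
  have hstar : ∀ y, φs (star y) = star (φs y) := by
    intro y
    have key : ∀ x, τ (φs (star y) * x) = τ (star (φs y) * x) := by
      intro x
      rw [← hadj]
      have e1 : τ (star y * φ x) = (starRingEnd ℂ) (τ (y * φ (star x))) := by
        rw [← map_star' hτ, star_mul, ← hst, star_star, hτ.tr]
      have e2 : τ (star (φs y) * x) = (starRingEnd ℂ) (τ (φs y * star x)) := by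
        rw [← map_star' hτ, star_mul, star_star, hτ.tr]
      rw [e1, e2, hadj]
    have h2 : φs (star y) - star (φs y) = 0 := by
      have h3 : τ (star (star (φs (star y) - star (φs y))) *
          star (φs (star y) - star (φs y))) = 0 := by
        rw [star_star, sub_mul, map_sub, key, sub_self]
      exact star_eq_zero.1 (hτ.faith _ h3)
    exact sub_eq_zero.1 h2
  have hdef : ∀ x y, τ (x * φs (φ y)) = τ (φ x * φ y) := by
    intro x y
    rw [hτ.tr x, ← hadj, hτ.tr]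
  refine ⟨φs ∘ₗ φ, ⟨fun x => ?_, fun x hx => ?_, fun m x y => ?_, fun x y => ?_, fun x => ?_, ?_⟩,
    fun x y => hdef x y, ?_⟩
  · rw [LinearMap.comp_apply, hst, hstar]; rfl
  · exact hspos _ (hpos x hx)
  · have := hlast m x y
    refine this.trans_eq ?_
    congr 1
    refine Finset.sum_congr rfl fun i _ => Finset.sum_congr rfl fun j _ => ?_
    exact (hdef _ _).symm
  · rw [LinearMap.comp_apply, LinearMap.comp_apply, hdef, hτ.tr, hdef, hτ.tr]
  · have : rt τ (star x * (φs ∘ₗ φ) x) = hs τ (φ x) := by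
      unfold rt hs
      rw [LinearMap.comp_apply, hdef, hst]
    rw [this]; exact hs_nonneg hτ _
  · exact hs1 _ (hpos 1 zero_le_one) h1
  · obtain ⟨s, hs'⟩ := hcpt aa (by unfold aa; positivity)
    obtain ⟨m, e, he⟩ := exists_basis hτ s
    refine ⟨m, fun i => φs (e i), fun x => ?_, fun x => ?_⟩
    all_goals
      have hd : ∀ x, dfm τ (fun i => φs (e i)) x = ∑ i, ‖τ (star (e i) * φ x)‖ ^ 2 := by
        intro x
        unfold dfm
        refine Finset.sum_congr rfl fun i _ => ?_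
        rw [← hstar, ← hadj]
    · have e0 : rt τ (star x * (φs ∘ₗ φ) x) = hs τ (φ x) := by
        unfold rt hs
        rw [LinearMap.comp_apply, hdef, hst]
      rw [e0, hd]
      rcases eq_or_lt_of_le (hs_nonneg hτ x) with h0 | h0
      · have : x = 0 := hs_eq_zero hτ h0.symm
        subst this
        rw [map_zero, hs_zero, mul_zero, zero_add]
        exact Finset.sum_nonneg fun i _ => by positivity
      · set r := Real.sqrt (hs τ x) with hr
        have hr0 : 0 < r := Real.sqrt_pos.2 h0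
        have hr2 : r ^ 2 = hs τ x := Real.sq_sqrt h0.le
        have h2 : hs τ (r⁻¹ • x) ≤ 1 := by
          rw [hs_smul, ← hr2, inv_pow, inv_mul_cancel₀ (by positivity)]
        obtain ⟨v, hv, hv'⟩ := hs' _ h2
        have h3 := (he (φ (r⁻¹ • x))).2 v hv
        have hφr : φ (r⁻¹ • x) = r⁻¹ • φ x := by
          have e1 : r⁻¹ • x = ((r⁻¹ : ℝ) : ℂ) • x := (algebraMap_smul ℂ r⁻¹ x).symm
          have e2 : r⁻¹ • φ x = ((r⁻¹ : ℝ) : ℂ) • φ x := (algebraMap_smul ℂ r⁻¹ (φ x)).symm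
          rw [e1, e2, map_smul]
        have h4 : ∑ i, ‖τ (star (e i) * φ (r⁻¹ • x))‖ ^ 2 =
            (r⁻¹) ^ 2 * ∑ i, ‖τ (star (e i) * φ x)‖ ^ 2 := by
          rw [Finset.mul_sum]
          refine Finset.sum_congr rfl fun i _ => ?_
          rw [hφr, mul_smul_comm, map_smul_real, norm_mul, mul_pow, Complex.norm_real,
            Real.norm_eq_abs, sq_abs]
        have h5 : hs τ (φ (r⁻¹ • x)) = (r⁻¹) ^ 2 * hs τ (φ x) := by rw [hφr, hs_smul]
        rw [h4] at h3
        rw [h5] at h3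
        have h6 : (r⁻¹) ^ 2 * hs τ (φ x) ≤ aa + (r⁻¹) ^ 2 * ∑ i, ‖τ (star (e i) * φ x)‖ ^ 2 := by
          linarith
        have h7 := mul_le_mul_of_nonneg_left h6 (sq_nonneg r)
        have h8 : r ^ 2 * (r⁻¹) ^ 2 = 1 := by rw [← mul_pow, mul_inv_cancel₀ hr0.ne', one_pow]
        have h9 : r ^ 2 * (r⁻¹ ^ 2 * hs τ (φ x)) = hs τ (φ x) := by rw [← mul_assoc, h8, one_mul]
        have h10 : r ^ 2 * (aa + r⁻¹ ^ 2 * ∑ i, ‖τ (star (e i) * φ x)‖ ^ 2) =
            aa * r ^ 2 + ∑ i, ‖τ (star (e i) * φ x)‖ ^ 2 := by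
          rw [mul_add, ← mul_assoc (r ^ 2) (r⁻¹ ^ 2), h8, one_mul]; ring
        rw [h9, h10, hr2] at h7
        exact h7
    · rw [hd]
      have h2 := (he (φ x)).1
      have h3 := hhs x
      have h4 := hs_nonneg hτ x
      linarith

/-- Normalization of a map of the Haagerup property. -/
private lemma exists_normal (hKS : StKS) (hτ : Trc τ) (φ : N →ₗ[ℂ] N)
    (hcp : CPm φ) (htr : ∀ x, 0 ≤ x → rt τ (φ x) ≤ rt τ x) (hcpt : Cpt τ φ) :
    ∃ φ' : N →ₗ[ℂ] N, CPm φ' ∧ φ' 1 ≤ 1 ∧ (∀ x, 0 ≤ x → rt τ (φ' x) ≤ rt τ x) ∧ Cpt τ φ' ∧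
      ∀ x, Real.sqrt (hs τ (φ' x - x)) ≤
        Real.sqrt (hs τ (φ x - x)) + 2 * ‖x‖ * Real.sqrt (hs τ (φ 1 - 1)) := by
  obtain ⟨-, hpos, -, hconj, -⟩ := hKS N τ φ hτ hcp
  obtain ⟨c, hcs, hc0, hc1, hcac, hcd⟩ := exists_cut (hpos 1 zero_le_one)
  have hcn : ‖c‖ ≤ 1 := norm_le_one_of_nonneg hc0 hc1
  have hcc : c * c ≤ 1 := (le_mul_self_of_le_one hc0 hc1).trans hc1
  refine ⟨{ toFun := fun x => c * φ x * star c,
            map_add' := fun x y => by simp only [map_add, mul_add, add_mul]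
            map_smul' := fun r x => by
              simp only [map_smul, mul_smul_comm, smul_mul_assoc, RingHom.id_apply] },
    hconj c, ?_, ?_, ?_, ?_⟩
  · change c * φ 1 * star c ≤ 1
    rw [hcs]; exact hcac
  · intro x hx
    change rt τ (c * φ x * star c) ≤ rt τ x
    rw [hcs, rt_cycle hτ]
    have h2 := rt_mul_mono hτ hcc (hpos x hx)
    rw [one_mul] at h2
    exact h2.trans (htr x hx)
  · intro ε hε
    classical
    obtain ⟨s, hs'⟩ := hcpt ε hε
    refine ⟨s.image fun y => c * y * star c, fun x hx => ?_⟩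
    obtain ⟨y, hy, hy'⟩ := hs' x hx
    refine ⟨c * y * star c, Finset.mem_image_of_mem _ hy, ?_⟩
    change hs τ (c * φ x * star c - c * y * star c) ≤ ε
    have e1 : c * φ x * star c - c * y * star c = c * (φ x - y) * star c := by noncomm_ring
    rw [e1, hcs]
    exact ((hs_mul_right_le hτ hcn).trans (hs_mul_left_le hτ hcn)).trans hy'
  · intro x
    change Real.sqrt (hs τ (c * φ x * star c - x)) ≤ _
    have e1 : c * φ x * star c - x =
        c * (φ x - x) * c + (-((1 - c) * (x * c)) + -(x * (1 - c))) := by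
      rw [hcs]; noncomm_ring
    have hd : hs τ (1 - c) ≤ hs τ (φ 1 - 1) := by
      have h2 := rt_mono hτ hcd
      have e2 : star (1 - c) = 1 - c := by rw [star_sub, star_one, hcs]
      have e3 : star (φ 1 - 1) = φ 1 - 1 := by
        rw [star_sub, star_one, herm_of_nonneg (hpos 1 zero_le_one)]
      rw [hs_eq_rt, hs_eq_rt, e2, e3]
      exact h2
    have h2 : Real.sqrt (hs τ (c * (φ x - x) * c)) ≤ Real.sqrt (hs τ (φ x - x)) :=
      Real.sqrt_le_sqrt ((hs_mul_right_le hτ hcn).trans (hs_mul_left_le hτ hcn))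
    have hxn := norm_nonneg x
    have hsd : Real.sqrt (hs τ (1 - c)) ≤ Real.sqrt (hs τ (φ 1 - 1)) := Real.sqrt_le_sqrt hd
    have h3 : Real.sqrt (hs τ (-((1 - c) * (x * c)))) ≤ ‖x‖ * Real.sqrt (hs τ (φ 1 - 1)) := by
      rw [hs_neg]
      have h4 := hs_mul_le' hτ (1 - c) (x * c)
      have h5 : ‖x * c‖ ≤ ‖x‖ := by
        refine (norm_mul_le _ _).trans ?_
        calc ‖x‖ * ‖c‖ ≤ ‖x‖ * 1 := mul_le_mul_of_nonneg_left hcn hxn
          _ = _ := mul_one _
      calc Real.sqrt (hs τ ((1 - c) * (x * c))) ≤ Real.sqrt (‖x * c‖ ^ 2 * hs τ (1 - c)) :=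
            Real.sqrt_le_sqrt h4
        _ = ‖x * c‖ * Real.sqrt (hs τ (1 - c)) := by
            rw [Real.sqrt_mul (sq_nonneg _), Real.sqrt_sq (norm_nonneg _)]
        _ ≤ ‖x‖ * Real.sqrt (hs τ (φ 1 - 1)) :=
            mul_le_mul h5 hsd (Real.sqrt_nonneg _) hxn
    have h6 : Real.sqrt (hs τ (-(x * (1 - c)))) ≤ ‖x‖ * Real.sqrt (hs τ (φ 1 - 1)) := by
      rw [hs_neg]
      calc Real.sqrt (hs τ (x * (1 - c))) ≤ Real.sqrt (‖x‖ ^ 2 * hs τ (1 - c)) :=
            Real.sqrt_le_sqrt (hs_mul_le hτ _ _)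
        _ = ‖x‖ * Real.sqrt (hs τ (1 - c)) := by
            rw [Real.sqrt_mul (sq_nonneg _), Real.sqrt_sq hxn]
        _ ≤ ‖x‖ * Real.sqrt (hs τ (φ 1 - 1)) := mul_le_mul_of_nonneg_left hsd hxn
    rw [e1]
    have h7 := sqrt_hs_add_le hτ (c * (φ x - x) * c) (-((1 - c) * (x * c)) + -(x * (1 - c)))
    have h8 := sqrt_hs_add_le hτ (-((1 - c) * (x * c))) (-(x * (1 - c)))
    linarith

/-- `hs (φ x)` is almost `hs x`. -/
private lemma hs_lower (hτ : Trc τ) (x y : N) :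
    hs τ x - 2 * Real.sqrt (hs τ x) * Real.sqrt (hs τ (y - x)) ≤ hs τ y := by
  have h1 := hs_add hτ x (y - x)
  have h2 := abs_rt_mul_le hτ (star x) (y - x)
  rw [hs_star hτ] at h2
  have h3 := hs_nonneg hτ (y - x)
  rw [add_sub_cancel] at h1
  have h4 := (abs_le.1 h2).1
  linarith

theorem pInit (hKS : StKS) (hRN : StRN) (hScp : StScp) (hEn : StEnM) (hHF : StHF) : StInit := by
  intro N _ _ _ τ ι F u Q ε hτ hC hH hu hQ hq0 hε hEQ
  obtain ⟨φ, hφ, hlim⟩ := hH
  choose φ' hcp h1 htr hcpt hdist using fun k =>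
    exists_normal hKS hτ (φ k) (hφ k).1 (hφ k).2.1 (hφ k).2.2
  have hq : Pr (1 - Q) := hQ.one_sub
  set T := rt τ (1 - Q) with hT
  -- lower bound along the sequence
  have hlow : ∀ (x : N) (η : ℝ), 0 < η → ∀ᶠ k in atTop, hs τ x - η ≤ hs τ (φ' k x) := by
    intro x η hη
    have t1 : Tendsto (fun k => Real.sqrt (hs τ (φ k x - x)) +
        2 * ‖x‖ * Real.sqrt (hs τ (φ k 1 - 1))) atTop (𝓝 0) := by
      have a1 : Tendsto (fun k => Real.sqrt (hs τ (φ k x - x))) atTop (𝓝 0) := by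
        have := (Real.continuous_sqrt.tendsto 0).comp (hlim x)
        rwa [Real.sqrt_zero] at this
      have a2 : Tendsto (fun k => Real.sqrt (hs τ (φ k 1 - 1))) atTop (𝓝 0) := by
        have := (Real.continuous_sqrt.tendsto 0).comp (hlim 1)
        rwa [Real.sqrt_zero] at this
      have := a1.add (a2.const_mul (2 * ‖x‖))
      simpa using this
    have t2 : Tendsto (fun k => 2 * Real.sqrt (hs τ x) * (Real.sqrt (hs τ (φ k x - x)) +
        2 * ‖x‖ * Real.sqrt (hs τ (φ k 1 - 1)))) atTop (𝓝 0) := by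
      have := t1.const_mul (2 * Real.sqrt (hs τ x))
      simpa using this
    filter_upwards [t2.eventually (gt_mem_nhds hη)] with k hk
    have h3 := hs_lower hτ x (φ' k x)
    have h4 : 2 * Real.sqrt (hs τ x) * Real.sqrt (hs τ (φ' k x - x)) ≤
        2 * Real.sqrt (hs τ x) * (Real.sqrt (hs τ (φ k x - x)) +
        2 * ‖x‖ * Real.sqrt (hs τ (φ k 1 - 1))) :=
      mul_le_mul_of_nonneg_left (hdist k x) (by positivity)
    linarith
  have hev : ∀ᶠ k in atTop, (∀ s ∈ F, hs τ (u s) - ε * T / (20 * (F.card + 1)) ≤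
      hs τ (φ' k (u s))) ∧ hs τ (1 - Q) - 1 / 10 ^ 4 * T ≤ hs τ (φ' k (1 - Q)) := by
    refine Filter.Eventually.and ?_ (hlow _ _ (by positivity))
    rw [Filter.eventually_all_finset]
    intro s _
    exact hlow _ _ (by positivity)
  obtain ⟨k, hk1, hk2⟩ := hev.exists
  obtain ⟨ψ, hψ, hdef, m, w, hw⟩ :=
    exists_psi0 hKS hRN hτ hC (φ' k) (hcp k) (h1 k) (htr k) (hcpt k)
  obtain ⟨hst, hpos, -, -, -⟩ := hKS N τ (φ' k) hτ (hcp k)
  have hhs := hs_le_of_cp hKS hτ (φ' k) (hcp k) (h1 k) (htr k)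
  obtain ⟨hS1, -⟩ := hScp N τ hτ
  obtain ⟨hS2, hS3⟩ := hS1 ψ (1 - Q) hψ hq.norm_le
  have hq1 : star (1 - Q) = 1 - Q := hq.1
  have hEψ : EnM τ F u ψ ≤ ε / 10 * T := by
    rw [EnM_eq]
    have e1 : ∀ s ∈ F, 2 * (rt τ (ψ 1) - rt τ (star (u s) * ψ (u s))) ≤
        2 * (ε * T / (20 * (F.card + 1))) := by
      intro s hs'
      have a1 : rt τ (ψ 1) = hs τ (φ' k 1) := by
        unfold rt hs
        rw [← one_mul (ψ 1), hdef, ← hst, star_one]
      have a2 : rt τ (star (u s) * ψ (u s)) = hs τ (φ' k (u s)) := by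
        unfold rt hs
        rw [hdef, hst]
      have a3 := hk1 s hs'
      have a4 : hs τ (u s) = 1 := by
        rw [hs_eq_rt, (hu s).1, rt_one hτ]
      have a5 := hhs 1
      have a6 : hs τ (1 : N) = 1 := by rw [hs_eq_rt, star_one, mul_one, rt_one hτ]
      rw [a1, a2]
      linarith
    refine (Finset.sum_le_sum e1).trans ?_
    rw [Finset.sum_const, nsmul_eq_mul]
    have hc : (0 : ℝ) ≤ F.card := Nat.cast_nonneg _
    have h5 : (F.card : ℝ) * (2 * (ε * T / (20 * (F.card + 1)))) =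
        ε / 10 * T * (F.card / (F.card + 1)) := by
      field_simp; ring
    rw [h5]
    have h6 : (F.card : ℝ) / (F.card + 1) ≤ 1 := by
      rw [div_le_one (by positivity)]; linarith
    have h7 : 0 ≤ ε / 10 * T := by positivity
    nlinarith
  have hEq : En τ F u (1 - Q) ≤ ε / 20 * T := by rw [En_one_sub]; exact hEQ
  have hEnm : EnM τ F u (Cj (1 - Q) ψ) ≤ ε * T := by
    rcases F.eq_empty_or_nonempty with hF | hF
    · subst hF
      rw [EnM_eq, Finset.sum_empty]; positivity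
    · obtain ⟨-, h2, -⟩ := hEn N τ ι F u hτ hF hu
      have h3 := h2 ψ (1 - Q) F hψ hq.norm_le
      have h4 : 0 ≤ ε * T := by positivity
      linarith
  have hne : (1 : N) - Q ≠ 0 := by
    intro h0
    rw [hT, h0, rt_zero] at hq0
    exact lt_irrefl _ hq0
  have hrt : rt τ ((Cj (1 - Q) ψ) 1) = hs τ (φ' k (1 - Q)) := by
    rw [Cj_apply, hq1, mul_one, hq.2, rt_cycle hτ, hq.2]
    unfold rt hs
    rw [hdef, ← hst, hq1]
  obtain ⟨-, -, hbd, -⟩ := hHF N τ Unit {()} (fun _ => (1 : N)) hτ ⟨(), by simp⟩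
    (fun _ => ⟨by simp, by simp⟩)
  refine ⟨Cj (1 - Q) ψ, m, fun j => (1 - Q) * w j * star (1 - Q), ⟨hq, hne, hS2, fun x => ?_, ?_,
    ?_, hEnm⟩, ?_, hbd m w (1 - Q) ψ hq.norm_le hw⟩
  · rw [Cj_apply, Cj_apply, hq1]
    have e1 : (1 - Q) * ((1 - Q) * x * (1 - Q)) * (1 - Q) = (1 - Q) * x * (1 - Q) := by
      calc (1 - Q) * ((1 - Q) * x * (1 - Q)) * (1 - Q) =
          ((1 - Q) * (1 - Q)) * x * ((1 - Q) * (1 - Q)) := by
            simp only [mul_assoc]
        _ = _ := by rw [hq.2]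
    rw [e1]
    calc (1 - Q) * ψ ((1 - Q) * x * (1 - Q)) * (1 - Q) =
        ((1 - Q) * (1 - Q)) * ψ ((1 - Q) * x * (1 - Q)) * ((1 - Q) * (1 - Q)) := by rw [hq.2]
      _ = _ := by simp only [mul_assoc]
  · rw [hq1, hq.2] at hS3
    exact hS3
  · have h4 : 0 ≤ ε * T := by positivity
    linarith
  · rw [hrt]
    have h3 : hs τ (1 - Q) = T := by rw [hq.hs]
    rw [h3] at hk2
    linarith

end Helper61.HT
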