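import Pool.Agent.Helper61.HT.StE
import Pool.Agent.Helper61.HT.LibN
import Pool.Agent.Helper61.HT.Ip

/-!
# Project HT: the iteration in the unitality lemma
-/

set_option linter.unusedSectionVars false
set_option autoImplicit false

namespace Helper61.HT

open scoped ComplexOrder

section

variable {N : Type} [CStarAlgebra N] [PartialOrder N] [StarOrderedRing N] {τ : N →ₗ[ℂ] ℂ}
  {ι : Type}

/-- The iteration `c_{l+1} = c_l - c_l θ(c_l²) c_l`. -/
private noncomputable def itc (q : N) (θ : N →ₗ[ℂ] N) : ℕ → N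
  | 0 => q
  | l + 1 => itc q θ l - Cj (itc q θ l) θ 1

private lemma itc_bd (hScp : StScp) (hτ : Trc τ) {q : N} {θ : N →ₗ[ℂ] N} (hq : Pr q)
    (hθ : SCP τ θ) (l : ℕ) : 0 ≤ itc q θ l ∧ itc q θ l ≤ q := by
  induction l with
  | zero => exact ⟨hq.nonneg, le_refl _⟩
  | succ l ih =>
    obtain ⟨h0, h1⟩ := ih
    have hc1 : itc q θ l ≤ 1 := h1.trans hq.le_one
    have hn : ‖itc q θ l‖ ≤ 1 := norm_le_one_of_nonneg h0 hc1
    obtain ⟨hS, hle⟩ := (hScp N τ hτ).1 θ (itc q θ l) hθ hn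
    rw [herm_of_nonneg h0] at hle
    have h2 : Cj (itc q θ l) θ 1 ≤ itc q θ l := hle.trans (le_mul_self_of_le_one h0 hc1)
    have h3 : 0 ≤ Cj (itc q θ l) θ 1 := hS.nonneg 1 zero_le_one
    refine ⟨?_, ?_⟩
    · change 0 ≤ itc q θ l - Cj (itc q θ l) θ 1
      exact sub_nonneg.2 h2
    · change itc q θ l - Cj (itc q θ l) θ 1 ≤ q
      exact (sub_le_self _ h3).trans h1

private lemma rt_Cj_one (hτ : Trc τ) {c : N} {θ : N →ₗ[ℂ] N} (hc : star c = c) :
    rt τ (Cj c θ 1) = rt τ (star (c * c) * θ (c * c)) := by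
  rw [Cj_apply, star_mul, hc, mul_one, rt_cycle hτ]

private lemma itc_sum (q : N) (θ : N →ₗ[ℂ] N) (j : ℕ) :
    ∑ l ∈ Finset.range j, Cj (itc q θ l) θ 1 = q - itc q θ j := by
  induction j with
  | zero => simp [itc]
  | succ j ih =>
    rw [Finset.sum_range_succ, ih]
    change _ = q - (itc q θ j - Cj (itc q θ j) θ 1)
    abel

private lemma EnM_sum (F : Finset ι) (u : ι → N) (s : Finset ℕ) (θ : ℕ → N →ₗ[ℂ] N) :
    EnM τ F u (∑ l ∈ s, θ l) = ∑ l ∈ s, EnM τ F u (θ l) := by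
  unfold EnM
  rw [Finset.sum_comm]
  refine Finset.sum_congr rfl fun i _ => ?_
  rw [LinearMap.sum_apply, LinearMap.sum_apply, rt_sum, Finset.mul_sum, rt_sum,
    ← Finset.sum_sub_distrib, Finset.mul_sum]

/-- The energies along the iteration. -/
private lemma itc_En (hScp : StScp) (hEnM : StEnM) (hPhi : StPhi) (hτ : Trc τ) {q : N}
    {θ : N →ₗ[ℂ] N} (hq : Pr q) (hθ : SCP τ θ) (F : Finset ι) (hF : F.Nonempty) (u : ι → N)
    (hu : ∀ s, Un (u s)) {a : ℝ} (ha : 0 ≤ a) (h1 : En τ F u q ≤ a) (h2 : EnM τ F u θ ≤ a)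
    (l : ℕ) : En τ F u (itc q θ l) ≤ 74 ^ l * a := by
  induction l with
  | zero => rw [pow_zero, one_mul]; exact h1
  | succ l ih =>
    obtain ⟨h0, hc⟩ := itc_bd hScp hτ hq hθ l
    have hn : ‖itc q θ l‖ ≤ 1 := norm_le_one_of_nonneg h0 (hc.trans hq.le_one)
    obtain ⟨hS, -⟩ := (hScp N τ hτ).1 θ (itc q θ l) hθ hn
    have h3 := (hPhi N τ (Cj (itc q θ l) θ) hτ hS).2.2.2 ι F u hu
    have h4 := (hEnM N τ ι F u hτ hF hu).2.1 θ (itc q θ l) F hθ hn
    have h5 : En τ F u (itc q θ l - Cj (itc q θ l) θ 1) ≤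
        2 * En τ F u (itc q θ l) + 2 * En τ F u (Cj (itc q θ l) θ 1) := En_sub_le hτ _ _ _ _
    change En τ F u (itc q θ l - Cj (itc q θ l) θ 1) ≤ _
    have h6 : (1 : ℝ) ≤ 74 ^ l := one_le_pow₀ (by norm_num)
    rw [pow_succ]
    nlinarith

private lemma iter_cost (hFF : StFF1) (hHF : StHF) (hτ : Trc τ) (θ : N →ₗ[ℂ] N) (J : ℕ)
    (c : ℕ → N) (hc : ∀ l, star (c l) = c l) (hn : ∀ l, ‖c l‖ ≤ 1) (b : ℝ) (m : ℕ)
    (E : Fin m → N) (hb : 0 ≤ b)
    (hE : ∀ x, rt τ (star x * θ x) ≤ b * hs τ x + dfm τ E x) :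
    ∃ (m' : ℕ) (w : Fin m' → N),
      (∀ x, rt τ (star x * (∑ l ∈ Finset.range J, Cj (c l) θ) x) ≤
        J * b * hs τ x + dfm τ w x) ∧ hsf τ w ≤ J ^ 2 * hsf τ E := by
  obtain ⟨H, i1, i2, e, he, he'⟩ := exists_L2 hτ
  have hHF' := hHF N τ Unit {()} (fun _ => 1) hτ (Finset.singleton_nonempty _)
    (fun _ => ⟨by simp, by simp⟩)
  have hHF2 := hHF'.2.1
  -- the union family
  let v : (Σ _ : Fin J, Fin m) → N := fun p => c p.1 * E p.2 * c p.1
  let f := Fintype.equivFin (Σ _ : Fin J, Fin m)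
  have hd : ∀ x, dfm τ (v ∘ f.symm) x = ∑ l : Fin J, dfm τ E (c l * x * c l) := by
    intro x
    have h1 : dfm τ (v ∘ f.symm) x = dfm τ v x := by
      unfold dfm
      exact Equiv.sum_comp f.symm (fun j => ‖τ (star (v j) * x)‖ ^ 2)
    rw [h1]
    unfold dfm
    rw [Fintype.sum_sigma]
    refine Finset.sum_congr rfl fun l _ => ?_
    have h2 := (hHF2 m E (c l) (c l) (hn l) (hn l)).2 x
    rw [hc l] at h2
    exact h2
  refine ⟨_, v ∘ f.symm, fun x => ?_, ?_⟩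
  · rw [hd, LinearMap.sum_apply, Finset.mul_sum, rt_sum]
    rw [Finset.sum_range fun l => rt τ (star x * (Cj (c l) θ) x)]
    have h3 : ∀ l : Fin J, rt τ (star x * (Cj (c l) θ) x) ≤
        b * hs τ x + dfm τ E (c l * x * c l) := by
      intro l
      have h4 : rt τ (star x * (Cj (c l) θ) x) =
          rt τ (star (c l * x * c l) * θ (c l * x * c l)) := by
        rw [Cj_apply, hc l, star_mul, star_mul, hc l]
        rw [show star x * (c l * θ (c l * x * c l) * c l) =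
          star x * (c l * θ (c l * x * c l)) * c l by noncomm_ring, rt_cycle hτ]
        congr 1; noncomm_ring
      rw [h4]
      have h5 := hE (c l * x * c l)
      have h6 : hs τ (c l * x * c l) ≤ hs τ x :=
        (hs_mul_right_le hτ (hn l)).trans (hs_mul_left_le hτ (hn l))
      have h7 := mul_le_mul_of_nonneg_left h6 hb
      linarith
    refine (Finset.sum_le_sum fun l _ => h3 l).trans ?_
    rw [Finset.sum_add_distrib, Finset.sum_const, Finset.card_univ, Fintype.card_fin,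
      nsmul_eq_mul, mul_assoc]
  · have h8 : hsf τ (v ∘ f.symm) = hsf τ v := by
      unfold hsf
      refine (Equiv.sum_comp f.symm
        (fun i => ∑ j, ‖τ (star (v i) * (v ∘ f.symm) j)‖ ^ 2)).trans ?_
      refine Finset.sum_congr rfl fun i _ => ?_
      exact Equiv.sum_comp f.symm (fun j => ‖τ (star (v i) * v j)‖ ^ 2)
    have h9 : ∀ (K : Type) [Fintype K] (z : K → N), crs (fun j => e (z j)) (fun j => e (z j)) =
        hsf τ z := by
      intro K _ z
      unfold crs hsf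
      simp only [he]
    rw [h8, ← h9]
    have h10 := (hFF H).2.2.2.2.2.2 (Fin J) (fun _ => Fin m)
      (fun l i => e (c l * E i * c l)) (fun _ => Real.sqrt (hsf τ E))
      (fun l => ⟨Real.sqrt_nonneg _, by
        rw [Real.sq_sqrt (hHF'.1 m E).1, h9 (Fin m) (fun i => c l * E i * c l)]
        exact (hHF2 m E (c l) (c l) (hn l) (hn l)).1⟩)
    refine h10.trans ?_
    rw [Finset.sum_const, Finset.card_univ, Fintype.card_fin, nsmul_eq_mul, mul_pow,
      Real.sq_sqrt (hHF'.1 m E).1]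

end

theorem pIter (hScp : StScp) (hEnM : StEnM) (hPhi : StPhi) (hHF : StHF) (hFF : StFF1) :
    StIter := by
  intro J g e₁ hJ he₁
  have hJ' : (0 : ℝ) < J := by exact_mod_cast hJ
  refine ⟨e₁ / (J * (3 + 6 * 74 ^ J)), by positivity, ?_⟩
  intro N _ _ _ τ ι F u q₁ θ τ₀ hτ hFg hu hq hθ hτ₀ hθ1 hq1 hq4 hEq hEθ
  set c := itc q₁ θ with hcdef
  have hcb : ∀ l, 0 ≤ c l ∧ c l ≤ q₁ := itc_bd hScp hτ hq hθ
  have hcs : ∀ l, star (c l) = c l := fun l => herm_of_nonneg (hcb l).1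
  have hcn : ∀ l, ‖c l‖ ≤ 1 := fun l =>
    norm_le_one_of_nonneg (hcb l).1 ((hcb l).2.trans hq.le_one)
  have hCS : ∀ l, SCP τ (Cj (c l) θ) := fun l => ((hScp N τ hτ).1 θ (c l) hθ (hcn l)).1
  -- the choice of the index
  have hsum : ∑ l ∈ Finset.range J, rt τ (Cj (c l) θ 1) ≤ ∑ _l ∈ Finset.range J, τ₀ / J := by
    rw [← rt_sum, itc_sum, rt_sub, Finset.sum_const, Finset.card_range, nsmul_eq_mul,
      mul_div_cancel₀ _ hJ'.ne']
    have := rt_nonneg hτ (hcb J).1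
    linarith
  obtain ⟨j, hj, hjle⟩ := Finset.exists_le_of_sum_le (Finset.nonempty_range_iff.2 hJ.ne') hsum
  have hjJ : j < J := Finset.mem_range.1 hj
  -- the bound for τ (c_j)
  have hφ1 : (∑ l ∈ Finset.range j, Cj (c l) θ) 1 = q₁ - c j := by
    rw [LinearMap.sum_apply]
    exact itc_sum q₁ θ j
  have hcq := hq.absorb (hcb j).1 (hcb j).2
  have hkey : J * (rt τ (c j)) ^ 4 ≤ 16 * τ₀ ^ 4 := by
    rw [rt_Cj_one hτ (hcs j)] at hjle
    have h1 := (hPhi N τ θ hτ hθ).2.1 (c j * c j) 1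
    rw [star_one, one_mul] at h1
    have h2 : rt τ (c j * c j) ≤ 4 * rt τ (star (c j * c j) * θ 1) := by
      have h3 : 0 ≤ c j * c j := by
        have := nonneg_star_mul (c j)
        rwa [hcs j] at this
      have h4 : rt τ (c j * c j * q₁) ≤ rt τ (c j * c j * ((4 : ℝ) • θ 1)) :=
        rt_mul_mono' hτ hq4 h3
      rw [mul_assoc, hcq.1, mul_smul_comm, rt_smul] at h4
      rwa [star_mul, hcs j]
    have h5 : rt τ (c j) ^ 2 ≤ rt τ (c j * c j) * rt τ q₁ := by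
      have h6 : |rt τ (c j * q₁)| ≤ Real.sqrt (hs τ (c j)) * Real.sqrt (hs τ q₁) :=
        abs_rt_mul_le hτ _ _
      rw [hcq.1, hq.hs, hs_eq_rt, hcs j] at h6
      have h7 : 0 ≤ rt τ (c j * c j) := by
        have := hs_nonneg hτ (c j)
        rwa [hs_eq_rt, hcs j] at this
      have h8 : 0 ≤ rt τ q₁ := hq.rt_nonneg hτ
      calc rt τ (c j) ^ 2 = |rt τ (c j)| ^ 2 := (sq_abs _).symm
        _ ≤ (Real.sqrt (rt τ (c j * c j)) * Real.sqrt (rt τ q₁)) ^ 2 :=
            pow_le_pow_left₀ (abs_nonneg _) h6 2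
        _ = _ := by rw [mul_pow, Real.sq_sqrt h7, Real.sq_sqrt h8]
    have h9 : 0 ≤ rt τ (c j * c j) := by
      have := hs_nonneg hτ (c j)
      rwa [hs_eq_rt, hcs j] at this
    have h10 : 0 ≤ rt τ q₁ := hq.rt_nonneg hτ
    have h11 : 0 ≤ rt τ (θ 1) := rt_nonneg hτ (hθ.nonneg 1 zero_le_one)
    have h12 : rt τ (star (c j * c j) * θ (c j * c j)) * rt τ (θ 1) ≤ τ₀ / J * τ₀ :=
      mul_le_mul hjle hθ1 h11 (by positivity)
    have h13 : rt τ (c j * c j) ^ 2 ≤ 16 * (τ₀ / J * τ₀) := by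
      calc rt τ (c j * c j) ^ 2 ≤ (4 * rt τ (star (c j * c j) * θ 1)) ^ 2 :=
            pow_le_pow_left₀ h9 h2 2
        _ = 16 * (rt τ (star (c j * c j) * θ 1)) ^ 2 := by ring
        _ ≤ 16 * (τ₀ / J * τ₀) := by linarith
    have h14 : rt τ q₁ ^ 2 ≤ τ₀ ^ 2 := pow_le_pow_left₀ h10 hq1 2
    calc J * rt τ (c j) ^ 4 = J * (rt τ (c j) ^ 2) ^ 2 := by ring
      _ ≤ J * (rt τ (c j * c j) * rt τ q₁) ^ 2 := by
          refine mul_le_mul_of_nonneg_left ?_ hJ'.le
          exact pow_le_pow_left₀ (sq_nonneg _) h5 2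
      _ = J * (rt τ (c j * c j) ^ 2 * rt τ q₁ ^ 2) := by ring
      _ ≤ J * ((16 * (τ₀ / J * τ₀)) * τ₀ ^ 2) := by
          refine mul_le_mul_of_nonneg_left ?_ hJ'.le
          exact mul_le_mul h13 h14 (sq_nonneg _) (by positivity)
      _ = 16 * τ₀ ^ 4 := by field_simp
  refine ⟨∑ l ∈ Finset.range j, Cj (c l) θ, ?_, ?_, ?_, ?_, ?_, ?_⟩
  · have h := (hScp N τ hτ).2.1 ℕ (Finset.range j) (fun l => Cj (c l) θ) 1 zero_le_one
      (fun l _ => hCS l) (by
        rw [one_smul]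
        rw [LinearMap.sum_apply] at hφ1
        rw [hφ1]
        exact (sub_le_self _ (hcb j).1).trans hq.le_one)
    rwa [one_smul] at h
  · intro x
    rw [LinearMap.sum_apply, LinearMap.sum_apply, Finset.mul_sum, Finset.sum_mul]
    refine Finset.sum_congr rfl fun l _ => ?_
    have h := hq.absorb (hcb l).1 (hcb l).2
    rw [Cj_apply, Cj_apply, hcs l]
    have h1 : c l * (q₁ * x * q₁) * c l = c l * x * c l := by
      calc c l * (q₁ * x * q₁) * c l = (c l * q₁) * x * (q₁ * c l) := by noncomm_ring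
        _ = _ := by rw [h.1, h.2]
    rw [h1]
    calc c l * θ (c l * x * c l) * c l = (q₁ * c l) * θ (c l * x * c l) * (c l * q₁) := by
          rw [h.1, h.2]
      _ = _ := by noncomm_ring
  · rw [hφ1]; exact sub_le_self _ (hcb j).1
  · rw [hφ1, rt_sub, sub_sub_cancel]
    exact hkey
  · rcases F.eq_empty_or_nonempty with hF | hF
    · rw [hF]
      simp only [EnM, Finset.sum_empty]
      positivity
    · rw [EnM_sum]
      set A : ℝ := e₁ / (J * (3 + 6 * 74 ^ J)) * τ₀ with hA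
      have hA0 : 0 ≤ A := by positivity
      have h1 : ∀ l ∈ Finset.range j, EnM τ F u (Cj (c l) θ) ≤ (3 + 6 * 74 ^ J) * A := by
        intro l hl
        have h2 := (hEnM N τ ι F u hτ hF hu).2.1 θ (c l) F hθ (hcn l)
        have h3 := itc_En hScp hEnM hPhi hτ hq hθ F hF u hu hA0 hEq hEθ l
        have h4 : (74 : ℝ) ^ l ≤ 74 ^ J :=
          pow_le_pow_right₀ (by norm_num) ((Finset.mem_range.1 hl).trans hjJ).le
        have h5 := mul_le_mul_of_nonneg_right h4 hA0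
        change En τ F u (c l) ≤ _ at h3
        linarith
      refine (Finset.sum_le_sum h1).trans ?_
      rw [Finset.sum_const, Finset.card_range, nsmul_eq_mul]
      have h6 : (j : ℝ) ≤ J := by exact_mod_cast hjJ.le
      calc (j : ℝ) * ((3 + 6 * 74 ^ J) * A) ≤ J * ((3 + 6 * 74 ^ J) * A) :=
            mul_le_mul_of_nonneg_right h6 (by positivity)
        _ = e₁ * τ₀ := by rw [hA]; field_simp
  · intro b m E hb hE
    obtain ⟨m', w, hw1, hw2⟩ := iter_cost hFF hHF hτ θ j c hcs hcn b m E hb hE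
    have h6 : (j : ℝ) ≤ J := by exact_mod_cast hjJ.le
    refine ⟨m', w, fun x => (hw1 x).trans ?_, hw2.trans ?_⟩
    · have h7 := mul_le_mul_of_nonneg_right (mul_le_mul_of_nonneg_right h6 hb) (hs_nonneg hτ x)
      linarith
    · have h8 : 0 ≤ hsf τ E := Finset.sum_nonneg fun i _ => Finset.sum_nonneg fun k _ => sq_nonneg _
      exact mul_le_mul_of_nonneg_right (pow_le_pow_left₀ (Nat.cast_nonneg j) h6 2) h8

end Helper61.HT
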