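import Pool.Agent.Helper61.HT.StE
import Pool.Agent.Helper61.HT.LibN

/-!
# HT module KS: basic facts on completely positive maps
-/

namespace Helper61.HT

open scoped ComplexOrder

section KS

variable {N : Type} [CStarAlgebra N] [PartialOrder N] [StarOrderedRing N] {τ : N →ₗ[ℂ] ℂ}

private lemma dec_KS {M : Type} [CStarAlgebra M] [PartialOrder M] [StarOrderedRing M] (A : M)
    (hA : star A = A) : ∃ P C : M, 0 ≤ P ∧ 0 ≤ C ∧ P - C = A ∧ P * C = 0 :=
  ⟨A⁺, A⁻, CFC.posPart_nonneg A, CFC.negPart_nonneg A, CFC.posPart_sub_negPart A hA,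
    CFC.posPart_mul_negPart A⟩

/-- A matrix over `N` with a nonnegative form is positive, hence factors. -/
private lemma factor_KS {m : ℕ} (A : CStarMatrix (Fin m) (Fin m) N) (hA : star A = A)
    (h : ∀ b : Fin m → N, 0 ≤ ∑ i, ∑ j, star (b i) * A i j * b j) :
    ∃ Z : CStarMatrix (Fin m) (Fin m) N, A = star Z * Z := by
  obtain ⟨P, C, hP0, hC0, hdec, hpn⟩ := dec_KS A hA
  have hCs : star C = C := (IsSelfAdjoint.of_nonneg hC0).star_eq
  obtain ⟨Y, hY0, hY⟩ := exists_sqrt hC0
  have hYs : star Y = Y := (IsSelfAdjoint.of_nonneg hY0).star_eq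
  have hAC : star C * A * C = -(C * C * C) := by
    rw [hCs, ← hdec, mul_assoc, sub_mul, hpn, zero_sub, mul_neg, ← mul_assoc]
  have hW : star (Y * C) * (Y * C) = C * C * C := by
    rw [star_mul, hCs, hYs]
    calc C * Y * (Y * C) = C * (Y * Y) * C := by noncomm_ring
      _ = C * C * C := by rw [hY]
  have hW0 : Y * C = 0 := by
    ext i k
    have h1 : (star (Y * C) * (Y * C)) k k = ∑ l, star ((Y * C) l k) * (Y * C) l k := rfl
    have h2 : (star C * A * C) k k = ∑ i, ∑ j, star (C i k) * A i j * C j k := by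
      have : (star C * A * C) k k = ∑ j, (∑ i, star (C i k) * A i j) * C j k := rfl
      rw [this, Finset.sum_comm]
      exact Finset.sum_congr rfl fun j _ => Finset.sum_mul _ _ _
    have h3 : (star (Y * C) * (Y * C)) k k ≤ 0 := by
      have h4 : (star (Y * C) * (Y * C)) k k = -((star C * A * C) k k) := by
        rw [hW, hAC]
        simp
      rw [h4, h2]
      exact neg_nonpos.2 (h fun i => C i k)
    have h5 : ∀ l ∈ Finset.univ, 0 ≤ star ((Y * C) l k) * (Y * C) l k :=
      fun l _ => star_mul_self_nonneg _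
    rw [h1] at h3
    have h6 := le_antisymm h3 (Finset.sum_nonneg h5)
    have h7 := (Finset.sum_eq_zero_iff_of_nonneg h5).1 h6 i (Finset.mem_univ i)
    have h8 := CStarRing.star_mul_self_eq_zero_iff _ |>.1 h7
    rw [h8]
    rfl
  have hC3 : C * C * C = 0 := by rw [← hW, hW0, mul_zero]
  have hC2 : C * C = 0 := by
    refine (CStarRing.star_mul_self_eq_zero_iff _).1 ?_
    rw [star_mul, hCs, ← mul_assoc, hC3, zero_mul]
  have hC1 : C = 0 := by
    refine (CStarRing.star_mul_self_eq_zero_iff _).1 ?_
    rw [hCs, hC2]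
  have hA0 : 0 ≤ A := by
    rw [← hdec, hC1, sub_zero]
    exact hP0
  obtain ⟨Z, hZ0, hZ⟩ := exists_sqrt hA0
  exact ⟨Z, by rw [(IsSelfAdjoint.of_nonneg hZ0).star_eq, hZ]⟩

private lemma pos_KS {φ : N →ₗ[ℂ] N} (h : CPm φ) : ∀ x, 0 ≤ x → 0 ≤ φ x := by
  intro x hx
  obtain ⟨y, hy, rfl⟩ := exists_sqrt hx
  have h1 := h 1 (fun _ => y) (fun _ => 1)
  simpa [herm_of_nonneg hy] using h1

private lemma star_KS {φ : N →ₗ[ℂ] N} (h : CPm φ) : ∀ x, φ (star x) = star (φ x) := by
  have hsa : ∀ x : N, star x = x → star (φ x) = φ x := by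
    intro x hx
    have h1 : 0 ≤ ‖x‖ • (1 : N) - x := sub_nonneg.2 (le_smul_of_norm hx)
    have h2 : 0 ≤ ‖x‖ • (1 : N) := smul_nonneg_real (norm_nonneg x) zero_le_one
    have h3 : φ x = φ (‖x‖ • (1 : N)) - φ (‖x‖ • (1 : N) - x) := by
      rw [← map_sub]
      congr 1
      abel
    rw [h3, star_sub, herm_of_nonneg (pos_KS h _ h1), herm_of_nonneg (pos_KS h _ h2)]
  intro x
  have hre : star ((realPart x : selfAdjoint N) : N) = realPart x := (realPart x).2
  have him : star ((imaginaryPart x : selfAdjoint N) : N) = imaginaryPart x := (imaginaryPart x).2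
  have hx : (realPart x : N) + Complex.I • (imaginaryPart x : N) = x :=
    realPart_add_I_smul_imaginaryPart x
  calc φ (star x) = φ ((realPart x : N) - Complex.I • (imaginaryPart x : N)) := by
        rw [← hx, star_add, star_smul, hre, him, RCLike.star_def, Complex.conj_I, neg_smul,
          ← sub_eq_add_neg, hx]
    _ = φ (realPart x : N) - Complex.I • φ (imaginaryPart x : N) := by
        rw [map_sub, map_smul]
    _ = star (φ ((realPart x : N) + Complex.I • (imaginaryPart x : N))) := by
        rw [map_add, map_smul, star_add, star_smul, hsa _ hre, hsa _ him, RCLike.star_def,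
          Complex.conj_I, neg_smul, ← sub_eq_add_neg]
    _ = star (φ x) := by rw [hx]

theorem pKS : StKS := by
  intro N _ _ _ τ φ hτ h
  refine ⟨star_KS h, pos_KS h, ?_, ?_, ?_⟩
  · intro h1 x
    have h2 := h 2 ![x, 1] ![1, -φ x]
    simp only [Fin.sum_univ_two, Matrix.cons_val_zero, Matrix.cons_val_one, star_one, one_mul,
      mul_one, star_neg] at h2
    rw [star_KS h x] at h2
    have h3 := conj_mono' h1 (φ x)
    rw [mul_one] at h3
    have h4 : φ (star x * x) + star (φ x) * -φ x + (-star (φ x) * φ x + -star (φ x) * φ 1 * -φ x) =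
        φ (star x * x) - star (φ x) * φ x - (star (φ x) * φ x - star (φ x) * φ 1 * φ x) := by
      noncomm_ring
    rw [h4] at h2
    have h5 : star (φ x) * φ x - star (φ x) * φ 1 * φ x ≤ φ (star x * x) - star (φ x) * φ x :=
      sub_nonneg.1 h2
    exact sub_nonneg.1 ((sub_nonneg.2 h3).trans h5)
  · intro c m a b
    have h1 := h m a (fun i => star c * b i)
    refine h1.trans (le_of_eq ?_)
    refine Finset.sum_congr rfl fun i _ => Finset.sum_congr rfl fun j _ => ?_
    simp only [LinearMap.coe_mk, AddHom.coe_mk, star_mul, star_star, mul_assoc]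
  · intro m x y
    let A : CStarMatrix (Fin m) (Fin m) N := CStarMatrix.ofMatrix fun i j => φ (star (x i) * x j)
    have hA : star A = A := by
      ext i j
      change star (φ (star (x j) * x i)) = φ (star (x i) * x j)
      rw [← star_KS h, star_mul, star_star]
    obtain ⟨Z, hZ⟩ := factor_KS A hA (fun b => h m x b)
    have hZ' : ∀ i j, φ (star (x i) * x j) = ∑ k, star (Z k i) * Z k j := by
      intro i j
      have := congrArg (fun M : CStarMatrix (Fin m) (Fin m) N => M i j) hZ
      exact this
    have e : ∑ i, ∑ j, τ (φ (star (x i) * x j) * φ (y j * star (y i))) =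
        ∑ k, τ (∑ j, ∑ i, Z k j * φ (y j * star (y i)) * star (Z k i)) := by
      have e1 : ∀ i j, τ (φ (star (x i) * x j) * φ (y j * star (y i))) =
          ∑ k, τ (Z k j * φ (y j * star (y i)) * star (Z k i)) := by
        intro i j
        rw [hZ', Finset.sum_mul, map_sum]
        refine Finset.sum_congr rfl fun k _ => ?_
        rw [mul_assoc, hτ.tr]
      simp only [e1, map_sum]
      rw [Finset.sum_comm' (s := Finset.univ) (t := fun _ => Finset.univ) (t' := Finset.univ)
        (s' := fun _ => Finset.univ) (by simp)]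
      calc ∑ j, ∑ i, ∑ k, τ (Z k j * φ (y j * star (y i)) * star (Z k i))
          = ∑ j, ∑ k, ∑ i, τ (Z k j * φ (y j * star (y i)) * star (Z k i)) := by
            exact Finset.sum_congr rfl fun j _ => Finset.sum_comm
        _ = _ := Finset.sum_comm
    rw [e, Complex.re_sum]
    refine Finset.sum_nonneg fun k _ => ?_
    have h1 := h m (fun j => star (y j)) (fun j => star (Z k j))
    simp only [star_star] at h1
    exact rt_nonneg hτ h1

end KS

end Helper61.HT
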