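import Pool.Agent.Helper61.HT.StE
import Pool.Agent.Helper61.HT.LibN

/-!
# Module LQ: matrix units in general position
-/

set_option linter.unusedSectionVars false

namespace Helper61.HT

open scoped ComplexOrder
open Finset

/-! ## sums of roots of unity -/

private noncomputable def ee (M : ℕ) (k : ℤ) : ℂ :=
  Complex.exp (2 * Real.pi * Complex.I * k / M)

private lemma ee_add (M : ℕ) (k l : ℤ) : ee M (k + l) = ee M k * ee M l := by
  unfold ee
  rw [← Complex.exp_add]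
  congr 1
  push_cast
  ring

private lemma ee_zero (M : ℕ) : ee M 0 = 1 := by
  unfold ee
  simp

private lemma ee_conj (M : ℕ) (k : ℤ) : (starRingEnd ℂ) (ee M k) = ee M (-k) := by
  unfold ee
  rw [← Complex.exp_conj]
  congr 1
  simp only [map_div₀, map_mul, Complex.conj_ofReal, Complex.conj_I, map_intCast, map_natCast,
    Complex.conj_ofNat]
  push_cast
  ring

private lemma ee_sum {M : ℕ} (hM : 0 < M) (k : ℤ) :
    ∑ j : Fin M, ee M (((j : ℕ) : ℤ) * k) = if (M : ℤ) ∣ k then (M : ℂ) else 0 := by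
  have hM0 : (M : ℂ) ≠ 0 := by exact_mod_cast hM.ne'
  have hpi : (2 * Real.pi * Complex.I : ℂ) ≠ 0 := by
    simp [Real.pi_ne_zero, Complex.I_ne_zero]
  have hpow : ∀ j : ℕ, ee M ((j : ℤ) * k) = ee M k ^ j := by
    intro j
    unfold ee
    rw [← Complex.exp_nat_mul]
    congr 1
    push_cast
    ring
  have h1 : ∑ j : Fin M, ee M (((j : ℕ) : ℤ) * k) = ∑ j ∈ Finset.range M, ee M k ^ j := by
    rw [← Fin.sum_univ_eq_sum_range (fun j => ee M k ^ j) M]
    exact Finset.sum_congr rfl fun j _ => hpow j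
  have hone : ee M k = 1 ↔ (M : ℤ) ∣ k := by
    unfold ee
    rw [Complex.exp_eq_one_iff]
    constructor
    · rintro ⟨n, hn⟩
      refine ⟨n, ?_⟩
      have h2 : (k : ℂ) = M * n := by
        field_simp at hn
        have h3 : (2 * Real.pi * Complex.I : ℂ) * k = (2 * Real.pi * Complex.I) * (M * n) := by
          linear_combination (Complex.I * Real.pi * 2) * hn
        exact mul_left_cancel₀ hpi h3
      exact_mod_cast h2
    · rintro ⟨n, rfl⟩
      refine ⟨n, ?_⟩
      push_cast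
      field_simp
  rw [h1]
  split_ifs with h
  · rw [hone.2 h]
    simp
  · have hne : ee M k ≠ 1 := fun hh => h (hone.1 hh)
    rw [geom_sum_eq hne]
    have h2 : ee M k ^ M = 1 := by
      unfold ee
      rw [← Complex.exp_nat_mul, Complex.exp_eq_one_iff]
      exact ⟨k, by field_simp⟩
    rw [h2, sub_self, zero_div]

/-- The injectivity used for the quadratic phases. -/
private lemma pair_inj {L : ℕ} {b c b' c' : ℕ} (hb : b < L) (hc : c < L) (hb' : b' < L)
    (hc' : c' < L) (h1 : (L : ℤ) ∣ ((c : ℤ) - b) - ((c' : ℤ) - b'))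
    (h2 : ((2 * L ^ 2 : ℕ) : ℤ) ∣ ((c : ℤ) ^ 2 - (b : ℤ) ^ 2) - ((c' : ℤ) ^ 2 - (b' : ℤ) ^ 2)) :
    (b = c ∧ b' = c') ∨ (b = b' ∧ c = c') := by
  have hL : (0 : ℤ) < L := by exact_mod_cast (Nat.zero_le b).trans_lt hb
  have hbz : (b : ℤ) < L := by exact_mod_cast hb
  have hcz : (c : ℤ) < L := by exact_mod_cast hc
  have hbz' : (b' : ℤ) < L := by exact_mod_cast hb'
  have hcz' : (c' : ℤ) < L := by exact_mod_cast hc'
  have hb0 : (0 : ℤ) ≤ b := by positivity
  have hc0 : (0 : ℤ) ≤ c := by positivity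
  have hb0' : (0 : ℤ) ≤ b' := by positivity
  have hc0' : (0 : ℤ) ≤ c' := by positivity
  have q1 : (b : ℤ) ^ 2 < (L : ℤ) ^ 2 := by nlinarith
  have q2 : (c : ℤ) ^ 2 < (L : ℤ) ^ 2 := by nlinarith
  have q3 : (b' : ℤ) ^ 2 < (L : ℤ) ^ 2 := by nlinarith
  have q4 : (c' : ℤ) ^ 2 < (L : ℤ) ^ 2 := by nlinarith
  have q5 : (0 : ℤ) ≤ (b : ℤ) ^ 2 := by positivity
  have q6 : (0 : ℤ) ≤ (c : ℤ) ^ 2 := by positivity
  have q7 : (0 : ℤ) ≤ (b' : ℤ) ^ 2 := by positivity
  have q8 : (0 : ℤ) ≤ (c' : ℤ) ^ 2 := by positivity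
  have e1 : ((c : ℤ) ^ 2 - (b : ℤ) ^ 2) - ((c' : ℤ) ^ 2 - (b' : ℤ) ^ 2) = 0 := by
    refine Int.eq_zero_of_abs_lt_dvd h2 ?_
    push_cast
    rw [abs_lt]
    constructor <;> linarith
  obtain ⟨n, hn⟩ := h1
  have hn1 : n < 2 := by
    by_contra hcon
    push Not at hcon
    have : (L : ℤ) * 2 ≤ L * n := mul_le_mul_of_nonneg_left hcon hL.le
    linarith
  have hn2 : -2 < n := by
    by_contra hcon
    push Not at hcon
    have : (L : ℤ) * n ≤ L * (-2) := mul_le_mul_of_nonneg_left hcon hL.le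
    linarith
  have e2 : ((c : ℤ) - b) * (c + b) = ((c' : ℤ) - b') * (c' + b') := by linarith
  have hcases : n = -1 ∨ n = 0 ∨ n = 1 := by omega
  rcases hcases with h | h | h
  · subst h
    -- c - b = c' - b' - L < 0 < c' - b'
    have h3 : (c : ℤ) - b < 0 := by linarith
    have h4 : 0 < (c' : ℤ) - b' := by linarith
    have h5 : (0 : ℤ) < c' + b' := by linarith
    have h6 : 0 < ((c' : ℤ) - b') * (c' + b') := mul_pos h4 h5
    have h7 : ((c : ℤ) - b) * (c + b) ≤ 0 :=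
      mul_nonpos_of_nonpos_of_nonneg h3.le (by linarith)
    linarith
  · subst h
    have h3 : (c : ℤ) - b = c' - b' := by linarith
    rw [h3] at e2
    have h4 : ((c' : ℤ) - b') * ((c + b) - (c' + b')) = 0 := by linarith
    rcases mul_eq_zero.1 h4 with h5 | h5
    · left
      constructor <;> omega
    · right
      constructor <;> omega
  · subst h
    have h3 : 0 < (c : ℤ) - b := by linarith
    have h4 : (c' : ℤ) - b' < 0 := by linarith
    have h5 : (0 : ℤ) < c + b := by linarith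
    have h6 : 0 < ((c : ℤ) - b) * (c + b) := mul_pos h3 h5
    have h7 : ((c' : ℤ) - b') * (c' + b') ≤ 0 :=
      mul_nonpos_of_nonpos_of_nonneg h4.le (by linarith)
    linarith

section main

variable {N : Type} [CStarAlgebra N] [PartialOrder N] [StarOrderedRing N] {τ : N →ₗ[ℂ] ℂ}
  {L : ℕ} {E : Fin L → Fin L → N}

private lemma MU.mm (hE : MU E) (i j l : Fin L) : E i j * E j l = E i l := by
  rw [hE.mul, if_pos rfl]

private lemma MU.mo (hE : MU E) {j k : Fin L} (h : j ≠ k) (i l : Fin L) : E i j * E k l = 0 := by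
  rw [hE.mul, if_neg h]

private lemma hs_corner (hτ : Trc τ) (hE : MU E) (y : N) (o b c : Fin L) :
    hs τ (E o b * y * E c o) = rt τ (star y * E b b * y * E c c) := by
  rw [hs_eq_rt, star_mul, star_mul, hE.st, hE.st]
  have h1 : E o c * (star y * E b o) * (E o b * y * E c o) =
      E o c * star y * (E b o * E o b) * y * E c o := by noncomm_ring
  rw [h1, hE.mm, rt_mul_comm hτ]
  have h2 : E c o * (E o c * star y * E b b * y) = (E c o * E o c) * (star y * E b b * y) := by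
    noncomm_ring
  rw [h2, hE.mm, rt_mul_comm hτ]

private lemma sum_hs_corner (hτ : Trc τ) (hE : MU E) (y : N) (o : Fin L) :
    ∑ p : Fin L × Fin L, hs τ (E o p.1 * y * E p.2 o) = hs τ y := by
  rw [Fintype.sum_prod_type]
  simp only [hs_corner hτ hE]
  have h1 : ∀ b : Fin L, ∑ c, rt τ (star y * E b b * y * E c c) = rt τ (star y * E b b * y) := by
    intro b
    rw [← rt_sum, ← Finset.mul_sum, hE.sum, mul_one]
  simp only [h1]
  rw [← rt_sum, ← Finset.sum_mul, ← Finset.mul_sum, hE.sum, mul_one, hs_eq_rt]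

private lemma hs_Phi (hτ : Trc τ) (hE : MU E) (hL : 0 < L) (y : N) (o : Fin L) :
    hs τ ((1 / L : ℝ) • ∑ a, ∑ b, E a b * y * E b a) =
      (1 / L) * hs τ (∑ b, E o b * y * E b o) := by
  set z : N := ∑ b, E o b * y * E b o with hz
  have hL0 : (L : ℝ) ≠ 0 := by exact_mod_cast hL.ne'
  have h1 : ∑ a, ∑ b, E a b * y * E b a = ∑ a, E a o * z * E o a := by
    refine Finset.sum_congr rfl fun a _ => ?_
    rw [hz, Finset.mul_sum, Finset.sum_mul]
    refine Finset.sum_congr rfl fun b _ => ?_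
    have h2 : E a o * (E o b * y * E b o) * E o a = (E a o * E o b) * y * (E b o * E o a) := by
      noncomm_ring
    rw [h2, hE.mm, hE.mm]
  have hoz : E o o * z = z := by
    rw [hz, Finset.mul_sum]
    refine Finset.sum_congr rfl fun b _ => ?_
    rw [← mul_assoc, ← mul_assoc, hE.mm]
  have hzo : z * E o o = z := by
    rw [hz, Finset.sum_mul]
    refine Finset.sum_congr rfl fun b _ => ?_
    rw [mul_assoc, hE.mm]
  have h3 : hs τ (∑ a, E a o * z * E o a) = L * hs τ z := by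
    rw [hs_eq_rt, star_sum, Finset.sum_mul, rt_sum]
    have h4 : ∀ a : Fin L, rt τ (star (E a o * z * E o a) * ∑ a', E a' o * z * E o a') =
        hs τ z := by
      intro a
      rw [Finset.mul_sum, Finset.sum_eq_single a]
      · rw [star_mul, star_mul, hE.st, hE.st]
        have h5 : E a o * (star z * E o a) * (E a o * z * E o a) =
            E a o * (star z * (E o a * E a o) * z * E o a) := by noncomm_ring
        rw [h5, hE.mm, rt_mul_comm hτ]
        have h6 : star z * E o o * z * E o a * E a o = star z * (E o o * z) * (E o a * E a o) := by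
          noncomm_ring
        rw [h6, hE.mm, hoz, mul_assoc, hzo, hs_eq_rt]
      · intro a' _ ha'
        rw [star_mul, star_mul, hE.st, hE.st]
        have h5 : E a o * (star z * E o a) * (E a' o * z * E o a') =
            E a o * star z * (E o a * E a' o) * z * E o a' := by noncomm_ring
        rw [h5, hE.mo ha'.symm]
        simp
      · intro h
        exact absurd (Finset.mem_univ _) h
    simp only [h4]
    rw [Finset.sum_const, Finset.card_univ, Fintype.card_fin, nsmul_eq_mul]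
  rw [h1, hs_smul, h3]
  field_simp

/-- Column vectors. -/
private noncomputable def rr (E : Fin L → Fin L → N) (o : Fin L) (v : Fin L → ℂ) : N :=
  ∑ a, v a • E a o

private lemma star_rr (hE : MU E) (o : Fin L) (v : Fin L → ℂ) :
    star (rr E o v) = ∑ a, (starRingEnd ℂ) (v a) • E o a := by
  unfold rr
  rw [star_sum]
  refine Finset.sum_congr rfl fun a _ => ?_
  rw [star_smul, hE.st]
  rfl

private lemma star_rr_mul_rr (hE : MU E) (o : Fin L) (v w : Fin L → ℂ) :
    star (rr E o v) * rr E o w = (∑ a, (starRingEnd ℂ) (v a) * w a) • E o o := by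
  rw [star_rr hE, rr, Finset.sum_mul, Finset.sum_smul]
  refine Finset.sum_congr rfl fun a _ => ?_
  rw [Finset.mul_sum, Finset.sum_eq_single a]
  · rw [smul_mul_smul_comm, hE.mm]
  · intro b _ hb
    rw [smul_mul_smul_comm, hE.mo hb.symm, smul_zero]
  · intro h
    exact absurd (Finset.mem_univ _) h

private lemma rr_mul (hE : MU E) (o : Fin L) (v : Fin L → ℂ) : rr E o v * E o o = rr E o v := by
  rw [rr, Finset.sum_mul]
  refine Finset.sum_congr rfl fun a _ => ?_
  rw [smul_mul_assoc, hE.mm]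

private lemma mul_star_rr (hE : MU E) (o : Fin L) (v : Fin L → ℂ) :
    E o o * star (rr E o v) = star (rr E o v) := by
  have := congrArg star (rr_mul hE o v)
  rwa [star_mul, hE.st] at this

private lemma rr_mul_star_rr (hE : MU E) (o : Fin L) (v w : Fin L → ℂ) :
    rr E o v * star (rr E o w) = ∑ a, ∑ b, (v a * (starRingEnd ℂ) (w b)) • E a b := by
  rw [star_rr hE, rr, Finset.sum_mul]
  refine Finset.sum_congr rfl fun a _ => ?_
  rw [Finset.mul_sum]
  refine Finset.sum_congr rfl fun b _ => ?_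
  rw [smul_mul_smul_comm, hE.mm]

private lemma star_rr_y_rr (hE : MU E) (o : Fin L) (v : Fin L → ℂ) (y : N) :
    star (rr E o v) * y * rr E o v =
      ∑ p : Fin L × Fin L, ((starRingEnd ℂ) (v p.1) * v p.2) • (E o p.1 * y * E p.2 o) := by
  rw [Fintype.sum_prod_type, star_rr hE, rr, Finset.sum_mul, Finset.sum_mul]
  refine Finset.sum_congr rfl fun a _ => ?_
  rw [Finset.mul_sum]
  refine Finset.sum_congr rfl fun b _ => ?_
  rw [smul_mul_assoc, smul_mul_smul_comm]

private lemma MU_rr (hE : MU E) (o : Fin L) (V : Fin L → Fin L → ℂ)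
    (h1 : ∀ l l', ∑ a, (starRingEnd ℂ) (V l a) * V l' a = if l = l' then 1 else 0)
    (h2 : ∀ a b, ∑ l, V l a * (starRingEnd ℂ) (V l b) = if a = b then 1 else 0) :
    MU (fun l l' => rr E o (V l) * star (rr E o (V l'))) := by
  refine ⟨fun i j => ?_, fun i j k l => ?_, ?_⟩
  · rw [star_mul, star_star]
  · have h3 : rr E o (V i) * star (rr E o (V j)) * (rr E o (V k) * star (rr E o (V l))) =
        rr E o (V i) * (star (rr E o (V j)) * rr E o (V k)) * star (rr E o (V l)) := by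
      noncomm_ring
    rw [h3, star_rr_mul_rr hE, h1]
    split_ifs with h
    · rw [one_smul, rr_mul hE]
    · rw [zero_smul, mul_zero, zero_mul]
  · simp only [rr_mul_star_rr hE]
    rw [Finset.sum_comm]
    have h3 : ∀ a : Fin L, ∑ l, ∑ b, (V l a * (starRingEnd ℂ) (V l b)) • E a b = E a a := by
      intro a
      rw [Finset.sum_comm]
      have h4 : ∀ b : Fin L, ∑ l, (V l a * (starRingEnd ℂ) (V l b)) • E a b =
          if a = b then E a b else 0 := by
        intro b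
        rw [← Finset.sum_smul, h2]
        split_ifs
        · rw [one_smul]
        · rw [zero_smul]
      simp only [h4]
      rw [Finset.sum_ite_eq]
      simp
    simp only [h3]
    exact hE.sum

private lemma hs_rr (hτ : Trc τ) (hE : MU E) (o : Fin L) (v : Fin L → ℂ)
    (hv : ∑ a, (starRingEnd ℂ) (v a) * v a = 1) (y : N) :
    hs τ (rr E o v * star (rr E o v) * y * (rr E o v * star (rr E o v))) =
      hs τ (star (rr E o v) * y * rr E o v) := by
  set r : N := rr E o v with hr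
  have h1 : star r * r = E o o := by rw [hr, star_rr_mul_rr hE, hv, one_smul]
  have h2 : r * E o o = r := rr_mul hE o v
  rw [hs_eq_rt, hs_eq_rt]
  simp only [star_mul, star_star]
  have h3 : r * star r * (star y * (r * star r)) * (r * star r * y * (r * star r)) =
      r * (star r * star y * r * (star r * r) * star r * y * r * star r) := by noncomm_ring
  have h4 : star r * star y * r * (star r * r) * star r * y * r * star r * r =
      star r * star y * (r * (star r * r)) * star r * y * (r * (star r * r)) := by noncomm_ring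
  rw [h3, rt_mul_comm hτ, h4, h1, h2]
  congr 1
  noncomm_ring

/-- The excess identity. -/
private lemma excess (hτ : Trc τ) (hE : MU E) (y : N) :
    ∑ l, hs τ (E l l * y * E l l) =
      ‖τ y‖ ^ 2 + ∑ l, hs τ (E l l * (y - τ y • (1 : N)) * E l l) := by
  have h1 : ∀ l : Fin L, hs τ (E l l * (y - τ y • (1 : N)) * E l l) =
      hs τ (E l l * y * E l l) + ‖τ y‖ ^ 2 * rt τ (E l l) -
        2 * rt τ (τ y • (star y * E l l)) := by
    intro l
    have h2 : E l l * (y - τ y • (1 : N)) * E l l = E l l * y * E l l + -(τ y • E l l) := by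
      rw [mul_sub, sub_mul, mul_smul_comm, smul_mul_assoc, mul_one, hE.mm, sub_eq_add_neg]
    have hPr : Pr (E l l) := ⟨hE.st l l, hE.mm l l l⟩
    have h3 : star (E l l * y * E l l) * -(τ y • E l l) = -(τ y • (E l l * (star y * E l l))) := by
      rw [star_mul, star_mul, hE.st, mul_neg, mul_smul_comm, mul_assoc, mul_assoc, hE.mm]
    have h4 : rt τ (τ y • (E l l * (star y * E l l))) = rt τ (τ y • (star y * E l l)) := by
      rw [← mul_smul_comm, rt_mul_comm hτ, smul_mul_assoc, mul_assoc, hE.mm]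
    rw [h2, hs_add hτ, hs_neg, hs_smulC, hPr.hs, h3, rt_neg, h4]
    ring
  simp only [h1]
  rw [Finset.sum_sub_distrib, Finset.sum_add_distrib, ← Finset.mul_sum, ← Finset.mul_sum,
    ← rt_sum, ← rt_sum, hE.sum, rt_one hτ]
  have h5 : ∑ l, τ y • (star y * E l l) = τ y • star y := by
    rw [← Finset.smul_sum, ← Finset.mul_sum, hE.sum, mul_one]
  rw [h5]
  have h6 : rt τ (τ y • star y) = ‖τ y‖ ^ 2 := by
    unfold rt
    rw [map_smul, map_star' hτ, smul_eq_mul, Complex.mul_conj, Complex.ofReal_re,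
      Complex.normSq_eq_norm_sq]
  rw [h6]
  ring

/-- Expansion of the sum of the squares. -/
private lemma hs_sum_smul {I : Type} [Fintype I] (φ : I → ℂ) (y : I → N) :
    hs τ (∑ p, φ p • y p) =
      (∑ p, ∑ q, ((starRingEnd ℂ) (φ p) * φ q) * τ (star (y p) * y q)).re := by
  unfold hs
  rw [star_sum, Finset.sum_mul, map_sum]
  congr 1
  refine Finset.sum_congr rfl fun p _ => ?_
  rw [Finset.mul_sum, map_sum]
  refine Finset.sum_congr rfl fun q _ => ?_
  rw [star_smul, smul_mul_smul_comm, map_smul, smul_eq_mul]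
  rfl

private noncomputable def ph (L : ℕ) (l : Fin L) (t : Fin (2 * L ^ 2)) (p : Fin L × Fin L) : ℂ :=
  ee L ((l : ℕ) * (((p.2 : ℕ) : ℤ) - ((p.1 : ℕ) : ℤ))) *
    ee (2 * L ^ 2) ((t : ℕ) * (((p.2 : ℕ) : ℤ) ^ 2 - ((p.1 : ℕ) : ℤ) ^ 2))

private lemma ph_sum (hL : 0 < L) (p q : Fin L × Fin L) :
    ∑ t : Fin (2 * L ^ 2), ∑ l : Fin L, (starRingEnd ℂ) (ph L l t p) * ph L l t q =
      if (p.1 = p.2 ∧ q.1 = q.2) ∨ p = q then ((2 * L ^ 2 : ℕ) : ℂ) * L else 0 := by
  have hP : 0 < 2 * L ^ 2 := by positivity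
  have h1 : ∀ (t : Fin (2 * L ^ 2)) (l : Fin L), (starRingEnd ℂ) (ph L l t p) * ph L l t q =
      ee (2 * L ^ 2) ((t : ℕ) * ((((q.2 : ℕ) : ℤ) ^ 2 - ((q.1 : ℕ) : ℤ) ^ 2) -
        (((p.2 : ℕ) : ℤ) ^ 2 - ((p.1 : ℕ) : ℤ) ^ 2))) *
      ee L ((l : ℕ) * ((((q.2 : ℕ) : ℤ) - ((q.1 : ℕ) : ℤ)) -
        (((p.2 : ℕ) : ℤ) - ((p.1 : ℕ) : ℤ)))) := by
    intro t l
    have e1 : ((t : ℕ) : ℤ) * ((((q.2 : ℕ) : ℤ) ^ 2 - ((q.1 : ℕ) : ℤ) ^ 2) -
        (((p.2 : ℕ) : ℤ) ^ 2 - ((p.1 : ℕ) : ℤ) ^ 2)) =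
        ((t : ℕ) : ℤ) * (((q.2 : ℕ) : ℤ) ^ 2 - ((q.1 : ℕ) : ℤ) ^ 2) +
          -(((t : ℕ) : ℤ) * (((p.2 : ℕ) : ℤ) ^ 2 - ((p.1 : ℕ) : ℤ) ^ 2)) := by ring
    have e2 : ((l : ℕ) : ℤ) * ((((q.2 : ℕ) : ℤ) - ((q.1 : ℕ) : ℤ)) -
        (((p.2 : ℕ) : ℤ) - ((p.1 : ℕ) : ℤ))) =
        ((l : ℕ) : ℤ) * (((q.2 : ℕ) : ℤ) - ((q.1 : ℕ) : ℤ)) +
          -(((l : ℕ) : ℤ) * (((p.2 : ℕ) : ℤ) - ((p.1 : ℕ) : ℤ))) := by ring
    unfold ph
    rw [map_mul, ee_conj, ee_conj, e1, e2, ee_add, ee_add]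
    ring
  simp only [h1]
  rw [← Finset.sum_mul_sum, ee_sum hP, ee_sum hL]
  by_cases hpq : (p.1 = p.2 ∧ q.1 = q.2) ∨ p = q
  · rw [if_pos hpq]
    have ha : ((((q.2 : ℕ) : ℤ) ^ 2 - ((q.1 : ℕ) : ℤ) ^ 2) -
        (((p.2 : ℕ) : ℤ) ^ 2 - ((p.1 : ℕ) : ℤ) ^ 2)) = 0 := by
      rcases hpq with ⟨h2, h3⟩ | h2
      · rw [h2, h3]; ring
      · rw [h2]; ring
    have hb : ((((q.2 : ℕ) : ℤ) - ((q.1 : ℕ) : ℤ)) -
        (((p.2 : ℕ) : ℤ) - ((p.1 : ℕ) : ℤ))) = 0 := by
      rcases hpq with ⟨h2, h3⟩ | h2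
      · rw [h2, h3]; ring
      · rw [h2]; ring
    rw [ha, hb, if_pos (dvd_zero _), if_pos (dvd_zero _)]
  · rw [if_neg hpq]
    by_cases hb : (L : ℤ) ∣ ((((q.2 : ℕ) : ℤ) - ((q.1 : ℕ) : ℤ)) -
        (((p.2 : ℕ) : ℤ) - ((p.1 : ℕ) : ℤ)))
    · by_cases ha : (((2 * L ^ 2 : ℕ)) : ℤ) ∣ ((((q.2 : ℕ) : ℤ) ^ 2 - ((q.1 : ℕ) : ℤ) ^ 2) -
        (((p.2 : ℕ) : ℤ) ^ 2 - ((p.1 : ℕ) : ℤ) ^ 2))
      · exfalso
        apply hpq
        rcases pair_inj q.1.2 q.2.2 p.1.2 p.2.2 hb ha with ⟨h2, h3⟩ | ⟨h2, h3⟩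
        · exact Or.inl ⟨Fin.ext h3, Fin.ext h2⟩
        · exact Or.inr (Prod.ext (Fin.ext h2.symm) (Fin.ext h3.symm))
      · rw [if_neg ha, zero_mul]
    · rw [if_neg hb, mul_zero]

/-- The average over the phases. -/
private lemma avg_phases (hτ : Trc τ) (hL : 0 < L) (y : Fin L × Fin L → N) :
    ∑ t : Fin (2 * L ^ 2), ∑ l : Fin L, hs τ (∑ p, ph L l t p • y p) ≤
      ((2 * L ^ 2 : ℕ) : ℝ) * L * (hs τ (∑ b, y (b, b)) + ∑ p, hs τ (y p)) := by
  classical
  have h1 : ∑ t : Fin (2 * L ^ 2), ∑ l : Fin L, hs τ (∑ p, ph L l t p • y p) =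
      (∑ p, ∑ q, (if (p.1 = p.2 ∧ q.1 = q.2) ∨ p = q then
        ((2 * L ^ 2 : ℕ) : ℂ) * L else 0) * τ (star (y p) * y q)).re := by
    simp only [hs_sum_smul]
    simp only [← Complex.re_sum]
    congr 1
    simp only [← ph_sum hL, Finset.sum_mul]
    rw [Finset.sum_comm]
    have h2 : ∀ l : Fin L, ∑ t : Fin (2 * L ^ 2), ∑ p, ∑ q, (starRingEnd ℂ) (ph L l t p) *
        ph L l t q * τ (star (y p) * y q) = ∑ p, ∑ q, ∑ t : Fin (2 * L ^ 2),
          (starRingEnd ℂ) (ph L l t p) * ph L l t q * τ (star (y p) * y q) := by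
      intro l
      rw [Finset.sum_comm]
      refine Finset.sum_congr rfl fun p _ => ?_
      rw [Finset.sum_comm]
    simp only [h2]
    rw [Finset.sum_comm]
    refine Finset.sum_congr rfl fun p _ => ?_
    rw [Finset.sum_comm]
    refine Finset.sum_congr rfl fun q _ => ?_
    rw [Finset.sum_comm]
  rw [h1]
  have h3 : ∀ p q : Fin L × Fin L, (if (p.1 = p.2 ∧ q.1 = q.2) ∨ p = q then
        ((2 * L ^ 2 : ℕ) : ℂ) * L else 0) * τ (star (y p) * y q) =
      (((2 * L ^ 2 : ℕ) : ℝ) * L : ℝ) * ((if p.1 = p.2 then (if q.1 = q.2 then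
        τ (star (y p) * y q) else 0) else 0) + (if p = q then τ (star (y p) * y q) else 0) -
        (if p = q then (if p.1 = p.2 then τ (star (y p) * y q) else 0) else 0)) := by
    intro p q
    by_cases hpq : p = q
    · subst hpq
      by_cases hd : p.1 = p.2
      · simp [hd]
      · simp [hd]
    · by_cases hd : p.1 = p.2
      · by_cases hd' : q.1 = q.2
        · simp [hd, hd', hpq]
        · simp [hd, hd', hpq]
      · simp [hd, hpq]
  simp only [h3, ← Finset.mul_sum]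
  rw [Complex.re_ofReal_mul]
  refine mul_le_mul_of_nonneg_left ?_ (by positivity)
  simp only [Finset.sum_sub_distrib, Finset.sum_add_distrib, Finset.sum_ite_eq, Finset.mem_univ,
    if_true]
  have h4 : ∑ p : Fin L × Fin L, ∑ q : Fin L × Fin L, (if p.1 = p.2 then (if q.1 = q.2 then
        τ (star (y p) * y q) else 0) else 0) = τ (star (∑ b, y (b, b)) * ∑ b, y (b, b)) := by
    rw [star_sum, Finset.sum_mul, map_sum, Fintype.sum_prod_type]
    refine Finset.sum_congr rfl fun a _ => ?_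
    have h5 : ∀ b : Fin L, ∑ q : Fin L × Fin L, (if a = b then (if q.1 = q.2 then
        τ (star (y (a, b)) * y q) else 0) else 0) = if a = b then ∑ q : Fin L × Fin L,
          (if q.1 = q.2 then τ (star (y (a, b)) * y q) else 0) else 0 := by
      intro b
      split_ifs
      · rfl
      · simp
    simp only [h5]
    rw [Finset.sum_ite_eq, if_pos (Finset.mem_univ _), Fintype.sum_prod_type, Finset.mul_sum,
      map_sum]
    refine Finset.sum_congr rfl fun b _ => ?_
    simp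
  rw [h4]
  have h6 : 0 ≤ (∑ p : Fin L × Fin L, (if p.1 = p.2 then τ (star (y p) * y p) else 0)).re := by
    rw [Complex.re_sum]
    refine Finset.sum_nonneg fun p _ => ?_
    split_ifs
    · exact hs_nonneg hτ (y p)
    · simp
  have h7 : (∑ p : Fin L × Fin L, τ (star (y p) * y p)).re = ∑ p, hs τ (y p) := by
    rw [Complex.re_sum]
    rfl
  rw [Complex.sub_re, Complex.add_re, h7]
  unfold hs at *
  linarith

private noncomputable def VV (L : ℕ) (t : Fin (2 * L ^ 2)) (l a : Fin L) : ℂ :=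
  ((Real.sqrt L)⁻¹ : ℝ) * (ee L ((l : ℕ) * ((a : ℕ) : ℤ)) *
    ee (2 * L ^ 2) ((t : ℕ) * ((a : ℕ) : ℤ) ^ 2))

private lemma VV_mul (t : Fin (2 * L ^ 2)) (l l' a b : Fin L) :
    (starRingEnd ℂ) (VV L t l a) * VV L t l' b = (1 / L : ℝ) *
      (ee L ((l' : ℕ) * ((b : ℕ) : ℤ) - (l : ℕ) * ((a : ℕ) : ℤ)) *
        ee (2 * L ^ 2) ((t : ℕ) * (((b : ℕ) : ℤ) ^ 2 - ((a : ℕ) : ℤ) ^ 2))) := by
  have h0 : (((Real.sqrt L)⁻¹ : ℝ) : ℂ) * (((Real.sqrt L)⁻¹ : ℝ) : ℂ) = ((1 / L : ℝ) : ℂ) := by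
    rw [← Complex.ofReal_mul, ← mul_inv, Real.mul_self_sqrt (Nat.cast_nonneg L), one_div]
  unfold VV
  rw [map_mul, map_mul, Complex.conj_ofReal, ee_conj, ee_conj, ← h0, mul_sub, sub_eq_add_neg,
    sub_eq_add_neg, ee_add, ee_add]
  ring

end main

theorem pLQ (hLQ0 : StLQ0) : StLQ := by
  classical
  intro N _ _ _ τ hN Y ε L₀ hε
  have hτ := hN.trc
  set S : ℝ := ∑ y ∈ Y, hs τ (y - τ y • (1 : N)) with hS
  have hS0 : 0 ≤ S := Finset.sum_nonneg fun y _ => hs_nonneg hτ _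
  obtain ⟨L, hLL, hL, E, hE, hY⟩ := hLQ0 N τ hN Y (ε / (2 * (Y.card + 1)))
    (max L₀ (⌈2 * S / ε⌉₊)) (by positivity)
  have hLr : (0 : ℝ) < L := by exact_mod_cast hL
  have hSL : S / L ≤ ε / 2 := by
    have h1 : (⌈2 * S / ε⌉₊ : ℝ) ≤ L := by exact_mod_cast (le_max_right _ _).trans hLL
    have h2 : 2 * S / ε ≤ L := (Nat.le_ceil _).trans h1
    rw [div_le_iff₀ hε] at h2
    rw [div_le_iff₀ hLr]
    linarith
  refine ⟨L, (le_max_left _ _).trans hLL, hL, ?_⟩
  set o : Fin L := ⟨0, hL⟩ with ho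
  have hP : 0 < 2 * L ^ 2 := by positivity
  -- the new matrix units
  have hV1 : ∀ (t : Fin (2 * L ^ 2)) (l l' : Fin L),
      ∑ a, (starRingEnd ℂ) (VV L t l a) * VV L t l' a = if l = l' then 1 else 0 := by
    intro t l l'
    simp only [VV_mul, sub_self, mul_zero, ee_zero, mul_one]
    rw [← Finset.mul_sum]
    have h1 : ∀ a : Fin L, ((l' : ℕ) : ℤ) * ((a : ℕ) : ℤ) - (l : ℕ) * ((a : ℕ) : ℤ) =
        ((a : ℕ) : ℤ) * (((l' : ℕ) : ℤ) - ((l : ℕ) : ℤ)) := fun a => by ring
    simp only [h1]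
    rw [ee_sum hL]
    by_cases h : l = l'
    · subst h
      rw [sub_self, if_pos (dvd_zero _), if_pos rfl]
      push_cast
      field_simp
    · rw [if_neg h, if_neg, mul_zero]
      intro hd
      apply h
      have h2 : ((l' : ℕ) : ℤ) - ((l : ℕ) : ℤ) = 0 := by
        refine Int.eq_zero_of_abs_lt_dvd hd ?_
        have h3 := l.2
        have h4 := l'.2
        rw [abs_lt]
        constructor <;> omega
      exact Fin.ext (by omega)
  have hV2 : ∀ (t : Fin (2 * L ^ 2)) (a b : Fin L),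
      ∑ l, VV L t l a * (starRingEnd ℂ) (VV L t l b) = if a = b then 1 else 0 := by
    intro t a b
    have h1 : ∀ l : Fin L, VV L t l a * (starRingEnd ℂ) (VV L t l b) = (1 / L : ℝ) *
      (ee (2 * L ^ 2) ((t : ℕ) * (((a : ℕ) : ℤ) ^ 2 - ((b : ℕ) : ℤ) ^ 2))) *
        ee L (((l : ℕ) : ℤ) * (((a : ℕ) : ℤ) - ((b : ℕ) : ℤ))) := by
      intro l
      rw [mul_comm, VV_mul, mul_sub ((l : ℕ) : ℤ)]
      ring
    simp only [h1]
    rw [← Finset.mul_sum, ee_sum hL]
    by_cases h : a = b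
    · subst h
      rw [sub_self, sub_self, if_pos (dvd_zero _), if_pos rfl, mul_zero, ee_zero]
      push_cast
      field_simp
    · rw [if_neg h, if_neg, mul_zero]
      intro hd
      apply h
      have h2 : ((a : ℕ) : ℤ) - ((b : ℕ) : ℤ) = 0 := by
        refine Int.eq_zero_of_abs_lt_dvd hd ?_
        have h3 := a.2
        have h4 := b.2
        rw [abs_lt]
        constructor <;> omega
      exact Fin.ext (by omega)
  set E' : Fin (2 * L ^ 2) → Fin L → Fin L → N := fun t l l' =>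
    rr E o (VV L t l) * star (rr E o (VV L t l')) with hE'
  have hMU : ∀ t, MU (E' t) := fun t => MU_rr hE o (VV L t) (hV1 t) (hV2 t)
  -- the average
  have havg : ∀ y : N, ∑ t, ∑ l, hs τ (E' t l l * y * E' t l l) ≤
      ((2 * L ^ 2 : ℕ) : ℝ) * (hs τ ((1 / L : ℝ) • ∑ a, ∑ b, E a b * y * E b a) +
        hs τ y / L) := by
    intro y
    have h1 : ∀ (t : Fin (2 * L ^ 2)) (l : Fin L), hs τ (E' t l l * y * E' t l l) =
        (1 / L : ℝ) ^ 2 * hs τ (∑ p : Fin L × Fin L, ph L l t p • (E o p.1 * y * E p.2 o)) := by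
      intro t l
      rw [hE']
      simp only []
      rw [hs_rr hτ hE o _ (by rw [hV1, if_pos rfl]), star_rr_y_rr hE, ← hs_smul]
      congr 1
      rw [Finset.smul_sum]
      refine Finset.sum_congr rfl fun p _ => ?_
      rw [VV_mul, ← mul_sub]
      unfold ph
      rw [← smul_assoc]
      congr 1
    simp only [h1, ← Finset.mul_sum]
    have h2 := avg_phases hτ hL (fun p => E o p.1 * y * E p.2 o)
    simp only [] at h2
    rw [sum_hs_corner hτ hE] at h2
    rw [hs_Phi hτ hE hL y o]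
    calc (1 / L : ℝ) ^ 2 * _ ≤ (1 / L : ℝ) ^ 2 * (((2 * L ^ 2 : ℕ) : ℝ) * L *
          (hs τ (∑ b, E o b * y * E b o) + hs τ y)) :=
        mul_le_mul_of_nonneg_left h2 (by positivity)
      _ = _ := by
        field_simp
  -- choose t
  have hsum : ∑ t, ∑ y ∈ Y, ∑ l, hs τ (E' t l l * (y - τ y • (1 : N)) * E' t l l) ≤
      ∑ t : Fin (2 * L ^ 2), ε := by
    rw [Finset.sum_comm]
    have h1 : ∀ y ∈ Y, ∑ t, ∑ l, hs τ (E' t l l * (y - τ y • (1 : N)) * E' t l l) ≤
        ((2 * L ^ 2 : ℕ) : ℝ) * (ε / (2 * (Y.card + 1)) + hs τ (y - τ y • (1 : N)) / L) := by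
      intro y hy
      refine (havg _).trans (mul_le_mul_of_nonneg_left ?_ (by positivity))
      refine add_le_add ?_ le_rfl
      have h2 : (1 / L : ℝ) • ∑ a, ∑ b, E a b * (y - τ y • (1 : N)) * E b a =
          (1 / L : ℝ) • ∑ a, ∑ b, E a b * y * E b a - τ y • (1 : N) := by
        have h3 : ∀ a b : Fin L, E a b * (y - τ y • (1 : N)) * E b a =
            E a b * y * E b a - τ y • E a a := by
          intro a b
          rw [mul_sub, sub_mul, mul_smul_comm, smul_mul_assoc, mul_one, hE.mm]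
        simp only [h3, Finset.sum_sub_distrib, smul_sub]
        congr 1
        simp only [Finset.sum_const, Finset.card_univ, Fintype.card_fin]
        rw [← Finset.smul_sum, ← Finset.smul_sum, hE.sum, ← Nat.cast_smul_eq_nsmul ℝ, smul_smul,
          one_div, inv_mul_cancel₀ hLr.ne', one_smul]
      rw [h2]
      exact hY y hy
    refine (Finset.sum_le_sum h1).trans ?_
    rw [← Finset.mul_sum, Finset.sum_add_distrib, Finset.sum_const, ← Finset.sum_div, ← hS,
      Finset.sum_const, Finset.card_univ, Fintype.card_fin, nsmul_eq_mul, nsmul_eq_mul]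
    refine mul_le_mul_of_nonneg_left ?_ (by positivity)
    have h4 : (Y.card : ℝ) * (ε / (2 * (Y.card + 1))) ≤ ε / 2 := by
      rw [mul_div_assoc', div_le_div_iff₀ (by positivity) (by positivity)]
      nlinarith [Nat.cast_nonneg (α := ℝ) Y.card]
    linarith
  have hne : (Finset.univ : Finset (Fin (2 * L ^ 2))).Nonempty := ⟨⟨0, hP⟩, Finset.mem_univ _⟩
  obtain ⟨t, -, ht⟩ := Finset.exists_le_of_sum_le hne hsum
  refine ⟨E' t, hMU t, fun y hy => ?_⟩
  rw [excess hτ (hMU t)]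
  refine add_le_add le_rfl ?_
  refine le_trans ?_ ht
  exact Finset.single_le_sum
    (f := fun y => ∑ l, hs τ (E' t l l * (y - τ y • (1 : N)) * E' t l l))
    (fun y _ => Finset.sum_nonneg fun l _ => hs_nonneg hτ _) hy

end Helper61.HT
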