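import Pool.Agent.Helper61.HT.Cmt
import Pool.Agent.Helper61.HT.Ip

/-!
# Project HT, module LQ0 (helper29): matrix units with almost trivial relative commutant part of a
finite set
-/

set_option autoImplicit false
set_option linter.unusedSectionVars false

namespace Helper61.HT

open scoped ComplexOrder
open Filter Topology

section

variable {N : Type} [CStarAlgebra N] [PartialOrder N] [StarOrderedRing N] {τ : N →ₗ[ℂ] ℂ}

private lemma hs_comm_le (hτ : Trc τ) (a y : N) :
    hs τ (a * y - y * a) ≤ 4 * ‖a‖ ^ 2 * hs τ y := by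
  have h1 := hs_add_le hτ (a * y) (-(y * a))
  rw [hs_neg, ← sub_eq_add_neg] at h1
  have h2 := hs_mul_le hτ a y
  have h3 := hs_mul_le' hτ y a
  linarith

private lemma hs_comm_le' (hτ : Trc τ) (a y : N) :
    hs τ (a * y - y * a) ≤ 4 * ‖y‖ ^ 2 * hs τ a := by
  have h1 := hs_add_le hτ (a * y) (-(y * a))
  rw [hs_neg, ← sub_eq_add_neg] at h1
  have h2 := hs_mul_le' hτ a y
  have h3 := hs_mul_le hτ y a
  linarith

private lemma hs_comm_add (hτ : Trc τ) (a b y : N) :
    hs τ ((a + b) * y - y * (a + b)) ≤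
      2 * hs τ (a * y - y * a) + 2 * hs τ (b * y - y * b) := by
  have h1 := hs_add_le hτ (a * y - y * a) (b * y - y * b)
  have h2 : a * y - y * a + (b * y - y * b) = (a + b) * y - y * (a + b) := by noncomm_ring
  rwa [h2] at h1

/-- Convexity of `hs` for averages. -/
private lemma hs_average_le (hτ : Trc τ) (m : ℕ) (hm : 0 < m) (x : ℕ → N) :
    hs τ ((1 / m : ℝ) • ∑ j ∈ Finset.range m, x j) ≤
      (1 / m : ℝ) * ∑ j ∈ Finset.range m, hs τ (x j) := by
  set w := (1 / m : ℝ) • ∑ j ∈ Finset.range m, x j with hw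
  have hm' : (0 : ℝ) < m := by exact_mod_cast hm
  have h1 : ∀ j, hs τ (x j - w) = hs τ (x j) + hs τ w - 2 * rt τ (star (x j) * w) := by
    intro j
    have h2 := hs_add hτ (x j) (-w)
    rw [hs_neg, ← sub_eq_add_neg, mul_neg, rt_neg] at h2
    linarith
  have h2 : 0 ≤ ∑ j ∈ Finset.range m, hs τ (x j - w) :=
    Finset.sum_nonneg fun _ _ => hs_nonneg hτ _
  have h3 : ∑ j ∈ Finset.range m, rt τ (star (x j) * w) = m * hs τ w := by
    rw [← rt_sum, ← Finset.sum_mul, ← star_sum]
    have h4 : ∑ j ∈ Finset.range m, x j = (m : ℝ) • w := by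
      rw [hw, smul_smul, mul_one_div, div_self hm'.ne', one_smul]
    rw [h4, star_smul, star_trivial, smul_mul_assoc, rt_smul, ← hs_eq_rt]
  simp only [h1] at h2
  rw [Finset.sum_sub_distrib, Finset.sum_add_distrib, Finset.sum_const, Finset.card_range,
    nsmul_eq_mul, ← Finset.mul_sum, h3] at h2
  rw [one_div, ← div_eq_inv_mul, le_div_iff₀ hm']
  linarith

private lemma half_contraction {h : N} (hs : star h = h) (hn : ‖h‖ ≤ 1) :
    0 ≤ (1 / 2 : ℝ) • (1 + h) ∧ (1 / 2 : ℝ) • (1 + h) ≤ (1 : N) := by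
  have h1 := le_smul_of_norm hs
  have h2 := neg_smul_le_of_norm hs
  have h3 : ‖h‖ • (1 : N) ≤ (1 : ℝ) • 1 := smul_mono_left hn zero_le_one
  rw [one_smul] at h3
  have h4 : h ≤ 1 := h1.trans h3
  have h5 : -1 ≤ h := (neg_le_neg h3).trans h2
  have h6 : (0 : N) ≤ 1 + h := by
    have := add_le_add_right h5 (1 : N)
    simpa using this
  constructor
  · exact smul_nonneg_real (by norm_num) h6
  · have h7 : (1 : N) + h ≤ 1 + 1 := add_le_add_right h4 1
    have h8 := smul_mono_real (show (0 : ℝ) ≤ 1 / 2 by norm_num) h7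
    refine h8.trans (le_of_eq ?_)
    rw [← two_smul ℝ (1 : N), smul_smul]
    norm_num

/-- A unitary which moves the family. -/
private lemma step_unitary (hN : II1 τ) {κ : Type} [Fintype κ] (y : κ → N)
    (hy : ∀ k, τ (y k) = 0) (hA : 0 < ∑ k, hs τ (y k)) :
    ∃ v, Un v ∧ 15 / 8 * ∑ k, hs τ (y k) ≤ ∑ k, hs τ (v * y k - y k * v) := by
  have hτ := hN.trc
  set A := ∑ k, hs τ (y k) with hAdef
  set ε : ℝ := A / (256 * (Fintype.card κ + 1)) with hε
  have hεpos : 0 < ε := by positivity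
  obtain ⟨J, hJ, c, v, hc0, hc1, hv, h⟩ := avg_unitary hN y ε hεpos
  have h1 : ∑ k, rt τ (star (y k) * ∑ i, c i • (v i * y k * star (v i))) ≤ A / 16 := by
    have h2 : ∀ k, rt τ (star (y k) * ∑ i, c i • (v i * y k * star (v i))) ≤
        hs τ (y k) / 32 + 8 * ε := by
      intro k
      have h3 := h k
      rw [hy k, zero_smul, sub_zero] at h3
      set z := ∑ i, c i • (v i * y k * star (v i)) with hz
      have h4 := rt_mul_le hτ (star (y k)) z
      rw [hs_star hτ] at h4
      have h5 := Real.sq_sqrt (hs_nonneg hτ (y k))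
      have h6 := Real.sq_sqrt (hs_nonneg hτ z)
      have h7 : Real.sqrt (hs τ (y k)) * Real.sqrt (hs τ z) ≤ hs τ (y k) / 32 + 8 * hs τ z := by
        nlinarith [sq_nonneg (Real.sqrt (hs τ (y k)) - 16 * Real.sqrt (hs τ z))]
      linarith
    refine (Finset.sum_le_sum fun k _ => h2 k).trans ?_
    rw [Finset.sum_add_distrib, Finset.sum_const, Finset.card_univ, nsmul_eq_mul,
      ← Finset.sum_div]
    have h8 : (Fintype.card κ : ℝ) * (8 * ε) ≤ A / 32 := by
      rw [hε]
      have h9 : (0 : ℝ) < Fintype.card κ + 1 := by positivity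
      rw [show (Fintype.card κ : ℝ) * (8 * (A / (256 * (Fintype.card κ + 1)))) =
        (A / 32) * ((Fintype.card κ : ℝ) / (Fintype.card κ + 1)) by field_simp; ring]
      have h10 : (Fintype.card κ : ℝ) / (Fintype.card κ + 1) ≤ 1 := by
        rw [div_le_one h9]; linarith
      have h11 : 0 ≤ A / 32 := by positivity
      nlinarith
    linarith
  have h2 : ∑ k, rt τ (star (y k) * ∑ i, c i • (v i * y k * star (v i))) =
      ∑ i, c i * ∑ k, rt τ (star (y k) * (v i * y k * star (v i))) := by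
    have h3 : ∀ k, rt τ (star (y k) * ∑ i, c i • (v i * y k * star (v i))) =
        ∑ i, c i * rt τ (star (y k) * (v i * y k * star (v i))) := by
      intro k
      rw [Finset.mul_sum, rt_sum]
      refine Finset.sum_congr rfl fun i _ => ?_
      rw [mul_smul_comm, rt_smul]
    simp only [h3]
    rw [Finset.sum_comm]
    refine Finset.sum_congr rfl fun i _ => ?_
    rw [Finset.mul_sum]
  rw [h2] at h1
  obtain ⟨i, hi⟩ : ∃ i, ∑ k, rt τ (star (y k) * (v i * y k * star (v i))) ≤ A / 16 := by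
    by_contra hcon
    push Not at hcon
    obtain ⟨i₀, -, hi₀⟩ : ∃ i ∈ Finset.univ, c i ≠ 0 := by
      by_contra hcon'
      push Not at hcon'
      have : ∑ i, c i = 0 := Finset.sum_eq_zero hcon'
      rw [hc1] at this
      exact one_ne_zero this
    have h3 : ∑ i, c i * (A / 16) < ∑ i, c i * ∑ k, rt τ (star (y k) * (v i * y k * star (v i))) :=
      Finset.sum_lt_sum (fun i _ => mul_le_mul_of_nonneg_left (hcon i).le (hc0 i))
        ⟨i₀, Finset.mem_univ _, mul_lt_mul_of_pos_left (hcon i₀) (lt_of_le_of_ne (hc0 i₀) hi₀.symm)⟩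
    rw [← Finset.sum_mul, hc1, one_mul] at h3
    linarith
  refine ⟨v i, hv i, ?_⟩
  have h3 : ∀ k, hs τ (v i * y k - y k * v i) =
      2 * hs τ (y k) - 2 * rt τ (star (y k) * (v i * y k * star (v i))) := by
    intro k
    rw [hs_comm_unit hτ (hv i)]
    have h4 := hs_add hτ (y k) (-(v i * y k * star (v i)))
    rw [hs_neg, ← sub_eq_add_neg, mul_neg, rt_neg, hs_mul_unit hτ (hv i).star,
      hs_unit_mul (hv i)] at h4
    linarith
  simp only [h3]
  rw [Finset.sum_sub_distrib, ← Finset.mul_sum, ← Finset.mul_sum, ← hAdef]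
  linarith

/-- A positive contraction which moves the family. -/
private lemma step_pos (hN : II1 τ) {κ : Type} [Fintype κ] (y : κ → N)
    (hy : ∀ k, τ (y k) = 0) (hA : 0 < ∑ k, hs τ (y k)) :
    ∃ a : N, 0 ≤ a ∧ a ≤ 1 ∧ 1 / 10 * ∑ k, hs τ (y k) ≤ ∑ k, hs τ (a * y k - y k * a) := by
  have hτ := hN.trc
  obtain ⟨v, hv, h⟩ := step_unitary hN y hy hA
  have hvn := norm_unit_le hv
  set b : N := (1 / 2 : ℝ) • (v + star v) with hb
  set d : N := (1 / 2 : ℝ) • ((-Complex.I) • (v - star v)) with hd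
  have hbs : star b = b := by
    rw [hb, star_smul, star_trivial, star_add, star_star, add_comm]
  have hds : star d = d := by
    rw [hd, star_smul, star_trivial, star_smul, star_sub, star_star]
    congr 1
    rw [star_neg, RCLike.star_def, Complex.conj_I, neg_neg, ← neg_sub v, smul_neg, neg_smul]
  have hbn : ‖b‖ ≤ 1 := by
    rw [hb, norm_smul]
    have h1 := norm_add_le v (star v)
    rw [norm_star] at h1
    rw [Real.norm_of_nonneg (by norm_num)]
    linarith
  have hdn : ‖d‖ ≤ 1 := by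
    rw [hd, norm_smul, norm_smul]
    have h1 := norm_sub_le v (star v)
    rw [norm_star] at h1
    rw [Real.norm_of_nonneg (by norm_num), norm_neg, Complex.norm_I]
    linarith
  have hvbd : v = b + Complex.I • d := by
    have h1 : Complex.I • d = (1 / 2 : ℝ) • (v - star v) := by
      rw [hd, smul_comm, smul_smul, mul_neg, Complex.I_mul_I, neg_neg, one_smul]
    rw [h1, hb, ← smul_add]
    have h2 : v + star v + (v - star v) = (2 : ℝ) • v := by rw [two_smul]; abel
    rw [h2, smul_smul]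
    norm_num
  obtain ⟨hb0, hb1⟩ := half_contraction hbs hbn
  obtain ⟨hd0, hd1⟩ := half_contraction hds hdn
  have hcomm : ∀ (x z : N), hs τ (((1 / 2 : ℝ) • (1 + x)) * z - z * ((1 / 2 : ℝ) • (1 + x))) =
      1 / 4 * hs τ (x * z - z * x) := by
    intro x z
    have h1 : ((1 / 2 : ℝ) • (1 + x)) * z - z * ((1 / 2 : ℝ) • (1 + x)) =
        (1 / 2 : ℝ) • (x * z - z * x) := by
      rw [smul_mul_assoc, mul_smul_comm, ← smul_sub]
      congr 1
      noncomm_ring
    rw [h1, hs_smul]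
    norm_num
  have h2 : ∀ k, hs τ (v * y k - y k * v) ≤
      2 * hs τ (b * y k - y k * b) + 2 * hs τ (d * y k - y k * d) := by
    intro k
    have h3 := hs_comm_add hτ b (Complex.I • d) (y k)
    rw [← hvbd] at h3
    have h4 : hs τ ((Complex.I • d) * y k - y k * (Complex.I • d)) =
        hs τ (d * y k - y k * d) := by
      rw [smul_mul_assoc, mul_smul_comm, ← smul_sub, hs_smulC, Complex.norm_I]
      ring
    rwa [h4] at h3
  have h3 : ∑ k, hs τ (v * y k - y k * v) ≤
      2 * ∑ k, hs τ (b * y k - y k * b) + 2 * ∑ k, hs τ (d * y k - y k * d) := by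
    refine (Finset.sum_le_sum fun k _ => h2 k).trans (le_of_eq ?_)
    rw [Finset.sum_add_distrib, Finset.mul_sum, Finset.mul_sum]
  rcases le_total (∑ k, hs τ (b * y k - y k * b)) (∑ k, hs τ (d * y k - y k * d)) with hle | hle
  · refine ⟨(1 / 2 : ℝ) • (1 + d), hd0, hd1, ?_⟩
    simp only [hcomm]
    rw [← Finset.mul_sum]
    linarith
  · refine ⟨(1 / 2 : ℝ) • (1 + b), hb0, hb1, ?_⟩
    simp only [hcomm]
    rw [← Finset.mul_sum]
    linarith

/-- A projection which moves the family. -/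
private lemma step_proj (hSpec : StSpec) (hN : II1 τ) {κ : Type} [Fintype κ] (y : κ → N)
    (hy : ∀ k, τ (y k) = 0) (hA : 0 < ∑ k, hs τ (y k)) :
    ∃ p : N, Pr p ∧ 1 / 25 * ∑ k, hs τ (y k) ≤ ∑ k, hs τ (p * y k - y k * p) := by
  have hτ := hN.trc
  obtain ⟨a, ha0, ha1, h⟩ := step_pos hN y hy hA
  obtain ⟨E, hE⟩ := hSpec N τ hτ hN.cpl a ha0 ha1
  have hlay := hE.lay 100 (by norm_num)
  set A := ∑ k, hs τ (y k) with hAdef
  set x : ℕ → N := fun j => E (((j : ℝ) + 1) / (100 : ℕ)) with hx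
  set am : N := (1 / (100 : ℕ) : ℝ) • ∑ j ∈ Finset.range 100, x j with ham
  have h1 : ∀ k, hs τ (a * y k - y k * a) ≤
      2 * hs τ (am * y k - y k * am) + 8 / 10000 * hs τ (y k) := by
    intro k
    have h2 := hs_comm_add hτ am (a - am) (y k)
    have h3 : am + (a - am) = a := by abel
    rw [h3] at h2
    have h4 := hs_comm_le hτ (a - am) (y k)
    have h5 : ‖a - am‖ ^ 2 ≤ 1 / 10000 := by
      have h6 : ‖a - am‖ ≤ 1 / 100 := by
        refine hlay.trans ?_
        norm_num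
      calc ‖a - am‖ ^ 2 ≤ (1 / 100) ^ 2 := pow_le_pow_left₀ (norm_nonneg _) h6 2
        _ = 1 / 10000 := by norm_num
    have h6 := mul_le_mul_of_nonneg_right h5 (hs_nonneg hτ (y k))
    linarith
  have h2 : ∀ k, hs τ (am * y k - y k * am) ≤
      (1 / (100 : ℕ) : ℝ) * ∑ j ∈ Finset.range 100, hs τ (x j * y k - y k * x j) := by
    intro k
    have h3 := hs_average_le hτ 100 (by norm_num) (fun j => x j * y k - y k * x j)
    have h4 : am * y k - y k * am =
        (1 / (100 : ℕ) : ℝ) • ∑ j ∈ Finset.range 100, (x j * y k - y k * x j) := by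
      rw [ham, smul_mul_assoc, mul_smul_comm, ← smul_sub, Finset.sum_mul, Finset.mul_sum,
        ← Finset.sum_sub_distrib]
    rw [h4]
    exact h3
  have h3 : ∑ k, hs τ (a * y k - y k * a) ≤
      2 * ((1 / (100 : ℕ) : ℝ) * ∑ j ∈ Finset.range 100, ∑ k, hs τ (x j * y k - y k * x j)) +
        8 / 10000 * A := by
    refine (Finset.sum_le_sum fun k _ => (h1 k).trans
      (add_le_add (mul_le_mul_of_nonneg_left (h2 k) (by norm_num)) le_rfl)).trans (le_of_eq ?_)
    rw [Finset.sum_add_distrib, ← Finset.mul_sum, ← Finset.mul_sum, ← Finset.mul_sum,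
      Finset.sum_comm]
  have h4 : ∃ j ∈ Finset.range 100, 1 / 25 * A ≤ ∑ k, hs τ (x j * y k - y k * x j) := by
    by_contra hcon
    push Not at hcon
    have h5 : ∑ j ∈ Finset.range 100, ∑ k, hs τ (x j * y k - y k * x j) ≤
        ∑ j ∈ Finset.range 100, 1 / 25 * A :=
      Finset.sum_le_sum fun j hj => (hcon j hj).le
    rw [Finset.sum_const, Finset.card_range, nsmul_eq_mul] at h5
    norm_num at h3 h5 h
    linarith
  obtain ⟨j, -, hj⟩ := h4
  exact ⟨x j, hE.pr _, hj⟩

/-- One step: matrix units which decrease the conditional expectation. -/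
private lemma step_MU (hSpec : StSpec) (hDiv : StDiv) (hMU : StMU) (hN : II1 τ) {κ : Type}
    [Fintype κ] (y : κ → N) (hy : ∀ k, τ (y k) = 0) :
    ∃ L : ℕ, 0 < L ∧ ∃ E : Fin L → Fin L → N, MU E ∧
      ∑ k, hs τ (Ph E (y k)) ≤ 399 / 400 * ∑ k, hs τ (y k) := by
  have hτ := hN.trc
  have hA0 : 0 ≤ ∑ k, hs τ (y k) := Finset.sum_nonneg fun k _ => hs_nonneg hτ _
  rcases hA0.eq_or_lt with hA | hA
  · obtain ⟨E, hE, -⟩ := hMU N τ hN 1 0 one_pos (Nat.zero_le _) 0 Pr.zero (by simp [rt_zero])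
    refine ⟨1, one_pos, E, hE, ?_⟩
    have h1 : ∑ k, hs τ (Ph E (y k)) ≤ ∑ k, hs τ (y k) :=
      Finset.sum_le_sum fun k _ => hs_Ph_le hτ hE one_pos _
    rw [← hA] at h1 ⊢
    linarith
  · obtain ⟨p, hp, h⟩ := step_proj hSpec hN y hy hA
    set A := ∑ k, hs τ (y k) with hAdef
    set B := ∑ k, ‖y k‖ ^ 2 with hB
    have hB0 : 0 ≤ B := Finset.sum_nonneg fun k _ => by positivity
    obtain ⟨L, hL⟩ := exists_nat_gt (400 * B / A)
    have hLpos' : (0 : ℝ) < L := lt_of_le_of_lt (by positivity) hL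
    have hLpos : 0 < L := by exact_mod_cast hLpos'
    have ht0 := hp.rt_nonneg hτ
    have ht1 : rt τ p ≤ 1 := by
      have := rt_mono hτ hp.le_one
      rwa [rt_one hτ] at this
    set j := ⌊rt τ p * L⌋₊ with hj
    have hj1 : (j : ℝ) ≤ rt τ p * L := Nat.floor_le (by positivity)
    have hj2 : rt τ p * L < j + 1 := Nat.lt_floor_add_one _
    have hjL : j ≤ L := by
      have : (j : ℝ) ≤ L := hj1.trans (by nlinarith)
      exact_mod_cast this
    obtain ⟨e, he, hep, hte⟩ := hDiv N τ hN p hp (j / L) (by positivity)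
      (by rw [div_le_iff₀ hLpos']; exact hj1)
    obtain ⟨E, hE, heE⟩ := hMU N τ hN L j hLpos hjL e he hte
    refine ⟨L, hLpos, E, hE, ?_⟩
    -- `e` is close to `p`
    have hpe : p * e = e := (hp.absorb he.nonneg hep).2
    have hd : Pr (p - e) := hp.sub he hpe
    have hde : hs τ (p - e) ≤ 1 / L := by
      rw [hd.hs, rt_sub, hte, sub_le_iff_le_add, ← add_div, le_div_iff₀ hLpos']
      linarith
    have h1 : ∀ k, hs τ (p * y k - y k * p) ≤
        2 * hs τ (e * y k - y k * e) + 8 * (1 / L) * ‖y k‖ ^ 2 := by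
      intro k
      have h2 := hs_comm_add hτ e (p - e) (y k)
      have h3 : e + (p - e) = p := by abel
      rw [h3] at h2
      have h4 := hs_comm_le' hτ (p - e) (y k)
      have h5 := mul_le_mul_of_nonneg_left hde (show 0 ≤ 4 * ‖y k‖ ^ 2 by positivity)
      linarith
    have h2 : ∑ k, hs τ (p * y k - y k * p) ≤
        2 * ∑ k, hs τ (e * y k - y k * e) + 8 * (1 / L) * B := by
      refine (Finset.sum_le_sum fun k _ => h1 k).trans (le_of_eq ?_)
      rw [Finset.sum_add_distrib, ← Finset.mul_sum, ← Finset.mul_sum]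
    have h3 : 8 * (1 / (L : ℝ)) * B ≤ A / 50 := by
      rw [div_lt_iff₀ hA] at hL
      rw [mul_one_div, div_mul_eq_mul_div, div_le_iff₀ hLpos']
      linarith
    -- `e` commutes with the conditional expectations
    have h4 : ∀ k, hs τ (e * y k - y k * e) ≤ 4 * hs τ (y k - Ph E (y k)) := by
      intro k
      have h5 : Ph E (y k) * e = e * Ph E (y k) := by
        rw [heE, Finset.mul_sum, Finset.sum_mul]
        refine Finset.sum_congr rfl fun i _ => ?_
        exact Ph_comm hE _ _ _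
      have h6 : e * y k - y k * e =
          e * (y k - Ph E (y k)) - (y k - Ph E (y k)) * e := by
        rw [mul_sub, sub_mul, h5]; abel
      rw [h6]
      have h7 := hs_comm_le hτ e (y k - Ph E (y k))
      have h8 : ‖e‖ ^ 2 ≤ 1 := by
        have := he.norm_le
        nlinarith [norm_nonneg e]
      have h9 := mul_le_mul_of_nonneg_right h8 (hs_nonneg hτ (y k - Ph E (y k)))
      linarith
    have h5 : ∑ k, hs τ (e * y k - y k * e) ≤ 4 * ∑ k, hs τ (y k - Ph E (y k)) := by
      refine (Finset.sum_le_sum fun k _ => h4 k).trans (le_of_eq ?_)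
      rw [← Finset.mul_sum]
    have h6 : A = ∑ k, hs τ (Ph E (y k)) + ∑ k, hs τ (y k - Ph E (y k)) := by
      rw [hAdef, ← Finset.sum_add_distrib]
      exact Finset.sum_congr rfl fun k _ => hs_Ph hτ hE hLpos _
    linarith

end

/-- Iteration. -/
private lemma iterate (hSpec : StSpec) (hDiv : StDiv) (hMU : StMU) (n : ℕ) :
    ∀ (N : Type) [CStarAlgebra N] [PartialOrder N] [StarOrderedRing N] (τ : N →ₗ[ℂ] ℂ),
      II1 τ → ∀ (κ : Type) [Fintype κ] (y : κ → N), (∀ k, τ (y k) = 0) → ∀ L₀ : ℕ,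
      ∃ L ≥ L₀, 0 < L ∧ ∃ E : Fin L → Fin L → N, MU E ∧
        ∑ k, hs τ (Ph E (y k)) ≤ (399 / 400) ^ n * ∑ k, hs τ (y k) := by
  induction n with
  | zero =>
    intro N _ _ _ τ hN κ _ y hy L₀
    obtain ⟨E, hE, -⟩ := hMU N τ hN (L₀ + 1) 0 (Nat.succ_pos _) (Nat.zero_le _) 0 Pr.zero
      (by simp [rt_zero])
    refine ⟨L₀ + 1, Nat.le_succ _, Nat.succ_pos _, E, hE, ?_⟩
    rw [pow_zero, one_mul]
    exact Finset.sum_le_sum fun k _ => hs_Ph_le hN.trc hE (Nat.succ_pos _) _
  | succ n ih =>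
    intro N _ _ _ τ hN κ _ y hy L₀
    obtain ⟨L₁, hL₁, E, hE, h1⟩ := step_MU hSpec hDiv hMU hN y hy
    obtain ⟨N₁, i1, i2, i3, τ₁, i, hN₁, hτ₁, hcomm, hsurj⟩ := exists_cmt hN E hE
    choose y' hy' using fun k => hsurj (Ph E (y k)) (fun a b => Ph_comm hE (y k) a b)
    have hhs : ∀ x : N₁, hs τ₁ x = hs τ (i x) := by
      intro x
      unfold hs
      rw [← hτ₁, map_mul, map_star]
    obtain ⟨L₂, hL₂, hL₂', F, hF, h2⟩ := ih N₁ τ₁ hN₁ κ y' (fun k => by
      rw [← hτ₁, hy', tau_Ph hN.trc hE hL₁, hy]) L₀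
    -- the images of `F`
    let F' : Fin L₂ → Fin L₂ → N := fun a b => i (F a b)
    have hF' : MU F' := by
      constructor
      · intro a b
        change star (i (F a b)) = i (F b a)
        rw [← map_star, hF.st]
      · intro a b c d
        change i (F a b) * i (F c d) = if b = c then i (F a d) else 0
        rw [← map_mul, hF.mul]
        split_ifs
        · rfl
        · rw [map_zero]
      · change ∑ a, i (F a a) = 1
        rw [← map_sum, hF.sum, map_one]
    have hc : ∀ a b c d, F' c d * E a b = E a b * F' c d := fun a b c d => hcomm _ _ _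
    refine ⟨L₁ * L₂, ?_, Nat.mul_pos hL₁ hL₂', prodMU E F', hE.prod hF' hc, ?_⟩
    · exact hL₂.le.trans (Nat.le_mul_of_pos_left _ hL₁)
    · have h3 : ∀ k, hs τ (Ph (prodMU E F') (y k)) = hs τ₁ (Ph F (y' k)) := by
        intro k
        rw [Ph_prod hc, hhs, ← hy']
        congr 1
        unfold Ph
        have h4 : i ((1 / L₂ : ℝ) • ∑ a, ∑ b, F a b * y' k * F b a) =
            (1 / L₂ : ℝ) • i (∑ a, ∑ b, F a b * y' k * F b a) := by
          rw [← algebraMap_smul ℂ (1 / L₂ : ℝ), map_smul, algebraMap_smul]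
        rw [h4, map_sum]
        congr 1
        refine Finset.sum_congr rfl fun a _ => ?_
        rw [map_sum]
        refine Finset.sum_congr rfl fun b _ => ?_
        rw [map_mul, map_mul]
      simp only [h3]
      refine h2.trans ?_
      have h4 : ∑ k, hs τ₁ (y' k) = ∑ k, hs τ (Ph E (y k)) :=
        Finset.sum_congr rfl fun k _ => by rw [hhs, hy']
      rw [h4, pow_succ, mul_assoc]
      exact mul_le_mul_of_nonneg_left h1 (by positivity)

theorem pLQ0 (hSpec : StSpec) (hMU : StMU) (hDiv : StDiv) : StLQ0 := by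
  intro N _ _ _ τ hN Y ε L₀ hε
  have hτ := hN.trc
  let y : Y → N := fun k => k.1 - τ k.1 • (1 : N)
  have hy : ∀ k, τ (y k) = 0 := by
    intro k
    change τ (k.1 - τ k.1 • (1 : N)) = 0
    rw [map_sub, map_smul, hτ.one, smul_eq_mul, mul_one, sub_self]
  have hA0 : 0 ≤ ∑ k, hs τ (y k) := Finset.sum_nonneg fun k _ => hs_nonneg hτ _
  obtain ⟨n, hn⟩ : ∃ n : ℕ, (399 / 400 : ℝ) ^ n * ∑ k, hs τ (y k) ≤ ε := by
    have h1 : Tendsto (fun n : ℕ => (399 / 400 : ℝ) ^ n * ∑ k, hs τ (y k)) atTop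
        (𝓝 (0 * ∑ k, hs τ (y k))) :=
      (tendsto_pow_atTop_nhds_zero_of_lt_one (by norm_num) (by norm_num)).mul_const _
    rw [zero_mul] at h1
    exact ((h1.eventually_lt_const hε).exists).imp fun n hn => hn.le
  obtain ⟨L, hL, hL', E, hE, h1⟩ := iterate hSpec hDiv hMU n N τ hN Y y hy L₀
  refine ⟨L, hL, hL', E, hE, fun z hz => ?_⟩
  have h2 : hs τ (Ph E (y ⟨z, hz⟩)) ≤ ∑ k, hs τ (Ph E (y k)) :=
    Finset.single_le_sum (f := fun k => hs τ (Ph E (y k))) (fun k _ => hs_nonneg hτ _)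
      (Finset.mem_univ _)
  have h3 : Ph E (y ⟨z, hz⟩) = Ph E z - τ z • (1 : N) := by
    change Ph E (z - τ z • (1 : N)) = _
    rw [Ph_sub, Ph_smul, Ph_one hE hL']
  rw [h3] at h2
  exact h2.trans (h1.trans hn)

end Helper61.HT
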