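import Pool.Agent.Helper61.HT.StF
import Pool.Agent.Helper61.HT.LibN

/-!
# The limit of a sequence of symmetric completely positive maps
-/

set_option linter.unusedSectionVars false

namespace Helper61.HT

open scoped ComplexOrder
open Filter Topology

namespace LimM

section

variable {N : Type} [CStarAlgebra N] [PartialOrder N] [StarOrderedRing N] {τ : N →ₗ[ℂ] ℂ}

lemma tau_mul_nonneg (hτ : Trc τ) {x y : N} (hx : 0 ≤ x) (hy : 0 ≤ y) : 0 ≤ τ (x * y) := by
  obtain ⟨c, hc, rfl⟩ := exists_sqrt hx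
  obtain ⟨d, hd, rfl⟩ := exists_sqrt hy
  have h : τ (c * c * (d * d)) = τ (star (d * c) * (d * c)) := by
    rw [star_mul, herm_of_nonneg hc, herm_of_nonneg hd,
      show c * c * (d * d) = c * (c * d * d) by noncomm_ring, hτ.tr,
      show c * d * d * c = c * d * (d * c) by noncomm_ring]
  rw [h]
  exact hτ.nonneg _

lemma sqrt_hs_le_norm (hτ : Trc τ) (y : N) : Real.sqrt (hs τ y) ≤ ‖y‖ := by
  rw [Real.sqrt_le_left (norm_nonneg y)]
  have h := hs_mul_le hτ y 1
  rw [mul_one] at h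
  refine h.trans (le_of_eq ?_)
  rw [hs_eq_rt, star_one, mul_one, rt_one hτ, mul_one]

lemma norm_tau_le (hτ : Trc τ) (x : N) : ‖τ x‖ ≤ Real.sqrt (hs τ x) := by
  have h := norm_map_mul_le hτ 1 x
  have h1 : hs τ (1 : N) = 1 := by rw [hs_eq_rt, star_one, mul_one]; exact rt_one hτ
  rwa [star_one, one_mul, h1, Real.sqrt_one, one_mul] at h

lemma norm_psi_le (hPhi : StPhi) (hτ : Trc τ) {ψ : N →ₗ[ℂ] N} (hψ : SCP τ ψ) (x y : N) :
    ‖τ (x * ψ y)‖ ≤ Real.sqrt (hs τ x) * Real.sqrt (hs τ y) := by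
  have h := norm_map_mul_le hτ (star x) (ψ y)
  rw [star_star, hs_star hτ] at h
  exact h.trans (mul_le_mul_of_nonneg_left (Real.sqrt_le_sqrt ((hPhi N τ ψ hτ hψ).1 y).1)
    (Real.sqrt_nonneg _))

/-- Asymptotic equality along `U`. -/
def A2 (U : Ultrafilter ℕ) (τ : N →ₗ[ℂ] ℂ) (x y : ℕ → N) : Prop :=
  Tendsto (fun n => hs τ (x n - y n)) U (𝓝 0)

variable {U : Ultrafilter ℕ}

lemma A2.symm {x y : ℕ → N} (h : A2 U τ x y) : A2 U τ y x := by
  unfold A2
  simp only [hs_sub_comm (y _)]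
  exact h

lemma A2.refl (x : ℕ → N) : A2 U τ x x := by
  unfold A2
  simp only [sub_self, hs_zero]
  exact tendsto_const_nhds

lemma A2.of_le (hτ : Trc τ) {x y : ℕ → N} {f : ℕ → ℝ} (hf : Tendsto f U (𝓝 0))
    (h : ∀ n, hs τ (x n - y n) ≤ f n) : A2 U τ x y :=
  squeeze_zero (fun _ => hs_nonneg hτ _) h hf

lemma A2.trans (hτ : Trc τ) {x y z : ℕ → N} (h : A2 U τ x y) (h' : A2 U τ y z) : A2 U τ x z := by
  refine A2.of_le hτ (f := fun n => 2 * hs τ (x n - y n) + 2 * hs τ (y n - z n)) ?_ fun n => ?_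
  · simpa using (h.const_mul 2).add (h'.const_mul 2)
  · have := hs_add_le hτ (x n - y n) (y n - z n)
    rwa [sub_add_sub_cancel] at this

lemma A2.sqrt {x y : ℕ → N} (h : A2 U τ x y) :
    Tendsto (fun n => Real.sqrt (hs τ (x n - y n))) U (𝓝 0) := by
  have := (Real.continuous_sqrt.tendsto 0).comp h
  rwa [Real.sqrt_zero] at this

lemma A2.mul_left (hτ : Trc τ) {x y b : ℕ → N} {C : ℝ} (hb : ∀ n, ‖b n‖ ≤ C) (h : A2 U τ x y) :
    A2 U τ (fun n => b n * x n) (fun n => b n * y n) := by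
  refine A2.of_le hτ (f := fun n => C ^ 2 * hs τ (x n - y n)) ?_ fun n => ?_
  · simpa using h.const_mul (C ^ 2)
  · rw [← mul_sub]
    refine (hs_mul_le hτ _ _).trans (mul_le_mul_of_nonneg_right ?_ (hs_nonneg hτ _))
    exact pow_le_pow_left₀ (norm_nonneg _) (hb n) 2

lemma A2.mul_right (hτ : Trc τ) {x y b : ℕ → N} {C : ℝ} (hb : ∀ n, ‖b n‖ ≤ C) (h : A2 U τ x y) :
    A2 U τ (fun n => x n * b n) (fun n => y n * b n) := by
  refine A2.of_le hτ (f := fun n => C ^ 2 * hs τ (x n - y n)) ?_ fun n => ?_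
  · simpa using h.const_mul (C ^ 2)
  · rw [← sub_mul]
    refine (hs_mul_le' hτ _ _).trans (mul_le_mul_of_nonneg_right ?_ (hs_nonneg hτ _))
    exact pow_le_pow_left₀ (norm_nonneg _) (hb n) 2

/-- Limits of `τ(x ψ(y))` depend on the asymptotic classes only. -/
lemma close (hPhi : StPhi) (hτ : Trc τ) {ψ : ℕ → N →ₗ[ℂ] N} (hψ : ∀ n, SCP τ (ψ n))
    {x x' y y' : ℕ → N} {C : ℝ} (hx' : ∀ n, Real.sqrt (hs τ (x' n)) ≤ C)
    (hy' : ∀ n, Real.sqrt (hs τ (y' n)) ≤ C) (hx : A2 U τ x x') (hy : A2 U τ y y') {z : ℂ}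
    (h : Tendsto (fun n => τ (x' n * ψ n (y' n))) U (𝓝 z)) :
    Tendsto (fun n => τ (x n * ψ n (y n))) U (𝓝 z) := by
  have h1 : Tendsto (fun n => τ (x n * ψ n (y n)) - τ (x' n * ψ n (y' n))) U (𝓝 0) := by
    have hb : Tendsto (fun n => Real.sqrt (hs τ (x n - x' n)) *
        (Real.sqrt (hs τ (y n - y' n)) + C) + C * Real.sqrt (hs τ (y n - y' n))) U (𝓝 0) := by
      have := (hx.sqrt.mul (hy.sqrt.add_const C)).add (hy.sqrt.const_mul C)
      simpa using this
    rw [tendsto_zero_iff_norm_tendsto_zero]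
    refine squeeze_zero (fun _ => norm_nonneg _) (fun n => ?_) hb
    have e1 : τ (x n * ψ n (y n)) - τ (x' n * ψ n (y' n)) =
        τ ((x n - x' n) * ψ n (y n)) + τ (x' n * ψ n (y n - y' n)) := by
      rw [← map_sub, ← map_add, map_sub (ψ n)]
      congr 1
      noncomm_ring
    rw [e1]
    refine (norm_add_le _ _).trans (add_le_add ?_ ?_)
    · refine (norm_psi_le hPhi hτ (hψ n) _ _).trans
        (mul_le_mul_of_nonneg_left ?_ (Real.sqrt_nonneg _))
      have h2 := sqrt_hs_add_le hτ (y n - y' n) (y' n)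
      rw [sub_add_cancel] at h2
      linarith [hy' n]
    · exact (norm_psi_le hPhi hτ (hψ n) _ _).trans
        (mul_le_mul_of_nonneg_right (hx' n) (Real.sqrt_nonneg _))
  have h2 := h.add h1
  simpa using h2

/-- Bounded sequences converge along ultrafilters. -/
lemma exists_lim {z : ℕ → ℂ} {C : ℝ} (h : ∀ n, ‖z n‖ ≤ C) : ∃ w, Tendsto z U (𝓝 w) := by
  have hc : IsCompact (Metric.closedBall (0 : ℂ) C) := isCompact_closedBall 0 C
  obtain ⟨w, -, hw⟩ := hc.ultrafilter_le_nhds (U.map z) (by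
    rw [Filter.le_principal_iff]
    refine Filter.mem_map.2 (Filter.univ_mem' fun n => ?_)
    rw [Set.mem_preimage, mem_closedBall_zero_iff]
    exact h n)
  exact ⟨w, hw⟩

/-- Positivity test. -/
lemma nonneg_of_test (hτ : Trc τ) {T : N} (hT : star T = T)
    (h : ∀ c : N, 0 ≤ rt τ (star c * c * T)) : 0 ≤ T := by
  have hsa : IsSelfAdjoint T := hT
  have h1 : T⁺ - T⁻ = T := CFC.posPart_sub_negPart T hsa
  have h2 : T⁻ * T⁺ = 0 := CFC.negPart_mul_posPart T
  have h3 : 0 ≤ T⁻ := CFC.negPart_nonneg T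
  obtain ⟨c, hc, hcc⟩ := exists_sqrt h3
  have h4 := h c
  rw [herm_of_nonneg hc, hcc] at h4
  have h5 : T⁻ * T = -(T⁻ * T⁻) := by
    nth_rewrite 2 [← h1]
    rw [mul_sub, h2, zero_sub]
  have h6 : hs τ T⁻ = 0 := by
    refine le_antisymm ?_ (hs_nonneg hτ _)
    rw [hs_eq_rt, herm_of_nonneg h3]
    rw [h5, rt_neg] at h4
    linarith
  rw [← h1, hs_eq_zero hτ h6, sub_zero]
  exact CFC.posPart_nonneg T

end

end LimM

open LimM in
theorem pLim (hRN : StRN) (hPhi : StPhi) : StLim := by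
  intro N _ _ _ τ B _ _ _ τB U θ ψ hτ hτB hC hθ hψ
  -- boundedness
  choose D hD using hθ.bdd
  have hDs : ∀ b n, Real.sqrt (hs τ (θ n b)) ≤ D b := fun b n =>
    (sqrt_hs_le_norm hτ _).trans (hD b n)
  -- the form
  have hex : ∀ a b : B, ∃ w, Tendsto (fun n => τ (θ n a * ψ n (θ n b))) U (𝓝 w) := by
    intro a b
    refine exists_lim (C := D a * D b) fun n => ?_
    refine (norm_psi_le hPhi hτ (hψ n) _ _).trans ?_
    exact mul_le_mul (hDs a n) (hDs b n) (Real.sqrt_nonneg _)
      ((Real.sqrt_nonneg _).trans (hDs a n))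
  choose f hf using hex
  have key : ∀ (x y : ℕ → N) (a b : B), A2 U τ x (fun n => θ n a) → A2 U τ y (fun n => θ n b) →
      Tendsto (fun n => τ (x n * ψ n (y n))) U (𝓝 (f a b)) := by
    intro x y a b hx hy
    exact close hPhi hτ hψ (C := max (D a) (D b)) (fun n => (hDs a n).trans (le_max_left _ _))
      (fun n => (hDs b n).trans (le_max_right _ _)) hx hy (hf a b)
  have huniq : ∀ {g : ℕ → ℂ} {z w : ℂ}, Tendsto g U (𝓝 z) → Tendsto g U (𝓝 w) → z = w :=
    fun h h' => tendsto_nhds_unique h h'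
  -- asymptotic homomorphism
  have hstar : ∀ a, A2 U τ (fun n => star (θ n a)) (fun n => θ n (star a)) := fun a =>
    A2.symm (hθ.star a)
  have hstarmul : ∀ a b, A2 U τ (fun n => star (θ n a) * θ n b) (fun n => θ n (star a * b)) :=
    fun a b => (A2.mul_right hτ (hD b) (hstar a)).trans hτ (A2.symm (hθ.mul (star a) b))
  have hmulstar : ∀ a b, A2 U τ (fun n => θ n a * star (θ n b)) (fun n => θ n (a * star b)) :=
    fun a b => (A2.mul_left hτ (hD a) (hstar b)).trans hτ (A2.symm (hθ.mul a (star b)))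
  -- algebra of the form
  have fadd1 : ∀ a a' b, f (a + a') b = f a b + f a' b := by
    intro a a' b
    refine huniq (key _ _ _ _ (A2.symm (hθ.add a a')) (A2.refl (fun n => θ n b))) ?_
    have h := (hf a b).add (hf a' b)
    refine h.congr fun n => ?_
    rw [add_mul, map_add]
  have fsmul1 : ∀ (c : ℂ) a b, f (c • a) b = c * f a b := by
    intro c a b
    refine huniq (key _ _ _ _ (A2.symm (hθ.smul c a)) (A2.refl (fun n => θ n b))) ?_
    have h := (hf a b).const_mul c
    refine h.congr fun n => ?_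
    rw [smul_mul_assoc, map_smul, smul_eq_mul]
  have fsymm : ∀ a b, f a b = f b a := by
    intro a b
    refine huniq (hf a b) ?_
    refine (hf b a).congr fun n => ?_
    rw [← (hψ n).symm, hτ.tr]
  have fadd2 : ∀ a b b', f a (b + b') = f a b + f a b' := by
    intro a b b'
    rw [fsymm, fadd1, fsymm b, fsymm b']
  have fsmul2 : ∀ (c : ℂ) a b, f a (c • b) = c * f a b := by
    intro c a b
    rw [fsymm, fsmul1, fsymm b]
  have fstar : ∀ a b, f (star a) (star b) = (starRingEnd ℂ) (f a b) := by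
    intro a b
    refine huniq (key _ _ _ _ (hstar a) (hstar b)) ?_
    have h := (Complex.continuous_conj.tendsto _).comp (hf a b)
    refine h.congr fun n => ?_
    show (starRingEnd ℂ) (τ (θ n a * ψ n (θ n b))) = τ (star (θ n a) * ψ n (star (θ n b)))
    rw [← map_star' hτ, star_mul, hτ.tr, (hψ n).map_star]
  have fpos : ∀ a b, 0 ≤ a → 0 ≤ b → 0 ≤ f a b := by
    intro a b ha hb
    obtain ⟨c, hc, rfl⟩ := exists_sqrt ha
    obtain ⟨d, hd, rfl⟩ := exists_sqrt hb
    have h1 := hstarmul c c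
    have h2 := hstarmul d d
    rw [herm_of_nonneg hc] at h1
    rw [herm_of_nonneg hd] at h2
    refine ge_of_tendsto' (key _ _ _ _ h1 h2) fun n => ?_
    exact tau_mul_nonneg hτ (nonneg_star_mul _) ((hψ n).nonneg _ (nonneg_star_mul _))
  have f1 : ∀ a, 0 ≤ a → (f a 1).re ≤ rt τB a := by
    intro a ha
    obtain ⟨c, hc, rfl⟩ := exists_sqrt ha
    have h1 := hstarmul c c
    rw [herm_of_nonneg hc] at h1
    have h2 : A2 U τ (fun _ => (1 : N)) (fun n => θ n 1) := A2.symm hθ.one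
    have h3 := (Complex.continuous_re.tendsto _).comp (key _ _ _ _ h1 h2)
    have h4 : Tendsto (fun n => τ (star (θ n c) * θ n c)) U (𝓝 (τB (c * c))) := by
      have h5 : Tendsto (fun n => τ (star (θ n c) * θ n c) - τ (θ n (c * c))) U (𝓝 0) := by
        rw [tendsto_zero_iff_norm_tendsto_zero]
        refine squeeze_zero (fun _ => norm_nonneg _) (fun n => ?_) h1.sqrt
        rw [← map_sub]
        exact norm_tau_le hτ _
      have := h5.add (hθ.tr (c * c))
      simpa using this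
    have h5 := (Complex.continuous_re.tendsto _).comp h4
    refine le_of_tendsto_of_tendsto' h3 h5 fun n => ?_
    show (τ (star (θ n c) * θ n c * ψ n 1)).re ≤ (τ (star (θ n c) * θ n c)).re
    have := rt_mul_mono' hτ (hψ n).one (nonneg_star_mul (θ n c))
    rwa [mul_one] at this
  -- Radon-Nikodym
  have hRN1 : ∀ b, 0 ≤ b → b ≤ 1 → ∃ h : B, 0 ≤ h ∧ h ≤ 1 ∧ ∀ a, f a b = τB (a * h) := by
    intro b hb0 hb1
    obtain ⟨h, hh0, hh1, hh⟩ := hRN B τB
      { toFun := fun a => f a b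
        map_add' := fun a a' => fadd1 a a' b
        map_smul' := fun c a => by rw [fsmul1, RingHom.id_apply, smul_eq_mul] } hτB hC
      (fun a ha => fpos a b ha hb0) (fun a ha => by
        show (f a b).re ≤ rt τB a
        refine le_trans ?_ (f1 a ha)
        have h1 : f a 1 = f a b + f a (1 - b) := by rw [← fadd2, add_sub_cancel]
        have h2 := (RCLike.nonneg_iff.1 (fpos a (1 - b) ha (sub_nonneg.2 hb1))).1
        rw [h1, Complex.add_re]
        have h3 : (0 : ℝ) ≤ (f a (1 - b)).re := h2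
        linarith)
    refine ⟨h, hh0, hh1, fun a => ?_⟩
    rw [hτB.tr]
    exact hh a
  have hall : ∀ b, ∃ h : B, ∀ a, f a b = τB (a * h) := by
    have hadd : ∀ b b', (∃ h : B, ∀ a, f a b = τB (a * h)) →
        (∃ h : B, ∀ a, f a b' = τB (a * h)) → ∃ h : B, ∀ a, f a (b + b') = τB (a * h) := by
      rintro b b' ⟨h, hh⟩ ⟨h', hh'⟩
      exact ⟨h + h', fun a => by rw [fadd2, hh, hh', mul_add, map_add]⟩
    have hsmul : ∀ (c : ℂ) b, (∃ h : B, ∀ a, f a b = τB (a * h)) →
        ∃ h : B, ∀ a, f a (c • b) = τB (a * h) := by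
      rintro c b ⟨h, hh⟩
      exact ⟨c • h, fun a => by rw [fsmul2, hh, mul_smul_comm, map_smul, smul_eq_mul]⟩
    have hpos : ∀ b, 0 ≤ b → ∃ h : B, ∀ a, f a b = τB (a * h) := by
      intro b hb
      rcases eq_or_ne ‖b‖ 0 with h0 | h0
      · rw [norm_eq_zero] at h0
        subst h0
        obtain ⟨h, -, -, hh⟩ := hRN1 0 le_rfl zero_le_one
        exact ⟨h, hh⟩
      · have hn : 0 < ‖b‖ := lt_of_le_of_ne (norm_nonneg _) (Ne.symm h0)
        obtain ⟨h, -, -, hh⟩ := hRN1 (‖b‖⁻¹ • b) (smul_nonneg_real (by positivity) hb) (by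
          have h1 := smul_mono_real (inv_nonneg.2 hn.le) (le_smul_of_norm (herm_of_nonneg hb))
          rwa [smul_smul, inv_mul_cancel₀ h0, one_smul] at h1)
        have h2 := hsmul (‖b‖ : ℂ) _ ⟨h, hh⟩
        have h3 : (‖b‖ : ℂ) • (‖b‖⁻¹ • b) = b := by
          rw [Complex.coe_smul, smul_smul, mul_inv_cancel₀ h0, one_smul]
        rwa [h3] at h2
    have hsa : ∀ b, star b = b → ∃ h : B, ∀ a, f a b = τB (a * h) := by
      intro b hb
      have h1 : 0 ≤ b + ‖b‖ • (1 : B) := by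
        have := neg_smul_le_of_norm hb
        rwa [neg_le_iff_add_nonneg] at this
      have h2 := hsmul (-‖b‖ : ℂ) _ (hpos 1 zero_le_one)
      have h3 := hadd _ _ (hpos _ h1) h2
      have h4 : b + ‖b‖ • (1 : B) + (-‖b‖ : ℂ) • (1 : B) = b := by
        rw [neg_smul, Complex.coe_smul, add_neg_cancel_right]
      rwa [h4] at h3
    intro b
    have h1 := hsa (realPart b : B) (realPart b).2
    have h2 := hsmul Complex.I _ (hsa (imaginaryPart b : B) (imaginaryPart b).2)
    have h3 := hadd _ _ h1 h2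
    rwa [realPart_add_I_smul_imaginaryPart] at h3
  have hinj : ∀ h h' : B, (∀ a, τB (a * h) = τB (a * h')) → h = h' := by
    intro h h' hh
    rw [← sub_eq_zero]
    refine hτB.faith _ ?_
    rw [mul_sub, map_sub, hh, sub_self]
  choose φ₀ hφ₀ using hall
  obtain ⟨φ, hφ⟩ : ∃ φ : B →ₗ[ℂ] B, ∀ a b, f a b = τB (a * φ b) := by
    refine ⟨{ toFun := φ₀, map_add' := fun b b' => ?_, map_smul' := fun c b => ?_ },
      fun a b => hφ₀ b a⟩
    · refine hinj _ _ fun a => ?_
      rw [← hφ₀, fadd2, hφ₀, hφ₀, mul_add, map_add]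
    · refine hinj _ _ fun a => ?_
      rw [← hφ₀, fsmul2, hφ₀, RingHom.id_apply, mul_smul_comm, map_smul, smul_eq_mul]
  have hφ01 : ∀ b, 0 ≤ b → b ≤ 1 → 0 ≤ φ b ∧ φ b ≤ 1 := by
    intro b hb0 hb1
    obtain ⟨h, hh0, hh1, hh⟩ := hRN1 b hb0 hb1
    have : φ b = h := hinj _ _ fun a => by rw [← hφ, hh]
    rw [this]
    exact ⟨hh0, hh1⟩
  have hcp : ∀ (m : ℕ) (x y : Fin m → B),
      0 ≤ (∑ i, ∑ j, τB (star (x i) * x j * φ (y j * star (y i)))).re := by
    intro m x y
    simp only [← hφ]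
    have h1 : Tendsto (fun n => (∑ i, ∑ j, τ (star (θ n (x i)) * θ n (x j) *
        ψ n (θ n (y j) * star (θ n (y i))))).re) U
        (𝓝 (∑ i, ∑ j, f (star (x i) * x j) (y j * star (y i))).re) := by
      refine (Complex.continuous_re.tendsto _).comp ?_
      refine tendsto_finsetSum _ fun i _ => tendsto_finsetSum _ fun j _ => ?_
      exact key _ _ _ _ (hstarmul (x i) (x j)) (hmulstar (y j) (y i))
    exact ge_of_tendsto' h1 fun n => (hψ n).cp m (fun i => θ n (x i)) (fun i => θ n (y i))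
  have hmap_star : ∀ x, φ (star x) = star (φ x) := by
    intro x
    refine hinj _ _ fun a => ?_
    rw [← hφ, ← star_star a, fstar, hφ, ← map_star' hτB, star_mul, hτB.tr, star_star]
  refine ⟨φ, ?_, ?_, ?_, ?_⟩
  · refine ⟨hmap_star, ?_, hcp, ?_, ?_, (hφ01 1 zero_le_one le_rfl).2⟩
    · intro x hx
      rcases eq_or_ne ‖x‖ 0 with h0 | h0
      · rw [norm_eq_zero] at h0
        rw [h0, map_zero]
      · have hn : 0 < ‖x‖ := lt_of_le_of_ne (norm_nonneg _) (Ne.symm h0)
        have h2 := (hφ01 (‖x‖⁻¹ • x) (smul_nonneg_real (by positivity) hx) (by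
          have h1 := smul_mono_real (inv_nonneg.2 hn.le) (le_smul_of_norm (herm_of_nonneg hx))
          rwa [smul_smul, inv_mul_cancel₀ h0, one_smul] at h1)).1
        have h3 : φ x = ‖x‖ • φ (‖x‖⁻¹ • x) := by
          have h4 : (‖x‖ : ℂ) • (‖x‖⁻¹ • x) = x := by
            rw [Complex.coe_smul, smul_smul, mul_inv_cancel₀ h0, one_smul]
          conv_lhs => rw [← h4]
          rw [map_smul, Complex.coe_smul]
        rw [h3]
        exact smul_nonneg_real hn.le h2
    · intro x y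
      rw [hτB.tr, ← hφ, fsymm, hφ]
    · intro x
      have h1 := (Complex.continuous_re.tendsto _).comp
        (key _ _ _ _ (hstar x) (A2.refl (fun n => θ n x)))
      rw [hφ] at h1
      exact ge_of_tendsto' h1 fun n => (hψ n).pos (θ n x)
  · intro m a b
    refine nonneg_of_test hτB ?_ fun c => ?_
    · rw [star_sum]
      simp only [star_sum]
      rw [Finset.sum_comm]
      refine Finset.sum_congr rfl fun i _ => Finset.sum_congr rfl fun j _ => ?_
      rw [star_mul, star_mul, star_star, ← hmap_star, star_mul, star_star, mul_assoc]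
    · have h1 := hcp m (fun i => c * star (b i)) (fun i => star (a i))
      have h2 : star c * c * ∑ i, ∑ j, star (b i) * φ (star (a i) * a j) * b j =
          ∑ i, ∑ j, star c * c * (star (b i) * φ (star (a i) * a j) * b j) := by
        rw [Finset.mul_sum]
        exact Finset.sum_congr rfl fun i _ => Finset.mul_sum _ _ _
      unfold rt
      rw [h2, map_sum]
      simp only [map_sum]
      rw [Finset.sum_comm]
      refine h1.trans (le_of_eq ?_)
      congr 1
      refine Finset.sum_congr rfl fun i _ => Finset.sum_congr rfl fun j _ => ?_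
      rw [star_star]
      have h3 : star c * c * (star (b j) * φ (star (a j) * a i) * b i) =
          (star c * c * (star (b j) * φ (star (a j) * a i))) * b i := by noncomm_ring
      rw [h3, hτB.tr (star c * c * (star (b j) * φ (star (a j) * a i))) (b i), star_mul, star_star]
      simp only [mul_assoc]
  · intro a b
    rw [← hφ]
    exact hf a b
  · intro x y a b hx hy
    rw [← hφ]
    exact key x y a b hx hy

end Helper61.HT

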