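import Pool.Agent.Helper61.HT.LibM

/-!
# The local theorem (assembly)
-/

set_option linter.unusedSectionVars false

namespace Helper61.HT

open scoped ComplexOrder

section

variable {N : Type} [CStarAlgebra N] [PartialOrder N] [StarOrderedRing N] {τ : N →ₗ[ℂ] ℂ}
  {ι : Type}

private lemma En_mul_le (hτ : Trc τ) (S : Finset ι) (u : ι → N) {a h : N} (ha : ‖a‖ ≤ 1)
    (hh : ‖h‖ ≤ 1) : En τ S u (a * h) ≤ 2 * En τ S u a + 2 * En τ S u h := by
  unfold En
  rw [Finset.mul_sum, Finset.mul_sum, ← Finset.sum_add_distrib]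
  refine Finset.sum_le_sum fun s _ => ?_
  have h1 : u s * (a * h) - a * h * u s = (u s * a - a * u s) * h + a * (u s * h - h * u s) := by
    noncomm_ring
  rw [h1]
  refine (hs_add_le hτ _ _).trans ?_
  have h2 := hs_mul_right_le hτ (y := u s * a - a * u s) hh
  have h3 := hs_mul_left_le hτ (y := u s * h - h * u s) ha
  linarith

private lemma Cj_cut {q : N} {ψ : N →ₗ[ℂ] N} (hq : Pr q) (h : ∀ x, ψ x = q * ψ (q * x * q) * q) :
    Cj q ψ = ψ := by
  ext x
  rw [Cj_apply, hq.1, ← h x]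

/-- The cut-down element `c = q a h q` is close to `q`. -/
private lemma hs_c (hτ : Trc τ) {H q a h : N} {t : ℝ} (hH : 0 ≤ H) (hH1 : H ≤ 1) (hq : Pr q)
    (ha : ‖a‖ ≤ 1) (ht : rt τ q = t) (ht0 : 0 ≤ t) (h0 : 0 ≤ h) (h1 : h ≤ 1)
    (htr : rt τ (1 - h) ≤ t / 10 ^ 8) (ho : rt τ (q * H) ≤ 1 / 10 ^ 100 * t)
    (hya : hs τ ((1 - H) * q * (1 - H) - a) ≤ 1 / 10 ^ 100 * t) :
    t - hs τ (q * (a * h) * q) ≤ 7 / 10 ^ 4 * t := by
  have hqn := hq.norm_le
  have e1 : q - q * (a * h) * q = q * (q - a) * q + q * a * ((1 - h) * q) := by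
    have : q * q * q = q := by rw [hq.2, hq.2]
    calc q - q * (a * h) * q = q * q * q - q * (a * h) * q := by rw [this]
      _ = _ := by noncomm_ring
  have hT := Real.sqrt_nonneg t
  -- the first term
  have a1 : Real.sqrt (hs τ (q - a)) ≤ 3 / 10 ^ 50 * Real.sqrt t := by
    have b1 : q - a = (q - (1 - H) * q * (1 - H)) + ((1 - H) * q * (1 - H) - a) := by abel
    rw [b1]
    refine (sqrt_hs_add_le hτ _ _).trans ?_
    have b2 := sqrt_hs_sandwich hτ hH hH1 hq hq.nonneg le_rfl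
    have b3 : rt τ (q * H * H) ≤ 1 / 10 ^ 100 * t := by
      refine le_trans ?_ ho
      rw [mul_assoc]
      exact rt_mul_mono' hτ (le_mul_self_of_le_one hH hH1) hq.nonneg
    have b4 : Real.sqrt (rt τ (q * H * H)) ≤ 1 / 10 ^ 50 * Real.sqrt t := by
      rw [Real.sqrt_le_iff]
      refine ⟨mul_nonneg (by norm_num) hT, b3.trans (le_of_eq ?_)⟩
      rw [mul_pow, Real.sq_sqrt ht0]
      norm_num
    have b5 : Real.sqrt (hs τ ((1 - H) * q * (1 - H) - a)) ≤ 1 / 10 ^ 50 * Real.sqrt t := by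
      rw [Real.sqrt_le_iff]
      refine ⟨mul_nonneg (by norm_num) hT, hya.trans (le_of_eq ?_)⟩
      rw [mul_pow, Real.sq_sqrt ht0]
      norm_num
    linarith
  have a2 : Real.sqrt (hs τ (1 - h)) ≤ 1 / 10 ^ 4 * Real.sqrt t := by
    rw [Real.sqrt_le_iff]
    refine ⟨by positivity, (hs_le_rt hτ (sub_nonneg.2 h1) (sub_le_self _ h0)).trans
      (htr.trans (le_of_eq ?_))⟩
    rw [mul_pow, Real.sq_sqrt ht0]; ring
  have a3 : Real.sqrt (hs τ (q - q * (a * h) * q)) ≤ 2 / 10 ^ 4 * Real.sqrt t := by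
    rw [e1]
    refine (sqrt_hs_add_le hτ _ _).trans ?_
    have b1 : hs τ (q * (q - a) * q) ≤ hs τ (q - a) :=
      (hs_mul_right_le hτ hqn).trans (hs_mul_left_le hτ hqn)
    have hqa : ‖q * a‖ ≤ 1 :=
      (norm_mul_le _ _).trans (by nlinarith [norm_nonneg q, norm_nonneg a])
    have b2 : hs τ (q * a * ((1 - h) * q)) ≤ hs τ (1 - h) :=
      (hs_mul_left_le hτ hqa).trans (hs_mul_right_le hτ hqn)
    have b3 := Real.sqrt_le_sqrt b1
    have b4 := Real.sqrt_le_sqrt b2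
    nlinarith
  have a4 : Real.sqrt t ≤ Real.sqrt (hs τ (q * (a * h) * q)) + 2 / 10 ^ 4 * Real.sqrt t := by
    have b1 := sqrt_hs_add_le hτ (q * (a * h) * q) (q - q * (a * h) * q)
    have b2 : q * (a * h) * q + (q - q * (a * h) * q) = q := by abel
    rw [b2, hq.hs, ht] at b1
    linarith
  have a5 : (1 - 2 / 10 ^ 4) * Real.sqrt t ≤ Real.sqrt (hs τ (q * (a * h) * q)) := by linarith
  have a6 : ((1 - 2 / 10 ^ 4) * Real.sqrt t) ^ 2 ≤ hs τ (q * (a * h) * q) := by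
    have b1 := pow_le_pow_left₀ (by positivity) a5 2
    rwa [Real.sq_sqrt (hs_nonneg hτ _)] at b1
  rw [mul_pow, Real.sq_sqrt ht0] at a6
  nlinarith

end

theorem pLoc (hTT : StTT) (hHF : StHF) (hSI : StSI) (hCC : StCC)
    (hUL : StUL) (hD : StD) : StLoc := by
  obtain ⟨C₂, hC₂, hD⟩ := hD
  refine ⟨C₂, hC₂, fun Λ hΛ => ?_⟩
  obtain ⟨σ₁, hσ₁, hCC⟩ := hCC Λ hΛ
  have hΛ0 : 0 < Λ := lt_of_lt_of_le (by norm_num) hΛ
  have hΛ1 : 1 ≤ Λ := le_trans (by norm_num) hΛ
  set σ : ℝ := min σ₁ ((1 / 10 ^ 110 / (4 * Λ + 1001)) ^ 2) with hσdef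
  have hσ : 0 < σ := lt_min hσ₁ (by positivity)
  have hσσ₁ : σ ≤ σ₁ := min_le_left _ _
  have hσr : (4 * Λ + 1001) * Real.sqrt σ ≤ 1 / 10 ^ 110 := by
    have h1 : Real.sqrt σ ≤ 1 / 10 ^ 110 / (4 * Λ + 1001) := by
      rw [Real.sqrt_le_left (by positivity)]
      exact min_le_right _ _
    have h2 : (4 * Λ + 1001) * (1 / 10 ^ 110 / (4 * Λ + 1001)) = 1 / 10 ^ 110 := by
      field_simp
    rw [← h2]
    exact mul_le_mul_of_nonneg_left h1 (by positivity)
  have hσs : σ ≤ 1 / 10 ^ 110 := by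
    have h1 : 0 ≤ Real.sqrt σ := Real.sqrt_nonneg σ
    have h2 : Real.sqrt σ ≤ 1 / 10 ^ 110 := by nlinarith
    have h3 := Real.sq_sqrt hσ.le
    have h4 : Real.sqrt σ ≤ 1 := h2.trans (by norm_num)
    nlinarith
  refine ⟨σ, hσ, fun e ε₁ g he hε₁ hg => ?_⟩
  obtain ⟨εU, hεU, hUL⟩ := hUL g ε₁ hg hε₁
  obtain ⟨kD, e₂, he₂, hD⟩ := hD (min e (εU / 1000)) g (lt_min he (by positivity)) hg
  refine ⟨εU / 1000, by positivity, fun ε hε hεle => ?_⟩
  obtain ⟨kC, hCC⟩ := hCC ε g hε hg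
  obtain ⟨kS, hSI⟩ := hSI Λ (1 / 10 ^ 103) ε (1 / 10 ^ 103) g hΛ1 (by norm_num) (by norm_num) hε
    (by norm_num) hg
  obtain ⟨kA, hkA⟩ := exists_nat_gt (4 * (g : ℝ) / min (εU / 1000) e₂)
  refine ⟨max (max kD kC) (max kS kA), fun k hk => ?_⟩
  have hk1 : kD ≤ k := (le_max_left _ _).trans ((le_max_left _ _).trans hk)
  have hk2 : kC ≤ k := (le_max_right _ _).trans ((le_max_left _ _).trans hk)
  have hk3 : kS ≤ k := (le_max_left _ _).trans ((le_max_right _ _).trans hk)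
  have hk4 : kA ≤ k := (le_max_right _ _).trans ((le_max_right _ _).trans hk)
  intro N _ _ _ τ ι F u H q ψ m v R hτ hcpl hFg hu hH hH1 hobj hbd hqv hv hR hNM hratio hΓ hov hρ
  have hFne : F.Nonempty := Finset.card_pos.1 (by rw [hFg]; exact hg)
  have hFr : (F.card : ℝ) = g := by rw [hFg]
  have tt := hTT N τ ι F u hτ hFne hu
  obtain ⟨f1, f2, f3, f4, f5⟩ := hHF N τ ι F u hτ hFne hu
  have hq := hobj.pr
  have hqn := hq.norm_le
  set t := rt τ q with ht
  have ht0 : 0 < t := hq.rt_pos hτ hobj.ne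
  set G := 1 - H with hGdef
  have hG0 : 0 ≤ G := sub_nonneg.2 hH1
  have hG1 : G ≤ 1 := sub_le_self _ hH
  have hGn : ‖G‖ ≤ 1 := norm_le_one_of_nonneg hG0 hG1
  set y := G * q * G with hy
  have hy0 : 0 ≤ y := sandwich_nonneg hH hq.nonneg
  have hy1 : y ≤ 1 := sandwich_le_one hH hH1 hq.le_one
  set a := (TT F u ^ k) y with ha
  have ha0 : 0 ≤ a := tt.nonneg k y hy0
  have ha1 : a ≤ 1 := by
    have := tt.nonneg k _ (sub_nonneg.2 hy1)
    rw [map_sub, tt.one] at this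
    exact sub_nonneg.1 this
  have han : ‖a‖ ≤ 1 := norm_le_one_of_nonneg ha0 ha1
  have hEa : En τ F u a ≤ min (εU / 1000) e₂ * t := by
    have h1 := tt.en_pow k y
    have h2 : hs τ y ≤ t := hs_sandwich_le hτ hH hH1 hq.nonneg hq.le_one
    have hmin : 0 < min (εU / 1000) e₂ := lt_min (by positivity) he₂
    rw [div_lt_iff₀ hmin] at hkA
    have h3 : (kA : ℝ) ≤ k := by exact_mod_cast hk4
    refine h1.trans ?_
    rw [div_le_iff₀ (by positivity), hFr]
    have h4 : 4 * (g : ℝ) * hs τ y ≤ 4 * g * t := mul_le_mul_of_nonneg_left h2 (by positivity)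
    have h5 : 4 * (g : ℝ) ≤ (2 * k + 1) * min (εU / 1000) e₂ := by
      have : (kA : ℝ) * min (εU / 1000) e₂ ≤ (2 * k + 1) * min (εU / 1000) e₂ :=
        mul_le_mul_of_nonneg_right (by linarith [(Nat.cast_nonneg k : (0 : ℝ) ≤ k)]) hmin.le
      linarith
    have h6 := mul_le_mul_of_nonneg_right h5 ht0.le
    linarith
  have ho0 : 0 ≤ rt τ (q * H) := rt_mul_nonneg hτ hq.nonneg hH
  have ho : rt τ (q * H) ≤ 1 / 10 ^ 100 * t := by
    have h1 : (10 : ℝ) ^ 10 * rt τ (q * H) ≤ Λ * rt τ (q * H) :=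
      mul_le_mul_of_nonneg_right hΛ ho0
    have h2 : (10 : ℝ) ^ 10 * rt τ (q * H) ≤ 1 / 10 ^ 90 * t := h1.trans hov
    linarith
  -- the element `h`
  obtain ⟨h, h0, h1, htr, hEh, hD'⟩ := hD k hk1 N τ ι F u m v G t hτ hFg hu hG0 hG1 ht0 hv hbd.2
  have hhn : ‖h‖ ≤ 1 := norm_le_one_of_nonneg h0 h1
  have hahn : ‖a * h‖ ≤ 1 :=
    (norm_mul_le _ _).trans (by nlinarith [norm_nonneg a, norm_nonneg h])
  have hdef : 1000 * (t - rt τ (ψ 1)) ≤ t := by
    unfold Gam at hΓ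
    have := mul_nonneg hΛ0.le ho0
    linarith
  have hEq : En τ F u q ≤ εU / 1000 * t :=
    hobj.enq.trans (mul_le_mul_of_nonneg_right hεle ht0.le)
  have hEψ : EnM τ F u ψ ≤ εU / 1000 * t :=
    hobj.enm.trans (mul_le_mul_of_nonneg_right hεle ht0.le)
  have hεt : 0 < εU * t := by positivity
  -- first application of the unitality lemma
  obtain ⟨p₀, φ₀, a1, a2, a3, a4, a5, a6, a7, a8, a9, a10⟩ := hUL N τ ι F u q q ψ hτ hcpl hFg hu
    hq hobj.scp hobj.cut hobj.one hdef (by rw [hq.2, hq.2]) hqn (by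
      rw [hq.hs, sub_self]; positivity) (by linarith) (by linarith) (by linarith)
  -- second application
  set c := q * (a * h) * q with hc
  have hcn : ‖c‖ ≤ 1 := by
    refine (norm_mul_le _ _).trans ?_
    have := norm_mul_le q (a * h)
    nlinarith [norm_nonneg q, norm_nonneg (a * h), norm_nonneg (q * (a * h))]
  have hqc : q * c * q = c := by
    rw [hc]
    calc q * (q * (a * h) * q) * q = (q * q) * (a * h) * (q * q) := by noncomm_ring
      _ = _ := by rw [hq.2]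
  have hcn' : En τ F u c ≤ εU * t := by
    have b1 := En_compress_le hτ F u hqn hahn
    have b2 := En_mul_le hτ F u han hhn
    have b3 : En τ F u a ≤ εU / 1000 * t :=
      hEa.trans (mul_le_mul_of_nonneg_right (min_le_left _ _) ht0.le)
    have b4 : En τ F u h ≤ εU / 1000 * t :=
      hEh.trans (mul_le_mul_of_nonneg_right (min_le_right _ _) ht0.le)
    linarith
  have hya : hs τ (y - a) ≤ 1 / 10 ^ 100 * t := by
    refine (tt.gap k y).trans (hρ.trans (mul_le_mul_of_nonneg_right (hσs.trans ?_) ht0.le))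
    norm_num
  obtain ⟨p₁, φ₁, b1, b2, b3, b4, b5, b6, b7, b8, b9, b10⟩ := hUL N τ ι F u q c ψ hτ hcpl hFg hu
    hq hobj.scp hobj.cut hobj.one hdef hqc hcn
    (hs_c hτ hH hH1 hq han ht.symm ht0.le h0 h1 htr ho hya) (by linarith) (by linarith) hcn'
  refine ⟨![p₀, p₁], ![φ₀, φ₁], ?_, ?_⟩
  · intro b
    fin_cases b
    · exact ⟨a1, a2, a3, a5, a9, a8⟩
    · exact ⟨b1, b2, b3, b5, b9, b8⟩
  intro hgap hgapψ
  have hσt : σ * t ≤ σ₁ * t := mul_le_mul_of_nonneg_right hσσ₁ ht0.le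
  have hpH : ∀ p : N, Pr p → p ≤ q → Λ * rt τ (p * H) ≤ 1 / 100 * t := by
    intro p hp hpq
    have c1 := rt_mul_mono hτ hpq hH
    have c2 := mul_le_mul_of_nonneg_left c1 hΛ0.le
    have c3 : (1 : ℝ) / 10 ^ 90 * t ≤ 1 / 100 * t := mul_le_mul_of_nonneg_right (by norm_num) ht0.le
    linarith
  have hg0 := hgap 0
  have hg1 := hgap 1
  -- the competitors
  obtain ⟨P₀, Φ₀, c1, c2, c3⟩ := hCC k hk2 N τ ι F u H p₀ φ₀ t hτ hcpl hFg hu hH hH1 a1 a3 a4 a5
    ht0 a6 (rt_mono hτ a2) a7 (hpH p₀ a1 a2) (hg0.1.trans hσt) (hg0.2.trans hσt)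
  obtain ⟨P₁, Φ₁, d1, d2, d3⟩ := hCC k hk2 N τ ι F u H p₁ φ₁ t hτ hcpl hFg hu hH hH1 b1 b3 b4 b5
    ht0 b6 (rt_mono hτ b2) b7 (hpH p₁ b1 b2) (hg1.1.trans hσt) (hg1.2.trans hσt)
  have haa : 0 < aa := by unfold aa; positivity
  -- lower bound of the cost
  have hB : t / 2 ≤ R * (10 ^ 44 * hsf τ v) := by
    obtain ⟨m', w, e1, e2⟩ := a10 m v (by
      intro x
      rw [Cj_cut hq hobj.cut]
      have := hbd.1 x
      have h3 := mul_nonneg haa.le (hs_nonneg hτ x)
      linarith)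
    obtain ⟨m'', w', e3, e4⟩ := c3 m' w e1
    have e5 := hNM P₀ Φ₀ c1 m'' w' e3
    have e6 : R * hsf τ w' ≤ R * (10 ^ 44 * hsf τ v) :=
      mul_le_mul_of_nonneg_left (e4.trans e2) hR.le
    linarith
  have hNS : ∀ (m' : ℕ) (E : Fin m' → N),
      (∀ x, dfm τ (fun j => a * h * v j) x ≤ aa * hs τ x + dfm τ E x) →
      1 / (3 * 10 ^ 44) * hsf τ v ≤ hsf τ E := by
    intro m' E hE
    have hcs : ‖star c‖ ≤ 1 := by rw [norm_star]; exact hcn
    obtain ⟨m'', w, e1, e2⟩ := b10 m' (fun j => q * E j * star c) (by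
      intro x
      have g1 := (f3 m v c ψ hcn hbd).1 x
      have g2 : dfm τ (fun j => c * v j * star c) x =
          dfm τ (fun j => a * h * v j) (q * x * c) := by
        have k1 : (fun j => c * v j * star c) = fun j => q * (a * h * v j) * star c := by
          funext j
          rw [hc]
          calc q * (a * h) * q * v j * star (q * (a * h) * q)
              = q * (a * h) * (q * v j) * star (q * (a * h) * q) := by noncomm_ring
            _ = _ := by
              have : q * v j = v j := by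
                rw [← hqv j]
                calc q * (q * v j * q) = (q * q) * v j * q := by noncomm_ring
                  _ = _ := by rw [hq.2]
              rw [this]; noncomm_ring
        rw [k1, (f2 m (fun j => a * h * v j) q (star c) hqn hcs).2 x, hq.1, star_star]
      have g3 := hE (q * x * c)
      have g4 : hs τ (q * x * c) ≤ hs τ x :=
        (hs_mul_right_le hτ hcn).trans (hs_mul_left_le hτ hqn)
      have g5 : dfm τ (fun j => q * E j * star c) x = dfm τ E (q * x * c) := by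
        rw [(f2 m' E q (star c) hqn hcs).2 x, hq.1, star_star]
      rw [g5]
      rw [g2] at g1
      have g6 := mul_le_mul_of_nonneg_left g4 haa.le
      linarith)
    have e2' := (f2 m' E q (star c) hqn hcs).1
    obtain ⟨m3, w', e3, e4⟩ := d3 m'' w e1
    have e5 := hNM P₁ Φ₁ d1 m3 w' e3
    have e6 : R * hsf τ w' ≤ R * (10 ^ 44 * hsf τ E) :=
      mul_le_mul_of_nonneg_left (e4.trans (e2.trans
        (mul_le_mul_of_nonneg_left e2' (by norm_num)))) hR.le
    have e7 : t / 2 ≤ R * (10 ^ 44 * hsf τ E) := by linarith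
    have e8 : (1 - 1 / 10 ^ 47) * R * hsf τ v ≤ t := by
      refine hratio.trans ?_
      unfold Gam
      have g1 := rt_mono hτ hobj.one
      have g2 := mul_nonneg hΛ0.le ho0
      linarith
    have e9 : R * ((1 - 1 / 10 ^ 47) * hsf τ v) ≤ R * (2 * (10 ^ 44 * hsf τ E)) := by
      linarith
    have e10 := le_of_mul_le_mul_left e9 hR
    have e11 : 0 ≤ hsf τ v := hv.le
    linarith
  -- the stage inequality
  have hS := hSI k hk3 N τ ι F u H q ψ m v R hτ hcpl hFg hu hH hH1 hobj hbd hR.le hNM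
  have hb0 : 0 ≤ Λ * rt τ (q * H * H) := by
    refine mul_nonneg hΛ0.le ?_
    rw [mul_assoc]
    refine rt_mul_nonneg hτ hq.nonneg ?_
    have := nonneg_star_mul H
    rwa [herm_of_nonneg hH] at this
  have havh : (1 - 1 / 10 ^ 46) * hsf τ v ≤ avh τ F u k (fun j => G * v j) := by
    have g1 : Real.sqrt ((hs τ y - hs τ a) * t) ≤ Real.sqrt σ * t := by
      rw [Real.sqrt_le_iff]
      refine ⟨by positivity, ?_⟩
      rw [mul_pow, Real.sq_sqrt hσ.le]
      nlinarith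
    have g2 : (4 * Λ + 1001) * Real.sqrt ((hs τ y - hs τ a) * t) ≤ 1 / 10 ^ 110 * t := by
      calc _ ≤ (4 * Λ + 1001) * (Real.sqrt σ * t) := mul_le_mul_of_nonneg_left g1 (by positivity)
        _ = (4 * Λ + 1001) * Real.sqrt σ * t := by ring
        _ ≤ _ := mul_le_mul_of_nonneg_right hσr ht0.le
    have g3 : gap τ F u k (Cj G ψ) ≤ 1 / 10 ^ 110 * t :=
      hgapψ.trans (mul_le_mul_of_nonneg_right hσs ht0.le)
    have g4 : (1 - 1 / 10 ^ 47) * R * hsf τ v ≤
        R * avh τ F u k (fun j => G * v j) + 3 / 10 ^ 96 * t := by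
      refine hratio.trans ?_
      linarith
    have g5 : R * ((1 - 1 / 10 ^ 46) * hsf τ v) ≤ R * avh τ F u k (fun j => G * v j) := by
      have g6 : 0 ≤ R * hsf τ v := by positivity
      linarith
    exact le_of_mul_le_mul_left g5 hR
  obtain ⟨d, w, w1, w2, w3, w4⟩ := hD' a ha0 ha1
    (hEa.trans (mul_le_mul_of_nonneg_right (min_le_right _ _) ht0.le)) havh hNS
  exact ⟨d, w, w1, w2, w3, w4.trans (mul_le_mul_of_nonneg_right (min_le_left _ _)
    (Nat.cast_nonneg d))⟩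

end Helper61.HT
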