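import Pool.Agent.Helper61.HT.StA
import Pool.Agent.Helper61.HT.LibN

/-!
# HT module Ly: the Lyapunov function
-/

namespace Helper61.HT

open scoped ComplexOrder

section Ly

variable {N : Type} [CStarAlgebra N] [PartialOrder N] [StarOrderedRing N] {τ : N →ₗ[ℂ] ℂ}

/-! ## second order estimate for the resolvent -/

private lemma y_GG_y {y : N} (hy : 0 ≤ y) (hy1 : y ≤ 1) :
    y * GG y * y ≤ (1 / 2 : ℝ) • y := by
  have hg1 := GG_mul hy
  have hg2 := mul_GG hy
  have hyh := herm_of_nonneg hy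
  have e1 : y * GG y = 1 - GG y := by
    have : (1 + y) * GG y = GG y + y * GG y := by rw [add_mul, one_mul]
    rw [this] at hg2
    exact eq_sub_of_add_eq' hg2
  have e2 : GG y * y = 1 - GG y := by
    have : GG y * (1 + y) = GG y + GG y * y := by rw [mul_add, mul_one]
    rw [this] at hg1
    exact eq_sub_of_add_eq' hg1
  have e3 : y * GG y * y = y - (1 - GG y) := by
    rw [e1, sub_mul, one_mul, e2]
  have e4 : (1 + y) * (1 - (1 / 2 : ℝ) • y - GG y) * (1 + y) = (1 / 2 : ℝ) • (y - y * y * y) := by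
    have : (1 + y) * (1 - (1 / 2 : ℝ) • y - GG y) * (1 + y) =
        (1 + y) * (1 - (1 / 2 : ℝ) • y) * (1 + y) - ((1 + y) * GG y) * (1 + y) := by
      noncomm_ring
    rw [this, hg2, one_mul]
    simp only [mul_add, add_mul, mul_sub, sub_mul, mul_one, one_mul, smul_mul_assoc,
      mul_smul_comm]
    module
  have e5 : 1 - (1 / 2 : ℝ) • y - GG y =
      GG y * ((1 / 2 : ℝ) • (y - y * y * y)) * star (GG y) := by
    rw [GG_herm hy, ← e4]
    calc 1 - (1 / 2 : ℝ) • y - GG y = (GG y * (1 + y)) * (1 - (1 / 2 : ℝ) • y - GG y) *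
          ((1 + y) * GG y) := by rw [hg1, hg2, one_mul, mul_one]
      _ = _ := by simp only [mul_assoc]
  have h6 : y * y * y ≤ y := by
    have h7 := conj_mono hy1 y
    rw [hyh, mul_one] at h7
    exact h7.trans (le_mul_self_of_le_one hy hy1)
  have h8 : 0 ≤ 1 - (1 / 2 : ℝ) • y - GG y := by
    rw [e5]
    exact conj_nonneg (smul_nonneg_real (by norm_num) (sub_nonneg.2 h6)) _
  have e9 : (1 / 2 : ℝ) • y - y * GG y * y = 1 - (1 / 2 : ℝ) • y - GG y := by
    rw [e3]
    module
  rw [← sub_nonneg, e9]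
  exact h8

private lemma g2half {S y : N} (hS : 0 ≤ S) (hy : 0 ≤ y) (hy1 : y ≤ 1) :
    (1 / 2 : ℝ) • (GG S * y * GG S) ≤ GG S - GG (S + y) := by
  have hSy : 0 ≤ S + y := add_nonneg hS hy
  have h1 : GG S - GG (S + y) = GG S * y * GG (S + y) := by
    have := GG_sub hS hSy
    rwa [add_sub_cancel_left] at this
  have h2 : GG S - GG (S + y) = GG (S + y) * y * GG S := by
    have := GG_sub hSy hS
    rw [← neg_sub (GG (S + y)), this]
    have e : S - (S + y) = -y := by abel
    rw [e]; noncomm_ring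
  have h3 : GG (S + y) = GG S - GG (S + y) * y * GG S := by
    rw [← h2]; abel
  have h4 : GG S - GG (S + y) = GG S * y * GG S - GG S * (y * GG (S + y) * y) * GG S := by
    calc GG S - GG (S + y) = GG S * y * GG (S + y) := h1
      _ = GG S * y * (GG S - GG (S + y) * y * GG S) := by rw [← h3]
      _ = _ := by noncomm_ring
  have hG := GG_herm hS
  have hyh := herm_of_nonneg hy
  have h5 : y * GG (S + y) * y ≤ (1 / 2 : ℝ) • y := by
    have h6 := conj_mono (GG_anti hy (le_add_of_nonneg_left hS : y ≤ S + y)) y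
    rw [hyh] at h6
    exact h6.trans (y_GG_y hy hy1)
  have h7 := conj_mono h5 (GG S)
  rw [hG] at h7
  rw [h4]
  have e : (1 / 2 : ℝ) • (GG S * y * GG S) = GG S * y * GG S - GG S * ((1 / 2 : ℝ) • y) * GG S := by
    rw [mul_smul_comm, smul_mul_assoc]
    module
  rw [e]
  exact sub_le_sub_left h7 _

/-! ## the Lyapunov function -/

private lemma dG1 {A B : N} (hA : 0 ≤ A) (hB : 0 ≤ B) :
    GG B - GG A = GG B * (A - B) * GG A := GG_sub hB hA

private lemma dG2 {A B : N} (hA : 0 ≤ A) (hB : 0 ≤ B) :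
    GG B - GG A = GG A * (A - B) * GG B := by
  rw [← neg_sub (GG A), GG_sub hA hB, ← neg_sub A B]
  noncomm_ring

private lemma Ly_eq {A B : N} (hA : 0 ≤ A) (hB : 0 ≤ B) :
    Ly τ A B = rt τ ((A - B) * GG A * (A - B) * GG B) := by
  unfold Ly
  rw [dG2 hA hB]
  simp only [mul_assoc]

private lemma norm_half_le {P g : N} (hP : 0 ≤ P) (hPP : P * P = g) (hg : ‖g‖ ≤ 1) :
    ‖P‖ ≤ 1 := by
  have h1 := CStarRing.norm_star_mul_self (x := P)
  rw [herm_of_nonneg hP, hPP] at h1
  nlinarith [norm_nonneg P]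

private lemma sandwich {P g B : N} (hPP : P * P = g) (h : g * (1 + B) = 1)
    (h' : (1 + B) * g = 1) : P * (1 + B) * P = 1 := by
  have hr : P * (P * (1 + B)) = 1 := by rw [← mul_assoc, hPP, h]
  have hl : (1 + B) * P * P = 1 := by rw [mul_assoc, hPP, h']
  have he : P * (1 + B) = (1 + B) * P := by
    calc P * (1 + B) = ((1 + B) * P * P) * (P * (1 + B)) := by rw [hl, one_mul]
      _ = (1 + B) * P * (P * (P * (1 + B))) := by noncomm_ring
      _ = (1 + B) * P := by rw [hr, mul_one]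
  rw [he, hl]

private lemma norm_mul_half_le {P Q g A B : N} {C : ℝ} (hC : 0 ≤ C) (hP : 0 ≤ P)
    (hQ : 0 ≤ Q) (hQQ : Q * Q = 1 + A)
    (hPP : P * P = g) (h : g * (1 + B) = 1) (h' : (1 + B) * g = 1)
    (hAB : 1 + A ≤ C • (1 + B)) :
    ‖P * Q‖ ≤ Real.sqrt C := by
  have h1 := CStarRing.norm_self_mul_star (x := P * Q)
  rw [star_mul, herm_of_nonneg hP, herm_of_nonneg hQ] at h1
  have h2 : P * Q * (Q * P) = P * (1 + A) * P := by
    rw [← hQQ]; noncomm_ring
  have h3 := conj_mono hAB P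
  rw [herm_of_nonneg hP, mul_smul_comm, smul_mul_assoc, sandwich hPP h h', ← h2] at h3
  have h4 : 0 ≤ P * Q * (Q * P) := by
    have := nonneg_mul_star (P * Q)
    rwa [star_mul, herm_of_nonneg hP, herm_of_nonneg hQ] at this
  have h5 := norm_le_of_nonneg hC h4 h3
  rw [h1] at h5
  apply Real.le_sqrt_of_sq_le
  rw [pow_two]
  exact h5

private lemma sandwich_norm {A B B' : N} {C : ℝ} (hA : 0 ≤ A) (hB : 0 ≤ B)
    (hB' : 0 ≤ B') (hC : 0 ≤ C) (h1 : 1 + A ≤ C • (1 + B)) (h2 : 1 + A ≤ C • (1 + B')) :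
    ‖GG B * (1 + A) * GG B'‖ ≤ C := by
  obtain ⟨P, hP, hPP⟩ := exists_sqrt (GG_nonneg hB)
  obtain ⟨R, hR, hRR⟩ := exists_sqrt (GG_nonneg hB')
  obtain ⟨Q, hQ, hQQ⟩ := exists_sqrt (add_nonneg zero_le_one hA : (0 : N) ≤ 1 + A)
  have e : GG B * (1 + A) * GG B' = P * (P * Q) * ((Q * R) * R) := by
    rw [← hPP, ← hRR, ← hQQ]; noncomm_ring
  have n1 := norm_half_le hP hPP (norm_GG_le hB)
  have n2 := norm_half_le hR hRR (norm_GG_le hB')
  have n3 := norm_mul_half_le hC hP hQ hQQ hPP (GG_mul hB) (mul_GG hB) h1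
  have n4 := norm_mul_half_le hC hR hQ hQQ hRR (GG_mul hB') (mul_GG hB') h2
  have n5 : ‖Q * R‖ ≤ Real.sqrt C := by
    have : ‖Q * R‖ = ‖R * Q‖ := by
      rw [← norm_star (Q * R), star_mul, herm_of_nonneg hR, herm_of_nonneg hQ]
    rw [this]; exact n4
  have hs := Real.sqrt_nonneg C
  have m1 : ‖P * (P * Q)‖ ≤ Real.sqrt C :=
    (norm_mul_le _ _).trans (by nlinarith [norm_nonneg P, norm_nonneg (P * Q)])
  have m2 : ‖(Q * R) * R‖ ≤ Real.sqrt C :=
    (norm_mul_le _ _).trans (by nlinarith [norm_nonneg R, norm_nonneg (Q * R)])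
  rw [e]
  refine (norm_mul_le _ _).trans ?_
  calc ‖P * (P * Q)‖ * ‖(Q * R) * R‖ ≤ Real.sqrt C * Real.sqrt C :=
        mul_le_mul m1 m2 (norm_nonneg _) hs
    _ = C := Real.mul_self_sqrt hC

theorem pLy : StLy := by
  intro N _ _ _ τ A B hτ hA hB
  have hWh : star (A - B) = A - B := by
    rw [star_sub, herm_of_nonneg hA, herm_of_nonneg hB]
  refine ⟨?_, ?_, ?_⟩
  · rw [Ly_eq hA hB]
    refine rt_mul_nonneg hτ ?_ (GG_nonneg hB)
    have := conj_nonneg (GG_nonneg hA) (A - B)
    rwa [hWh] at this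
  · intro y hy hy1
    have hAy : 0 ≤ A + y := add_nonneg hA hy
    have hBy : 0 ≤ B + y := add_nonneg hB hy
    have hA1 := g2half hA hy hy1
    have hB1 := g2half hB hy hy1
    rw [Ly_eq hA hB, Ly_eq hAy hBy, add_sub_add_right_eq_sub]
    obtain ⟨W, hW⟩ : ∃ W, W = A - B := ⟨_, rfl⟩
    rw [← hW] at hWh ⊢
    -- second term
    have hBn : 0 ≤ GG B - GG (B + y) := by
      refine le_trans ?_ hB1
      have := conj_nonneg hy (GG B)
      rw [GG_herm hB] at this
      exact smul_nonneg_real (by norm_num) this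
    have t2 : 0 ≤ rt τ (W * GG (A + y) * W * (GG B - GG (B + y))) := by
      refine rt_mul_nonneg hτ ?_ hBn
      have := conj_nonneg (GG_nonneg hAy) W
      rwa [hWh] at this
    -- first term
    have t1 : rt τ (W * ((1 / 2 : ℝ) • (GG A * y * GG A)) * W * GG B) ≤
        rt τ (W * (GG A - GG (A + y)) * W * GG B) := by
      refine rt_mul_mono hτ ?_ (GG_nonneg hB)
      have := conj_mono hA1 W
      rwa [hWh] at this
    have t3 : rt τ (W * ((1 / 2 : ℝ) • (GG A * y * GG A)) * W * GG B) =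
        1 / 2 * rt τ (y * (GG A * W * GG B * W * GG A)) := by
      rw [mul_smul_comm, smul_mul_assoc, smul_mul_assoc, rt_smul]
      congr 1
      calc rt τ (W * (GG A * y * GG A) * W * GG B)
          = rt τ ((W * GG A) * (y * (GG A * W * GG B))) := by
            congr 1; noncomm_ring
        _ = rt τ (y * (GG A * W * GG B) * (W * GG A)) := rt_mul_comm hτ _ _
        _ = _ := by congr 1; noncomm_ring
    -- `Δ (1 + B) Δ ≥ Δ Δ`
    have hΔh : star (GG B - GG A) = GG B - GG A := by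
      rw [star_sub, GG_herm hA, GG_herm hB]
    have e1 : GG A * W * GG B * W * GG A = (GG B - GG A) * (1 + B) * (GG B - GG A) := by
      have h1 : (1 + B) * (GG B - GG A) = W * GG A := by
        rw [dG1 hA hB, ← mul_assoc, ← mul_assoc, mul_GG hB, one_mul, hW]
      rw [mul_assoc (GG B - GG A), h1, dG2 hA hB, ← hW]
      simp only [mul_assoc]
    have e2 : (GG B - GG A) * (GG B - GG A) ≤ (GG B - GG A) * (1 + B) * (GG B - GG A) := by
      have := conj_mono (le_add_of_nonneg_right hB : (1 : N) ≤ 1 + B) (GG B - GG A)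
      rwa [hΔh, mul_one] at this
    have t4 : rt τ (y * (GG B - GG A) * (GG B - GG A)) ≤
        rt τ (y * (GG A * W * GG B * W * GG A)) := by
      rw [e1, mul_assoc y]
      exact rt_mul_mono' hτ e2 hy
    have t5 : rt τ (W * GG A * W * GG B) - rt τ (W * GG (A + y) * W * GG (B + y)) =
        rt τ (W * (GG A - GG (A + y)) * W * GG B) +
          rt τ (W * GG (A + y) * W * (GG B - GG (B + y))) := by
      rw [← rt_sub, ← rt_add]
      congr 1
      noncomm_ring
    linarith
  · intro B' C M hB' hC h1 h2 hM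
    have hM0 : 0 ≤ M := by
      have := hM 0 (by simp)
      exact (abs_nonneg _).trans this
    -- second term
    have hΔh : star (GG B - GG A) = GG B - GG A := by
      rw [star_sub, GG_herm hA, GG_herm hB]
    have hΔn : ‖GG B - GG A‖ ≤ 1 := by
      refine norm_le_of_le zero_le_one hΔh ?_ ?_
      · rw [one_smul]
        exact (sub_le_self _ (GG_nonneg hA)).trans (GG_le_one hB)
      · rw [one_smul, neg_le_sub_iff_le_add]
        exact (GG_le_one hA).trans (le_add_of_nonneg_left (GG_nonneg hB))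
    have s2 := hM _ hΔn
    -- first term
    obtain ⟨X, hX⟩ : ∃ X, X = GG B * (A - B') * GG B' := ⟨_, rfl⟩
    have hXn : ‖X‖ ≤ C + 1 := by
      have e : X = GG B * (1 + A) * GG B' - GG B := by
        rw [hX]
        calc GG B * (A - B') * GG B' = GG B * (1 + A) * GG B' - GG B * ((1 + B') * GG B') := by
              noncomm_ring
          _ = _ := by rw [mul_GG hB', mul_one]
      rw [e]
      exact (norm_sub_le _ _).trans (add_le_add (sandwich_norm hA hB hB' hC h1 h2)
        (norm_GG_le hB))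
    have hC1 : 0 < C + 1 := by linarith
    have s1 : |rt τ (X * (B' - B))| ≤ (C + 1) * M := by
      have h3 := hM ((C + 1)⁻¹ • X) (by
        rw [norm_smul, norm_inv, Real.norm_of_nonneg hC1.le, inv_mul_le_iff₀ hC1, mul_one]
        exact hXn)
      rw [smul_mul_assoc, rt_smul, abs_mul, abs_of_pos (inv_pos.2 hC1), inv_mul_le_iff₀ hC1] at h3
      exact h3
    have e1 : Ly τ A B' - Ly τ A B
        = - rt τ (X * (B' - B)) - rt τ ((GG B - GG A) * (B' - B)) := by
      have e2 : rt τ (X * (B' - B)) = rt τ ((A - B') * (GG B' * (B' - B) * GG B)) := by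
        rw [hX]
        calc rt τ (GG B * (A - B') * GG B' * (B' - B)) =
              rt τ (GG B * ((A - B') * (GG B' * (B' - B)))) := by congr 1; noncomm_ring
          _ = rt τ ((A - B') * (GG B' * (B' - B)) * GG B) := rt_mul_comm hτ _ _
          _ = _ := by congr 1; noncomm_ring
      have e3 : GG B' * (B' - B) * GG B = GG B - GG B' := by
        rw [← neg_sub (GG B') (GG B), GG_sub hB' hB, ← neg_sub B' B]; noncomm_ring
      rw [e2, e3, rt_mul_comm hτ (GG B - GG A) (B' - B)]
      unfold Ly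
      rw [← rt_sub, ← rt_neg, ← rt_sub]
      congr 1
      noncomm_ring
    have a1 := neg_abs_le (rt τ (X * (B' - B)))
    have a2 := neg_abs_le (rt τ ((GG B - GG A) * (B' - B)))
    linarith

end Ly

end Helper61.HT
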