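import Pool.Agent.Helper61.HT.StE
import Pool.Agent.Helper61.HT.LibN

/-!
# Module MU: matrix units containing a projection
-/

set_option autoImplicit false
set_option linter.unusedSectionVars false

namespace Helper61.HT

open scoped ComplexOrder

section

variable {N : Type} [CStarAlgebra N] [PartialOrder N] [StarOrderedRing N] {τ : N →ₗ[ℂ] ℂ}

private lemma mu_zero (hτ : Trc τ) {x : N} (hx : 0 ≤ x) (h : rt τ x = 0) : x = 0 := by
  obtain ⟨y, hy, rfl⟩ := exists_sqrt hx
  have h1 : hs τ y = 0 := by rw [hs_eq_rt, herm_of_nonneg hy, h]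
  rw [hs_eq_zero hτ h1, mul_zero]

private lemma mu_le {p e : N} (hp : Pr p) (he : Pr e) (h : e ≤ p) : e * p = e ∧ p * e = e :=
  hp.absorb he.nonneg h

/-- Cutting a projection of trace `n / L` into `n` pieces of trace `1 / L`. -/
private lemma mu_cut (hD : StDiv) (hτ : II1 τ) (L : ℕ) (hL : 0 < L) : ∀ (n : ℕ) (p : N), Pr p →
    rt τ p = n / L → ∃ e : Fin n → N, (∀ a, Pr (e a)) ∧ (∀ a, rt τ (e a) = 1 / L) ∧
      (∀ a b, a ≠ b → e a * e b = 0) ∧ ∑ a, e a = p := by
  intro n
  have hL' : (0 : ℝ) < L := by exact_mod_cast hL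
  induction n with
  | zero =>
    intro p hp h
    refine ⟨Fin.elim0, fun a => a.elim0, fun a => a.elim0, fun a => a.elim0, ?_⟩
    have : p = 0 := mu_zero hτ.trc hp.nonneg (by rw [h]; simp)
    rw [this]; simp
  | succ n ih =>
    intro p hp h
    obtain ⟨e, he, hep, het⟩ := hD N τ hτ p hp (1 / L) (by positivity) (by
      rw [h]
      refine div_le_div_of_nonneg_right ?_ hL'.le
      push_cast
      have : (0 : ℝ) ≤ n := Nat.cast_nonneg n
      linarith)
    have hpe := mu_le hp he hep
    have hq : Pr (p - e) := hp.sub he hpe.2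
    obtain ⟨f, hf, hft, hfo, hfs⟩ := ih (p - e) hq (by
      rw [rt_sub, h, het]
      push_cast
      ring)
    have hle : ∀ a, f a ≤ p - e := fun a => by
      rw [← hfs]
      exact Finset.single_le_sum (f := f) (fun b _ => (hf b).nonneg) (Finset.mem_univ a)
    have hfe : ∀ a, f a * e = 0 := fun a => by
      have h1 := (mu_le hq (hf a) (hle a)).1
      calc f a * e = f a * (p - e) * e := by rw [h1]
        _ = f a * (p * e - e * e) := by rw [mul_assoc, sub_mul]
        _ = 0 := by rw [hpe.2, he.2, sub_self, mul_zero]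
    have hef : ∀ a, e * f a = 0 := fun a => by
      have := congrArg star (hfe a)
      rwa [star_mul, star_zero, he.1, (hf a).1] at this
    refine ⟨Fin.cons e f, ?_, ?_, ?_, ?_⟩
    · intro a
      refine Fin.cases ?_ (fun b => ?_) a
      · simpa using he
      · simpa using hf b
    · intro a
      refine Fin.cases ?_ (fun b => ?_) a
      · simpa using het
      · simpa using hft b
    · intro a b hab
      induction a using Fin.cases with
      | zero =>
        induction b using Fin.cases with
        | zero => exact absurd rfl hab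
        | succ b => simpa using hef b
      | succ a =>
        induction b using Fin.cases with
        | zero => simpa using hfe a
        | succ b =>
          have : a ≠ b := fun h => hab (by rw [h])
          simpa using hfo a b this
    · rw [Fin.sum_univ_succ]
      simp only [Fin.cons_zero, Fin.cons_succ]
      rw [hfs]; abel

end

theorem pMU (hC : StCmp) (hD : StDiv) : StMU := by
  intro N _ _ _ τ hτ L j hL hj p hp hpt
  have hL' : (0 : ℝ) < L := by exact_mod_cast hL
  obtain ⟨k, rfl⟩ := Nat.exists_eq_add_of_le hj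
  obtain ⟨e₁, he₁, ht₁, ho₁, hs₁⟩ := mu_cut hD hτ (j + k) hL j p hp hpt
  obtain ⟨e₂, he₂, ht₂, ho₂, hs₂⟩ := mu_cut hD hτ (j + k) hL k (1 - p) hp.one_sub (by
    rw [rt_sub, rt_one hτ.trc, hpt]
    field_simp
    push_cast
    ring)
  have hle₁ : ∀ a, e₁ a ≤ p := fun a => by
    rw [← hs₁]
    exact Finset.single_le_sum (f := e₁) (fun b _ => (he₁ b).nonneg) (Finset.mem_univ a)
  have hle₂ : ∀ a, e₂ a ≤ 1 - p := fun a => by
    rw [← hs₂]
    exact Finset.single_le_sum (f := e₂) (fun b _ => (he₂ b).nonneg) (Finset.mem_univ a)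
  have h12 : ∀ a b, e₁ a * e₂ b = 0 := fun a b => by
    have h1 := (mu_le hp (he₁ a) (hle₁ a)).1
    have h2 := (mu_le hp.one_sub (he₂ b) (hle₂ b)).2
    calc e₁ a * e₂ b = e₁ a * p * ((1 - p) * e₂ b) := by rw [h1, h2]
      _ = e₁ a * (p - p * p) * e₂ b := by noncomm_ring
      _ = 0 := by rw [hp.2, sub_self, mul_zero, zero_mul]
  have h21 : ∀ a b, e₂ a * e₁ b = 0 := fun a b => by
    have := congrArg star (h12 b a)
    rwa [star_mul, star_zero, (he₁ b).1, (he₂ a).1] at this
  set e : Fin (j + k) → N := Fin.append e₁ e₂ with he_def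
  have hl : ∀ a, e (Fin.castAdd k a) = e₁ a := fun a => Fin.append_left _ _ _
  have hr : ∀ a, e (Fin.natAdd j a) = e₂ a := fun a => Fin.append_right _ _ _
  have he : ∀ a, Pr (e a) := fun a => by
    refine Fin.addCases (fun b => ?_) (fun b => ?_) a
    · rw [hl]; exact he₁ b
    · rw [hr]; exact he₂ b
  have het : ∀ a, rt τ (e a) = 1 / ((j + k : ℕ) : ℝ) := fun a => by
    refine Fin.addCases (fun b => ?_) (fun b => ?_) a
    · rw [hl]; exact ht₁ b
    · rw [hr]; exact ht₂ b
  have heo : ∀ a b, a ≠ b → e a * e b = 0 := by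
    intro a b
    refine Fin.addCases (fun a => ?_) (fun a => ?_) a
    · refine Fin.addCases (fun b => ?_) (fun b => ?_) b
      · intro h
        rw [hl, hl]
        exact ho₁ a b (fun h' => h (by rw [h']))
      · intro _
        rw [hl, hr]; exact h12 a b
    · refine Fin.addCases (fun b => ?_) (fun b => ?_) b
      · intro _
        rw [hl, hr]; exact h21 a b
      · intro h
        rw [hr, hr]
        exact ho₂ a b (fun h' => h (by rw [h']))
  have hesum : ∑ a, e a = 1 := by
    rw [Fin.sum_univ_add]
    simp only [hl, hr]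
    rw [hs₁, hs₂]; abel
  -- the isometries between the pieces
  set i₀ : Fin (j + k) := ⟨0, hL⟩ with hi₀
  have hv : ∀ a, ∃ v : N, star v * v = e i₀ ∧ v * star v = e a := by
    intro a
    obtain ⟨v, hv1, hv2, hv3⟩ := hC N τ hτ (e i₀) (e a) (he _) (he _) (by rw [het, het])
    refine ⟨v, hv1, ?_⟩
    have h1 : e a - v * star v = 0 := by
      refine mu_zero hτ.trc (sub_nonneg.2 hv3) ?_
      rw [rt_sub, het, rt_mul_comm hτ.trc, hv1, het, sub_self]
    exact (sub_eq_zero.1 h1).symm
  choose v hv1 hv2 using hv
  have hve : ∀ a, v a * e i₀ = v a := by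
    intro a
    have h1 : v a - v a * e i₀ = 0 := by
      refine hs_eq_zero hτ.trc ?_
      have : star (v a - v a * e i₀) * (v a - v a * e i₀) = 0 := by
        rw [star_sub, star_mul, (he i₀).1]
        calc (star (v a) - e i₀ * star (v a)) * (v a - v a * e i₀)
            = star (v a) * v a - star (v a) * v a * e i₀ - e i₀ * (star (v a) * v a)
              + e i₀ * (star (v a) * v a) * e i₀ := by noncomm_ring
          _ = 0 := by rw [hv1, (he i₀).2, (he i₀).2]; abel
      rw [hs_eq_rt, this, rt_zero]
    exact (sub_eq_zero.1 h1).symm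
  have hev : ∀ a, e a * v a = v a := fun a => by
    rw [← hv2 a, mul_assoc, hv1, hve]
  have hsv : ∀ a, star (v a) * e a = star (v a) := fun a => by
    have := congrArg star (hev a)
    rwa [star_mul, (he a).1] at this
  refine ⟨fun a b => v a * star (v b), ⟨?_, ?_, ?_⟩, ?_⟩
  · intro a b
    rw [star_mul, star_star]
  · intro a b c d
    by_cases hbc : b = c
    · subst hbc
      rw [if_pos rfl]
      calc v a * star (v b) * (v b * star (v d)) = v a * (star (v b) * v b) * star (v d) := by
            noncomm_ring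
        _ = v a * star (v d) := by rw [hv1, hve]
    · rw [if_neg hbc]
      calc v a * star (v b) * (v c * star (v d))
          = v a * (star (v b) * e b) * ((e c * v c) * star (v d)) := by rw [hsv, hev]
        _ = v a * star (v b) * (e b * e c) * (v c * star (v d)) := by noncomm_ring
        _ = 0 := by rw [heo b c hbc, mul_zero, zero_mul]
  · simp only [hv2]
    exact hesum
  · simp only [hv2]
    rw [Finset.sum_filter, Fin.sum_univ_add]
    have h1 : ∀ a : Fin j, (if ((Fin.castAdd k a : Fin (j + k)) : ℕ) < j then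
        e (Fin.castAdd k a) else 0) = e₁ a := by
      intro a
      rw [if_pos (by rw [Fin.val_castAdd]; exact a.2), hl]
    have h2 : ∀ a : Fin k, (if ((Fin.natAdd j a : Fin (j + k)) : ℕ) < j then
        e (Fin.natAdd j a) else 0) = 0 := by
      intro a
      rw [if_neg (by rw [Fin.val_natAdd]; omega)]
    rw [Finset.sum_congr rfl (fun a _ => h1 a), Finset.sum_congr rfl (fun a _ => h2 a), hs₁,
      Finset.sum_const_zero, add_zero]

end Helper61.HT
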