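import Pool.Agent.Helper61.HT.StE
import Pool.Agent.Helper61.HT.LibN

/-!
# Project HT: almost partial isometries are close to partial isometries
-/

namespace Helper61.HT

open scoped ComplexOrder

set_option linter.unusedSectionVars false

theorem pPE (hPol : StPol) (hCmp : StCmp) : StPE := by
  intro N _ _ _ τ hN e q z he hq hqz hze hle
  have hτ := hN.trc
  obtain ⟨V₀, s, hs0, hss, hz, hP, hR, hPs, hsP, hsR⟩ := hPol N τ hτ hN.cpl z
  have hsa : star s = s := herm_of_nonneg hs0
  -- `V₀ (V₀* V₀) = V₀`
  have hVP : V₀ * (star V₀ * V₀) = V₀ := by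
    have h0 : hs τ (V₀ - V₀ * (star V₀ * V₀)) = 0 := by
      have h1 : star (V₀ - V₀ * (star V₀ * V₀)) * (V₀ - V₀ * (star V₀ * V₀)) = 0 := by
        rw [star_sub, star_mul, hP.1]
        have h2 : (star V₀ - star V₀ * V₀ * star V₀) * (V₀ - V₀ * (star V₀ * V₀)) =
            star V₀ * V₀ - star V₀ * V₀ * (star V₀ * V₀) - star V₀ * V₀ * (star V₀ * V₀) +
              star V₀ * V₀ * (star V₀ * V₀) * (star V₀ * V₀) := by noncomm_ring
        rw [h2, hP.2, hP.2]; abel
      rw [hs_eq_rt, h1, rt_zero]
    exact (sub_eq_zero.1 (hs_eq_zero hτ h0)).symm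
  have hVP' : star V₀ * V₀ * star V₀ = star V₀ := by
    have := congrArg star hVP
    rwa [star_mul, hP.1] at this
  -- `P e = P`
  have hze' : e * star z = star z := by
    have := congrArg star hze
    rwa [star_mul, he.1] at this
  have hqz' : star z * q = star z := by
    have := congrArg star hqz
    rwa [star_mul, hq.1] at this
  have hPe : star V₀ * V₀ * e = star V₀ * V₀ := by
    have := hsP.2.2 (1 - e) (by rw [mul_sub, mul_one, mul_assoc, hze, sub_self])
    rw [mul_sub, mul_one, sub_eq_zero] at this
    exact this.symm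
  have heP : e * (star V₀ * V₀) = star V₀ * V₀ := by
    have := congrArg star hPe
    rwa [star_mul, he.1, hP.1] at this
  have hRq : V₀ * star V₀ * q = V₀ * star V₀ := by
    have := hsR.2.2 (1 - q) (by rw [mul_sub, mul_one, mul_assoc, hqz', sub_self])
    rw [mul_sub, mul_one, sub_eq_zero] at this
    exact this.symm
  have hqR : q * (V₀ * star V₀) = V₀ * star V₀ := by
    have := congrArg star hRq
    rwa [star_mul, hq.1, hR.1] at this
  have hqV : q * V₀ = V₀ := by
    calc q * V₀ = q * (V₀ * (star V₀ * V₀)) := by rw [hVP]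
      _ = q * (V₀ * star V₀) * V₀ := by noncomm_ring
      _ = V₀ * (star V₀ * V₀) := by rw [hqR]; noncomm_ring
      _ = V₀ := hVP
  have hqV' : star V₀ * q = star V₀ := by
    have := congrArg star hqV
    rwa [star_mul, hq.1] at this
  have hePr : Pr (e - star V₀ * V₀) := he.sub hP heP
  have hqPr : Pr (q - V₀ * star V₀) := hq.sub hR hqR
  have hrt : rt τ (e - star V₀ * V₀) ≤ rt τ (q - V₀ * star V₀) := by
    rw [rt_sub, rt_sub, rt_mul_comm hτ (star V₀) V₀]
    linarith
  obtain ⟨W, hWW, hWp, hWq⟩ := hCmp N τ hN _ _ hePr hqPr hrt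
  -- `W (W* W) = W`
  have hWW' : W * (star W * W) = W := by
    have hpw : Pr (star W * W) := by rw [hWW]; exact hePr
    have h0 : hs τ (W - W * (star W * W)) = 0 := by
      have h1 : star (W - W * (star W * W)) * (W - W * (star W * W)) = 0 := by
        rw [star_sub, star_mul, hpw.1]
        have h2 : (star W - star W * W * star W) * (W - W * (star W * W)) =
            star W * W - star W * W * (star W * W) - star W * W * (star W * W) +
              star W * W * (star W * W) * (star W * W) := by noncomm_ring
        rw [h2, hpw.2, hpw.2]; abel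
      rw [hs_eq_rt, h1, rt_zero]
    exact (sub_eq_zero.1 (hs_eq_zero hτ h0)).symm
  have habs := (hqPr.absorb hWp.nonneg hWq).2
  have hqW1 : (q - V₀ * star V₀) * W = W := by
    calc (q - V₀ * star V₀) * W = (q - V₀ * star V₀) * (W * (star W * W)) := by rw [hWW']
      _ = (q - V₀ * star V₀) * (W * star W) * W := by noncomm_ring
      _ = W * (star W * W) := by rw [habs]; noncomm_ring
      _ = W := hWW'
  have hqW : q * W = W := by
    calc q * W = q * ((q - V₀ * star V₀) * W) := by rw [hqW1]
      _ = (q * q - q * (V₀ * star V₀)) * W := by noncomm_ring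
      _ = (q - V₀ * star V₀) * W := by rw [hq.2, hqR]
      _ = W := hqW1
  have hVW : star V₀ * W = 0 := by
    calc star V₀ * W = star V₀ * ((q - V₀ * star V₀) * W) := by rw [hqW1]
      _ = (star V₀ * q - star V₀ * V₀ * star V₀) * W := by noncomm_ring
      _ = 0 := by rw [hqV', hVP', sub_self, zero_mul]
  have hWV : star W * V₀ = 0 := by
    have := congrArg star hVW
    rwa [star_mul, star_star, star_zero] at this
  have hWz : star W * z = 0 := by rw [hz, ← mul_assoc, hWV, zero_mul]
  have hVz : star V₀ * z = s := by rw [hz, ← mul_assoc, hPs]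
  have hes : e * s = s := by
    calc e * s = e * (star V₀ * V₀ * s) := by rw [hPs]
      _ = e * (star V₀ * V₀) * s := by noncomm_ring
      _ = s := by rw [heP, hPs]
  have hse : s * e = s := by
    have := congrArg star hes
    rwa [star_mul, he.1, hsa] at this
  have hVV : star (V₀ + W) * (V₀ + W) = e := by
    rw [star_add]
    have : (star V₀ + star W) * (V₀ + W) = star V₀ * V₀ + star V₀ * W + star W * V₀ +
        star W * W := by noncomm_ring
    rw [this, hVW, hWV, hWW]; abel
  refine ⟨V₀ + W, hVV, by rw [mul_add, hqV, hqW], ?_⟩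
  have h1 : star (V₀ + W) * z = s := by rw [star_add, add_mul, hVz, hWz, add_zero]
  have h1' : star z * (V₀ + W) = s := by
    have := congrArg star h1
    rwa [star_mul, star_star, hsa] at this
  have h2 : hs τ (V₀ + W - z) = rt τ ((e - s) * (e - s)) := by
    rw [hs_eq_rt]
    congr 1
    have e1 : star (V₀ + W - z) * (V₀ + W - z) = star (V₀ + W) * (V₀ + W) -
        star (V₀ + W) * z - star z * (V₀ + W) + star z * z := by
      rw [star_sub]; noncomm_ring
    have e2 : (e - s) * (e - s) = e * e - e * s - s * e + s * s := by noncomm_ring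
    rw [e1, hVV, h1, h1', e2, he.2, hes, hse, hss]
  have h3 : hs τ (star z * z - e) = rt τ ((e - s) * (e - s)) +
      rt τ ((e - s) * (s + s + s * s) * (e - s)) := by
    rw [hs_eq_rt, ← rt_add]
    congr 1
    rw [← hss, star_sub, star_mul, hsa, he.1]
    have e1 : (s * s - e) * (s * s - e) = s * s * (s * s) - (e * s) * s - s * (s * e) + e * e := by
      noncomm_ring
    have e2 : (e - s) * (e - s) + (e - s) * (s + s + s * s) * (e - s) =
        e * e - e * s - s * e + s * s +
        ((e * s) * e + (e * s) * e + (e * s) * (s * e) - (e * s) * s - (e * s) * s -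
          (e * s) * s * s - s * (s * e) - s * (s * e) - s * s * (s * e) + s * s * s + s * s * s +
          s * s * (s * s)) := by noncomm_ring
    rw [e1, e2, hes, hse, he.2]
    noncomm_ring
  rw [h2, h3]
  have h4 : 0 ≤ (e - s) * (s + s + s * s) * (e - s) := by
    have h5 : 0 ≤ s + s + s * s := by
      have : 0 ≤ s * s := by
        have := nonneg_star_mul s
        rwa [hsa] at this
      exact add_nonneg (add_nonneg hs0 hs0) this
    have h6 := conj_nonneg h5 (e - s)
    rwa [star_sub, he.1, hsa] at h6
  have := rt_nonneg hτ h4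
  linarith

end Helper61.HT
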