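import Pool.Agent.Helper61.HT.StF
import Pool.Agent.Helper61.HT.LibN

/-!
# Project HT: Powers-Stoermer inequality
-/

set_option autoImplicit false

namespace Helper61.HT

open scoped ComplexOrder

private theorem exists_parts {B : Type} [CStarAlgebra B] [PartialOrder B] [StarOrderedRing B]
    (c : B) (hc : IsSelfAdjoint c) :
    ∃ u v : B, 0 ≤ u ∧ 0 ≤ v ∧ u - v = c ∧ u * v = 0 ∧ v * u = 0 :=
  ⟨c⁺, c⁻, CFC.posPart_nonneg c, CFC.negPart_nonneg c, CFC.posPart_sub_negPart c hc,
    CFC.posPart_mul_negPart c, CFC.negPart_mul_posPart c⟩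

theorem pPS (hSupp : StSupp) : StPS := by
  intro B _ _ _ τ hτ hc a b ha hb
  have hsa : star a = a := herm_of_nonneg ha
  have hsb : star b = b := herm_of_nonneg hb
  have hcs : IsSelfAdjoint (a - b) := by
    rw [IsSelfAdjoint, star_sub, hsa, hsb]
  obtain ⟨u, v, hcp, hcm, hdec, hpm, hmp⟩ := exists_parts (a - b) hcs
  have hsp : star u = u := herm_of_nonneg hcp
  have hsm : star v = v := herm_of_nonneg hcm
  obtain ⟨p, hp⟩ := hSupp B τ hτ hc _ hcp
  obtain ⟨q, hq⟩ := hSupp B τ hτ hc _ hcm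
  have hp1 : p * u = u := hp.2.1
  have hq1 : q * v = v := hq.2.1
  have hp2 : u * p = u := hp.mul_right hsp
  have hq2 : v * q = v := hq.mul_right hsm
  have hp3 : p * v = 0 := hp.2.2 _ hpm
  have hq3 : q * u = 0 := hq.2.2 _ hmp
  have hp4 : v * p = 0 := by
    have := congrArg star hp3
    rwa [star_mul, hsm, hp.1.1, star_zero] at this
  have hq4 : u * q = 0 := by
    have := congrArg star hq3
    rwa [star_mul, hsp, hq.1.1, star_zero] at this
  have hqp : q * p = 0 := hq.2.2 _ hp4
  have hpq : p * q = 0 := hp.2.2 _ hq4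
  -- the sign
  have hsc : (p - q) * (a - b) = u + v := by
    rw [← hdec, sub_mul, mul_sub, mul_sub, hp1, hp3, hq1, hq3]
    abel
  have hcs' : (a - b) * (p - q) = u + v := by
    rw [← hdec, sub_mul, mul_sub, mul_sub, hp2, hp4, hq2, hq4]
    abel
  have hone : hs τ (p - q) ≤ 1 := by
    rw [hs_eq_rt, star_sub, hp.1.1, hq.1.1]
    have : (p - q) * (p - q) = p + q := by
      rw [sub_mul, mul_sub, mul_sub, hp.1.2, hq.1.2, hpq, hqp]
      abel
    rw [this, ← rt_one hτ]
    refine rt_mono hτ ?_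
    have h1 : Pr (1 - p) := hp.1.one_sub
    have h2 : q ≤ 1 - p := h1.le_of_mul hq.1 (by rw [sub_mul, one_mul, hpq, sub_zero])
    rw [← sub_nonneg] at h2 ⊢
    have e : 1 - (p + q) = 1 - p - q := by abel
    rw [e]
    exact h2
  have hsq : a * a - b * b = (1 / 2 : ℝ) • ((a - b) * (a + b) + (a + b) * (a - b)) := by
    have : (a - b) * (a + b) + (a + b) * (a - b) = (2 : ℝ) • (a * a - b * b) := by
      rw [two_smul]
      noncomm_ring
    rw [this, smul_smul]
    norm_num
  have hlow : hs τ (a - b) ≤ rt τ ((p - q) * (a * a - b * b)) := by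
    have e1 : rt τ ((p - q) * (a * a - b * b)) = rt τ ((u + v) * (a + b)) := by
      rw [hsq, mul_smul_comm, rt_smul, mul_add, rt_add, ← mul_assoc, hsc, ← mul_assoc,
        rt_cycle hτ (p - q) (a + b) (a - b), hcs']
      ring
    have e2 : hs τ (a - b) = rt τ (u * (a - b)) - rt τ (v * (a - b)) := by
      rw [hs_eq_rt, hcs.star_eq, ← rt_sub, ← sub_mul, hdec]
    have hd1 : a - b ≤ a + b := by
      rw [← sub_nonneg]
      have : a + b - (a - b) = b + b := by abel
      rw [this]
      exact add_nonneg hb hb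
    have hd2 : -(a - b) ≤ a + b := by
      rw [← sub_nonneg]
      have : a + b - -(a - b) = a + a := by abel
      rw [this]
      exact add_nonneg ha ha
    have e3 : rt τ (u * (a - b)) ≤ rt τ (u * (a + b)) := rt_mul_mono' hτ hd1 hcp
    have e4 : rt τ (v * -(a - b)) ≤ rt τ (v * (a + b)) := rt_mul_mono' hτ hd2 hcm
    rw [mul_neg, rt_neg] at e4
    rw [e1, e2, add_mul, rt_add]
    linarith
  refine hlow.trans ((rt_mul_le hτ _ _).trans ?_)
  have h1 : Real.sqrt (hs τ (p - q)) ≤ 1 := by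
    rw [Real.sqrt_le_one]
    exact hone
  calc Real.sqrt (hs τ (p - q)) * Real.sqrt (hs τ (a * a - b * b))
      ≤ 1 * Real.sqrt (hs τ (a * a - b * b)) :=
        mul_le_mul_of_nonneg_right h1 (Real.sqrt_nonneg _)
    _ = _ := one_mul _

end Helper61.HT
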