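import Pool.Agent.Helper61.HT.StA
import Pool.Agent.Helper61.HT.LibN

/-!
# HT module Pert: perturbation
-/

namespace Helper61.HT

open scoped ComplexOrder

section Pert

variable {N : Type} [CStarAlgebra N] [PartialOrder N] [StarOrderedRing N]

private lemma mul_GG' {S : N} (hS : 0 ≤ S) : S * GG S = 1 - GG S := by
  have h := mul_GG hS
  rw [add_mul, one_mul] at h
  exact eq_sub_of_add_eq' h

/-- `w* (1 + w w*)⁻¹ w ≤ 1`. -/
private lemma comp_le_one (w : N) : star w * GG (w * star w) * w ≤ 1 := by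
  have hS : 0 ≤ w * star w := nonneg_mul_star w
  have hT : 0 ≤ star w * w := nonneg_star_mul w
  have h1 : 1 - star w * GG (w * star w) * w = GG (star w * w) := by
    refine GG_unique hT ?_
    have h2 : (1 - star w * GG (w * star w) * w) * (1 + star w * w) =
        1 + star w * w - star w * (GG (w * star w) * (1 + w * star w)) * w := by
      noncomm_ring
    rw [h2, GG_mul hS, mul_one]
    abel
  have h3 := GG_nonneg hT
  rw [← h1] at h3
  exact sub_nonneg.1 h3

/-- The regularized range projection. -/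
private lemma exists_r {τ : N →ₗ[ℂ] ℂ} (hτ : Trc τ) {H q : N} {ε : ℝ} (hH : 0 ≤ H)
    (hq : Pr q) (hε : 0 < ε) :
    ∃ r : N, 0 ≤ r ∧ r ≤ 1 ∧ rt τ r ≤ rt τ q ∧
      rt τ ((1 - H) * q * (1 - H) * (1 - r)) ≤ ε := by
  have hHh : star (1 - H) = 1 - H := by rw [star_sub, star_one, herm_of_nonneg hH]
  obtain ⟨c, hc⟩ : ∃ c : ℝ, c = Real.sqrt (1 / ε) := ⟨_, rfl⟩
  have hcc : c * c = 1 / ε := by rw [hc]; exact Real.mul_self_sqrt (by positivity)
  obtain ⟨w, hw⟩ : ∃ w : N, w = c • ((1 - H) * q) := ⟨_, rfl⟩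
  have hws : star w = c • (q * (1 - H)) := by
    rw [hw, star_smul, star_trivial, star_mul, hHh, hq.1]
  have hS0 : 0 ≤ w * star w := nonneg_mul_star w
  have hS : w * star w = (1 / ε) • ((1 - H) * q * (1 - H)) := by
    rw [hws, hw, smul_mul_smul_comm, hcc]
    congr 1
    calc (1 - H) * q * (q * (1 - H)) = (1 - H) * (q * q) * (1 - H) := by noncomm_ring
      _ = _ := by rw [hq.2]
  have hy : (1 - H) * q * (1 - H) = ε • (w * star w) := by
    rw [hS, smul_smul, mul_one_div_cancel hε.ne', one_smul]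
  have hqw : q * star w = star w := by
    rw [hws, mul_smul_comm, ← mul_assoc, hq.2]
  have hr0 := one_sub_GG_nonneg hS0
  have hr1 := one_sub_GG_le_one hS0
  have hrt : rt τ (1 - GG (w * star w)) ≤ rt τ q := by
    rw [← mul_GG' hS0]
    have h1 : rt τ (w * star w * GG (w * star w)) =
        rt τ (q * (star w * GG (w * star w) * w)) := by
      have h2 : q * (star w * GG (w * star w) * w) = star w * GG (w * star w) * w := by
        rw [← mul_assoc, ← mul_assoc, hqw]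
      rw [h2, mul_assoc w, rt_mul_comm hτ w]
    rw [h1]
    have h3 := rt_mul_mono' hτ (comp_le_one w) hq.nonneg
    rwa [mul_one] at h3
  refine ⟨1 - GG (w * star w), hr0, hr1, hrt, ?_⟩
  rw [sub_sub_cancel, hy, smul_mul_assoc, mul_GG' hS0, rt_smul]
  have h4 := rt_mono hτ hr1
  rw [rt_one hτ] at h4
  nlinarith

end Pert

theorem pPert : StPert := by
  intro N _ _ _ τ H q a ζ ε hτ hH hH1 hq ha hta hζ hhs hε
  obtain ⟨r, hr0, hr1, hrq, hyr⟩ := exists_r hτ hH hq hε
  have hHh : star (1 - H) = 1 - H := by rw [star_sub, star_one, herm_of_nonneg hH]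
  obtain ⟨y, hy⟩ : ∃ y, y = (1 - H) * q * (1 - H) := ⟨_, rfl⟩
  rw [← hy] at hta hhs hyr ⊢
  have hy0 : 0 ≤ y := by rw [hy]; exact sandwich_nonneg hH hq.nonneg
  have hr1' : 0 ≤ 1 - r := sub_nonneg.2 hr1
  have hr1s : star (1 - r) = 1 - r := herm_of_nonneg hr1'
  have hq0 : 0 ≤ rt τ q := hq.rt_nonneg hτ
  have hnH : ‖H‖ ≤ 1 := norm_le_one_of_nonneg hH hH1
  have hnr : ‖r‖ ≤ 1 := norm_le_one_of_nonneg hr0 hr1
  have hnr' : ‖1 - r‖ ≤ 1 := norm_le_one_of_nonneg hr1' (sub_le_self _ hr0)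
  have hhr : hs τ r ≤ rt τ q := (hs_le_rt hτ hr0 hr1).trans hrq
  have hs1 : Real.sqrt (hs τ (a - y)) ≤ ζ * Real.sqrt (rt τ q) := by
    refine (Real.sqrt_le_sqrt hhs).trans ?_
    rw [Real.sqrt_mul (by positivity), Real.sqrt_sq hζ]
  have key : ∀ B : N, hs τ B ≤ rt τ q → |rt τ (B * (a - y))| ≤ ζ * rt τ q := by
    intro B hB
    refine (abs_rt_mul_le hτ B (a - y)).trans ?_
    have h1 : Real.sqrt (hs τ B) ≤ Real.sqrt (rt τ q) := Real.sqrt_le_sqrt hB
    calc Real.sqrt (hs τ B) * Real.sqrt (hs τ (a - y)) ≤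
          Real.sqrt (rt τ q) * (ζ * Real.sqrt (rt τ q)) :=
          mul_le_mul h1 hs1 (Real.sqrt_nonneg _) (Real.sqrt_nonneg _)
      _ = ζ * (Real.sqrt (rt τ q) * Real.sqrt (rt τ q)) := by ring
      _ = ζ * rt τ q := by rw [Real.mul_self_sqrt hq0]
  have e1 : rt τ (a * (1 - r)) ≤ ζ * rt τ q + ε := by
    have h1 := (neg_le_abs _).trans (key r hhr)
    have h2 : rt τ (a * (1 - r)) = rt τ (y * (1 - r)) - rt τ (r * (a - y)) := by
      rw [mul_sub, mul_one, rt_sub, mul_sub, mul_one, rt_sub, mul_sub, rt_sub,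
        rt_mul_comm hτ r a, rt_mul_comm hτ r y, hta]
      ring
    linarith
  refine ⟨r, hr0, hr1, hrq, e1, ?_⟩
  have hHr : hs τ (H * r) ≤ rt τ q := (hs_mul_left_le hτ hnH).trans hhr
  have hrHr : hs τ (r * H * (1 - r)) ≤ rt τ q :=
    ((hs_mul_right_le hτ hnr').trans (hs_mul_right_le hτ hnH)).trans hhr
  have h1 := key _ hHr
  have h2 := key _ hrHr
  have h3 : rt τ ((1 - r) * a * (1 - r) * H) ≤ ζ * rt τ q + ε := by
    have h4 : 0 ≤ (1 - r) * a * (1 - r) := by
      have := conj_nonneg ha (1 - r)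
      rwa [hr1s] at this
    have h5 := rt_mul_mono' hτ hH1 h4
    rw [mul_one] at h5
    refine h5.trans (le_trans ?_ e1)
    rw [rt_cycle hτ, rt_mul_comm hτ a (1 - r)]
    exact rt_mul_mono hτ (le_mul_self_of_le_one hr1' (sub_le_self _ hr0)) ha
  have h3' : 0 ≤ rt τ ((1 - r) * y * (1 - r) * H) := by
    have h4 : 0 ≤ (1 - r) * y * (1 - r) := by
      have := conj_nonneg hy0 (1 - r)
      rwa [hr1s] at this
    exact rt_mul_nonneg hτ h4 hH
  have h4 : rt τ (a * H) - rt τ (y * H) = rt τ (H * r * (a - y)) +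
      rt τ (r * H * (1 - r) * (a - y)) +
      (rt τ ((1 - r) * a * (1 - r) * H) - rt τ ((1 - r) * y * (1 - r) * H)) := by
    have e2 : rt τ (H * r * (a - y)) = rt τ (r * (a - y) * H) := by
      rw [rt_mul_comm hτ (r * (a - y)) H, mul_assoc]
    have e3 : rt τ (r * H * (1 - r) * (a - y)) = rt τ ((1 - r) * (a - y) * (r * H)) := by
      rw [rt_mul_comm hτ ((1 - r) * (a - y)) (r * H)]
      congr 1; noncomm_ring
    rw [e2, e3, ← rt_sub, ← rt_sub, ← rt_add, ← rt_add]
    congr 1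
    noncomm_ring
  have h5 := (abs_le.1 h1).2
  have h6 := (abs_le.1 h2).2
  have h7 : 0 ≤ ζ * rt τ q := by positivity
  linarith

end Helper61.HT
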