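import Pool.Agent.Helper61.HT.StE
import Pool.Agent.Helper61.HT.LibN

/-!
# Project HT: symmetric completely positive maps as operators on `L²`
-/

set_option linter.unusedSectionVars false

namespace Helper61.HT

open scoped ComplexOrder
open Filter Topology

section

variable {N : Type} [CStarAlgebra N] [PartialOrder N] [StarOrderedRing N]

private lemma phi_rt_symm {τ : N →ₗ[ℂ] ℂ} {φ : N →ₗ[ℂ] N} (hτ : Trc τ) (hφ : SCP τ φ) (x y : N) :
    rt τ (star x * φ y) = rt τ (star y * φ x) := by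
  have h1 : τ (star x * φ y) = τ (φ (star x) * y) := (hφ.symm _ _).symm
  rw [hφ.map_star] at h1
  have h2 : rt τ (star x * φ y) = rt τ (star (φ x) * y) := by unfold rt; rw [h1]
  rw [h2, ← rt_star hτ, star_mul, star_star]

/-- Cauchy-Schwarz for the form `τ (x* φ(y))`. -/
private lemma phi_cs {τ : N →ₗ[ℂ] ℂ} {φ : N →ₗ[ℂ] N} (hτ : Trc τ) (hφ : SCP τ φ) (x y : N) :
    rt τ (star x * φ y) ^ 2 ≤ rt τ (star x * φ x) * rt τ (star y * φ y) := by
  have h1 : ∀ t : ℝ, 0 ≤ rt τ (star y * φ y) * (t * t) + (2 * rt τ (star x * φ y)) * t +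
      rt τ (star x * φ x) := by
    intro t
    have h2 := hφ.pos (x + t • y)
    have hsm : φ (t • y) = t • φ y := by
      rw [show t • y = (t : ℂ) • y from (algebraMap_smul ℂ t y).symm, map_smul]
      exact algebraMap_smul ℂ t (φ y)
    rw [star_add, star_smul, (star_trivial t : star t = t), map_add, hsm, add_mul, mul_add, mul_add, rt_add, rt_add,
      rt_add, mul_smul_comm, smul_mul_assoc, smul_mul_assoc, mul_smul_comm, rt_smul, rt_smul,
      rt_smul, rt_smul, phi_rt_symm hτ hφ y x] at h2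
    linarith
  have h2 := discrim_le_zero h1
  unfold discrim at h2
  nlinarith

variable {H : Type} [NormedAddCommGroup H] [InnerProductSpace ℂ H]

private lemma bim_norm_R (b : Bimod N H) (x : N) (w : H) : ‖b.R x w‖ ≤ ‖x‖ * ‖w‖ := by
  have h1 : x * star x ≤ (‖x‖ ^ 2) • 1 := mul_star_le x
  obtain ⟨c, hc, hcc⟩ := exists_sqrt (sub_nonneg.2 h1)
  have hcs : star c = c := herm_of_nonneg hc
  have h2 : (‖b.R c w‖ : ℝ) ^ 2 = ‖x‖ ^ 2 * ‖w‖ ^ 2 - ‖b.R x w‖ ^ 2 := by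
    have e1 : (inner ℂ (b.R c w) (b.R c w)).re = (inner ℂ w (b.R (c * c) w)).re := by
      rw [b.R_adj, hcs, b.R_mul]
    have e2 : (inner ℂ (b.R x w) (b.R x w)).re = (inner ℂ w (b.R (x * star x) w)).re := by
      rw [b.R_adj, b.R_mul]
    have e3 : b.R (c * c) w = (‖x‖ ^ 2 : ℝ) • w - b.R (x * star x) w := by
      rw [hcc, map_sub, LinearMap.sub_apply,
        show ((‖x‖ ^ 2 : ℝ) • (1 : N)) = ((‖x‖ ^ 2 : ℝ) : ℂ) • (1 : N) from
          (algebraMap_smul ℂ _ _).symm, map_smul, LinearMap.smul_apply, b.R_one]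
      rfl
    rw [e3, inner_sub_right, inner_smul_right_eq_smul, Complex.sub_re, Complex.real_smul,
      Complex.re_ofReal_mul, ← e2] at e1
    have f1 := @inner_self_eq_norm_sq ℂ H _ _ _ (b.R c w)
    have f2 := @inner_self_eq_norm_sq ℂ H _ _ _ (b.R x w)
    have f3 := @inner_self_eq_norm_sq ℂ H _ _ _ w
    simp only [RCLike.re_to_complex] at f1 f2 f3
    rw [f1, f2, f3] at e1
    exact e1
  have h3 : ‖b.R x w‖ ^ 2 ≤ (‖x‖ * ‖w‖) ^ 2 := by
    rw [mul_pow]; nlinarith [sq_nonneg ‖b.R c w‖]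
  exact (pow_le_pow_iff_left₀ (norm_nonneg _) (by positivity) two_ne_zero).1 h3

section vec

variable {τ : N →ₗ[ℂ] ℂ} {φ : N →ₗ[ℂ] N} (b : Bimod N H) (ξ : H)

private lemma vec_inner (hb : ∀ x y, inner ℂ ξ (b.L x (b.R y ξ)) = τ (x * φ y)) (y x : N) :
    inner ℂ (b.L y ξ) (b.R x ξ) = τ (star y * φ x) := by
  rw [b.L_adj, hb]

private lemma vec_L_sq (hb : ∀ x y, inner ℂ ξ (b.L x (b.R y ξ)) = τ (x * φ y)) (y : N) :
    ‖b.L y ξ‖ ^ 2 = rt τ (star y * y * φ 1) := by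
  have f1 := @inner_self_eq_norm_sq ℂ H _ _ _ (b.L y ξ)
  simp only [RCLike.re_to_complex] at f1
  have h := hb (star y * y) 1
  rw [b.R_one, b.L_mul, ← star_star y, ← b.L_adj (star (star y)), star_star] at h
  rw [← f1]
  unfold rt
  rw [← h]

private lemma vec_R_sq (hb : ∀ x y, inner ℂ ξ (b.L x (b.R y ξ)) = τ (x * φ y)) (x : N) :
    ‖b.R x ξ‖ ^ 2 = rt τ (φ (x * star x)) := by
  have f1 := @inner_self_eq_norm_sq ℂ H _ _ _ (b.R x ξ)
  simp only [RCLike.re_to_complex] at f1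
  have h := hb 1 (x * star x)
  rw [b.L_one, b.R_mul, one_mul] at h
  rw [← f1, b.R_adj]
  unfold rt
  rw [← h]

private lemma vec_L_le (hτ : Trc τ) (hφ : SCP τ φ)
    (hb : ∀ x y, inner ℂ ξ (b.L x (b.R y ξ)) = τ (x * φ y)) (y : N) :
    ‖b.L y ξ‖ ≤ Real.sqrt (hs τ y) := by
  refine Real.le_sqrt_of_sq_le ?_
  rw [vec_L_sq b ξ hb]
  have := rt_mul_mono' hτ hφ.one (nonneg_star_mul y)
  rwa [mul_one] at this

private lemma vec_R_le (hτ : Trc τ) (hφ : SCP τ φ)
    (hb : ∀ x y, inner ℂ ξ (b.L x (b.R y ξ)) = τ (x * φ y)) (x : N) :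
    ‖b.R x ξ‖ ≤ Real.sqrt (hs τ x) := by
  refine Real.le_sqrt_of_sq_le ?_
  rw [vec_R_sq b ξ hb]
  have h1 : rt τ (φ (x * star x)) = rt τ (x * star x * φ 1) := by
    have := hφ.symm (x * star x) 1
    unfold rt
    rw [← this, mul_one]
  have := rt_mul_mono' hτ hφ.one (nonneg_mul_star x)
  rw [mul_one] at this
  rw [h1, ← hs_star hτ, hs_eq_rt, star_star]
  exact this

private lemma vec_diff_sq
    (hb : ∀ x y, inner ℂ ξ (b.L x (b.R y ξ)) = τ (x * φ y)) {v : N} (hv : Un v) :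
    ‖b.R v ξ - b.L v ξ‖ ^ 2 = 2 * (rt τ (φ 1) - rt τ (star v * φ v)) := by
  have h1 := @norm_sub_sq ℂ H _ _ _ (b.R v ξ) (b.L v ξ)
  rw [h1, vec_L_sq b ξ hb, vec_R_sq b ξ hb, hv.1, hv.2, one_mul]
  have h2 : RCLike.re (inner ℂ (b.R v ξ) (b.L v ξ)) = rt τ (star v * φ v) := by
    rw [← inner_re_symm, vec_inner b ξ hb]
    rfl
  rw [h2]; ring

private lemma key_bound (hτ : Trc τ) (hφ : SCP τ φ)
    (hb : ∀ x y, inner ℂ ξ (b.L x (b.R y ξ)) = τ (x * φ y)) (x y : N) :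
    |rt τ (star y * φ x)| ≤ Real.sqrt (hs τ y) * Real.sqrt (hs τ x) := by
  unfold rt
  rw [← vec_inner b ξ hb]
  refine (Complex.abs_re_le_norm _).trans ((norm_inner_le_norm _ _).trans ?_)
  exact mul_le_mul (vec_L_le b ξ hτ hφ hb y) (vec_R_le b ξ hτ hφ hb x) (norm_nonneg _)
    (Real.sqrt_nonneg _)

private lemma unit_inner (hb : ∀ x y, inner ℂ ξ (b.L x (b.R y ξ)) = τ (x * φ y)) (v x y : N) :
    inner ℂ (b.R (star x) (b.L y ξ)) (b.R v ξ - b.L v ξ) =
      τ (star y * (φ (v * x) - v * φ x)) := by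
  rw [b.R_adj, star_star, map_sub, inner_sub_right, ← b.R_mul, vec_inner b ξ hb, ← b.comm,
    b.L_adj, ← b.L_mul, hb, mul_sub, map_sub, mul_assoc]

private lemma le_of_le_sqrt_mul {a c E : ℝ} (ha : 0 ≤ a)
    (h : a ≤ c * Real.sqrt a * E) : a ≤ (c * E) ^ 2 := by
  rcases eq_or_lt_of_le ha with h0 | h0
  · rw [← h0]; positivity
  · have hs := Real.sqrt_pos.2 h0
    have h2 : Real.sqrt a * Real.sqrt a ≤ (c * E) * Real.sqrt a := by
      rw [Real.mul_self_sqrt ha]; linarith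
    have h3 : Real.sqrt a ≤ c * E := le_of_mul_le_mul_right h2 hs
    calc a = Real.sqrt a ^ 2 := (Real.sq_sqrt ha).symm
      _ ≤ _ := pow_le_pow_left₀ hs.le h3 2

private lemma unit_bound (hτ : Trc τ) (hφ : SCP τ φ)
    (hb : ∀ x y, inner ℂ ξ (b.L x (b.R y ξ)) = τ (x * φ y)) {v : N} (hv : Un v) (x : N) :
    hs τ (φ (v * x) - v * φ x) ≤ ‖x‖ ^ 2 * (2 * (rt τ (φ 1) - rt τ (star v * φ v))) := by
  have h1 : ∀ y : N, rt τ (star y * (φ (v * x) - v * φ x)) ≤
      ‖x‖ * Real.sqrt (hs τ y) * ‖b.R v ξ - b.L v ξ‖ := by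
    intro y
    unfold rt
    rw [← unit_inner b ξ hb]
    refine (Complex.re_le_norm _).trans ((norm_inner_le_norm _ _).trans ?_)
    refine mul_le_mul_of_nonneg_right ?_ (norm_nonneg _)
    refine (bim_norm_R b (star x) _).trans ?_
    rw [norm_star]
    exact mul_le_mul_of_nonneg_left (vec_L_le b ξ hτ hφ hb y) (norm_nonneg _)
  rw [← vec_diff_sq b ξ hb hv, ← mul_pow]
  exact le_of_le_sqrt_mul (hs_nonneg hτ _) (h1 _)

end vec

end

theorem pPhi (hBim : StBim) : StPhi := by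
  intro N _ _ _ τ φ hτ hφ
  obtain ⟨H, _, _, b, ξ, hb⟩ := hBim N τ φ hτ hφ
  have hU : ∀ v x : N, Un v → hs τ (φ (v * x) - v * φ x) ≤
      ‖x‖ ^ 2 * (2 * (rt τ (φ 1) - rt τ (star v * φ v))) := fun v x hv =>
    unit_bound b ξ hτ hφ hb hv x
  have hV : ∀ v x : N, Un v → hs τ (φ (x * v) - φ x * v) ≤
      ‖x‖ ^ 2 * (2 * (rt τ (φ 1) - rt τ (star v * φ v))) := by
    intro v x hv
    have h1 := hU (star v) (star x) hv.star
    have h2 : rt τ (star (star v) * φ (star v)) = rt τ (star v * φ v) := by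
      have h := hφ.symm v (star v)
      rw [star_star]
      unfold rt
      rw [← h, hτ.tr]
    have h3 : φ (star v * star x) - star v * φ (star x) = star (φ (x * v) - φ x * v) := by
      rw [star_sub, star_mul, ← hφ.map_star, ← hφ.map_star, star_mul]
    rwa [h2, h3, hs_star hτ, norm_star] at h1
  refine ⟨?_, phi_cs hτ hφ, fun v x hv => ⟨hU v x hv, hV v x hv⟩, ?_⟩
  · intro x
    have hk := fun x y => key_bound b ξ hτ hφ hb x y
    have h1 : ∀ x, hs τ (φ x) ≤ hs τ x := by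
      intro x
      have h2 := (le_abs_self _).trans (hk x (φ x))
      rw [← hs_eq_rt] at h2
      have h3 := le_of_le_sqrt_mul (c := 1) (E := Real.sqrt (hs τ x))
        (hs_nonneg hτ (φ x)) (by rwa [one_mul])
      rwa [one_mul, Real.sq_sqrt (hs_nonneg hτ x)] at h3
    refine ⟨h1 x, ?_⟩
    have h2 := phi_cs hτ hφ x (φ x)
    have h3 : rt τ (star x * φ (φ x)) = hs τ (φ x) := by
      have h := hφ.symm (star x) (φ x)
      rw [hφ.map_star] at h
      unfold rt hs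
      rw [h]
    have h4 : rt τ (star (φ x) * φ (φ x)) ≤ hs τ (φ x) := by
      refine (le_abs_self _).trans ((hk (φ x) (φ x)).trans ?_)
      rw [Real.mul_self_sqrt (hs_nonneg hτ _)]
    rw [h3] at h2
    have h5 := hφ.pos x
    have h6 := hs_nonneg hτ (φ x)
    rcases eq_or_lt_of_le h6 with h7 | h7
    · rw [← h7]; exact h5
    · have h8 : hs τ (φ x) * hs τ (φ x) ≤ rt τ (star x * φ x) * hs τ (φ x) := by
        calc hs τ (φ x) * hs τ (φ x) = hs τ (φ x) ^ 2 := by ring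
          _ ≤ _ := h2
          _ ≤ _ := mul_le_mul_of_nonneg_left h4 h5
      exact le_of_mul_le_mul_right h8 h7
  · intro ι S u hu
    unfold En EnM
    rw [Finset.mul_sum]
    refine Finset.sum_le_sum fun s _ => ?_
    have h1 : u s * φ 1 - φ 1 * u s = -(φ (u s * 1) - u s * φ 1) + (φ (1 * u s) - φ 1 * u s) := by
      rw [mul_one, one_mul]; abel
    rw [h1]
    refine (hs_add_le hτ _ _).trans ?_
    rw [hs_neg]
    have h2 := hU (u s) 1 (hu s)
    have h3 := hV (u s) 1 (hu s)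
    have h4 : ‖(1 : N)‖ ≤ 1 := norm_unit_le ⟨by rw [star_one, mul_one], by rw [star_one, mul_one]⟩
    have h5 : 0 ≤ 2 * (rt τ (φ 1) - rt τ (star (u s) * φ (u s))) := by
      rw [← vec_diff_sq b ξ hb (hu s)]; positivity
    have h6 : ‖(1 : N)‖ ^ 2 * (2 * (rt τ (φ 1) - rt τ (star (u s) * φ (u s)))) ≤
        2 * (rt τ (φ 1) - rt τ (star (u s) * φ (u s))) :=
      mul_le_of_le_one_left h5 (by nlinarith [norm_nonneg (1 : N)])
    linarith

end Helper61.HT
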