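import Pool.Agent.Helper61.HT.LibN

/-!
# Project HT: limits in the 2-norm and the approximants of the support projection
-/

namespace Helper61.HT.SuppLib

open scoped ComplexOrder
open Filter Topology

set_option linter.unusedSectionVars false

section

variable {N : Type} [CStarAlgebra N] [PartialOrder N] [StarOrderedRing N] {τ : N →ₗ[ℂ] ℂ}

/-- Convergence in the 2-norm. -/
def Lim2 (τ : N →ₗ[ℂ] ℂ) (x : ℕ → N) (p : N) : Prop :=
  Tendsto (fun n => hs τ (x n - p)) atTop (𝓝 0)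

lemma lim_unique (hτ : Trc τ) {x : ℕ → N} {p q : N} (hp : Lim2 τ x p) (hq : Lim2 τ x q) :
    p = q := by
  unfold Lim2 at hp hq
  have h1 : Tendsto (fun n => 2 * hs τ (x n - q) + 2 * hs τ (x n - p)) atTop (𝓝 0) := by
    have := (hq.const_mul 2).add (hp.const_mul 2)
    simpa using this
  have h2 : hs τ (p - q) ≤ 0 := by
    refine ge_of_tendsto' h1 fun n => ?_
    have h3 := hs_add_le hτ (x n - q) (-(x n - p))
    rw [hs_neg] at h3
    have h4 : x n - q + -(x n - p) = p - q := by abel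
    rwa [h4] at h3
  have h3 := hs_eq_zero hτ (le_antisymm h2 (hs_nonneg hτ _))
  exact sub_eq_zero.1 h3

lemma lim_const (p : N) : Lim2 τ (fun _ => p) p := by
  refine tendsto_const_nhds.congr fun n => ?_
  rw [sub_self, hs_zero]

lemma lim_of_eq {x y : ℕ → N} {p : N} (h : ∀ n, x n = y n) (hx : Lim2 τ x p) : Lim2 τ y p := by
  have : x = y := funext h
  rwa [← this]

lemma lim_mul_left (hτ : Trc τ) {x : ℕ → N} {p : N} (c : N) (hp : Lim2 τ x p) :
    Lim2 τ (fun n => c * x n) (c * p) := by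
  refine squeeze_zero (g := fun n => ‖c‖ ^ 2 * hs τ (x n - p)) (fun n => hs_nonneg hτ _)
    (fun n => ?_) ?_
  · rw [← mul_sub]; exact hs_mul_le hτ _ _
  · simpa using hp.const_mul (‖c‖ ^ 2)

lemma lim_mul_right (hτ : Trc τ) {x : ℕ → N} {p : N} (c : N) (hp : Lim2 τ x p) :
    Lim2 τ (fun n => x n * c) (p * c) := by
  refine squeeze_zero (g := fun n => ‖c‖ ^ 2 * hs τ (x n - p)) (fun n => hs_nonneg hτ _)
    (fun n => ?_) ?_
  · rw [← sub_mul]; exact hs_mul_le' hτ _ _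
  · simpa using hp.const_mul (‖c‖ ^ 2)

lemma lim_star (hτ : Trc τ) {x : ℕ → N} {p : N} (hp : Lim2 τ x p) :
    Lim2 τ (fun n => star (x n)) (star p) := by
  refine hp.congr fun n => ?_
  rw [← star_sub, hs_star hτ]

/-- Products of bounded sequences. -/
lemma lim_mul (hτ : Trc τ) {x y : ℕ → N} {p q : N} (hx : ∀ n, ‖x n‖ ≤ 1) (hq : ‖q‖ ≤ 1)
    (hp : Lim2 τ x p) (hy : Lim2 τ y q) : Lim2 τ (fun n => x n * y n) (p * q) := by
  unfold Lim2 at hp hy
  refine squeeze_zero (g := fun n => 2 * hs τ (y n - q) + 2 * hs τ (x n - p))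
    (fun n => hs_nonneg hτ _) (fun n => ?_) ?_
  · have h : x n * y n - p * q = x n * (y n - q) + (x n - p) * q := by noncomm_ring
    rw [h]
    refine (hs_add_le hτ _ _).trans ?_
    have h1 := hs_mul_left_le hτ (y := y n - q) (hx n)
    have h2 := hs_mul_right_le hτ (y := x n - p) hq
    linarith
  · simpa using (hy.const_mul 2).add (hp.const_mul 2)

lemma hs_le_norm (hτ : Trc τ) (x : N) : hs τ x ≤ ‖x‖ ^ 2 := by
  have h := rt_mono hτ (star_mul_le x)
  rwa [rt_smul, rt_one hτ, mul_one] at h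

lemma hs_le_one (hτ : Trc τ) {x : N} (hx : ‖x‖ ≤ 1) : hs τ x ≤ 1 :=
  (hs_le_norm hτ x).trans (by nlinarith [norm_nonneg x])

/-- The approximants `n b (1 + n b)⁻¹` of the support projection of `b`. -/
noncomputable def xa (b : N) (n : ℕ) : N := 1 - GG ((n : ℝ) • b)

lemma nsm {b : N} (hb : 0 ≤ b) (n : ℕ) : 0 ≤ (n : ℝ) • b :=
  smul_nonneg_real (Nat.cast_nonneg n) hb

lemma xa_nonneg {b : N} (hb : 0 ≤ b) (n : ℕ) : 0 ≤ xa b n := one_sub_GG_nonneg (nsm hb n)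

lemma xa_le_one {b : N} (hb : 0 ≤ b) (n : ℕ) : xa b n ≤ 1 := one_sub_GG_le_one (nsm hb n)

lemma norm_xa {b : N} (hb : 0 ≤ b) (n : ℕ) : ‖xa b n‖ ≤ 1 :=
  norm_le_one_of_nonneg (xa_nonneg hb n) (xa_le_one hb n)

lemma xa_mono {b : N} (hb : 0 ≤ b) {m n : ℕ} (hmn : m ≤ n) : xa b m ≤ xa b n :=
  sub_le_sub_left (GG_anti (nsm hb m) (smul_mono_left (by exact_mod_cast hmn) hb)) 1

lemma xa_left {b : N} (hb : 0 ≤ b) (n : ℕ) : xa b n = GG ((n : ℝ) • b) * ((n : ℝ) • b) := by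
  have := GG_mul (nsm hb n)
  rw [mul_add, mul_one] at this
  unfold xa
  rw [← this]; abel

lemma xa_right {b : N} (hb : 0 ≤ b) (n : ℕ) : xa b n = ((n : ℝ) • b) * GG ((n : ℝ) • b) := by
  have := mul_GG (nsm hb n)
  rw [add_mul, one_mul] at this
  unfold xa
  rw [← this]; abel

lemma xa_cauchy (hτ : Trc τ) {b : N} (hb : 0 ≤ b) (ε : ℝ) (hε : 0 < ε) :
    ∃ n₀, ∀ m ≥ n₀, ∀ n ≥ n₀, hs τ (xa b m - xa b n) ≤ ε := by
  have hrm : Monotone fun n => rt τ (xa b n) := fun m n hmn => rt_mono hτ (xa_mono hb hmn)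
  have hrb : BddAbove (Set.range fun n => rt τ (xa b n)) := by
    refine ⟨1, ?_⟩
    rintro _ ⟨n, rfl⟩
    have := rt_mono hτ (xa_le_one hb n)
    rwa [rt_one hτ] at this
  have hconv := tendsto_atTop_ciSup hrm hrb
  set L := ⨆ n, rt τ (xa b n) with hL
  have hle : ∀ n, rt τ (xa b n) ≤ L := fun n => le_ciSup hrb n
  have hdist : ∀ m n : ℕ, m ≤ n → hs τ (xa b n - xa b m) ≤ L - rt τ (xa b m) := by
    intro m n hmn
    have h0 : 0 ≤ xa b n - xa b m := sub_nonneg.2 (xa_mono hb hmn)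
    have h1 : xa b n - xa b m ≤ 1 := (sub_le_self _ (xa_nonneg hb m)).trans (xa_le_one hb n)
    have h2 := hs_le_rt hτ h0 h1
    rw [rt_sub] at h2
    linarith [hle n]
  have h1 : ∀ᶠ n in atTop, L - ε < rt τ (xa b n) :=
    hconv.eventually (lt_mem_nhds (by linarith))
  obtain ⟨n₀, hn₀⟩ := eventually_atTop.1 h1
  refine ⟨n₀, fun m hm n hn => ?_⟩
  rcases le_total m n with h | h
  · rw [hs_sub_comm]
    linarith [hdist m n h, hn₀ m hm]
  · linarith [hdist n m h, hn₀ n hn]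

lemma lim_inv_sq : Tendsto (fun n : ℕ => (1 / (n : ℝ)) ^ 2) atTop (𝓝 0) := by
  simpa using (tendsto_one_div_atTop_nhds_zero_nat (𝕜 := ℝ)).pow 2

/-- `hs (GG(n b) b) ≤ 1/n²`. -/
lemma hs_GG_mul_le (hτ : Trc τ) {b : N} (hb : 0 ≤ b) {n : ℕ} (hn : 0 < n) :
    hs τ (b * GG ((n : ℝ) • b)) ≤ (1 / (n : ℝ)) ^ 2 := by
  have hn' : (0 : ℝ) < n := by exact_mod_cast hn
  have h4 : b * GG ((n : ℝ) • b) = (1 / (n : ℝ)) • xa b n := by
    rw [xa_right hb n, smul_mul_assoc, smul_smul, one_div, inv_mul_cancel₀ hn'.ne', one_smul]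
  rw [h4, hs_smul]
  calc (1 / (n : ℝ)) ^ 2 * hs τ (xa b n) ≤ (1 / (n : ℝ)) ^ 2 * 1 :=
        mul_le_mul_of_nonneg_left (hs_le_one hτ (norm_xa hb n)) (by positivity)
    _ = _ := mul_one _

lemma GG_smul_comm {b : N} (hb : 0 ≤ b) (n : ℕ) :
    b * GG ((n : ℝ) • b) = GG ((n : ℝ) • b) * b :=
  GG_comm (nsm hb n) (by rw [mul_smul_comm, smul_mul_assoc])

lemma lim_xa_mul (hτ : Trc τ) {b : N} (hb : 0 ≤ b) : Lim2 τ (fun n => xa b n * b) b := by
  refine squeeze_zero' (Eventually.of_forall fun n => hs_nonneg hτ _) ?_ lim_inv_sq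
  filter_upwards [eventually_gt_atTop 0] with n hn
  have h2 : xa b n * b - b = -(b * GG ((n : ℝ) • b)) := by
    rw [GG_smul_comm hb]; unfold xa; noncomm_ring
  rw [h2, hs_neg]
  exact hs_GG_mul_le hτ hb hn

/-- The limit of the approximants is the support projection. -/
lemma supp_of_lim (hτ : Trc τ) {b p : N} (hb : 0 ≤ b) (hp : Lim2 τ (xa b) p) : IsSupp b p := by
  have hpstar : star p = p := by
    refine lim_unique hτ (x := xa b) ?_ hp
    refine lim_of_eq (fun n => ?_) (lim_star hτ hp)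
    exact herm_of_nonneg (xa_nonneg hb n)
  have hpb : p * b = b := lim_unique hτ (lim_mul_right hτ b hp) (lim_xa_mul hτ hb)
  have hpx : ∀ n, p * xa b n = xa b n := by
    intro n
    rw [xa_right hb n, ← mul_assoc, mul_smul_comm, hpb]
  refine ⟨⟨hpstar, ?_⟩, hpb, ?_⟩
  · exact lim_unique hτ (lim_of_eq hpx (lim_mul_left hτ p hp)) hp
  · intro y hy
    have h2 : ∀ n, xa b n * y = 0 := by
      intro n
      rw [xa_left hb n, mul_assoc, smul_mul_assoc, hy, smul_zero, mul_zero]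
    exact lim_unique hτ (lim_of_eq h2 (lim_mul_right hτ y hp)) (lim_const 0)

lemma exists_lim (hτ : Trc τ) (hc : Cpl τ) {b : N} (hb : 0 ≤ b) :
    ∃ p, ‖p‖ ≤ 1 ∧ Lim2 τ (xa b) p :=
  hc (xa b) (norm_xa hb) (xa_cauchy hτ hb)

end

end Helper61.HT.SuppLib
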