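import Pool.Agent.Helper61.HT.StE
import Pool.Agent.Helper61.HT.SuppLib

/-!
# Project HT: polar decomposition
-/

namespace Helper61.HT

open scoped ComplexOrder
open SuppLib

/-- Assembly of the polar decomposition from `x = V s` and `V* V = supp s`. -/
private lemma pol_core {N : Type} [CStarAlgebra N] [PartialOrder N] [StarOrderedRing N]
    {τ : N →ₗ[ℂ] ℂ} (hτ : Trc τ) {x V s P : N} (hs0 : 0 ≤ s) (hss : s * s = star x * x)
    (hV : V * s = x) (hP : IsSupp s P) (hVP : star V * V = P) :
    0 ≤ s ∧ s * s = star x * x ∧ x = V * s ∧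
      Pr (star V * V) ∧ Pr (V * star V) ∧ star V * V * s = s ∧
      IsSupp (star x * x) (star V * V) ∧ IsSupp (x * star x) (V * star V) := by
  have hsa : star s = s := herm_of_nonneg hs0
  -- `V P = V`
  have hVP' : V * P = V := by
    have h0 : hs τ (V - V * P) = 0 := by
      have h1 : star (V - V * P) * (V - V * P) = 0 := by
        rw [star_sub, star_mul, hP.1.1]
        have : (star V - P * star V) * (V - V * P) =
            star V * V - star V * V * P - P * (star V * V) + P * (star V * V) * P := by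
          noncomm_ring
        rw [this, hVP, hP.1.2, hP.1.2]; abel
      rw [hs_eq_rt, h1, rt_zero]
    have := hs_eq_zero hτ h0
    exact (sub_eq_zero.1 this).symm
  have hVP2 : P * star V = star V := by
    have := congrArg star hVP'
    rwa [star_mul, hP.1.1] at this
  have hsV : s * star V = star x := by
    rw [← hV, star_mul, hsa]
  refine ⟨hs0, hss, hV.symm, by rw [hVP]; exact hP.1, ⟨?_, ?_⟩, by rw [hVP]; exact hP.2.1,
    ?_, ?_⟩
  · rw [star_mul, star_star]
  · calc V * star V * (V * star V) = V * (star V * V) * star V := by noncomm_ring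
      _ = V * star V := by rw [hVP, hVP']
  · rw [hVP, ← hss]
    refine ⟨hP.1, by rw [← mul_assoc, hP.2.1], fun y hy => hP.2.2 y ?_⟩
    refine hs_eq_zero hτ ?_
    rw [hs_eq_rt, star_mul, hsa]
    have : star y * s * (s * y) = star y * (s * s * y) := by noncomm_ring
    rw [this, hy, mul_zero, rt_zero]
  · have h1 : V * star V * x = x := by
      rw [← hV]
      calc V * star V * (V * s) = V * (star V * V) * s := by noncomm_ring
        _ = V * s := by rw [hVP, hVP']
    refine ⟨⟨by rw [star_mul, star_star], ?_⟩, by rw [← mul_assoc, h1], fun y hy => ?_⟩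
    · calc V * star V * (V * star V) = V * (star V * V) * star V := by noncomm_ring
        _ = V * star V := by rw [hVP, hVP']
    · have h2 : star x * y = 0 := by
        refine hs_eq_zero hτ ?_
        rw [hs_eq_rt, star_mul, star_star]
        have : star y * x * (star x * y) = star y * (x * star x * y) := by noncomm_ring
        rw [this, hy, mul_zero, rt_zero]
      have h3 : P * (star V * y) = 0 := hP.2.2 _ (by rw [← mul_assoc, hsV, h2])
      rw [← mul_assoc, hVP2] at h3
      rw [mul_assoc, h3, mul_zero]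

theorem pPol : StPol := by
  intro N _ _ _ τ hτ hcpl x
  obtain ⟨s, hs0, hss⟩ := exists_sqrt (nonneg_star_mul x)
  have hsa : star s = s := herm_of_nonneg hs0
  obtain ⟨P, -, hP⟩ := exists_lim hτ hcpl hs0
  have hPs := supp_of_lim hτ hs0 hP
  -- hs (x y) = hs (s y)
  have hxy : ∀ y, hs τ (x * y) = hs τ (s * y) := by
    intro y
    rw [hs_eq_rt, hs_eq_rt, star_mul, star_mul, hsa]
    congr 1
    calc star y * star x * (x * y) = star y * (star x * x) * y := by noncomm_ring
      _ = star y * s * (s * y) := by rw [← hss]; noncomm_ring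
  set Vn : ℕ → N := fun n => x * ((n : ℝ) • GG ((n : ℝ) • s)) with hVn
  have hsV : ∀ n : ℕ, s * ((n : ℝ) • GG ((n : ℝ) • s)) = xa s n := by
    intro n
    rw [xa_right hs0, mul_smul_comm, smul_mul_assoc]
  have hVs : ∀ n, Vn n * s = x * xa s n := by
    intro n
    simp only [hVn]
    rw [xa_left hs0, mul_assoc]
    congr 1
    rw [smul_mul_assoc, mul_smul_comm]
  have hVV : ∀ n, star (Vn n) * Vn n = xa s n * xa s n := by
    intro n
    simp only [hVn]
    rw [star_mul]
    have h1 : star ((n : ℝ) • GG ((n : ℝ) • s)) * s = xa s n := by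
      have := congrArg star (hsV n)
      rwa [star_mul, hsa, herm_of_nonneg (xa_nonneg hs0 n)] at this
    calc star ((n : ℝ) • GG ((n : ℝ) • s)) * star x * (x * ((n : ℝ) • GG ((n : ℝ) • s))) =
        star ((n : ℝ) • GG ((n : ℝ) • s)) * (star x * x) * ((n : ℝ) • GG ((n : ℝ) • s)) := by
          noncomm_ring
      _ = (star ((n : ℝ) • GG ((n : ℝ) • s)) * s) * (s * ((n : ℝ) • GG ((n : ℝ) • s))) := by
          rw [← hss]; noncomm_ring
      _ = _ := by rw [h1, hsV]
  have hVnorm : ∀ n, ‖Vn n‖ ≤ 1 := by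
    intro n
    have h1 := CStarRing.norm_star_mul_self (x := Vn n)
    rw [hVV n] at h1
    have h2 : ‖xa s n * xa s n‖ ≤ 1 := (norm_mul_le _ _).trans (by
      nlinarith [norm_xa hs0 n, norm_nonneg (xa s n)])
    rw [h1] at h2
    nlinarith [norm_nonneg (Vn n)]
  obtain ⟨V, hV1, hV⟩ := hcpl Vn hVnorm (by
    intro ε hε
    obtain ⟨n₀, h⟩ := xa_cauchy hτ hs0 ε hε
    refine ⟨n₀, fun m hm n hn => ?_⟩
    have h1 := h m hm n hn
    have h2 : hs τ (Vn m - Vn n) = hs τ (xa s m - xa s n) := by
      simp only [hVn]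
      rw [← mul_sub, hxy, mul_sub, hsV, hsV]
    rwa [h2])
  have hV' : Lim2 τ Vn V := hV
  refine ⟨V, s, pol_core hτ hs0 hss ?_ hPs ?_⟩
  · -- `V s = x`
    refine lim_unique hτ (lim_of_eq hVs (lim_mul_right hτ s hV')) ?_
    refine squeeze_zero' (Filter.Eventually.of_forall fun n => hs_nonneg hτ _) ?_ lim_inv_sq
    filter_upwards [Filter.eventually_gt_atTop 0] with n hn
    have h1 : x * xa s n - x = -(x * GG ((n : ℝ) • s)) := by unfold xa; noncomm_ring
    rw [h1, hs_neg, hxy]
    exact hs_GG_mul_le hτ hs0 hn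
  · -- `V* V = P`
    have h1 : Lim2 τ (fun n => star (Vn n) * Vn n) (star V * V) :=
      lim_mul hτ (fun n => by rw [norm_star]; exact hVnorm n) hV1 (lim_star hτ hV') hV'
    have h2 : Lim2 τ (fun n => xa s n * xa s n) (P * P) :=
      lim_mul hτ (norm_xa hs0) hPs.1.norm_le hP hP
    rw [hPs.1.2] at h2
    exact lim_unique hτ (lim_of_eq hVV h1) h2

end Helper61.HT
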