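import Pool.Agent.Helper61.HT.StA
import Pool.Agent.Helper61.HT.LibN

/-!
# Module PotB: the potential is Lipschitz for the trace norm
-/

set_option autoImplicit false
set_option linter.unusedSectionVars false

namespace Helper61.HT

open scoped ComplexOrder

section

variable {N : Type} [CStarAlgebra N] [PartialOrder N] [StarOrderedRing N] {τ : N →ₗ[ℂ] ℂ}

private lemma potB_exp (H : N) :
    PotE τ H = rt τ H - 4 * rt τ (H * H) + 4 * rt τ (H * H * H) := by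
  have e : H * (1 - (2 : ℝ) • H) * (1 - (2 : ℝ) • H) =
      H - (4 : ℝ) • (H * H) + (4 : ℝ) • (H * H * H) := by
    simp only [mul_sub, sub_mul, mul_one, mul_smul_comm, smul_mul_assoc, smul_sub, smul_smul]
    module
  rw [PotE, e, rt_add, rt_sub, rt_smul, rt_smul]

private lemma potB_norm2 {A B : N} (hA : ‖A‖ ≤ 1) (hB : ‖B‖ ≤ 1) : ‖A * B‖ ≤ 1 :=
  (norm_mul_le A B).trans (mul_le_one₀ hA (norm_nonneg B) hB)

private lemma potB_lip (hτ : Trc τ) (S q y : N) (M : ℝ) (hS : 0 ≤ S) (hq : 0 ≤ q) (hy : 0 ≤ y)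
    (hN : ∀ X : N, ‖X‖ ≤ 1 → |rt τ (X * (y - q))| ≤ M) :
    PotE τ (1 - GG (S + y)) ≤ PotE τ (1 - GG (S + q)) + 21 * M := by
  have hA : 0 ≤ S + q := add_nonneg hS hq
  have hB : 0 ≤ S + y := add_nonneg hS hy
  set G₁ := GG (S + y) with hG₁
  set G₂ := GG (S + q) with hG₂
  set D := y - q with hD
  set H₁ : N := 1 - G₁ with hH₁
  set H₂ : N := 1 - G₂ with hH₂
  have nG₁ : ‖G₁‖ ≤ 1 := norm_GG_le hB
  have nG₂ : ‖G₂‖ ≤ 1 := norm_GG_le hA
  have nH₁ : ‖H₁‖ ≤ 1 := norm_le_one_of_nonneg (one_sub_GG_nonneg hB) (one_sub_GG_le_one hB)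
  have nH₂ : ‖H₂‖ ≤ 1 := norm_le_one_of_nonneg (one_sub_GG_nonneg hA) (one_sub_GG_le_one hA)
  have hdiff : H₁ - H₂ = G₂ * D * G₁ := by
    have h1 : G₂ - G₁ = G₂ * ((S + y) - (S + q)) * G₁ := GG_sub hA hB
    have h2 : (S + y) - (S + q) = D := by rw [hD]; abel
    rw [h2] at h1
    rw [← h1, hH₁, hH₂]
    abel
  clear_value H₁ H₂
  -- every term is of the form `rt (L (H₁ - H₂) R)`
  have key : ∀ L R : N, ‖L‖ ≤ 1 → ‖R‖ ≤ 1 → |rt τ (L * (H₁ - H₂) * R)| ≤ M := by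
    intro L R hL hR
    have e : rt τ (L * (H₁ - H₂) * R) = rt τ (G₁ * R * (L * G₂) * D) := by
      rw [hdiff]
      have e1 : L * (G₂ * D * G₁) * R = (L * G₂ * D) * (G₁ * R) := by noncomm_ring
      rw [e1, rt_mul_comm hτ]
      congr 1
      noncomm_ring
    rw [e]
    exact hN _ (potB_norm2 (potB_norm2 nG₁ hR) (potB_norm2 hL nG₂))
  have n1 : ‖(1 : N)‖ ≤ 1 := norm_le_one_of_nonneg zero_le_one le_rfl
  have k1 : |rt τ H₁ - rt τ H₂| ≤ M := by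
    have := key 1 1 n1 n1
    rwa [one_mul, mul_one, rt_sub] at this
  have k2 : |rt τ (H₁ * H₁) - rt τ (H₂ * H₂)| ≤ 2 * M := by
    have a := key 1 H₁ n1 nH₁
    have b := key H₂ 1 nH₂ n1
    have e : rt τ (H₁ * H₁) - rt τ (H₂ * H₂) =
        rt τ (1 * (H₁ - H₂) * H₁) + rt τ (H₂ * (H₁ - H₂) * 1) := by
      rw [one_mul, mul_one, sub_mul, mul_sub, rt_sub, rt_sub]
      ring
    rw [e]
    exact (abs_add_le _ _).trans (by linarith)
  have k3 : |rt τ (H₁ * H₁ * H₁) - rt τ (H₂ * H₂ * H₂)| ≤ 3 * M := by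
    have a := key 1 (H₁ * H₁) n1 (potB_norm2 nH₁ nH₁)
    have b := key H₂ H₁ nH₂ nH₁
    have c := key (H₂ * H₂) 1 (potB_norm2 nH₂ nH₂) n1
    have e : rt τ (H₁ * H₁ * H₁) - rt τ (H₂ * H₂ * H₂) =
        rt τ (1 * (H₁ - H₂) * (H₁ * H₁)) + rt τ (H₂ * (H₁ - H₂) * H₁) +
          rt τ (H₂ * H₂ * (H₁ - H₂) * 1) := by
      rw [← rt_add, ← rt_add, ← rt_sub]
      congr 1
      noncomm_ring
    rw [e]
    have t1 := abs_add_le (rt τ (1 * (H₁ - H₂) * (H₁ * H₁)) + rt τ (H₂ * (H₁ - H₂) * H₁))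
      (rt τ (H₂ * H₂ * (H₁ - H₂) * 1))
    have t2 := abs_add_le (rt τ (1 * (H₁ - H₂) * (H₁ * H₁))) (rt τ (H₂ * (H₁ - H₂) * H₁))
    linarith
  rw [potB_exp, potB_exp]
  have l1 := (abs_le.1 k1).2
  have l2 := (abs_le.1 k2).1
  have l3 := (abs_le.1 k3).2
  linarith

private lemma potB_nonneg (hτ : Trc τ) (H : N) (hH : 0 ≤ H) : 0 ≤ PotE τ H := by
  have h1 : star (1 - (2 : ℝ) • H) = 1 - (2 : ℝ) • H := by
    rw [star_sub, star_one, star_smul, herm_of_nonneg hH, star_trivial]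
  have h2 := conj_nonneg hH (1 - (2 : ℝ) • H)
  rw [h1] at h2
  rw [PotE, rt_cycle hτ]
  exact rt_nonneg hτ h2

private lemma potB_proj (Q : N) (hQ : Pr Q) : PotE τ (1 - GG Q) = 0 := by
  have h1 : (1 - (1 / 2 : ℝ) • Q) * (1 + Q) = 1 := by
    rw [sub_mul, mul_add, mul_add, one_mul, one_mul, mul_one, smul_mul_assoc, hQ.2]
    module
  have h2 : GG Q = 1 - (1 / 2 : ℝ) • Q := (GG_unique hQ.nonneg h1).symm
  have h3 : (1 : N) - GG Q = (1 / 2 : ℝ) • Q := by rw [h2]; abel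
  have h4 : (1 : N) - (2 : ℝ) • ((1 / 2 : ℝ) • Q) = 1 - Q := by
    rw [smul_smul]; norm_num
  have h5 : Q * (1 - Q) = 0 := by rw [mul_sub, mul_one, hQ.2, sub_self]
  rw [PotE, h3, h4, smul_mul_assoc, h5, smul_zero, zero_mul, rt_zero]

end

theorem pPotB : StPotB := by
  intro N _ _ _ τ hτ
  exact ⟨fun S q y M hS hq hy hN => potB_lip hτ S q y M hS hq hy hN,
    fun H hH => potB_nonneg hτ H hH, fun Q hQ => potB_proj Q hQ⟩

end Helper61.HT
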