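import Pool.Agent.Helper61.HT.LibN
import Pool.Agent.Helper61.HT.Ip
import Pool.Agent.Helper61.HT.StE

/-!
# Project HT: assembly of the random selection part
-/

set_option linter.unusedSectionVars false

namespace Helper61.HT

open scoped ComplexOrder
open Matrix

/-! ## matrix units -/

section mu

variable {N : Type} [CStarAlgebra N] {L : ℕ} {E : Fin L → Fin L → N} {κ : Type} [Fintype κ]
  [DecidableEq κ]

/-- The representation of a matrix algebra given by matrix units. -/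
private noncomputable def rho (E : Fin L → Fin L → N) (p : κ → Fin L) :
    Matrix κ κ ℂ →ₗ[ℂ] N where
  toFun A := ∑ k, ∑ l, A k l • E (p k) (p l)
  map_add' A B := by
    simp only [Matrix.add_apply, add_smul, Finset.sum_add_distrib]
  map_smul' c A := by
    simp only [Matrix.smul_apply, smul_eq_mul, mul_smul, Finset.smul_sum, RingHom.id_apply]

private lemma rho_apply (p : κ → Fin L) (A : Matrix κ κ ℂ) :
    rho E p A = ∑ k, ∑ l, A k l • E (p k) (p l) := rfl

private lemma rho_mul (hE : MU E) {p : κ → Fin L} (hp : Function.Injective p)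
    (A B : Matrix κ κ ℂ) : rho E p (A * B) = rho E p A * rho E p B := by
  simp only [rho_apply]
  have h1 : ∀ k l, (∑ k', ∑ l', (A k l • E (p k) (p l)) * (B k' l' • E (p k') (p l'))) =
      ∑ l', (A k l * B l l') • E (p k) (p l') := by
    intro k l
    rw [Finset.sum_eq_single l]
    · refine Finset.sum_congr rfl fun l' _ => ?_
      rw [smul_mul_smul_comm, hE.mul, if_pos rfl]
    · intro k' _ hk'
      refine Finset.sum_eq_zero fun l' _ => ?_
      rw [smul_mul_smul_comm, hE.mul, if_neg, smul_zero]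
      exact fun h => hk' (hp h).symm
    · exact fun h => absurd (Finset.mem_univ _) h
  calc (∑ k, ∑ l, (A * B) k l • E (p k) (p l)) =
      ∑ k, ∑ l', ∑ l, (A k l * B l l') • E (p k) (p l') := by
        refine Finset.sum_congr rfl fun k _ => Finset.sum_congr rfl fun l' _ => ?_
        rw [Matrix.mul_apply, Finset.sum_smul]
    _ = ∑ k, ∑ l, ∑ l', (A k l * B l l') • E (p k) (p l') := by
        refine Finset.sum_congr rfl fun k _ => Finset.sum_comm
    _ = ∑ k, ∑ l, ∑ k', ∑ l', (A k l • E (p k) (p l)) * (B k' l' • E (p k') (p l')) := by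
        refine Finset.sum_congr rfl fun k _ => Finset.sum_congr rfl fun l _ => (h1 k l).symm
    _ = _ := by
        simp only [Finset.sum_mul]
        refine Finset.sum_congr rfl fun k _ => Finset.sum_congr rfl fun l _ => ?_
        simp only [Finset.mul_sum]

private lemma rho_star (hE : MU E) (p : κ → Fin L) (A : Matrix κ κ ℂ) :
    rho E p Aᴴ = star (rho E p A) := by
  simp only [rho_apply, star_sum, star_smul, hE.st, Matrix.conjTranspose_apply]
  exact Finset.sum_comm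

private lemma rho_one (p : κ → Fin L) : rho E p 1 = ∑ k, E (p k) (p k) := by
  rw [rho_apply]
  refine Finset.sum_congr rfl fun k _ => ?_
  rw [Finset.sum_eq_single k]
  · rw [Matrix.one_apply_eq, one_smul]
  · intro l _ hl
    rw [Matrix.one_apply_ne hl.symm, zero_smul]
  · exact fun h => absurd (Finset.mem_univ _) h

private lemma tr_E (hE : MU E) {τ : N →ₗ[ℂ] ℂ} (hτ : Trc τ) (i j : Fin L) :
    τ (E i j) = if i = j then (1 / L : ℂ) else 0 := by
  split_ifs with h
  · subst h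
    have h1 : ∀ j, τ (E j j) = τ (E i i) := by
      intro j
      have e1 : E j j = E j i * E i j := by rw [hE.mul, if_pos rfl]
      have e2 : E i i = E i j * E j i := by rw [hE.mul, if_pos rfl]
      rw [e1, e2, hτ.tr]
    have h2 : τ (∑ j, E j j) = L * τ (E i i) := by
      rw [map_sum, Finset.sum_congr rfl fun j _ => h1 j, Finset.sum_const, Finset.card_univ,
        Fintype.card_fin, nsmul_eq_mul]
    rw [hE.sum, hτ.one] at h2
    have hL : (L : ℂ) ≠ 0 := by
      intro h0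
      rw [h0, zero_mul] at h2
      exact one_ne_zero h2
    field_simp
    rw [h2]; ring
  · have e1 : E i j = E i i * E i j := by rw [hE.mul, if_pos rfl]
    have e2 : E i j * E i i = 0 := by rw [hE.mul, if_neg (Ne.symm h)]
    rw [e1, hτ.tr, e2, map_zero]

private lemma tr_rho (hE : MU E) {τ : N →ₗ[ℂ] ℂ} (hτ : Trc τ) {p : κ → Fin L}
    (hp : Function.Injective p) (A : Matrix κ κ ℂ) :
    τ (rho E p A) = 1 / L * A.trace := by
  rw [rho_apply, map_sum, Matrix.trace, Finset.mul_sum]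
  refine Finset.sum_congr rfl fun k _ => ?_
  rw [map_sum, Finset.sum_eq_single k]
  · rw [map_smul, tr_E hE hτ, if_pos rfl, smul_eq_mul, Matrix.diag_apply]; ring
  · intro l _ hl
    rw [map_smul, tr_E hE hτ, if_neg (fun h => hl (hp h).symm), smul_zero]
  · exact fun h => absurd (Finset.mem_univ _) h

private lemma pr_rho (hE : MU E) {p : κ → Fin L} (hp : Function.Injective p)
    {A : Matrix κ κ ℂ} (h1 : Aᴴ = A) (h2 : A * A = A) : Pr (rho E p A) :=
  ⟨by rw [← rho_star hE, h1], by rw [← rho_mul hE hp, h2]⟩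

variable [PartialOrder N] [StarOrderedRing N]

private lemma norm_rho_le (hE : MU E) {p : κ → Fin L} (hp : Function.Injective p)
    {A B : Matrix κ κ ℂ} (h : Aᴴ * A + Bᴴ * B = 1) : ‖rho E p A‖ ≤ 1 := by
  have h1 : star (rho E p A) * rho E p A + star (rho E p B) * rho E p B = rho E p 1 := by
    rw [← rho_star hE, ← rho_star hE, ← rho_mul hE hp, ← rho_mul hE hp, ← map_add, h]
  have h2 : star (rho E p A) * rho E p A ≤ 1 := by
    refine le_trans ?_ (pr_rho hE hp (A := 1) (by simp) (by simp)).le_one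
    rw [← h1]
    exact le_add_of_nonneg_right (nonneg_star_mul _)
  have h3 := norm_le_one_of_nonneg (nonneg_star_mul _) h2
  rw [CStarRing.norm_star_mul_self] at h3
  nlinarith [norm_nonneg (rho E p A)]

end mu

section
open scoped MatrixOrder

private lemma exists_star_mul {d : ℕ} {M : Matrix (Fin d) (Fin d) ℂ} (h : M.PosSemidef) :
    ∃ B : Matrix (Fin d) (Fin d) ℂ, M = Bᴴ * B :=
  CStarAlgebra.nonneg_iff_eq_star_mul_self.mp h.nonneg

end

/-- Contractive matrices. -/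
private lemma exists_compl {d : ℕ} (A : Matrix (Fin d) (Fin d) ℂ)
    (h : ∀ x : Fin d → ℂ, ∑ l, ‖∑ j, A l j * x j‖ ^ 2 ≤ ∑ j, ‖x j‖ ^ 2) :
    ∃ B : Matrix (Fin d) (Fin d) ℂ, Aᴴ * A + Bᴴ * B = 1 := by
  have h1 : (1 - Aᴴ * A).PosSemidef := by
    refine Matrix.PosSemidef.of_dotProduct_mulVec_nonneg ?_ fun x => ?_
    · exact Matrix.isHermitian_one.sub (Matrix.isHermitian_conjTranspose_mul_self A)
    · rw [Matrix.sub_mulVec, Matrix.one_mulVec, dotProduct_sub, ← Matrix.mulVec_mulVec,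
        Matrix.dotProduct_mulVec, ← Matrix.star_mulVec]
      have h2 : ∀ y : Fin d → ℂ, star y ⬝ᵥ y = ((∑ j, ‖y j‖ ^ 2 : ℝ) : ℂ) := by
        intro y
        rw [dotProduct, Complex.ofReal_sum]
        refine Finset.sum_congr rfl fun j _ => ?_
        rw [Pi.star_apply, RCLike.star_def, Complex.conj_mul']
        norm_cast
      rw [h2, h2, ← Complex.ofReal_sub]
      have h3 := h x
      have h4 : ∀ l, (A *ᵥ x) l = ∑ j, A l j * x j := fun l => rfl
      simp only [h4]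
      exact_mod_cast sub_nonneg.2 h3
  obtain ⟨B, hB⟩ := exists_star_mul h1
  exact ⟨B, by rw [← hB]; abel⟩

/-! ## orthonormal families -/

section onb

variable {N : Type} [CStarAlgebra N] [PartialOrder N] [StarOrderedRing N] {τ : N →ₗ[ℂ] ℂ}

private lemma sum_le_hs (hτ : Trc τ) {d : ℕ} {w : Fin d → N}
    (hw : ∀ i j, τ (star (w i) * w j) = if i = j then 1 else 0) (z : N) :
    ∑ l, ‖τ (star (w l) * z)‖ ^ 2 ≤ hs τ z := by
  obtain ⟨H, _, _, e, he, he'⟩ := exists_L2 hτ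
  have ho : Orthonormal ℂ (fun i => e (w i)) := by
    rw [orthonormal_iff_ite]
    intro i j
    rw [he, hw]
  have h1 := ho.sum_inner_products_le (e z) (s := Finset.univ)
  simp only [he, he'] at h1
  exact h1

private lemma hs_sum_smul (hτ : Trc τ) {d : ℕ} {w : Fin d → N}
    (hw : ∀ i j, τ (star (w i) * w j) = if i = j then 1 else 0) (x : Fin d → ℂ) :
    hs τ (∑ j, x j • w j) = ∑ j, ‖x j‖ ^ 2 := by
  obtain ⟨H, _, _, e, he, he'⟩ := exists_L2 hτ
  have ho : Orthonormal ℂ (fun i => e (w i)) := by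
    rw [orthonormal_iff_ite]
    intro i j
    rw [he, hw]
  have h1 := ho.inner_sum x x Finset.univ
  have h2 : (∑ i, x i • e (w i)) = e (∑ j, x j • w j) := by
    rw [map_sum]
    exact Finset.sum_congr rfl fun j _ => (map_smul _ _ _).symm
  rw [h2, he] at h1
  unfold hs
  rw [h1, Complex.re_sum]
  refine Finset.sum_congr rfl fun j _ => ?_
  rw [Complex.conj_mul']
  norm_cast

private lemma compr_contr (hτ : Trc τ) {d : ℕ} {w : Fin d → N}
    (hw : ∀ i j, τ (star (w i) * w j) = if i = j then 1 else 0) {v : N} (hv : Un v)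
    (x : Fin d → ℂ) :
    ∑ l, ‖∑ j, τ (star (w l) * v * w j) * x j‖ ^ 2 ≤ ∑ j, ‖x j‖ ^ 2 := by
  rw [← hs_sum_smul hτ hw x, ← hs_unit_mul hv]
  refine le_trans (le_of_eq ?_) (sum_le_hs hτ hw _)
  refine Finset.sum_congr rfl fun l _ => ?_
  congr 2
  rw [Finset.mul_sum, Finset.mul_sum, map_sum]
  refine Finset.sum_congr rfl fun j _ => ?_
  rw [mul_smul_comm, mul_smul_comm, map_smul, smul_eq_mul, mul_comm, mul_assoc]

end onb

/-! ## blocks -/

section blocks

variable {N : Type} [CStarAlgebra N] {L : ℕ} {E : Fin L → Fin L → N} {r : ℕ} {d n : Fin r → ℕ}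

/-- The index map. -/
private def pp (pos : (Σ i : Fin r, Fin (n i) × Fin (d i)) → Fin L) :
    (Σ b : (Σ i : Fin r, Fin (n i)), Fin (d b.1)) → Fin L :=
  fun k => pos ⟨k.1.1, (k.1.2, k.2)⟩

private lemma pp_inj {pos : (Σ i : Fin r, Fin (n i) × Fin (d i)) → Fin L}
    (h : Function.Injective pos) : Function.Injective (pp pos) := by
  rintro ⟨⟨i, m⟩, j⟩ ⟨⟨i', m'⟩, j'⟩ h1
  have h2 := h h1
  obtain ⟨rfl, h3⟩ := Sigma.mk.inj_iff.1 h2
  have h4 := eq_of_heq h3
  obtain ⟨rfl, rfl⟩ := Prod.mk.inj h4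
  rfl

private lemma rho_bd (p : (Σ b : (Σ i : Fin r, Fin (n i)), Fin (d b.1)) → Fin L)
    (M : ∀ b : (Σ i : Fin r, Fin (n i)), Matrix (Fin (d b.1)) (Fin (d b.1)) ℂ) :
    rho E p (blockDiagonal' M) = ∑ b, ∑ l, ∑ j, M b l j • E (p ⟨b, l⟩) (p ⟨b, j⟩) := by
  rw [rho_apply, Fintype.sum_sigma]
  refine Finset.sum_congr rfl fun b _ => Finset.sum_congr rfl fun l _ => ?_
  rw [Fintype.sum_sigma, Finset.sum_eq_single b]
  · exact Finset.sum_congr rfl fun j _ => by rw [blockDiagonal'_apply_eq]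
  · intro b' _ hb
    exact Finset.sum_eq_zero fun j _ => by
      rw [blockDiagonal'_apply_ne _ _ _ hb.symm, zero_smul]
  · exact fun h => absurd (Finset.mem_univ _) h

private lemma theta_eq (pos : (Σ i : Fin r, Fin (n i) × Fin (d i)) → Fin L)
    (a : ∀ i, Fin (d i) → Fin (d i) → ℂ) :
    ∑ i, ∑ m : Fin (n i), ∑ j, ∑ l, a i l j • E (pos ⟨i, m, l⟩) (pos ⟨i, m, j⟩) =
      rho E (pp pos) (blockDiagonal' fun b => Matrix.of (a b.1)) := by
  rw [rho_bd, Fintype.sum_sigma]
  refine Finset.sum_congr rfl fun i _ => Finset.sum_congr rfl fun m _ => ?_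
  rw [Finset.sum_comm]
  rfl

private lemma e_eq (pos : (Σ i : Fin r, Fin (n i) × Fin (d i)) → Fin L) :
    ∑ b, E (pos b) (pos b) = rho E (pp pos) 1 := by
  rw [rho_one, Fintype.sum_sigma, Fintype.sum_sigma, Fintype.sum_sigma]
  refine Finset.sum_congr rfl fun i _ => ?_
  rw [Fintype.sum_prod_type]
  rfl

/-- The projection onto a set of blocks. -/
private noncomputable def PS (d : Fin r → ℕ) (S : Finset (Σ i : Fin r, Fin (n i))) :
    Matrix (Σ b : (Σ i : Fin r, Fin (n i)), Fin (d b.1))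
      (Σ b : (Σ i : Fin r, Fin (n i)), Fin (d b.1)) ℂ :=
  blockDiagonal' fun b => if b ∈ S then 1 else 0

private lemma PS_mul (S : Finset (Σ i : Fin r, Fin (n i)))
    (M : ∀ b : (Σ i : Fin r, Fin (n i)), Matrix (Fin (d b.1)) (Fin (d b.1)) ℂ) :
    PS d S * blockDiagonal' M = blockDiagonal' M * PS d S := by
  unfold PS
  rw [← blockDiagonal'_mul, ← blockDiagonal'_mul]
  congr 1
  funext b
  split_ifs <;> simp

private lemma PS_mul_eq (S : Finset (Σ i : Fin r, Fin (n i)))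
    (M : ∀ b : (Σ i : Fin r, Fin (n i)), Matrix (Fin (d b.1)) (Fin (d b.1)) ℂ) :
    PS d S * blockDiagonal' M = blockDiagonal' fun b => if b ∈ S then M b else 0 := by
  unfold PS
  rw [← blockDiagonal'_mul]
  congr 1
  funext b
  split_ifs <;> simp

private lemma PS_sq (S : Finset (Σ i : Fin r, Fin (n i))) : PS d S * PS d S = PS d S := by
  conv_lhs => rw [PS]
  rw [show (blockDiagonal' fun b : (Σ i : Fin r, Fin (n i)) =>
    if b ∈ S then (1 : Matrix (Fin (d b.1)) (Fin (d b.1)) ℂ) else 0) = PS d S from rfl, PS,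
    ← blockDiagonal'_mul]
  congr 1
  funext b
  split_ifs <;> simp

private lemma PS_star (S : Finset (Σ i : Fin r, Fin (n i))) : (PS d S)ᴴ = PS d S := by
  unfold PS
  rw [blockDiagonal'_conjTranspose]
  congr 1
  funext b
  split_ifs <;> simp

private lemma PS_trace (S : Finset (Σ i : Fin r, Fin (n i))) :
    (PS d S).trace = ∑ b ∈ S, (d b.1 : ℂ) := by
  unfold PS
  rw [Matrix.trace_blockDiagonal']
  rw [← Finset.sum_filter_add_sum_filter_not Finset.univ (fun b => b ∈ S)]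
  rw [Finset.sum_congr rfl (g := fun b : (Σ i : Fin r, Fin (n i)) => (d b.1 : ℂ))]
  · rw [Finset.sum_eq_zero (s := Finset.univ.filter fun b => ¬ b ∈ S), add_zero]
    · congr 1
      ext b; simp
    · intro b hb
      rw [if_neg (Finset.mem_filter.1 hb).2, Matrix.trace_zero]
  · intro b hb
    rw [if_pos (Finset.mem_filter.1 hb).2, Matrix.trace_one, Fintype.card_fin]

private lemma exists_M (hE : MU E) {pos : (Σ i : Fin r, Fin (n i) × Fin (d i)) → Fin L}
    (hp : Function.Injective pos) (S : Finset (Σ i : Fin r, Fin (n i))) {V q : N} (hq : Pr q)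
    (hV : star V * V = rho E (pp pos) (PS d S)) (hqV : q * V = V) :
    ∃ M : NonUnitalStarSubalgebra ℂ N, FiniteDimensional ℂ M ∧ (∀ y ∈ M, q * y * q = y) ∧
      ∀ A : ∀ i, Matrix (Fin (d i)) (Fin (d i)) ℂ,
        V * rho E (pp pos) (blockDiagonal' fun b => A b.1) * star V ∈ M := by
  have hpp := pp_inj hp
  have hVe : V * rho E (pp pos) (PS d S) = V := by
    have h1 : star (V - V * rho E (pp pos) (PS d S)) * (V - V * rho E (pp pos) (PS d S)) = 0 := by
      have h2 : star (rho E (pp pos) (PS d S)) = rho E (pp pos) (PS d S) := by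
        rw [← rho_star hE, PS_star]
      have h3 : rho E (pp pos) (PS d S) * rho E (pp pos) (PS d S) = rho E (pp pos) (PS d S) := by
        rw [← rho_mul hE hpp, PS_sq]
      rw [star_sub, star_mul, h2]
      calc (star V - rho E (pp pos) (PS d S) * star V) * (V - V * rho E (pp pos) (PS d S)) =
          star V * V - (star V * V) * rho E (pp pos) (PS d S) -
            rho E (pp pos) (PS d S) * (star V * V) +
            rho E (pp pos) (PS d S) * (star V * V) * rho E (pp pos) (PS d S) := by noncomm_ring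
        _ = 0 := by rw [hV, h3, h3]; abel
    have h4 := CStarRing.star_mul_self_eq_zero_iff _ |>.1 h1
    exact (sub_eq_zero.1 h4).symm
  let Ψ : (∀ i, Matrix (Fin (d i)) (Fin (d i)) ℂ) →ₗ[ℂ] N :=
    { toFun := fun A => V * rho E (pp pos) (blockDiagonal' fun b => A b.1) * star V
      map_add' := fun A B => by
        rw [← add_mul, ← mul_add, ← map_add, ← blockDiagonal'_add]; rfl
      map_smul' := fun c A => by
        rw [RingHom.id_apply, ← smul_mul_assoc, ← mul_smul_comm, ← map_smul,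
          ← blockDiagonal'_smul]; rfl }
  have hΨ : ∀ A, Ψ A = V * rho E (pp pos) (blockDiagonal' fun b => A b.1) * star V :=
    fun A => rfl
  let M : NonUnitalStarSubalgebra ℂ N :=
    { carrier := Set.range Ψ
      add_mem' := by
        rintro _ _ ⟨A, rfl⟩ ⟨B, rfl⟩
        exact ⟨A + B, map_add _ _ _⟩
      zero_mem' := ⟨0, map_zero _⟩
      smul_mem' := by
        rintro c _ ⟨A, rfl⟩
        exact ⟨c • A, map_smul _ _ _⟩
      mul_mem' := by
        rintro _ _ ⟨A, rfl⟩ ⟨B, rfl⟩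
        refine ⟨A * B, ?_⟩
        rw [hΨ, hΨ, hΨ]
        have h1 : (blockDiagonal' fun b : (Σ i : Fin r, Fin (n i)) => (A * B) b.1) =
            (blockDiagonal' fun b : (Σ i : Fin r, Fin (n i)) => A b.1) *
              blockDiagonal' fun b : (Σ i : Fin r, Fin (n i)) => B b.1 := by
          rw [← blockDiagonal'_mul]; rfl
        calc V * rho E (pp pos) (blockDiagonal' fun b => (A * B) b.1) * star V =
            V * (rho E (pp pos) (PS d S) * rho E (pp pos) (blockDiagonal' fun b => (A * B) b.1)) *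
              star V := by rw [← mul_assoc, hVe]
          _ = V * (rho E (pp pos) (blockDiagonal' fun b => A b.1) * rho E (pp pos) (PS d S) *
              rho E (pp pos) (blockDiagonal' fun b => B b.1)) * star V := by
              rw [h1, ← rho_mul hE hpp, ← mul_assoc, PS_mul, rho_mul hE hpp, rho_mul hE hpp]
          _ = _ := by rw [← hV]; noncomm_ring
      star_mem' := by
        rintro _ ⟨A, rfl⟩
        refine ⟨fun i => (A i)ᴴ, ?_⟩
        rw [hΨ, hΨ, star_mul, star_mul, star_star, ← rho_star hE, blockDiagonal'_conjTranspose,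
          mul_assoc] }
  have hM : ∀ A, Ψ A ∈ M := fun A => ⟨A, rfl⟩
  refine ⟨M, ?_, ?_, hM⟩
  · let g : (∀ i, Matrix (Fin (d i)) (Fin (d i)) ℂ) →ₗ[ℂ] M :=
      { toFun := fun A => ⟨Ψ A, hM A⟩
        map_add' := fun A B => Subtype.ext (map_add Ψ A B)
        map_smul' := fun c A => Subtype.ext (map_smul Ψ c A) }
    refine Module.Finite.of_surjective g ?_
    rintro ⟨_, A, rfl⟩
    exact ⟨A, rfl⟩
  · rintro _ ⟨A, rfl⟩
    have h1 : star V * q = star V := by
      have := congrArg star hqV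
      rwa [star_mul, hq.1] at this
    rw [hΨ]
    calc q * (V * rho E (pp pos) (blockDiagonal' fun b => A b.1) * star V) * q =
        (q * V) * rho E (pp pos) (blockDiagonal' fun b => A b.1) * (star V * q) := by
          noncomm_ring
      _ = _ := by rw [hqV, h1]

end blocks

section blocks2

variable {N : Type} [CStarAlgebra N] [PartialOrder N] [StarOrderedRing N] {L : ℕ}
  {E : Fin L → Fin L → N} {r : ℕ} {d n : Fin r → ℕ} {τ : N →ₗ[ℂ] ℂ}

private lemma norm_theta_le (hτ : Trc τ) (hE : MU E)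
    {pos : (Σ i : Fin r, Fin (n i) × Fin (d i)) → Fin L} (hp : Function.Injective pos)
    {w : ∀ i, Fin (d i) → N} (hw : ∀ i j j', τ (star (w i j) * w i j') = if j = j' then 1 else 0)
    {v : N} (hv : Un v) :
    ‖rho E (pp pos) (blockDiagonal' fun b => Matrix.of fun l j =>
      τ (star (w b.1 l) * v * w b.1 j))‖ ≤ 1 := by
  have h1 : ∀ i, ∃ B : Matrix (Fin (d i)) (Fin (d i)) ℂ,
      (Matrix.of fun l j => τ (star (w i l) * v * w i j))ᴴ *
        (Matrix.of fun l j => τ (star (w i l) * v * w i j)) + Bᴴ * B = 1 := by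
    intro i
    exact exists_compl _ fun x => compr_contr hτ (hw i) hv x
  choose B hB using h1
  refine norm_rho_le hE (pp_inj hp) (B := blockDiagonal' fun b => B b.1) ?_
  rw [blockDiagonal'_conjTranspose, blockDiagonal'_conjTranspose, ← blockDiagonal'_mul,
    ← blockDiagonal'_mul, ← blockDiagonal'_add, ← blockDiagonal'_one]
  congr 1
  funext b
  exact hB b.1

private lemma star_theta (hτ : Trc τ) (hE : MU E)
    {pos : (Σ i : Fin r, Fin (n i) × Fin (d i)) → Fin L} {w : ∀ i, Fin (d i) → N} {v : N} :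
    star (rho E (pp pos) (blockDiagonal' fun b => Matrix.of fun l j =>
      τ (star (w b.1 l) * v * w b.1 j))) =
      rho E (pp pos) (blockDiagonal' fun b => Matrix.of fun l j =>
        τ (star (w b.1 l) * star v * w b.1 j)) := by
  rw [← rho_star hE, blockDiagonal'_conjTranspose]
  congr 2
  funext b
  ext l j
  rw [Matrix.conjTranspose_apply, Matrix.of_apply, Matrix.of_apply, RCLike.star_def,
    ← map_star' hτ, star_mul, star_mul, star_star, mul_assoc]

private lemma rt_rho (hτ : Trc τ) (hE : MU E)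
    {pos : (Σ i : Fin r, Fin (n i) × Fin (d i)) → Fin L} (hp : Function.Injective pos)
    (S : Finset (Σ i : Fin r, Fin (n i))) :
    rt τ (rho E (pp pos) (PS d S)) = (∑ b ∈ S, (d b.1 : ℝ)) / L := by
  unfold rt
  rw [tr_rho hE hτ (pp_inj hp), PS_trace]
  have h1 : (1 / (L : ℂ) * ∑ b ∈ S, (d b.1 : ℂ)) = (((∑ b ∈ S, (d b.1 : ℝ)) / L : ℝ) : ℂ) := by
    push_cast
    ring
  rw [h1, Complex.ofReal_re]

private lemma sum_S (k : Fin r → ℕ) (hk : ∀ i, k i ≤ n i) :
    ∑ b ∈ (Finset.univ.filter fun b : (Σ i : Fin r, Fin (n i)) => (b.2 : ℕ) < k b.1),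
      (d b.1 : ℝ) = ∑ i, (k i : ℝ) * d i := by
  rw [Finset.sum_filter, Fintype.sum_sigma]
  refine Finset.sum_congr rfl fun i _ => ?_
  have h1 := Fin.sum_univ_eq_sum_range (fun m => if m < k i then (d i : ℝ) else 0) (n i)
  rw [h1, ← Finset.sum_filter, Finset.sum_const, nsmul_eq_mul]
  congr 2
  have h2 : (Finset.range (n i)).filter (fun m => m < k i) = Finset.range (k i) := by
    ext m
    rw [Finset.mem_filter, Finset.mem_range, Finset.mem_range]
    have := hk i
    constructor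
    · exact fun h => h.2
    · exact fun h => ⟨by omega, h⟩
  rw [h2, Finset.card_range]

end blocks2

/-! ## the selection of the parameters -/

private lemma stageA (hLQ : StLQ) {N : Type} [CStarAlgebra N] [PartialOrder N]
    [StarOrderedRing N] {τ : N →ₗ[ℂ] ℂ} (hτ : II1 τ) {r : ℕ} {d : Fin r → ℕ}
    (w : ∀ i, Fin (d i) → N) {t : Fin r → ℝ} {C η' ρ εL m : ℝ} (hη : 0 < η')
    (hηC : η' * C ≤ 1) (hρ : 0 < ρ) (hεL : 0 < εL) (ht : ∀ i, 0 < t i)
    (hm : m = ∑ i, t i * d i) (hm0 : 0 < m) (hmC : m ≤ C) :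
    ∃ (L : ℕ) (E : Fin L → Fin L → N) (n : Fin r → ℕ)
      (pos : (Σ i, Fin (n i) × Fin (d i)) → Fin L),
      0 < L ∧ MU E ∧ Function.Injective pos ∧
      (∀ i j j', ∑ l, hs τ (E l l * (star (w i j) * w i j') * E l l) ≤
        ‖τ (star (w i j) * w i j')‖ ^ 2 + εL) ∧
      (∀ i, (n i : ℝ) / L ≤ η' * t i) ∧
      η' * m - (∑ i, (d i : ℝ)) / L ≤ ∑ i, (n i : ℝ) * d i / L ∧
      (∑ i, (d i : ℝ)) / L ≤ ρ * η' * m / 2 := by
  classical
  set D : ℝ := ∑ i, (d i : ℝ) with hD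
  have hD0 : 0 ≤ D := Finset.sum_nonneg fun i _ => Nat.cast_nonneg _
  obtain ⟨L, hL, hL0, E, hE, hY⟩ := hLQ N τ hτ
    (Finset.univ.image fun x : (Σ i, Fin (d i) × Fin (d i)) =>
      star (w x.1 x.2.1) * w x.1 x.2.2) εL ⌈2 * D / (ρ * η' * m)⌉₊ hεL
  have hLr : (0 : ℝ) < L := by exact_mod_cast hL0
  have hL1 : 2 * D / (ρ * η' * m) ≤ L := by
    refine (Nat.le_ceil _).trans ?_
    exact_mod_cast hL
  have hpm : 0 < ρ * η' * m := by positivity
  have hDL : D / L ≤ ρ * η' * m / 2 := by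
    rw [div_le_iff₀ hpm] at hL1
    rw [div_le_div_iff₀ hLr two_pos]
    linarith
  let n : Fin r → ℕ := fun i => ⌊η' * t i * L⌋₊
  have hn0 : ∀ i, 0 ≤ η' * t i * L := fun i => by have := ht i; positivity
  have hn1 : ∀ i, (n i : ℝ) ≤ η' * t i * L := fun i => Nat.floor_le (hn0 i)
  have hn2 : ∀ i, η' * t i * L - 1 ≤ n i := fun i => by
    have := Nat.lt_floor_add_one (η' * t i * L)
    show η' * t i * L - 1 ≤ (⌊η' * t i * L⌋₊ : ℝ)
    linarith
  have hcard : Fintype.card (Σ i, Fin (n i) × Fin (d i)) ≤ Fintype.card (Fin L) := by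
    rw [Fintype.card_sigma, Fintype.card_fin]
    simp only [Fintype.card_prod, Fintype.card_fin]
    have h1 : ((∑ i, n i * d i : ℕ) : ℝ) ≤ L := by
      push_cast
      calc ∑ i, (n i : ℝ) * d i ≤ ∑ i, (η' * L) * (t i * d i) := by
            refine Finset.sum_le_sum fun i _ => ?_
            have := mul_le_mul_of_nonneg_right (hn1 i) (Nat.cast_nonneg (α := ℝ) (d i))
            linarith
        _ = η' * m * L := by rw [← Finset.mul_sum, ← hm]; ring
        _ ≤ 1 * L := by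
            refine mul_le_mul_of_nonneg_right ?_ hLr.le
            exact (mul_le_mul_of_nonneg_left hmC hη.le).trans hηC
        _ = L := one_mul _
    exact_mod_cast h1
  obtain ⟨pos⟩ := Function.Embedding.nonempty_of_card_le hcard
  refine ⟨L, E, n, pos, hL0, hE, pos.injective, ?_, ?_, ?_, hDL⟩
  · intro i j j'
    exact hY _ (Finset.mem_image.2 ⟨⟨i, (j, j')⟩, Finset.mem_univ _, rfl⟩)
  · intro i
    rw [div_le_iff₀ hLr]
    exact hn1 i
  · rw [hm, Finset.mul_sum, hD, Finset.sum_div, ← Finset.sum_sub_distrib]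
    refine Finset.sum_le_sum fun i _ => ?_
    rw [le_div_iff₀ hLr, sub_mul, div_mul_cancel₀ _ hLr.ne']
    have := mul_le_mul_of_nonneg_right (hn2 i) (Nat.cast_nonneg (α := ℝ) (d i))
    linarith

private lemma hs_mid_le {N : Type} [CStarAlgebra N] [PartialOrder N] [StarOrderedRing N]
    {τ : N →ₗ[ℂ] ℂ} (hτ : Trc τ) {a b : N} (ha : ‖a‖ ≤ 1) : hs τ (a * b * a) ≤ hs τ b :=
  (hs_mul_right_le hτ ha).trans (hs_mul_left_le hτ ha)

/-- The last part of the proof. -/
private lemma stageD (hPE : StPE) {N : Type} [CStarAlgebra N] [PartialOrder N]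
    [StarOrderedRing N] {τ : N →ₗ[ℂ] ℂ} (hτ : II1 τ) {ι : Type} {F : Finset ι} {u : ι → N}
    (hu : ∀ s, Un (u s)) {L : ℕ} {E : Fin L → Fin L → N} {r : ℕ} {d n : Fin r → ℕ}
    {w : ∀ i, Fin (d i) → N} (hw : ∀ i j j', τ (star (w i j) * w i j') = if j = j' then 1 else 0)
    (hE : MU E)
    {pos : (Σ i : Fin r, Fin (n i) × Fin (d i)) → Fin L} (hp : Function.Injective pos)
    {S : Finset (Σ i : Fin r, Fin (n i))} {q x z : N} {ρ T ε' γ : ℝ}
    (hT : 0 < T) (hρ : ρ ≤ 1 / 4) (hγ : 70 * ρ * T + 4 * γ ≤ 3 / 4 * ε' * T)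
    (hε' : 0 ≤ ε')
    (hS1 : rt τ (rho E (pp pos) (PS d S)) ≤ (1 - ρ) * T)
    (hS2 : (1 - 2 * ρ) * T ≤ rt τ (rho E (pp pos) (PS d S)))
    (hq : Pr q) (hqz : q * z = z)
    (hzx : hs τ (z - x) ≤ ρ * T) (hzz : hs τ (star z * z - rho E (pp pos) 1) ≤ ρ * T)
    (hqT : |rt τ q - T| ≤ ρ * T)
    (hx : ∀ s ∈ F, hs τ (u s * x - x * rho E (pp pos) (blockDiagonal' fun b => Matrix.of fun l j =>
      τ (star (w b.1 l) * u s * w b.1 j))) ≤ γ) :
    ∃ M : NonUnitalStarSubalgebra ℂ N, GP τ F u ε' q M := by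
  have hpp := pp_inj hp
  set em : N := rho E (pp pos) (PS d S) with hem
  have hemP : Pr em := pr_rho hE hpp (PS_star S) (PS_sq S)
  have hqT' := abs_le.1 hqT
  have he1 : rho E (pp pos) 1 * em = em := by
    rw [hem, ← rho_mul hE hpp, one_mul]
  obtain ⟨V, hV1, hV2, hV3⟩ := hPE N τ hτ em q (z * em) hemP hq
    (by rw [← mul_assoc, hqz]) (by rw [mul_assoc, hemP.2]) (by linarith)
  have hVn : ‖V‖ ≤ 1 := by
    have h1 := norm_le_one_of_nonneg (nonneg_star_mul V) (by rw [hV1]; exact hemP.le_one)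
    rw [CStarRing.norm_star_mul_self] at h1
    nlinarith [norm_nonneg V]
  have hV4 : hs τ (V - z * em) ≤ ρ * T := by
    refine hV3.trans (le_trans ?_ hzz)
    have h1 : star (z * em) * (z * em) - em = em * (star z * z - rho E (pp pos) 1) * em := by
      rw [star_mul, hemP.1]
      calc em * star z * (z * em) - em = em * (star z * z) * em - em * em := by
            rw [hemP.2]; noncomm_ring
        _ = em * (star z * z) * em - em * (rho E (pp pos) 1 * em) := by rw [he1]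
        _ = _ := by noncomm_ring
    rw [h1]
    exact hs_mid_le hτ.trc hemP.norm_le
  have hR : hs τ (V - x * em) ≤ 4 * ρ * T := by
    have h1 : V - x * em = (V - z * em) + (z - x) * em := by noncomm_ring
    rw [h1]
    refine (hs_add_le hτ.trc _ _).trans ?_
    have h2 : hs τ ((z - x) * em) ≤ hs τ (z - x) := hs_mul_right_le hτ.trc hemP.norm_le
    linarith
  have hVV : Pr (V * star V) := by
    refine ⟨by rw [star_mul, star_star], ?_⟩
    calc V * star V * (V * star V) = V * (star V * V) * star V := by noncomm_ring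
      _ = V * star V := by
        have h1 : star (V - V * em) * (V - V * em) = 0 := by
          rw [star_sub, star_mul, hemP.1]
          calc (star V - em * star V) * (V - V * em) =
              star V * V - (star V * V) * em - em * (star V * V) +
                em * (star V * V) * em := by noncomm_ring
            _ = 0 := by rw [hV1, hemP.2, hemP.2]; abel
        have h2 := CStarRing.star_mul_self_eq_zero_iff _ |>.1 h1
        rw [hV1, ← sub_eq_zero.1 h2]
  have hqV : hs τ (q - V * star V) ≤ 3 * ρ * T := by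
    rw [(hq.sub hVV (by rw [← mul_assoc, hV2])).hs, rt_sub, rt_mul_comm hτ.trc V, hV1]
    linarith
  obtain ⟨M, hM1, hM2, hM3⟩ := exists_M (d := d) (n := n) hE hp S hq hV1 hV2
  refine ⟨M, hq, hM1, hM2, ?_⟩
  intro s hs'
  set θ : N := rho E (pp pos) (blockDiagonal' fun b => Matrix.of fun l j =>
      τ (star (w b.1 l) * u s * w b.1 j)) with hθ
  have hθn : ‖θ‖ ≤ 1 := norm_theta_le hτ.trc hE hp hw (hu s)
  have hcomm : em * θ = θ * em := by
    rw [hem, hθ, ← rho_mul hE hpp, PS_mul, rho_mul hE hpp]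
  refine ⟨V * θ * star V, hM3 fun i => Matrix.of fun l j => τ (star (w i l) * u s * w i j),
    ?_, ?_⟩
  · have h1 : ‖V * θ‖ ≤ 1 := (norm_mul_le _ _).trans (by
      nlinarith [norm_nonneg V, norm_nonneg θ])
    refine (norm_mul_le _ _).trans ?_
    rw [norm_star]
    nlinarith [norm_nonneg V, norm_nonneg (V * θ)]
  · have h1 : u s * q - V * θ * star V =
        u s * (q - V * star V) + (u s * V - V * θ) * star V := by noncomm_ring
    have h2 : u s * V - V * θ =
        (u s * (V - x * em) + -((V - x * em) * θ)) + (u s * x - x * θ) * em := by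
      calc u s * V - V * θ = (u s * (V - x * em) + -((V - x * em) * θ)) +
            (u s * x * em - x * (em * θ)) := by noncomm_ring
        _ = _ := by rw [hcomm]; noncomm_ring
    have h3 : hs τ (u s * V - V * θ) ≤ 32 * ρ * T + 2 * γ := by
      rw [h2]
      refine (hs_add_le hτ.trc _ _).trans ?_
      have a1 := hs_add_le hτ.trc (u s * (V - x * em)) (-((V - x * em) * θ))
      rw [hs_neg, hs_unit_mul (hu s)] at a1
      have a2 : hs τ ((V - x * em) * θ) ≤ hs τ (V - x * em) := hs_mul_right_le hτ.trc hθn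
      have a3 : hs τ ((u s * x - x * θ) * em) ≤ hs τ (u s * x - x * θ) :=
        hs_mul_right_le hτ.trc hemP.norm_le
      have a4 := hx s hs'
      linarith
    have h4 : hs τ (u s * q - V * θ * star V) ≤ 70 * ρ * T + 4 * γ := by
      rw [h1]
      refine (hs_add_le hτ.trc _ _).trans ?_
      rw [hs_unit_mul (hu s)]
      have a1 : hs τ ((u s * V - V * θ) * star V) ≤ hs τ (u s * V - V * θ) :=
        hs_mul_right_le hτ.trc (by rwa [norm_star])
      linarith
    refine h4.trans (hγ.trans ?_)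
    have h5 : 3 / 4 * T ≤ rt τ q := by nlinarith
    nlinarith

private theorem core (hLQ : StLQ) (hRS : StRS) (hPE : StPE) {N : Type} [CStarAlgebra N]
    [PartialOrder N] [StarOrderedRing N] {τ : N →ₗ[ℂ] ℂ} {ι : Type} {F : Finset ι} {u : ι → N}
    {Q : N} {r : ℕ} {d : Fin r → ℕ} {w : ∀ i, Fin (d i) → N} {t : Fin r → ℝ}
    {C ε' ρ ω η' κ ν e εf m : ℝ} (hC : 1 ≤ C) (hε' : 0 < ε') (hρ : 0 < ρ) (hρ1 : ρ ≤ 1 / 4)
    (hρε : 432 * ρ ≤ ε') (hω : 0 < ω) (hω1 : ω ≤ 1) (hωρ : 100 * Real.sqrt ω ≤ ρ) (hη : 0 < η')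
    (hηω : 12 * η' * C ≤ ω ^ 2) (hκ0 : 0 < κ) (hκ : 24 * κ ≤ ω) (hν : 0 < ν) (he : 0 < e)
    (heν : 72 * C * e ≤ ν) (heε : 288 * e ≤ ε') (hεf : 0 < εf)
    (hRy : ∀ (θ θ' : ι → N) (p x : N), Pr p → p ≠ 0 → x * p = x →
      (∀ s, ‖θ s‖ ≤ 1 ∧ star (θ s) = θ' s) →
      hs τ (star x * x - p) ≤ ω ^ 2 * rt τ p → hs τ (Q * x) ≤ ω * rt τ p →
      ∑ s ∈ F, (hs τ (u s * x - x * θ s) + hs τ (star (u s) * x - x * θ' s) +
        hs τ ((u s * Q - Q * u s) * x) + hs τ ((star (u s) * Q - Q * star (u s)) * x)) ≤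
          ν * rt τ p →
      ∃ q z : N, Pr q ∧ q * Q = 0 ∧ En τ F u q ≤ εf * rt τ p ∧ ‖z‖ ≤ 1 ∧ q * z = z ∧
        z * p = z ∧ hs τ (z - x) ≤ 100 * Real.sqrt ω * rt τ p ∧
        hs τ (star z * z - p) ≤ 100 * Real.sqrt ω * rt τ p ∧
        |rt τ q - rt τ p| ≤ 100 * Real.sqrt ω * rt τ p)
    (hτ : II1 τ) (hu : ∀ s, Un (u s)) (hQ : Pr Q) (ht : ∀ i, 0 < t i)
    (hw : ∀ i j j', τ (star (w i j) * w i j') = if j = j' then 1 else 0)
    (hwe : ∀ i, ∑ s ∈ F, ((d i : ℝ) - ∑ j, ∑ j', ‖τ (star (w i j) * u s * w i j')‖ ^ 2) ≤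
      e * d i)
    (hm : m = ∑ i, t i * d i) (hm0 : 0 < m)
    (hY : ∑ i, t i • ∑ j, w i j * star (w i j) ≤ C • (1 : N))
    (hYQ : rt τ ((∑ i, t i • ∑ j, w i j * star (w i j)) * Q) ≤ κ * m)
    (hQe : En τ F u Q ≤ e * m) :
    ∃ (q : N) (M : NonUnitalStarSubalgebra ℂ N), q * Q = 0 ∧ η' / 4 * m ≤ rt τ q ∧
      En τ F u q ≤ εf ∧ GP τ F u ε' q M := by
  have hC0 : 0 < C := by linarith
  have hηC : η' * C ≤ 1 := by
    have h1 : ω ^ 2 ≤ 1 := pow_le_one₀ hω.le hω1
    have h2 : 0 < η' * C := mul_pos hη hC0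
    linarith
  have hww : ∀ i j, rt τ (w i j * star (w i j)) = 1 := by
    intro i j
    rw [rt_mul_comm hτ.trc]
    unfold rt
    rw [hw, if_pos rfl, Complex.one_re]
  have hmC : m ≤ C := by
    have h1 := rt_mono hτ.trc hY
    rw [rt_smul, rt_one hτ.trc, mul_one, rt_sum] at h1
    refine le_trans (le_of_eq ?_) h1
    rw [hm]
    refine Finset.sum_congr rfl fun i _ => ?_
    rw [rt_smul, rt_sum, Finset.sum_congr rfl fun j _ => hww i j]
    simp
  set D : ℝ := ∑ i, (d i : ℝ) with hD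
  have hdD : ∀ i, (d i : ℝ) ≤ D := fun i =>
    Finset.single_le_sum (f := fun i => (d i : ℝ)) (fun j _ => Nat.cast_nonneg _)
      (Finset.mem_univ i)
  have hD0 : 0 ≤ D := Finset.sum_nonneg fun i _ => Nat.cast_nonneg _
  set εL : ℝ := η' * C / (2 * (D + 1)) with hεL
  have hεL0 : 0 < εL := by positivity
  obtain ⟨L, E, n, pos, hL0, hE, hp, hLQ', hn, hT1, hDL⟩ := stageA hLQ hτ w hη hηC hρ hεL0 ht
    hm hm0 hmC
  have hLr : (0 : ℝ) < L := by exact_mod_cast hL0
  set T : ℝ := ∑ i, (n i : ℝ) * d i / L with hTdef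
  have hTup : T ≤ η' * m := by
    rw [hTdef, hm, Finset.mul_sum]
    refine Finset.sum_le_sum fun i _ => ?_
    have := mul_le_mul_of_nonneg_right (hn i) (Nat.cast_nonneg (α := ℝ) (d i))
    calc (n i : ℝ) * d i / L = (n i : ℝ) / L * d i := by ring
      _ ≤ _ := by linarith
  have hηm : 0 < η' * m := by positivity
  have hρηm : ρ * (η' * m) ≤ 1 / 4 * (η' * m) := mul_le_mul_of_nonneg_right hρ1 hηm.le
  have hTlow : η' * m / 2 ≤ T := by linarith
  have hT0 : 0 < T := by linarith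
  have hT1' : T ≤ 1 := hTup.trans ((mul_le_mul_of_nonneg_left hmC hη.le).trans hηC)
  have hDT : D / L ≤ ρ * T := by
    have h1 := mul_le_mul_of_nonneg_left hTlow hρ.le
    linarith
  have hT' : T = (∑ i, (n i : ℝ) * d i) / L := by rw [hTdef, Finset.sum_div]
  have hpp := pp_inj hp
  -- the trace of the projection
  have heT : rt τ (rho E (pp pos) (1 : Matrix (Σ b : (Σ i : Fin r, Fin (n i)), Fin (d b.1))
      (Σ b : (Σ i : Fin r, Fin (n i)), Fin (d b.1)) ℂ)) = T := by
    unfold rt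
    rw [tr_rho hE hτ.trc hpp, Matrix.trace_one, Fintype.card_sigma]
    simp only [Fintype.card_fin]
    have h1 : (∑ b : (Σ i : Fin r, Fin (n i)), d b.1) = ∑ i, n i * d i := by
      rw [Fintype.sum_sigma]
      refine Finset.sum_congr rfl fun i _ => ?_
      simp
    rw [h1, hT']
    have h2 : (1 / (L : ℂ) * ((∑ i, n i * d i : ℕ) : ℂ)) =
        (((∑ i, (n i : ℝ) * d i) / L : ℝ) : ℂ) := by
      push_cast
      ring
    rw [h2, Complex.ofReal_re]
  -- the random selection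
  set δ₀ : ℝ := min (min (3 * η' * C) (ω / 2)) (min (ν / 8) (ε' / 48)) with hδ₀
  have hδ₀0 : 0 < δ₀ := by
    refine lt_min (lt_min (by positivity) (by positivity)) (lt_min (by positivity) (by positivity))
  have hδ1 : δ₀ ≤ 3 * η' * C := (min_le_left _ _).trans (min_le_left _ _)
  have hδ2 : δ₀ ≤ ω / 2 := (min_le_left _ _).trans (min_le_right _ _)
  have hδ3 : δ₀ ≤ ν / 8 := (min_le_right _ _).trans (min_le_left _ _)
  have hδ4 : δ₀ ≤ ε' / 48 := (min_le_right _ _).trans (min_le_right _ _)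
  have hδ0 : 0 < δ₀ * T := mul_pos hδ₀0 hT0
  have hP0 : ∀ i, 0 ≤ ∑ j, w i j * star (w i j) := fun i =>
    Finset.sum_nonneg fun j _ => nonneg_mul_star _
  have hZ : ∑ i, ((n i : ℝ) / L) • ∑ j, w i j * star (w i j) ≤
      η' • ∑ i, t i • ∑ j, w i j * star (w i j) := by
    rw [Finset.smul_sum]
    refine Finset.sum_le_sum fun i _ => ?_
    rw [smul_smul]
    exact smul_mono_left (hn i) (hP0 i)
  have hZC : ∑ i, ((n i : ℝ) / L) • ∑ j, w i j * star (w i j) ≤ (η' * C) • (1 : N) := by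
    refine hZ.trans ?_
    rw [mul_smul]
    exact smul_mono_real hη.le hY
  obtain ⟨x, hx1, hx2, hx3, hx4, hx5, hx6, hx7⟩ := hRS N τ ι F u Q r d n w L E pos (η' * C) εL
    (δ₀ * T) hτ.trc hu hQ hL0 hE hp hw hLQ' (by positivity) hεL0.le hδ0 hZC
  rw [e_eq] at hx1 hx2
  have hen : ∀ i, 0 ≤ (n i : ℝ) / L := fun i => by positivity
  -- bounds
  have b2 : hs τ (star x * x - rho E (pp pos) 1) ≤ ω ^ 2 * T := by
    refine hx2.trans ?_
    have h1 : ∑ i, (n i : ℝ) * d i ^ 2 / L ≤ D * T := by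
      rw [hTdef, Finset.mul_sum]
      refine Finset.sum_le_sum fun i _ => ?_
      have h2 : (n i : ℝ) * d i ^ 2 / L = d i * ((n i : ℝ) * d i / L) := by ring
      rw [h2]
      exact mul_le_mul_of_nonneg_right (hdD i) (by positivity)
    have h3 : εL * ∑ i, (n i : ℝ) * d i ^ 2 / L ≤ η' * C / 2 * T := by
      calc εL * ∑ i, (n i : ℝ) * d i ^ 2 / L ≤ εL * (D * T) :=
            mul_le_mul_of_nonneg_left h1 hεL0.le
        _ ≤ εL * ((D + 1) * T) := by
            refine mul_le_mul_of_nonneg_left ?_ hεL0.le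
            exact mul_le_mul_of_nonneg_right (by linarith) hT0.le
        _ = η' * C / 2 * T := by
            rw [hεL]
            field_simp
    have h4 : δ₀ * T ≤ 3 * η' * C * T := mul_le_mul_of_nonneg_right hδ1 hT0.le
    have h5 : 12 * η' * C * T ≤ ω ^ 2 * T := mul_le_mul_of_nonneg_right hηω hT0.le
    linarith
  have b3 : hs τ (Q * x) ≤ ω * T := by
    refine hx3.trans ?_
    have h1 := rt_mul_mono hτ.trc hZ hQ.nonneg
    rw [smul_mul_assoc, rt_smul] at h1
    have h2 : η' * rt τ ((∑ i, t i • ∑ j, w i j * star (w i j)) * Q) ≤ η' * (κ * m) :=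
      mul_le_mul_of_nonneg_left hYQ hη.le
    have h3 : κ * (η' * m) ≤ κ * (2 * T) :=
      mul_le_mul_of_nonneg_left (by linarith) hκ0.le
    have h4 : 24 * κ * T ≤ ω * T := mul_le_mul_of_nonneg_right hκ hT0.le
    have h5 : δ₀ * T ≤ ω / 2 * T := mul_le_mul_of_nonneg_right hδ2 hT0.le
    linarith
  have b45 : 6 * (η' * C) * En τ F u Q ≤ 12 * C * e * T := by
    have h1 : 6 * (η' * C) * En τ F u Q ≤ 6 * (η' * C) * (e * m) :=
      mul_le_mul_of_nonneg_left hQe (by positivity)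
    have h2 : C * e * (η' * m) ≤ C * e * (2 * T) :=
      mul_le_mul_of_nonneg_left (by linarith) (by positivity)
    linarith
  have b67 : 6 * ∑ s ∈ F, ∑ i, (n i : ℝ) / L *
      (d i - ∑ j, ∑ l, ‖τ (star (w i l) * u s * w i j)‖ ^ 2) ≤ 6 * (e * T) := by
    refine mul_le_mul_of_nonneg_left ?_ (by norm_num)
    rw [Finset.sum_comm, hTdef, Finset.mul_sum]
    refine Finset.sum_le_sum fun i _ => ?_
    rw [← Finset.mul_sum]
    have h1 : ∑ s ∈ F, ((d i : ℝ) - ∑ j, ∑ l, ‖τ (star (w i l) * u s * w i j)‖ ^ 2) ≤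
        e * d i := by
      refine le_trans (le_of_eq ?_) (hwe i)
      refine Finset.sum_congr rfl fun s _ => ?_
      congr 1
      exact Finset.sum_comm
    calc (n i : ℝ) / L * ∑ s ∈ F, ((d i : ℝ) - ∑ j, ∑ l, ‖τ (star (w i l) * u s * w i j)‖ ^ 2) ≤
        (n i : ℝ) / L * (e * d i) := mul_le_mul_of_nonneg_left h1 (hen i)
      _ = _ := by ring
  set θ : ι → N := fun s => rho E (pp pos) (blockDiagonal' fun b => Matrix.of fun l j =>
      τ (star (w b.1 l) * u s * w b.1 j)) with hθ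
  set θ' : ι → N := fun s => rho E (pp pos) (blockDiagonal' fun b => Matrix.of fun l j =>
      τ (star (w b.1 l) * star (u s) * w b.1 j)) with hθ'
  have hx6' : ∑ s ∈ F, hs τ (u s * x - x * θ s) ≤ 6 * (e * T) + δ₀ * T := by
    refine le_trans (le_of_eq ?_) (hx6.trans (by linarith))
    refine Finset.sum_congr rfl fun s _ => ?_
    rw [theta_eq pos fun i l j => τ (star (w i l) * u s * w i j)]
  have hx7' : ∑ s ∈ F, hs τ (star (u s) * x - x * θ' s) ≤ 6 * (e * T) + δ₀ * T := by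
    refine le_trans (le_of_eq ?_) (hx7.trans (by linarith))
    refine Finset.sum_congr rfl fun s _ => ?_
    rw [theta_eq pos fun i l j => τ (star (w i l) * star (u s) * w i j)]
  have hpr1 : Pr (rho E (pp pos) (1 : Matrix (Σ b : (Σ i : Fin r, Fin (n i)), Fin (d b.1))
      (Σ b : (Σ i : Fin r, Fin (n i)), Fin (d b.1)) ℂ)) :=
    pr_rho hE hpp (by simp) (by simp)
  have hne : rho E (pp pos) (1 : Matrix (Σ b : (Σ i : Fin r, Fin (n i)), Fin (d b.1))
      (Σ b : (Σ i : Fin r, Fin (n i)), Fin (d b.1)) ℂ) ≠ 0 := by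
    intro h0
    rw [h0, rt_zero] at heT
    exact hT0.ne heT
  have hsum : ∑ s ∈ F, (hs τ (u s * x - x * θ s) + hs τ (star (u s) * x - x * θ' s) +
        hs τ ((u s * Q - Q * u s) * x) + hs τ ((star (u s) * Q - Q * star (u s)) * x)) ≤
      ν * T := by
    rw [Finset.sum_add_distrib, Finset.sum_add_distrib, Finset.sum_add_distrib]
    have h1 : δ₀ * T ≤ ν / 8 * T := mul_le_mul_of_nonneg_right hδ3 hT0.le
    have h2 : 72 * C * e * T ≤ ν * T := mul_le_mul_of_nonneg_right heν hT0.le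
    have h3 : 1 * (e * T) ≤ C * (e * T) :=
      mul_le_mul_of_nonneg_right hC (mul_pos he hT0).le
    linarith
  obtain ⟨q, z, hq, hqQ, hqE, -, hqz, -, hzx, hzz, hqT⟩ := hRy θ θ' (rho E (pp pos) 1) x hpr1 hne
    hx1 (fun s => ⟨norm_theta_le hτ.trc hE hp hw (hu s), star_theta hτ.trc hE⟩)
    (by rw [heT]; exact b2) (by rw [heT]; exact b3) (by rw [heT]; exact hsum)
  rw [heT] at hqE hzx hzz hqT
  have hωT : 100 * Real.sqrt ω * T ≤ ρ * T := mul_le_mul_of_nonneg_right hωρ hT0.le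
  -- reduction of the multiplicities
  let k : Fin r → ℕ := fun i => ⌊(1 - ρ) * n i⌋₊
  have hk0 : ∀ i, 0 ≤ (1 - ρ) * n i := fun i =>
    mul_nonneg (by linarith) (Nat.cast_nonneg _)
  have hk1 : ∀ i, (k i : ℝ) ≤ (1 - ρ) * n i := fun i => Nat.floor_le (hk0 i)
  have hk2 : ∀ i, (1 - ρ) * n i - 1 ≤ k i := fun i => by
    have := Nat.lt_floor_add_one ((1 - ρ) * n i)
    show (1 - ρ) * n i - 1 ≤ (⌊(1 - ρ) * (n i : ℝ)⌋₊ : ℝ)
    linarith
  have hkn : ∀ i, k i ≤ n i := fun i => by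
    have h1 := hk1 i
    have h2 : (k i : ℝ) ≤ n i := by
      have h3 : 0 ≤ ρ * (n i : ℝ) := mul_nonneg hρ.le (Nat.cast_nonneg _)
      linarith
    exact_mod_cast h2
  have hS := rt_rho (τ := τ) hτ.trc hE hp
    (Finset.univ.filter fun b : (Σ i : Fin r, Fin (n i)) => (b.2 : ℕ) < k b.1)
  rw [sum_S k hkn] at hS
  obtain ⟨M, hM⟩ := stageD hPE hτ hu hw hE hp (F := F) (q := q) (x := x) (z := z) (ρ := ρ)
    (T := T) (ε' := ε') (γ := 6 * (e * T) + δ₀ * T) hT0 hρ1 (by
      have h1 : 288 * e * T ≤ ε' * T := mul_le_mul_of_nonneg_right heε hT0.le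
      have h2 : δ₀ * T ≤ ε' / 48 * T := mul_le_mul_of_nonneg_right hδ4 hT0.le
      have h3 : 432 * ρ * T ≤ ε' * T := mul_le_mul_of_nonneg_right hρε hT0.le
      have h4 : 0 < ε' * T := mul_pos hε' hT0
      linarith) hε'.le (by
      rw [hS, div_le_iff₀ hLr]
      calc ∑ i, (k i : ℝ) * d i ≤ ∑ i, (1 - ρ) * ((n i : ℝ) * d i) := by
            refine Finset.sum_le_sum fun i _ => ?_
            have := mul_le_mul_of_nonneg_right (hk1 i) (Nat.cast_nonneg (α := ℝ) (d i))
            linarith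
        _ = (1 - ρ) * T * L := by
            rw [← Finset.mul_sum, hT', mul_assoc (1 - ρ), div_mul_cancel₀ _ hLr.ne']) (by
      rw [hS, le_div_iff₀ hLr]
      have h1 : (1 - ρ) * (T * L) - D ≤ ∑ i, (k i : ℝ) * d i := by
        rw [hT', div_mul_cancel₀ _ hLr.ne', Finset.mul_sum, hD, ← Finset.sum_sub_distrib]
        refine Finset.sum_le_sum fun i _ => ?_
        have := mul_le_mul_of_nonneg_right (hk2 i) (Nat.cast_nonneg (α := ℝ) (d i))
        linarith
      have h2 : D ≤ ρ * T * L := by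
        rwa [div_le_iff₀ hLr] at hDT
      linarith) hq hqz (hzx.trans hωT) (hzz.trans hωT) (hqT.trans hωT) (by
      intro s hs'
      exact (Finset.single_le_sum (f := fun s => hs τ (u s * x - x * θ s))
        (fun s _ => hs_nonneg hτ.trc _) hs').trans hx6')
  have hqT' := (abs_le.1 (hqT.trans hωT)).1
  refine ⟨q, M, hqQ, ?_, ?_, hM⟩
  · have h1 : ρ * T ≤ 1 / 4 * T := mul_le_mul_of_nonneg_right hρ1 hT0.le
    linarith
  · refine hqE.trans ?_
    exact mul_le_of_le_one_right hεf.le hT1'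

private lemma core0 {N : Type} [CStarAlgebra N] [PartialOrder N] [StarOrderedRing N]
    {τ : N →ₗ[ℂ] ℂ} {ι : Type} {u : ι → N} {Q : N} {r : ℕ} {d : Fin r → ℕ}
    {w : ∀ i, Fin (d i) → N} {t : Fin r → ℝ} {C ε' κ η' εf m : ℝ} (hC : 1 ≤ C)
    (hη1 : η' * C ≤ 1 / 2) (hκ : κ ≤ 1 / 2) (hτ : II1 τ) (hQ : Pr Q)
    (hw : ∀ i j j', τ (star (w i j) * w i j') = if j = j' then 1 else 0)
    (hm : m = ∑ i, t i * d i) (hm0 : 0 < m) (hεf : 0 < εf)
    (hY : ∑ i, t i • ∑ j, w i j * star (w i j) ≤ C • (1 : N))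
    (hYQ : rt τ ((∑ i, t i • ∑ j, w i j * star (w i j)) * Q) ≤ κ * m) :
    ∃ (q : N) (M : NonUnitalStarSubalgebra ℂ N), q * Q = 0 ∧ η' * m ≤ rt τ q ∧
      En τ ∅ u q ≤ εf ∧ GP τ ∅ u ε' q M := by
  have hww : ∀ i j, rt τ (w i j * star (w i j)) = 1 := by
    intro i j
    rw [rt_mul_comm hτ.trc]
    unfold rt
    rw [hw, if_pos rfl, Complex.one_re]
  have hYm : rt τ (∑ i, t i • ∑ j, w i j * star (w i j)) = m := by
    rw [rt_sum, hm]
    refine Finset.sum_congr rfl fun i _ => ?_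
    rw [rt_smul, rt_sum, Finset.sum_congr rfl fun j _ => hww i j]
    simp
  let M : NonUnitalStarSubalgebra ℂ N :=
    { carrier := {0}
      add_mem' := by rintro _ _ rfl rfl; exact add_zero _
      zero_mem' := rfl
      smul_mem' := by rintro c _ rfl; exact smul_zero _
      mul_mem' := by rintro _ _ rfl rfl; exact mul_zero _
      star_mem' := by rintro _ rfl; exact star_zero _ }
  have hM : Subsingleton M := ⟨fun a b => Subtype.ext (a.2.trans b.2.symm)⟩
  refine ⟨1 - Q, M, ?_, ?_, ?_, ⟨hQ.one_sub, ?_, ?_, ?_⟩⟩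
  · rw [sub_mul, one_mul, hQ.2, sub_self]
  · have h1 := rt_mul_mono hτ.trc hY hQ.one_sub.nonneg
    rw [mul_sub, mul_one, rt_sub, hYm, smul_mul_assoc, one_mul, rt_smul] at h1
    have h2 : C * (η' * m) ≤ C * rt τ (1 - Q) := by nlinarith
    exact le_of_mul_le_mul_left h2 (by linarith)
  · unfold En
    rw [Finset.sum_empty]
    exact hεf.le
  · exact Module.Finite.of_finite
  · intro y hy
    have : y = 0 := hy
    rw [this]; simp
  · intro s hs'
    exact absurd hs' (Finset.notMem_empty s)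

theorem pR (hLQ : StLQ) (hRS : StRS) (hRy : StRy) (hPE : StPE) : StR := by
  intro C ε' hC hε'
  have hC0 : 0 < C := by linarith
  obtain ⟨ρ, hρ, hρ1, hρε⟩ : ∃ ρ : ℝ, 0 < ρ ∧ ρ ≤ 1 / 4 ∧ 432 * ρ ≤ ε' := by
    refine ⟨min (ε' / 432) (1 / 4), lt_min (by positivity) (by norm_num), min_le_right _ _, ?_⟩
    have := min_le_left (ε' / 432) (1 / 4 : ℝ)
    linarith
  obtain ⟨ω, hω, hω1, hωρ⟩ : ∃ ω : ℝ, 0 < ω ∧ ω ≤ 1 ∧ 100 * Real.sqrt ω ≤ ρ := by
    refine ⟨(ρ / 100) ^ 2, by positivity, ?_, ?_⟩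
    · nlinarith
    · rw [Real.sqrt_sq (by positivity)]
      linarith
  obtain ⟨η', hη, hηω⟩ : ∃ η' : ℝ, 0 < η' ∧ 12 * η' * C ≤ ω ^ 2 := by
    refine ⟨ω ^ 2 / (12 * C), by positivity, le_of_eq ?_⟩
    field_simp
  obtain ⟨κ, hκ0, hκ⟩ : ∃ κ : ℝ, 0 < κ ∧ 24 * κ ≤ ω :=
    ⟨ω / 24, by positivity, by linarith⟩
  refine ⟨κ, η' / 4, hκ0, by positivity, ?_⟩
  intro εf g hεf
  obtain ⟨e, he, hmain⟩ : ∃ e > (0 : ℝ), ∀ (N : Type) [CStarAlgebra N] [PartialOrder N]
      [StarOrderedRing N] (τ : N →ₗ[ℂ] ℂ) (ι : Type) (F : Finset ι) (u : ι → N) (Q : N) (r : ℕ)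
      (d : Fin r → ℕ) (w : ∀ i, Fin (d i) → N) (t : Fin r → ℝ), II1 τ → F.card = g →
      (∀ s, Un (u s)) → Pr Q → (∀ i, 0 < t i ∧
        (∀ j j', τ (star (w i j) * w i j') = if j = j' then 1 else 0) ∧
        ∑ s ∈ F, ((d i : ℝ) - ∑ j, ∑ j', ‖τ (star (w i j) * u s * w i j')‖ ^ 2) ≤ e * d i) →
      ∑ i, t i • ∑ j, w i j * star (w i j) ≤ C • (1 : N) →
      rt τ ((∑ i, t i • ∑ j, w i j * star (w i j)) * Q) ≤ κ * ∑ i, t i * d i →
      0 < ∑ i, t i * d i → En τ F u Q ≤ e * ∑ i, t i * d i →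
      ∃ (q : N) (M : NonUnitalStarSubalgebra ℂ N), q * Q = 0 ∧
        η' / 4 * ∑ i, t i * d i ≤ rt τ q ∧ En τ F u q ≤ εf ∧ GP τ F u ε' q M := by
    rcases Nat.eq_zero_or_pos g with hg | hg
    · refine ⟨1, one_pos, ?_⟩
      intro N _ _ _ τ ι F u Q r d w t hτ hF hu hQ hi hY hYQ hm0 hQe
      rw [hg, Finset.card_eq_zero] at hF
      subst hF
      exact core0 hC (by nlinarith) (by linarith) hτ hQ (fun i => (hi i).2.1) rfl
        hm0 hεf hY hYQ
    · obtain ⟨ν, hν, hRy'⟩ := hRy g εf hg hεf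
      obtain ⟨e, he, heν, heε⟩ : ∃ e : ℝ, 0 < e ∧ 72 * C * e ≤ ν ∧ 288 * e ≤ ε' := by
        refine ⟨min (ν / (72 * C)) (ε' / 288), lt_min (by positivity) (by positivity), ?_, ?_⟩
        · have h1 := min_le_left (ν / (72 * C)) (ε' / 288)
          rw [le_div_iff₀ (by positivity)] at h1
          linarith
        · have := min_le_right (ν / (72 * C)) (ε' / 288)
          linarith
      refine ⟨e, he, ?_⟩
      intro N _ _ _ τ ι F u Q r d w t hτ hF hu hQ hi hY hYQ hm0 hQe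
      refine core hLQ hRS hPE hC hε' hρ hρ1 hρε hω hω1 hωρ hη hηω hκ0 hκ hν he heν heε hεf ?_ hτ
        hu hQ (fun i => (hi i).1) (fun i => (hi i).2.1) (fun i => (hi i).2.2) rfl hm0 hY hYQ hQe
      intro θ θ' p x h1 h2 h3 h4 h5 h6 h7
      exact hRy' N τ ι F u θ θ' p x Q ω hτ.trc hτ.cpl hF hu h1 h2 hQ h3 h4 hω hω1 h5 h6 h7
  refine ⟨e, he, ?_⟩
  intro N _ _ _ τ ι F u Q I d w t hτ hF hu hQ hi hY hYQ hm0 hQe
  let σ : Fin I.card ≃ I := I.equivFin.symm
  have hσ : ∀ {A : Type} [AddCommMonoid A] (f : ℕ → A),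
      ∑ k : Fin I.card, f (σ k) = ∑ i ∈ I, f i := by
    intro A _ f
    rw [← Finset.sum_coe_sort I f]
    exact Equiv.sum_comp σ (fun i : I => f i)
  have h1 : ∑ k : Fin I.card, t (σ k) • ∑ j, w (σ k) j * star (w (σ k) j) =
      ∑ i ∈ I, t i • ∑ j, w i j * star (w i j) :=
    hσ fun i => t i • ∑ j, w i j * star (w i j)
  have h2 : ∑ k : Fin I.card, t (σ k) * d (σ k) = ∑ i ∈ I, t i * d i :=
    hσ fun i => t i * (d i : ℝ)
  have h3 := hmain N τ ι F u Q I.card (fun k => d (σ k)) (fun k => w (σ k)) (fun k => t (σ k)) hτ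
    hF hu hQ (fun k => ⟨(hi _ (σ k).2).1, (hi _ (σ k).2).2.2.1, (hi _ (σ k).2).2.2.2⟩)
  rw [h1, h2] at h3
  exact h3 hY hYQ hm0 hQe

end Helper61.HT
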