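import Pool.Agent.Helper61.HT.StE
import Pool.Agent.Helper61.HT.LibN

/-!
# Project HT: Sakai's Radon-Nikodym theorem
-/

set_option autoImplicit false

namespace Helper61.HT

open scoped ComplexOrder
open Filter Topology

section

variable {N : Type} [CStarAlgebra N] [PartialOrder N] [StarOrderedRing N]

/-- The truncation of a selfadjoint element to `[0, 1]`. -/
private theorem clip (x : N) (hx : star x = x) : ∃ c a b : N, 0 ≤ c ∧ c ≤ 1 ∧ 0 ≤ a ∧ 0 ≤ b ∧
    x = c + a - b ∧ c * a = a ∧ c * b = 0 := by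
  have hx' : IsSelfAdjoint x := hx
  have h1 : Continuous (fun t : ℝ => min (max t 0) 1) := by fun_prop
  have h2 : Continuous (fun t : ℝ => max (t - 1) 0) := by fun_prop
  have h3 : Continuous (fun t : ℝ => max (-t) 0) := by fun_prop
  refine ⟨cfc (fun t : ℝ => min (max t 0) 1) x, cfc (fun t : ℝ => max (t - 1) 0) x,
    cfc (fun t : ℝ => max (-t) 0) x, ?_, ?_, ?_, ?_, ?_, ?_, ?_⟩
  · exact cfc_nonneg fun t _ => le_min (le_max_right _ _) zero_le_one
  · exact cfc_le_one _ x fun t _ => min_le_right _ _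
  · exact cfc_nonneg fun t _ => le_max_right _ _
  · exact cfc_nonneg fun t _ => le_max_right _ _
  · rw [← cfc_add x _ _ h1.continuousOn h2.continuousOn,
      ← cfc_sub (fun t : ℝ => min (max t 0) 1 + max (t - 1) 0) (fun t : ℝ => max (-t) 0) x
      (h1.add h2).continuousOn h3.continuousOn]
    conv_lhs => rw [← cfc_id' ℝ x]
    refine cfc_congr fun t _ => ?_
    show t = min (max t 0) 1 + max (t - 1) 0 - max (-t) 0
    rcases le_total t 0 with ht | ht
    · rw [max_eq_right ht, min_eq_left (by norm_num), max_eq_right (by linarith),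
        max_eq_left (by linarith)]; ring
    · rw [max_eq_left ht, max_eq_right (a := -t) (by linarith)]
      rcases le_total t 1 with ht1 | ht1
      · rw [min_eq_left ht1, max_eq_right (by linarith)]; ring
      · rw [min_eq_right ht1, max_eq_left (by linarith)]; ring
  · rw [← cfc_mul _ _ x h1.continuousOn h2.continuousOn]
    refine cfc_congr fun t _ => ?_
    show min (max t 0) 1 * max (t - 1) 0 = max (t - 1) 0
    rcases le_total t 1 with ht | ht
    · rw [max_eq_right (a := t - 1) (by linarith), mul_zero]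
    · rw [max_eq_left (a := t) (by linarith), min_eq_right ht, one_mul]
  · rw [← cfc_mul _ _ x h1.continuousOn h3.continuousOn]
    have : (fun t : ℝ => min (max t 0) 1 * max (-t) 0) = fun _ => (0 : ℝ) := by
      funext t
      rcases le_total t 0 with ht | ht
      · rw [max_eq_right ht, min_eq_left (by norm_num), zero_mul]
      · rw [max_eq_right (a := -t) (by linarith), mul_zero]
    rw [this, cfc_const_zero ℝ x]

/-- If `τ(h x) ≥ 0` for all `x ≥ 0` then `h ≥ 0`. -/
private theorem nonneg_of_rt {τ : N →ₗ[ℂ] ℂ} (hτ : Trc τ) {h : N} (hs' : star h = h)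
    (H : ∀ x, 0 ≤ x → 0 ≤ rt τ (h * x)) : 0 ≤ h := by
  have hh : IsSelfAdjoint h := hs'
  have h1 : Continuous (fun t : ℝ => max t 0) := by fun_prop
  have h2 : Continuous (fun t : ℝ => max (-t) 0) := by fun_prop
  set a := cfc (fun t : ℝ => max t 0) h with ha
  set b := cfc (fun t : ℝ => max (-t) 0) h with hb
  have hb0 : 0 ≤ b := cfc_nonneg fun t _ => le_max_right _ _
  have ha0 : 0 ≤ a := cfc_nonneg fun t _ => le_max_right _ _
  have hab : a * b = 0 := by
    rw [ha, hb, ← cfc_mul _ _ h h1.continuousOn h2.continuousOn]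
    have : (fun t : ℝ => max t 0 * max (-t) 0) = fun _ => (0 : ℝ) := by
      funext t
      rcases le_total t 0 with ht | ht
      · rw [max_eq_right ht, zero_mul]
      · rw [max_eq_right (a := -t) (by linarith), mul_zero]
    rw [this, cfc_const_zero ℝ h]
  have hdec : h = a - b := by
    rw [ha, hb, ← cfc_sub _ _ h h1.continuousOn h2.continuousOn]
    conv_lhs => rw [← cfc_id' ℝ h]
    refine cfc_congr fun t _ => ?_
    show t = max t 0 - max (-t) 0
    rcases le_total t 0 with ht | ht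
    · rw [max_eq_right ht, max_eq_left (by linarith)]; ring
    · rw [max_eq_left ht, max_eq_right (by linarith)]; ring
  have h3 := H b hb0
  rw [hdec, sub_mul, hab, zero_sub, rt_neg] at h3
  have h4 : hs τ b = 0 := by
    have h5 := hs_nonneg hτ b
    have h6 : hs τ b = rt τ (b * b) := by rw [hs_eq_rt, herm_of_nonneg hb0]
    linarith
  have h7 := hs_eq_zero hτ h4
  rw [hdec, h7, sub_zero]
  exact ha0

theorem pRN : StRN := by
  intro N _ _ _ τ f hτ hcpl hf hfle
  -- `f` is real on selfadjoint elements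
  have him : ∀ x : N, star x = x → (f x).im = 0 := by
    intro x hx
    have h1 : 0 ≤ ‖x‖ • (1 : N) + x := by
      have := neg_smul_le_of_norm hx
      have h2 := sub_nonneg.2 this
      rwa [sub_neg_eq_add, add_comm] at h2
    have h2 : 0 ≤ ‖x‖ • (1 : N) := smul_nonneg (norm_nonneg x) zero_le_one
    have h3 := (RCLike.nonneg_iff.1 (hf _ h1)).2
    have h4 := (RCLike.nonneg_iff.1 (hf _ h2)).2
    rw [map_add] at h3
    have h5 : (f (‖x‖ • (1 : N)) + f x).im = 0 := h3
    have h6 : (f (‖x‖ • (1 : N))).im = 0 := h4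
    rw [Complex.add_im, h6, zero_add] at h5
    exact h5
  have hre : ∀ x : N, 0 ≤ x → 0 ≤ rt f x := fun x hx => (RCLike.nonneg_iff.1 (hf _ hx)).1
  have hrle : ∀ x : N, 0 ≤ x → rt f x ≤ rt τ x := hfle
  have hsq : ∀ x : N, star x = x → 0 ≤ x * x := by
    intro x hx
    have := nonneg_star_mul x
    rwa [hx] at this
  -- Cauchy-Schwarz
  have hCS : ∀ x : N, star x = x → rt f x ^ 2 ≤ hs τ x := by
    intro x hx
    set r := rt f x with hr
    have h1 : star (x - r • (1 : N)) = x - r • (1 : N) := by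
      rw [star_sub, hx, star_smul, star_one, star_trivial]
    have h2 := hre _ (hsq _ h1)
    have h3 : (x - r • (1 : N)) * (x - r • (1 : N)) = x * x - (2 * r) • x + (r ^ 2) • (1 : N) := by
      rw [sub_mul, mul_sub, mul_sub, smul_mul_assoc, mul_smul_comm, smul_mul_smul_comm, one_mul,
        mul_one, mul_one, two_mul, add_smul, pow_two, mul_smul]
      abel
    rw [h3, rt_add, rt_sub, rt_smul, rt_smul, ← hr] at h2
    have h4 : rt f 1 ≤ 1 := (hrle 1 zero_le_one).trans (rt_one hτ).le
    have h5 : rt f (x * x) ≤ hs τ x := by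
      refine (hrle _ (hsq x hx)).trans (le_of_eq ?_)
      rw [hs_eq_rt, hx]
    nlinarith [sq_nonneg r]
  have hCS' : ∀ x : N, star x = x → |rt f x| ≤ Real.sqrt (hs τ x) := fun x hx =>
    Real.abs_le_sqrt (hCS x hx)
  -- the functional
  set Φ : N → ℝ := fun x => hs τ x - 2 * rt f x with hΦ
  have hbdd : ∀ x : N, star x = x → -1 ≤ Φ x := by
    intro x hx
    have h1 := hCS x hx
    simp only [hΦ]
    nlinarith [sq_nonneg (rt f x - 1)]
  set S : Set ℝ := {t | ∃ x : N, star x = x ∧ Φ x = t} with hS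
  have hSne : S.Nonempty := ⟨Φ 0, 0, star_zero N, rfl⟩
  have hSb : BddBelow S := ⟨-1, by rintro t ⟨x, hx, rfl⟩; exact hbdd x hx⟩
  set m := sInf S with hm
  have hmle : ∀ x : N, star x = x → m ≤ Φ x := fun x hx => csInf_le hSb ⟨x, hx, rfl⟩
  -- truncation
  have hclip : ∀ x : N, star x = x → ∃ c : N, 0 ≤ c ∧ c ≤ 1 ∧ Φ c ≤ Φ x := by
    intro x hx
    obtain ⟨c, a, b, hc0, hc1, ha, hb, hx2, hca, hcb⟩ := clip x hx
    refine ⟨c, hc0, hc1, ?_⟩
    have h1 : x = c + (a - b) := by rw [hx2]; abel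
    simp only [hΦ]
    rw [h1, hs_add hτ, rt_add, rt_sub, herm_of_nonneg hc0, mul_sub, hca, hcb, sub_zero]
    have h2 := hs_nonneg hτ (a - b)
    have h3 := hrle a ha
    have h4 := hre b hb
    linarith
  have hex : ∀ n : ℕ, ∃ c : N, 0 ≤ c ∧ c ≤ 1 ∧ Φ c ≤ m + 1 / ((n : ℝ) + 1) := by
    intro n
    obtain ⟨t, ⟨x, hx, rfl⟩, ht⟩ := exists_lt_of_csInf_lt hSne
      (show sInf S < m + 1 / ((n : ℝ) + 1) by
        have : (0 : ℝ) < 1 / ((n : ℝ) + 1) := by positivity
        linarith)
    obtain ⟨c, h0, h1, h2⟩ := hclip x hx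
    exact ⟨c, h0, h1, h2.trans ht.le⟩
  choose x hx0 hx1 hxm using hex
  have hxs : ∀ n, star (x n) = x n := fun n => herm_of_nonneg (hx0 n)
  have hpar : ∀ i j, hs τ (x i - x j) ≤ 2 / ((i : ℝ) + 1) + 2 / ((j : ℝ) + 1) := by
    intro i j
    have hsa : star ((1 / 2 : ℝ) • (x i + x j)) = (1 / 2 : ℝ) • (x i + x j) := by
      rw [star_smul, star_add, hxs, hxs, star_trivial]
    have h1 := hmle _ hsa
    simp only [hΦ] at h1
    rw [hs_smul, rt_smul, hs_add hτ, rt_add] at h1
    have h2 : hs τ (x i - x j) = hs τ (x i) + hs τ (x j) - 2 * rt τ (star (x i) * x j) := by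
      rw [sub_eq_add_neg, hs_add hτ, hs_neg, mul_neg, rt_neg]; ring
    have h3 := hxm i
    have h4 := hxm j
    simp only [hΦ] at h3 h4
    have e1 : 2 / ((i : ℝ) + 1) = 2 * (1 / ((i : ℝ) + 1)) := by ring
    have e2 : 2 / ((j : ℝ) + 1) = 2 * (1 / ((j : ℝ) + 1)) := by ring
    rw [h2, e1, e2]
    linarith
  have hlim0 : Tendsto (fun n : ℕ => 1 / ((n : ℝ) + 1)) atTop (𝓝 0) :=
    tendsto_one_div_add_atTop_nhds_zero_nat
  obtain ⟨h, hh1, hlim⟩ := hcpl x (fun n => norm_le_one_of_nonneg (hx0 n) (hx1 n)) (by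
    intro ε hε
    obtain ⟨n₀, hn₀⟩ := (hlim0.eventually (gt_mem_nhds (show (0 : ℝ) < ε / 4 by linarith))).exists_forall_of_atTop
    refine ⟨n₀, fun i hi j hj => (hpar i j).trans ?_⟩
    have e1 : 2 / ((i : ℝ) + 1) = 2 * (1 / ((i : ℝ) + 1)) := by ring
    have e2 : 2 / ((j : ℝ) + 1) = 2 * (1 / ((j : ℝ) + 1)) := by ring
    have := hn₀ i hi
    have := hn₀ j hj
    rw [e1, e2]
    linarith)
  -- `h` is selfadjoint
  have hhs : star h = h := by
    have h1 : ∀ n, hs τ (star h - h) ≤ 4 * hs τ (x n - h) := by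
      intro n
      have h2 : star h - h = (star h - x n) + (x n - h) := by abel
      rw [h2]
      refine (hs_add_le hτ _ _).trans ?_
      have h3 : hs τ (star h - x n) = hs τ (x n - h) := by
        rw [← hs_star hτ, star_sub, star_star, hxs, hs_sub_comm]
      rw [h3]; linarith
    have h2 : hs τ (star h - h) ≤ 0 := by
      have h3 := hlim.const_mul 4
      rw [mul_zero] at h3
      exact ge_of_tendsto' h3 h1
    have h3 := hs_eq_zero hτ (le_antisymm h2 (hs_nonneg hτ _))
    exact sub_eq_zero.1 h3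
  -- `h` is a minimizer
  have hmin : Φ h ≤ m := by
    have h1 : ∀ n : ℕ, Φ h ≤ m + 1 / ((n : ℝ) + 1) +
        (2 * Real.sqrt (hs τ h) + 2) * Real.sqrt (hs τ (x n - h)) := by
      intro n
      have h2 : x n = h + (x n - h) := by abel
      have h3 := hxm n
      have h4 : star (x n - h) = x n - h := by rw [star_sub, hxs, hhs]
      have h5 := (abs_le.1 (hCS' _ h4)).2
      have h6 := (abs_le.1 (abs_rt_mul_le hτ (star h) (x n - h))).1
      rw [hs_star hτ] at h6
      have h7 := hs_nonneg hτ (x n - h)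
      simp only [hΦ] at h3 ⊢
      rw [h2, hs_add hτ, rt_add] at h3
      nlinarith
    have h2 : Tendsto (fun n : ℕ => m + 1 / ((n : ℝ) + 1) +
        (2 * Real.sqrt (hs τ h) + 2) * Real.sqrt (hs τ (x n - h))) atTop
        (𝓝 (m + 0 + (2 * Real.sqrt (hs τ h) + 2) * Real.sqrt 0)) :=
      (hlim0.const_add m).add (((Real.continuous_sqrt.tendsto 0).comp hlim).const_mul _)
    rw [Real.sqrt_zero, mul_zero, add_zero, add_zero] at h2
    exact ge_of_tendsto' h2 h1
  -- first order condition
  have hfo : ∀ y : N, star y = y → rt τ (h * y) = rt f y := by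
    intro y hy
    have h1 : ∀ t : ℝ, 0 ≤ t ^ 2 * hs τ y + 2 * t * (rt τ (h * y) - rt f y) := by
      intro t
      have h2 : star (h + t • y) = h + t • y := by
        rw [star_add, star_smul, hhs, hy, star_trivial]
      have h3 := hmin.trans (hmle _ h2)
      simp only [hΦ] at h3
      rw [hs_add hτ, rt_add, hs_smul, rt_smul, hhs, mul_smul_comm, rt_smul] at h3
      linarith
    set d := rt τ (h * y) - rt f y with hd
    by_contra hne
    have hd0 : d ≠ 0 := fun h0 => hne (sub_eq_zero.1 h0)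
    have h2 := h1 (-(d / (hs τ y + 1)))
    have h3 := hs_nonneg hτ y
    have h4 : 0 < hs τ y + 1 := by linarith
    have h5 : (-(d / (hs τ y + 1))) ^ 2 * hs τ y + 2 * (-(d / (hs τ y + 1))) * d =
        -(d ^ 2 * (hs τ y + 2)) / (hs τ y + 1) ^ 2 := by
      field_simp
      ring
    rw [h5] at h2
    have h6 : 0 < d ^ 2 * (hs τ y + 2) / (hs τ y + 1) ^ 2 := by positivity
    rw [neg_div] at h2
    linarith
  have hfoC : ∀ y : N, star y = y → f y = τ (h * y) := by
    intro y hy
    refine Complex.ext (hfo y hy).symm ?_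
    rw [him y hy]
    have h1 := map_star' hτ (h * y)
    rw [star_mul, hhs, hy, hτ.tr] at h1
    have h2 := congrArg Complex.im h1
    rw [Complex.conj_im] at h2
    linarith
  have hall : ∀ y : N, f y = τ (h * y) := by
    intro y
    rw [← realPart_add_I_smul_imaginaryPart y, map_add, mul_add, map_add, map_smul, mul_smul_comm,
      map_smul, hfoC _ (realPart y).2, hfoC _ (imaginaryPart y).2]
  have hh0 : 0 ≤ h := nonneg_of_rt hτ hhs fun y hy => by
    rw [hfo y (herm_of_nonneg hy)]; exact hre y hy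
  refine ⟨h, hh0, ?_, hall⟩
  rw [← sub_nonneg]
  refine nonneg_of_rt hτ (by rw [star_sub, star_one, hhs]) fun y hy => ?_
  rw [sub_mul, one_mul, rt_sub, hfo y (herm_of_nonneg hy)]
  have := hrle y hy
  linarith

end

end Helper61.HT
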