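import Pool.Agent.Helper61.HT.StA
import Pool.Agent.Helper61.HT.LibN

/-!
# HT module RR: facts about the resolvent `RR`
-/

set_option linter.unusedSectionVars false

namespace Helper61.HT

open scoped ComplexOrder

section RR

variable {N : Type} [CStarAlgebra N] [PartialOrder N] [StarOrderedRing N] {τ : N →ₗ[ℂ] ℂ}
  {ι : Type} {F : Finset ι} {u : ι → N}

private lemma summ_c : Summable fun l : ℕ => ((1 / 2 : ℝ) ^ (l + 1)) := by
  simp_rw [pow_succ]
  exact summable_geometric_two.mul_right _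

private lemma tsum_c : ∑' l : ℕ, ((1 / 2 : ℝ) ^ (l + 1)) = 1 := by
  simp_rw [pow_succ]
  rw [tsum_mul_right, tsum_geometric_two]
  norm_num

private lemma summ (h : TTFacts τ F u) (q : N) :
    Summable fun l : ℕ => ((1 / 2 : ℝ) ^ (l + 1)) • ((TT F u ^ l) q) := by
  refine Summable.of_norm_bounded (g := fun l : ℕ => (1 / 2 : ℝ) ^ (l + 1) * ‖q‖)
    (summ_c.mul_right _) fun l => ?_
  rw [norm_smul, Real.norm_of_nonneg (by positivity)]
  exact mul_le_mul_of_nonneg_left (h.norm l q) (by positivity)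

private lemma RR_sub (h : TTFacts τ F u) (p q : N) :
    RR F u (p - q) = RR F u p - RR F u q := by
  unfold RR
  rw [← (summ h p).tsum_sub (summ h q)]
  refine tsum_congr fun l => ?_
  rw [map_sub, smul_sub]

private lemma RR_one (h : TTFacts τ F u) : RR F u 1 = 1 := by
  unfold RR
  simp_rw [h.one]
  rw [summ_c.tsum_smul_const, tsum_c, one_smul]

private lemma RR_nonneg (h : TTFacts τ F u) {q : N} (hq : 0 ≤ q) : 0 ≤ RR F u q :=
  tsum_nonneg fun l => smul_nonneg_real (by positivity) (h.nonneg l q hq)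

private lemma norm_RR_le (h : TTFacts τ F u) (q : N) : ‖RR F u q‖ ≤ ‖q‖ := by
  unfold RR
  refine (tsum_of_norm_bounded (g := fun l : ℕ => (1 / 2 : ℝ) ^ (l + 1) * ‖q‖) (a := ‖q‖)
    ?_ fun l => ?_)
  · have := summ_c.hasSum.mul_right ‖q‖
    rwa [tsum_c, one_mul] at this
  · rw [norm_smul, Real.norm_of_nonneg (by positivity)]
    exact mul_le_mul_of_nonneg_left (h.norm l q) (by positivity)

private lemma RR_split (h : TTFacts τ F u) (q : N) :
    RR F u q = (1 / 2 : ℝ) • q + ∑' l : ℕ, ((1 / 2 : ℝ) ^ (l + 2)) • ((TT F u ^ (l + 1)) q) := by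
  unfold RR
  rw [(summ h q).tsum_eq_zero_add]
  simp only [zero_add, pow_one, pow_zero, Module.End.one_apply]

/-- the averaging operator as a continuous linear map -/
private noncomputable def TTL (h : TTFacts τ F u) : N →L[ℂ] N :=
  (TT F u).mkContinuous 1 fun y => by
    have := h.norm 1 y
    rwa [pow_one, ← one_mul ‖y‖] at this

private lemma T_RR (h : TTFacts τ F u) (q : N) :
    TT F u (RR F u q) = ∑' l : ℕ, ((1 / 2 : ℝ) ^ (l + 1)) • ((TT F u ^ (l + 1)) q) := by
  have h1 := (TTL h).map_tsum (summ h q)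
  have h2 : TT F u (RR F u q) = (TTL h)
      (∑' l : ℕ, ((1 / 2 : ℝ) ^ (l + 1)) • ((TT F u ^ l) q)) := rfl
  rw [h2, h1]
  refine tsum_congr fun l => ?_
  change TT F u (((1 / 2 : ℝ) ^ (l + 1)) • ((TT F u ^ l) q)) = _
  rw [LinearMap.map_smul_of_tower, pow_succ' (TT F u), Module.End.mul_apply]

private lemma RR_eqn (h : TTFacts τ F u) (q : N) :
    (2 : ℝ) • RR F u q - TT F u (RR F u q) = q := by
  have h1 : Summable fun l : ℕ => ((1 / 2 : ℝ) ^ (l + 2)) • ((TT F u ^ (l + 1)) q) :=
    (summable_nat_add_iff (f := fun l : ℕ => ((1 / 2 : ℝ) ^ (l + 1)) • ((TT F u ^ l) q)) 1).2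
      (summ h q)
  have h2 : TT F u (RR F u q) =
      (2 : ℝ) • ∑' l : ℕ, ((1 / 2 : ℝ) ^ (l + 2)) • ((TT F u ^ (l + 1)) q) := by
    rw [T_RR h, ← h1.tsum_const_smul]
    refine tsum_congr fun l => ?_
    rw [smul_smul]
    congr 1
    rw [pow_succ _ (l + 1)]
    ring
  rw [h2, RR_split h q]
  module

private lemma RR_T (h : TTFacts τ F u) (q : N) :
    RR F u (TT F u q) = TT F u (RR F u q) := by
  rw [T_RR h]
  unfold RR
  refine tsum_congr fun l => ?_
  rw [pow_succ (TT F u), Module.End.mul_apply]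

private lemma sqrt_hs_le_norm (hτ : Trc τ) (x : N) : Real.sqrt (hs τ x) ≤ ‖x‖ := by
  refine Real.sqrt_le_iff.2 ⟨norm_nonneg _, ?_⟩
  have := rt_mono hτ (star_mul_le x)
  rwa [rt_smul, rt_one hτ, mul_one] at this

/-- the real trace as a continuous linear map -/
private noncomputable def rtL (hτ : Trc τ) (X : N) : N →L[ℝ] ℝ :=
  LinearMap.mkContinuous
    { toFun := fun A => rt τ (X * A)
      map_add' := fun A B => by rw [mul_add, rt_add]
      map_smul' := fun c A => by rw [mul_smul_comm, rt_smul]; rfl } ‖X‖ fun A => by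
    refine (abs_rt_mul_le hτ X A).trans ?_
    exact mul_le_mul (sqrt_hs_le_norm hτ X) (sqrt_hs_le_norm hτ A) (Real.sqrt_nonneg _)
      (norm_nonneg _)

private lemma rt_mul_RR (hτ : Trc τ) (h : TTFacts τ F u) (X q : N) :
    rt τ (X * RR F u q) = ∑' l : ℕ, (1 / 2 : ℝ) ^ (l + 1) * rt τ (X * (TT F u ^ l) q) := by
  have h1 := (rtL hτ X).map_tsum (summ h q)
  have h2 : rt τ (X * RR F u q) =
      rtL hτ X (∑' l : ℕ, ((1 / 2 : ℝ) ^ (l + 1)) • ((TT F u ^ l) q)) := rfl
  rw [h2, h1]
  refine tsum_congr fun l => ?_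
  change rt τ (X * (((1 / 2 : ℝ) ^ (l + 1)) • ((TT F u ^ l) q))) = _
  rw [mul_smul_comm, rt_smul]

private lemma rt_mul_RR_symm (hτ : Trc τ) (h : TTFacts τ F u) (X q : N) :
    rt τ (X * RR F u q) = rt τ (RR F u X * q) := by
  rw [rt_mul_comm hτ (RR F u X) q, rt_mul_RR hτ h, rt_mul_RR hτ h]
  refine tsum_congr fun l => ?_
  have e : rt τ (X * (TT F u ^ l) q) = rt τ ((TT F u ^ l) X * q) := by
    unfold rt
    rw [h.symm]
  rw [e, rt_mul_comm hτ]

private lemma comm_bound (hτ : Trc τ) {q Z v : N} (hq : Pr q) (hZ : ‖Z‖ ≤ 1) :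
    |rt τ (Z * (v * q - q * v))| ≤ 2 * (Real.sqrt (rt τ q) * Real.sqrt (hs τ (v * q - q * v))) := by
  set c := v * q - q * v with hc
  have e : c = q * c + c * q := by
    rw [hc]
    have h1 : q * (v * q - q * v) + (v * q - q * v) * q =
        v * (q * q) - (q * q) * v := by noncomm_ring
    rw [h1, hq.2]
  have e2 : rt τ (Z * c) = rt τ ((Z * q) * c) + rt τ ((q * Z) * c) := by
    have h1 : rt τ (Z * c) = rt τ (Z * (q * c)) + rt τ (Z * (c * q)) := by
      rw [← rt_add, ← mul_add, ← e]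
    rw [h1, ← mul_assoc Z q c, ← mul_assoc Z c q, rt_cycle hτ Z c q]
  have hq1 : hs τ (Z * q) ≤ rt τ q := by
    rw [← hq.hs]
    exact hs_mul_left_le hτ hZ
  have hq2 : hs τ (q * Z) ≤ rt τ q := by
    rw [← hq.hs]
    exact hs_mul_right_le hτ hZ
  have b1 := abs_rt_mul_le hτ (Z * q) c
  have b2 := abs_rt_mul_le hτ (q * Z) c
  have b3 := Real.sqrt_le_sqrt hq1
  have b4 := Real.sqrt_le_sqrt hq2
  have b5 := Real.sqrt_nonneg (hs τ c)
  rw [e2]
  refine (abs_add_le _ _).trans ?_
  nlinarith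

private lemma dist_T (hτ : Trc τ) (hF : F.Nonempty) (hu : ∀ s, Un (u s))
    {q Y : N} (hq : Pr q) (hY : ‖Y‖ ≤ 1) :
    |rt τ (Y * (TT F u q - q))| ≤ Real.sqrt (rt τ q * En τ F u q) := by
  have hg : (0 : ℝ) < F.card := by exact_mod_cast hF.card_pos
  have hg1 : (1 : ℝ) ≤ F.card := by exact_mod_cast hF.card_pos
  have e1 : TT F u q - q = (1 / (4 * F.card) : ℝ) •
      ∑ s ∈ F, ((u s * q * star (u s) - q) + (star (u s) * q * u s - q)) := by
    change (1 / 2 : ℝ) • q + (1 / (4 * F.card) : ℝ) •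
      ∑ s ∈ F, (u s * q * star (u s) + star (u s) * q * u s) - q = _
    have h1 : ∑ s ∈ F, ((u s * q * star (u s) - q) +
        (star (u s) * q * u s - q)) =
        ∑ s ∈ F, (u s * q * star (u s) + star (u s) * q * u s) -
          (2 * F.card : ℝ) • q := by
      have h2 : ∑ s ∈ F, ((u s * q * star (u s) - q) +
          (star (u s) * q * u s - q)) =
          ∑ s ∈ F, ((u s * q * star (u s) + star (u s) * q * u s) -
            (2 : ℝ) • q) := by
        refine Finset.sum_congr rfl fun s _ => ?_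
        module
      rw [h2, Finset.sum_sub_distrib, Finset.sum_const, ← Nat.cast_smul_eq_nsmul ℝ, smul_smul,
        mul_comm (F.card : ℝ) 2]
    rw [h1, smul_sub, smul_smul]
    have h3 : (1 / (4 * F.card) * (2 * F.card) : ℝ) = 1 / 2 := by field_simp; norm_num
    rw [h3]
    module
  rw [e1, mul_smul_comm, rt_smul, Finset.mul_sum, rt_sum, abs_mul,
    abs_of_pos (by positivity : (0 : ℝ) < 1 / (4 * F.card))]
  have hterm : ∀ s ∈ F, |rt τ (Y * ((u s * q * star (u s) - q) +
      (star (u s) * q * u s - q)))| ≤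
      4 * (Real.sqrt (rt τ q) * Real.sqrt (hs τ (u s * q - q * u s))) := by
    intro s _
    have hus := (hu s).2
    have hn : ‖star (u s)‖ ≤ 1 := norm_unit_le (hu s).star
    have c1 : u s * q * star (u s) - q = (u s * q - q * u s) * star (u s) := by
      rw [sub_mul, mul_assoc q, hus, mul_one]
    have c2 : star (u s) * q * u s - q =
        -(star (u s) * (u s * q - q * u s)) := by
      rw [mul_sub, ← mul_assoc (star (u s)) (u s) q, (hu s).1, one_mul]
      noncomm_ring
    have d1 : rt τ (Y * (u s * q * star (u s) - q)) =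
        rt τ ((star (u s) * Y) * (u s * q - q * u s)) := by
      rw [c1, ← mul_assoc, rt_cycle hτ]
    have d2 : rt τ (Y * (star (u s) * q * u s - q)) =
        - rt τ ((Y * star (u s)) * (u s * q - q * u s)) := by
      rw [c2, mul_neg, rt_neg, ← mul_assoc]
    have n1 : ‖star (u s) * Y‖ ≤ 1 := by
      refine (norm_mul_le _ _).trans ?_
      nlinarith [norm_nonneg (star (u s)), norm_nonneg Y]
    have n2 : ‖Y * star (u s)‖ ≤ 1 := by
      refine (norm_mul_le _ _).trans ?_
      nlinarith [norm_nonneg (star (u s)), norm_nonneg Y]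
    have f1 := comm_bound hτ (v := u s) hq n1
    have f2 := comm_bound hτ (v := u s) hq n2
    rw [mul_add, rt_add, d1, d2]
    refine (abs_add_le _ _).trans ?_
    rw [abs_neg]
    linarith
  have h4 : |∑ s ∈ F, rt τ (Y * ((u s * q * star (u s) - q) +
      (star (u s) * q * u s - q)))| ≤
      4 * (Real.sqrt (rt τ q) * ∑ s ∈ F, Real.sqrt (hs τ (u s * q - q * u s))) := by
    refine (Finset.abs_sum_le_sum_abs _ _).trans ((Finset.sum_le_sum hterm).trans (le_of_eq ?_))
    rw [← Finset.mul_sum, ← Finset.mul_sum]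
  have h5 : ∑ s ∈ F, Real.sqrt (hs τ (u s * q - q * u s)) ≤
      Real.sqrt F.card * Real.sqrt (En τ F u q) := by
    rw [← Real.sqrt_mul (by positivity)]
    apply Real.le_sqrt_of_sq_le
    have := sq_sum_le_card_mul_sum_sq (s := F) (f := fun s => Real.sqrt (hs τ (u s * q - q * u s)))
    refine this.trans (le_of_eq ?_)
    unfold En
    congr 1
    refine Finset.sum_congr rfl fun s _ => ?_
    exact Real.sq_sqrt (hs_nonneg hτ _)
  have hrt := hq.rt_nonneg hτ
  have hEn : 0 ≤ En τ F u q := Finset.sum_nonneg fun s _ => hs_nonneg hτ _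
  rw [Real.sqrt_mul hrt]
  have hsg : Real.sqrt (F.card : ℝ) ≤ F.card := by
    rw [Real.sqrt_le_left hg.le]
    nlinarith
  have a1 := Real.sqrt_nonneg (rt τ q)
  have a2 := Real.sqrt_nonneg (En τ F u q)
  calc 1 / (4 * F.card : ℝ) * |∑ s ∈ F, rt τ (Y * ((u s * q * star (u s) - q) +
      (star (u s) * q * u s - q)))|
      ≤ 1 / (4 * F.card : ℝ) * (4 * (Real.sqrt (rt τ q) * (Real.sqrt F.card *
        Real.sqrt (En τ F u q)))) := by
        refine mul_le_mul_of_nonneg_left (h4.trans ?_) (by positivity)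
        gcongr
    _ ≤ 1 / (4 * F.card : ℝ) * (4 * (Real.sqrt (rt τ q) * (F.card *
        Real.sqrt (En τ F u q)))) := by gcongr
    _ = _ := by field_simp

theorem pRR : StRR := by
  intro N _ _ _ τ ι F u hτ hF hu h
  have hg : (0 : ℝ) < F.card := by exact_mod_cast hF.card_pos
  refine ⟨RR_eqn h, ?_, ?_, ?_, ?_, ?_⟩
  · intro q hq
    rw [RR_split h q]
    refine le_add_of_nonneg_right (tsum_nonneg fun l => ?_)
    exact smul_nonneg_real (by positivity) (h.nonneg _ q hq)
  · intro q hq hq1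
    have h1 := RR_nonneg h (sub_nonneg.2 hq1)
    rw [RR_sub h, RR_one h] at h1
    exact sub_nonneg.1 h1
  · intro q
    have h1 := rt_mul_RR hτ h 1 q
    simp only [one_mul] at h1
    rw [h1]
    have e : ∀ l : ℕ, rt τ ((TT F u ^ l) q) = rt τ q := fun l => by
      unfold rt
      rw [h.tr]
    simp_rw [e]
    rw [tsum_mul_right, tsum_c, one_mul]
  · intro q hq s hs
    have hy := RR_nonneg h hq
    have heq := RR_eqn h q
    set y := RR F u q with hydef
    have hT : TT F u y = (1 / 2 : ℝ) • y + (1 / (4 * F.card) : ℝ) •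
      ∑ s ∈ F, (u s * y * star (u s) + star (u s) * y * u s) := rfl
    have hpos : ∀ t ∈ F, 0 ≤ u t * y * star (u t) + star (u t) * y * u t :=
      fun t _ => add_nonneg (conj_nonneg hy _) (conj_nonneg' hy _)
    have h1 : u s * y * star (u s) + star (u s) * y * u s ≤
        ∑ s ∈ F, (u s * y * star (u s) + star (u s) * y * u s) :=
      Finset.single_le_sum hpos hs
    have h2 : (1 / (4 * F.card) : ℝ) •
        ∑ s ∈ F, (u s * y * star (u s) + star (u s) * y * u s) ≤
        (3 / 2 : ℝ) • y := by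
      have h3 : (1 / (4 * F.card) : ℝ) •
        ∑ s ∈ F, (u s * y * star (u s) + star (u s) * y * u s) =
        (3 / 2 : ℝ) • y - q := by
        have h4 : (1 / (4 * F.card) : ℝ) •
          ∑ s ∈ F, (u s * y * star (u s) + star (u s) * y * u s) =
          TT F u y - (1 / 2 : ℝ) • y := by rw [hT]; abel
        have h5 : TT F u y = (2 : ℝ) • y - q := by
          rw [← heq, sub_sub_cancel]
        rw [h4, h5]
        module
      rw [h3]
      exact sub_le_self _ hq
    have h3 : u s * y * star (u s) + star (u s) * y * u s ≤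
        (6 * F.card : ℝ) • y := by
      have h4 := smul_mono_real (by positivity : (0 : ℝ) ≤ 4 * F.card) h2
      rw [smul_smul, smul_smul] at h4
      have h5 : (4 * F.card * (1 / (4 * F.card)) : ℝ) = 1 := by field_simp
      have h6 : (4 * F.card * (3 / 2) : ℝ) = 6 * F.card := by ring
      rw [h5, h6, one_smul] at h4
      exact h1.trans h4
    exact ⟨(le_add_of_nonneg_right (conj_nonneg' hy _)).trans h3,
      (le_add_of_nonneg_left (conj_nonneg hy _)).trans h3⟩
  · intro q hq X hX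
    have e1 : RR F u q - q = RR F u (TT F u q - q) := by
      rw [RR_sub h, RR_T h]
      have := RR_eqn h q
      nth_rewrite 2 [← this]
      module
    rw [e1, rt_mul_RR_symm hτ h]
    exact dist_T hτ hF hu hq ((norm_RR_le h X).trans hX)

end RR

end Helper61.HT
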