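import Pool.Agent.Helper61.HT.StE
import Pool.Agent.Helper61.HT.LibN

/-!
# Module RS: random selection
-/

set_option linter.unusedSectionVars false

namespace Helper61.HT

open scoped ComplexOrder

/-! ## averages over maps -/

private lemma avg1 {S : Type} [Fintype S] [DecidableEq S] {L : ℕ} [NeZero L] (a : S)
    (g : Fin L → ℝ) :
    (L : ℝ) * ∑ A : S → Fin L, g (A a) = (Fintype.card (S → Fin L) : ℝ) * ∑ l, g l := by
  have h1 : ∀ k : Fin L, ∑ A : S → Fin L, g (A a) = ∑ A : S → Fin L, g (A a + k) := by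
    intro k
    exact (Equiv.sum_comp (Equiv.addRight (fun _ : S => k)) (fun A : S → Fin L => g (A a))).symm
  have h2 : ∑ k : Fin L, ∑ A : S → Fin L, g (A a) = ∑ A : S → Fin L, ∑ k : Fin L, g (A a + k) := by
    rw [Finset.sum_comm (s := (Finset.univ : Finset (S → Fin L)))]
    exact Finset.sum_congr rfl fun k _ => h1 k
  have h3 : ∀ A : S → Fin L, ∑ k : Fin L, g (A a + k) = ∑ l, g l :=
    fun A => Equiv.sum_comp (Equiv.addLeft (A a)) g
  rw [Finset.sum_const, Finset.card_univ, Fintype.card_fin, nsmul_eq_mul] at h2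
  rw [h2, Finset.sum_congr rfl fun A _ => h3 A, Finset.sum_const, Finset.card_univ, nsmul_eq_mul]

private lemma avg2 {S : Type} [Fintype S] [DecidableEq S] {L : ℕ} [NeZero L] {a a' : S}
    (ha : a ≠ a') (g : Fin L → Fin L → ℝ) :
    (L : ℝ) ^ 2 * ∑ A : S → Fin L, g (A a) (A a') =
      (Fintype.card (S → Fin L) : ℝ) * ∑ l, ∑ l', g l l' := by
  have h1 : ∀ k k' : Fin L, ∑ A : S → Fin L, g (A a) (A a') =
      ∑ A : S → Fin L, g (A a + k) (A a' + k') := by
    intro k k'
    have h := (Equiv.sum_comp (Equiv.addRight (fun s : S => if s = a then k else k'))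
      (fun A : S → Fin L => g (A a) (A a'))).symm
    simp only [Equiv.coe_addRight, Pi.add_apply, if_true, if_neg ha.symm] at h
    exact h
  have h2 : ∑ k : Fin L, ∑ k' : Fin L, ∑ A : S → Fin L, g (A a) (A a') =
      ∑ A : S → Fin L, ∑ k : Fin L, ∑ k' : Fin L, g (A a + k) (A a' + k') := by
    rw [Finset.sum_comm (s := (Finset.univ : Finset (S → Fin L)))]
    refine Finset.sum_congr rfl fun k _ => ?_
    rw [Finset.sum_comm (s := (Finset.univ : Finset (S → Fin L)))]
    exact Finset.sum_congr rfl fun k' _ => h1 k k'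
  have h3 : ∀ A : S → Fin L, ∑ k : Fin L, ∑ k' : Fin L, g (A a + k) (A a' + k') =
      ∑ l, ∑ l', g l l' := by
    intro A
    rw [← Equiv.sum_comp (Equiv.addLeft (A a)) (fun l => ∑ l', g l l')]
    refine Finset.sum_congr rfl fun k _ => ?_
    exact Equiv.sum_comp (Equiv.addLeft (A a')) (fun l' => g (A a + k) l')
  rw [Finset.sum_const, Finset.sum_const, Finset.card_univ, Fintype.card_fin, nsmul_eq_mul,
    nsmul_eq_mul, ← mul_assoc, ← pow_two] at h2
  rw [h2, Finset.sum_congr rfl fun A _ => h3 A, Finset.sum_const, Finset.card_univ, nsmul_eq_mul]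

private lemma markov6 {X : Type} [Fintype X] [Nonempty X] (f : Fin 6 → X → ℝ) (B : Fin 6 → ℝ)
    {δ : ℝ} (hδ : 0 < δ) (hf : ∀ k A, 0 ≤ f k A)
    (hB : ∀ k, ∑ A, f k A ≤ (Fintype.card X : ℝ) * B k) :
    ∃ A, ∀ k, f k A ≤ 6 * B k + δ := by
  have hc : (0 : ℝ) < Fintype.card X := by exact_mod_cast Fintype.card_pos
  have hB0 : ∀ k, 0 ≤ B k := by
    intro k
    by_contra h
    have h1 : (Fintype.card X : ℝ) * B k < 0 := mul_neg_of_pos_of_neg hc (not_le.1 h)
    have h2 : 0 ≤ ∑ A, f k A := Finset.sum_nonneg fun A _ => hf k A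
    linarith [hB k]
  by_contra hcon
  push Not at hcon
  have h1 : ∀ A, (1 : ℝ) < ∑ k, f k A / (6 * B k + δ) := by
    intro A
    obtain ⟨k, hk⟩ := hcon A
    have hp : 0 < 6 * B k + δ := by linarith [hB0 k]
    have h2 : f k A / (6 * B k + δ) ≤ ∑ k, f k A / (6 * B k + δ) :=
      Finset.single_le_sum (f := fun k => f k A / (6 * B k + δ))
        (fun k _ => div_nonneg (hf k A) (by linarith [hB0 k])) (Finset.mem_univ k)
    have h3 : 1 < f k A / (6 * B k + δ) := (one_lt_div hp).2 hk
    linarith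
  have h2 : (Fintype.card X : ℝ) < ∑ A, ∑ k, f k A / (6 * B k + δ) := by
    have := Finset.sum_lt_sum_of_nonempty (s := (Finset.univ : Finset X))
      Finset.univ_nonempty (fun A _ => h1 A)
    simpa using this
  rw [Finset.sum_comm] at h2
  have h3 : ∀ k, ∑ A, f k A / (6 * B k + δ) ≤ (Fintype.card X : ℝ) / 6 := by
    intro k
    have hp : 0 < 6 * B k + δ := by linarith [hB0 k]
    rw [← Finset.sum_div, div_le_div_iff₀ hp (by norm_num)]
    nlinarith [hB k, hB0 k, mul_pos hc hδ]
  have h4 : ∑ k, ∑ A, f k A / (6 * B k + δ) ≤ ∑ _k : Fin 6, (Fintype.card X : ℝ) / 6 :=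
    Finset.sum_le_sum fun k _ => h3 k
  rw [Finset.sum_const, Finset.card_univ, Fintype.card_fin, nsmul_eq_mul] at h4
  push_cast at h4
  linarith

section

variable {N : Type} [CStarAlgebra N] {τ : N →ₗ[ℂ] ℂ}

private lemma hs_sum_orth {B : Type} [Fintype B] [DecidableEq B] (x : B → N)
    (h : ∀ b c, b ≠ c → τ (star (x b) * x c) = 0) : hs τ (∑ b, x b) = ∑ b, hs τ (x b) := by
  unfold hs
  rw [star_sum, Finset.sum_mul, map_sum, Complex.re_sum]
  refine Finset.sum_congr rfl fun b _ => ?_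
  rw [Finset.mul_sum, map_sum, Finset.sum_eq_single b]
  · intro c _ hc
    exact h b c (Ne.symm hc)
  · intro hb
    exact absurd (Finset.mem_univ b) hb

private lemma bessel (hτ : Trc τ) {d : ℕ} (w : Fin d → N)
    (hw : ∀ j j', τ (star (w j) * w j') = if j = j' then 1 else 0) (v : N) :
    hs τ (v - ∑ l, τ (star (w l) * v) • w l) = hs τ v - ∑ l, ‖τ (star (w l) * v)‖ ^ 2 := by
  have h1 : ∀ y : N, τ (star (∑ l, τ (star (w l) * v) • w l) * y) =
      ∑ l, (starRingEnd ℂ) (τ (star (w l) * v)) * τ (star (w l) * y) := by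
    intro y
    rw [star_sum, Finset.sum_mul, map_sum]
    refine Finset.sum_congr rfl fun l _ => ?_
    rw [star_smul, smul_mul_assoc, map_smul, smul_eq_mul, RCLike.star_def]
  have h2 : ∀ l, τ (star (w l) * ∑ l', τ (star (w l') * v) • w l') = τ (star (w l) * v) := by
    intro l
    rw [Finset.mul_sum, map_sum, Finset.sum_eq_single l]
    · rw [mul_smul_comm, map_smul, hw, if_pos rfl, smul_eq_mul, mul_one]
    · intro l' _ hl
      rw [mul_smul_comm, map_smul, hw, if_neg (Ne.symm hl), smul_zero]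
    · intro hb
      exact absurd (Finset.mem_univ l) hb
  have h3 : ∀ c : ℂ, ((starRingEnd ℂ) c * c).re = ‖c‖ ^ 2 := by
    intro c
    rw [Complex.conj_mul']
    norm_cast
  have h4 : rt τ (star (∑ l, τ (star (w l) * v) • w l) * v) = ∑ l, ‖τ (star (w l) * v)‖ ^ 2 := by
    unfold rt
    rw [h1, Complex.re_sum]
    exact Finset.sum_congr rfl fun l _ => h3 _
  have h5 : hs τ (∑ l, τ (star (w l) * v) • w l) = ∑ l, ‖τ (star (w l) * v)‖ ^ 2 := by
    unfold hs
    rw [h1, Complex.re_sum]
    refine Finset.sum_congr rfl fun l _ => ?_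
    rw [h2, h3]
  have h6 : rt τ (star v * ∑ l, τ (star (w l) * v) • w l) = ∑ l, ‖τ (star (w l) * v)‖ ^ 2 := by
    rw [← rt_star hτ, star_mul, star_star, h4]
  rw [sub_eq_add_neg, hs_add hτ, hs_neg, mul_neg, rt_neg, h5, h6]
  ring

end

section mu

variable {N : Type} [CStarAlgebra N] {τ : N →ₗ[ℂ] ℂ} {L : ℕ} {E : Fin L → Fin L → N}

private lemma mu_mul (hE : MU E) (i j l : Fin L) : E i j * E j l = E i l := by
  rw [hE.mul, if_pos rfl]

private lemma mu_mul0 (hE : MU E) {i j k l : Fin L} (h : j ≠ k) : E i j * E k l = 0 := by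
  rw [hE.mul, if_neg h]

private lemma hs_mul_mu (hτ : Trc τ) (hE : MU E) (K : N) (a p : Fin L) :
    hs τ (K * E a p) = rt τ (star K * K * E a a) := by
  rw [hs_eq_rt, star_mul, hE.st]
  calc rt τ (E p a * star K * (K * E a p)) = rt τ (E p a * (star K * K * E a p)) := by
        congr 1; noncomm_ring
    _ = rt τ (star K * K * E a p * E p a) := rt_mul_comm hτ _ _
    _ = _ := by rw [mul_assoc (star K * K), mu_mul hE]

private lemma sum_rt_mu (hE : MU E) (X : N) : ∑ l, rt τ (X * E l l) = rt τ X := by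
  rw [← rt_sum, ← Finset.mul_sum, hE.sum, mul_one]

variable {B S : Type} [Fintype B] [DecidableEq B] [Fintype S] [DecidableEq S]

/-- the first average -/
private lemma M1 (hτ : Trc τ) [NeZero L] (hE : MU E) (a : B → S) (pos : B → Fin L)
    (hpos : Function.Injective pos) (K : B → N) :
    (L : ℝ) * ∑ A : S → Fin L, hs τ (∑ b, K b * E (A (a b)) (pos b)) =
      (Fintype.card (S → Fin L) : ℝ) * ∑ b, hs τ (K b) := by
  have h1 : ∀ A : S → Fin L, hs τ (∑ b, K b * E (A (a b)) (pos b)) =
      ∑ b, rt τ (star (K b) * K b * E (A (a b)) (A (a b))) := by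
    intro A
    rw [hs_sum_orth]
    · exact Finset.sum_congr rfl fun b _ => hs_mul_mu hτ hE _ _ _
    · intro b c hbc
      rw [star_mul, hE.st]
      have h2 : E (pos b) (A (a b)) * star (K b) * (K c * E (A (a c)) (pos c)) =
          (E (pos b) (A (a b)) * star (K b) * K c) * E (A (a c)) (pos c) := by noncomm_ring
      rw [h2, hτ.tr]
      have h3 : E (A (a c)) (pos c) * (E (pos b) (A (a b)) * star (K b) * K c) =
          (E (A (a c)) (pos c) * E (pos b) (A (a b))) * star (K b) * K c := by noncomm_ring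
      rw [h3, mu_mul0 hE (fun h => hbc (hpos h).symm)]
      simp
  rw [Finset.sum_congr rfl fun A _ => h1 A, Finset.sum_comm, Finset.mul_sum, Finset.mul_sum]
  refine Finset.sum_congr rfl fun b _ => ?_
  rw [avg1 (a b) (fun l => rt τ (star (K b) * K b * E l l)), sum_rt_mu hE, ← hs_eq_rt]

/-- the second average -/
private lemma M2 (hτ : Trc τ) [NeZero L] (hE : MU E) (a : B → S) (pos : B → Fin L)
    (hpos : Function.Injective pos) (W : B → N) (ε : ℝ)
    (hε : ∀ b b', a b = a b' → ∑ l, hs τ (E l l * (star (W b) * W b' -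
      (if b = b' then 1 else 0)) * E l l) ≤ ε) :
    (L : ℝ) ^ 2 * ∑ A : S → Fin L, hs τ (star (∑ b, W b * E (A (a b)) (pos b)) *
        (∑ b, W b * E (A (a b)) (pos b)) - ∑ b, E (pos b) (pos b)) ≤
      (Fintype.card (S → Fin L) : ℝ) * (L * ε * ∑ b, ∑ b', (if a b = a b' then 1 else 0) +
        ∑ b, ∑ b', hs τ (star (W b) * W b')) := by
  -- the matrix entries
  have h1 : ∀ A : S → Fin L, hs τ (star (∑ b, W b * E (A (a b)) (pos b)) *
        (∑ b, W b * E (A (a b)) (pos b)) - ∑ b, E (pos b) (pos b)) =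
      ∑ b, ∑ b', hs τ (E (A (a b)) (A (a b)) * (star (W b) * W b' -
        (if b = b' then 1 else 0)) * E (A (a b')) (A (a b'))) := by
    intro A
    have e1 : star (∑ b, W b * E (A (a b)) (pos b)) * (∑ b, W b * E (A (a b)) (pos b)) =
        ∑ b, ∑ b', E (pos b) (A (a b)) * (star (W b) * W b') * E (A (a b')) (pos b') := by
      rw [star_sum, Finset.sum_mul]
      refine Finset.sum_congr rfl fun b _ => ?_
      rw [Finset.mul_sum]
      refine Finset.sum_congr rfl fun b' _ => ?_
      rw [star_mul, hE.st]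
      noncomm_ring
    have e2 : ∑ b, E (pos b) (pos b) =
        ∑ b, ∑ b', E (pos b) (A (a b)) * (if b = b' then (1 : N) else 0) *
          E (A (a b')) (pos b') := by
      refine Finset.sum_congr rfl fun b _ => ?_
      rw [Finset.sum_eq_single b]
      · rw [if_pos rfl, mul_one, mu_mul hE]
      · intro b' _ hb
        rw [if_neg (Ne.symm hb), mul_zero, zero_mul]
      · intro hb
        exact absurd (Finset.mem_univ b) hb
    have e3 : star (∑ b, W b * E (A (a b)) (pos b)) * (∑ b, W b * E (A (a b)) (pos b)) -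
        ∑ b, E (pos b) (pos b) = ∑ p : B × B, E (pos p.1) (A (a p.1)) *
          (star (W p.1) * W p.2 - (if p.1 = p.2 then 1 else 0)) * E (A (a p.2)) (pos p.2) := by
      rw [e1, e2, Fintype.sum_prod_type, ← Finset.sum_sub_distrib]
      refine Finset.sum_congr rfl fun b _ => ?_
      rw [← Finset.sum_sub_distrib]
      refine Finset.sum_congr rfl fun b' _ => ?_
      noncomm_ring
    rw [e3, hs_sum_orth, Fintype.sum_prod_type]
    · refine Finset.sum_congr rfl fun b _ => Finset.sum_congr rfl fun b' _ => ?_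
      generalize star (W b) * W b' - (if b = b' then (1 : N) else 0) = y
      have hl : hs τ (E (pos b) (A (a b)) * y * E (A (a b')) (pos b')) =
          rt τ (star y * E (A (a b)) (A (a b)) * y * E (A (a b')) (A (a b'))) := by
        rw [hs_mul_mu hτ hE, star_mul, hE.st]
        congr 1
        calc star y * E (A (a b)) (pos b) * (E (pos b) (A (a b)) * y) *
            E (A (a b')) (A (a b')) = star y * (E (A (a b)) (pos b) * E (pos b) (A (a b))) * y *
            E (A (a b')) (A (a b')) := by noncomm_ring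
          _ = _ := by rw [mu_mul hE]
      have hr : hs τ (E (A (a b)) (A (a b)) * y * E (A (a b')) (A (a b'))) =
          rt τ (star y * E (A (a b)) (A (a b)) * y * E (A (a b')) (A (a b'))) := by
        rw [hs_mul_mu hτ hE, star_mul, hE.st]
        congr 1
        calc star y * E (A (a b)) (A (a b)) * (E (A (a b)) (A (a b)) * y) *
            E (A (a b')) (A (a b')) = star y * (E (A (a b)) (A (a b)) * E (A (a b)) (A (a b))) *
            y * E (A (a b')) (A (a b')) := by noncomm_ring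
          _ = _ := by rw [mu_mul hE]
      rw [hl, hr]
    · rintro ⟨b, b'⟩ ⟨c, c'⟩ hbc
      simp only
      generalize star (W b) * W b' - (if b = b' then (1 : N) else 0) = y
      generalize star (W c) * W c' - (if c = c' then (1 : N) else 0) = y'
      rw [star_mul, star_mul, hE.st, hE.st]
      by_cases h1 : b = c
      · have h2 : b' ≠ c' := fun h => hbc (by rw [h1, h])
        have h3 : E (pos b') (A (a b')) * (star y * E (A (a b)) (pos b)) *
            (E (pos c) (A (a c)) * y' * E (A (a c')) (pos c')) =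
            (E (pos b') (A (a b')) * (star y * E (A (a b)) (pos b)) *
            E (pos c) (A (a c)) * y') * E (A (a c')) (pos c') := by noncomm_ring
        rw [h3, hτ.tr]
        have h4 : E (A (a c')) (pos c') * (E (pos b') (A (a b')) * (star y * E (A (a b)) (pos b)) *
            E (pos c) (A (a c)) * y') = (E (A (a c')) (pos c') * E (pos b') (A (a b'))) *
            (star y * E (A (a b)) (pos b)) * E (pos c) (A (a c)) * y' := by noncomm_ring
        rw [h4, mu_mul0 hE (fun h => h2 (hpos h).symm)]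
        simp
      · have h3 : E (pos b') (A (a b')) * (star y * E (A (a b)) (pos b)) *
            (E (pos c) (A (a c)) * y' * E (A (a c')) (pos c')) =
            E (pos b') (A (a b')) * star y * (E (A (a b)) (pos b) *
            E (pos c) (A (a c))) * y' * E (A (a c')) (pos c') := by noncomm_ring
        rw [h3, mu_mul0 hE (fun h => h1 (hpos h))]
        simp
  rw [Finset.sum_congr rfl fun A _ => h1 A, Finset.sum_comm, Finset.mul_sum]
  have hrhs : (Fintype.card (S → Fin L) : ℝ) * (L * ε * ∑ b, ∑ b', (if a b = a b' then 1 else 0) +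
        ∑ b, ∑ b', hs τ (star (W b) * W b')) = ∑ b, ∑ b', (Fintype.card (S → Fin L) : ℝ) *
        (L * ε * (if a b = a b' then 1 else 0) + hs τ (star (W b) * W b')) := by
    rw [Finset.mul_sum, ← Finset.sum_add_distrib, Finset.mul_sum]
    refine Finset.sum_congr rfl fun b _ => ?_
    rw [Finset.mul_sum, ← Finset.sum_add_distrib, Finset.mul_sum]
  rw [hrhs]
  refine Finset.sum_le_sum fun b _ => ?_
  rw [Finset.sum_comm, Finset.mul_sum]
  refine Finset.sum_le_sum fun b' _ => ?_
  have hc : (0 : ℝ) ≤ Fintype.card (S → Fin L) := by positivity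
  have hL : (0 : ℝ) ≤ L := by positivity
  by_cases hab : a b = a b'
  · rw [if_pos hab, hab]
    have h2 := avg1 (S := S) (a b') (fun l => hs τ (E l l * (star (W b) * W b' -
        (if b = b' then 1 else 0)) * E l l))
    have h3 := hε b b' hab
    have h4 : (Fintype.card (S → Fin L) : ℝ) * ∑ l, hs τ (E l l * (star (W b) * W b' -
        (if b = b' then 1 else 0)) * E l l) ≤ (Fintype.card (S → Fin L) : ℝ) * ε :=
      mul_le_mul_of_nonneg_left h3 hc
    have h5 := hs_nonneg hτ (star (W b) * W b')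
    rw [← h2] at h4
    calc _ = (L : ℝ) * ((L : ℝ) * ∑ A : S → Fin L, hs τ (E (A (a b')) (A (a b')) *
          (star (W b) * W b' - (if b = b' then 1 else 0)) * E (A (a b')) (A (a b')))) := by ring
      _ ≤ (L : ℝ) * ((Fintype.card (S → Fin L) : ℝ) * ε) := mul_le_mul_of_nonneg_left h4 hL
      _ ≤ _ := by nlinarith [mul_nonneg hc h5]
  · have hbb : b ≠ b' := fun h => hab (by rw [h])
    rw [if_neg hab, if_neg hbb, sub_zero]
    have h2 := avg2 (S := S) hab (fun l l' => hs τ (E l l * (star (W b) * W b') * E l' l'))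
    rw [h2]
    have h3 : ∑ l, ∑ l', hs τ (E l l * (star (W b) * W b') * E l' l') =
        hs τ (star (W b) * W b') := by
      generalize star (W b) * W b' = y
      have h4 : ∀ l l', hs τ (E l l * y * E l' l') = rt τ (star y * E l l * y * E l' l') := by
        intro l l'
        rw [hs_mul_mu hτ hE, star_mul, hE.st]
        congr 1
        calc star y * E l l * (E l l * y) * E l' l' = star y * (E l l * E l l) * y * E l' l' := by
              noncomm_ring
          _ = _ := by rw [mu_mul hE]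
      calc ∑ l, ∑ l', hs τ (E l l * y * E l' l') = ∑ l, rt τ (star y * E l l * y) := by
            refine Finset.sum_congr rfl fun l _ => ?_
            rw [Finset.sum_congr rfl fun l' _ => h4 l l', sum_rt_mu hE]
        _ = rt τ (star y * (∑ l, E l l) * y) := by
            rw [Finset.mul_sum, Finset.sum_mul, rt_sum]
        _ = hs τ y := by rw [hE.sum, mul_one, ← hs_eq_rt]
    rw [h3]
    refine mul_le_mul_of_nonneg_left ?_ hc
    linarith

/-- subtracting the trace -/
private lemma diag_sub (hτ : Trc τ) (hE : MU E) (y : N) :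
    ∑ l, hs τ (E l l * (y - τ y • (1 : N)) * E l l) =
      ∑ l, hs τ (E l l * y * E l l) - ‖τ y‖ ^ 2 := by
  have h1 : ∀ l, hs τ (E l l * (y - τ y • (1 : N)) * E l l) = hs τ (E l l * y * E l l) +
      ‖τ y‖ ^ 2 * rt τ (E l l) - 2 * ((starRingEnd ℂ) (τ y) * τ (y * E l l)).re := by
    intro l
    have e1 : E l l * (y - τ y • (1 : N)) * E l l = E l l * y * E l l - τ y • E l l := by
      rw [mul_sub, sub_mul, mul_smul_comm, mul_one, smul_mul_assoc, mu_mul hE]
    have e2 : hs τ (τ y • E l l) = ‖τ y‖ ^ 2 * rt τ (E l l) := by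
      rw [hs_smulC, hs_eq_rt, hE.st, mu_mul hE]
    have e3 : rt τ (star (E l l * y * E l l) * (τ y • E l l)) =
        ((starRingEnd ℂ) (τ y) * τ (y * E l l)).re := by
      rw [← rt_star hτ, star_mul, star_star, star_smul, hE.st, RCLike.star_def]
      unfold rt
      rw [smul_mul_assoc, map_smul, smul_eq_mul]
      congr 2
      calc τ (E l l * (E l l * y * E l l)) = τ ((E l l * E l l) * (y * E l l)) := by
            congr 1; noncomm_ring
        _ = τ (E l l * (y * E l l)) := by rw [mu_mul hE]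
        _ = τ (y * E l l * E l l) := hτ.tr _ _
        _ = _ := by rw [mul_assoc, mu_mul hE]
    rw [e1, sub_eq_add_neg, hs_add hτ, hs_neg, mul_neg, rt_neg, e2, e3]
    ring
  rw [Finset.sum_congr rfl fun l _ => h1 l, Finset.sum_sub_distrib, Finset.sum_add_distrib,
    ← Finset.mul_sum, ← Finset.mul_sum]
  have h2 : ∑ l, rt τ (E l l) = 1 := by
    rw [← rt_sum, hE.sum]
    unfold rt
    rw [hτ.one]
    rfl
  have h3 : ∑ l, ((starRingEnd ℂ) (τ y) * τ (y * E l l)).re = ‖τ y‖ ^ 2 := by
    rw [← Complex.re_sum, ← Finset.mul_sum, ← map_sum, ← Finset.mul_sum, hE.sum, mul_one,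
      Complex.conj_mul']
    norm_cast
  rw [h2, h3]
  ring

end mu

theorem pRS : StRS := by
  classical
  intro N _ _ _ τ ι F u Q r d n w L E pos c ε δ hτ hu hQ hL hE hpos hw hLQ hc hε hδ hZ
  haveI : NeZero L := ⟨hL.ne'⟩
  have hLr : (0 : ℝ) < L := by exact_mod_cast hL
  let a : (Σ i : Fin r, Fin (n i) × Fin (d i)) → (Σ i : Fin r, Fin (n i)) :=
    fun b => ⟨b.1, b.2.1⟩
  let W : (Σ i : Fin r, Fin (n i) × Fin (d i)) → N := fun b => w b.1 b.2.2
  let X : ((Σ i : Fin r, Fin (n i)) → Fin L) → N :=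
    fun A => ∑ b, W b * E (A (a b)) (pos b)
  have hXdef : ∀ A, X A = ∑ b, W b * E (A (a b)) (pos b) := fun A => rfl
  have sumB : ∀ {M : Type} [AddCommMonoid M] (f : (Σ i : Fin r, Fin (n i) × Fin (d i)) → M),
      ∑ b, f b = ∑ i, ∑ m : Fin (n i), ∑ j, f ⟨i, (m, j)⟩ := by
    intro M _ f
    rw [Fintype.sum_sigma]
    exact Finset.sum_congr rfl fun i _ => Fintype.sum_prod_type _
  set Z : N := ∑ i, ((n i : ℝ) / L) • ∑ j, w i j * star (w i j) with hZdef
  have hWZ : ∑ b, W b * star (W b) = (L : ℝ) • Z := by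
    rw [sumB, hZdef, Finset.smul_sum]
    refine Finset.sum_congr rfl fun i _ => ?_
    show ∑ _m : Fin (n i), ∑ j, w i j * star (w i j) = _
    rw [Finset.sum_const, Finset.card_univ, Fintype.card_fin, smul_smul,
      mul_div_cancel₀ _ hLr.ne', Nat.cast_smul_eq_nsmul]
  have hw1 : ∀ i j, hs τ (w i j) = 1 := by
    intro i j
    unfold hs
    rw [hw, if_pos rfl]
    rfl
  have hrZ : rt τ Z = ∑ i, (n i : ℝ) * d i / L := by
    rw [hZdef, rt_sum]
    refine Finset.sum_congr rfl fun i _ => ?_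
    rw [rt_smul, rt_sum]
    have h1 : ∀ j, rt τ (w i j * star (w i j)) = 1 := by
      intro j
      rw [rt_mul_comm hτ, ← hs_eq_rt, hw1]
    rw [Finset.sum_congr rfl fun j _ => h1 j, Finset.sum_const, Finset.card_univ,
      Fintype.card_fin, nsmul_eq_mul, mul_one]
    ring
  have hZ0 : 0 ≤ Z := by
    rw [hZdef]
    refine Finset.sum_nonneg fun i _ => smul_nonneg (by positivity) ?_
    exact Finset.sum_nonneg fun j _ => nonneg_mul_star _
  have hcard : (0 : ℝ) ≤ Fintype.card ((Σ i : Fin r, Fin (n i)) → Fin L) := by positivity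
  -- linear averages
  have hD : ∀ D : N, ∑ A, hs τ (D * X A) =
      (Fintype.card ((Σ i : Fin r, Fin (n i)) → Fin L) : ℝ) * rt τ (star D * D * Z) := by
    intro D
    have h1 := M1 (τ := τ) hτ hE a pos hpos (fun b => D * W b)
    have h2 : ∀ A, ∑ b, D * W b * E (A (a b)) (pos b) = D * X A := by
      intro A
      rw [hXdef, Finset.mul_sum]
      exact Finset.sum_congr rfl fun b _ => mul_assoc _ _ _
    have h3 : ∑ b, hs τ (D * W b) = (L : ℝ) * rt τ (star D * D * Z) := by
      rw [← rt_smul, ← mul_smul_comm, ← hWZ, Finset.mul_sum, rt_sum]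
      refine Finset.sum_congr rfl fun b _ => ?_
      rw [hs_eq_rt, star_mul]
      calc rt τ (star (W b) * star D * (D * W b)) = rt τ (star (W b) * (star D * D * W b)) := by
            congr 1; simp only [mul_assoc]
        _ = rt τ (star D * D * W b * star (W b)) := rt_mul_comm hτ _ _
        _ = _ := by rw [mul_assoc (star D * D)]
    rw [Finset.sum_congr rfl fun A _ => by rw [h2 A], h3] at h1
    have h4 : (L : ℝ) * ∑ A, hs τ (D * X A) = (L : ℝ) *
        ((Fintype.card ((Σ i : Fin r, Fin (n i)) → Fin L) : ℝ) * rt τ (star D * D * Z)) := by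
      rw [h1]; ring
    exact mul_left_cancel₀ hLr.ne' h4
  have hDc : ∀ D : N, rt τ (star D * D * Z) ≤ c * hs τ D := by
    intro D
    refine (rt_mul_mono' hτ hZ (nonneg_star_mul D)).trans ?_
    rw [mul_smul_comm, mul_one, rt_smul, hs_eq_rt]
  -- the energies
  have hXE : ∀ A b p, X A * E (pos b) p = W b * E (A (a b)) p := by
    intro A b p
    rw [hXdef, Finset.sum_mul, Finset.sum_eq_single b]
    · rw [mul_assoc, mu_mul hE]
    · intro b' _ hb
      rw [mul_assoc, mu_mul0 hE (fun h => hb (hpos h)), mul_zero]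
    · intro hb
      exact absurd (Finset.mem_univ b) hb
  have hV : ∀ v : N, Un v → ∑ A, hs τ (v * X A - X A * ∑ i, ∑ m : Fin (n i), ∑ j, ∑ l,
        τ (star (w i l) * v * w i j) • E (pos ⟨i, m, l⟩) (pos ⟨i, m, j⟩)) =
      (Fintype.card ((Σ i : Fin r, Fin (n i)) → Fin L) : ℝ) * ∑ i, (n i : ℝ) / L *
        (d i - ∑ j, ∑ l, ‖τ (star (w i l) * v * w i j)‖ ^ 2) := by
    intro v hv
    have h1 := M1 (τ := τ) hτ hE a pos hpos
      (fun b => v * W b - ∑ l, τ (star (w b.1 l) * (v * W b)) • w b.1 l)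
    have h2 : ∀ A, ∑ b, (v * W b - ∑ l, τ (star (w b.1 l) * (v * W b)) • w b.1 l) *
        E (A (a b)) (pos b) = v * X A - X A * ∑ i, ∑ m : Fin (n i), ∑ j, ∑ l,
        τ (star (w i l) * v * w i j) • E (pos ⟨i, m, l⟩) (pos ⟨i, m, j⟩) := by
      intro A
      have e1 : X A * (∑ i, ∑ m : Fin (n i), ∑ j, ∑ l,
          τ (star (w i l) * v * w i j) • E (pos ⟨i, m, l⟩) (pos ⟨i, m, j⟩)) =
          ∑ b, (∑ l, τ (star (w b.1 l) * (v * W b)) • w b.1 l) * E (A (a b)) (pos b) := by
        rw [sumB, Finset.mul_sum]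
        refine Finset.sum_congr rfl fun i _ => ?_
        rw [Finset.mul_sum]
        refine Finset.sum_congr rfl fun m _ => ?_
        rw [Finset.mul_sum]
        refine Finset.sum_congr rfl fun j _ => ?_
        rw [Finset.mul_sum, Finset.sum_mul]
        refine Finset.sum_congr rfl fun l _ => ?_
        rw [mul_smul_comm, hXE, smul_mul_assoc, ← mul_assoc (star (w i l)) v]
      rw [e1, hXdef, Finset.mul_sum, ← Finset.sum_sub_distrib]
      refine Finset.sum_congr rfl fun b _ => ?_
      rw [sub_mul, mul_assoc v]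
    have h3 : ∑ b, hs τ (v * W b - ∑ l, τ (star (w b.1 l) * (v * W b)) • w b.1 l) =
        (L : ℝ) * ∑ i, (n i : ℝ) / L * (d i - ∑ j, ∑ l, ‖τ (star (w i l) * v * w i j)‖ ^ 2) := by
      rw [sumB, Finset.mul_sum]
      refine Finset.sum_congr rfl fun i _ => ?_
      show ∑ _m : Fin (n i), ∑ j, hs τ (v * w i j -
        ∑ l, τ (star (w i l) * (v * w i j)) • w i l) = _
      rw [Finset.sum_const, Finset.card_univ, Fintype.card_fin, nsmul_eq_mul, ← mul_assoc,
        mul_div_cancel₀ _ hLr.ne']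
      congr 1
      have h4 : ∀ j, hs τ (v * w i j - ∑ l, τ (star (w i l) * (v * w i j)) • w i l) =
          1 - ∑ l, ‖τ (star (w i l) * v * w i j)‖ ^ 2 := by
        intro j
        rw [bessel hτ (w i) (hw i), hs_unit_mul hv, hw1]
        congr 1
        refine Finset.sum_congr rfl fun l _ => ?_
        rw [mul_assoc]
      show ∑ j, hs τ (v * w i j - ∑ l, τ (star (w i l) * (v * w i j)) • w i l) = _
      rw [Finset.sum_congr rfl fun j _ => h4 j, Finset.sum_sub_distrib, Finset.sum_const,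
        Finset.card_univ, Fintype.card_fin, nsmul_eq_mul, mul_one]
    rw [Finset.sum_congr rfl fun A _ => by rw [h2 A], h3] at h1
    have h4 : (L : ℝ) * ∑ A, hs τ (v * X A - X A * ∑ i, ∑ m : Fin (n i), ∑ j, ∑ l,
        τ (star (w i l) * v * w i j) • E (pos ⟨i, m, l⟩) (pos ⟨i, m, j⟩)) = (L : ℝ) *
        ((Fintype.card ((Σ i : Fin r, Fin (n i)) → Fin L) : ℝ) * ∑ i, (n i : ℝ) / L *
        (d i - ∑ j, ∑ l, ‖τ (star (w i l) * v * w i j)‖ ^ 2)) := by
      rw [h1]; ring
    exact mul_left_cancel₀ hLr.ne' h4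
  -- the quadratic average
  have hS : ∑ A, hs τ (star (X A) * X A - ∑ b, E (pos b) (pos b)) ≤
      (Fintype.card ((Σ i : Fin r, Fin (n i)) → Fin L) : ℝ) *
        (c * ∑ i, (n i : ℝ) * d i / L + ε * ∑ i, (n i : ℝ) * d i ^ 2 / L) := by
    have h1 := M2 (τ := τ) hτ hE a pos hpos W ε (by
      rintro ⟨i, m, j⟩ ⟨i', m', j'⟩ h
      have h' : (⟨i, m⟩ : Σ i : Fin r, Fin (n i)) = ⟨i', m'⟩ := h
      cases h'
      have h2 : (if (⟨i, m, j⟩ : Σ i : Fin r, Fin (n i) × Fin (d i)) = ⟨i, m, j'⟩ then (1 : N)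
          else 0) = τ (star (w i j) * w i j') • (1 : N) := by
        rw [hw]
        by_cases hj : j = j'
        · subst hj
          rw [if_pos rfl, if_pos rfl, one_smul]
        · rw [if_neg hj, if_neg, zero_smul]
          intro h3
          apply hj
          simpa using h3
      show ∑ l, hs τ (E l l * (star (w i j) * w i j' - _) * E l l) ≤ ε
      rw [h2, diag_sub hτ hE]
      linarith [hLQ i j j'])
    have h2 : ∑ b : (Σ i : Fin r, Fin (n i) × Fin (d i)),
        ∑ b' : (Σ i : Fin r, Fin (n i) × Fin (d i)), (if a b = a b' then (1 : ℝ) else 0) =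
        ∑ i, (n i : ℝ) * d i ^ 2 := by
      have h3 : ∀ b : (Σ i : Fin r, Fin (n i) × Fin (d i)),
          ∑ b' : (Σ i : Fin r, Fin (n i) × Fin (d i)), (if a b = a b' then (1 : ℝ) else 0) =
          d b.1 := by
        intro b
        rw [sumB]
        have h4 : ∀ i' (m' : Fin (n i')), ∑ j' : Fin (d i'),
            (if a b = a ⟨i', (m', j')⟩ then (1 : ℝ) else 0) =
            (fun s : (Σ i : Fin r, Fin (n i)) => if a b = s then (d s.1 : ℝ) else 0) ⟨i', m'⟩ := by
          intro i' m'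
          show ∑ j' : Fin (d i'), (if a b = ⟨i', m'⟩ then (1 : ℝ) else 0) = _
          rw [Finset.sum_const, Finset.card_univ, Fintype.card_fin, nsmul_eq_mul, mul_ite,
            mul_one, mul_zero]
        have h5 := Fintype.sum_sigma
          (fun s : (Σ i : Fin r, Fin (n i)) => if a b = s then (d s.1 : ℝ) else 0)
        rw [Finset.sum_congr rfl fun i' _ => Finset.sum_congr rfl fun m' _ => h4 i' m']
        refine h5.symm.trans ?_
        rw [Finset.sum_ite_eq, if_pos (Finset.mem_univ _)]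
      rw [Finset.sum_congr rfl fun b _ => h3 b, sumB]
      refine Finset.sum_congr rfl fun i _ => ?_
      show ∑ _m : Fin (n i), ∑ _j : Fin (d i), (d i : ℝ) = _
      rw [Finset.sum_const, Finset.sum_const, Finset.card_univ, Finset.card_univ,
        Fintype.card_fin, Fintype.card_fin, nsmul_eq_mul, nsmul_eq_mul]
      ring
    have h3 : ∑ b, ∑ b', hs τ (star (W b) * W b') = (L : ℝ) ^ 2 * rt τ (Z * Z) := by
      have h4 : ∑ b, ∑ b', hs τ (star (W b) * W b') =
          rt τ ((∑ b, W b * star (W b)) * ∑ b, W b * star (W b)) := by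
        rw [Finset.sum_mul, rt_sum]
        refine Finset.sum_congr rfl fun b _ => ?_
        rw [Finset.mul_sum, rt_sum]
        refine Finset.sum_congr rfl fun b' _ => ?_
        rw [hs_eq_rt, star_mul, star_star, mul_assoc, rt_mul_comm hτ]
        congr 1
        noncomm_ring
      rw [h4, hWZ, smul_mul_smul_comm, rt_smul]
      ring
    have h4 : rt τ (Z * Z) ≤ c * ∑ i, (n i : ℝ) * d i / L := by
      refine (rt_mul_mono' hτ hZ hZ0).trans ?_
      rw [mul_smul_comm, mul_one, rt_smul, hrZ]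
    rw [h2, h3] at h1
    have h5 : (L : ℝ) ^ 2 * ∑ A, hs τ (star (X A) * X A - ∑ b, E (pos b) (pos b)) ≤
        (L : ℝ) ^ 2 * ((Fintype.card ((Σ i : Fin r, Fin (n i)) → Fin L) : ℝ) *
        (c * ∑ i, (n i : ℝ) * d i / L + ε * ∑ i, (n i : ℝ) * d i ^ 2 / L)) := by
      refine h1.trans ?_
      have h6 : (L : ℝ) * ε * ∑ i, (n i : ℝ) * d i ^ 2 =
          (L : ℝ) ^ 2 * (ε * ∑ i, (n i : ℝ) * d i ^ 2 / L) := by
        rw [← Finset.sum_div]
        field_simp
      rw [h6]
      have h7 : (L : ℝ) ^ 2 * rt τ (Z * Z) ≤ (L : ℝ) ^ 2 * (c * ∑ i, (n i : ℝ) * d i / L) :=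
        mul_le_mul_of_nonneg_left h4 (by positivity)
      have h8 := mul_le_mul_of_nonneg_left (add_le_add (le_refl ((L : ℝ) ^ 2 *
        (ε * ∑ i, (n i : ℝ) * d i ^ 2 / L))) h7) hcard
      refine h8.trans (le_of_eq ?_)
      ring
    exact le_of_mul_le_mul_left h5 (by positivity)
  -- the selection
  have hEn : ∀ s, hs τ (star (u s) * Q - Q * star (u s)) = hs τ (u s * Q - Q * u s) := by
    intro s
    have h1 : star (u s) * Q - Q * star (u s) =
        star (u s) * (Q * u s - u s * Q) * star (u s) := by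
      calc star (u s) * Q - Q * star (u s) = star (u s) * Q * (u s * star (u s)) -
            (star (u s) * u s) * Q * star (u s) := by rw [(hu s).1, (hu s).2]; noncomm_ring
        _ = _ := by noncomm_ring
    rw [h1, hs_mul_unit hτ (hu s).star, hs_unit_mul (hu s).star, hs_sub_comm]
  have hsw : ∀ (i : Fin r) (s : ι), ∑ j, ∑ l, ‖τ (star (w i l) * star (u s) * w i j)‖ ^ 2 =
      ∑ j, ∑ l, ‖τ (star (w i l) * u s * w i j)‖ ^ 2 := by
    intro i s
    rw [Finset.sum_comm]
    refine Finset.sum_congr rfl fun l _ => Finset.sum_congr rfl fun j _ => ?_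
    have h1 : star (w i l) * star (u s) * w i j = star (star (w i j) * u s * w i l) := by
      rw [star_mul, star_mul, star_star, mul_assoc]
    rw [h1, map_star' hτ, RCLike.norm_conj]
  let f : Fin 6 → ((Σ i : Fin r, Fin (n i)) → Fin L) → ℝ :=
    ![fun A => hs τ (star (X A) * X A - ∑ b, E (pos b) (pos b)),
      fun A => hs τ (Q * X A),
      fun A => ∑ s ∈ F, hs τ ((u s * Q - Q * u s) * X A),
      fun A => ∑ s ∈ F, hs τ ((star (u s) * Q - Q * star (u s)) * X A),
      fun A => ∑ s ∈ F, hs τ (u s * X A - X A * ∑ i, ∑ m : Fin (n i), ∑ j, ∑ l,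
        τ (star (w i l) * u s * w i j) • E (pos ⟨i, m, l⟩) (pos ⟨i, m, j⟩)),
      fun A => ∑ s ∈ F, hs τ (star (u s) * X A - X A * ∑ i, ∑ m : Fin (n i), ∑ j, ∑ l,
        τ (star (w i l) * star (u s) * w i j) • E (pos ⟨i, m, l⟩) (pos ⟨i, m, j⟩))]
  let Bf : Fin 6 → ℝ := ![c * ∑ i, (n i : ℝ) * d i / L + ε * ∑ i, (n i : ℝ) * d i ^ 2 / L,
      rt τ (Z * Q), c * En τ F u Q, c * En τ F u Q,
      ∑ s ∈ F, ∑ i, (n i : ℝ) / L * (d i - ∑ j, ∑ l, ‖τ (star (w i l) * u s * w i j)‖ ^ 2),
      ∑ s ∈ F, ∑ i, (n i : ℝ) / L * (d i - ∑ j, ∑ l, ‖τ (star (w i l) * u s * w i j)‖ ^ 2)]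
  obtain ⟨A, hA⟩ := markov6 f Bf hδ (by
    intro k A
    fin_cases k
    · exact hs_nonneg hτ _
    · exact hs_nonneg hτ _
    · exact Finset.sum_nonneg fun s _ => hs_nonneg hτ _
    · exact Finset.sum_nonneg fun s _ => hs_nonneg hτ _
    · exact Finset.sum_nonneg fun s _ => hs_nonneg hτ _
    · exact Finset.sum_nonneg fun s _ => hs_nonneg hτ _) (by
    intro k
    fin_cases k
    · exact hS
    · show ∑ A, hs τ (Q * X A) ≤ _ * rt τ (Z * Q)
      rw [hD, hQ.1, hQ.2, rt_mul_comm hτ]
    · show ∑ A, ∑ s ∈ F, hs τ ((u s * Q - Q * u s) * X A) ≤ _ * (c * En τ F u Q)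
      rw [Finset.sum_comm, Finset.sum_congr rfl fun s _ => hD (u s * Q - Q * u s),
        ← Finset.mul_sum]
      refine mul_le_mul_of_nonneg_left ?_ hcard
      unfold En
      rw [Finset.mul_sum]
      exact Finset.sum_le_sum fun s _ => hDc _
    · show ∑ A, ∑ s ∈ F, hs τ ((star (u s) * Q - Q * star (u s)) * X A) ≤ _ * (c * En τ F u Q)
      rw [Finset.sum_comm, Finset.sum_congr rfl fun s _ => hD (star (u s) * Q - Q * star (u s)),
        ← Finset.mul_sum]
      refine mul_le_mul_of_nonneg_left ?_ hcard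
      unfold En
      rw [Finset.mul_sum]
      refine Finset.sum_le_sum fun s _ => ?_
      rw [← hEn]
      exact hDc _
    · show ∑ A, ∑ s ∈ F, hs τ (u s * X A - X A * ∑ i, ∑ m : Fin (n i), ∑ j, ∑ l,
        τ (star (w i l) * u s * w i j) • E (pos ⟨i, m, l⟩) (pos ⟨i, m, j⟩)) ≤ _ *
        ∑ s ∈ F, ∑ i, (n i : ℝ) / L * (d i - ∑ j, ∑ l, ‖τ (star (w i l) * u s * w i j)‖ ^ 2)
      rw [Finset.sum_comm, Finset.sum_congr rfl fun s _ => hV (u s) (hu s), ← Finset.mul_sum]
    · show ∑ A, ∑ s ∈ F, hs τ (star (u s) * X A - X A * ∑ i, ∑ m : Fin (n i), ∑ j, ∑ l,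
        τ (star (w i l) * star (u s) * w i j) • E (pos ⟨i, m, l⟩) (pos ⟨i, m, j⟩)) ≤ _ *
        ∑ s ∈ F, ∑ i, (n i : ℝ) / L * (d i - ∑ j, ∑ l, ‖τ (star (w i l) * u s * w i j)‖ ^ 2)
      rw [Finset.sum_comm, Finset.sum_congr rfl fun s _ => hV (star (u s)) (hu s).star,
        ← Finset.mul_sum]
      simp only [hsw]
      exact le_refl _)
  refine ⟨X A, ?_, hA 0, hA 1, ?_, ?_, hA 4, hA 5⟩
  · rw [Finset.mul_sum, hXdef]
    exact Finset.sum_congr rfl fun b _ => by rw [← hXdef, hXE]
  · have h := hA 2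
    calc _ ≤ 6 * (c * En τ F u Q) + δ := h
      _ = _ := by ring
  · have h := hA 3
    calc _ ≤ 6 * (c * En τ F u Q) + δ := h
      _ = _ := by ring

end Helper61.HT
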