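import Pool.Agent.Helper61.HT.StE
import Pool.Agent.Helper61.HT.LibN

/-!
# Rounding, first form

The lemmas in the namespace `Rnd` (slices of a decreasing sequence of projections, layer-cake
bound) can also be used for the second form.
-/

set_option linter.unusedSectionVars false

namespace Helper61.HT

open scoped ComplexOrder

namespace Rnd

variable {N : Type} [CStarAlgebra N] [PartialOrder N] [StarOrderedRing N] {τ : N →ₗ[ℂ] ℂ}

/-- Slices. -/
def sl (P : ℕ → N) (l : ℕ) : N := P l - P (l + 1)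

/-- Functional calculus of the slices. -/
noncomputable def MM (P : ℕ → N) (M : ℕ) (g : ℕ → ℝ) : N :=
  ∑ l ∈ Finset.range M, g l • sl P l

/-- The joint distribution of the slices and their conjugates. -/
noncomputable def wt (τ : N →ₗ[ℂ] ℂ) (P : ℕ → N) (v : N) (l l' : ℕ) : ℝ :=
  rt τ (sl P l * (v * sl P l' * star v))

variable {P : ℕ → N} {M : ℕ}

lemma mul_of_le (hP : ∀ j, Pr (P j)) (ha : Antitone P) {i j : ℕ} (h : i ≤ j) :
    P i * P j = P j ∧ P j * P i = P j :=
  ⟨((hP i).absorb (hP j).nonneg (ha h)).2, ((hP i).absorb (hP j).nonneg (ha h)).1⟩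

lemma sl_pr (hP : ∀ j, Pr (P j)) (ha : Antitone P) (l : ℕ) : Pr (sl P l) :=
  (hP l).sub (hP (l + 1)) (mul_of_le hP ha (Nat.le_succ l)).1

lemma sl_mul_ne (hP : ∀ j, Pr (P j)) (ha : Antitone P) {l l' : ℕ} (h : l ≠ l') :
    sl P l * sl P l' = 0 := by
  unfold sl
  rw [sub_mul, mul_sub, mul_sub]
  rcases lt_or_gt_of_ne h with h | h
  · rw [(mul_of_le hP ha h.le).1, (mul_of_le hP ha (by omega : l ≤ l' + 1)).1,
      (mul_of_le hP ha (by omega : l + 1 ≤ l')).1, (mul_of_le hP ha (by omega : l + 1 ≤ l' + 1)).1]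
    simp
  · rw [(mul_of_le hP ha h.le).2, (mul_of_le hP ha (by omega : l' + 1 ≤ l)).2,
      (mul_of_le hP ha (by omega : l' ≤ l + 1)).2, (mul_of_le hP ha (by omega : l' + 1 ≤ l + 1)).2]
    simp

lemma tele (P : ℕ → N) {j M : ℕ} (h : j ≤ M) :
    ∑ l ∈ Finset.range M, (if j ≤ l then (1 : ℝ) else 0) • sl P l = P j - P M := by
  induction M, h using Nat.le_induction with
  | base =>
    rw [sub_self]
    refine Finset.sum_eq_zero fun l hl => ?_
    rw [if_neg (by rw [Finset.mem_range] at hl; omega), zero_smul]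
  | succ M hM ih =>
    rw [Finset.sum_range_succ, ih, if_pos hM, one_smul, sl]
    abel

lemma eq_MM (h0 : P M = 0) {j : ℕ} (h : j ≤ M) :
    P j = MM P M (fun l => if j ≤ l then 1 else 0) := by
  unfold MM
  rw [tele P h, h0, sub_zero]

lemma sum_sl (h0 : P M = 0) (h1 : P 0 = 1) : ∑ l ∈ Finset.range M, sl P l = 1 := by
  have h := eq_MM h0 (Nat.zero_le M)
  rw [h1] at h
  rw [h]
  unfold MM
  refine Finset.sum_congr rfl fun l _ => ?_
  show sl P l = (if 0 ≤ l then (1 : ℝ) else 0) • sl P l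
  rw [if_pos (Nat.zero_le l), one_smul]

/-- `∑_{1 ≤ j < M} P j = ∑ l e_l`. -/
lemma sum_eq_MM (h0 : P M = 0) :
    ∑ j ∈ Finset.Ico 1 M, P j = MM P M (fun l => (l : ℝ)) := by
  have key : ∀ K : ℕ, ∑ l ∈ Finset.range (K + 1), (l : ℝ) • sl P l =
      ∑ j ∈ Finset.Ico 1 (K + 1), P j - (K : ℝ) • P (K + 1) := by
    intro K
    induction K with
    | zero => simp
    | succ K ih =>
      rw [Finset.sum_range_succ, ih, Finset.sum_Ico_succ_top (by omega : 1 ≤ K + 1), sl]
      push_cast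
      rw [smul_sub, add_smul, add_smul, one_smul, one_smul]
      abel
  unfold MM
  rcases Nat.eq_zero_or_pos M with h | h
  · subst h; simp
  · obtain ⟨K, rfl⟩ : ∃ K, M = K + 1 := ⟨M - 1, by omega⟩
    rw [key K, h0, smul_zero, sub_zero]

lemma MM_sq (hP : ∀ j, Pr (P j)) (ha : Antitone P) (g : ℕ → ℝ) :
    MM P M g * MM P M g = MM P M (fun l => g l ^ 2) := by
  unfold MM
  rw [Finset.sum_mul]
  refine Finset.sum_congr rfl fun l hl => ?_
  rw [Finset.mul_sum, Finset.sum_eq_single l]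
  · rw [smul_mul_smul_comm, (sl_pr hP ha l).2]
    show (g l * g l) • sl P l = (g l ^ 2) • sl P l
    rw [sq]
  · intro l' _ hne
    rw [smul_mul_smul_comm, sl_mul_ne hP ha hne.symm, smul_zero]
  · intro h; exact absurd hl h

lemma MM_herm (hP : ∀ j, Pr (P j)) (g : ℕ → ℝ) : star (MM P M g) = MM P M g := by
  unfold MM
  rw [star_sum]
  refine Finset.sum_congr rfl fun l _ => ?_
  rw [star_smul, star_trivial, sl, star_sub, (hP l).1, (hP (l + 1)).1]

lemma wt_nonneg (hτ : Trc τ) (hP : ∀ j, Pr (P j)) (ha : Antitone P) (v : N) (l l' : ℕ) :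
    0 ≤ wt τ P v l l' :=
  rt_mul_nonneg hτ (sl_pr hP ha l).nonneg (conj_nonneg (sl_pr hP ha l').nonneg v)

lemma sum_wt_right (h0 : P M = 0) (h1 : P 0 = 1) {v : N} (hv : Un v) (l : ℕ) :
    ∑ l' ∈ Finset.range M, wt τ P v l l' = rt τ (sl P l) := by
  unfold wt
  rw [← rt_sum, ← Finset.mul_sum, ← Finset.sum_mul, ← Finset.mul_sum, sum_sl h0 h1, mul_one,
    hv.2, mul_one]

lemma sum_wt_left (hτ : Trc τ) (h0 : P M = 0) (h1 : P 0 = 1) {v : N} (hv : Un v) (l' : ℕ) :
    ∑ l ∈ Finset.range M, wt τ P v l l' = rt τ (sl P l') := by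
  unfold wt
  rw [← rt_sum, ← Finset.sum_mul, sum_sl h0 h1, one_mul, rt_cycle hτ, hv.1, one_mul]

/-- Commutators. -/
lemma hs_comm_MM (hτ : Trc τ) (hP : ∀ j, Pr (P j)) (ha : Antitone P) (h0 : P M = 0)
    (h1 : P 0 = 1) {v : N} (hv : Un v) (g : ℕ → ℝ) :
    hs τ (v * MM P M g - MM P M g * v) = ∑ l ∈ Finset.range M, ∑ l' ∈ Finset.range M,
      wt τ P v l l' * (g l - g l') ^ 2 := by
  have hB : star (v * MM P M g * star v) = v * MM P M g * star v := by
    rw [star_mul, star_mul, star_star, MM_herm hP, mul_assoc]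
  have e1 : rt τ (MM P M g * MM P M g) =
      ∑ l ∈ Finset.range M, ∑ l' ∈ Finset.range M, wt τ P v l l' * g l ^ 2 := by
    rw [MM_sq hP ha]
    unfold MM
    rw [rt_sum]
    refine Finset.sum_congr rfl fun l _ => ?_
    rw [rt_smul, ← Finset.sum_mul, sum_wt_right h0 h1 hv, mul_comm]
  have e1' : rt τ (MM P M g * MM P M g) =
      ∑ l ∈ Finset.range M, ∑ l' ∈ Finset.range M, wt τ P v l l' * g l' ^ 2 := by
    rw [Finset.sum_comm, MM_sq hP ha]
    unfold MM
    rw [rt_sum]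
    refine Finset.sum_congr rfl fun l _ => ?_
    rw [rt_smul, ← Finset.sum_mul, sum_wt_left hτ h0 h1 hv, mul_comm]
  have e2 : rt τ (v * MM P M g * star v * (v * MM P M g * star v)) =
      rt τ (MM P M g * MM P M g) := by
    rw [show v * MM P M g * star v * (v * MM P M g * star v) =
      v * (MM P M g * (star v * v) * MM P M g) * star v by noncomm_ring, hv.1, mul_one,
      rt_cycle hτ, ← mul_assoc, hv.1, one_mul]
  have e3 : rt τ (MM P M g * (v * MM P M g * star v)) =
      ∑ l ∈ Finset.range M, ∑ l' ∈ Finset.range M, wt τ P v l l' * (g l * g l') := by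
    have h : MM P M g * (v * MM P M g * star v) = ∑ l ∈ Finset.range M, ∑ l' ∈ Finset.range M,
        (g l * g l') • (sl P l * (v * sl P l' * star v)) := by
      unfold MM
      rw [Finset.sum_mul]
      refine Finset.sum_congr rfl fun l _ => ?_
      rw [Finset.mul_sum, Finset.sum_mul, Finset.mul_sum]
      refine Finset.sum_congr rfl fun l' _ => ?_
      simp only [mul_smul_comm, smul_mul_assoc, smul_smul]
      rw [mul_comm]
    rw [h, rt_sum]
    refine Finset.sum_congr rfl fun l _ => ?_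
    rw [rt_sum]
    refine Finset.sum_congr rfl fun l' _ => ?_
    rw [rt_smul, wt, mul_comm]
  rw [hs_comm_unit hτ hv, hs_eq_rt, star_sub, hB, MM_herm hP, sub_mul, mul_sub, mul_sub, rt_sub,
    rt_sub, rt_sub, rt_mul_comm hτ (v * MM P M g * star v) (MM P M g), e2, e3]
  nth_rewrite 2 [e1']
  rw [e1, ← Finset.sum_sub_distrib, ← Finset.sum_sub_distrib, ← Finset.sum_sub_distrib]
  refine Finset.sum_congr rfl fun l _ => ?_
  rw [← Finset.sum_sub_distrib, ← Finset.sum_sub_distrib, ← Finset.sum_sub_distrib]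
  refine Finset.sum_congr rfl fun l' _ => ?_
  ring

/-- Counting levels between two indices. -/
lemma cnt_le (J M l l' : ℕ) :
    ∑ j ∈ Finset.Ico J M, ((if j ≤ l then (1 : ℝ) else 0) - (if j ≤ l' then 1 else 0)) ^ 2 ≤
      |(l : ℝ) - l'| * Real.sqrt ((if J ≤ l then (1 : ℝ) else 0) + (if J ≤ l' then 1 else 0)) := by
  have hsym : ∀ l l' : ℕ, l ≤ l' →
      ∑ j ∈ Finset.Ico J M, ((if j ≤ l then (1 : ℝ) else 0) - (if j ≤ l' then 1 else 0)) ^ 2 ≤
      |(l : ℝ) - l'| *
        Real.sqrt ((if J ≤ l then (1 : ℝ) else 0) + (if J ≤ l' then 1 else 0)) := by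
    intro l l' hll
    by_cases hJ : J ≤ l'
    · have h1 : 1 ≤ Real.sqrt ((if J ≤ l then (1 : ℝ) else 0) + (if J ≤ l' then 1 else 0)) := by
        rw [Real.one_le_sqrt, if_pos hJ]
        split_ifs <;> norm_num
      have h2 : ∑ j ∈ Finset.Ico J M,
          ((if j ≤ l then (1 : ℝ) else 0) - (if j ≤ l' then 1 else 0)) ^ 2 ≤
          ((l' - l : ℕ) : ℝ) := by
        have h3 : ∀ j ∈ Finset.Ico J M,
            ((if j ≤ l then (1 : ℝ) else 0) - (if j ≤ l' then 1 else 0)) ^ 2 =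
            if j ∈ Finset.Ioc l l' then 1 else 0 := by
          intro j _
          simp only [Finset.mem_Ioc]
          split_ifs <;> first | (exfalso; omega) | norm_num
        rw [Finset.sum_congr rfl h3, ← Finset.sum_filter, Finset.sum_const, nsmul_eq_mul, mul_one]
        have h4 : ((Finset.Ico J M).filter fun j => j ∈ Finset.Ioc l l').card ≤
            (Finset.Ioc l l').card := by
          refine Finset.card_le_card fun j hj => ?_
          exact (Finset.mem_filter.1 hj).2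
        rw [Nat.card_Ioc] at h4
        exact_mod_cast h4
      have h5 : ((l' - l : ℕ) : ℝ) = |(l : ℝ) - l'| := by
        rw [Nat.cast_sub hll, abs_sub_comm, abs_of_nonneg]
        rw [sub_nonneg]
        exact_mod_cast hll
      rw [h5] at h2
      calc _ ≤ |(l : ℝ) - l'| * 1 := by rw [mul_one]; exact h2
        _ ≤ _ := mul_le_mul_of_nonneg_left h1 (abs_nonneg _)
    · have h3 : ∀ j ∈ Finset.Ico J M,
          ((if j ≤ l then (1 : ℝ) else 0) - (if j ≤ l' then 1 else 0)) ^ 2 = 0 := by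
        intro j hj
        rw [Finset.mem_Ico] at hj
        rw [if_neg (by omega), if_neg (by omega)]
        norm_num
      rw [Finset.sum_eq_zero h3]
      exact mul_nonneg (abs_nonneg _) (Real.sqrt_nonneg _)
  rcases le_total l l' with h | h
  · exact hsym l l' h
  · have h1 := hsym l' l h
    rw [abs_sub_comm, add_comm (if J ≤ l' then (1 : ℝ) else 0)] at h1
    refine le_trans (le_of_eq ?_) h1
    refine Finset.sum_congr rfl fun j _ => ?_
    ring

/-- The layer-cake bound for one unitary. -/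
lemma sum_hs_le (hτ : Trc τ) (hP : ∀ j, Pr (P j)) (ha : Antitone P) (h0 : P M = 0)
    (h1 : P 0 = 1) {v : N} (hv : Un v) {J : ℕ} (hJ : J ≤ M) :
    ∑ j ∈ Finset.Ico J M, hs τ (v * P j - P j * v) ≤
      Real.sqrt (hs τ (v * (∑ j ∈ Finset.Ico 1 M, P j) - (∑ j ∈ Finset.Ico 1 M, P j) * v)) *
        Real.sqrt (2 * rt τ (P J)) := by
  have e1 : ∀ j ∈ Finset.Ico J M, hs τ (v * P j - P j * v) =
      ∑ l ∈ Finset.range M, ∑ l' ∈ Finset.range M, wt τ P v l l' *
        ((if j ≤ l then (1 : ℝ) else 0) - (if j ≤ l' then 1 else 0)) ^ 2 := by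
    intro j hj
    rw [Finset.mem_Ico] at hj
    conv_lhs => rw [eq_MM h0 hj.2.le]
    exact hs_comm_MM hτ hP ha h0 h1 hv _
  rw [Finset.sum_congr rfl e1, Finset.sum_comm]
  have e2 : ∑ l ∈ Finset.range M, ∑ j ∈ Finset.Ico J M, ∑ l' ∈ Finset.range M,
      wt τ P v l l' * ((if j ≤ l then (1 : ℝ) else 0) - (if j ≤ l' then 1 else 0)) ^ 2 ≤
      ∑ l ∈ Finset.range M, ∑ l' ∈ Finset.range M,
        (Real.sqrt (wt τ P v l l') * |(l : ℝ) - l'|) * (Real.sqrt (wt τ P v l l') *
          Real.sqrt ((if J ≤ l then (1 : ℝ) else 0) + (if J ≤ l' then 1 else 0))) := by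
    refine Finset.sum_le_sum fun l _ => ?_
    rw [Finset.sum_comm]
    refine Finset.sum_le_sum fun l' _ => ?_
    rw [← Finset.mul_sum]
    have h2 := mul_le_mul_of_nonneg_left (cnt_le J M l l') (wt_nonneg hτ hP ha v l l')
    refine h2.trans (le_of_eq ?_)
    have h3 := Real.mul_self_sqrt (wt_nonneg hτ hP ha v l l')
    calc wt τ P v l l' * (|(l : ℝ) - l'| * Real.sqrt _) =
        (Real.sqrt (wt τ P v l l') * Real.sqrt (wt τ P v l l')) *
          (|(l : ℝ) - l'| * Real.sqrt _) := by rw [h3]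
      _ = _ := by ring
  refine e2.trans ?_
  rw [← Finset.sum_product']
  refine (Real.sum_mul_le_sqrt_mul_sqrt _ _ _).trans ?_
  rw [sum_eq_MM h0, hs_comm_MM hτ hP ha h0 h1 hv]
  refine mul_le_mul ?_ ?_ (Real.sqrt_nonneg _) (Real.sqrt_nonneg _)
  · refine Real.sqrt_le_sqrt (le_of_eq ?_)
    rw [Finset.sum_product]
    refine Finset.sum_congr rfl fun l _ => Finset.sum_congr rfl fun l' _ => ?_
    rw [mul_pow, sq_abs, Real.sq_sqrt (wt_nonneg hτ hP ha v l l')]
  · refine Real.sqrt_le_sqrt (le_of_eq ?_)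
    rw [Finset.sum_product]
    have e3 : ∀ l l' : ℕ, (Real.sqrt (wt τ P v l l') *
        Real.sqrt ((if J ≤ l then (1 : ℝ) else 0) + (if J ≤ l' then 1 else 0))) ^ 2 =
        wt τ P v l l' * (if J ≤ l then 1 else 0) + wt τ P v l l' * (if J ≤ l' then 1 else 0) := by
      intro l l'
      rw [mul_pow, Real.sq_sqrt (wt_nonneg hτ hP ha v l l'), Real.sq_sqrt, mul_add]
      split_ifs <;> norm_num
    simp only [e3, Finset.sum_add_distrib]
    have e4 : ∑ l ∈ Finset.range M, ∑ l' ∈ Finset.range M,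
        wt τ P v l l' * (if J ≤ l then (1 : ℝ) else 0) = rt τ (P J) := by
      conv_rhs => rw [eq_MM h0 hJ]
      unfold MM
      rw [rt_sum]
      refine Finset.sum_congr rfl fun l _ => ?_
      rw [← Finset.sum_mul, sum_wt_right h0 h1 hv, rt_smul, mul_comm]
    have e5 : ∑ l ∈ Finset.range M, ∑ l' ∈ Finset.range M,
        wt τ P v l l' * (if J ≤ l' then (1 : ℝ) else 0) = rt τ (P J) := by
      rw [Finset.sum_comm]
      conv_rhs => rw [eq_MM h0 hJ]
      unfold MM
      rw [rt_sum]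
      refine Finset.sum_congr rfl fun l _ => ?_
      rw [← Finset.sum_mul, sum_wt_left hτ h0 h1 hv, rt_smul, mul_comm]
    rw [e4, e5]
    ring

/-! ## the levels of `a` -/

/-- The level projections. -/
noncomputable def lev (E : ℝ → N) (m : ℕ) (j : ℕ) : N :=
  if j = 0 then 1 else if j ≤ m then E ((j : ℝ) / m) else 0

variable {a : N} {E : ℝ → N}

lemma lev_zero (m : ℕ) : lev E m 0 = 1 := by simp [lev]

lemma lev_top (m : ℕ) : lev E m (m + 1) = 0 := by simp [lev]

lemma lev_mid {m j : ℕ} (h1 : 1 ≤ j) (h2 : j ≤ m) : lev E m j = E ((j : ℝ) / m) := by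
  unfold lev
  rw [if_neg (by omega), if_pos h2]

lemma lev_pr (hE : SpecF a E) (m j : ℕ) : Pr (lev E m j) := by
  unfold lev
  split_ifs
  · exact Pr.one
  · exact hE.pr _
  · exact Pr.zero

lemma lev_anti (hE : SpecF a E) (m : ℕ) : Antitone (lev E m) := by
  intro i j hij
  unfold lev
  split_ifs with h1 h2 h3 h4 h5 h6 h7
  · exact le_rfl
  · omega
  · omega
  · exact (hE.pr _).le_one
  · exact hE.anti _ _ (by
      gcongr)
  · omega
  · exact Pr.one.nonneg
  · exact (hE.pr _).nonneg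
  · exact le_rfl

lemma lev_sum (m : ℕ) : ∑ j ∈ Finset.Ico 1 (m + 1), lev E m j =
    ∑ j ∈ Finset.range m, E (((j : ℝ) + 1) / m) := by
  rw [Finset.sum_Ico_eq_sum_range]
  refine Finset.sum_congr (by simp) fun j hj => ?_
  rw [Finset.mem_range] at hj
  rw [lev_mid (by omega) (by omega)]
  push_cast
  rw [add_comm (1 : ℝ)]

/-- `l E_l ≤ a`. -/
lemma smul_E_le (hE : SpecF a E) (ha0 : 0 ≤ a) (l : ℝ) : l • E l ≤ a := by
  refine (hE.lo l).trans ?_
  have h1 : a * E l = E l * a := hE.comm l a rfl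
  have h2 : a = E l * a * E l + (1 - E l) * a * (1 - E l) := by
    have h3 : E l * a * E l = E l * a := by rw [mul_assoc, h1, ← mul_assoc, (hE.pr l).2]
    have h4 : (1 - E l) * a * (1 - E l) = a - a * E l - E l * a + E l * a * E l := by
      noncomm_ring
    rw [h4, h3, h1]
    abel
  have h5 : 0 ≤ (1 - E l) * a * (1 - E l) := by
    have := conj_nonneg ha0 (1 - E l)
    rwa [(hE.pr l).one_sub.1] at this
  nth_rewrite 2 [h2]
  exact le_add_of_nonneg_right h5

lemma sqrt_hs_le_norm (hτ : Trc τ) (y : N) : Real.sqrt (hs τ y) ≤ ‖y‖ := by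
  rw [Real.sqrt_le_left (norm_nonneg y)]
  have h := hs_mul_le hτ y 1
  rw [mul_one] at h
  refine h.trans (le_of_eq ?_)
  rw [hs_eq_rt, star_one, mul_one, rt_one hτ, mul_one]

lemma abs_rt_mul_le_norm (hτ : Trc τ) (y X : N) : |rt τ (y * X)| ≤ ‖y‖ * Real.sqrt (hs τ X) :=
  (abs_rt_mul_le hτ y X).trans
    (mul_le_mul_of_nonneg_right (sqrt_hs_le_norm hτ y) (Real.sqrt_nonneg _))

/-- Commutators of a nearby element. -/
lemma sqrt_comm_le (hτ : Trc τ) {v x y : N} (hv : Un v) :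
    Real.sqrt (hs τ (v * y - y * v)) ≤ Real.sqrt (hs τ (v * x - x * v)) + 2 * ‖x - y‖ := by
  have h1 : v * y - y * v = (v * x - x * v) + ((x - y) * v - v * (x - y)) := by noncomm_ring
  rw [h1]
  refine (sqrt_hs_add_le hτ _ _).trans ?_
  have h2 := sqrt_hs_sub_le hτ ((x - y) * v) (v * (x - y))
  rw [hs_mul_unit hτ hv, hs_unit_mul hv] at h2
  have h3 := sqrt_hs_le_norm hτ (x - y)
  linarith

/-- The layer-cake bound for the energy, at resolution `1 / m`. -/
lemma sum_En_lev_le (hτ : Trc τ) {ι : Type} (F : Finset ι) {u : ι → N} (hu : ∀ s, Un (u s))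
    (hE : SpecF a E) (ha0 : 0 ≤ a) {t : ℝ} (ht : 0 < t) {m J : ℕ} (hm : 0 < m) (hJ : J ≤ m)
    (hJt : t * m ≤ J) :
    (1 / m : ℝ) * ∑ j ∈ Finset.Ico J (m + 1), En τ F u (lev E m j) ≤
      (∑ s ∈ F, Real.sqrt (hs τ (u s * a - a * u s)) + 2 * F.card / m) *
        Real.sqrt (2 * rt τ a / t) := by
  have hm0 : (0 : ℝ) < m := by exact_mod_cast hm
  have hJ1 : 1 ≤ J := by
    by_contra h
    have : J = 0 := by omega
    rw [this, Nat.cast_zero] at hJt
    have := mul_pos ht hm0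
    linarith
  set S : N := ∑ j ∈ Finset.Ico 1 (m + 1), lev E m j with hS
  have hlay : ‖a - (1 / m : ℝ) • S‖ ≤ 1 / m := by
    rw [hS, lev_sum]
    exact hE.lay m hm
  have hPJ : 2 * rt τ (lev E m J) ≤ 2 * rt τ a / t := by
    rw [lev_mid hJ1 hJ, le_div_iff₀ ht]
    have h1 := rt_mono hτ (smul_E_le hE ha0 ((J : ℝ) / m))
    rw [rt_smul] at h1
    have h2 : t ≤ (J : ℝ) / m := by rwa [le_div_iff₀ hm0]
    have h3 := mul_le_mul_of_nonneg_right h2 ((hE.pr ((J : ℝ) / m)).rt_nonneg hτ)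
    linarith
  unfold En
  rw [Finset.sum_comm, Finset.mul_sum]
  have key : ∀ s ∈ F, (1 / m : ℝ) *
      ∑ j ∈ Finset.Ico J (m + 1), hs τ (u s * lev E m j - lev E m j * u s) ≤
      (Real.sqrt (hs τ (u s * a - a * u s)) + 2 / m) * Real.sqrt (2 * rt τ a / t) := by
    intro s _
    have h1 := sum_hs_le hτ (lev_pr hE m) (lev_anti hE m) (lev_top m) (lev_zero m) (hu s)
      (by omega : J ≤ m + 1)
    rw [← hS] at h1
    have h2 := mul_le_mul_of_nonneg_left h1 (by positivity : (0 : ℝ) ≤ 1 / m)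
    refine h2.trans ?_
    rw [← mul_assoc]
    refine mul_le_mul ?_ (Real.sqrt_le_sqrt hPJ) (Real.sqrt_nonneg _) (by positivity)
    have h3 : (1 / m : ℝ) * Real.sqrt (hs τ (u s * S - S * u s)) =
        Real.sqrt (hs τ (u s * ((1 / m : ℝ) • S) - ((1 / m : ℝ) • S) * u s)) := by
      rw [mul_smul_comm, smul_mul_assoc, ← smul_sub, hs_smul, Real.sqrt_mul (sq_nonneg _),
        Real.sqrt_sq (by positivity)]
    rw [h3]
    refine (sqrt_comm_le (x := a) hτ (hu s)).trans ?_
    have h4 : 2 * ‖a - (1 / m : ℝ) • S‖ ≤ 2 / m := by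
      calc 2 * ‖a - (1 / m : ℝ) • S‖ ≤ 2 * (1 / m) := by linarith
        _ = 2 / m := by ring
    linarith
  refine (Finset.sum_le_sum key).trans (le_of_eq ?_)
  rw [← Finset.sum_mul, Finset.sum_add_distrib, Finset.sum_const, nsmul_eq_mul]
  ring

/-- `∑_s ‖[u_s, a]‖₂ · sqrt (2 τ(a) / t) ≤ sqrt (2 |F| En(a) τ(a) / t)`. -/
lemma sum_sqrt_le (hτ : Trc τ) {ι : Type} (F : Finset ι) (u : ι → N) (_ha0 : 0 ≤ a) {t : ℝ}
    (_ht : 0 < t) :
    (∑ s ∈ F, Real.sqrt (hs τ (u s * a - a * u s))) * Real.sqrt (2 * rt τ a / t) ≤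
      Real.sqrt (2 * F.card * En τ F u a * rt τ a / t) := by
  have h1 : ∑ r ∈ F, Real.sqrt (hs τ (u r * a - a * u r)) ≤
      Real.sqrt (F.card) * Real.sqrt (∑ r ∈ F, hs τ (u r * a - a * u r)) := by
    have h2 := Real.sum_sqrt_mul_sqrt_le F (f := fun _ => (1 : ℝ))
      (g := fun r => hs τ (u r * a - a * u r)) (fun _ => zero_le_one)
      (fun r => hs_nonneg hτ _)
    simpa using h2
  refine (mul_le_mul_of_nonneg_right h1 (Real.sqrt_nonneg _)).trans (le_of_eq ?_)
  have h3 : 0 ≤ ∑ r ∈ F, hs τ (u r * a - a * u r) :=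
    Finset.sum_nonneg fun r _ => hs_nonneg hτ _
  rw [← Real.sqrt_mul (by positivity), ← Real.sqrt_mul (by positivity)]
  congr 1
  unfold En
  ring

end Rnd

open Rnd in
theorem pRound1 (hSpec : StSpec) : StRound1 := by
  intro N _ _ _ τ ι F u a X r t B c hτ hC hu ha0 ha1 hX hX1 hr0 hr1 ht ht1 hB hc hp
  obtain ⟨E, hE⟩ := hSpec N τ hτ hC a ha0 ha1
  set W : ℝ := ∑ s ∈ F, Real.sqrt (hs τ (u s * a - a * u s)) with hW
  set Z : ℝ := Real.sqrt (2 * rt τ a / t) with hZ
  set K : ℝ := 1 + c * (2 * F.card * Z) + Real.sqrt (hs τ X) with hK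
  -- the bound at resolution `1 / m`
  have key : ∀ m : ℕ, 0 < m → rt τ (a * X) ≤
      (t * rt τ r + rt τ (a * (1 - r)) + B + c * (W * Z)) + K * (1 / m) := by
    intro m hm
    have hm0 : (0 : ℝ) < m := by exact_mod_cast hm
    obtain ⟨J, hJdef⟩ : ∃ J : ℕ, J = ⌈t * m⌉₊ := ⟨_, rfl⟩
    have htm : 0 < t * m := mul_pos ht hm0
    have hJt : t * m ≤ J := by rw [hJdef]; exact Nat.le_ceil _
    have hJ1 : 1 ≤ J := by rw [hJdef]; exact Nat.one_le_ceil_iff.2 htm
    have hJm : J ≤ m := by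
      rw [hJdef]
      refine Nat.ceil_le.2 ?_
      nlinarith
    have hJ' : ((J : ℝ) - 1) ≤ t * m := by
      have := Nat.ceil_lt_add_one htm.le
      rw [← hJdef] at this
      linarith
    obtain ⟨P, hPdef⟩ : ∃ P : ℕ → N, P = lev E m := ⟨_, rfl⟩
    have hPpr : ∀ j, Pr (P j) := fun j => by rw [hPdef]; exact lev_pr hE m j
    have hEn := sum_En_lev_le hτ F hu hE ha0 ht hm hJm hJt
    rw [← hPdef, ← hW, ← hZ] at hEn
    set S : N := ∑ j ∈ Finset.Ico 1 (m + 1), P j with hS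
    have hlay : ‖a - (1 / m : ℝ) • S‖ ≤ 1 / m := by
      rw [hS, hPdef, lev_sum]
      exact hE.lay m hm
    have hsplit : S = ∑ j ∈ Finset.Ico 1 J, P j + ∑ j ∈ Finset.Ico J (m + 1), P j := by
      rw [hS, Finset.sum_Ico_consecutive _ hJ1 (by omega)]
    -- upper levels
    have hup : (1 / m : ℝ) * rt τ ((∑ j ∈ Finset.Ico J (m + 1), P j) * X) ≤
        B + c * ((W + 2 * F.card / m) * Z) := by
      rw [Finset.sum_mul, rt_sum]
      have h1 : ∀ j ∈ Finset.Ico J (m + 1), rt τ (P j * X) ≤ B + c * En τ F u (P j) := by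
        intro j hj
        rw [Finset.mem_Ico] at hj
        refine hp _ (hPpr j) ?_
        rw [hPdef, lev_mid (by omega) (by omega)]
        refine (smul_mono_left ?_ (hE.pr _).nonneg).trans (smul_E_le hE ha0 ((j : ℝ) / m))
        rw [le_div_iff₀ hm0]
        refine hJt.trans ?_
        exact_mod_cast hj.1
      have h2 := mul_le_mul_of_nonneg_left (Finset.sum_le_sum h1) (by positivity : (0 : ℝ) ≤ 1 / m)
      refine h2.trans ?_
      rw [Finset.sum_add_distrib, Finset.sum_const, Nat.card_Ico, nsmul_eq_mul, ← Finset.mul_sum]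
      have h3 : (1 / m : ℝ) * (((m + 1 - J : ℕ) : ℝ) * B) ≤ B := by
        have h4 : ((m + 1 - J : ℕ) : ℝ) ≤ m := by
          have : m + 1 - J ≤ m := by omega
          exact_mod_cast this
        calc (1 / m : ℝ) * (((m + 1 - J : ℕ) : ℝ) * B) ≤ (1 / m : ℝ) * (m * B) := by
              gcongr
          _ = B := by field_simp
      have h5 := mul_le_mul_of_nonneg_left hEn hc
      calc (1 / m : ℝ) * (((m + 1 - J : ℕ) : ℝ) * B +
            c * ∑ j ∈ Finset.Ico J (m + 1), En τ F u (P j)) =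
          (1 / m : ℝ) * (((m + 1 - J : ℕ) : ℝ) * B) +
            c * ((1 / m : ℝ) * ∑ j ∈ Finset.Ico J (m + 1), En τ F u (P j)) := by ring
        _ ≤ _ := add_le_add h3 h5
    -- lower levels
    have hlow : (1 / m : ℝ) * rt τ ((∑ j ∈ Finset.Ico 1 J, P j) * X) ≤
        t * rt τ r + rt τ (a * (1 - r)) + 1 / m := by
      obtain ⟨b, hb⟩ : ∃ b : N, b = (1 / m : ℝ) • ∑ j ∈ Finset.Ico 1 J, P j := ⟨_, rfl⟩
      have hb0 : 0 ≤ b := by
        rw [hb]
        exact smul_nonneg_real (by positivity) (Finset.sum_nonneg fun j _ => (hPpr j).nonneg)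
      have hbt : b ≤ t • (1 : N) := by
        have h1 : ∑ j ∈ Finset.Ico 1 J, P j ≤ ∑ j ∈ Finset.Ico 1 J, (1 : N) :=
          Finset.sum_le_sum fun j _ => (hPpr j).le_one
        rw [Finset.sum_const, Nat.card_Ico, ← Nat.cast_smul_eq_nsmul ℝ] at h1
        have h2 := smul_mono_real (by positivity : (0 : ℝ) ≤ 1 / m) h1
        rw [hb]
        refine h2.trans ?_
        rw [smul_smul]
        refine smul_mono_left ?_ zero_le_one
        rw [Nat.cast_sub hJ1, Nat.cast_one]
        calc (1 / m : ℝ) * ((J : ℝ) - 1) ≤ (1 / m : ℝ) * (t * m) := by gcongr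
          _ = t := by field_simp
      have hba : b ≤ a + (1 / m : ℝ) • (1 : N) := by
        have h1 : b ≤ (1 / m : ℝ) • S := by
          rw [hb, hsplit, smul_add]
          refine le_add_of_nonneg_right ?_
          exact smul_nonneg_real (by positivity) (Finset.sum_nonneg fun j _ => (hPpr j).nonneg)
        refine h1.trans ?_
        have hSs : star ((1 / m : ℝ) • S) = (1 / m : ℝ) • S := by
          rw [star_smul, star_trivial, hS, star_sum]
          congr 1
          exact Finset.sum_congr rfl fun j _ => (hPpr j).1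
        have h2 : star ((1 / m : ℝ) • S - a) = (1 / m : ℝ) • S - a := by
          rw [star_sub, hSs, herm_of_nonneg ha0]
        have h3 : (1 / m : ℝ) • S - a ≤ (1 / m : ℝ) • (1 : N) := (le_smul_of_norm h2).trans
          (smul_mono_left (by rw [norm_sub_rev]; exact hlay) zero_le_one)
        rw [sub_le_iff_le_add'] at h3
        exact h3
      have e1 : (1 / m : ℝ) * rt τ ((∑ j ∈ Finset.Ico 1 J, P j) * X) = rt τ (b * X) := by
        rw [hb, smul_mul_assoc, rt_smul]
      rw [e1]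
      have h1 : rt τ (b * X) ≤ rt τ b := by
        have := rt_mul_mono' hτ hX1 hb0
        rwa [mul_one] at this
      have h2 : rt τ b = rt τ (b * r) + rt τ (b * (1 - r)) := by
        rw [← rt_add]
        congr 1
        noncomm_ring
      have h3 := rt_mul_mono hτ hbt hr0
      rw [smul_mul_assoc, one_mul, rt_smul] at h3
      have h4 := rt_mul_mono hτ hba (sub_nonneg.2 hr1)
      rw [add_mul, rt_add, smul_mul_assoc, one_mul, rt_smul] at h4
      have h5 : rt τ (1 - r) ≤ 1 := by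
        rw [rt_sub, rt_one hτ]
        linarith [rt_nonneg hτ hr0]
      have h6 : (1 / m : ℝ) * rt τ (1 - r) ≤ 1 / m := by
        calc (1 / m : ℝ) * rt τ (1 - r) ≤ (1 / m : ℝ) * 1 := by gcongr
          _ = 1 / m := mul_one _
      linarith
    -- total
    have h7 : a * X = ((1 / m : ℝ) • S) * X + (a - (1 / m : ℝ) • S) * X := by noncomm_ring
    have h8 : rt τ (((1 / m : ℝ) • S) * X) =
        (1 / m : ℝ) * rt τ ((∑ j ∈ Finset.Ico 1 J, P j) * X) +
        (1 / m : ℝ) * rt τ ((∑ j ∈ Finset.Ico J (m + 1), P j) * X) := by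
      rw [smul_mul_assoc, rt_smul, hsplit, add_mul, rt_add, mul_add]
    have h9 : rt τ ((a - (1 / m : ℝ) • S) * X) ≤ 1 / m * Real.sqrt (hs τ X) :=
      (le_abs_self _).trans ((abs_rt_mul_le_norm hτ _ _).trans
        (mul_le_mul_of_nonneg_right hlay (Real.sqrt_nonneg _)))
    rw [h7, rt_add, h8]
    have h10 : c * ((W + 2 * F.card / m) * Z) + 1 / m + 1 / m * Real.sqrt (hs τ X) =
        c * (W * Z) + K * (1 / m) := by
      rw [hK]; ring
    linarith
  -- the limit
  have hlim : rt τ (a * X) ≤ t * rt τ r + rt τ (a * (1 - r)) + B + c * (W * Z) := by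
    have h1 : Filter.Tendsto (fun m : ℕ => (t * rt τ r + rt τ (a * (1 - r)) + B + c * (W * Z)) +
        K * (1 / ((m : ℝ) + 1))) Filter.atTop
        (nhds ((t * rt τ r + rt τ (a * (1 - r)) + B + c * (W * Z)) + K * 0)) :=
      (tendsto_one_div_add_atTop_nhds_zero_nat.const_mul K).const_add _
    rw [mul_zero, add_zero] at h1
    refine ge_of_tendsto' h1 fun m => ?_
    have := key (m + 1) (Nat.succ_pos m)
    push_cast at this
    exact this
  have h2 := mul_le_mul_of_nonneg_left (sum_sqrt_le hτ F u ha0 ht) hc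
  rw [← hW, ← hZ] at h2
  linarith

end Helper61.HT

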