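import Pool.Agent.Helper61.HT.Rnd

/-!
# Module Round2: rounding, second form
-/

set_option linter.unusedSectionVars false

namespace Helper61.HT

open MeasureTheory Rnd
open scoped ComplexOrder

section

variable {N : Type} [CStarAlgebra N] [PartialOrder N] [StarOrderedRing N] {τ : N →ₗ[ℂ] ℂ}

private lemma r2_quarter {p b : N} (hp : Pr p) (hb : star b = b) (h1 : b * p = b)
    (h2 : p * b = b) (h : (1 / 4 : ℝ) • p ≤ b) : (1 / 16 : ℝ) • p ≤ b * b := by
  have e : b * b - (1 / 16 : ℝ) • p = (b - (1 / 4 : ℝ) • p) * (b - (1 / 4 : ℝ) • p) +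
      (1 / 2 : ℝ) • (b - (1 / 4 : ℝ) • p) := by
    rw [sub_mul, mul_sub, mul_sub, mul_smul_comm, smul_mul_assoc, smul_mul_assoc, mul_smul_comm,
      h1, h2, hp.2, smul_smul, smul_sub, smul_smul]
    have e1 : (1 / 16 : ℝ) • p = (1 / 4 * (1 / 4) : ℝ) • p := by norm_num
    have e2 : (1 / 2 : ℝ) • b = (1 / 4 : ℝ) • b + (1 / 4 : ℝ) • b := by
      rw [← add_smul]; norm_num
    have e3 : (1 / 2 * (1 / 4) : ℝ) • p = (1 / 4 * (1 / 4) : ℝ) • p + (1 / 4 * (1 / 4) : ℝ) • p := by
      rw [← add_smul]; norm_num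
    rw [e1, e2, e3]
    abel
  rw [← sub_nonneg, e]
  refine add_nonneg ?_ (smul_nonneg_real (by norm_num) (sub_nonneg.2 h))
  have h3 : star (b - (1 / 4 : ℝ) • p) = b - (1 / 4 : ℝ) • p := by
    rw [star_sub, star_smul, hb, hp.1, star_trivial (1 / 4 : ℝ)]
  have h4 := nonneg_star_mul (b - (1 / 4 : ℝ) • p)
  rwa [h3] at h4

private lemma r2_comp {p Y : N} (hp : Pr p) (hY : p * Y = Y * p) (h : p ≤ (16 : ℝ) • Y) :
    0 ≤ (16 : ℝ) • (Y * p) - p := by
  have h2 := conj_nonneg (sub_nonneg.2 h) p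
  rw [hp.1, mul_sub, sub_mul, hp.2, hp.2, mul_smul_comm, smul_mul_assoc, hY, mul_assoc,
    hp.2] at h2
  exact h2

/-- `p ≤ 16 a²` if `p a p ≥ p / 4` and `p` commutes with `a`. -/
private lemma r2_C {p a : N} (hp : Pr p) (ha : star a = a) (hc : a * p = p * a)
    (h : (1 / 4 : ℝ) • p ≤ p * a * p) : p ≤ (16 : ℝ) • (a * a) := by
  have hb : p * a * p = a * p := by rw [← hc, mul_assoc, hp.2]
  rw [hb] at h
  have h1 : star (a * p) = a * p := by rw [star_mul, hp.1, ha, hc]
  have h2 := r2_quarter hp h1 (by rw [mul_assoc, hp.2]) (by rw [hc, ← mul_assoc, hp.2]) h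
  have h3 : a * p * (a * p) ≤ a * a := by
    rw [← sub_nonneg]
    have e : a * a - a * p * (a * p) = star (a * (1 - p)) * (a * (1 - p)) := by
      rw [star_mul, star_sub, star_one, hp.1, ha]
      have e1 : a * p * (a * p) = a * a * p := by
        rw [mul_assoc, ← mul_assoc p, ← hc, mul_assoc a p p, hp.2, ← mul_assoc]
      have e2 : (1 - p) * a * (a * (1 - p)) = a * a - a * a * p - p * (a * a) + p * (a * a) * p := by
        noncomm_ring
      have e3 : p * (a * a) = a * a * p := by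
        rw [← mul_assoc, ← hc, mul_assoc a p a, ← hc, mul_assoc]
      rw [e1, e2, e3, mul_assoc (a * a) p p, hp.2]
      abel
    rw [e]
    exact nonneg_star_mul _
  have h4 := smul_mono_real (c := 16) (by norm_num) (h2.trans h3)
  rw [smul_smul] at h4
  norm_num at h4
  exact h4

end

theorem pRound2 (hSpec : StSpec) : StRound2 := by
  intro N _ _ _ τ ι F u a hτ hC hu ha0 ha1
  obtain ⟨E, hE⟩ := hSpec N τ hτ hC a ha0 ha1
  obtain ⟨x, hx1, hx2, hx⟩ := exists_le_avg (t := 1 / 4) (s := 3 / 4) (by norm_num)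
    (En_int hτ hE F hu (1 / 4) (3 / 4))
  have hle := int_En_le hτ hE ha0 F hu (t := 1 / 4) (s := 3 / 4) (by norm_num) (by norm_num)
    (by norm_num)
  have hp := hE.pr x
  have hpc : a * E x = E x * a := hE.comm x a rfl
  have has : star a = a := herm_of_nonneg ha0
  have hlo := hE.lo x
  have hhi := hE.hi x
  set p := E x with hpdef
  have hp1 := hp.one_sub
  have h14 : (1 / 4 : ℝ) • p ≤ p * a * p := (smul_mono_left hx1.le hp.nonneg).trans hlo
  have has1 : star (1 - a) = 1 - a := by rw [star_sub, star_one, has]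
  have hpc1 : (1 - a) * (1 - p) = (1 - p) * (1 - a) := by
    have e1 : (1 - a) * (1 - p) = 1 - a - p + a * p := by noncomm_ring
    have e2 : (1 - p) * (1 - a) = 1 - a - p + p * a := by noncomm_ring
    rw [e1, e2, hpc]
  have h34 : (1 / 4 : ℝ) • (1 - p) ≤ (1 - p) * (1 - a) * (1 - p) := by
    have e1 : (1 - p) * (1 - a) * (1 - p) = (1 - p) * (1 - p) - (1 - p) * a * (1 - p) := by
      noncomm_ring
    rw [e1, hp1.2]
    have h1 : (1 / 4 : ℝ) • (1 - p) + x • (1 - p) ≤ 1 - p := by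
      rw [← add_smul]
      have := smul_mono_left (c := 1 / 4 + x) (d := 1) (by linarith) hp1.nonneg
      rwa [one_smul] at this
    have h2 : (1 / 4 : ℝ) • (1 - p) ≤ (1 - p) - x • (1 - p) := le_sub_iff_add_le.2 h1
    exact h2.trans (sub_le_sub_left hhi _)
  have hCC : p ≤ (16 : ℝ) • (a * a) := r2_C hp has hpc h14
  have hDD : 1 - p ≤ (16 : ℝ) • ((1 - a) * (1 - a)) := r2_C hp1 has1 hpc1 h34
  refine ⟨p, hp, ?_, ?_, ?_, ?_⟩
  · -- `p ≤ 4 a`
    have h1 : p * a * p ≤ a := by
      rw [← sub_nonneg]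
      have e : a - p * a * p = (1 - p) * a * star (1 - p) := by
        rw [star_sub, star_one, hp.1]
        have e1 : (1 - p) * a * (1 - p) = a - a * p - p * a + p * a * p := by noncomm_ring
        have e2 : p * a * p = a * p := by rw [← hpc, mul_assoc, hp.2]
        rw [e1, e2, ← hpc]
        abel
      rw [e]
      exact conj_nonneg ha0 _
    have h2 := smul_mono_real (c := 4) (by norm_num) (h14.trans h1)
    rw [smul_smul] at h2
    norm_num at h2
    exact h2
  · have e1 : 2 * (F.card : ℝ) * En τ F u a * rt τ a / (1 / 4) =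
        8 * F.card * En τ F u a * rt τ a := by ring
    rw [e1] at hle
    linarith
  · -- `hs (a - p) ≤ 16 hs (a - a²)`
    have hX0 : 0 ≤ (1 - a) * (1 - a) := by
      have := nonneg_star_mul (1 - a)
      rwa [has1] at this
    have hA0 : 0 ≤ a * a := by
      have := nonneg_star_mul a
      rwa [has] at this
    have hpaa : p * (a * a) = a * a * p := by
      rw [← mul_assoc, ← hpc, mul_assoc a p a, ← hpc, mul_assoc]
    have hpXX : (1 - p) * ((1 - a) * (1 - a)) = (1 - a) * (1 - a) * (1 - p) := by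
      rw [← mul_assoc, ← hpc1, mul_assoc (1 - a) (1 - p) (1 - a), ← hpc1, mul_assoc]
    have h1 : 0 ≤ (16 : ℝ) • (a * a * p) - p := r2_comp hp hpaa hCC
    have h2 : 0 ≤ (16 : ℝ) • ((1 - a) * (1 - a) * (1 - p)) - (1 - p) := r2_comp hp1 hpXX hDD
    have h3 := rt_mul_nonneg hτ hX0 h1
    have h4 := rt_mul_nonneg hτ hA0 h2
    rw [mul_sub, rt_sub, mul_smul_comm, rt_smul] at h3 h4
    have h5 : (1 - a) * (1 - a) * (a * a * p) + a * a * ((1 - a) * (1 - a) * (1 - p)) =
        (a - a * a) * (a - a * a) := by noncomm_ring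
    have h6 : rt τ ((1 - a) * (1 - a) * (a * a * p)) +
        rt τ (a * a * ((1 - a) * (1 - a) * (1 - p))) = hs τ (a - a * a) := by
      rw [← rt_add, h5, hs_eq_rt, star_sub, star_mul, has]
    have h7 : (1 - a) * (1 - a) * p + a * a * (1 - p) = (a - p) * (a - p) := by
      have e1 : (1 - a) * (1 - a) * p + a * a * (1 - p) = a * a - a * p - a * p + p := by
        noncomm_ring
      have e2 : (a - p) * (a - p) = a * a - a * p - p * a + p * p := by noncomm_ring
      rw [e1, e2, ← hpc, hp.2]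
    have h8 : rt τ ((1 - a) * (1 - a) * p) + rt τ (a * a * (1 - p)) = hs τ (a - p) := by
      rw [← rt_add, h7, hs_eq_rt, star_sub, has, hp.1]
    linarith
  · -- `hs (p - q) ≤ 16 hs (a - q)`
    intro q hq
    have h1 := rt_mul_nonneg hτ (sub_nonneg.2 hCC) hq.one_sub.nonneg
    have h2 := rt_mul_nonneg hτ (sub_nonneg.2 hDD) hq.nonneg
    have e1 : hs τ (a - q) = rt τ (a * a) - 2 * rt τ (a * q) + rt τ q := by
      rw [hs_eq_rt, star_sub, has, hq.1, sub_mul, mul_sub, mul_sub, hq.2, rt_sub, rt_sub, rt_sub,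
        rt_mul_comm hτ q a]
      ring
    have e2 : hs τ (p - q) = rt τ p - 2 * rt τ (p * q) + rt τ q := by
      rw [hs_eq_rt, star_sub, hp.1, hq.1, sub_mul, mul_sub, mul_sub, hq.2, hp.2, rt_sub, rt_sub,
        rt_sub, rt_mul_comm hτ q p]
      ring
    have e3 : rt τ (((16 : ℝ) • (a * a) - p) * (1 - q)) = 16 * rt τ (a * a) - rt τ p -
        16 * rt τ (a * a * q) + rt τ (p * q) := by
      rw [mul_sub, mul_one, sub_mul, rt_sub, rt_sub, rt_sub, smul_mul_assoc, rt_smul, rt_smul]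
      ring
    have e4 : rt τ (((16 : ℝ) • ((1 - a) * (1 - a)) - (1 - p)) * q) =
        16 * (rt τ q - 2 * rt τ (a * q) + rt τ (a * a * q)) - (rt τ q - rt τ (p * q)) := by
      rw [sub_mul, rt_sub, smul_mul_assoc, rt_smul]
      have e5 : (1 - a) * (1 - a) * q = q - a * q - a * q + a * a * q := by noncomm_ring
      have e6 : (1 - p) * q = q - p * q := by noncomm_ring
      rw [e5, e6, rt_add, rt_sub, rt_sub, rt_sub]
      ring
    rw [e3] at h1
    rw [e4] at h2
    rw [e1, e2]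
    linarith

end Helper61.HT
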