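import Pool.Agent.Helper61.HT.StE
import Pool.Agent.Helper61.HT.LibN

/-!
# Project HT: module Ry
-/

set_option linter.unusedSectionVars false

namespace Helper61.HT

open scoped ComplexOrder

namespace Ry

variable {N : Type} [CStarAlgebra N] [PartialOrder N] [StarOrderedRing N] {τ : N →ₗ[ℂ] ℂ}

private lemma norm_mul_le_one {a b : N} (ha : ‖a‖ ≤ 1) (hb : ‖b‖ ≤ 1) : ‖a * b‖ ≤ 1 :=
  (norm_mul_le _ _).trans (by nlinarith [norm_nonneg a, norm_nonneg b])

/-- the trace bound -/
private lemma key (hτ : Trc τ) {K x Q e : N} {ω : ℝ} (hK : ‖K‖ ≤ 1) (he : Pr e) (hQ : Pr Q)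
    (hxe : x * e = x) (hω : 0 < ω)
    (h1 : hs τ (star x * x - e) ≤ ω ^ 2 * rt τ e) (h2 : hs τ (Q * x) ≤ ω * rt τ e) :
    |rt τ (K * (star ((1 - Q) * x) * ((1 - Q) * x) - e))| ≤ 2 * ω * rt τ e := by
  have hex : e * star x = star x := by
    have := congrArg star hxe
    rwa [star_mul, he.1] at this
  have hT : 0 ≤ rt τ e := he.rt_nonneg hτ
  have e1 : K * (star ((1 - Q) * x) * ((1 - Q) * x) - e) =
      (K * e) * (star x * x - e) - K * (star (Q * x) * (Q * x)) := by
    have hs1 : star ((1 - Q) * x) * ((1 - Q) * x) = star x * x - star (Q * x) * (Q * x) := by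
      rw [star_mul, star_mul, star_sub, star_one, hQ.1]
      have : star x * (1 - Q) * ((1 - Q) * x) = star x * x - star x * Q * x - star x * Q * x +
          star x * (Q * Q) * x := by noncomm_ring
      rw [this, hQ.2]
      have : star x * Q * (Q * x) = star x * (Q * Q) * x := by noncomm_ring
      rw [this, hQ.2]
      abel
    rw [hs1]
    have h3 : (K * e) * (star x * x - e) = K * (star x * x) - K * e := by
      have : (K * e) * (star x * x - e) = K * ((e * star x) * x) - K * (e * e) := by noncomm_ring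
      rw [this, hex, he.2]
    rw [h3]
    noncomm_ring
  rw [e1, rt_sub]
  have b1 : |rt τ ((K * e) * (star x * x - e))| ≤ ω * rt τ e := by
    refine (abs_rt_mul_le hτ _ _).trans ?_
    have h3 : Real.sqrt (hs τ (K * e)) ≤ Real.sqrt (rt τ e) := by
      refine Real.sqrt_le_sqrt ?_
      have := hs_mul_left_le hτ (x := K) (y := e) hK
      rwa [he.hs] at this
    have h4 : Real.sqrt (hs τ (star x * x - e)) ≤ ω * Real.sqrt (rt τ e) := by
      refine (Real.sqrt_le_sqrt h1).trans ?_
      rw [Real.sqrt_mul (by positivity), Real.sqrt_sq hω.le]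
    calc Real.sqrt (hs τ (K * e)) * Real.sqrt (hs τ (star x * x - e)) ≤
        Real.sqrt (rt τ e) * (ω * Real.sqrt (rt τ e)) :=
          mul_le_mul h3 h4 (Real.sqrt_nonneg _) (Real.sqrt_nonneg _)
      _ = ω * (Real.sqrt (rt τ e) * Real.sqrt (rt τ e)) := by ring
      _ = ω * rt τ e := by rw [Real.mul_self_sqrt hT]
  have b2 : |rt τ (K * (star (Q * x) * (Q * x)))| ≤ ω * rt τ e := by
    have h3 : rt τ (K * (star (Q * x) * (Q * x))) = rt τ (((Q * x) * K) * star (Q * x)) := by
      rw [← mul_assoc, rt_cycle hτ]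
    rw [h3]
    refine (abs_rt_mul_le hτ _ _).trans ?_
    rw [hs_star hτ]
    have h4 : Real.sqrt (hs τ (Q * x * K)) ≤ Real.sqrt (hs τ (Q * x)) :=
      Real.sqrt_le_sqrt (hs_mul_right_le hτ hK)
    calc Real.sqrt (hs τ (Q * x * K)) * Real.sqrt (hs τ (Q * x)) ≤
        Real.sqrt (hs τ (Q * x)) * Real.sqrt (hs τ (Q * x)) :=
          mul_le_mul_of_nonneg_right h4 (Real.sqrt_nonneg _)
      _ = hs τ (Q * x) := Real.mul_self_sqrt (hs_nonneg hτ _)
      _ ≤ _ := h2
  calc |rt τ ((K * e) * (star x * x - e)) - rt τ (K * (star (Q * x) * (Q * x)))| ≤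
      |rt τ ((K * e) * (star x * x - e))| + |rt τ (K * (star (Q * x) * (Q * x)))| := abs_sub _ _
    _ ≤ 2 * ω * rt τ e := by linarith

/-- commutator with `ρ` -/
private lemma comm_rho {y ρ θ u : N} (hρ : ρ = GG (y * star y)) :
    u * ρ - ρ * u = (ρ * y) * (star y * u - θ * star y) * ρ +
      ρ * (y * θ - u * y) * (star y * ρ) := by
  have hc : 0 ≤ y * star y := nonneg_mul_star y
  have h1 : ρ * (1 + y * star y) = 1 := by rw [hρ]; exact GG_mul hc
  have h2 : (1 + y * star y) * ρ = 1 := by rw [hρ]; exact mul_GG hc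
  calc u * ρ - ρ * u = (ρ * (1 + y * star y)) * u * ρ - ρ * u * ((1 + y * star y) * ρ) := by
        rw [h1, h2, one_mul, mul_one]
    _ = _ := by noncomm_ring

end Ry

open Ry in
theorem pRy (hR : StRound2) : StRy := by
  intro g εf hg hεf
  refine ⟨εf ^ 2 / (8192 * g), by positivity, ?_⟩
  intro N _ _ _ τ ι F u θ θ' e x Q ω hτ hC hFg hu he he0 hQ hxe hθ hω hω1 h1 h2 h3
  have hT : 0 < rt τ e := he.rt_pos hτ he0
  -- notation
  obtain ⟨y, hy⟩ : ∃ y, y = (1 - Q) * x := ⟨_, rfl⟩
  obtain ⟨b, hbdef⟩ : ∃ b, b = star y * y := ⟨_, rfl⟩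
  obtain ⟨r, hr⟩ : ∃ r, r = GG b := ⟨_, rfl⟩
  have hb : 0 ≤ b := by rw [hbdef]; exact nonneg_star_mul y
  have hye : y * e = y := by rw [hy, mul_assoc, hxe]
  have hey : e * star y = star y := by
    have := congrArg star hye
    rwa [star_mul, he.1] at this
  have hbe : b * e = b := by rw [hbdef, mul_assoc, hye]
  have heb : e * b = b := by rw [hbdef, ← mul_assoc, hey]
  have hrs : star r = r := by rw [hr]; exact GG_herm hb
  have hr0 : 0 ≤ r := by rw [hr]; exact GG_nonneg hb
  have hr1 : r ≤ 1 := by rw [hr]; exact GG_le_one hb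
  have hrn : ‖r‖ ≤ 1 := norm_le_one_of_nonneg hr0 hr1
  have hrb : r * b = 1 - r := by
    have := GG_mul hb
    rw [← hr, mul_add, mul_one] at this
    rw [← this]; abel
  have hbr : b * r = 1 - r := by
    have := mul_GG hb
    rw [← hr, add_mul, one_mul] at this
    rw [← this]; abel
  have her : e * r = e - 1 + r := by
    have h4 : e * (1 - r) = 1 - r := by rw [← hbr, ← mul_assoc, heb]
    rw [mul_sub, mul_one] at h4
    have : e * r = e - (e - e * r) := by abel
    rw [this, h4]; abel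
  have hre : r * e = e - 1 + r := by
    have h4 : (1 - r) * e = 1 - r := by rw [← hrb, mul_assoc, hbe]
    rw [sub_mul, one_mul] at h4
    have : r * e = e - (e - r * e) := by abel
    rw [this, h4]; abel
  obtain ⟨w, hw⟩ : ∃ w, w = r - r * r := ⟨_, rfl⟩
  obtain ⟨d, hd⟩ : ∃ d, d = (1 : N) + 1 - e - r - r := ⟨_, rfl⟩
  have hdr : d = (b - e) * r := by rw [sub_mul, hbr, her, hd]; abel
  have hrd : d = r * (b - e) := by rw [mul_sub, hrb, hre, hd]; abel
  have hdd : d * d = e - (4 : ℝ) • w := by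
    have h4 : d * d = (1 : N) + 1 + 1 + 1 - e - e - e - e + e * e - (r + r + r + r + r + r + r + r) +
        e * r + e * r + r * e + r * e + r * r + r * r + r * r + r * r := by
      rw [hd]; noncomm_ring
    have h5 : (4 : ℝ) • w = w + w + w + w := by
      rw [show (4 : ℝ) = 1 + 1 + 1 + 1 by norm_num, add_smul, add_smul, add_smul, one_smul]
    rw [h4, h5, he.2, her, hre, hw]
    abel
  have hwe : w * e = w := by
    rw [hw, sub_mul, mul_assoc, hre, mul_add, mul_sub, mul_one, hre]; abel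
  have hdn : ‖d‖ ≤ 1 := by
    have h4 : d = e * (1 - r - r) := by
      rw [mul_sub, mul_sub, mul_one, her, hd]; abel
    rw [h4]
    refine norm_mul_le_one he.norm_le ?_
    refine norm_le_of_le zero_le_one ?_ ?_ ?_
    · rw [star_sub, star_sub, star_one, hrs]
    · rw [one_smul]
      have : (1 : N) - (1 - r - r) = r + r := by abel
      rw [← sub_nonneg, this]
      exact add_nonneg hr0 hr0
    · rw [one_smul]
      have : (1 : N) - r - r - -1 = (1 - r) + (1 - r) := by abel
      rw [← sub_nonneg, this]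
      exact add_nonneg (sub_nonneg.2 hr1) (sub_nonneg.2 hr1)
  have hw0 : 0 ≤ w := by rw [hw]; exact sub_nonneg.2 (le_mul_self_of_le_one hr0 hr1)
  have hds : star d = d := by
    rw [hd]; simp only [star_sub, star_add, star_one, he.1, hrs]
  have hdd0 : 0 ≤ d * d := by
    have := nonneg_star_mul d
    rwa [hds] at this
  have h4w0 : 0 ≤ (4 : ℝ) • w := smul_nonneg_real (by norm_num) hw0
  have h4w1 : (4 : ℝ) • w ≤ 1 := by
    have : (4 : ℝ) • w = e - d * d := by rw [hdd]; abel
    rw [this]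
    exact (sub_le_self _ hdd0).trans he.le_one
  have h4wn : ‖(4 : ℝ) • w‖ ≤ 1 := norm_le_one_of_nonneg h4w0 h4w1
  have hkey : ∀ K : N, ‖K‖ ≤ 1 → rt τ (K * (b - e)) ≤ 2 * ω * rt τ e := by
    intro K hK
    have := key hτ hK he hQ hxe hω h1 h2
    rw [← hy, ← hbdef] at this
    exact (le_abs_self _).trans this
  -- `ρ` and `a'`
  obtain ⟨ρ, hρ⟩ : ∃ ρ, ρ = GG (y * star y) := ⟨_, rfl⟩
  have hc : 0 ≤ y * star y := nonneg_mul_star y
  have hρs : star ρ = ρ := by rw [hρ]; exact GG_herm hc
  have hρ0 : 0 ≤ ρ := by rw [hρ]; exact GG_nonneg hc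
  have hρ1 : ρ ≤ 1 := by rw [hρ]; exact GG_le_one hc
  have hρn : ‖ρ‖ ≤ 1 := norm_le_one_of_nonneg hρ0 hρ1
  have hρc : ρ * (y * star y) = 1 - ρ := by
    have := GG_mul hc
    rw [← hρ, mul_add, mul_one] at this
    rw [← this]; abel
  have hyr : y * r = ρ * y := by
    have h4 : y * ((1 + b) * r) = y := by rw [hr, mul_GG hb, mul_one]
    calc y * r = (ρ * (1 + y * star y)) * (y * r) := by
          rw [hρ, GG_mul hc, one_mul]
      _ = ρ * (y * ((1 + b) * r)) := by rw [hbdef]; noncomm_ring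
      _ = ρ * y := by rw [h4]
  have hry : r * star y = star y * ρ := by
    have := congrArg star hyr
    rwa [star_mul, star_mul, hrs, hρs] at this
  obtain ⟨y1, hy1⟩ : ∃ y1, y1 = (2 : ℝ) • (y * r) := ⟨_, rfl⟩
  have hy1s : star y1 = (2 : ℝ) • (r * star y) := by
    rw [hy1, star_smul, star_mul, hrs, star_trivial]
  obtain ⟨a', ha'⟩ : ∃ a', a' = y1 * star y1 := ⟨_, rfl⟩
  have ha'1 : a' = (4 : ℝ) • (y * r * r * star y) := by
    rw [ha', hy1s, hy1, smul_mul_smul_comm, show (2 : ℝ) * 2 = 4 by norm_num]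
    congr 1
    simp only [mul_assoc]
  have ha'2 : a' = (4 : ℝ) • (ρ - ρ * ρ) := by
    rw [ha'1]
    congr 1
    calc y * r * r * star y = (y * r) * (r * star y) := by noncomm_ring
      _ = (ρ * (y * star y)) * ρ := by rw [hyr, hry]; noncomm_ring
      _ = ρ - ρ * ρ := by rw [hρc]; noncomm_ring
  have ha'0 : 0 ≤ a' := by rw [ha']; exact nonneg_mul_star y1
  have ha'le : a' ≤ 1 := by
    have h4 : 1 - a' = star (1 - ρ - ρ) * (1 - ρ - ρ) := by
      rw [star_sub, star_sub, star_one, hρs, ha'2,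
        show (4 : ℝ) = 1 + 1 + 1 + 1 by norm_num, add_smul, add_smul, add_smul, one_smul]
      noncomm_ring
    rw [← sub_nonneg, h4]
    exact nonneg_star_mul _
  have ha's : star a' = a' := herm_of_nonneg ha'0
  -- traces
  have t1 : rt τ a' = rt τ ((4 : ℝ) • w) := by
    rw [ha'1, rt_smul, rt_smul]
    congr 1
    rw [rt_mul_comm hτ]
    congr 1
    calc star y * (y * r * r) = (b * r) * r := by rw [hbdef]; noncomm_ring
      _ = w := by rw [hbr, hw]; noncomm_ring
  have t2 : rt τ (a' * a') = rt τ ((4 : ℝ) • w * (4 : ℝ) • w) := by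
    rw [ha'1, smul_mul_smul_comm, smul_mul_smul_comm, rt_smul, rt_smul]
    congr 1
    have : y * r * r * star y * (y * r * r * star y) =
        (y * r * r * (star y * y) * r * r) * star y := by noncomm_ring
    rw [this, rt_mul_comm hτ]
    congr 1
    calc star y * (y * r * r * (star y * y) * r * r) = ((b * r) * r) * ((b * r) * r) := by
          rw [hbdef]; noncomm_ring
      _ = w * w := by rw [hbr, hw]; noncomm_ring
  have t3 : rt τ (a' - a' * a') ≤ 2 * ω * rt τ e := by
    have h4 : (4 : ℝ) • w - (4 : ℝ) • w * (4 : ℝ) • w = ((4 : ℝ) • w * d * r) * (b - e) := by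
      calc (4 : ℝ) • w - (4 : ℝ) • w * (4 : ℝ) • w = (4 : ℝ) • (w * e) -
            (4 : ℝ) • w * (4 : ℝ) • w := by rw [hwe]
        _ = (4 : ℝ) • w * (e - (4 : ℝ) • w) := by rw [mul_sub, smul_mul_assoc _ w e]
        _ = (4 : ℝ) • w * (d * d) := by rw [hdd]
        _ = (4 : ℝ) • w * (d * (r * (b - e))) := by rw [← hrd]
        _ = _ := by simp only [mul_assoc]
    rw [rt_sub, t1, t2, ← rt_sub, h4]
    exact hkey _ (norm_mul_le_one (norm_mul_le_one h4wn hdn) hrn)
  have t4 : rt τ e - rt τ a' = rt τ (d * d) := by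
    rw [t1, ← rt_sub, hdd]
  have t5 : rt τ (d * d) ≤ 2 * ω * rt τ e := by
    have h4 : d * d = (d * r) * (b - e) := by
      nth_rewrite 2 [hrd]
      rw [mul_assoc]
    rw [h4]
    exact hkey _ (norm_mul_le_one hdn hrn)
  have t6 : 0 ≤ rt τ (d * d) := rt_nonneg hτ hdd0
  have hA0 : 0 ≤ rt τ a' := rt_nonneg hτ ha'0
  -- rounding
  obtain ⟨q, hq, hq4, hqE, hqa, -⟩ := hR N τ ι F u a' hτ hC hu ha'0 ha'le
  have t7 : hs τ (a' - a' * a') ≤ 1 / 4 * rt τ (a' - a' * a') := by
    obtain ⟨X, hX⟩ : ∃ X, X = a' - a' * a' := ⟨_, rfl⟩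
    rw [← hX]
    have hX0 : 0 ≤ X := by rw [hX]; exact sub_nonneg.2 (le_mul_self_of_le_one ha'0 ha'le)
    have hX1 : (4 : ℝ) • X ≤ 1 := by
      have h4 : 1 - (4 : ℝ) • X = star (1 - a' - a') * (1 - a' - a') := by
        rw [star_sub, star_sub, star_one, ha's, hX,
          show (4 : ℝ) = 1 + 1 + 1 + 1 by norm_num, add_smul, add_smul, add_smul, one_smul]
        noncomm_ring
      rw [← sub_nonneg, h4]
      exact nonneg_star_mul _
    have h5 := hs_le_rt hτ (smul_nonneg_real (by norm_num : (0 : ℝ) ≤ 4) hX0) hX1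
    rw [hs_smul, rt_smul] at h5
    linarith
  have t8 : hs τ (a' - q) ≤ 8 * ω * rt τ e := by linarith
  have t9 : hs τ (a' - q) = rt τ (a' * a') + rt τ q - 2 * rt τ (q * a') := by
    have h4 : star (a' - q) * (a' - q) = a' * a' + q - q * a' - a' * q := by
      rw [star_sub, ha's, hq.1, sub_mul, mul_sub, mul_sub, hq.2]; abel
    rw [hs_eq_rt, h4, rt_sub, rt_sub, rt_add, rt_mul_comm hτ a' q]; ring
  have t10 : rt τ (q * a') ≤ rt τ q := by
    have := rt_mul_mono' hτ ha'le hq.nonneg
    rwa [mul_one] at this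
  have t11 : rt τ (q * a') ≤ rt τ a' := by
    have := rt_mul_mono hτ hq.le_one ha'0
    rwa [one_mul] at this
  have t12 : rt τ (a' - a' * a') = rt τ a' - rt τ (a' * a') := rt_sub _ _
  have t13 : 0 ≤ rt τ (a' - a' * a') :=
    rt_nonneg hτ (sub_nonneg.2 (le_mul_self_of_le_one ha'0 ha'le))
  have t14 : rt τ q ≤ rt τ a' + 10 * ω * rt τ e := by linarith
  have t15 : rt τ a' - 10 * ω * rt τ e ≤ rt τ q := by linarith
  have t16 : rt τ a' - rt τ (q * a') ≤ 10 * ω * rt τ e := by linarith
  have t17 : 0 ≤ rt τ a' - rt τ (q * a') := by linarith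
  -- `y₁`
  have hy1n : ‖y1‖ ≤ 1 := by
    have h4 : ‖a'‖ ≤ 1 := norm_le_one_of_nonneg ha'0 ha'le
    have h5 : ‖y1 * star y1‖ = ‖y1‖ * ‖y1‖ := CStarRing.norm_self_mul_star
    rw [← ha'] at h5
    nlinarith [norm_nonneg y1]
  have hy1e : y1 * e = y1 := by
    rw [hy1, smul_mul_assoc, mul_assoc, hre, ← her, ← mul_assoc, hye]
  have hy1y1 : star y1 * y1 = (4 : ℝ) • w := by
    rw [hy1s, hy1, smul_mul_smul_comm]
    have : r * star y * (y * r) = w := by
      calc r * star y * (y * r) = r * (b * r) := by rw [hbdef]; noncomm_ring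
        _ = w := by rw [hbr, hw]; noncomm_ring
    rw [this]; norm_num
  have hqs : ‖q‖ ≤ 1 := hq.norm_le
  have hs1 : hs τ ((1 - q) * y1) = rt τ a' - rt τ (q * a') := by
    have h4 : star ((1 - q) * y1) * ((1 - q) * y1) = star y1 * ((1 - q) * y1) := by
      rw [star_mul, hq.one_sub.1]
      calc star y1 * (1 - q) * ((1 - q) * y1) = star y1 * (((1 - q) * (1 - q)) * y1) := by
            noncomm_ring
        _ = _ := by rw [hq.one_sub.2]
    rw [hs_eq_rt, h4, rt_mul_comm hτ, mul_assoc, ← ha', sub_mul, one_mul, rt_sub]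
  have hs2 : hs τ (y1 - y) ≤ 2 * ω * rt τ e := by
    have h4 : star (y1 - y) * (y1 - y) = (1 - r - r) * (b * (1 - r - r)) := by
      have h5 : y1 - y = -(y * (1 - r - r)) := by
        rw [hy1, show (2 : ℝ) = 1 + 1 by norm_num, add_smul, one_smul]; noncomm_ring
      rw [h5, star_neg, star_mul, star_sub, star_sub, star_one, hrs, hbdef]
      noncomm_ring
    have h6 : b * (1 - r - r) = b * d := by
      have : b * d = b * (e * (1 - r - r)) := by
        rw [mul_sub e, mul_sub e, mul_one, her, hd]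
        congr 1; abel
      rw [this, ← mul_assoc, hbe]
    have h7 : (1 - r - r) * b = d * b := by
      have : d * b = ((1 - r - r) * e) * b := by
        rw [sub_mul _ _ e, sub_mul _ _ e, one_mul, hre, hd]
        congr 1; abel
      rw [this, mul_assoc, heb]
    have h8 : (1 - r - r) * (b * (1 - r - r)) = d * (b * d) := by
      rw [h6, ← mul_assoc, h7, mul_assoc]
    rw [hs_eq_rt, h4, h8, rt_mul_comm hτ]
    have h9 : b * d * d = ((1 - r) * d) * (b - e) := by
      have h10 : d * r = r * d := by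
        nth_rewrite 1 [hd]
        nth_rewrite 1 [hd]
        simp only [sub_mul, mul_sub, add_mul, mul_add, one_mul, mul_one, her, hre]
      calc b * d * d = b * (d * (r * (b - e))) := by
            rw [← hrd, mul_assoc]
        _ = b * ((d * r) * (b - e)) := by simp only [mul_assoc]
        _ = b * ((r * d) * (b - e)) := by rw [h10]
        _ = (b * r) * d * (b - e) := by simp only [mul_assoc]
        _ = _ := by rw [hbr]
    rw [h9]
    refine hkey _ (norm_mul_le_one ?_ hdn)
    exact norm_le_one_of_nonneg (sub_nonneg.2 hr1) (sub_le_self _ hr0)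
  have hs3 : hs τ (y - x) ≤ ω * rt τ e := by
    have : y - x = -(Q * x) := by rw [hy]; noncomm_ring
    rw [this, hs_neg]; exact h2
  have hωs : ω ≤ Real.sqrt ω := by
    have h4 := Real.sq_sqrt hω.le
    have h5 : Real.sqrt ω ≤ 1 := Real.sqrt_le_one.2 hω1
    nlinarith [Real.sqrt_nonneg ω]
  have hωT : ω * rt τ e ≤ Real.sqrt ω * rt τ e := mul_le_mul_of_nonneg_right hωs hT.le
  have hωT0 : 0 ≤ ω * rt τ e := by positivity
  refine ⟨q, q * y1, hq, ?_, ?_, norm_mul_le_one hqs hy1n, ?_, ?_, ?_, ?_, ?_⟩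
  · -- `q Q = 0`
    refine hs_eq_zero hτ (le_antisymm ?_ (hs_nonneg hτ _))
    have h4 : star (q * Q) * (q * Q) = star Q * q * Q := by
      rw [star_mul, hq.1]
      calc star Q * q * (q * Q) = star Q * (q * q) * Q := by noncomm_ring
        _ = _ := by rw [hq.2]
    rw [hs_eq_rt, h4]
    have h5 := rt_mono hτ (conj_mono' hq4 Q)
    have h6 : star Q * ((4 : ℝ) • a') * Q = 0 := by
      have h7 : Q * y = 0 := by rw [hy, ← mul_assoc, mul_sub, mul_one, hQ.2, sub_self, zero_mul]
      have h8 : Q * a' = 0 := by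
        rw [ha'1, mul_smul_comm]
        have : Q * (y * r * r * star y) = (Q * y) * r * r * star y := by noncomm_ring
        rw [this, h7]; simp
      rw [hQ.1, mul_smul_comm, h8]; simp
    rw [h6, rt_zero] at h5
    exact h5
  · -- energy
    obtain ⟨D, hD⟩ : ∃ D : ι → N, D = fun s => u s * ρ - ρ * u s := ⟨_, rfl⟩
    have hE1 : ∀ s, hs τ (u s * a' - a' * u s) ≤ 64 * hs τ (D s) := by
      intro s
      have h4 : u s * a' - a' * u s = (4 : ℝ) • (D s * (1 - ρ) + -(ρ * D s)) := by
        rw [ha'2, mul_smul_comm, smul_mul_assoc, ← smul_sub, hD]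
        congr 1
        noncomm_ring
      rw [h4, hs_smul]
      have h5 := hs_add_le hτ (D s * (1 - ρ)) (-(ρ * D s))
      rw [hs_neg] at h5
      have h6 : hs τ (D s * (1 - ρ)) ≤ hs τ (D s) :=
        hs_mul_right_le hτ (norm_le_one_of_nonneg (sub_nonneg.2 hρ1) (sub_le_self _ hρ0))
      have h7 : hs τ (ρ * D s) ≤ hs τ (D s) := hs_mul_left_le hτ hρn
      linarith
    have hρyn : ‖ρ * y‖ ≤ 1 := by
      have h4 : (2 : ℝ) • (ρ * y) = y1 := by rw [hy1, hyr]
      have h5 : ‖(2 : ℝ) • (ρ * y)‖ = 2 * ‖ρ * y‖ := by rw [norm_smul]; norm_num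
      rw [h4] at h5
      linarith [norm_nonneg (ρ * y)]
    have hyρn : ‖star y * ρ‖ ≤ 1 := by
      have : star y * ρ = star (ρ * y) := by rw [star_mul, hρs]
      rw [this, norm_star]; exact hρyn
    have hE2 : ∀ s, hs τ (D s) ≤ 4 * (hs τ (u s * x - x * θ s) +
        hs τ (star (u s) * x - x * θ' s) + hs τ ((u s * Q - Q * u s) * x) +
        hs τ ((star (u s) * Q - Q * star (u s)) * x)) := by
      intro s
      have h4 : D s = (ρ * y) * (star y * u s - θ s * star y) * ρ +
          ρ * (y * θ s - u s * y) * (star y * ρ) := by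
        rw [hD]; exact comm_rho hρ
      rw [h4]
      refine (hs_add_le hτ _ _).trans ?_
      have h5 : hs τ ((ρ * y) * (star y * u s - θ s * star y) * ρ) ≤
          hs τ (star (u s) * y - y * θ' s) := by
        refine (hs_mul_right_le hτ hρn).trans ((hs_mul_left_le hτ hρyn).trans ?_)
        rw [← hs_star hτ, star_sub, star_mul, star_mul, star_star, (hθ s).2]
      have h6 : hs τ (ρ * (y * θ s - u s * y) * (star y * ρ)) ≤
          hs τ (u s * y - y * θ s) := by
        refine (hs_mul_right_le hτ hyρn).trans ((hs_mul_left_le hτ hρn).trans ?_)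
        rw [hs_sub_comm]
      have hQn : ‖(1 : N) - Q‖ ≤ 1 := hQ.one_sub.norm_le
      have h7 : hs τ (u s * y - y * θ s) ≤ 2 * hs τ (u s * x - x * θ s) +
          2 * hs τ ((u s * Q - Q * u s) * x) := by
        have h8 : u s * y - y * θ s = (1 - Q) * (u s * x - x * θ s) +
            -((u s * Q - Q * u s) * x) := by rw [hy]; noncomm_ring
        rw [h8]
        refine (hs_add_le hτ _ _).trans ?_
        rw [hs_neg]
        have := hs_mul_left_le hτ (x := 1 - Q) (y := u s * x - x * θ s) hQn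
        linarith
      have h9 : hs τ (star (u s) * y - y * θ' s) ≤ 2 * hs τ (star (u s) * x - x * θ' s) +
          2 * hs τ ((star (u s) * Q - Q * star (u s)) * x) := by
        have h8 : star (u s) * y - y * θ' s = (1 - Q) * (star (u s) * x - x * θ' s) +
            -((star (u s) * Q - Q * star (u s)) * x) := by rw [hy]; noncomm_ring
        rw [h8]
        refine (hs_add_le hτ _ _).trans ?_
        rw [hs_neg]
        have := hs_mul_left_le hτ (x := 1 - Q) (y := star (u s) * x - x * θ' s) hQn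
        linarith
      linarith
    have hE3 : En τ F u a' ≤ 256 * (εf ^ 2 / (8192 * g) * rt τ e) := by
      calc En τ F u a' ≤ ∑ s ∈ F, 256 * (hs τ (u s * x - x * θ s) +
            hs τ (star (u s) * x - x * θ' s) + hs τ ((u s * Q - Q * u s) * x) +
            hs τ ((star (u s) * Q - Q * star (u s)) * x)) := by
            refine Finset.sum_le_sum fun s _ => ?_
            have := hE1 s
            have := hE2 s
            linarith
        _ = 256 * ∑ s ∈ F, (hs τ (u s * x - x * θ s) +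
            hs τ (star (u s) * x - x * θ' s) + hs τ ((u s * Q - Q * u s) * x) +
            hs τ ((star (u s) * Q - Q * star (u s)) * x)) := by rw [Finset.mul_sum]
        _ ≤ _ := mul_le_mul_of_nonneg_left h3 (by norm_num)
    refine hqE.trans ?_
    have hgR : (0 : ℝ) < g := by exact_mod_cast hg
    have hE0 : 0 ≤ En τ F u a' := En_nonneg hτ F u a'
    have hA1 : rt τ a' ≤ rt τ e := by linarith
    have h4 : 8 * (F.card : ℝ) * En τ F u a' * rt τ a' ≤ (εf / 2 * rt τ e) ^ 2 := by
      rw [hFg]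
      have h5 : En τ F u a' * rt τ a' ≤ 256 * (εf ^ 2 / (8192 * g) * rt τ e) * rt τ e :=
        mul_le_mul hE3 hA1 hA0 (by positivity)
      calc 8 * (g : ℝ) * En τ F u a' * rt τ a' = 8 * g * (En τ F u a' * rt τ a') := by ring
        _ ≤ 8 * g * (256 * (εf ^ 2 / (8192 * g) * rt τ e) * rt τ e) :=
          mul_le_mul_of_nonneg_left h5 (by positivity)
        _ = (εf / 2 * rt τ e) ^ 2 := by field_simp; ring
    have h6 : Real.sqrt (8 * (F.card : ℝ) * En τ F u a' * rt τ a') ≤ εf / 2 * rt τ e := by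
      rw [← Real.sqrt_sq (by positivity : 0 ≤ εf / 2 * rt τ e)]
      exact Real.sqrt_le_sqrt h4
    linarith
  · rw [← mul_assoc, hq.2]
  · rw [mul_assoc, hy1e]
  · have h4 : q * y1 - x = -((1 - q) * y1) + ((y1 - y) + (y - x)) := by noncomm_ring
    rw [h4]
    have h5 := hs_add_le hτ (-((1 - q) * y1)) ((y1 - y) + (y - x))
    have h6 := hs_add_le hτ (y1 - y) (y - x)
    rw [hs_neg, hs1] at h5
    nlinarith
  · have h4 : star (q * y1) * (q * y1) - e = -(e - (4 : ℝ) • w) +
        -(star ((1 - q) * y1) * ((1 - q) * y1)) := by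
      have h5 : star (q * y1) * (q * y1) = star y1 * (q * y1) := by
        rw [star_mul, hq.1]
        calc star y1 * q * (q * y1) = star y1 * ((q * q) * y1) := by noncomm_ring
          _ = _ := by rw [hq.2]
      have h6 : star ((1 - q) * y1) * ((1 - q) * y1) = star y1 * y1 - star y1 * (q * y1) := by
        rw [star_mul, hq.one_sub.1]
        calc star y1 * (1 - q) * ((1 - q) * y1) = star y1 * (((1 - q) * (1 - q)) * y1) := by
              noncomm_ring
          _ = _ := by rw [hq.one_sub.2]; noncomm_ring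
      rw [h5, h6, hy1y1]
      abel
    rw [h4]
    have h5 := hs_add_le hτ (-(e - (4 : ℝ) • w)) (-(star ((1 - q) * y1) * ((1 - q) * y1)))
    rw [hs_neg, hs_neg] at h5
    have h6 : hs τ (e - (4 : ℝ) • w) ≤ 2 * ω * rt τ e := by
      rw [← hdd]
      have h7 : d * d ≤ 1 := by
        rw [hdd]
        exact (sub_le_self _ h4w0).trans he.le_one
      exact (hs_le_rt hτ hdd0 h7).trans t5
    have h7 : hs τ (star ((1 - q) * y1) * ((1 - q) * y1)) ≤ 10 * ω * rt τ e := by
      have h8 : star ((1 - q) * y1) * ((1 - q) * y1) ≤ 1 :=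
        star_mul_le_one (norm_mul_le_one hq.one_sub.norm_le hy1n)
      refine (hs_le_rt hτ (nonneg_star_mul _) h8).trans ?_
      rw [← hs_eq_rt, hs1]
      exact t16
    nlinarith
  · rw [abs_le]
    constructor
    · nlinarith
    · nlinarith

end Helper61.HT
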