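import Pool.Agent.Helper61.HT.LibN
import Pool.Agent.Helper61.HT.StE

/-!
# Project HT: module Spec (spectral projections)
-/

set_option linter.unusedSectionVars false

namespace Helper61.HT

open scoped ComplexOrder

variable {N : Type} [CStarAlgebra N] [PartialOrder N] [StarOrderedRing N]

/-- `0 ≤ b' ≤ b` and `b x = 0` imply `b' x = 0`. -/
private lemma sp_zero {b b' x : N} (h0 : 0 ≤ b') (h : b' ≤ b) (hx : b * x = 0) : b' * x = 0 := by
  obtain ⟨c, hc, rfl⟩ := exists_sqrt h0
  have h1 : star x * (c * c) * x ≤ star x * b * x := conj_mono' h x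
  have h2 : star x * b * x = 0 := by rw [mul_assoc, hx, mul_zero]
  rw [h2] at h1
  have h3 : star x * (c * c) * x = star (c * x) * (c * x) := by
    rw [star_mul, herm_of_nonneg hc]; noncomm_ring
  rw [h3] at h1
  have h4 : star (c * x) * (c * x) = 0 := le_antisymm h1 (nonneg_star_mul _)
  have h5 : c * x = 0 := by
    rwa [CStarRing.star_mul_self_eq_zero_iff] at h4
  rw [mul_assoc, h5, mul_zero]

private lemma sp_pos {a : N} (ha : IsSelfAdjoint a) (l : ℝ) :
    (a - l • (1 : N))⁺ = cfc (fun x : ℝ => max (x - l) 0) a := by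
  have h1 : a - l • (1 : N) = cfc (fun x : ℝ => x - l) a := by
    rw [cfc_sub (fun x : ℝ => x) (fun _ : ℝ => l) a, cfc_id' ℝ a, cfc_const l a,
      Algebra.algebraMap_eq_smul_one]
  rw [CFC.posPart_def, cfcₙ_eq_cfc, h1,
    ← cfc_comp (fun x : ℝ => x⁺) (fun x : ℝ => x - l) a]
  rfl

private lemma sp_one_sub {b p : N} (hb : star b = b) (h : IsSupp b p) : b * (1 - p) = 0 := by
  rw [mul_sub, mul_one, h.mul_right hb, sub_self]

private noncomputable def gj (m j : ℕ) : ℝ → ℝ := fun x => min (max (x - j / m) 0) (1 / m)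

private lemma gj_cont (m j : ℕ) : Continuous (gj m j) := by
  unfold gj; fun_prop

private lemma gj_sum (m : ℕ) (hm : 0 < m) (x : ℝ) (hx : 0 ≤ x) (k : ℕ) :
    ∑ j ∈ Finset.range k, gj m j x = min x (k / m) := by
  have hm' : (0 : ℝ) < m := by exact_mod_cast hm
  induction k with
  | zero => simp [hx]
  | succ k ih =>
    rw [Finset.sum_range_succ, ih]
    have h1 : ((k + 1 : ℕ) : ℝ) / m = k / m + 1 / m := by push_cast; ring
    have h2 : (0 : ℝ) < 1 / m := by positivity
    rw [h1]
    unfold gj
    rcases le_total x (k / m) with h | h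
    · rw [min_eq_left h, max_eq_right (by linarith), min_eq_left h2.le, min_eq_left (by linarith)]
      ring
    · rw [min_eq_right h, max_eq_left (by linarith)]
      rcases le_total (x - k / m) (1 / m) with h' | h'
      · rw [min_eq_left h', min_eq_left (by linarith)]; ring
      · rw [min_eq_right h', min_eq_right (by linarith)]

theorem pSpec (hS : StSupp) : StSpec := by
  intro N _ _ _ τ hτ hC a ha0 ha1
  have haS : IsSelfAdjoint a := IsSelfAdjoint.of_nonneg ha0
  have has : star a = a := haS.star_eq
  have hb0 : ∀ l : ℝ, 0 ≤ (a - l • (1 : N))⁺ := fun l => CFC.posPart_nonneg _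
  choose E hE using fun l : ℝ => hS N τ hτ hC _ (hb0 l)
  have hbs : ∀ l : ℝ, star ((a - l • (1 : N))⁺) = (a - l • (1 : N))⁺ :=
    fun l => herm_of_nonneg (hb0 l)
  have hSA : ∀ l : ℝ, IsSelfAdjoint (a - l • (1 : N)) := fun l =>
    haS.sub (by
      rw [IsSelfAdjoint, star_smul, star_one, star_trivial])
  have hdec : ∀ l : ℝ, (a - l • (1 : N))⁺ - (a - l • (1 : N))⁻ = a - l • (1 : N) := fun l =>
    CFC.posPart_sub_negPart _ (hSA l)
  have hpn : ∀ l : ℝ, E l * (a - l • (1 : N))⁻ = 0 := fun l =>
    (hE l).2.2 _ (CFC.posPart_mul_negPart _)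
  have hnp : ∀ l : ℝ, (a - l • (1 : N))⁻ * E l = 0 := fun l => by
    have h := congrArg star (hpn l)
    rw [star_mul, star_zero, (hE l).1.1,
      herm_of_nonneg (CFC.negPart_nonneg (a - l • (1 : N)))] at h
    exact h
  have hbp : ∀ l : ℝ, (a - l • (1 : N))⁺ * (1 - E l) = 0 := fun l => sp_one_sub (hbs l) (hE l)
  have hanti : ∀ l l', l ≤ l' → E l' ≤ E l := by
    intro l l' hl
    have h1 : (a - l' • (1 : N))⁺ ≤ (a - l • (1 : N))⁺ := by
      rw [sp_pos haS, sp_pos haS]
      exact cfc_mono (fun x _ => max_le_max (by linarith) le_rfl)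
    have h2 := sp_zero (hb0 l') h1 (hbp l)
    have h3 := (hE l').2.2 _ h2
    have h4 : E l' * E l = E l' := by
      rw [mul_sub, mul_one, sub_eq_zero] at h3; exact h3.symm
    have h5 : E l * E l' = E l' := by
      have := congrArg star h4
      rwa [star_mul, (hE l).1.1, (hE l').1.1] at this
    exact Pr.le_of_mul (hE l).1 (hE l').1 h5
  have hcomm : ∀ l x, x * a = a * x → x * E l = E l * x := by
    intro l
    have key : ∀ x, x * a = a * x → E l * x * (1 - E l) = 0 := by
      intro x hx
      have h1 : Commute (cfc (fun x : ℝ => max (x - l) 0) a) x :=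
        Commute.cfc_real (show Commute a x from hx.symm) _
      rw [← sp_pos haS] at h1
      have h2 : (a - l • (1 : N))⁺ * (x * (1 - E l)) = 0 := by
        rw [← mul_assoc, h1.eq, mul_assoc, hbp, mul_zero]
      rw [mul_assoc]
      exact (hE l).2.2 _ h2
    intro x hx
    have h1 := key x hx
    have h2 := key (star x) (by
      have := congrArg star hx
      rw [star_mul, star_mul, has] at this
      exact this.symm)
    have h3 := congrArg star h2
    rw [star_mul, star_mul, star_star, star_sub, star_one, (hE l).1.1, star_zero] at h3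
    have h4 : E l * x = E l * x * E l := by
      rw [mul_sub, mul_one, sub_eq_zero] at h1; exact h1
    have h5 : x * E l = E l * x * E l := by
      rw [sub_mul, one_mul, ← mul_assoc, sub_eq_zero] at h3; exact h3
    rw [h4, h5]
  refine ⟨E, ⟨fun l => (hE l).1, hE, hanti, hcomm, ?_, ?_, ?_, ?_⟩⟩
  · intro l
    have h1 : E l * a * E l - l • E l = E l * (a - l • (1 : N)) * E l := by
      rw [mul_sub, sub_mul, mul_smul_comm, mul_one, smul_mul_assoc, (hE l).1.2]
    have h2 : E l * (a - l • (1 : N)) * E l = E l * (a - l • (1 : N))⁺ * E l := by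
      conv_lhs => rw [← hdec l]
      rw [mul_sub, hpn, sub_zero]
    have h3 : 0 ≤ E l * (a - l • (1 : N))⁺ * E l := by
      have := conj_nonneg (hb0 l) (E l)
      rwa [(hE l).1.1] at this
    rw [← sub_nonneg, h1, h2]
    exact h3
  · intro l
    have hq := (hE l).1.one_sub
    have hbp' := hbp l
    generalize hqq : 1 - E l = q at hq hbp' ⊢
    have h1 : l • q - q * a * q = -(q * (a - l • (1 : N)) * q) := by
      rw [mul_sub, sub_mul, mul_smul_comm, mul_one, smul_mul_assoc, hq.2]; abel
    have h2 : q * (a - l • (1 : N)) * q = -(q * (a - l • (1 : N))⁻ * q) := by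
      conv_lhs => rw [← hdec l]
      rw [mul_sub, sub_mul, mul_assoc q ((a - l • (1 : N))⁺), hbp', mul_zero, zero_sub]
    rw [← sub_nonneg, h1, h2, neg_neg]
    have := conj_nonneg (CFC.negPart_nonneg (a - l • (1 : N))) q
    rwa [hq.1] at this
  · intro l v hv
    have h1 : v * a * star v - l • (1 : N) =
        v * (a - l • (1 : N))⁺ * star v - v * (a - l • (1 : N))⁻ * star v := by
      rw [← sub_mul, ← mul_sub, hdec, mul_sub, sub_mul, mul_smul_comm, mul_one, smul_mul_assoc,
        hv.2]
    have h2 : v * (a - l • (1 : N))⁺ * star v * (v * (a - l • (1 : N))⁻ * star v) = 0 := by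
      calc v * (a - l • (1 : N))⁺ * star v * (v * (a - l • (1 : N))⁻ * star v) =
          v * ((a - l • (1 : N))⁺ * (star v * v) * (a - l • (1 : N))⁻) * star v := by noncomm_ring
        _ = 0 := by rw [hv.1, mul_one, CFC.posPart_mul_negPart, mul_zero, zero_mul]
    have h3 := (CFC.posPart_negPart_unique h1 h2 (conj_nonneg (hb0 l) v)
      (conj_nonneg (CFC.negPart_nonneg _) v)).1
    rw [h3]
    have hp := hE l
    refine ⟨⟨?_, ?_⟩, ?_, ?_⟩
    · rw [star_mul, star_mul, star_star, hp.1.1, mul_assoc]
    · calc v * E l * star v * (v * E l * star v) = v * (E l * (star v * v) * E l) * star v := by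
            noncomm_ring
        _ = _ := by rw [hv.1, mul_one, hp.1.2]
    · calc v * E l * star v * (v * (a - l • (1 : N))⁺ * star v) =
          v * (E l * (star v * v) * (a - l • (1 : N))⁺) * star v := by noncomm_ring
        _ = _ := by rw [hv.1, mul_one, hp.2.1]
    · intro x hx
      have h4 : (a - l • (1 : N))⁺ * (star v * x) = 0 := by
        have : star v * (v * (a - l • (1 : N))⁺ * star v * x) = 0 := by rw [hx, mul_zero]
        calc (a - l • (1 : N))⁺ * (star v * x) =
            (star v * v) * (a - l • (1 : N))⁺ * (star v * x) := by rw [hv.1, one_mul]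
          _ = star v * (v * (a - l • (1 : N))⁺ * star v * x) := by noncomm_ring
          _ = 0 := this
      have h5 := hp.2.2 _ h4
      rw [mul_assoc, mul_assoc, h5, mul_zero]
  · intro m hm
    have hm' : (0 : ℝ) < m := by exact_mod_cast hm
    have hspec : ∀ x ∈ spectrum ℝ a, 0 ≤ x ∧ x ≤ 1 := by
      intro x hx
      refine ⟨spectrum_nonneg_of_nonneg ha0 hx, ?_⟩
      have h1 : a ≤ algebraMap ℝ N 1 := by rwa [map_one]
      exact (le_algebraMap_iff_spectrum_le (ha := haS)).1 h1 x hx
    -- the slices
    have hsum : a = ∑ j ∈ Finset.range m, cfc (gj m j) a := by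
      rw [← cfc_sum (fun j => gj m j) a (Finset.range m)
        (fun j _ => (gj_cont m j).continuousOn)]
      conv_lhs => rw [← cfc_id' ℝ a]
      refine cfc_congr fun x hx => ?_
      have h1 := gj_sum m hm x (hspec x hx).1 m
      rw [div_self hm'.ne', min_eq_left (hspec x hx).2] at h1
      rw [Finset.sum_apply]
      exact h1.symm
    have hg0 : ∀ j, 0 ≤ cfc (gj m j) a := fun j =>
      cfc_nonneg fun x _ => by unfold gj; positivity
    have hg1 : ∀ j, cfc (gj m j) a ≤ (1 / m : ℝ) • (1 : N) := fun j => by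
      rw [← Algebra.algebraMap_eq_smul_one]
      exact cfc_le_algebraMap _ _ _ (fun x _ => min_le_right _ _) (gj_cont m j).continuousOn
    have hup : ∀ j : ℕ, cfc (gj m j) a ≤ (1 / m : ℝ) • E ((j : ℝ) / m) := by
      intro j
      have h1 : cfc (gj m j) a ≤ (a - ((j : ℝ) / m) • (1 : N))⁺ := by
        rw [sp_pos haS]
        exact cfc_mono (f := gj m j) (g := fun x : ℝ => max (x - (j : ℝ) / m) 0)
          (fun x _ => min_le_left _ _) (gj_cont m j).continuousOn (by fun_prop)
      have h2 := sp_zero (hg0 j) h1 (hbp ((j : ℝ) / m))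
      set p := E ((j : ℝ) / m) with hp
      have hpp : Pr p := (hE _).1
      have h3 : cfc (gj m j) a = cfc (gj m j) a * p := by
        rw [mul_sub, mul_one, sub_eq_zero] at h2; exact h2
      have h4 : cfc (gj m j) a = p * cfc (gj m j) a * p := by
        have := congrArg star h3
        rw [star_mul, hpp.1, herm_of_nonneg (hg0 j)] at this
        rw [← this, ← h3]
      have h5 := conj_mono (hg1 j) p
      rw [hpp.1, ← h4, mul_smul_comm, mul_one, smul_mul_assoc, hpp.2] at h5
      exact h5
    have hlo : ∀ j : ℕ, (1 / m : ℝ) • E (((j : ℝ) + 1) / m) ≤ cfc (gj m j) a := by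
      intro j
      set h := (1 / m : ℝ) • (1 : N) - cfc (gj m j) a with hh
      have hcf : h = cfc (fun x => 1 / (m : ℝ) - gj m j x) a := by
        rw [cfc_sub (fun _ : ℝ => 1 / (m : ℝ)) (gj m j) a (by fun_prop)
          (gj_cont m j).continuousOn, cfc_const _ a, Algebra.algebraMap_eq_smul_one]
      have hcs : star h = h := by
        rw [hh, star_sub, star_smul, star_one, star_trivial, herm_of_nonneg (hg0 j)]
      have h1 : (a - (((j : ℝ) + 1) / m) • (1 : N))⁺ * h = 0 := by
        rw [sp_pos haS, hcf, ← cfc_mul (fun x : ℝ => max (x - ((j : ℝ) + 1) / m) 0)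
          (fun x => 1 / (m : ℝ) - gj m j x) a (by fun_prop)
          ((continuous_const.sub (gj_cont m j)).continuousOn), ← cfc_zero ℝ a]
        refine cfc_congr fun x _ => ?_
        simp only [Pi.zero_apply]
        rcases le_total x (((j : ℝ) + 1) / m) with hx | hx
        · rw [max_eq_right (by linarith), zero_mul]
        · have h2 : ((j : ℝ) + 1) / m = j / m + 1 / m := by ring
          have h3 : gj m j x = 1 / m := by
            unfold gj
            refine min_eq_right (le_max_of_le_left ?_)
            rw [h2] at hx; linarith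
          rw [h3, sub_self, mul_zero]
      set p := E (((j : ℝ) + 1) / m) with hp
      have hpp : Pr p := (hE _).1
      have h2 : p * h = 0 := (hE _).2.2 _ h1
      have h3 : h * p = 0 := by
        have := congrArg star h2
        rwa [star_mul, hpp.1, hcs, star_zero] at this
      have h4 : cfc (gj m j) a - (1 / m : ℝ) • p = (1 - p) * cfc (gj m j) a * (1 - p) := by
        have h5 : cfc (gj m j) a = (1 / m : ℝ) • (1 : N) - h := by rw [hh]; abel
        rw [h5]
        have h6 : (1 - p) * ((1 / m : ℝ) • (1 : N) - h) * (1 - p) =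
            (1 / m : ℝ) • ((1 - p) * (1 - p)) - (h - p * h - h * p + p * h * p) := by
          rw [mul_sub (1 - p) ((1 / m : ℝ) • (1 : N)) h, mul_smul_comm, mul_one,
            sub_mul ((1 / m : ℝ) • (1 - p)), smul_mul_assoc]
          congr 1
          noncomm_ring
        rw [h6, h2, h3, hpp.one_sub.2, smul_sub, zero_mul]
        abel
      rw [← sub_nonneg, h4]
      have := conj_nonneg (hg0 j) (1 - p)
      rwa [hpp.one_sub.1] at this
    have hPs : star ((1 / m : ℝ) • ∑ j ∈ Finset.range m, E (((j : ℝ) + 1) / m)) =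
        (1 / m : ℝ) • ∑ j ∈ Finset.range m, E (((j : ℝ) + 1) / m) := by
      rw [star_smul, star_trivial, star_sum]
      congr 1
      exact Finset.sum_congr rfl fun j _ => (hE _).1.1
    have h0 : (1 / m : ℝ) • ∑ j ∈ Finset.range m, E (((j : ℝ) + 1) / m) ≤ a := by
      conv_rhs => rw [hsum]
      rw [Finset.smul_sum]
      exact Finset.sum_le_sum fun j _ => hlo j
    have h1 : a ≤ (1 / m : ℝ) • ∑ j ∈ Finset.range m, E (((j : ℝ) + 1) / m) +
        (1 / m : ℝ) • (1 : N) := by
      have h2 : a ≤ (1 / m : ℝ) • ∑ j ∈ Finset.range m, E ((j : ℝ) / m) := by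
        conv_lhs => rw [hsum]
        rw [Finset.smul_sum]
        exact Finset.sum_le_sum fun j _ => hup j
      refine h2.trans ?_
      rw [← smul_add]
      refine smul_mono_real (by positivity) ?_
      obtain ⟨n, rfl⟩ : ∃ n, m = n + 1 := ⟨m - 1, by omega⟩
      rw [Finset.sum_range_succ', Finset.sum_range_succ]
      have h3 : ∑ k ∈ Finset.range n, E (((k + 1 : ℕ) : ℝ) / ((n + 1 : ℕ) : ℝ)) =
          ∑ x ∈ Finset.range n, E (((x : ℝ) + 1) / ((n + 1 : ℕ) : ℝ)) := by
        refine Finset.sum_congr rfl fun k _ => ?_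
        push_cast; rfl
      rw [h3, add_assoc]
      refine add_le_add le_rfl ?_
      exact ((hE _).1.le_one).trans (le_add_of_nonneg_left (hE _).1.nonneg)
    refine norm_le_of_nonneg (by positivity) (sub_nonneg.2 h0) ?_
    rw [sub_le_iff_le_add, add_comm]
    exact h1

end Helper61.HT
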