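import Pool.Agent.Helper61.HT.StA
import Pool.Agent.Helper61.HT.LibN

/-!
# HT module SumA: first sums along the greedy process
-/

namespace Helper61.HT

open scoped ComplexOrder

section SumA

variable {N : Type} [CStarAlgebra N] [PartialOrder N] [StarOrderedRing N] {τ : N →ₗ[ℂ] ℂ}
  {ι : Type} {F : Finset ι} {u : ι → N}

private lemma RR_nonneg_A (h : RRFacts τ F u) {q : N} (hq : 0 ≤ q) : 0 ≤ RR F u q :=
  (smul_nonneg_real (by norm_num) hq).trans (h.half q hq)

private lemma SS_succ_A (Q : N) (q : ℕ → N) (i : ℕ) :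
    SS F u Q q (i + 1) = SS F u Q q i + RR F u (q i) := by
  unfold SS
  rw [Finset.sum_range_succ, add_assoc]

private lemma le_SS_A (h : RRFacts τ F u) (Q : N) {q : ℕ → N} {n : ℕ}
    (hq : ∀ i < n, Pr (q i)) : ∀ i ≤ n, Q ≤ SS F u Q q i := by
  intro i hi
  unfold SS
  refine le_add_of_nonneg_right (Finset.sum_nonneg fun j hj => ?_)
  exact RR_nonneg_A h (hq j (lt_of_lt_of_le (Finset.mem_range.1 hj) hi)).nonneg

private lemma GG_proj_A {Q : N} (hQ : Pr Q) : GG Q = 1 - (1 / 2 : ℝ) • Q := by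
  symm
  refine GG_unique hQ.nonneg ?_
  have h1 : (1 / 2 : ℝ) • Q + (1 / 2 : ℝ) • Q = Q := by
    rw [← add_smul]; norm_num
  calc (1 - (1 / 2 : ℝ) • Q) * (1 + Q)
      = 1 + Q - ((1 / 2 : ℝ) • Q + (1 / 2 : ℝ) • (Q * Q)) := by
        rw [sub_mul, one_mul, mul_add, mul_one, smul_mul_assoc]
    _ = 1 := by rw [hQ.2, h1]; abel

theorem pSumA (hG2 : StG2) : StSumA := by
  intro N _ _ _ τ ι F u Q q n hτ hF hu h hQ hPr
  have hQS := le_SS_A h Q hPr
  have hS : ∀ i ≤ n, 0 ≤ SS F u Q q i := fun i hi => hQ.nonneg.trans (hQS i hi)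
  have hstep : ∀ i < n, (1 / 2 : ℝ) • (Gi F u Q q i * RR F u (q i) * Gi F u Q q i) ≤
      Gi F u Q q i - Gi F u Q q (i + 1) ∧ Gi F u Q q i - Gi F u Q q (i + 1) ≤
        Gi F u Q q i * RR F u (q i) * Gi F u Q q i := by
    intro i hi
    have h1 := hG2 N (SS F u Q q i) (RR F u (q i)) (hS i hi.le)
      (RR_nonneg_A h (hPr i hi).nonneg) (h.le_one _ (hPr i hi).nonneg (hPr i hi).le_one)
    rw [← SS_succ_A] at h1
    exact h1
  have hGh : ∀ i ≤ n, star (Gi F u Q q i) = Gi F u Q q i := fun i hi => GG_herm (hS i hi)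
  have hS0 : SS F u Q q 0 = Q := by
    unfold SS
    rw [Finset.range_zero, Finset.sum_empty, add_zero]
  have htel : ∀ k, ∑ i ∈ Finset.range k, (Gi F u Q q i - Gi F u Q q (i + 1)) =
      Gi F u Q q 0 - Gi F u Q q k := fun k => by
    rw [Finset.sum_range_sub']
  have hG0 : Gi F u Q q 0 = 1 - (1 / 2 : ℝ) • Q := by
    unfold Gi
    rw [hS0, GG_proj_A hQ]
  refine ⟨?_, ?_⟩
  · intro i hi
    have hH0 : Hi F u Q q 0 = (1 / 2 : ℝ) • Q := by
      unfold Hi
      rw [hG0]
      abel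
    have hQG : Gi F u Q q i ≤ Gi F u Q q 0 := by
      unfold Gi
      rw [hS0]
      exact GG_anti hQ.nonneg (hQS i hi)
    refine ⟨one_sub_GG_nonneg (hS i hi), one_sub_GG_le_one (hS i hi), ?_, ?_⟩
    · rw [← hH0]
      exact sub_le_sub_left hQG 1
    · have hd : Hi F u Q q i - Hi F u Q q 0 = Gi F u Q q 0 - Gi F u Q q i := by
        unfold Hi
        abel
      have hz : (1 - Q) * Hi F u Q q 0 = 0 := by
        rw [hH0, mul_smul_comm, sub_mul, one_mul, hQ.2, sub_self, smul_zero]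
      have h1 : (1 - Q) * Hi F u Q q i = (1 - Q) * (Gi F u Q q 0 - Gi F u Q q i) := by
        rw [← hd, mul_sub, hz, sub_zero]
      rw [h1]
      have h2 : rt τ ((1 - Q) * (Gi F u Q q 0 - Gi F u Q q i)) ≤
          rt τ (1 * (Gi F u Q q 0 - Gi F u Q q i)) :=
        rt_mul_mono hτ (sub_le_self _ hQ.nonneg) (sub_nonneg.2 hQG)
      refine h2.trans ?_
      rw [one_mul, ← htel, rt_sum]
      refine Finset.sum_le_sum fun j hj => ?_
      have hj' : j < n := lt_of_lt_of_le (Finset.mem_range.1 hj) hi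
      refine (rt_mono hτ (hstep j hj').2).trans ?_
      have h5 : rt τ (Gi F u Q q j * RR F u (q j) * Gi F u Q q j) =
          rt τ (RR F u (q j) * (Gi F u Q q j * Gi F u Q q j)) := by
        rw [mul_assoc, rt_mul_comm hτ]
        simp only [mul_assoc]
      have h6 : Gi F u Q q j * Gi F u Q q j ≤ 1 :=
        (le_mul_self_of_le_one (GG_nonneg (hS j hj'.le)) (GG_le_one (hS j hj'.le))).trans
          (GG_le_one (hS j hj'.le))
      have h7 := rt_mul_mono' hτ h6 (RR_nonneg_A h (hPr j hj').nonneg)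
      rw [mul_one, h.tr] at h7
      rw [h5]
      exact h7
  · have h1 : ∀ i ∈ Finset.range n, Gi F u Q q i * q i * Gi F u Q q i ≤
        (4 : ℝ) • (Gi F u Q q i - Gi F u Q q (i + 1)) := by
      intro i hi
      have hi' := Finset.mem_range.1 hi
      have h2 := (hstep i hi').1
      have h3 := conj_mono (h.half (q i) (hPr i hi').nonneg) (Gi F u Q q i)
      rw [hGh i hi'.le, mul_smul_comm, smul_mul_assoc] at h3
      have h4 := smul_mono_real (by norm_num : (0 : ℝ) ≤ 2) h3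
      have h5 := smul_mono_real (by norm_num : (0 : ℝ) ≤ 4) h2
      rw [smul_smul] at h4 h5
      norm_num at h4 h5
      exact h4.trans h5
    refine (Finset.sum_le_sum h1).trans ?_
    rw [← Finset.smul_sum, htel]
    refine smul_mono_real (by norm_num) ?_
    refine (sub_le_self _ (GG_nonneg (hS n le_rfl))).trans ?_
    exact GG_le_one (hS 0 (Nat.zero_le n))

end SumA

end Helper61.HT
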