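import Pool.Agent.Helper61.HT.StA
import Pool.Agent.Helper61.HT.LibN

/-!
# HT module SumL: Lyapunov sum
-/

set_option linter.unusedSectionVars false

namespace Helper61.HT

open scoped ComplexOrder

section SumL

variable {N : Type} [CStarAlgebra N] [PartialOrder N] [StarOrderedRing N] {τ : N →ₗ[ℂ] ℂ}
  {ι : Type} {F : Finset ι} {u : ι → N}

private lemma RR_nonneg_L (h : RRFacts τ F u) {q : N} (hq : 0 ≤ q) : 0 ≤ RR F u q :=
  (smul_nonneg (by norm_num) hq).trans (h.half q hq)

private lemma SS_succ_L (Q : N) (q : ℕ → N) (i : ℕ) :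
    SS F u Q q (i + 1) = SS F u Q q i + RR F u (q i) := by
  unfold SS
  rw [Finset.sum_range_succ, add_assoc]

private lemma SS_nonneg_L (h : RRFacts τ F u) {Q : N} (hQ : Pr Q) {q : ℕ → N} {n : ℕ}
    (hq : ∀ i < n, Pr (q i)) : ∀ i ≤ n, 0 ≤ SS F u Q q i := by
  intro i hi
  unfold SS
  refine add_nonneg hQ.nonneg (Finset.sum_nonneg fun j hj => ?_)
  exact RR_nonneg_L h (hq j (lt_of_lt_of_le (Finset.mem_range.1 hj) hi)).nonneg

private lemma comm_bound_L (hτ : Trc τ) {q Z v : N} (hq : Pr q) (hZ : ‖Z‖ ≤ 1) :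
    |rt τ (Z * (v * q - q * v))| ≤
      2 * (Real.sqrt (rt τ q) * Real.sqrt (hs τ (v * q - q * v))) := by
  set c := v * q - q * v with hc
  have e : c = q * c + c * q := by
    rw [hc]
    have h1 : q * (v * q - q * v) + (v * q - q * v) * q =
        v * (q * q) - (q * q) * v := by noncomm_ring
    rw [h1, hq.2]
  have e2 : rt τ (Z * c) = rt τ ((Z * q) * c) + rt τ ((q * Z) * c) := by
    have h1 : rt τ (Z * c) = rt τ (Z * (q * c)) + rt τ (Z * (c * q)) := by
      rw [← rt_add, ← mul_add, ← e]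
    rw [h1, ← mul_assoc Z q c, ← mul_assoc Z c q, rt_cycle hτ Z c q]
  have hq1 : hs τ (Z * q) ≤ rt τ q := by
    rw [← hq.hs]
    exact hs_mul_left_le hτ hZ
  have hq2 : hs τ (q * Z) ≤ rt τ q := by
    rw [← hq.hs]
    exact hs_mul_right_le hτ hZ
  have b1 := abs_rt_mul_le hτ (Z * q) c
  have b2 := abs_rt_mul_le hτ (q * Z) c
  have b3 := Real.sqrt_le_sqrt hq1
  have b4 := Real.sqrt_le_sqrt hq2
  have b5 := Real.sqrt_nonneg (hs τ c)
  rw [e2]
  refine (abs_add_le _ _).trans ?_
  nlinarith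

private lemma sqrt_bound_L (hτ : Trc τ) {ε : ℝ} (hε : 0 < ε) {q : N}
    (hq : Pr q) (hE : En τ F u q ≤ ε * rt τ q) :
    Real.sqrt (rt τ q * En τ F u q) ≤ Real.sqrt ε * rt τ q := by
  have h0 := hq.rt_nonneg hτ
  have h1 : rt τ q * En τ F u q ≤ ε * (rt τ q * rt τ q) := by nlinarith
  refine (Real.sqrt_le_sqrt h1).trans (le_of_eq ?_)
  rw [Real.sqrt_mul hε.le, Real.sqrt_mul_self h0]

private lemma dist_v (hτ : Trc τ) (h : RRFacts τ F u) (hu : ∀ s, Un (u s)) {ε : ℝ}
    (hε : 0 < ε) {q : N} (hq : Pr q) (hE : En τ F u q ≤ ε * rt τ q) {s : ι} (hs' : s ∈ F)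
    (X : N) (hX : ‖X‖ ≤ 1) :
    |rt τ (X * (u s * RR F u q * star (u s) - RR F u q))| ≤
      4 * (Real.sqrt ε * rt τ q) := by
  set v := u s with hvd
  set y := RR F u q with hyd
  have hv : Un v := hu s
  have n1 : ‖v‖ ≤ 1 := norm_unit_le hv
  have n2 : ‖star v‖ ≤ 1 := norm_unit_le hv.star
  have hb := sqrt_bound_L hτ hε hq hE
  have d1 := (h.dist q hq X hX).trans hb
  have n3 : ‖star v * X‖ ≤ 1 := by
    refine (norm_mul_le _ _).trans ?_
    nlinarith [norm_nonneg (star v), norm_nonneg X]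
  have n4 : ‖star v * X * v‖ ≤ 1 := by
    refine (norm_mul_le _ _).trans ?_
    nlinarith [norm_nonneg (star v * X), norm_nonneg v]
  have d2 := (h.dist q hq _ n4).trans hb
  have d3 := comm_bound_L hτ (v := v) hq n3
  have d4 : Real.sqrt (rt τ q) * Real.sqrt (hs τ (v * q - q * v)) ≤
      Real.sqrt ε * rt τ q := by
    refine le_trans ?_ hb
    rw [Real.sqrt_mul (hq.rt_nonneg hτ)]
    refine mul_le_mul_of_nonneg_left (Real.sqrt_le_sqrt ?_) (Real.sqrt_nonneg _)
    exact Finset.single_le_sum (f := fun s => hs τ (u s * q - q * u s))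
      (fun t _ => hs_nonneg hτ _) hs'
  have e : rt τ (X * (v * y * star v - y)) = rt τ (star v * X * v * (y - q)) +
      rt τ (star v * X * (v * q - q * v)) - rt τ (X * (y - q)) := by
    have e1 : rt τ (star v * X * v * (y - q)) =
        rt τ (X * (v * (y - q) * star v)) := by
      calc rt τ (star v * X * v * (y - q)) =
            rt τ (star v * X * (v * (y - q))) := by simp only [mul_assoc]
        _ = rt τ (X * (v * (y - q)) * star v) := (rt_cycle hτ _ _ _).symm
        _ = _ := by simp only [mul_assoc]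
    have e2 : rt τ (star v * X * (v * q - q * v)) =
        rt τ (X * (v * q * star v - q)) := by
      have e3 : v * q * star v - q = (v * q - q * v) * star v := by
        rw [sub_mul, mul_assoc q, hv.2, mul_one]
      rw [e3, ← mul_assoc X, rt_cycle hτ X]
    rw [e1, e2, ← rt_add, ← rt_sub]
    congr 1
    noncomm_ring
  rw [e]
  have a1 := abs_sub (rt τ (star v * X * v * (y - q)) +
      rt τ (star v * X * (v * q - q * v))) (rt τ (X * (y - q)))
  have a2 := abs_add_le (rt τ (star v * X * v * (y - q)))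
      (rt τ (star v * X * (v * q - q * v)))
  linarith

private lemma GG_proj {Q : N} (hQ : Pr Q) : GG Q = 1 - (1 / 2 : ℝ) • Q := by
  refine (GG_unique hQ.nonneg ?_).symm
  have h : (1 - (1 / 2 : ℝ) • Q) * (1 + Q) =
      1 + Q - (1 / 2 : ℝ) • Q - (1 / 2 : ℝ) • (Q * Q) := by
    rw [sub_mul, one_mul, smul_mul_assoc, mul_add, mul_one, smul_add]
    abel
  rw [h, hQ.2]
  have h2 : (1 / 2 : ℝ) • Q + (1 / 2 : ℝ) • Q = Q := by
    rw [← add_smul]; norm_num
  calc 1 + Q - (1 / 2 : ℝ) • Q - (1 / 2 : ℝ) • Q =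
      1 + Q - ((1 / 2 : ℝ) • Q + (1 / 2 : ℝ) • Q) := by abel
    _ = 1 := by rw [h2]; abel

private lemma Pr_conj {Q v : N} (hQ : Pr Q) (hv : Un v) : Pr (v * Q * star v) := by
  refine ⟨by rw [star_mul, star_mul, star_star, hQ.1, mul_assoc], ?_⟩
  calc v * Q * star v * (v * Q * star v) = v * Q * (star v * v) * Q * star v := by
        noncomm_ring
    _ = v * (Q * Q) * star v := by rw [hv.1]; noncomm_ring
    _ = _ := by rw [hQ.2]

private lemma Ly_start (hτ : Trc τ) {Q v : N} (hQ : Pr Q) (hv : Un v) :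
    Ly τ Q (v * Q * star v) = 1 / 2 * hs τ (v * Q - Q * v) := by
  have hQ' := Pr_conj hQ hv
  rw [hs_comm_unit hτ hv, Ly, GG_proj hQ, GG_proj hQ', hs_eq_rt, star_sub, hQ.1, hQ'.1,
    ← rt_smul]
  congr 1
  have h : 1 - (1 / 2 : ℝ) • (v * Q * star v) - (1 - (1 / 2 : ℝ) • Q) =
      (1 / 2 : ℝ) • (Q - v * Q * star v) := by
    rw [smul_sub]; abel
  rw [h, mul_smul_comm]

theorem pSumL (hLy : StLy) : StSumL := by
  intro N _ _ _ τ ι F u ε Q q n hτ hF hu h hQ hε hq s hsF
  have hg1 : (1 : ℝ) ≤ F.card := by exact_mod_cast hF.card_pos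
  have hPr : ∀ i < n, Pr (q i) := fun i hi => (hq i hi).1
  have hS := SS_nonneg_L h hQ hPr
  set v := u s with hvd
  have hv : Un v := hu s
  have hC0 : (0 : ℝ) ≤ 6 * F.card := by positivity
  have hC1 : (1 : ℝ) ≤ 6 * F.card := by linarith
  have hC2 : (2 : ℝ) ≤ 6 * F.card := by linarith
  -- `y ≤ 6 g v y v*`
  have hy6 : ∀ i < n, RR F u (q i) ≤
      (6 * F.card : ℝ) • (v * RR F u (q i) * star v) := by
    intro i hi
    have h1 := (h.conj (q i) (hPr i hi).nonneg s hsF).2
    have h2 := conj_mono h1 v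
    rw [mul_smul_comm, smul_mul_assoc] at h2
    refine le_trans (le_of_eq ?_) h2
    calc RR F u (q i) = (v * star v) * RR F u (q i) * (v * star v) := by
          rw [hv.2, one_mul, mul_one]
      _ = _ := by simp only [mul_assoc, hvd]
  have hQv : 0 ≤ v * Q * star v := conj_nonneg hQ.nonneg v
  -- `1 + S ≤ 6 g (1 + v S v*)`
  have hS6 : ∀ i ≤ n, 1 + SS F u Q q i ≤
      (6 * F.card : ℝ) • (1 + v * SS F u Q q i * star v) := by
    intro i hi
    have hT : ∑ j ∈ Finset.range i, RR F u (q j) ≤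
        (6 * F.card : ℝ) • (v * (∑ j ∈ Finset.range i, RR F u (q j)) * star v) := by
      rw [Finset.mul_sum, Finset.sum_mul, Finset.smul_sum]
      exact Finset.sum_le_sum fun j hj =>
        hy6 j (lt_of_lt_of_le (Finset.mem_range.1 hj) hi)
    have h1 : (1 : N) + Q ≤ (6 * F.card : ℝ) • (1 + v * Q * star v) := by
      have h2 : (1 : N) + Q ≤ (2 : ℝ) • 1 := by
        rw [two_smul]
        exact add_le_add_right hQ.le_one 1
      have h3 : (2 : ℝ) • (1 : N) ≤ (6 * F.card : ℝ) • 1 :=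
        smul_mono_left hC2 zero_le_one
      have h4 : (6 * F.card : ℝ) • (1 : N) ≤ (6 * F.card : ℝ) • (1 + v * Q * star v) := by
        rw [smul_add]
        exact le_add_of_nonneg_right (smul_nonneg hC0 hQv)
      exact h2.trans (h3.trans h4)
    have e1 : 1 + SS F u Q q i = (1 + Q) + ∑ j ∈ Finset.range i, RR F u (q j) := by
      unfold SS; abel
    have e2 : (6 * F.card : ℝ) • (1 + v * SS F u Q q i * star v) =
        (6 * F.card : ℝ) • (1 + v * Q * star v) +
        (6 * F.card : ℝ) • (v * (∑ j ∈ Finset.range i, RR F u (q j)) * star v) := by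
      unfold SS
      rw [← smul_add]
      congr 1
      rw [mul_add, add_mul]; abel
    rw [e1, e2]
    exact add_le_add h1 hT
  set Ψ : ℕ → ℝ := fun i => Ly τ (SS F u Q q i) (v * SS F u Q q i * star v) with hΨ
  have hΨ0 : Ψ 0 = 1 / 2 * hs τ (v * Q - Q * v) := by
    simp only [hΨ]
    have : SS F u Q q 0 = Q := by
      unfold SS
      rw [Finset.range_zero, Finset.sum_empty, add_zero]
    rw [this]
    exact Ly_start hτ hQ hv
  have hΨN : 0 ≤ Ψ n := (hLy N τ _ _ hτ (hS n le_rfl) (conj_nonneg (hS n le_rfl) v)).1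
  have hstep : ∀ i ∈ Finset.range n,
      1 / 4 * rt τ (q i * (Gi F u Q q i - v * Gi F u Q q i * star v) *
        (Gi F u Q q i - v * Gi F u Q q i * star v)) ≤
      (Ψ i - Ψ (i + 1)) + (6 * F.card + 2) * (4 * (Real.sqrt ε * rt τ (q i))) := by
    intro i hi
    have hi' := Finset.mem_range.1 hi
    have hSi := hS i hi'.le
    have hyq := h.half (q i) (hPr i hi').nonneg
    have hy := RR_nonneg_L h (hPr i hi').nonneg
    have hy1 := h.le_one (q i) (hPr i hi').nonneg (hPr i hi').le_one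
    have hS6i := hS6 i hi'.le
    have hy6i := hy6 i hi'
    have hdist := dist_v hτ h hu hε (hPr i hi') (hq i hi').2 hsF
    have eS : SS F u Q q (i + 1) = SS F u Q q i + RR F u (q i) := SS_succ_L Q q i
    set S := SS F u Q q i with hSd
    set y := RR F u (q i) with hyd
    have hvS : 0 ≤ v * S * star v := conj_nonneg hSi v
    have hvy : 0 ≤ v * y * star v := conj_nonneg hy v
    have e1 : Ψ (i + 1) = Ly τ (S + y) (v * S * star v + v * y * star v) := by
      simp only [hΨ]
      rw [eS]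
      congr 1
      rw [mul_add, add_mul]
    have m2 : y ≤ (6 * F.card : ℝ) • y := by
      have := smul_mono_left hC1 hy
      rwa [one_smul] at this
    have k1 : 1 + (S + y) ≤ (6 * F.card : ℝ) • (1 + (v * S * star v + y)) := by
      rw [← add_assoc, ← add_assoc, smul_add]
      exact add_le_add hS6i m2
    have k2 : 1 + (S + y) ≤ (6 * F.card : ℝ) •
        (1 + (v * S * star v + v * y * star v)) := by
      rw [← add_assoc, ← add_assoc, smul_add]
      exact add_le_add hS6i hy6i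
    have h3 := (hLy N τ (S + y) (v * S * star v + y) hτ (add_nonneg hSi hy)
      (add_nonneg hvS hy)).2.2 (v * S * star v + v * y * star v)
      (6 * F.card) (4 * (Real.sqrt ε * rt τ (q i))) (add_nonneg hvS hvy) hC0 k1 k2 (by
        intro X hX
        rw [add_sub_add_left_eq_sub]
        exact hdist X hX)
    have h2 := (hLy N τ S (v * S * star v) hτ hSi hvS).2.1 y hy hy1
    have e2 : Ψ i = Ly τ S (v * S * star v) := rfl
    rw [GG_conj_unit hSi hv] at h2
    have hGh : star (GG S) = GG S := GG_herm hSi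
    set Δ := GG S - v * GG S * star v with hΔ
    have hΔh : star Δ = Δ := by
      rw [hΔ, star_sub, star_mul, star_mul, star_star, hGh, mul_assoc]
    have hΔ2 : 0 ≤ Δ * Δ := by
      have := nonneg_star_mul Δ
      rwa [hΔh] at this
    have e3 : y * (v * GG S * star v - GG S) * (v * GG S * star v - GG S) =
        y * (Δ * Δ) := by
      rw [hΔ]; noncomm_ring
    have e4 : q i * (Gi F u Q q i - v * Gi F u Q q i * star v) *
        (Gi F u Q q i - v * Gi F u Q q i * star v) = q i * (Δ * Δ) := by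
      rw [mul_assoc]
      rfl
    rw [e3] at h2
    have h5 := rt_mul_mono hτ hyq hΔ2
    rw [smul_mul_assoc, rt_smul] at h5
    rw [e4, e1, e2]
    linarith
  have hsum := Finset.sum_le_sum hstep
  rw [← Finset.mul_sum, Finset.sum_add_distrib, Finset.sum_range_sub', ← Finset.mul_sum,
    ← Finset.mul_sum, ← Finset.mul_sum, hΨ0] at hsum
  have hτ' : 0 ≤ ∑ i ∈ Finset.range n, rt τ (q i) :=
    Finset.sum_nonneg fun i hi => (hPr i (Finset.mem_range.1 hi)).rt_nonneg hτ
  have hse := Real.sqrt_nonneg ε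
  have hprod : 0 ≤ Real.sqrt ε * ∑ i ∈ Finset.range n, rt τ (q i) := mul_nonneg hse hτ'
  have hprod2 : 0 ≤ (F.card - 1 : ℝ) * (Real.sqrt ε * ∑ i ∈ Finset.range n, rt τ (q i)) :=
    mul_nonneg (by linarith) hprod
  nlinarith

end SumL

end Helper61.HT
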