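import Pool.Agent.Helper61.HT.StA
import Pool.Agent.Helper61.HT.LibN

/-!
# HT module SumP: potential sum
-/

namespace Helper61.HT

open scoped ComplexOrder

section SumP

variable {N : Type} [CStarAlgebra N] [PartialOrder N] [StarOrderedRing N] {τ : N →ₗ[ℂ] ℂ}
  {ι : Type} {F : Finset ι} {u : ι → N}

private lemma RR_nonneg_P (h : RRFacts τ F u) {q : N} (hq : 0 ≤ q) : 0 ≤ RR F u q :=
  (smul_nonneg_real (by norm_num) hq).trans (h.half q hq)

private lemma SS_nonneg_P (h : RRFacts τ F u) {Q : N} (hQ : Pr Q) {q : ℕ → N} {n : ℕ}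
    (hq : ∀ i < n, Pr (q i)) : ∀ i ≤ n, 0 ≤ SS F u Q q i := by
  intro i hi
  unfold SS
  refine add_nonneg hQ.nonneg (Finset.sum_nonneg fun j hj => ?_)
  exact RR_nonneg_P h (hq j (lt_of_lt_of_le (Finset.mem_range.1 hj) hi)).nonneg

private lemma SS_succ_P (Q : N) (q : ℕ → N) (i : ℕ) :
    SS F u Q q (i + 1) = SS F u Q q i + RR F u (q i) := by
  unfold SS
  rw [Finset.sum_range_succ, add_assoc]

private lemma dist_P (hτ : Trc τ) (h : RRFacts τ F u) {ε : ℝ} (hε : 0 < ε) {q : N}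
    (hq : Pr q ∧ En τ F u q ≤ ε * rt τ q) (X : N) (hX : ‖X‖ ≤ 1) :
    |rt τ (X * (RR F u q - q))| ≤ Real.sqrt ε * rt τ q := by
  refine (h.dist q hq.1 X hX).trans ?_
  have h0 := hq.1.rt_nonneg hτ
  have h1 : rt τ q * En τ F u q ≤ ε * (rt τ q * rt τ q) := by nlinarith [hq.2]
  refine (Real.sqrt_le_sqrt h1).trans (le_of_eq ?_)
  rw [Real.sqrt_mul hε.le, Real.sqrt_mul_self h0]

theorem pSumP (hA : StPotA) (hB : StPotB) : StSumP := by
  intro N _ _ _ τ ι F u ε Q q n hτ hF hu h hQ hε hq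
  obtain ⟨hB1, hB2, hB3⟩ := hB N τ hτ
  have hPr : ∀ i < n, Pr (q i) := fun i hi => (hq i hi).1
  have hS := SS_nonneg_P h hQ hPr
  have hstep : ∀ i ∈ Finset.range n, rt τ (q i * Hi F u Q q i) ≤
      (PotE τ (Hi F u Q q i) - PotE τ (Hi F u Q q (i + 1))) +
        (100 * rt τ (q i * Hi F u Q q i * Hi F u Q q i) + 21 * Real.sqrt ε * rt τ (q i)) := by
    intro i hi
    have hi' := Finset.mem_range.1 hi
    have h1 := hA N τ (SS F u Q q i) (q i) hτ (hS i hi'.le) (hPr i hi')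
    have h2 := hB1 (SS F u Q q i) (q i) (RR F u (q i)) (Real.sqrt ε * rt τ (q i)) (hS i hi'.le)
      (hPr i hi').nonneg (RR_nonneg_P h (hPr i hi').nonneg) (dist_P hτ h hε (hq i hi'))
    rw [← SS_succ_P] at h2
    have e1 : 1 - GG (SS F u Q q i) = Hi F u Q q i := rfl
    have e2 : 1 - GG (SS F u Q q (i + 1)) = Hi F u Q q (i + 1) := rfl
    rw [e1] at h1
    rw [e2] at h2
    linarith
  have h0 : PotE τ (Hi F u Q q 0) = 0 := by
    have : Hi F u Q q 0 = 1 - GG Q := by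
      unfold Hi Gi SS
      rw [Finset.range_zero, Finset.sum_empty, add_zero]
    rw [this, hB3 Q hQ]
  have hN : 0 ≤ PotE τ (Hi F u Q q n) := hB2 _ (one_sub_GG_nonneg (hS n le_rfl))
  refine (Finset.sum_le_sum hstep).trans ?_
  rw [Finset.sum_add_distrib, Finset.sum_range_sub', Finset.sum_add_distrib, ← Finset.mul_sum,
    ← Finset.mul_sum, h0]
  linarith

end SumP

end Helper61.HT
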