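import Pool.Agent.Helper61.HT.StA
import Pool.Agent.Helper61.HT.SuppLib

/-!
# Project HT: support projections of positive elements
-/

namespace Helper61.HT

open scoped ComplexOrder

theorem pSupp : StSupp := by
  intro N _ _ _ τ hτ hcpl b hb
  obtain ⟨p, -, hp⟩ := SuppLib.exists_lim hτ hcpl hb
  exact ⟨p, SuppLib.supp_of_lim hτ hb hp⟩

end Helper61.HT
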