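import Pool.Agent.Helper61.HT.StE
import Pool.Agent.Helper61.HT.Ip

/-!
# Project HT: the average `T_L^k D_v`
-/

set_option autoImplicit false

namespace Helper61.HT

open scoped ComplexOrder TensorProduct
open Filter Topology

section moments

variable {E : Type} [NormedAddCommGroup E] [InnerProductSpace ℂ E] {T : E →ₗ[ℂ] E}

private theorem mom_split (hs' : ∀ x y, inner ℂ (T x) y = inner ℂ x (T y)) (i j : ℕ) (x y : E) :
    inner ℂ ((T ^ (i + j)) x) y = inner ℂ ((T ^ i) x) ((T ^ j) y) := by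
  induction j generalizing y with
  | zero => simp
  | succ j ih =>
    rw [← add_assoc, pow_succ', Module.End.mul_apply, hs', ih, pow_succ, Module.End.mul_apply]

private theorem mom_nonneg (hs' : ∀ x y, inner ℂ (T x) y = inner ℂ x (T y))
    (h0 : ∀ x, 0 ≤ (inner ℂ (T x) x).re) (j : ℕ) (x : E) :
    0 ≤ (inner ℂ ((T ^ j) x) x).re := by
  rcases Nat.even_or_odd' j with ⟨i, rfl | rfl⟩
  · rw [two_mul, mom_split hs']
    exact inner_self_nonneg (𝕜 := ℂ)
  · rw [two_mul, show i + i + 1 = (i + 1) + i by ring, mom_split hs', pow_succ',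
      Module.End.mul_apply]
    exact h0 _

private theorem mom_anti (hs' : ∀ x y, inner ℂ (T x) y = inner ℂ x (T y))
    (h0 : ∀ x, 0 ≤ (inner ℂ (T x) x).re) (h1 : ∀ x, (inner ℂ (T x) x).re ≤ ‖x‖ ^ 2) (j : ℕ)
    (x : E) : (inner ℂ ((T ^ (j + 1)) x) x).re ≤ (inner ℂ ((T ^ j) x) x).re := by
  have hn : ∀ z : E, (inner ℂ z z).re = ‖z‖ ^ 2 := fun z => inner_self_eq_norm_sq (𝕜 := ℂ) z
  rcases Nat.even_or_odd' j with ⟨i, rfl | rfl⟩
  · rw [show 2 * i + 1 = (i + 1) + i by ring, two_mul, mom_split hs' (i + 1) i,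
      mom_split hs' i i, pow_succ', Module.End.mul_apply, hn]
    exact h1 _
  · set y := (T ^ i) x with hy
    have e1 : (inner ℂ ((T ^ (2 * i + 1)) x) x).re = (inner ℂ (T y) y).re := by
      rw [show 2 * i + 1 = (i + 1) + i by ring, mom_split hs', pow_succ', Module.End.mul_apply]
    have e2 : (inner ℂ ((T ^ (2 * i + 1 + 1)) x) x).re = (inner ℂ (T y) (T y)).re := by
      rw [show 2 * i + 1 + 1 = (i + 1) + (i + 1) by ring, mom_split hs', pow_succ',
        Module.End.mul_apply]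
    rw [e1, e2]
    -- `T - T² = T(1-T)T + (1-T)T(1-T)`
    have h2 := h1 (T y)
    have h3 := h0 (y - T y)
    rw [map_sub, inner_sub_left, inner_sub_right, inner_sub_right, Complex.sub_re, Complex.sub_re,
      Complex.sub_re] at h3
    have h4 : (inner ℂ (T (T y)) y).re = (inner ℂ (T y) (T y)).re := by rw [hs']
    have h5 := hn (T y)
    rw [h4] at h3
    linarith

private theorem mom_bound (hs' : ∀ x y, inner ℂ (T x) y = inner ℂ x (T y))
    (h0 : ∀ x, 0 ≤ (inner ℂ (T x) x).re) (n : ℕ) (x : E) :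
    ((n : ℝ) + 1) * ((inner ℂ ((T ^ n) x) x).re - (inner ℂ ((T ^ (n + 1)) x) x).re) ≤ ‖x‖ ^ 2 := by
  have hn : ∀ z : E, (inner ℂ z z).re = ‖z‖ ^ 2 := fun z => inner_self_eq_norm_sq (𝕜 := ℂ) z
  have hconv : ∀ j : ℕ, (inner ℂ ((T ^ (j + 1)) x) x).re - (inner ℂ ((T ^ (j + 2)) x) x).re ≤
      (inner ℂ ((T ^ j) x) x).re - (inner ℂ ((T ^ (j + 1)) x) x).re := by
    intro j
    have h2 := mom_nonneg hs' h0 j (x - T x)
    rw [map_sub, inner_sub_left, inner_sub_right, inner_sub_right, Complex.sub_re, Complex.sub_re,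
      Complex.sub_re] at h2
    have e1 : (inner ℂ ((T ^ j) x) (T x)).re = (inner ℂ ((T ^ (j + 1)) x) x).re := by
      rw [mom_split hs' j 1, pow_one]
    have e2 : (inner ℂ ((T ^ j) (T x)) x).re = (inner ℂ ((T ^ (j + 1)) x) x).re := by
      rw [← Module.End.mul_apply, ← pow_succ]
    have e3 : (inner ℂ ((T ^ j) (T x)) (T x)).re = (inner ℂ ((T ^ (j + 2)) x) x).re := by
      rw [← Module.End.mul_apply, ← pow_succ, show j + 2 = (j + 1) + 1 by ring,
        mom_split hs' (j + 1) 1, pow_one]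
    rw [e1, e2, e3] at h2
    linarith
  have key : ((n : ℝ) + 1) * ((inner ℂ ((T ^ n) x) x).re - (inner ℂ ((T ^ (n + 1)) x) x).re) ≤
      (inner ℂ ((T ^ 0) x) x).re - (inner ℂ ((T ^ (n + 1)) x) x).re := by
    induction n with
    | zero => simp
    | succ n ih =>
      have h2 := hconv n
      push_cast
      have h3 : (0 : ℝ) ≤ (n : ℝ) + 1 := by positivity
      have h4 := mul_le_mul_of_nonneg_left h2 h3
      linarith
  have h2 := mom_nonneg hs' h0 (n + 1) x
  have h3 : (inner ℂ ((T ^ 0) x) x).re = ‖x‖ ^ 2 := by rw [pow_zero, Module.End.one_apply, hn]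
  linarith

end moments

section avg

variable {E : Type} [NormedAddCommGroup E] [InnerProductSpace ℂ E] {κ : Type} (F : Finset κ)
  (U U' : κ → E →ₗ[ℂ] E)

/-- The lazy average. -/
private noncomputable def TA : E →ₗ[ℂ] E :=
  (1 / 2 : ℂ) • LinearMap.id + (1 / (4 * F.card) : ℂ) • ∑ s ∈ F, (U s + U' s)

private theorem TA_apply (x : E) : TA F U U' x =
    (1 / 2 : ℂ) • x + (1 / (4 * F.card) : ℂ) • ∑ s ∈ F, (U s x + U' s x) := by
  simp [TA, LinearMap.sum_apply]

variable {F U U'} (hF : F.Nonempty) (h1 : ∀ s x y, inner ℂ (U s x) (U s y) = inner ℂ x y)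
  (h2 : ∀ s x, U s (U' s x) = x) (h3 : ∀ s x, U' s (U s x) = x)

include h1 h2 in
private theorem adj1 (s : κ) (x y : E) : inner ℂ (U s x) y = inner ℂ x (U' s y) := by
  rw [← h1 s x (U' s y), h2]

include h1 h2 in
private theorem adj2 (s : κ) (x y : E) : inner ℂ (U' s x) y = inner ℂ x (U s y) := by
  rw [← inner_conj_symm, ← adj1 h1 h2, inner_conj_symm]

include h1 h2 in
private theorem TA_symm (x y : E) : inner ℂ (TA F U U' x) y = inner ℂ x (TA F U U' y) := by
  have e1 : (starRingEnd ℂ) (1 / 2 : ℂ) = 1 / 2 := by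
    rw [map_div₀, map_one, map_ofNat]
  have e2 : (starRingEnd ℂ) (1 / (4 * F.card) : ℂ) = 1 / (4 * F.card) := by
    rw [map_div₀, map_one, map_mul, map_ofNat, map_natCast]
  rw [TA_apply, TA_apply, inner_add_left, inner_add_right, inner_smul_left, inner_smul_right,
    inner_smul_left, inner_smul_right, e1, e2, sum_inner, inner_sum]
  congr 2
  refine Finset.sum_congr rfl fun s _ => ?_
  rw [inner_add_left, inner_add_right, adj1 h1 h2, adj2 h1 h2, add_comm]

include hF h1 h2 in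
private theorem TA_form (x : E) : (inner ℂ (TA F U U' x) x).re =
    1 / 2 * ‖x‖ ^ 2 + 1 / (2 * F.card) * ∑ s ∈ F, (inner ℂ x (U s x)).re := by
  have hn : ∀ z : E, (inner ℂ z z).re = ‖z‖ ^ 2 := fun z => inner_self_eq_norm_sq (𝕜 := ℂ) z
  have hc : (0 : ℝ) < F.card := by exact_mod_cast Finset.card_pos.2 hF
  have e1 : (starRingEnd ℂ) (1 / 2 : ℂ) = ((1 / 2 : ℝ) : ℂ) := by
    rw [map_div₀, map_one, map_ofNat]; push_cast; ring
  have e2 : (starRingEnd ℂ) (1 / (4 * F.card) : ℂ) = ((1 / (4 * F.card) : ℝ) : ℂ) := by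
    rw [map_div₀, map_one, map_mul, map_ofNat, map_natCast]; push_cast; ring
  rw [TA_apply, inner_add_left, inner_smul_left, inner_smul_left, e1, e2, Complex.add_re,
    Complex.re_ofReal_mul, Complex.re_ofReal_mul, hn, sum_inner, Complex.re_sum]
  have e3 : ∀ s ∈ F, (inner ℂ (U s x + U' s x) x).re = 2 * (inner ℂ x (U s x)).re := by
    intro s _
    rw [inner_add_left, adj2 h1 h2, Complex.add_re]
    have : (inner ℂ (U s x) x).re = (inner ℂ x (U s x)).re := by
      rw [← inner_conj_symm, Complex.conj_re]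
    rw [this]; ring
  rw [Finset.sum_congr rfl e3, ← Finset.mul_sum]
  field_simp
  ring

include h1 in
private theorem U_norm (s : κ) (x : E) : ‖U s x‖ = ‖x‖ := by
  have hn : ∀ z : E, (inner ℂ z z).re = ‖z‖ ^ 2 := fun z => inner_self_eq_norm_sq (𝕜 := ℂ) z
  have h := h1 s x x
  have h' := congrArg Complex.re h
  rw [hn, hn] at h'
  exact (sq_eq_sq₀ (norm_nonneg _) (norm_nonneg _)).1 h'

include h1 in
private theorem U_bd (s : κ) (x : E) : |(inner ℂ x (U s x)).re| ≤ ‖x‖ ^ 2 := by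
  refine (Complex.abs_re_le_norm _).trans ((norm_inner_le_norm _ _).trans ?_)
  rw [U_norm h1, pow_two]

include hF h1 h2 in
private theorem TA_nonneg (x : E) : 0 ≤ (inner ℂ (TA F U U' x) x).re := by
  have hc : (0 : ℝ) < F.card := by exact_mod_cast Finset.card_pos.2 hF
  rw [TA_form hF h1 h2]
  have h4 : -(F.card * ‖x‖ ^ 2) ≤ ∑ s ∈ F, (inner ℂ x (U s x)).re := by
    have h5 := Finset.card_nsmul_le_sum F (fun s => (inner ℂ x (U s x)).re) (-(‖x‖ ^ 2))
      fun s _ => (abs_le.1 (U_bd h1 s x)).1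
    rw [nsmul_eq_mul] at h5
    linarith
  have h6 : 1 / (2 * (F.card : ℝ)) * (-(F.card * ‖x‖ ^ 2)) = -(1 / 2 * ‖x‖ ^ 2) := by
    field_simp
  have h7 : (0 : ℝ) ≤ 1 / (2 * F.card) := by positivity
  have := mul_le_mul_of_nonneg_left h4 h7
  linarith

include hF h1 h2 in
private theorem TA_le (x : E) : (inner ℂ (TA F U U' x) x).re ≤ ‖x‖ ^ 2 := by
  have hc : (0 : ℝ) < F.card := by exact_mod_cast Finset.card_pos.2 hF
  rw [TA_form hF h1 h2]
  have h4 : ∑ s ∈ F, (inner ℂ x (U s x)).re ≤ F.card * ‖x‖ ^ 2 := by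
    have h5 := Finset.sum_le_card_nsmul F (fun s => (inner ℂ x (U s x)).re) (‖x‖ ^ 2)
      fun s _ => (abs_le.1 (U_bd h1 s x)).2
    rwa [nsmul_eq_mul] at h5
  have h6 : 1 / (2 * (F.card : ℝ)) * (F.card * ‖x‖ ^ 2) = 1 / 2 * ‖x‖ ^ 2 := by
    field_simp
  have h7 : (0 : ℝ) ≤ 1 / (2 * F.card) := by positivity
  have := mul_le_mul_of_nonneg_left h4 h7
  linarith

include hF h1 h2 in
/-- All estimates for `A = T^k D`. -/
private theorem TA_all (k : ℕ) (D : E) :
    ‖(TA F U U' ^ k) D‖ ^ 2 = (inner ℂ D ((TA F U U' ^ (2 * k)) D)).re ∧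
    ‖(TA F U U' ^ k) D‖ ^ 2 ≤ ‖D‖ ^ 2 ∧
    ‖D‖ ^ 2 + ‖(TA F U U' ^ k) D‖ ^ 2 - 2 * (inner ℂ D ((TA F U U' ^ k) D)).re ≤
      ‖D‖ ^ 2 - ‖(TA F U U' ^ k) D‖ ^ 2 ∧
    ∑ s ∈ F, (‖(TA F U U' ^ k) D‖ ^ 2 -
      (inner ℂ ((TA F U U' ^ k) D) (U s ((TA F U U' ^ k) D))).re) ≤
      2 * F.card * ‖D‖ ^ 2 / (2 * k + 1) := by
  have hn : ∀ z : E, (inner ℂ z z).re = ‖z‖ ^ 2 := fun z => inner_self_eq_norm_sq (𝕜 := ℂ) z
  have hc : (0 : ℝ) < F.card := by exact_mod_cast Finset.card_pos.2 hF
  set T := TA F U U' with hT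
  have hs' : ∀ x y, inner ℂ (T x) y = inner ℂ x (T y) := TA_symm h1 h2
  have h0 : ∀ x, 0 ≤ (inner ℂ (T x) x).re := TA_nonneg hF h1 h2
  have h11 : ∀ x, (inner ℂ (T x) x).re ≤ ‖x‖ ^ 2 := TA_le hF h1 h2
  have hre : ∀ x y : E, (inner ℂ x y).re = (inner ℂ y x).re := fun x y => by
    rw [← inner_conj_symm, Complex.conj_re]
  have hk : ‖(T ^ k) D‖ ^ 2 = (inner ℂ ((T ^ (2 * k)) D) D).re := by
    rw [two_mul, mom_split hs', hn]
  have hanti : Antitone fun j : ℕ => (inner ℂ ((T ^ j) D) D).re :=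
    antitone_nat_of_succ_le fun j => mom_anti hs' h0 h11 j D
  refine ⟨by rw [hk, hre], ?_, ?_, ?_⟩
  · rw [hk, ← hn D]
    have := hanti (Nat.zero_le (2 * k))
    simpa using this
  · have h4 : (inner ℂ ((T ^ (2 * k)) D) D).re ≤ (inner ℂ ((T ^ k) D) D).re :=
      hanti (by omega)
    rw [← hk, hre] at h4
    linarith
  · set A := (T ^ k) D with hA
    have h4 := TA_form hF h1 h2 A
    rw [← hT] at h4
    have h5 : ∑ s ∈ F, (‖A‖ ^ 2 - (inner ℂ A (U s A)).re) =
        2 * F.card * (‖A‖ ^ 2 - (inner ℂ (T A) A).re) := by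
      rw [Finset.sum_sub_distrib, Finset.sum_const, nsmul_eq_mul, h4]
      field_simp
      ring
    have h6 : (inner ℂ (T A) A).re = (inner ℂ ((T ^ (2 * k + 1)) D) D).re := by
      rw [show 2 * k + 1 = (k + 1) + k by ring, mom_split hs', pow_succ', Module.End.mul_apply]
    have h7 := mom_bound hs' h0 (2 * k) D
    rw [← hk, ← h6] at h7
    push_cast at h7
    rw [h5, mul_div_assoc]
    have h8 : (0 : ℝ) < 2 * k + 1 := by positivity
    refine mul_le_mul_of_nonneg_left ?_ (by positivity)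
    rw [le_div_iff₀ h8]
    linarith

end avg

section families

variable {N : Type} [CStarAlgebra N] {τ : N →ₗ[ℂ] ℂ}

private theorem step {H : Type} [NormedAddCommGroup H] [InnerProductSpace ℂ H] (e : N ≃ₗ[ℂ] H)
    {J K : Type} [Fintype J] [Fintype K] (w : J → N) (c : K → ℝ) (hc : ∀ i, 0 ≤ c i)
    (a : K → N) :
    (∀ x y, ker τ (fun p : K × J => Real.sqrt (c p.1) • (a p.1 * w p.2)) x y =
      ∑ i, (c i : ℂ) * ker τ w (star (a i) * x) (star (a i) * y)) ∧
    ∑ p : K × J, e (Real.sqrt (c p.1) • (a p.1 * w p.2)) ⊗ₜ[ℂ]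
      e (star (Real.sqrt (c p.1) • (a p.1 * w p.2))) =
      ∑ i, (c i : ℂ) • ∑ j, e (a i * w j) ⊗ₜ[ℂ] e (star (w j) * star (a i)) := by
  have hsm : ∀ (r : ℝ) (x : N), r • x = (r : ℂ) • x := fun r x => (algebraMap_smul ℂ r x).symm
  have hsq : ∀ i, ((Real.sqrt (c i) : ℝ) : ℂ) * ((Real.sqrt (c i) : ℝ) : ℂ) = (c i : ℂ) := by
    intro i
    rw [← Complex.ofReal_mul, Real.mul_self_sqrt (hc i)]
  constructor
  · intro x y
    unfold ker
    rw [Fintype.sum_prod_type]
    refine Finset.sum_congr rfl fun i _ => ?_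
    rw [Finset.mul_sum]
    refine Finset.sum_congr rfl fun j _ => ?_
    simp only
    rw [hsm, star_smul, mul_smul_comm, smul_mul_assoc, map_smul, map_smul, smul_eq_mul,
      smul_eq_mul, RCLike.star_def, Complex.conj_ofReal, star_mul, star_mul, star_star]
    have e1 : star x * (a i * w j) = star x * a i * w j := by rw [mul_assoc]
    have e2 : star (w j) * star (a i) * y = star (w j) * (star (a i) * y) := by rw [mul_assoc]
    rw [e1, e2, ← hsq i]
    ring
  · rw [Fintype.sum_prod_type]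
    refine Finset.sum_congr rfl fun i _ => ?_
    rw [Finset.smul_sum]
    refine Finset.sum_congr rfl fun j _ => ?_
    simp only
    rw [hsm, star_smul, map_smul, map_smul, TensorProduct.smul_tmul', TensorProduct.tmul_smul,
      ← TensorProduct.smul_tmul', smul_smul, RCLike.star_def, Complex.conj_ofReal, star_mul, hsq,
      TensorProduct.smul_tmul']

private theorem pair {H : Type} [NormedAddCommGroup H] [InnerProductSpace ℂ H] (e : N ≃ₗ[ℂ] H)
    (hτ : Trc τ) (he : ∀ x y, inner ℂ (e x) (e y) = τ (star x * y)) {J K : Type} [Fintype J]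
    [Fintype K] (v : J → N) (w : K → N) :
    (inner ℂ (∑ j, e (v j) ⊗ₜ[ℂ] e (star (v j))) (∑ j, e (w j) ⊗ₜ[ℂ] e (star (w j)))).re =
      crt τ v w := by
  rw [sum_inner, Complex.re_sum]
  unfold crt
  refine Finset.sum_congr rfl fun i _ => ?_
  rw [inner_sum, Complex.re_sum]
  refine Finset.sum_congr rfl fun j _ => ?_
  rw [TensorProduct.inner_tmul, he, he, star_star, hτ.tr (v i)]
  have h1 : τ (star (w j) * v i) = (starRingEnd ℂ) (τ (star (v i) * w j)) := by
    rw [← map_star' hτ, star_mul, star_star]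
  rw [h1, Complex.mul_conj']
  norm_cast

end families

theorem pTL : StTL := by
  intro N _ _ _ τ ι F u m v k hτ hF hu
  obtain ⟨H, i1, i2, e, he, hn⟩ := exists_L2 hτ
  have hc : (0 : ℝ) < F.card := by exact_mod_cast Finset.card_pos.2 hF
  -- left and right multiplications
  have hus : ∀ s, Un (star (u s)) := fun s => (hu s).star
  have hL : ∀ a : N, Un a → ∀ x y : H, inner ℂ
      ((e.toLinearMap ∘ₗ LinearMap.mulLeft ℂ a ∘ₗ e.symm.toLinearMap) x)
      ((e.toLinearMap ∘ₗ LinearMap.mulLeft ℂ a ∘ₗ e.symm.toLinearMap) y) = inner ℂ x y := by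
    intro a ha x y
    simp only [LinearMap.comp_apply, LinearEquiv.coe_coe, LinearMap.mulLeft_apply]
    rw [he, star_mul]
    conv_rhs => rw [← e.apply_symm_apply x, ← e.apply_symm_apply y, he]
    congr 1
    calc star (e.symm x) * star a * (a * e.symm y) =
        star (e.symm x) * (star a * a) * e.symm y := by noncomm_ring
      _ = _ := by rw [ha.1, mul_one]
  have hR : ∀ a : N, Un a → ∀ x y : H, inner ℂ
      ((e.toLinearMap ∘ₗ LinearMap.mulRight ℂ a ∘ₗ e.symm.toLinearMap) x)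
      ((e.toLinearMap ∘ₗ LinearMap.mulRight ℂ a ∘ₗ e.symm.toLinearMap) y) = inner ℂ x y := by
    intro a ha x y
    simp only [LinearMap.comp_apply, LinearEquiv.coe_coe, LinearMap.mulRight_apply]
    rw [he, star_mul]
    conv_rhs => rw [← e.apply_symm_apply x, ← e.apply_symm_apply y, he]
    calc τ (star a * star (e.symm x) * (e.symm y * a)) =
        τ (star a * (star (e.symm x) * e.symm y) * a) := by congr 1; noncomm_ring
      _ = τ (star (e.symm x) * e.symm y * (a * star a)) := by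
          rw [mul_assoc, hτ.tr]; congr 1; noncomm_ring
      _ = _ := by rw [ha.2, mul_one]
  let fL : ∀ a : N, Un a → H →ₗᵢ[ℂ] H := fun a ha =>
    (e.toLinearMap ∘ₗ LinearMap.mulLeft ℂ a ∘ₗ e.symm.toLinearMap).isometryOfInner (hL a ha)
  let fR : ∀ a : N, Un a → H →ₗᵢ[ℂ] H := fun a ha =>
    (e.toLinearMap ∘ₗ LinearMap.mulRight ℂ a ∘ₗ e.symm.toLinearMap).isometryOfInner (hR a ha)
  have hfL : ∀ (a : N) (ha : Un a) (x : N), (fL a ha).toLinearMap (e x) = e (a * x) := by
    intro a ha x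
    show e (a * e.symm (e x)) = _
    rw [e.symm_apply_apply]
  have hfR : ∀ (a : N) (ha : Un a) (x : N), (fR a ha).toLinearMap (e x) = e (x * a) := by
    intro a ha x
    show e (e.symm (e x) * a) = _
    rw [e.symm_apply_apply]
  let V : ∀ a : N, Un a → (H ⊗[ℂ] H) →ₗ[ℂ] (H ⊗[ℂ] H) := fun a ha =>
    TensorProduct.map (fL a ha).toLinearMap (fR (star a) ha.star).toLinearMap
  have hV1 : ∀ (a : N) (ha : Un a) (x y : H ⊗[ℂ] H),
      inner ℂ (V a ha x) (V a ha y) = inner ℂ x y := fun a ha x y =>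
    TensorProduct.inner_map_map _ _ x y
  have hVt : ∀ (a : N) (ha : Un a) (x y : N),
      V a ha (e x ⊗ₜ[ℂ] e y) = e (a * x) ⊗ₜ[ℂ] e (y * star a) := by
    intro a ha x y
    show TensorProduct.map _ _ _ = _
    rw [TensorProduct.map_tmul, hfL a ha, hfR (star a) ha.star]
  have hV2 : ∀ (a : N) (ha : Un a) (x : H ⊗[ℂ] H), V a ha (V (star a) ha.star x) = x := by
    intro a ha x
    induction x using TensorProduct.induction_on with
    | zero => rw [map_zero, map_zero]
    | tmul x y =>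
      rw [← e.apply_symm_apply x, ← e.apply_symm_apply y, hVt (star a) ha.star, hVt a ha,
        ← mul_assoc, ha.2, one_mul, star_star, mul_assoc, ha.2, mul_one]
    | add x y hx hy => rw [map_add, map_add, hx, hy]
  let U : ι → (H ⊗[ℂ] H) →ₗ[ℂ] (H ⊗[ℂ] H) := fun s => V (u s) (hu s)
  let U' : ι → (H ⊗[ℂ] H) →ₗ[ℂ] (H ⊗[ℂ] H) := fun s => V (star (u s)) (hus s)
  have h1 : ∀ s x y, inner ℂ (U s x) (U s y) = inner ℂ x y := fun s x y =>
    hV1 (u s) (hu s) x y
  have h2 : ∀ s x, U s (U' s x) = x := fun s x => hV2 (u s) (hu s) x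
  set D : H ⊗[ℂ] H := ∑ j, e (v j) ⊗ₜ[ℂ] e (star (v j)) with hD
  -- the families
  have hfam : ∀ k : ℕ, ∃ (J : Type) (_ : Fintype J) (w : J → N),
      (∀ x y, ker τ w x y = (TLf F u)^[k] (ker τ v) x y) ∧
      ∑ j, e (w j) ⊗ₜ[ℂ] e (star (w j)) = (TA F U U' ^ k) D ∧
      ((∀ x, dfm τ v x ≤ 2 * hs τ x) → ∀ x, dfm τ w x ≤ 2 * hs τ x) := by
    intro k
    induction k with
    | zero => exact ⟨Fin m, inferInstance, v, fun x y => rfl, by simp [hD], fun h => h⟩
    | succ k ih =>
      obtain ⟨J, iJ, w, hw1, hw2, hw3⟩ := ih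
      let c : Option (F ⊕ F) → ℝ := fun o => o.elim (1 / 2) fun _ => 1 / (4 * F.card)
      let a : Option (F ⊕ F) → N := fun o => o.elim 1 fun q =>
        q.elim (fun s : F => u s) fun s : F => star (u s)
      have hc0 : ∀ i, 0 ≤ c i := by
        intro i
        rcases i with _ | i
        · show (0 : ℝ) ≤ 1 / 2; norm_num
        · show (0 : ℝ) ≤ 1 / (4 * F.card); positivity
      obtain ⟨hs1, hs2⟩ := step (τ := τ) e w c hc0 a
      have hker : ∀ x y, ker τ (fun p : Option (F ⊕ F) × J =>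
          Real.sqrt (c p.1) • (a p.1 * w p.2)) x y = TLf F u (ker τ w) x y := by
        intro x y
        rw [hs1]
        rw [Fintype.sum_option, Fintype.sum_sum_type]
        simp only [c, a, Option.elim, Sum.elim_inl, Sum.elim_inr, star_one, one_mul, star_star]
        unfold TLf
        rw [Finset.sum_add_distrib, ← Finset.sum_coe_sort F fun s =>
          ker τ w (star (u s) * x) (star (u s) * y), ← Finset.sum_coe_sort F fun s =>
          ker τ w (u s * x) (u s * y), mul_add, Finset.mul_sum, Finset.mul_sum]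
        push_cast
        rfl
      refine ⟨Option (F ⊕ F) × J, inferInstance, fun p => Real.sqrt (c p.1) • (a p.1 * w p.2),
        ?_, ?_, ?_⟩
      · intro x y
        have hw1' : ker τ w = (TLf F u)^[k] (ker τ v) := funext fun x => funext fun y => hw1 x y
        rw [hker, hw1', Function.iterate_succ_apply']
      · rw [hs2, pow_succ', Module.End.mul_apply, ← hw2, TA_apply, Fintype.sum_option,
          Fintype.sum_sum_type]
        simp only [c, a, Option.elim, Sum.elim_inl, Sum.elim_inr, star_one, one_mul, star_star,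
          mul_one]
        have e1 : ∀ s, U s (∑ j, e (w j) ⊗ₜ[ℂ] e (star (w j))) =
            ∑ j, e (u s * w j) ⊗ₜ[ℂ] e (star (w j) * star (u s)) := by
          intro s
          rw [map_sum]
          exact Finset.sum_congr rfl fun j _ => hVt (u s) (hu s) _ _
        have e2 : ∀ s, U' s (∑ j, e (w j) ⊗ₜ[ℂ] e (star (w j))) =
            ∑ j, e (star (u s) * w j) ⊗ₜ[ℂ] e (star (w j) * u s) := by
          intro s
          rw [map_sum]
          refine Finset.sum_congr rfl fun j _ => ?_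
          have := hVt (star (u s)) (hus s) (w j) (star (w j))
          rwa [star_star] at this
        rw [Finset.sum_add_distrib, ← Finset.sum_coe_sort F fun s =>
          U s (∑ j, e (w j) ⊗ₜ[ℂ] e (star (w j))), ← Finset.sum_coe_sort F fun s =>
          U' s (∑ j, e (w j) ⊗ₜ[ℂ] e (star (w j))), smul_add]
        simp only [e1, e2]
        push_cast
        simp only [Finset.smul_sum]
      · intro hv x
        have hw3' := hw3 hv
        have hdk : ∀ {J' : Type} [Fintype J'] (w' : J' → N) (z : N),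
            ker τ w' z z = ((dfm τ w' z : ℝ) : ℂ) := by
          intro J' _ w' z
          unfold ker dfm
          push_cast
          refine Finset.sum_congr rfl fun j _ => ?_
          have h1 : τ (star z * w' j) = (starRingEnd ℂ) (τ (star (w' j) * z)) := by
            rw [← map_star' hτ, star_mul, star_star]
          rw [h1, mul_comm, Complex.mul_conj']
        have h5 := hker x x
        rw [hdk] at h5
        unfold TLf at h5
        simp only [hdk] at h5
        have h6 : dfm τ (fun p : Option (F ⊕ F) × J =>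
            Real.sqrt (c p.1) • (a p.1 * w p.2)) x = 1 / 2 * dfm τ w x +
            1 / (4 * F.card) * ∑ s ∈ F, (dfm τ w (star (u s) * x) + dfm τ w (u s * x)) := by
          have h7 := congrArg Complex.re h5
          rw [Complex.ofReal_re] at h7
          rw [h7]
          have h8 : ((1 / 2 : ℂ) * ((dfm τ w x : ℝ) : ℂ) + (1 / (4 * F.card) : ℂ) *
              ∑ s ∈ F, (((dfm τ w (star (u s) * x) : ℝ) : ℂ) + ((dfm τ w (u s * x) : ℝ) : ℂ))) =
              ((1 / 2 * dfm τ w x +
            1 / (4 * F.card) * ∑ s ∈ F, (dfm τ w (star (u s) * x) + dfm τ w (u s * x)) : ℝ) : ℂ) := by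
            push_cast
            rfl
          rw [h8, Complex.ofReal_re]
        rw [h6]
        have h9 : ∑ s ∈ F, (dfm τ w (star (u s) * x) + dfm τ w (u s * x)) ≤
            ∑ s ∈ F, (4 * hs τ x) := by
          refine Finset.sum_le_sum fun s _ => ?_
          have h10 := hw3' (star (u s) * x)
          have h11 := hw3' (u s * x)
          rw [hs_unit_mul (hus s)] at h10
          rw [hs_unit_mul (hu s)] at h11
          linarith
        rw [Finset.sum_const, nsmul_eq_mul] at h9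
        have h12 : (0 : ℝ) ≤ 1 / (4 * F.card) := by positivity
        have h13 := mul_le_mul_of_nonneg_left h9 h12
        have h14 : 1 / (4 * (F.card : ℝ)) * (F.card * (4 * hs τ x)) = hs τ x := by
          field_simp
        have h15 := hw3' x
        linarith
  obtain ⟨J, iJ, w, hw1, hw2, hw3⟩ := hfam k
  obtain ⟨J', iJ', w', hw1', hw2', hw3'⟩ := hfam (2 * k)
  obtain ⟨t1, t2, t3, t4⟩ := TA_all hF h1 h2 k D
  have hnE : ∀ z : H ⊗[ℂ] H, (inner ℂ z z).re = ‖z‖ ^ 2 :=
    fun z => inner_self_eq_norm_sq (𝕜 := ℂ) z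
  have hcr : ∀ {J : Type} [Fintype J] (w : J → N), crt τ w w = hsf τ w := fun w => rfl
  -- translation
  have p1 : ‖D‖ ^ 2 = hsf τ v := by rw [← hnE, hD, pair e hτ he, hcr]
  have p2 : ‖(TA F U U' ^ k) D‖ ^ 2 = hsf τ w := by rw [← hnE, ← hw2, pair e hτ he, hcr]
  have p3 : (inner ℂ D ((TA F U U' ^ k) D)).re = crt τ v w := by
    rw [← hw2, hD, pair e hτ he]
  have p4 : (inner ℂ D ((TA F U U' ^ (2 * k)) D)).re = avh τ F u k v := by
    rw [← hw2', hD, pair e hτ he]
    unfold crt avh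
    refine Finset.sum_congr rfl fun i _ => ?_
    rw [← hw1']
    unfold ker
    rw [Complex.re_sum]
    refine Finset.sum_congr rfl fun j _ => ?_
    have h1 : τ (star (w' j) * v i) = (starRingEnd ℂ) (τ (star (v i) * w' j)) := by
      rw [← map_star' hτ, star_mul, star_star]
    rw [h1, Complex.mul_conj']
    norm_cast
  have p5 : ∀ s, (inner ℂ ((TA F U U' ^ k) D) (U s ((TA F U U' ^ k) D))).re =
      crt τ w (fun j => u s * w j) := by
    intro s
    rw [← pair e hτ he, ← hw2]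
    congr 2
    rw [map_sum]
    refine Finset.sum_congr rfl fun j _ => ?_
    rw [star_mul]
    exact hVt (u s) (hu s) _ _
  rw [p1, p2] at t3 t4
  rw [p2] at t1 t2
  rw [p1] at t2
  rw [p3] at t3
  rw [p4] at t1
  simp only [p5] at t4
  -- transfer to `Fin`
  let q : Fin (Fintype.card J) ≃ J := (Fintype.equivFin J).symm
  have q1 : hsf τ (w ∘ q) = hsf τ w := by
    unfold hsf
    rw [← q.sum_comp fun i => ∑ j, ‖τ (star (w i) * w j)‖ ^ 2]
    refine Finset.sum_congr rfl fun i _ => ?_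
    rw [← q.sum_comp fun j => ‖τ (star (w (q i)) * w j)‖ ^ 2]
    rfl
  refine ⟨Fintype.card J, w ∘ q, fun x y => ?_, by rw [q1]; exact t1, by rw [q1]; exact t2,
    fun hv x => ?_, ?_, ?_⟩
  · rw [← hw1]
    unfold ker
    exact q.sum_comp fun j => τ (star x * w j) * τ (star (w j) * y)
  · have h5 : dfm τ (w ∘ q) x = dfm τ w x := by
      unfold dfm
      exact q.sum_comp fun j => ‖τ (star (w j) * x)‖ ^ 2
    rw [h5]
    exact hw3 hv x
  · have h5 : crt τ v (w ∘ q) = crt τ v w := by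
      unfold crt
      refine Finset.sum_congr rfl fun i _ => ?_
      exact q.sum_comp fun j => ‖τ (star (v i) * w j)‖ ^ 2
    rw [q1, h5]
    exact t3
  · have h5 : ∀ s, crt τ (w ∘ q) (fun j => u s * (w ∘ q) j) = crt τ w (fun j => u s * w j) := by
      intro s
      unfold crt
      rw [← q.sum_comp fun i => ∑ j, ‖τ (star (w i) * (u s * w j))‖ ^ 2]
      refine Finset.sum_congr rfl fun i _ => ?_
      rw [← q.sum_comp fun j => ‖τ (star (w (q i)) * (u s * w j))‖ ^ 2]
      rfl
    simp only [q1, h5]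
    exact t4

end Helper61.HT
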