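import Pool.Agent.Helper61.HT.Defs

/-!
# Project HT: statements, part A (averaging, rounding, potentials, sums)
-/

namespace Helper61.HT

open scoped ComplexOrder

/-- Facts about the averaging operator. -/
structure TTFacts {N : Type} [CStarAlgebra N] [PartialOrder N] (τ : N →ₗ[ℂ] ℂ) {ι : Type}
    (F : Finset ι) (u : ι → N) : Prop where
  nonneg : ∀ (k : ℕ) (y : N), 0 ≤ y → 0 ≤ (TT F u ^ k) y
  one : ∀ k : ℕ, (TT F u ^ k) (1 : N) = 1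
  tr : ∀ (k : ℕ) (y : N), τ ((TT F u ^ k) y) = τ y
  symm : ∀ (k : ℕ) (x y : N), τ (x * (TT F u ^ k) y) = τ ((TT F u ^ k) x * y)
  map_star : ∀ (k : ℕ) (y : N), star ((TT F u ^ k) y) = (TT F u ^ k) (star y)
  norm : ∀ (k : ℕ) (y : N), ‖(TT F u ^ k) y‖ ≤ ‖y‖
  hs_le : ∀ (k : ℕ) (y : N), hs τ ((TT F u ^ k) y) ≤ hs τ y
  pos : ∀ (k : ℕ) (y : N), 0 ≤ rt τ (star y * (TT F u ^ k) y)
  gap : ∀ (k : ℕ) (y : N), hs τ (y - (TT F u ^ k) y) ≤ hs τ y - hs τ ((TT F u ^ k) y)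
  en_eq : ∀ y : N, En τ F u y = 4 * F.card * (hs τ y - rt τ (star y * TT F u y))
  en_pow : ∀ (k : ℕ) (y : N),
    En τ F u ((TT F u ^ k) y) ≤ 4 * F.card * hs τ y / (2 * k + 1)

/-- Facts about the resolvent `RR`. -/
structure RRFacts {N : Type} [CStarAlgebra N] [PartialOrder N] (τ : N →ₗ[ℂ] ℂ) {ι : Type}
    (F : Finset ι) (u : ι → N) : Prop where
  eqn : ∀ q : N, (2 : ℝ) • RR F u q - TT F u (RR F u q) = q
  half : ∀ q : N, 0 ≤ q → (1 / 2 : ℝ) • q ≤ RR F u q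
  le_one : ∀ q : N, 0 ≤ q → q ≤ 1 → RR F u q ≤ 1
  tr : ∀ q : N, rt τ (RR F u q) = rt τ q
  conj : ∀ q : N, 0 ≤ q → ∀ s ∈ F,
    u s * RR F u q * star (u s) ≤ (6 * F.card : ℝ) • RR F u q ∧
    star (u s) * RR F u q * u s ≤ (6 * F.card : ℝ) • RR F u q
  dist : ∀ q : N, Pr q → ∀ X : N, ‖X‖ ≤ 1 →
    |rt τ (X * (RR F u q - q))| ≤ Real.sqrt (rt τ q * En τ F u q)

def StTT : Prop := ∀ (N : Type) [CStarAlgebra N] [PartialOrder N] [StarOrderedRing N]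
  (τ : N →ₗ[ℂ] ℂ) (ι : Type) (F : Finset ι) (u : ι → N), Trc τ → F.Nonempty → (∀ s, Un (u s)) →
  TTFacts τ F u

def StRR : Prop := ∀ (N : Type) [CStarAlgebra N] [PartialOrder N] [StarOrderedRing N]
  (τ : N →ₗ[ℂ] ℂ) (ι : Type) (F : Finset ι) (u : ι → N), Trc τ → F.Nonempty → (∀ s, Un (u s)) →
  TTFacts τ F u → RRFacts τ F u

/-- `½ G y G ≤ G - G' ≤ G y G`, `G = GG S`, `G' = GG (S + y)`. -/
def StG2 : Prop := ∀ (N : Type) [CStarAlgebra N] [PartialOrder N] [StarOrderedRing N]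
  (S y : N), 0 ≤ S → 0 ≤ y → y ≤ 1 →
  (1 / 2 : ℝ) • (GG S * y * GG S) ≤ GG S - GG (S + y) ∧
    GG S - GG (S + y) ≤ GG S * y * GG S

def StLy : Prop := ∀ (N : Type) [CStarAlgebra N] [PartialOrder N] [StarOrderedRing N]
  (τ : N →ₗ[ℂ] ℂ) (A B : N), Trc τ →
  0 ≤ A → 0 ≤ B → 0 ≤ Ly τ A B ∧
  (∀ y : N, 0 ≤ y → y ≤ 1 → Ly τ (A + y) (B + y) ≤
    Ly τ A B - 1 / 2 * rt τ (y * (GG B - GG A) * (GG B - GG A))) ∧
  (∀ (B' : N) (C M : ℝ), 0 ≤ B' → 0 ≤ C → 1 + A ≤ C • (1 + B) →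
    1 + A ≤ C • (1 + B') → (∀ X : N, ‖X‖ ≤ 1 → |rt τ (X * (B' - B))| ≤ M) →
    Ly τ A B' ≤ Ly τ A B + (C + 2) * M)

def StPotA : Prop := ∀ (N : Type) [CStarAlgebra N] [PartialOrder N] [StarOrderedRing N]
  (τ : N →ₗ[ℂ] ℂ) (S q : N), Trc τ →
  0 ≤ S → Pr q → PotE τ (1 - GG (S + q)) ≤ PotE τ (1 - GG S) - rt τ (q * (1 - GG S)) +
    100 * rt τ (q * (1 - GG S) * (1 - GG S))

def StPotB : Prop := ∀ (N : Type) [CStarAlgebra N] [PartialOrder N] [StarOrderedRing N]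
  (τ : N →ₗ[ℂ] ℂ), Trc τ →
  (∀ (S q y : N) (M : ℝ), 0 ≤ S → 0 ≤ q → 0 ≤ y →
    (∀ X : N, ‖X‖ ≤ 1 → |rt τ (X * (y - q))| ≤ M) →
    PotE τ (1 - GG (S + y)) ≤ PotE τ (1 - GG (S + q)) + 21 * M) ∧
  (∀ H : N, 0 ≤ H → 0 ≤ PotE τ H) ∧ (∀ Q : N, Pr Q → PotE τ (1 - GG Q) = 0)

/-- First sums. -/
def StSumA : Prop := ∀ (N : Type) [CStarAlgebra N] [PartialOrder N] [StarOrderedRing N]
  (τ : N →ₗ[ℂ] ℂ) (ι : Type) (F : Finset ι) (u : ι → N) (Q : N) (q : ℕ → N) (n : ℕ),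
  Trc τ → F.Nonempty → (∀ s, Un (u s)) → RRFacts τ F u → Pr Q → (∀ i < n, Pr (q i)) →
  (∀ i ≤ n, 0 ≤ Hi F u Q q i ∧ Hi F u Q q i ≤ 1 ∧ (1 / 2 : ℝ) • Q ≤ Hi F u Q q i ∧
    rt τ ((1 - Q) * Hi F u Q q i) ≤ ∑ j ∈ Finset.range i, rt τ (q j)) ∧
  ∑ i ∈ Finset.range n, Gi F u Q q i * q i * Gi F u Q q i ≤ (4 : ℝ) • 1

/-- Lyapunov sum: approximate invariance of `G_i` near `q_i`. -/
def StSumL : Prop := ∀ (N : Type) [CStarAlgebra N] [PartialOrder N] [StarOrderedRing N]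
  (τ : N →ₗ[ℂ] ℂ) (ι : Type) (F : Finset ι) (u : ι → N) (ε : ℝ) (Q : N) (q : ℕ → N) (n : ℕ),
  Trc τ → F.Nonempty → (∀ s, Un (u s)) → RRFacts τ F u → Pr Q → 0 < ε →
  (∀ i < n, Pr (q i) ∧ En τ F u (q i) ≤ ε * rt τ (q i)) → ∀ s ∈ F,
  ∑ i ∈ Finset.range n, rt τ (q i * (Gi F u Q q i - u s * Gi F u Q q i * star (u s)) *
      (Gi F u Q q i - u s * Gi F u Q q i * star (u s))) ≤
    128 * F.card * Real.sqrt ε * ∑ i ∈ Finset.range n, rt τ (q i) +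
      2 * hs τ (u s * Q - Q * u s)

/-- Potential sum. -/
def StSumP : Prop := ∀ (N : Type) [CStarAlgebra N] [PartialOrder N] [StarOrderedRing N]
  (τ : N →ₗ[ℂ] ℂ) (ι : Type) (F : Finset ι) (u : ι → N) (ε : ℝ) (Q : N) (q : ℕ → N) (n : ℕ),
  Trc τ → F.Nonempty → (∀ s, Un (u s)) → RRFacts τ F u → Pr Q → 0 < ε →
  (∀ i < n, Pr (q i) ∧ En τ F u (q i) ≤ ε * rt τ (q i)) →
  ∑ i ∈ Finset.range n, rt τ (q i * Hi F u Q q i) ≤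
    100 * ∑ i ∈ Finset.range n, rt τ (q i * Hi F u Q q i * Hi F u Q q i) +
    21 * Real.sqrt ε * ∑ i ∈ Finset.range n, rt τ (q i)

/-! ## support projections and rounding -/

/-- Support projections of positive elements. -/
def StSupp : Prop := ∀ (N : Type) [CStarAlgebra N] [PartialOrder N] [StarOrderedRing N]
  (τ : N →ₗ[ℂ] ℂ), Trc τ → Cpl τ → ∀ b : N, 0 ≤ b → ∃ p, IsSupp b p

/-- Rounding, first form: a linear functional `τ(· X)`, `X ≤ 1`, bounded on the spectral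
projections of `a` above the level `t` is bounded at `a`. -/
def StRound1 : Prop := ∀ (N : Type) [CStarAlgebra N] [PartialOrder N] [StarOrderedRing N]
  (τ : N →ₗ[ℂ] ℂ) (ι : Type) (F : Finset ι) (u : ι → N) (a X r : N) (t B c : ℝ),
  Trc τ → Cpl τ → (∀ s, Un (u s)) → 0 ≤ a → a ≤ 1 → star X = X → X ≤ 1 →
  0 ≤ r → r ≤ 1 → 0 < t → t < 1 → 0 ≤ B → 0 ≤ c →
  (∀ p : N, Pr p → t • p ≤ a → rt τ (p * X) ≤ B + c * En τ F u p) →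
  rt τ (a * X) ≤ t * rt τ r + rt τ (a * (1 - r)) + B +
    c * Real.sqrt (2 * F.card * En τ F u a * rt τ a / t)

/-- Rounding, second form. -/
def StRound2 : Prop := ∀ (N : Type) [CStarAlgebra N] [PartialOrder N] [StarOrderedRing N]
  (τ : N →ₗ[ℂ] ℂ) (ι : Type) (F : Finset ι) (u : ι → N) (a : N),
  Trc τ → Cpl τ → (∀ s, Un (u s)) → 0 ≤ a → a ≤ 1 →
  ∃ p : N, Pr p ∧ p ≤ (4 : ℝ) • a ∧
    En τ F u p ≤ 2 * Real.sqrt (8 * F.card * En τ F u a * rt τ a) ∧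
    hs τ (a - p) ≤ 16 * hs τ (a - a * a) ∧
    ∀ q : N, Pr q → hs τ (p - q) ≤ 16 * hs τ (a - q)

/-- Perturbation of `y = (1-H) q (1-H)` to a positive `a` with the same trace. -/
def StPert : Prop := ∀ (N : Type) [CStarAlgebra N] [PartialOrder N] [StarOrderedRing N]
  (τ : N →ₗ[ℂ] ℂ) (H q a : N) (ζ ε : ℝ),
  Trc τ → 0 ≤ H → H ≤ 1 → Pr q → 0 ≤ a → rt τ a = rt τ ((1 - H) * q * (1 - H)) → 0 ≤ ζ →
  hs τ (a - (1 - H) * q * (1 - H)) ≤ ζ ^ 2 * rt τ q → 0 < ε →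
  ∃ r : N, 0 ≤ r ∧ r ≤ 1 ∧ rt τ r ≤ rt τ q ∧ rt τ (a * (1 - r)) ≤ ζ * rt τ q + ε ∧
    rt τ (a * H) ≤ rt τ ((1 - H) * q * (1 - H) * H) + 4 * ζ * rt τ q + ε

end Helper61.HT
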