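import Pool.Agent.Helper61.HT.LibN
import Pool.Agent.Helper61.HT.StA

/-!
# Module TT: facts about the averaging operator
-/

set_option linter.unusedSectionVars false

namespace Helper61.HT

open scoped ComplexOrder

section TTmod

variable {N : Type} [CStarAlgebra N] [PartialOrder N] [StarOrderedRing N] {τ : N →ₗ[ℂ] ℂ}
  {ι : Type}

private lemma tt_apply (F : Finset ι) (u : ι → N) (y : N) :
    TT F u y = (1 / 2 : ℝ) • y + (1 / (4 * F.card) : ℝ) •
    ∑ s ∈ F, (u s * y * star (u s) + star (u s) * y * u s) := rfl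

private lemma tt_succ (F : Finset ι) (u : ι → N) (k : ℕ) (y : N) :
    (TT F u ^ (k + 1)) y = (TT F u ^ k) (TT F u y) := by
  rw [pow_succ, Module.End.mul_apply]

private lemma tt_succ' (F : Finset ι) (u : ι → N) (k : ℕ) (y : N) :
    (TT F u ^ (k + 1)) y = TT F u ((TT F u ^ k) y) := by
  rw [pow_succ', Module.End.mul_apply]

private lemma tt_nonneg (F : Finset ι) (u : ι → N) (y : N) (hy : 0 ≤ y) :
    0 ≤ TT F u y := by
  rw [tt_apply]
  refine add_nonneg (smul_nonneg_real (by norm_num) hy) (smul_nonneg_real (by positivity) ?_)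
  exact Finset.sum_nonneg fun s _ => add_nonneg (conj_nonneg hy _) (conj_nonneg' hy _)

private lemma tt_one (F : Finset ι) (u : ι → N) (hF : F.Nonempty)
    (hu : ∀ s, Un (u s)) : TT F u 1 = 1 := by
  rw [tt_apply]
  have h1 : ∀ s ∈ F, u s * 1 * star (u s) + star (u s) * 1 * u s =
      (2 : ℝ) • (1 : N) := by
    intro s _
    rw [mul_one, mul_one, (hu s).2, (hu s).1, two_smul]
  have hg : (F.card : ℝ) ≠ 0 := by
    have := hF.card_pos
    positivity
  rw [Finset.sum_congr rfl h1, Finset.sum_const, ← Nat.cast_smul_eq_nsmul ℝ, smul_smul, smul_smul,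
    ← add_smul]
  have e : (1 / 2 + 1 / (4 * (F.card : ℝ)) * ((F.card : ℝ) * 2) : ℝ) = 1 := by
    field_simp
    norm_num
  have e' : (1 / 2 + 1 / (4 * (F.card : ℝ)) * (F.card : ℝ) * 2 : ℝ) = 1 := by
    rw [mul_assoc]
    exact e
  first
  | rw [e, one_smul]
  | rw [e', one_smul]

private lemma tt_tr (hτ : Trc τ) (F : Finset ι) (u : ι → N) (hF : F.Nonempty)
    (hu : ∀ s, Un (u s)) (y : N) : τ (TT F u y) = τ y := by
  rw [tt_apply, map_add, map_smul_real, map_smul_real, map_sum]
  have h1 : ∀ s ∈ F, τ (u s * y * star (u s) + star (u s) * y * u s) =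
      2 * τ y := by
    intro s _
    rw [map_add, hτ.tr (u s * y), ← mul_assoc, (hu s).1, one_mul, hτ.tr (star (u s) * y),
      ← mul_assoc, (hu s).2, one_mul]
    ring
  have hg : (F.card : ℂ) ≠ 0 := by
    have := hF.card_pos
    exact_mod_cast this.ne'
  rw [Finset.sum_congr rfl h1, Finset.sum_const, nsmul_eq_mul]
  push_cast
  field_simp
  ring

private lemma tt_symm (hτ : Trc τ) (F : Finset ι) (u : ι → N) (x y : N) :
    τ (x * TT F u y) = τ (TT F u x * y) := by
  rw [tt_apply, tt_apply, mul_add, add_mul, map_add, map_add, mul_smul_comm, smul_mul_assoc,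
    mul_smul_comm, smul_mul_assoc, map_smul_real, map_smul_real, map_smul_real, Finset.mul_sum,
    Finset.sum_mul, map_sum, map_sum]
  congr 2
  refine Finset.sum_congr rfl fun s _ => ?_
  rw [mul_add, add_mul, map_add, map_add]
  have e1 : τ (x * (u s * y * star (u s))) = τ (star (u s) * x * u s * y) := by
    rw [← mul_assoc, ← mul_assoc, hτ.tr]
    congr 1
    noncomm_ring
  have e2 : τ (x * (star (u s) * y * u s)) = τ (u s * x * star (u s) * y) := by
    rw [← mul_assoc, ← mul_assoc, hτ.tr]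
    congr 1
    noncomm_ring
  rw [e1, e2, add_comm]

private lemma tt_star (F : Finset ι) (u : ι → N) (y : N) :
    star (TT F u y) = TT F u (star y) := by
  rw [tt_apply, tt_apply, star_add, star_smul, star_smul, star_sum]
  simp only [star_trivial]
  congr 2
  refine Finset.sum_congr rfl fun s _ => ?_
  simp only [star_add, star_mul, star_star, mul_assoc]

private lemma tt_norm (F : Finset ι) (u : ι → N) (hF : F.Nonempty)
    (hu : ∀ s, Un (u s)) (y : N) : ‖TT F u y‖ ≤ ‖y‖ := by
  rw [tt_apply]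
  have hg : (0 : ℝ) < F.card := by
    have := hF.card_pos
    positivity
  have hn : ∀ s, ‖u s‖ ≤ 1 := fun s => norm_unit_le (hu s)
  have hn' : ∀ s, ‖star (u s)‖ ≤ 1 := fun s => norm_unit_le (hu s).star
  have h1 : ∀ s ∈ F, ‖u s * y * star (u s) + star (u s) * y * u s‖ ≤ 2 * ‖y‖ := by
    intro s _
    have h2 : ‖u s * y * star (u s)‖ ≤ ‖y‖ := by
      calc ‖u s * y * star (u s)‖ ≤ ‖u s‖ * ‖y‖ * ‖star (u s)‖ :=
            (norm_mul_le _ _).trans (mul_le_mul_of_nonneg_right (norm_mul_le _ _) (norm_nonneg _))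
        _ ≤ 1 * ‖y‖ * 1 := by
            gcongr
            · exact hn s
            · exact hn' s
        _ = ‖y‖ := by ring
    have h3 : ‖star (u s) * y * u s‖ ≤ ‖y‖ := by
      calc ‖star (u s) * y * u s‖ ≤ ‖star (u s)‖ * ‖y‖ * ‖u s‖ :=
            (norm_mul_le _ _).trans (mul_le_mul_of_nonneg_right (norm_mul_le _ _) (norm_nonneg _))
        _ ≤ 1 * ‖y‖ * 1 := by
            gcongr
            · exact hn' s
            · exact hn s
        _ = ‖y‖ := by ring
    calc _ ≤ ‖u s * y * star (u s)‖ + ‖star (u s) * y * u s‖ := norm_add_le _ _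
      _ ≤ 2 * ‖y‖ := by linarith
  have h2 : ‖∑ s ∈ F, (u s * y * star (u s) + star (u s) * y * u s)‖ ≤
      F.card * (2 * ‖y‖) := by
    refine (norm_sum_le _ _).trans ((Finset.sum_le_sum h1).trans ?_)
    rw [Finset.sum_const, nsmul_eq_mul]
  calc _ ≤ ‖(1 / 2 : ℝ) • y‖ + ‖(1 / (4 * F.card) : ℝ) •
        ∑ s ∈ F, (u s * y * star (u s) + star (u s) * y * u s)‖ := norm_add_le _ _
    _ = 1 / 2 * ‖y‖ + 1 / (4 * F.card) *
        ‖∑ s ∈ F, (u s * y * star (u s) + star (u s) * y * u s)‖ := by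
        rw [norm_smul, norm_smul, Real.norm_of_nonneg (by norm_num),
          Real.norm_of_nonneg (by positivity)]
    _ ≤ 1 / 2 * ‖y‖ + 1 / (4 * F.card) * (F.card * (2 * ‖y‖)) := by gcongr
    _ = ‖y‖ := by
        field_simp
        ring

private lemma sqrt_hs_sum_le (hτ : Trc τ) (F : Finset ι) (f : ι → N) :
    Real.sqrt (hs τ (∑ s ∈ F, f s)) ≤ ∑ s ∈ F, Real.sqrt (hs τ (f s)) := by
  classical
  induction F using Finset.induction_on with
  | empty => simp [hs_zero]
  | insert a F ha ih =>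
    rw [Finset.sum_insert ha, Finset.sum_insert ha]
    exact (sqrt_hs_add_le hτ _ _).trans (by linarith)

private lemma sqrt_hs_smul (c : ℝ) (hc : 0 ≤ c) (x : N) :
    Real.sqrt (hs τ (c • x)) = c * Real.sqrt (hs τ x) := by
  rw [hs_smul, Real.sqrt_mul (by positivity), Real.sqrt_sq hc]

private lemma tt_hs (hτ : Trc τ) (F : Finset ι) (u : ι → N) (hF : F.Nonempty)
    (hu : ∀ s, Un (u s)) (y : N) : hs τ (TT F u y) ≤ hs τ y := by
  have hg : (0 : ℝ) < F.card := by
    have := hF.card_pos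
    positivity
  have key : Real.sqrt (hs τ (TT F u y)) ≤ Real.sqrt (hs τ y) := by
    rw [tt_apply]
    have h1 : ∀ s ∈ F, Real.sqrt (hs τ (u s * y * star (u s) +
        star (u s) * y * u s)) ≤ 2 * Real.sqrt (hs τ y) := by
      intro s _
      have h2 : hs τ (u s * y * star (u s)) = hs τ y := by
        rw [hs_mul_unit hτ (hu s).star, hs_unit_mul (hu s)]
      have h3 : hs τ (star (u s) * y * u s) = hs τ y := by
        rw [hs_mul_unit hτ (hu s), hs_unit_mul (hu s).star]
      have h4 := sqrt_hs_add_le hτ (u s * y * star (u s)) (star (u s) * y * u s)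
      rw [h2, h3] at h4
      linarith
    have h2 := (sqrt_hs_sum_le hτ F fun s => u s * y * star (u s) +
        star (u s) * y * u s).trans (Finset.sum_le_sum h1)
    rw [Finset.sum_const, nsmul_eq_mul] at h2
    calc _ ≤ Real.sqrt (hs τ ((1 / 2 : ℝ) • y)) + Real.sqrt (hs τ ((1 / (4 * F.card) : ℝ) •
          ∑ s ∈ F, (u s * y * star (u s) + star (u s) * y * u s))) :=
          sqrt_hs_add_le hτ _ _
      _ = 1 / 2 * Real.sqrt (hs τ y) + 1 / (4 * F.card) * Real.sqrt (hs τ
          (∑ s ∈ F, (u s * y * star (u s) + star (u s) * y * u s))) := by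
          rw [sqrt_hs_smul _ (by norm_num), sqrt_hs_smul _ (by positivity)]
      _ ≤ 1 / 2 * Real.sqrt (hs τ y) + 1 / (4 * F.card) * (F.card * (2 * Real.sqrt (hs τ y))) := by
          gcongr
      _ = Real.sqrt (hs τ y) := by
          field_simp
          ring
  exact (Real.sqrt_le_sqrt_iff (hs_nonneg hτ y)).1 key

private lemma pw_symm (hτ : Trc τ) (F : Finset ι) (u : ι → N) (k : ℕ) : ∀ x y : N,
    τ (x * (TT F u ^ k) y) = τ ((TT F u ^ k) x * y) := by
  induction k with
  | zero => intro x y; simp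
  | succ k ih => intro x y; rw [tt_succ, ih, tt_symm hτ, ← tt_succ']

private lemma pw_star (F : Finset ι) (u : ι → N) (k : ℕ) : ∀ y : N,
    star ((TT F u ^ k) y) = (TT F u ^ k) (star y) := by
  induction k with
  | zero => intro y; simp
  | succ k ih => intro y; rw [tt_succ, ih, tt_star, ← tt_succ]

/-! ### energy -/

variable {F : Finset ι} {u : ι → N}

private lemma en_swap (hτ : Trc τ) (v y : N) :
    rt τ (star y * (star v * y * v)) = rt τ (star y * (v * y * star v)) := by
  rw [← rt_star hτ]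
  have e : star (star y * (star v * y * v)) = star v * (star y * (v * y)) := by
    simp only [star_mul, star_star, mul_assoc]
  rw [e, rt_mul_comm hτ]
  simp only [mul_assoc]

private lemma en_term (hτ : Trc τ) {v : N} (hv : Un v) (y : N) :
    hs τ (v * y - y * v) = 2 * hs τ y - 2 * rt τ (star y * (v * y * star v)) := by
  rw [hs_comm_unit hτ hv, hs_eq_rt, star_sub, sub_mul, mul_sub, mul_sub, rt_sub,
    rt_sub, rt_sub, ← hs_eq_rt, ← hs_eq_rt]
  have h1 : hs τ (v * y * star v) = hs τ y := by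
    rw [hs_mul_unit hτ hv.star, hs_unit_mul hv]
  have h2 : rt τ (star (v * y * star v) * y) = rt τ (star y * (v * y * star v)) := by
    rw [← rt_star hτ, star_mul, star_star]
  rw [h1, h2]
  ring

private lemma en_TT (hτ : Trc τ) (y : N) : rt τ (star y * TT F u y) =
    1 / 2 * hs τ y + 1 / (4 * F.card) *
      ∑ s ∈ F, 2 * rt τ (star y * (u s * y * star (u s))) := by
  rw [tt_apply, mul_add, mul_smul_comm, mul_smul_comm, rt_add, rt_smul, rt_smul, ← hs_eq_rt,
    Finset.mul_sum, rt_sum]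
  congr 2
  refine Finset.sum_congr rfl fun s _ => ?_
  rw [mul_add, rt_add, en_swap hτ]
  ring

private lemma en_eq' (hτ : Trc τ) (hF : F.Nonempty) (hu : ∀ s, Un (u s)) (y : N) :
    En τ F u y = 4 * F.card * (hs τ y - rt τ (star y * TT F u y)) := by
  have hc : (0 : ℝ) < F.card := by exact_mod_cast hF.card_pos
  have h1 : En τ F u y = ∑ s ∈ F,
      (2 * hs τ y - 2 * rt τ (star y * (u s * y * star (u s)))) :=
    Finset.sum_congr rfl fun s _ => en_term hτ (hu s) y
  rw [h1, en_TT hτ, Finset.sum_sub_distrib, Finset.sum_const, nsmul_eq_mul]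
  field_simp
  ring

private lemma en_form_nonneg (hτ : Trc τ) (hF : F.Nonempty) (hu : ∀ s, Un (u s)) (x : N) :
    0 ≤ rt τ (star x * TT F u x) := by
  have hc : (0 : ℝ) < F.card := by exact_mod_cast hF.card_pos
  rw [en_TT hτ]
  have h1 : ∀ s ∈ F, -(2 * hs τ x) ≤ 2 * rt τ (star x * (u s * x * star (u s))) := by
    intro s _
    have h2 := abs_rt_mul_le hτ (star x) (u s * x * star (u s))
    have h3 : hs τ (u s * x * star (u s)) = hs τ x := by
      rw [hs_mul_unit hτ (hu s).star, hs_unit_mul (hu s)]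
    rw [h3, hs_star hτ, Real.mul_self_sqrt (hs_nonneg hτ x)] at h2
    have h4 := (abs_le.1 h2).1
    linarith
  have h2 := Finset.sum_le_sum h1
  rw [Finset.sum_const, nsmul_eq_mul] at h2
  have h3 : 1 / (4 * F.card) * (F.card * -(2 * hs τ x)) ≤ 1 / (4 * F.card) *
      ∑ s ∈ F, 2 * rt τ (star x * (u s * x * star (u s))) :=
    mul_le_mul_of_nonneg_left h2 (by positivity)
  have h4 : 1 / (4 * F.card) * (F.card * -(2 * hs τ x)) = -(1 / 2 * hs τ x) := by
    field_simp
    ring
  linarith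

/-- moments -/
private lemma en_mom (hτ : Trc τ) (y : N) (a b : ℕ) :
    rt τ (star ((TT F u ^ a) y) * (TT F u ^ b) y) =
      rt τ (star y * (TT F u ^ (a + b)) y) := by
  unfold rt
  rw [pw_star, ← pw_symm hτ, pow_add]
  rfl

private lemma en_mom1 (hτ : Trc τ) (y : N) (a b : ℕ) :
    rt τ (star ((TT F u ^ a) y) * TT F u ((TT F u ^ b) y)) =
      rt τ (star y * (TT F u ^ (a + b + 1)) y) := by
  have h1 : TT F u ((TT F u ^ b) y) = (TT F u ^ (b + 1)) y := by
    rw [pow_succ']
    rfl
  rw [h1, en_mom hτ]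
  rfl

private lemma en_conv (hτ : Trc τ) (hF : F.Nonempty) (hu : ∀ s, Un (u s)) (y : N) (j : ℕ) :
    0 ≤ rt τ (star y * (TT F u ^ j) y) - 2 * rt τ (star y * (TT F u ^ (j + 1)) y) +
      rt τ (star y * (TT F u ^ (j + 2)) y) := by
  obtain ⟨i, hi | hi⟩ := Nat.even_or_odd' j
  · have h1 := hs_nonneg hτ ((TT F u ^ i) y - (TT F u ^ (i + 1)) y)
    rw [hs_eq_rt, star_sub, sub_mul, mul_sub, mul_sub, rt_sub, rt_sub, rt_sub,
      en_mom hτ, en_mom hτ, en_mom hτ, en_mom hτ] at h1
    have e1 : i + i = j := by omega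
    have e2 : i + (i + 1) = j + 1 := by omega
    have e3 : i + 1 + i = j + 1 := by omega
    have e4 : i + 1 + (i + 1) = j + 2 := by omega
    rw [e1, e2, e3, e4] at h1
    linarith
  · have h1 := en_form_nonneg hτ hF hu ((TT F u ^ i) y - (TT F u ^ (i + 1)) y)
    rw [star_sub, map_sub, sub_mul, mul_sub, mul_sub, rt_sub, rt_sub, rt_sub,
      en_mom1 hτ, en_mom1 hτ, en_mom1 hτ, en_mom1 hτ] at h1
    have e1 : i + i + 1 = j := by omega
    have e2 : i + (i + 1) + 1 = j + 1 := by omega
    have e3 : i + 1 + i + 1 = j + 1 := by omega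
    have e4 : i + 1 + (i + 1) + 1 = j + 2 := by omega
    rw [e1, e2, e3, e4] at h1
    linarith

private lemma mom_nonneg (hτ : Trc τ) (hF : F.Nonempty) (hu : ∀ s, Un (u s)) (y : N) (j : ℕ) :
    0 ≤ rt τ (star y * (TT F u ^ j) y) := by
  obtain ⟨i, hi | hi⟩ := Nat.even_or_odd' j
  · have h1 := hs_nonneg hτ ((TT F u ^ i) y)
    rw [hs_eq_rt, en_mom hτ] at h1
    have e1 : i + i = j := by omega
    rwa [e1] at h1
  · have h1 := en_form_nonneg hτ hF hu ((TT F u ^ i) y)
    rw [en_mom1 hτ] at h1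
    have e1 : i + i + 1 = j := by omega
    rwa [e1] at h1

/-- the differences of the moments are nonincreasing -/
private lemma dif_anti (hτ : Trc τ) (hF : F.Nonempty) (hu : ∀ s, Un (u s)) (y : N) (i j : ℕ)
    (hij : i ≤ j) :
    rt τ (star y * (TT F u ^ j) y) - rt τ (star y * (TT F u ^ (j + 1)) y) ≤
      rt τ (star y * (TT F u ^ i) y) - rt τ (star y * (TT F u ^ (i + 1)) y) := by
  induction j, hij using Nat.le_induction with
  | base => exact le_rfl
  | succ j _ ih =>
    have := en_conv hτ hF hu y j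
    linarith

/-- the moments are nonincreasing -/
private lemma mom_succ_le (hτ : Trc τ) (hF : F.Nonempty) (hu : ∀ s, Un (u s)) (y : N) (j : ℕ) :
    rt τ (star y * (TT F u ^ (j + 1)) y) ≤ rt τ (star y * (TT F u ^ j) y) := by
  obtain ⟨i, hi | hi⟩ := Nat.even_or_odd' j
  · -- `j = 2 i`: energy of `T^i y`
    have h1 := en_eq' hτ hF hu ((TT F u ^ i) y)
    have h2 : 0 ≤ En τ F u ((TT F u ^ i) y) := En_nonneg hτ F u _
    rw [h1, hs_eq_rt, en_mom hτ, en_mom1 hτ] at h2
    have e1 : i + i = j := by omega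
    rw [e1] at h2
    have hc : (0 : ℝ) < F.card := by exact_mod_cast hF.card_pos
    have h3 := nonneg_of_mul_nonneg_right h2 (by positivity)
    linarith
  · -- `j = 2 i + 1`: use the even case for `j + 1`
    have h1 := en_eq' hτ hF hu ((TT F u ^ (i + 1)) y)
    have h2 : 0 ≤ En τ F u ((TT F u ^ (i + 1)) y) := En_nonneg hτ F u _
    rw [h1, hs_eq_rt, en_mom hτ, en_mom1 hτ] at h2
    have e1 : i + 1 + (i + 1) = j + 1 := by omega
    rw [e1] at h2
    have hc : (0 : ℝ) < F.card := by exact_mod_cast hF.card_pos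
    have h3 := nonneg_of_mul_nonneg_right h2 (by positivity)
    have h4 := en_conv hτ hF hu y j
    have e2 : j + 1 + 1 = j + 2 := by omega
    rw [e2] at h3
    linarith

private lemma mom_anti (hτ : Trc τ) (hF : F.Nonempty) (hu : ∀ s, Un (u s)) (y : N) (i j : ℕ)
    (hij : i ≤ j) :
    rt τ (star y * (TT F u ^ j) y) ≤ rt τ (star y * (TT F u ^ i) y) := by
  induction j, hij using Nat.le_induction with
  | base => exact le_rfl
  | succ j _ ih => exact (mom_succ_le hτ hF hu y j).trans ih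

private lemma en_pow' (hτ : Trc τ) (hF : F.Nonempty) (hu : ∀ s, Un (u s)) (k : ℕ) (y : N) :
    En τ F u ((TT F u ^ k) y) ≤ 4 * F.card * hs τ y / (2 * k + 1) := by
  have hc : (0 : ℝ) < F.card := by exact_mod_cast hF.card_pos
  set m : ℕ → ℝ := fun j => rt τ (star y * (TT F u ^ j) y) with hm
  have hmono : ∀ i j, i ≤ j → m j - m (j + 1) ≤ m i - m (i + 1) :=
    fun i j hij => dif_anti hτ hF hu y i j hij
  have hsum : ∀ J : ℕ, ∑ j ∈ Finset.range J, (m j - m (j + 1)) = m 0 - m J :=
    fun J => Finset.sum_range_sub' m J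
  have h0 : m 0 = hs τ y := by
    simp only [hm, pow_zero]
    rw [hs_eq_rt]
    rfl
  have hlast : 0 ≤ m (2 * k + 1) := mom_nonneg hτ hF hu y (2 * k + 1)
  have h1 : ((2 * k + 1 : ℕ) : ℝ) * (m (2 * k) - m (2 * k + 1)) ≤ hs τ y := by
    have h2 : ∑ _j ∈ Finset.range (2 * k + 1), (m (2 * k) - m (2 * k + 1)) ≤
        ∑ j ∈ Finset.range (2 * k + 1), (m j - m (j + 1)) :=
      Finset.sum_le_sum fun j hj => hmono j (2 * k) (by have := Finset.mem_range.1 hj; omega)
    rw [Finset.sum_const, Finset.card_range, nsmul_eq_mul, hsum, h0] at h2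
    linarith
  have h2 : En τ F u ((TT F u ^ k) y) = 4 * F.card * (m (2 * k) - m (2 * k + 1)) := by
    rw [en_eq' hτ hF hu, hs_eq_rt, en_mom hτ, en_mom1 hτ]
    have e1 : k + k = 2 * k := by omega
    rw [e1]
  rw [h2, le_div_iff₀ (by positivity)]
  push_cast at h1
  nlinarith

private lemma gap' (hτ : Trc τ) (hF : F.Nonempty) (hu : ∀ s, Un (u s)) (k : ℕ) (y : N) :
    hs τ (y - (TT F u ^ k) y) ≤ hs τ y - hs τ ((TT F u ^ k) y) := by
  have h0 : rt τ (star y * y) = rt τ (star y * (TT F u ^ 0) y) := by rw [pow_zero]; rfl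
  have h1 : hs τ (y - (TT F u ^ k) y) = hs τ y - 2 * rt τ (star y * (TT F u ^ k) y) +
      hs τ ((TT F u ^ k) y) := by
    rw [hs_eq_rt, star_sub, sub_mul, mul_sub, mul_sub, rt_sub, rt_sub, rt_sub, ← hs_eq_rt,
      ← hs_eq_rt]
    have h2 : rt τ (star ((TT F u ^ k) y) * y) = rt τ (star y * (TT F u ^ k) y) := by
      rw [← rt_star hτ, star_mul, star_star]
    rw [h2]
    ring
  have h3 : hs τ ((TT F u ^ k) y) ≤ rt τ (star y * (TT F u ^ k) y) := by
    rw [hs_eq_rt, en_mom hτ]
    exact mom_anti hτ hF hu y k (k + k) (by omega)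
  rw [h1]
  linarith

end TTmod

theorem pTT : StTT := by
  intro N _ _ _ τ ι F u hτ hF hu
  refine ⟨?_, ?_, ?_, pw_symm hτ F u, pw_star F u, ?_, ?_, fun k y => mom_nonneg hτ hF hu y k,
    fun k y => gap' hτ hF hu k y, en_eq' hτ hF hu, en_pow' hτ hF hu⟩
  · intro k
    induction k with
    | zero => intro y hy; simpa using hy
    | succ k ih => intro y hy; rw [tt_succ]; exact ih _ (tt_nonneg F u y hy)
  · intro k
    induction k with
    | zero => simp
    | succ k ih => rw [tt_succ, tt_one F u hF hu, ih]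
  · intro k
    induction k with
    | zero => intro y; simp
    | succ k ih => intro y; rw [tt_succ, ih, tt_tr hτ F u hF hu]
  · intro k
    induction k with
    | zero => intro y; simp
    | succ k ih => intro y; rw [tt_succ]; exact (ih _).trans (tt_norm F u hF hu y)
  · intro k
    induction k with
    | zero => intro y; simp
    | succ k ih => intro y; rw [tt_succ]; exact (ih _).trans (tt_hs hτ F u hF hu y)

end Helper61.HT
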