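import Pool.Agent.Helper61.HT.StE
import Pool.Agent.Helper61.HT.LibN

/-!
# Project HT: the unitality lemma `StUL`
-/

set_option linter.unusedSectionVars false

namespace Helper61.HT

open scoped ComplexOrder

section

variable {N : Type} [CStarAlgebra N] [PartialOrder N] [StarOrderedRing N] {τ : N →ₗ[ℂ] ℂ}
  {ι : Type}

private lemma ul_hsf_nonneg {m : ℕ} (v : Fin m → N) : 0 ≤ hsf τ v := by
  unfold hsf
  positivity

private lemma ul_scp_zero : SCP τ (0 : N →ₗ[ℂ] N) where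
  map_star x := by simp
  nonneg x _ := by simp
  cp m x y := by simp
  symm x y := by simp
  pos x := by simp [rt]
  one := by
    rw [LinearMap.zero_apply]
    exact Pr.one.nonneg

private lemma ul_le_q {q c : N} (hq : Pr q) (hc : q * c = c) (hn : ‖c‖ ≤ 1) :
    c * star c ≤ q := by
  have h := conj_mono (mul_star_le_one hn) q
  rw [hq.1, mul_one, hq.2] at h
  have h1 : star c * q = star c := by
    have := congrArg star hc
    rwa [star_mul, hq.1] at this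
  calc c * star c = q * (c * star c) * q := by
        rw [← mul_assoc, hc, mul_assoc, h1]
    _ ≤ q := h

private lemma ul_cyc (hτ : Trc τ) (c x : N) :
    rt τ (c * x * star c) = rt τ (star c * c * x) := by
  rw [rt_cycle hτ]

/-- `τθ(1) ≥ τψ(1) - 2τ(W)`. -/
private lemma ul_theta (hτ : Trc τ) {q c : N} {ψ : N →ₗ[ℂ] N} (hq : Pr q) (hψ : SCP τ ψ)
    (hcut : ∀ x, ψ x = q * ψ (q * x * q) * q) (hψq : ψ 1 ≤ q)
    (hcq : c * q = c) (hn : ‖c‖ ≤ 1) :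
    rt τ (ψ 1) - 2 * (rt τ q - hs τ c) ≤ rt τ ((Cj c ψ) 1) := by
  have hsc : q * star c = star c := by
    have := congrArg star hcq
    rwa [star_mul, hq.1] at this
  have hW0 : star c * c ≤ q := by
    have h := ul_le_q hq hsc (by rwa [norm_star])
    rwa [star_star] at h
  have hW : 0 ≤ q - star c * c := sub_nonneg.2 hW0
  set W := q - star c * c with hWdef
  have hcc : star c * c = q - W := by rw [hWdef]; abel
  have hψ0 : 0 ≤ ψ 1 := hψ.nonneg 1 Pr.one.nonneg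
  have hψqe : ψ q = ψ 1 := by
    rw [hcut q, hcut 1, mul_one, hq.2, hq.2]
  have e1 : rt τ ((Cj c ψ) 1) = rt τ ((q - W) * ψ (q - W)) := by
    rw [Cj_apply, mul_one, ul_cyc hτ, hcc]
  have e2 : (q - W) * ψ (q - W) = q * ψ 1 - q * ψ W - W * ψ 1 + W * ψ W := by
    rw [map_sub, hψqe]; noncomm_ring
  have e3 : q * ψ 1 = ψ 1 := (hq.absorb hψ0 hψq).2
  have e4 : rt τ (q * ψ W) = rt τ (ψ 1 * W) := by
    have h := hψ.symm q W
    rw [hψqe] at h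
    unfold rt
    rw [h]
  have e5 : rt τ (W * ψ 1) = rt τ (ψ 1 * W) := rt_mul_comm hτ _ _
  have e6 : rt τ (ψ 1 * W) ≤ rt τ W := by
    have := rt_mul_mono hτ hψ.one hW
    rwa [one_mul] at this
  have e7 : 0 ≤ rt τ (W * ψ W) := rt_mul_nonneg hτ hW (hψ.nonneg W hW)
  have e8 : rt τ W = rt τ q - hs τ c := by rw [hWdef, rt_sub, hs_eq_rt]
  rw [e1, e2, e3, rt_add, rt_sub, rt_sub, e4, e5]
  linarith

/-- `q₁ ≤ 4 q` implies `q₁ ≤ q`. -/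
private lemma ul_proj (hτ : Trc τ) {q q₁ : N} (hq : Pr q) (hq1 : Pr q₁)
    (h : q₁ ≤ (4 : ℝ) • q) : q * q₁ = q₁ := by
  have hp := hq.one_sub
  have h1 := conj_mono' h (1 - q)
  rw [hp.1, mul_smul_comm, smul_mul_assoc] at h1
  have h2 : (1 - q) * q * (1 - q) = 0 := by
    rw [sub_mul, one_mul, hq.2, sub_self, zero_mul]
  rw [h2, smul_zero] at h1
  have h3 : hs τ (q₁ * (1 - q)) = rt τ ((1 - q) * q₁ * (1 - q)) := by
    rw [hs_eq_rt, star_mul, hp.1, hq1.1]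
    congr 1
    calc (1 - q) * q₁ * (q₁ * (1 - q)) = (1 - q) * (q₁ * q₁) * (1 - q) := by noncomm_ring
      _ = _ := by rw [hq1.2]
  have h4 : hs τ (q₁ * (1 - q)) ≤ 0 := by
    rw [h3]
    have := rt_mono hτ h1
    rwa [rt_zero] at this
  have h5 := hs_eq_zero hτ (le_antisymm h4 (hs_nonneg hτ _))
  rw [mul_sub, mul_one, sub_eq_zero] at h5
  have h6 := congrArg star h5
  rw [star_mul, hq.1, hq1.1] at h6
  exact h6.symm

section phi

variable {φ : N →ₗ[ℂ] N} {q₁ : N}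

private lemma ul_cut1 (hq : Pr q₁) (hcut : ∀ x, φ x = q₁ * φ (q₁ * x * q₁) * q₁) (x : N) :
    φ (q₁ * x * q₁) = φ x := by
  have h : q₁ * (q₁ * x * q₁) * q₁ = q₁ * x * q₁ := by
    calc q₁ * (q₁ * x * q₁) * q₁ = (q₁ * q₁) * x * (q₁ * q₁) := by noncomm_ring
      _ = _ := by rw [hq.2]
  rw [hcut (q₁ * x * q₁), h, ← hcut x]

private lemma ul_cut2 (hq : Pr q₁) (hcut : ∀ x, φ x = q₁ * φ (q₁ * x * q₁) * q₁) (x : N) :
    q₁ * φ x * q₁ = φ x := by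
  conv_rhs => rw [hcut x]
  rw [ul_cut1 hq hcut]

private lemma ul_cut3 (hq : Pr q₁) (hcut : ∀ x, φ x = q₁ * φ (q₁ * x * q₁) * q₁) (x : N) :
    φ x * q₁ = φ x := by
  rw [← ul_cut2 hq hcut x, mul_assoc, hq.2]

private lemma ul_cut (hq : Pr q₁) (hcut : ∀ x, φ x = q₁ * φ (q₁ * x * q₁) * q₁) (x : N) :
    (φ ∘ₗ φ ∘ₗ φ) x = q₁ * (φ ∘ₗ φ ∘ₗ φ) (q₁ * x * q₁) * q₁ := by
  simp only [LinearMap.comp_apply]
  rw [ul_cut1 hq hcut, ul_cut2 hq hcut]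

private lemma ul_mono (hφ : SCP τ φ) {x y : N} (h : x ≤ y) : φ x ≤ φ y := by
  have := hφ.nonneg _ (sub_nonneg.2 h)
  rw [map_sub] at this
  exact sub_nonneg.1 this

private lemma ul_one (hφ : SCP τ φ) (h1 : φ 1 ≤ q₁) : (φ ∘ₗ φ ∘ₗ φ) 1 ≤ q₁ := by
  simp only [LinearMap.comp_apply]
  exact (ul_mono hφ (ul_mono hφ hφ.one)).trans ((ul_mono hφ hφ.one).trans h1)

private lemma ul_rt_le (hτ : Trc τ) (hφ : SCP τ φ) {k : N} (hk : 0 ≤ k) :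
    rt τ (φ k) ≤ rt τ k := by
  have h := hφ.symm 1 k
  rw [one_mul] at h
  have e : rt τ (φ k) = rt τ (φ 1 * k) := by unfold rt; rw [h]
  rw [e]
  have := rt_mul_mono hτ hφ.one hk
  rwa [one_mul] at this

private lemma ul_trace (hτ : Trc τ) (hq : Pr q₁) (hφ : SCP τ φ)
    (hcut : ∀ x, φ x = q₁ * φ (q₁ * x * q₁) * q₁) (h1 : φ 1 ≤ q₁) :
    rt τ q₁ - rt τ ((φ ∘ₗ φ ∘ₗ φ) 1) ≤ 3 * (rt τ q₁ - rt τ (φ 1)) := by
  have hk : 0 ≤ q₁ - φ 1 := sub_nonneg.2 h1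
  have hqe : φ q₁ = φ 1 := by
    have := ul_cut1 hq hcut 1
    rwa [mul_one, hq.2] at this
  have e1 : φ (φ 1) = φ 1 - φ (q₁ - φ 1) := by rw [map_sub, hqe]; abel
  have e2 : φ (φ (φ 1)) = φ (φ 1) - φ (φ (q₁ - φ 1)) := by
    conv_lhs => rw [e1]
    rw [map_sub]
  have h2 := ul_rt_le hτ hφ hk
  have h3 := ul_rt_le hτ hφ (hφ.nonneg _ hk)
  have e1' : rt τ (φ (φ 1)) = rt τ (φ 1) - rt τ (φ (q₁ - φ 1)) := by
    conv_lhs => rw [e1]
    rw [rt_sub]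
  have e2' : rt τ (φ (φ (φ 1))) = rt τ (φ (φ 1)) - rt τ (φ (φ (q₁ - φ 1))) := by
    conv_lhs => rw [e2]
    rw [rt_sub]
  have e3 : rt τ (q₁ - φ 1) = rt τ q₁ - rt τ (φ 1) := rt_sub _ _
  simp only [LinearMap.comp_apply]
  rw [e2', e1']
  linarith

/-- Energy of `φ³`, one unitary. -/
private lemma ul_en1 (hphi : StPhi) (hτ : Trc τ) (hq : Pr q₁) (hφ : SCP τ φ)
    (hcut : ∀ x, φ x = q₁ * φ (q₁ * x * q₁) * q₁) {τ₀ : ℝ} (hq0 : rt τ q₁ ≤ τ₀)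
    (v : N) (hv : Un v) :
    2 * (rt τ ((φ ∘ₗ φ ∘ₗ φ) 1) - rt τ (star v * (φ ∘ₗ φ ∘ₗ φ) v)) ≤
      6 * Real.sqrt (τ₀ * (2 * (rt τ (φ 1) - rt τ (star v * φ v)))) := by
  obtain ⟨hP1, -, hP3, -⟩ := hphi N τ φ hτ hφ
  set e := 2 * (rt τ (φ 1) - rt τ (star v * φ v)) with he
  have hτ0 : 0 ≤ τ₀ := (hq.rt_nonneg hτ).trans hq0
  simp only [LinearMap.comp_apply]
  -- commutators
  have hc : ∀ x : N, ‖x‖ ≤ 1 → Real.sqrt (hs τ (v * φ x - φ (v * x))) ≤ Real.sqrt e := by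
    intro x hx
    refine Real.sqrt_le_sqrt ?_
    rw [hs_sub_comm]
    have h := (hP3 v x hv).1
    have h0 : 0 ≤ e := by
      have h1 := (hP3 v 1 hv).1
      have h2 := hs_nonneg hτ (φ (v * 1) - v * φ 1)
      have h3 : 0 ≤ ‖(1 : N)‖ ^ 2 * e := h2.trans h1
      rcases subsingleton_or_nontrivial N with hn | hn
      · have : ∀ y : N, y = 0 := fun y => Subsingleton.elim _ _
        rw [he, this (φ 1), this (star v * φ v), rt_zero]; norm_num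
      · have h4 : ‖(1 : N)‖ = 1 := CStarRing.norm_one
        rw [h4] at h3; linarith
    refine h.trans ?_
    rw [← he]
    have h5 : ‖x‖ ^ 2 ≤ 1 := by nlinarith [norm_nonneg x]
    nlinarith
  have hcon : ∀ x : N, Real.sqrt (hs τ (φ x)) ≤ Real.sqrt (hs τ x) :=
    fun x => Real.sqrt_le_sqrt (hP1 x).1
  have h10 : 0 ≤ φ 1 := hφ.nonneg 1 Pr.one.nonneg
  have h20 : 0 ≤ φ (φ 1) := hφ.nonneg _ h10
  have h21 : φ (φ 1) ≤ 1 := (ul_mono hφ hφ.one).trans hφ.one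
  have hn1 : ‖(1 : N)‖ ≤ 1 := Pr.one.norm_le
  have hn2 : ‖φ 1‖ ≤ 1 := norm_le_one_of_nonneg h10 hφ.one
  have hn3 : ‖φ (φ 1)‖ ≤ 1 := norm_le_one_of_nonneg h20 h21
  set z := v * φ (φ (φ 1)) - φ (φ (φ v)) with hz
  have hz1 : z = (v * φ (φ (φ 1)) - φ (v * φ (φ 1))) +
      (φ (v * φ (φ 1) - φ (v * φ 1)) + φ (φ (v * φ 1 - φ (v * 1)))) := by
    rw [hz]
    simp only [map_sub, mul_one]
    abel
  have hz2 : Real.sqrt (hs τ z) ≤ 3 * Real.sqrt e := by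
    rw [hz1]
    refine (sqrt_hs_add_le hτ _ _).trans ?_
    have a1 := hc _ hn3
    have a2 := sqrt_hs_add_le hτ (φ (v * φ (φ 1) - φ (v * φ 1))) (φ (φ (v * φ 1 - φ (v * 1))))
    have a3 := (hcon (v * φ (φ 1) - φ (v * φ 1))).trans (hc _ hn2)
    have a4 := (hcon (φ (v * φ 1 - φ (v * 1)))).trans
      ((hcon (v * φ 1 - φ (v * 1))).trans (hc _ hn1))
    linarith
  have hzq : z * q₁ = z := by
    rw [hz, sub_mul, mul_assoc, ul_cut3 hq hcut, ul_cut3 hq hcut]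
  have e1 : rt τ (φ (φ (φ 1))) - rt τ (star v * φ (φ (φ v))) = rt τ (q₁ * star v * z) := by
    have : rt τ (q₁ * star v * z) = rt τ (star v * z) := by
      rw [← rt_cycle hτ, mul_assoc, hzq]
    rw [this, hz, mul_sub, rt_sub, ← mul_assoc, hv.1, one_mul]
  have e2 := rt_mul_le hτ (q₁ * star v) z
  have e3 : hs τ (q₁ * star v) = rt τ q₁ := by
    rw [hs_mul_unit hτ hv.star, hq.hs]
  rw [e3] at e2
  have e4 : Real.sqrt (rt τ q₁) ≤ Real.sqrt τ₀ := Real.sqrt_le_sqrt hq0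
  have e5 : Real.sqrt (rt τ q₁) * Real.sqrt (hs τ z) ≤ Real.sqrt τ₀ * (3 * Real.sqrt e) :=
    mul_le_mul e4 hz2 (Real.sqrt_nonneg _) (Real.sqrt_nonneg _)
  rw [e1, Real.sqrt_mul hτ0]
  nlinarith

end phi

end

theorem pUL (h₁ : StScp) (h₂ : StComp) (h₃ : StEnM) (h₄ : StPhi) (h₅ : StCost) (h₆ : StIter)
    (h₇ : StRound2) : StUL := by
  intro g ε₁ hg hε₁
  obtain ⟨J, hJ⟩ : ∃ J : ℕ, (J : ℝ) = 16 * 10 ^ 20 := ⟨16 * 10 ^ 20, by norm_num⟩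
  have hJ0 : 0 < J := by
    have : (0 : ℝ) < J := by rw [hJ]; positivity
    exact_mod_cast this
  have hgR : (0 : ℝ) < g := by exact_mod_cast hg
  obtain ⟨e₀, he₀, hIter⟩ := h₆ J g ((ε₁ / (6 * g)) ^ 2) hJ0 (by positivity)
  set mm := min e₀ ε₁ with hmm
  have hmm0 : 0 < mm := lt_min he₀ hε₁
  refine ⟨min (mm ^ 2 / (1152 * g)) (e₀ / 9), lt_min (by positivity) (by positivity), ?_⟩
  intro N _ _ _ τ ι F u q c ψ hτ hC hF hu hq hψ hcut hψq hψt hcq hcn hct hEq hEψ hEc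
  have hFn : F.Nonempty := Finset.card_pos.1 (by omega)
  set ε₀ := min (mm ^ 2 / (1152 * g)) (e₀ / 9) with hε₀
  have hε₀0 : 0 < ε₀ := lt_min (by positivity) (by positivity)
  have hε₀1 : ε₀ ≤ mm ^ 2 / (1152 * g) := min_le_left _ _
  have hε₀2 : ε₀ ≤ e₀ / 9 := min_le_right _ _
  set τ₀ := rt τ q with hτ₀
  have haa : (0 : ℝ) < aa := by unfold aa; positivity
  have hτ₀0 : 0 ≤ τ₀ := hq.rt_nonneg hτ
  rcases hτ₀0.eq_or_lt with h0 | hpos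
  · -- trivial case
    have hq0 : q = 0 := by
      refine hs_eq_zero hτ ?_
      rw [hq.hs, ← hτ₀, ← h0]
    refine ⟨0, 0, Pr.zero, by rw [hq0], ul_scp_zero, fun x => by simp, by simp, ?_, ?_, ?_, ?_,
      ?_⟩
    · rw [← h0, rt_zero]; norm_num
    · rw [← h0, LinearMap.zero_apply, rt_zero]; norm_num
    · rw [← h0]
      simp [En, hs_zero]
    · rw [← h0]
      simp [EnM, rt_zero]
    · intro m E _
      refine ⟨0, Fin.elim0, ⟨fun x => ?_, fun x => ?_⟩, ?_⟩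
      · rw [LinearMap.zero_apply, mul_zero, rt_zero]
        have := hs_nonneg hτ x
        simp only [dfm, Finset.univ_eq_empty, Finset.sum_empty, add_zero]
        positivity
      · have := hs_nonneg hτ x
        simp only [dfm, Finset.univ_eq_empty, Finset.sum_empty]
        positivity
      · have h1 := ul_hsf_nonneg (τ := τ) E
        simp only [hsf, Finset.univ_eq_empty, Finset.sum_empty] at h1 ⊢
        positivity
  -- main case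
  have hqc : q * c = c := by
    calc q * c = (q * q) * c * q := by
          conv_lhs => rw [← hcq]
          noncomm_ring
      _ = c := by rw [hq.2, hcq]
  have hcq' : c * q = c := by
    calc c * q = q * c * (q * q) := by
          conv_lhs => rw [← hcq]
          noncomm_ring
      _ = c := by rw [hq.2, hcq]
  obtain ⟨hS1, -, -, -⟩ := h₁ N τ hτ
  obtain ⟨hθ, hθc⟩ := hS1 ψ c hψ hcn
  have hθq : (Cj c ψ) 1 ≤ q := hθc.trans (ul_le_q hq hqc hcn)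
  have hθ0 : 0 ≤ (Cj c ψ) 1 := hθ.nonneg 1 Pr.one.nonneg
  have hθt : 0.9976 * τ₀ ≤ rt τ ((Cj c ψ) 1) := by
    have := ul_theta hτ hq hψ hcut hψq hcq' hcn
    linarith
  have hθt' : rt τ ((Cj c ψ) 1) ≤ τ₀ := rt_mono hτ hθq
  obtain ⟨-, hE2, -, -⟩ := h₃ N τ ι F u hτ hFn hu
  have hEθ : EnM τ F u (Cj c ψ) ≤ 9 * ε₀ * τ₀ := by
    have := hE2 ψ c F hψ hcn
    linarith
  have hEθ1 : En τ F u ((Cj c ψ) 1) ≤ 36 * ε₀ * τ₀ := by
    have := (h₄ N τ (Cj c ψ) hτ hθ).2.2.2 ι F u hu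
    linarith
  obtain ⟨q₁, hq₁, hq₁4, hq₁E, -, hq₁d⟩ := h₇ N τ ι F u ((Cj c ψ) 1) hτ hC hu hθ0 hθ.one
  have hq₁q : q * q₁ = q₁ :=
    ul_proj hτ hq hq₁ (hq₁4.trans (smul_mono_real (by norm_num) hθq))
  have hq₁le : q₁ ≤ q := hq.le_of_mul hq₁ hq₁q
  have hq₁t' : rt τ q₁ ≤ τ₀ := rt_mono hτ hq₁le
  have hq₁t : 95 / 100 * τ₀ ≤ rt τ q₁ := by
    have a1 := hq₁d q hq
    have a2 : hs τ ((Cj c ψ) 1 - q) ≤ rt τ q - rt τ ((Cj c ψ) 1) := by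
      rw [hs_sub_comm, ← rt_sub]
      exact hs_le_rt hτ (sub_nonneg.2 hθq) ((sub_le_self _ hθ0).trans hq.le_one)
    have a3 : hs τ (q₁ - q) = rt τ q - rt τ q₁ := by
      rw [hs_sub_comm, (hq.sub hq₁ hq₁q).hs, rt_sub]
    rw [a3] at a1
    linarith
  have hq₁En : En τ F u q₁ ≤ mm * τ₀ := by
    have a1 : 8 * (F.card : ℝ) * En τ F u ((Cj c ψ) 1) * rt τ ((Cj c ψ) 1) ≤
        (mm / 2 * τ₀) ^ 2 := by
      rw [hF]
      have b1 : 8 * (g : ℝ) * En τ F u ((Cj c ψ) 1) ≤ 8 * g * (36 * ε₀ * τ₀) :=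
        mul_le_mul_of_nonneg_left hEθ1 (by positivity)
      have b2 : 8 * (g : ℝ) * En τ F u ((Cj c ψ) 1) * rt τ ((Cj c ψ) 1) ≤
          8 * g * (36 * ε₀ * τ₀) * τ₀ :=
        mul_le_mul b1 hθt' (rt_nonneg hτ hθ0) (by positivity)
      have b3 : 1152 * g * ε₀ ≤ mm ^ 2 := by
        have := mul_le_mul_of_nonneg_left hε₀1 (show (0 : ℝ) ≤ 1152 * g by positivity)
        rwa [mul_div_cancel₀ _ (by positivity)] at this
      have b4 : 8 * g * (36 * ε₀ * τ₀) * τ₀ = (1152 * g * ε₀) * (τ₀ ^ 2 / 4) := by ring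
      rw [b4] at b2
      refine b2.trans ?_
      calc (1152 * g * ε₀) * (τ₀ ^ 2 / 4) ≤ mm ^ 2 * (τ₀ ^ 2 / 4) :=
            mul_le_mul_of_nonneg_right b3 (by positivity)
        _ = _ := by ring
    have a2 := Real.sqrt_le_sqrt a1
    rw [Real.sqrt_sq (by positivity)] at a2
    linarith
  obtain ⟨φ₀, hφ₀, hφcut, hφq, hφJ, hφE, hφcost⟩ := hIter N τ ι F u q₁ (Cj c ψ) τ₀ hτ hF hu hq₁
    hθ hpos hθt' hq₁t' hq₁4
    (hq₁En.trans (mul_le_mul_of_nonneg_right (min_le_left _ _) hpos.le))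
    (hEθ.trans (mul_le_mul_of_nonneg_right (by linarith) hpos.le))
  have hk : rt τ q₁ - rt τ (φ₀ 1) ≤ 1 / 10 ^ 5 * τ₀ := by
    by_contra hcon
    push Not at hcon
    have b0 : 0 ≤ 1 / 10 ^ 5 * τ₀ := by positivity
    have b1 : (1 / 10 ^ 5 * τ₀) ^ 4 < (rt τ q₁ - rt τ (φ₀ 1)) ^ 4 :=
      pow_lt_pow_left₀ hcon b0 (by norm_num)
    have b2 : (J : ℝ) * (1 / 10 ^ 5 * τ₀) ^ 4 < J * (rt τ q₁ - rt τ (φ₀ 1)) ^ 4 :=
      mul_lt_mul_of_pos_left b1 (by exact_mod_cast hJ0)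
    have b3 : (J : ℝ) * (1 / 10 ^ 5 * τ₀) ^ 4 = 16 * τ₀ ^ 4 := by rw [hJ]; ring
    linarith
  refine ⟨q₁, φ₀ ∘ₗ φ₀ ∘ₗ φ₀, hq₁, hq₁le, h₂ N τ φ₀ hτ hφ₀, ul_cut hq₁ hφcut, ul_one hφ₀ hφq,
    hq₁t, ?_, hq₁En.trans (mul_le_mul_of_nonneg_right (min_le_right _ _) hpos.le), ?_, ?_⟩
  · have := ul_trace hτ hq₁ hφ₀ hφcut hφq
    linarith
  · -- energy
    obtain ⟨hE1, -, -, -⟩ := h₃ N τ ι F u hτ hFn hu
    have a0 : ∀ s ∈ F, 0 ≤ 2 * (rt τ (φ₀ 1) - rt τ (star (u s) * φ₀ (u s))) := by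
      intro s _
      have := (hE1 φ₀ hφ₀ {s}).1
      simpa [EnM] using this
    have a1 : ∀ s ∈ F, 2 * (rt τ (φ₀ 1) - rt τ (star (u s) * φ₀ (u s))) ≤
        (ε₁ / (6 * g)) ^ 2 * τ₀ := by
      intro s hs
      refine le_trans ?_ hφE
      rw [EnM_eq]
      exact Finset.single_le_sum (f := fun s => 2 * (rt τ (φ₀ 1) - rt τ (star (u s) * φ₀ (u s))))
        a0 hs
    have a2 : ∀ s ∈ F, 2 * (rt τ ((φ₀ ∘ₗ φ₀ ∘ₗ φ₀) 1) -
        rt τ (star (u s) * (φ₀ ∘ₗ φ₀ ∘ₗ φ₀) (u s))) ≤ ε₁ / g * τ₀ := by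
      intro s hs
      refine (ul_en1 h₄ hτ hq₁ hφ₀ hφcut hq₁t' (u s) (hu s)).trans ?_
      have b1 : τ₀ * (2 * (rt τ (φ₀ 1) - rt τ (star (u s) * φ₀ (u s)))) ≤
          (ε₁ / (6 * g) * τ₀) ^ 2 := by
        calc τ₀ * (2 * (rt τ (φ₀ 1) - rt τ (star (u s) * φ₀ (u s)))) ≤
            τ₀ * ((ε₁ / (6 * g)) ^ 2 * τ₀) := mul_le_mul_of_nonneg_left (a1 s hs) hpos.le
          _ = _ := by ring
      have b2 := Real.sqrt_le_sqrt b1
      rw [Real.sqrt_sq (by positivity)] at b2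
      calc 6 * Real.sqrt (τ₀ * (2 * (rt τ (φ₀ 1) - rt τ (star (u s) * φ₀ (u s))))) ≤
          6 * (ε₁ / (6 * g) * τ₀) := by linarith
        _ = _ := by field_simp
    rw [EnM_eq]
    refine (Finset.sum_le_sum a2).trans ?_
    rw [Finset.sum_const, hF, nsmul_eq_mul]
    apply le_of_eq
    field_simp
  · -- cost
    intro m E hE
    obtain ⟨m', w', hw1, hw2⟩ := hφcost (2 * aa) m E (by positivity) hE
    obtain ⟨m'', w, hw3, hw4, hw5⟩ := h₅ N τ φ₀ (J * (2 * aa)) m' w' hτ hφ₀ (by positivity)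
      (fun x => by simpa only [mul_assoc] using hw1 x)
    refine ⟨m'', w, ⟨fun x => ?_, hw4⟩, ?_⟩
    · simp only [LinearMap.comp_apply]
      refine (hw3 x).trans ?_
      have b1 : 2 * ((J : ℝ) * (2 * aa)) ^ 2 ≤ aa := by
        rw [hJ]; unfold aa; norm_num
      have := mul_le_mul_of_nonneg_right b1 (hs_nonneg hτ x)
      linarith
    · have b1 : 4 * (1 + (J : ℝ) * (2 * aa)) ^ 2 * (J : ℝ) ^ 2 ≤ 10 ^ 44 := by
        rw [hJ]; unfold aa; norm_num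
      have b2 := ul_hsf_nonneg (τ := τ) E
      calc hsf τ w ≤ 4 * (1 + (J : ℝ) * (2 * aa)) ^ 2 * hsf τ w' := hw5
        _ ≤ 4 * (1 + (J : ℝ) * (2 * aa)) ^ 2 * ((J : ℝ) ^ 2 * hsf τ E) :=
            mul_le_mul_of_nonneg_left hw2 (by positivity)
        _ = (4 * (1 + (J : ℝ) * (2 * aa)) ^ 2 * (J : ℝ) ^ 2) * hsf τ E := by ring
        _ ≤ 10 ^ 44 * hsf τ E := mul_le_mul_of_nonneg_right b1 b2

end Helper61.HT
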