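import Pool.Agent.Helper61.HT.StF
import Pool.Agent.Helper61.HT.LibN

/-!
# HT module UnifA: property (T) (completely positive maps) gives the uniform form
-/

set_option linter.unusedSectionVars false

namespace Helper61.HT

open scoped ComplexOrder
open Filter Topology

section UnifA

variable {B : Type} [CStarAlgebra B] [PartialOrder B] [StarOrderedRing B] {τ : B →ₗ[ℂ] ℂ}

private lemma sqrt_hs_sum_UA (hτ : Trc τ) {κ : Type} (s : Finset κ) (f : κ → B) :
    Real.sqrt (hs τ (∑ i ∈ s, f i)) ≤ ∑ i ∈ s, Real.sqrt (hs τ (f i)) := by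
  classical
  induction s using Finset.induction_on with
  | empty => simp [hs_zero]
  | insert a s ha ih =>
    rw [Finset.sum_insert ha, Finset.sum_insert ha]
    exact (sqrt_hs_add_le hτ _ _).trans (add_le_add le_rfl ih)

private lemma sqrt_hs_smulC_UA (c : ℂ) (x : B) :
    Real.sqrt (hs τ (c • x)) = ‖c‖ * Real.sqrt (hs τ x) := by
  rw [hs_smulC, Real.sqrt_mul (by positivity), Real.sqrt_sq (norm_nonneg c)]

private lemma norm_one_le_UA : ‖(1 : B)‖ ≤ 1 := norm_unit_le ⟨by simp, by simp⟩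

/-- The dilation `φ + y · y`. -/
private lemma cpm_UA {φ : B →ₗ[ℂ] B} (hφ : CPm φ) (y : B) : CPm (φ + Mp y) := by
  intro m a b
  have h1 := hφ m a b
  have h2 : 0 ≤ ∑ i, ∑ j, star (b i) * (Mp y) (star (a i) * a j) * b j := by
    have e : ∑ i, ∑ j, star (b i) * (Mp y) (star (a i) * a j) * b j =
        star (∑ j, a j * star y * b j) * (∑ j, a j * star y * b j) := by
      rw [star_sum, Finset.sum_mul]
      refine Finset.sum_congr rfl fun i _ => ?_
      rw [Finset.mul_sum]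
      refine Finset.sum_congr rfl fun j _ => ?_
      simp only [Mp_apply, star_mul, star_star, mul_assoc]
    rw [e]
    exact nonneg_star_mul _
  have e : ∑ i, ∑ j, star (b i) * (φ + Mp y) (star (a i) * a j) * b j =
      ∑ i, ∑ j, star (b i) * φ (star (a i) * a j) * b j +
        ∑ i, ∑ j, star (b i) * (Mp y) (star (a i) * a j) * b j := by
    rw [← Finset.sum_add_distrib]
    refine Finset.sum_congr rfl fun i _ => ?_
    rw [← Finset.sum_add_distrib]
    refine Finset.sum_congr rfl fun j _ => ?_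
    rw [LinearMap.add_apply, mul_add, add_mul]
  rw [e]
  exact add_nonneg h1 h2

/-- The estimate on the unitaries. -/
private lemma unit_UA (hPhi : StPhi) (hPS : StPS) (hτ : Trc τ) (hC : Cpl τ)
    {φ : B →ₗ[ℂ] B} (hφ : SCP τ φ) {y : B} (hy : 0 ≤ y) (hy1 : y ≤ 1)
    (hyy : y * y = 1 - φ 1) {v : B} (hv : Un v) {κ : ℝ} (hκ : 0 ≤ κ)
    (hvκ : rt τ (φ 1) - rt τ (star v * φ v) ≤ κ) :
    hs τ ((φ + Mp y) v - v) ≤ 4 * κ + 2 * Real.sqrt (8 * κ) := by
  have hP := hPhi B τ φ hτ hφ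
  -- first estimate
  have h1 : hs τ (φ v - v * φ 1) ≤ 2 * κ := by
    have h := (hP.2.2.1 v 1 hv).1
    rw [mul_one] at h
    refine h.trans ?_
    have h0 : 0 ≤ 2 * (rt τ (φ 1) - rt τ (star v * φ v)) := by
      have h2 := hs_nonneg hτ (φ v - v * φ 1)
      by_contra hneg
      push Not at hneg
      have hn : 0 ≤ ‖(1 : B)‖ ^ 2 := by positivity
      have h3 : ‖(1 : B)‖ ^ 2 * (2 * (rt τ (φ 1) - rt τ (star v * φ v))) ≤ 0 :=
        mul_nonpos_of_nonneg_of_nonpos hn hneg.le
      have h4 : ‖(1 : B)‖ ≠ 0 := by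
        intro h5
        have h6 : (1 : B) = 0 := norm_eq_zero.1 h5
        have h7 := hτ.one
        rw [h6, map_zero] at h7
        exact zero_ne_one h7
      have h5 : 0 < ‖(1 : B)‖ ^ 2 := by positivity
      nlinarith
    have h2 : ‖(1 : B)‖ ^ 2 ≤ 1 := by
      have := norm_one_le_UA (B := B)
      nlinarith [norm_nonneg (1 : B)]
    nlinarith
  -- second estimate
  have h2 : hs τ (v * φ 1 - φ 1 * v) ≤ 8 * κ := by
    have h := hP.2.2.2 Unit {()} (fun _ => v) (fun _ => hv)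
    unfold En EnM at h
    rw [Finset.sum_singleton, Finset.sum_singleton] at h
    linarith
  -- Powers-Stoermer
  have h3 : hs τ (y - v * y * star v) ≤ Real.sqrt (8 * κ) := by
    have h := hPS B τ hτ hC y (v * y * star v) hy (conj_nonneg hy v)
    refine h.trans (Real.sqrt_le_sqrt ?_)
    have e : y * y - v * y * star v * (v * y * star v) =
        v * φ 1 * star v - φ 1 := by
      have e1 : v * y * star v * (v * y * star v) = v * (y * y) * star v := by
        calc v * y * star v * (v * y * star v) = v * y * (star v * v) * y * star v := by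
              noncomm_ring
          _ = _ := by rw [hv.1]; noncomm_ring
      rw [e1, hyy]
      have e2 : v * (1 - φ 1) * star v = v * star v - v * φ 1 * star v := by noncomm_ring
      rw [e2, hv.2]
      abel
    rw [e, hs_sub_comm, ← hs_comm_unit hτ hv]
    exact h2
  have h4 : hs τ ((y * v - v * y) * y) ≤ Real.sqrt (8 * κ) := by
    refine (hs_mul_right_le hτ (norm_le_one_of_nonneg hy hy1)).trans ?_
    rw [hs_sub_comm, hs_comm_unit hτ hv]
    exact h3
  have e : (φ + Mp y) v - v = (φ v - v * φ 1) + (y * v - v * y) * y := by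
    have e1 : (φ + Mp y) v = φ v + y * v * y := by
      rw [LinearMap.add_apply, Mp_apply, herm_of_nonneg hy]
    have e2 : v = v * φ 1 + v * (y * y) := by
      rw [hyy, mul_sub, mul_one]; abel
    rw [e1]
    nth_rewrite 3 [e2]
    noncomm_ring
  rw [e]
  refine (hs_add_le hτ _ _).trans ?_
  linarith

theorem pUnifA (hPhi : StPhi) (hPS : StPS) : StUnifA := by
  intro B _ _ _ τ hτ hC hT ε hε
  classical
  obtain ⟨F, δ, hδ, hF⟩ := hT (ε ^ 2) (by positivity)
  choose u c huc hcn using fun x : B => CStarAlgebra.exists_sum_four_unitary x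
  -- the unitaries
  set V : Finset B := F.biUnion fun x => Finset.univ.image fun i => (u x i : B) with hV
  -- a bound for the coefficients
  obtain ⟨M, hM1, hM⟩ : ∃ M : ℝ, 1 ≤ M ∧ ∀ x ∈ F, ∑ i, ‖c x i‖ ≤ M := by
    refine ⟨1 + ∑ x ∈ F, ∑ i, ‖c x i‖, ?_, ?_⟩
    · have : 0 ≤ ∑ x ∈ F, ∑ i, ‖c x i‖ :=
        Finset.sum_nonneg fun x _ => Finset.sum_nonneg fun i _ => norm_nonneg _
      linarith
    · intro x hx
      have := Finset.single_le_sum (f := fun x => ∑ i, ‖c x i‖)
        (fun x _ => Finset.sum_nonneg fun i _ => norm_nonneg _) hx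
      linarith
  -- the choice of `κ`
  obtain ⟨κ, hκ, hκδ⟩ : ∃ κ : ℝ, 0 < κ ∧ M ^ 2 * (4 * κ + 2 * Real.sqrt (8 * κ)) ≤ δ := by
    set t : ℝ := min 1 (δ / (12 * M ^ 2)) with ht
    have ht0 : 0 < t := lt_min one_pos (by positivity)
    refine ⟨t ^ 2 / 8, by positivity, ?_⟩
    have e : 8 * (t ^ 2 / 8) = t ^ 2 := by ring
    rw [e, Real.sqrt_sq ht0.le]
    have h1 : t ≤ 1 := min_le_left _ _
    have h2 : t ≤ δ / (12 * M ^ 2) := min_le_right _ _
    have h3 : 4 * (t ^ 2 / 8) + 2 * t ≤ 3 * t := by nlinarith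
    have h4 : M ^ 2 * (4 * (t ^ 2 / 8) + 2 * t) ≤ M ^ 2 * (3 * t) :=
      mul_le_mul_of_nonneg_left h3 (by positivity)
    have h5 : M ^ 2 * (3 * t) ≤ M ^ 2 * (3 * (δ / (12 * M ^ 2))) :=
      mul_le_mul_of_nonneg_left (by linarith) (by positivity)
    have h6 : M ^ 2 * (3 * (δ / (12 * M ^ 2))) = δ / 4 := by
      field_simp
      ring
    linarith
  refine ⟨V, κ, ?_, hκ, ?_⟩
  · intro v hv
    rw [hV, Finset.mem_biUnion] at hv
    obtain ⟨x, -, hv⟩ := hv
    rw [Finset.mem_image] at hv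
    obtain ⟨i, -, rfl⟩ := hv
    exact ⟨Unitary.coe_star_mul_self (u x i), Unitary.coe_mul_star_self (u x i)⟩
  intro φ hφ hcp hVκ w hw
  have hφ1 := hφ.one
  have hφ0 : 0 ≤ φ 1 := hφ.nonneg 1 zero_le_one
  obtain ⟨y, hy, hyy⟩ := exists_sqrt (sub_nonneg.2 hφ1)
  have hyh := herm_of_nonneg hy
  have hyn : ‖y‖ ≤ 1 := by
    have h1 : y * y ≤ 1 := by rw [hyy]; exact sub_le_self _ hφ0
    have h2 : ‖y * y‖ ≤ 1 := norm_le_one_of_nonneg (by
      have := nonneg_star_mul y
      rwa [hyh] at this) h1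
    have h3 := CStarRing.norm_star_mul_self (x := y)
    rw [hyh] at h3
    nlinarith [norm_nonneg y]
  have hy1 : y ≤ 1 := by
    have h1 := le_smul_of_norm hyh
    refine h1.trans ?_
    have h2 : ‖y‖ • (1 : B) ≤ (1 : ℝ) • 1 := smul_mono_left hyn zero_le_one
    rwa [one_smul] at h2
  set φ' : B →ₗ[ℂ] B := φ + Mp y with hφ'
  have hφ'1 : φ' 1 = 1 := by
    rw [hφ', LinearMap.add_apply, Mp_apply, mul_one, hyh, hyy]; abel
  have htr : ∀ x, rt τ (φ' x) = rt τ x := by
    intro x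
    have e1 : rt τ (φ x) = rt τ (x * φ 1) := by
      unfold rt
      rw [← mul_one (φ x), hφ.symm x 1]
    have e2 : rt τ (y * x * y) = rt τ (x * (y * y)) := by
      rw [rt_cycle hτ, rt_mul_comm hτ]
    rw [hφ', LinearMap.add_apply, Mp_apply, hyh, rt_add, e1, e2, ← rt_add, ← mul_add, hyy,
      add_sub_cancel, mul_one]
  have hFδ : ∀ x ∈ F, hs τ (φ' x - x) ≤ δ := by
    intro x hx
    have hun : ∀ i, Real.sqrt (hs τ (φ' (u x i : B) - (u x i : B))) ≤
        Real.sqrt (4 * κ + 2 * Real.sqrt (8 * κ)) := by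
      intro i
      refine Real.sqrt_le_sqrt ?_
      have hmem : (u x i : B) ∈ V := by
        rw [hV, Finset.mem_biUnion]
        exact ⟨x, hx, Finset.mem_image.2 ⟨i, Finset.mem_univ i, rfl⟩⟩
      exact unit_UA hPhi hPS hτ hC hφ hy hy1 hyy
        ⟨Unitary.coe_star_mul_self (u x i), Unitary.coe_mul_star_self (u x i)⟩ hκ.le
        (hVκ _ hmem)
    have e : φ' x - x = ∑ i, c x i • (φ' (u x i : B) - (u x i : B)) := by
      conv_lhs => rw [huc x]
      rw [map_sum, ← Finset.sum_sub_distrib]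
      refine Finset.sum_congr rfl fun i _ => ?_
      rw [map_smul, smul_sub]
    have h1 : Real.sqrt (hs τ (φ' x - x)) ≤
        M * Real.sqrt (4 * κ + 2 * Real.sqrt (8 * κ)) := by
      rw [e]
      refine (sqrt_hs_sum_UA hτ _ _).trans ?_
      calc ∑ i, Real.sqrt (hs τ (c x i • (φ' (u x i : B) - (u x i : B)))) ≤
          ∑ i, ‖c x i‖ * Real.sqrt (4 * κ + 2 * Real.sqrt (8 * κ)) := by
            refine Finset.sum_le_sum fun i _ => ?_
            rw [sqrt_hs_smulC_UA]
            exact mul_le_mul_of_nonneg_left (hun i) (norm_nonneg _)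
        _ = (∑ i, ‖c x i‖) * Real.sqrt (4 * κ + 2 * Real.sqrt (8 * κ)) := by
            rw [Finset.sum_mul]
        _ ≤ _ := mul_le_mul_of_nonneg_right (hM x hx) (Real.sqrt_nonneg _)
    have h2 := Real.sq_sqrt (hs_nonneg hτ (φ' x - x))
    have h3 : 0 ≤ 4 * κ + 2 * Real.sqrt (8 * κ) := by
      have := Real.sqrt_nonneg (8 * κ)
      linarith
    have h4 := Real.sq_sqrt h3
    calc hs τ (φ' x - x) = Real.sqrt (hs τ (φ' x - x)) ^ 2 := h2.symm
      _ ≤ (M * Real.sqrt (4 * κ + 2 * Real.sqrt (8 * κ))) ^ 2 :=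
          pow_le_pow_left₀ (Real.sqrt_nonneg _) h1 2
      _ = M ^ 2 * (4 * κ + 2 * Real.sqrt (8 * κ)) := by rw [mul_pow, h4]
      _ ≤ δ := hκδ
  have hmain := hF φ' (cpm_UA hcp y) hφ'1.le (fun x _ => (htr x).le) hFδ w (norm_unit_le hw)
  -- the conclusion
  have hw1 : hs τ w = 1 := by
    rw [hs_eq_rt, hw.1, rt_one hτ]
  have h1 : 1 - rt τ (star w * φ' w) ≤ ε := by
    have e : 1 - rt τ (star w * φ' w) = rt τ (star w * (w - φ' w)) := by
      rw [mul_sub, rt_sub, hw.1, rt_one hτ]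
    rw [e]
    refine (rt_mul_le hτ _ _).trans ?_
    rw [hs_star hτ, hw1, Real.sqrt_one, one_mul, hs_sub_comm]
    calc Real.sqrt (hs τ (φ' w - w)) ≤ Real.sqrt (ε ^ 2) := Real.sqrt_le_sqrt hmain
      _ = ε := Real.sqrt_sq hε.le
  have h2 : rt τ (star w * (y * w * y)) ≤ 1 - rt τ (φ 1) := by
    have e : star w * (y * w * y) = star w * y * (w * y) := by noncomm_ring
    rw [e]
    refine (rt_mul_le hτ _ _).trans ?_
    have e1 : hs τ (star w * y) = hs τ y := hs_unit_mul hw.star y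
    have e2 : hs τ (w * y) = hs τ y := hs_unit_mul hw y
    rw [e1, e2, Real.mul_self_sqrt (hs_nonneg hτ y), hs_eq_rt, hyh, hyy, rt_sub, rt_one hτ]
  have h3 : rt τ (star w * φ' w) = rt τ (star w * φ w) + rt τ (star w * (y * w * y)) := by
    rw [hφ', LinearMap.add_apply, Mp_apply, hyh, mul_add, rt_add]
  linarith

end UnifA

end Helper61.HT
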