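import Pool.Agent.Helper61.HT.StF
import Pool.Agent.Helper61.HT.LibN

/-!
# Project HT: property (T) (bimodules) implies the uniform form
-/

namespace Helper61.HT

open scoped ComplexOrder
open Filter Topology

section calcs

variable {B : Type} [CStarAlgebra B] {τ : B →ₗ[ℂ] ℂ} {φ : B →ₗ[ℂ] B} {H : Type}
  [NormedAddCommGroup H] [InnerProductSpace ℂ H]

private lemma ub_calc {L R : B → H → H} (hR1 : ∀ v, R 1 v = v) (hL1 : ∀ v, L 1 v = v)
    (hLm : ∀ x y v, L (x * y) v = L x (L y v)) (hRm : ∀ x y v, R (x * y) v = R y (R x v))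
    (hLa : ∀ x v w, inner ℂ (L x v) w = inner ℂ v (L (star x) w))
    (hRa : ∀ x v w, inner ℂ (R x v) w = inner ℂ v (R (star x) w)) {ξ : H}
    (h : ∀ x y, inner ℂ ξ (L x (R y ξ)) = τ (x * φ y)) :
    (∀ x, ‖L x ξ‖ ^ 2 = rt τ (star x * x * φ 1)) ∧ (∀ x, ‖R x ξ‖ ^ 2 = rt τ (φ (x * star x))) ∧
    ∀ v, Un v → ‖L v ξ - R v ξ‖ ^ 2 = 2 * (rt τ (φ 1) - rt τ (star v * φ v)) := by
  have h1 : ∀ x, ‖L x ξ‖ ^ 2 = rt τ (star x * x * φ 1) := by
    intro x
    rw [InnerProductSpace.norm_sq_eq_re_inner (𝕜 := ℂ), hLa, ← hLm]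
    have h2 := h (star x * x) 1
    rw [hR1] at h2
    rw [h2]
    rfl
  have h2 : ∀ x, ‖R x ξ‖ ^ 2 = rt τ (φ (x * star x)) := by
    intro x
    rw [InnerProductSpace.norm_sq_eq_re_inner (𝕜 := ℂ), hRa, ← hRm]
    have h3 := h 1 (x * star x)
    rw [hL1, one_mul] at h3
    rw [h3]
    rfl
  refine ⟨h1, h2, ?_⟩
  intro v hv
  rw [norm_sub_sq (𝕜 := ℂ), h1, h2, hv.1, hv.2, one_mul, hLa, h]
  show _ - 2 * rt τ (star v * φ v) + _ = _
  ring

private lemma ub_bdd [PartialOrder B] [StarOrderedRing B] {M : B →ₗ[ℂ] (H →ₗ[ℂ] H)} {c : B → B}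
    (h1 : ∀ v, M 1 v = v)
    (h2 : ∀ y, 0 ≤ y → ∀ v, 0 ≤ (inner ℂ v (M y v) : ℂ).re)
    (h3 : ∀ x v, ‖M x v‖ ^ 2 = (inner ℂ v (M (c x) v) : ℂ).re)
    (h4 : ∀ x, c x ≤ (‖x‖ ^ 2) • 1) (x : B) (v : H) : ‖M x v‖ ≤ ‖x‖ * ‖v‖ := by
  have h5 := h2 _ (sub_nonneg.2 (h4 x)) v
  have h6 : (‖x‖ ^ 2) • (1 : B) = ((‖x‖ ^ 2 : ℝ) : ℂ) • (1 : B) := (algebraMap_smul ℂ _ _).symm
  rw [h6, map_sub, LinearMap.sub_apply, map_smul, LinearMap.smul_apply, h1, inner_sub_right,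
    inner_smul_right, Complex.sub_re, Complex.re_ofReal_mul, ← h3] at h5
  have h7 : (inner ℂ v v : ℂ).re = ‖v‖ ^ 2 :=
    (InnerProductSpace.norm_sq_eq_re_inner (𝕜 := ℂ) v).symm
  rw [h7] at h5
  have h8 : ‖M x v‖ ^ 2 ≤ (‖x‖ * ‖v‖) ^ 2 := by rw [mul_pow]; linarith
  exact (pow_le_pow_iff_left₀ (norm_nonneg _) (by positivity) two_ne_zero).1 h8

private lemma ub_L [PartialOrder B] [StarOrderedRing B] (b : Bimod B H) (x : B) (v : H) :
    ‖b.L x v‖ ≤ ‖x‖ * ‖v‖ := by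
  refine ub_bdd (c := fun x => star x * x) b.L_one ?_ ?_ star_mul_le x v
  · intro y hy v
    obtain ⟨z, hz, rfl⟩ := exists_sqrt hy
    rw [b.L_mul]
    nth_rewrite 1 [← herm_of_nonneg hz]
    rw [← b.L_adj]
    exact (sq_nonneg _).trans_eq (InnerProductSpace.norm_sq_eq_re_inner (𝕜 := ℂ) (b.L z v))
  · intro x v
    rw [InnerProductSpace.norm_sq_eq_re_inner (𝕜 := ℂ), b.L_adj, ← b.L_mul]
    rfl

private lemma ub_R [PartialOrder B] [StarOrderedRing B] (b : Bimod B H) (x : B) (v : H) :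
    ‖b.R x v‖ ≤ ‖x‖ * ‖v‖ := by
  refine ub_bdd (c := fun x => x * star x) b.R_one ?_ ?_ mul_star_le x v
  · intro y hy v
    obtain ⟨z, hz, rfl⟩ := exists_sqrt hy
    rw [b.R_mul]
    nth_rewrite 1 [← herm_of_nonneg hz]
    rw [← b.R_adj]
    exact (sq_nonneg _).trans_eq (InnerProductSpace.norm_sq_eq_re_inner (𝕜 := ℂ) (b.R z v))
  · intro x v
    rw [InnerProductSpace.norm_sq_eq_re_inner (𝕜 := ℂ), b.R_adj, ← b.R_mul]
    rfl

/-- normality at `v` -/
private def NrmAt (τ : B →ₗ[ℂ] ℂ) (f : B → ℝ) : Prop :=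
  ∀ ε : ℝ, 0 < ε → ∃ δ : ℝ, 0 < δ ∧ ∀ x, ‖x‖ ≤ 1 → hs τ x ≤ δ → f x ≤ ε

private lemma ub_gen {C : ℝ} (hC : 0 ≤ C) {f : B → ℝ} (hf0 : ∀ x, 0 ≤ f x)
    (hf : ∀ x, f x ^ 2 ≤ C ^ 2 * hs τ x) : NrmAt τ f := by
  intro ε hε
  refine ⟨(ε / (C + 1)) ^ 2, by positivity, fun x _ hx => ?_⟩
  have h1 : f x ^ 2 ≤ ε ^ 2 := by
    refine (hf x).trans ((mul_le_mul_of_nonneg_left hx (sq_nonneg C)).trans ?_)
    rw [← mul_pow]
    refine pow_le_pow_left₀ (by positivity) ?_ 2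
    rw [mul_div_assoc', div_le_iff₀ (by positivity)]
    nlinarith
  exact (pow_le_pow_iff_left₀ (hf0 x) hε.le two_ne_zero).1 h1

private lemma ub_span {M : B →ₗ[ℂ] (H →ₗ[ℂ] H)} {S : Set H}
    (h0 : ∀ v ∈ S, NrmAt τ (fun x => ‖M x v‖)) (v : H) (hv : v ∈ Submodule.span ℂ S) :
    NrmAt τ (fun x => ‖M x v‖) := by
  induction hv using Submodule.span_induction with
  | mem v hv => exact h0 v hv
  | zero =>
    intro ε hε
    refine ⟨1, one_pos, fun x _ _ => ?_⟩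
    show ‖M x 0‖ ≤ ε
    rw [map_zero, norm_zero]
    exact hε.le
  | add v w _ _ hv hw =>
    intro ε hε
    obtain ⟨δ, hδ, h1⟩ := hv (ε / 2) (by positivity)
    obtain ⟨δ', hδ', h2⟩ := hw (ε / 2) (by positivity)
    refine ⟨min δ δ', lt_min hδ hδ', fun x hx hx' => ?_⟩
    have h3 := h1 x hx (hx'.trans (min_le_left _ _))
    have h4 := h2 x hx (hx'.trans (min_le_right _ _))
    simp only at h3 h4 ⊢
    rw [map_add]
    refine (norm_add_le _ _).trans ?_
    linarith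
  | smul c v _ hv =>
    intro ε hε
    obtain ⟨δ, hδ, h1⟩ := hv (ε / (‖c‖ + 1)) (by positivity)
    refine ⟨δ, hδ, fun x hx hx' => ?_⟩
    have h3 := h1 x hx hx'
    simp only at h3 ⊢
    rw [map_smul, norm_smul]
    have h4 : ‖c‖ * ‖M x v‖ ≤ ‖c‖ * (ε / (‖c‖ + 1)) :=
      mul_le_mul_of_nonneg_left h3 (norm_nonneg c)
    refine h4.trans ?_
    rw [mul_div_assoc', div_le_iff₀ (by positivity)]
    nlinarith [norm_nonneg c]

end calcs

section compl

variable {B : Type} [CStarAlgebra B] {τ : B →ₗ[ℂ] ℂ} {K : Type}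
  [NormedAddCommGroup K] [InnerProductSpace ℂ K]

private lemma ub_cext {Y : Type} [TopologicalSpace Y] [T2Space Y]
    {f g : UniformSpace.Completion K → Y} (hf : Continuous f)
    (hg : Continuous g) (h : ∀ ξ : K, f (ξ : UniformSpace.Completion K) = g ξ) (η) : f η = g η :=
  UniformSpace.Completion.induction_on η (isClosed_eq hf hg) h

/-- the extension of one map -/
private noncomputable def ubT (M : B →ₗ[ℂ] (K →ₗ[ℂ] K)) (hM : ∀ x v, ‖M x v‖ ≤ ‖x‖ * ‖v‖)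
    (x : B) : UniformSpace.Completion K →L[ℂ] UniformSpace.Completion K :=
  ((M x).mkContinuous ‖x‖ (hM x)).completion

private lemma ubT_coe (M : B →ₗ[ℂ] (K →ₗ[ℂ] K)) (hM : ∀ x v, ‖M x v‖ ≤ ‖x‖ * ‖v‖) (x : B)
    (v : K) : ubT M hM x (v : UniformSpace.Completion K) = (M x v : K) :=
  ContinuousLinearMap.completion_apply_coe _ _

private lemma ubT_add (M : B →ₗ[ℂ] (K →ₗ[ℂ] K)) (hM : ∀ x v, ‖M x v‖ ≤ ‖x‖ * ‖v‖) (x y : B) :
    ubT M hM (x + y) = ubT M hM x + ubT M hM y := by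
  refine ContinuousLinearMap.ext fun η => ?_
  refine ub_cext (f := fun η => ubT M hM (x + y) η) (g := fun η => ubT M hM x η + ubT M hM y η)
    (ubT M hM (x + y)).continuous ((ubT M hM x).continuous.add (ubT M hM y).continuous)
    (fun ξ => ?_) η
  rw [ubT_coe, ubT_coe, ubT_coe, ← UniformSpace.Completion.coe_add, map_add, LinearMap.add_apply]

private lemma ubT_smul (M : B →ₗ[ℂ] (K →ₗ[ℂ] K)) (hM : ∀ x v, ‖M x v‖ ≤ ‖x‖ * ‖v‖) (r : ℂ)
    (x : B) : ubT M hM (r • x) = r • ubT M hM x := by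
  refine ContinuousLinearMap.ext fun η => ?_
  refine ub_cext (f := fun η => ubT M hM (r • x) η) (g := fun η => r • ubT M hM x η)
    (ubT M hM (r • x)).continuous ((ubT M hM x).continuous.const_smul r)
    (fun ξ => ?_) η
  rw [ubT_coe, ubT_coe, ← UniformSpace.Completion.coe_smul, map_smul, LinearMap.smul_apply]

/-- the extension of a bounded linear family to the completion -/
private noncomputable def ubE (M : B →ₗ[ℂ] (K →ₗ[ℂ] K)) (hM : ∀ x v, ‖M x v‖ ≤ ‖x‖ * ‖v‖) :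
    B →ₗ[ℂ] (UniformSpace.Completion K →L[ℂ] UniformSpace.Completion K) where
  toFun x := ubT M hM x
  map_add' x y := ubT_add M hM x y
  map_smul' r x := ubT_smul M hM r x

private lemma ubE_coe (M : B →ₗ[ℂ] (K →ₗ[ℂ] K)) (hM : ∀ x v, ‖M x v‖ ≤ ‖x‖ * ‖v‖) (x : B)
    (v : K) : ubE M hM x (v : UniformSpace.Completion K) = (M x v : K) :=
  ubT_coe M hM x v

private lemma ubE_norm (M : B →ₗ[ℂ] (K →ₗ[ℂ] K)) (hM : ∀ x v, ‖M x v‖ ≤ ‖x‖ * ‖v‖) (x : B)
    (v : UniformSpace.Completion K) : ‖ubE M hM x v‖ ≤ ‖x‖ * ‖v‖ := by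
  refine UniformSpace.Completion.induction_on v
    (isClosed_le (by fun_prop) (by fun_prop)) fun w => ?_
  rw [ubE_coe, UniformSpace.Completion.norm_coe, UniformSpace.Completion.norm_coe]
  exact hM x w

private lemma ubE_normal (M : B →ₗ[ℂ] (K →ₗ[ℂ] K)) (hM : ∀ x v, ‖M x v‖ ≤ ‖x‖ * ‖v‖)
    (h0 : ∀ v, NrmAt τ (fun x => ‖M x v‖)) (v : UniformSpace.Completion K) :
    NrmAt τ (fun x => ‖ubE M hM x v‖) := by
  intro ε hε
  obtain ⟨w, hw⟩ := (UniformSpace.Completion.denseRange_coe (α := K)).exists_dist_lt v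
    (show 0 < ε / 2 by positivity)
  obtain ⟨δ, hδ, h1⟩ := h0 w (ε / 2) (by positivity)
  refine ⟨δ, hδ, fun x hx hx' => ?_⟩
  have h2 := h1 x hx hx'
  simp only at h2 ⊢
  have h3 : v = (v - (w : UniformSpace.Completion K)) + w := by abel
  rw [h3, map_add]
  refine (norm_add_le _ _).trans ?_
  have h4 := ubE_norm M hM x (v - w)
  rw [dist_eq_norm] at hw
  have h5 : ‖x‖ * ‖v - (w : UniformSpace.Completion K)‖ ≤ 1 * (ε / 2) :=
    mul_le_mul hx hw.le (norm_nonneg _) zero_le_one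
  rw [ubE_coe, UniformSpace.Completion.norm_coe]
  linarith

private lemma ub_HBim (b : Bimod B K) (hL : ∀ x v, ‖b.L x v‖ ≤ ‖x‖ * ‖v‖)
    (hR : ∀ x v, ‖b.R x v‖ ≤ ‖x‖ * ‖v‖) (hLn : ∀ v, NrmAt τ (fun x => ‖b.L x v‖))
    (hRn : ∀ v, NrmAt τ (fun x => ‖b.R x v‖)) :
    HBim τ (UniformSpace.Completion K) (ubE b.L hL) (ubE b.R hR) where
  L_one v := by
    refine ub_cext (f := fun v => ubE b.L hL 1 v) (g := fun v => v) (by fun_prop) (by fun_prop)
      (fun ξ => ?_) v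
    rw [ubE_coe, b.L_one]
  R_one v := by
    refine ub_cext (f := fun v => ubE b.R hR 1 v) (g := fun v => v) (by fun_prop) (by fun_prop)
      (fun ξ => ?_) v
    rw [ubE_coe, b.R_one]
  L_mul x y v := by
    refine ub_cext (f := fun v => ubE b.L hL (x * y) v)
      (g := fun v => ubE b.L hL x (ubE b.L hL y v)) (by fun_prop) (by fun_prop)
      (fun ξ => ?_) v
    simp only [ubE_coe]
    rw [b.L_mul]
  R_mul x y v := by
    refine ub_cext (f := fun v => ubE b.R hR (x * y) v)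
      (g := fun v => ubE b.R hR y (ubE b.R hR x v)) (by fun_prop) (by fun_prop)
      (fun ξ => ?_) v
    simp only [ubE_coe]
    rw [b.R_mul]
  comm x y v := by
    refine ub_cext (f := fun v => ubE b.L hL x (ubE b.R hR y v))
      (g := fun v => ubE b.R hR y (ubE b.L hL x v)) (by fun_prop) (by fun_prop)
      (fun ξ => ?_) v
    simp only [ubE_coe]
    rw [b.comm]
  L_adj x v w := by
    refine UniformSpace.Completion.induction_on₂ v w
      (isClosed_eq (by fun_prop) (by fun_prop)) fun v w => ?_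
    rw [ubE_coe, ubE_coe, UniformSpace.Completion.inner_coe, UniformSpace.Completion.inner_coe,
      b.L_adj]
  R_adj x v w := by
    refine UniformSpace.Completion.induction_on₂ v w
      (isClosed_eq (by fun_prop) (by fun_prop)) fun v w => ?_
    rw [ubE_coe, ubE_coe, UniformSpace.Completion.inner_coe, UniformSpace.Completion.inner_coe,
      b.R_adj]
  L_normal v := ubE_normal b.L hL hLn v
  R_normal v := ubE_normal b.R hR hRn v

end compl

section restr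

variable {B : Type} [CStarAlgebra B] {H : Type}
  [NormedAddCommGroup H] [InnerProductSpace ℂ H]

/-- restriction of a family of linear maps -/
private noncomputable def ubr (M : B →ₗ[ℂ] (H →ₗ[ℂ] H)) (K : Submodule ℂ H)
    (hK : ∀ x, ∀ v ∈ K, M x v ∈ K) : B →ₗ[ℂ] (K →ₗ[ℂ] K) where
  toFun x := (M x).restrict (hK x)
  map_add' x y := by
    refine LinearMap.ext fun v => Subtype.ext ?_
    show M (x + y) v = M x v + M y v
    rw [map_add, LinearMap.add_apply]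
  map_smul' r x := by
    refine LinearMap.ext fun v => Subtype.ext ?_
    show M (r • x) v = r • M x v
    rw [map_smul, LinearMap.smul_apply]

/-- restriction of a bimodule -/
private noncomputable def ubK (b : Bimod B H) (K : Submodule ℂ H)
    (hL : ∀ x, ∀ v ∈ K, b.L x v ∈ K) (hR : ∀ x, ∀ v ∈ K, b.R x v ∈ K) : Bimod B K where
  L := ubr b.L K hL
  R := ubr b.R K hR
  L_one v := Subtype.ext (b.L_one v)
  R_one v := Subtype.ext (b.R_one v)
  L_mul x y v := Subtype.ext (b.L_mul x y v)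
  R_mul x y v := Subtype.ext (b.R_mul x y v)
  comm x y v := Subtype.ext (b.comm x y v)
  L_adj x v w := b.L_adj x v w
  R_adj x v w := b.R_adj x v w

private lemma ub_hilb [PartialOrder B] [StarOrderedRing B] {τ : B →ₗ[ℂ] ℂ} (hτ : Trc τ)
    (b : Bimod B H) (ξ : H) (hL : ∀ x, ‖b.L x ξ‖ ^ 2 ≤ hs τ x) (hR : ∀ x, ‖b.R x ξ‖ ^ 2 ≤ hs τ x) :
    ∃ (H' : Type) (_ : NormedAddCommGroup H') (_ : InnerProductSpace ℂ H') (_ : CompleteSpace H')
      (L R : B →ₗ[ℂ] (H' →L[ℂ] H')) (ξ' : H'), HBim τ H' L R ∧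
      (∀ x v, ‖L x v‖ ≤ ‖x‖ * ‖v‖) ∧ (∀ x v, ‖R x v‖ ≤ ‖x‖ * ‖v‖) ∧
      ∀ x y, inner ℂ ξ' (L x (R y ξ')) = inner ℂ ξ (b.L x (b.R y ξ)) := by
  set S : Set H := {v | ∃ c d, v = b.L c (b.R d ξ)} with hS
  set K : Submodule ℂ H := Submodule.span ℂ S with hK
  have hLK : ∀ x, ∀ v ∈ K, b.L x v ∈ K := by
    intro x v hv
    induction hv using Submodule.span_induction with
    | mem v hv =>
      obtain ⟨c, d, rfl⟩ := hv
      rw [← b.L_mul]
      exact Submodule.subset_span ⟨x * c, d, rfl⟩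
    | zero => rw [map_zero]; exact K.zero_mem
    | add v w _ _ hv hw => rw [map_add]; exact K.add_mem hv hw
    | smul r v _ hv => rw [map_smul]; exact K.smul_mem r hv
  have hRK : ∀ x, ∀ v ∈ K, b.R x v ∈ K := by
    intro x v hv
    induction hv using Submodule.span_induction with
    | mem v hv =>
      obtain ⟨c, d, rfl⟩ := hv
      rw [← b.comm, ← b.R_mul]
      exact Submodule.subset_span ⟨c, d * x, rfl⟩
    | zero => rw [map_zero]; exact K.zero_mem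
    | add v w _ _ hv hw => rw [map_add]; exact K.add_mem hv hw
    | smul r v _ hv => rw [map_smul]; exact K.smul_mem r hv
  have hξ : ξ ∈ K := Submodule.subset_span ⟨1, 1, by rw [b.L_one, b.R_one]⟩
  have hLn : ∀ v ∈ K, NrmAt τ (fun x => ‖b.L x v‖) := by
    refine ub_span ?_
    rintro v ⟨c, d, rfl⟩
    refine ub_gen (C := ‖d‖ * ‖c‖) (by positivity) (fun x => norm_nonneg _) fun x => ?_
    rw [← b.L_mul, b.comm]
    calc ‖b.R d (b.L (x * c) ξ)‖ ^ 2 ≤ (‖d‖ * ‖b.L (x * c) ξ‖) ^ 2 :=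
          pow_le_pow_left₀ (norm_nonneg _) (ub_R b _ _) 2
      _ = ‖d‖ ^ 2 * ‖b.L (x * c) ξ‖ ^ 2 := mul_pow _ _ _
      _ ≤ ‖d‖ ^ 2 * (‖c‖ ^ 2 * hs τ x) :=
          mul_le_mul_of_nonneg_left ((hL _).trans (hs_mul_le' hτ x c)) (sq_nonneg _)
      _ = (‖d‖ * ‖c‖) ^ 2 * hs τ x := by ring
  have hRn : ∀ v ∈ K, NrmAt τ (fun x => ‖b.R x v‖) := by
    refine ub_span ?_
    rintro v ⟨c, d, rfl⟩
    refine ub_gen (C := ‖c‖ * ‖d‖) (by positivity) (fun x => norm_nonneg _) fun x => ?_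
    rw [← b.comm, ← b.R_mul]
    calc ‖b.L c (b.R (d * x) ξ)‖ ^ 2 ≤ (‖c‖ * ‖b.R (d * x) ξ‖) ^ 2 :=
          pow_le_pow_left₀ (norm_nonneg _) (ub_L b _ _) 2
      _ = ‖c‖ ^ 2 * ‖b.R (d * x) ξ‖ ^ 2 := mul_pow _ _ _
      _ ≤ ‖c‖ ^ 2 * (‖d‖ ^ 2 * hs τ x) :=
          mul_le_mul_of_nonneg_left ((hR _).trans (hs_mul_le hτ d x)) (sq_nonneg _)
      _ = (‖c‖ * ‖d‖) ^ 2 * hs τ x := by ring
  set b' : Bimod B K := ubK b K hLK hRK with hb'
  have hL' : ∀ (x : B) (v : K), ‖b'.L x v‖ ≤ ‖x‖ * ‖v‖ := fun x v => ub_L b x v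
  have hR' : ∀ (x : B) (v : K), ‖b'.R x v‖ ≤ ‖x‖ * ‖v‖ := fun x v => ub_R b x v
  refine ⟨UniformSpace.Completion K, inferInstance, inferInstance, inferInstance,
    ubE b'.L hL', ubE b'.R hR', ((⟨ξ, hξ⟩ : K) : UniformSpace.Completion K),
    ub_HBim b' hL' hR' (fun v => hLn v v.2) (fun v => hRn v v.2), ubE_norm _ _, ubE_norm _ _, ?_⟩
  intro x y
  rw [ubE_coe, ubE_coe, UniformSpace.Completion.inner_coe]
  rfl

end restr

theorem pUnifB (hBim : StBim) : StUnifB := by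
  intro B _ _ _ τ hτ _ hT ε hε
  obtain ⟨F, δ, hδ, hF⟩ := hT (Real.sqrt (ε / 2)) (by positivity)
  classical
  choose u c hx hc using fun x : B => CStarAlgebra.exists_sum_four_unitary x
  set M : ℝ := (∑ x ∈ F, ∑ i, ‖c x i‖) + 1 with hM
  have hM1 : 0 < M := by
    have : 0 ≤ ∑ x ∈ F, ∑ i, ‖c x i‖ :=
      Finset.sum_nonneg fun x _ => Finset.sum_nonneg fun i _ => norm_nonneg _
    linarith
  have hMx : ∀ x ∈ F, ∑ i, ‖c x i‖ ≤ M := by
    intro x hx
    have h1 : ∑ i, ‖c x i‖ ≤ ∑ x ∈ F, ∑ i, ‖c x i‖ :=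
      Finset.single_le_sum (f := fun x => ∑ i, ‖c x i‖)
        (fun x _ => Finset.sum_nonneg fun i _ => norm_nonneg _) hx
    linarith
  refine ⟨F.biUnion fun x => Finset.univ.image fun i => (u x i : B), (δ / M) ^ 2 / 2, ?_,
    by positivity, ?_⟩
  · intro v hv
    simp only [Finset.mem_biUnion, Finset.mem_image, Finset.mem_univ, true_and] at hv
    obtain ⟨x, _, i, rfl⟩ := hv
    exact ⟨Unitary.coe_star_mul_self (u x i), Unitary.coe_mul_star_self (u x i)⟩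
  · intro φ hφ _ hV w hw
    obtain ⟨H, _, _, b, ξ, hb⟩ := hBim B τ φ hτ hφ
    obtain ⟨h1, h2, _⟩ := ub_calc (τ := τ) (φ := φ) (L := fun x v => b.L x v)
      (R := fun x v => b.R x v) b.R_one b.L_one b.L_mul b.R_mul b.L_adj b.R_adj hb
    have hsub : ∀ x, rt τ (star x * x * φ 1) ≤ hs τ x := by
      intro x
      have := rt_mul_mono' hτ hφ.one (nonneg_star_mul x)
      rwa [mul_one] at this
    have hsub' : ∀ x, rt τ (φ (x * star x)) ≤ hs τ x := by
      intro x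
      have h3 : rt τ (φ (x * star x)) = rt τ (x * star x * φ 1) := by
        unfold rt
        have := hφ.symm (x * star x) 1
        rw [mul_one] at this
        rw [this]
      rw [h3]
      have := hsub (star x)
      rwa [star_star, hs_star hτ] at this
    obtain ⟨H', _, _, _, L, R, ξ', hHB, hLn, hRn, hin⟩ := ub_hilb hτ b ξ
      (fun x => (h1 x).trans_le (hsub x)) (fun x => (h2 x).trans_le (hsub' x))
    have hin' : ∀ x y, inner ℂ ξ' (L x (R y ξ')) = τ (x * φ y) := fun x y =>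
      (hin x y).trans (hb x y)
    obtain ⟨g1, g2, g3⟩ := ub_calc (τ := τ) (φ := φ) (L := fun x v => L x v)
      (R := fun x v => R x v) hHB.R_one hHB.L_one hHB.L_mul hHB.R_mul hHB.L_adj hHB.R_adj hin'
    have hclose : ∀ x ∈ F, ‖L x ξ' - R x ξ'‖ ≤ δ := by
      intro x hxF
      have e1 : L x ξ' - R x ξ' = ∑ i, c x i • (L (u x i : B) ξ' - R (u x i : B) ξ') := by
        conv_lhs => rw [hx x]
        rw [map_sum, map_sum, _root_.sum_apply, _root_.sum_apply,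
          ← Finset.sum_sub_distrib]
        refine Finset.sum_congr rfl fun i _ => ?_
        rw [map_smul, map_smul, _root_.smul_apply, _root_.smul_apply,
          smul_sub]
      rw [e1]
      refine (norm_sum_le _ _).trans ?_
      have e2 : ∀ i ∈ (Finset.univ : Finset (Fin 4)),
          ‖c x i • (L (u x i : B) ξ' - R (u x i : B) ξ')‖ ≤ ‖c x i‖ * (δ / M) := by
        intro i _
        rw [norm_smul]
        refine mul_le_mul_of_nonneg_left ?_ (norm_nonneg _)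
        have hU : Un (u x i : B) :=
          ⟨Unitary.coe_star_mul_self (u x i), Unitary.coe_mul_star_self (u x i)⟩
        have e3 := g3 _ hU
        have e4 := hV (u x i : B) (Finset.mem_biUnion.2 ⟨x, hxF, Finset.mem_image.2
          ⟨i, Finset.mem_univ i, rfl⟩⟩)
        have e5 : ‖L (u x i : B) ξ' - R (u x i : B) ξ'‖ ^ 2 ≤ (δ / M) ^ 2 := by
          rw [e3]; linarith
        exact (pow_le_pow_iff_left₀ (norm_nonneg _) (by positivity) two_ne_zero).1 e5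
      refine (Finset.sum_le_sum e2).trans ?_
      rw [← Finset.sum_mul, mul_div_assoc', div_le_iff₀ hM1, mul_comm δ]
      exact mul_le_mul_of_nonneg_right (hMx x hxF) hδ.le
    obtain ⟨η, hη, hη'⟩ := hF H' L R hHB ξ' (fun x => (g1 x).trans_le (hsub x))
      (fun x => (g2 x).trans_le (hsub' x)) hclose
    have e1 := g3 w hw
    have e2 : ‖L w ξ' - R w ξ'‖ ≤ 2 * Real.sqrt (ε / 2) := by
      have e3 : L w ξ' - R w ξ' = L w (ξ' - η) - R w (ξ' - η) := by
        rw [map_sub, map_sub, hη]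
        abel
      rw [e3]
      refine (norm_sub_le _ _).trans ?_
      have hw1 := norm_unit_le hw
      have e4 : ‖L w (ξ' - η)‖ ≤ Real.sqrt (ε / 2) := by
        refine (hLn w _).trans ?_
        calc ‖w‖ * ‖ξ' - η‖ ≤ 1 * Real.sqrt (ε / 2) :=
              mul_le_mul hw1 hη' (norm_nonneg _) zero_le_one
          _ = _ := one_mul _
      have e5 : ‖R w (ξ' - η)‖ ≤ Real.sqrt (ε / 2) := by
        refine (hRn w _).trans ?_
        calc ‖w‖ * ‖ξ' - η‖ ≤ 1 * Real.sqrt (ε / 2) :=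
              mul_le_mul hw1 hη' (norm_nonneg _) zero_le_one
          _ = _ := one_mul _
      linarith
    have e3 : ‖L w ξ' - R w ξ'‖ ^ 2 ≤ (2 * Real.sqrt (ε / 2)) ^ 2 :=
      pow_le_pow_left₀ (norm_nonneg _) e2 2
    rw [mul_pow, Real.sq_sqrt (by positivity)] at e3
    have e4 : ‖L w ξ' - R w ξ'‖ ^ 2 = 2 * (rt τ (φ 1) - rt τ (star w * φ w)) := e1
    rw [e4] at e3
    linarith

end Helper61.HT
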