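import Pool.Agent.Helper61.HT.PAvg
import Pool.Agent.Helper61.HT.PBim
import Pool.Agent.Helper61.HT.PCC
import Pool.Agent.Helper61.HT.PCE
import Pool.Agent.Helper61.HT.PCmp
import Pool.Agent.Helper61.HT.PComp
import Pool.Agent.Helper61.HT.PConn
import Pool.Agent.Helper61.HT.PCost
import Pool.Agent.Helper61.HT.PD
import Pool.Agent.Helper61.HT.PDiv
import Pool.Agent.Helper61.HT.PDn
import Pool.Agent.Helper61.HT.PEnM
import Pool.Agent.Helper61.HT.PFF1
import Pool.Agent.Helper61.HT.PFF2
import Pool.Agent.Helper61.HT.PFMT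
import Pool.Agent.Helper61.HT.PFin
import Pool.Agent.Helper61.HT.PG2
import Pool.Agent.Helper61.HT.PGapB
import Pool.Agent.Helper61.HT.PGreedy
import Pool.Agent.Helper61.HT.PHF
import Pool.Agent.Helper61.HT.PInit
import Pool.Agent.Helper61.HT.PIter
import Pool.Agent.Helper61.HT.PKS
import Pool.Agent.Helper61.HT.PLQ
import Pool.Agent.Helper61.HT.PLQ0
import Pool.Agent.Helper61.HT.PLim
import Pool.Agent.Helper61.HT.PLoc
import Pool.Agent.Helper61.HT.PLy
import Pool.Agent.Helper61.HT.PMU
import Pool.Agent.Helper61.HT.PMainG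
import Pool.Agent.Helper61.HT.PPE
import Pool.Agent.Helper61.HT.PPS
import Pool.Agent.Helper61.HT.PPert
import Pool.Agent.Helper61.HT.PPhi
import Pool.Agent.Helper61.HT.PPol
import Pool.Agent.Helper61.HT.PPotA
import Pool.Agent.Helper61.HT.PPotB
import Pool.Agent.Helper61.HT.PR
import Pool.Agent.Helper61.HT.PRNs
import Pool.Agent.Helper61.HT.PRR
import Pool.Agent.Helper61.HT.PRS
import Pool.Agent.Helper61.HT.PRound1
import Pool.Agent.Helper61.HT.PRound2
import Pool.Agent.Helper61.HT.PRy
import Pool.Agent.Helper61.HT.PSI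
import Pool.Agent.Helper61.HT.PScp
import Pool.Agent.Helper61.HT.PSpec
import Pool.Agent.Helper61.HT.PSumA
import Pool.Agent.Helper61.HT.PSumL
import Pool.Agent.Helper61.HT.PSumP
import Pool.Agent.Helper61.HT.PSupp
import Pool.Agent.Helper61.HT.PTL
import Pool.Agent.Helper61.HT.PTT
import Pool.Agent.Helper61.HT.PUL
import Pool.Agent.Helper61.HT.PUnifA
import Pool.Agent.Helper61.HT.PUnifB

/-!
# Project HT: all parts together
-/

namespace Helper61.HT

open scoped ComplexOrder
open Filter Topology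

theorem aSumA : StSumA := pSumA pG2
theorem aSumL : StSumL := pSumL pLy
theorem aSumP : StSumP := pSumP pPotA pPotB
theorem aSpec : StSpec := pSpec pSupp
theorem aRound1 : StRound1 := pRound1 aSpec
theorem aRound2 : StRound2 := pRound2 aSpec
theorem aCmp : StCmp := pCmp pPol
theorem aDiv : StDiv := pDiv aSpec aCmp
theorem aMU : StMU := pMU aCmp aDiv
theorem aLQ0 : StLQ0 := pLQ0 aSpec aMU aDiv
theorem aLQ : StLQ := pLQ aLQ0
theorem aPE : StPE := pPE pPol aCmp
theorem aEnM : StEnM := pEnM pBim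
theorem aAvg : StAvg := pAvg pBim pTT pScp
theorem aHF : StHF := pHF pFF1 pTL
theorem aSI : StSI := pSI pTT pScp aEnM aAvg aHF aRound1 pPert
theorem aCC : StCC := pCC pTT pScp aEnM aAvg aHF aRound2 pPert
theorem aPhi : StPhi := pPhi pBim
theorem aCost : StCost := pCost pFF1 pFF2 aPhi
theorem aIter : StIter := pIter pScp aEnM aPhi aHF pFF1
theorem aUL : StUL := pUL pScp pComp aEnM aPhi aCost aIter aRound2
theorem aD : StD := pD pFF1 pFF2 pTL pDn pConn
theorem aGreedy : StGreedy := pGreedy aHF aSumA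
theorem aInit : StInit := pInit pKS pRN pScp aEnM aHF
theorem aRy : StRy := pRy aRound2
theorem aR : StR := pR aLQ pRS aRy aPE
theorem aLoc : StLoc := pLoc pTT aHF aSI aCC aUL aD
theorem aFMT : StFMT := pFMT pTT pRR pPert aSumA aSumL aSumP pScp aEnM aHF aSI aInit aGreedy
  aLoc aR
theorem aMainG : StMainG := pMainG aFMT
theorem aUnifA : StUnifA := pUnifA aPhi (pPS pSupp)
theorem aUnifB : StUnifB := pUnifB pBim
theorem aLim : StLim := pLim pRN aPhi
theorem aGapB : StGapB := pGapB aLim aEnM pScp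
theorem aFin : StFin := pFin aMainG aGapB aLim pCE aPE

end Helper61.HT
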