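import Pool.Agent.Helper61.HT.StG
import Pool.Agent.Helper61.HT.LibN

/-!
# Project HTG: subtracial vectors in the closed span of the central vectors
-/

set_option autoImplicit false

namespace Helper61.HT

open scoped ComplexOrder
open Filter Topology

section

variable {B : Type} [CStarAlgebra B] {τ : B →ₗ[ℂ] ℂ} {H : Type} [NormedAddCommGroup H]
  [InnerProductSpace ℂ H] {L R : B →ₗ[ℂ] (H →L[ℂ] H)}

private lemma ap_cen_add {c d : H} (hc : Cen L R c) (hd : Cen L R d) : Cen L R (c + d) := by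
  intro x
  rw [map_add, map_add, hc x, hd x]

private lemma ap_cen_smul {c : H} (a : ℂ) (hc : Cen L R c) : Cen L R (a • c) := by
  intro x
  rw [map_smul, map_smul, hc x]

private lemma ap_cen_zero : Cen L R (0 : H) := by
  intro x
  rw [map_zero, map_zero]

/-- The submodule of central vectors. -/
private def ap_CS (L R : B →ₗ[ℂ] (H →L[ℂ] H)) : Submodule ℂ H where
  carrier := {c | Cen L R c}
  add_mem' := fun hc hd => ap_cen_add hc hd
  zero_mem' := ap_cen_zero
  smul_mem' := fun a _ hc => ap_cen_smul a hc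

private lemma ap_rep {v : H} (hv : v ∈ CenSp L R) :
    ∃ (n : ℕ) (x : Fin n → B) (c : Fin n → H), Orthonormal ℂ c ∧ (∀ j, Cen L R (c j)) ∧
      v = ∑ j, L (x j) (c j) := by
  classical
  obtain ⟨T, hT, hvT⟩ := Submodule.mem_span_finite_of_mem_span hv
  have hT' : ∀ t : T, ∃ (x : B) (c : H), Cen L R c ∧ (t : H) = L x c := fun t => hT t.2
  choose X C hC hXC using hT'
  let V : Submodule ℂ H := Submodule.span ℂ (Set.range C)
  have hVC : V ≤ ap_CS L R := by
    refine Submodule.span_le.2 ?_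
    rintro _ ⟨t, rfl⟩
    exact hC t
  have : FiniteDimensional ℂ V := FiniteDimensional.span_of_finite ℂ (Set.finite_range C)
  let b := stdOrthonormalBasis ℂ V
  refine ⟨Module.finrank ℂ V, ?_⟩
  have key : ∃ x : Fin (Module.finrank ℂ V) → B, v = ∑ j, L (x j) ((b j : V) : H) := by
    refine Submodule.span_induction (p := fun w _ => ∃ x : Fin (Module.finrank ℂ V) → B,
      w = ∑ j, L (x j) ((b j : V) : H)) ?_ ?_ ?_ ?_ hvT
    · intro w hw
      let c : V := ⟨C ⟨w, hw⟩, Submodule.subset_span ⟨_, rfl⟩⟩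
      have h1 : w = L (X ⟨w, hw⟩) (c : H) := hXC ⟨w, hw⟩
      have h2 : (c : H) = ∑ j, (inner ℂ (b j) c : ℂ) • ((b j : V) : H) := by
        conv_lhs => rw [← b.sum_repr' c]
        simp
      refine ⟨fun j => (inner ℂ (b j) c : ℂ) • X ⟨w, hw⟩, ?_⟩
      refine h1.trans ?_
      rw [h2, map_sum]
      refine Finset.sum_congr rfl fun j _ => ?_
      rw [map_smul, map_smul]
      rfl
    · exact ⟨fun _ => 0, by simp⟩
    · rintro w w' _ _ ⟨x, hx⟩ ⟨x', hx'⟩
      refine ⟨fun j => x j + x' j, ?_⟩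
      rw [hx, hx', ← Finset.sum_add_distrib]
      refine Finset.sum_congr rfl fun j _ => ?_
      rw [map_add]
      rfl
    · rintro a w _ ⟨x, hx⟩
      refine ⟨fun j => a • x j, ?_⟩
      rw [hx, Finset.smul_sum]
      refine Finset.sum_congr rfl fun j _ => ?_
      rw [map_smul]
      rfl
  obtain ⟨x, hx⟩ := key
  refine ⟨x, fun j => ((b j : V) : H), ?_, fun j => hVC (b j).2, hx⟩
  exact b.orthonormal.comp_linearIsometry V.subtypeₗᵢ

/-- `L s` is a contraction. -/
private lemma ap_L_le [PartialOrder B] [StarOrderedRing B] (hB : HBim τ H L R) {s : B}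
    (hs1 : s * s ≤ 1) (hs0 : star s = s) (v : H) : ‖L s v‖ ≤ ‖v‖ := by
  obtain ⟨t, ht, htt⟩ := exists_sqrt (sub_nonneg.2 hs1)
  have ht0 : star t = t := herm_of_nonneg ht
  have h1 : ‖L s v‖ ^ 2 + ‖L t v‖ ^ 2 = ‖v‖ ^ 2 := by
    have e1 : (inner ℂ (L s v) (L s v) : ℂ) = inner ℂ v (L (s * s) v) := by
      rw [hB.L_adj, hs0, hB.L_mul]
    have e2 : (inner ℂ (L t v) (L t v) : ℂ) = inner ℂ v (L (t * t) v) := by
      rw [hB.L_adj, ht0, hB.L_mul]
    have e3 : (inner ℂ (L s v) (L s v) : ℂ) + inner ℂ (L t v) (L t v) = inner ℂ v v := by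
      rw [e1, e2, ← inner_add_right]
      have : L (s * s) v + L (t * t) v = v := by
        rw [htt]
        have : L (s * s) v + L (1 - s * s) v = L (s * s + (1 - s * s)) v := by
          rw [map_add]; rfl
        rw [this, add_sub_cancel, hB.L_one]
      rw [this]
    rw [inner_self_eq_norm_sq_to_K, inner_self_eq_norm_sq_to_K, inner_self_eq_norm_sq_to_K] at e3
    exact_mod_cast e3
  have h2 : 0 ≤ ‖L t v‖ ^ 2 := by positivity
  exact (sq_le_sq₀ (norm_nonneg _) (norm_nonneg _)).1 (by linarith)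

private lemma ap_R_le [PartialOrder B] [StarOrderedRing B] (hB : HBim τ H L R) {s : B}
    (hs1 : s * s ≤ 1) (hs0 : star s = s) (v : H) : ‖R s v‖ ≤ ‖v‖ := by
  obtain ⟨t, ht, htt⟩ := exists_sqrt (sub_nonneg.2 hs1)
  have ht0 : star t = t := herm_of_nonneg ht
  have h1 : ‖R s v‖ ^ 2 + ‖R t v‖ ^ 2 = ‖v‖ ^ 2 := by
    have e1 : (inner ℂ (R s v) (R s v) : ℂ) = inner ℂ v (R (s * s) v) := by
      rw [hB.R_adj, hs0, hB.R_mul]
    have e2 : (inner ℂ (R t v) (R t v) : ℂ) = inner ℂ v (R (t * t) v) := by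
      rw [hB.R_adj, ht0, hB.R_mul]
    have e3 : (inner ℂ (R s v) (R s v) : ℂ) + inner ℂ (R t v) (R t v) = inner ℂ v v := by
      rw [e1, e2, ← inner_add_right]
      have : R (s * s) v + R (t * t) v = v := by
        rw [htt]
        have : R (s * s) v + R (1 - s * s) v = R (s * s + (1 - s * s)) v := by
          rw [map_add]; rfl
        rw [this, add_sub_cancel, hB.R_one]
      rw [this]
    rw [inner_self_eq_norm_sq_to_K, inner_self_eq_norm_sq_to_K, inner_self_eq_norm_sq_to_K] at e3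
    exact_mod_cast e3
  have h2 : 0 ≤ ‖R t v‖ ^ 2 := by positivity
  exact (sq_le_sq₀ (norm_nonneg _) (norm_nonneg _)).1 (by linarith)

end

theorem pAP (hTC : StTC) (hTru : StTru) : StAP := by
  intro B _ _ _ τ hII H _ _ _ L R hB η hη hSub ε hε
  have hτ : Trc τ := hII.trc
  -- the parameter
  let e : ℝ := min 1 (min (ε / 2) (ε ^ 2 / 96))
  have he0 : 0 < e := lt_min one_pos (lt_min (by positivity) (by positivity))
  have he1 : e ≤ 1 := min_le_left _ _
  have he2 : e ≤ ε / 2 := (min_le_right _ _).trans (min_le_left _ _)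
  have he3 : e ≤ ε ^ 2 / 96 := (min_le_right _ _).trans (min_le_right _ _)
  obtain ⟨v, hv, hve⟩ := Metric.mem_closure_iff.1 hη e he0
  obtain ⟨n, x, c, hc, hcc, rfl⟩ := ap_rep hv
  rw [dist_eq_norm] at hve
  -- the norm formula
  have hnorm : ∀ y : Fin n → B, ‖∑ j, L (y j) (c j)‖ ^ 2 = ∑ j, hs τ (y j) := by
    intro y
    have h1 : (inner ℂ (∑ j, L (y j) (c j)) (∑ j, L (y j) (c j)) : ℂ)
        = ∑ j, τ (star (y j) * y j) := by
      rw [sum_inner]
      refine Finset.sum_congr rfl fun i _ => ?_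
      rw [inner_sum, Finset.sum_eq_single i]
      · rw [hTC B τ hII H L R hB (c i) (c i) (hcc i) (hcc i) (y i) (y i)]
        rw [inner_self_eq_norm_sq_to_K, hc.1 i]
        simp
      · intro j _ hj
        rw [hTC B τ hII H L R hB (c i) (c j) (hcc i) (hcc j) (y i) (y j), hc.2 (Ne.symm hj),
          mul_zero]
      · intro h
        exact absurd (Finset.mem_univ i) h
    have h2 := congrArg Complex.re h1
    rw [Complex.re_sum, inner_self_eq_norm_sq_to_K] at h2
    refine Eq.trans ?_ h2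
    norm_cast
  have hL : ∀ s : B, L s (∑ j, L (x j) (c j)) = ∑ j, L (s * x j) (c j) := by
    intro s
    rw [map_sum]
    exact Finset.sum_congr rfl fun j _ => (hB.L_mul s (x j) (c j)).symm
  have hR : ∀ s : B, R s (∑ j, L (x j) (c j)) = ∑ j, L (x j * s) (c j) := by
    intro s
    rw [map_sum]
    refine Finset.sum_congr rfl fun j _ => ?_
    rw [← hB.comm, ← hcc j s, ← hB.L_mul]
  have hsub : ∀ a : ℝ, ∀ g : B, 0 ≤ g → g ≤ 1 → 0 ≤ a → a ≤ Real.sqrt (rt τ g) + e →
      a ^ 2 ≤ rt τ g + 3 * e := by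
    intro a g hg hg1 ha h
    have h1 : 0 ≤ rt τ g := rt_nonneg hτ hg
    have h2 : rt τ g ≤ 1 := by
      rw [← rt_one hτ]; exact rt_mono hτ hg1
    have h3 : Real.sqrt (rt τ g) ≤ 1 := Real.sqrt_le_one.2 h2
    have h4 := Real.sq_sqrt h1
    have h5 := Real.sqrt_nonneg (rt τ g)
    nlinarith
  -- the truncation
  obtain ⟨y, hy1, hy2, hy3⟩ := hTru B τ n x (3 * e) hτ (by positivity)
    (by
      intro g hg hg1
      obtain ⟨s, hs0, hss⟩ := exists_sqrt hg
      have hss' : star s = s := herm_of_nonneg hs0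
      have h1 : rt τ (g * ∑ j, x j * star (x j)) = ‖L s (∑ j, L (x j) (c j))‖ ^ 2 := by
        rw [hL, hnorm, Finset.mul_sum, rt_sum]
        refine Finset.sum_congr rfl fun j _ => ?_
        rw [hs_eq_rt, star_mul, hss', ← hss]
        calc rt τ (s * s * (x j * star (x j))) = rt τ (s * s * x j * star (x j)) := by
              rw [mul_assoc (s * s)]
          _ = rt τ (star (x j) * (s * s) * x j) := rt_cycle hτ _ _ _
          _ = _ := by simp only [mul_assoc]
      rw [h1]
      refine hsub _ g hg hg1 (norm_nonneg _) ?_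
      have h2 : ‖L s η‖ ≤ Real.sqrt (rt τ g) := by
        rw [← hss]
        refine Real.le_sqrt_of_sq_le ?_
        have := hSub.1 s
        rwa [hs_eq_rt, hss'] at this
      have h3 : L s (∑ j, L (x j) (c j)) = L s η - L s (η - ∑ j, L (x j) (c j)) := by
        rw [map_sub]; abel
      rw [h3]
      refine (norm_sub_le _ _).trans (add_le_add h2 ?_)
      exact (ap_L_le hB (by rw [hss]; exact hg1) hss' _).trans hve.le)
    (by
      intro g hg hg1
      obtain ⟨s, hs0, hss⟩ := exists_sqrt hg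
      have hss' : star s = s := herm_of_nonneg hs0
      have h1 : rt τ (g * ∑ j, star (x j) * x j) = ‖R s (∑ j, L (x j) (c j))‖ ^ 2 := by
        rw [hR, hnorm, Finset.mul_sum, rt_sum]
        refine Finset.sum_congr rfl fun j _ => ?_
        rw [hs_eq_rt, star_mul, hss', ← hss]
        calc rt τ (s * s * (star (x j) * x j)) = rt τ (s * (s * (star (x j) * x j))) := by
              rw [mul_assoc]
          _ = rt τ (s * (star (x j) * x j) * s) := rt_mul_comm hτ _ _
          _ = _ := by simp only [mul_assoc]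
      rw [h1]
      refine hsub _ g hg hg1 (norm_nonneg _) ?_
      have h2 : ‖R s η‖ ≤ Real.sqrt (rt τ g) := by
        rw [← hss]
        refine Real.le_sqrt_of_sq_le ?_
        have := hSub.2 s
        rwa [hs_eq_rt, hss'] at this
      have h3 : R s (∑ j, L (x j) (c j)) = R s η - R s (η - ∑ j, L (x j) (c j)) := by
        rw [map_sub]; abel
      rw [h3]
      refine (norm_sub_le _ _).trans (add_le_add h2 ?_)
      exact (ap_R_le hB (by rw [hss]; exact hg1) hss' _).trans hve.le)
  refine ⟨n, y, c, hc, hcc, hy1, hy2, ?_⟩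
  have h1 : η - ∑ j, L (y j) (c j)
      = (η - ∑ j, L (x j) (c j)) + ∑ j, L (x j - y j) (c j) := by
    have : ∑ j, L (x j - y j) (c j) = ∑ j, L (x j) (c j) - ∑ j, L (y j) (c j) := by
      rw [← Finset.sum_sub_distrib]
      refine Finset.sum_congr rfl fun j _ => ?_
      rw [map_sub]
      rfl
    rw [this]
    abel
  rw [h1]
  refine (norm_add_le _ _).trans ?_
  have h2 : ‖∑ j, L (x j - y j) (c j)‖ ≤ ε / 2 := by
    refine (sq_le_sq₀ (norm_nonneg _) (by positivity)).1 ?_
    rw [hnorm]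
    nlinarith
  linarith

end Helper61.HT
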