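import Pool.Agent.Helper61.HT.StG
import Pool.Agent.Helper61.HT.LibN

/-!
# Project HT: direct sums of bimodules without central vectors
-/

namespace Helper61.HT

open scoped ComplexOrder ENNReal
open Filter Topology

section one

variable {B : Type} [CStarAlgebra B] {τ : B →ₗ[ℂ] ℂ} {H : Type}
  [NormedAddCommGroup H] [InnerProductSpace ℂ H] {L R : B →ₗ[ℂ] (H →L[ℂ] H)}

private lemma ds_bdd [PartialOrder B] [StarOrderedRing B] {M : B →ₗ[ℂ] (H →L[ℂ] H)} {c : B → B}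
    (h1 : ∀ v, M 1 v = v)
    (h2 : ∀ y, 0 ≤ y → ∀ v, 0 ≤ (inner ℂ v (M y v) : ℂ).re)
    (h3 : ∀ x v, ‖M x v‖ ^ 2 = (inner ℂ v (M (c x) v) : ℂ).re)
    (h4 : ∀ x, c x ≤ (‖x‖ ^ 2) • 1) (x : B) (v : H) : ‖M x v‖ ≤ ‖x‖ * ‖v‖ := by
  have h5 := h2 _ (sub_nonneg.2 (h4 x)) v
  have h6 : (‖x‖ ^ 2) • (1 : B) = ((‖x‖ ^ 2 : ℝ) : ℂ) • (1 : B) := (algebraMap_smul ℂ _ _).symm
  rw [h6, map_sub, ContinuousLinearMap.sub_apply, map_smul, ContinuousLinearMap.smul_apply, h1,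
    inner_sub_right, inner_smul_right, Complex.sub_re, Complex.re_ofReal_mul, ← h3] at h5
  have h7 : (inner ℂ v v : ℂ).re = ‖v‖ ^ 2 :=
    (InnerProductSpace.norm_sq_eq_re_inner (𝕜 := ℂ) v).symm
  rw [h7] at h5
  have h8 : ‖M x v‖ ^ 2 ≤ (‖x‖ * ‖v‖) ^ 2 := by rw [mul_pow]; linarith
  exact (pow_le_pow_iff_left₀ (norm_nonneg _) (by positivity) two_ne_zero).1 h8

private lemma ds_L [PartialOrder B] [StarOrderedRing B] (b : HBim τ H L R) (x : B) (v : H) :
    ‖L x v‖ ≤ ‖x‖ * ‖v‖ := by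
  refine ds_bdd (c := fun x => star x * x) b.L_one ?_ ?_ star_mul_le x v
  · intro y hy v
    obtain ⟨z, hz, rfl⟩ := exists_sqrt hy
    rw [b.L_mul]
    nth_rewrite 1 [← herm_of_nonneg hz]
    rw [← b.L_adj]
    exact (sq_nonneg _).trans_eq (InnerProductSpace.norm_sq_eq_re_inner (𝕜 := ℂ) (L z v))
  · intro x v
    rw [InnerProductSpace.norm_sq_eq_re_inner (𝕜 := ℂ), b.L_adj, ← b.L_mul]
    rfl

private lemma ds_R [PartialOrder B] [StarOrderedRing B] (b : HBim τ H L R) (x : B) (v : H) :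
    ‖R x v‖ ≤ ‖x‖ * ‖v‖ := by
  refine ds_bdd (c := fun x => x * star x) b.R_one ?_ ?_ mul_star_le x v
  · intro y hy v
    obtain ⟨z, hz, rfl⟩ := exists_sqrt hy
    rw [b.R_mul]
    nth_rewrite 1 [← herm_of_nonneg hz]
    rw [← b.R_adj]
    exact (sq_nonneg _).trans_eq (InnerProductSpace.norm_sq_eq_re_inner (𝕜 := ℂ) (R z v))
  · intro x v
    rw [InnerProductSpace.norm_sq_eq_re_inner (𝕜 := ℂ), b.R_adj, ← b.R_mul]
    rfl

end one

section sum

variable {B : Type} [CStarAlgebra B] {τ : B →ₗ[ℂ] ℂ} {I : Type} {H : I → Type}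
  [∀ i, NormedAddCommGroup (H i)] [∀ i, InnerProductSpace ℂ (H i)]

private lemma ds_sum (v : lp H 2) : Summable fun i => ‖v i‖ ^ 2 := by
  have h := (lp.memℓp v).summable (by norm_num : 0 < (2 : ℝ≥0∞).toReal)
  simpa using h

private lemma ds_norm (v : lp H 2) : ‖v‖ ^ 2 = ∑' i, ‖v i‖ ^ 2 := by
  have h := lp.norm_rpow_eq_tsum (by norm_num : 0 < (2 : ℝ≥0∞).toReal) v
  simpa using h

private lemma ds_mem (M : ∀ i, B →ₗ[ℂ] (H i →L[ℂ] H i)) (hM : ∀ i x v, ‖M i x v‖ ≤ ‖x‖ * ‖v‖)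
    (x : B) (v : lp H 2) : Memℓp (fun i => M i x (v i)) 2 := by
  refine memℓp_gen ?_
  have h : Summable fun i => ‖x‖ ^ 2 * ‖v i‖ ^ 2 := (ds_sum v).mul_left _
  have h2 : Summable fun i => ‖M i x (v i)‖ ^ 2 := by
    refine Summable.of_nonneg_of_le (fun i => sq_nonneg _) (fun i => ?_) h
    rw [← mul_pow]
    exact pow_le_pow_left₀ (norm_nonneg _) (hM i x (v i)) 2
  simpa using h2

/-- the diagonal operator -/
private noncomputable def dsT (M : ∀ i, B →ₗ[ℂ] (H i →L[ℂ] H i))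
    (hM : ∀ i x v, ‖M i x v‖ ≤ ‖x‖ * ‖v‖) (x : B) (v : lp H 2) : lp H 2 :=
  ⟨fun i => M i x (v i), ds_mem M hM x v⟩

private lemma dsT_app (M : ∀ i, B →ₗ[ℂ] (H i →L[ℂ] H i))
    (hM : ∀ i x v, ‖M i x v‖ ≤ ‖x‖ * ‖v‖) (x : B) (v : lp H 2) (i : I) :
    dsT M hM x v i = M i x (v i) := rfl

private lemma dsT_norm (M : ∀ i, B →ₗ[ℂ] (H i →L[ℂ] H i))
    (hM : ∀ i x v, ‖M i x v‖ ≤ ‖x‖ * ‖v‖) (x : B) (v : lp H 2) :
    ‖dsT M hM x v‖ ≤ ‖x‖ * ‖v‖ := by
  have h8 : ‖dsT M hM x v‖ ^ 2 ≤ (‖x‖ * ‖v‖) ^ 2 := by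
    rw [mul_pow, ds_norm, ds_norm, ← tsum_mul_left]
    refine Summable.tsum_le_tsum (fun i => ?_) (ds_sum _) ((ds_sum v).mul_left _)
    rw [← mul_pow]
    exact pow_le_pow_left₀ (norm_nonneg _) (hM i x (v i)) 2
  exact (pow_le_pow_iff_left₀ (norm_nonneg _) (by positivity) two_ne_zero).1 h8

/-- the diagonal operator as a continuous linear map -/
private noncomputable def dsC (M : ∀ i, B →ₗ[ℂ] (H i →L[ℂ] H i))
    (hM : ∀ i x v, ‖M i x v‖ ≤ ‖x‖ * ‖v‖) (x : B) : lp H 2 →L[ℂ] lp H 2 :=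
  LinearMap.mkContinuous
    { toFun := dsT M hM x
      map_add' := fun v w => lp.ext (funext fun i => by
        rw [lp.coeFn_add, Pi.add_apply, dsT_app, dsT_app, dsT_app, lp.coeFn_add, Pi.add_apply,
          map_add])
      map_smul' := fun c v => lp.ext (funext fun i => by
        rw [lp.coeFn_smul, Pi.smul_apply, dsT_app, dsT_app, lp.coeFn_smul, Pi.smul_apply,
          map_smul]
        rfl) }
    ‖x‖ (dsT_norm M hM x)

/-- the diagonal representation -/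
private noncomputable def dsM (M : ∀ i, B →ₗ[ℂ] (H i →L[ℂ] H i))
    (hM : ∀ i x v, ‖M i x v‖ ≤ ‖x‖ * ‖v‖) : B →ₗ[ℂ] (lp H 2 →L[ℂ] lp H 2) where
  toFun := dsC M hM
  map_add' x y := ContinuousLinearMap.ext fun v => lp.ext (funext fun i => by
    show M i (x + y) (v i) = M i x (v i) + M i y (v i)
    rw [map_add, ContinuousLinearMap.add_apply])
  map_smul' c x := ContinuousLinearMap.ext fun v => lp.ext (funext fun i => by
    show M i (c • x) (v i) = c • M i x (v i)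
    rw [map_smul, ContinuousLinearMap.smul_apply])

private lemma dsM_app (M : ∀ i, B →ₗ[ℂ] (H i →L[ℂ] H i))
    (hM : ∀ i x v, ‖M i x v‖ ≤ ‖x‖ * ‖v‖) (x : B) (v : lp H 2) (i : I) :
    dsM M hM x v i = M i x (v i) := rfl

private lemma dsM_norm (M : ∀ i, B →ₗ[ℂ] (H i →L[ℂ] H i))
    (hM : ∀ i x v, ‖M i x v‖ ≤ ‖x‖ * ‖v‖) (x : B) (v : lp H 2) :
    ‖dsM M hM x v‖ ≤ ‖x‖ * ‖v‖ := dsT_norm M hM x v

private lemma dsM_adj (M : ∀ i, B →ₗ[ℂ] (H i →L[ℂ] H i))
    (hM : ∀ i x v, ‖M i x v‖ ≤ ‖x‖ * ‖v‖)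
    (h : ∀ i x v w, inner ℂ (M i x v) w = inner ℂ v (M i (star x) w)) (x : B) (v w : lp H 2) :
    inner ℂ (dsM M hM x v) w = inner ℂ v (dsM M hM (star x) w) := by
  rw [lp.inner_eq_tsum, lp.inner_eq_tsum]
  exact tsum_congr fun i => h i x (v i) (w i)

private lemma dsM_single [DecidableEq I] (M : ∀ i, B →ₗ[ℂ] (H i →L[ℂ] H i))
    (hM : ∀ i x v, ‖M i x v‖ ≤ ‖x‖ * ‖v‖) (x : B) (i : I) (a : H i) :
    dsM M hM x (lp.single 2 i a) = lp.single 2 i (M i x a) := by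
  refine lp.ext (funext fun j => ?_)
  rw [dsM_app]
  by_cases hj : j = i
  · subst hj
    rw [lp.single_apply_self, lp.single_apply_self]
  · rw [lp.single_apply_ne _ _ _ hj, lp.single_apply_ne _ _ _ hj, map_zero]

/-- normality -/
private def DsN (τ : B →ₗ[ℂ] ℂ) (f : B → ℝ) : Prop :=
  ∀ ε : ℝ, 0 < ε → ∃ δ : ℝ, 0 < δ ∧ ∀ x, ‖x‖ ≤ 1 → hs τ x ≤ δ → f x ≤ ε

private lemma dsM_normal (M : ∀ i, B →ₗ[ℂ] (H i →L[ℂ] H i))
    (hM : ∀ i x v, ‖M i x v‖ ≤ ‖x‖ * ‖v‖)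
    (h0 : ∀ i v, DsN τ (fun x => ‖M i x v‖)) (v : lp H 2) :
    DsN τ (fun x => ‖dsM M hM x v‖) := by
  classical
  have hfin : ∀ s : Finset I, DsN τ (fun x => ‖dsM M hM x (∑ i ∈ s, lp.single 2 i (v i))‖) := by
    intro s
    induction s using Finset.induction_on with
    | empty =>
      intro ε hε
      refine ⟨1, one_pos, fun x _ _ => ?_⟩
      simp only [Finset.sum_empty, map_zero, norm_zero]
      exact hε.le
    | insert i s hi ih =>
      intro ε hε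
      obtain ⟨δ, hδ, h1⟩ := ih (ε / 2) (by positivity)
      obtain ⟨δ', hδ', h2⟩ := h0 i (v i) (ε / 2) (by positivity)
      refine ⟨min δ δ', lt_min hδ hδ', fun x hx hx' => ?_⟩
      have h3 := h1 x hx (hx'.trans (min_le_left _ _))
      have h4 := h2 x hx (hx'.trans (min_le_right _ _))
      simp only at h3 h4 ⊢
      rw [Finset.sum_insert hi, map_add, dsM_single]
      refine (norm_add_le _ _).trans ?_
      rw [lp.norm_single (by norm_num)]
      linarith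
  intro ε hε
  have hs1 : HasSum (fun i => lp.single 2 i (v i : H i)) v :=
    lp.hasSum_single (by norm_num) v
  have hs2 := Metric.tendsto_nhds.1 hs1 (ε / 2) (by positivity)
  obtain ⟨s, hs3⟩ := hs2.exists
  obtain ⟨δ, hδ, h1⟩ := hfin s (ε / 2) (by positivity)
  refine ⟨δ, hδ, fun x hx hx' => ?_⟩
  have h2 := h1 x hx hx'
  simp only at h2 ⊢
  set w : lp H 2 := ∑ i ∈ s, lp.single 2 i (v i) with hw
  have h3 : dsM M hM x v = dsM M hM x (v - w) + dsM M hM x w := by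
    rw [← map_add, sub_add_cancel]
  have h4 : ‖dsM M hM x (v - w)‖ ≤ ε / 2 := by
    refine (dsM_norm M hM x (v - w)).trans ?_
    rw [dist_comm, dist_eq_norm] at hs3
    calc ‖x‖ * ‖v - w‖ ≤ 1 * ‖v - w‖ := mul_le_mul_of_nonneg_right hx (norm_nonneg _)
      _ ≤ ε / 2 := by rw [one_mul]; exact hs3.le
  rw [h3]
  refine (norm_add_le _ _).trans ?_
  linarith

end sum

/-- Direct sums of bimodules without central vectors. -/
theorem pDS : StDS := by
  intro B _ _ _ τ I H _ _ _ L R hb hc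
  classical
  have hL : ∀ i x v, ‖L i x v‖ ≤ ‖x‖ * ‖v‖ := fun i x v => ds_L (hb i) x v
  have hR : ∀ i x v, ‖R i x v‖ ≤ ‖x‖ * ‖v‖ := fun i x v => ds_R (hb i) x v
  refine ⟨lp H 2, inferInstance, inferInstance, inferInstance, dsM L hL, dsM R hR, ?_, ?_, ?_⟩
  · constructor
    · intro v
      exact lp.ext (funext fun i => (hb i).L_one (v i))
    · intro v
      exact lp.ext (funext fun i => (hb i).R_one (v i))
    · intro x y v
      exact lp.ext (funext fun i => (hb i).L_mul x y (v i))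
    · intro x y v
      exact lp.ext (funext fun i => (hb i).R_mul x y (v i))
    · intro x y v
      exact lp.ext (funext fun i => (hb i).comm x y (v i))
    · exact dsM_adj L hL fun i => (hb i).L_adj
    · exact dsM_adj R hR fun i => (hb i).R_adj
    · exact dsM_normal L hL fun i => (hb i).L_normal
    · exact dsM_normal R hR fun i => (hb i).R_normal
  · intro w hw
    refine lp.ext (funext fun i => ?_)
    refine hc i (w i) fun x => ?_
    have h := congrArg (fun z : lp H 2 => z i) (hw x)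
    exact h
  · intro i
    refine ⟨{ toLinearMap := lp.lsingle 2 i
              norm_map' := fun a => lp.norm_single (by norm_num) i a }, ?_, ?_⟩
    · intro x a
      exact (dsM_single L hL x i a).symm
    · intro x a
      exact (dsM_single R hR x i a).symm

end Helper61.HT
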