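import Pool.Agent.Helper61.HT.StG
import Pool.Agent.Helper61.HT.LibN

/-!
# Project HT: the conditional expectation onto the closure of a *-subalgebra
-/

namespace Helper61.HT

open scoped ComplexOrder
open Filter Topology

section factor

private lemma dec_EQ {M : Type} [CStarAlgebra M] [PartialOrder M] [StarOrderedRing M] (A : M)
    (hA : star A = A) : ∃ P C : M, 0 ≤ P ∧ 0 ≤ C ∧ P - C = A ∧ P * C = 0 :=
  ⟨A⁺, A⁻, CFC.posPart_nonneg A, CFC.negPart_nonneg A, CFC.posPart_sub_negPart A hA,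
    CFC.posPart_mul_negPart A⟩

/-- A matrix with nonnegative form (with respect to the trace) factors. -/
private lemma factor0_EQ {B : Type} [CStarAlgebra B] [PartialOrder B] [StarOrderedRing B]
    {τ : B →ₗ[ℂ] ℂ} (hτ : Trc τ) {m : ℕ} (A : CStarMatrix (Fin m) (Fin m) B) (hA : star A = A)
    (h : ∀ b : Fin m → B, 0 ≤ rt τ (∑ i, ∑ j, star (b i) * A i j * b j)) :
    ∃ Z : CStarMatrix (Fin m) (Fin m) B, A = star Z * Z := by
  obtain ⟨P, C, hP0, hC0, hdec, hpn⟩ := dec_EQ A hA
  have hCs : star C = C := (IsSelfAdjoint.of_nonneg hC0).star_eq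
  obtain ⟨Y, hY0, hY⟩ := exists_sqrt hC0
  have hYs : star Y = Y := (IsSelfAdjoint.of_nonneg hY0).star_eq
  have hAC : star C * A * C = -(C * C * C) := by
    rw [hCs, ← hdec, mul_assoc, sub_mul, hpn, zero_sub, mul_neg, ← mul_assoc]
  have hW : star (Y * C) * (Y * C) = C * C * C := by
    rw [star_mul, hCs, hYs]
    calc C * Y * (Y * C) = C * (Y * Y) * C := by noncomm_ring
      _ = C * C * C := by rw [hY]
  have hW0 : Y * C = 0 := by
    ext i k
    have h1 : (star (Y * C) * (Y * C)) k k = ∑ l, star ((Y * C) l k) * (Y * C) l k := rfl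
    have h2 : (star C * A * C) k k = ∑ i, ∑ j, star (C i k) * A i j * C j k := by
      have : (star C * A * C) k k = ∑ j, (∑ i, star (C i k) * A i j) * C j k := rfl
      rw [this, Finset.sum_comm]
      exact Finset.sum_congr rfl fun j _ => Finset.sum_mul _ _ _
    have h3 : rt τ ((star (Y * C) * (Y * C)) k k) ≤ 0 := by
      have h4 : (star (Y * C) * (Y * C)) k k = -((star C * A * C) k k) := by
        rw [hW, hAC]
        simp
      rw [h4, h2, rt_neg]
      exact neg_nonpos.2 (h fun i => C i k)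
    have h5 : ∀ l ∈ Finset.univ, 0 ≤ rt τ (star ((Y * C) l k) * (Y * C) l k) :=
      fun l _ => hs_nonneg hτ _
    rw [h1, rt_sum] at h3
    have h6 := le_antisymm h3 (Finset.sum_nonneg h5)
    have h7 := (Finset.sum_eq_zero_iff_of_nonneg h5).1 h6 i (Finset.mem_univ i)
    have h8 := hs_eq_zero hτ h7
    rw [h8]
    rfl
  have hC3 : C * C * C = 0 := by rw [← hW, hW0, mul_zero]
  have hC2 : C * C = 0 := by
    refine (CStarRing.star_mul_self_eq_zero_iff _).1 ?_
    rw [star_mul, hCs, ← mul_assoc, hC3, zero_mul]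
  have hC1 : C = 0 := by
    refine (CStarRing.star_mul_self_eq_zero_iff _).1 ?_
    rw [hCs, hC2]
  have hA0 : 0 ≤ A := by
    rw [← hdec, hC1, sub_zero]
    exact hP0
  obtain ⟨Z, hZ0, hZ⟩ := exists_sqrt hA0
  exact ⟨Z, by rw [(IsSelfAdjoint.of_nonneg hZ0).star_eq, hZ]⟩

/-- The same without an order in the statement. -/
private lemma factor1_EQ {B : Type} [CStarAlgebra B] {τ : B →ₗ[ℂ] ℂ} (hτ : Trc τ) {m : ℕ}
    (A : Fin m → Fin m → B) (hA : ∀ i j, star (A j i) = A i j)
    (h : ∀ b : Fin m → B, 0 ≤ rt τ (∑ i, ∑ j, star (b i) * A i j * b j)) :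
    ∃ Z : Fin m → Fin m → B, ∀ i j, A i j = ∑ k, star (Z k i) * Z k j := by
  let _ := CStarAlgebra.spectralOrder B
  have _ := CStarAlgebra.spectralOrderedRing B
  obtain ⟨Z, hZ⟩ := factor0_EQ hτ (CStarMatrix.ofMatrix fun i j => A i j)
    (by ext i j; exact hA i j) h
  refine ⟨fun i j => Z i j, fun i j => ?_⟩
  exact congrArg (fun M : CStarMatrix (Fin m) (Fin m) B => M i j) hZ

/-- Factorization for matrices over a closed *-subalgebra. -/
private lemma factor_EQ {N : Type} [CStarAlgebra N] {τ : N →ₗ[ℂ] ℂ} (hτ : Trc τ)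
    (M : StarSubalgebra ℂ N) (hcl : IsClosed (M : Set N)) {m : ℕ}
    (A : Fin m → Fin m → N) (hAM : ∀ i j, A i j ∈ M) (hA : ∀ i j, star (A j i) = A i j)
    (h : ∀ b : Fin m → N, (∀ i, b i ∈ M) → 0 ≤ rt τ (∑ i, ∑ j, star (b i) * A i j * b j)) :
    ∃ Z : Fin m → Fin m → N, ∀ i j, A i j = ∑ k, star (Z k i) * Z k j := by
  let _ : CStarAlgebra M := StarSubalgebra.cstarAlgebra M (h_closed := hcl)
  let τM : M →ₗ[ℂ] ℂ := τ ∘ₗ (M.subtype : M →⋆ₐ[ℂ] N).toAlgHom.toLinearMap
  have hτM : Trc τM := by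
    refine ⟨?_, ?_, ?_, ?_⟩
    · exact hτ.one
    · intro x y
      exact hτ.tr x y
    · intro x
      exact hτ.nonneg x
    · intro x hx
      exact Subtype.ext (hτ.faith (x : N) hx)
  obtain ⟨Z, hZ⟩ := factor1_EQ hτM (fun i j => (⟨A i j, hAM i j⟩ : M))
    (fun i j => Subtype.ext (hA i j)) (by
      intro b
      have h1 := h (fun i => (b i : N)) (fun i => (b i).2)
      have h2 : rt τM (∑ i, ∑ j, star (b i) * (⟨A i j, hAM i j⟩ : M) * b j) =
          rt τ (∑ i, ∑ j, star (b i : N) * A i j * (b j : N)) := by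
        rw [rt_sum, rt_sum]
        refine Finset.sum_congr rfl fun i _ => ?_
        rw [rt_sum, rt_sum]
        rfl
      rw [h2]
      exact h1)
  refine ⟨fun i j => (Z i j : N), fun i j => ?_⟩
  have h1 := congrArg (fun z : M => (z : N)) (hZ i j)
  simp only at h1
  rw [h1]
  push_cast
  rfl

end factor

section clos

variable {B : Type} [CStarAlgebra B] [PartialOrder B] [StarOrderedRing B] {τ : B →ₗ[ℂ] ℂ}
  {A : StarSubalgebra ℂ B}

/-- membership in the 2-norm closure -/
private def AcE (τ : B →ₗ[ℂ] ℂ) (A : StarSubalgebra ℂ B) (y : B) : Prop :=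
  ∀ ε : ℝ, 0 < ε → ∃ a ∈ A, hs τ (y - a) ≤ ε

private lemma ac_mem {a : B} (ha : a ∈ A) : AcE τ A a :=
  fun ε hε => ⟨a, ha, by rw [sub_self, hs_zero]; exact hε.le⟩

private lemma ac_add (hτ : Trc τ) {y z : B} (hy : AcE τ A y) (hz : AcE τ A z) :
    AcE τ A (y + z) := by
  intro ε hε
  obtain ⟨a, ha, h1⟩ := hy (ε / 4) (by positivity)
  obtain ⟨b, hb, h2⟩ := hz (ε / 4) (by positivity)
  refine ⟨a + b, add_mem ha hb, ?_⟩
  have h3 := hs_add_le hτ (y - a) (z - b)
  rw [show y + z - (a + b) = y - a + (z - b) by abel]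
  linarith

private lemma ac_smul (hτ : Trc τ) {y : B} (c : ℂ) (hy : AcE τ A y) : AcE τ A (c • y) := by
  intro ε hε
  obtain ⟨a, ha, h1⟩ := hy (ε / (‖c‖ ^ 2 + 1)) (by positivity)
  refine ⟨c • a, SMulMemClass.smul_mem c ha, ?_⟩
  rw [← smul_sub, hs_smulC]
  rw [le_div_iff₀ (by positivity)] at h1
  have := hs_nonneg hτ (y - a)
  nlinarith

private lemma ac_star (hτ : Trc τ) {y : B} (hy : AcE τ A y) : AcE τ A (star y) := by
  intro ε hε
  obtain ⟨a, ha, h1⟩ := hy ε hε
  refine ⟨star a, star_mem ha, ?_⟩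
  rw [← star_sub, hs_star hτ]
  exact h1

private lemma ac_mul (hτ : Trc τ) {y z : B} (hy : AcE τ A y) (hz : AcE τ A z) :
    AcE τ A (y * z) := by
  intro ε hε
  obtain ⟨a, ha, h1⟩ := hy (ε / (4 * (‖z‖ ^ 2 + 1))) (by positivity)
  obtain ⟨b, hb, h2⟩ := hz (ε / (4 * (‖a‖ ^ 2 + 1))) (by positivity)
  refine ⟨a * b, mul_mem ha hb, ?_⟩
  rw [show y * z - a * b = (y - a) * z + a * (z - b) by noncomm_ring]
  have h3 := hs_add_le hτ ((y - a) * z) (a * (z - b))
  have h4 := hs_mul_le' hτ (y - a) z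
  have h5 := hs_mul_le hτ a (z - b)
  rw [le_div_iff₀ (by positivity)] at h1 h2
  have h6 := hs_nonneg hτ (y - a)
  have h7 := hs_nonneg hτ (z - b)
  nlinarith

private lemma hs_le_norm (hτ : Trc τ) (y : B) : hs τ y ≤ ‖y‖ ^ 2 := by
  have h := hs_mul_le hτ y 1
  rw [mul_one] at h
  have h1 : hs τ (1 : B) = 1 := by rw [hs_eq_rt, star_one, mul_one]; exact rt_one hτ
  rwa [h1, mul_one] at h

private lemma ac_closed (hτ : Trc τ) : IsClosed {y : B | AcE τ A y} := by
  refine isClosed_of_closure_subset fun y hy ε hε => ?_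
  rw [Metric.mem_closure_iff] at hy
  obtain ⟨z, hz, hd⟩ := hy (Real.sqrt (ε / 4)) (Real.sqrt_pos.2 (by positivity))
  obtain ⟨a, ha, h1⟩ := hz (ε / 4) (by positivity)
  refine ⟨a, ha, ?_⟩
  have h3 := hs_add_le hτ (y - z) (z - a)
  rw [sub_add_sub_cancel] at h3
  have h4 := hs_le_norm hτ (y - z)
  rw [dist_eq_norm] at hd
  have h5 : ‖y - z‖ ^ 2 ≤ ε / 4 := by
    have := pow_le_pow_left₀ (norm_nonneg _) hd.le 2
    rwa [Real.sq_sqrt (by positivity)] at this
  linarith

/-- elements orthogonal to `A` are orthogonal to the closure -/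
private lemma ac_orth (hτ : Trc τ) {y z : B} (hy : AcE τ A y) (hz : ∀ a ∈ A, τ (a * z) = 0) :
    τ (y * z) = 0 := by
  have key : ∀ ε : ℝ, 0 < ε → ‖τ (y * z)‖ ^ 2 ≤ ε * hs τ z := by
    intro ε hε
    obtain ⟨a, ha, h1⟩ := hy ε hε
    have h2 : τ (y * z) = τ (star (star (y - a)) * z) := by
      rw [star_star, sub_mul, map_sub, hz a ha, sub_zero]
    have h3 := norm_map_mul_le hτ (star (y - a)) z
    rw [← h2, hs_star hτ] at h3
    have h4 := pow_le_pow_left₀ (norm_nonneg _) h3 2
    rw [mul_pow, Real.sq_sqrt (hs_nonneg hτ _), Real.sq_sqrt (hs_nonneg hτ _)] at h4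
    exact h4.trans (mul_le_mul_of_nonneg_right h1 (hs_nonneg hτ _))
  by_contra hne
  have h1 : 0 < ‖τ (y * z)‖ ^ 2 := pow_pos (norm_pos_iff.2 hne) 2
  have h0 := hs_nonneg hτ z
  have h2 := key (‖τ (y * z)‖ ^ 2 / (2 * (hs τ z + 1))) (by positivity)
  rw [div_mul_eq_mul_div, le_div_iff₀ (by positivity)] at h2
  nlinarith

/-- The 2-norm closure as a *-subalgebra. -/
private def AbE (hτ : Trc τ) (A : StarSubalgebra ℂ B) : StarSubalgebra ℂ B where
  carrier := {y | AcE τ A y}
  mul_mem' := ac_mul hτ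
  one_mem' := ac_mem (one_mem A)
  add_mem' := ac_add hτ
  zero_mem' := ac_mem (zero_mem A)
  algebraMap_mem' r := ac_mem (algebraMap_mem A r)
  star_mem' := ac_star hτ

end clos

/-- The conditional expectation onto the closure of a *-subalgebra. -/
theorem pEQ (hEQ1 : StEQ1) : StEQ := by
  intro B _ _ _ τ hτ hc A
  classical
  -- uniqueness
  have huniq0 : ∀ y z : B, AcE τ A y → AcE τ A z → (∀ a ∈ A, τ (a * y) = τ (a * z)) → y = z := by
    intro y z hy hz h
    have h1 : AcE τ A (star (y - z)) := by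
      refine ac_star hτ ?_
      have h2 := ac_add hτ hy (ac_smul hτ (-1) hz)
      rwa [neg_one_smul, ← sub_eq_add_neg] at h2
    have h2 : τ (star (y - z) * (y - z)) = 0 :=
      ac_orth hτ h1 fun a ha => by rw [mul_sub, map_sub, h a ha, sub_self]
    exact sub_eq_zero.1 (hτ.faith _ h2)
  -- existence
  have hex : ∀ x : B, ∃ y, AcE τ A y ∧ ∀ a ∈ A, τ (a * y) = τ (a * x) := by
    intro x
    have hx : x ∈ Submodule.span ℂ ({x : B | 0 ≤ x} ∩ Metric.closedBall 0 1) := by
      rw [CStarAlgebra.span_nonneg_inter_unitClosedBall]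
      exact Submodule.mem_top
    induction hx using Submodule.span_induction with
    | mem b hb =>
      have hb0 : 0 ≤ b := hb.1
      have hb1 : ‖b‖ ≤ 1 := by simpa using hb.2
      have hb2 : b ≤ 1 := by
        have := le_smul_of_norm (herm_of_nonneg hb0)
        refine this.trans ?_
        have h3 := smul_mono_left hb1 (zero_le_one (α := B))
        rwa [one_smul] at h3
      obtain ⟨y, -, -, h1, h2⟩ := hEQ1 B τ hτ hc A b hb0 hb2
      exact ⟨y, h1, h2⟩
    | zero => exact ⟨0, ac_mem (zero_mem A), fun a _ => rfl⟩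
    | add x x' _ _ h h' =>
      obtain ⟨y, h1, h2⟩ := h
      obtain ⟨y', h1', h2'⟩ := h'
      refine ⟨y + y', ac_add hτ h1 h1', fun a ha => ?_⟩
      rw [mul_add, mul_add, map_add, map_add, h2 a ha, h2' a ha]
    | smul c x _ h =>
      obtain ⟨y, h1, h2⟩ := h
      refine ⟨c • y, ac_smul hτ c h1, fun a ha => ?_⟩
      rw [mul_smul_comm, mul_smul_comm, map_smul, map_smul, h2 a ha]
  choose e he1 he2 using hex
  let E : B →ₗ[ℂ] B :=
    { toFun := e
      map_add' := fun x y => huniq0 _ _ (he1 _) (ac_add hτ (he1 _) (he1 _)) fun a ha => by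
        rw [he2 _ a ha, mul_add, mul_add, map_add, map_add, he2 x a ha, he2 y a ha]
      map_smul' := fun c x => huniq0 _ _ (he1 _) (ac_smul hτ c (he1 _)) fun a ha => by
        rw [he2 _ a ha, RingHom.id_apply, mul_smul_comm, mul_smul_comm, map_smul, map_smul,
          he2 x a ha] }
  have hEM : ∀ x, AcE τ A (E x) := he1
  have hchar0 : ∀ x, ∀ a ∈ A, τ (a * E x) = τ (a * x) := he2
  have hchar : ∀ x m, AcE τ A m → τ (m * E x) = τ (m * x) := by
    intro x m hm
    have h1 : τ (m * (E x - x)) = 0 := ac_orth hτ hm fun a ha => by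
      rw [mul_sub, map_sub, hchar0 x a ha, sub_self]
    rwa [mul_sub, map_sub, sub_eq_zero] at h1
  have hchar' : ∀ x m, AcE τ A m → τ (E x * m) = τ (x * m) := by
    intro x m hm
    rw [hτ.tr, hchar x m hm, hτ.tr]
  have huniq : ∀ x y, AcE τ A y → (∀ m ∈ A, τ (m * y) = τ (m * x)) → E x = y := by
    intro x y hy h
    exact huniq0 _ _ (hEM x) hy fun a ha => by rw [hchar0 x a ha, h a ha]
  have hτE : ∀ x, τ (E x) = τ x := by
    intro x
    have := hchar0 x 1 (one_mem A)
    rwa [one_mul, one_mul] at this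
  have hstar : ∀ x, E (star x) = star (E x) := by
    intro x
    refine huniq _ _ (ac_star hτ (hEM x)) fun m hm => ?_
    have h1 : m * star (E x) = star (E x * star m) := by rw [star_mul, star_star]
    have h2 : m * star x = star (x * star m) := by rw [star_mul, star_star]
    rw [h1, h2, map_star' hτ, map_star' hτ, hchar' x _ (ac_mem (star_mem hm))]
  have hl : ∀ m, AcE τ A m → ∀ x, E (m * x) = m * E x := by
    intro m hm x
    refine huniq _ _ (ac_mul hτ hm (hEM x)) fun m' hm' => ?_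
    rw [← mul_assoc, ← mul_assoc, hchar x _ (ac_mul hτ (ac_mem hm') hm)]
  have hr : ∀ m, AcE τ A m → ∀ x, E (x * m) = E x * m := by
    intro m hm x
    refine huniq _ _ (ac_mul hτ (hEM x) hm) fun m' hm' => ?_
    rw [← mul_assoc, ← mul_assoc, hτ.tr, hτ.tr (m' * x), ← mul_assoc, ← mul_assoc,
      hchar x _ (ac_mul hτ hm (ac_mem hm'))]
  have hcp : CPm E := by
    intro m a b
    obtain ⟨Z, hZ⟩ := factor_EQ hτ (AbE hτ A) (ac_closed hτ) (fun i j => E (star (a i) * a j))
      (fun i j => hEM _) (fun i j => by rw [← hstar, star_mul, star_star]) (by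
        intro b hb
        have h1 : ∑ i, ∑ j, star (b i) * E (star (a i) * a j) * b j =
            E (star (∑ i, a i * b i) * (∑ j, a j * b j)) := by
          rw [star_sum, Finset.sum_mul_sum, map_sum]
          refine Finset.sum_congr rfl fun i _ => ?_
          rw [map_sum]
          refine Finset.sum_congr rfl fun j _ => ?_
          rw [star_mul, show star (b i) * star (a i) * (a j * b j) =
            star (b i) * (star (a i) * a j) * b j by noncomm_ring, hr _ (hb j),
            hl _ (ac_star hτ (hb i))]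
        rw [h1]
        unfold rt
        rw [hτE]
        exact hs_nonneg hτ _)
    have h2 : ∑ i, ∑ j, star (b i) * E (star (a i) * a j) * b j =
        ∑ k, star (∑ i, Z k i * b i) * (∑ j, Z k j * b j) := by
      have h3 : ∀ i j, star (b i) * E (star (a i) * a j) * b j =
          ∑ k, star (Z k i * b i) * (Z k j * b j) := by
        intro i j
        rw [hZ i j, Finset.mul_sum, Finset.sum_mul]
        refine Finset.sum_congr rfl fun k _ => ?_
        rw [star_mul]
        noncomm_ring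
      simp only [h3]
      have h4 : ∀ k, star (∑ i, Z k i * b i) * (∑ j, Z k j * b j) =
          ∑ i, ∑ j, star (Z k i * b i) * (Z k j * b j) := by
        intro k
        rw [star_sum, Finset.sum_mul_sum]
      simp only [h4]
      rw [Finset.sum_comm (s := Finset.univ (α := Fin m)) (t := Finset.univ (α := Fin m))
        (f := fun k i => ∑ j, star (Z k i * b i) * (Z k j * b j))]
      exact Finset.sum_congr rfl fun i _ => Finset.sum_comm
    rw [h2]
    exact Finset.sum_nonneg fun k _ => star_mul_self_nonneg _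
  exact ⟨E, hcp, fun x hx => huniq x x (ac_mem hx) fun m _ => rfl, hEM, fun a ha x => hchar0 x a ha⟩

end Helper61.HT
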