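import Pool.Agent.Helper61.HT.StG
import Pool.Agent.Helper61.HT.LibN
import Pool.Agent.Helper61.HT.Lim
import Pool.Agent.Helper61.HT.PLim

/-!
# HT module EQ1: the projection onto the 2-norm closure of a *-subalgebra

(helper39) `Kc τ A` is the 2-norm closure of `A`.
-/

set_option linter.unusedSectionVars false

namespace Helper61.HT

open scoped ComplexOrder
open Filter Topology

section EQ1

variable {B : Type} [CStarAlgebra B] [PartialOrder B] [StarOrderedRing B] {τ : B →ₗ[ℂ] ℂ}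

/-- Sequential 2-norm closure. -/
private def Kc_EQ1 (τ : B →ₗ[ℂ] ℂ) (A : StarSubalgebra ℂ B) (x : B) : Prop :=
  ∃ a : ℕ → B, (∀ n, a n ∈ A) ∧ T2 τ a x

private lemma Kc_of_eps_EQ1 (hτ : Trc τ) {A : StarSubalgebra ℂ B} {x : B}
    (h : ∀ ε : ℝ, 0 < ε → ∃ a ∈ A, hs τ (x - a) ≤ ε) : Kc_EQ1 τ A x := by
  have h1 : ∀ n : ℕ, ∃ a ∈ A, hs τ (x - a) ≤ 1 / ((n : ℝ) + 1) := fun n =>
    h _ (by positivity)
  choose a ha ha' using h1
  refine ⟨a, ha, T2.of_le hτ tendsto_one_div_add_atTop_nhds_zero_nat fun n => ?_⟩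
  rw [hs_sub_comm]
  exact ha' n

private lemma eps_of_Kc_EQ1 {A : StarSubalgebra ℂ B} {x : B} (h : Kc_EQ1 τ A x) :
    ∀ ε : ℝ, 0 < ε → ∃ a ∈ A, hs τ (x - a) ≤ ε := by
  intro ε hε
  obtain ⟨a, ha, hlim⟩ := h
  have h1 : ∀ᶠ n in atTop, hs τ (a n - x) < ε := hlim.eventually_lt_const hε
  obtain ⟨n, hn⟩ := h1.exists
  exact ⟨a n, ha n, by rw [hs_sub_comm]; exact hn.le⟩

private lemma hs_le_norm_sq_EQ1 (hτ : Trc τ) (y : B) : hs τ y ≤ ‖y‖ ^ 2 := by
  have h := hs_mul_le hτ y 1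
  rw [mul_one] at h
  refine h.trans (le_of_eq ?_)
  rw [hs_eq_rt, star_one, mul_one, rt_one hτ, mul_one]

/-- The norm closure is contained in the 2-norm closure. -/
private lemma Kc_of_norm_EQ1 (hτ : Trc τ) {A : StarSubalgebra ℂ B} {x : B}
    (h : x ∈ A.topologicalClosure) : Kc_EQ1 τ A x := by
  refine Kc_of_eps_EQ1 hτ fun ε hε => ?_
  have h1 : x ∈ closure (A : Set B) := by
    rw [← StarSubalgebra.topologicalClosure_coe]; exact h
  obtain ⟨a, ha, hd⟩ := Metric.mem_closure_iff.1 h1 (Real.sqrt ε) (Real.sqrt_pos.2 hε)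
  refine ⟨a, ha, (hs_le_norm_sq_EQ1 hτ _).trans ?_⟩
  rw [dist_eq_norm] at hd
  have h2 : ‖x - a‖ ^ 2 ≤ Real.sqrt ε ^ 2 := pow_le_pow_left₀ (norm_nonneg _) hd.le 2
  rwa [Real.sq_sqrt hε.le] at h2

private lemma Kc_add_EQ1 (hτ : Trc τ) {A : StarSubalgebra ℂ B} {x y : B} (hx : Kc_EQ1 τ A x)
    (hy : Kc_EQ1 τ A y) : Kc_EQ1 τ A (x + y) := by
  obtain ⟨a, ha, h⟩ := hx
  obtain ⟨c, hc, h'⟩ := hy
  exact ⟨_, fun n => add_mem (ha n) (hc n), T2.add hτ h h'⟩

private lemma Kc_smul_EQ1 (hτ : Trc τ) {A : StarSubalgebra ℂ B} {x : B} (c : ℂ)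
    (hx : Kc_EQ1 τ A x) : Kc_EQ1 τ A (c • x) := by
  obtain ⟨a, ha, h⟩ := hx
  exact ⟨_, fun n => SMulMemClass.smul_mem c (ha n), T2.smulC hτ c h⟩

private lemma Kc_self_EQ1 (hτ : Trc τ) {A : StarSubalgebra ℂ B} {x : B} (hx : x ∈ A) :
    Kc_EQ1 τ A x := ⟨fun _ => x, fun _ => hx, T2.const hτ x⟩

private lemma Kc_lim_EQ1 (hτ : Trc τ) {A : StarSubalgebra ℂ B} {x : ℕ → B} {y : B}
    (hx : ∀ n, Kc_EQ1 τ A (x n)) (h : T2 τ x y) : Kc_EQ1 τ A y := by
  have h1 : ∀ n : ℕ, ∃ a ∈ A, hs τ (x n - a) ≤ 1 / ((n : ℝ) + 1) := fun n =>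
    eps_of_Kc_EQ1 (hx n) _ (by positivity)
  choose a ha ha' using h1
  refine ⟨a, ha, T2.of_le hτ
    (f := fun n : ℕ => 2 * (1 / ((n : ℝ) + 1)) + 2 * hs τ (x n - y)) ?_ fun n => ?_⟩
  · have h2 := ((tendsto_one_div_add_atTop_nhds_zero_nat (𝕜 := ℝ)).const_mul 2).add
      (Tendsto.const_mul 2 h)
    simpa using h2
  · have h3 := hs_add_le hτ (a n - x n) (x n - y)
    rw [sub_add_sub_cancel, hs_sub_comm (a n) (x n)] at h3
    linarith [ha' n]

/-- Truncation does not increase the distance to `b`. -/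
private lemma trunc_EQ1 (hτ : Trc τ) {A : StarSubalgebra ℂ B} {b q : B} (hb0 : 0 ≤ b)
    (hb1 : b ≤ 1) (hq : IsSelfAdjoint q) (hqA : q ∈ A) :
    ∃ x, Kc_EQ1 τ A x ∧ 0 ≤ x ∧ x ≤ 1 ∧ hs τ (x - b) ≤ hs τ (q - b) := by
  set f : ℝ → ℝ := fun t => max 0 (min 1 t) with hf
  set g : ℝ → ℝ := fun t => max 0 (t - 1) with hg
  set k : ℝ → ℝ := fun t => max 0 (-t) with hk
  have hfc : Continuous f := by fun_prop
  have hgc : Continuous g := by fun_prop
  have hkc : Continuous k := by fun_prop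
  set x := cfc f q with hx
  set r := cfc g q with hr
  set s := cfc k q with hs'
  have hqA' : q ∈ A.topologicalClosure := A.le_topologicalClosure hqA
  have : IsClosed ((A.topologicalClosure : StarSubalgebra ℂ B) : Set B) :=
    A.isClosed_topologicalClosure
  have hxA : x ∈ A.topologicalClosure := cfc_mem f hqA'
  have hx0 : 0 ≤ x := cfc_nonneg fun t _ => le_max_left _ _
  have hx1 : x ≤ 1 := cfc_le_one _ _ fun t _ => max_le zero_le_one (min_le_left _ _)
  have hr0 : 0 ≤ r := cfc_nonneg fun t _ => le_max_left _ _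
  have hs0 : 0 ≤ s := cfc_nonneg fun t _ => le_max_left _ _
  have hsum : x + (r - s) = q := by
    rw [hx, hr, hs', ← cfc_sub g k q hgc.continuousOn hkc.continuousOn,
      ← cfc_add q f (fun t => g t - k t) hfc.continuousOn (hgc.sub hkc).continuousOn]
    conv_rhs => rw [← cfc_id ℝ q hq]
    congr 1
    funext t
    simp only [hf, hg, hk, id]
    rcases le_total t 0 with h0 | h0
    · rw [max_eq_left (show t - 1 ≤ 0 by linarith), max_eq_right (show 0 ≤ -t by linarith),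
        min_eq_right (show t ≤ 1 by linarith), max_eq_left h0]
      ring
    · rcases le_total t 1 with h1 | h1
      · rw [max_eq_left (show t - 1 ≤ 0 by linarith), max_eq_left (show -t ≤ 0 by linarith),
          min_eq_right h1, max_eq_right h0]
        ring
      · rw [max_eq_right (show 0 ≤ t - 1 by linarith), max_eq_left (show -t ≤ 0 by linarith),
          min_eq_left h1, max_eq_right zero_le_one]
        ring
  have hxr : x * r = r := by
    rw [hx, hr, ← cfc_mul f g q hfc.continuousOn hgc.continuousOn]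
    congr 1
    funext t
    simp only [hf, hg]
    rcases le_total t 1 with h1 | h1
    · rw [max_eq_left (show t - 1 ≤ 0 by linarith), mul_zero]
    · rw [min_eq_left h1, max_eq_right (zero_le_one (α := ℝ)), one_mul]
  have hxs : x * s = 0 := by
    rw [hx, hs', ← cfc_mul f k q hfc.continuousOn hkc.continuousOn]
    have : (fun t => f t * k t) = fun _ => (0 : ℝ) := by
      funext t
      simp only [hf, hk]
      rcases le_total t 0 with h0 | h0
      · rw [min_eq_right (show t ≤ 1 by linarith), max_eq_left h0, zero_mul]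
      · rw [max_eq_left (show -t ≤ 0 by linarith), mul_zero]
    rw [this]
    simp
  refine ⟨x, Kc_of_norm_EQ1 hτ hxA, hx0, hx1, ?_⟩
  have h1 : q - b = (x - b) + (r - s) := by rw [← hsum]; abel
  rw [h1, hs_add hτ]
  have h2 : star (x - b) = x - b := by rw [star_sub, herm_of_nonneg hx0, herm_of_nonneg hb0]
  have h3 : (x - b) * (r - s) = (1 - b) * r + b * s := by
    rw [sub_mul, mul_sub, hxr, hxs, sub_mul, one_mul, mul_sub]
    abel
  have h4 : 0 ≤ rt τ ((x - b) * (r - s)) := by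
    rw [h3, rt_add]
    exact add_nonneg (rt_mul_nonneg hτ (sub_nonneg.2 hb1) hr0) (rt_mul_nonneg hτ hb0 hs0)
  rw [h2]
  have h5 := hs_nonneg hτ (r - s)
  linarith

/-- Limits of positive elements are positive. -/
private lemma nonneg_lim_EQ1 (hτ : Trc τ) {x : ℕ → B} {y : B} (hx : ∀ n, 0 ≤ x n)
    (h : T2 τ x y) : 0 ≤ y := by
  have hy : star y = y := by
    refine T2.unique hτ (x := x) ?_ h
    have h1 := T2.star hτ h
    have h2 : (fun n => star (x n)) = x := by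
      funext n; exact herm_of_nonneg (hx n)
    rwa [h2] at h1
  refine LimM.nonneg_of_test hτ hy fun c => ?_
  have h1 := T2.rt hτ (T2.mul_left hτ (star c * c) h)
  exact ge_of_tendsto' h1 fun n => rt_mul_nonneg hτ (nonneg_star_mul c) (hx n)

theorem pEQ1 : StEQ1 := by
  intro B _ _ _ τ hτ hc A b hb0 hb1
  have hbs : star b = b := herm_of_nonneg hb0
  set Q : B → ℝ := fun x => hs τ (x - b) with hQ
  set d := sInf (Q '' (A : Set B)) with hd
  have hbdd : BddBelow (Q '' (A : Set B)) := ⟨0, by rintro _ ⟨z, _, rfl⟩; exact hs_nonneg hτ _⟩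
  have hne : (Q '' (A : Set B)).Nonempty := ⟨Q 0, 0, zero_mem A, rfl⟩
  have hdA : ∀ a ∈ A, d ≤ Q a := fun a ha => csInf_le hbdd ⟨a, ha, rfl⟩
  -- lower bound on the closure
  have hdK : ∀ x, Kc_EQ1 τ A x → d ≤ Q x := by
    rintro x ⟨a, ha, hlim⟩
    have h1 : Tendsto (fun n => hs τ (a n - b)) atTop (𝓝 (hs τ (x - b))) :=
      T2.hs hτ (T2.sub hτ hlim (T2.const hτ b))
    exact ge_of_tendsto' h1 fun n => hdA _ (ha n)
  -- a minimizing sequence
  have hex : ∀ n : ℕ, ∃ x, Kc_EQ1 τ A x ∧ 0 ≤ x ∧ x ≤ 1 ∧ Q x < d + 1 / ((n : ℝ) + 1) := by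
    intro n
    have hpos : (0 : ℝ) < 1 / ((n : ℝ) + 1) := by positivity
    obtain ⟨_, ⟨a, ha, rfl⟩, hlt⟩ := exists_lt_of_csInf_lt hne
      (show sInf (Q '' (A : Set B)) < d + 1 / ((n : ℝ) + 1) by rw [← hd]; linarith)
    set q : B := (1 / 2 : ℝ) • (a + star a) with hq
    have hqA : q ∈ A := by
      have h1 : q = (1 / 2 : ℂ) • (a + star a) := by
        rw [hq, ← Complex.coe_smul]; norm_num
      rw [h1]
      exact SMulMemClass.smul_mem _ (add_mem ha (star_mem ha))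
    have hqs : IsSelfAdjoint q := by
      change star q = q
      rw [hq, star_smul, star_add, star_star, add_comm]
      simp
    have hqQ : hs τ (q - b) ≤ Q a := by
      have h1 : q - b = (1 / 2 : ℝ) • ((a - b) + star (a - b)) := by
        rw [hq, star_sub, hbs, show a - b + (star a - b) = a + star a - (2 : ℝ) • b by
          rw [two_smul]; abel, smul_sub, smul_smul]
        norm_num
      rw [h1, hs_smul]
      have h2 := hs_add_le hτ (a - b) (star (a - b))
      rw [hs_star hτ] at h2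
      change (1 / 2) ^ 2 * _ ≤ hs τ (a - b)
      linarith
    obtain ⟨x, hxK, hx0, hx1, hxq⟩ := trunc_EQ1 hτ hb0 hb1 hqs hqA
    exact ⟨x, hxK, hx0, hx1, (hxq.trans hqQ).trans_lt hlt⟩
  choose x hxK hx0 hx1 hxQ using hex
  -- parallelogram
  have hpar : ∀ u v : B, Kc_EQ1 τ A u → Kc_EQ1 τ A v →
      hs τ (u - v) ≤ 2 * Q u + 2 * Q v - 4 * d := by
    intro u v hu hv
    have h1 : Kc_EQ1 τ A ((1 / 2 : ℂ) • (u + v)) := Kc_smul_EQ1 hτ _ (Kc_add_EQ1 hτ hu hv)
    have h2 := hdK _ h1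
    have h3 : ((1 / 2 : ℂ) • (u + v)) - b = (1 / 2 : ℝ) • ((u - b) + (v - b)) := by
      rw [show u - b + (v - b) = u + v - (2 : ℝ) • b by rw [two_smul]; abel, smul_sub, smul_smul,
        ← Complex.coe_smul (1 / 2 : ℝ) (u + v)]
      norm_num
    have h4 := hs_add hτ (u - b) (v - b)
    have h5 := hs_add hτ (u - b) (-(v - b))
    rw [hs_neg, mul_neg, rt_neg, show u - b + -(v - b) = u - v by abel] at h5
    simp only [hQ] at h2 ⊢
    rw [h3, hs_smul] at h2
    linarith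
  -- the limit
  obtain ⟨y, -, hy⟩ := Cpl.exists_lim hτ hc one_pos (x := x)
    (fun n => norm_le_one_of_nonneg (hx0 n) (hx1 n)) (fun δ hδ => by
      obtain ⟨n₀, hn₀⟩ := exists_nat_gt (4 / δ)
      refine ⟨n₀, fun m hm n hn => ?_⟩
      have h1 := hpar _ _ (hxK m) (hxK n)
      have h2 := hxQ m
      have h3 := hxQ n
      have hb : ∀ l : ℕ, n₀ ≤ l → 1 / ((l : ℝ) + 1) ≤ δ / 4 := by
        intro l hl
        have h4 : (n₀ : ℝ) ≤ l := by exact_mod_cast hl
        have h5 : 4 / δ < (l : ℝ) + 1 := by linarith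
        rw [div_le_iff₀ (by positivity)]
        rw [div_lt_iff₀ hδ] at h5
        linarith
      have h4 := hb m hm
      have h5 := hb n hn
      linarith)
  have hyK : Kc_EQ1 τ A y := Kc_lim_EQ1 hτ hxK hy
  have hy0 : 0 ≤ y := nonneg_lim_EQ1 hτ hx0 hy
  have hy1 : y ≤ 1 := by
    rw [← sub_nonneg]
    exact nonneg_lim_EQ1 hτ (x := fun n => 1 - x n) (fun n => sub_nonneg.2 (hx1 n))
      (T2.sub hτ (T2.const hτ 1) hy)
  have hys : star y = y := herm_of_nonneg hy0
  have hyQ : Q y ≤ d := by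
    have h1 : Tendsto (fun n => hs τ (x n - b)) atTop (𝓝 (hs τ (y - b))) :=
      T2.hs hτ (T2.sub hτ hy (T2.const hτ b))
    have h2 : Tendsto (fun n : ℕ => d + 1 / ((n : ℝ) + 1)) atTop (𝓝 (d + 0)) :=
      tendsto_const_nhds.add tendsto_one_div_add_atTop_nhds_zero_nat
    rw [add_zero] at h2
    exact le_of_tendsto_of_tendsto' h1 h2 fun n => (hxQ n).le
  refine ⟨y, hy0, hy1, eps_of_Kc_EQ1 hyK, ?_⟩
  -- orthogonality
  have horth : ∀ a ∈ A, rt τ ((y - b) * a) = 0 := by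
    intro a ha
    have hkey : ∀ t : ℝ, 0 ≤ t ^ 2 * hs τ a + 2 * t * rt τ ((y - b) * a) := by
      intro t
      have h1 : Kc_EQ1 τ A (y + (t : ℂ) • a) :=
        Kc_add_EQ1 hτ hyK (Kc_smul_EQ1 hτ _ (Kc_self_EQ1 hτ ha))
      have h2 := hdK _ h1
      have h3 : y + (t : ℂ) • a - b = (y - b) + t • a := by
        rw [Complex.coe_smul]; abel
      simp only [hQ] at h2 hyQ
      rw [h3, hs_add hτ, hs_smul, star_sub, hys, hbs, mul_smul_comm, rt_smul] at h2
      linarith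
    set p := rt τ ((y - b) * a) with hp
    have hS := hs_nonneg hτ a
    have h1 := hkey (-p / (hs τ a + 1))
    have h2 : 0 < hs τ a + 1 := by linarith
    have h3 : (-p / (hs τ a + 1)) ^ 2 * hs τ a + 2 * (-p / (hs τ a + 1)) * p
        = -(p ^ 2 * (hs τ a + 2)) / (hs τ a + 1) ^ 2 := by
      field_simp
      ring
    rw [h3] at h1
    have h4 : 0 ≤ -(p ^ 2 * (hs τ a + 2)) := by
      by_contra hcon
      push Not at hcon
      have := div_neg_of_neg_of_pos hcon (show 0 < (hs τ a + 1) ^ 2 by positivity)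
      linarith
    have h5 : p ^ 2 ≤ 0 := by nlinarith [sq_nonneg p]
    exact pow_eq_zero_iff (two_ne_zero) |>.1 (le_antisymm h5 (sq_nonneg p))
  intro a ha
  have h1 := horth a ha
  have h2 := horth (Complex.I • a) (SMulMemClass.smul_mem _ ha)
  rw [← sub_eq_zero, ← map_sub, ← mul_sub, hτ.tr]
  apply Complex.ext
  · exact h1
  · rw [mul_smul_comm] at h2
    unfold rt at h2
    rw [map_smul, smul_eq_mul] at h2
    simpa using h2

end EQ1

end Helper61.HT
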