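import Pool.Agent.Helper61.HT.StG
import Pool.Agent.Helper61.HT.LibN

/-!
# Almost central bi-unital families from the failure of property (T)
-/

namespace Helper61.HT

open scoped ComplexOrder
open Filter Topology

section

variable {B : Type} [CStarAlgebra B] {τ : B →ₗ[ℂ] ℂ} {H : Type} [NormedAddCommGroup H]
  [InnerProductSpace ℂ H] {L R : B →ₗ[ℂ] (H →L[ℂ] H)}

private lemma fm_isoL (h : HBim τ H L R) {u : B} (hu : Un u) (v : H) : ‖L u v‖ = ‖v‖ := by
  have h1 : inner ℂ (L u v) (L u v) = inner ℂ v v := by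
    rw [h.L_adj, ← h.L_mul, hu.1, h.L_one]
  have h2 : ‖L u v‖ ^ 2 = ‖v‖ ^ 2 := by
    rw [← inner_self_eq_norm_sq (𝕜 := ℂ), ← inner_self_eq_norm_sq (𝕜 := ℂ), h1]
  exact (pow_left_inj₀ (norm_nonneg _) (norm_nonneg _) two_ne_zero).1 h2

private lemma fm_isoR (h : HBim τ H L R) {u : B} (hu : Un u) (v : H) : ‖R u v‖ = ‖v‖ := by
  have h1 : inner ℂ (R u v) (R u v) = inner ℂ v v := by
    rw [h.R_adj, ← h.R_mul, hu.2, h.R_one]
  have h2 : ‖R u v‖ ^ 2 = ‖v‖ ^ 2 := by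
    rw [← inner_self_eq_norm_sq (𝕜 := ℂ), ← inner_self_eq_norm_sq (𝕜 := ℂ), h1]
  exact (pow_left_inj₀ (norm_nonneg _) (norm_nonneg _) two_ne_zero).1 h2

private lemma fm_norm {n : ℕ} {c : Fin n → H} (ho : Orthonormal ℂ c)
    (hTC : ∀ i j x y, inner ℂ (L x (c i)) (L y (c j)) = τ (star x * y) * inner ℂ (c i) (c j))
    (a : Fin n → B) : ‖∑ j, L (a j) (c j)‖ ^ 2 = ∑ j, hs τ (a j) := by
  have h1 : inner ℂ (∑ j, L (a j) (c j)) (∑ j, L (a j) (c j)) = ∑ j, τ (star (a j) * a j) := by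
    rw [sum_inner]
    refine Finset.sum_congr rfl fun i _ => ?_
    rw [inner_sum]
    have h2 : ∀ j, inner ℂ (L (a i) (c i)) (L (a j) (c j)) =
        if i = j then τ (star (a i) * a i) else 0 := by
      intro j
      rw [hTC, orthonormal_iff_ite.1 ho i j]
      split_ifs with hij
      · subst hij; rw [mul_one]
      · rw [mul_zero]
    rw [Finset.sum_congr rfl fun j _ => h2 j, Finset.sum_ite_eq]
    simp
  rw [← inner_self_eq_norm_sq (𝕜 := ℂ), h1, map_sum]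
  rfl

end

private lemma fm_hs4 {B : Type} [CStarAlgebra B] [PartialOrder B] [StarOrderedRing B]
    {τ : B →ₗ[ℂ] ℂ} (hτ : Trc τ) (a : Fin 4 → B) : hs τ (∑ i, a i) ≤ 8 * ∑ i, hs τ (a i) := by
  rw [Fin.sum_univ_four, Fin.sum_univ_four]
  have h1 := hs_add_le hτ (a 0 + a 1 + a 2) (a 3)
  have h2 := hs_add_le hτ (a 0 + a 1) (a 2)
  have h3 := hs_add_le hτ (a 0) (a 1)
  have h4 := hs_nonneg hτ (a 2)
  have h5 := hs_nonneg hτ (a 3)
  linarith

theorem pFM (hTC : StTC) (hW2 : StW2) (hAP : StAP) (hSY : StSY) : StFM := by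
  intro B _ _ _ τ hB hT hn
  have hτ := hB.trc
  unfold PropTbim at hn
  push Not at hn
  obtain ⟨ε, hε, hn⟩ := hn
  refine ⟨ε ^ 2 / 4, by positivity, ?_⟩
  intro G δ hδ
  classical
  choose u c hx hc using fun x : B => CStarAlgebra.exists_sum_four_unitary x
  set M : ℝ := 8 * (∑ y ∈ G, ∑ i, ‖c y i‖ ^ 2) + 1 with hM
  have hM0 : 0 ≤ ∑ y ∈ G, ∑ i, ‖c y i‖ ^ 2 :=
    Finset.sum_nonneg fun x _ => Finset.sum_nonneg fun i _ => sq_nonneg _
  have hM1 : 0 < M := by linarith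
  have hMx : ∀ y ∈ G, 8 * ∑ i, ‖c y i‖ ^ 2 ≤ M := by
    intro y hy
    have h1 : ∑ i, ‖c y i‖ ^ 2 ≤ ∑ y ∈ G, ∑ i, ‖c y i‖ ^ 2 :=
      Finset.single_le_sum (f := fun x => ∑ i, ‖c x i‖ ^ 2)
        (fun x _ => Finset.sum_nonneg fun i _ => sq_nonneg _) hy
    linarith
  set s : ℝ := min 1 (δ / (3 * M)) with hs0
  have hspos : 0 < s := lt_min one_pos (by positivity)
  have hs1 : s ≤ 1 := min_le_left _ _
  have hs2 : 3 * M * s ≤ δ := by
    have : s ≤ δ / (3 * M) := min_le_right _ _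
    rwa [le_div_iff₀ (by positivity), mul_comm] at this
  obtain ⟨F2, δ2, hδ2, h2⟩ := hW2 B τ hB hT (ε / 4) (by positivity)
  set U : Finset B := G.biUnion fun y => Finset.univ.image fun i => (u y i : B) with hU
  have hUn : ∀ y i, Un (u y i : B) := fun y i =>
    ⟨Unitary.coe_star_mul_self (u y i), Unitary.coe_mul_star_self (u y i)⟩
  obtain ⟨H, _, _, _, L, R, h, ξ, hsL, hsR, ha, hfar⟩ :=
    hn (F2 ∪ (U ∪ U.image star)) (min δ2 (s / 3)) (lt_min hδ2 (by positivity))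
  obtain ⟨η, hη, hξη, hSη, hcη⟩ := h2 H L R h ξ ⟨hsL, hsR⟩
    (fun x hx => (ha x (Finset.mem_union_left _ hx)).trans (min_le_left _ _))
  obtain ⟨n, x, cc, ho, hcen, hx1, hx2, hv⟩ := hAP B τ hB H L R h η hη hSη (min (ε / 4) (s / 3))
    (lt_min (by positivity) (by positivity))
  have hTC' : ∀ i j x y, inner ℂ (L x (cc i)) (L y (cc j)) =
      τ (star x * y) * inner ℂ (cc i) (cc j) :=
    fun i j x y => hTC B τ hB H L R h (cc i) (cc j) (hcen i) (hcen j) x y
  set v : H := ∑ j, L (x j) (cc j) with hvdef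
  set w : H := ∑ j, τ (x j) • cc j with hwdef
  have hw : ∀ y, L y w = R y w := by
    intro y
    rw [hwdef, map_sum, map_sum]
    refine Finset.sum_congr rfl fun j _ => ?_
    rw [map_smul, map_smul, hcen j y]
  have hvw : v - w = ∑ j, L (x j - τ (x j) • (1 : B)) (cc j) := by
    rw [hvdef, hwdef, ← Finset.sum_sub_distrib]
    refine Finset.sum_congr rfl fun j _ => ?_
    rw [map_sub, map_smul, _root_.sub_apply, _root_.smul_apply, h.L_one]
  have hfar' : ε / 2 ≤ ‖v - w‖ := by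
    have h3 := hfar w hw
    have h4 : ‖ξ - w‖ ≤ ‖ξ - η‖ + ‖η - v‖ + ‖v - w‖ := by
      have : ξ - w = (ξ - η) + (η - v) + (v - w) := by abel
      rw [this]
      exact norm_add₃_le
    have h5 : ‖η - v‖ ≤ ε / 4 := hv.trans (min_le_left _ _)
    linarith
  have hvar : ε ^ 2 / 4 ≤ ∑ j, hs τ (x j - τ (x j) • (1 : B)) := by
    rw [← fm_norm ho hTC', ← hvw]
    have := pow_le_pow_left₀ (by positivity) hfar' 2
    linarith [this, show (ε / 2) ^ 2 = ε ^ 2 / 4 by ring]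
  have hcom : ∀ y, L y v - R y v = ∑ j, L (y * x j - x j * y) (cc j) := by
    intro y
    rw [hvdef, map_sum, map_sum, ← Finset.sum_sub_distrib]
    refine Finset.sum_congr rfl fun j _ => ?_
    rw [map_sub, _root_.sub_apply, h.L_mul, h.L_mul, ← h.comm, ← hcen j y]
  have hcs : ∀ y, Un y → y ∈ U ∪ U.image star → ∑ j, hs τ (y * x j - x j * y) ≤ s ^ 2 := by
    intro y hy hyU
    rw [← fm_norm ho hTC', ← hcom]
    refine pow_le_pow_left₀ (norm_nonneg _) ?_ 2
    have h3 : L y v - R y v = (L y η - R y η) - (L y (η - v) - R y (η - v)) := by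
      rw [map_sub, map_sub]; abel
    have h4 : ‖L y η - R y η‖ ≤ s / 3 := (hcη y).trans
      ((ha y (Finset.mem_union_right _ hyU)).trans (min_le_right _ _))
    have h5 : ‖η - v‖ ≤ s / 3 := hv.trans (min_le_right _ _)
    have h6 : ‖L y (η - v) - R y (η - v)‖ ≤ s / 3 + s / 3 := by
      refine (norm_sub_le _ _).trans ?_
      rw [fm_isoL h hy, fm_isoR h hy]
      linarith
    rw [h3]
    refine (norm_sub_le _ _).trans ?_
    linarith
  obtain ⟨m, z, hz1, hz2, hz3, hz4⟩ := hSY B τ n x hτ hB.cpl hx1 hx2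
  refine ⟨m, z, hz1, hz2, ?_, by linarith⟩
  intro y hy
  have hb : ∀ i, ∑ k, hs τ ((u y i : B) * z k - z k * (u y i : B)) ≤ 3 * s := by
    intro i
    have hyU : (u y i : B) ∈ U :=
      Finset.mem_biUnion.2 ⟨y, hy, Finset.mem_image.2 ⟨i, Finset.mem_univ i, rfl⟩⟩
    have h3 := hz4 (u y i : B) (s ^ 2) (hUn y i)
      (hcs _ (hUn y i) (Finset.mem_union_left _ hyU))
      (hcs _ (hUn y i).star (Finset.mem_union_right _ (Finset.mem_image_of_mem _ hyU)))
    rw [Real.sqrt_sq hspos.le] at h3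
    nlinarith
  have h3 : ∀ k, hs τ (y * z k - z k * y) ≤
      8 * ∑ i, ‖c y i‖ ^ 2 * hs τ ((u y i : B) * z k - z k * (u y i : B)) := by
    intro k
    have h4 : y * z k - z k * y =
        ∑ i, c y i • ((u y i : B) * z k - z k * (u y i : B)) := by
      conv_lhs => rw [hx y]
      rw [Finset.sum_mul, Finset.mul_sum, ← Finset.sum_sub_distrib]
      refine Finset.sum_congr rfl fun i _ => ?_
      rw [smul_mul_assoc, mul_smul_comm, smul_sub]
    rw [h4]
    refine (fm_hs4 hτ _).trans ?_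
    simp only [hs_smulC]
    exact le_rfl
  calc ∑ k, hs τ (y * z k - z k * y)
      ≤ ∑ k, 8 * ∑ i, ‖c y i‖ ^ 2 * hs τ ((u y i : B) * z k - z k * (u y i : B)) :=
        Finset.sum_le_sum fun k _ => h3 k
    _ = 8 * ∑ i, ‖c y i‖ ^ 2 * ∑ k, hs τ ((u y i : B) * z k - z k * (u y i : B)) := by
        rw [← Finset.mul_sum, Finset.sum_comm]
        simp only [Finset.mul_sum]
    _ ≤ 8 * ∑ i, ‖c y i‖ ^ 2 * (3 * s) := by
        gcongr with i _
        exact hb i
    _ = (8 * ∑ i, ‖c y i‖ ^ 2) * (3 * s) := by rw [← Finset.sum_mul]; ring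
    _ ≤ M * (3 * s) := mul_le_mul_of_nonneg_right (hMx y hy) (by positivity)
    _ ≤ δ := by linarith

end Helper61.HT
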