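import Pool.Agent.Helper61.HT.StG
import Pool.Agent.Helper61.HT.LibN

/-!
# Project HT, module IC: the averages of the products
-/

set_option linter.unusedSectionVars false

namespace Helper61.HT

open scoped ComplexOrder
open Filter Topology

section

variable {B : Type} [CStarAlgebra B] {τ : B →ₗ[ℂ] ℂ}

/-- Minkowski for families -/
private lemma fam_add {ι : Type} [Fintype ι] (hτ : Trc τ) (Y Y' : ι → B) :
    Real.sqrt (∑ w, hs τ (Y w + Y' w)) ≤
      Real.sqrt (∑ w, hs τ (Y w)) + Real.sqrt (∑ w, hs τ (Y' w)) := by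
  have hp : 0 ≤ ∑ w, hs τ (Y w) := Finset.sum_nonneg (fun w _ => hs_nonneg hτ _)
  have hp' : 0 ≤ ∑ w, hs τ (Y' w) := Finset.sum_nonneg (fun w _ => hs_nonneg hτ _)
  rw [Real.sqrt_le_iff]
  refine ⟨by positivity, ?_⟩
  have h1 : ∀ w, hs τ (Y w + Y' w) ≤ hs τ (Y w) + hs τ (Y' w)
      + 2 * (Real.sqrt (hs τ (Y w)) * Real.sqrt (hs τ (Y' w))) := by
    intro w
    rw [hs_add hτ]
    have h2 := rt_mul_le hτ (star (Y w)) (Y' w)
    rw [hs_star hτ] at h2
    linarith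
  have h2 := Real.sum_sqrt_mul_sqrt_le (Finset.univ : Finset ι)
    (fun w => hs_nonneg hτ (Y w)) (fun w => hs_nonneg hτ (Y' w))
  calc ∑ w, hs τ (Y w + Y' w) ≤ ∑ w, (hs τ (Y w) + hs τ (Y' w)
      + 2 * (Real.sqrt (hs τ (Y w)) * Real.sqrt (hs τ (Y' w)))) :=
        Finset.sum_le_sum (fun w _ => h1 w)
    _ = ∑ w, hs τ (Y w) + ∑ w, hs τ (Y' w)
        + 2 * ∑ w, Real.sqrt (hs τ (Y w)) * Real.sqrt (hs τ (Y' w)) := by
        rw [Finset.sum_add_distrib, Finset.sum_add_distrib, Finset.mul_sum]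
    _ ≤ _ := by
        have h3 := Real.sq_sqrt hp
        have h4 := Real.sq_sqrt hp'
        nlinarith

/-- Jensen -/
private lemma hs_jensen {l : ℕ} (hτ : Trc τ) (c : Fin l → ℝ) (hc : ∀ i, 0 ≤ c i)
    (hc1 : ∑ i, c i = 1) (y : Fin l → B) :
    hs τ (∑ i, c i • y i) ≤ ∑ i, c i * hs τ (y i) := by
  set s := ∑ i, c i • y i with hs'
  have h1 : ∀ i, c i * hs τ (y i - s) =
      c i * hs τ (y i) + c i * hs τ s - 2 * (c i * rt τ (star (y i) * s)) := by
    intro i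
    rw [sub_eq_add_neg, hs_add hτ, hs_neg, mul_neg, rt_neg]
    ring
  have h2 : 0 ≤ ∑ i, c i * hs τ (y i - s) :=
    Finset.sum_nonneg (fun i _ => mul_nonneg (hc i) (hs_nonneg hτ _))
  rw [Finset.sum_congr rfl (fun i _ => h1 i), Finset.sum_sub_distrib, Finset.sum_add_distrib,
    ← Finset.sum_mul, hc1, one_mul, ← Finset.mul_sum] at h2
  have h3 : ∑ i, c i * rt τ (star (y i) * s) = hs τ s := by
    rw [hs_eq_rt, hs', star_sum, Finset.sum_mul, rt_sum, ← hs']
    apply Finset.sum_congr rfl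
    intro i _
    rw [star_smul, star_trivial (c i), smul_mul_assoc, rt_smul]
  rw [h3] at h2
  linarith

private lemma row {ι : Type} [Fintype ι] (hτ : Trc τ) (Z : ι → B)
    (hZ : ∑ i, Z i * star (Z i) = 1) (A : B) : ∑ i, hs τ (A * Z i) = hs τ A := by
  have h1 : ∀ i, hs τ (A * Z i) = rt τ (star A * A * (Z i * star (Z i))) := by
    intro i
    rw [hs_eq_rt, star_mul, rt_mul_comm hτ]
    have : A * Z i * (star (Z i) * star A) = A * (Z i * star (Z i)) * star A := by noncomm_ring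
    rw [this, rt_cycle hτ]
  rw [Finset.sum_congr rfl (fun i _ => h1 i), ← rt_sum, ← Finset.mul_sum, hZ, mul_one]
  rfl

private lemma col {ι : Type} [Fintype ι] (X : ι → B)
    (hX : ∑ i, star (X i) * X i = 1) (C : B) : ∑ i, hs τ (X i * C) = hs τ C := by
  have h1 : ∀ i, hs τ (X i * C) = rt τ (star C * (star (X i) * X i) * C) := by
    intro i
    rw [hs_eq_rt, star_mul]
    congr 1
    noncomm_ring
  rw [Finset.sum_congr rfl (fun i _ => h1 i), ← rt_sum, ← Finset.sum_mul, ← Finset.mul_sum, hX,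
    mul_one]
  rfl

private lemma Av_add {l : ℕ} (c : Fin l → ℝ) (v : Fin l → B) (y y' : B) :
    Av c v (y + y') = Av c v y + Av c v y' := by
  unfold Av
  rw [← Finset.sum_add_distrib]
  apply Finset.sum_congr rfl
  intro i _
  rw [mul_add, add_mul, smul_add]

private lemma hs_Av {l : ℕ} [PartialOrder B] [StarOrderedRing B] (hτ : Trc τ) (c : Fin l → ℝ)
    (hc : ∀ i, 0 ≤ c i) (hc1 : ∑ i, c i = 1) (v : Fin l → B) (hv : ∀ i, Un (v i)) (y : B) :
    hs τ (Av c v y) ≤ hs τ y := by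
  refine (hs_jensen hτ c hc hc1 _).trans ?_
  have : ∀ i, c i * hs τ (v i * y * star (v i)) = c i * hs τ y := by
    intro i
    rw [hs_mul_unit hτ (hv i).star, hs_unit_mul (hv i)]
  rw [Finset.sum_congr rfl (fun i _ => this i), ← Finset.sum_mul, hc1, one_mul]

/-- one step: if `A w' = Av (T * X w')` then `Av (T * (X w' * Z i))` is close to `A w' * Z i` -/
private lemma stepIC {p q l : ℕ} [PartialOrder B] [StarOrderedRing B] (hτ : Trc τ)
    (X : Fin p → B) (Z : Fin q → B) (hX : ∑ i, star (X i) * X i = 1)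
    (hZ : ∑ i, Z i * star (Z i) = 1) (c : Fin l → ℝ) (hc : ∀ i, 0 ≤ c i) (hc1 : ∑ i, c i = 1)
    (v : Fin l → B) (hv : ∀ i, Un (v i)) (T : B) (K η : ℝ) (hT : ‖T‖ ≤ K)
    (hη : 0 ≤ η)
    (hcom : ∀ a, K ^ 2 * ∑ i, hs τ (star (v a) * Z i - Z i * star (v a)) ≤ η ^ 2) :
    Real.sqrt (∑ x : Fin p × Fin q, hs τ (Av c v (T * (X x.1 * Z x.2)))) ≤
      Real.sqrt (∑ w, hs τ (Av c v (T * X w))) + η := by
  have e : ∀ x : Fin p × Fin q, Av c v (T * (X x.1 * Z x.2)) = Av c v (T * X x.1) * Z x.2 +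
      ∑ a, c a • (v a * (T * (X x.1 * (Z x.2 * star (v a) - star (v a) * Z x.2)))) := by
    intro x
    unfold Av
    rw [Finset.sum_mul, ← Finset.sum_add_distrib]
    apply Finset.sum_congr rfl
    intro a _
    rw [smul_mul_assoc, ← smul_add]
    congr 1
    noncomm_ring
  rw [Finset.sum_congr rfl (fun x _ => by rw [e x])]
  refine (fam_add hτ (fun x : Fin p × Fin q => Av c v (T * X x.1) * Z x.2) _).trans ?_
  have h1 : ∑ x : Fin p × Fin q, hs τ (Av c v (T * X x.1) * Z x.2)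
      = ∑ w, hs τ (Av c v (T * X w)) := by
    rw [Fintype.sum_prod_type]
    apply Finset.sum_congr rfl
    intro w _
    exact row hτ Z hZ (Av c v (T * X w))
  have h2 : ∑ x : Fin p × Fin q, hs τ (∑ a, c a • (v a * (T * (X x.1 *
      (Z x.2 * star (v a) - star (v a) * Z x.2))))) ≤ η ^ 2 := by
    calc ∑ x : Fin p × Fin q, hs τ (∑ a, c a • (v a * (T * (X x.1 *
      (Z x.2 * star (v a) - star (v a) * Z x.2)))))
        ≤ ∑ x : Fin p × Fin q, ∑ a, c a * hs τ (v a * (T * (X x.1 *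
      (Z x.2 * star (v a) - star (v a) * Z x.2)))) :=
          Finset.sum_le_sum (fun x _ => hs_jensen hτ c hc hc1 _)
      _ ≤ ∑ x : Fin p × Fin q, ∑ a, c a * (K ^ 2 * hs τ (X x.1 *
      (Z x.2 * star (v a) - star (v a) * Z x.2))) := by
          apply Finset.sum_le_sum
          intro x _
          apply Finset.sum_le_sum
          intro a _
          apply mul_le_mul_of_nonneg_left _ (hc a)
          rw [hs_unit_mul (hv a)]
          refine (hs_mul_le hτ _ _).trans ?_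
          apply mul_le_mul_of_nonneg_right _ (hs_nonneg hτ _)
          exact pow_le_pow_left₀ (norm_nonneg _) hT 2
      _ = ∑ a, c a * (K ^ 2 * ∑ i, hs τ (star (v a) * Z i - Z i * star (v a))) := by
          rw [Finset.sum_comm]
          apply Finset.sum_congr rfl
          intro a _
          rw [← Finset.mul_sum, ← Finset.mul_sum, Fintype.sum_prod_type, Finset.sum_comm]
          congr 2
          apply Finset.sum_congr rfl
          intro i _
          show ∑ w, hs τ (X w * (Z i * star (v a) - star (v a) * Z i)) = _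
          rw [col X hX, hs_sub_comm]
      _ ≤ ∑ a, c a * η ^ 2 :=
          Finset.sum_le_sum (fun a _ => mul_le_mul_of_nonneg_left (hcom a) (hc a))
      _ = η ^ 2 := by rw [← Finset.sum_mul, hc1, one_mul]
  rw [h1]
  apply add_le_add le_rfl
  rw [Real.sqrt_le_iff]
  exact ⟨hη, h2⟩

end

theorem pIC : StIC := by
  intro B _ _ _ τ D F δ r m k l X Z c v hτ hP hD hdec x ε hε
  -- the estimate from stage n0
  have hiter : ∀ n₀ j, j ≤ n₀ → ∀ n, n₀ ≤ n →
      Real.sqrt (∑ w, hs τ (Av (c n₀) (v n₀) (D j * X n w))) ≤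
      Real.sqrt (∑ w, hs τ (Av (c n₀) (v n₀) (D j * X n₀ w))) + ((1 / 2) ^ n₀ - (1 / 2) ^ n) := by
    intro n₀ j hj n hn
    induction n, hn using Nat.le_induction with
    | base => simp
    | succ n hn ih =>
      obtain ⟨e, he⟩ := hP.step n
      obtain ⟨hc, hc1, hv⟩ : (∀ i, 0 ≤ c n₀ i) ∧ ∑ i, c n₀ i = 1 ∧ ∀ i, Un (v n₀ i) :=
        ⟨(hP.cv n₀).1, (hP.cv n₀).2.1, (hP.cv n₀).2.2⟩
      have hK : ‖D j‖ ≤ 1 + ∑ i ∈ Finset.range (n₀ + 1), ‖D i‖ := by
        have h1 : ‖D j‖ ≤ ∑ i ∈ Finset.range (n₀ + 1), ‖D i‖ :=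
          Finset.single_le_sum (f := fun i => ‖D i‖) (fun i _ => norm_nonneg _)
            (Finset.mem_range.mpr (by omega))
        linarith
      have h1 := stepIC hτ (X n) (Z n) (hP.bX n).1 (hP.bZ n).2 (c n₀) hc hc1 (v n₀) hv (D j)
        (1 + ∑ i ∈ Finset.range (n₀ + 1), ‖D i‖) ((1 / 2) ^ (n + 1)) hK (by positivity)
        (fun a => by
          refine (hP.zv n n₀ hn a).trans (le_of_eq ?_)
          rw [← pow_mul, mul_comm (n + 1) 2, pow_mul, show ((1 : ℝ) / 2) ^ 2 = 1 / 4 by norm_num,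
            one_div_pow])
      have h2 : ∑ w, hs τ (Av (c n₀) (v n₀) (D j * X (n + 1) w))
          = ∑ y : Fin (m n) × Fin (k n), hs τ (Av (c n₀) (v n₀) (D j * (X n y.1 * Z n y.2))) := by
        apply Fintype.sum_equiv e
        intro w
        rw [he w]
      rw [h2]
      refine h1.trans ?_
      have h3 : ((1 : ℝ) / 2) ^ n = 2 * (1 / 2) ^ (n + 1) := by rw [pow_succ]; ring
      linarith
  -- the initial estimate
  have hinit : ∀ n₀ j, j ≤ n₀ →
      Real.sqrt (∑ w, hs τ (Av (c n₀) (v n₀) (D j * X n₀ w))) ≤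
        (1 / 2) ^ n₀ + Real.sqrt (∑ w, ‖τ (D j * X n₀ w)‖ ^ 2) := by
    intro n₀ j hj
    have h1 := fam_add hτ (fun w => Av (c n₀) (v n₀) (D j * X n₀ w) - τ (D j * X n₀ w) • (1 : B))
      (fun w => τ (D j * X n₀ w) • (1 : B))
    have e1 : ∀ w, (fun w => Av (c n₀) (v n₀) (D j * X n₀ w) - τ (D j * X n₀ w) • (1 : B)) w
        + (fun w => τ (D j * X n₀ w) • (1 : B)) w = Av (c n₀) (v n₀) (D j * X n₀ w) := by
      intro w
      exact sub_add_cancel _ _
    rw [Finset.sum_congr rfl (fun w _ => by rw [e1 w])] at h1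
    refine h1.trans (add_le_add ?_ (le_of_eq ?_))
    · rw [Real.sqrt_le_iff]
      refine ⟨by positivity, (hP.av n₀ j hj).trans (le_of_eq ?_)⟩
      rw [← pow_mul, mul_comm n₀ 2, pow_mul, show ((1 : ℝ) / 2) ^ 2 = 1 / 4 by norm_num,
        one_div_pow]
    · congr 1
      apply Finset.sum_congr rfl
      intro w _
      show hs τ (τ (D j * X n₀ w) • (1 : B)) = _
      rw [hs_smulC]
      have : hs τ (1 : B) = 1 := by
        rw [hs_eq_rt, star_one, mul_one]
        unfold rt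
        rw [hτ.one]
        rfl
      rw [this, mul_one]
  -- conclusion
  have hs0 : 0 < Real.sqrt ε := Real.sqrt_pos.mpr hε
  obtain ⟨j, hj⟩ := hD x ((Real.sqrt ε / 4) ^ 2) (by positivity)
  have h1 : Tendsto (fun n => ∑ w, ‖τ (D j * X n w)‖ ^ 2) atTop (𝓝 0) := hdec j
  have h2 : ∀ᶠ n in atTop, ∑ w, ‖τ (D j * X n w)‖ ^ 2 < (Real.sqrt ε / 4) ^ 2 :=
    h1.eventually (gt_mem_nhds (by positivity))
  have h3 : Tendsto (fun n : ℕ => ((1 : ℝ) / 2) ^ n) atTop (𝓝 0) :=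
    tendsto_pow_atTop_nhds_zero_of_lt_one (by norm_num) (by norm_num)
  have h4 : ∀ᶠ n : ℕ in atTop, ((1 : ℝ) / 2) ^ n < Real.sqrt ε / 8 :=
    h3.eventually (gt_mem_nhds (by positivity))
  obtain ⟨n₀, hn1, hn2, hn3⟩ := (h2.and (h4.and (eventually_ge_atTop j))).exists
  refine ⟨n₀, fun n hn => ?_⟩
  obtain ⟨hc, hc1, hv⟩ : (∀ i, 0 ≤ c n₀ i) ∧ ∑ i, c n₀ i = 1 ∧ ∀ i, Un (v n₀ i) :=
    ⟨(hP.cv n₀).1, (hP.cv n₀).2.1, (hP.cv n₀).2.2⟩
  have h5 := fam_add hτ (fun w => Av (c n₀) (v n₀) ((x - D j) * X n w))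
    (fun w => Av (c n₀) (v n₀) (D j * X n w))
  have e1 : ∀ w, (fun w => Av (c n₀) (v n₀) ((x - D j) * X n w)) w
      + (fun w => Av (c n₀) (v n₀) (D j * X n w)) w = Av (c n₀) (v n₀) (x * X n w) := by
    intro w
    show Av (c n₀) (v n₀) ((x - D j) * X n w) + Av (c n₀) (v n₀) (D j * X n w) = _
    rw [← Av_add]
    congr 1
    noncomm_ring
  rw [Finset.sum_congr rfl (fun w _ => by rw [e1 w])] at h5
  have h6 : Real.sqrt (∑ w, hs τ (Av (c n₀) (v n₀) ((x - D j) * X n w))) ≤ Real.sqrt ε / 4 := by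
    rw [Real.sqrt_le_iff]
    refine ⟨by positivity, ?_⟩
    calc ∑ w, hs τ (Av (c n₀) (v n₀) ((x - D j) * X n w))
        ≤ ∑ w, hs τ ((x - D j) * X n w) :=
          Finset.sum_le_sum (fun w _ => hs_Av hτ _ hc hc1 _ hv _)
      _ = hs τ (x - D j) := row hτ (X n) (hP.bX n).2 _
      _ ≤ _ := hj
  have h7 := hiter n₀ j hn3 n hn
  have h8 := hinit n₀ j hn3
  have h9 : Real.sqrt (∑ w, ‖τ (D j * X n₀ w)‖ ^ 2) ≤ Real.sqrt ε / 4 := by
    rw [Real.sqrt_le_iff]
    exact ⟨by positivity, hn1.le⟩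
  have h10 : (0 : ℝ) ≤ (1 / 2) ^ n := by positivity
  have h11 : Real.sqrt (∑ w, hs τ (Av (c n₀) (v n₀) (x * X n w))) ≤ Real.sqrt ε := by
    refine h5.trans ?_
    have : Real.sqrt (∑ w, hs τ ((fun w => Av (c n₀) (v n₀) (D j * X n w)) w))
        ≤ 3 * (Real.sqrt ε / 4) := by
      show Real.sqrt (∑ w, hs τ (Av (c n₀) (v n₀) (D j * X n w))) ≤ _
      linarith
    have h12 : Real.sqrt (∑ w, hs τ ((fun w => Av (c n₀) (v n₀) ((x - D j) * X n w)) w))
        ≤ Real.sqrt ε / 4 := h6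
    linarith
  have h12 : 0 ≤ ∑ w, hs τ (Av (c n₀) (v n₀) (x * X n w)) :=
    Finset.sum_nonneg (fun w _ => hs_nonneg hτ _)
  exact (Real.sqrt_le_sqrt_iff hε.le).mp h11

end Helper61.HT
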