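import Pool.Agent.Helper61.HT.StG
import Pool.Agent.Helper61.HT.LibN

/-!
# Project HT, part G, module ID: commutators of the products, decay of the scalar parts
-/

namespace Helper61.HT

open scoped ComplexOrder
open Filter Topology

section

variable {N : Type} [CStarAlgebra N] {τ : N →ₗ[ℂ] ℂ}

private lemma row_ID (hτ : Trc τ) {κ : Type} [Fintype κ] (Z : κ → N)
    (hZ : ∑ i, Z i * star (Z i) = 1) (c : N) : ∑ i, hs τ (c * Z i) = hs τ c := by
  have h1 : ∀ i, hs τ (c * Z i) = rt τ ((star c * c) * (Z i * star (Z i))) := by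
    intro i
    rw [hs_eq_rt, star_mul]
    calc rt τ (star (Z i) * star c * (c * Z i)) = rt τ (star (Z i) * (star c * c * Z i)) := by
          congr 1; noncomm_ring
      _ = rt τ (star c * c * Z i * star (Z i)) := rt_mul_comm hτ _ _
      _ = _ := by congr 1; noncomm_ring
  simp_rw [h1]
  rw [← rt_sum, ← Finset.mul_sum, hZ, mul_one, hs_eq_rt]

private lemma col_ID {κ : Type} [Fintype κ] (X : κ → N)
    (hX : ∑ i, star (X i) * X i = 1) (c : N) : ∑ i, hs τ (X i * c) = hs τ c := by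
  have h1 : ∀ i, hs τ (X i * c) = rt τ (star c * (star (X i) * X i) * c) := by
    intro i
    rw [hs_eq_rt, star_mul]
    congr 1; noncomm_ring
  simp_rw [h1]
  rw [← rt_sum, ← Finset.sum_mul, ← Finset.mul_sum, hX, mul_one, hs_eq_rt]

private lemma mink_ID (hτ : Trc τ) {κ : Type} [Fintype κ] (f g : κ → N) :
    ∑ i, hs τ (f i + g i) ≤ (Real.sqrt (∑ i, hs τ (f i)) + Real.sqrt (∑ i, hs τ (g i))) ^ 2 := by
  have hf : 0 ≤ ∑ i, hs τ (f i) := Finset.sum_nonneg fun i _ => hs_nonneg hτ _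
  have hg : 0 ≤ ∑ i, hs τ (g i) := Finset.sum_nonneg fun i _ => hs_nonneg hτ _
  have h1 : ∀ i, hs τ (f i + g i) ≤ hs τ (f i) + hs τ (g i) +
      2 * (Real.sqrt (hs τ (f i)) * Real.sqrt (hs τ (g i))) := by
    intro i
    rw [hs_add hτ]
    have := rt_mul_le hτ (star (f i)) (g i)
    rw [hs_star hτ] at this
    linarith
  have h2 : ∑ i, Real.sqrt (hs τ (f i)) * Real.sqrt (hs τ (g i)) ≤
      Real.sqrt (∑ i, hs τ (f i)) * Real.sqrt (∑ i, hs τ (g i)) :=
    Real.sum_sqrt_mul_sqrt_le _ (fun i => hs_nonneg hτ _) (fun i => hs_nonneg hτ _)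
  calc ∑ i, hs τ (f i + g i) ≤ ∑ i, (hs τ (f i) + hs τ (g i) +
        2 * (Real.sqrt (hs τ (f i)) * Real.sqrt (hs τ (g i)))) :=
        Finset.sum_le_sum fun i _ => h1 i
    _ = ∑ i, hs τ (f i) + ∑ i, hs τ (g i) +
        2 * ∑ i, Real.sqrt (hs τ (f i)) * Real.sqrt (hs τ (g i)) := by
        rw [Finset.sum_add_distrib, Finset.sum_add_distrib, Finset.mul_sum]
    _ ≤ _ := by
        rw [add_sq, Real.sq_sqrt hf, Real.sq_sqrt hg]
        linarith

private lemma norm_tau_ID (hτ : Trc τ) (x : N) : ‖τ x‖ ^ 2 ≤ hs τ x := by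
  have h1 := norm_map_mul_le hτ 1 x
  have h2 : hs τ (1 : N) = 1 := by
    rw [hs_eq_rt, star_one, one_mul]
    unfold rt
    rw [hτ.one]
    rfl
  rw [star_one, one_mul, h2, Real.sqrt_one, one_mul] at h1
  calc ‖τ x‖ ^ 2 ≤ (Real.sqrt (hs τ x)) ^ 2 := pow_le_pow_left₀ (norm_nonneg _) h1 2
    _ = hs τ x := Real.sq_sqrt (hs_nonneg hτ _)

private lemma sc_ID (a b c : ℂ) {r : ℝ} (hr : 0 < r) :
    ‖a + b + c‖ ^ 2 ≤ (1 + r / 2) * ‖a‖ ^ 2 + (1 + 2 / r) * (2 * ‖b‖ ^ 2 + 2 * ‖c‖ ^ 2) := by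
  have h1 : ‖a + b + c‖ ≤ ‖a‖ + (‖b‖ + ‖c‖) := by
    have := norm_add₃_le (a := a) (b := b) (c := c)
    linarith
  set p := ‖a‖
  set q := ‖b‖
  set s := ‖c‖
  have h2 : 2 * p * (q + s) ≤ r / 2 * p ^ 2 + 2 / r * (q + s) ^ 2 := by
    have h3 : 0 ≤ r / 2 * (p - 2 / r * (q + s)) ^ 2 := by positivity
    have h4 : r / 2 * (p - 2 / r * (q + s)) ^ 2 =
        r / 2 * p ^ 2 - 2 * p * (q + s) + 2 / r * (q + s) ^ 2 := by
      field_simp
      ring
    linarith
  have h5 : (q + s) ^ 2 ≤ 2 * q ^ 2 + 2 * s ^ 2 := by nlinarith [sq_nonneg (q - s)]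
  have h6 : 0 < 1 + 2 / r := by positivity
  calc ‖a + b + c‖ ^ 2 ≤ (p + (q + s)) ^ 2 := pow_le_pow_left₀ (norm_nonneg _) h1 2
    _ = p ^ 2 + 2 * p * (q + s) + (q + s) ^ 2 := by ring
    _ ≤ (1 + r / 2) * p ^ 2 + (1 + 2 / r) * (q + s) ^ 2 := by linarith
    _ ≤ _ := by
        have := mul_le_mul_of_nonneg_left h5 h6.le
        linarith

private lemma dec_ID (t : ℕ → ℝ) (ρ C : ℝ) (h0 : ∀ n, 0 ≤ t n) (hρ : 1 / 2 ≤ ρ) (hρ1 : ρ < 1)
    (hC : 0 ≤ C) (h : ∀ n, t (n + 1) ≤ ρ * t n + C * (1 / 4) ^ n) :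
    Tendsto t atTop (𝓝 0) := by
  have key : ∀ n, t n ≤ (t 0 + 4 * C) * ρ ^ n - 4 * C * (1 / 4) ^ n := by
    intro n
    induction n with
    | zero => simp
    | succ n ih =>
      have h1 : ρ * t n ≤ ρ * ((t 0 + 4 * C) * ρ ^ n - 4 * C * (1 / 4) ^ n) :=
        mul_le_mul_of_nonneg_left ih (by linarith)
      have h2 : (0 : ℝ) ≤ C * (1 / 4) ^ n := by positivity
      have h3 : (0 : ℝ) ≤ (ρ - 1 / 2) * (C * (1 / 4) ^ n) := mul_nonneg (by linarith) h2
      calc t (n + 1) ≤ ρ * t n + C * (1 / 4) ^ n := h n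
        _ ≤ ρ * ((t 0 + 4 * C) * ρ ^ n - 4 * C * (1 / 4) ^ n) + C * (1 / 4) ^ n := by linarith
        _ ≤ _ := by
          rw [pow_succ, pow_succ]
          nlinarith
  have hlim : Tendsto (fun n => (t 0 + 4 * C) * ρ ^ n) atTop (𝓝 0) := by
    have := (tendsto_pow_atTop_nhds_zero_of_lt_one (by linarith : (0 : ℝ) ≤ ρ) hρ1).const_mul
      (t 0 + 4 * C)
    simpa using this
  refine tendsto_of_tendsto_of_tendsto_of_le_of_le tendsto_const_nhds hlim h0 fun n => ?_
  have h2 : (0 : ℝ) ≤ 4 * C * (1 / 4) ^ n := by positivity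
  have := key n
  show t n ≤ (t 0 + 4 * C) * ρ ^ n
  linarith

private lemma av_mul_ID (hτ : Trc τ) {l : ℕ} (c : Fin l → ℝ) (v : Fin l → N) (hc : ∑ i, c i = 1)
    (hv : ∀ i, Un (v i)) (y z : N) :
    τ (y * z) - τ (Av c v y * z) =
      ∑ i, (c i : ℂ) * τ (v i * y * (z * star (v i) - star (v i) * z)) := by
  have h1 : τ (Av c v y * z) = ∑ i, (c i : ℂ) * τ (v i * y * star (v i) * z) := by
    unfold Av
    rw [Finset.sum_mul, map_sum]
    refine Finset.sum_congr rfl fun i _ => ?_
    rw [smul_mul_assoc, map_smul_real]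
  have h2 : τ (y * z) = ∑ i, (c i : ℂ) * τ (v i * y * (z * star (v i))) := by
    have h3 : ∀ i, τ (v i * y * (z * star (v i))) = τ (y * z) := by
      intro i
      calc τ (v i * y * (z * star (v i))) = τ (v i * (y * z * star (v i))) := by
            congr 1; noncomm_ring
        _ = τ (y * z * star (v i) * v i) := hτ.tr _ _
        _ = τ (y * z * (star (v i) * v i)) := by congr 1; noncomm_ring
        _ = τ (y * z) := by rw [(hv i).1, mul_one]
    simp_rw [h3]
    rw [← Finset.sum_mul, ← Complex.ofReal_sum, hc, Complex.ofReal_one, one_mul]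
  rw [h1, h2, ← Finset.sum_sub_distrib]
  refine Finset.sum_congr rfl fun i _ => ?_
  rw [← mul_sub, ← map_sub]
  congr 2
  noncomm_ring

private lemma conv_ID {l : ℕ} (c : Fin l → ℝ) (hc0 : ∀ i, 0 ≤ c i) (hc : ∑ i, c i = 1)
    (t : Fin l → ℂ) : ‖∑ i, (c i : ℂ) * t i‖ ^ 2 ≤ ∑ i, c i * ‖t i‖ ^ 2 := by
  have h1 : ‖∑ i, (c i : ℂ) * t i‖ ≤ ∑ i, c i * ‖t i‖ := by
    refine (norm_sum_le _ _).trans (le_of_eq ?_)
    refine Finset.sum_congr rfl fun i _ => ?_
    rw [norm_mul, Complex.norm_real, Real.norm_of_nonneg (hc0 i)]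
  have h2 := (convexOn_pow 2).map_sum_le (t := Finset.univ) (w := c) (p := fun i => ‖t i‖)
    (fun i _ => hc0 i) hc (fun i _ => norm_nonneg _)
  simp only [smul_eq_mul] at h2
  exact (pow_le_pow_left₀ (norm_nonneg _) h1 2).trans h2

end

theorem pID : StID := by
  intro B _ _ _ τ D F δ r m k l X Z c v hτ hδ hr h
  constructor
  · -- commutators
    intro n y hy
    have key : ∀ n, Real.sqrt (∑ w, hs τ (y * X n w - X n w * y)) ≤
        Real.sqrt δ * (1 - (1 / 2) ^ n) := by
      intro n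
      induction n with
      | zero =>
        rw [h.x0 y]
        simp
      | succ n ih =>
        obtain ⟨e, he⟩ := h.step n
        have h1 : ∑ w, hs τ (y * X (n + 1) w - X (n + 1) w * y) =
            ∑ p : Fin (m n) × Fin (k n), hs τ ((y * X n p.1 - X n p.1 * y) * Z n p.2 +
              X n p.1 * (y * Z n p.2 - Z n p.2 * y)) := by
          rw [← Equiv.sum_comp e]
          refine Finset.sum_congr rfl fun w _ => ?_
          rw [he w]
          congr 1
          noncomm_ring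
        have h2 : ∑ p : Fin (m n) × Fin (k n), hs τ ((y * X n p.1 - X n p.1 * y) * Z n p.2) =
            ∑ w, hs τ (y * X n w - X n w * y) := by
          rw [Fintype.sum_prod_type]
          exact Finset.sum_congr rfl fun w _ =>
            row_ID hτ (Z n) (h.bZ n).2 (y * X n w - X n w * y)
        have h3 : ∑ p : Fin (m n) × Fin (k n), hs τ (X n p.1 * (y * Z n p.2 - Z n p.2 * y)) =
            ∑ i, hs τ (y * Z n i - Z n i * y) := by
          rw [Fintype.sum_prod_type_right]
          exact Finset.sum_congr rfl fun i _ =>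
            col_ID (X n) (h.bX n).1 (y * Z n i - Z n i * y)
        have h4 := mink_ID hτ (fun p : Fin (m n) × Fin (k n) =>
          (y * X n p.1 - X n p.1 * y) * Z n p.2)
          (fun p => X n p.1 * (y * Z n p.2 - Z n p.2 * y))
        rw [← h1, h2, h3] at h4
        have h5 : Real.sqrt (∑ i, hs τ (y * Z n i - Z n i * y)) ≤
            Real.sqrt δ * (1 / 2) ^ (n + 1) := by
          rw [Real.sqrt_le_iff]
          refine ⟨by positivity, (h.zF n y hy).trans (le_of_eq ?_)⟩
          rw [mul_pow, Real.sq_sqrt hδ.le, ← pow_mul, mul_comm (n + 1) 2, pow_mul, div_eq_mul_inv,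
            ← inv_pow]
          norm_num
        have h6 : Real.sqrt (∑ w, hs τ (y * X (n + 1) w - X (n + 1) w * y)) ≤
            Real.sqrt (∑ w, hs τ (y * X n w - X n w * y)) +
              Real.sqrt (∑ i, hs τ (y * Z n i - Z n i * y)) := by
          rw [Real.sqrt_le_iff]
          exact ⟨by positivity, h4⟩
        refine h6.trans ((add_le_add ih h5).trans (le_of_eq ?_))
        rw [pow_succ]
        ring
    have h7 : Real.sqrt (∑ w, hs τ (y * X n w - X n w * y)) ≤ Real.sqrt δ := by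
      refine (key n).trans ?_
      have h8 : (0 : ℝ) ≤ (1 / 2) ^ n := by positivity
      have h9 := Real.sqrt_nonneg δ
      nlinarith
    exact (Real.sqrt_le_sqrt_iff hδ.le).1 h7
  · -- decay
    intro j
    set s : ℕ → ℝ := fun n => ∑ w, ‖τ (D j * X n w)‖ ^ 2 with hs_def
    have hs0 : ∀ n, 0 ≤ s n := fun n => Finset.sum_nonneg fun _ _ => by positivity
    have hr1 : r ≤ 1 := by
      have h1 := h.zr 0
      have h2 : (0 : ℝ) ≤ ∑ i, ‖τ (Z 0 i)‖ ^ 2 := Finset.sum_nonneg fun _ _ => by positivity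
      linarith
    have hstep : ∀ n, j ≤ n → s (n + 1) ≤ (1 - r / 2) * s n + (3 * (1 + 2 / r)) * (1 / 4) ^ n := by
      intro n hjn
      obtain ⟨e, he⟩ := h.step n
      obtain ⟨hc0, hc1, hv⟩ := h.cv n
      set A : Fin (m n) → B := fun w => D j * X n w with hA
      set T2 : Fin (m n) × Fin (k n) → ℂ := fun p =>
        τ ((Av (c n) (v n) (A p.1) - τ (A p.1) • (1 : B)) * Z n p.2) with hT2
      set T3 : Fin (m n) × Fin (k n) → ℂ := fun p =>
        τ (A p.1 * Z n p.2) - τ (Av (c n) (v n) (A p.1) * Z n p.2) with hT3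
      have h1 : s (n + 1) = ∑ p : Fin (m n) × Fin (k n), ‖τ (A p.1 * Z n p.2)‖ ^ 2 := by
        rw [hs_def]
        simp only
        rw [← Equiv.sum_comp e]
        refine Finset.sum_congr rfl fun w _ => ?_
        rw [he w, hA]
        simp only [mul_assoc]
      have h2 : ∀ p, τ (A p.1 * Z n p.2) = τ (A p.1) * τ (Z n p.2) + T2 p + T3 p := by
        intro p
        rw [hT2, hT3]
        simp only
        rw [sub_mul, map_sub, smul_mul_assoc, one_mul, map_smul, smul_eq_mul]
        ring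
      have h3 : ∑ p : Fin (m n) × Fin (k n), ‖τ (A p.1) * τ (Z n p.2)‖ ^ 2 ≤ (1 - r) * s n := by
        have e1 : ∑ p : Fin (m n) × Fin (k n), ‖τ (A p.1) * τ (Z n p.2)‖ ^ 2 =
            (∑ w, ‖τ (A w)‖ ^ 2) * ∑ i, ‖τ (Z n i)‖ ^ 2 := by
          rw [Fintype.sum_prod_type, Finset.sum_mul]
          refine Finset.sum_congr rfl fun w _ => ?_
          rw [Finset.mul_sum]
          refine Finset.sum_congr rfl fun i _ => ?_
          rw [norm_mul, mul_pow]
        rw [e1, mul_comm]
        exact mul_le_mul_of_nonneg_right (h.zr n) (hs0 n)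
      have h4 : ∑ p : Fin (m n) × Fin (k n), ‖T2 p‖ ^ 2 ≤ (1 / 4) ^ n := by
        calc ∑ p : Fin (m n) × Fin (k n), ‖T2 p‖ ^ 2 ≤
            ∑ p : Fin (m n) × Fin (k n),
              hs τ ((Av (c n) (v n) (A p.1) - τ (A p.1) • (1 : B)) * Z n p.2) :=
              Finset.sum_le_sum fun p _ => norm_tau_ID hτ _
          _ = ∑ w, hs τ (Av (c n) (v n) (A w) - τ (A w) • (1 : B)) := by
              rw [Fintype.sum_prod_type]
              exact Finset.sum_congr rfl fun w _ =>
                row_ID hτ (Z n) (h.bZ n).2 (Av (c n) (v n) (A w) - τ (A w) • (1 : B))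
          _ ≤ 1 / 4 ^ n := h.av n j hjn
          _ = (1 / 4) ^ n := by rw [one_div_pow]
      have h5 : ∑ p : Fin (m n) × Fin (k n), ‖T3 p‖ ^ 2 ≤ (1 / 4) ^ (n + 1) := by
        have e2 : ∀ p, ‖T3 p‖ ^ 2 ≤ ∑ a, c n a * hs τ (v n a * A p.1 *
            (Z n p.2 * star (v n a) - star (v n a) * Z n p.2)) := by
          intro p
          rw [hT3]
          simp only
          rw [av_mul_ID hτ (c n) (v n) hc1 hv]
          refine (conv_ID (c n) hc0 hc1 _).trans ?_
          exact Finset.sum_le_sum fun a _ => mul_le_mul_of_nonneg_left (norm_tau_ID hτ _) (hc0 a)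
        have e3 : ∀ a, ∑ p : Fin (m n) × Fin (k n), hs τ (v n a * A p.1 *
            (Z n p.2 * star (v n a) - star (v n a) * Z n p.2)) ≤ (1 / 4) ^ (n + 1) := by
          intro a
          have e4 : ∀ p : Fin (m n) × Fin (k n), hs τ (v n a * A p.1 *
              (Z n p.2 * star (v n a) - star (v n a) * Z n p.2)) ≤
              ‖D j‖ ^ 2 * hs τ (X n p.1 *
                (star (v n a) * Z n p.2 - Z n p.2 * star (v n a))) := by
            intro p
            rw [mul_assoc, hs_unit_mul (hv a), hA]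
            simp only
            rw [mul_assoc]
            refine (hs_mul_le hτ _ _).trans (le_of_eq ?_)
            rw [← hs_neg (X n p.1 * (Z n p.2 * star (v n a) - star (v n a) * Z n p.2))]
            congr 2
            noncomm_ring
          calc _ ≤ ∑ p : Fin (m n) × Fin (k n), ‖D j‖ ^ 2 * hs τ (X n p.1 *
                (star (v n a) * Z n p.2 - Z n p.2 * star (v n a))) :=
                Finset.sum_le_sum fun p _ => e4 p
            _ = ‖D j‖ ^ 2 * ∑ i, hs τ (star (v n a) * Z n i - Z n i * star (v n a)) := by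
                rw [← Finset.mul_sum, Fintype.sum_prod_type_right]
                congr 1
                exact Finset.sum_congr rfl fun i _ =>
                  col_ID (X n) (h.bX n).1 (star (v n a) * Z n i - Z n i * star (v n a))
            _ ≤ (1 + ∑ i ∈ Finset.range (n + 1), ‖D i‖) ^ 2 *
                ∑ i, hs τ (star (v n a) * Z n i - Z n i * star (v n a)) := by
                apply mul_le_mul_of_nonneg_right
                · apply pow_le_pow_left₀ (norm_nonneg _)
                  have : ‖D j‖ ≤ ∑ i ∈ Finset.range (n + 1), ‖D i‖ :=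
                    Finset.single_le_sum (f := fun i => ‖D i‖) (fun i _ => norm_nonneg _)
                      (Finset.mem_range.2 (Nat.lt_succ_of_le hjn))
                  linarith
                · exact Finset.sum_nonneg fun i _ => hs_nonneg hτ _
            _ ≤ 1 / 4 ^ (n + 1) := h.zv n n le_rfl a
            _ = (1 / 4) ^ (n + 1) := by rw [one_div_pow]
        calc ∑ p : Fin (m n) × Fin (k n), ‖T3 p‖ ^ 2 ≤
            ∑ p : Fin (m n) × Fin (k n), ∑ a, c n a * hs τ (v n a * A p.1 *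
              (Z n p.2 * star (v n a) - star (v n a) * Z n p.2)) :=
              Finset.sum_le_sum fun p _ => e2 p
          _ = ∑ a, c n a * ∑ p : Fin (m n) × Fin (k n), hs τ (v n a * A p.1 *
              (Z n p.2 * star (v n a) - star (v n a) * Z n p.2)) := by
              rw [Finset.sum_comm]
              exact Finset.sum_congr rfl fun a _ => (Finset.mul_sum _ _ _).symm
          _ ≤ ∑ a, c n a * (1 / 4) ^ (n + 1) :=
              Finset.sum_le_sum fun a _ => mul_le_mul_of_nonneg_left (e3 a) (hc0 a)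
          _ = (1 / 4) ^ (n + 1) := by rw [← Finset.sum_mul, hc1, one_mul]
      have h6 : s (n + 1) ≤ (1 + r / 2) * ((1 - r) * s n) +
          (1 + 2 / r) * (2 * (1 / 4) ^ n + 2 * (1 / 4) ^ (n + 1)) := by
        rw [h1]
        calc ∑ p : Fin (m n) × Fin (k n), ‖τ (A p.1 * Z n p.2)‖ ^ 2 ≤
            ∑ p : Fin (m n) × Fin (k n), ((1 + r / 2) * ‖τ (A p.1) * τ (Z n p.2)‖ ^ 2 +
              (1 + 2 / r) * (2 * ‖T2 p‖ ^ 2 + 2 * ‖T3 p‖ ^ 2)) := by
              refine Finset.sum_le_sum fun p _ => ?_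
              rw [h2 p]
              exact sc_ID _ _ _ hr
          _ = (1 + r / 2) * ∑ p : Fin (m n) × Fin (k n), ‖τ (A p.1) * τ (Z n p.2)‖ ^ 2 +
              (1 + 2 / r) * (2 * ∑ p, ‖T2 p‖ ^ 2 + 2 * ∑ p, ‖T3 p‖ ^ 2) := by
              rw [Finset.sum_add_distrib, ← Finset.mul_sum, ← Finset.mul_sum,
                Finset.sum_add_distrib, ← Finset.mul_sum, ← Finset.mul_sum]
          _ ≤ _ := by
              have g1 : 0 < 1 + r / 2 := by positivity
              have g2 : 0 < 1 + 2 / r := by positivity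
              have g3 := mul_le_mul_of_nonneg_left h3 g1.le
              have g4 := mul_le_mul_of_nonneg_left
                (by linarith : 2 * ∑ p, ‖T2 p‖ ^ 2 + 2 * ∑ p, ‖T3 p‖ ^ 2 ≤
                  2 * (1 / 4 : ℝ) ^ n + 2 * (1 / 4) ^ (n + 1)) g2.le
              linarith
      have h7 : (1 + r / 2) * ((1 - r) * s n) ≤ (1 - r / 2) * s n := by
        have : 0 ≤ r ^ 2 * s n := mul_nonneg (sq_nonneg r) (hs0 n)
        nlinarith
      have h8 : (1 + 2 / r) * (2 * (1 / 4) ^ n + 2 * (1 / 4) ^ (n + 1)) ≤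
          (3 * (1 + 2 / r)) * (1 / 4 : ℝ) ^ n := by
        have g2 : 0 < 1 + 2 / r := by positivity
        have g5 : (0 : ℝ) ≤ (1 + 2 / r) * (1 / 4) ^ n := by positivity
        rw [pow_succ]
        nlinarith
      linarith
    have h9 : Tendsto (fun n => s (n + j)) atTop (𝓝 0) := by
      refine dec_ID (fun n => s (n + j)) (1 - r / 2) (3 * (1 + 2 / r)) (fun n => hs0 _)
        (by linarith) (by linarith) (by positivity) fun n => ?_
      have h10 := hstep (n + j) (Nat.le_add_left _ _)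
      have h11 : ((1 : ℝ) / 4) ^ (n + j) ≤ (1 / 4) ^ n :=
        pow_le_pow_of_le_one (by norm_num) (by norm_num) (Nat.le_add_right _ _)
      have h12 : (0 : ℝ) ≤ 3 * (1 + 2 / r) := by positivity
      have h13 := mul_le_mul_of_nonneg_left h11 h12
      show s (n + 1 + j) ≤ _
      rw [show n + 1 + j = n + j + 1 by ring]
      linarith
    exact (tendsto_add_atTop_iff_nat j).1 h9

end Helper61.HT
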