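import Pool.Agent.Helper61.HT.StG
import Pool.Agent.Helper61.HT.Lim

/-!
# HTG module IL: convergence of the maps of the products
-/

set_option autoImplicit false
set_option linter.unusedSectionVars false

namespace Helper61.HT

open scoped ComplexOrder
open Filter Topology

namespace ILM

section

variable {N : Type} [CStarAlgebra N] [PartialOrder N] [StarOrderedRing N] {τ : N →ₗ[ℂ] ℂ}

private lemma nonneg_of_test (hτ : Trc τ) {T : N} (hT : star T = T)
    (h : ∀ c : N, 0 ≤ rt τ (star c * c * T)) : 0 ≤ T := by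
  have hsa : IsSelfAdjoint T := hT
  have h1 : T⁺ - T⁻ = T := CFC.posPart_sub_negPart T hsa
  have h2 : T⁻ * T⁺ = 0 := CFC.negPart_mul_posPart T
  have h3 : 0 ≤ T⁻ := CFC.negPart_nonneg T
  obtain ⟨c, hc, hcc⟩ := exists_sqrt h3
  have h4 := h c
  rw [herm_of_nonneg hc, hcc] at h4
  have h5 : T⁻ * T = -(T⁻ * T⁻) := by
    nth_rewrite 2 [← h1]
    rw [mul_sub, h2, zero_sub]
  have h6 : hs τ T⁻ = 0 := by
    refine le_antisymm ?_ (hs_nonneg hτ _)
    rw [hs_eq_rt, herm_of_nonneg h3]
    rw [h5, rt_neg] at h4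
    linarith
  rw [← h1, hs_eq_zero hτ h6, sub_zero]
  exact CFC.posPart_nonneg T

private lemma T2_nonneg (hτ : Trc τ) {x : ℕ → N} {y : N} (h : T2 τ x y) (hx : ∀ n, 0 ≤ x n) :
    0 ≤ y := by
  refine nonneg_of_test hτ ?_ fun c => ?_
  · refine T2.unique hτ (T2.star hτ h) ?_
    have : (fun n => star (x n)) = x := by
      funext n; exact herm_of_nonneg (hx n)
    rw [this]
    exact h
  · refine ge_of_tendsto' (T2.rt hτ (T2.mul_left hτ (star c * c) h)) fun n => ?_
    exact rt_mul_nonneg hτ (nonneg_star_mul c) (hx n)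

private lemma T2_sum (hτ : Trc τ) {κ : Type} (s : Finset κ) (x : κ → ℕ → N) (y : κ → N)
    (h : ∀ i ∈ s, T2 τ (x i) (y i)) : T2 τ (fun n => ∑ i ∈ s, x i n) (∑ i ∈ s, y i) := by
  classical
  induction s using Finset.induction_on with
  | empty => simpa using T2.const hτ (0 : N)
  | insert a s ha ih =>
    simp only [Finset.sum_insert ha]
    exact T2.add hτ (h a (Finset.mem_insert_self a s))
      (ih fun i hi => h i (Finset.mem_insert_of_mem hi))

/-- the map of a family -/
noncomputable def fm {m : ℕ} (X : Fin m → N) : N →ₗ[ℂ] N where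
  toFun q := ∑ w, X w * q * star (X w)
  map_add' x y := by simp only [mul_add, add_mul, Finset.sum_add_distrib]
  map_smul' c x := by
    simp only [mul_smul_comm, smul_mul_assoc, RingHom.id_apply, Finset.smul_sum]

private lemma le_of_sq_le_sq_aux {a b : ℝ} (ha : 0 ≤ a) (hb : 0 ≤ b) (h : a ^ 2 ≤ b ^ 2) :
    a ≤ b := by
  nlinarith

private lemma fm_apply {m : ℕ} (X : Fin m → N) (q : N) :
    fm X q = ∑ w, X w * q * star (X w) := rfl

private lemma fm_one {m : ℕ} {X : Fin m → N} (h : ∑ w, X w * star (X w) = 1) : fm X 1 = 1 := by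
  rw [fm_apply]
  simp only [mul_one]
  exact h

private lemma fm_tau (hτ : Trc τ) {m : ℕ} {X : Fin m → N} (h : ∑ w, star (X w) * X w = 1)
    (q : N) : τ (fm X q) = τ q := by
  rw [fm_apply, map_sum]
  have h1 : ∀ w, τ (X w * q * star (X w)) = τ (star (X w) * X w * q) := by
    intro w
    rw [hτ.tr, ← mul_assoc]
  simp only [h1]
  rw [← map_sum, ← Finset.sum_mul, h, one_mul]

private lemma fm_cp {m : ℕ} (X : Fin m → N) : CPm (fm X) := by
  intro k a b
  have h1 : ∑ i, ∑ j, star (b i) * fm X (star (a i) * a j) * b j =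
      ∑ w, star (∑ j, a j * star (X w) * b j) * (∑ j, a j * star (X w) * b j) := by
    have e1 : ∀ i j, star (b i) * fm X (star (a i) * a j) * b j =
        ∑ w, star (a i * star (X w) * b i) * (a j * star (X w) * b j) := by
      intro i j
      rw [fm_apply, Finset.mul_sum, Finset.sum_mul]
      refine Finset.sum_congr rfl fun w _ => ?_
      rw [star_mul, star_mul, star_star]
      simp only [mul_assoc]
    simp only [e1]
    calc ∑ i, ∑ j, ∑ w, star (a i * star (X w) * b i) * (a j * star (X w) * b j)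
        = ∑ i, ∑ w, ∑ j, star (a i * star (X w) * b i) * (a j * star (X w) * b j) :=
          Finset.sum_congr rfl fun i _ => Finset.sum_comm
      _ = ∑ w, ∑ i, ∑ j, star (a i * star (X w) * b i) * (a j * star (X w) * b j) :=
          Finset.sum_comm
      _ = _ := by
          refine Finset.sum_congr rfl fun w _ => ?_
          rw [star_sum, Finset.sum_mul]
          refine Finset.sum_congr rfl fun i _ => ?_
          rw [Finset.mul_sum]
  rw [h1]
  exact Finset.sum_nonneg fun w _ => nonneg_star_mul _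

private lemma hs_col (hτ : Trc τ) {k : ℕ} (Z c : Fin k → N) (h : ∑ i, Z i * star (Z i) = 1) :
    hs τ (∑ i, c i * star (Z i)) ≤ ∑ i, hs τ (c i) := by
  set y := ∑ i, c i * star (Z i) with hy
  have h0 : 0 ≤ ∑ i, hs τ (y * Z i - c i) := Finset.sum_nonneg fun i _ => hs_nonneg hτ _
  have h1 : ∀ i, hs τ (y * Z i - c i) = hs τ (y * Z i) + hs τ (c i) -
      2 * rt τ (star y * (c i * star (Z i))) := by
    intro i
    have e1 := hs_add hτ (y * Z i) (-c i)
    rw [← sub_eq_add_neg, hs_neg] at e1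
    rw [e1, mul_neg, rt_neg]
    have e2 : rt τ (star (y * Z i) * c i) = rt τ (star y * (c i * star (Z i))) := by
      rw [star_mul, mul_assoc, rt_mul_comm hτ, mul_assoc]
    rw [e2]
    ring
  have h2 : ∑ i, hs τ (y * Z i) = hs τ y := by
    have e1 : ∀ i, hs τ (y * Z i) = rt τ (star y * y * (Z i * star (Z i))) := by
      intro i
      rw [hs_eq_rt, star_mul]
      calc rt τ (star (Z i) * star y * (y * Z i)) = rt τ (star (Z i) * (star y * y * Z i)) := by
            congr 1; noncomm_ring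
        _ = rt τ (star y * y * Z i * star (Z i)) := rt_mul_comm hτ _ _
        _ = _ := by rw [mul_assoc]
    simp only [e1]
    rw [← rt_sum, ← Finset.mul_sum, h, mul_one, hs_eq_rt]
  have h3 : ∑ i, rt τ (star y * (c i * star (Z i))) = hs τ y := by
    rw [← rt_sum, ← Finset.mul_sum, ← hy, hs_eq_rt]
  simp only [h1] at h0
  rw [Finset.sum_sub_distrib, Finset.sum_add_distrib, h2, ← Finset.mul_sum, h3] at h0
  linarith

end

end ILM

open ILM in
theorem pIL (hKS : StKS) : StIL := by
  intro B _ _ _ τ D F δ r m k l X Z c v hτ hC hP hdense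
  set φ : ℕ → B →ₗ[ℂ] B := fun n => fm (X n) with hφ
  have h1 : ∀ n, φ n 1 = 1 := fun n => fm_one (hP.bX n).2
  have htr : ∀ n q, τ (φ n q) = τ q := fun n q => fm_tau hτ (hP.bX n).1 q
  have hcp : ∀ n, CPm (φ n) := fun n => fm_cp (X n)
  have hks : ∀ n q, star (φ n q) * φ n q ≤ φ n (star q * q) := fun n =>
    (hKS B τ (φ n) hτ (hcp n)).2.2.1 (h1 n).le
  have hpos : ∀ n q, 0 ≤ q → 0 ≤ φ n q := fun n => (hKS B τ (φ n) hτ (hcp n)).2.1
  have hhs : ∀ n q, hs τ (φ n q) ≤ hs τ q := by
    intro n q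
    have := rt_mono hτ (hks n q)
    unfold rt at this
    rw [htr] at this
    exact this
  have hnorm : ∀ n q, ‖φ n q‖ ≤ ‖q‖ := by
    intro n q
    have e1 : star (φ n q) * φ n q ≤ (‖q‖ ^ 2) • (1 : B) := by
      refine (hks n q).trans ?_
      have e2 : 0 ≤ φ n ((‖q‖ ^ 2) • (1 : B) - star q * q) :=
        hpos n _ (sub_nonneg.2 (star_mul_le q))
      rw [map_sub] at e2
      have e3 : φ n ((‖q‖ ^ 2) • (1 : B)) = (‖q‖ ^ 2) • (1 : B) := by
        have e4 : (‖q‖ ^ 2) • (1 : B) = ((‖q‖ ^ 2 : ℝ) : ℂ) • (1 : B) := by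
          rw [Complex.coe_smul]
        rw [e4, map_smul, h1]
      rw [e3] at e2
      exact sub_nonneg.1 e2
    have e2 := norm_le_of_nonneg (by positivity) (nonneg_star_mul _) e1
    rw [CStarRing.norm_star_mul_self, ← pow_two] at e2
    exact le_of_sq_le_sq_aux (norm_nonneg _) (norm_nonneg _) e2
  -- one step
  have hstep : ∀ n q, φ (n + 1) q = φ n (∑ i, Z n i * q * star (Z n i)) := by
    intro n q
    obtain ⟨e, he⟩ := hP.step n
    show ∑ w, X (n + 1) w * q * star (X (n + 1) w) =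
      ∑ w, X n w * (∑ i, Z n i * q * star (Z n i)) * star (X n w)
    simp only [he]
    rw [e.sum_comp (fun p : Fin (m n) × Fin (k n) =>
      X n p.1 * Z n p.2 * q * star (X n p.1 * Z n p.2)), Fintype.sum_prod_type]
    refine Finset.sum_congr rfl fun w _ => ?_
    rw [Finset.mul_sum, Finset.sum_mul]
    refine Finset.sum_congr rfl fun i _ => ?_
    rw [star_mul]
    simp only [mul_assoc]
  have hone : ∀ n q, ∑ i, Z n i * q * star (Z n i) - q =
      ∑ i, (Z n i * q - q * Z n i) * star (Z n i) := by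
    intro n q
    simp only [sub_mul, Finset.sum_sub_distrib]
    congr 1
    have : ∀ i, q * Z n i * star (Z n i) = q * (Z n i * star (Z n i)) := fun i => mul_assoc _ _ _
    simp only [this]
    rw [← Finset.mul_sum, (hP.bZ n).2, mul_one]
  have hdiff : ∀ n q, hs τ (φ (n + 1) q - φ n q) ≤ ∑ i, hs τ (q * Z n i - Z n i * q) := by
    intro n q
    rw [hstep, ← map_sub]
    refine (hhs n _).trans ?_
    rw [hone]
    refine (hs_col hτ (Z n) (fun i => Z n i * q - q * Z n i) (hP.bZ n).2).trans (le_of_eq ?_)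
    exact Finset.sum_congr rfl fun i _ => hs_sub_comm _ _
  have hsq : ∀ n j, j ≤ n → Real.sqrt (hs τ (φ (n + 1) (D j) - φ n (D j))) ≤
      (1 / 2) ^ n - (1 / 2) ^ (n + 1) := by
    intro n j hj
    have e1 := (hdiff n (D j)).trans (hP.zD n j hj)
    have e2 : (1 : ℝ) / 4 ^ (n + 1) = ((1 / 2) ^ (n + 1)) ^ 2 := by
      rw [← pow_mul, mul_comm (n + 1) 2, pow_mul, ← one_div_pow]; norm_num
    rw [e2] at e1
    refine (Real.sqrt_le_sqrt e1).trans (le_of_eq ?_)
    rw [Real.sqrt_sq (by positivity), pow_succ]; ring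
  have hlong : ∀ j n d, j ≤ n → Real.sqrt (hs τ (φ (n + d) (D j) - φ n (D j))) ≤
      (1 / 2) ^ n - (1 / 2) ^ (n + d) := by
    intro j n d hj
    induction d with
    | zero => simp [hs_zero]
    | succ d ih =>
      have e1 : φ (n + (d + 1)) (D j) - φ n (D j) =
          (φ (n + d + 1) (D j) - φ (n + d) (D j)) + (φ (n + d) (D j) - φ n (D j)) := by
        rw [← add_assoc]; abel
      rw [e1]
      refine (sqrt_hs_add_le hτ _ _).trans ?_
      have e2 := hsq (n + d) j (by omega)
      rw [show n + (d + 1) = n + d + 1 from rfl]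
      linarith
  -- Cauchy
  have hcau : ∀ q, ∀ ε : ℝ, 0 < ε → ∃ n₀, ∀ a ≥ n₀, ∀ b ≥ n₀, hs τ (φ a q - φ b q) ≤ ε := by
    intro q ε hε
    set s := Real.sqrt ε with hs'
    have hs0 : 0 < s := Real.sqrt_pos.2 hε
    obtain ⟨j, hj⟩ := hdense q ((s / 3) ^ 2) (by positivity)
    have hj' : Real.sqrt (hs τ (q - D j)) ≤ s / 3 := by
      refine (Real.sqrt_le_sqrt hj).trans (le_of_eq ?_)
      rw [Real.sqrt_sq (by positivity)]
    obtain ⟨n₁, hn₁⟩ := exists_pow_lt_of_lt_one (show 0 < s / 3 by positivity)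
      (show (1 / 2 : ℝ) < 1 by norm_num)
    have key : ∀ a b, max j n₁ ≤ a → a ≤ b → hs τ (φ b q - φ a q) ≤ ε := by
      intro a b ha hab
      obtain ⟨d, rfl⟩ := Nat.exists_eq_add_of_le hab
      have e1 : φ (a + d) q - φ a q = φ (a + d) (q - D j) +
          ((φ (a + d) (D j) - φ a (D j)) + -φ a (q - D j)) := by
        rw [map_sub, map_sub]; abel
      have e2 : Real.sqrt (hs τ (φ (a + d) q - φ a q)) ≤ s := by
        rw [e1]
        refine (sqrt_hs_add_le hτ _ _).trans ?_
        have e3 := sqrt_hs_add_le hτ (φ (a + d) (D j) - φ a (D j)) (-φ a (q - D j))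
        rw [hs_neg] at e3
        have e4 := Real.sqrt_le_sqrt (hhs (a + d) (q - D j))
        have e5 := Real.sqrt_le_sqrt (hhs a (q - D j))
        have e6 := hlong j a d ((le_max_left _ _).trans ha)
        have e7 : (1 / 2 : ℝ) ^ a ≤ (1 / 2) ^ n₁ :=
          pow_le_pow_of_le_one (by norm_num) (by norm_num) ((le_max_right _ _).trans ha)
        have e8 : (0 : ℝ) ≤ (1 / 2) ^ (a + d) := by positivity
        linarith
      have e3 := Real.sq_sqrt (hs_nonneg hτ (φ (a + d) q - φ a q))
      have e4 := Real.sq_sqrt hε.le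
      have e5 := Real.sqrt_nonneg (hs τ (φ (a + d) q - φ a q))
      rw [← e3, ← e4]
      exact pow_le_pow_left₀ e5 e2 2
    refine ⟨max j n₁, fun a ha b hb => ?_⟩
    rcases le_total a b with hab | hab
    · rw [hs_sub_comm]; exact key a b ha hab
    · exact key b a hb hab
  have hlim : ∀ q, ∃ y, T2 τ (fun n => φ n q) y := by
    intro q
    obtain ⟨y, _, hy⟩ := Cpl.exists_lim hτ hC (C := ‖q‖ + 1) (by positivity)
      (fun n => (hnorm n q).trans (by linarith)) (hcau q)
    exact ⟨y, hy⟩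
  choose ψ₀ hψ₀ using hlim
  obtain ⟨ψ, hψ⟩ : ∃ ψ : B →ₗ[ℂ] B, ∀ q, T2 τ (fun n => φ n q) (ψ q) := by
    refine ⟨{ toFun := ψ₀, map_add' := fun x y => ?_, map_smul' := fun a x => ?_ },
      fun q => hψ₀ q⟩
    · refine T2.unique hτ (hψ₀ (x + y)) ?_
      have := T2.add hτ (hψ₀ x) (hψ₀ y)
      simpa only [map_add] using this
    · refine T2.unique hτ (hψ₀ (a • x)) ?_
      have := T2.smulC hτ a (hψ₀ x)
      simpa only [map_smul, RingHom.id_apply] using this
  refine ⟨ψ, ?_, ?_, ?_, ?_⟩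
  · intro p a b
    refine T2_nonneg hτ (x := fun n => ∑ i, ∑ j, star (b i) * φ n (star (a i) * a j) * b j) ?_
      fun n => hcp n p a b
    refine T2_sum hτ Finset.univ
      (fun i n => ∑ j, star (b i) * φ n (star (a i) * a j) * b j) _ fun i _ => ?_
    refine T2_sum hτ Finset.univ (fun j n => star (b i) * φ n (star (a i) * a j) * b j) _
      fun j _ => ?_
    exact T2.mul_right hτ _ (T2.mul_left hτ _ (hψ _))
  · refine T2.unique hτ (hψ 1) ?_
    simp only [h1]
    exact T2.const hτ 1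
  · intro x
    have e1 := T2.tau hτ (hψ x)
    simp only [htr] at e1
    exact tendsto_nhds_unique e1 tendsto_const_nhds
  · intro q
    exact hψ q

end Helper61.HT
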