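import Pool.Agent.Helper61.HT.StG
import Pool.Agent.Helper61.HT.Lim

/-!
# Project HT, module IS: construction of the sequence of families
-/

namespace Helper61.HT

open scoped ComplexOrder
open Filter Topology

section

variable {B : Type} [CStarAlgebra B] [PartialOrder B] [StarOrderedRing B]

/-- The state of the recursion: a family and a finite set. -/
private structure StateIS (B : Type) where
  m : ℕ
  X : Fin m → B
  V : Finset B

/-- The choices of step `n`. -/
private structure OutIS (τ : B →ₗ[ℂ] ℂ) (D : ℕ → B) (F : Finset B) (δ r : ℝ) (n : ℕ)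
    (s : StateIS B) where
  l : ℕ
  c : Fin l → ℝ
  v : Fin l → B
  k : ℕ
  Z : Fin k → B
  hcv : (∀ i, 0 ≤ c i) ∧ ∑ i, c i = 1 ∧ ∀ i, Un (v i)
  av : ∀ j ≤ n, ∑ w, hs τ (Av c v (D j * s.X w) - τ (D j * s.X w) • (1 : B)) ≤ 1 / 4 ^ n
  bZ : ∑ i, star (Z i) * Z i = 1 ∧ ∑ i, Z i * star (Z i) = 1
  zF : ∀ y ∈ F, ∑ i, hs τ (y * Z i - Z i * y) ≤ δ / 4 ^ (n + 1)
  zD : ∀ j ≤ n, ∑ i, hs τ (D j * Z i - Z i * D j) ≤ 1 / 4 ^ (n + 1)
  zV : ∀ y, (y ∈ s.V ∨ ∃ a, y = star (v a)) →
    (1 + ∑ i ∈ Finset.range (n + 1), ‖D i‖) ^ 2 * ∑ i, hs τ (y * Z i - Z i * y) ≤ 1 / 4 ^ (n + 1)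
  zr : ∑ i, ‖τ (Z i)‖ ^ 2 ≤ 1 - r

private theorem avg_fin_IS {τ : B →ₗ[ℂ] ℂ} (hN : II1 τ) (D : ℕ → B) (n : ℕ) (s : StateIS B) :
    ∃ (l : ℕ) (c : Fin l → ℝ) (v : Fin l → B),
      ((∀ i, 0 ≤ c i) ∧ ∑ i, c i = 1 ∧ ∀ i, Un (v i)) ∧
      ∀ j ≤ n, ∑ w, hs τ (Av c v (D j * s.X w) - τ (D j * s.X w) • (1 : B)) ≤ 1 / 4 ^ n := by
  have hε : (0 : ℝ) < 1 / 4 ^ n / (s.m + 1) := by positivity
  obtain ⟨J, hJ, c, v, hc0, hc1, hv, h⟩ := avg_unitary hN
    (fun p : Fin (n + 1) × Fin s.m => D p.1 * s.X p.2) _ hε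
  set e := Fintype.equivFin J
  refine ⟨Fintype.card J, fun i => c (e.symm i), fun i => v (e.symm i),
    ⟨fun i => hc0 _, ?_, fun i => hv _⟩, ?_⟩
  · rw [← hc1]
    exact e.symm.sum_comp c
  · intro j hj
    have hAv : ∀ y : B, Av (fun i => c (e.symm i)) (fun i => v (e.symm i)) y
        = ∑ i, c i • (v i * y * star (v i)) := by
      intro y
      unfold Av
      exact e.symm.sum_comp (fun i => c i • (v i * y * star (v i)))
    have h1 : ∀ w, hs τ (Av (fun i => c (e.symm i)) (fun i => v (e.symm i)) (D j * s.X w)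
        - τ (D j * s.X w) • (1 : B)) ≤ 1 / 4 ^ n / (s.m + 1) := by
      intro w
      rw [hAv]
      exact h (⟨j, Nat.lt_succ_of_le hj⟩, w)
    calc ∑ w, hs τ (Av (fun i => c (e.symm i)) (fun i => v (e.symm i)) (D j * s.X w)
          - τ (D j * s.X w) • (1 : B)) ≤ ∑ _w : Fin s.m, (1 / 4 ^ n / (s.m + 1) : ℝ) :=
          Finset.sum_le_sum fun w _ => h1 w
      _ = s.m * (1 / 4 ^ n / (s.m + 1)) := by
          rw [Finset.sum_const, Finset.card_univ, Fintype.card_fin, nsmul_eq_mul]
      _ ≤ 1 / 4 ^ n := by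
          have h2 : (0 : ℝ) < s.m + 1 := by positivity
          have h3 : (0 : ℝ) < 1 / 4 ^ n := by positivity
          rw [mul_div_assoc', div_le_iff₀ h2]
          nlinarith

private theorem exists_out_IS {τ : B →ₗ[ℂ] ℂ} (hN : II1 τ) (D : ℕ → B) (F : Finset B) (δ r : ℝ)
    (hF : Fam τ r) (hδ : 0 < δ) (n : ℕ) (s : StateIS B) : Nonempty (OutIS τ D F δ r n s) := by
  classical
  obtain ⟨l, c, v, hcv, hav⟩ := avg_fin_IS hN D n s
  set S : ℝ := 1 + ∑ i ∈ Finset.range (n + 1), ‖D i‖ with hS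
  have hS0 : 0 < S := by
    have : 0 ≤ ∑ i ∈ Finset.range (n + 1), ‖D i‖ := Finset.sum_nonneg fun _ _ => norm_nonneg _
    linarith
  have h4 : (0 : ℝ) < 4 ^ (n + 1) := by positivity
  set t : ℝ := min δ (min 1 (1 / S ^ 2)) / 4 ^ (n + 1) with ht
  have ht0 : 0 < t := by
    rw [ht]
    exact div_pos (lt_min hδ (lt_min one_pos (by positivity))) h4
  have ht1 : t ≤ δ / 4 ^ (n + 1) := by
    rw [ht]
    gcongr
    exact min_le_left _ _
  have ht2 : t ≤ 1 / 4 ^ (n + 1) := by
    rw [ht]
    gcongr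
    exact (min_le_right _ _).trans (min_le_left _ _)
  have ht3 : S ^ 2 * t ≤ 1 / 4 ^ (n + 1) := by
    rw [ht, mul_div_assoc']
    gcongr
    calc S ^ 2 * min δ (min 1 (1 / S ^ 2)) ≤ S ^ 2 * (1 / S ^ 2) := by
          gcongr
          exact (min_le_right _ _).trans (min_le_right _ _)
      _ = 1 := by field_simp
  obtain ⟨k, Z, hZ1, hZ2, hZ3, hZ4⟩ := hF
    (F ∪ (Finset.range (n + 1)).image D ∪ s.V ∪ Finset.univ.image (fun a => star (v a))) t ht0
  refine ⟨⟨l, c, v, k, Z, hcv, hav, ⟨hZ1, hZ2⟩, ?_, ?_, ?_, hZ4⟩⟩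
  · intro y hy
    refine (hZ3 y ?_).trans ht1
    simp only [Finset.mem_union]
    exact Or.inl (Or.inl (Or.inl hy))
  · intro j hj
    refine (hZ3 (D j) ?_).trans ht2
    simp only [Finset.mem_union]
    exact Or.inl (Or.inl (Or.inr (Finset.mem_image_of_mem D
      (Finset.mem_range.2 (Nat.lt_succ_of_le hj)))))
  · intro y hy
    have h1 : ∑ i, hs τ (y * Z i - Z i * y) ≤ t := by
      apply hZ3
      simp only [Finset.mem_union]
      rcases hy with hy | ⟨a, rfl⟩
      · exact Or.inl (Or.inr hy)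
      · exact Or.inr (Finset.mem_image.2 ⟨a, Finset.mem_univ a, rfl⟩)
    calc S ^ 2 * ∑ i, hs τ (y * Z i - Z i * y) ≤ S ^ 2 * t := by gcongr
      _ ≤ _ := ht3

open Classical in
/-- The recursion. -/
private noncomputable def seqIS (τ : B →ₗ[ℂ] ℂ) (D : ℕ → B) (F : Finset B) (δ r : ℝ)
    (out : ∀ n s, OutIS τ D F δ r n s) : ℕ → StateIS B
  | 0 => ⟨1, ![1], ∅⟩
  | n + 1 =>
    let s := seqIS τ D F δ r out n
    let o := out n s
    ⟨s.m * o.k, fun w => s.X (finProdFinEquiv.symm w).1 * o.Z (finProdFinEquiv.symm w).2,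
      s.V ∪ Finset.univ.image (fun a => star (o.v a))⟩

end

theorem pIS : StIS := by
  intro B _ _ _ τ D F δ r hN hF hδ
  classical
  have hne := exists_out_IS hN D F δ r hF hδ
  set out : ∀ n s, OutIS τ D F δ r n s := fun n s => Classical.choice (hne n s)
  set S := seqIS τ D F δ r out with hS
  have hS1 : ∀ n, S (n + 1) = ⟨(S n).m * (out n (S n)).k,
      fun w => (S n).X (finProdFinEquiv.symm w).1 * (out n (S n)).Z (finProdFinEquiv.symm w).2,
      (S n).V ∪ Finset.univ.image (fun a => star ((out n (S n)).v a))⟩ := by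
    intro n
    rfl
  have hstep : ∀ n, ∃ e : Fin (S (n + 1)).m ≃ Fin (S n).m × Fin (out n (S n)).k,
      ∀ w, (S (n + 1)).X w = (S n).X (e w).1 * (out n (S n)).Z (e w).2 := by
    intro n
    exact ⟨finProdFinEquiv.symm, fun w => rfl⟩
  have hV : ∀ n, ∀ j < n, ∀ a, star ((out j (S j)).v a) ∈ (S n).V := by
    intro n
    induction n with
    | zero => intro j hj; exact absurd hj (Nat.not_lt_zero j)
    | succ n ih =>
      intro j hj a
      have h1 : (S (n + 1)).V = (S n).V ∪ Finset.univ.image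
        (fun a => star ((out n (S n)).v a)) := rfl
      rw [h1, Finset.mem_union]
      rcases Nat.lt_succ_iff_lt_or_eq.1 hj with h | rfl
      · exact Or.inl (ih j h a)
      · exact Or.inr (Finset.mem_image.2 ⟨a, Finset.mem_univ a, rfl⟩)
  refine ⟨fun n => (S n).m, fun n => (out n (S n)).k, fun n => (out n (S n)).l,
    fun n => (S n).X, fun n => (out n (S n)).Z, fun n => (out n (S n)).c,
    fun n => (out n (S n)).v, ?_⟩
  refine ⟨?_, ?_, fun n => (out n (S n)).bZ, hstep, fun n => (out n (S n)).zF,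
    fun n => (out n (S n)).zD, ?_, fun n => (out n (S n)).hcv, fun n => (out n (S n)).av,
    fun n => (out n (S n)).zr⟩
  · intro y
    apply Finset.sum_eq_zero
    intro w _
    have h1 : (S 0).X w = 1 := by
      have : (S 0).X = ![(1 : B)] := rfl
      have hw : w = (0 : Fin 1) := Subsingleton.elim (α := Fin 1) _ _
      rw [hw]
      rfl
    rw [h1, mul_one, one_mul, sub_self, hs_zero]
  · intro n
    induction n with
    | zero =>
      have h1 : ∀ w : Fin (S 0).m, (S 0).X w = 1 := by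
        intro w
        have hw : w = (0 : Fin 1) := Subsingleton.elim (α := Fin 1) _ _
        rw [hw]
        rfl
      constructor
      · simp only [h1, star_one, mul_one]
        show ∑ _w : Fin 1, (1 : B) = 1
        simp
      · simp only [h1, star_one, mul_one]
        show ∑ _w : Fin 1, (1 : B) = 1
        simp
    | succ n ih =>
      obtain ⟨e, he⟩ := hstep n
      obtain ⟨b1, b2⟩ := (out n (S n)).bZ
      simp only [he]
      constructor
      · rw [e.sum_comp (fun p : Fin (S n).m × Fin (out n (S n)).k =>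
          star ((S n).X p.1 * (out n (S n)).Z p.2) * ((S n).X p.1 * (out n (S n)).Z p.2)),
          Fintype.sum_prod_type, Finset.sum_comm, ← b1]
        refine Finset.sum_congr rfl fun i _ => ?_
        calc ∑ w, star ((S n).X w * (out n (S n)).Z i) * ((S n).X w * (out n (S n)).Z i)
            = ∑ w, star ((out n (S n)).Z i) * (star ((S n).X w) * (S n).X w)
                * (out n (S n)).Z i := by
              refine Finset.sum_congr rfl fun w _ => ?_
              rw [star_mul]
              noncomm_ring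
          _ = star ((out n (S n)).Z i) * (∑ w, star ((S n).X w) * (S n).X w)
                * (out n (S n)).Z i := by
              rw [Finset.mul_sum, Finset.sum_mul]
          _ = _ := by rw [ih.1, mul_one]
      · rw [e.sum_comp (fun p : Fin (S n).m × Fin (out n (S n)).k =>
          ((S n).X p.1 * (out n (S n)).Z p.2) * star ((S n).X p.1 * (out n (S n)).Z p.2)),
          Fintype.sum_prod_type, ← ih.2]
        refine Finset.sum_congr rfl fun w _ => ?_
        calc ∑ i, ((S n).X w * (out n (S n)).Z i) * star ((S n).X w * (out n (S n)).Z i)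
            = ∑ i, (S n).X w * ((out n (S n)).Z i * star ((out n (S n)).Z i))
                * star ((S n).X w) := by
              refine Finset.sum_congr rfl fun i _ => ?_
              rw [star_mul]
              noncomm_ring
          _ = (S n).X w * (∑ i, (out n (S n)).Z i * star ((out n (S n)).Z i))
                * star ((S n).X w) := by
              rw [Finset.mul_sum, Finset.sum_mul]
          _ = _ := by rw [b2, mul_one]
  · intro n j hj a
    have hmem : star ((out j (S j)).v a) ∈ (S n).V ∨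
        ∃ b, star ((out j (S j)).v a) = star ((out n (S n)).v b) := by
      rcases hj.lt_or_eq with h | rfl
      · exact Or.inl (hV n j h a)
      · exact Or.inr ⟨a, rfl⟩
    have h1 := (out n (S n)).zV _ hmem
    refine le_trans ?_ h1
    have h2 : 0 ≤ ∑ i, hs τ (star ((out j (S j)).v a) * (out n (S n)).Z i -
        (out n (S n)).Z i * star ((out j (S j)).v a)) :=
      Finset.sum_nonneg fun _ _ => hs_nonneg hN.trc _
    have h3 : ∑ i ∈ Finset.range (j + 1), ‖D i‖ ≤ ∑ i ∈ Finset.range (n + 1), ‖D i‖ :=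
      Finset.sum_le_sum_of_subset_of_nonneg (Finset.range_mono (Nat.succ_le_succ hj))
        fun _ _ _ => norm_nonneg _
    have h4 : 0 ≤ ∑ i ∈ Finset.range (j + 1), ‖D i‖ := Finset.sum_nonneg fun _ _ => norm_nonneg _
    show (1 + ∑ i ∈ Finset.range (j + 1), ‖D i‖) ^ 2 * _ ≤ _
    gcongr

end Helper61.HT
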