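import Pool.Agent.Helper61.HT.StG

/-!
# Project HT: module NC: the largest sub-bimodule without central vectors
-/

set_option autoImplicit false

namespace Helper61.HT

open scoped ComplexOrder

section

variable {B : Type} [CStarAlgebra B] {H : Type} [NormedAddCommGroup H] [InnerProductSpace ℂ H]

private def W_NC (L R : B →ₗ[ℂ] (H →L[ℂ] H)) : Submodule ℂ H where
  carrier := {v | Perp L R v}
  zero_mem' := fun c _ x => by simp
  add_mem' := fun {a b} ha hb c hc x => by
    rw [map_add, inner_add_right, ha c hc x, hb c hc x, add_zero]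
  smul_mem' := fun k v hv c hc x => by
    rw [map_smul, inner_smul_right, hv c hc x, mul_zero]

private theorem mem_NC {L R : B →ₗ[ℂ] (H →L[ℂ] H)} {v : H} : v ∈ W_NC L R ↔ Perp L R v := Iff.rfl

private theorem closed_NC (L R : B →ₗ[ℂ] (H →L[ℂ] H)) : IsClosed (W_NC L R : Set H) := by
  have : (W_NC L R : Set H) =
      ⋂ c : H, ⋂ (_ : Cen L R c), ⋂ x : B, {v : H | inner ℂ c (L x v) = 0} := by
    ext v
    simp only [SetLike.mem_coe, mem_NC, Perp, Set.mem_iInter, Set.mem_ofPred_eq]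
  rw [this]
  refine isClosed_iInter fun c => isClosed_iInter fun _ => isClosed_iInter fun x => ?_
  exact isClosed_eq (by fun_prop) continuous_const

private theorem invL_NC {τ : B →ₗ[ℂ] ℂ} {L R : B →ₗ[ℂ] (H →L[ℂ] H)} (h : HBim τ H L R) (y : B)
    {v : H} (hv : Perp L R v) : Perp L R (L y v) := by
  intro c hc x
  rw [← h.L_mul]
  exact hv c hc _

private theorem adjL_NC {τ : B →ₗ[ℂ] ℂ} {L R : B →ₗ[ℂ] (H →L[ℂ] H)} (h : HBim τ H L R) (y : B)
    (v w : H) : inner ℂ (L (star y) v) w = inner ℂ v (L y w) := by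
  rw [h.L_adj, star_star]

private theorem adjR_NC {τ : B →ₗ[ℂ] ℂ} {L R : B →ₗ[ℂ] (H →L[ℂ] H)} (h : HBim τ H L R) (y : B)
    (v w : H) : inner ℂ (R (star y) v) w = inner ℂ v (R y w) := by
  rw [h.R_adj, star_star]

private theorem invR_NC {τ : B →ₗ[ℂ] ℂ} {L R : B →ₗ[ℂ] (H →L[ℂ] H)} (h : HBim τ H L R) (y : B)
    {v : H} (hv : Perp L R v) : Perp L R (R y v) := by
  intro c hc x
  rw [h.comm, ← adjR_NC h, ← hc (star y), adjL_NC h, ← h.L_mul]
  exact hv c hc _

end

theorem pNC : StNC := by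
  intro B _ τ H _ _ _ L R h
  haveI : CompleteSpace (W_NC L R) := (closed_NC L R).completeSpace_coe
  let L₀ : B →ₗ[ℂ] (W_NC L R →L[ℂ] W_NC L R) :=
    { toFun := fun x => ((L x).comp (W_NC L R).subtypeL).codRestrict (W_NC L R)
        (fun v => invL_NC h x v.2)
      map_add' := fun x y => by ext v; simp <;> rfl
      map_smul' := fun k x => by ext v; simp <;> rfl }
  let R₀ : B →ₗ[ℂ] (W_NC L R →L[ℂ] W_NC L R) :=
    { toFun := fun x => ((R x).comp (W_NC L R).subtypeL).codRestrict (W_NC L R)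
        (fun v => invR_NC h x v.2)
      map_add' := fun x y => by ext v; simp <;> rfl
      map_smul' := fun k x => by ext v; simp <;> rfl }
  have hL : ∀ x (v : W_NC L R), ((L₀ x v : W_NC L R) : H) = L x (v : H) := fun x v => rfl
  have hR : ∀ x (v : W_NC L R), ((R₀ x v : W_NC L R) : H) = R x (v : H) := fun x v => rfl
  refine ⟨W_NC L R, inferInstance, inferInstance, inferInstance, L₀, R₀,
    (W_NC L R).subtypeₗᵢ, ?_, ?_, fun x v => rfl, fun x v => rfl, fun ξ hξ => ⟨⟨ξ, hξ⟩, rfl⟩⟩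
  · refine ⟨?_, ?_, ?_, ?_, ?_, ?_, ?_, ?_, ?_⟩
    · intro v; exact Subtype.ext (h.L_one v)
    · intro v; exact Subtype.ext (h.R_one v)
    · intro x y v; exact Subtype.ext (h.L_mul x y v)
    · intro x y v; exact Subtype.ext (h.R_mul x y v)
    · intro x y v; exact Subtype.ext (h.comm x y v)
    · intro x v w; exact h.L_adj x v w
    · intro x v w; exact h.R_adj x v w
    · intro v ε hε
      obtain ⟨δ, hδ, hd⟩ := h.L_normal v ε hε
      exact ⟨δ, hδ, fun x hx hx' => hd x hx hx'⟩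
    · intro v ε hε
      obtain ⟨δ, hδ, hd⟩ := h.R_normal v ε hε
      exact ⟨δ, hδ, fun x hx hx' => hd x hx hx'⟩
  · intro w hw
    have hc : Cen L R (w : H) := fun x => congrArg Subtype.val (hw x)
    have h0 := w.2 (w : H) hc 1
    rw [h.L_one] at h0
    exact Subtype.ext (inner_self_eq_zero.mp h0)

end Helper61.HT
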