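import Pool.Agent.Helper61.HT.StG
import Pool.Agent.Helper61.HT.LibN

/-!
# Nontrivial central vectors in the bimodule of a conditional expectation imply separability
-/

namespace Helper61.HT

open scoped ComplexOrder
open Filter Topology

private lemma ns_count {B : Type} [CStarAlgebra B] {S : Set B} (hS : S.Countable) :
    TopologicalSpace.IsSeparable (StarAlgebra.adjoin ℂ S : Set B) := by
  have h1 : (S ∪ star S).Countable := by
    refine hS.union ?_
    have : star S = star '' S := by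
      ext x
      constructor
      · intro hx; exact ⟨star x, hx, star_star x⟩
      · rintro ⟨y, hy, rfl⟩
        simpa using hy
    rw [this]
    exact hS.image _
  have h2 : ((Submonoid.closure (S ∪ star S) : Submonoid B) : Set B).Countable := by
    rw [Submonoid.closure_eq_image_prod]
    refine Set.Countable.image ?_ _
    have : Countable (S ∪ star S : Set B) := h1.to_subtype
    have h3 : {l : List B | ∀ x ∈ l, x ∈ S ∪ star S} ⊆
        Set.range (List.map (Subtype.val : (S ∪ star S : Set B) → B)) := by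
      intro l hl
      refine ⟨l.attach.map fun x => ⟨x.1, hl x.1 x.2⟩, ?_⟩
      rw [List.map_map]
      conv_rhs => rw [← List.attach_map_subtype_val l]
      rfl
    exact (Set.countable_range _).mono h3
  have h3 : (StarAlgebra.adjoin ℂ S : Set B) =
      (Submodule.span ℂ ((Submonoid.closure (S ∪ star S) : Submonoid B) : Set B) : Set B) := by
    rw [← StarAlgebra.adjoin_eq_span]
    rfl
  rw [h3]
  exact h2.isSeparable.span

private lemma ns_hs_le_norm {B : Type} [CStarAlgebra B] [PartialOrder B] [StarOrderedRing B]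
    {τ : B →ₗ[ℂ] ℂ} (hτ : Trc τ) (x : B) : hs τ x ≤ ‖x‖ ^ 2 := by
  have h1 := hs_mul_le hτ x 1
  rw [mul_one] at h1
  have h2 : hs τ (1 : B) = 1 := by
    unfold hs
    rw [star_one, one_mul, hτ.one]
    rfl
  rwa [h2, mul_one] at h1

private lemma ns_sep {B : Type} [CStarAlgebra B] [PartialOrder B] [StarOrderedRing B]
    {τ : B →ₗ[ℂ] ℂ} (hτ : Trc τ) {S : Set B} (hS : S.Countable)
    (h : ∀ x, ∀ ε : ℝ, 0 < ε → ∃ a ∈ StarAlgebra.adjoin ℂ S, hs τ (x - a) ≤ ε) : Sep τ := by
  obtain ⟨C, hC, hC2⟩ := ns_count hS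
  have hne : C.Nonempty := by
    by_contra hc
    rw [Set.not_nonempty_iff_eq_empty] at hc
    rw [hc, closure_empty] at hC2
    exact hC2 (one_mem (StarAlgebra.adjoin ℂ S))
  obtain ⟨D, hD⟩ := hC.exists_eq_range hne
  refine ⟨D, fun x ε hε => ?_⟩
  obtain ⟨a, ha, ha2⟩ := h x (ε / 4) (by positivity)
  obtain ⟨d, hd, hd2⟩ := Metric.mem_closure_iff.1 (hC2 ha) (Real.sqrt (ε / 4)) (by positivity)
  rw [hD] at hd
  obtain ⟨k, rfl⟩ := hd
  refine ⟨k, ?_⟩
  have h1 : x - D k = (x - a) + (a - D k) := by abel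
  rw [h1]
  refine (hs_add_le hτ _ _).trans ?_
  have h2 : hs τ (a - D k) ≤ ε / 4 := by
    refine (ns_hs_le_norm hτ _).trans ?_
    rw [dist_eq_norm] at hd2
    calc ‖a - D k‖ ^ 2 ≤ Real.sqrt (ε / 4) ^ 2 := pow_le_pow_left₀ (norm_nonneg _) hd2.le 2
      _ = ε / 4 := Real.sq_sqrt (by positivity)
  linarith

/-- The conditional expectation vanishes on elements orthogonal to `A`. -/
private lemma ns_zero {B : Type} [CStarAlgebra B] [PartialOrder B] [StarOrderedRing B]
    {τ : B →ₗ[ℂ] ℂ} (hτ : Trc τ) {A : StarSubalgebra ℂ B} {E : B →ₗ[ℂ] B} (hE : CEx τ A E)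
    {t : B} (ht : ∀ a ∈ A, τ (a * t) = 0) : E t = 0 := by
  apply hs_eq_zero hτ
  have h1 : ∀ ε : ℝ, 0 < ε → hs τ (E t) ≤ ε * Real.sqrt (hs τ (E t)) := by
    intro ε hε
    obtain ⟨a, ha, ha2⟩ := hE.cl t (ε ^ 2) (by positivity)
    have h2 : τ (star a * E t) = 0 := by rw [hE.tr _ (star_mem ha), ht _ (star_mem ha)]
    have h3 : τ (star (E t) * E t) = τ (star (E t - a) * E t) := by
      rw [star_sub, sub_mul, map_sub, h2, sub_zero]
    have h4 : hs τ (E t) ≤ ‖τ (star (E t - a) * E t)‖ := by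
      unfold hs
      rw [h3]
      exact (le_abs_self _).trans (Complex.abs_re_le_norm _)
    refine h4.trans ((norm_map_mul_le hτ _ _).trans ?_)
    refine mul_le_mul_of_nonneg_right ?_ (Real.sqrt_nonneg _)
    rw [← Real.sqrt_sq hε.le]
    exact Real.sqrt_le_sqrt ha2
  have h2 : hs τ (E t) ≤ 0 := by
    refine le_of_forall_pos_le_add fun ε hε => ?_
    have h3 := h1 (ε / (Real.sqrt (hs τ (E t)) + 1)) (by positivity)
    rw [zero_add]
    refine h3.trans ?_
    rw [div_mul_eq_mul_div, div_le_iff₀ (by positivity)]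
    nlinarith [Real.sqrt_nonneg (hs τ (E t))]
  exact le_antisymm h2 (hs_nonneg hτ _)

theorem pNS (hTC : StTC) (hEQ : StEQ) : StNS := by
  intro B _ _ _ τ hB S E hS hE H _ _ _ L R ξ h hξ hd c hc hc0
  have hτ := hB.trc
  set V : Set H := {v | ∃ x y, v = L x (R y ξ)} with hV
  -- approximations of `c`
  have happ : ∀ n : ℕ, ∃ s ∈ Submodule.span ℂ V, ‖c - s‖ < 1 / ((n : ℝ) + 1) := by
    intro n
    obtain ⟨s, hs, hs2⟩ := Metric.mem_closure_iff.1 (hd c) (1 / ((n : ℝ) + 1)) (by positivity)
    exact ⟨s, hs, by rwa [← dist_eq_norm]⟩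
  choose s hs hs2 using happ
  have hrep : ∀ n, ∃ (k : ℕ) (x y : Fin k → B), s n = ∑ i, L (x i) (R (y i) ξ) := by
    intro n
    obtain ⟨k, f, g, hfg⟩ := Submodule.mem_span_set'.1 (hs n)
    choose x y hxy using fun i => (g i).2
    refine ⟨k, fun i => f i • x i, y, ?_⟩
    rw [← hfg]
    refine Finset.sum_congr rfl fun i _ => ?_
    rw [map_smul, _root_.smul_apply, hxy i]
  choose k x y hxy using hrep
  set S' : Set B := S ∪ ⋃ n, Set.range (y n) with hS'
  have hS'c : S'.Countable := hS.union (Set.countable_iUnion fun n => Set.countable_range _)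
  have hy : ∀ n i, y n i ∈ StarAlgebra.adjoin ℂ S' := fun n i =>
    StarAlgebra.subset_adjoin ℂ _ (Or.inr (Set.mem_iUnion.2 ⟨n, i, rfl⟩))
  have hSS : ∀ a ∈ StarAlgebra.adjoin ℂ S, a ∈ StarAlgebra.adjoin ℂ S' := fun a ha =>
    StarAlgebra.adjoin_mono Set.subset_union_left ha
  -- inner products
  have hin : ∀ p q p' q', inner ℂ (L p (R q ξ)) (L p' (R q' ξ)) =
      τ (star p * p' * E (q' * star q)) := by
    intro p q p' q'
    rw [h.L_adj, ← h.L_mul, h.R_adj, ← h.comm, ← h.R_mul, hξ]
  -- the key claim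
  have key : ∀ b, (∀ a ∈ StarAlgebra.adjoin ℂ S', τ (a * b) = 0) → b = 0 := by
    intro b hb
    have hterm : ∀ p q p' q', q ∈ StarAlgebra.adjoin ℂ S' → q' ∈ StarAlgebra.adjoin ℂ S' →
        inner ℂ (R b (L p (R q ξ))) (L b (L p' (R q' ξ))) = 0 := by
      intro p q p' q' hq hq'
      rw [← h.comm, ← h.R_mul, ← h.L_mul, hin]
      have h1 : E (q' * star (q * b)) = 0 := by
        refine ns_zero hτ hE fun a ha => ?_
        have h2 : τ (a * (q' * star (q * b))) = τ (star (star (star q * a * q') * b)) := by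
          rw [star_mul, star_mul, star_star]
          calc τ (a * (q' * (star b * star q))) = τ ((a * q' * star b) * star q) := by
                congr 1; noncomm_ring
            _ = τ (star q * (a * q' * star b)) := hτ.tr _ _
            _ = τ ((star q * a * q') * star b) := by congr 1; noncomm_ring
            _ = τ (star b * (star q * a * q')) := hτ.tr _ _
        rw [h2, map_star' hτ, hb _ (star_mem (mul_mem (mul_mem (star_mem hq) (hSS a ha)) hq')),
          map_zero]
      rw [h1, mul_zero, map_zero]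
    have hsn : ∀ n, inner ℂ (R b (s n)) (L b (s n)) = 0 := by
      intro n
      rw [hxy n, map_sum, map_sum, sum_inner]
      refine Finset.sum_eq_zero fun i _ => ?_
      rw [inner_sum]
      refine Finset.sum_eq_zero fun j _ => ?_
      exact hterm _ _ _ _ (hy n i) (hy n j)
    have hsc : Tendsto s atTop (𝓝 c) := by
      rw [tendsto_iff_norm_sub_tendsto_zero]
      refine squeeze_zero (fun n => norm_nonneg _) (fun n => ?_)
        tendsto_one_div_add_atTop_nhds_zero_nat
      rw [norm_sub_rev]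
      exact (hs2 n).le
    have h1 : Tendsto (fun n => inner ℂ (R b (s n)) (L b (s n))) atTop
        (𝓝 (inner ℂ (R b c) (L b c))) :=
      (((R b).continuous.tendsto _).comp hsc).inner (((L b).continuous.tendsto _).comp hsc)
    have h2 : inner ℂ (R b c) (L b c) = (0 : ℂ) := by
      refine tendsto_nhds_unique h1 ?_
      simp only [hsn]
      exact tendsto_const_nhds
    rw [← hc b, hTC B τ hB H L R h c c hc hc] at h2
    rcases mul_eq_zero.1 h2 with h3 | h3
    · exact hτ.faith b h3
    · exact absurd (inner_self_eq_zero.1 h3) hc0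
  -- conclusion
  obtain ⟨E₁, hE₁⟩ := hEQ B τ hτ hB.cpl (StarAlgebra.adjoin ℂ S')
  refine ns_sep hτ hS'c fun z ε hε => ?_
  have h1 : z - E₁ z = 0 := by
    refine key _ fun a ha => ?_
    rw [mul_sub, map_sub, hE₁.tr a ha, sub_self]
  obtain ⟨a, ha, ha2⟩ := hE₁.cl z ε hε
  refine ⟨a, ha, ?_⟩
  rwa [sub_eq_zero.1 h1]

end Helper61.HT
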