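import Pool.Agent.Helper61.HT.StG
import Pool.Agent.Helper61.HT.LibN

/-!
# Property (T) of Connes and Jones implies the uniform form: separable case
-/

namespace Helper61.HT

open scoped ComplexOrder
open Filter Topology

section

variable {B : Type} [CStarAlgebra B] {τ : B →ₗ[ℂ] ℂ}
  {H : Type} [NormedAddCommGroup H] [InnerProductSpace ℂ H] {L R : B →ₗ[ℂ] (H →L[ℂ] H)}

private lemma sa_inner (h : HBim τ H L R) {φ : B →ₗ[ℂ] B} {ξ : H}
    (hξ : ∀ x y, inner ℂ ξ (L x (R y ξ)) = τ (x * φ y)) (p q p' q' : B) :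
    inner ℂ (L p (R q ξ)) (L p' (R q' ξ)) = τ (star p * p' * φ (q' * star q)) := by
  rw [h.L_adj, ← h.L_mul, h.R_adj, ← h.comm, ← h.R_mul, hξ]

variable [PartialOrder B] [StarOrderedRing B]

private lemma sa_hs (hτ : Trc τ) {κ : Type} [Fintype κ] (p q : κ → B) {m : ℕ} (X : Fin m → B) :
    ∑ w, hs τ (∑ a, p a * X w * q a) =
      (∑ a, ∑ b, τ (star (p a) * p b * ∑ w, X w * (q b * star (q a)) * star (X w))).re := by
  have h1 : ∀ w, hs τ (∑ a, p a * X w * q a) =
      (∑ a, ∑ b, τ (star (p a) * p b * (X w * (q b * star (q a)) * star (X w)))).re := by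
    intro w
    unfold hs
    congr 1
    rw [star_sum, Finset.sum_mul_sum, map_sum]
    refine Finset.sum_congr rfl fun a _ => ?_
    rw [map_sum]
    refine Finset.sum_congr rfl fun b _ => ?_
    calc τ (star (p a * X w * q a) * (p b * X w * q b))
        = τ ((star (q a) * star (X w)) * (star (p a) * p b * X w * q b)) := by
          congr 1; simp only [star_mul]; noncomm_ring
      _ = τ ((star (p a) * p b * X w * q b) * (star (q a) * star (X w))) := hτ.tr _ _
      _ = _ := by congr 1; noncomm_ring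
  rw [Finset.sum_congr rfl fun w _ => h1 w, ← Complex.re_sum]
  congr 1
  rw [Finset.sum_comm]
  refine Finset.sum_congr rfl fun a _ => ?_
  rw [Finset.sum_comm]
  refine Finset.sum_congr rfl fun b _ => ?_
  rw [Finset.mul_sum, map_sum]

private lemma sa_lim (hτ : Trc τ) (h : HBim τ H L R) {φ : B →ₗ[ℂ] B} {ξ : H}
    (hξ : ∀ x y, inner ℂ ξ (L x (R y ξ)) = τ (x * φ y)) {m : ℕ → ℕ} {X : ∀ n, Fin (m n) → B}
    (hlim : ∀ q, Tendsto (fun n => hs τ (∑ w, X n w * q * star (X n w) - φ q)) atTop (𝓝 0))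
    {κ : Type} [Fintype κ] (p q : κ → B) :
    Tendsto (fun n => ∑ w, hs τ (∑ a, p a * X n w * q a)) atTop
      (𝓝 (‖∑ a, L (p a) (R (q a) ξ)‖ ^ 2)) := by
  have h1 : ‖∑ a, L (p a) (R (q a) ξ)‖ ^ 2 =
      (∑ a, ∑ b, τ (star (p a) * p b * φ (q b * star (q a)))).re := by
    rw [← inner_self_eq_norm_sq (𝕜 := ℂ), sum_inner]
    simp only [inner_sum, sa_inner h hξ]
    rfl
  rw [h1]
  have h2 : (fun n => ∑ w, hs τ (∑ a, p a * X n w * q a)) = fun n =>
      (∑ a, ∑ b, τ (star (p a) * p b *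
        ∑ w, X n w * (q b * star (q a)) * star (X n w))).re := by
    funext n
    exact sa_hs hτ p q (X n)
  rw [h2]
  refine (Complex.continuous_re.tendsto _).comp ?_
  refine tendsto_finsetSum _ fun a _ => tendsto_finsetSum _ fun b _ => ?_
  rw [tendsto_iff_norm_sub_tendsto_zero]
  have h3 : Tendsto (fun n => Real.sqrt (hs τ (star (star (p a) * p b))) *
      Real.sqrt (hs τ (∑ w, X n w * (q b * star (q a)) * star (X n w) -
        φ (q b * star (q a))))) atTop (𝓝 0) := by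
    have h4 := (Real.continuous_sqrt.tendsto _).comp (hlim (q b * star (q a)))
    rw [Real.sqrt_zero] at h4
    have h5 := h4.const_mul (Real.sqrt (hs τ (star (star (p a) * p b))))
    rwa [mul_zero] at h5
  refine squeeze_zero (fun n => norm_nonneg _) (fun n => ?_) h3
  rw [← map_sub, ← mul_sub]
  have h6 := norm_map_mul_le hτ (star (star (p a) * p b))
    (∑ w, X n w * (q b * star (q a)) * star (X n w) - φ (q b * star (q a)))
  rwa [star_star] at h6

/-- The average of `L v ⬝ R v*` fixes pairings with central vectors. -/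
private lemma sa_cen (h : HBim τ H L R) {c : H} (hc : Cen L R c) {l : ℕ} {r : Fin l → ℝ}
    (hr : ∑ i, r i = 1) {v : Fin l → B} (hv : ∀ i, Un (v i)) (w : H) :
    inner ℂ c (∑ i, r i • L (v i) (R (star (v i)) w)) = inner ℂ c w := by
  have h1 : ∀ i, inner ℂ c (L (v i) (R (star (v i)) w)) = inner ℂ c w := by
    intro i
    have h2 := h.L_adj (star (v i)) c (R (star (v i)) w)
    rw [star_star] at h2
    have h3 := h.R_adj (star (v i)) c (R (star (v i)) w)
    rw [star_star] at h3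
    rw [← h2, hc (star (v i)), h3, ← h.R_mul, (hv i).1, h.R_one]
  rw [inner_sum]
  have h2 : ∀ i, inner ℂ c (r i • L (v i) (R (star (v i)) w)) = (r i : ℂ) * inner ℂ c w := by
    intro i
    rw [RCLike.real_smul_eq_coe_smul (K := ℂ), inner_smul_right, h1]
    rfl
  rw [Finset.sum_congr rfl fun i _ => h2 i, ← Finset.sum_mul]
  have h3 : ∑ i, (r i : ℂ) = 1 := by
    rw [← Complex.ofReal_sum, hr, Complex.ofReal_one]
  rw [h3, one_mul]

end

theorem pSA (hNC : StNC) (hW1 : StW1) (hFM : StFM) (hIS : StIS) (hID : StID) (hIL : StIL)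
    (hIC : StIC) (hBC : StBC) : StSA := by
  intro B _ _ _ τ hB hT hsep
  have hτ := hB.trc
  by_contra hn
  obtain ⟨r, hr, hfam⟩ := hFM B τ hB hT hn
  obtain ⟨F, δ, hδ, hF⟩ := hW1 B τ hτ hT
  obtain ⟨D, hD⟩ := hsep
  obtain ⟨m, k, l, X, Z, c, v, hP⟩ := hIS B τ D F (δ ^ 2) r hB hfam (by positivity)
  obtain ⟨hcom, hdec⟩ := hID B τ D F (δ ^ 2) r m k l X Z c v hτ (by positivity) hr hP
  obtain ⟨φ, hcp, h1, htr, hlim⟩ := hIL B τ D F (δ ^ 2) r m k l X Z c v hτ hB.cpl hP hD
  have hIC' := hIC B τ D F (δ ^ 2) r m k l X Z c v hτ hP hD hdec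
  obtain ⟨H, _, _, _, L, R, ξ, h, hξ, -⟩ := hBC B τ φ hτ hcp (le_of_eq h1)
    (fun x _ => le_of_eq (by unfold rt; rw [htr]))
  -- norm and traces
  have hn1 : ‖ξ‖ = 1 := by
    have h2 : inner ℂ ξ ξ = (1 : ℂ) := by
      have := hξ 1 1
      rwa [h.L_one, h.R_one, h1, one_mul, hτ.one] at this
    have h3 : ‖ξ‖ ^ 2 = 1 := by
      rw [← inner_self_eq_norm_sq (𝕜 := ℂ), h2]; simp
    have h4 := norm_nonneg ξ
    nlinarith
  have hL : ∀ x, inner ℂ ξ (L x ξ) = τ x := fun x => by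
    have := hξ x 1
    rwa [h.R_one, h1, mul_one] at this
  have hR : ∀ x, inner ℂ ξ (R x ξ) = τ x := fun x => by
    have := hξ 1 x
    rwa [h.L_one, one_mul, htr] at this
  -- commutators
  have hcm : ∀ y ∈ F, ‖L y ξ - R y ξ‖ ≤ δ := by
    intro y hy
    have h2 := sa_lim hτ h hξ hlim (κ := Fin 2) ![y, -1] ![1, y]
    have h3 : ∑ a : Fin 2, L ((![y, -1] : Fin 2 → B) a) (R ((![1, y] : Fin 2 → B) a) ξ) =
        L y ξ - R y ξ := by
      rw [Fin.sum_univ_two]
      simp only [Matrix.cons_val_zero, Matrix.cons_val_one]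
      rw [h.R_one, map_neg, _root_.neg_apply, h.L_one, sub_eq_add_neg]
    rw [h3] at h2
    have h4 : ‖L y ξ - R y ξ‖ ^ 2 ≤ δ ^ 2 := by
      refine le_of_tendsto h2 (Eventually.of_forall fun n => ?_)
      refine le_trans (le_of_eq ?_) (hcom n y hy)
      refine Finset.sum_congr rfl fun w _ => ?_
      rw [Fin.sum_univ_two]
      simp only [Matrix.cons_val_zero, Matrix.cons_val_one]
      rw [mul_one, neg_one_mul, neg_mul, sub_eq_add_neg]
    exact (pow_le_pow_iff_left₀ (norm_nonneg _) hδ.le two_ne_zero).1 h4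
  -- orthogonality to the central vectors
  have hperp : Perp L R ξ := by
    intro e he x
    have key : ∀ ε : ℝ, 0 < ε → ‖inner ℂ e (L x ξ)‖ ≤ ‖e‖ * ε := by
      intro ε hε
      obtain ⟨n₀, hn₀⟩ := hIC' x (ε ^ 2) (by positivity)
      obtain ⟨_, hc1, hvU⟩ := hP.cv n₀
      rw [← sa_cen h he hc1 hvU (L x ξ)]
      refine (norm_inner_le_norm _ _).trans (mul_le_mul_of_nonneg_left ?_ (norm_nonneg _))
      have h2 : ∑ i, c n₀ i • L (v n₀ i) (R (star (v n₀ i)) (L x ξ)) =
          ∑ i, L (c n₀ i • (v n₀ i * x)) (R (star (v n₀ i)) ξ) := by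
        refine Finset.sum_congr rfl fun i _ => ?_
        rw [← h.comm, ← h.L_mul, RCLike.real_smul_eq_coe_smul (K := ℂ),
          RCLike.real_smul_eq_coe_smul (K := ℂ), map_smul, _root_.smul_apply]
      have h3 := sa_lim hτ h hξ hlim (fun i => c n₀ i • (v n₀ i * x)) (fun i => star (v n₀ i))
      rw [← h2] at h3
      have h4 : ‖∑ i, c n₀ i • L (v n₀ i) (R (star (v n₀ i)) (L x ξ))‖ ^ 2 ≤ ε ^ 2 := by
        refine le_of_tendsto h3 ?_
        filter_upwards [eventually_ge_atTop n₀] with n hn'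
        refine le_trans (le_of_eq ?_) (hn₀ n hn')
        refine Finset.sum_congr rfl fun w _ => ?_
        congr 1
        unfold Av
        refine Finset.sum_congr rfl fun i _ => ?_
        rw [smul_mul_assoc, smul_mul_assoc]
        congr 1
        noncomm_ring
      exact (pow_le_pow_iff_left₀ (norm_nonneg _) hε.le two_ne_zero).1 h4
    have h2 : ‖inner ℂ e (L x ξ)‖ ≤ 0 := by
      refine le_of_forall_pos_le_add fun ε hε => ?_
      have h3 := key (ε / (‖e‖ + 1)) (by positivity)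
      rw [zero_add]
      refine h3.trans ?_
      rw [mul_div_assoc', div_le_iff₀ (by positivity)]
      nlinarith [norm_nonneg e]
    exact norm_le_zero_iff.1 h2
  obtain ⟨H₀, _, _, _, L₀, R₀, J, h₀, hno, hJL, hJR, hJ⟩ := hNC B τ H L R h
  obtain ⟨v₀, hv₀⟩ := hJ ξ hperp
  refine hF H₀ L₀ R₀ h₀ hno v₀ ⟨?_, fun x hx => ⟨?_, ?_, ?_⟩⟩
  · rw [← J.norm_map, hv₀, hn1]
  · rw [← J.norm_map, map_sub, hJL, hJR, hv₀]
    exact hcm x hx
  · rw [← J.inner_map_map, hJL, hv₀, hL, sub_self, norm_zero]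
    exact hδ.le
  · rw [← J.inner_map_map, hJR, hv₀, hR, sub_self, norm_zero]
    exact hδ.le

end Helper61.HT
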