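import Pool.Agent.Helper61.HT.StG
import Pool.Agent.Helper61.HT.LibN

/-!
# A II_1 factor with property (T) of Connes and Jones is separable
-/

namespace Helper61.HT

open scoped ComplexOrder
open Filter Topology

private lemma sb_comm {B : Type} [CStarAlgebra B] [PartialOrder B] [StarOrderedRing B]
    {τ : B →ₗ[ℂ] ℂ} (hτ : Trc τ) {E : B →ₗ[ℂ] B} (hE1 : E 1 = 1) (hEt : ∀ x, τ (E x) = τ x)
    {H : Type} [NormedAddCommGroup H] [InnerProductSpace ℂ H]
    {L R : B →ₗ[ℂ] (H →L[ℂ] H)} (h : HBim τ H L R) {ξ : H}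
    (hξ : ∀ x y, inner ℂ ξ (L x (R y ξ)) = τ (x * E y)) {x : B} (hx : E x = x) :
    L x ξ = R x ξ := by
  have h1 : inner ℂ (L x ξ) (L x ξ) = τ (star x * x) := by
    rw [h.L_adj, ← h.L_mul]
    have := hξ (star x * x) 1
    rwa [h.R_one, hE1, mul_one] at this
  have h2 : inner ℂ (R x ξ) (R x ξ) = τ (star x * x) := by
    rw [h.R_adj, ← h.R_mul]
    have := hξ 1 (x * star x)
    rw [h.L_one, one_mul, hEt, hτ.tr] at this
    exact this
  have h3 : inner ℂ (L x ξ) (R x ξ) = τ (star x * x) := by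
    rw [h.L_adj]
    have := hξ (star x) x
    rwa [hx] at this
  have h4 : inner ℂ (R x ξ) (L x ξ) = τ (star x * x) := by
    rw [← inner_conj_symm, h3, ← map_star' hτ, star_mul, star_star]
  have h5 : inner ℂ (L x ξ - R x ξ) (L x ξ - R x ξ) = (0 : ℂ) := by
    rw [inner_sub_left, inner_sub_right, inner_sub_right, h1, h2, h3, h4]
    ring
  exact sub_eq_zero.1 (inner_self_eq_zero.1 h5)

theorem pSB (hW1 : StW1) (hEQ : StEQ) (hBC : StBC) (hNS : StNS) : StSB := by
  intro B _ _ _ τ hB hT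
  by_contra hsep
  obtain ⟨F, δ, hδ, hF⟩ := hW1 B τ hB.trc hT
  obtain ⟨E, hE⟩ := hEQ B τ hB.trc hB.cpl (StarAlgebra.adjoin ℂ (F : Set B))
  have hE1 : E 1 = 1 := hE.id 1 (one_mem _)
  have hEt : ∀ x, τ (E x) = τ x := fun x => by
    have := hE.tr 1 (one_mem _) x
    rwa [one_mul, one_mul] at this
  obtain ⟨H, _, _, _, L, R, ξ, h, hξ, hd⟩ := hBC B τ E hB.trc hE.cp (le_of_eq hE1)
    (fun x _ => le_of_eq (by unfold rt; rw [hEt]))
  have hno : NoC L R := by
    intro w hw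
    by_contra hw0
    exact hsep (hNS B τ hB (F : Set B) E F.countable_toSet hE H L R ξ h hξ hd w hw hw0)
  refine hF H L R h hno ξ ⟨?_, ?_⟩
  · have h1 : inner ℂ ξ ξ = (1 : ℂ) := by
      have := hξ 1 1
      rwa [h.L_one, h.R_one, hE1, one_mul, hB.trc.one] at this
    have h2 : ‖ξ‖ ^ 2 = 1 := by
      rw [← inner_self_eq_norm_sq (𝕜 := ℂ), h1]; simp
    have h3 := norm_nonneg ξ
    nlinarith
  · intro x hx
    have hxE : E x = x := hE.id x (StarAlgebra.subset_adjoin ℂ _ (by simpa using hx))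
    have h1 := sb_comm hB.trc hE1 hEt h hξ hxE
    have h2 := hξ x 1
    rw [h.R_one, hE1, mul_one] at h2
    refine ⟨?_, ?_, ?_⟩
    · rw [h1, sub_self, norm_zero]; exact hδ.le
    · rw [h2, sub_self, norm_zero]; exact hδ.le
    · rw [← h1, h2, sub_self, norm_zero]; exact hδ.le

end Helper61.HT
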