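import Pool.Agent.Helper61.HT.StG
import Pool.Agent.Helper61.HT.LibN

/-!
# Project HTG: symmetrization and completion to a bi-unital family
-/

set_option autoImplicit false

namespace Helper61.HT

open scoped ComplexOrder
open Filter Topology

section

variable {B : Type} [CStarAlgebra B] [PartialOrder B] [StarOrderedRing B] {τ : B →ₗ[ℂ] ℂ}

omit [PartialOrder B] [StarOrderedRing B] in
private lemma sy_hs_sub (hτ : Trc τ) (x y : B) :
    hs τ (x - y) = hs τ x + hs τ y - 2 * rt τ (star x * y) := by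
  have h1 : rt τ (star y * x) = rt τ (star x * y) := by
    rw [← rt_star hτ (star y * x), star_mul, star_star]
  rw [hs_eq_rt, hs_eq_rt, hs_eq_rt, star_sub, sub_mul, mul_sub, mul_sub]
  simp only [rt_sub, h1]
  ring

private lemma sy_A (hτ : Trc τ) {n : ℕ} (a b : Fin n → B) (hb : ∑ j, star (b j) * b j ≤ 1) :
    hs τ (∑ j, a j * b j) ≤ ∑ j, hs τ (a j) := by
  set w := ∑ j, a j * b j with hw
  have h1 : ∑ j, rt τ (star (w * star (b j)) * a j) = hs τ w := by
    rw [hs_eq_rt]
    conv_rhs => rw [hw]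
    rw [← hw, Finset.mul_sum, rt_sum]
    refine Finset.sum_congr rfl fun j _ => ?_
    rw [star_mul, star_star]
    calc rt τ (b j * star w * a j) = rt τ (a j * (b j * star w)) := rt_mul_comm hτ _ _
      _ = rt τ (a j * b j * star w) := by rw [mul_assoc]
      _ = rt τ (star w * (a j * b j)) := rt_mul_comm hτ _ _
  have h2 : ∑ j, hs τ (w * star (b j)) ≤ hs τ w := by
    have h3 : ∑ j, hs τ (w * star (b j)) = rt τ ((star w * w) * ∑ j, star (b j) * b j) := by
      rw [Finset.mul_sum, rt_sum]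
      refine Finset.sum_congr rfl fun j _ => ?_
      rw [hs_eq_rt, star_mul, star_star]
      calc rt τ (b j * star w * (w * star (b j))) = rt τ (b j * (star w * w * star (b j))) := by
            simp only [mul_assoc]
        _ = rt τ (star w * w * star (b j) * b j) := rt_mul_comm hτ _ _
        _ = _ := by simp only [mul_assoc]
    rw [h3]
    have h4 := rt_mul_mono (τ := τ) hτ hb (nonneg_star_mul w)
    rw [rt_mul_comm hτ (∑ j, star (b j) * b j), one_mul] at h4
    exact h4
  have h5 : ∀ j, 2 * rt τ (star (w * star (b j)) * a j) ≤ hs τ (w * star (b j)) + hs τ (a j) := by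
    intro j
    have := hs_nonneg hτ (w * star (b j) - a j)
    rw [sy_hs_sub hτ] at this
    linarith
  have h6 : ∑ j, 2 * rt τ (star (w * star (b j)) * a j) ≤
      ∑ j, (hs τ (w * star (b j)) + hs τ (a j)) := Finset.sum_le_sum fun j _ => h5 j
  rw [← Finset.mul_sum, Finset.sum_add_distrib, h1] at h6
  linarith

private lemma sy_B (hτ : Trc τ) {n : ℕ} (a b : Fin n → B) (hb : ∑ j, b j * star (b j) ≤ 1) :
    hs τ (∑ j, b j * a j) ≤ ∑ j, hs τ (a j) := by
  have h := sy_A hτ (fun j => star (a j)) (fun j => star (b j)) (by simpa using hb)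
  have h1 : hs τ (∑ j, b j * a j) = hs τ (∑ j, star (a j) * star (b j)) := by
    rw [← hs_star hτ, star_sum]
    simp
  rw [h1]
  refine h.trans (le_of_eq ?_)
  exact Finset.sum_congr rfl fun j _ => hs_star hτ _

/-- The norm of the commutator with the symmetrized sum. -/
private lemma sy_comm (hτ : Trc τ) {n : ℕ} (x : Fin n → B) (hx1 : ∑ j, x j * star (x j) ≤ 1)
    (hx2 : ∑ j, star (x j) * x j ≤ 1) (u : B) (e : ℝ)
    (h1 : ∑ j, hs τ (u * x j - x j * u) ≤ e)
    (h2 : ∑ j, hs τ (u * star (x j) - star (x j) * u) ≤ e) :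
    hs τ (u * ((1 / 2 : ℝ) • ∑ j, (x j * star (x j) + star (x j) * x j)) -
      ((1 / 2 : ℝ) • ∑ j, (x j * star (x j) + star (x j) * x j)) * u) ≤ 4 * e := by
  have k1 := sy_A hτ (fun j => u * x j - x j * u) (fun j => star (x j)) (by simpa using hx1)
  have k2 := sy_B hτ (fun j => u * star (x j) - star (x j) * u) (fun j => x j) hx1
  have k3 := sy_A hτ (fun j => u * star (x j) - star (x j) * u) (fun j => x j) hx2
  have k4 := sy_B hτ (fun j => u * x j - x j * u) (fun j => star (x j)) (by simpa using hx2)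
  have hid : u * ((1 / 2 : ℝ) • ∑ j, (x j * star (x j) + star (x j) * x j)) -
      ((1 / 2 : ℝ) • ∑ j, (x j * star (x j) + star (x j) * x j)) * u
      = (1 / 2 : ℝ) • ((∑ j, (u * x j - x j * u) * star (x j) +
          ∑ j, x j * (u * star (x j) - star (x j) * u)) +
        (∑ j, (u * star (x j) - star (x j) * u) * x j +
          ∑ j, star (x j) * (u * x j - x j * u))) := by
    rw [mul_smul_comm, smul_mul_assoc, ← smul_sub, Finset.mul_sum, Finset.sum_mul,
      ← Finset.sum_sub_distrib, ← Finset.sum_add_distrib, ← Finset.sum_add_distrib,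
      ← Finset.sum_add_distrib]
    congr 1
    refine Finset.sum_congr rfl fun j _ => ?_
    noncomm_ring
  rw [hid, hs_smul]
  have l1 := hs_add_le hτ (∑ j, (u * x j - x j * u) * star (x j) +
          ∑ j, x j * (u * star (x j) - star (x j) * u))
        (∑ j, (u * star (x j) - star (x j) * u) * x j +
          ∑ j, star (x j) * (u * x j - x j * u))
  have l2 := hs_add_le hτ (∑ j, (u * x j - x j * u) * star (x j))
          (∑ j, x j * (u * star (x j) - star (x j) * u))
  have l3 := hs_add_le hτ (∑ j, (u * star (x j) - star (x j) * u) * x j)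
          (∑ j, star (x j) * (u * x j - x j * u))
  linarith

end

theorem pSY (hPS : StPS) : StSY := by
  intro B _ _ _ τ n x hτ hc hx1 hx2
  classical
  set hh : B := (1 / 2 : ℝ) • ∑ j, (x j * star (x j) + star (x j) * x j) with hhh
  have hle : hh ≤ 1 := by
    have h1 : ∑ j, (x j * star (x j) + star (x j) * x j) ≤ (1 : B) + 1 := by
      rw [Finset.sum_add_distrib]
      exact add_le_add hx1 hx2
    have h2 := smul_mono_real (c := 1 / 2) (by norm_num) h1
    refine h2.trans (le_of_eq ?_)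
    rw [← two_smul ℝ (1 : B), smul_smul]
    norm_num
  obtain ⟨y, hy0, hyy⟩ := exists_sqrt (sub_nonneg.2 hle)
  have hys : star y = y := herm_of_nonneg hy0
  let Z : Fin n ⊕ Fin n ⊕ Unit → B := Sum.elim (fun j => (Real.sqrt 2)⁻¹ • x j)
    (Sum.elim (fun j => (Real.sqrt 2)⁻¹ • star (x j)) (fun _ => y))
  let E : Fin n ⊕ Fin n ⊕ Unit ≃ Fin (Fintype.card (Fin n ⊕ Fin n ⊕ Unit)) := Fintype.equivFin _
  have hsum : ∀ {M : Type} [AddCommMonoid M] (f : B → M),
      ∑ i, f (Z (E.symm i)) = ∑ j, f ((Real.sqrt 2)⁻¹ • x j) +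
        (∑ j, f ((Real.sqrt 2)⁻¹ • star (x j)) + f y) := by
    intro M _ f
    rw [Equiv.sum_comp E.symm (fun i => f (Z i)), Fintype.sum_sum_type, Fintype.sum_sum_type]
    simp [Z]
  have hsq : (Real.sqrt 2)⁻¹ * (Real.sqrt 2)⁻¹ = (1 / 2 : ℝ) := by
    rw [← mul_inv, Real.mul_self_sqrt (by norm_num)]
    norm_num
  have hsq' : ((Real.sqrt 2)⁻¹) ^ 2 = (1 / 2 : ℝ) := by rw [pow_two, hsq]
  have hstar : ∀ a : B, star ((Real.sqrt 2)⁻¹ • a) = (Real.sqrt 2)⁻¹ • star a := by
    intro a
    rw [star_smul]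
    simp
  have hmul : ∀ a b : B, ((Real.sqrt 2)⁻¹ • a) * ((Real.sqrt 2)⁻¹ • b) = (1 / 2 : ℝ) • (a * b) := by
    intro a b
    rw [smul_mul_smul_comm, hsq]
  have hhsum : hh = (1 / 2 : ℝ) • ∑ j, x j * star (x j) + (1 / 2 : ℝ) • ∑ j, star (x j) * x j := by
    rw [hhh, Finset.sum_add_distrib, smul_add]
  have hrthh : rt τ hh = ∑ j, hs τ (x j) := by
    rw [hhh, rt_smul, rt_sum, Finset.mul_sum]
    refine Finset.sum_congr rfl fun j _ => ?_
    rw [rt_add, rt_mul_comm hτ (x j), hs_eq_rt]
    ring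
  refine ⟨_, fun i => Z (E.symm i), ?_, ?_, ?_, ?_⟩
  · rw [hsum (fun z => star z * z)]
    simp only [hstar, hmul, star_star, ← Finset.smul_sum]
    rw [hys, hyy, hhsum]
    abel
  · rw [hsum (fun z => z * star z)]
    simp only [hstar, hmul, star_star, ← Finset.smul_sum]
    rw [hys, hyy, hhsum]
    abel
  · rw [hsum (fun z => ‖τ z‖ ^ 2)]
    have e1 : ∀ a : B, ‖τ ((Real.sqrt 2)⁻¹ • a)‖ ^ 2 = (1 / 2) * ‖τ a‖ ^ 2 := by
      intro a
      rw [map_smul_real, norm_mul, mul_pow, Complex.norm_real, Real.norm_eq_abs, sq_abs, hsq']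
    have e2 : ∀ a : B, ‖τ (star a)‖ ^ 2 = ‖τ a‖ ^ 2 := by
      intro a
      rw [map_star' hτ, Complex.norm_conj]
    have e3 : ‖τ y‖ ^ 2 ≤ 1 - ∑ j, hs τ (x j) := by
      have h1 := norm_map_mul_le hτ (1 : B) y
      have h2 : hs τ (1 : B) = 1 := by
        rw [hs_eq_rt, star_one, one_mul, rt_one hτ]
      rw [h2, star_one, one_mul, Real.sqrt_one, one_mul] at h1
      have h3 : hs τ y = 1 - ∑ j, hs τ (x j) := by
        rw [hs_eq_rt, hys, hyy, rt_sub, rt_one hτ, hrthh]
      rw [← h3]
      exact (Real.le_sqrt (norm_nonneg _) (hs_nonneg hτ y)).1 h1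
    have e4 : ∀ j, hs τ (x j - τ (x j) • (1 : B)) = hs τ (x j) - ‖τ (x j)‖ ^ 2 := by
      intro j
      have h1 : hs τ (τ (x j) • (1 : B)) = ‖τ (x j)‖ ^ 2 := by
        rw [hs_smulC, hs_eq_rt, star_one, one_mul, rt_one hτ, mul_one]
      have h2 : rt τ (star (x j) * (τ (x j) • (1 : B))) = ‖τ (x j)‖ ^ 2 := by
        unfold rt
        rw [mul_smul_comm, mul_one, map_smul, smul_eq_mul, map_star' hτ, Complex.mul_conj']
        norm_cast
      rw [sy_hs_sub hτ, h1, h2]
      ring
    simp only [e1, e2, e4]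
    rw [Finset.sum_sub_distrib, ← Finset.mul_sum]
    linarith
  · intro u e hu h1 h2
    have he : 0 ≤ e := (Finset.sum_nonneg fun j _ => hs_nonneg hτ _).trans h1
    rw [hsum (fun z => hs τ (u * z - z * u))]
    have h3 : ∀ j, hs τ (u * star (x j) - star (x j) * u) = hs τ (star u * x j - x j * star u) := by
      intro j
      rw [← hs_star hτ, star_sub, star_mul, star_mul, star_star, hs_sub_comm]
    have h4 : ∑ j, hs τ (u * star (x j) - star (x j) * u) ≤ e := by
      refine le_trans (le_of_eq ?_) h2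
      exact Finset.sum_congr rfl fun j _ => h3 j
    have h5 := sy_comm hτ x hx1 hx2 u e h1 h4
    rw [← hhh] at h5
    have e1 : ∀ a : B, hs τ (u * ((Real.sqrt 2)⁻¹ • a) - ((Real.sqrt 2)⁻¹ • a) * u)
        = (1 / 2) * hs τ (u * a - a * u) := by
      intro a
      rw [mul_smul_comm, smul_mul_assoc, ← smul_sub, hs_smul, hsq']
    simp only [e1, ← Finset.mul_sum]
    have h6 : hs τ (u * y - y * u) ≤ 2 * Real.sqrt e := by
      have hq : 0 ≤ u * y * star u := conj_nonneg hy0 u
      have h7 := hPS B τ hτ hc (u * y * star u) y hq hy0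
      have h8 : hs τ (u * y - y * u) = hs τ (u * y * star u - y) := by
        rw [← hs_mul_unit hτ hu (u * y * star u - y), sub_mul, mul_assoc (u * y), hu.1, mul_one]
      have h9 : hs τ (u * y * star u * (u * y * star u) - y * y) = hs τ (u * hh - hh * u) := by
        have : u * y * star u * (u * y * star u) = u * (y * y) * star u := by
          calc u * y * star u * (u * y * star u) = u * y * (star u * u) * y * star u := by
                simp only [mul_assoc]
            _ = _ := by rw [hu.1, mul_one, mul_assoc u]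
        rw [this, hyy, ← hs_mul_unit hτ hu, sub_mul, mul_assoc (u * (1 - hh)), hu.1, mul_one]
        rw [hs_sub_comm]
        congr 1
        noncomm_ring
      rw [h8]
      refine h7.trans ?_
      rw [h9]
      have h10 : (2 : ℝ) * Real.sqrt e = Real.sqrt (4 * e) := by
        rw [show (4 : ℝ) * e = 2 ^ 2 * e by norm_num, Real.sqrt_mul (by positivity),
          Real.sqrt_sq (by norm_num)]
      rw [h10]
      exact Real.sqrt_le_sqrt h5
    linarith

end Helper61.HT
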