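import Pool.Agent.Helper61.HT.StG
import Pool.Agent.Helper61.HT.Lim

/-!
# Project HT: module TC: in a factor central vectors are tracial
-/

set_option autoImplicit false

namespace Helper61.HT

open scoped ComplexOrder

section

variable {B : Type} [CStarAlgebra B] {H : Type} [NormedAddCommGroup H] [InnerProductSpace ℂ H]

/-- The functional `z ↦ ⟨c, L z c'⟩`. -/
private noncomputable def om_TC (L : B →ₗ[ℂ] (H →L[ℂ] H)) (c c' : H) : B →ₗ[ℂ] ℂ where
  toFun z := inner ℂ c (L z c')
  map_add' x y := by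
    rw [map_add]
    simp
  map_smul' k x := by
    rw [map_smul]
    simp

private theorem om_tr_TC {τ : B →ₗ[ℂ] ℂ} {L R : B →ₗ[ℂ] (H →L[ℂ] H)} (h : HBim τ H L R)
    {c c' : H} (hc : Cen L R c) (hc' : Cen L R c') (z w : B) :
    om_TC L c c' (z * w) = om_TC L c c' (w * z) := by
  change inner ℂ c (L (z * w) c') = inner ℂ c (L (w * z) c')
  have h1 : inner ℂ c (R w (L z c')) = inner ℂ (R (star w) c) (L z c') := by
    rw [h.R_adj, star_star]
  rw [h.L_mul, hc' w, h.comm, h1, ← hc, h.L_adj, star_star, ← h.L_mul]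

private theorem sum_TC (f : B →ₗ[ℂ] ℂ) {J : Type} [Fintype J] (r : J → ℝ) (g : J → B) :
    f (∑ i, r i • g i) = ∑ i, (r i : ℂ) * f (g i) := by
  rw [map_sum]
  refine Finset.sum_congr rfl fun i _ => ?_
  have : r i • g i = (r i : ℂ) • g i := (Complex.coe_smul (r i) (g i)).symm
  rw [this, map_smul, smul_eq_mul]

end

theorem pTC : StTC := by
  intro B _ _ _ τ hN H _ _ _ L R h c c' hc hc' x y
  have key : ∀ z, om_TC L c c' z = τ z * inner ℂ c c' := by
    intro z
    set M : ℝ := ‖z‖ + ‖τ z‖ * ‖(1 : B)‖ + 1 with hM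
    have hM0 : 0 < M := by positivity
    rw [← sub_eq_zero, ← norm_le_zero_iff]
    refine le_of_forall_pos_le_add fun ε hε => ?_
    rw [zero_add]
    set ε' : ℝ := ε / (M * (‖c‖ + 1)) with hε'
    have hε'0 : 0 < ε' := by positivity
    obtain ⟨δ, hδ, hd⟩ := h.L_normal c' ε' hε'0
    obtain ⟨J, hJ, r, v, hr0, hr1, hv, ha⟩ :=
      avg_unitary hN (fun _ : Unit => z) (δ * M ^ 2) (by positivity)
    have ha := ha ()
    set a := ∑ i, r i • (v i * z * star (v i)) with hadef
    set b := a - τ z • (1 : B) with hb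
    have hωa : om_TC L c c' a = om_TC L c c' z := by
      rw [hadef, sum_TC]
      have : ∀ i, om_TC L c c' (v i * z * star (v i)) = om_TC L c c' z := by
        intro i
        rw [om_tr_TC h hc hc', ← mul_assoc, (hv i).1, one_mul]
      simp only [this]
      rw [← Finset.sum_mul, ← Complex.ofReal_sum, hr1]
      simp
    have hω1 : om_TC L c c' 1 = inner ℂ c c' := by
      change inner ℂ c (L 1 c') = _
      rw [h.L_one]
    have hωb : om_TC L c c' z - τ z * inner ℂ c c' = inner ℂ c (L b c') := by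
      change _ = om_TC L c c' b
      rw [hb, map_sub, map_smul, hωa, hω1, smul_eq_mul]
    have hna : ‖a‖ ≤ ‖z‖ := by
      rw [hadef]
      refine (norm_sum_le _ _).trans ?_
      have h2 : ∀ i ∈ Finset.univ, ‖r i • (v i * z * star (v i))‖ ≤ r i * ‖z‖ := by
        intro i _
        rw [norm_smul, Real.norm_eq_abs, abs_of_nonneg (hr0 i)]
        refine mul_le_mul_of_nonneg_left ?_ (hr0 i)
        have k1 := norm_unit_le (hv i)
        have k2 := norm_mul_le (v i * z) (star (v i))
        have k3 := norm_mul_le (v i) z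
        rw [norm_star] at k2
        nlinarith [norm_nonneg (v i), norm_nonneg z, norm_nonneg (v i * z)]
      refine (Finset.sum_le_sum h2).trans ?_
      rw [← Finset.sum_mul, hr1, one_mul]
    have hnb : ‖b‖ ≤ M := by
      have k1 : ‖b‖ ≤ ‖a‖ + ‖τ z • (1 : B)‖ := norm_sub_le _ _
      rw [norm_smul] at k1
      rw [hM]; linarith
    have hsc := hd ((((1 / M : ℝ)) : ℂ) • b) (by
        rw [norm_smul, Complex.norm_real, Real.norm_eq_abs, abs_of_pos (by positivity)]
        rw [one_div, inv_mul_le_iff₀ hM0, mul_one]; exact hnb) (by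
        rw [hs_smulC, Complex.norm_real, Real.norm_eq_abs, sq_abs]
        have k1 : (1 / M) ^ 2 * hs τ b ≤ (1 / M) ^ 2 * (δ * M ^ 2) :=
          mul_le_mul_of_nonneg_left ha (by positivity)
        have k2 : (1 / M) ^ 2 * (δ * M ^ 2) = δ := by field_simp
        linarith)
    have hLb : ‖L b c'‖ ≤ M * ε' := by
      rw [map_smul] at hsc
      have k1 : ((((1 / M : ℝ)) : ℂ) • L b) c' = (((1 / M : ℝ)) : ℂ) • (L b c') := rfl
      rw [k1, norm_smul, Complex.norm_real, Real.norm_eq_abs, abs_of_pos (by positivity), one_div,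
        inv_mul_le_iff₀ hM0] at hsc
      exact hsc
    rw [hωb]
    calc ‖(inner ℂ c (L b c') : ℂ)‖ ≤ ‖c‖ * ‖L b c'‖ := norm_inner_le_norm _ _
      _ ≤ ‖c‖ * (M * ε') := mul_le_mul_of_nonneg_left hLb (norm_nonneg _)
      _ ≤ (‖c‖ + 1) * (M * ε') := by
          refine mul_le_mul_of_nonneg_right (by linarith) (by positivity)
      _ = ε := by rw [hε']; field_simp
  have h1 : inner ℂ (L x c) (L y c') = om_TC L c c' (star x * y) := by
    change _ = inner ℂ c (L (star x * y) c')
    rw [h.L_adj, h.L_mul]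
  rw [h1, key]

end Helper61.HT
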