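import Pool.Agent.Helper61.HT.StG
import Pool.Agent.Helper61.HT.LibN

/-!
# Project HT, module Tru: truncation of families
-/

namespace Helper61.HT

open scoped ComplexOrder

section

variable {B : Type} [CStarAlgebra B] [PartialOrder B] [StarOrderedRing B] {τ : B →ₗ[ℂ] ℂ}

private lemma kfun_Tru {t : ℝ} (ht : 0 ≤ t) :
    (max 1 t)⁻¹ * (max 1 t)⁻¹ ≤ 1 ∧ (max 1 t)⁻¹ * t * (max 1 t)⁻¹ ≤ 1 := by
  have h1 : 1 ≤ max 1 t := le_max_left _ _
  have h2 : t ≤ max 1 t := le_max_right _ _
  have h3 : 0 < max 1 t := by linarith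
  have h4 : (max 1 t)⁻¹ ≤ 1 := inv_le_one_of_one_le₀ h1
  have h5 : 0 < (max 1 t)⁻¹ := inv_pos.2 h3
  have h6 : (max 1 t)⁻¹ * t ≤ 1 := by
    rw [inv_mul_le_iff₀ h3, mul_one]
    exact h2
  have h7 : 0 ≤ (max 1 t)⁻¹ * t := by positivity
  constructor
  · nlinarith
  · nlinarith

private lemma gfun_Tru {t ε : ℝ} (ht : 0 ≤ t) (hε : 0 < ε) :
    (1 - (max 1 t)⁻¹) * t * (1 - (max 1 t)⁻¹) ≤ min 1 (max 0 (t - 1) / ε) * (t - 1) + ε := by
  rcases le_or_gt t 1 with h1 | h1
  · rw [max_eq_left h1, max_eq_left (by linarith : t - 1 ≤ 0), zero_div,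
      min_eq_right (by norm_num : (0 : ℝ) ≤ 1)]
    norm_num
    exact hε.le
  · rw [max_eq_right h1.le, max_eq_right (by linarith : (0 : ℝ) ≤ t - 1)]
    have h2 : (1 - t⁻¹) * t * (1 - t⁻¹) ≤ t - 1 := by
      have h3 : (1 - t⁻¹) * t = t - 1 := by
        field_simp
      have h4 : 0 < t⁻¹ := inv_pos.2 (by linarith)
      rw [h3]
      nlinarith
    refine h2.trans ?_
    rcases le_or_gt (t - 1) ε with h5 | h5
    · have h6 : 0 ≤ min 1 ((t - 1) / ε) * (t - 1) := by
        apply mul_nonneg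
        · apply le_min zero_le_one
          apply div_nonneg <;> linarith
        · linarith
      linarith
    · have h7 : min 1 ((t - 1) / ε) = 1 := by
        apply min_eq_left
        rw [one_le_div hε]
        exact h5.le
      rw [h7]
      linarith

private lemma cfc_Tru (h : B) (hh : 0 ≤ h) {ε : ℝ} (hε : 0 < ε) :
    ∃ k g : B, star k = k ∧ k * k ≤ 1 ∧ k * h * k ≤ 1 ∧ 0 ≤ g ∧ g ≤ 1 ∧
      (1 - k) * h * (1 - k) ≤ g * (h - 1) + ε • (1 : B) := by
  have hsa : IsSelfAdjoint h := IsSelfAdjoint.of_nonneg hh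
  have hspec : ∀ t ∈ spectrum ℝ h, 0 ≤ t := fun t ht => spectrum_nonneg_of_nonneg hh ht
  have hKc : Continuous fun t : ℝ => (max 1 t)⁻¹ := by
    apply Continuous.inv₀ (by fun_prop)
    intro t
    have : 1 ≤ max 1 t := le_max_left _ _
    linarith
  have hGc : Continuous fun t : ℝ => min 1 (max 0 (t - 1) / ε) := by fun_prop
  have hid : h = cfc (fun t : ℝ => t) h := (cfc_id' ℝ h).symm
  have hK : (1 : B) - cfc (fun t : ℝ => (max 1 t)⁻¹) h =
      cfc (fun t : ℝ => 1 - (max 1 t)⁻¹) h := by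
    rw [cfc_sub (fun _ => (1 : ℝ)) (fun t : ℝ => (max 1 t)⁻¹) h (by fun_prop) hKc.continuousOn,
      cfc_const_one ℝ h]
  have hH : h - 1 = cfc (fun t : ℝ => t - 1) h := by
    rw [cfc_sub (fun t : ℝ => t) (fun _ => (1 : ℝ)) h (by fun_prop) (by fun_prop),
      cfc_const_one ℝ h, cfc_id' ℝ h]
  refine ⟨cfc (fun t : ℝ => (max 1 t)⁻¹) h, cfc (fun t : ℝ => min 1 (max 0 (t - 1) / ε)) h,
    ?_, ?_, ?_, ?_, ?_, ?_⟩
  · exact (cfc_predicate (fun t : ℝ => (max 1 t)⁻¹) h : IsSelfAdjoint _).star_eq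
  · rw [← cfc_mul _ _ h hKc.continuousOn hKc.continuousOn]
    exact cfc_le_one _ _ fun t ht => (kfun_Tru (hspec t ht)).1
  · have h2c : Continuous fun t : ℝ => (max 1 t)⁻¹ * t := hKc.mul continuous_id'
    nth_rewrite 2 [hid]
    rw [← cfc_mul _ _ h hKc.continuousOn (by fun_prop),
      ← cfc_mul (fun t : ℝ => (max 1 t)⁻¹ * t) (fun t : ℝ => (max 1 t)⁻¹) h h2c.continuousOn
        hKc.continuousOn]
    exact cfc_le_one _ _ fun t ht => (kfun_Tru (hspec t ht)).2
  · refine cfc_nonneg fun t ht => le_min zero_le_one ?_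
    exact div_nonneg (le_max_left _ _) hε.le
  · exact cfc_le_one _ _ fun t ht => min_le_left _ _
  · rw [hK, hH]
    nth_rewrite 2 [hid]
    have hK1 : Continuous fun t : ℝ => 1 - (max 1 t)⁻¹ := continuous_const.sub hKc
    have hK2 : Continuous fun t : ℝ => (1 - (max 1 t)⁻¹) * t := hK1.mul continuous_id'
    have hK3 : Continuous fun t : ℝ => (1 - (max 1 t)⁻¹) * t * (1 - (max 1 t)⁻¹) := hK2.mul hK1
    have hG2 : Continuous fun t : ℝ => min 1 (max 0 (t - 1) / ε) * (t - 1) :=
      hGc.mul (continuous_id'.sub continuous_const)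
    have hG3 : Continuous fun t : ℝ => min 1 (max 0 (t - 1) / ε) * (t - 1) + ε :=
      hG2.add continuous_const
    have he : ε • (1 : B) = cfc (fun _ : ℝ => ε) h := by
      rw [cfc_const ε h, Algebra.algebraMap_eq_smul_one]
    rw [← cfc_mul _ _ h hK1.continuousOn (by fun_prop),
      ← cfc_mul (fun t : ℝ => (1 - (max 1 t)⁻¹) * t) (fun t : ℝ => 1 - (max 1 t)⁻¹) h
        hK2.continuousOn hK1.continuousOn,
      ← cfc_mul (fun t : ℝ => min 1 (max 0 (t - 1) / ε)) (fun t : ℝ => t - 1) h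
        hGc.continuousOn (by fun_prop), he,
      ← cfc_add h (fun t : ℝ => min 1 (max 0 (t - 1) / ε) * (t - 1)) (fun _ : ℝ => ε)
        hG2.continuousOn (by fun_prop)]
    exact cfc_mono (fun t ht => gfun_Tru (hspec t ht) hε) hK3.continuousOn hG3.continuousOn

private lemma half_Tru (hτ : Trc τ) {n : ℕ} (x : Fin n → B) {ε : ℝ} (hε : 0 < ε)
    (h1 : ∀ g : B, 0 ≤ g → g ≤ 1 → rt τ (g * ∑ j, x j * star (x j)) ≤ rt τ g + ε) :
    ∃ k : B, star k = k ∧ k * k ≤ 1 ∧ k * (∑ j, x j * star (x j)) * k ≤ 1 ∧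
      ∑ j, hs τ (x j - k * x j) ≤ 2 * ε := by
  obtain ⟨k, g, hk, hkk, hkhk, hg0, hg1, hle⟩ := cfc_Tru (∑ j, x j * star (x j))
    (Finset.sum_nonneg fun j _ => nonneg_mul_star (x j)) hε
  refine ⟨k, hk, hkk, hkhk, ?_⟩
  have h2 : ∑ j, hs τ (x j - k * x j) =
      rt τ ((1 - k) * (∑ j, x j * star (x j)) * (1 - k)) := by
    rw [Finset.mul_sum, Finset.sum_mul, rt_sum]
    refine Finset.sum_congr rfl fun j _ => ?_
    rw [hs_eq_rt, rt_mul_comm hτ]
    congr 1
    rw [star_sub, star_mul, hk]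
    noncomm_ring
  rw [h2]
  refine (rt_mono hτ hle).trans ?_
  rw [rt_add, rt_smul, rt_one hτ, mul_sub, mul_one, rt_sub, mul_one]
  have h3 := h1 g hg0 hg1
  linarith

end

/-- Truncation of families. -/
theorem pTru : StTru := by
  intro B _ _ _ τ n x ε hτ hε h1 h2
  obtain ⟨k, hk, hkk, hkhk, hks⟩ := half_Tru hτ x hε h1
  have h3 : ∀ g : B, 0 ≤ g → g ≤ 1 →
      rt τ (g * ∑ j, star (k * x j) * star (star (k * x j))) ≤ rt τ g + ε := by
    intro g hg0 hg1
    refine le_trans (rt_mul_mono' hτ ?_ hg0) (h2 g hg0 hg1)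
    refine Finset.sum_le_sum fun j _ => ?_
    rw [star_star, star_mul, hk]
    have h4 := conj_mono' hkk (x j)
    rw [mul_one] at h4
    calc star (x j) * k * (k * x j) = star (x j) * (k * k) * x j := by noncomm_ring
      _ ≤ _ := h4
  obtain ⟨k', hk', hkk', hkhk', hks'⟩ := half_Tru hτ (fun j => star (k * x j)) hε h3
  refine ⟨fun j => k * x j * k', ?_, ?_, ?_⟩
  · refine le_trans (Finset.sum_le_sum (g := fun j => k * x j * star (k * x j)) fun j _ => ?_) ?_
    · have h4 := conj_mono hkk' (k * x j)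
      rw [mul_one] at h4
      calc k * x j * k' * star (k * x j * k') = k * x j * (k' * k') * star (k * x j) := by
            rw [star_mul (k * x j) k', hk']
            noncomm_ring
        _ ≤ _ := h4
    · calc ∑ j, k * x j * star (k * x j) = k * (∑ j, x j * star (x j)) * k := by
            rw [Finset.mul_sum, Finset.sum_mul]
            refine Finset.sum_congr rfl fun j _ => ?_
            rw [star_mul, hk]
            noncomm_ring
        _ ≤ 1 := hkhk
  · calc ∑ j, star (k * x j * k') * (k * x j * k') =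
          k' * (∑ j, star (k * x j) * star (star (k * x j))) * k' := by
            rw [Finset.mul_sum, Finset.sum_mul]
            refine Finset.sum_congr rfl fun j _ => ?_
            rw [star_mul (k * x j) k', hk', star_star]
            noncomm_ring
      _ ≤ 1 := hkhk'
  · calc ∑ j, hs τ (x j - k * x j * k') ≤
          ∑ j, (2 * hs τ (x j - k * x j) + 2 * hs τ (star (k * x j) - k' * star (k * x j))) := by
            refine Finset.sum_le_sum fun j _ => ?_
            have h5 : x j - k * x j * k' = (x j - k * x j) + (k * x j - k * x j * k') := by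
              abel
            have h6 : hs τ (k * x j - k * x j * k') =
                hs τ (star (k * x j) - k' * star (k * x j)) := by
              rw [← hs_star hτ, star_sub, star_mul (k * x j) k', hk']
            rw [h5, ← h6]
            exact hs_add_le hτ _ _
      _ = 2 * ∑ j, hs τ (x j - k * x j) +
          2 * ∑ j, hs τ (star (k * x j) - k' * star (k * x j)) := by
            rw [Finset.sum_add_distrib, Finset.mul_sum, Finset.mul_sum]
      _ ≤ 8 * ε := by linarith

end Helper61.HT
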