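import Pool.Agent.Helper61.HT.StG

/-!
# Project HT, module W1: uniform form of the property (T) of Connes and Jones
-/

namespace Helper61.HT

open scoped ComplexOrder
open Filter Topology

/-- A bimodule without central vectors with an almost central unit vector. -/
private structure W1Pk {B : Type} [CStarAlgebra B] (τ : B →ₗ[ℂ] ℂ) (F : Finset B) (δ : ℝ) :
    Type 1 where
  H : Type
  i1 : NormedAddCommGroup H
  i2 : InnerProductSpace ℂ H
  i3 : CompleteSpace H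
  L : B →ₗ[ℂ] (H →L[ℂ] H)
  R : B →ₗ[ℂ] (H →L[ℂ] H)
  hb : HBim τ H L R
  hn : NoC L R
  v : H
  hv : AU τ L R F δ v

private theorem bimo_of_HBim {B : Type} [CStarAlgebra B] {τ : B →ₗ[ℂ] ℂ} {H : Type}
    [NormedAddCommGroup H] [InnerProductSpace ℂ H] {L R : B →ₗ[ℂ] (H →L[ℂ] H)}
    (hLR : HBim τ H L R) : Bimo τ (fun x v => L x v) (fun x v => R x v) := by
  refine ⟨⟨?_, ?_, hLR.L_one, hLR.L_adj, hLR.L_normal⟩,
    ⟨?_, ?_, hLR.R_one, hLR.R_adj, hLR.R_normal⟩, hLR.L_mul, hLR.R_mul, hLR.comm⟩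
  · intro x y v; simp only [map_add, ContinuousLinearMap.add_apply]
  · intro c x v; simp only [map_smul, ContinuousLinearMap.smul_apply]
  · intro x y v; simp only [map_add, ContinuousLinearMap.add_apply]
  · intro c x v; simp only [map_smul, ContinuousLinearMap.smul_apply]

theorem pW1 (hDS : StDS) : StW1 := by
  intro B _ _ _ τ _ hT
  by_contra hcon
  have hpk : ∀ (F : Finset B) (δ : ℝ), 0 < δ → Nonempty (W1Pk τ F δ) := by
    intro F δ hδ
    by_contra hne
    apply hcon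
    refine ⟨F, δ, hδ, ?_⟩
    intro H i1 i2 i3 L R hb hn v hv
    exact hne ⟨⟨H, i1, i2, i3, L, R, hb, hn, v, hv⟩⟩
  have hpos : ∀ n : ℕ, (0 : ℝ) < 1 / ((n : ℝ) + 1) := fun n => by positivity
  let p : (i : Finset B × ℕ) → W1Pk τ i.1 (1 / ((i.2 : ℝ) + 1)) :=
    fun i => Classical.choice (hpk i.1 _ (hpos i.2))
  letI i1 : ∀ i, NormedAddCommGroup (p i).H := fun i => (p i).i1
  letI i2 : ∀ i, InnerProductSpace ℂ (p i).H := fun i => (p i).i2
  haveI i3 : ∀ i, CompleteSpace (p i).H := fun i => (p i).i3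
  obtain ⟨K, k1, k2, k3, LK, RK, hbK, hnK, hJ⟩ := hDS B τ (Finset B × ℕ) (fun i => (p i).H)
    (fun i => (p i).L) (fun i => (p i).R) (fun i => (p i).hb) (fun i => (p i).hn)
  obtain ⟨w, hw0, hw⟩ := hT K (fun x v => LK x v) (fun x v => RK x v) (bimo_of_HBim hbK) (by
    intro F δ hδ
    obtain ⟨n, hn⟩ := exists_nat_one_div_lt hδ
    obtain ⟨J, hJL, hJR⟩ := hJ (F, n)
    obtain ⟨hu, hx⟩ := (p (F, n)).hv
    refine ⟨J (p (F, n)).v, ?_, ?_, ?_, ?_⟩
    · show ‖J (p (F, n)).v‖ = 1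
      rw [J.norm_map]
      exact hu
    · intro x hxF
      show ‖LK x (J (p (F, n)).v) - RK x (J (p (F, n)).v)‖ ≤ δ
      rw [← hJL, ← hJR, ← map_sub, J.norm_map]
      exact (hx x hxF).1.trans hn.le
    · intro x hxF
      show ‖inner ℂ (J (p (F, n)).v) (LK x (J (p (F, n)).v)) - τ x‖ ≤ δ
      rw [← hJL, J.inner_map_map]
      exact (hx x hxF).2.1.trans hn.le
    · intro x hxF
      show ‖inner ℂ (J (p (F, n)).v) (RK x (J (p (F, n)).v)) - τ x‖ ≤ δ
      rw [← hJR, J.inner_map_map]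
      exact (hx x hxF).2.2.trans hn.le)
  exact hw0 (hnK w hw)

end Helper61.HT
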