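import Pool.Agent.Helper61.HT.StG
import Pool.Agent.Helper61.HT.Lim

/-!
# Project HT: almost central subtracial vectors are close to the span of the central vectors
-/

namespace Helper61.HT

open scoped ComplexOrder
open Filter Topology

section

variable {B : Type} [CStarAlgebra B] {τ : B →ₗ[ℂ] ℂ} {H : Type} [NormedAddCommGroup H]
  [InnerProductSpace ℂ H]

private lemma w2_bdd [PartialOrder B] [StarOrderedRing B] {M : B →ₗ[ℂ] (H →L[ℂ] H)} {c : B → B}
    (h1 : ∀ v, M 1 v = v)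
    (h2 : ∀ y, 0 ≤ y → ∀ v, 0 ≤ (inner ℂ v (M y v) : ℂ).re)
    (h3 : ∀ x v, ‖M x v‖ ^ 2 = (inner ℂ v (M (c x) v) : ℂ).re)
    (h4 : ∀ x, c x ≤ (‖x‖ ^ 2) • 1) (x : B) (v : H) : ‖M x v‖ ≤ ‖x‖ * ‖v‖ := by
  have h5 := h2 _ (sub_nonneg.2 (h4 x)) v
  have h6 : (‖x‖ ^ 2) • (1 : B) = ((‖x‖ ^ 2 : ℝ) : ℂ) • (1 : B) := (algebraMap_smul ℂ _ _).symm
  rw [h6, map_sub, _root_.sub_apply, map_smul, _root_.smul_apply, h1,
    inner_sub_right, inner_smul_right, Complex.sub_re, Complex.re_ofReal_mul, ← h3] at h5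
  have h7 : (inner ℂ v v : ℂ).re = ‖v‖ ^ 2 :=
    (InnerProductSpace.norm_sq_eq_re_inner (𝕜 := ℂ) v).symm
  rw [h7] at h5
  have h8 : ‖M x v‖ ^ 2 ≤ (‖x‖ * ‖v‖) ^ 2 := by rw [mul_pow]; linarith
  exact (pow_le_pow_iff_left₀ (norm_nonneg _) (by positivity) two_ne_zero).1 h8

private lemma w2_L [PartialOrder B] [StarOrderedRing B] {L R : B →ₗ[ℂ] (H →L[ℂ] H)}
    (b : HBim τ H L R) (x : B) (v : H) : ‖L x v‖ ≤ ‖x‖ * ‖v‖ := by
  refine w2_bdd (c := fun x => star x * x) b.L_one ?_ ?_ star_mul_le x v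
  · intro y hy v
    obtain ⟨z, hz, rfl⟩ := exists_sqrt hy
    rw [b.L_mul]
    nth_rewrite 1 [← herm_of_nonneg hz]
    rw [← b.L_adj]
    exact (sq_nonneg _).trans_eq (InnerProductSpace.norm_sq_eq_re_inner (𝕜 := ℂ) (L z v))
  · intro x v
    rw [InnerProductSpace.norm_sq_eq_re_inner (𝕜 := ℂ), b.L_adj, ← b.L_mul]
    rfl

private lemma w2_R [PartialOrder B] [StarOrderedRing B] {L R : B →ₗ[ℂ] (H →L[ℂ] H)}
    (b : HBim τ H L R) (x : B) (v : H) : ‖R x v‖ ≤ ‖x‖ * ‖v‖ := by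
  refine w2_bdd (c := fun x => x * star x) b.R_one ?_ ?_ mul_star_le x v
  · intro y hy v
    obtain ⟨z, hz, rfl⟩ := exists_sqrt hy
    rw [b.R_mul]
    nth_rewrite 1 [← herm_of_nonneg hz]
    rw [← b.R_adj]
    exact (sq_nonneg _).trans_eq (InnerProductSpace.norm_sq_eq_re_inner (𝕜 := ℂ) (R z v))
  · intro x v
    rw [InnerProductSpace.norm_sq_eq_re_inner (𝕜 := ℂ), b.R_adj, ← b.R_mul]
    rfl

/-- Two unit vectors at distance `d` and a map of norm at most `M`. -/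
private lemma w2_close {A : H →L[ℂ] H} {M d : ℝ} (hA : ∀ w, ‖A w‖ ≤ M * ‖w‖) (hM : 0 ≤ M)
    {p q : H} (hp : ‖p‖ = 1) (hq : ‖q‖ = 1) (hd : ‖p - q‖ ≤ d) :
    ‖(inner ℂ p (A p) : ℂ) - inner ℂ q (A q)‖ ≤ 2 * M * d := by
  have h1 : (inner ℂ p (A p) : ℂ) - inner ℂ q (A q) =
      inner ℂ (p - q) (A p) + inner ℂ q (A (p - q)) := by
    rw [map_sub, inner_sub_left, inner_sub_right]
    ring
  rw [h1]
  have h2 : ‖(inner ℂ (p - q) (A p) : ℂ)‖ ≤ d * M := by
    refine (norm_inner_le_norm _ _).trans ?_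
    have := hA p
    rw [hp, mul_one] at this
    exact mul_le_mul hd this (norm_nonneg _) ((norm_nonneg _).trans hd)
  have h3 : ‖(inner ℂ q (A (p - q)) : ℂ)‖ ≤ M * d := by
    refine (norm_inner_le_norm _ _).trans ?_
    rw [hq, one_mul]
    exact (hA _).trans (mul_le_mul_of_nonneg_left hd hM)
  refine (norm_add_le _ _).trans ?_
  linarith

private lemma w2_iso_L {L R : B →ₗ[ℂ] (H →L[ℂ] H)} (b : HBim τ H L R) {w : B}
    (hw : star w * w = 1) (u : H) : ‖L w u‖ = ‖u‖ := by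
  have h : ‖L w u‖ ^ 2 = ‖u‖ ^ 2 := by
    rw [InnerProductSpace.norm_sq_eq_re_inner (𝕜 := ℂ), b.L_adj, ← b.L_mul, hw, b.L_one,
      ← InnerProductSpace.norm_sq_eq_re_inner (𝕜 := ℂ)]
  exact (pow_left_inj₀ (norm_nonneg _) (norm_nonneg _) two_ne_zero).1 h

private lemma w2_iso_R {L R : B →ₗ[ℂ] (H →L[ℂ] H)} (b : HBim τ H L R) {w : B}
    (hw : w * star w = 1) (u : H) : ‖R w u‖ = ‖u‖ := by
  have h : ‖R w u‖ ^ 2 = ‖u‖ ^ 2 := by
    rw [InnerProductSpace.norm_sq_eq_re_inner (𝕜 := ℂ), b.R_adj, ← b.R_mul, hw, b.R_one,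
      ← InnerProductSpace.norm_sq_eq_re_inner (𝕜 := ℂ)]
  exact (pow_left_inj₀ (norm_nonneg _) (norm_nonneg _) two_ne_zero).1 h

/-- Conjugation by a unitary almost commuting with the unit vector `u` (left action). -/
private lemma w2_conj_L [PartialOrder B] [StarOrderedRing B] {L R : B →ₗ[ℂ] (H →L[ℂ] H)}
    (b : HBim τ H L R) {w x : B} (hw : Un w) {u : H} (hu : ‖u‖ = 1) {d : ℝ}
    (hd : ‖L (star w) u - R (star w) u‖ ≤ d) :
    ‖(inner ℂ u (L (w * x * star w) u) : ℂ) - inner ℂ u (L x u)‖ ≤ 2 * ‖x‖ * d := by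
  have h1 : (inner ℂ u (L (w * x * star w) u) : ℂ) =
      inner ℂ (L (star w) u) (L x (L (star w) u)) := by
    rw [b.L_adj, star_star, ← b.L_mul, ← b.L_mul, mul_assoc]
  have h2 : (inner ℂ u (L x u) : ℂ) = inner ℂ (R (star w) u) (L x (R (star w) u)) := by
    rw [b.R_adj, star_star, b.comm x, ← b.R_mul, hw.1, b.R_one]
  rw [h1, h2]
  have hw' : star (star w) * star w = 1 := by rw [star_star]; exact hw.2
  have hw'' : star w * star (star w) = 1 := by rw [star_star]; exact hw.1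
  exact w2_close (fun v => w2_L b x v) (norm_nonneg x) ((w2_iso_L b hw' u).trans hu)
    ((w2_iso_R b hw'' u).trans hu) hd

/-- Conjugation by a unitary almost commuting with the unit vector `u` (right action). -/
private lemma w2_conj_R [PartialOrder B] [StarOrderedRing B] {L R : B →ₗ[ℂ] (H →L[ℂ] H)}
    (b : HBim τ H L R) {w x : B} (hw : Un w) {u : H} (hu : ‖u‖ = 1) {d : ℝ}
    (hd : ‖L w u - R w u‖ ≤ d) :
    ‖(inner ℂ u (R (w * x * star w) u) : ℂ) - inner ℂ u (R x u)‖ ≤ 2 * ‖x‖ * d := by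
  have h1 : (inner ℂ u (R (w * x * star w) u) : ℂ) = inner ℂ (R w u) (R x (R w u)) := by
    rw [b.R_adj, ← b.R_mul, ← b.R_mul, mul_assoc]
  have h2 : (inner ℂ u (R x u) : ℂ) = inner ℂ (L w u) (R x (L w u)) := by
    rw [b.L_adj, b.comm, ← b.L_mul, hw.1, b.L_one]
  rw [h1, h2]
  refine w2_close (fun v => w2_R b x v) (norm_nonneg x) ((w2_iso_R b hw.2 u).trans hu)
    ((w2_iso_L b hw.1 u).trans hu) ?_
  rw [← norm_neg, neg_sub]
  exact hd

/-- The functional `x ↦ ⟨u, M x u⟩`. -/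
private noncomputable def w2Q (M : B →ₗ[ℂ] (H →L[ℂ] H)) (u : H) : B →ₗ[ℂ] ℂ where
  toFun x := inner ℂ u (M x u)
  map_add' x y := by rw [map_add, _root_.add_apply, inner_add_right]
  map_smul' t x := by
    rw [map_smul, _root_.smul_apply, inner_smul_right]
    rfl

/-- The averaging argument for a linear map `Q`. -/
private lemma w2_avg {J : Type} [Fintype J] {c : J → ℝ} {v : J → B} (hc : ∀ i, 0 ≤ c i)
    (hc1 : ∑ i, c i = 1) (Q : B →ₗ[ℂ] ℂ) {x : B} {e s : ℝ} {t : ℂ} (hQ1 : Q 1 = 1)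
    (hconj : ∀ i, ‖Q (v i * x * star (v i)) - Q x‖ ≤ e)
    (havg : ‖Q (∑ i, c i • (v i * x * star (v i)) - t • (1 : B))‖ ≤ s) :
    ‖Q x - t‖ ≤ e + s := by
  have hsm : ∀ (r : ℝ) (y : B), Q (r • y) = (r : ℂ) * Q y := by
    intro r y
    have : r • y = (r : ℂ) • y := (algebraMap_smul ℂ r y).symm
    rw [this, map_smul, smul_eq_mul]
  have h1 : Q (∑ i, c i • (v i * x * star (v i)) - t • (1 : B)) =
      ∑ i, (c i : ℂ) * Q (v i * x * star (v i)) - t := by
    rw [map_sub, map_sum, map_smul, hQ1, smul_eq_mul, mul_one]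
    simp only [hsm]
  have h2 : Q x = ∑ i, (c i : ℂ) * Q x := by
    rw [← Finset.sum_mul]
    have : (∑ i, (c i : ℂ)) = 1 := by
      rw [← Complex.ofReal_sum, hc1, Complex.ofReal_one]
    rw [this, one_mul]
  have h3 : Q x - t = (∑ i, (c i : ℂ) * (Q x - Q (v i * x * star (v i)))) +
      Q (∑ i, c i • (v i * x * star (v i)) - t • (1 : B)) := by
    rw [h1]
    simp only [mul_sub, Finset.sum_sub_distrib]
    rw [← h2]
    ring
  rw [h3]
  refine (norm_add_le _ _).trans (add_le_add ?_ havg)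
  calc ‖∑ i, (c i : ℂ) * (Q x - Q (v i * x * star (v i)))‖
      ≤ ∑ i, ‖(c i : ℂ) * (Q x - Q (v i * x * star (v i)))‖ := norm_sum_le _ _
    _ ≤ ∑ i, c i * e := by
        refine Finset.sum_le_sum fun i _ => ?_
        rw [norm_mul, Complex.norm_real, Real.norm_of_nonneg (hc i), norm_sub_rev]
        exact mul_le_mul_of_nonneg_left (hconj i) (hc i)
    _ = e := by rw [← Finset.sum_mul, hc1, one_mul]

end

theorem pW2 (hW1 : StW1) (hNC : StNC) : StW2 := by
  classical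
  intro B _ _ _ τ hN hT ε hε
  have hτ := hN.trc
  obtain ⟨F1, δ1, hδ1, hF1⟩ := hW1 B τ hτ hT
  set e' : ℝ := (ε * δ1 / 2) ^ 2 with he'
  have he'pos : 0 < e' := by positivity
  obtain ⟨J, _, c, v, hc, hc1, hv, havg⟩ := avg_unitary hN (κ := F1) (fun x => (x : B)) e' he'pos
  set M : ℝ := ∑ x ∈ F1, ‖x‖ with hM
  have hM0 : 0 ≤ M := Finset.sum_nonneg fun x _ => norm_nonneg x
  have hMx : ∀ x ∈ F1, ‖x‖ ≤ M := fun x hx =>
    Finset.single_le_sum (f := fun x => ‖x‖) (fun x _ => norm_nonneg x) hx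
  set δ : ℝ := min (ε * δ1) (ε * δ1 / (4 * (1 + M))) with hδ
  have hδpos : 0 < δ := lt_min (by positivity) (by positivity)
  refine ⟨F1 ∪ (Finset.univ.image v ∪ Finset.univ.image fun i => star (v i)), δ, hδpos, ?_⟩
  intro H _ _ _ L R hb ξ hξ hcom
  -- the projection
  set K : Submodule ℂ H := (CenSp L R).topologicalClosure with hK
  have hKc : IsClosed (K : Set H) := Submodule.isClosed_topologicalClosure _
  have : CompleteSpace K := hKc.completeSpace_coe
  have hmemK : ∀ w, Cen L R w → ∀ x, L x w ∈ K := fun w hw x =>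
    Submodule.le_topologicalClosure _ (Submodule.subset_span ⟨x, w, hw, rfl⟩)
  have hinv : ∀ A : H →L[ℂ] H, (∀ w, Cen L R w → ∀ x, A (L x w) ∈ K) → ∀ w ∈ K, A w ∈ K := by
    intro A hA
    have h1 : CenSp L R ≤ K.comap (A : H →ₗ[ℂ] H) := by
      refine Submodule.span_le.2 ?_
      rintro w ⟨x, w, hw, rfl⟩
      exact hA w hw x
    have h2 : IsClosed ((K.comap (A : H →ₗ[ℂ] H) : Submodule ℂ H) : Set H) :=
      hKc.preimage A.continuous
    have h3 : K ≤ K.comap (A : H →ₗ[ℂ] H) := Submodule.topologicalClosure_minimal _ h1 h2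
    exact fun w hw => h3 hw
  have hLK : ∀ y, ∀ w ∈ K, L y w ∈ K := fun y => hinv (L y) fun w hw x => by
    rw [← hb.L_mul]
    exact hmemK w hw _
  have hRK : ∀ y, ∀ w ∈ K, R y w ∈ K := fun y => hinv (R y) fun w hw x => by
    rw [← hb.comm, ← hw y, ← hb.L_mul]
    exact hmemK w hw _
  have hPcomm : ∀ A A' : H →L[ℂ] H, (∀ w ∈ K, A w ∈ K) → (∀ w ∈ K, A' w ∈ K) →
      (∀ p q, inner ℂ (A' p) q = (inner ℂ p (A q) : ℂ)) →
      ∀ w, K.starProjection (A w) = A (K.starProjection w) := by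
    intro A A' hA hA' hadj w
    refine Submodule.eq_starProjection_of_mem_orthogonal (hA _ (K.starProjection_apply_mem w)) ?_
    rw [Submodule.mem_orthogonal]
    intro k hk
    rw [← map_sub, ← hadj]
    exact Submodule.inner_right_of_mem_orthogonal (hA' k hk)
      (Submodule.sub_starProjection_mem_orthogonal w)
  have hPL : ∀ x w, K.starProjection (L x w) = L x (K.starProjection w) := fun x =>
    hPcomm (L x) (L (star x)) (hLK x) (hLK (star x)) fun p q => by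
      rw [hb.L_adj, star_star]
  have hPR : ∀ x w, K.starProjection (R x w) = R x (K.starProjection w) := fun x =>
    hPcomm (R x) (R (star x)) (hRK x) (hRK (star x)) fun p q => by
      rw [hb.R_adj, star_star]
  have hPn : ∀ w, ‖K.starProjection w‖ ≤ ‖w‖ := fun w => K.norm_starProjection_apply_le w
  have hQn : ∀ w, ‖w - K.starProjection w‖ ≤ ‖w‖ := by
    intro w
    have h1 := Submodule.norm_sq_eq_add_norm_sq_starProjection w K
    have h2 : ‖w - K.starProjection w‖ ^ 2 ≤ ‖w‖ ^ 2 := by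
      rw [h1, Submodule.starProjection_orthogonal_val]
      nlinarith [sq_nonneg ‖K.starProjection w‖]
    exact (pow_le_pow_iff_left₀ (norm_nonneg _) (norm_nonneg _) two_ne_zero).1 h2
  set η : H := K.starProjection ξ with hη
  set ζ : H := ξ - η with hζ
  have hζL : ∀ x, ‖L x ζ‖ ≤ ‖L x ξ‖ := by
    intro x
    rw [hζ, map_sub, hη, ← hPL]
    exact hQn _
  have hζR : ∀ x, ‖R x ζ‖ ≤ ‖R x ξ‖ := by
    intro x
    rw [hζ, map_sub, hη, ← hPR]
    exact hQn _
  have hζc : ∀ x, ‖L x ζ - R x ζ‖ ≤ ‖L x ξ - R x ξ‖ := by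
    intro x
    have : L x ζ - R x ζ = (L x ξ - R x ξ) - K.starProjection (L x ξ - R x ξ) := by
      rw [hζ, map_sub, map_sub, map_sub, hη, hPL, hPR]
      abel
    rw [this]
    exact hQn _
  have hPerp : Perp L R ζ := by
    intro w hw x
    have h1 : (inner ℂ w (L x ζ) : ℂ) = inner ℂ (L (star x) w) ζ := by
      rw [hb.L_adj, star_star]
    rw [h1]
    exact Submodule.inner_right_of_mem_orthogonal (hmemK w hw _)
      (Submodule.sub_starProjection_mem_orthogonal ξ)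
  refine ⟨η, ?_, ?_, ⟨?_, ?_⟩, ?_⟩
  · rw [← Submodule.topologicalClosure_coe]
    exact K.starProjection_apply_mem ξ
  · -- the main claim
    by_contra hlt
    rw [not_le] at hlt
    have hζpos : 0 < ‖ζ‖ := hε.trans hlt
    obtain ⟨H₀, _, _, _, L₀, R₀, J₀, hb₀, hno, hJL, hJR, hJp⟩ := hNC B τ H L R hb
    obtain ⟨v₀, hv₀⟩ := hJp ζ hPerp
    set r : ℂ := ((‖ζ‖⁻¹ : ℝ) : ℂ) with hr
    have hrn : ‖r‖ = ‖ζ‖⁻¹ := by
      rw [hr, Complex.norm_real, Real.norm_of_nonneg (by positivity)]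
    set u : H := r • ζ with hu
    have hun : ‖u‖ = 1 := by
      rw [hu, norm_smul, hrn, inv_mul_cancel₀ hζpos.ne']
    have hinvle : ‖ζ‖⁻¹ ≤ ε⁻¹ := inv_anti₀ hε hlt.le
    have huL : ∀ x, ‖L x u‖ ≤ Real.sqrt (hs τ x) / ε := by
      intro x
      rw [hu, map_smul, norm_smul, hrn, div_eq_inv_mul]
      refine mul_le_mul hinvle ((hζL x).trans ?_) (norm_nonneg _) (by positivity)
      exact Real.le_sqrt_of_sq_le (hξ.1 x)
    have huR : ∀ x, ‖R x u‖ ≤ Real.sqrt (hs τ x) / ε := by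
      intro x
      rw [hu, map_smul, norm_smul, hrn, div_eq_inv_mul]
      refine mul_le_mul hinvle ((hζR x).trans ?_) (norm_nonneg _) (by positivity)
      exact Real.le_sqrt_of_sq_le (hξ.2 x)
    have huc : ∀ x ∈ F1 ∪ (Finset.univ.image v ∪ Finset.univ.image fun i => star (v i)),
        ‖L x u - R x u‖ ≤ δ / ε := by
      intro x hx
      rw [hu, map_smul, map_smul, ← smul_sub, norm_smul, hrn, div_eq_inv_mul]
      exact mul_le_mul hinvle ((hζc x).trans (hcom x hx)) (norm_nonneg _) (by positivity)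
    have hδ1' : δ / ε ≤ δ1 := by
      rw [div_le_iff₀ hε]
      exact (min_le_left _ _).trans_eq (mul_comm _ _)
    have hδ2' : ∀ x ∈ F1, 2 * ‖x‖ * (δ / ε) ≤ δ1 / 2 := by
      intro x hx
      have h1 : δ / ε ≤ δ1 / (4 * (1 + M)) := by
        rw [div_le_iff₀ hε]
        refine (min_le_right _ _).trans_eq ?_
        ring
      have h2 : 2 * ‖x‖ * (δ / ε) ≤ 2 * (1 + M) * (δ1 / (4 * (1 + M))) := by
        refine mul_le_mul ?_ h1 (by positivity) (by positivity)
        have := hMx x hx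
        linarith
      have h3 : 2 * (1 + M) * (δ1 / (4 * (1 + M))) = δ1 / 2 := by
        field_simp
        ring
      linarith
    have hsq : Real.sqrt e' / ε = δ1 / 2 := by
      rw [he', Real.sqrt_sq (by positivity)]
      field_simp
    have hvm : ∀ i, v i ∈ F1 ∪ (Finset.univ.image v ∪ Finset.univ.image fun i => star (v i)) := by
      intro i
      simp
    have hvm' : ∀ i, star (v i) ∈
        F1 ∪ (Finset.univ.image v ∪ Finset.univ.image fun i => star (v i)) := by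
      intro i
      refine Finset.mem_union_right _ (Finset.mem_union_right _ ?_)
      exact Finset.mem_image.2 ⟨i, Finset.mem_univ _, rfl⟩
    -- the two functionals
    set QL : B →ₗ[ℂ] ℂ := w2Q L u with hQL
    set QR : B →ₗ[ℂ] ℂ := w2Q R u with hQR
    have huu : (inner ℂ u u : ℂ) = 1 := by
      rw [inner_self_eq_norm_sq_to_K, hun]
      norm_num
    have hQL1 : QL 1 = 1 := by
      show (inner ℂ u (L 1 u) : ℂ) = 1
      rw [hb.L_one, huu]
    have hQR1 : QR 1 = 1 := by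
      show (inner ℂ u (R 1 u) : ℂ) = 1
      rw [hb.R_one, huu]
    have keyL : ∀ x ∈ F1, ‖(inner ℂ u (L x u) : ℂ) - τ x‖ ≤ δ1 := by
      intro x hx
      have h1 := w2_avg hc hc1 QL (x := x) (e := 2 * ‖x‖ * (δ / ε)) (s := Real.sqrt e' / ε)
        (t := τ x) hQL1 (fun i => w2_conj_L hb (hv i) hun (huc _ (hvm' i))) (by
          show ‖(inner ℂ u (L _ u) : ℂ)‖ ≤ _
          refine (norm_inner_le_norm _ _).trans ?_
          rw [hun, one_mul]
          refine (huL _).trans ?_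
          exact div_le_div_of_nonneg_right (Real.sqrt_le_sqrt (havg ⟨x, hx⟩)) hε.le)
      have h2 := hδ2' x hx
      have h3 : ‖(inner ℂ u (L x u) : ℂ) - τ x‖ ≤ 2 * ‖x‖ * (δ / ε) + Real.sqrt e' / ε := h1
      rw [hsq] at h3
      linarith
    have keyR : ∀ x ∈ F1, ‖(inner ℂ u (R x u) : ℂ) - τ x‖ ≤ δ1 := by
      intro x hx
      have h1 := w2_avg hc hc1 QR (x := x) (e := 2 * ‖x‖ * (δ / ε)) (s := Real.sqrt e' / ε)
        (t := τ x) hQR1 (fun i => w2_conj_R hb (hv i) hun (huc _ (hvm i))) (by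
          show ‖(inner ℂ u (R _ u) : ℂ)‖ ≤ _
          refine (norm_inner_le_norm _ _).trans ?_
          rw [hun, one_mul]
          refine (huR _).trans ?_
          exact div_le_div_of_nonneg_right (Real.sqrt_le_sqrt (havg ⟨x, hx⟩)) hε.le)
      have h2 := hδ2' x hx
      have h3 : ‖(inner ℂ u (R x u) : ℂ) - τ x‖ ≤ 2 * ‖x‖ * (δ / ε) + Real.sqrt e' / ε := h1
      rw [hsq] at h3
      linarith
    -- transport to `H₀`
    set u₀ : H₀ := r • v₀ with hu₀
    have hJu : J₀ u₀ = u := by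
      rw [hu₀, map_smul, hv₀]
    refine hF1 H₀ L₀ R₀ hb₀ hno u₀ ⟨?_, ?_⟩
    · rw [← J₀.norm_map, hJu, hun]
    · intro x hx
      refine ⟨?_, ?_, ?_⟩
      · rw [← J₀.norm_map, map_sub, hJL, hJR, hJu]
        exact (huc x (Finset.mem_union_left _ hx)).trans hδ1'
      · rw [← J₀.inner_map_map, hJL, hJu]
        exact keyL x hx
      · rw [← J₀.inner_map_map, hJR, hJu]
        exact keyR x hx
  · intro x
    refine le_trans ?_ (hξ.1 x)
    rw [hη, ← hPL]
    exact pow_le_pow_left₀ (norm_nonneg _) (hPn _) 2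
  · intro x
    refine le_trans ?_ (hξ.2 x)
    rw [hη, ← hPR]
    exact pow_le_pow_left₀ (norm_nonneg _) (hPn _) 2
  · intro x
    have : L x η - R x η = K.starProjection (L x ξ - R x ξ) := by
      rw [map_sub, hPL, hPR]
    rw [this]
    exact hPn _

end Helper61.HT
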