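import Pool.Agent.Helper61.HT.All
import Pool.Agent.Helper61.HT.PNC
import Pool.Agent.Helper61.HT.PDS
import Pool.Agent.Helper61.HT.PW1
import Pool.Agent.Helper61.HT.PTC
import Pool.Agent.Helper61.HT.PW2
import Pool.Agent.Helper61.HT.PTru
import Pool.Agent.Helper61.HT.PAP
import Pool.Agent.Helper61.HT.PSY
import Pool.Agent.Helper61.HT.PFM
import Pool.Agent.Helper61.HT.PIS
import Pool.Agent.Helper61.HT.PID
import Pool.Agent.Helper61.HT.PIL
import Pool.Agent.Helper61.HT.PIC
import Pool.Agent.Helper61.HT.PBC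
import Pool.Agent.Helper61.HT.PSA
import Pool.Agent.Helper61.HT.PEQ1
import Pool.Agent.Helper61.HT.PEQ
import Pool.Agent.Helper61.HT.PNS
import Pool.Agent.Helper61.HT.PSB

/-!
# Project HT, part G: all parts together
-/

namespace Helper61.HT

open scoped ComplexOrder
open Filter Topology

theorem gW1 : StW1 := pW1 pDS
theorem gW2 : StW2 := pW2 gW1 pNC
theorem gAP : StAP := pAP pTC pTru
theorem gSY : StSY := pSY (pPS pSupp)
theorem gEQ : StEQ := pEQ pEQ1
theorem gFM : StFM := pFM pTC gW2 gAP gSY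
theorem gSA : StSA := pSA pNC gW1 gFM pIS pID (pIL pKS) pIC pBC
theorem gNS : StNS := pNS pTC gEQ
theorem gSB : StSB := pSB gW1 gEQ pBC gNS

/-- A II₁ factor with property (T) of Connes and Jones. -/
theorem gUnif {B : Type} [CStarAlgebra B] [PartialOrder B] [StarOrderedRing B] (τ : B →ₗ[ℂ] ℂ)
    (hB : II1 τ) (hT : PropTcj τ) : Unif τ :=
  aUnifB B τ hB.trc hB.cpl (gSA B τ hB hT (gSB B τ hB hT))

end Helper61.HT
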