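import Pool.Agent.Helper61.HT.StE
import Pool.Agent.Helper61.HT.Lim

/-!
# Project HT (helper29): conditional expectation onto the relative commutant of matrix units

`Ph E y = (1/L) ∑ E_ab y E_ba`; the relative commutant of `L × L` matrix units in a `II_1` factor is
(isomorphic to) a `II_1` factor.
-/

set_option autoImplicit false
set_option linter.unusedSectionVars false

namespace Helper61.HT

open scoped ComplexOrder
open Filter Topology

section

variable {N : Type} [CStarAlgebra N] {τ : N →ₗ[ℂ] ℂ}

/-- The conditional expectation onto the relative commutant. -/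
noncomputable def Ph {L : ℕ} (E : Fin L → Fin L → N) (y : N) : N :=
  (1 / L : ℝ) • ∑ a, ∑ b, E a b * y * E b a

variable {L : ℕ} {E : Fin L → Fin L → N}

lemma Ph_add (E : Fin L → Fin L → N) (x y : N) : Ph E (x + y) = Ph E x + Ph E y := by
  unfold Ph
  rw [← smul_add, ← Finset.sum_add_distrib]
  congr 1
  refine Finset.sum_congr rfl fun a _ => ?_
  rw [← Finset.sum_add_distrib]
  refine Finset.sum_congr rfl fun b _ => ?_
  rw [mul_add, add_mul]

lemma Ph_smul (E : Fin L → Fin L → N) (c : ℂ) (y : N) : Ph E (c • y) = c • Ph E y := by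
  have h : ∑ a, ∑ b, E a b * (c • y) * E b a = c • ∑ a, ∑ b, E a b * y * E b a := by
    simp only [Finset.smul_sum, mul_smul_comm, smul_mul_assoc]
  unfold Ph
  rw [h, smul_comm]

lemma Ph_neg (E : Fin L → Fin L → N) (y : N) : Ph E (-y) = -Ph E y := by
  have := Ph_smul E (-1 : ℂ) y
  rwa [neg_one_smul ℂ, neg_one_smul ℂ] at this

lemma Ph_sub (E : Fin L → Fin L → N) (x y : N) : Ph E (x - y) = Ph E x - Ph E y := by
  rw [sub_eq_add_neg, Ph_add, Ph_neg, sub_eq_add_neg]

lemma MU.mul_same (hE : MU E) (i j l : Fin L) : E i j * E j l = E i l := by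
  rw [hE.mul, if_pos rfl]

lemma MU.mul_ne (hE : MU E) {i j k l : Fin L} (h : j ≠ k) : E i j * E k l = 0 := by
  rw [hE.mul, if_neg h]

/-- `Ph` maps into the relative commutant. -/
lemma Ph_comm (hE : MU E) (y : N) (c d : Fin L) : Ph E y * E c d = E c d * Ph E y := by
  unfold Ph
  rw [smul_mul_assoc, mul_smul_comm]
  congr 1
  have h1 : (∑ a, ∑ b, E a b * y * E b a) * E c d = ∑ b, E c b * y * E b d := by
    rw [Finset.sum_mul, Finset.sum_eq_single c]
    · rw [Finset.sum_mul]
      refine Finset.sum_congr rfl fun b _ => ?_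
      rw [mul_assoc, hE.mul_same]
    · intro a _ hac
      rw [Finset.sum_mul]
      refine Finset.sum_eq_zero fun b _ => ?_
      rw [mul_assoc, hE.mul_ne hac, mul_zero]
    · intro h; exact absurd (Finset.mem_univ _) h
  have h2 : E c d * (∑ a, ∑ b, E a b * y * E b a) = ∑ b, E c b * y * E b d := by
    rw [Finset.mul_sum, Finset.sum_eq_single d]
    · rw [Finset.mul_sum]
      refine Finset.sum_congr rfl fun b _ => ?_
      rw [← mul_assoc, ← mul_assoc, hE.mul_same]
    · intro a _ hac
      rw [Finset.mul_sum]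
      refine Finset.sum_eq_zero fun b _ => ?_
      rw [← mul_assoc, ← mul_assoc, hE.mul_ne (Ne.symm hac), zero_mul, zero_mul]
    · intro h; exact absurd (Finset.mem_univ _) h
  rw [h1, h2]

/-- `Ph` is the identity on the relative commutant. -/
lemma Ph_of_comm (hE : MU E) (hL : 0 < L) {y : N} (h : ∀ a b, y * E a b = E a b * y) :
    Ph E y = y := by
  unfold Ph
  have h1 : ∑ a, ∑ b, E a b * y * E b a = (L : ℝ) • y := by
    have h2 : ∀ a b, E a b * y * E b a = y * E a a := by
      intro a b
      rw [← h, mul_assoc, hE.mul_same]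
    simp only [h2]
    have h3 : ∀ a : Fin L, ∑ _b : Fin L, y * E a a = (L : ℝ) • (y * E a a) := by
      intro a
      rw [Finset.sum_const, Finset.card_univ, Fintype.card_fin, ← Nat.cast_smul_eq_nsmul ℝ]
    simp only [h3]
    rw [← Finset.smul_sum, ← Finset.mul_sum, hE.sum, mul_one]
  rw [h1, smul_smul, one_div, inv_mul_cancel₀ (by positivity), one_smul]

lemma Ph_one (hE : MU E) (hL : 0 < L) : Ph E (1 : N) = 1 :=
  Ph_of_comm hE hL fun a b => by rw [one_mul, mul_one]

/-- `τ (x Ph y) = τ (x y)` for `x` in the relative commutant. -/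
lemma tau_mul_Ph (hτ : Trc τ) (hE : MU E) (hL : 0 < L) {x : N}
    (h : ∀ a b, x * E a b = E a b * x) (y : N) : τ (x * Ph E y) = τ (x * y) := by
  unfold Ph
  rw [mul_smul_comm, map_smul_real, Finset.mul_sum, map_sum]
  have h1 : ∀ a, τ (x * ∑ b, E a b * y * E b a) = τ (x * y) := by
    intro a
    rw [Finset.mul_sum, map_sum]
    have h2 : ∀ b, τ (x * (E a b * y * E b a)) = τ (x * (E b b * y)) := by
      intro b
      calc τ (x * (E a b * y * E b a)) = τ ((x * E a b * y) * E b a) := by
            congr 1; noncomm_ring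
        _ = τ (E b a * (x * E a b * y)) := hτ.tr _ _
        _ = τ ((E b a * x) * E a b * y) := by congr 1; noncomm_ring
        _ = τ (x * (E b a * E a b) * y) := by rw [← h]; congr 1; noncomm_ring
        _ = τ (x * (E b b * y)) := by rw [hE.mul_same]; congr 1; noncomm_ring
    simp only [h2]
    rw [← map_sum, ← Finset.mul_sum, ← Finset.sum_mul, hE.sum, one_mul]
  simp only [h1]
  rw [Finset.sum_const, Finset.card_univ, Fintype.card_fin, nsmul_eq_mul]
  have : (L : ℂ) ≠ 0 := by exact_mod_cast hL.ne'
  push_cast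
  rw [← mul_assoc, one_div, inv_mul_cancel₀ this, one_mul]

lemma tau_Ph (hτ : Trc τ) (hE : MU E) (hL : 0 < L) (y : N) : τ (Ph E y) = τ y := by
  have := tau_mul_Ph hτ hE hL (x := 1) (fun a b => by rw [one_mul, mul_one]) y
  rwa [one_mul, one_mul] at this

lemma star_comm_of (hE : MU E) {x : N} (h : ∀ a b, x * E a b = E a b * x) (a b : Fin L) :
    star x * E a b = E a b * star x := by
  have h1 := congrArg star (h b a)
  rw [star_mul, star_mul, hE.st] at h1
  exact h1.symm

/-- Pythagoras. -/
lemma hs_Ph (hτ : Trc τ) (hE : MU E) (hL : 0 < L) (y : N) :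
    hs τ y = hs τ (Ph E y) + hs τ (y - Ph E y) := by
  have h1 := hs_add hτ (Ph E y) (y - Ph E y)
  have h2 : Ph E y + (y - Ph E y) = y := by abel
  have h3 : rt τ (star (Ph E y) * (y - Ph E y)) = 0 := by
    have h4 := tau_mul_Ph hτ hE hL (star_comm_of hE (Ph_comm hE y)) y
    unfold rt
    rw [mul_sub, map_sub, h4, sub_self]
    rfl
  rw [h2, h3, mul_zero, add_zero] at h1
  exact h1

lemma hs_Ph_le (hτ : Trc τ) (hE : MU E) (hL : 0 < L) (y : N) : hs τ (Ph E y) ≤ hs τ y := by
  have h1 := hs_Ph hτ hE hL y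
  have h2 := hs_nonneg hτ (y - Ph E y)
  linarith

/-- Product of commuting systems of matrix units. -/
def prodMU {L L' : ℕ} (E : Fin L → Fin L → N) (F : Fin L' → Fin L' → N) :
    Fin (L * L') → Fin (L * L') → N := fun i j =>
  E (finProdFinEquiv.symm i).1 (finProdFinEquiv.symm j).1 *
    F (finProdFinEquiv.symm i).2 (finProdFinEquiv.symm j).2

lemma MU.prod {L L' : ℕ} {E : Fin L → Fin L → N} {F : Fin L' → Fin L' → N} (hE : MU E)
    (hF : MU F) (hc : ∀ a b c d, F c d * E a b = E a b * F c d) : MU (prodMU E F) := by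
  constructor
  · intro i j
    unfold prodMU
    rw [star_mul, hE.st, hF.st, hc]
  · intro i j k l
    unfold prodMU
    have h1 : E (finProdFinEquiv.symm i).1 (finProdFinEquiv.symm j).1 *
        F (finProdFinEquiv.symm i).2 (finProdFinEquiv.symm j).2 *
        (E (finProdFinEquiv.symm k).1 (finProdFinEquiv.symm l).1 *
        F (finProdFinEquiv.symm k).2 (finProdFinEquiv.symm l).2) =
        (E (finProdFinEquiv.symm i).1 (finProdFinEquiv.symm j).1 *
        E (finProdFinEquiv.symm k).1 (finProdFinEquiv.symm l).1) *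
        (F (finProdFinEquiv.symm i).2 (finProdFinEquiv.symm j).2 *
        F (finProdFinEquiv.symm k).2 (finProdFinEquiv.symm l).2) := by
      rw [mul_assoc, ← mul_assoc (F _ _) (E _ _) (F _ _), hc]
      noncomm_ring
    rw [h1, hE.mul, hF.mul]
    by_cases hjk : j = k
    · subst hjk
      rw [if_pos rfl, if_pos rfl, if_pos rfl]
    · rw [if_neg hjk]
      by_cases h2 : (finProdFinEquiv.symm j).1 = (finProdFinEquiv.symm k).1
      · by_cases h3 : (finProdFinEquiv.symm j).2 = (finProdFinEquiv.symm k).2
        · exact absurd (finProdFinEquiv.symm.injective (Prod.ext h2 h3)) hjk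
        · rw [if_neg h3, mul_zero]
      · rw [if_neg h2, zero_mul]
  · unfold prodMU
    rw [Fintype.sum_equiv finProdFinEquiv.symm (fun i => E (finProdFinEquiv.symm i).1
      (finProdFinEquiv.symm i).1 * F (finProdFinEquiv.symm i).2 (finProdFinEquiv.symm i).2)
      (fun p : Fin L × Fin L' => E p.1 p.1 * F p.2 p.2) (fun i => rfl), Fintype.sum_prod_type]
    simp only [← Finset.mul_sum, hF.sum, mul_one, hE.sum]

lemma Ph_prod {L L' : ℕ} {E : Fin L → Fin L → N} {F : Fin L' → Fin L' → N}
    (hc : ∀ a b c d, F c d * E a b = E a b * F c d) (y : N) :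
    Ph (prodMU E F) y = Ph F (Ph E y) := by
  unfold Ph prodMU
  rw [Fintype.sum_equiv finProdFinEquiv.symm (fun i => ∑ j, E (finProdFinEquiv.symm i).1
      (finProdFinEquiv.symm j).1 * F (finProdFinEquiv.symm i).2 (finProdFinEquiv.symm j).2 * y *
      (E (finProdFinEquiv.symm j).1 (finProdFinEquiv.symm i).1 *
        F (finProdFinEquiv.symm j).2 (finProdFinEquiv.symm i).2))
      (fun p : Fin L × Fin L' => ∑ q : Fin L × Fin L', E p.1 q.1 * F p.2 q.2 * y *
        (E q.1 p.1 * F q.2 p.2)) (fun i => by
        rw [Fintype.sum_equiv finProdFinEquiv.symm _ (fun q : Fin L × Fin L' =>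
          E (finProdFinEquiv.symm i).1 q.1 * F (finProdFinEquiv.symm i).2 q.2 * y *
          (E q.1 (finProdFinEquiv.symm i).1 * F q.2 (finProdFinEquiv.symm i).2))
          (fun j => rfl)])]
  have h1 : ∀ (c d : Fin L'), F c d * ((1 / L : ℝ) • ∑ a, ∑ b, E a b * y * E b a) * F d c =
      (1 / L : ℝ) • ∑ a, ∑ b, E a b * F c d * y * (E b a * F d c) := by
    intro c d
    rw [mul_smul_comm, smul_mul_assoc, Finset.mul_sum, Finset.sum_mul]
    congr 1
    refine Finset.sum_congr rfl fun a _ => ?_
    rw [Finset.mul_sum, Finset.sum_mul]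
    refine Finset.sum_congr rfl fun b _ => ?_
    rw [← hc]
    noncomm_ring
  simp only [h1]
  simp only [← Finset.smul_sum]
  rw [smul_smul, Fintype.sum_prod_type]
  have h2 : ((1 / (L' : ℝ)) * (1 / (L : ℝ))) = 1 / ((L * L' : ℕ) : ℝ) := by
    push_cast
    rw [one_div_mul_one_div, mul_comm (L' : ℝ)]
  rw [h2]
  congr 1
  have h3 : ∀ (a : Fin L) (c : Fin L'), ∑ q : Fin L × Fin L', E a q.1 * F c q.2 * y *
      (E q.1 a * F q.2 c) = ∑ d, ∑ b, E a b * F c d * y * (E b a * F d c) := by
    intro a c
    rw [Fintype.sum_prod_type, Finset.sum_comm]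
  simp only [h3]
  rw [Finset.sum_comm]
  refine Finset.sum_congr rfl fun c _ => ?_
  rw [Finset.sum_comm]

end

section

variable {N : Type} [CStarAlgebra N] {τ : N →ₗ[ℂ] ℂ}

/-- The relative commutant as a star subalgebra. -/
noncomputable def cmtS {L : ℕ} (E : Fin L → Fin L → N) (hE : MU E) : StarSubalgebra ℂ N where
  carrier := {x | ∀ a b, x * E a b = E a b * x}
  mul_mem' := by
    intro x y hx hy a b
    change x * y * E a b = E a b * (x * y)
    rw [mul_assoc, hy a b, ← mul_assoc, hx a b, mul_assoc]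
  one_mem' := fun a b => by rw [one_mul, mul_one]
  add_mem' := by
    intro x y hx hy a b
    change (x + y) * E a b = E a b * (x + y)
    rw [add_mul, mul_add, hx a b, hy a b]
  zero_mem' := fun a b => by rw [zero_mul, mul_zero]
  algebraMap_mem' := fun r a b => by
    exact Algebra.commutes r (E a b)
  star_mem' := by
    intro x hx a b
    exact star_comm_of hE hx a b

lemma isClosed_cmtS {L : ℕ} (E : Fin L → Fin L → N) (hE : MU E) :
    IsClosed (cmtS E hE : Set N) := by
  have h1 : (cmtS E hE : Set N) = ⋂ a, ⋂ b, {x | x * E a b = E a b * x} := by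
    ext x
    simp only [Set.mem_iInter]
    rfl
  rw [h1]
  exact isClosed_iInter fun a => isClosed_iInter fun b =>
    isClosed_eq (continuous_id.mul continuous_const) (continuous_const.mul continuous_id)

/-- The relative commutant of matrix units in a `II_1` factor is a `II_1` factor. -/
theorem exists_cmt [PartialOrder N] [StarOrderedRing N] (hN : II1 τ) {L : ℕ}
    (E : Fin L → Fin L → N) (hE : MU E) :
    ∃ (N₁ : Type) (_ : CStarAlgebra N₁) (_ : PartialOrder N₁) (_ : StarOrderedRing N₁)
      (τ₁ : N₁ →ₗ[ℂ] ℂ) (i : N₁ →⋆ₐ[ℂ] N), II1 τ₁ ∧ (∀ x, τ (i x) = τ₁ x) ∧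
      (∀ x a b, i x * E a b = E a b * i x) ∧
      ∀ y, (∀ a b, y * E a b = E a b * y) → ∃ x, i x = y := by
  have hcl : IsClosed (cmtS E hE : Set N) := isClosed_cmtS E hE
  let N₁ := cmtS E hE
  let i : N₁ →⋆ₐ[ℂ] N := (cmtS E hE).subtype
  have hi : ∀ x : N₁, i x = x.1 := fun x => rfl
  have hmem : ∀ (x : N₁) a b, i x * E a b = E a b * i x := fun x => x.2
  have hsurj : ∀ y, (∀ a b, y * E a b = E a b * y) → ∃ x, i x = y := fun y hy => ⟨⟨y, hy⟩, rfl⟩
  have hinj : Function.Injective i := Subtype.val_injective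
  let τ₁ : N₁ →ₗ[ℂ] ℂ := τ ∘ₗ (i : N₁ →ₐ[ℂ] N).toLinearMap
  have hτ₁ : ∀ x, τ (i x) = τ₁ x := fun x => rfl
  let _ : PartialOrder N₁ := CStarAlgebra.spectralOrder N₁
  have _ : StarOrderedRing N₁ := CStarAlgebra.spectralOrderedRing N₁
  have hhs : ∀ x : N₁, hs τ₁ x = hs τ (i x) := by
    intro x
    unfold hs
    rw [← hτ₁, map_mul, map_star]
  have hnorm : ∀ x : N₁, ‖i x‖ = ‖x‖ := fun x => rfl
  refine ⟨N₁, inferInstance, inferInstance, inferInstance, τ₁, i, ?_, hτ₁, hmem, hsurj⟩
  have htrc : Trc τ₁ := by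
    constructor
    · rw [← hτ₁, map_one, hN.trc.one]
    · intro x y
      rw [← hτ₁, ← hτ₁, map_mul i, map_mul i, hN.trc.tr]
    · intro x
      rw [← hτ₁, map_mul, map_star]
      exact hN.trc.nonneg _
    · intro x hx
      rw [← hτ₁, map_mul, map_star] at hx
      exact hinj (by rw [hN.trc.faith _ hx, map_zero])
  refine ⟨htrc, ?_, ?_, ?_⟩
  · intro x hx hc
    obtain ⟨y, hy, hlim⟩ := hN.cpl (fun n => i (x n)) (fun n => by rw [hnorm]; exact hx n)
      (fun ε hε => by
        obtain ⟨n₀, hn⟩ := hc ε hε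
        refine ⟨n₀, fun m hm n hn' => ?_⟩
        have := hn m hm n hn'
        rwa [hhs, map_sub] at this)
    have hyc : ∀ a b, y * E a b = E a b * y := by
      intro a b
      have h1 : T2 τ (fun n => i (x n) * E a b) (y * E a b) := T2.mul_right hN.trc _ hlim
      have h2 : T2 τ (fun n => E a b * i (x n)) (E a b * y) := T2.mul_left hN.trc _ hlim
      have h3 : (fun n => i (x n) * E a b) = fun n => E a b * i (x n) := by
        funext n; exact hmem _ a b
      rw [h3] at h1
      exact T2.unique hN.trc h1 h2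
    obtain ⟨z, hz⟩ := hsurj y hyc
    refine ⟨z, by rw [← hnorm, hz]; exact hy, ?_⟩
    have h4 : (fun n => hs τ₁ (x n - z)) = fun n => hs τ (i (x n) - y) := by
      funext n
      rw [hhs, map_sub, hz]
    rw [h4]
    exact hlim
  · intro z hz
    have hcen : ∀ y : N, i z * y = y * i z := by
      intro y
      -- decompose `y`
      have hdec : y = ∑ a, ∑ b, (∑ c, E c a * y * E b c) * E a b := by
        have h1 : ∀ a b, (∑ c, E c a * y * E b c) * E a b = E a a * y * E b b := by
          intro a b
          rw [Finset.sum_mul, Finset.sum_eq_single a]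
          · rw [mul_assoc, hE.mul_same]
          · intro c _ hca
            rw [mul_assoc, hE.mul_ne hca, mul_zero]
          · intro h; exact absurd (Finset.mem_univ _) h
        simp only [h1]
        have h2 : ∀ a, ∑ b, E a a * y * E b b = E a a * y := by
          intro a
          rw [← Finset.mul_sum, hE.sum, mul_one]
        simp only [h2]
        rw [← Finset.sum_mul, hE.sum, one_mul]
      have hcoef : ∀ a b, ∀ c d, (∑ e, E e a * y * E b e) * E c d =
          E c d * (∑ e, E e a * y * E b e) := by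
        intro a b c d
        rw [Finset.sum_mul, Finset.mul_sum, Finset.sum_eq_single c, Finset.sum_eq_single d]
        · rw [mul_assoc, hE.mul_same, ← mul_assoc, ← mul_assoc, hE.mul_same]
        · intro e _ he
          rw [← mul_assoc, ← mul_assoc, hE.mul_ne (Ne.symm he), zero_mul, zero_mul]
        · intro h; exact absurd (Finset.mem_univ _) h
        · intro e _ he
          rw [mul_assoc, hE.mul_ne he, mul_zero]
        · intro h; exact absurd (Finset.mem_univ _) h
      rw [hdec, Finset.mul_sum, Finset.sum_mul]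
      refine Finset.sum_congr rfl fun a _ => ?_
      rw [Finset.mul_sum, Finset.sum_mul]
      refine Finset.sum_congr rfl fun b _ => ?_
      obtain ⟨w, hw⟩ := hsurj _ (hcoef a b)
      have h3 : i z * i w = i w * i z := by rw [← map_mul, ← map_mul, hz w]
      rw [← hw, ← mul_assoc, h3, mul_assoc, hmem z a b, mul_assoc]
    obtain ⟨c, hc⟩ := hN.factor _ hcen
    refine ⟨c, hinj ?_⟩
    rw [hc, map_smul, map_one]
  · intro hfin
    apply hN.inf
    -- `N` is the image of a finite dimensional space
    let Φ : (Fin L × Fin L → N₁) →ₗ[ℂ] N :=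
      { toFun := fun f => ∑ p, i (f p) * E p.1 p.2
        map_add' := fun f g => by
          simp only [Pi.add_apply, map_add, add_mul, Finset.sum_add_distrib]
        map_smul' := fun c f => by
          simp only [Pi.smul_apply, map_smul, smul_mul_assoc, Finset.smul_sum, RingHom.id_apply] }
    have hΦ : Function.Surjective Φ := by
      intro y
      have hcoef : ∀ a b, ∀ c d, (∑ e, E e a * y * E b e) * E c d =
          E c d * (∑ e, E e a * y * E b e) := by
        intro a b c d
        rw [Finset.sum_mul, Finset.mul_sum, Finset.sum_eq_single c, Finset.sum_eq_single d]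
        · rw [mul_assoc, hE.mul_same, ← mul_assoc, ← mul_assoc, hE.mul_same]
        · intro e _ he
          rw [← mul_assoc, ← mul_assoc, hE.mul_ne (Ne.symm he), zero_mul, zero_mul]
        · intro h; exact absurd (Finset.mem_univ _) h
        · intro e _ he
          rw [mul_assoc, hE.mul_ne he, mul_zero]
        · intro h; exact absurd (Finset.mem_univ _) h
      choose f hf using fun p : Fin L × Fin L => hsurj _ (hcoef p.1 p.2)
      refine ⟨f, ?_⟩
      change ∑ p, i (f p) * E p.1 p.2 = y
      simp only [hf]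
      rw [Fintype.sum_prod_type]
      have h1 : ∀ a b, (∑ c, E c a * y * E b c) * E a b = E a a * y * E b b := by
        intro a b
        rw [Finset.sum_mul, Finset.sum_eq_single a]
        · rw [mul_assoc, hE.mul_same]
        · intro c _ hca
          rw [mul_assoc, hE.mul_ne hca, mul_zero]
        · intro h; exact absurd (Finset.mem_univ _) h
      simp only [h1]
      have h2 : ∀ a, ∑ b, E a a * y * E b b = E a a * y := by
        intro a
        rw [← Finset.mul_sum, hE.sum, mul_one]
      simp only [h2]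
      rw [← Finset.sum_mul, hE.sum, one_mul]
    exact Module.Finite.of_surjective Φ hΦ

end

end Helper61.HT
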