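import Mathlib

/-!
# Project HT (MP_2bbb47_an): definitions

`N` is a C*-algebra with a faithful tracial state `τ`; `Cpl τ`: the unit ball is complete in the
2-norm (that is, `N` is a tracial von Neumann algebra).
-/

namespace Helper61.HT

open scoped ComplexOrder
open Filter Topology

section

variable {N : Type} [CStarAlgebra N]

/-- A faithful tracial state. -/
structure Trc (τ : N →ₗ[ℂ] ℂ) : Prop where
  one : τ 1 = 1
  tr : ∀ x y, τ (x * y) = τ (y * x)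
  nonneg : ∀ x, 0 ≤ τ (star x * x)
  faith : ∀ x, τ (star x * x) = 0 → x = 0

/-- Real part of the trace. -/
noncomputable def rt (τ : N →ₗ[ℂ] ℂ) (x : N) : ℝ := (τ x).re

/-- The square of the 2-norm. -/
noncomputable def hs (τ : N →ₗ[ℂ] ℂ) (x : N) : ℝ := (τ (star x * x)).re

/-- The unit ball is complete in the 2-norm. -/
def Cpl (τ : N →ₗ[ℂ] ℂ) : Prop := ∀ x : ℕ → N, (∀ n, ‖x n‖ ≤ 1) →
  (∀ ε : ℝ, 0 < ε → ∃ n₀, ∀ m ≥ n₀, ∀ n ≥ n₀, hs τ (x m - x n) ≤ ε) →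
  ∃ y, ‖y‖ ≤ 1 ∧ Tendsto (fun n => hs τ (x n - y)) atTop (𝓝 0)

/-- A II_1 factor: a tracial von Neumann algebra with trivial center and infinite dimension. -/
structure II1 (τ : N →ₗ[ℂ] ℂ) : Prop where
  trc : Trc τ
  cpl : Cpl τ
  factor : ∀ z : N, (∀ x, z * x = x * z) → ∃ c : ℂ, z = c • 1
  inf : ¬ FiniteDimensional ℂ N

/-- Projections. -/
def Pr (p : N) : Prop := star p = p ∧ p * p = p

/-- Unitaries. -/
def Un (v : N) : Prop := star v * v = 1 ∧ v * star v = 1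

/-- `p` is the support projection of `b`. -/
def IsSupp (b p : N) : Prop := Pr p ∧ p * b = b ∧ ∀ x, b * x = 0 → p * x = 0

variable {ι : Type}

/-- Commutator energy of `y` with the `u s`, `s ∈ F`. -/
noncomputable def En (τ : N →ₗ[ℂ] ℂ) (F : Finset ι) (u : ι → N) (y : N) : ℝ :=
  ∑ s ∈ F, hs τ (u s * y - y * u s)

/-- The lazy symmetric average of the conjugations by `u s`, `s ∈ F`. -/
noncomputable def TT (F : Finset ι) (u : ι → N) : N →ₗ[ℂ] N where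
  toFun y := (1 / 2 : ℝ) • y + (1 / (4 * F.card) : ℝ) •
    ∑ s ∈ F, (u s * y * star (u s) + star (u s) * y * u s)
  map_add' x y := by
    simp only [mul_add, add_mul, smul_add, Finset.sum_add_distrib]
    abel
  map_smul' c x := by
    simp only [mul_smul_comm, smul_mul_assoc, RingHom.id_apply, ← smul_add, ← Finset.smul_sum]
    rw [smul_comm (1 / 2 : ℝ) c, smul_comm (1 / (4 * F.card) : ℝ) c, smul_add]

/-- The resolvent `(2 - T)⁻¹ q = ∑ 2^{-l-1} T^l q`. -/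
noncomputable def RR (F : Finset ι) (u : ι → N) (q : N) : N :=
  ∑' l : ℕ, ((1 / 2 : ℝ) ^ (l + 1)) • ((TT F u ^ l) q)

/-- `GG S = (1 + S)⁻¹`. -/
noncomputable def GG (S : N) : N := Ring.inverse (1 + S)

/-- The potential `τ (H (1 - 2H)^2)`. -/
noncomputable def PotE (τ : N →ₗ[ℂ] ℂ) (H : N) : ℝ :=
  rt τ (H * (1 - (2 : ℝ) • H) * (1 - (2 : ℝ) • H))

/-- The Lyapunov function `τ ((A - B)((1+B)⁻¹ - (1+A)⁻¹))`. -/
noncomputable def Ly (τ : N →ₗ[ℂ] ℂ) (A B : N) : ℝ := rt τ ((A - B) * (GG B - GG A))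

/-- The sum of the regularized projections, started at `Q`. -/
noncomputable def SS (F : Finset ι) (u : ι → N) (Q : N) (q : ℕ → N) (i : ℕ) : N :=
  Q + ∑ j ∈ Finset.range i, RR F u (q j)

/-- `G_i = (1 + S_i)⁻¹`. -/
noncomputable def Gi (F : Finset ι) (u : ι → N) (Q : N) (q : ℕ → N) (i : ℕ) : N :=
  GG (SS F u Q q i)

/-- `H_i = 1 - G_i`. -/
noncomputable def Hi (F : Finset ι) (u : ι → N) (Q : N) (q : ℕ → N) (i : ℕ) : N :=
  1 - Gi F u Q q i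

/-! ## maps -/

/-- `Cj c ψ : x ↦ c ψ(c* x c) c*` (the map of the vector `c ξ c*`). -/
noncomputable def Cj (c : N) (ψ : N →ₗ[ℂ] N) : N →ₗ[ℂ] N where
  toFun x := c * ψ (star c * x * c) * star c
  map_add' x y := by simp only [mul_add, add_mul, map_add]
  map_smul' r x := by
    simp only [mul_smul_comm, smul_mul_assoc, map_smul, RingHom.id_apply]

/-- `Mp y : x ↦ y x y*` (the map of the vector `y` of `L²(N)`). -/
noncomputable def Mp (y : N) : N →ₗ[ℂ] N where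
  toFun x := y * x * star y
  map_add' x z := by simp only [mul_add, add_mul]
  map_smul' r x := by simp only [mul_smul_comm, smul_mul_assoc, RingHom.id_apply]

/-- Average on the left of a map. -/
noncomputable def LA (F : Finset ι) (u : ι → N) (ψ : N →ₗ[ℂ] N) : N →ₗ[ℂ] N where
  toFun x := (1 / 2 : ℝ) • ψ x + (1 / (4 * F.card) : ℝ) •
    ∑ s ∈ F, (u s * ψ (star (u s) * x) + star (u s) * ψ (u s * x))
  map_add' x y := by
    simp only [mul_add, map_add, smul_add, Finset.sum_add_distrib]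
    abel
  map_smul' c x := by
    simp only [mul_smul_comm, map_smul, RingHom.id_apply, ← smul_add, ← Finset.smul_sum]
    rw [smul_comm (1 / 2 : ℝ) c, smul_comm (1 / (4 * F.card) : ℝ) c, smul_add]

/-- Average on the right of a map. -/
noncomputable def RA (F : Finset ι) (u : ι → N) (ψ : N →ₗ[ℂ] N) : N →ₗ[ℂ] N where
  toFun x := (1 / 2 : ℝ) • ψ x + (1 / (4 * F.card) : ℝ) •
    ∑ s ∈ F, (ψ (x * u s) * star (u s) + ψ (x * star (u s)) * u s)
  map_add' x y := by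
    simp only [add_mul, map_add, smul_add, Finset.sum_add_distrib]
    abel
  map_smul' c x := by
    simp only [smul_mul_assoc, map_smul, RingHom.id_apply, ← smul_add, ← Finset.smul_sum]
    rw [smul_comm (1 / 2 : ℝ) c, smul_comm (1 / (4 * F.card) : ℝ) c, smul_add]

/-- The map of the vector `T ξ` if `ψ` is the map of the vector `ξ`. -/
noncomputable def TM (F : Finset ι) (u : ι → N) (ψ : N →ₗ[ℂ] N) : N →ₗ[ℂ] N := LA F u (RA F u ψ)

/-- Commutator energy of the vector `ξ` with map `ψ`: `∑_s ‖u_s ξ u_s* - ξ‖²`. -/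
noncomputable def EnM (τ : N →ₗ[ℂ] ℂ) (F : Finset ι) (u : ι → N) (ψ : N →ₗ[ℂ] N) : ℝ :=
  ∑ s ∈ F, 2 * (rt τ (ψ 1) - rt τ (star (u s) * ψ (u s)))

/-- `‖ξ‖² - ‖T^k ξ‖²`. -/
noncomputable def gap (τ : N →ₗ[ℂ] ℂ) (F : Finset ι) (u : ι → N) (k : ℕ) (ψ : N →ₗ[ℂ] N) : ℝ :=
  rt τ (ψ 1) - rt τ (((TM F u)^[k] ψ) 1)

/-! ## finite rank forms -/

variable {J : Type} [Fintype J]

/-- The form of `D_v = ∑_j |v_j⟩⟨v_j|`. -/
noncomputable def dfm (τ : N →ₗ[ℂ] ℂ) (v : J → N) (x : N) : ℝ := ∑ j, ‖τ (star (v j) * x)‖ ^ 2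

/-- The square of the Hilbert-Schmidt norm of `D_v`. -/
noncomputable def hsf (τ : N →ₗ[ℂ] ℂ) (v : J → N) : ℝ := ∑ i, ∑ j, ‖τ (star (v i) * v j)‖ ^ 2

/-- `ψ ≤ a + D_v` on `L²`, and `D_v ≤ 2`. -/
def Bd (τ : N →ₗ[ℂ] ℂ) (a : ℝ) (ψ : N →ₗ[ℂ] N) (v : J → N) : Prop :=
  (∀ x, rt τ (star x * ψ x) ≤ a * hs τ x + dfm τ v x) ∧ ∀ x, dfm τ v x ≤ 2 * hs τ x

/-- The sesquilinear form of `D_v`. -/
noncomputable def ker (τ : N →ₗ[ℂ] ℂ) (v : J → N) (x y : N) : ℂ :=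
  ∑ j, τ (star x * v j) * τ (star (v j) * y)

/-- The average of the conjugations by the left multiplications `L_{u s}` on forms. -/
noncomputable def TLf (F : Finset ι) (u : ι → N) (B : N → N → ℂ) (x y : N) : ℂ :=
  (1 / 2 : ℂ) * B x y + (1 / (4 * F.card) : ℂ) *
    ∑ s ∈ F, (B (star (u s) * x) (star (u s) * y) + B (u s * x) (u s * y))

/-- The square of the Hilbert-Schmidt norm of `T_L^k D_v`. -/
noncomputable def avh (τ : N →ₗ[ℂ] ℂ) (F : Finset ι) (u : ι → N) (k : ℕ) (v : J → N) : ℝ :=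
  ∑ j, ((TLf F u)^[2 * k] (ker τ v) (v j) (v j)).re

end

section order

variable {N : Type} [CStarAlgebra N] [PartialOrder N] {ι : Type}

/-- Symmetric, `L²`-positive, completely positive, subunital maps. -/
structure SCP (τ : N →ₗ[ℂ] ℂ) (ψ : N →ₗ[ℂ] N) : Prop where
  map_star : ∀ x, ψ (star x) = star (ψ x)
  nonneg : ∀ x, 0 ≤ x → 0 ≤ ψ x
  cp : ∀ (m : ℕ) (x y : Fin m → N),
    0 ≤ (∑ i, ∑ j, τ (star (x i) * x j * ψ (y j * star (y i)))).re
  symm : ∀ x y, τ (ψ x * y) = τ (x * ψ y)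
  pos : ∀ x, 0 ≤ rt τ (star x * ψ x)
  one : ψ 1 ≤ 1

/-- Spectral gap at scale `k` for all bimodule vectors (maps). -/
def GapF (τ : N →ₗ[ℂ] ℂ) (F : Finset ι) (u : ι → N) (S : Finset ι) (k : ℕ) (K δ : ℝ) : Prop :=
  ∀ ψ : N →ₗ[ℂ] N, SCP τ ψ → gap τ F u k ψ ≤ K * EnM τ S u ψ + δ

/-- The class of almost invariant objects `(q, ψ)`. -/
structure Obj (τ : N →ₗ[ℂ] ℂ) (F : Finset ι) (u : ι → N) (ε : ℝ) (q : N) (ψ : N →ₗ[ℂ] N) :
    Prop where
  pr : Pr q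
  ne : q ≠ 0
  scp : SCP τ ψ
  cut : ∀ x, ψ x = q * ψ (q * x * q) * q
  one : ψ 1 ≤ q
  enq : En τ F u q ≤ ε * rt τ q
  enm : EnM τ F u ψ ≤ ε * rt τ q

/-- `Γ(q, ψ) = τ(q) - 1000 (τ(q) - τ(ψ(1))) - Λ τ(q H)`. -/
noncomputable def Gam (τ : N →ₗ[ℂ] ℂ) (Λ : ℝ) (H q : N) (ψ : N →ₗ[ℂ] N) : ℝ :=
  rt τ q - 1000 * (rt τ q - rt τ (ψ 1)) - Λ * rt τ (q * H)

/-- The level `a`. -/
noncomputable def aa : ℝ := 1 / 10 ^ 44

/-- All objects have ratio at most `R`. -/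
def NearMax (τ : N →ₗ[ℂ] ℂ) (F : Finset ι) (u : ι → N) (ε Λ : ℝ) (H : N) (R : ℝ) : Prop :=
  ∀ (p : N) (φ : N →ₗ[ℂ] N), Obj τ F u ε p φ → ∀ (m : ℕ) (w : Fin m → N), Bd τ aa φ w →
    Gam τ Λ H p φ ≤ R * hsf τ w

end order

end Helper61.HT
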