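import Pool.Agent.Helper61.HT.StE
import Pool.Agent.Helper61.HT.Ip

/-!
# Linearity of `TM`, `gap`, `EnM`
-/

namespace Helper61.HT

open scoped ComplexOrder

section

variable {N : Type} [CStarAlgebra N] {τ : N →ₗ[ℂ] ℂ} {ι : Type} (F : Finset ι) (u : ι → N)

lemma LA_add (ψ φ : N →ₗ[ℂ] N) : LA F u (ψ + φ) = LA F u ψ + LA F u φ := by
  ext x
  simp only [LA, LinearMap.coe_mk, AddHom.coe_mk, LinearMap.add_apply, smul_add, mul_add,
    Finset.sum_add_distrib]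
  abel

lemma RA_add (ψ φ : N →ₗ[ℂ] N) : RA F u (ψ + φ) = RA F u ψ + RA F u φ := by
  ext x
  simp only [RA, LinearMap.coe_mk, AddHom.coe_mk, LinearMap.add_apply, smul_add, add_mul,
    Finset.sum_add_distrib]
  abel

lemma LA_smul (r : ℝ) (ψ : N →ₗ[ℂ] N) : LA F u (r • ψ) = r • LA F u ψ := by
  ext x
  simp only [LA, LinearMap.coe_mk, AddHom.coe_mk, LinearMap.smul_apply, mul_smul_comm,
    ← smul_add, ← Finset.smul_sum]
  rw [smul_comm (1 / 2 : ℝ) r, smul_comm (1 / (4 * F.card) : ℝ) r, smul_add]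

lemma RA_smul (r : ℝ) (ψ : N →ₗ[ℂ] N) : RA F u (r • ψ) = r • RA F u ψ := by
  ext x
  simp only [RA, LinearMap.coe_mk, AddHom.coe_mk, LinearMap.smul_apply, smul_mul_assoc,
    ← smul_add, ← Finset.smul_sum]
  rw [smul_comm (1 / 2 : ℝ) r, smul_comm (1 / (4 * F.card) : ℝ) r, smul_add]

lemma TM_add (ψ φ : N →ₗ[ℂ] N) : TM F u (ψ + φ) = TM F u ψ + TM F u φ := by
  rw [TM, RA_add, LA_add]; rfl

lemma TM_smul (r : ℝ) (ψ : N →ₗ[ℂ] N) : TM F u (r • ψ) = r • TM F u ψ := by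
  rw [TM, RA_smul, LA_smul]; rfl

lemma TMk_add (k : ℕ) (ψ φ : N →ₗ[ℂ] N) :
    (TM F u)^[k] (ψ + φ) = (TM F u)^[k] ψ + (TM F u)^[k] φ := by
  induction k generalizing ψ φ with
  | zero => rfl
  | succ k ih => rw [Function.iterate_succ_apply, TM_add, ih]; rfl

lemma TMk_smul (k : ℕ) (r : ℝ) (ψ : N →ₗ[ℂ] N) :
    (TM F u)^[k] (r • ψ) = r • (TM F u)^[k] ψ := by
  induction k generalizing ψ with
  | zero => rfl
  | succ k ih => rw [Function.iterate_succ_apply, TM_smul, ih]; rfl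

lemma TMk_zero (k : ℕ) : (TM F u)^[k] (0 : N →ₗ[ℂ] N) = 0 := by
  have := TMk_smul F u k 0 (0 : N →ₗ[ℂ] N)
  rwa [zero_smul, zero_smul] at this

lemma gap_add (k : ℕ) (ψ φ : N →ₗ[ℂ] N) :
    gap τ F u k (ψ + φ) = gap τ F u k ψ + gap τ F u k φ := by
  unfold gap
  rw [TMk_add, LinearMap.add_apply, LinearMap.add_apply, rt_add, rt_add]; ring

lemma gap_smul (k : ℕ) (r : ℝ) (ψ : N →ₗ[ℂ] N) : gap τ F u k (r • ψ) = r * gap τ F u k ψ := by
  unfold gap
  rw [TMk_smul, LinearMap.smul_apply, LinearMap.smul_apply, rt_smul, rt_smul]; ring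

lemma gap_zero (k : ℕ) : gap τ F u k (0 : N →ₗ[ℂ] N) = 0 := by
  have := gap_smul (τ := τ) F u k 0 (0 : N →ₗ[ℂ] N)
  rwa [zero_smul, zero_mul] at this

lemma gap_sum (k : ℕ) {κ : Type} (s : Finset κ) (θ : κ → N →ₗ[ℂ] N) :
    gap τ F u k (∑ i ∈ s, θ i) = ∑ i ∈ s, gap τ F u k (θ i) := by
  classical
  induction s using Finset.induction_on with
  | empty => simp [gap_zero]
  | insert a s ha ih => rw [Finset.sum_insert ha, Finset.sum_insert ha, gap_add, ih]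

lemma EnM_add (ψ φ : N →ₗ[ℂ] N) : EnM τ F u (ψ + φ) = EnM τ F u ψ + EnM τ F u φ := by
  unfold EnM
  rw [← Finset.sum_add_distrib]
  refine Finset.sum_congr rfl fun s _ => ?_
  rw [LinearMap.add_apply, LinearMap.add_apply, mul_add, rt_add, rt_add]; ring

lemma EnM_smul (r : ℝ) (ψ : N →ₗ[ℂ] N) : EnM τ F u (r • ψ) = r * EnM τ F u ψ := by
  unfold EnM
  rw [Finset.mul_sum]
  refine Finset.sum_congr rfl fun s _ => ?_
  rw [LinearMap.smul_apply, LinearMap.smul_apply, mul_smul_comm, rt_smul, rt_smul]; ring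

lemma EnM_zero : EnM τ F u (0 : N →ₗ[ℂ] N) = 0 := by
  have := EnM_smul (τ := τ) F u 0 (0 : N →ₗ[ℂ] N)
  rwa [zero_smul, zero_mul] at this

lemma EnM_sum {κ : Type} (s : Finset κ) (θ : κ → N →ₗ[ℂ] N) :
    EnM τ F u (∑ i ∈ s, θ i) = ∑ i ∈ s, EnM τ F u (θ i) := by
  classical
  induction s using Finset.induction_on with
  | empty => simp [EnM_zero]
  | insert a s ha ih => rw [Finset.sum_insert ha, Finset.sum_insert ha, EnM_add, ih]

/-- Every term of `EnM` is nonnegative, so `EnM` is monotone in the set. -/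
lemma EnM_mono [PartialOrder N] [StarOrderedRing N] (hτ : Trc τ) (hE : StEnM)
    (hu : ∀ s, Un (u s)) {ψ : N →ₗ[ℂ] N} (hψ : SCP τ ψ) {S : Finset ι} (hS : S ⊆ F) :
    EnM τ S u ψ ≤ EnM τ F u ψ := by
  unfold EnM
  refine Finset.sum_le_sum_of_subset_of_nonneg hS fun s _ _ => ?_
  have h := ((hE N τ ι {s} u hτ ⟨s, Finset.mem_singleton_self s⟩ hu).1 ψ hψ {s}).1
  unfold EnM at h
  rwa [Finset.sum_singleton] at h

end

end Helper61.HT
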