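import Pool.Agent.Helper61.HT.StB
import Pool.Agent.Helper61.HT.Ip

/-!
# Project HT: `StAvg` (estimates for the averaged vector)
-/

namespace Helper61.HT

open scoped ComplexOrder

section words

variable {N : Type} [CStarAlgebra N] {ι : Type}

private abbrev Ix (F : Finset ι) : Type := Option (F ⊕ F)

private noncomputable def ixc (F : Finset ι) : Ix F → ℝ
  | none => 1 / 2
  | some _ => 1 / (4 * F.card)

private noncomputable def ixw (F : Finset ι) (u : ι → N) : Ix F → N
  | none => 1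
  | some (Sum.inl s) => u s
  | some (Sum.inr s) => star (u s)

private theorem ix_sum {M : Type} [AddCommGroup M] [Module ℝ M] (F : Finset ι) (f : Ix F → M)
    (g : ι → M) (h : ι → M) (h1 : ∀ s : F, f (some (Sum.inl s)) = g s)
    (h2 : ∀ s : F, f (some (Sum.inr s)) = h s) :
    ∑ i, ixc F i • f i = (1 / 2 : ℝ) • f none + (1 / (4 * F.card) : ℝ) •
      ∑ s ∈ F, (g s + h s) := by
  rw [Fintype.sum_option, Fintype.sum_sum_type]
  simp only [ixc, h1, h2]
  rw [Finset.sum_add_distrib, smul_add, Finset.smul_sum, Finset.smul_sum,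
    Finset.sum_coe_sort F (fun s => (1 / (4 * F.card) : ℝ) • g s),
    Finset.sum_coe_sort F (fun s => (1 / (4 * F.card) : ℝ) • h s)]

private theorem TT_ix (F : Finset ι) (u : ι → N) (y : N) :
    TT F u y = ∑ i, ixc F i • (ixw F u i * y * star (ixw F u i)) := by
  rw [ix_sum F _ (fun s => u s * y * star (u s)) (fun s => star (u s) * y * u s)
    (fun s => by simp [ixw]) (fun s => by simp [ixw])]
  simp only [ixw, one_mul, star_one, mul_one]
  rfl

private theorem LA_ix (F : Finset ι) (u : ι → N) (ψ : N →ₗ[ℂ] N) (x : N) :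
    LA F u ψ x = ∑ i, ixc F i • (ixw F u i * ψ (star (ixw F u i) * x)) := by
  rw [ix_sum F _ (fun s => u s * ψ (star (u s) * x)) (fun s => star (u s) * ψ (u s * x))
    (fun s => by simp [ixw]) (fun s => by simp [ixw])]
  simp only [ixw, one_mul, star_one]
  rfl

private theorem RA_ix (F : Finset ι) (u : ι → N) (ψ : N →ₗ[ℂ] N) (x : N) :
    RA F u ψ x = ∑ i, ixc F i • (ψ (x * ixw F u i) * star (ixw F u i)) := by
  rw [ix_sum F _ (fun s => ψ (x * u s) * star (u s)) (fun s => ψ (x * star (u s)) * u s)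
    (fun s => by simp [ixw]) (fun s => by simp [ixw])]
  simp only [ixw, mul_one, star_one]
  rfl

private theorem TM_ix (F : Finset ι) (u : ι → N) (ψ : N →ₗ[ℂ] N) (x : N) :
    TM F u ψ x = ∑ i, ∑ j, (ixc F i * ixc F j) •
      (ixw F u i * ψ (star (ixw F u i) * x * ixw F u j) * star (ixw F u j)) := by
  unfold TM
  rw [LA_ix]
  refine Finset.sum_congr rfl fun i _ => ?_
  rw [RA_ix, Finset.mul_sum, Finset.smul_sum]
  refine Finset.sum_congr rfl fun j _ => ?_
  rw [mul_smul_comm, smul_smul, mul_assoc (ixw F u i)]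

private theorem ixc_sum {F : Finset ι} (hF : F.Nonempty) : ∑ i, ixc F i = 1 := by
  have h := ix_sum F (fun _ => (1 : ℝ)) (fun _ => 1) (fun _ => 1) (fun _ => rfl) (fun _ => rfl)
  simp only [smul_eq_mul, mul_one] at h
  rw [h]
  have hc : (F.card : ℝ) ≠ 0 := by
    exact_mod_cast Finset.card_ne_zero.2 hF
  rw [Finset.sum_const, nsmul_eq_mul]
  field_simp
  norm_num

private theorem ixc_nonneg (F : Finset ι) (i : Ix F) : 0 ≤ ixc F i := by
  rcases i with _ | i
  · simp only [ixc]; norm_num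
  · simp only [ixc]; positivity

private theorem words {F : Finset ι} (hF : F.Nonempty) (u : ι → N) (hu : ∀ s, Un (u s)) (k : ℕ) :
    ∃ (κ : Type) (_ : Fintype κ) (c : κ → ℝ) (w : κ → N), (∀ i, 0 ≤ c i) ∧ ∑ i, c i = 1 ∧
      (∀ i, Un (w i)) ∧ (∀ y, (TT F u ^ k) y = ∑ i, c i • (w i * y * star (w i))) ∧
      ∀ (ψ : N →ₗ[ℂ] N) (x : N), ((TM F u)^[k] ψ) x =
        ∑ i, ∑ j, (c i * c j) • (w i * ψ (star (w i) * x * w j) * star (w j)) := by
  have hw : ∀ i, Un (ixw F u i) := by
    intro i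
    rcases i with _ | (s | s)
    · exact ⟨by simp [ixw], by simp [ixw]⟩
    · exact hu s
    · exact ⟨by simpa [ixw] using (hu s).2, by simpa [ixw] using (hu s).1⟩
  induction k with
  | zero =>
    refine ⟨Unit, inferInstance, fun _ => 1, fun _ => 1, fun _ => zero_le_one, by simp,
      fun _ => ⟨by simp, by simp⟩, fun y => by simp, fun ψ x => by simp⟩
  | succ k ih =>
    obtain ⟨κ, _, c, w, hc, hc1, hwu, hT, hM⟩ := ih
    refine ⟨Ix F × κ, inferInstance, fun p => ixc F p.1 * c p.2, fun p => ixw F u p.1 * w p.2,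
      fun p => mul_nonneg (ixc_nonneg F _) (hc _), ?_, ?_, ?_, ?_⟩
    · rw [Fintype.sum_prod_type]
      simp_rw [← Finset.mul_sum, hc1, mul_one]
      exact ixc_sum hF
    · intro p
      obtain ⟨h1, h2⟩ := hw p.1
      obtain ⟨h3, h4⟩ := hwu p.2
      constructor
      · rw [star_mul]
        calc star (w p.2) * star (ixw F u p.1) * (ixw F u p.1 * w p.2) =
            star (w p.2) * (star (ixw F u p.1) * ixw F u p.1) * w p.2 := by noncomm_ring
          _ = 1 := by rw [h1, mul_one, h3]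
      · rw [star_mul]
        calc ixw F u p.1 * w p.2 * (star (w p.2) * star (ixw F u p.1)) =
            ixw F u p.1 * (w p.2 * star (w p.2)) * star (ixw F u p.1) := by noncomm_ring
          _ = 1 := by rw [h4, mul_one, h2]
    · intro y
      rw [pow_succ', Module.End.mul_apply, hT, TT_ix, Fintype.sum_prod_type]
      refine Finset.sum_congr rfl fun i _ => ?_
      rw [Finset.mul_sum, Finset.sum_mul, Finset.smul_sum]
      refine Finset.sum_congr rfl fun j _ => ?_
      rw [mul_smul_comm, smul_mul_assoc, smul_smul, star_mul]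
      congr 1
      noncomm_ring
    · intro ψ x
      rw [Function.iterate_succ_apply', TM_ix, Fintype.sum_prod_type]
      refine Finset.sum_congr rfl fun i _ => ?_
      simp_rw [hM]
      simp_rw [Finset.mul_sum, Finset.sum_mul, Finset.smul_sum]
      rw [Finset.sum_comm]
      refine Finset.sum_congr rfl fun a _ => ?_
      rw [Fintype.sum_prod_type]
      refine Finset.sum_congr rfl fun j _ => Finset.sum_congr rfl fun b _ => ?_
      rw [mul_smul_comm, smul_mul_assoc, smul_smul, star_mul, star_mul]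
      have h1 : star (w a) * (star (ixw F u i) * x * ixw F u j) * w b =
          star (w a) * star (ixw F u i) * x * (ixw F u j * w b) := by noncomm_ring
      have h2 : ixc F i * ixc F j * (c a * c b) = ixc F i * c a * (ixc F j * c b) := by ring
      rw [h1, h2]
      congr 1
      noncomm_ring

end words

section bim

variable {N : Type} [CStarAlgebra N] {H : Type} [NormedAddCommGroup H] [InnerProductSpace ℂ H]

/-- The variance identity. -/
private theorem variance {κ : Type} [Fintype κ] (c : κ → ℝ) (hc1 : ∑ i, c i = 1) (η : κ → H) :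
    ∑ i, c i * ‖(∑ j, (c j : ℂ) • η j) - η i‖ ^ 2 =
      ∑ i, c i * ‖η i‖ ^ 2 - ‖∑ j, (c j : ℂ) • η j‖ ^ 2 := by
  set X := ∑ j, (c j : ℂ) • η j with hX
  have h1 : ∀ i, ‖X - η i‖ ^ 2 = ‖X‖ ^ 2 - 2 * (inner ℂ X (η i)).re + ‖η i‖ ^ 2 := by
    intro i
    have := @norm_sub_sq ℂ H _ _ _ X (η i)
    simpa using this
  simp_rw [h1]
  have h2 : ∑ i, c i * (inner ℂ X (η i)).re = ‖X‖ ^ 2 := by
    have h3 : (inner ℂ X X).re = ∑ i, c i * (inner ℂ X (η i)).re := by
      conv_lhs => rw [hX]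
      rw [← hX, inner_sum, Complex.re_sum]
      refine Finset.sum_congr rfl fun i _ => ?_
      rw [inner_smul_right, Complex.re_ofReal_mul]
    rw [← h3]
    have := @inner_self_eq_norm_sq ℂ H _ _ _ X
    simpa using this
  have h4 : ∀ i, c i * (‖X‖ ^ 2 - 2 * (inner ℂ X (η i)).re + ‖η i‖ ^ 2) =
      c i * ‖X‖ ^ 2 - 2 * (c i * (inner ℂ X (η i)).re) + c i * ‖η i‖ ^ 2 := fun i => by ring
  simp_rw [h4]
  rw [Finset.sum_add_distrib, Finset.sum_sub_distrib, ← Finset.sum_mul, ← Finset.mul_sum, h2, hc1]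
  ring

private theorem L_norm_sq (b : Bimod N H) (d : N) (v : H) :
    ‖b.L d v‖ ^ 2 = (inner ℂ v (b.L (star d * d) v)).re := by
  rw [b.L_mul, ← b.L_adj]
  have := @inner_self_eq_norm_sq ℂ H _ _ _ (b.L d v)
  simpa using this.symm

private theorem L_unit_norm (b : Bimod N H) {w : N} (hw : Un w) (v : H) :
    ‖b.L w v‖ ^ 2 = ‖v‖ ^ 2 := by
  rw [L_norm_sq, hw.1, b.L_one]
  have := @inner_self_eq_norm_sq ℂ H _ _ _ v
  simpa using this

private theorem R_unit_norm (b : Bimod N H) {w : N} (hw : Un w) (v : H) :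
    ‖b.R w v‖ ^ 2 = ‖v‖ ^ 2 := by
  have h1 : ‖b.R w v‖ ^ 2 = (inner ℂ (b.R w v) (b.R w v)).re := by
    have := @inner_self_eq_norm_sq ℂ H _ _ _ (b.R w v)
    simpa using this.symm
  rw [h1, b.R_adj, ← b.R_mul, hw.2, b.R_one]
  have := @inner_self_eq_norm_sq ℂ H _ _ _ v
  simpa using this

/-- The estimate for the averaged vector. -/
private theorem avg_le [PartialOrder N] [StarOrderedRing N] {κ : Type} [Fintype κ] (b : Bimod N H) (ζ : H) (c : κ → ℝ) (w : κ → N)
    (y : N) (hc : ∀ i, 0 ≤ c i) (hc1 : ∑ i, c i = 1) (hw : ∀ i, Un (w i)) (hy : 0 ≤ y)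
    (hy1 : y ≤ 1) :
    (inner ℂ (∑ i, (c i : ℂ) • b.L (w i) (b.R (star (w i)) ζ))
      (b.L (1 - ∑ i, c i • (w i * y * star (w i)))
        (∑ i, (c i : ℂ) • b.L (w i) (b.R (star (w i)) ζ)))).re ≤
      2 * (inner ℂ ζ (b.L (1 - y) ζ)).re +
        2 * (‖ζ‖ ^ 2 - ‖∑ i, (c i : ℂ) • b.L (w i) (b.R (star (w i)) ζ)‖ ^ 2) := by
  set η : κ → H := fun i => b.L (w i) (b.R (star (w i)) ζ) with hη
  set X := ∑ i, (c i : ℂ) • η i with hX
  have hvar := variance c hc1 η
  rw [← hX] at hvar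
  clear_value X
  obtain ⟨d, hd, hdd⟩ := exists_sqrt (sub_nonneg.2 hy1)
  have hds : star d = d := herm_of_nonneg hd
  -- contraction
  have hcon : ∀ v, ‖b.L d v‖ ^ 2 ≤ ‖v‖ ^ 2 := by
    intro v
    rw [L_norm_sq, hds, hdd, map_sub, LinearMap.sub_apply, inner_sub_right, b.L_one]
    obtain ⟨e, he, hee⟩ := exists_sqrt hy
    have h1 : 0 ≤ (inner ℂ v (b.L y v)).re := by
      rw [← hee]
      nth_rewrite 1 [← herm_of_nonneg he]
      rw [← L_norm_sq]
      positivity
    have h2 : (inner ℂ v v).re = ‖v‖ ^ 2 := by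
      have := @inner_self_eq_norm_sq ℂ H _ _ _ v
      simpa using this
    rw [Complex.sub_re, h2]
    linarith
  have h1 : (1 - ∑ i, c i • (w i * y * star (w i))) =
      ∑ i, (c i : ℂ) • (w i * (1 - y) * star (w i)) := by
    have h2 : ∀ i, (c i : ℂ) • (w i * (1 - y) * star (w i)) =
        c i • (1 : N) - c i • (w i * y * star (w i)) := by
      intro i
      rw [mul_sub, sub_mul, mul_one, (hw i).2, smul_sub]
      rfl
    simp_rw [h2]
    rw [Finset.sum_sub_distrib, ← Finset.sum_smul, hc1, one_smul]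
  rw [h1, map_sum, LinearMap.sum_apply, inner_sum, Complex.re_sum]
  have h3 : ∀ i, (inner ℂ X ((b.L ((c i : ℂ) • (w i * (1 - y) * star (w i)))) X)).re ≤
      c i * (2 * (inner ℂ ζ (b.L (1 - y) ζ)).re) + 2 * (c i * ‖X - η i‖ ^ 2) := by
    intro i
    rw [map_smul, LinearMap.smul_apply, inner_smul_right, Complex.re_ofReal_mul]
    have h4 : (inner ℂ X (b.L (w i * (1 - y) * star (w i)) X)).re =
        ‖b.L d (b.L (star (w i)) (b.R (w i) X))‖ ^ 2 := by
      rw [b.comm, b.comm, R_unit_norm b (hw i), ← b.L_mul, L_norm_sq, star_mul, star_star, hds,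
        ← hdd]
      congr 3
      noncomm_ring
    have h5 : b.L (w i) (b.R (star (w i)) (b.L (star (w i)) (b.R (w i) X) - ζ)) = X - η i := by
      rw [map_sub, map_sub, hη]
      congr 1
      rw [← b.comm, ← b.L_mul, (hw i).2, b.L_one, ← b.R_mul, (hw i).2, b.R_one]
    have h6 : ‖b.L (star (w i)) (b.R (w i) X) - ζ‖ ^ 2 = ‖X - η i‖ ^ 2 := by
      rw [← h5, L_unit_norm b (hw i), R_unit_norm b (hw i).star]
    have h7 : ‖b.L d (b.L (star (w i)) (b.R (w i) X))‖ ^ 2 ≤
        2 * ‖b.L d ζ‖ ^ 2 + 2 * ‖b.L d (b.L (star (w i)) (b.R (w i) X) - ζ)‖ ^ 2 := by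
      have h8 : b.L d (b.L (star (w i)) (b.R (w i) X)) =
          b.L d ζ + b.L d (b.L (star (w i)) (b.R (w i) X) - ζ) := by
        rw [← map_add]
        congr 1
        abel
      have h9 := norm_add_le (b.L d ζ) (b.L d (b.L (star (w i)) (b.R (w i) X) - ζ))
      rw [← h8] at h9
      nlinarith [norm_nonneg (b.L d (b.L (star (w i)) (b.R (w i) X))),
        sq_nonneg (‖b.L d ζ‖ - ‖b.L d (b.L (star (w i)) (b.R (w i) X) - ζ)‖), norm_nonneg (b.L d ζ),
        norm_nonneg (b.L d (b.L (star (w i)) (b.R (w i) X) - ζ))]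
    have h10 := hcon (b.L (star (w i)) (b.R (w i) X) - ζ)
    rw [h6] at h10
    have h11 : ‖b.L d ζ‖ ^ 2 = (inner ℂ ζ (b.L (1 - y) ζ)).re := by
      rw [L_norm_sq, hds, hdd]
    rw [h11] at h7
    rw [h4]
    nlinarith [hc i]
  refine (Finset.sum_le_sum fun i _ => h3 i).trans (le_of_eq ?_)
  rw [Finset.sum_add_distrib, ← Finset.sum_mul, ← Finset.mul_sum, hc1, hvar]
  have h12 : ∀ i, ‖η i‖ ^ 2 = ‖ζ‖ ^ 2 := by
    intro i
    rw [hη]
    simp only
    rw [L_unit_norm b (hw i), R_unit_norm b (hw i).star]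
  simp_rw [h12]
  rw [← Finset.sum_mul, hc1]
  ring

end bim

theorem pAvg (hBim : StBim) (_hTT : StTT) (hScp : StScp) : StAvg := by
  intro N _ _ _ τ ι F u H q ψ k hτ hF hu hψ hq hcut hψ1 hH hH1
  set G : N := 1 - H with hG
  have hG0 : 0 ≤ G := sub_nonneg.2 hH1
  have hG1 : G ≤ 1 := sub_le_self _ hH
  clear_value G
  have hGs : star G = G := herm_of_nonneg hG0
  have hHs : star H = H := herm_of_nonneg hH
  set W : N := 1 - G * G with hW
  have hGG : 0 ≤ G * G := by
    have := nonneg_star_mul G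
    rwa [hGs] at this
  have hGG1 : G * G ≤ 1 := (le_mul_self_of_le_one hG0 hG1).trans hG1
  have hW0 : 0 ≤ W := sub_nonneg.2 hGG1
  have hW1 : W ≤ 1 := sub_le_self _ hGG
  clear_value W
  have hHH : 0 ≤ H * H := by
    have := nonneg_star_mul H
    rwa [hHs] at this
  have hW2 : W ≤ (2 : ℝ) • H := by
    have h1 : (2 : ℝ) • H - W = H * H := by
      rw [hW, hG, two_smul]
      simp only [mul_sub, sub_mul, one_mul, mul_one]
      abel
    rw [← sub_nonneg, h1]; exact hHH
  have hWs : star W = W := herm_of_nonneg hW0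
  have hWW : W * W ≤ W := le_mul_self_of_le_one hW0 hW1
  have hqH : rt τ (W * q) ≤ 2 * rt τ (q * H) := by
    have h1 := rt_mul_mono hτ hW2 hq.nonneg
    rw [smul_mul_assoc, rt_smul, rt_mul_comm hτ H q] at h1
    exact h1
  -- part (a)
  have hCj1 : (Cj G ψ) 1 = G * ψ (G * G) * G := by
    rw [Cj_apply, hGs, mul_one]
  refine ⟨?_, ?_⟩
  · have h1 : rt τ ((Cj G ψ) 1) = rt τ (ψ 1) - 2 * rt τ (W * ψ 1) + rt τ (W * ψ W) := by
      have h2 : G * G = 1 - W := by rw [hW, sub_sub_cancel]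
      have h3 : rt τ (G * ψ (G * G) * G) = rt τ ((G * G) * ψ (G * G)) := by
        rw [rt_cycle hτ]
      have h4 : rt τ (ψ W) = rt τ (W * ψ 1) := by
        unfold rt
        rw [← hψ.symm, mul_one]
      rw [hCj1, h3, h2, map_sub, mul_sub, sub_mul, sub_mul, one_mul, one_mul, rt_sub, rt_sub, rt_sub,
        h4]
      ring
    have h5 : 0 ≤ rt τ (W * ψ W) := by
      have := hψ.pos W
      rwa [hWs] at this
    have h6 : rt τ (W * ψ 1) ≤ rt τ (W * q) := rt_mul_mono' hτ hψ1 hW0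
    rw [h1]
    linarith
  -- part (b)
  have hnG : ‖G‖ ≤ 1 := norm_le_one_of_nonneg hG0 hG1
  obtain ⟨hφ, -⟩ := (hScp N τ hτ).1 ψ G hψ hnG
  set φ := Cj G ψ with hφd
  clear_value φ
  set y : N := G * q * G with hy
  clear_value y
  have hy0 : 0 ≤ y := by
    have := conj_nonneg hq.nonneg G
    rwa [hGs, ← hy] at this
  have hy1 : y ≤ 1 := by
    have := conj_mono hq.le_one G
    rw [hGs, mul_one, ← hy] at this
    exact this.trans hGG1
  obtain ⟨κ, _, c, w, hc, hc1, hwu, hT, hM⟩ := words hF u hu k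
  obtain ⟨K, _, _, b, ζ, hζ⟩ := hBim N τ φ hτ hφ
  set X := ∑ i, (c i : ℂ) • b.L (w i) (b.R (star (w i)) ζ) with hX
  -- the map of `X`
  have hmap : ∀ x, inner ℂ X (b.L x X) = τ (x * ((TM F u)^[k] φ) 1) := by
    intro x
    have h1 : ∀ i j, inner ℂ (b.L (w i) (b.R (star (w i)) ζ))
        (b.L x (b.L (w j) (b.R (star (w j)) ζ))) =
        τ (x * (w j * φ (star (w j) * 1 * w i) * star (w i))) := by
      intro i j
      rw [b.L_adj, b.R_adj, star_star, ← b.L_mul, ← b.L_mul, ← b.comm, ← b.R_mul, hζ, mul_one]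
      calc τ (star (w i) * x * w j * φ (star (w j) * w i)) =
          τ (star (w i) * (x * w j * φ (star (w j) * w i))) := by simp only [mul_assoc]
        _ = τ ((x * w j * φ (star (w j) * w i)) * star (w i)) := hτ.tr _ _
        _ = _ := by simp only [mul_assoc]
    rw [hM, hX, map_sum, inner_sum, Finset.mul_sum, map_sum]
    refine Finset.sum_congr rfl fun j _ => ?_
    rw [sum_inner, Finset.mul_sum, map_sum]
    refine Finset.sum_congr rfl fun i _ => ?_
    rw [map_smul, inner_smul_left, inner_smul_right, h1, mul_smul_comm, map_smul_real,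
      Complex.conj_ofReal]
    push_cast
    ring
  have hX2 : ‖X‖ ^ 2 = rt τ (((TM F u)^[k] φ) 1) := by
    have h1 := hmap 1
    rw [b.L_one, one_mul] at h1
    unfold rt
    rw [← h1]
    have := @inner_self_eq_norm_sq ℂ K _ _ _ X
    simpa using this.symm
  have hζ1 : ∀ x, inner ℂ ζ (b.L x ζ) = τ (x * φ 1) := by
    intro x
    have := hζ x 1
    rwa [b.R_one] at this
  have hζ2 : ‖ζ‖ ^ 2 = rt τ (φ 1) := by
    have h1 := hζ1 1
    rw [b.L_one, one_mul] at h1
    unfold rt
    rw [← h1]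
    have := @inner_self_eq_norm_sq ℂ K _ _ _ ζ
    simpa using this.symm
  have hmain := avg_le b ζ c w y hc hc1 hwu hy0 hy1
  rw [← hX, ← hT, hmap, hζ1, hX2, hζ2] at hmain
  have hgap : gap τ F u k φ = rt τ (φ 1) - rt τ (((TM F u)^[k] φ) 1) := rfl
  rw [← hgap] at hmain
  change rt τ ((1 - (TT F u ^ k) y) * ((TM F u)^[k] φ) 1) ≤
    2 * rt τ ((1 - y) * φ 1) + 2 * gap τ F u k φ at hmain
  -- the estimate of `τ ((1 - y) φ(1))`
  set Y : N := ψ (G * G) with hYd
  have hY0 : 0 ≤ Y := hψ.nonneg _ hGG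
  have hY1 : Y ≤ q := by
    have h1 := hψ.nonneg _ (sub_nonneg.2 hGG1)
    rw [map_sub] at h1
    exact (sub_nonneg.1 h1).trans hψ1
  obtain ⟨hYq, hqY⟩ := hq.absorb hY0 hY1
  have hφ1 : φ 1 = G * Y * G := hCj1
  have e1 : rt τ ((1 - y) * φ 1) = rt τ (G * W * G * Y) + rt τ ((1 - q) * (W * Y * W)) := by
    have h2 : (1 - y) * (G * Y * G) = W * (G * Y * G) + G * (1 - q) * G * (G * Y * G) := by
      rw [hy, hW]; noncomm_ring
    rw [hφ1, h2, rt_add]
    congr 1
    · rw [show W * (G * Y * G) = (W * (G * Y)) * G by noncomm_ring, rt_mul_comm hτ]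
      congr 1
      noncomm_ring
    · have h3 : G * (1 - q) * G * (G * Y * G) = G * ((1 - q) * (G * G) * Y * G) := by
        noncomm_ring
      have h4 : (1 - q) * (G * G) * Y * G * G = (1 - q) * (G * G) * Y * (G * G) := by
        noncomm_ring
      have h5 : G * G = 1 - W := by rw [hW, sub_sub_cancel]
      have h6 : (1 - q) * Y = 0 := by rw [sub_mul, one_mul, hqY, sub_self]
      have h7 : Y * (1 - q) = 0 := by rw [mul_sub, mul_one, hYq, sub_self]
      have h8 : (1 - q) * (1 - q) = 1 - q := hq.one_sub.2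
      rw [h3, rt_mul_comm hτ, h4, h5]
      have h9 : (1 - q) * (1 - W) * Y * (1 - W) =
          (1 - q) * Y * (1 - W) - (1 - q) * W * Y * (1 - W) := by noncomm_ring
      rw [h9, h6, zero_mul, zero_sub]
      have h10 : -((1 - q) * W * Y * (1 - W)) = (1 - q) * (W * Y * W) - (1 - q) * W * Y := by
        noncomm_ring
      rw [h10, rt_sub]
      have h11 : rt τ ((1 - q) * W * Y) = 0 := by
        rw [rt_cycle hτ, h7, zero_mul, rt_zero]
      rw [h11, sub_zero]
  have e2 : rt τ (G * W * G * Y) ≤ 2 * rt τ (q * H) := by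
    have h1 : G * W * G ≤ (2 : ℝ) • H := by
      have h2 : (2 : ℝ) • H - G * W * G = star H * (1 + (4 : ℝ) • G + H * H) * H := by
        rw [hHs, hW, hG, two_smul]
        have h3 : (4 : ℝ) • (1 - H) = (1 - H) + (1 - H) + (1 - H) + (1 - H) := by
          rw [show (4 : ℝ) = 1 + 1 + 1 + 1 by norm_num]
          simp only [add_smul, one_smul]
        rw [h3]
        noncomm_ring
      rw [← sub_nonneg, h2]
      refine conj_nonneg' ?_ H
      exact add_nonneg (add_nonneg zero_le_one (smul_nonneg_real (by norm_num) hG0)) hHH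
    have h4 : 0 ≤ G * W * G := by
      have := conj_nonneg hW0 G
      rwa [hGs] at this
    calc rt τ (G * W * G * Y) ≤ rt τ (G * W * G * q) := rt_mul_mono' hτ hY1 h4
      _ ≤ rt τ ((2 : ℝ) • H * q) := rt_mul_mono hτ h1 hq.nonneg
      _ = 2 * rt τ (q * H) := by rw [smul_mul_assoc, rt_smul, rt_mul_comm hτ H q]
  have e3 : rt τ ((1 - q) * (W * Y * W)) ≤ 2 * rt τ (q * H) := by
    have h1 : 0 ≤ W * Y * W := by
      have := conj_nonneg hY0 W
      rwa [hWs] at this
    calc rt τ ((1 - q) * (W * Y * W)) ≤ rt τ (1 * (W * Y * W)) :=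
          rt_mul_mono hτ (sub_le_self _ hq.nonneg) h1
      _ = rt τ (W * Y * W) := by rw [one_mul]
      _ = rt τ (W * W * Y) := by rw [rt_cycle hτ]
      _ ≤ rt τ (W * W * q) := by
          refine rt_mul_mono' hτ hY1 ?_
          have := nonneg_star_mul W
          rwa [hWs] at this
      _ ≤ rt τ (W * q) := rt_mul_mono hτ hWW hq.nonneg
      _ ≤ _ := hqH
  have e4 : 0 ≤ rt τ (q * H) := rt_mul_nonneg hτ hq.nonneg hH
  linarith

end Helper61.HT
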