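import Pool.Agent.Helper61.HT.StG
import Pool.Agent.Helper61.HT.LibN

/-!
# Project HT: the Hilbert bimodule of a completely positive map (module BC)

The private lemmas are copies of those of `PBim.lean` and `PUnifB.lean`.
-/

namespace Helper61.HT

open scoped ComplexOrder TensorProduct
open Filter Topology

section bim

variable {N : Type} [CStarAlgebra N] {τ : N →ₗ[ℂ] ℂ} {ψ : N →ₗ[ℂ] N}

/-- the bilinear form `(a ⊗ b, c ⊗ d) ↦ τ(a c ψ(d b))` -/
private noncomputable def bmB (τ : N →ₗ[ℂ] ℂ) (ψ : N →ₗ[ℂ] N) :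
    N ⊗[ℂ] N →ₗ[ℂ] N ⊗[ℂ] N →ₗ[ℂ] ℂ :=
  TensorProduct.lift (LinearMap.mk₂ ℂ
    (fun a b => TensorProduct.lift (LinearMap.mk₂ ℂ (fun c d => τ (a * c * ψ (d * b)))
      (fun c c' d => by rw [mul_add, add_mul, map_add])
      (fun r c d => by rw [mul_smul_comm, smul_mul_assoc, map_smul])
      (fun c d d' => by rw [add_mul, map_add, mul_add, map_add])
      (fun r c d => by rw [smul_mul_assoc, map_smul, mul_smul_comm, map_smul])))
    (fun a a' b => by
      apply TensorProduct.ext'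
      intro c d
      simp only [TensorProduct.lift.tmul, LinearMap.mk₂_apply, LinearMap.add_apply]
      rw [add_mul, add_mul, map_add])
    (fun r a b => by
      apply TensorProduct.ext'
      intro c d
      simp only [TensorProduct.lift.tmul, LinearMap.mk₂_apply, LinearMap.smul_apply]
      rw [smul_mul_assoc, smul_mul_assoc, map_smul])
    (fun a b b' => by
      apply TensorProduct.ext'
      intro c d
      simp only [TensorProduct.lift.tmul, LinearMap.mk₂_apply, LinearMap.add_apply]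
      rw [mul_add, map_add, mul_add, map_add])
    (fun r a b => by
      apply TensorProduct.ext'
      intro c d
      simp only [TensorProduct.lift.tmul, LinearMap.mk₂_apply, LinearMap.smul_apply]
      rw [mul_smul_comm, map_smul, mul_smul_comm, map_smul]))

private lemma bmB_tmul (a b c d : N) : bmB τ ψ (a ⊗ₜ b) (c ⊗ₜ d) = τ (a * c * ψ (d * b)) := by
  unfold bmB
  rw [TensorProduct.lift.tmul, LinearMap.mk₂_apply, TensorProduct.lift.tmul, LinearMap.mk₂_apply]

/-- the sesquilinear form `(a ⊗ b, c ⊗ d) ↦ τ(a* c ψ(d b*))` -/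
private noncomputable def bmF (τ : N →ₗ[ℂ] ℂ) (ψ : N →ₗ[ℂ] N) (u w : N ⊗[ℂ] N) : ℂ :=
  bmB τ ψ (star u) w

private lemma bmF_tmul (a b c d : N) :
    bmF τ ψ (a ⊗ₜ b) (c ⊗ₜ d) = τ (star a * c * ψ (d * star b)) := by
  unfold bmF
  rw [TensorProduct.star_tmul, bmB_tmul]

private lemma bmF_add_left (u u' w : N ⊗[ℂ] N) :
    bmF τ ψ (u + u') w = bmF τ ψ u w + bmF τ ψ u' w := by
  unfold bmF
  rw [star_add, map_add, LinearMap.add_apply]

private lemma bmF_add_right (u w w' : N ⊗[ℂ] N) :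
    bmF τ ψ u (w + w') = bmF τ ψ u w + bmF τ ψ u w' := by
  unfold bmF
  rw [map_add]

private lemma bmF_smul_left (r : ℂ) (u w : N ⊗[ℂ] N) :
    bmF τ ψ (r • u) w = star r * bmF τ ψ u w := by
  unfold bmF
  rw [star_smul, map_smul, LinearMap.smul_apply, smul_eq_mul]

private lemma bmF_zero_left (w : N ⊗[ℂ] N) : bmF τ ψ 0 w = 0 := by
  unfold bmF
  rw [star_zero, map_zero, LinearMap.zero_apply]

private lemma bmF_zero_right (w : N ⊗[ℂ] N) : bmF τ ψ w 0 = 0 := by
  unfold bmF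
  rw [map_zero]

private lemma bmF_symm (hτ : Trc τ) (hs : ∀ x, ψ (star x) = star (ψ x)) (u w : N ⊗[ℂ] N) :
    star (bmF τ ψ w u) = bmF τ ψ u w := by
  induction u with
  | zero => rw [bmF_zero_left, bmF_zero_right, star_zero]
  | add u u' h h' => rw [bmF_add_left, bmF_add_right, star_add, h, h']
  | tmul a b =>
    induction w with
    | zero => rw [bmF_zero_left, bmF_zero_right, star_zero]
    | add u u' h h' => rw [bmF_add_left, bmF_add_right, star_add, h, h']
    | tmul c d =>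
      rw [bmF_tmul, bmF_tmul]
      have h1 := map_star' hτ (star c * a * ψ (b * star d))
      rw [RCLike.star_def, ← h1, star_mul, star_mul, star_star, ← hs, star_mul, star_star, hτ.tr,
        mul_assoc]

private lemma bmF_sum_sum {κ : Type} (s t : Finset κ) (a b c d : κ → N) :
    bmF τ ψ (∑ i ∈ s, a i ⊗ₜ b i) (∑ j ∈ t, c j ⊗ₜ d j) =
      ∑ i ∈ s, ∑ j ∈ t, τ (star (a i) * c j * ψ (d j * star (b i))) := by
  unfold bmF
  rw [star_sum, map_sum (bmB τ ψ), LinearMap.sum_apply]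
  refine Finset.sum_congr rfl fun i _ => ?_
  rw [map_sum]
  refine Finset.sum_congr rfl fun j _ => ?_
  rw [TensorProduct.star_tmul, bmB_tmul]

private lemma bmF_nonneg
    (hcp : ∀ (m : ℕ) (x y : Fin m → N),
      0 ≤ (∑ i, ∑ j, τ (star (x i) * x j * ψ (y j * star (y i)))).re) (u : N ⊗[ℂ] N) :
    0 ≤ (bmF τ ψ u u).re := by
  obtain ⟨S, hS⟩ := TensorProduct.exists_finset u
  let e := S.equivFin.symm
  have h1 : u = ∑ i : Fin S.card, (e i).1.1 ⊗ₜ[ℂ] (e i).1.2 := by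
    rw [hS, ← Finset.sum_coe_sort S]
    exact (e.sum_comp (fun x : S => x.1.1 ⊗ₜ[ℂ] x.1.2)).symm
  rw [h1, bmF_sum_sum]
  exact hcp _ _ _

/-- the pre-inner product -/
@[reducible]
private noncomputable def bmCore (hτ : Trc τ) (hs : ∀ x, ψ (star x) = star (ψ x))
    (hcp : ∀ (m : ℕ) (x y : Fin m → N),
      0 ≤ (∑ i, ∑ j, τ (star (x i) * x j * ψ (y j * star (y i)))).re) :
    PreInnerProductSpace.Core ℂ (N ⊗[ℂ] N) where
  inner u w := bmF τ ψ u w
  conj_inner_symm u w := bmF_symm hτ hs u w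
  re_inner_nonneg u := bmF_nonneg hcp u
  add_left u v w := bmF_add_left u v w
  smul_left u v r := bmF_smul_left r u v

/-- left multiplication -/
private noncomputable def bmL : N →ₗ[ℂ] (N ⊗[ℂ] N →ₗ[ℂ] N ⊗[ℂ] N) where
  toFun x := LinearMap.rTensor N (LinearMap.mulLeft ℂ x)
  map_add' x y := by
    apply TensorProduct.ext'
    intro c d
    simp only [LinearMap.rTensor_tmul, LinearMap.mulLeft_apply, LinearMap.add_apply]
    rw [add_mul, TensorProduct.add_tmul]
  map_smul' r x := by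
    apply TensorProduct.ext'
    intro c d
    simp only [LinearMap.rTensor_tmul, LinearMap.mulLeft_apply, LinearMap.smul_apply,
      RingHom.id_apply]
    rw [smul_mul_assoc, TensorProduct.smul_tmul']

/-- right multiplication -/
private noncomputable def bmR : N →ₗ[ℂ] (N ⊗[ℂ] N →ₗ[ℂ] N ⊗[ℂ] N) where
  toFun x := LinearMap.lTensor N (LinearMap.mulRight ℂ x)
  map_add' x y := by
    apply TensorProduct.ext'
    intro c d
    simp only [LinearMap.lTensor_tmul, LinearMap.mulRight_apply, LinearMap.add_apply]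
    rw [mul_add, TensorProduct.tmul_add]
  map_smul' r x := by
    apply TensorProduct.ext'
    intro c d
    simp only [LinearMap.lTensor_tmul, LinearMap.mulRight_apply, LinearMap.smul_apply,
      RingHom.id_apply]
    rw [mul_smul_comm, TensorProduct.tmul_smul]

private lemma bmL_tmul (x c d : N) : bmL x (c ⊗ₜ d) = (x * c) ⊗ₜ d := rfl

private lemma bmR_tmul (x c d : N) : bmR x (c ⊗ₜ d) = c ⊗ₜ (d * x) := rfl

private lemma bmL_adj (x : N) (u w : N ⊗[ℂ] N) :
    bmF τ ψ (bmL x u) w = bmF τ ψ u (bmL (star x) w) := by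
  induction u with
  | zero => rw [map_zero, bmF_zero_left, bmF_zero_left]
  | add u u' h h' => rw [map_add, bmF_add_left, bmF_add_left, h, h']
  | tmul a b =>
    induction w with
    | zero => rw [map_zero, bmF_zero_right, bmF_zero_right]
    | add u u' h h' => rw [map_add, bmF_add_right, bmF_add_right, h, h']
    | tmul c d =>
      rw [bmL_tmul, bmL_tmul, bmF_tmul, bmF_tmul, star_mul, mul_assoc (star a)]

private lemma bmR_adj (x : N) (u w : N ⊗[ℂ] N) :
    bmF τ ψ (bmR x u) w = bmF τ ψ u (bmR (star x) w) := by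
  induction u with
  | zero => rw [map_zero, bmF_zero_left, bmF_zero_left]
  | add u u' h h' => rw [map_add, bmF_add_left, bmF_add_left, h, h']
  | tmul a b =>
    induction w with
    | zero => rw [map_zero, bmF_zero_right, bmF_zero_right]
    | add u u' h h' => rw [map_add, bmF_add_right, bmF_add_right, h, h']
    | tmul c d =>
      rw [bmR_tmul, bmR_tmul, bmF_tmul, bmF_tmul, star_mul, mul_assoc d]

end bim

section desc

variable {A H : Type} [AddCommGroup A] [Module ℂ A] [AddCommGroup H] [Module ℂ H]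

/-- descent of a linear map along a surjection -/
private noncomputable def dsc (q : A →ₗ[ℂ] H) (hq : Function.Surjective q) (f : A →ₗ[ℂ] A)
    (hf : ∀ u, q u = 0 → q (f u) = 0) : H →ₗ[ℂ] H where
  toFun h := q (f (Function.surjInv hq h))
  map_add' h h' := by
    have h1 := hf (Function.surjInv hq (h + h') - Function.surjInv hq h - Function.surjInv hq h')
      (by
        rw [map_sub, map_sub, Function.surjInv_eq hq, Function.surjInv_eq hq,
          Function.surjInv_eq hq]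
        abel)
    rw [map_sub, map_sub, map_sub, map_sub, sub_sub, sub_eq_zero] at h1
    exact h1
  map_smul' r h := by
    have h1 := hf (Function.surjInv hq (r • h) - r • Function.surjInv hq h)
      (by rw [map_sub, map_smul, Function.surjInv_eq hq, Function.surjInv_eq hq, sub_self])
    rw [map_sub, map_sub, map_smul, map_smul, sub_eq_zero] at h1
    exact h1

private lemma dsc_apply (q : A →ₗ[ℂ] H) (hq : Function.Surjective q) (f : A →ₗ[ℂ] A)
    (hf : ∀ u, q u = 0 → q (f u) = 0) (u : A) : dsc q hq f hf (q u) = q (f u) := by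
  have h1 := hf (Function.surjInv hq (q u) - u)
      (by rw [map_sub, Function.surjInv_eq hq, sub_self])
  rw [map_sub, map_sub, sub_eq_zero] at h1
  exact h1

end desc

private theorem bcBim (N : Type) [CStarAlgebra N] (τ : N →ₗ[ℂ] ℂ) (ψ : N →ₗ[ℂ] N) (hτ : Trc τ)
    (hst : ∀ x, ψ (star x) = star (ψ x))
    (hcp : ∀ (m : ℕ) (x y : Fin m → N),
      0 ≤ (∑ i, ∑ j, τ (star (x i) * x j * ψ (y j * star (y i)))).re) :
    ∃ (H : Type) (_ : NormedAddCommGroup H) (_ : InnerProductSpace ℂ H) (b : Bimod N H) (ξ : H),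
      ∀ x y, inner ℂ ξ (b.L x (b.R y ξ)) = τ (x * ψ y) := by
  let _ : SeminormedAddCommGroup (N ⊗[ℂ] N) :=
    @InnerProductSpace.Core.toSeminormedAddCommGroup ℂ (N ⊗[ℂ] N) _ _ _
      (bmCore hτ hst hcp)
  let _ : InnerProductSpace ℂ (N ⊗[ℂ] N) := InnerProductSpace.ofCore (bmCore hτ hst hcp)
  have hin : ∀ f g : N ⊗[ℂ] N, inner ℂ f g = bmF τ ψ f g := fun f g => rfl
  let q : N ⊗[ℂ] N →ₗ[ℂ] SeparationQuotient (N ⊗[ℂ] N) :=
    { toFun := SeparationQuotient.mk
      map_add' := fun x y => rfl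
      map_smul' := fun r x => rfl }
  have hq : Function.Surjective q := SeparationQuotient.surjective_mk
  have hqi : ∀ f g : N ⊗[ℂ] N, inner ℂ (q f) (q g) = bmF τ ψ f g := fun f g => rfl
  have hq0 : ∀ f : N ⊗[ℂ] N, (∀ g, bmF τ ψ f g = 0) → q f = 0 := by
    intro f hf
    rw [← inner_self_eq_zero (𝕜 := ℂ), hqi]
    exact hf f
  have hq0' : ∀ f : N ⊗[ℂ] N, q f = 0 → ∀ g, bmF τ ψ f g = 0 := by
    intro f hf g
    rw [← hqi, hf, inner_zero_left]
  have hL : ∀ x (u : N ⊗[ℂ] N), q u = 0 → q (bmL x u) = 0 := by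
    intro x u hu
    apply hq0
    intro g
    rw [bmL_adj]
    exact hq0' u hu _
  have hR : ∀ x (u : N ⊗[ℂ] N), q u = 0 → q (bmR x u) = 0 := by
    intro x u hu
    apply hq0
    intro g
    rw [bmR_adj]
    exact hq0' u hu _
  let L : N →ₗ[ℂ] (SeparationQuotient (N ⊗[ℂ] N) →ₗ[ℂ] SeparationQuotient (N ⊗[ℂ] N)) :=
    { toFun := fun x => dsc q hq (bmL x) (hL x)
      map_add' := fun x y => by
        ext h
        obtain ⟨u, rfl⟩ := hq h
        rw [LinearMap.add_apply, dsc_apply, dsc_apply, dsc_apply, map_add, LinearMap.add_apply,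
          map_add]
      map_smul' := fun r x => by
        ext h
        obtain ⟨u, rfl⟩ := hq h
        rw [LinearMap.smul_apply, dsc_apply, dsc_apply, map_smul, LinearMap.smul_apply, map_smul]
        rfl }
  let R : N →ₗ[ℂ] (SeparationQuotient (N ⊗[ℂ] N) →ₗ[ℂ] SeparationQuotient (N ⊗[ℂ] N)) :=
    { toFun := fun x => dsc q hq (bmR x) (hR x)
      map_add' := fun x y => by
        ext h
        obtain ⟨u, rfl⟩ := hq h
        rw [LinearMap.add_apply, dsc_apply, dsc_apply, dsc_apply, map_add, LinearMap.add_apply,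
          map_add]
      map_smul' := fun r x => by
        ext h
        obtain ⟨u, rfl⟩ := hq h
        rw [LinearMap.smul_apply, dsc_apply, dsc_apply, map_smul, LinearMap.smul_apply, map_smul]
        rfl }
  have hLq : ∀ x u, L x (q u) = q (bmL x u) := fun x u => dsc_apply q hq (bmL x) (hL x) u
  have hRq : ∀ x u, R x (q u) = q (bmR x u) := fun x u => dsc_apply q hq (bmR x) (hR x) u
  have hext : ∀ f g : N ⊗[ℂ] N →ₗ[ℂ] N ⊗[ℂ] N, (∀ c d, f (c ⊗ₜ d) = g (c ⊗ₜ d)) →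
      ∀ u, f u = g u := by
    intro f g h u
    have : f = g := TensorProduct.ext' h
    rw [this]
  refine ⟨SeparationQuotient (N ⊗[ℂ] N), inferInstance, inferInstance,
    { L := L
      R := R
      L_one := ?_
      R_one := ?_
      L_mul := ?_
      R_mul := ?_
      comm := ?_
      L_adj := ?_
      R_adj := ?_ }, q (1 ⊗ₜ 1), ?_⟩
  · intro v
    obtain ⟨u, rfl⟩ := hq v
    rw [hLq]
    congr 1
    exact hext (bmL 1) LinearMap.id (fun c d => by rw [bmL_tmul, one_mul]; rfl) u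
  · intro v
    obtain ⟨u, rfl⟩ := hq v
    rw [hRq]
    congr 1
    exact hext (bmR 1) LinearMap.id (fun c d => by rw [bmR_tmul, mul_one]; rfl) u
  · intro x y v
    obtain ⟨u, rfl⟩ := hq v
    rw [hLq, hLq, hLq]
    congr 1
    exact hext (bmL (x * y)) (bmL x ∘ₗ bmL y)
      (fun c d => by rw [LinearMap.comp_apply, bmL_tmul, bmL_tmul, bmL_tmul, mul_assoc]) u
  · intro x y v
    obtain ⟨u, rfl⟩ := hq v
    rw [hRq, hRq, hRq]
    congr 1
    exact hext (bmR (x * y)) (bmR y ∘ₗ bmR x)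
      (fun c d => by rw [LinearMap.comp_apply, bmR_tmul, bmR_tmul, bmR_tmul, mul_assoc]) u
  · intro x y v
    obtain ⟨u, rfl⟩ := hq v
    rw [hRq, hLq, hLq, hRq]
    congr 1
    exact hext (bmL x ∘ₗ bmR y) (bmR y ∘ₗ bmL x)
      (fun c d => by
        rw [LinearMap.comp_apply, LinearMap.comp_apply, bmR_tmul, bmL_tmul, bmL_tmul, bmR_tmul]) u
  · intro x v w
    obtain ⟨u, rfl⟩ := hq v
    obtain ⟨u', rfl⟩ := hq w
    rw [hLq, hLq, hqi, hqi, bmL_adj]
  · intro x v w
    obtain ⟨u, rfl⟩ := hq v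
    obtain ⟨u', rfl⟩ := hq w
    rw [hRq, hRq, hqi, hqi, bmR_adj]
  · intro x y
    show inner ℂ (q (1 ⊗ₜ 1)) (L x (R y (q (1 ⊗ₜ 1)))) = _
    rw [hRq, hLq, hqi, bmR_tmul, bmL_tmul, bmF_tmul, star_one, one_mul, mul_one, one_mul,
      mul_one]

section calcs

variable {B : Type} [CStarAlgebra B] {τ : B →ₗ[ℂ] ℂ} {φ : B →ₗ[ℂ] B} {H : Type}
  [NormedAddCommGroup H] [InnerProductSpace ℂ H]

private lemma ub_calc {L R : B → H → H} (hR1 : ∀ v, R 1 v = v) (hL1 : ∀ v, L 1 v = v)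
    (hLm : ∀ x y v, L (x * y) v = L x (L y v)) (hRm : ∀ x y v, R (x * y) v = R y (R x v))
    (hLa : ∀ x v w, inner ℂ (L x v) w = inner ℂ v (L (star x) w))
    (hRa : ∀ x v w, inner ℂ (R x v) w = inner ℂ v (R (star x) w)) {ξ : H}
    (h : ∀ x y, inner ℂ ξ (L x (R y ξ)) = τ (x * φ y)) :
    (∀ x, ‖L x ξ‖ ^ 2 = rt τ (star x * x * φ 1)) ∧ (∀ x, ‖R x ξ‖ ^ 2 = rt τ (φ (x * star x))) ∧
    ∀ v, Un v → ‖L v ξ - R v ξ‖ ^ 2 = 2 * (rt τ (φ 1) - rt τ (star v * φ v)) := by
  have h1 : ∀ x, ‖L x ξ‖ ^ 2 = rt τ (star x * x * φ 1) := by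
    intro x
    rw [InnerProductSpace.norm_sq_eq_re_inner (𝕜 := ℂ), hLa, ← hLm]
    have h2 := h (star x * x) 1
    rw [hR1] at h2
    rw [h2]
    rfl
  have h2 : ∀ x, ‖R x ξ‖ ^ 2 = rt τ (φ (x * star x)) := by
    intro x
    rw [InnerProductSpace.norm_sq_eq_re_inner (𝕜 := ℂ), hRa, ← hRm]
    have h3 := h 1 (x * star x)
    rw [hL1, one_mul] at h3
    rw [h3]
    rfl
  refine ⟨h1, h2, ?_⟩
  intro v hv
  rw [norm_sub_sq (𝕜 := ℂ), h1, h2, hv.1, hv.2, one_mul, hLa, h]
  show _ - 2 * rt τ (star v * φ v) + _ = _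
  ring

private lemma ub_bdd [PartialOrder B] [StarOrderedRing B] {M : B →ₗ[ℂ] (H →ₗ[ℂ] H)} {c : B → B}
    (h1 : ∀ v, M 1 v = v)
    (h2 : ∀ y, 0 ≤ y → ∀ v, 0 ≤ (inner ℂ v (M y v) : ℂ).re)
    (h3 : ∀ x v, ‖M x v‖ ^ 2 = (inner ℂ v (M (c x) v) : ℂ).re)
    (h4 : ∀ x, c x ≤ (‖x‖ ^ 2) • 1) (x : B) (v : H) : ‖M x v‖ ≤ ‖x‖ * ‖v‖ := by
  have h5 := h2 _ (sub_nonneg.2 (h4 x)) v
  have h6 : (‖x‖ ^ 2) • (1 : B) = ((‖x‖ ^ 2 : ℝ) : ℂ) • (1 : B) := (algebraMap_smul ℂ _ _).symm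
  rw [h6, map_sub, LinearMap.sub_apply, map_smul, LinearMap.smul_apply, h1, inner_sub_right,
    inner_smul_right, Complex.sub_re, Complex.re_ofReal_mul, ← h3] at h5
  have h7 : (inner ℂ v v : ℂ).re = ‖v‖ ^ 2 :=
    (InnerProductSpace.norm_sq_eq_re_inner (𝕜 := ℂ) v).symm
  rw [h7] at h5
  have h8 : ‖M x v‖ ^ 2 ≤ (‖x‖ * ‖v‖) ^ 2 := by rw [mul_pow]; linarith
  exact (pow_le_pow_iff_left₀ (norm_nonneg _) (by positivity) two_ne_zero).1 h8

private lemma ub_L [PartialOrder B] [StarOrderedRing B] (b : Bimod B H) (x : B) (v : H) :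
    ‖b.L x v‖ ≤ ‖x‖ * ‖v‖ := by
  refine ub_bdd (c := fun x => star x * x) b.L_one ?_ ?_ star_mul_le x v
  · intro y hy v
    obtain ⟨z, hz, rfl⟩ := exists_sqrt hy
    rw [b.L_mul]
    nth_rewrite 1 [← herm_of_nonneg hz]
    rw [← b.L_adj]
    exact (sq_nonneg _).trans_eq (InnerProductSpace.norm_sq_eq_re_inner (𝕜 := ℂ) (b.L z v))
  · intro x v
    rw [InnerProductSpace.norm_sq_eq_re_inner (𝕜 := ℂ), b.L_adj, ← b.L_mul]
    rfl

private lemma ub_R [PartialOrder B] [StarOrderedRing B] (b : Bimod B H) (x : B) (v : H) :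
    ‖b.R x v‖ ≤ ‖x‖ * ‖v‖ := by
  refine ub_bdd (c := fun x => x * star x) b.R_one ?_ ?_ mul_star_le x v
  · intro y hy v
    obtain ⟨z, hz, rfl⟩ := exists_sqrt hy
    rw [b.R_mul]
    nth_rewrite 1 [← herm_of_nonneg hz]
    rw [← b.R_adj]
    exact (sq_nonneg _).trans_eq (InnerProductSpace.norm_sq_eq_re_inner (𝕜 := ℂ) (b.R z v))
  · intro x v
    rw [InnerProductSpace.norm_sq_eq_re_inner (𝕜 := ℂ), b.R_adj, ← b.R_mul]
    rfl

/-- normality at `v` -/
private def NrmAt (τ : B →ₗ[ℂ] ℂ) (f : B → ℝ) : Prop :=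
  ∀ ε : ℝ, 0 < ε → ∃ δ : ℝ, 0 < δ ∧ ∀ x, ‖x‖ ≤ 1 → hs τ x ≤ δ → f x ≤ ε

private lemma ub_gen {C : ℝ} (hC : 0 ≤ C) {f : B → ℝ} (hf0 : ∀ x, 0 ≤ f x)
    (hf : ∀ x, f x ^ 2 ≤ C ^ 2 * hs τ x) : NrmAt τ f := by
  intro ε hε
  refine ⟨(ε / (C + 1)) ^ 2, by positivity, fun x _ hx => ?_⟩
  have h1 : f x ^ 2 ≤ ε ^ 2 := by
    refine (hf x).trans ((mul_le_mul_of_nonneg_left hx (sq_nonneg C)).trans ?_)
    rw [← mul_pow]
    refine pow_le_pow_left₀ (by positivity) ?_ 2
    rw [mul_div_assoc', div_le_iff₀ (by positivity)]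
    nlinarith
  exact (pow_le_pow_iff_left₀ (hf0 x) hε.le two_ne_zero).1 h1

private lemma ub_span {M : B →ₗ[ℂ] (H →ₗ[ℂ] H)} {S : Set H}
    (h0 : ∀ v ∈ S, NrmAt τ (fun x => ‖M x v‖)) (v : H) (hv : v ∈ Submodule.span ℂ S) :
    NrmAt τ (fun x => ‖M x v‖) := by
  induction hv using Submodule.span_induction with
  | mem v hv => exact h0 v hv
  | zero =>
    intro ε hε
    refine ⟨1, one_pos, fun x _ _ => ?_⟩
    show ‖M x 0‖ ≤ ε
    rw [map_zero, norm_zero]
    exact hε.le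
  | add v w _ _ hv hw =>
    intro ε hε
    obtain ⟨δ, hδ, h1⟩ := hv (ε / 2) (by positivity)
    obtain ⟨δ', hδ', h2⟩ := hw (ε / 2) (by positivity)
    refine ⟨min δ δ', lt_min hδ hδ', fun x hx hx' => ?_⟩
    have h3 := h1 x hx (hx'.trans (min_le_left _ _))
    have h4 := h2 x hx (hx'.trans (min_le_right _ _))
    simp only at h3 h4 ⊢
    rw [map_add]
    refine (norm_add_le _ _).trans ?_
    linarith
  | smul c v _ hv =>
    intro ε hε
    obtain ⟨δ, hδ, h1⟩ := hv (ε / (‖c‖ + 1)) (by positivity)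
    refine ⟨δ, hδ, fun x hx hx' => ?_⟩
    have h3 := h1 x hx hx'
    simp only at h3 ⊢
    rw [map_smul, norm_smul]
    have h4 : ‖c‖ * ‖M x v‖ ≤ ‖c‖ * (ε / (‖c‖ + 1)) :=
      mul_le_mul_of_nonneg_left h3 (norm_nonneg c)
    refine h4.trans ?_
    rw [mul_div_assoc', div_le_iff₀ (by positivity)]
    nlinarith [norm_nonneg c]

end calcs

section compl

variable {B : Type} [CStarAlgebra B] {τ : B →ₗ[ℂ] ℂ} {K : Type}
  [NormedAddCommGroup K] [InnerProductSpace ℂ K]

private lemma ub_cext {Y : Type} [TopologicalSpace Y] [T2Space Y]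
    {f g : UniformSpace.Completion K → Y} (hf : Continuous f)
    (hg : Continuous g) (h : ∀ ξ : K, f (ξ : UniformSpace.Completion K) = g ξ) (η) : f η = g η :=
  UniformSpace.Completion.induction_on η (isClosed_eq hf hg) h

/-- the extension of one map -/
private noncomputable def ubT (M : B →ₗ[ℂ] (K →ₗ[ℂ] K)) (hM : ∀ x v, ‖M x v‖ ≤ ‖x‖ * ‖v‖)
    (x : B) : UniformSpace.Completion K →L[ℂ] UniformSpace.Completion K :=
  ((M x).mkContinuous ‖x‖ (hM x)).completion

private lemma ubT_coe (M : B →ₗ[ℂ] (K →ₗ[ℂ] K)) (hM : ∀ x v, ‖M x v‖ ≤ ‖x‖ * ‖v‖) (x : B)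
    (v : K) : ubT M hM x (v : UniformSpace.Completion K) = (M x v : K) :=
  ContinuousLinearMap.completion_apply_coe _ _

private lemma ubT_add (M : B →ₗ[ℂ] (K →ₗ[ℂ] K)) (hM : ∀ x v, ‖M x v‖ ≤ ‖x‖ * ‖v‖) (x y : B) :
    ubT M hM (x + y) = ubT M hM x + ubT M hM y := by
  refine ContinuousLinearMap.ext fun η => ?_
  refine ub_cext (f := fun η => ubT M hM (x + y) η) (g := fun η => ubT M hM x η + ubT M hM y η)
    (ubT M hM (x + y)).continuous ((ubT M hM x).continuous.add (ubT M hM y).continuous)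
    (fun ξ => ?_) η
  rw [ubT_coe, ubT_coe, ubT_coe, ← UniformSpace.Completion.coe_add, map_add, LinearMap.add_apply]

private lemma ubT_smul (M : B →ₗ[ℂ] (K →ₗ[ℂ] K)) (hM : ∀ x v, ‖M x v‖ ≤ ‖x‖ * ‖v‖) (r : ℂ)
    (x : B) : ubT M hM (r • x) = r • ubT M hM x := by
  refine ContinuousLinearMap.ext fun η => ?_
  refine ub_cext (f := fun η => ubT M hM (r • x) η) (g := fun η => r • ubT M hM x η)
    (ubT M hM (r • x)).continuous ((ubT M hM x).continuous.const_smul r)
    (fun ξ => ?_) η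
  rw [ubT_coe, ubT_coe, ← UniformSpace.Completion.coe_smul, map_smul, LinearMap.smul_apply]

/-- the extension of a bounded linear family to the completion -/
private noncomputable def ubE (M : B →ₗ[ℂ] (K →ₗ[ℂ] K)) (hM : ∀ x v, ‖M x v‖ ≤ ‖x‖ * ‖v‖) :
    B →ₗ[ℂ] (UniformSpace.Completion K →L[ℂ] UniformSpace.Completion K) where
  toFun x := ubT M hM x
  map_add' x y := ubT_add M hM x y
  map_smul' r x := ubT_smul M hM r x

private lemma ubE_coe (M : B →ₗ[ℂ] (K →ₗ[ℂ] K)) (hM : ∀ x v, ‖M x v‖ ≤ ‖x‖ * ‖v‖) (x : B)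
    (v : K) : ubE M hM x (v : UniformSpace.Completion K) = (M x v : K) :=
  ubT_coe M hM x v

private lemma ubE_norm (M : B →ₗ[ℂ] (K →ₗ[ℂ] K)) (hM : ∀ x v, ‖M x v‖ ≤ ‖x‖ * ‖v‖) (x : B)
    (v : UniformSpace.Completion K) : ‖ubE M hM x v‖ ≤ ‖x‖ * ‖v‖ := by
  refine UniformSpace.Completion.induction_on v
    (isClosed_le (by fun_prop) (by fun_prop)) fun w => ?_
  rw [ubE_coe, UniformSpace.Completion.norm_coe, UniformSpace.Completion.norm_coe]
  exact hM x w

private lemma ubE_normal (M : B →ₗ[ℂ] (K →ₗ[ℂ] K)) (hM : ∀ x v, ‖M x v‖ ≤ ‖x‖ * ‖v‖)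
    (h0 : ∀ v, NrmAt τ (fun x => ‖M x v‖)) (v : UniformSpace.Completion K) :
    NrmAt τ (fun x => ‖ubE M hM x v‖) := by
  intro ε hε
  obtain ⟨w, hw⟩ := (UniformSpace.Completion.denseRange_coe (α := K)).exists_dist_lt v
    (show 0 < ε / 2 by positivity)
  obtain ⟨δ, hδ, h1⟩ := h0 w (ε / 2) (by positivity)
  refine ⟨δ, hδ, fun x hx hx' => ?_⟩
  have h2 := h1 x hx hx'
  simp only at h2 ⊢
  have h3 : v = (v - (w : UniformSpace.Completion K)) + w := by abel
  rw [h3, map_add]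
  refine (norm_add_le _ _).trans ?_
  have h4 := ubE_norm M hM x (v - w)
  rw [dist_eq_norm] at hw
  have h5 : ‖x‖ * ‖v - (w : UniformSpace.Completion K)‖ ≤ 1 * (ε / 2) :=
    mul_le_mul hx hw.le (norm_nonneg _) zero_le_one
  rw [ubE_coe, UniformSpace.Completion.norm_coe]
  linarith

private lemma ub_HBim (b : Bimod B K) (hL : ∀ x v, ‖b.L x v‖ ≤ ‖x‖ * ‖v‖)
    (hR : ∀ x v, ‖b.R x v‖ ≤ ‖x‖ * ‖v‖) (hLn : ∀ v, NrmAt τ (fun x => ‖b.L x v‖))
    (hRn : ∀ v, NrmAt τ (fun x => ‖b.R x v‖)) :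
    HBim τ (UniformSpace.Completion K) (ubE b.L hL) (ubE b.R hR) where
  L_one v := by
    refine ub_cext (f := fun v => ubE b.L hL 1 v) (g := fun v => v) (by fun_prop) (by fun_prop)
      (fun ξ => ?_) v
    rw [ubE_coe, b.L_one]
  R_one v := by
    refine ub_cext (f := fun v => ubE b.R hR 1 v) (g := fun v => v) (by fun_prop) (by fun_prop)
      (fun ξ => ?_) v
    rw [ubE_coe, b.R_one]
  L_mul x y v := by
    refine ub_cext (f := fun v => ubE b.L hL (x * y) v)
      (g := fun v => ubE b.L hL x (ubE b.L hL y v)) (by fun_prop) (by fun_prop)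
      (fun ξ => ?_) v
    simp only [ubE_coe]
    rw [b.L_mul]
  R_mul x y v := by
    refine ub_cext (f := fun v => ubE b.R hR (x * y) v)
      (g := fun v => ubE b.R hR y (ubE b.R hR x v)) (by fun_prop) (by fun_prop)
      (fun ξ => ?_) v
    simp only [ubE_coe]
    rw [b.R_mul]
  comm x y v := by
    refine ub_cext (f := fun v => ubE b.L hL x (ubE b.R hR y v))
      (g := fun v => ubE b.R hR y (ubE b.L hL x v)) (by fun_prop) (by fun_prop)
      (fun ξ => ?_) v
    simp only [ubE_coe]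
    rw [b.comm]
  L_adj x v w := by
    refine UniformSpace.Completion.induction_on₂ v w
      (isClosed_eq (by fun_prop) (by fun_prop)) fun v w => ?_
    rw [ubE_coe, ubE_coe, UniformSpace.Completion.inner_coe, UniformSpace.Completion.inner_coe,
      b.L_adj]
  R_adj x v w := by
    refine UniformSpace.Completion.induction_on₂ v w
      (isClosed_eq (by fun_prop) (by fun_prop)) fun v w => ?_
    rw [ubE_coe, ubE_coe, UniformSpace.Completion.inner_coe, UniformSpace.Completion.inner_coe,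
      b.R_adj]
  L_normal v := ubE_normal b.L hL hLn v
  R_normal v := ubE_normal b.R hR hRn v

end compl

section restr

variable {B : Type} [CStarAlgebra B] {H : Type}
  [NormedAddCommGroup H] [InnerProductSpace ℂ H]

/-- restriction of a family of linear maps -/
private noncomputable def ubr (M : B →ₗ[ℂ] (H →ₗ[ℂ] H)) (K : Submodule ℂ H)
    (hK : ∀ x, ∀ v ∈ K, M x v ∈ K) : B →ₗ[ℂ] (K →ₗ[ℂ] K) where
  toFun x := (M x).restrict (hK x)
  map_add' x y := by
    refine LinearMap.ext fun v => Subtype.ext ?_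
    show M (x + y) v = M x v + M y v
    rw [map_add, LinearMap.add_apply]
  map_smul' r x := by
    refine LinearMap.ext fun v => Subtype.ext ?_
    show M (r • x) v = r • M x v
    rw [map_smul, LinearMap.smul_apply]

/-- restriction of a bimodule -/
private noncomputable def ubK (b : Bimod B H) (K : Submodule ℂ H)
    (hL : ∀ x, ∀ v ∈ K, b.L x v ∈ K) (hR : ∀ x, ∀ v ∈ K, b.R x v ∈ K) : Bimod B K where
  L := ubr b.L K hL
  R := ubr b.R K hR
  L_one v := Subtype.ext (b.L_one v)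
  R_one v := Subtype.ext (b.R_one v)
  L_mul x y v := Subtype.ext (b.L_mul x y v)
  R_mul x y v := Subtype.ext (b.R_mul x y v)
  comm x y v := Subtype.ext (b.comm x y v)
  L_adj x v w := b.L_adj x v w
  R_adj x v w := b.R_adj x v w

private lemma ub_hilb [PartialOrder B] [StarOrderedRing B] {τ : B →ₗ[ℂ] ℂ} (hτ : Trc τ)
    (b : Bimod B H) (ξ : H) (hL : ∀ x, ‖b.L x ξ‖ ^ 2 ≤ hs τ x) (hR : ∀ x, ‖b.R x ξ‖ ^ 2 ≤ hs τ x) :
    ∃ (H' : Type) (_ : NormedAddCommGroup H') (_ : InnerProductSpace ℂ H') (_ : CompleteSpace H')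
      (L R : B →ₗ[ℂ] (H' →L[ℂ] H')) (ξ' : H'), HBim τ H' L R ∧
      (∀ x v, ‖L x v‖ ≤ ‖x‖ * ‖v‖) ∧ (∀ x v, ‖R x v‖ ≤ ‖x‖ * ‖v‖) ∧
      (∀ x y, inner ℂ ξ' (L x (R y ξ')) = inner ℂ ξ (b.L x (b.R y ξ))) ∧
      Dense (Submodule.span ℂ {v | ∃ x y, v = L x (R y ξ')} : Set H') := by
  set S : Set H := {v | ∃ c d, v = b.L c (b.R d ξ)} with hS
  set K : Submodule ℂ H := Submodule.span ℂ S with hK
  have hLK : ∀ x, ∀ v ∈ K, b.L x v ∈ K := by
    intro x v hv
    induction hv using Submodule.span_induction with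
    | mem v hv =>
      obtain ⟨c, d, rfl⟩ := hv
      rw [← b.L_mul]
      exact Submodule.subset_span ⟨x * c, d, rfl⟩
    | zero => rw [map_zero]; exact K.zero_mem
    | add v w _ _ hv hw => rw [map_add]; exact K.add_mem hv hw
    | smul r v _ hv => rw [map_smul]; exact K.smul_mem r hv
  have hRK : ∀ x, ∀ v ∈ K, b.R x v ∈ K := by
    intro x v hv
    induction hv using Submodule.span_induction with
    | mem v hv =>
      obtain ⟨c, d, rfl⟩ := hv
      rw [← b.comm, ← b.R_mul]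
      exact Submodule.subset_span ⟨c, d * x, rfl⟩
    | zero => rw [map_zero]; exact K.zero_mem
    | add v w _ _ hv hw => rw [map_add]; exact K.add_mem hv hw
    | smul r v _ hv => rw [map_smul]; exact K.smul_mem r hv
  have hξ : ξ ∈ K := Submodule.subset_span ⟨1, 1, by rw [b.L_one, b.R_one]⟩
  have hLn : ∀ v ∈ K, NrmAt τ (fun x => ‖b.L x v‖) := by
    refine ub_span ?_
    rintro v ⟨c, d, rfl⟩
    refine ub_gen (C := ‖d‖ * ‖c‖) (by positivity) (fun x => norm_nonneg _) fun x => ?_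
    rw [← b.L_mul, b.comm]
    calc ‖b.R d (b.L (x * c) ξ)‖ ^ 2 ≤ (‖d‖ * ‖b.L (x * c) ξ‖) ^ 2 :=
          pow_le_pow_left₀ (norm_nonneg _) (ub_R b _ _) 2
      _ = ‖d‖ ^ 2 * ‖b.L (x * c) ξ‖ ^ 2 := mul_pow _ _ _
      _ ≤ ‖d‖ ^ 2 * (‖c‖ ^ 2 * hs τ x) :=
          mul_le_mul_of_nonneg_left ((hL _).trans (hs_mul_le' hτ x c)) (sq_nonneg _)
      _ = (‖d‖ * ‖c‖) ^ 2 * hs τ x := by ring
  have hRn : ∀ v ∈ K, NrmAt τ (fun x => ‖b.R x v‖) := by
    refine ub_span ?_
    rintro v ⟨c, d, rfl⟩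
    refine ub_gen (C := ‖c‖ * ‖d‖) (by positivity) (fun x => norm_nonneg _) fun x => ?_
    rw [← b.comm, ← b.R_mul]
    calc ‖b.L c (b.R (d * x) ξ)‖ ^ 2 ≤ (‖c‖ * ‖b.R (d * x) ξ‖) ^ 2 :=
          pow_le_pow_left₀ (norm_nonneg _) (ub_L b _ _) 2
      _ = ‖c‖ ^ 2 * ‖b.R (d * x) ξ‖ ^ 2 := mul_pow _ _ _
      _ ≤ ‖c‖ ^ 2 * (‖d‖ ^ 2 * hs τ x) :=
          mul_le_mul_of_nonneg_left ((hR _).trans (hs_mul_le hτ d x)) (sq_nonneg _)
      _ = (‖c‖ * ‖d‖) ^ 2 * hs τ x := by ring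
  set b' : Bimod B K := ubK b K hLK hRK with hb'
  have hL' : ∀ (x : B) (v : K), ‖b'.L x v‖ ≤ ‖x‖ * ‖v‖ := fun x v => ub_L b x v
  have hR' : ∀ (x : B) (v : K), ‖b'.R x v‖ ≤ ‖x‖ * ‖v‖ := fun x v => ub_R b x v
  refine ⟨UniformSpace.Completion K, inferInstance, inferInstance, inferInstance,
    ubE b'.L hL', ubE b'.R hR', ((⟨ξ, hξ⟩ : K) : UniformSpace.Completion K),
    ub_HBim b' hL' hR' (fun v => hLn v v.2) (fun v => hRn v v.2), ubE_norm _ _, ubE_norm _ _,
    ?_, ?_⟩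
  · intro x y
    rw [ubE_coe, ubE_coe, UniformSpace.Completion.inner_coe]
    rfl
  · refine (UniformSpace.Completion.denseRange_coe (α := K)).mono ?_
    rintro _ ⟨⟨v, hv⟩, rfl⟩
    show ((⟨v, hv⟩ : K) : UniformSpace.Completion K) ∈ Submodule.span ℂ
      {v | ∃ x y, v = ubE b'.L hL' x (ubE b'.R hR' y ((⟨ξ, hξ⟩ : K) : UniformSpace.Completion K))}
    induction hv using Submodule.span_induction with
    | mem v hv =>
      obtain ⟨c, d, hcd⟩ := hv
      refine Submodule.subset_span ⟨c, d, ?_⟩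
      rw [ubE_coe, ubE_coe]
      congr 1
      exact Subtype.ext hcd
    | zero => exact Submodule.zero_mem _
    | add v w hv hw ihv ihw =>
      have h1 := Submodule.add_mem _ ihv ihw
      rw [← UniformSpace.Completion.coe_add] at h1
      exact h1
    | smul r v hv ihv =>
      have h1 := Submodule.smul_mem _ r ihv
      rw [← UniformSpace.Completion.coe_smul] at h1
      exact h1

end restr


private lemma bc_pos {N : Type} [CStarAlgebra N] [PartialOrder N] [StarOrderedRing N]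
    {φ : N →ₗ[ℂ] N} (h : CPm φ) : ∀ x, 0 ≤ x → 0 ≤ φ x := by
  intro x hx
  obtain ⟨y, hy, rfl⟩ := exists_sqrt hx
  have h1 := h 1 (fun _ => y) (fun _ => 1)
  simpa [herm_of_nonneg hy] using h1

private lemma bc_star {N : Type} [CStarAlgebra N] [PartialOrder N] [StarOrderedRing N]
    {φ : N →ₗ[ℂ] N} (h : CPm φ) : ∀ x, φ (star x) = star (φ x) := by
  have hsa : ∀ x : N, star x = x → star (φ x) = φ x := by
    intro x hx
    have h1 : 0 ≤ ‖x‖ • (1 : N) - x := sub_nonneg.2 (le_smul_of_norm hx)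
    have h2 : 0 ≤ ‖x‖ • (1 : N) := smul_nonneg_real (norm_nonneg x) zero_le_one
    have h3 : φ x = φ (‖x‖ • (1 : N)) - φ (‖x‖ • (1 : N) - x) := by
      rw [← map_sub]
      congr 1
      abel
    rw [h3, star_sub, herm_of_nonneg (bc_pos h _ h1), herm_of_nonneg (bc_pos h _ h2)]
  intro x
  have hre : star ((realPart x : selfAdjoint N) : N) = realPart x := (realPart x).2
  have him : star ((imaginaryPart x : selfAdjoint N) : N) = imaginaryPart x := (imaginaryPart x).2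
  have hx : (realPart x : N) + Complex.I • (imaginaryPart x : N) = x :=
    realPart_add_I_smul_imaginaryPart x
  calc φ (star x) = φ ((realPart x : N) - Complex.I • (imaginaryPart x : N)) := by
        rw [← hx, star_add, star_smul, hre, him, RCLike.star_def, Complex.conj_I, neg_smul,
          ← sub_eq_add_neg, hx]
    _ = φ (realPart x : N) - Complex.I • φ (imaginaryPart x : N) := by
        rw [map_sub, map_smul]
    _ = star (φ ((realPart x : N) + Complex.I • (imaginaryPart x : N))) := by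
        rw [map_add, map_smul, star_add, star_smul, hsa _ hre, hsa _ him, RCLike.star_def,
          Complex.conj_I, neg_smul, ← sub_eq_add_neg]
    _ = star (φ x) := by rw [hx]

private lemma bc_cp {N : Type} [CStarAlgebra N] [PartialOrder N] [StarOrderedRing N]
    {τ : N →ₗ[ℂ] ℂ} {φ : N →ₗ[ℂ] N} (hτ : Trc τ) (h : CPm φ) (m : ℕ) (x y : Fin m → N) :
    0 ≤ (∑ i, ∑ j, τ (star (x i) * x j * φ (y j * star (y i)))).re := by
  have h1 := rt_nonneg hτ (h m (fun i => star (y i)) (fun i => star (x i)))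
  unfold rt at h1
  rw [map_sum, Finset.sum_congr rfl (fun i _ => map_sum τ _ _)] at h1
  rw [Finset.sum_comm]
  refine h1.trans_eq ?_
  congr 1
  refine Finset.sum_congr rfl fun i _ => Finset.sum_congr rfl fun j _ => ?_
  rw [star_star, star_star, hτ.tr, ← mul_assoc]

theorem pBC : StBC := by
  intro B _ _ _ τ φ hτ hφ h1 htr
  obtain ⟨H, _, _, b, ξ, hb⟩ := bcBim B τ φ hτ (bc_star hφ) (bc_cp hτ hφ)
  obtain ⟨g1, g2, _⟩ := ub_calc (τ := τ) (φ := φ) (L := fun x v => b.L x v)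
    (R := fun x v => b.R x v) b.R_one b.L_one b.L_mul b.R_mul b.L_adj b.R_adj hb
  have hsub : ∀ x, rt τ (star x * x * φ 1) ≤ hs τ x := by
    intro x
    have := rt_mul_mono' hτ h1 (nonneg_star_mul x)
    rwa [mul_one] at this
  have hsub' : ∀ x, rt τ (φ (x * star x)) ≤ hs τ x := by
    intro x
    have h3 := htr (x * star x) (nonneg_mul_star x)
    have h4 : rt τ (x * star x) = hs τ x := by
      rw [← hs_star hτ, hs_eq_rt, star_star]
    rwa [h4] at h3
  obtain ⟨H', i1, i2, i3, L, R, ξ', hHB, -, -, hin, hd⟩ := ub_hilb hτ b ξ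
    (fun x => (g1 x).trans_le (hsub x)) (fun x => (g2 x).trans_le (hsub' x))
  exact ⟨H', i1, i2, i3, L, R, ξ', hHB, fun x y => (hin x y).trans (hb x y), hd⟩

end Helper61.HT
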