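import Pool.Agent.Helper61.HT.LibM

/-!
# The macroscopic step (assembly)
-/

set_option linter.unusedSectionVars false

namespace Helper61.HT

open scoped ComplexOrder
open Filter Topology

section

variable {N : Type} [CStarAlgebra N] [PartialOrder N] [StarOrderedRing N] {τ : N →ₗ[ℂ] ℂ}
  {ι : Type}

/-- Facts about a sequence of projections used in the macroscopic step. -/
private structure Ctx (τ : N →ₗ[ℂ] ℂ) (F S : Finset ι) (u : ι → N) (Q : N) (q : ℕ → N) (n : ℕ)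
    (k : ℕ) (K δ W : ℝ) : Prop where
  trc : Trc τ
  ne : F.Nonempty
  un : ∀ s, Un (u s)
  sub : S ⊆ F
  gapf : GapF τ F u S k K δ
  K0 : 0 ≤ K
  pr : ∀ i < n, Pr (q i)
  H0 : ∀ i ≤ n, 0 ≤ Hi F u Q q i ∧ Hi F u Q q i ≤ 1
  sum : ∑ i ∈ Finset.range n, Gi F u Q q i * q i * Gi F u Q q i ≤ (4 : ℝ) • 1
  lya : ∀ s ∈ F, ∑ i ∈ Finset.range n, rt τ (q i * (Gi F u Q q i - u s * Gi F u Q q i * star (u s)) *
      (Gi F u Q q i - u s * Gi F u Q q i * star (u s))) ≤ W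

private lemma Gi_eq (F : Finset ι) (u : ι → N) (Q : N) (q : ℕ → N) (i : ℕ) :
    Gi F u Q q i = 1 - Hi F u Q q i := by rw [Hi, sub_sub_cancel]

private lemma famgap (hScp : StScp) (hEnM : StEnM) {F S : Finset ι} {u : ι → N} {Q : N}
    {q : ℕ → N} {n k : ℕ} {K δ W : ℝ} (h : Ctx τ F S u Q q n k K δ W) (θ : ℕ → N →ₗ[ℂ] N)
    {E : ℝ} (hθ : ∀ i < n, SCP τ (θ i) ∧ θ i 1 ≤ q i)
    (hE : ∑ i ∈ Finset.range n, EnM τ F u (θ i) ≤ E) :
    ∑ i ∈ Finset.range n, gap τ F u k (Cj (1 - Hi F u Q q i) (θ i)) ≤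
      K * (3 * E + 6 * F.card * W) + 4 * δ := by
  have hτ := h.trc
  obtain ⟨s1, s2, -, -⟩ := hScp N τ hτ
  obtain ⟨e1, -, e3, -⟩ := hEnM N τ ι F u hτ h.ne h.un
  have hG : ∀ i < n, 0 ≤ 1 - Hi F u Q q i ∧ 1 - Hi F u Q q i ≤ 1 := fun i hi =>
    ⟨sub_nonneg.2 (h.H0 i hi.le).2, sub_le_self _ (h.H0 i hi.le).1⟩
  have hGn : ∀ i < n, ‖1 - Hi F u Q q i‖ ≤ 1 := fun i hi =>
    norm_le_one_of_nonneg (hG i hi).1 (hG i hi).2
  have hcj : ∀ i < n, SCP τ (Cj (1 - Hi F u Q q i) (θ i)) := fun i hi =>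
    (s1 _ _ (hθ i hi).1 (hGn i hi)).1
  -- the average
  have hle : ∀ i < n, (Cj (1 - Hi F u Q q i) (θ i)) 1 ≤
      Gi F u Q q i * q i * Gi F u Q q i := by
    intro i hi
    have hh := herm_of_nonneg (hG i hi).1
    rw [Gi_eq, Cj_apply, mul_one, hh]
    have a1 : (1 - Hi F u Q q i) * (1 - Hi F u Q q i) ≤ 1 :=
      (le_mul_self_of_le_one (hG i hi).1 (hG i hi).2).trans (hG i hi).2
    have a2 : θ i ((1 - Hi F u Q q i) * (1 - Hi F u Q q i)) ≤ θ i 1 := by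
      have := (hθ i hi).1.nonneg _ (sub_nonneg.2 a1)
      rw [map_sub] at this
      exact sub_nonneg.1 this
    have a3 := conj_mono (a2.trans (hθ i hi).2) (1 - Hi F u Q q i)
    rwa [hh] at a3
  have hsum1 : (1 / 4 : ℝ) • ∑ i ∈ Finset.range n, (Cj (1 - Hi F u Q q i) (θ i)) 1 ≤ 1 := by
    have a1 : ∑ i ∈ Finset.range n, (Cj (1 - Hi F u Q q i) (θ i)) 1 ≤ (4 : ℝ) • 1 :=
      (Finset.sum_le_sum fun i hi => hle i (Finset.mem_range.1 hi)).trans h.sum
    have a2 := smul_mono_real (c := (1 / 4 : ℝ)) (by norm_num) a1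
    rw [smul_smul] at a2
    norm_num at a2
    norm_num
    exact a2
  have hΨ := s2 ℕ (Finset.range n) (fun i => Cj (1 - Hi F u Q q i) (θ i)) (1 / 4) (by norm_num)
    (fun i hi => hcj i (Finset.mem_range.1 hi)) hsum1
  have hgap := h.gapf _ hΨ
  rw [gap_smul, gap_sum, EnM_smul, EnM_sum] at hgap
  have hEn : ∑ i ∈ Finset.range n, EnM τ S u (Cj (1 - Hi F u Q q i) (θ i)) ≤
      3 * E + 6 * F.card * W := by
    have a1 : ∀ i ∈ Finset.range n, EnM τ S u (Cj (1 - Hi F u Q q i) (θ i)) ≤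
        3 * EnM τ F u (θ i) + 6 * ∑ s ∈ S, rt τ (q i * (Gi F u Q q i -
          u s * Gi F u Q q i * star (u s)) * (Gi F u Q q i - u s * Gi F u Q q i * star (u s))) := by
      intro i hi
      have hi' := Finset.mem_range.1 hi
      have b1 := e3 (θ i) (1 - Hi F u Q q i) (q i) S (hθ i hi').1 (hθ i hi').2
        (hG i hi').1 (hG i hi').2
      have b2 := EnM_mono F u hτ hEnM h.un (hθ i hi').1 h.sub
      rw [Gi_eq]
      linarith
    refine (Finset.sum_le_sum a1).trans ?_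
    rw [Finset.sum_add_distrib, ← Finset.mul_sum, ← Finset.mul_sum, Finset.sum_comm]
    have a2 : ∑ s ∈ S, ∑ i ∈ Finset.range n, rt τ (q i * (Gi F u Q q i -
          u s * Gi F u Q q i * star (u s)) * (Gi F u Q q i - u s * Gi F u Q q i * star (u s))) ≤
        F.card * W := by
      have c1 : ∀ s ∈ F, 0 ≤ ∑ i ∈ Finset.range n, rt τ (q i * (Gi F u Q q i -
          u s * Gi F u Q q i * star (u s)) *
            (Gi F u Q q i - u s * Gi F u Q q i * star (u s))) := by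
        intro s _
        refine Finset.sum_nonneg fun i hi => ?_
        have hi' := Finset.mem_range.1 hi
        have hh : star (Gi F u Q q i - u s * Gi F u Q q i * star (u s)) =
            Gi F u Q q i - u s * Gi F u Q q i * star (u s) := by
          rw [Gi_eq]
          have := herm_of_nonneg (hG i hi').1
          rw [star_sub, star_mul, star_mul, star_star, this, mul_assoc]
        rw [mul_assoc]
        refine rt_mul_nonneg hτ (h.pr i hi').nonneg ?_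
        have := nonneg_star_mul (Gi F u Q q i - u s * Gi F u Q q i * star (u s))
        rwa [hh] at this
      calc _ ≤ ∑ s ∈ F, ∑ i ∈ Finset.range n, rt τ (q i * (Gi F u Q q i -
          u s * Gi F u Q q i * star (u s)) *
            (Gi F u Q q i - u s * Gi F u Q q i * star (u s))) :=
            Finset.sum_le_sum_of_subset_of_nonneg h.sub fun s hs _ => c1 s hs
        _ ≤ ∑ _s ∈ F, W := Finset.sum_le_sum fun s hs => h.lya s hs
        _ = F.card * W := by rw [Finset.sum_const, nsmul_eq_mul]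
    linarith
  have hK := mul_le_mul_of_nonneg_left hEn h.K0
  linarith

end

/-- The numerical core: the overlap is small. -/
private lemma num1 (n : ℕ) (t o b ρ γ : ℕ → ℝ) (Λ A B D s : ℝ) (hΛ : 10 ^ 10 ≤ Λ)
    (hB : 0 ≤ B) (hs : 0 ≤ s)
    (ht : ∀ i < n, 0 ≤ t i) (hb : ∀ i < n, 0 ≤ b i) (hρ : ∀ i < n, 0 ≤ ρ i)
    (h : ∀ i < n, Λ * b i ≤ A * t i + 28000 * o i + 5000 * γ i + B * Real.sqrt (ρ i * t i))
    (h1 : ∑ i ∈ Finset.range n, o i ≤ 100 * ∑ i ∈ Finset.range n, b i +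
      D * ∑ i ∈ Finset.range n, t i)
    (h2 : ∑ i ∈ Finset.range n, ρ i ≤ s * ∑ i ∈ Finset.range n, t i)
    (h3 : ∑ i ∈ Finset.range n, γ i ≤ s * ∑ i ∈ Finset.range n, t i) :
    Λ * ∑ i ∈ Finset.range n, o i ≤ (200 * (A + 5000 * s + B * Real.sqrt s + 28000 * D) + Λ * D) *
      ∑ i ∈ Finset.range n, t i := by
  set m := ∑ i ∈ Finset.range n, t i with hm
  have hm0 : 0 ≤ m := Finset.sum_nonneg fun i hi => ht i (Finset.mem_range.1 hi)
  have hb0 : 0 ≤ ∑ i ∈ Finset.range n, b i :=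
    Finset.sum_nonneg fun i hi => hb i (Finset.mem_range.1 hi)
  have h4 : ∑ i ∈ Finset.range n, Λ * b i ≤ ∑ i ∈ Finset.range n,
      (A * t i + 28000 * o i + 5000 * γ i + B * Real.sqrt (ρ i * t i)) :=
    Finset.sum_le_sum fun i hi => h i (Finset.mem_range.1 hi)
  rw [Finset.sum_add_distrib, Finset.sum_add_distrib, Finset.sum_add_distrib, ← Finset.mul_sum,
    ← Finset.mul_sum, ← Finset.mul_sum, ← Finset.mul_sum, ← Finset.mul_sum] at h4
  have h5 : ∑ i ∈ Finset.range n, Real.sqrt (ρ i * t i) ≤ Real.sqrt s * m := by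
    have a1 : ∑ i ∈ Finset.range n, Real.sqrt (ρ i * t i) =
        ∑ i ∈ Finset.range n, Real.sqrt (ρ i) * Real.sqrt (t i) :=
      Finset.sum_congr rfl fun i hi => Real.sqrt_mul (hρ i (Finset.mem_range.1 hi)) _
    have a2 := Finset.sum_mul_sq_le_sq_mul_sq (Finset.range n) (fun i => Real.sqrt (ρ i))
      (fun i => Real.sqrt (t i))
    have a3 : ∑ i ∈ Finset.range n, Real.sqrt (ρ i) ^ 2 = ∑ i ∈ Finset.range n, ρ i :=
      Finset.sum_congr rfl fun i hi => Real.sq_sqrt (hρ i (Finset.mem_range.1 hi))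
    have a4 : ∑ i ∈ Finset.range n, Real.sqrt (t i) ^ 2 = m :=
      Finset.sum_congr rfl fun i hi => Real.sq_sqrt (ht i (Finset.mem_range.1 hi))
    rw [a3, a4] at a2
    rw [a1]
    refine abs_le_of_sq_le_sq' ?_ (by positivity) |>.2
    have a5 : (Real.sqrt s * m) ^ 2 = s * m * m := by
      rw [mul_pow, Real.sq_sqrt hs]; ring
    rw [a5]
    exact a2.trans (mul_le_mul_of_nonneg_right h2 hm0)
  have h6 := mul_le_mul_of_nonneg_left h5 hB
  set Sb := ∑ i ∈ Finset.range n, b i with hSb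
  set So := ∑ i ∈ Finset.range n, o i with hSo
  have h7 : Λ * Sb ≤ (A + 5000 * s + B * Real.sqrt s + 28000 * D) * m + 2800000 * Sb := by
    nlinarith
  have h8 : Λ / 2 * Sb ≤ (A + 5000 * s + B * Real.sqrt s + 28000 * D) * m := by
    have : 2800000 * Sb ≤ Λ / 2 * Sb := mul_le_mul_of_nonneg_right (by linarith) hb0
    linarith
  have h9 : Λ * So ≤ Λ * (100 * Sb + D * m) :=
    mul_le_mul_of_nonneg_left h1 (by linarith)
  nlinarith

/-- Markov selection. -/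
private lemma num2 (n : ℕ) (t : ℕ → ℝ) (x : Fin 7 → ℕ → ℝ) (a : Fin 7 → ℝ)
    (ha : ∀ j, 0 < a j) (ht : ∀ i < n, 0 ≤ t i) (hx : ∀ j, ∀ i < n, 0 ≤ x j i)
    (h : ∀ j, ∑ i ∈ Finset.range n, x j i ≤ a j / 14 * ∑ i ∈ Finset.range n, t i) :
    1 / 2 * ∑ i ∈ Finset.range n, t i ≤
      ∑ i ∈ (Finset.range n).filter (fun i => ∀ j, x j i ≤ a j * t i), t i := by
  classical
  set m := ∑ i ∈ Finset.range n, t i with hm
  have h1 : ∑ i ∈ (Finset.range n).filter (fun i => ¬ ∀ j, x j i ≤ a j * t i), t i ≤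
      ∑ i ∈ (Finset.range n).filter (fun i => ¬ ∀ j, x j i ≤ a j * t i), ∑ j, x j i / a j := by
    refine Finset.sum_le_sum fun i hi => ?_
    rw [Finset.mem_filter, Finset.mem_range, not_forall] at hi
    obtain ⟨hin, j, hj⟩ := hi
    rw [not_le] at hj
    have h2 : x j i / a j ≤ ∑ j, x j i / a j :=
      Finset.single_le_sum (f := fun j => x j i / a j)
        (fun j _ => div_nonneg (hx j i hin) (ha j).le) (Finset.mem_univ j)
    refine le_trans ?_ h2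
    rw [le_div_iff₀ (ha j)]
    linarith
  have h2 : ∑ i ∈ (Finset.range n).filter (fun i => ¬ ∀ j, x j i ≤ a j * t i),
      ∑ j, x j i / a j ≤ ∑ i ∈ Finset.range n, ∑ j, x j i / a j :=
    Finset.sum_le_sum_of_subset_of_nonneg (Finset.filter_subset _ _) fun i hi _ =>
      Finset.sum_nonneg fun j _ => div_nonneg (hx j i (Finset.mem_range.1 hi)) (ha j).le
  have h3 : ∑ i ∈ Finset.range n, ∑ j, x j i / a j ≤ ∑ _j : Fin 7, m / 14 := by
    rw [Finset.sum_comm]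
    refine Finset.sum_le_sum fun j _ => ?_
    rw [← Finset.sum_div, div_le_iff₀ (ha j)]
    have := h j
    linarith
  have h4 : ∑ _j : Fin 7, m / 14 = m / 2 := by
    rw [Finset.sum_const, Finset.card_univ, Fintype.card_fin, nsmul_eq_mul]
    push_cast; ring
  have h5 := Finset.sum_filter_add_sum_filter_not (Finset.range n)
    (fun i => ∀ j, x j i ≤ a j * t i) t
  linarith

section

variable {N : Type} [CStarAlgebra N] [PartialOrder N] [StarOrderedRing N] {τ : N →ₗ[ℂ] ℂ}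
  {ι : Type}

/-- `τ(G q G H) ≤ τ(q H)` for `G = 1 - H`. -/
private lemma rt_sand (hτ : Trc τ) {H q : N} (hH : 0 ≤ H) (hH1 : H ≤ 1) (hq : Pr q) :
    rt τ ((1 - H) * q * (1 - H) * H) ≤ rt τ (q * H) := by
  obtain ⟨c, hc, hcc⟩ := exists_sqrt hH
  have hcs := herm_of_nonneg hc
  have h1 : (1 - H) * (1 - H) ≤ 1 :=
    (le_mul_self_of_le_one (sub_nonneg.2 hH1) (sub_le_self _ hH)).trans (sub_le_self _ hH)
  have h2 := conj_mono h1 c
  rw [hcs, mul_one, hcc] at h2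
  have h3 : c * ((1 - H) * (1 - H)) * c = (1 - H) * H * (1 - H) := by
    rw [← hcc]; noncomm_ring
  rw [h3] at h2
  have h4 := rt_mul_mono' hτ h2 hq.nonneg
  refine le_trans (le_of_eq ?_) h4
  have h5 : (1 - H) * q * (1 - H) * H = ((1 - H) * (q * ((1 - H) * H))) := by noncomm_ring
  rw [h5, rt_mul_comm hτ]
  congr 1
  noncomm_ring

theorem pFMT (hTT : StTT) (hRR : StRR) (hPert : StPert) (hSumA : StSumA) (hSumL : StSumL)
    (hSumP : StSumP) (hScp : StScp) (hEnM : StEnM) (hHF : StHF) (hSI : StSI) (hInit : StInit)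
    (hGreedy : StGreedy) (hLoc : StLoc) (hR : StR) : StFMT := by
  classical
  intro ε' hε'
  obtain ⟨C₂, hC₂, hLoc⟩ := hLoc
  obtain ⟨κ, η, hκ, hη, hR⟩ := hR (max (4 * C₂) 1) ε' (le_max_right _ _) hε'
  set Λ : ℝ := 10 ^ 10 + 8 * C₂ / κ with hΛdef
  have hΛ10 : (10 : ℝ) ^ 10 ≤ Λ := by
    have : 0 < 8 * C₂ / κ := by positivity
    linarith
  have hΛ0 : 0 < Λ := lt_of_lt_of_le (by norm_num) hΛ10
  have hΛ1 : 1 ≤ Λ := le_trans (by norm_num) hΛ10
  have hΛκ : 8 * C₂ ≤ κ * Λ := by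
    have : κ * (8 * C₂ / κ) = 8 * C₂ := by field_simp
    nlinarith
  obtain ⟨σ, hσ, hLoc⟩ := hLoc Λ hΛ10
  set σ₂ : ℝ := min σ ((κ / (40 * C₂)) ^ 2) with hσ₂def
  have hσ₂ : 0 < σ₂ := lt_min hσ (by positivity)
  have hσ₂σ : σ₂ ≤ σ := min_le_left _ _
  have hσ₂r : Real.sqrt σ₂ ≤ κ / (40 * C₂) := by
    rw [Real.sqrt_le_left (by positivity)]
    exact min_le_right _ _
  set s : ℝ := min (σ₂ / 14) (min (1 / 10 ^ 104) ((1 / 10 ^ 100 / (4 * Λ + 1001)) ^ 2)) with hsdef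
  have hs0 : 0 < s := lt_min (by positivity) (lt_min (by positivity) (by positivity))
  have hs1 : s ≤ σ₂ / 14 := min_le_left _ _
  have hs2 : s ≤ 1 / 10 ^ 104 := (min_le_right _ _).trans (min_le_left _ _)
  have hs3 : (4 * Λ + 1001) * Real.sqrt s ≤ 1 / 10 ^ 100 := by
    have h1 : Real.sqrt s ≤ 1 / 10 ^ 100 / (4 * Λ + 1001) := by
      rw [Real.sqrt_le_left (by positivity)]
      exact (min_le_right _ _).trans (min_le_right _ _)
    have h2 : (4 * Λ + 1001) * (1 / 10 ^ 100 / (4 * Λ + 1001)) = 1 / 10 ^ 100 := by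
      field_simp
    rw [← h2]
    exact mul_le_mul_of_nonneg_left h1 (by positivity)
  refine ⟨η / (4 * Λ), by positivity, fun c hc => ?_⟩
  refine ⟨s * (c / (2 * Λ)) / 16, by positivity, ?_⟩
  intro K εf g hεf hg
  obtain ⟨eR, heR, hR⟩ := hR εf g hεf
  set K₁ : ℝ := |K| with hK₁
  have hK₁0 : 0 ≤ K₁ := abs_nonneg K
  have hg' : (1 : ℝ) ≤ g := by exact_mod_cast hg
  set ε₁ : ℝ := s / (12 * (K₁ + 1)) with hε₁def
  have hε₁ : 0 < ε₁ := by positivity
  obtain ⟨εL, hεL, hLoc⟩ := hLoc eR ε₁ g heR hε₁ hg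
  set x : ℝ := min (1 / 10 ^ 106 / Λ) (s / (3072 * g ^ 2 * (K₁ + 1))) with hxdef
  have hx : 0 < x := lt_min (by positivity) (by positivity)
  set ε : ℝ := min (min εL ε₁) (x ^ 2) with hεdef
  have hε : 0 < ε := lt_min (lt_min hεL hε₁) (by positivity)
  have hεε₁ : ε ≤ ε₁ := (min_le_left _ _).trans (min_le_right _ _)
  have hsqε : Real.sqrt ε ≤ x := by
    rw [Real.sqrt_le_left hx.le]
    exact min_le_right _ _
  obtain ⟨k₁, hLoc⟩ := hLoc ε hε ((min_le_left _ _).trans (min_le_left _ _))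
  obtain ⟨k₂, hSI⟩ := hSI Λ (1 / 10 ^ 103) ε (1 / 10 ^ 103) g hΛ1 (by norm_num) (by norm_num) hε
    (by norm_num) hg
  set k := max k₁ k₂ with hkdef
  set ω : ℝ := min (ε / 20 * c) (min (s * (c / (2 * Λ)) / (48 * g * (K₁ + 1)))
    (eR * (c / (4 * Λ)))) with hωdef
  refine ⟨k, ω, lt_min (by positivity) (lt_min (by positivity) (by positivity)), ?_⟩
  intro N _ _ _ τ ι F S u Q hII hH hFg hSF hu hgapf hQ hEnQ hcQ
  have hτ := hII.trc
  have hcpl := hII.cpl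
  have hFne : F.Nonempty := Finset.card_pos.1 (by rw [hFg]; exact hg)
  have hFr : (F.card : ℝ) = g := by rw [hFg]
  have tt := hTT N τ ι F u hτ hFne hu
  have rr := hRR N τ ι F u hτ hFne hu tt
  obtain ⟨s1, s2, s3, s4⟩ := hScp N τ hτ
  obtain ⟨e1, e2, e3, e4⟩ := hEnM N τ ι F u hτ hFne hu
  obtain ⟨f1, f2, f3, f4, f5⟩ := hHF N τ ι F u hτ hFne hu
  have hρ0 : 0 < rt τ (1 - Q) := lt_of_lt_of_le hc hcQ
  -- initial object
  obtain ⟨ψ₀, m₀, w₀, hobj₀, hdef₀, hbd₀⟩ := hInit N τ ι F u Q ε hτ hcpl hH hu hQ hρ0 hε (by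
    refine hEnQ.trans ((min_le_left _ _).trans ?_)
    exact mul_le_mul_of_nonneg_left hcQ (by positivity))
  -- greedy process
  obtain ⟨n, q, ψ, mm, v, R, hgr, hmass⟩ := hGreedy N τ ι F u Q ε Λ (1 / 10 ^ 100) ψ₀ m₀ w₀ hτ hFne
    hu rr hQ hρ0 hε hΛ1 (by norm_num) (by norm_num) hobj₀ hdef₀ hbd₀
  set m : ℝ := ∑ i ∈ Finset.range n, rt τ (q i) with hm
  have hmc : c / (2 * Λ) ≤ m :=
    le_trans (div_le_div_of_nonneg_right hcQ (by positivity)) hmass
  have hm0 : 0 < m := lt_of_lt_of_le (by positivity) hmc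
  have hqpr : ∀ i < n, Pr (q i) := fun i hi => (hgr i hi).1.pr
  have hqpos : ∀ i < n, 0 < rt τ (q i) := fun i hi =>
    (hqpr i hi).rt_pos hτ (hgr i hi).1.ne
  obtain ⟨hA1, hA2⟩ := hSumA N τ ι F u Q q n hτ hFne hu rr hQ hqpr
  have hH0 : ∀ i ≤ n, 0 ≤ Hi F u Q q i ∧ Hi F u Q q i ≤ 1 := fun i hi =>
    ⟨(hA1 i hi).1, (hA1 i hi).2.1⟩
  have hL := hSumL N τ ι F u ε Q q n hτ hFne hu rr hQ hε fun i hi =>
    ⟨hqpr i hi, (hgr i hi).1.enq⟩
  have hP := hSumP N τ ι F u ε Q q n hτ hFne hu rr hQ hε fun i hi =>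
    ⟨hqpr i hi, (hgr i hi).1.enq⟩
  set W : ℝ := 128 * g * Real.sqrt ε * m + 2 * ω with hW
  have hctx : Ctx τ F S u Q q n k K₁ (s * (c / (2 * Λ)) / 16) W := by
    refine ⟨hτ, hFne, hu, hSF, fun θ hθ => ?_, hK₁0, hqpr, hH0, hA2, fun t ht => ?_⟩
    · refine (hgapf θ hθ).trans ?_
      have a1 := (e1 θ hθ S).1
      have a2 : K * EnM τ S u θ ≤ K₁ * EnM τ S u θ :=
        mul_le_mul_of_nonneg_right (le_abs_self K) a1
      linarith
    · refine (hL t ht).trans ?_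
      have a1 : hs τ (u t * Q - Q * u t) ≤ En τ F u Q :=
        Finset.single_le_sum (f := fun r => hs τ (u r * Q - Q * u r))
          (fun r _ => hs_nonneg hτ _) ht
      rw [hFr]
      linarith
  -- bound of the right hand side of `famgap`
  have hx1 : Real.sqrt ε ≤ 1 / 10 ^ 106 / Λ := hsqε.trans (min_le_left _ _)
  have hx2 : Real.sqrt ε ≤ s / (3072 * g ^ 2 * (K₁ + 1)) := hsqε.trans (min_le_right _ _)
  have hsε0 : 0 ≤ Real.sqrt ε := Real.sqrt_nonneg ε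
  have hfb : K₁ * (3 * (ε₁ * m) + 6 * F.card * W) + 4 * (s * (c / (2 * Λ)) / 16) ≤ s * m := by
    have a1 : K₁ * (3 * (ε₁ * m)) ≤ s * m / 4 := by
      have b1 : (K₁ + 1) * ε₁ = s / 12 := by
        rw [hε₁def]; field_simp
      have b2 : K₁ * ε₁ ≤ s / 12 := by
        rw [← b1]; nlinarith
      nlinarith [mul_le_mul_of_nonneg_right b2 hm0.le]
    have a2 : K₁ * (6 * g * (128 * g * Real.sqrt ε * m)) ≤ s * m / 4 := by
      have b1 : (K₁ + 1) * (g ^ 2 * (s / (3072 * g ^ 2 * (K₁ + 1)))) = s / 3072 := by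
        field_simp
      have b2 : K₁ * (g ^ 2 * Real.sqrt ε) ≤ s / 3072 := by
        rw [← b1]
        have b3 : (g : ℝ) ^ 2 * Real.sqrt ε ≤ g ^ 2 * (s / (3072 * g ^ 2 * (K₁ + 1))) :=
          mul_le_mul_of_nonneg_left hx2 (by positivity)
        have b4 : 0 ≤ (g : ℝ) ^ 2 * Real.sqrt ε := by positivity
        nlinarith
      nlinarith [mul_le_mul_of_nonneg_right b2 hm0.le]
    have a3 : K₁ * (6 * g * (2 * ω)) ≤ s * m / 4 := by
      have b1 : ω ≤ s * (c / (2 * Λ)) / (48 * g * (K₁ + 1)) :=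
        (min_le_right _ _).trans (min_le_left _ _)
      have b2 : (K₁ + 1) * (g * (s * (c / (2 * Λ)) / (48 * g * (K₁ + 1)))) =
          s * (c / (2 * Λ)) / 48 := by field_simp
      have b3 : K₁ * (g * (s * (c / (2 * Λ)) / (48 * g * (K₁ + 1)))) ≤
          s * (c / (2 * Λ)) / 48 := by
        rw [← b2]
        have : 0 ≤ (g : ℝ) * (s * (c / (2 * Λ)) / (48 * g * (K₁ + 1))) := by positivity
        nlinarith
      have b4 : K₁ * (g * ω) ≤ s * (c / (2 * Λ)) / 48 :=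
        le_trans (mul_le_mul_of_nonneg_left (mul_le_mul_of_nonneg_left b1 (by positivity)) hK₁0)
          b3
      have b5 : s * (c / (2 * Λ)) ≤ s * m := mul_le_mul_of_nonneg_left hmc hs0.le
      nlinarith
    have a4 : s * (c / (2 * Λ)) ≤ s * m := mul_le_mul_of_nonneg_left hmc hs0.le
    rw [hFr, hW]
    nlinarith
  -- gap sums of families
  have hfam : ∀ θ : ℕ → N →ₗ[ℂ] N, (∀ i < n, SCP τ (θ i) ∧ θ i 1 ≤ q i) →
      (∀ i < n, EnM τ F u (θ i) ≤ ε₁ * rt τ (q i)) →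
      ∑ i ∈ Finset.range n, gap τ F u k (Cj (1 - Hi F u Q q i) (θ i)) ≤ s * m := by
    intro θ h1 h2
    refine (famgap hScp hEnM hctx θ h1 (E := ε₁ * m) ?_).trans hfb
    rw [hm, Finset.mul_sum]
    exact Finset.sum_le_sum fun i hi => h2 i (Finset.mem_range.1 hi)
  have hG : ∀ i < n, 0 ≤ 1 - Hi F u Q q i ∧ 1 - Hi F u Q q i ≤ 1 := fun i hi =>
    ⟨sub_nonneg.2 (hH0 i hi.le).2, sub_le_self _ (hH0 i hi.le).1⟩
  have hGn : ∀ i < n, ‖1 - Hi F u Q q i‖ ≤ 1 := fun i hi =>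
    norm_le_one_of_nonneg (hG i hi).1 (hG i hi).2
  have hfamP : ∀ p : ℕ → N, (∀ i < n, Pr (p i) ∧ p i ≤ q i) →
      (∀ i < n, En τ F u (p i) ≤ ε₁ * rt τ (q i)) →
      ∑ i ∈ Finset.range n, (hs τ ((1 - Hi F u Q q i) * p i * (1 - Hi F u Q q i)) -
        hs τ ((TT F u ^ k) ((1 - Hi F u Q q i) * p i * (1 - Hi F u Q q i)))) ≤ s * m := by
    intro p h1 h2
    have h3 := hfam (fun i => Mp (p i)) (fun i hi => ⟨s3 _ (h1 i hi).1.nonneg (h1 i hi).1.le_one, by
        rw [Mp_apply, mul_one, (h1 i hi).1.1, (h1 i hi).1.2]; exact (h1 i hi).2⟩)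
      (fun i hi => by
        rw [(e4 (p i) (h1 i hi).1.nonneg (h1 i hi).1.le_one F).1]; exact h2 i hi)
    refine le_trans (le_of_eq ?_) h3
    refine Finset.sum_congr rfl fun i hi => ?_
    have hi' := Finset.mem_range.1 hi
    rw [Cj_Mp, herm_of_nonneg (hG i hi').1]
    exact ((e4 _ (sandwich_nonneg (hH0 i hi'.le).1 (h1 i hi').1.nonneg)
      (sandwich_le_one (hH0 i hi'.le).1 (hH0 i hi'.le).2 (h1 i hi').1.le_one) F).2 k).symm
  -- the local theorem for all `i`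
  let Pre : ℕ → Prop := fun i => Λ * rt τ (q i * Hi F u Q q i) ≤ 1 / 10 ^ 90 * rt τ (q i) ∧
    hs τ ((1 - Hi F u Q q i) * q i * (1 - Hi F u Q q i)) -
      hs τ ((TT F u ^ k) ((1 - Hi F u Q q i) * q i * (1 - Hi F u Q q i))) ≤ σ * rt τ (q i)
  have hloc : ∀ i, ∃ (p : Fin 2 → N) (φ : Fin 2 → N →ₗ[ℂ] N), i < n →
      (∀ b, Pr (p b) ∧ p b ≤ q i ∧ SCP τ (φ b) ∧ φ b 1 ≤ p b ∧
        EnM τ F u (φ b) ≤ ε₁ * rt τ (q i) ∧ En τ F u (p b) ≤ ε₁ * rt τ (q i)) ∧
      (Pre i → (∀ b, gap τ F u k (Cj (1 - Hi F u Q q i) (φ b)) ≤ σ * rt τ (q i) ∧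
        hs τ ((1 - Hi F u Q q i) * p b * (1 - Hi F u Q q i)) -
          hs τ ((TT F u ^ k) ((1 - Hi F u Q q i) * p b * (1 - Hi F u Q q i))) ≤
          σ * rt τ (q i)) →
      gap τ F u k (Cj (1 - Hi F u Q q i) (ψ i)) ≤ σ * rt τ (q i) →
      ∃ (d : ℕ) (w : Fin d → N), 0 < d ∧
        (∀ i j, τ (star (w i) * w j) = if i = j then 1 else 0) ∧
        ∑ j, w j * star (w j) ≤ (C₂ * d / rt τ (q i) : ℝ) •
          (TT F u ^ k) ((1 - Hi F u Q q i) * q i * (1 - Hi F u Q q i)) ∧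
        ∑ s ∈ F, ((d : ℝ) - ∑ i, ∑ j, ‖τ (star (w i) * u s * w j)‖ ^ 2) ≤ eR * d) := by
    intro i
    by_cases hi : i < n
    · by_cases hpre : Pre i
      · obtain ⟨g1, g2, g3, g4, g5, g6, g7, g8⟩ := hgr i hi
        obtain ⟨p, φ, h1, h2⟩ := hLoc k (le_max_left _ _) N τ ι F u (Hi F u Q q i) (q i) (ψ i)
          (mm i) (v i) (R i) hτ hcpl hFg hu (hH0 i hi.le).1 (hH0 i hi.le).2 g1 g2 g3 g4 g5 g6 (by
            refine le_trans ?_ g7
            have : 0 ≤ R i * hsf τ (v i) := by positivity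
            have e1 : (1 - 1 / 10 ^ 47) * R i * hsf τ (v i) =
              (1 - 1 / 10 ^ 47) * (R i * hsf τ (v i)) := by ring
            have e2 : (1 - 1 / 10 ^ 100) * R i * hsf τ (v i) =
              (1 - 1 / 10 ^ 100) * (R i * hsf τ (v i)) := by ring
            rw [e1, e2]
            exact mul_le_mul_of_nonneg_right (by norm_num) this) g8 hpre.1 hpre.2
        exact ⟨p, φ, fun _ => ⟨h1, fun _ h3 h4 => h2 h3 h4⟩⟩
      · obtain ⟨g1, -⟩ := hgr i hi
        have h0 := (hqpos i hi).le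
        refine ⟨fun _ => q i, fun _ => ψ i, fun _ => ⟨fun b => ⟨g1.pr, le_refl _, g1.scp, g1.one,
          ?_, ?_⟩, fun h => absurd h hpre⟩⟩
        · exact g1.enm.trans (mul_le_mul_of_nonneg_right hεε₁ h0)
        · exact g1.enq.trans (mul_le_mul_of_nonneg_right hεε₁ h0)
    · exact ⟨fun _ => 0, fun _ => 0, fun h => absurd h hi⟩
  choose p φ hpφ using hloc
  -- the sums of the gaps
  have hSψ := hfam ψ (fun i hi => ⟨(hgr i hi).1.scp, (hgr i hi).1.one⟩) (fun i hi =>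
    (hgr i hi).1.enm.trans (mul_le_mul_of_nonneg_right hεε₁ (hqpos i hi).le))
  have hSq := hfamP q (fun i hi => ⟨hqpr i hi, le_refl _⟩) (fun i hi =>
    (hgr i hi).1.enq.trans (mul_le_mul_of_nonneg_right hεε₁ (hqpos i hi).le))
  have hSφ : ∀ b, _ := fun b => hfam (fun i => φ i b) (fun i hi =>
    ⟨((hpφ i hi).1 b).2.2.1, ((hpφ i hi).1 b).2.2.2.1.trans ((hpφ i hi).1 b).2.1⟩) (fun i hi =>
      ((hpφ i hi).1 b).2.2.2.2.1)
  have hSp : ∀ b, _ := fun b => hfamP (fun i => p i b) (fun i hi =>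
    ⟨((hpφ i hi).1 b).1, ((hpφ i hi).1 b).2.1⟩) (fun i hi => ((hpφ i hi).1 b).2.2.2.2.2)
  have hgap0 : ∀ i < n, ∀ θ : N →ₗ[ℂ] N, SCP τ θ →
      0 ≤ gap τ F u k (Cj (1 - Hi F u Q q i) θ) := fun i hi θ hθ =>
    (e1 _ (s1 θ _ hθ (hGn i hi)).1 F).2.1 k
  have hρ0' : ∀ i < n, ∀ y : N, 0 ≤ hs τ y - hs τ ((TT F u ^ k) y) := fun i hi y =>
    sub_nonneg.2 (tt.hs_le k y)
  -- the overlaps are small
  have hb0 : ∀ i < n, 0 ≤ rt τ (q i * Hi F u Q q i * Hi F u Q q i) := by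
    intro i hi
    rw [mul_assoc]
    refine rt_mul_nonneg hτ (hqpr i hi).nonneg ?_
    have := nonneg_star_mul (Hi F u Q q i)
    rwa [herm_of_nonneg (hH0 i hi.le).1] at this
  have ho0 : ∀ i < n, 0 ≤ rt τ (q i * Hi F u Q q i) := fun i hi =>
    rt_mul_nonneg hτ (hqpr i hi).nonneg (hH0 i hi.le).1
  have hΓ1 : ∀ i < n, Gam τ Λ (Hi F u Q q i) (q i) (ψ i) ≤ rt τ (q i) := by
    intro i hi
    unfold Gam
    have a1 := rt_mono hτ (hgr i hi).1.one
    have a2 := mul_nonneg hΛ0.le (ho0 i hi)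
    linarith
  have hSI' : ∀ i < n, Λ * rt τ (q i * Hi F u Q q i * Hi F u Q q i) ≤
      (2 / 10 ^ 100 + (1001 * (1 / 10 ^ 103) + 1 / 10 ^ 103)) * rt τ (q i) +
      28000 * rt τ (q i * Hi F u Q q i) +
      5000 * gap τ F u k (Cj (1 - Hi F u Q q i) (ψ i)) + (4 * Λ + 1001) * Real.sqrt
        ((hs τ ((1 - Hi F u Q q i) * q i * (1 - Hi F u Q q i)) -
          hs τ ((TT F u ^ k) ((1 - Hi F u Q q i) * q i * (1 - Hi F u Q q i)))) * rt τ (q i)) := by
    intro i hi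
    obtain ⟨g1, g2, g3, g4, g5, g6, g7, g8⟩ := hgr i hi
    have a1 := hSI k (le_max_right _ _) N τ ι F u (Hi F u Q q i) (q i) (ψ i) (mm i) (v i) (R i)
      hτ hcpl hFg hu (hH0 i hi.le).1 (hH0 i hi.le).2 g1 g2 g5.le g6
    have a2 : avh τ F u k (fun j => (1 - Hi F u Q q i) * v i j) ≤ hsf τ (v i) := by
      refine ((f1 (mm i) _).2 k).trans ?_
      have := (f2 (mm i) (v i) (1 - Hi F u Q q i) 1 (hGn i hi) Pr.one.norm_le).1
      simpa using this
    have a3 := mul_le_mul_of_nonneg_left a2 g5.le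
    have a4 : R i * hsf τ (v i) ≤ Gam τ Λ (Hi F u Q q i) (q i) (ψ i) + 2 / 10 ^ 100 * rt τ (q i) := by
      have b1 := hΓ1 i hi
      have b2 : (1 - 1 / 10 ^ 100) * R i * hsf τ (v i) =
        (1 - 1 / 10 ^ 100) * (R i * hsf τ (v i)) := by ring
      rw [b2] at g7
      have b3 : 0 ≤ R i * hsf τ (v i) := by positivity
      nlinarith
    linarith
  have hov : Λ * ∑ i ∈ Finset.range n, rt τ (q i * Hi F u Q q i) ≤ 1 / 10 ^ 90 / 14 * m := by
    have a1 := num1 n (fun i => rt τ (q i)) (fun i => rt τ (q i * Hi F u Q q i))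
      (fun i => rt τ (q i * Hi F u Q q i * Hi F u Q q i))
      (fun i => hs τ ((1 - Hi F u Q q i) * q i * (1 - Hi F u Q q i)) -
          hs τ ((TT F u ^ k) ((1 - Hi F u Q q i) * q i * (1 - Hi F u Q q i))))
      (fun i => gap τ F u k (Cj (1 - Hi F u Q q i) (ψ i))) Λ
      (2 / 10 ^ 100 + (1001 * (1 / 10 ^ 103) + 1 / 10 ^ 103)) (4 * Λ + 1001) (21 * Real.sqrt ε) s
      hΛ10 (by positivity) hs0.le (fun i hi => (hqpos i hi).le) hb0 (fun i hi => hρ0' i hi _)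
      hSI' hP hSq hSψ
    refine a1.trans (mul_le_mul_of_nonneg_right ?_ hm0.le)
    have b1 : Real.sqrt ε ≤ 1 / 10 ^ 116 := by
      refine hx1.trans ?_
      rw [div_le_iff₀ hΛ0]
      nlinarith
    have b2 : Λ * Real.sqrt ε ≤ 1 / 10 ^ 106 := by
      rw [le_div_iff₀ hΛ0] at hx1
      linarith
    have b3 : 5000 * s ≤ 1 / 10 ^ 100 := by
      have : (5000 : ℝ) * (1 / 10 ^ 104) ≤ 1 / 10 ^ 100 := by norm_num
      linarith
    have b4 : Λ * (21 * Real.sqrt ε) = 21 * (Λ * Real.sqrt ε) := by ring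
    rw [b4]
    have b5 : (200 : ℝ) * (2 / 10 ^ 100 + (1001 * (1 / 10 ^ 103) + 1 / 10 ^ 103) + 1 / 10 ^ 100 +
      1 / 10 ^ 100 + 28000 * (21 * (1 / 10 ^ 116))) + 21 * (1 / 10 ^ 106) ≤ 1 / 10 ^ 90 / 14 := by
      norm_num
    nlinarith
  -- selection
  have hs14 : s * m ≤ σ₂ / 14 * m := mul_le_mul_of_nonneg_right hs1 hm0.le
  let X : Fin 7 → ℕ → ℝ := ![fun i => Λ * rt τ (q i * Hi F u Q q i),
    fun i => hs τ ((1 - Hi F u Q q i) * q i * (1 - Hi F u Q q i)) -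
          hs τ ((TT F u ^ k) ((1 - Hi F u Q q i) * q i * (1 - Hi F u Q q i))),
    fun i => gap τ F u k (Cj (1 - Hi F u Q q i) (ψ i)),
    fun i => gap τ F u k (Cj (1 - Hi F u Q q i) (φ i 0)),
    fun i => gap τ F u k (Cj (1 - Hi F u Q q i) (φ i 1)),
    fun i => hs τ ((1 - Hi F u Q q i) * p i 0 * (1 - Hi F u Q q i)) -
          hs τ ((TT F u ^ k) ((1 - Hi F u Q q i) * p i 0 * (1 - Hi F u Q q i))),
    fun i => hs τ ((1 - Hi F u Q q i) * p i 1 * (1 - Hi F u Q q i)) -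
          hs τ ((TT F u ^ k) ((1 - Hi F u Q q i) * p i 1 * (1 - Hi F u Q q i)))]
  let A : Fin 7 → ℝ := ![1 / 10 ^ 90, σ₂, σ₂, σ₂, σ₂, σ₂, σ₂]
  have hsel := num2 n (fun i => rt τ (q i)) X A (by
      intro j
      fin_cases j
      · norm_num [A]
      all_goals exact hσ₂) (fun i hi => (hqpos i hi).le) (by
      intro j i hi
      fin_cases j
      · exact mul_nonneg hΛ0.le (ho0 i hi)
      · exact hρ0' i hi _
      · exact hgap0 i hi _ (hgr i hi).1.scp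
      · exact hgap0 i hi _ ((hpφ i hi).1 0).2.2.1
      · exact hgap0 i hi _ ((hpφ i hi).1 1).2.2.1
      · exact hρ0' i hi _
      · exact hρ0' i hi _) (by
      intro j
      fin_cases j
      · refine le_trans (le_of_eq ?_) hov
        exact (Finset.mul_sum _ _ _).symm
      · exact hSq.trans hs14
      · exact hSψ.trans hs14
      · exact (hSφ 0).trans hs14
      · exact (hSφ 1).trans hs14
      · exact (hSp 0).trans hs14
      · exact (hSp 1).trans hs14)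
  set I := (Finset.range n).filter (fun i => ∀ j, X j i ≤ A j * rt τ (q i)) with hI
  have hIn : ∀ i ∈ I, i < n := fun i hi => Finset.mem_range.1 (Finset.mem_filter.1 hi).1
  have hIX : ∀ i ∈ I, ∀ j, X j i ≤ A j * rt τ (q i) := fun i hi => (Finset.mem_filter.1 hi).2
  have hσq : ∀ i ∈ I, σ₂ * rt τ (q i) ≤ σ * rt τ (q i) := fun i hi =>
    mul_le_mul_of_nonneg_right hσ₂σ (hqpos i (hIn i hi)).le
  have hdw : ∀ i, ∃ (d : ℕ) (w : Fin d → N), i ∈ I → 0 < d ∧
        (∀ i j, τ (star (w i) * w j) = if i = j then 1 else 0) ∧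
        ∑ j, w j * star (w j) ≤ (C₂ * d / rt τ (q i) : ℝ) •
          (TT F u ^ k) ((1 - Hi F u Q q i) * q i * (1 - Hi F u Q q i)) ∧
        ∑ s ∈ F, ((d : ℝ) - ∑ i, ∑ j, ‖τ (star (w i) * u s * w j)‖ ^ 2) ≤ eR * d := by
    intro i
    by_cases hi : i ∈ I
    · obtain ⟨d, w, hd⟩ := (hpφ i (hIn i hi)).2 ⟨hIX i hi 0, (hIX i hi 1).trans (hσq i hi)⟩ (by
          intro b
          fin_cases b
          · exact ⟨(hIX i hi 3).trans (hσq i hi), (hIX i hi 5).trans (hσq i hi)⟩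
          · exact ⟨(hIX i hi 4).trans (hσq i hi), (hIX i hi 6).trans (hσq i hi)⟩)
          ((hIX i hi 2).trans (hσq i hi))
      exact ⟨d, w, fun _ => hd⟩
    · exact ⟨0, fun _ => 0, fun h => absurd h hi⟩
  choose d w hdw using hdw
  -- application of the random selection
  have hd0 : ∀ i ∈ I, (0 : ℝ) < d i := fun i hi => by exact_mod_cast (hdw i hi).1
  have htd : ∀ i ∈ I, rt τ (q i) / d i * d i = rt τ (q i) := fun i hi =>
    div_mul_cancel₀ _ (hd0 i hi).ne'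
  have hsum : ∑ i ∈ I, rt τ (q i) / d i * d i = ∑ i ∈ I, rt τ (q i) :=
    Finset.sum_congr rfl htd
  have hSI0 : 0 < ∑ i ∈ I, rt τ (q i) := lt_of_lt_of_le (by positivity) hsel
  have hterm : ∀ i ∈ I, (rt τ (q i) / d i) • ∑ j, w i j * star (w i j) ≤
      C₂ • (TT F u ^ k) ((1 - Hi F u Q q i) * q i * (1 - Hi F u Q q i)) := by
    intro i hi
    have a1 := smul_mono_real (c := rt τ (q i) / d i)
      (div_nonneg (hqpos i (hIn i hi)).le (hd0 i hi).le) (hdw i hi).2.2.1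
    rw [smul_smul] at a1
    have a2 : rt τ (q i) / d i * (C₂ * d i / rt τ (q i)) = C₂ := by
      have := (hd0 i hi).ne'
      have := (hqpos i (hIn i hi)).ne'
      field_simp
    rwa [a2] at a1
  have hy0 : ∀ i < n, 0 ≤ (1 - Hi F u Q q i) * q i * (1 - Hi F u Q q i) := fun i hi =>
    sandwich_nonneg (hH0 i hi.le).1 (hqpr i hi).nonneg
  have ha0 : ∀ i < n, 0 ≤ (TT F u ^ k) ((1 - Hi F u Q q i) * q i * (1 - Hi F u Q q i)) :=
    fun i hi => tt.nonneg k _ (hy0 i hi)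
  obtain ⟨qf, Mf, hr1, hr2, hr3, hr4⟩ := hR N τ ι F u Q I d w (fun i => rt τ (q i) / d i) hII hFg
    hu hQ (fun i hi => ⟨div_pos (hqpos i (hIn i hi)) (hd0 i hi), (hdw i hi).1, (hdw i hi).2.1,
      (hdw i hi).2.2.2⟩) (by
      refine (Finset.sum_le_sum hterm).trans ?_
      rw [← Finset.smul_sum]
      have a1 : ∑ i ∈ I, (TT F u ^ k) ((1 - Hi F u Q q i) * q i * (1 - Hi F u Q q i)) ≤
          ∑ i ∈ Finset.range n,
            (TT F u ^ k) ((1 - Hi F u Q q i) * q i * (1 - Hi F u Q q i)) :=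
        Finset.sum_le_sum_of_subset_of_nonneg (Finset.filter_subset _ _) fun i hi _ =>
          ha0 i (Finset.mem_range.1 hi)
      have a1' : ∑ i ∈ Finset.range n,
          (TT F u ^ k) ((1 - Hi F u Q q i) * q i * (1 - Hi F u Q q i)) =
          (TT F u ^ k) (∑ i ∈ Finset.range n, (1 - Hi F u Q q i) * q i * (1 - Hi F u Q q i)) :=
        (map_sum _ _ _).symm
      rw [a1'] at a1
      have a2 : (TT F u ^ k) (∑ i ∈ Finset.range n,
          (1 - Hi F u Q q i) * q i * (1 - Hi F u Q q i)) ≤ (TT F u ^ k) ((4 : ℝ) • (1 : N)) := by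
        have b1 : ∑ i ∈ Finset.range n, (1 - Hi F u Q q i) * q i * (1 - Hi F u Q q i) ≤
            (4 : ℝ) • (1 : N) := by
          refine le_trans (le_of_eq ?_) hA2
          exact Finset.sum_congr rfl fun i _ => by rw [Gi_eq]
        have b2 := tt.nonneg k _ (sub_nonneg.2 b1)
        rw [map_sub] at b2
        exact sub_nonneg.1 b2
      have a3 : (TT F u ^ k) ((4 : ℝ) • (1 : N)) = (4 : ℝ) • 1 := by
        have : (4 : ℝ) • (1 : N) = (4 : ℂ) • (1 : N) := by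
          rw [← algebraMap_smul ℂ (4 : ℝ) (1 : N)]; norm_num
        rw [this, map_smul, tt.one]
      have a4 := smul_mono_real hC₂.le (a1.trans (a2.trans (le_of_eq a3)))
      refine a4.trans ?_
      rw [smul_smul, mul_comm]
      exact smul_mono_left (le_max_left _ _) zero_le_one) (by
      rw [hsum, Finset.sum_mul, rt_sum, Finset.mul_sum]
      refine Finset.sum_le_sum fun i hi => ?_
      have hin := hIn i hi
      have a1 := rt_mul_mono hτ (hterm i hi) hQ.nonneg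
      refine a1.trans ?_
      rw [smul_mul_assoc, rt_smul]
      have a2 : Q ≤ (2 : ℝ) • Hi F u Q q i := by
        have := smul_mono_real (c := (2 : ℝ)) (by norm_num) (hA1 i hin.le).2.2.1
        rw [smul_smul] at this
        norm_num at this
        exact this
      have a3 := rt_mul_mono' hτ a2 (ha0 i hin)
      rw [mul_smul_comm, rt_smul] at a3
      obtain ⟨r, -, -, -, -, a4⟩ := hPert N τ (Hi F u Q q i) (q i)
        ((TT F u ^ k) ((1 - Hi F u Q q i) * q i * (1 - Hi F u Q q i))) (Real.sqrt σ₂)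
        (Real.sqrt σ₂ * rt τ (q i)) hτ (hH0 i hin.le).1 (hH0 i hin.le).2 (hqpr i hin) (ha0 i hin)
        (by unfold rt; rw [tt.tr]) (Real.sqrt_nonneg _) (by
          rw [Real.sq_sqrt hσ₂.le, hs_sub_comm]
          exact (tt.gap k _).trans (hIX i hi 1)) (mul_pos (Real.sqrt_pos.2 hσ₂) (hqpos i hin))
      have a5 := rt_sand hτ (hH0 i hin.le).1 (hH0 i hin.le).2 (hqpr i hin)
      have a6 : Λ * rt τ (q i * Hi F u Q q i) ≤ 1 / 10 ^ 90 * rt τ (q i) := hIX i hi 0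
      have hqi := hqpos i hin
      have a7 : C₂ * rt τ (q i * Hi F u Q q i) ≤ κ / 8 * rt τ (q i) := by
        have b1 : 8 * (C₂ * rt τ (q i * Hi F u Q q i)) ≤
            κ * (Λ * rt τ (q i * Hi F u Q q i)) := by
          have := mul_le_mul_of_nonneg_right hΛκ (ho0 i hin)
          linarith
        have b2 : κ * (Λ * rt τ (q i * Hi F u Q q i)) ≤ κ * (1 * rt τ (q i)) := by
          refine mul_le_mul_of_nonneg_left (a6.trans ?_) hκ.le
          exact mul_le_mul_of_nonneg_right (by norm_num) hqi.le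
        linarith
      have a8 : C₂ * Real.sqrt σ₂ ≤ κ / 40 := by
        have := mul_le_mul_of_nonneg_left hσ₂r hC₂.le
        have e1 : C₂ * (κ / (40 * C₂)) = κ / 40 := by field_simp
        linarith
      have a9 := mul_le_mul_of_nonneg_right a8 hqi.le
      have a10 := mul_le_mul_of_nonneg_left (a3.trans
        (mul_le_mul_of_nonneg_left (a4.trans (add_le_add_left (add_le_add_left a5 _) _))
          (by norm_num))) hC₂.le
      nlinarith) (by rw [hsum]; exact hSI0) (by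
      rw [hsum]
      refine hEnQ.trans (((min_le_right _ _).trans (min_le_right _ _)).trans ?_)
      refine mul_le_mul_of_nonneg_left ?_ heR.le
      have : c / (4 * Λ) = 1 / 2 * (c / (2 * Λ)) := by field_simp; ring
      rw [this]
      exact (mul_le_mul_of_nonneg_left hmc (by norm_num)).trans hsel)
  refine ⟨qf, Mf, hr1, ?_, hr3, hr4⟩
  rw [hsum] at hr2
  refine le_trans ?_ hr2
  have a1 : 1 / 2 * (rt τ (1 - Q) / (2 * Λ)) ≤ ∑ i ∈ I, rt τ (q i) :=
    (mul_le_mul_of_nonneg_left hmass (by norm_num)).trans hsel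
  have a2 := mul_le_mul_of_nonneg_left a1 hη.le
  refine le_trans (le_of_eq ?_) a2
  field_simp
  ring

end

end Helper61.HT
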