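import Pool.Agent.Helper61.HT.StE

/-!
# Project HT: the GNS construction for a positive definite function on a group
-/

namespace Helper61.HT

open scoped ComplexOrder
open Filter Topology

section gns

variable {G : Type} [Group G]

/-- `K g x = ∑_y g(y) P(x⁻¹ y)`. -/
private noncomputable def gnK (P : G → ℂ) : (G →₀ ℂ) →ₗ[ℂ] (G → ℂ) :=
  Finsupp.linearCombination ℂ (fun y => fun x => P (x⁻¹ * y))

private lemma gnK_apply (P : G → ℂ) (g : G →₀ ℂ) (x : G) :
    gnK P g x = ∑ y ∈ g.support, g y * P (x⁻¹ * y) := by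
  rw [gnK, Finsupp.linearCombination_apply, Finsupp.sum, Finset.sum_apply]
  rfl

/-- the form -/
private noncomputable def gnF (P : G → ℂ) (f g : G →₀ ℂ) : ℂ :=
  f.sum fun x a => star a * gnK P g x

private lemma gnF_eq (P : G → ℂ) (f g : G →₀ ℂ) :
    gnF P f g = ∑ x ∈ f.support, ∑ y ∈ g.support, star (f x) * g y * P (x⁻¹ * y) := by
  unfold gnF
  rw [Finsupp.sum]
  refine Finset.sum_congr rfl fun x _ => ?_
  rw [gnK_apply, Finset.mul_sum]
  exact Finset.sum_congr rfl fun y _ => by ring

private lemma gnF_add_left (P : G → ℂ) (f f' g : G →₀ ℂ) :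
    gnF P (f + f') g = gnF P f g + gnF P f' g := by
  unfold gnF
  rw [Finsupp.sum_add_index']
  · intro x; rw [star_zero, zero_mul]
  · intro x a b; rw [star_add, add_mul]

private lemma gnF_smul_left (P : G → ℂ) (r : ℂ) (f g : G →₀ ℂ) :
    gnF P (r • f) g = star r * gnF P f g := by
  unfold gnF
  rw [Finsupp.sum_smul_index', Finsupp.sum, Finsupp.sum, Finset.mul_sum]
  · refine Finset.sum_congr rfl fun x _ => ?_
    rw [smul_eq_mul, star_mul']
    ring
  · intro x; rw [star_zero, zero_mul]

variable {P : G → ℂ} (hP : ∀ (m : ℕ) (c : Fin m → ℂ) (x : Fin m → G),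
    0 ≤ ∑ i, ∑ j, star (c i) * c j * P ((x i)⁻¹ * x j))

include hP

private lemma gn_one : (P 1).im = 0 := by
  have h := hP 1 (fun _ => 1) (fun _ => 1)
  simp only [Finset.univ_unique, Fin.default_eq_zero, Fin.isValue, star_one, mul_one, one_mul,
    inv_one, Finset.sum_const, Finset.card_singleton, one_smul] at h
  exact (Complex.nonneg_iff.1 h).2.symm

private lemma gn_star (g : G) : P g⁻¹ = star (P g) := by
  have h0 := gn_one hP
  have h1 := (Complex.nonneg_iff.1 (hP 2 ![1, 1] ![1, g])).2
  have h2 := (Complex.nonneg_iff.1 (hP 2 ![1, Complex.I] ![1, g])).2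
  simp only [Fin.sum_univ_two, Matrix.cons_val_zero, Matrix.cons_val_one, inv_one, one_mul,
    mul_one, star_one, inv_mul_cancel] at h1 h2
  simp only [RCLike.star_def, Complex.conj_I, Complex.add_im, Complex.mul_im, Complex.neg_re,
    Complex.I_re, Complex.I_im, Complex.neg_im, Complex.mul_re] at h1 h2
  apply Complex.ext
  · simp only [RCLike.star_def, Complex.conj_re]
    linarith
  · simp only [RCLike.star_def, Complex.conj_im]
    linarith

private lemma gnF_symm (f g : G →₀ ℂ) : star (gnF P g f) = gnF P f g := by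
  rw [gnF_eq, gnF_eq, star_sum]
  simp only [star_sum]
  rw [Finset.sum_comm]
  refine Finset.sum_congr rfl fun x _ => Finset.sum_congr rfl fun y _ => ?_
  have h : (y⁻¹ * x)⁻¹ = x⁻¹ * y := by group
  rw [← h, gn_star hP, star_mul', star_mul', star_star]
  ring

private lemma gnF_nonneg (f : G →₀ ℂ) : 0 ≤ (gnF P f f).re := by
  classical
  let e := f.support.equivFin.symm
  have h := hP f.support.card (fun i => f (e i)) (fun i => (e i : G))
  have h1 : ∑ i, ∑ j, star (f (e i)) * f (e j) * P (((e i : G))⁻¹ * (e j : G)) = gnF P f f := by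
    rw [gnF_eq, ← Finset.sum_coe_sort f.support]
    rw [e.sum_comp (fun x : f.support => ∑ j, star (f x) * f (e j) * P ((x : G)⁻¹ * (e j : G)))]
    refine Finset.sum_congr rfl fun x _ => ?_
    rw [← Finset.sum_coe_sort f.support]
    exact e.sum_comp (fun y : f.support => star (f x) * f y * P ((x : G)⁻¹ * (y : G)))
  rw [h1] at h
  exact (Complex.nonneg_iff.1 h).1

/-- the pre-inner product -/
@[reducible]
private noncomputable def gnCore : PreInnerProductSpace.Core ℂ (G →₀ ℂ) where
  inner f g := gnF P f g
  conj_inner_symm f g := gnF_symm hP f g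
  re_inner_nonneg f := gnF_nonneg hP f
  add_left f g h := gnF_add_left P f g h
  smul_left f g r := gnF_smul_left P r f g

omit hP in
private lemma gnF_map (g : G) (f f' : G →₀ ℂ) :
    gnF P (Finsupp.lmapDomain ℂ ℂ (g * ·) f) (Finsupp.lmapDomain ℂ ℂ (g * ·) f') = gnF P f f' := by
  have hK : ∀ x, gnK P (Finsupp.mapDomain (g * ·) f') (g * x) = gnK P f' x := by
    intro x
    unfold gnK
    rw [Finsupp.linearCombination_mapDomain,
      Finsupp.linearCombination_apply, Finsupp.linearCombination_apply, Finsupp.sum, Finsupp.sum,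
      Finset.sum_apply, Finset.sum_apply]
    refine Finset.sum_congr rfl fun y _ => ?_
    simp only [Pi.smul_apply, Function.comp_apply]
    congr 2
    group
  unfold gnF
  rw [Finsupp.lmapDomain_apply, Finsupp.lmapDomain_apply, Finsupp.sum_mapDomain_index]
  · refine Finset.sum_congr rfl fun x _ => ?_
    simp only
    rw [hK]
  · intro x; rw [star_zero, zero_mul]
  · intro x a b; rw [star_add, add_mul]

end gns

private lemma gn_cext {E : Type} [SeminormedAddCommGroup E] [InnerProductSpace ℂ E]
    {f g : UniformSpace.Completion E → UniformSpace.Completion E} (hf : Continuous f)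
    (hg : Continuous g) (h : ∀ ξ : E, f (ξ : UniformSpace.Completion E) = g ξ) (η) : f η = g η :=
  UniformSpace.Completion.induction_on η (isClosed_eq hf hg) h

/-- The GNS construction for a positive definite function on a group. -/
theorem pGNS : StGNS := by
  intro G _ P hP
  let _ : SeminormedAddCommGroup (G →₀ ℂ) :=
    @InnerProductSpace.Core.toSeminormedAddCommGroup ℂ (G →₀ ℂ) _ _ _ (gnCore hP)
  let _ : InnerProductSpace ℂ (G →₀ ℂ) := InnerProductSpace.ofCore (gnCore hP)
  have hin : ∀ f g : G →₀ ℂ, inner ℂ f g = gnF P f g := fun f g => rfl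
  have hnorm : ∀ y : G →₀ ℂ, ‖y‖ ^ 2 = (gnF P y y).re := fun y =>
    InnerProductSpace.norm_sq_eq_re_inner (𝕜 := ℂ) y
  have hiso : ∀ g (y : G →₀ ℂ), ‖Finsupp.lmapDomain ℂ ℂ (g * ·) y‖ = ‖y‖ := by
    intro g y
    have h1 := hnorm (Finsupp.lmapDomain ℂ ℂ (g * ·) y)
    rw [gnF_map, ← hnorm y] at h1
    exact (pow_left_inj₀ (norm_nonneg _) (norm_nonneg _) two_ne_zero).1 h1
  let a : G → (G →₀ ℂ) →L[ℂ] (G →₀ ℂ) := fun g =>
    LinearMap.mkContinuous (Finsupp.lmapDomain ℂ ℂ (g * ·)) 1
      (fun y => by rw [one_mul]; exact (hiso g y).le)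
  have ha : ∀ g y, a g y = Finsupp.lmapDomain ℂ ℂ (g * ·) y := fun g y => rfl
  have hs : ∀ g x (t : ℂ), a g (Finsupp.single x t) = Finsupp.single (g * x) t := by
    intro g x t
    rw [ha, Finsupp.lmapDomain_apply, Finsupp.mapDomain_single]
  have hαc : ∀ g (ξ : G →₀ ℂ), (a g).completion (ξ : UniformSpace.Completion (G →₀ ℂ)) =
      ((a g ξ : G →₀ ℂ) : UniformSpace.Completion (G →₀ ℂ)) := fun g ξ =>
    ContinuousLinearMap.completion_apply_coe _ _
  refine ⟨UniformSpace.Completion (G →₀ ℂ), inferInstance, inferInstance, inferInstance,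
    fun g ξ => (a g).completion ξ,
    ((Finsupp.single 1 1 : G →₀ ℂ) : UniformSpace.Completion (G →₀ ℂ)), ?_, ?_, ?_⟩
  · refine ⟨?_, ?_, ?_, ?_, ?_⟩
    · intro ξ
      refine gn_cext (f := fun η => (a 1).completion η) (g := fun η => η)
        (ContinuousLinearMap.continuous _) continuous_id (fun ξ => ?_) ξ
      rw [hαc, ha]
      congr 1
      simp only [one_mul]
      exact Finsupp.mapDomain_id
    · intro g h ξ
      refine gn_cext (f := fun η => (a (g * h)).completion η)
        (g := fun η => (a g).completion ((a h).completion η))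
        (ContinuousLinearMap.continuous _)
        ((ContinuousLinearMap.continuous _).comp (ContinuousLinearMap.continuous _))
        (fun ξ => ?_) ξ
      rw [hαc, hαc, hαc, ha, ha, ha]
      congr 1
      rw [Finsupp.lmapDomain_apply, Finsupp.lmapDomain_apply, Finsupp.lmapDomain_apply,
        ← Finsupp.mapDomain_comp]
      congr 1
      funext x
      simp only [Function.comp_apply, mul_assoc]
    · intro g ξ η
      exact map_add _ _ _
    · intro g c ξ
      exact map_smul _ _ _
    · intro g η
      refine UniformSpace.Completion.induction_on η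
        (isClosed_eq ((a g).completion).continuous.norm continuous_norm) fun ξ => ?_
      rw [hαc, UniformSpace.Completion.norm_coe, UniformSpace.Completion.norm_coe, ha, hiso]
  · intro g
    simp only
    rw [hαc, UniformSpace.Completion.inner_coe, hs, hin]
    unfold gnF
    rw [Finsupp.sum_single_index (by rw [star_zero, zero_mul]), gnK,
      Finsupp.linearCombination_single, star_one, one_mul, one_smul, inv_one, one_mul, mul_one]
  · refine Dense.mono ?_ (UniformSpace.Completion.denseRange_coe (α := (G →₀ ℂ)))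
    rintro _ ⟨f, rfl⟩
    induction f using Finsupp.induction_linear with
    | zero =>
      rw [UniformSpace.Completion.coe_zero]
      exact Submodule.zero_mem _
    | add f g hf hg =>
      rw [UniformSpace.Completion.coe_add]
      exact Submodule.add_mem _ hf hg
    | single x t =>
      have h1 : (Finsupp.single x t : G →₀ ℂ) = t • a x (Finsupp.single 1 1) := by
        rw [hs, Finsupp.smul_single, mul_one, smul_eq_mul, mul_one]
      rw [h1, UniformSpace.Completion.coe_smul]
      refine Submodule.smul_mem _ _ (Submodule.subset_span ⟨x, ?_⟩)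
      exact hαc _ _

end Helper61.HT
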