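import Pool.Agent.Helper61.HT.StE
import Pool.Agent.Helper61.HT.LibN

/-!
# Property (T) gives the gap for maps along the ultrafilter
-/

namespace Helper61.HT

open scoped ComplexOrder
open Filter Topology

set_option linter.unusedSectionVars false
set_option linter.unusedVariables false

section contr

variable {N : Type} [CStarAlgebra N] [PartialOrder N] [StarOrderedRing N] {τ : N →ₗ[ℂ] ℂ}

/-- contractive maps -/
private def Ct (τ : N →ₗ[ℂ] ℂ) (θ : N →ₗ[ℂ] N) : Prop :=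
  ∀ a b, ‖τ (a * θ b)‖ ≤ Real.sqrt (hs τ a) * Real.sqrt (hs τ b)

private lemma ct_scp (hB : StBim) (hτ : Trc τ)
    {ψ : N →ₗ[ℂ] N} (hψ : SCP τ ψ) : Ct τ ψ := by
  obtain ⟨H, _, _, b, ξ, hb⟩ := hB N τ ψ hτ hψ
  intro a c
  have h1 : inner ℂ ξ (b.L a (b.R c ξ)) = inner ℂ (b.L (star a) ξ) (b.R c ξ) := by
    rw [b.L_adj, star_star]
  have h2 : ‖b.L (star a) ξ‖ ^ 2 ≤ hs τ a := by
    have e1 : inner ℂ (b.L (star a) ξ) (b.L (star a) ξ) = τ (a * star a * ψ 1) := by
      rw [b.L_adj, star_star, ← b.L_mul]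
      have := hb (a * star a) 1
      rw [b.R_one] at this
      exact this
    have e2 : ‖b.L (star a) ξ‖ ^ 2 = rt τ (a * star a * ψ 1) := by
      rw [← inner_self_eq_norm_sq (𝕜 := ℂ), e1]; rfl
    rw [e2]
    calc rt τ (a * star a * ψ 1) ≤ rt τ (a * star a * 1) :=
          rt_mul_mono' hτ hψ.one (nonneg_mul_star a)
      _ = hs τ (star a) := by rw [mul_one, hs_eq_rt, star_star]
      _ = hs τ a := hs_star hτ a
  have h3 : ‖b.R c ξ‖ ^ 2 ≤ hs τ c := by
    have e1 : inner ℂ (b.R c ξ) (b.R c ξ) = τ (c * star c * ψ 1) := by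
      rw [b.R_adj, ← b.R_mul]
      have := hb 1 (c * star c)
      rw [b.L_one, ← hψ.symm, hτ.tr] at this
      exact this
    have e2 : ‖b.R c ξ‖ ^ 2 = rt τ (c * star c * ψ 1) := by
      rw [← inner_self_eq_norm_sq (𝕜 := ℂ), e1]; rfl
    rw [e2]
    calc rt τ (c * star c * ψ 1) ≤ rt τ (c * star c * 1) :=
          rt_mul_mono' hτ hψ.one (nonneg_mul_star c)
      _ = hs τ (star c) := by rw [mul_one, hs_eq_rt, star_star]
      _ = hs τ c := hs_star hτ c
  rw [← hb, h1]
  refine (norm_inner_le_norm _ _).trans ?_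
  refine mul_le_mul (Real.le_sqrt_of_sq_le h2) (Real.le_sqrt_of_sq_le h3) (norm_nonneg _)
    (Real.sqrt_nonneg _)

private lemma tau_LA {G : Type} (F : Finset G) (u : G → N) (θ : N →ₗ[ℂ] N) (a b : N) :
    τ (a * LA F u θ b) = (1 / 2 : ℂ) * τ (a * θ b) + (1 / (4 * F.card) : ℂ) *
      ∑ s ∈ F, (τ (a * u s * θ (star (u s) * b)) + τ (a * star (u s) * θ (u s * b))) := by
  have h1 : LA F u θ b = (1 / 2 : ℝ) • θ b + (1 / (4 * F.card) : ℝ) •
    ∑ s ∈ F, (u s * θ (star (u s) * b) + star (u s) * θ (u s * b)) := rfl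
  rw [h1, mul_add, map_add, mul_smul_comm, mul_smul_comm, map_smul_real, map_smul_real,
    Finset.mul_sum, map_sum]
  push_cast
  congr 2
  refine Finset.sum_congr rfl fun s _ => ?_
  rw [mul_add, map_add, mul_assoc, mul_assoc]

private lemma tau_RA {G : Type} (hτ : Trc τ) (F : Finset G) (u : G → N) (θ : N →ₗ[ℂ] N)
    (a b : N) :
    τ (a * RA F u θ b) = (1 / 2 : ℂ) * τ (a * θ b) + (1 / (4 * F.card) : ℂ) *
      ∑ s ∈ F, (τ (star (u s) * a * θ (b * u s)) + τ (u s * a * θ (b * star (u s)))) := by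
  have h1 : RA F u θ b = (1 / 2 : ℝ) • θ b + (1 / (4 * F.card) : ℝ) •
    ∑ s ∈ F, (θ (b * u s) * star (u s) + θ (b * star (u s)) * u s) := rfl
  rw [h1, mul_add, map_add, mul_smul_comm, mul_smul_comm, map_smul_real, map_smul_real,
    Finset.mul_sum, map_sum]
  push_cast
  congr 2
  refine Finset.sum_congr rfl fun s _ => ?_
  rw [mul_add, map_add, ← mul_assoc, ← mul_assoc, hτ.tr (a * θ (b * u s)),
    hτ.tr (a * θ (b * star (u s))), mul_assoc, mul_assoc]

private lemma avg_le {X : ℝ} {c : ℕ} (hc : 0 < c) {z : ℂ} {G : Type} {F : Finset G}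
    (hF : F.card = c) {f g : G → ℂ} (hz : ‖z‖ ≤ X) (hf : ∀ s ∈ F, ‖f s‖ ≤ X)
    (hg : ∀ s ∈ F, ‖g s‖ ≤ X) :
    ‖(1 / 2 : ℂ) * z + (1 / (4 * F.card) : ℂ) * ∑ s ∈ F, (f s + g s)‖ ≤ X := by
  have h1 : ‖∑ s ∈ F, (f s + g s)‖ ≤ F.card * (2 * X) := by
    refine (norm_sum_le _ _).trans ?_
    have : ∀ s ∈ F, ‖f s + g s‖ ≤ 2 * X := fun s hs => by
      refine (norm_add_le _ _).trans ?_
      linarith [hf s hs, hg s hs]
    refine (Finset.sum_le_sum this).trans ?_
    rw [Finset.sum_const, nsmul_eq_mul]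
  have hc' : (0 : ℝ) < F.card := by rw [hF]; exact_mod_cast hc
  refine (norm_add_le _ _).trans ?_
  rw [norm_mul, norm_mul]
  have h2 : ‖(1 / 2 : ℂ)‖ = 1 / 2 := by norm_num
  have h3 : ‖(1 / (4 * F.card) : ℂ)‖ = 1 / (4 * F.card) := by
    rw [norm_div, norm_one, norm_mul, Complex.norm_natCast]
    norm_num
  rw [h2, h3]
  have h4 : 1 / (4 * (F.card : ℝ)) * ‖∑ s ∈ F, (f s + g s)‖ ≤
      1 / (4 * (F.card : ℝ)) * (F.card * (2 * X)) :=
    mul_le_mul_of_nonneg_left h1 (by positivity)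
  have h5 : 1 / (4 * (F.card : ℝ)) * (F.card * (2 * X)) = 1 / 2 * X := by
    field_simp
    norm_num
  linarith

private lemma ct_LA {G : Type} (hτ : Trc τ) {F : Finset G} (hF : F.Nonempty) {u : G → N}
    (hu : ∀ s, Un (u s)) {θ : N →ₗ[ℂ] N} (h : Ct τ θ) : Ct τ (LA F u θ) := by
  intro a b
  rw [tau_LA]
  refine avg_le hF.card_pos rfl (h a b) (fun s _ => ?_) (fun s _ => ?_)
  · refine (h _ _).trans (le_of_eq ?_)
    rw [hs_mul_unit hτ (hu s), hs_unit_mul (hu s).star]
  · refine (h _ _).trans (le_of_eq ?_)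
    rw [hs_mul_unit hτ (hu s).star, hs_unit_mul (hu s)]

private lemma ct_RA {G : Type} (hτ : Trc τ) {F : Finset G} (hF : F.Nonempty) {u : G → N}
    (hu : ∀ s, Un (u s)) {θ : N →ₗ[ℂ] N} (h : Ct τ θ) : Ct τ (RA F u θ) := by
  intro a b
  rw [tau_RA hτ]
  refine avg_le hF.card_pos rfl (h a b) (fun s _ => ?_) (fun s _ => ?_)
  · refine (h _ _).trans (le_of_eq ?_)
    rw [hs_mul_unit hτ (hu s), hs_unit_mul (hu s).star]
  · refine (h _ _).trans (le_of_eq ?_)
    rw [hs_mul_unit hτ (hu s).star, hs_unit_mul (hu s)]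

/-! approximations -/

private def Ap (τ : N →ₗ[ℂ] ℂ) (U : Ultrafilter ℕ) (a b : ℕ → N) : Prop :=
  Tendsto (fun n => hs τ (a n - b n)) U (𝓝 0)

variable {U : Ultrafilter ℕ}

private lemma Ap.rfl' (a : ℕ → N) : Ap τ U a a := by
  unfold Ap
  simp only [sub_self, hs_zero]
  exact tendsto_const_nhds

private lemma Ap.symm {a b : ℕ → N} (h : Ap τ U a b) : Ap τ U b a := by
  unfold Ap at *
  exact h.congr fun n => hs_sub_comm _ _

private lemma Ap.trans (hτ : Trc τ) {a b c : ℕ → N} (h : Ap τ U a b) (h' : Ap τ U b c) :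
    Ap τ U a c := by
  unfold Ap at *
  have h1 := (h.const_mul 2).add (h'.const_mul 2)
  rw [mul_zero, add_zero] at h1
  refine squeeze_zero (fun n => hs_nonneg hτ _) (fun n => ?_) h1
  have : a n - c n = (a n - b n) + (b n - c n) := by abel
  rw [this]
  exact hs_add_le hτ _ _

private lemma Ap.mulL {a b v : ℕ → N} (h : Ap τ U a b) (hv : ∀ n, Un (v n)) :
    Ap τ U (fun n => v n * a n) (fun n => v n * b n) := by
  unfold Ap at *
  refine h.congr fun n => ?_
  rw [← mul_sub, hs_unit_mul (hv n)]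

private lemma Ap.mulR (hτ : Trc τ) {a b v : ℕ → N} (h : Ap τ U a b) (hv : ∀ n, Un (v n)) :
    Ap τ U (fun n => a n * v n) (fun n => b n * v n) := by
  unfold Ap at *
  refine h.congr fun n => ?_
  rw [← sub_mul, hs_mul_unit hτ (hv n)]

private lemma Ap.st (hτ : Trc τ) {a b : ℕ → N} (h : Ap τ U a b) :
    Ap τ U (fun n => star (a n)) (fun n => star (b n)) := by
  unfold Ap at *
  refine h.congr fun n => ?_
  rw [← star_sub, hs_star hτ]

private lemma repl (hτ : Trc τ) {θ : ℕ → N →ₗ[ℂ] N} (hθ : ∀ n, Ct τ (θ n)) {a a' b b' : ℕ → N}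
    (ha : ∀ n, hs τ (a' n) ≤ 1) (hb : ∀ n, hs τ (b n) ≤ 1) (h1 : Ap τ U a a')
    (h2 : Ap τ U b b') {z : ℂ}
    (hz : Tendsto (fun n => τ (a' n * θ n (b' n))) U (𝓝 z)) :
    Tendsto (fun n => τ (a n * θ n (b n))) U (𝓝 z) := by
  have h3 : Tendsto (fun n => τ (a n * θ n (b n)) - τ (a' n * θ n (b' n))) U (𝓝 0) := by
    rw [tendsto_zero_iff_norm_tendsto_zero]
    have s1 : Tendsto (fun n => Real.sqrt (hs τ (a n - a' n)) +
        Real.sqrt (hs τ (b n - b' n))) U (𝓝 0) := by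
      have e1 := (Real.continuous_sqrt.tendsto 0).comp h1
      have e2 := (Real.continuous_sqrt.tendsto 0).comp h2
      have e3 := e1.add e2
      rw [Real.sqrt_zero, add_zero] at e3
      exact e3
    refine squeeze_zero (fun n => norm_nonneg _) (fun n => ?_) s1
    have e1 : τ (a n * θ n (b n)) - τ (a' n * θ n (b' n)) =
        τ ((a n - a' n) * θ n (b n)) + τ (a' n * θ n (b n - b' n)) := by
      rw [map_sub (θ n), sub_mul, mul_sub, map_sub, map_sub]
      ring
    rw [e1]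
    refine (norm_add_le _ _).trans (add_le_add ?_ ?_)
    · refine (hθ n _ _).trans ?_
      have := Real.sqrt_le_one.2 (hb n)
      nlinarith [Real.sqrt_nonneg (hs τ (a n - a' n)), Real.sqrt_nonneg (hs τ (b n))]
    · refine (hθ n _ _).trans ?_
      have := Real.sqrt_le_one.2 (ha n)
      nlinarith [Real.sqrt_nonneg (hs τ (b n - b' n)), Real.sqrt_nonneg (hs τ (a' n))]
  have h4 := h3.add hz
  rw [zero_add] at h4
  exact h4.congr fun n => by ring

private lemma hs_un (hτ : Trc τ) {v : N} (hv : Un v) : hs τ v = 1 := by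
  rw [hs_eq_rt, hv.1, rt_one hτ]

end contr

section hil

variable {N : Type} [CStarAlgebra N] [PartialOrder N] [StarOrderedRing N] {τ : N →ₗ[ℂ] ℂ}
  {G : Type} [Group G] {H : Type} [NormedAddCommGroup H] [InnerProductSpace ℂ H]
  {U : Ultrafilter ℕ}

private lemma urep_inner {K : Type} [Group K] {π : K → H → H} (hπ : Helper61.IE.URep π) (g : K)
    (v w : H) : inner ℂ (π g v) (π g w) = inner ℂ v w := by
  let f : H →ₗᵢ[ℂ] H :=
    { toFun := π g
      map_add' := hπ.add g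
      map_smul' := hπ.smul g
      norm_map' := hπ.norm g }
  exact f.inner_map_map v w

private lemma urep_adj {K : Type} [Group K] {π : K → H → H} (hπ : Helper61.IE.URep π) (g : K)
    (v w : H) : inner ℂ (π g v) w = inner ℂ v (π g⁻¹ w) := by
  rw [← urep_inner hπ g v (π g⁻¹ w), ← hπ.mul, mul_inv_cancel, hπ.one]

private lemma urep_sum {K : Type} [Group K] {π : K → H → H} (hπ : Helper61.IE.URep π) (g : K)
    {κ : Type} (s : Finset κ) (f : κ → H) : π g (∑ i ∈ s, f i) = ∑ i ∈ s, π g (f i) := by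
  let T : H →ₗ[ℂ] H :=
    { toFun := π g
      map_add' := hπ.add g
      map_smul' := hπ.smul g }
  exact map_sum T f s

private noncomputable def TH (F : Finset G) (π : G × G → H → H) (v : H) : H :=
  (1 / 2 : ℂ) • v + (1 / (4 * F.card) : ℂ) • ∑ s ∈ F, (π (s, s) v + π (s⁻¹, s⁻¹) v)

private lemma inner_TH {F : Finset G} {π : G × G → H → H} (hπ : Helper61.IE.URep π) (v w : H)
    (x : G × G) : inner ℂ v (π x (TH F π w)) = (1 / 2 : ℂ) * inner ℂ v (π x w) +
      (1 / (4 * F.card) : ℂ) *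
        ∑ s ∈ F, (inner ℂ v (π (x * (s, s)) w) + inner ℂ v (π (x * (s⁻¹, s⁻¹)) w)) := by
  unfold TH
  rw [hπ.add, hπ.smul, hπ.smul, urep_sum hπ, inner_add_right, inner_smul_right,
    inner_smul_right, inner_sum]
  congr 2
  refine Finset.sum_congr rfl fun s _ => ?_
  rw [hπ.add, inner_add_right, hπ.mul, hπ.mul]

private lemma TH_inner {F : Finset G} {π : G × G → H → H} (hπ : Helper61.IE.URep π) (v w : H) :
    inner ℂ (TH F π v) w = (1 / 2 : ℂ) * inner ℂ v w +
      (1 / (4 * F.card) : ℂ) *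
        ∑ s ∈ F, (inner ℂ v (π (s⁻¹, s⁻¹) w) + inner ℂ v (π (s, s) w)) := by
  unfold TH
  rw [inner_add_left, inner_smul_left, inner_smul_left, sum_inner]
  have h1 : (starRingEnd ℂ) (1 / 2 : ℂ) = 1 / 2 := by
    rw [map_div₀, map_one, map_ofNat]
  have h2 : (starRingEnd ℂ) (1 / (4 * F.card) : ℂ) = 1 / (4 * F.card) := by
    rw [map_div₀, map_one, map_mul, map_ofNat, map_natCast]
  rw [h1, h2]
  congr 2
  refine Finset.sum_congr rfl fun s _ => ?_
  rw [inner_add_left, urep_adj hπ, urep_adj hπ]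
  simp only [Prod.inv_mk, inv_inv]

private lemma TH_symm {F : Finset G} {π : G × G → H → H} (hπ : Helper61.IE.URep π) (v w : H) :
    inner ℂ (TH F π v) w = inner ℂ v (TH F π w) := by
  have h := inner_TH (F := F) hπ v w 1
  rw [hπ.one, hπ.one] at h
  rw [TH_inner hπ, h]
  congr 2
  refine Finset.sum_congr rfl fun s _ => ?_
  rw [one_mul, one_mul, add_comm]

private lemma TH_fix {F : Finset G} (hF : F.Nonempty) {π : G × G → H → H} {v : H}
    (hv : ∀ g, π (g, g) v = v) : TH F π v = v := by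
  unfold TH
  simp only [hv]
  have hc : (F.card : ℂ) ≠ 0 := by
    have := hF.card_pos
    exact_mod_cast this.ne'
  rw [Finset.sum_const, ← two_smul ℂ v, ← Nat.cast_smul_eq_nsmul ℂ, smul_smul, smul_smul,
    ← add_smul]
  have : (1 / 2 : ℂ) + 1 / (4 * F.card) * (F.card * 2) = 1 := by
    field_simp
    norm_num
  rw [← mul_assoc] at this
  rw [this, one_smul]

private lemma TH_le {F : Finset G} (hF : F.Nonempty) {π : G × G → H → H}
    (hπ : Helper61.IE.URep π) {ξ η : H} (hη : ∀ g, π (g, g) η = η) (k : ℕ) :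
    ‖ξ‖ ^ 2 - ‖(TH F π)^[k] ξ‖ ^ 2 ≤ ‖ξ - η‖ ^ 2 := by
  have h1 : ∀ k, inner ℂ ((TH F π)^[k] ξ) η = inner ℂ ξ η := by
    intro k
    induction k with
    | zero => rfl
    | succ k ih => rw [Function.iterate_succ_apply', TH_symm hπ, TH_fix hF hη, ih]
  have h2 := norm_sub_sq (𝕜 := ℂ) ((TH F π)^[k] ξ) η
  have h3 := norm_sub_sq (𝕜 := ℂ) ξ η
  rw [h1] at h2
  have h4 : 0 ≤ ‖(TH F π)^[k] ξ - η‖ ^ 2 := by positivity
  linarith

/-- the maps `θ n` converge to the coefficient of `v` and `w` -/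
private def Lm (τ : N →ₗ[ℂ] ℂ) (U : Ultrafilter ℕ) (u : ℕ → G → N) (π : G × G → H → H)
    (θ : ℕ → N →ₗ[ℂ] N) (v w : H) : Prop :=
  ∀ g h : G, Tendsto (fun n => τ (u n g * θ n (star (u n h)))) U (𝓝 (inner ℂ v (π (g, h) w)))

variable {u : ℕ → G → N}

private lemma ap_one (hτ : Trc τ) (hu : ∀ n g, Un (u n g))
    (hm : ∀ g h, Tendsto (fun n => hs τ (u n (g * h) - u n g * u n h)) U (𝓝 0)) :
    Ap τ U (fun n => u n 1) (fun _ => 1) := by
  have h1 := hm 1 1
  unfold Ap
  refine h1.congr fun n => ?_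
  have : u n (1 * 1) - u n 1 * u n 1 = u n 1 * (1 - u n 1) := by
    rw [mul_one, mul_sub, mul_one]
  rw [this, hs_unit_mul (hu n 1), hs_sub_comm]

private lemma ap_inv (hτ : Trc τ) (hu : ∀ n g, Un (u n g))
    (hm : ∀ g h, Tendsto (fun n => hs τ (u n (g * h) - u n g * u n h)) U (𝓝 0)) (g : G) :
    Ap τ U (fun n => star (u n g)) (fun n => u n g⁻¹) := by
  have h1 : Ap τ U (fun n => u n (g * g⁻¹)) (fun n => u n g * u n g⁻¹) := hm g g⁻¹
  simp only [mul_inv_cancel] at h1
  have h2 := (ap_one hτ hu hm).symm.trans hτ h1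
  have h3 := h2.mulL (v := fun n => star (u n g)) fun n => (hu n g).star
  unfold Ap at *
  refine h3.congr fun n => ?_
  show hs τ (star (u n g) * 1 - star (u n g) * (u n g * u n g⁻¹)) =
    hs τ (star (u n g) - u n g⁻¹)
  rw [mul_one, ← mul_assoc, (hu n g).1, one_mul]

private lemma ap_mul_star (hτ : Trc τ) (hu : ∀ n g, Un (u n g))
    (hm : ∀ g h, Tendsto (fun n => hs τ (u n (g * h) - u n g * u n h)) U (𝓝 0)) (g s : G) :
    Ap τ U (fun n => u n g * star (u n s)) (fun n => u n (g * s⁻¹)) :=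
  ((ap_inv hτ hu hm s).mulL (v := fun n => u n g) fun n => hu n g).trans hτ
    (Ap.symm (hm g s⁻¹))

private lemma ap_star_mul (hτ : Trc τ) (hu : ∀ n g, Un (u n g))
    (hm : ∀ g h, Tendsto (fun n => hs τ (u n (g * h) - u n g * u n h)) U (𝓝 0)) (s g : G) :
    Ap τ U (fun n => star (u n s) * u n g) (fun n => u n (s⁻¹ * g)) :=
  ((ap_inv hτ hu hm s).mulR hτ (v := fun n => u n g) fun n => hu n g).trans hτ
    (Ap.symm (hm s⁻¹ g))

private lemma lm_LA (hτ : Trc τ) (hu : ∀ n g, Un (u n g))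
    (hm : ∀ g h, Tendsto (fun n => hs τ (u n (g * h) - u n g * u n h)) U (𝓝 0))
    {π : G × G → H → H} (hπ : Helper61.IE.URep π) (F : Finset G) {θ : ℕ → N →ₗ[ℂ] N}
    (hθ : ∀ n, Ct τ (θ n)) {v w : H} (h : Lm τ U u π θ v w) :
    Lm τ U u π (fun n => LA F (u n) (θ n)) v (TH F π w) := by
  intro g k
  simp only [tau_LA]
  rw [inner_TH hπ]
  refine ((h g k).const_mul _).add (Tendsto.const_mul _ (tendsto_finsetSum _ fun s _ => ?_))
  refine Tendsto.add ?_ ?_
  · refine repl hτ hθ (fun n => (hs_un hτ (hu n (g * s))).le) (fun n => ?_)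
      (Ap.symm (hm g s)) ?_ (h (g * s) (k * s))
    · rw [hs_unit_mul (hu n s).star, hs_un hτ (hu n k).star]
    · have h1 := (Ap.symm (hm k s)).st hτ
      simp only [star_mul] at h1
      exact h1
  · refine repl hτ hθ (fun n => (hs_un hτ (hu n (g * s⁻¹))).le) (fun n => ?_)
      (ap_mul_star hτ hu hm g s) ?_ (h (g * s⁻¹) (k * s⁻¹))
    · rw [hs_unit_mul (hu n s), hs_un hτ (hu n k).star]
    · have h1 := (ap_mul_star hτ hu hm k s).st hτ
      simp only [star_mul, star_star] at h1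
      exact h1

private lemma lm_RA (hτ : Trc τ) (hu : ∀ n g, Un (u n g))
    (hm : ∀ g h, Tendsto (fun n => hs τ (u n (g * h) - u n g * u n h)) U (𝓝 0))
    {π : G × G → H → H} (hπ : Helper61.IE.URep π) (F : Finset G) {θ : ℕ → N →ₗ[ℂ] N}
    (hθ : ∀ n, Ct τ (θ n)) {v w : H} (h : Lm τ U u π θ v w) :
    Lm τ U u π (fun n => RA F (u n) (θ n)) (TH F π v) w := by
  intro g k
  simp only [tau_RA hτ]
  rw [TH_inner hπ]
  refine ((h g k).const_mul _).add (Tendsto.const_mul _ (tendsto_finsetSum _ fun s _ => ?_))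
  refine Tendsto.add ?_ ?_
  · rw [← hπ.mul]
    refine repl hτ hθ (fun n => (hs_un hτ (hu n (s⁻¹ * g))).le) (fun n => ?_)
      (ap_star_mul hτ hu hm s g) ?_ (h (s⁻¹ * g) (s⁻¹ * k))
    · rw [hs_mul_unit hτ (hu n s), hs_un hτ (hu n k).star]
    · have h1 := (ap_star_mul hτ hu hm s k).st hτ
      simp only [star_mul, star_star] at h1
      exact h1
  · rw [← hπ.mul]
    refine repl hτ hθ (fun n => (hs_un hτ (hu n (s * g))).le) (fun n => ?_)
      (Ap.symm (hm s g)) ?_ (h (s * g) (s * k))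
    · rw [hs_mul_unit hτ (hu n s).star, hs_un hτ (hu n k).star]
    · have h1 := (Ap.symm (hm s k)).st hτ
      simp only [star_mul] at h1
      exact h1

private lemma lm_TM (hτ : Trc τ) (hu : ∀ n g, Un (u n g))
    (hm : ∀ g h, Tendsto (fun n => hs τ (u n (g * h) - u n g * u n h)) U (𝓝 0))
    {π : G × G → H → H} (hπ : Helper61.IE.URep π) {F : Finset G} (hF : F.Nonempty)
    {θ : ℕ → N →ₗ[ℂ] N} (hθ : ∀ n, Ct τ (θ n)) {v : H} (h : Lm τ U u π θ v v) (k : ℕ) :
    (∀ n, Ct τ ((TM F (u n))^[k] (θ n))) ∧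
      Lm τ U u π (fun n => (TM F (u n))^[k] (θ n)) ((TH F π)^[k] v) ((TH F π)^[k] v) := by
  induction k with
  | zero => exact ⟨hθ, h⟩
  | succ k ih =>
    obtain ⟨h1, h2⟩ := ih
    have h3 : ∀ n, Ct τ (RA F (u n) ((TM F (u n))^[k] (θ n))) := fun n =>
      ct_RA hτ hF (hu n) (h1 n)
    refine ⟨fun n => ?_, ?_⟩
    · rw [Function.iterate_succ_apply']
      exact ct_LA hτ hF (hu n) (h3 n)
    · simp only [Function.iterate_succ_apply']
      exact lm_LA hτ hu hm hπ F h3 (lm_RA hτ hu hm hπ F h1 h2)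

private lemma tau_ap (hτ : Trc τ) {a b : ℕ → N} (h : Ap τ U a b) {z : ℂ}
    (hz : Tendsto (fun n => τ (b n)) U (𝓝 z)) : Tendsto (fun n => τ (a n)) U (𝓝 z) := by
  have h3 : Tendsto (fun n => τ (a n) - τ (b n)) U (𝓝 0) := by
    rw [tendsto_zero_iff_norm_tendsto_zero]
    have e1 := (Real.continuous_sqrt.tendsto 0).comp h
    rw [Real.sqrt_zero] at e1
    refine squeeze_zero (fun n => norm_nonneg _) (fun n => ?_) e1
    have h4 := norm_map_mul_le hτ 1 (a n - b n)
    rw [star_one, one_mul, map_sub, hs_eq_rt, star_one, one_mul, rt_one hτ, Real.sqrt_one,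
      one_mul] at h4
    exact h4
  have h4 := h3.add hz
  rw [zero_add] at h4
  exact h4.congr fun n => by ring

private lemma normsq_sum (m : ℕ) (a : Fin m → ℂ) (v : Fin m → H) :
    ‖∑ i, a i • v i‖ ^ 2 = (∑ i, ∑ k, star (a i) * a k * inner ℂ (v i) (v k)).re := by
  have h : inner ℂ (∑ i, a i • v i) (∑ i, a i • v i) =
      ∑ i, ∑ k, star (a i) * a k * inner ℂ (v i) (v k) := by
    rw [sum_inner]
    refine Finset.sum_congr rfl fun i _ => ?_
    rw [inner_sum]
    refine Finset.sum_congr rfl fun k _ => ?_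
    rw [inner_smul_left, inner_smul_right, ← mul_assoc]
    rfl
  rw [← inner_self_eq_norm_sq (𝕜 := ℂ), h]
  rfl

private lemma tau_sum (m : ℕ) (a : Fin m → ℂ) (w : Fin m → N) (x : N) :
    τ (star (∑ i, a i • w i) * (∑ i, a i • w i) * x) =
      ∑ i, ∑ k, star (a i) * a k * τ (star (w i) * w k * x) := by
  rw [star_sum, Finset.sum_mul, Finset.sum_mul, map_sum]
  refine Finset.sum_congr rfl fun i _ => ?_
  rw [Finset.mul_sum, Finset.sum_mul, map_sum]
  refine Finset.sum_congr rfl fun k _ => ?_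
  rw [star_smul, smul_mul_smul_comm, smul_mul_assoc, map_smul, smul_eq_mul]

private lemma chi_span {χ : G → ℂ} {π : G × G → H → H} (hπ : Helper61.IE.URep π) {ξ : H}
    (γ : G → H → H) (hγ : Helper61.IE.URep γ) (c : G × G → G)
    (hγπ : ∀ (x : G) (p : G × G), γ x (π p ξ) = π p (γ ((c p)⁻¹ * x * c p) ξ))
    (hχ : ∀ g x, χ (g⁻¹ * x * g) = χ x) (hsub : Helper85.IE.Subtracial χ γ ξ)
    (hd : Dense (Submodule.span ℂ (Set.range fun g => π g ξ) : Set H)) :
    Dense {ζ | Helper61.IE.ChiBd χ γ ζ} := by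
  refine hd.mono fun ζ hζ => ?_
  have hζ' : ζ ∈ Submodule.span ℂ (Set.range fun g => π g ξ) := hζ
  show Helper61.IE.ChiBd χ γ ζ
  induction hζ' using Submodule.span_induction with
  | mem ζ hz =>
    obtain ⟨p, rfl⟩ := hz
    refine ⟨1, fun m a x => ?_⟩
    have h1 : ∑ i, a i • γ (x i) (π p ξ) = π p (∑ i, a i • γ ((c p)⁻¹ * x i * c p) ξ) := by
      rw [urep_sum hπ]
      refine Finset.sum_congr rfl fun i _ => ?_
      rw [hγπ, hπ.smul]
    rw [h1, hπ.norm, one_mul]
    refine (hsub m a fun i => (c p)⁻¹ * x i * c p).trans (le_of_eq ?_)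
    congr 1
    refine Finset.sum_congr rfl fun i _ => Finset.sum_congr rfl fun k _ => ?_
    have h2 : ((c p)⁻¹ * x i * c p)⁻¹ * ((c p)⁻¹ * x k * c p) =
        (c p)⁻¹ * ((x i)⁻¹ * x k) * c p := by group
    rw [h2, hχ]
  | zero =>
    refine ⟨0, fun m a x => ?_⟩
    have h1 : ∀ g, γ g 0 = 0 := fun g => by
      have := hγ.norm g 0
      rwa [norm_zero, norm_eq_zero] at this
    simp only [h1, smul_zero, Finset.sum_const_zero, norm_zero, zero_mul]
    norm_num
  | add v w hv hw h1 h2 =>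
    obtain ⟨C, hC⟩ := h1 hv
    obtain ⟨D, hD⟩ := h2 hw
    refine ⟨2 * C + 2 * D, fun m a x => ?_⟩
    have e1 : ∑ i, a i • γ (x i) (v + w) = ∑ i, a i • γ (x i) v + ∑ i, a i • γ (x i) w := by
      rw [← Finset.sum_add_distrib]
      exact Finset.sum_congr rfl fun i _ => by rw [hγ.add, smul_add]
    rw [e1]
    have e2 := norm_add_le (∑ i, a i • γ (x i) v) (∑ i, a i • γ (x i) w)
    have e3 := hC m a x
    have e4 := hD m a x
    have e5 := norm_nonneg (∑ i, a i • γ (x i) v + ∑ i, a i • γ (x i) w)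
    nlinarith [sq_nonneg (‖∑ i, a i • γ (x i) v‖ - ‖∑ i, a i • γ (x i) w‖)]
  | smul r v hv h1 =>
    obtain ⟨C, hC⟩ := h1 hv
    refine ⟨‖r‖ ^ 2 * C, fun m a x => ?_⟩
    have e1 : ∑ i, a i • γ (x i) (r • v) = r • ∑ i, a i • γ (x i) v := by
      rw [Finset.smul_sum]
      exact Finset.sum_congr rfl fun i _ => by rw [hγ.smul, smul_comm]
    rw [e1, norm_smul, mul_pow, mul_assoc]
    exact mul_le_mul_of_nonneg_left (hC m a x) (by positivity)

end hil

private lemma scp_zero {N : Type} [CStarAlgebra N] [PartialOrder N] [StarOrderedRing N]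
    (τ : N →ₗ[ℂ] ℂ) : SCP τ (0 : N →ₗ[ℂ] N) where
  map_star x := by simp
  nonneg x _ := by simp
  cp m x y := by simp
  symm x y := by simp
  pos x := by simp [rt]
  one := by simp

theorem pGapT (hG : StGNS) (hB : StBim) : StGapT := by
  classical
  intro N _ _ _ τ G _ _ χ U u hτ hu hm hχ hT δ hδ
  obtain ⟨S, K₀, hS⟩ := hT (δ / 2) (half_pos hδ)
  refine ⟨S, max K₀ 0, fun F hSF hF k => ?_⟩
  by_contra hcon
  have hcon2 : ∀ᶠ n in (U : Filter ℕ), ∃ ψ : N →ₗ[ℂ] N, SCP τ ψ ∧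
      max K₀ 0 * EnM τ S (u n) ψ + δ < gap τ F (u n) k ψ := by
    have h1 := Ultrafilter.eventually_not.2 hcon
    filter_upwards [h1] with n hn
    unfold GapF at hn
    push Not at hn
    exact hn
  obtain ⟨ψ, hψ, hψU⟩ : ∃ ψ : ℕ → N →ₗ[ℂ] N, (∀ n, SCP τ (ψ n)) ∧
      ∀ᶠ n in (U : Filter ℕ), max K₀ 0 * EnM τ S (u n) (ψ n) + δ < gap τ F (u n) k (ψ n) := by
    refine ⟨fun n => if h : ∃ ψ : N →ₗ[ℂ] N, SCP τ ψ ∧
      max K₀ 0 * EnM τ S (u n) ψ + δ < gap τ F (u n) k ψ then h.choose else 0, fun n => ?_, ?_⟩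
    · by_cases h : ∃ ψ : N →ₗ[ℂ] N, SCP τ ψ ∧
        max K₀ 0 * EnM τ S (u n) ψ + δ < gap τ F (u n) k ψ
      · simp only [dif_pos h]
        exact h.choose_spec.1
      · simp only [dif_neg h]
        exact scp_zero τ
    · filter_upwards [hcon2] with n h
      simp only [dif_pos h]
      exact h.choose_spec.2
  have hct : ∀ n, Ct τ (ψ n) := fun n => ct_scp hB hτ (hψ n)
  -- the limit function
  have hlim : ∀ x : G × G, ∃ z, Tendsto (fun n => τ (u n x.1 * ψ n (star (u n x.2)))) U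
      (𝓝 z) := by
    intro x
    have h1 : ((U.map fun n => τ (u n x.1 * ψ n (star (u n x.2))) : Ultrafilter ℂ) : Filter ℂ) ≤
        𝓟 (Metric.closedBall 0 1) := by
      rw [Ultrafilter.coe_map, le_principal_iff, mem_map]
      refine Filter.univ_mem' fun n => ?_
      rw [Set.mem_preimage, mem_closedBall_zero_iff]
      refine (hct n _ _).trans ?_
      rw [hs_un hτ (hu n _), hs_un hτ (hu n _).star, Real.sqrt_one, one_mul]
    obtain ⟨z, -, hz⟩ := (isCompact_closedBall (0 : ℂ) 1).ultrafilter_le_nhds _ h1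
    exact ⟨z, hz⟩
  choose P hP using hlim
  -- perturbed limits
  have hP' : ∀ (g h : G) (a b : ℕ → N), Ap τ U a (fun n => u n g) →
      Ap τ U b (fun n => star (u n h)) → (∀ n, hs τ (b n) ≤ 1) →
      Tendsto (fun n => τ (a n * ψ n (b n))) U (𝓝 (P (g, h))) := fun g h a b h1 h2 h3 =>
    repl hτ hct (fun n => (hs_un hτ (hu n g)).le) h3 h1 h2 (hP (g, h))
  have hone := ap_one hτ hu hm
  have hone' : Ap τ U (fun _ => (1 : N)) (fun n => u n 1) := hone.symm
  have hones : Ap τ U (fun _ => (1 : N)) (fun n => star (u n 1)) := by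
    have h1 := hone'.st hτ
    simp only [star_one] at h1
    exact h1
  have hs1 : hs τ (1 : N) ≤ 1 := by
    rw [hs_eq_rt, star_one, one_mul, rt_one hτ]
  have hbst : ∀ g h : G, Ap τ U (fun n => star (u n h) * u n g)
      (fun n => star (u n (g⁻¹ * h))) := by
    intro g h
    have h1 := (ap_star_mul hτ hu hm g h).st hτ
    simp only [star_mul, star_star] at h1
    exact h1
  have hunm : ∀ n (g h : G), hs τ (star (u n g) * u n h) = 1 := fun n g h => by
    rw [hs_unit_mul (hu n g).star, hs_un hτ (hu n h)]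
  -- the character
  have hχm : ∀ g h : G, Tendsto (fun n => τ (star (u n g) * u n h)) U (𝓝 (χ (g⁻¹ * h))) :=
    fun g h => tau_ap hτ (ap_star_mul hτ hu hm g h) (hχ _)
  have hχs : ∀ g h : G, χ (h⁻¹ * g) = star (χ (g⁻¹ * h)) := by
    intro g h
    refine tendsto_nhds_unique (hχm h g) ?_
    have h1 := (continuous_star.tendsto _).comp (hχm g h)
    refine h1.congr fun n => ?_
    show star (τ (star (u n g) * u n h)) = τ (star (u n h) * u n g)
    have h2 := map_star' hτ (star (u n g) * u n h)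
    rw [star_mul, star_star] at h2
    rw [h2]
    rfl
  have hχc : ∀ g x, χ (g⁻¹ * x * g) = χ x := by
    intro g x
    have h1 : Ap τ U (fun n => star (u n g) * u n x * u n g) (fun n => u n (g⁻¹ * x * g)) :=
      ((ap_star_mul hτ hu hm g x).mulR hτ (v := fun n => u n g) fun n => hu n g).trans hτ
        (Ap.symm (hm (g⁻¹ * x) g))
    have h2 := tau_ap hτ h1.symm (z := χ x) ?_
    · exact tendsto_nhds_unique (hχ _) h2
    · refine (hχ x).congr fun n => ?_
      rw [hτ.tr (star (u n g) * u n x), ← mul_assoc, (hu n g).2, one_mul]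
  -- positive definiteness
  have hpos : ∀ (m : ℕ) (c : Fin m → ℂ) (x : Fin m → G × G),
      0 ≤ ∑ i, ∑ j, star (c i) * c j * P ((x i)⁻¹ * x j) := by
    intro m c x
    have h1 : Tendsto (fun n => ∑ i, ∑ j, star (c i) * c j *
        τ (star (u n (x i).1) * u n (x j).1 * ψ n (star (u n (x j).2) * u n (x i).2))) U
        (𝓝 (∑ i, ∑ j, star (c i) * c j * P ((x i)⁻¹ * x j))) := by
      refine tendsto_finsetSum _ fun i _ => tendsto_finsetSum _ fun j _ => ?_
      refine Tendsto.const_mul _ ?_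
      exact hP' ((x i).1⁻¹ * (x j).1) ((x i).2⁻¹ * (x j).2) _ _
        (ap_star_mul hτ hu hm (x i).1 (x j).1) (hbst (x i).2 (x j).2)
        fun n => (hunm n _ _).le
    have h2 : ∀ n, 0 ≤ (∑ i, ∑ j, star (c i) * c j *
        τ (star (u n (x i).1) * u n (x j).1 * ψ n (star (u n (x j).2) * u n (x i).2))).re := by
      intro n
      have h3 := (hψ n).cp m (fun i => c i • u n (x i).1) (fun j => star (u n (x j).2))
      refine h3.trans (le_of_eq ?_)
      congr 1
      refine Finset.sum_congr rfl fun i _ => Finset.sum_congr rfl fun j _ => ?_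
      rw [star_smul, smul_mul_smul_comm, smul_mul_assoc, map_smul, smul_eq_mul, star_star]
    have h3 : ∀ n, (∑ i, ∑ j, star (c i) * c j *
        τ (star (u n (x i).1) * u n (x j).1 * ψ n (star (u n (x j).2) * u n (x i).2))).im = 0 := by
      intro n
      rw [← Complex.conj_eq_iff_im, map_sum]
      simp only [map_sum]
      rw [Finset.sum_comm]
      refine Finset.sum_congr rfl fun i _ => Finset.sum_congr rfl fun j _ => ?_
      rw [map_mul, map_mul, ← map_star' hτ, star_mul, ← (hψ n).map_star, star_mul, star_mul,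
        star_star, star_star, hτ.tr, mul_comm (star (c i))]
      congr 2
      exact star_star _
    rw [Complex.le_def]
    refine ⟨?_, ?_⟩
    · rw [Complex.zero_re]
      exact ge_of_tendsto' ((Complex.continuous_re.tendsto _).comp h1) h2
    · rw [Complex.zero_im]
      have h4 := (Complex.continuous_im.tendsto _).comp h1
      have h5 : Tendsto (fun _ : ℕ => (0 : ℝ)) U (𝓝 0) := tendsto_const_nhds
      exact tendsto_nhds_unique (h5.congr fun n => (h3 n).symm) h4
  obtain ⟨H, _, _, _, π, ξ, hπ, hξ, hd⟩ := hG (G × G) P hpos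
  have hLm : Lm τ U u π ψ ξ ξ := by
    intro g h
    rw [hξ]
    exact hP (g, h)
  set α : G → H → H := fun g => π (g, 1) with hα
  set β : G → H → H := fun g => π (1, g) with hβ
  have hαu : Helper61.IE.URep α :=
    { one := fun v => hπ.one v
      mul := fun g h v => by
        show π (g * h, 1) v = π (g, 1) (π (h, 1) v)
        rw [← hπ.mul, Prod.mk_mul_mk, mul_one]
      add := fun g => hπ.add _
      smul := fun g => hπ.smul _
      norm := fun g => hπ.norm _ }
  have hβu : Helper61.IE.URep β :=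
    { one := fun v => hπ.one v
      mul := fun g h v => by
        show π (1, g * h) v = π (1, g) (π (1, h) v)
        rw [← hπ.mul, Prod.mk_mul_mk, mul_one]
      add := fun g => hπ.add _
      smul := fun g => hπ.smul _
      norm := fun g => hπ.norm _ }
  have hαβ : ∀ g h v, α g (β h v) = β h (α g v) := by
    intro g h v
    show π (g, 1) (π (1, h) v) = π (1, h) (π (g, 1) v)
    rw [← hπ.mul, ← hπ.mul, Prod.mk_mul_mk, Prod.mk_mul_mk, mul_one, one_mul, mul_one, one_mul]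
  have hinn : ∀ x y : G × G, inner ℂ (π x ξ) (π y ξ) = P (x⁻¹ * y) := by
    intro x y
    rw [urep_adj hπ, ← hπ.mul, hξ]
  have hsub1 : Helper85.IE.Subtracial χ α ξ := by
    intro m a x
    have h0 : ‖∑ i, a i • α (x i) ξ‖ ^ 2 =
        (∑ i, ∑ k, star (a i) * a k * P ((x i)⁻¹ * x k, 1)).re := by
      rw [normsq_sum]
      congr 1
      refine Finset.sum_congr rfl fun i _ => Finset.sum_congr rfl fun k _ => ?_
      show star (a i) * a k * inner ℂ (π (x i, 1) ξ) (π (x k, 1) ξ) = _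
      rw [hinn, Prod.inv_mk, Prod.mk_mul_mk, inv_one, one_mul]
    rw [h0]
    have h1 : Tendsto (fun n => ∑ i, ∑ k, star (a i) * a k *
        τ (star (u n (x i)) * u n (x k) * ψ n 1)) U
        (𝓝 (∑ i, ∑ k, star (a i) * a k * P ((x i)⁻¹ * x k, 1))) :=
      tendsto_finsetSum _ fun i _ => tendsto_finsetSum _ fun k _ =>
        (hP' _ _ _ _ (ap_star_mul hτ hu hm (x i) (x k)) hones fun n => hs1).const_mul _
    have h2 : Tendsto (fun n => ∑ i, ∑ k, star (a i) * a k *
        τ (star (u n (x i)) * u n (x k))) U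
        (𝓝 (∑ i, ∑ k, star (a i) * a k * χ ((x i)⁻¹ * x k))) :=
      tendsto_finsetSum _ fun i _ => tendsto_finsetSum _ fun k _ => (hχm _ _).const_mul _
    refine le_of_tendsto_of_tendsto' ((Complex.continuous_re.tendsto _).comp h1)
      ((Complex.continuous_re.tendsto _).comp h2) fun n => ?_
    show (∑ i, ∑ k, star (a i) * a k * τ (star (u n (x i)) * u n (x k) * ψ n 1)).re ≤
      (∑ i, ∑ k, star (a i) * a k * τ (star (u n (x i)) * u n (x k))).re
    have e1 := tau_sum (τ := τ) m a (fun i => u n (x i)) (ψ n 1)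
    have e2 := tau_sum (τ := τ) m a (fun i => u n (x i)) 1
    simp only [mul_one] at e2
    rw [← e1, ← e2]
    have e3 := rt_mul_mono' hτ (hψ n).one
      (nonneg_star_mul (∑ i, a i • u n (x i)))
    rw [mul_one] at e3
    exact e3
  have hsub2 : Helper85.IE.Subtracial (fun g => star (χ g)) β ξ := by
    intro m a x
    have h0 : ‖∑ i, a i • β (x i) ξ‖ ^ 2 =
        (∑ i, ∑ k, star (a i) * a k * P (1, (x i)⁻¹ * x k)).re := by
      rw [normsq_sum]
      congr 1
      refine Finset.sum_congr rfl fun i _ => Finset.sum_congr rfl fun k _ => ?_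
      show star (a i) * a k * inner ℂ (π (1, x i) ξ) (π (1, x k) ξ) = _
      rw [hinn, Prod.inv_mk, Prod.mk_mul_mk, inv_one, one_mul]
    rw [h0]
    have h1 : Tendsto (fun n => ∑ i, ∑ k, star (a i) * a k *
        τ (1 * ψ n (star (u n (x k)) * u n (x i)))) U
        (𝓝 (∑ i, ∑ k, star (a i) * a k * P (1, (x i)⁻¹ * x k))) :=
      tendsto_finsetSum _ fun i _ => tendsto_finsetSum _ fun k _ =>
        (hP' _ _ _ _ hone' (hbst (x i) (x k)) fun n => (hunm n _ _).le).const_mul _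
    have h2 : Tendsto (fun n => ∑ i, ∑ k, star (a i) * a k *
        τ (star (u n (x k)) * u n (x i))) U
        (𝓝 (∑ i, ∑ k, star (a i) * a k * star (χ ((x i)⁻¹ * x k)))) :=
      tendsto_finsetSum _ fun i _ => tendsto_finsetSum _ fun k _ => by
        have h3 := (hχm (x k) (x i)).const_mul (star (a i) * a k)
        rw [hχs (x i) (x k)] at h3
        exact h3
    refine le_of_tendsto_of_tendsto' ((Complex.continuous_re.tendsto _).comp h1)
      ((Complex.continuous_re.tendsto _).comp h2) fun n => ?_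
    show (∑ i, ∑ k, star (a i) * a k * τ (1 * ψ n (star (u n (x k)) * u n (x i)))).re ≤
      (∑ i, ∑ k, star (a i) * a k * τ (star (u n (x k)) * u n (x i))).re
    set w : N := ∑ i, a i • star (u n (x i)) with hw
    have hww : w * star w = ∑ i, ∑ k, (star (a i) * a k) • (star (u n (x k)) * u n (x i)) := by
      rw [hw, star_sum, Finset.sum_mul_sum, Finset.sum_comm]
      refine Finset.sum_congr rfl fun i _ => Finset.sum_congr rfl fun k _ => ?_
      rw [star_smul, star_star, smul_mul_smul_comm, mul_comm (a k)]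
    have e1 : ∑ i, ∑ k, star (a i) * a k * τ (1 * ψ n (star (u n (x k)) * u n (x i))) =
        τ (w * star w * ψ n 1) := by
      rw [← (hψ n).symm, mul_one, hww, map_sum, map_sum]
      refine Finset.sum_congr rfl fun i _ => ?_
      rw [map_sum, map_sum]
      refine Finset.sum_congr rfl fun k _ => ?_
      rw [map_smul, map_smul, smul_eq_mul, one_mul]
    have e2 : ∑ i, ∑ k, star (a i) * a k * τ (star (u n (x k)) * u n (x i)) =
        τ (w * star w) := by
      rw [hww, map_sum]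
      refine Finset.sum_congr rfl fun i _ => ?_
      rw [map_sum]
      refine Finset.sum_congr rfl fun k _ => ?_
      rw [map_smul, smul_eq_mul]
    rw [e1, e2]
    have e3 := rt_mul_mono' hτ (hψ n).one (nonneg_mul_star w)
    rw [mul_one] at e3
    exact e3
  obtain ⟨η, hη, hle⟩ := hS H α β hαu hβu hαβ
    (chi_span hπ α hαu (fun p => p.1) (fun x p => by
      show π (x, 1) (π p ξ) = π p (π (p.1⁻¹ * x * p.1, 1) ξ)
      rw [← hπ.mul, ← hπ.mul]
      congr 1
      refine Prod.ext ?_ ?_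
      · show x * p.1 = p.1 * (p.1⁻¹ * x * p.1)
        group
      · show 1 * p.2 = p.2 * 1
        group) hχc hsub1 hd)
    (chi_span hπ β hβu (fun p => p.2) (fun x p => by
      show π (1, x) (π p ξ) = π p (π (1, p.2⁻¹ * x * p.2) ξ)
      rw [← hπ.mul, ← hπ.mul]
      congr 1
      refine Prod.ext ?_ ?_
      · show 1 * p.1 = p.1 * 1
        group
      · show x * p.2 = p.2 * (p.2⁻¹ * x * p.2)
        group) (fun g x => by rw [hχc]) hsub2 hd)
    ξ hsub1 hsub2
  have hη' : ∀ g, π (g, g) η = η := by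
    intro g
    have h1 : π (g, 1) (π (1, g) η) = η := hη g
    rwa [← hπ.mul, Prod.mk_mul_mk, mul_one, one_mul] at h1
  have hξ1 : (P (1, 1)).re = ‖ξ‖ ^ 2 := by
    have h1 := hξ (1, 1)
    have h2 : π ((1 : G), (1 : G)) ξ = ξ := hπ.one ξ
    rw [h2] at h1
    rw [← h1, ← inner_self_eq_norm_sq (𝕜 := ℂ)]
    rfl
  have hlim1 : Tendsto (fun n => rt τ (ψ n 1)) U (𝓝 (‖ξ‖ ^ 2)) := by
    have h1 := hP' 1 1 _ _ hone' hones fun n => hs1
    have h2 := (Complex.continuous_re.tendsto _).comp h1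
    rw [hξ1] at h2
    refine h2.congr fun n => ?_
    show (τ (1 * ψ n 1)).re = rt τ (ψ n 1)
    rw [one_mul]
    rfl
  have hlims : ∀ s, Tendsto (fun n => rt τ (star (u n s) * ψ n (u n s))) U
      (𝓝 ((P (s, s)).re)) := by
    intro s
    have h2 := (Complex.continuous_re.tendsto _).comp (hP (s, s))
    refine h2.congr fun n => ?_
    show rt τ (u n s * ψ n (star (u n s))) = _
    rw [(hψ n).map_star, ← rt_star hτ, star_mul, star_star, rt_mul_comm hτ]
  have hns : ∀ s, ‖α s (β s ξ) - ξ‖ ^ 2 = 2 * (‖ξ‖ ^ 2 - (P (s, s)).re) := by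
    intro s
    have h1 : α s (β s ξ) = π (s, s) ξ := by
      show π (s, 1) (π (1, s) ξ) = _
      rw [← hπ.mul, Prod.mk_mul_mk, mul_one, one_mul]
    have h2 := norm_sub_sq (𝕜 := ℂ) (π (s, s) ξ) ξ
    rw [h1, h2, hπ.norm, ← inner_conj_symm, hξ]
    have h3 : RCLike.re ((starRingEnd ℂ) (P (s, s))) = (P (s, s)).re := Complex.conj_re _
    rw [h3]
    ring
  have hlimE : Tendsto (fun n => EnM τ S (u n) (ψ n)) U
      (𝓝 (∑ s ∈ S, ‖α s (β s ξ) - ξ‖ ^ 2)) := by
    unfold EnM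
    refine tendsto_finsetSum _ fun s _ => ?_
    rw [hns]
    exact (hlim1.sub (hlims s)).const_mul 2
  obtain ⟨hctk, hLmk⟩ := lm_TM hτ hu hm hπ hF hct hLm k
  have hlimk : Tendsto (fun n => rt τ (((TM F (u n))^[k] (ψ n)) 1)) U
      (𝓝 (‖(TH F π)^[k] ξ‖ ^ 2)) := by
    have h1 := repl hτ hctk (fun n => (hs_un hτ (hu n 1)).le) (fun n => hs1) hone' hones
      (hLmk 1 1)
    have h3 : π ((1 : G), (1 : G)) ((TH F π)^[k] ξ) = (TH F π)^[k] ξ := hπ.one _
    rw [h3] at h1
    have h2 := (Complex.continuous_re.tendsto _).comp h1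
    have h4 : (inner ℂ ((TH F π)^[k] ξ) ((TH F π)^[k] ξ)).re = ‖(TH F π)^[k] ξ‖ ^ 2 :=
      inner_self_eq_norm_sq (𝕜 := ℂ) _
    rw [h4] at h2
    refine h2.congr fun n => ?_
    show (τ (1 * ((TM F (u n))^[k] (ψ n)) 1)).re = _
    rw [one_mul]
    rfl
  have hfin : max K₀ 0 * ∑ s ∈ S, ‖α s (β s ξ) - ξ‖ ^ 2 + δ ≤
      ‖ξ‖ ^ 2 - ‖(TH F π)^[k] ξ‖ ^ 2 := by
    refine le_of_tendsto_of_tendsto ((hlimE.const_mul _).add_const δ) (hlim1.sub hlimk) ?_
    filter_upwards [hψU] with n hn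
    exact hn.le
  have h1 := TH_le hF hπ (ξ := ξ) hη' k
  have h2 : 0 ≤ ∑ s ∈ S, ‖α s (β s ξ) - ξ‖ ^ 2 := Finset.sum_nonneg fun s _ => by positivity
  have h3 : K₀ * ∑ s ∈ S, ‖α s (β s ξ) - ξ‖ ^ 2 ≤
      max K₀ 0 * ∑ s ∈ S, ‖α s (β s ξ) - ξ‖ ^ 2 :=
    mul_le_mul_of_nonneg_right (le_max_left _ _) h2
  linarith

end Helper61.HT
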