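import Pool.Agent.Helper61.HT.StC
import Pool.Agent.Helper61.HT.LibN

/-!
# The main theorem from the macroscopic step (exhaustion)
-/

set_option linter.unusedSectionVars false

namespace Helper61.HT

open scoped ComplexOrder
open Filter Topology

/-- Diagonal argument. -/
private lemma diag {U : Ultrafilter ℕ} (hU : (U : Filter ℕ) ≤ atTop) (P : ℕ → ℕ → Prop)
    (h : ∀ j, ∀ᶠ n in (U : Filter ℕ), P j n) :
    ∃ J : ℕ → ℕ, (∀ᶠ n in (U : Filter ℕ), P (J n) n) ∧
      ∀ j, ∀ᶠ n in (U : Filter ℕ), j ≤ J n := by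
  classical
  refine ⟨fun n => Nat.findGreatest (fun j => ∀ i ≤ j, P i n) n, ?_, ?_⟩
  · filter_upwards [h 0] with n hn
    have h1 : (fun j => ∀ i ≤ j, P i n) (Nat.findGreatest (fun j => ∀ i ≤ j, P i n) n) :=
      Nat.findGreatest_spec (P := fun j => ∀ i ≤ j, P i n) (m := 0) (Nat.zero_le n)
        (fun i hi => by rw [Nat.le_zero.1 hi]; exact hn)
    exact h1 _ le_rfl
  · intro j
    have h1 : ∀ᶠ n in (U : Filter ℕ), ∀ i ∈ Finset.range (j + 1), P i n :=
      (Filter.eventually_all_finset _).2 fun i _ => h i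
    have h2 : ∀ᶠ n in (U : Filter ℕ), j ≤ n := hU (eventually_ge_atTop j)
    filter_upwards [h1, h2] with n hn hjn
    exact Nat.le_findGreatest hjn fun i hi => hn i (Finset.mem_range.2 (Nat.lt_succ_of_le hi))

section

variable {N : Type} [CStarAlgebra N] [PartialOrder N] [StarOrderedRing N] {τ : N →ₗ[ℂ] ℂ}

lemma Pr.mul_zero_symm {p q : N} (hp : Pr p) (hq : Pr q) (h : q * p = 0) : p * q = 0 := by
  have := congrArg star h
  rwa [star_mul, hp.1, hq.1, star_zero] at this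

lemma Pr.add {p q : N} (hp : Pr p) (hq : Pr q) (h : q * p = 0) : Pr (p + q) := by
  refine ⟨by rw [star_add, hp.1, hq.1], ?_⟩
  rw [add_mul, mul_add, mul_add, hp.2, hq.2, h, hp.mul_zero_symm hq h]
  abel

/-- The sum of two orthogonal subalgebras. -/
private def supSub (p q : N) (M₁ M₂ : NonUnitalStarSubalgebra ℂ N)
    (h1 : ∀ y ∈ M₁, p * y * p = y) (h2 : ∀ y ∈ M₂, q * y * q = y) (hqp : q * p = 0)
    (hpq : p * q = 0) : NonUnitalStarSubalgebra ℂ N where
  carrier := {x | ∃ a ∈ M₁, ∃ b ∈ M₂, x = a + b}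
  add_mem' := by
    rintro x y ⟨a, ha, b, hb, rfl⟩ ⟨a', ha', b', hb', rfl⟩
    exact ⟨a + a', add_mem ha ha', b + b', add_mem hb hb', by abel⟩
  zero_mem' := ⟨0, zero_mem _, 0, zero_mem _, by simp⟩
  mul_mem' := by
    rintro x y ⟨a, ha, b, hb, rfl⟩ ⟨a', ha', b', hb', rfl⟩
    refine ⟨a * a', mul_mem ha ha', b * b', mul_mem hb hb', ?_⟩
    have e1 : a * b' = 0 := by
      rw [← h1 a ha, ← h2 b' hb']
      calc p * a * p * (q * b' * q) = p * a * (p * q) * b' * q := by noncomm_ring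
        _ = 0 := by rw [hpq]; simp
    have e2 : b * a' = 0 := by
      rw [← h1 a' ha', ← h2 b hb]
      calc q * b * q * (p * a' * p) = q * b * (q * p) * a' * p := by noncomm_ring
        _ = 0 := by rw [hqp]; simp
    rw [add_mul, mul_add, mul_add, e1, e2]; abel
  smul_mem' := by
    rintro c x ⟨a, ha, b, hb, rfl⟩
    exact ⟨c • a, SMulMemClass.smul_mem c ha, c • b, SMulMemClass.smul_mem c hb, smul_add _ _ _⟩
  star_mem' := by
    rintro x ⟨a, ha, b, hb, rfl⟩
    exact ⟨star a, star_mem ha, star b, star_mem hb, star_add _ _⟩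

private lemma supSub_fd (p q : N) (M₁ M₂ : NonUnitalStarSubalgebra ℂ N)
    (h1 : ∀ y ∈ M₁, p * y * p = y) (h2 : ∀ y ∈ M₂, q * y * q = y) (hqp : q * p = 0)
    (hpq : p * q = 0) (f1 : FiniteDimensional ℂ M₁) (f2 : FiniteDimensional ℂ M₂) :
    FiniteDimensional ℂ (supSub p q M₁ M₂ h1 h2 hqp hpq) := by
  have g1 : FiniteDimensional ℂ M₁.toSubmodule := f1
  have g2 : FiniteDimensional ℂ M₂.toSubmodule := f2
  have g3 : FiniteDimensional ℂ (M₁.toSubmodule ⊔ M₂.toSubmodule : Submodule ℂ N) :=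
    Submodule.finiteDimensional_sup _ _
  have h3 : (supSub p q M₁ M₂ h1 h2 hqp hpq).toSubmodule ≤ M₁.toSubmodule ⊔ M₂.toSubmodule := by
    rintro x ⟨a, ha, b, hb, rfl⟩
    exact Submodule.add_mem_sup ha hb
  exact Submodule.finiteDimensional_of_le h3

/-- The unital algebra `M + ℂ 1`. -/
private def uni (M : NonUnitalStarSubalgebra ℂ N) : StarSubalgebra ℂ N where
  carrier := {x | ∃ a ∈ M, ∃ c : ℂ, x = a + c • 1}
  add_mem' := by
    rintro x y ⟨a, ha, c, rfl⟩ ⟨a', ha', c', rfl⟩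
    exact ⟨a + a', add_mem ha ha', c + c', by rw [add_smul]; abel⟩
  mul_mem' := by
    rintro x y ⟨a, ha, c, rfl⟩ ⟨a', ha', c', rfl⟩
    refine ⟨a * a' + c' • a + c • a', add_mem (add_mem (mul_mem ha ha')
      (SMulMemClass.smul_mem c' ha)) (SMulMemClass.smul_mem c ha'), c * c', ?_⟩
    rw [add_mul, mul_add, mul_add, mul_smul_comm, mul_one, smul_mul_assoc, one_mul,
      smul_mul_smul_comm, one_mul]
    abel
  algebraMap_mem' := fun r => ⟨0, zero_mem _, r, by rw [zero_add, Algebra.algebraMap_eq_smul_one]⟩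
  star_mem' := by
    rintro x ⟨a, ha, c, rfl⟩
    exact ⟨star a, star_mem ha, star c, by rw [star_add, star_smul, star_one]⟩

private lemma uni_fd (M : NonUnitalStarSubalgebra ℂ N) (f : FiniteDimensional ℂ M) :
    FiniteDimensional ℂ (uni M) := by
  have g1 : FiniteDimensional ℂ M.toSubmodule := f
  have g3 : FiniteDimensional ℂ (M.toSubmodule ⊔ Submodule.span ℂ {(1 : N)} : Submodule ℂ N) :=
    Submodule.finiteDimensional_sup _ _
  have h3 : (Subalgebra.toSubmodule (uni M).toSubalgebra) ≤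
      M.toSubmodule ⊔ Submodule.span ℂ {(1 : N)} := by
    rintro x ⟨a, ha, c, rfl⟩
    exact Submodule.add_mem_sup ha (Submodule.mem_span_singleton.2 ⟨c, rfl⟩)
  exact Submodule.finiteDimensional_of_le h3

private lemma corner {p y : N} (hp : Pr p) (h : p * y * p = y) : y * p = y ∧ p * y = y := by
  constructor
  · calc y * p = p * y * p * p := by rw [h]
      _ = p * y * (p * p) := by noncomm_ring
      _ = y := by rw [hp.2, h]
  · calc p * y = p * (p * y * p) := by rw [h]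
      _ = p * p * y * p := by noncomm_ring
      _ = y := by rw [hp.2, h]

/-- Orthogonal sums of good pairs. -/
private lemma GP.add (hτ : Trc τ) {ι : Type} {F : Finset ι} {u : ι → N} {ε : ℝ} {p q : N}
    {M₁ M₂ : NonUnitalStarSubalgebra ℂ N} (h1 : GP τ F u ε p M₁) (h2 : GP τ F u ε q M₂)
    (hqp : q * p = 0) : ∃ M, GP τ F u ε (p + q) M := by
  have hpq := h1.pr.mul_zero_symm h2.pr hqp
  refine ⟨supSub p q M₁ M₂ h1.le h2.le hqp hpq, h1.pr.add h2.pr hqp,
    supSub_fd p q M₁ M₂ h1.le h2.le hqp hpq h1.fd h2.fd, ?_, ?_⟩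
  · rintro y ⟨a, ha, b, hb, rfl⟩
    obtain ⟨a2, a1⟩ := corner h1.pr (h1.le a ha)
    obtain ⟨b2, b1⟩ := corner h2.pr (h2.le b hb)
    have a3 : q * a = 0 := by rw [← a1, ← mul_assoc, hqp, zero_mul]
    have a4 : a * q = 0 := by rw [← a2, mul_assoc, hpq, mul_zero]
    have b3 : p * b = 0 := by rw [← b1, ← mul_assoc, hpq, zero_mul]
    have b4 : b * p = 0 := by rw [← b2, mul_assoc, hqp, mul_zero]
    have c1 : (p + q) * (a + b) = a + b := by
      rw [add_mul, mul_add, mul_add, a1, a3, b1, b3]; abel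
    rw [c1, add_mul, mul_add, mul_add, a2, a4, b2, b4]; abel
  · intro s hs
    obtain ⟨y₁, hy₁, n₁, e₁⟩ := h1.app s hs
    obtain ⟨y₂, hy₂, n₂, e₂⟩ := h2.app s hs
    obtain ⟨r1, l1⟩ := corner h1.pr (h1.le _ hy₁)
    obtain ⟨r2, l2⟩ := corner h2.pr (h2.le _ hy₂)
    have sr1 : p * star y₁ = star y₁ := by
      have := congrArg star r1
      rwa [star_mul, h1.pr.1] at this
    have sr2 : q * star y₂ = star y₂ := by
      have := congrArg star r2
      rwa [star_mul, h2.pr.1] at this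
    have sl1 : star y₁ * p = star y₁ := by
      have := congrArg star l1
      rwa [star_mul, h1.pr.1] at this
    refine ⟨y₁ + y₂, ⟨y₁, hy₁, y₂, hy₂, rfl⟩, ?_, ?_⟩
    · -- norm of an orthogonal sum
      have g1 : star y₁ * y₂ = 0 := by
        rw [← sl1, ← l2, mul_assoc, ← mul_assoc p, hpq, zero_mul, mul_zero]
      have g2 : star y₂ * y₁ = 0 := by
        have := congrArg star g1
        rwa [star_mul, star_star, star_zero] at this
      have i1 : star y₁ * y₁ ≤ p := by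
        have h3 := conj_mono' (star_mul_le_one n₁) p
        rw [h1.pr.1, mul_one, h1.pr.2] at h3
        rwa [← mul_assoc, sr1, mul_assoc, r1] at h3
      have i2 : star y₂ * y₂ ≤ q := by
        have h3 := conj_mono' (star_mul_le_one n₂) q
        rw [h2.pr.1, mul_one, h2.pr.2] at h3
        rwa [← mul_assoc, sr2, mul_assoc, r2] at h3
      have i3 : star (y₁ + y₂) * (y₁ + y₂) ≤ 1 := by
        have h3 : star (y₁ + y₂) * (y₁ + y₂) = star y₁ * y₁ + star y₂ * y₂ := by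
          rw [star_add, add_mul, mul_add, mul_add, g1, g2]; abel
        rw [h3]
        exact (add_le_add i1 i2).trans (h1.pr.add h2.pr hqp).le_one
      have i4 : ‖star (y₁ + y₂) * (y₁ + y₂)‖ ≤ 1 :=
        norm_le_one_of_nonneg (nonneg_star_mul _) i3
      rw [CStarRing.norm_star_mul_self] at i4
      nlinarith [norm_nonneg (y₁ + y₂)]
    · have hA : (u s * p - y₁) * p = u s * p - y₁ := by
        rw [sub_mul, r1, mul_assoc, h1.pr.2]
      have hB : (u s * q - y₂) * q = u s * q - y₂ := by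
        rw [sub_mul, r2, mul_assoc, h2.pr.2]
      have h3 : u s * (p + q) - (y₁ + y₂) = (u s * p - y₁) + (u s * q - y₂) := by noncomm_ring
      have h4 : rt τ (star (u s * p - y₁) * (u s * q - y₂)) = 0 := by
        rw [← hA, ← hB, star_mul, h1.pr.1]
        calc rt τ (p * star (u s * p - y₁) * ((u s * q - y₂) * q))
            = rt τ ((p * star (u s * p - y₁) * (u s * q - y₂)) * q) := by
              rw [← mul_assoc]
          _ = rt τ (q * (p * star (u s * p - y₁) * (u s * q - y₂))) := rt_mul_comm hτ _ _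
          _ = rt τ ((q * p) * (star (u s * p - y₁) * (u s * q - y₂))) := by
              rw [mul_assoc, mul_assoc]
          _ = 0 := by rw [hqp, zero_mul, rt_zero]
      rw [h3, hs_add hτ, h4, rt_add]
      linarith

/-- Enlarging the set of generators to be approximated: restriction. -/
private lemma GP.mono {ι : Type} {F F' : Finset ι} {u : ι → N} {ε : ℝ} {q : N}
    {M : NonUnitalStarSubalgebra ℂ N} (h : GP τ F u ε q M) (hF : F' ⊆ F) : GP τ F' u ε q M :=
  ⟨h.pr, h.fd, h.le, fun s hs => h.app s (hF hs)⟩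

private lemma gp_zero {ι : Type} (F : Finset ι) (u : ι → N) (ε : ℝ) :
    GP τ F u ε (0 : N) ⊥ := by
  refine ⟨Pr.zero, ?_, ?_, ?_⟩
  · have : FiniteDimensional ℂ (⊥ : Submodule ℂ N) := inferInstance
    have h : ((⊥ : NonUnitalStarSubalgebra ℂ N).toSubmodule) ≤ (⊥ : Submodule ℂ N) := by
      intro x hx
      have h2 : x ∈ (⊥ : NonUnitalStarSubalgebra ℂ N) := hx
      rw [NonUnitalStarAlgebra.mem_bot] at h2
      rw [h2]; exact zero_mem _
    exact Submodule.finiteDimensional_of_le h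
  · intro y hy
    rw [NonUnitalStarAlgebra.mem_bot] at hy
    rw [hy]; simp
  · intro s _
    refine ⟨0, zero_mem _, by simp, ?_⟩
    simp [hs_zero, rt_zero]

/-- A sequence of almost invariant projections with good subalgebras. -/
private structure Good (τ : N →ₗ[ℂ] ℂ) {G : Type} (U : Ultrafilter ℕ) (u : ℕ → G → N) (ε : ℝ)
    (Q : ℕ → N) : Prop where
  pr : ∀ n, Pr (Q n)
  com : ∀ g, Tendsto (fun n => hs τ (u n g * Q n - Q n * u n g)) U (𝓝 0)
  gp : ∀ F : Finset G, ∀ᶠ n in (U : Filter ℕ), ∃ M, GP τ F (u n) ε (Q n) M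

private lemma En_tendsto {G : Type} {U : Ultrafilter ℕ} {u : ℕ → G → N}
    {Q : ℕ → N} (h : ∀ g, Tendsto (fun n => hs τ (u n g * Q n - Q n * u n g)) U (𝓝 0))
    (F : Finset G) : Tendsto (fun n => En τ F (u n) (Q n)) U (𝓝 0) := by
  have h1 : Tendsto (fun n => ∑ s ∈ F, hs τ (u n s * Q n - Q n * u n s)) U
      (𝓝 (∑ _s ∈ F, (0 : ℝ))) := tendsto_finsetSum _ fun s _ => h s
  rwa [Finset.sum_const_zero] at h1

/-- The step of the exhaustion. -/
private lemma step (hFMT : StFMT) (hGapT : StGapT) {G : Type} [Group G] [Countable G]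
    {χ : G → ℂ} {U : Ultrafilter ℕ} {u : ℕ → G → N} (hU : (U : Filter ℕ) ≤ atTop)
    (hII : II1 τ) (hH : Haag τ) (hu : ∀ n g, Un (u n g))
    (hm : ∀ g h, Tendsto (fun n => hs τ (u n (g * h) - u n g * u n h)) U (𝓝 0))
    (hχ : ∀ g, Tendsto (fun n => τ (u n g)) U (𝓝 (χ g))) (hT : Helper85.IE.PropT χ)
    {ε' : ℝ} (hε' : 0 < ε') : ∃ c₀ > (0 : ℝ), ∀ c > (0 : ℝ), ∀ Q : ℕ → N, Good τ U u ε' Q →
      (∀ᶠ n in (U : Filter ℕ), c ≤ rt τ (1 - Q n)) →
      ∃ Q' : ℕ → N, Good τ U u ε' Q' ∧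
        ∀ᶠ n in (U : Filter ℕ), rt τ (Q n) + c₀ * c ≤ rt τ (Q' n) := by
  classical
  have hτ := hII.trc
  obtain ⟨c₀, hc₀, h1⟩ := hFMT ε' hε'
  refine ⟨c₀, hc₀, fun c hc Q hQ hcQ => ?_⟩
  obtain ⟨δ, hδ, h2⟩ := h1 c hc
  obtain ⟨S, K, h3⟩ := hGapT N τ G χ U u hτ hu hm hχ hT δ hδ
  -- an exhaustion of `G` by finite sets
  obtain ⟨F₀, hF₀⟩ : ∃ F₀ : ℕ → Finset G, ∀ g, ∀ᶠ j in atTop, g ∈ F₀ j := by
    obtain ⟨f, hf⟩ := exists_surjective_nat G
    refine ⟨fun j => (Finset.range (j + 1)).image f, fun g => ?_⟩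
    obtain ⟨i, rfl⟩ := hf g
    filter_upwards [eventually_ge_atTop i] with j hj
    exact Finset.mem_image_of_mem f (Finset.mem_range.2 (Nat.lt_succ_of_le hj))
  let F : ℕ → Finset G := fun j => insert 1 (S ∪ F₀ j)
  have hFS : ∀ j, S ⊆ F j := fun j x hx =>
    Finset.mem_insert_of_mem (Finset.mem_union_left _ hx)
  have hFne : ∀ j, (F j).Nonempty := fun j => ⟨1, Finset.mem_insert_self _ _⟩
  have hFg : ∀ g, ∀ᶠ j in atTop, g ∈ F j := fun g => by
    filter_upwards [hF₀ g] with j hj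
    exact Finset.mem_insert_of_mem (Finset.mem_union_right _ hj)
  let P : ℕ → ℕ → Prop := fun j n => ∃ (q : N) (M : NonUnitalStarSubalgebra ℂ N),
    q * Q n = 0 ∧ c₀ * rt τ (1 - Q n) ≤ rt τ q ∧ En τ (F j) (u n) q ≤ 1 / ((j : ℝ) + 1) ∧
      GP τ (F j) (u n) ε' q M
  have hP : ∀ j, ∀ᶠ n in (U : Filter ℕ), P j n := by
    intro j
    obtain ⟨k, ω, hω, h4⟩ := h2 K (1 / ((j : ℝ) + 1)) (F j).card (by positivity)
      (Finset.card_pos.2 (hFne j))
    have h5 := h3 (F j) (hFS j) (hFne j) k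
    have h6 : ∀ᶠ n in (U : Filter ℕ), En τ (F j) (u n) (Q n) ≤ ω :=
      (En_tendsto hQ.com (F j)).eventually (eventually_le_nhds hω)
    filter_upwards [h5, h6, hcQ] with n a1 a2 a3
    exact h4 N τ G (F j) S (u n) (Q n) hII hH rfl (hFS j) (hu n) a1 (hQ.pr n) a2 a3
  obtain ⟨J, hJ, hJt⟩ := diag hU P hP
  let q : ℕ → N := fun n => if h : P (J n) n then h.choose else 0
  have hq : ∀ n, P (J n) n → ∃ M : NonUnitalStarSubalgebra ℂ N, q n * Q n = 0 ∧
      c₀ * rt τ (1 - Q n) ≤ rt τ (q n) ∧ En τ (F (J n)) (u n) (q n) ≤ 1 / ((J n : ℝ) + 1) ∧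
      GP τ (F (J n)) (u n) ε' (q n) M := by
    intro n hn
    have := hn.choose_spec
    simp only [q, dif_pos hn]
    exact this
  have hq0 : ∀ n, Pr (q n) ∧ q n * Q n = 0 := by
    intro n
    by_cases hn : P (J n) n
    · obtain ⟨M, a1, -, -, a4⟩ := hq n hn
      exact ⟨a4.pr, a1⟩
    · simp only [q, dif_neg hn]
      exact ⟨Pr.zero, zero_mul _⟩
  refine ⟨fun n => Q n + q n, ⟨fun n => (hQ.pr n).add (hq0 n).1 (hq0 n).2, ?_, ?_⟩, ?_⟩
  · intro g
    have h7 : Tendsto (fun n => hs τ (u n g * q n - q n * u n g)) U (𝓝 0) := by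
      rw [Metric.tendsto_nhds]
      intro ε hε
      obtain ⟨j₀, hj₀⟩ := exists_nat_gt (1 / ε)
      obtain ⟨j₁, hj₁⟩ := (hFg g).exists_forall_of_atTop
      filter_upwards [hJ, hJt (max j₀ j₁)] with n a1 a2
      obtain ⟨M, -, -, b3, -⟩ := hq n a1
      have b4 : g ∈ F (J n) := hj₁ _ ((le_max_right _ _).trans a2)
      have b5 : hs τ (u n g * q n - q n * u n g) ≤ En τ (F (J n)) (u n) (q n) :=
        Finset.single_le_sum (f := fun s => hs τ (u n s * q n - q n * u n s))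
          (fun s _ => hs_nonneg hτ _) b4
      have b6 : (j₀ : ℝ) ≤ J n := by exact_mod_cast (le_max_left _ _).trans a2
      have b7 : 1 / ((J n : ℝ) + 1) < ε := by
        rw [div_lt_iff₀ (by positivity)]
        rw [div_lt_iff₀ hε] at hj₀
        nlinarith
      rw [Real.dist_eq, sub_zero, abs_of_nonneg (hs_nonneg hτ _)]
      linarith
    have h8 : Tendsto (fun n => 2 * hs τ (u n g * Q n - Q n * u n g) +
        2 * hs τ (u n g * q n - q n * u n g)) U (𝓝 0) := by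
      have := ((hQ.com g).const_mul 2).add (h7.const_mul 2)
      simpa using this
    refine squeeze_zero (fun n => hs_nonneg hτ _) (fun n => ?_) h8
    have h9 : u n g * (Q n + q n) - (Q n + q n) * u n g =
        (u n g * Q n - Q n * u n g) + (u n g * q n - q n * u n g) := by noncomm_ring
    rw [h9]
    exact hs_add_le hτ _ _
  · intro F'
    have h7 : ∀ᶠ j in atTop, F' ⊆ F j := by
      have : ∀ᶠ j in atTop, ∀ g ∈ F', g ∈ F j :=
        (Filter.eventually_all_finset _).2 fun g _ => hFg g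
      filter_upwards [this] with j hj g hg using hj g hg
    obtain ⟨j₁, hj₁⟩ := h7.exists_forall_of_atTop
    filter_upwards [hJ, hJt j₁, hQ.gp F'] with n a1 a2 a3
    obtain ⟨M₂, b1, -, -, b4⟩ := hq n a1
    obtain ⟨M₁, b5⟩ := a3
    exact b5.add hτ (b4.mono (hj₁ _ a2)) b1
  · filter_upwards [hJ, hcQ] with n a1 a2
    obtain ⟨M, -, b2, -, -⟩ := hq n a1
    rw [rt_add]
    nlinarith

theorem pMain (hFMT : StFMT) (hGapT : StGapT) : StMain := by
  classical
  intro N _ _ _ τ G _ _ χ U u hU hII hH hu hm hχ hT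
  have hτ := hII.trc
  -- exhaustion
  have key : ∀ ε' > (0 : ℝ), ∀ η > (0 : ℝ), ∃ Q : ℕ → N, Good τ U u ε' Q ∧
      ∀ᶠ n in (U : Filter ℕ), 1 - η ≤ rt τ (Q n) := by
    intro ε' hε' η hη
    obtain ⟨c₀, hc₀, h1⟩ := step hFMT hGapT hU hII hH hu hm hχ hT hε'
    let 𝒮 : Set ℝ := {s | ∃ Q : ℕ → N, Good τ U u ε' Q ∧
      ∀ᶠ n in (U : Filter ℕ), s ≤ rt τ (Q n)}
    have h0 : (0 : ℝ) ∈ 𝒮 := by
      refine ⟨fun _ => 0, ⟨fun _ => Pr.zero, fun g => ?_, fun F => ?_⟩, ?_⟩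
      · simp [hs_zero]
      · exact Filter.Eventually.of_forall fun n => ⟨⊥, gp_zero F (u n) ε'⟩
      · exact Filter.Eventually.of_forall fun n => by rw [rt_zero]
    have hbd : ∀ s ∈ 𝒮, s ≤ 1 := by
      rintro s ⟨Q, hQ, hs⟩
      obtain ⟨n, hn⟩ := hs.exists
      have := rt_mono hτ (hQ.pr n).le_one
      rw [rt_one hτ] at this
      linarith
    have hbdd : BddAbove 𝒮 := ⟨1, hbd⟩
    set s := sSup 𝒮 with hs
    have hs1 : 1 ≤ s := by
      by_contra hcon
      rw [not_le] at hcon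
      set c := (1 - s) / 2 with hc
      have hcpos : 0 < c := by rw [hc]; linarith
      obtain ⟨s', hs', hlt⟩ := exists_lt_of_lt_csSup ⟨0, h0⟩
        (show s - c₀ * c / 2 < sSup 𝒮 by
          have : 0 < c₀ * c := by positivity
          linarith)
      obtain ⟨Q, hQ, hQs⟩ := hs'
      have h2 : ∀ᶠ n in (U : Filter ℕ), c ≤ rt τ (1 - Q n) := by
        by_contra h3
        have h3' := Ultrafilter.eventually_not.2 h3
        have h4 : s + c ∈ 𝒮 := by
          refine ⟨Q, hQ, ?_⟩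
          filter_upwards [h3'] with n hn
          rw [rt_sub, rt_one hτ, not_le] at hn
          have : c = (1 - s) / 2 := hc
          linarith
        have := le_csSup hbdd h4
        linarith
      obtain ⟨Q', hQ', hQ's⟩ := h1 c hcpos Q hQ h2
      have h5 : s' + c₀ * c ∈ 𝒮 := by
        refine ⟨Q', hQ', ?_⟩
        filter_upwards [hQs, hQ's] with n a1 a2
        linarith
      have h6 := le_csSup hbdd h5
      have : 0 < c₀ * c := by positivity
      linarith
    obtain ⟨s', hs', hlt⟩ := exists_lt_of_lt_csSup ⟨0, h0⟩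
      (show 1 - η < sSup 𝒮 by linarith)
    obtain ⟨Q, hQ, hQs⟩ := hs'
    refine ⟨Q, hQ, ?_⟩
    filter_upwards [hQs] with n hn
    linarith
  -- an exhaustion of `G` by finite sets
  obtain ⟨F, hFg⟩ : ∃ F₀ : ℕ → Finset G, ∀ g, ∀ᶠ j in atTop, g ∈ F₀ j := by
    obtain ⟨f, hf⟩ := exists_surjective_nat G
    refine ⟨fun j => (Finset.range (j + 1)).image f, fun g => ?_⟩
    obtain ⟨i, rfl⟩ := hf g
    filter_upwards [eventually_ge_atTop i] with j hj
    exact Finset.mem_image_of_mem f (Finset.mem_range.2 (Nat.lt_succ_of_le hj))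
  let P : ℕ → ℕ → Prop := fun j n => ∃ M : StarSubalgebra ℂ N, FiniteDimensional ℂ M ∧
    ∀ g ∈ F j, ∃ y ∈ M, ‖y‖ ≤ 1 ∧ hs τ (u n g - y) ≤ 1 / ((j : ℝ) + 1)
  have hP : ∀ j, ∀ᶠ n in (U : Filter ℕ), P j n := by
    intro j
    have hε : (0 : ℝ) < 1 / (4 * ((j : ℝ) + 1)) := by positivity
    obtain ⟨Q, hQ, hQs⟩ := key _ hε _ hε
    filter_upwards [hQ.gp (F j), hQs] with n a1 a2
    obtain ⟨M, hM⟩ := a1
    refine ⟨uni M, uni_fd M hM.fd, fun g hg => ?_⟩
    obtain ⟨y, hy, n1, e1⟩ := hM.app g hg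
    refine ⟨y, ⟨y, hy, 0, by simp⟩, n1, ?_⟩
    have h2 : u n g - y = u n g * (1 - Q n) + (u n g * Q n - y) := by noncomm_ring
    have h3 : hs τ (u n g * (1 - Q n)) = rt τ (1 - Q n) := by
      rw [hs_unit_mul (hu n g), (hQ.pr n).one_sub.hs]
    have h4 := hs_add_le hτ (u n g * (1 - Q n)) (u n g * Q n - y)
    have h5 : rt τ (Q n) ≤ 1 := by
      have := rt_mono hτ (hQ.pr n).le_one
      rwa [rt_one hτ] at this
    rw [h2]
    rw [h3, rt_sub, rt_one hτ] at h4
    have h6 : 1 / (4 * ((j : ℝ) + 1)) * rt τ (Q n) ≤ 1 / (4 * ((j : ℝ) + 1)) := by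
      nlinarith
    have h7 : 1 / ((j : ℝ) + 1) = 4 * (1 / (4 * ((j : ℝ) + 1))) := by
      field_simp
    rw [h7]
    linarith
  obtain ⟨J, hJ, hJt⟩ := diag hU P hP
  have hM' : ∀ n, ∃ M : StarSubalgebra ℂ N, FiniteDimensional ℂ M ∧ (P (J n) n →
      ∀ g ∈ F (J n), ∃ y ∈ M, ‖y‖ ≤ 1 ∧ hs τ (u n g - y) ≤ 1 / ((J n : ℝ) + 1)) := by
    intro n
    by_cases hn : P (J n) n
    · obtain ⟨M, h1, h2⟩ := hn
      exact ⟨M, h1, fun _ => h2⟩
    · exact ⟨uni ⊥, uni_fd _ (gp_zero (τ := τ) (∅ : Finset G) (u n) 1).fd, fun h => absurd h hn⟩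
  choose M hMf hM using hM'
  refine ⟨M, hMf, fun g => ?_⟩
  · let Y : ℕ → N → Prop := fun n y => y ∈ M n ∧ ‖y‖ ≤ 1 ∧
      hs τ (u n g - y) ≤ 1 / ((J n : ℝ) + 1)
    let y : ℕ → N := fun n => if h : ∃ y, Y n y then h.choose else 0
    have hy : ∀ n, (∃ y, Y n y) → Y n (y n) := by
      intro n hn
      have := hn.choose_spec
      simp only [y, dif_pos hn]
      exact this
    refine ⟨y, fun n => ?_, ?_⟩
    · by_cases hn : ∃ y, Y n y
      · exact ⟨(hy n hn).1, (hy n hn).2.1⟩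
      · simp only [y, dif_neg hn]
        exact ⟨zero_mem _, by simp⟩
    · rw [Metric.tendsto_nhds]
      intro ε hε
      obtain ⟨j₀, hj₀⟩ := exists_nat_gt (1 / ε)
      obtain ⟨j₁, hj₁⟩ := (hFg g).exists_forall_of_atTop
      filter_upwards [hJ, hJt (max j₀ j₁)] with n a1 a2
      have b4 : g ∈ F (J n) := hj₁ _ ((le_max_right _ _).trans a2)
      obtain ⟨y₁, c1, c2, c3⟩ := hM n a1 g b4
      have b5 := (hy n ⟨y₁, c1, c2, c3⟩).2.2
      have b6 : (j₀ : ℝ) ≤ J n := by exact_mod_cast (le_max_left _ _).trans a2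
      have b7 : 1 / ((J n : ℝ) + 1) < ε := by
        rw [div_lt_iff₀ (by positivity)]
        rw [div_lt_iff₀ hε] at hj₀
        nlinarith
      rw [Real.dist_eq, sub_zero, abs_of_nonneg (hs_nonneg hτ _)]
      linarith

end

end Helper61.HT
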