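import Pool.Agent.Helper61.HT.StB
import Pool.Agent.Helper61.HT.LibN

/-!
# Project HT, module SI: the stage inequality
-/

set_option linter.unusedSectionVars false

namespace Helper61.HT

open scoped ComplexOrder
open Filter Topology

private lemma exists_k0 (g : ℕ) (t ε e : ℝ) (he : 0 < e) :
    ∃ k₀ : ℕ, ∀ k ≥ k₀, 3 / ε * (4 * g / (2 * (k : ℝ) + 1)) +
      6 / ε * Real.sqrt (2 * g * (4 * g / (2 * (k : ℝ) + 1)) / t) ≤ e := by
  have h0 : Tendsto (fun k : ℕ => 2 * (k : ℝ) + 1) atTop atTop := by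
    refine tendsto_atTop_add_const_right _ _ ?_
    exact Tendsto.const_mul_atTop (by norm_num) tendsto_natCast_atTop_atTop
  have h1 : Tendsto (fun k : ℕ => (4 * (g : ℝ)) / (2 * (k : ℝ) + 1)) atTop (𝓝 0) :=
    h0.const_div_atTop _
  have h2 : Tendsto (fun k : ℕ => 3 / ε * (4 * g / (2 * (k : ℝ) + 1)) +
      6 / ε * Real.sqrt (2 * g * (4 * g / (2 * (k : ℝ) + 1)) / t)) atTop
      (𝓝 (3 / ε * 0 + 6 / ε * Real.sqrt (2 * g * 0 / t))) := by
    refine (h1.const_mul _).add (Tendsto.const_mul _ ?_)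
    exact (Real.continuous_sqrt.tendsto _).comp ((h1.const_mul _).div_const _)
  rw [mul_zero, mul_zero, zero_div, Real.sqrt_zero, mul_zero, add_zero] at h2
  obtain ⟨k₀, hk₀⟩ := eventually_atTop.1 (h2.eventually (gt_mem_nhds he))
  exact ⟨k₀, fun k hk => (hk₀ k hk).le⟩

section

variable {N : Type} [CStarAlgebra N] [PartialOrder N] [StarOrderedRing N] {τ : N →ₗ[ℂ] ℂ}

private lemma scp_mono {ψ : N →ₗ[ℂ] N} (h : SCP τ ψ) {x y : N} (hxy : x ≤ y) : ψ x ≤ ψ y := by
  have := h.nonneg _ (sub_nonneg.2 hxy)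
  rw [map_sub] at this
  exact sub_nonneg.1 this

private lemma rt_one_map {ψ : N →ₗ[ℂ] N} (h : SCP τ ψ) (p : N) :
    rt τ (ψ p) = rt τ (ψ 1 * p) := by
  have := h.symm 1 p
  rw [one_mul] at this
  unfold rt
  rw [this]

/-- `τ(pψ(p)) ≥ 2 τ(pψ(1)) - τ(ψ(1))`. -/
private lemma rt_pp (hτ : Trc τ) {ψ : N →ₗ[ℂ] N} (h : SCP τ ψ) {p : N} (hp : star p = p) :
    2 * rt τ (p * ψ 1) - rt τ (ψ 1) ≤ rt τ (p * ψ p) := by
  have h1 := h.pos (1 - p)
  rw [star_sub, star_one, hp, map_sub, sub_mul, one_mul, mul_sub, rt_sub, rt_sub, rt_sub,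
    rt_one_map h p, rt_mul_comm hτ (ψ 1) p] at h1
  linarith

end

theorem pSI (hTT : StTT) (hScp : StScp) (hEnM : StEnM) (hAvg : StAvg) (hHF : StHF)
    (hRound : StRound1) (hPert : StPert) : StSI := by
  intro Λ t ε e₁ g hΛ ht ht1 hε he₁ hg
  obtain ⟨k₀, hk₀⟩ := exists_k0 g t ε (e₁ / 2) (by positivity)
  refine ⟨k₀, fun k hk => ?_⟩
  intro N _ _ _ τ ι F u H q ψ m v R hτ hcpl hF hu hH0 hH1 hobj hbd hR hnm
  have hFne : F.Nonempty := by
    rw [← Finset.card_pos, hF]; exact hg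
  have hk := hk₀ k hk
  obtain ⟨hq, hqne, hscp, hcut, hψ1, henq, henm⟩ := hobj
  have hT := hTT N τ ι F u hτ hFne hu
  have hqpos : 0 < rt τ q := hq.rt_pos hτ hqne
  -- the operator `G`
  set G : N := 1 - H with hG
  have hG0 : 0 ≤ G := sub_nonneg.2 hH1
  have hG1 : G ≤ 1 := by rw [hG]; exact sub_le_self _ hH0
  have hGs : star G = G := herm_of_nonneg hG0
  have hGn : ‖G‖ ≤ 1 := norm_le_one_of_nonneg hG0 hG1
  have hHs : star H = H := herm_of_nonneg hH0
  have hGG1 : G * G ≤ 1 := (le_mul_self_of_le_one hG0 hG1).trans hG1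
  -- the element `y = G q G`
  set y : N := G * q * G with hy
  have hy0 : 0 ≤ y := by
    have := conj_nonneg hq.nonneg G
    rwa [hGs] at this
  have hy1 : y ≤ 1 := by
    have := conj_mono hq.le_one G
    rw [hGs, mul_one] at this
    exact this.trans hGG1
  have hyq : rt τ y ≤ rt τ q := by
    rw [hy, rt_cycle hτ]
    have := rt_mul_mono hτ hGG1 hq.nonneg
    rwa [one_mul] at this
  have hhsy : hs τ y ≤ rt τ q := (hs_le_rt hτ hy0 hy1).trans hyq
  -- the element `a = T^k y`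
  set a : N := (TT F u ^ k) y with ha
  have ha0 : 0 ≤ a := hT.nonneg k y hy0
  have ha1 : a ≤ 1 := by
    have h1 := hT.nonneg k (1 - y) (sub_nonneg.2 hy1)
    rw [map_sub, hT.one] at h1
    exact sub_nonneg.1 h1
  have hra : rt τ a = rt τ y := by unfold rt; rw [ha, hT.tr]
  have hraq : rt τ a ≤ rt τ q := by rw [hra]; exact hyq
  have hra0 : 0 ≤ rt τ a := rt_nonneg hτ ha0
  -- the maps
  obtain ⟨hS1, hS2, hS3, hS4⟩ := hScp N τ hτ
  have hGψ : SCP τ (Cj G ψ) := (hS1 ψ G hscp hGn).1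
  have hGψ1 : (Cj G ψ) 1 ≤ y := by
    have h1 : (Cj G ψ) 1 = G * ψ (G * G) * G := by
      change G * ψ (star G * 1 * G) * star G = _
      rw [hGs, mul_one]
    rw [h1, hy]
    have h2 : ψ (G * G) ≤ q := (scp_mono hscp hGG1).trans hψ1
    have := conj_mono h2 G
    rwa [hGs] at this
  set ψa : N →ₗ[ℂ] N := (TM F u)^[k] (Cj G ψ) with hψa
  obtain ⟨hψas, hψa1⟩ := hS4 ι F u (Cj G ψ) k hFne hu hGψ
  rw [← hψa] at hψas hψa1
  have hψaa : ψa 1 ≤ a := by
    refine hψa1.trans ?_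
    have h1 := hT.nonneg k (y - (Cj G ψ) 1) (sub_nonneg.2 hGψ1)
    rw [map_sub] at h1
    exact sub_nonneg.1 h1
  have hψa0 : 0 ≤ ψa 1 := hψas.nonneg 1 zero_le_one
  have hrψa0 : 0 ≤ rt τ (ψa 1) := rt_nonneg hτ hψa0
  have hψas1 : star (ψa 1) = ψa 1 := herm_of_nonneg hψa0
  -- energies
  obtain ⟨hE1, hE2, -, -⟩ := hEnM N τ ι F u hτ hFne hu
  have hEa0 : 0 ≤ EnM τ F u ψa := (hE1 ψa hψas F).1
  have hrGψ : rt τ ((Cj G ψ) 1) ≤ rt τ q := (rt_mono hτ hGψ1).trans hyq
  have h2k : (0 : ℝ) < 2 * (k : ℝ) + 1 := by positivity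
  have hEa : EnM τ F u ψa ≤ 4 * g / (2 * (k : ℝ) + 1) * rt τ q := by
    have h1 := (hE1 (Cj G ψ) hGψ F).2.2 k
    rw [← hψa, hF] at h1
    refine h1.trans ?_
    rw [div_mul_eq_mul_div]
    gcongr
  have hEna : En τ F u a ≤ 4 * g / (2 * (k : ℝ) + 1) * rt τ q := by
    have h1 := hT.en_pow k y
    rw [← ha, hF] at h1
    refine h1.trans ?_
    rw [div_mul_eq_mul_div]
    gcongr
  have hEn0 : ∀ x : N, 0 ≤ En τ F u x := fun x => Finset.sum_nonneg fun s _ => hs_nonneg hτ _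
  -- finite rank forms
  obtain ⟨hF1, hF2, hF3, -, hF5⟩ := hHF N τ ι F u hτ hFne hu
  obtain ⟨m', w, hw1, hw2⟩ := hF5 m v G ψ k hG0 hG1 hbd
  rw [← hψa] at hw1
  set A : ℝ := avh τ F u k (fun j => G * v j) with hA
  have hA0 : 0 ≤ A := (hF1 m' w).1.trans hw2
  -- the function `X`
  set X : N := (2000 : ℝ) • ψa 1 - (999 : ℝ) • (1 : N) - Λ • H with hX
  have hXs : star X = X := by
    have hst : ∀ (c : ℝ) (x : N), star (c • x) = c • star x := fun c x => by
      rw [star_smul, star_trivial]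
    rw [hX, star_sub, star_sub, hst, hst, hst, hψas1, star_one, hHs]
  have hX1 : X ≤ (1001 : ℝ) • 1 := by
    have h1 : (2000 : ℝ) • ψa 1 ≤ (2000 : ℝ) • (1 : N) := smul_mono_real (by norm_num) hψas.one
    have h2 : (0 : N) ≤ Λ • H := smul_nonneg_real (by linarith) hH0
    calc X ≤ (2000 : ℝ) • ψa 1 - (999 : ℝ) • (1 : N) := by rw [hX]; exact sub_le_self _ h2
      _ ≤ (2000 : ℝ) • (1 : N) - (999 : ℝ) • (1 : N) := sub_le_sub_right h1 _
      _ = (1001 : ℝ) • 1 := by rw [← sub_smul]; norm_num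
  have hrX : ∀ p : N, rt τ (p * X) = 2000 * rt τ (p * ψa 1) - 999 * rt τ p - Λ * rt τ (p * H) := by
    intro p
    rw [hX, mul_sub, mul_sub, mul_smul_comm, mul_smul_comm, mul_smul_comm, mul_one, rt_sub,
      rt_sub, rt_smul, rt_smul, rt_smul]
  -- the bound on projections
  set B : ℝ := R * A + 1000 * rt τ (ψa 1) + 3 / ε * EnM τ F u ψa with hB
  have hB0 : 0 ≤ B := by positivity
  have hproj : ∀ p : N, Pr p → rt τ (p * X) ≤ B + 6 / ε * En τ F u p := by
    intro p hp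
    have hEp := hEn0 p
    have hterm : 0 ≤ 6 / ε * En τ F u p := by positivity
    by_cases hp0 : p = 0
    · rw [hp0, zero_mul, rt_zero]
      rw [hp0] at hterm
      linarith
    have hpn : ‖p‖ ≤ 1 := hp.norm_le
    obtain ⟨hps, hp1⟩ := hS1 ψa p hψas hpn
    rw [hp.1, hp.2] at hp1
    have hGam : rt τ (p * X) - 1000 * rt τ (ψa 1) ≤ Gam τ Λ H p (Cj p ψa) := by
      have h1 : (Cj p ψa) 1 = p * ψa p * p := by
        change p * ψa (star p * 1 * p) * star p = _
        rw [hp.1, mul_one, hp.2]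
      have h2 : rt τ ((Cj p ψa) 1) = rt τ (p * ψa p) := by
        rw [h1, rt_cycle hτ, hp.2]
      have h3 := rt_pp hτ hψas hp.1
      unfold Gam
      rw [h2, hrX]
      linarith
    have hGam2 : Gam τ Λ H p (Cj p ψa) ≤ rt τ p := by
      have h1 := rt_mono hτ hp1
      have h2 := rt_mul_nonneg hτ hp.nonneg hH0
      have h3 : 0 ≤ Λ * rt τ (p * H) := mul_nonneg (by linarith) h2
      unfold Gam
      linarith
    have hE3 := hE2 ψa p F hψas hpn
    have hterm2 : 0 ≤ 3 / ε * EnM τ F u ψa := by positivity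
    have hRA : 0 ≤ R * A := mul_nonneg hR hA0
    by_cases hc1 : En τ F u p ≤ ε * rt τ p ∧ EnM τ F u (Cj p ψa) ≤ ε * rt τ p
    · have hobjp : Obj τ F u ε p (Cj p ψa) := by
        refine ⟨hp, hp0, hps, ?_, hp1, hc1.1, hc1.2⟩
        intro x
        change p * ψa (star p * x * p) * star p =
          p * (p * ψa (star p * (p * x * p) * p) * star p) * p
        rw [hp.1]
        have e1 : p * (p * x * p) * p = p * x * p := by
          calc p * (p * x * p) * p = (p * p) * x * (p * p) := by noncomm_ring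
            _ = _ := by rw [hp.2]
        rw [e1]
        calc p * ψa (p * x * p) * p = (p * p) * ψa (p * x * p) * (p * p) := by rw [hp.2]
          _ = _ := by noncomm_ring
      have h1 := hnm p (Cj p ψa) hobjp m' (fun j => p * w j * star p) (hF3 m' w p ψa hpn hw1)
      have h2 := (hF2 m' w p (star p) hpn (by rwa [norm_star])).1
      have h3 : R * hsf τ (fun j => p * w j * star p) ≤ R * A :=
        mul_le_mul_of_nonneg_left (h2.trans hw2) hR
      linarith
    · have h1 : ε * rt τ p ≤ 3 * EnM τ F u ψa + 6 * En τ F u p := by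
        by_contra hcon
        rw [not_le] at hcon
        exact hc1 ⟨by linarith, by linarith⟩
      have h2 : rt τ p ≤ 3 / ε * EnM τ F u ψa + 6 / ε * En τ F u p := by
        have e1 : 3 / ε * EnM τ F u ψa + 6 / ε * En τ F u p =
            (3 * EnM τ F u ψa + 6 * En τ F u p) / ε := by ring
        rw [e1, le_div_iff₀ hε]
        linarith
      linarith
  -- the perturbation
  have hd0 : 0 ≤ hs τ y - hs τ a := sub_nonneg.2 (hT.hs_le k y)
  set ζ : ℝ := Real.sqrt ((hs τ y - hs τ a) / rt τ q) with hζ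
  have hζ0 : 0 ≤ ζ := Real.sqrt_nonneg _
  have hζ2 : ζ ^ 2 * rt τ q = hs τ y - hs τ a := by
    rw [hζ, Real.sq_sqrt (by positivity), div_mul_cancel₀ _ hqpos.ne']
  have hζZ : ζ * rt τ q = Real.sqrt ((hs τ y - hs τ a) * rt τ q) := by
    rw [← hζ2, show ζ ^ 2 * rt τ q * rt τ q = (ζ * rt τ q) ^ 2 by ring,
      Real.sqrt_sq (by positivity)]
  set Z : ℝ := Real.sqrt ((hs τ y - hs τ a) * rt τ q) with hZ
  set e' : ℝ := e₁ / (2 * (1001 + Λ)) * rt τ q with he'
  have he'0 : 0 < e' := by positivity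
  obtain ⟨r, hr0, hr1, hrq, hr2, hr3⟩ := hPert N τ H q a ζ e' hτ hH0 hH1 hq ha0 hra hζ0
    (by
      rw [hζ2, hs_sub_comm]
      exact hT.gap k y) he'0
  rw [← hG, ← hy] at hr3
  -- rounding
  have hround := hRound N τ ι F u a ((1 / 1001 : ℝ) • X) r t (B / 1001) (6 / ε / 1001)
    hτ hcpl hu ha0 ha1 (by rw [star_smul, star_trivial, hXs])
    (by
      have h1 := smul_mono_real (show (0 : ℝ) ≤ 1 / 1001 by norm_num) hX1
      rw [smul_smul] at h1
      norm_num at h1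
      norm_num
      exact h1) hr0 hr1 ht ht1 (by positivity) (by positivity)
    (by
      intro p hp _
      rw [mul_smul_comm, rt_smul]
      have := hproj p hp
      have e1 : B / 1001 + 6 / ε / 1001 * En τ F u p = 1 / 1001 * (B + 6 / ε * En τ F u p) := by
        ring
      rw [e1]
      exact mul_le_mul_of_nonneg_left this (by norm_num))
  rw [mul_smul_comm, rt_smul, hF] at hround
  have hsqrt : Real.sqrt (2 * g * En τ F u a * rt τ a / t) ≤
      Real.sqrt (2 * g * (4 * g / (2 * (k : ℝ) + 1)) / t) * rt τ q := by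
    refine Real.sqrt_le_iff.2 ⟨by positivity, ?_⟩
    rw [mul_pow, Real.sq_sqrt (by positivity), div_mul_eq_mul_div]
    refine div_le_div_of_nonneg_right ?_ ht.le
    calc 2 * (g : ℝ) * En τ F u a * rt τ a
        ≤ 2 * g * (4 * g / (2 * (k : ℝ) + 1) * rt τ q) * rt τ q := by
          gcongr
      _ = _ := by ring
  -- the upper bound for `τ(a X)`
  have hup : rt τ (a * X) ≤ 1001 * t * rt τ q + 1001 * (Z + e') + B +
      6 / ε * (Real.sqrt (2 * g * (4 * g / (2 * (k : ℝ) + 1)) / t) * rt τ q) := by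
    have h1 : t * rt τ r ≤ t * rt τ q := mul_le_mul_of_nonneg_left hrq ht.le
    have h2 : 6 / ε / 1001 * Real.sqrt (2 * g * En τ F u a * rt τ a / t) ≤
        6 / ε / 1001 * (Real.sqrt (2 * g * (4 * g / (2 * (k : ℝ) + 1)) / t) * rt τ q) :=
      mul_le_mul_of_nonneg_left hsqrt (by positivity)
    rw [hζZ] at hr2
    have e1 : 6 / ε / 1001 * (Real.sqrt (2 * g * (4 * g / (2 * (k : ℝ) + 1)) / t) * rt τ q) =
      1 / 1001 * (6 / ε * (Real.sqrt (2 * g * (4 * g / (2 * (k : ℝ) + 1)) / t) * rt τ q)) := by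
      ring
    rw [e1] at h2
    linarith
  -- the lower bound for `τ(a X)`
  obtain ⟨hA1, hA2⟩ := hAvg N τ ι F u H q ψ k hτ hFne hu hscp hq hcut hψ1 hH0 hH1
  rw [← hG] at hA1 hA2
  rw [← hy, ← ha, ← hψa, sub_mul, one_mul, rt_sub] at hA2
  have hgap : gap τ F u k (Cj G ψ) = rt τ ((Cj G ψ) 1) - rt τ (ψa 1) := rfl
  have hyH : rt τ (y * H) ≤ rt τ (q * H) - rt τ (q * H * H) := by
    have e1 : rt τ (y * H) = rt τ (q * (G * H * G)) := by
      rw [hy, show G * q * G * H = G * (q * (G * H)) by noncomm_ring, rt_mul_comm hτ G,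
        show q * (G * H) * G = q * (G * H * G) by noncomm_ring]
    have e2 : G * H * G ≤ H - H * H := by
      have h1 : H * (1 - (1 - H)) * H ≤ H * 1 * H := by
        have := conj_mono (show (1 - (1 - H) : N) ≤ 1 by rw [sub_sub_cancel]; exact hH1) H
        rwa [hHs] at this
      have h2 : G * H * G = H - 2 • (H * H) + H * (1 - (1 - H)) * H := by
        rw [hG]; noncomm_ring
      rw [h2]
      calc H - 2 • (H * H) + H * (1 - (1 - H)) * H ≤ H - 2 • (H * H) + H * 1 * H := by gcongr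
        _ = H - H * H := by noncomm_ring
    rw [e1]
    have := rt_mul_mono' hτ e2 hq.nonneg
    have e3 : rt τ (q * (H - H * H)) = rt τ (q * H) - rt τ (q * H * H) := by
      rw [mul_sub q, rt_sub, ← mul_assoc]
    rw [← e3]
    exact this
  rw [hζZ.symm] at hup
  have hΛ0 : 0 ≤ Λ := by linarith
  have haH : Λ * rt τ (a * H) ≤ Λ * (rt τ (q * H) - rt τ (q * H * H) + 4 * ζ * rt τ q + e') :=
    mul_le_mul_of_nonneg_left (by linarith) hΛ0
  have hraX := hrX a
  -- the error terms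
  have herr : (1001 + Λ) * e' + 3 / ε * EnM τ F u ψa +
      6 / ε * (Real.sqrt (2 * g * (4 * g / (2 * (k : ℝ) + 1)) / t) * rt τ q) ≤ e₁ * rt τ q := by
    have h1 : (1001 + Λ) * e' = e₁ / 2 * rt τ q := by
      rw [he']
      field_simp
    have h2 : 3 / ε * EnM τ F u ψa ≤ 3 / ε * (4 * g / (2 * (k : ℝ) + 1) * rt τ q) :=
      mul_le_mul_of_nonneg_left hEa (by positivity)
    have h3 := mul_le_mul_of_nonneg_right hk hqpos.le
    rw [add_mul, mul_assoc (3 / ε), mul_assoc (6 / ε)] at h3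
    rw [h1]
    linarith
  have hfin : Gam τ Λ H q ψ + Λ * rt τ (q * H * H) ≤ R * A + 28000 * rt τ (q * H) +
      5000 * gap τ F u k (Cj G ψ) + (4 * Λ + 1001) * (ζ * rt τ q) +
      (1001 * t * rt τ q + e₁ * rt τ q) := by
    unfold Gam
    have e1 : Λ * (rt τ (q * H) - rt τ (q * H * H) + 4 * ζ * rt τ q + e') =
      Λ * rt τ (q * H) - Λ * rt τ (q * H * H) + 4 * Λ * (ζ * rt τ q) + Λ * e' := by ring
    have e2 : (1001 + Λ) * e' = 1001 * e' + Λ * e' := by ring
    have e3 : (4 * Λ + 1001) * (ζ * rt τ q) = 4 * Λ * (ζ * rt τ q) + 1001 * (ζ * rt τ q) := by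
      ring
    rw [e1] at haH
    rw [e2] at herr
    rw [e3]
    linarith
  rw [← hζZ]
  calc _ ≤ _ := hfin
    _ = _ := by ring

end Helper61.HT
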