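import Pool.Agent.Helper61.HT.StF

/-!
# Property (T) in terms of bimodules, in short form
-/

namespace Helper61.HT

section

variable {H : Type} [NormedAddCommGroup H] [InnerProductSpace ℂ H]

/-- The inner product. -/
noncomputable def ip (v w : H) : ℂ := inner ℂ v w

/-- The norm. -/
def nm {H : Type} [NormedAddCommGroup H] (v : H) : ℝ := ‖v‖

/-- `A x v` is a normal unital `*`-preserving action of the space `B` on `H`: linear in `x`, unital,
`A (star x)` is the adjoint of `A x`, and 2-norm continuous on the unit ball of `B`.  (That `A x`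
is linear and bounded follows from the existence of the adjoint.) -/
structure NAct {B : Type} [CStarAlgebra B] (τ : B →ₗ[ℂ] ℂ) (A : B → H → H) : Prop where
  add : ∀ x y v, A (x + y) v = A x v + A y v
  smul : ∀ (c : ℂ) x v, A (c • x) v = c • A x v
  one : ∀ v, A 1 v = v
  adj : ∀ x v w, ip (A x v) w = ip v (A (star x) w)
  normal : ∀ v, ∀ ε : ℝ, 0 < ε → ∃ δ : ℝ, 0 < δ ∧ ∀ x, ‖x‖ ≤ 1 → hs τ x ≤ δ → nm (A x v) ≤ ε

/-- A normal `B`-`B`-bimodule: `L x v = x v`, `R x v = v x`. -/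
structure Bimo {B : Type} [CStarAlgebra B] (τ : B →ₗ[ℂ] ℂ) (L R : B → H → H) : Prop where
  left : NAct τ L
  right : NAct τ R
  mulL : ∀ x y v, L (x * y) v = L x (L y v)
  mulR : ∀ x y v, R (x * y) v = R y (R x v)
  comm : ∀ x y v, L x (R y v) = R y (L x v)

/-- `v` is subtracial and `x v - v x` is small for `x ∈ F`. -/
structure AlmC {B : Type} [CStarAlgebra B] (τ : B →ₗ[ℂ] ℂ) (L R : B → H → H) (F : Finset B)
    (δ : ℝ) (v : H) : Prop where
  subL : ∀ x, nm (L x v) ^ 2 ≤ hs τ x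
  subR : ∀ x, nm (R x v) ^ 2 ≤ hs τ x
  alm : ∀ x ∈ F, nm (L x v - R x v) ≤ δ

end

/-- Property (T), formulation with bimodules: almost central subtracial vectors of normal Hilbert
bimodules are close to central vectors. -/
def PropTb {B : Type} [CStarAlgebra B] (τ : B →ₗ[ℂ] ℂ) : Prop :=
  ∀ ε : ℝ, 0 < ε → ∃ (F : Finset B) (δ : ℝ), 0 < δ ∧ ∀ (H : Type) [NormedAddCommGroup H]
    [InnerProductSpace ℂ H] [CompleteSpace H] (L R : B → H → H), Bimo τ L R →
    ∀ v : H, AlmC τ L R F δ v → ∃ w : H, (∀ x, L x w = R x w) ∧ nm (v - w) ≤ ε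

theorem PropTb.bim {B : Type} [CStarAlgebra B] {τ : B →ₗ[ℂ] ℂ} (h : PropTb τ) : PropTbim τ := by
  intro ε hε
  obtain ⟨F, δ, hδ, h1⟩ := h ε hε
  refine ⟨F, δ, hδ, ?_⟩
  intro H _ _ _ L R hLR ξ h2 h3 h4
  refine h1 H (fun x v => L x v) (fun x v => R x v) ⟨⟨?_, ?_, hLR.L_one, hLR.L_adj, hLR.L_normal⟩,
    ⟨?_, ?_, hLR.R_one, hLR.R_adj, hLR.R_normal⟩, hLR.L_mul, hLR.R_mul, hLR.comm⟩ ξ ⟨h2, h3, h4⟩
  · intro x y v; simp only [map_add, ContinuousLinearMap.add_apply]
  · intro c x v; simp only [map_smul, ContinuousLinearMap.smul_apply]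
  · intro x y v; simp only [map_add, ContinuousLinearMap.add_apply]
  · intro c x v; simp only [map_smul, ContinuousLinearMap.smul_apply]

end Helper61.HT
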