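import Pool.Agent.Helper61.HT.LibN
import Pool.Agent.Helper61.HT.StE

/-!
# Layer-cake averages of the spectral projections (common part of Round1, Round2)
-/

set_option linter.unusedSectionVars false

namespace Helper61.HT

open MeasureTheory
open scoped ComplexOrder

namespace Rnd

variable {N : Type} [CStarAlgebra N] [PartialOrder N] [StarOrderedRing N] {τ : N →ₗ[ℂ] ℂ}
  {ι : Type}

/-! ## resolutions of the identity -/

/-- `e l`, `l < n`, are orthogonal projections with sum one. -/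
structure Res (n : ℕ) (e : ℕ → N) : Prop where
  st : ∀ l, star (e l) = e l
  mul : ∀ l ∈ Finset.range n, ∀ k ∈ Finset.range n, e l * e k = if l = k then e l else 0
  sum : ∑ l ∈ Finset.range n, e l = 1

lemma Res.sq {n : ℕ} {e : ℕ → N} (h : Res n e) (α : ℕ → ℝ) :
    (∑ l ∈ Finset.range n, α l • e l) * (∑ l ∈ Finset.range n, α l • e l) =
      ∑ l ∈ Finset.range n, (α l ^ 2) • e l := by
  rw [Finset.sum_mul_sum]
  refine Finset.sum_congr rfl fun l hl => ?_
  have h1 : ∀ k ∈ Finset.range n, α l • e l * α k • e k =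
      if l = k then (α l ^ 2) • e l else 0 := by
    intro k hk
    rw [smul_mul_smul_comm, h.mul l hl k hk]
    split_ifs with hlk
    · rw [hlk, pow_two]
    · rw [smul_zero]
  rw [Finset.sum_congr rfl h1, Finset.sum_ite_eq, if_pos hl]

lemma Res.star_sum {n : ℕ} {e : ℕ → N} (h : Res n e) (α : ℕ → ℝ) :
    star (∑ l ∈ Finset.range n, α l • e l) = ∑ l ∈ Finset.range n, α l • e l := by
  rw [_root_.star_sum]
  refine Finset.sum_congr rfl fun l _ => ?_
  rw [star_smul, star_trivial, h.st]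

lemma hs_res (hτ : Trc τ) {n : ℕ} {e f : ℕ → N} (he : Res n e) (hf : Res n f) (α β : ℕ → ℝ) :
    hs τ (∑ l ∈ Finset.range n, α l • e l - ∑ k ∈ Finset.range n, β k • f k) =
      ∑ l ∈ Finset.range n, ∑ k ∈ Finset.range n, rt τ (e l * f k) * (α l - β k) ^ 2 := by
  set A := ∑ l ∈ Finset.range n, α l • e l with hA
  set B := ∑ k ∈ Finset.range n, β k • f k with hB
  have h1 : hs τ (A - B) = rt τ (A * A) + rt τ (B * B) - 2 * rt τ (A * B) := by
    rw [hs_eq_rt, star_sub, he.star_sum, hf.star_sum, ← hA, ← hB, sub_mul, mul_sub, mul_sub,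
      rt_sub, rt_sub, rt_sub, rt_mul_comm hτ B A]
    ring
  have h2 : rt τ (A * A) = ∑ l ∈ Finset.range n, ∑ k ∈ Finset.range n,
      rt τ (e l * f k) * α l ^ 2 := by
    rw [hA, he.sq, rt_sum]
    refine Finset.sum_congr rfl fun l _ => ?_
    rw [rt_smul, ← Finset.sum_mul, ← rt_sum, ← Finset.mul_sum, hf.sum, mul_one, mul_comm]
  have h3 : rt τ (B * B) = ∑ l ∈ Finset.range n, ∑ k ∈ Finset.range n,
      rt τ (e l * f k) * β k ^ 2 := by
    rw [hB, hf.sq, rt_sum, Finset.sum_comm]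
    refine Finset.sum_congr rfl fun k _ => ?_
    rw [rt_smul, ← Finset.sum_mul, ← rt_sum, ← Finset.sum_mul, he.sum, one_mul, mul_comm]
  have h4 : rt τ (A * B) = ∑ l ∈ Finset.range n, ∑ k ∈ Finset.range n,
      rt τ (e l * f k) * (α l * β k) := by
    rw [hA, hB, Finset.sum_mul_sum, rt_sum]
    refine Finset.sum_congr rfl fun l _ => ?_
    rw [rt_sum]
    refine Finset.sum_congr rfl fun k _ => ?_
    rw [smul_mul_smul_comm, rt_smul, mul_comm]
  rw [h1, h2, h3, h4, Finset.mul_sum, ← Finset.sum_add_distrib, ← Finset.sum_sub_distrib]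
  refine Finset.sum_congr rfl fun l _ => ?_
  rw [Finset.mul_sum, ← Finset.sum_add_distrib, ← Finset.sum_sub_distrib]
  refine Finset.sum_congr rfl fun k _ => ?_
  ring

/-! ## flags of projections -/

/-- Decreasing projections `1 = P 0 ≥ P 1 ≥ … ≥ P n = 0`. -/
structure Flag (n : ℕ) (P : ℕ → N) : Prop where
  pr : ∀ i, Pr (P i)
  anti : ∀ i j, i ≤ j → P j ≤ P i
  zero : P 0 = 1
  last : P n = 0

lemma Flag.mul_of_le {n : ℕ} {P : ℕ → N} (h : Flag n P) {i j : ℕ} (hij : i ≤ j) :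
    P j * P i = P j ∧ P i * P j = P j :=
  (h.pr i).absorb (h.pr j).nonneg (h.anti i j hij)

lemma Flag.res {n : ℕ} {P : ℕ → N} (h : Flag n P) : Res n fun l => P l - P (l + 1) := by
  refine ⟨fun l => by rw [star_sub, (h.pr l).1, (h.pr (l + 1)).1], ?_, ?_⟩
  · intro l _ k _
    show (P l - P (l + 1)) * (P k - P (k + 1)) = if l = k then P l - P (l + 1) else 0
    split_ifs with hlk
    · subst hlk
      rw [sub_mul, mul_sub, mul_sub, (h.pr l).2, (h.pr (l + 1)).2,
        (h.mul_of_le (Nat.le_succ l)).1, (h.mul_of_le (Nat.le_succ l)).2]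
      simp
    · rcases lt_or_gt_of_ne hlk with hlt | hlt
      · rw [sub_mul, mul_sub, mul_sub, (h.mul_of_le (show l ≤ k by omega)).2,
          (h.mul_of_le (show l ≤ k + 1 by omega)).2,
          (h.mul_of_le (show l + 1 ≤ k by omega)).2,
          (h.mul_of_le (show l + 1 ≤ k + 1 by omega)).2]
        simp
      · rw [sub_mul, mul_sub, mul_sub, (h.mul_of_le (show k ≤ l by omega)).1,
          (h.mul_of_le (show k + 1 ≤ l by omega)).1,
          (h.mul_of_le (show k ≤ l + 1 by omega)).1,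
          (h.mul_of_le (show k + 1 ≤ l + 1 by omega)).1]
        simp
  · rw [Finset.sum_range_sub' P n, h.zero, h.last, sub_zero]

/-- `1` if `i ≤ l`. -/
noncomputable def ii (i l : ℕ) : ℝ := if i ≤ l then 1 else 0

lemma Flag.eq_sum {n : ℕ} {P : ℕ → N} (h : Flag n P) {i : ℕ} (hi : i ≤ n) :
    P i = ∑ l ∈ Finset.range n, ii i l • (P l - P (l + 1)) := by
  have h1 : ∑ l ∈ Finset.range n, ii i l • (P l - P (l + 1)) =
      ∑ l ∈ Finset.Ico i n, (P l - P (l + 1)) := by
    rw [Finset.range_eq_Ico, ← Finset.sum_Ico_consecutive _ (Nat.zero_le i) hi]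
    have h2 : ∑ l ∈ Finset.Ico 0 i, ii i l • (P l - P (l + 1)) = 0 := by
      refine Finset.sum_eq_zero fun l hl => ?_
      have : ¬ i ≤ l := by have := Finset.mem_Ico.1 hl; omega
      rw [ii, if_neg this, zero_smul]
    rw [h2, zero_add]
    refine Finset.sum_congr rfl fun l hl => ?_
    rw [ii, if_pos (Finset.mem_Ico.1 hl).1, one_smul]
  rw [h1]
  have h3 : ∀ k, i ≤ k → ∑ l ∈ Finset.Ico i k, (P l - P (l + 1)) = P i - P k := by
    intro k hk
    induction k, hk using Nat.le_induction with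
    | base => simp
    | succ k hk ih => rw [Finset.sum_Ico_succ_top hk, ih]; abel
  rw [h3 n hi, h.last, sub_zero]

lemma Flag.sum_eq {n : ℕ} {P : ℕ → N} (h : Flag n P) :
    ∑ i ∈ Finset.range n, P i = ∑ l ∈ Finset.range n, ((l : ℝ) + 1) • (P l - P (l + 1)) := by
  have h1 : ∀ k ≤ n, ∑ i ∈ Finset.range k, P i =
      ∑ l ∈ Finset.range k, ((l : ℝ) + 1) • (P l - P (l + 1)) + (k : ℝ) • P k := by
    intro k
    induction k with
    | zero => intro _; simp
    | succ k ih =>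
      intro hk
      rw [Finset.sum_range_succ, ih (by omega), Finset.sum_range_succ]
      push_cast
      rw [smul_sub, add_smul, one_smul]
      abel
  rw [h1 n le_rfl, h.last, smul_zero, add_zero]

lemma cnt (r R l k : ℕ) : ∑ i ∈ Finset.Ico r R, (ii i l - ii i k) ^ 2 ≤
    |((l : ℝ) + 1) - ((k : ℝ) + 1)| * (if r ≤ l ∨ r ≤ k then 1 else 0) := by
  have key : ∀ l k : ℕ, k ≤ l → ∑ i ∈ Finset.Ico r R, (ii i l - ii i k) ^ 2 ≤
      ((l : ℝ) - k) * (if r ≤ l then 1 else 0) := by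
    intro l k hkl
    by_cases hr : r ≤ l
    · rw [if_pos hr, mul_one]
      have h1 : ∀ i ∈ Finset.Ico r R, (ii i l - ii i k) ^ 2 =
          if (k < i ∧ i ≤ l) then (1 : ℝ) else 0 := by
        intro i _
        unfold ii
        by_cases h1 : i ≤ k
        · rw [if_pos (h1.trans hkl), if_pos h1, if_neg (by omega)]; norm_num
        · by_cases h2 : i ≤ l
          · rw [if_pos h2, if_neg h1, if_pos ⟨by omega, h2⟩]; norm_num
          · rw [if_neg h2, if_neg h1, if_neg (by omega)]; norm_num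
      rw [Finset.sum_congr rfl h1, Finset.sum_ite, Finset.sum_const_zero, add_zero,
        Finset.sum_const, nsmul_eq_mul, mul_one]
      have h2 : (Finset.Ico r R).filter (fun i => k < i ∧ i ≤ l) ⊆ Finset.Ioc k l := by
        intro i hi
        rw [Finset.mem_filter] at hi
        exact Finset.mem_Ioc.2 hi.2
      have h3 := Finset.card_le_card h2
      rw [Nat.card_Ioc] at h3
      have h4 : (((Finset.Ico r R).filter (fun i => k < i ∧ i ≤ l)).card : ℝ) ≤ ((l - k : ℕ) : ℝ) := by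
        exact_mod_cast h3
      rwa [Nat.cast_sub hkl] at h4
    · rw [if_neg hr, mul_zero]
      refine le_of_eq (Finset.sum_eq_zero fun i hi => ?_)
      have h1 := (Finset.mem_Ico.1 hi).1
      unfold ii
      rw [if_neg (by omega), if_neg (by omega)]
      norm_num
  have e : ((l : ℝ) + 1) - ((k : ℝ) + 1) = l - k := by ring
  rw [e]
  rcases le_total k l with h | h
  · refine (key l k h).trans ?_
    have h1 : (0 : ℝ) ≤ l - k := sub_nonneg.2 (by exact_mod_cast h)
    rw [abs_of_nonneg h1]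
    refine mul_le_mul_of_nonneg_left ?_ h1
    split_ifs with h2 h3 h3
    · exact le_rfl
    · exact absurd (Or.inl h2) h3
    · exact zero_le_one
    · exact le_rfl
  · have h0 : ∑ i ∈ Finset.Ico r R, (ii i l - ii i k) ^ 2 =
        ∑ i ∈ Finset.Ico r R, (ii i k - ii i l) ^ 2 :=
      Finset.sum_congr rfl fun i _ => by ring
    rw [h0]
    refine (key k l h).trans ?_
    have h1 : (0 : ℝ) ≤ k - l := sub_nonneg.2 (by exact_mod_cast h)
    rw [abs_sub_comm, abs_of_nonneg h1]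
    refine mul_le_mul_of_nonneg_left ?_ h1
    split_ifs with h2 h3 h3
    · exact le_rfl
    · exact absurd (Or.inr h2) h3
    · exact zero_le_one
    · exact le_rfl

/-- The main inequality for two flags. -/
lemma flag_sum_le (hτ : Trc τ) {n : ℕ} {P Q : ℕ → N} (hP : Flag n P) (hQ : Flag n Q) {r R : ℕ}
    (hrR : r ≤ n) (hR : R ≤ n + 1) :
    ∑ i ∈ Finset.Ico r R, hs τ (P i - Q i) ≤
      Real.sqrt (hs τ (∑ i ∈ Finset.range n, P i - ∑ i ∈ Finset.range n, Q i)) *
        Real.sqrt (rt τ (P r) + rt τ (Q r)) := by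
  set w : ℕ → ℕ → ℝ := fun l k => rt τ ((P l - P (l + 1)) * (Q k - Q (k + 1))) with hw
  have hw0 : ∀ l k, 0 ≤ w l k := fun l k =>
    rt_mul_nonneg hτ (sub_nonneg.2 (hP.anti _ _ (Nat.le_succ l)))
      (sub_nonneg.2 (hQ.anti _ _ (Nat.le_succ k)))
  have h1 : ∀ i ∈ Finset.Ico r R, hs τ (P i - Q i) = ∑ l ∈ Finset.range n,
      ∑ k ∈ Finset.range n, w l k * (ii i l - ii i k) ^ 2 := by
    intro i hi
    have hin : i ≤ n := by have := Finset.mem_Ico.1 hi; omega
    conv_lhs => rw [hP.eq_sum hin, hQ.eq_sum hin]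
    exact hs_res hτ hP.res hQ.res _ _
  have h2 : hs τ (∑ i ∈ Finset.range n, P i - ∑ i ∈ Finset.range n, Q i) =
      ∑ l ∈ Finset.range n, ∑ k ∈ Finset.range n,
        w l k * (((l : ℝ) + 1) - ((k : ℝ) + 1)) ^ 2 := by
    rw [hP.sum_eq, hQ.sum_eq]
    exact hs_res hτ hP.res hQ.res _ _
  rw [Finset.sum_congr rfl h1, h2]
  have h3 : ∑ i ∈ Finset.Ico r R, ∑ l ∈ Finset.range n,
      ∑ k ∈ Finset.range n, w l k * (ii i l - ii i k) ^ 2 =
      ∑ x ∈ Finset.range n ×ˢ Finset.range n,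
        w x.1 x.2 * ∑ i ∈ Finset.Ico r R, (ii i x.1 - ii i x.2) ^ 2 := by
    rw [Finset.sum_product, Finset.sum_comm]
    refine Finset.sum_congr rfl fun l _ => ?_
    rw [Finset.sum_comm]
    refine Finset.sum_congr rfl fun k _ => ?_
    rw [Finset.mul_sum]
  rw [h3]
  have h4 : ∀ x ∈ Finset.range n ×ˢ Finset.range n,
      w x.1 x.2 * ∑ i ∈ Finset.Ico r R, (ii i x.1 - ii i x.2) ^ 2 ≤
      (Real.sqrt (w x.1 x.2) * |((x.1 : ℝ) + 1) - ((x.2 : ℝ) + 1)|) *
        (Real.sqrt (w x.1 x.2) * (if r ≤ x.1 ∨ r ≤ x.2 then 1 else 0)) := by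
    intro x _
    have h5 := mul_le_mul_of_nonneg_left (cnt r R x.1 x.2) (hw0 x.1 x.2)
    refine h5.trans (le_of_eq ?_)
    have h6 := Real.mul_self_sqrt (hw0 x.1 x.2)
    calc w x.1 x.2 * (|((x.1 : ℝ) + 1) - ((x.2 : ℝ) + 1)| * (if r ≤ x.1 ∨ r ≤ x.2 then 1 else 0)) =
        (Real.sqrt (w x.1 x.2) * Real.sqrt (w x.1 x.2)) *
        (|((x.1 : ℝ) + 1) - ((x.2 : ℝ) + 1)| * (if r ≤ x.1 ∨ r ≤ x.2 then 1 else 0)) := by rw [h6]
      _ = _ := by ring
  refine (Finset.sum_le_sum h4).trans ((Real.sum_mul_le_sqrt_mul_sqrt _ _ _).trans ?_)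
  refine mul_le_mul ?_ ?_ (Real.sqrt_nonneg _) (Real.sqrt_nonneg _)
  · refine Real.sqrt_le_sqrt (le_of_eq ?_)
    rw [Finset.sum_product]
    refine Finset.sum_congr rfl fun l _ => Finset.sum_congr rfl fun k _ => ?_
    rw [mul_pow, sq_abs, Real.sq_sqrt (hw0 l k)]
  · refine Real.sqrt_le_sqrt ?_
    have hPr : rt τ (P r) = ∑ l ∈ Finset.range n, ∑ k ∈ Finset.range n, w l k * ii r l := by
      conv_lhs => rw [hP.eq_sum hrR, rt_sum]
      refine Finset.sum_congr rfl fun l _ => ?_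
      rw [rt_smul, ← Finset.sum_mul, ← rt_sum, ← Finset.mul_sum, hQ.res.sum, mul_one, mul_comm]
    have hQr : rt τ (Q r) = ∑ l ∈ Finset.range n, ∑ k ∈ Finset.range n, w l k * ii r k := by
      conv_lhs => rw [hQ.eq_sum hrR, rt_sum]
      rw [Finset.sum_comm]
      refine Finset.sum_congr rfl fun k _ => ?_
      rw [rt_smul, ← Finset.sum_mul, ← rt_sum, ← Finset.sum_mul, hP.res.sum, one_mul, mul_comm]
    rw [hPr, hQr, ← Finset.sum_add_distrib, Finset.sum_product]
    refine Finset.sum_le_sum fun l _ => ?_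
    rw [← Finset.sum_add_distrib]
    refine Finset.sum_le_sum fun k _ => ?_
    rw [mul_pow, Real.sq_sqrt (hw0 l k), ← mul_add]
    refine mul_le_mul_of_nonneg_left ?_ (hw0 l k)
    unfold ii
    by_cases hl : r ≤ l <;> by_cases hk : r ≤ k <;> simp [hl, hk]

/-! ## the layer-cake bound -/

variable {a : N} {E : ℝ → N}

lemma hs_le_norm_sq (hτ : Trc τ) (x : N) : hs τ x ≤ ‖x‖ ^ 2 := by
  have h := hs_mul_le hτ x 1
  have h1 : hs τ (1 : N) = 1 := by rw [Pr.one.hs, rt_one hτ]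
  rwa [mul_one, h1, mul_one] at h

lemma SpecF_rt_anti (hτ : Trc τ) (hE : SpecF a E) : Antitone fun x => rt τ (E x) :=
  fun x y hxy => rt_mono hτ (hE.anti x y hxy)

lemma SpecF_c_anti (hτ : Trc τ) (hE : SpecF a E) (v : N) :
    Antitone fun x => rt τ (E x * (v * E x * star v)) := by
  intro x y hxy
  have h1 := hE.anti x y hxy
  have h2 := conj_mono h1 v
  calc rt τ (E y * (v * E y * star v)) ≤ rt τ (E x * (v * E y * star v)) :=
        rt_mul_mono hτ h1 (conj_nonneg (hE.pr y).nonneg v)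
    _ ≤ rt τ (E x * (v * E x * star v)) := rt_mul_mono' hτ h2 (hE.pr x).nonneg

lemma Pr_conj {p v : N} (hp : Pr p) (hv : Un v) : Pr (v * p * star v) := by
  refine ⟨by simp only [star_mul, star_star, hp.1, mul_assoc], ?_⟩
  calc v * p * star v * (v * p * star v) = v * p * (star v * v) * p * star v := by noncomm_ring
    _ = v * (p * p) * star v := by rw [hv.1]; noncomm_ring
    _ = _ := by rw [hp.2]

lemma rt_conj (hτ : Trc τ) {v : N} (hv : Un v) (x : N) : rt τ (v * x * star v) = rt τ x := by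
  rw [rt_cycle hτ, hv.1, one_mul]

lemma hs_E (hτ : Trc τ) (hE : SpecF a E) {v : N} (hv : Un v) (x : ℝ) :
    hs τ (v * E x - E x * v) = 2 * rt τ (E x) - 2 * rt τ (E x * (v * E x * star v)) := by
  have hq := Pr_conj (hE.pr x) hv
  have hp := hE.pr x
  rw [hs_comm_unit hτ hv, hs_eq_rt, star_sub, hp.1, hq.1, sub_mul, mul_sub, mul_sub, hp.2, hq.2,
    rt_sub, rt_sub, rt_sub, rt_mul_comm hτ (v * E x * star v) (E x), rt_conj hτ hv]
  ring

lemma hs_E_int (hτ : Trc τ) (hE : SpecF a E) {v : N} (hv : Un v) (t s : ℝ) :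
    IntervalIntegrable (fun x => hs τ (v * E x - E x * v)) volume t s := by
  simp only [hs_E hτ hE hv]
  exact ((SpecF_rt_anti hτ hE).intervalIntegrable.const_mul 2).sub
    ((SpecF_c_anti hτ hE v).intervalIntegrable.const_mul 2)

lemma rt_E_le (hτ : Trc τ) (hE : SpecF a E) (ha : 0 ≤ a) {t : ℝ} (ht : 0 < t) :
    rt τ (E t) ≤ rt τ a / t := by
  rw [le_div_iff₀ ht]
  have h1 := rt_mono hτ (hE.lo t)
  rw [rt_smul, rt_cycle hτ, (hE.pr t).2] at h1
  have h2 := rt_mul_mono hτ (hE.pr t).le_one ha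
  rw [one_mul] at h2
  linarith

/-- The flag of the spectral projections at the levels `i / m`. -/
noncomputable def fl (E : ℝ → N) (m i : ℕ) : N :=
  if i = 0 then 1 else if i ≤ m then E ((i : ℝ) / m) else 0

lemma fl_flag (hE : SpecF a E) {m : ℕ} (hm : 0 < m) : Flag (m + 1) (fl E m) := by
  have hm' : (0 : ℝ) < m := by exact_mod_cast hm
  have hpr : ∀ i, Pr (fl E m i) := by
    intro i
    unfold fl
    split_ifs
    · exact Pr.one
    · exact hE.pr _
    · exact Pr.zero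
  refine ⟨hpr, ?_, ?_, ?_⟩
  · intro i j hij
    by_cases hi : i = 0
    · have : fl E m i = 1 := by unfold fl; rw [if_pos hi]
      rw [this]; exact (hpr j).le_one
    · by_cases hj : j ≤ m
      · have h1 : fl E m i = E ((i : ℝ) / m) := by
          unfold fl; rw [if_neg hi, if_pos (hij.trans hj)]
        have h2 : fl E m j = E ((j : ℝ) / m) := by
          unfold fl; rw [if_neg (by omega), if_pos hj]
        rw [h1, h2]
        refine hE.anti _ _ ?_
        have : (i : ℝ) ≤ j := by exact_mod_cast hij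
        gcongr
      · have h2 : fl E m j = 0 := by
          unfold fl; rw [if_neg (by omega), if_neg hj]
        rw [h2]; exact (hpr i).nonneg
  · unfold fl; rw [if_pos rfl]
  · unfold fl; rw [if_neg (by omega), if_neg (by omega)]

lemma fl_conj_flag {n : ℕ} {P : ℕ → N} (hP : Flag n P) {v : N} (hv : Un v) :
    Flag n fun i => v * P i * star v := by
  refine ⟨fun i => Pr_conj (hP.pr i) hv, fun i j hij => conj_mono (hP.anti i j hij) v, ?_, ?_⟩
  · show v * P 0 * star v = 1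
    rw [hP.zero, mul_one, hv.2]
  · show v * P n * star v = 0
    rw [hP.last, mul_zero, zero_mul]

lemma fl_sum (E : ℝ → N) {m : ℕ} (hm : 0 < m) : ∑ i ∈ Finset.range (m + 1), fl E m i =
    1 + (m : ℝ) • ((1 / m : ℝ) • ∑ j ∈ Finset.range m, E (((j : ℝ) + 1) / m)) := by
  have hm' : (m : ℝ) ≠ 0 := by exact_mod_cast hm.ne'
  rw [Finset.sum_range_succ', smul_smul, mul_one_div_cancel hm', one_smul, add_comm]
  congr 1
  refine Finset.sum_congr rfl fun j hj => ?_
  have := Finset.mem_range.1 hj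
  unfold fl
  rw [if_neg (by omega), if_pos (by omega)]
  push_cast
  rfl

/-- Riemann sums at the levels `i / m`. -/
lemma riemann_le (hτ : Trc τ) (hE : SpecF a E) (ha0 : 0 ≤ a) {v : N} (hv : Un v) {m : ℕ}
    (hm : 0 < m) {M K : ℕ} (hMK : M ≤ K) (hK : K ≤ m) {t : ℝ} (ht : 0 < t)
    (hMt : t ≤ ((M : ℝ) + 1) / m) :
    ∑ i ∈ Finset.Ico M K, hs τ (v * E (((i + 1 : ℕ) : ℝ) / m) - E (((i + 1 : ℕ) : ℝ) / m) * v) ≤
      m * ((Real.sqrt (hs τ (v * a - a * v)) + 2 / m) * Real.sqrt (2 * rt τ a / t)) := by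
  have hm' : (0 : ℝ) < m := by exact_mod_cast hm
  by_cases hMm : M = m
  · have : Finset.Ico M K = ∅ := Finset.Ico_eq_empty (by omega)
    rw [this, Finset.sum_empty]
    positivity
  have hMm' : M + 1 ≤ m := by omega
  have hfl := fl_flag (a := a) hE hm
  have hfl' := fl_conj_flag hfl hv
  have h1 : ∑ i ∈ Finset.Ico M K,
      hs τ (v * E (((i + 1 : ℕ) : ℝ) / m) - E (((i + 1 : ℕ) : ℝ) / m) * v) =
      ∑ i ∈ Finset.Ico (M + 1) (K + 1), hs τ (fl E m i - v * fl E m i * star v) := by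
    rw [← Finset.sum_Ico_add' (fun i => hs τ (fl E m i - v * fl E m i * star v)) M K 1]
    refine Finset.sum_congr rfl fun i hi => ?_
    have hi' := Finset.mem_Ico.1 hi
    have h2 : fl E m (i + 1) = E (((i + 1 : ℕ) : ℝ) / m) := by
      unfold fl; rw [if_neg (by omega), if_pos (by omega)]
    rw [hs_comm_unit hτ hv, h2]
  have h2 := flag_sum_le hτ hfl hfl' (r := M + 1) (R := K + 1) (by omega) (by omega)
  rw [h1]
  refine h2.trans ?_
  set am := (1 / m : ℝ) • ∑ j ∈ Finset.range m, E (((j : ℝ) + 1) / m) with ham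
  have hlay : ‖a - am‖ ≤ 1 / m := hE.lay m hm
  have h3 : ∑ i ∈ Finset.range (m + 1), fl E m i -
      ∑ i ∈ Finset.range (m + 1), v * fl E m i * star v = (m : ℝ) • (am - v * am * star v) := by
    rw [← Finset.sum_mul, ← Finset.mul_sum, fl_sum E hm, ← ham]
    rw [mul_add, add_mul, mul_one, hv.2, mul_smul_comm, smul_mul_assoc, smul_sub]
    abel
  have h4 : Real.sqrt (hs τ ((m : ℝ) • (am - v * am * star v))) =
      m * Real.sqrt (hs τ (am - v * am * star v)) := by
    rw [hs_smul, Real.sqrt_mul (by positivity), Real.sqrt_sq hm'.le]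
  have h5 : Real.sqrt (hs τ (am - v * am * star v)) ≤
      Real.sqrt (hs τ (v * a - a * v)) + 2 / m := by
    have e1 : am - v * am * star v = (a - v * a * star v) - ((a - am) - v * (a - am) * star v) := by
      noncomm_ring
    rw [e1]
    refine (sqrt_hs_sub_le hτ _ _).trans ?_
    rw [hs_comm_unit hτ hv]
    refine add_le_add le_rfl ?_
    refine (sqrt_hs_sub_le hτ _ _).trans ?_
    have e2 : hs τ (v * (a - am) * star v) = hs τ (a - am) := by
      rw [hs_mul_unit hτ hv.star, hs_unit_mul hv]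
    rw [e2]
    have e3 : Real.sqrt (hs τ (a - am)) ≤ 1 / m := by
      rw [Real.sqrt_le_left (by positivity)]
      exact (hs_le_norm_sq hτ _).trans (pow_le_pow_left₀ (norm_nonneg _) hlay 2)
    have e4 : (2 : ℝ) / m = 1 / m + 1 / m := by ring
    rw [e4]
    exact add_le_add e3 e3
  have h6 : Real.sqrt (rt τ (fl E m (M + 1)) + rt τ (v * fl E m (M + 1) * star v)) ≤
      Real.sqrt (2 * rt τ a / t) := by
    refine Real.sqrt_le_sqrt ?_
    rw [rt_conj hτ hv]
    have e1 : fl E m (M + 1) = E (((M : ℝ) + 1) / m) := by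
      unfold fl; rw [if_neg (by omega), if_pos hMm']; push_cast; rfl
    rw [e1]
    have e2 := SpecF_rt_anti hτ hE hMt
    have e3 := rt_E_le hτ hE ha0 ht
    have e4 : 2 * rt τ a / t = rt τ a / t + rt τ a / t := by ring
    simp only at e2
    linarith
  rw [h3, h4, mul_assoc]
  refine mul_le_mul_of_nonneg_left ?_ hm'.le
  exact mul_le_mul h5 h6 (Real.sqrt_nonneg _) (by positivity)

lemma ico_tele (f : ℕ → ℝ) (M K : ℕ) (h : M ≤ K) :
    ∑ i ∈ Finset.Ico M K, (f i - f (i + 1)) = f M - f K := by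
  induction K, h using Nat.le_induction with
  | base => simp
  | succ K hK ih => rw [Finset.sum_Ico_succ_top hK, ih]; ring

/-- the layer-cake bound for one unitary, approximate form -/
lemma int_hs_le_aux (hτ : Trc τ) (hE : SpecF a E) (ha0 : 0 ≤ a) {v : N} (hv : Un v) {t s : ℝ}
    (ht : 0 < t) (hts : t ≤ s) (hs1 : s ≤ 1) {m : ℕ} (hm : 0 < m) :
    ∫ x in t..s, hs τ (v * E x - E x * v) ≤
      (Real.sqrt (hs τ (v * a - a * v)) + 2 / m) * Real.sqrt (2 * rt τ a / t) + 2 / m := by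
  have hm' : (0 : ℝ) < m := by exact_mod_cast hm
  set M := ⌊t * m⌋₊ with hM
  set K := ⌈s * m⌉₊ with hK
  have hM1 : (M : ℝ) ≤ t * m := Nat.floor_le (by positivity)
  have hM2 : t * m < (M : ℝ) + 1 := Nat.lt_floor_add_one _
  have hK1 : s * m ≤ (K : ℝ) := Nat.le_ceil _
  have hK2 : K ≤ m := Nat.ceil_le.2 (by nlinarith)
  have hMK : M ≤ K := by
    have h1 : (M : ℝ) ≤ K := hM1.trans ((mul_le_mul_of_nonneg_right hts hm'.le).trans hK1)
    exact_mod_cast h1
  have hMt : t ≤ ((M : ℝ) + 1) / m := by rw [le_div_iff₀ hm']; exact hM2.le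
  have ha1 : (M : ℝ) / m ≤ t := by rw [div_le_iff₀ hm']; exact hM1
  have hb1 : s ≤ (K : ℝ) / m := by rw [le_div_iff₀ hm']; exact hK1
  set g : ℝ → ℝ := fun x => hs τ (v * E x - E x * v) with hg
  have hg0 : ∀ x, 0 ≤ g x := fun x => hs_nonneg hτ _
  set f1 : ℝ → ℝ := fun x => rt τ (E x) with hf1
  set f2 : ℝ → ℝ := fun x => rt τ (E x * (v * E x * star v)) with hf2
  have hf1a : Antitone f1 := SpecF_rt_anti hτ hE
  have hf2a : Antitone f2 := SpecF_c_anti hτ hE v
  have hgf : ∀ x, g x = 2 * f1 x - 2 * f2 x := fun x => hs_E hτ hE hv x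
  have h1 : ∫ x in t..s, g x ≤ ∫ x in (M : ℝ) / m..(K : ℝ) / m, g x :=
    intervalIntegral.integral_mono_interval ha1 hts hb1
      (Filter.Eventually.of_forall hg0) (hs_E_int hτ hE hv _ _)
  have h2 : ∫ x in (M : ℝ) / m..(K : ℝ) / m, g x = (1 / m) * ∫ y in (M : ℝ)..(K : ℝ), g (y / m) := by
    rw [intervalIntegral.integral_comp_div g hm'.ne', smul_eq_mul, ← mul_assoc,
      one_div_mul_cancel hm'.ne', one_mul]
  have hF1 : Antitone fun y : ℝ => f1 (y / m) := fun x y hxy => hf1a (by gcongr)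
  have hF2 : Antitone fun y : ℝ => f2 (y / m) := fun x y hxy => hf2a (by gcongr)
  have h3 : ∫ y in (M : ℝ)..(K : ℝ), g (y / m) =
      2 * (∫ y in (M : ℝ)..(K : ℝ), f1 (y / m)) - 2 * ∫ y in (M : ℝ)..(K : ℝ), f2 (y / m) := by
    simp only [hgf]
    rw [intervalIntegral.integral_sub (hF1.intervalIntegrable.const_mul 2)
      (hF2.intervalIntegrable.const_mul 2), intervalIntegral.integral_const_mul,
      intervalIntegral.integral_const_mul]
  have h4 := AntitoneOn.integral_le_sum_Ico hMK (hF1.antitoneOn _)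
  have h5 := AntitoneOn.sum_le_integral_Ico hMK (hF2.antitoneOn _)
  have h6 := riemann_le hτ hE ha0 hv hm hMK hK2 ht hMt
  have h7 : ∑ i ∈ Finset.Ico M K, g (((i + 1 : ℕ) : ℝ) / m) =
      2 * ∑ i ∈ Finset.Ico M K, f1 (((i + 1 : ℕ) : ℝ) / m) -
        2 * ∑ i ∈ Finset.Ico M K, f2 (((i + 1 : ℕ) : ℝ) / m) := by
    simp only [hgf]
    rw [Finset.sum_sub_distrib, Finset.mul_sum, Finset.mul_sum]
  have h8 := ico_tele (fun i => f1 ((i : ℝ) / m)) M K hMK
  rw [Finset.sum_sub_distrib] at h8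
  have h9 : f1 ((M : ℝ) / m) ≤ 1 := by
    have := rt_mono hτ (hE.pr ((M : ℝ) / m)).le_one
    rwa [rt_one hτ] at this
  have h10 : 0 ≤ f1 ((K : ℝ) / m) := (hE.pr _).rt_nonneg hτ
  have h11 : ∫ y in (M : ℝ)..(K : ℝ), g (y / m) ≤
      m * ((Real.sqrt (hs τ (v * a - a * v)) + 2 / m) * Real.sqrt (2 * rt τ a / t)) + 2 := by
    rw [h3]
    have h12 : ∑ i ∈ Finset.Ico M K, g (((i + 1 : ℕ) : ℝ) / m) ≤
      m * ((Real.sqrt (hs τ (v * a - a * v)) + 2 / m) * Real.sqrt (2 * rt τ a / t)) := h6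
    rw [h7] at h12
    beta_reduce at h4 h5 h8
    linarith
  calc ∫ x in t..s, g x ≤ (1 / m) * ∫ y in (M : ℝ)..(K : ℝ), g (y / m) := by
        rw [← h2]; exact h1
    _ ≤ (1 / m) * (m * ((Real.sqrt (hs τ (v * a - a * v)) + 2 / m) *
          Real.sqrt (2 * rt τ a / t)) + 2) := mul_le_mul_of_nonneg_left h11 (by positivity)
    _ = _ := by field_simp

/-- the layer-cake bound for one unitary -/
theorem int_hs_le (hτ : Trc τ) (hE : SpecF a E) (ha0 : 0 ≤ a) {v : N} (hv : Un v) {t s : ℝ}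
    (ht : 0 < t) (hts : t ≤ s) (hs1 : s ≤ 1) :
    ∫ x in t..s, hs τ (v * E x - E x * v) ≤
      Real.sqrt (hs τ (v * a - a * v)) * Real.sqrt (2 * rt τ a / t) := by
  refine le_of_forall_pos_le_add fun ε hε => ?_
  set B := Real.sqrt (2 * rt τ a / t) with hB
  have hB0 : 0 ≤ B := Real.sqrt_nonneg _
  obtain ⟨n, hn⟩ := exists_nat_gt ((2 * B + 2) / ε)
  have hn0 : 0 < (n : ℝ) := lt_of_le_of_lt (by positivity) hn
  have hn1 : 0 < n := by exact_mod_cast hn0
  refine (int_hs_le_aux hτ hE ha0 hv ht hts hs1 hn1).trans ?_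
  rw [← hB]
  have h1 : (2 * B + 2) / n ≤ ε := by
    rw [div_le_iff₀ hn0]
    rw [div_lt_iff₀ hε] at hn
    linarith
  have h2 : (Real.sqrt (hs τ (v * a - a * v)) + 2 / n) * B + 2 / n =
      Real.sqrt (hs τ (v * a - a * v)) * B + (2 * B + 2) / n := by ring
  rw [h2]
  linarith

lemma ii_sum {κ : Type} (S : Finset κ) {f : κ → ℝ → ℝ} {t s : ℝ}
    (hf : ∀ i, IntervalIntegrable (f i) volume t s) :
    IntervalIntegrable (fun x => ∑ i ∈ S, f i x) volume t s := by
  have h := IntervalIntegrable.sum S (f := f) fun i _ => hf i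
  have e : (∑ i ∈ S, f i) = fun x => ∑ i ∈ S, f i x := by
    ext x
    rw [Finset.sum_apply]
  rwa [e] at h

lemma En_int (hτ : Trc τ) (hE : SpecF a E) (F : Finset ι) {u : ι → N} (hu : ∀ r, Un (u r))
    (t s : ℝ) : IntervalIntegrable (fun x => En τ F u (E x)) volume t s := by
  unfold En
  exact ii_sum _ fun r => hs_E_int hτ hE (hu r) t s

/-- the layer-cake bound for the energy -/
theorem int_En_le (hτ : Trc τ) (hE : SpecF a E) (ha0 : 0 ≤ a) (F : Finset ι) {u : ι → N}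
    (hu : ∀ r, Un (u r)) {t s : ℝ} (ht : 0 < t) (hts : t ≤ s) (hs1 : s ≤ 1) :
    ∫ x in t..s, En τ F u (E x) ≤ Real.sqrt (2 * F.card * En τ F u a * rt τ a / t) := by
  have hrt : 0 ≤ rt τ a := rt_nonneg hτ ha0
  unfold En
  rw [intervalIntegral.integral_finsetSum fun r _ => hs_E_int hτ hE (hu r) t s]
  refine (Finset.sum_le_sum fun r _ => int_hs_le hτ hE ha0 (hu r) ht hts hs1).trans ?_
  rw [← Finset.sum_mul]
  have h1 : ∑ r ∈ F, Real.sqrt (hs τ (u r * a - a * u r)) ≤
      Real.sqrt (F.card) * Real.sqrt (∑ r ∈ F, hs τ (u r * a - a * u r)) := by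
    have h2 := Real.sum_sqrt_mul_sqrt_le F (f := fun _ => (1 : ℝ))
      (g := fun r => hs τ (u r * a - a * u r)) (fun _ => zero_le_one)
      (fun r => hs_nonneg hτ _)
    simpa using h2
  refine (mul_le_mul_of_nonneg_right h1 (Real.sqrt_nonneg _)).trans (le_of_eq ?_)
  rw [← Real.sqrt_mul (by positivity), ← Real.sqrt_mul]
  · congr 1
    ring
  · exact mul_nonneg (by positivity) (Finset.sum_nonneg fun r _ => hs_nonneg hτ _)

/-- a value at most the average -/
lemma exists_le_avg {f : ℝ → ℝ} {t s : ℝ} (hts : t < s) (hf : IntervalIntegrable f volume t s) :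
    ∃ x, t < x ∧ x ≤ s ∧ f x * (s - t) ≤ ∫ x in t..s, f x := by
  have h0 : volume (Set.Ioc t s) ≠ 0 := by
    rw [Real.volume_Ioc]
    simp [hts]
  have h1 : volume (Set.Ioc t s) ≠ ⊤ := by
    rw [Real.volume_Ioc]; exact ENNReal.ofReal_ne_top
  have hf' : IntegrableOn f (Set.Ioc t s) volume :=
    (intervalIntegrable_iff_integrableOn_Ioc_of_le hts.le).1 hf
  obtain ⟨x, hx, hxf⟩ := exists_le_setAverage h0 h1 hf'
  refine ⟨x, hx.1, hx.2, ?_⟩
  rw [setAverage_eq, Real.volume_real_Ioc_of_le hts.le, smul_eq_mul] at hxf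
  rw [intervalIntegral.integral_of_le hts.le]
  have h2 : 0 < s - t := sub_pos.2 hts
  calc f x * (s - t) ≤ ((s - t)⁻¹ * ∫ x in Set.Ioc t s, f x) * (s - t) :=
        mul_le_mul_of_nonneg_right hxf h2.le
    _ = _ := by field_simp

end Rnd

end Helper61.HT
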