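import Pool.Agent.Helper61.HT.StA

/-!
# Project HT: statements, part B (bimodules of completely positive maps, finite rank forms)
-/

namespace Helper61.HT

open scoped ComplexOrder

/-- A pre-Hilbert `N`-`N` bimodule. -/
structure Bimod (N : Type) [CStarAlgebra N] (H : Type) [NormedAddCommGroup H]
    [InnerProductSpace ℂ H] where
  L : N →ₗ[ℂ] (H →ₗ[ℂ] H)
  R : N →ₗ[ℂ] (H →ₗ[ℂ] H)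
  L_one : ∀ v, L 1 v = v
  R_one : ∀ v, R 1 v = v
  L_mul : ∀ x y v, L (x * y) v = L x (L y v)
  R_mul : ∀ x y v, R (x * y) v = R y (R x v)
  comm : ∀ x y v, L x (R y v) = R y (L x v)
  L_adj : ∀ x v w, inner ℂ (L x v) w = inner ℂ v (L (star x) w)
  R_adj : ∀ x v w, inner ℂ (R x v) w = inner ℂ v (R (star x) w)

/-- Every map in `SCP` is the map of a bimodule vector `ξ`: `⟨ξ, x ξ y⟩ = τ(x ψ(y))`. -/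
def StBim : Prop := ∀ (N : Type) [CStarAlgebra N] [PartialOrder N] [StarOrderedRing N]
  (τ : N →ₗ[ℂ] ℂ) (ψ : N →ₗ[ℂ] N), Trc τ → SCP τ ψ →
  ∃ (H : Type) (_ : NormedAddCommGroup H) (_ : InnerProductSpace ℂ H) (b : Bimod N H) (ξ : H),
    ∀ x y, inner ℂ ξ (b.L x (b.R y ξ)) = τ (x * ψ y)

/-- Closure properties of `SCP`. -/
def StScp : Prop := ∀ (N : Type) [CStarAlgebra N] [PartialOrder N] [StarOrderedRing N]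
  (τ : N →ₗ[ℂ] ℂ), Trc τ →
  (∀ (ψ : N →ₗ[ℂ] N) (c : N), SCP τ ψ → ‖c‖ ≤ 1 →
    SCP τ (Cj c ψ) ∧ (Cj c ψ) 1 ≤ c * star c) ∧
  (∀ (κ : Type) (s : Finset κ) (θ : κ → N →ₗ[ℂ] N) (r : ℝ), 0 ≤ r → (∀ i ∈ s, SCP τ (θ i)) →
    r • ∑ i ∈ s, θ i 1 ≤ 1 → SCP τ (r • ∑ i ∈ s, θ i)) ∧
  (∀ y : N, 0 ≤ y → y ≤ 1 → SCP τ (Mp y)) ∧
  ∀ (ι : Type) (F : Finset ι) (u : ι → N) (ψ : N →ₗ[ℂ] N) (k : ℕ), F.Nonempty →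
    (∀ s, Un (u s)) → SCP τ ψ →
    SCP τ ((TM F u)^[k] ψ) ∧ ((TM F u)^[k] ψ) 1 ≤ (TT F u ^ k) (ψ 1)

/-- The composition `φ ∘ φ ∘ φ`. -/
def StComp : Prop := ∀ (N : Type) [CStarAlgebra N] [PartialOrder N] [StarOrderedRing N]
  (τ : N →ₗ[ℂ] ℂ) (φ : N →ₗ[ℂ] N), Trc τ → SCP τ φ → SCP τ (φ ∘ₗ φ ∘ₗ φ)

/-- Energies of maps. -/
def StEnM : Prop := ∀ (N : Type) [CStarAlgebra N] [PartialOrder N] [StarOrderedRing N]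
  (τ : N →ₗ[ℂ] ℂ) (ι : Type) (F : Finset ι) (u : ι → N), Trc τ → F.Nonempty →
  (∀ s, Un (u s)) →
  (∀ (ψ : N →ₗ[ℂ] N), SCP τ ψ → ∀ S : Finset ι, 0 ≤ EnM τ S u ψ ∧ (∀ k, 0 ≤ gap τ F u k ψ) ∧
    ∀ k : ℕ, EnM τ F u ((TM F u)^[k] ψ) ≤ 4 * F.card * rt τ (ψ 1) / (2 * k + 1)) ∧
  (∀ (ψ : N →ₗ[ℂ] N) (c : N) (S : Finset ι), SCP τ ψ → ‖c‖ ≤ 1 →
    EnM τ S u (Cj c ψ) ≤ 3 * EnM τ S u ψ + 6 * En τ S u c) ∧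
  (∀ (ψ : N →ₗ[ℂ] N) (c q : N) (S : Finset ι), SCP τ ψ → ψ 1 ≤ q → 0 ≤ c → c ≤ 1 →
    EnM τ S u (Cj c ψ) ≤ 3 * EnM τ S u ψ +
      6 * ∑ s ∈ S, rt τ (q * (c - u s * c * star (u s)) * (c - u s * c * star (u s)))) ∧
  ∀ y : N, 0 ≤ y → y ≤ 1 → ∀ S : Finset ι, EnM τ S u (Mp y) = En τ S u y ∧
    ∀ k : ℕ, gap τ F u k (Mp y) = hs τ y - hs τ ((TT F u ^ k) y)

/-- The estimates for the averaged vector `T^k(G ξ G)`, `G = 1 - H`. -/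
def StAvg : Prop := ∀ (N : Type) [CStarAlgebra N] [PartialOrder N] [StarOrderedRing N]
  (τ : N →ₗ[ℂ] ℂ) (ι : Type) (F : Finset ι) (u : ι → N) (H q : N) (ψ : N →ₗ[ℂ] N) (k : ℕ),
  Trc τ → F.Nonempty → (∀ s, Un (u s)) → SCP τ ψ → Pr q → (∀ x, ψ x = q * ψ (q * x * q) * q) →
  ψ 1 ≤ q → 0 ≤ H → H ≤ 1 →
  rt τ (ψ 1) - 4 * rt τ (q * H) ≤ rt τ ((Cj (1 - H) ψ) 1) ∧
  rt τ ((1 - (TT F u ^ k) ((1 - H) * q * (1 - H))) * ((TM F u)^[k] (Cj (1 - H) ψ)) 1) ≤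
    12 * rt τ (q * H) + 2 * gap τ F u k (Cj (1 - H) ψ)

/-- Finite rank forms. -/
def StHF : Prop := ∀ (N : Type) [CStarAlgebra N] [PartialOrder N] [StarOrderedRing N]
  (τ : N →ₗ[ℂ] ℂ) (ι : Type) (F : Finset ι) (u : ι → N), Trc τ → F.Nonempty →
  (∀ s, Un (u s)) →
  (∀ (m : ℕ) (v : Fin m → N), 0 ≤ hsf τ v ∧ ∀ k : ℕ, avh τ F u k v ≤ hsf τ v) ∧
  (∀ (m : ℕ) (v : Fin m → N) (c c' : N), ‖c‖ ≤ 1 → ‖c'‖ ≤ 1 →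
    hsf τ (fun j => c * v j * c') ≤ hsf τ v ∧
    ∀ x, dfm τ (fun j => c * v j * c') x = dfm τ v (star c * x * star c')) ∧
  (∀ (m : ℕ) (v : Fin m → N) (c : N) (ψ : N →ₗ[ℂ] N), ‖c‖ ≤ 1 → Bd τ aa ψ v →
    Bd τ aa (Cj c ψ) (fun j => c * v j * star c)) ∧
  (∀ (m : ℕ) (v : Fin m → N) (x : N), dfm τ v x ^ 2 ≤ hsf τ v * hs τ x ^ 2) ∧
  ∀ (m : ℕ) (v : Fin m → N) (G : N) (ψ : N →ₗ[ℂ] N) (k : ℕ), 0 ≤ G → G ≤ 1 → Bd τ aa ψ v →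
    ∃ (m' : ℕ) (w : Fin m' → N), Bd τ aa ((TM F u)^[k] (Cj G ψ)) w ∧
      hsf τ w ≤ avh τ F u k (fun j => G * v j)

/-! ## the competitors -/

/-- The stage inequality (competitor obtained by averaging, precise form). -/
def StSI : Prop := ∀ (Λ t ε e₁ : ℝ) (g : ℕ), 1 ≤ Λ → 0 < t → t < 1 → 0 < ε → 0 < e₁ → 0 < g →
  ∃ k₀ : ℕ, ∀ k ≥ k₀, ∀ (N : Type) [CStarAlgebra N] [PartialOrder N] [StarOrderedRing N]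
  (τ : N →ₗ[ℂ] ℂ) (ι : Type) (F : Finset ι) (u : ι → N) (H q : N) (ψ : N →ₗ[ℂ] N) (m : ℕ)
  (v : Fin m → N) (R : ℝ), Trc τ → Cpl τ → F.card = g → (∀ s, Un (u s)) → 0 ≤ H → H ≤ 1 →
  Obj τ F u ε q ψ → Bd τ aa ψ v → 0 ≤ R → NearMax τ F u ε Λ H R →
  Gam τ Λ H q ψ + Λ * rt τ (q * H * H) ≤ R * avh τ F u k (fun j => (1 - H) * v j) +
    28000 * rt τ (q * H) + 5000 * gap τ F u k (Cj (1 - H) ψ) +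
    (4 * Λ + 1001) * Real.sqrt ((hs τ ((1 - H) * q * (1 - H)) -
      hs τ ((TT F u ^ k) ((1 - H) * q * (1 - H)))) * rt τ q) + (1001 * t + e₁) * rt τ q

/-- The crude competitor. -/
def StCC : Prop := ∀ Λ : ℝ, 10 ^ 10 ≤ Λ → ∃ σ > (0 : ℝ), ∀ (ε : ℝ) (g : ℕ), 0 < ε → 0 < g →
  ∃ k₀ : ℕ, ∀ k ≥ k₀, ∀ (N : Type) [CStarAlgebra N] [PartialOrder N] [StarOrderedRing N]
  (τ : N →ₗ[ℂ] ℂ) (ι : Type) (F : Finset ι) (u : ι → N) (H q₁ : N) (φ : N →ₗ[ℂ] N) (τ₀ : ℝ),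
  Trc τ → Cpl τ → F.card = g → (∀ s, Un (u s)) → 0 ≤ H → H ≤ 1 → Pr q₁ → SCP τ φ →
  (∀ x, φ x = q₁ * φ (q₁ * x * q₁) * q₁) → φ 1 ≤ q₁ → 0 < τ₀ → 95 / 100 * τ₀ ≤ rt τ q₁ →
  rt τ q₁ ≤ τ₀ → rt τ q₁ - rt τ (φ 1) ≤ 3 / 10 ^ 5 * τ₀ → Λ * rt τ (q₁ * H) ≤ 1 / 100 * τ₀ →
  gap τ F u k (Cj (1 - H) φ) ≤ σ * τ₀ →
  hs τ ((1 - H) * q₁ * (1 - H)) - hs τ ((TT F u ^ k) ((1 - H) * q₁ * (1 - H))) ≤ σ * τ₀ →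
  ∃ (p : N) (φp : N →ₗ[ℂ] N), Obj τ F u ε p φp ∧ τ₀ / 2 ≤ Gam τ Λ H p φp ∧
    ∀ (m : ℕ) (w : Fin m → N), Bd τ aa φ w → ∃ (m' : ℕ) (w' : Fin m' → N),
      Bd τ aa φp w' ∧ hsf τ w' ≤ hsf τ w

/-- The unitality lemma. -/
def StUL : Prop := ∀ (g : ℕ) (ε₁ : ℝ), 0 < g → 0 < ε₁ → ∃ ε₀ > (0 : ℝ),
  ∀ (N : Type) [CStarAlgebra N] [PartialOrder N] [StarOrderedRing N]
  (τ : N →ₗ[ℂ] ℂ) (ι : Type) (F : Finset ι) (u : ι → N) (q c : N) (ψ : N →ₗ[ℂ] N),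
  Trc τ → Cpl τ → F.card = g → (∀ s, Un (u s)) → Pr q → SCP τ ψ →
  (∀ x, ψ x = q * ψ (q * x * q) * q) → ψ 1 ≤ q → 1000 * (rt τ q - rt τ (ψ 1)) ≤ rt τ q →
  q * c * q = c → ‖c‖ ≤ 1 → rt τ q - hs τ c ≤ 7 / 10 ^ 4 * rt τ q →
  En τ F u q ≤ ε₀ * rt τ q → EnM τ F u ψ ≤ ε₀ * rt τ q → En τ F u c ≤ ε₀ * rt τ q →
  ∃ (q₁ : N) (φ : N →ₗ[ℂ] N), Pr q₁ ∧ q₁ ≤ q ∧ SCP τ φ ∧
    (∀ x, φ x = q₁ * φ (q₁ * x * q₁) * q₁) ∧ φ 1 ≤ q₁ ∧ 95 / 100 * rt τ q ≤ rt τ q₁ ∧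
    rt τ q₁ - rt τ (φ 1) ≤ 3 / 10 ^ 5 * rt τ q ∧ En τ F u q₁ ≤ ε₁ * rt τ q ∧
    EnM τ F u φ ≤ ε₁ * rt τ q ∧
    ∀ (m : ℕ) (E : Fin m → N),
      (∀ x, rt τ (star x * (Cj c ψ) x) ≤ 2 * aa * hs τ x + dfm τ E x) →
      ∃ (m' : ℕ) (w : Fin m' → N), Bd τ aa φ w ∧ hsf τ w ≤ 10 ^ 44 * hsf τ E

/-- From the Hilbert-Schmidt operator `T_L^k(G D_v G)` to an almost invariant finite dimensional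
subspace of bounded left density. -/
def StD : Prop := ∃ C₂ > (0 : ℝ), ∀ (e : ℝ) (g : ℕ), 0 < e → 0 < g →
  ∃ (k₀ : ℕ) (e₂ : ℝ), 0 < e₂ ∧ ∀ k ≥ k₀, ∀ (N : Type) [CStarAlgebra N] [PartialOrder N]
  [StarOrderedRing N] (τ : N →ₗ[ℂ] ℂ) (ι : Type) (F : Finset ι) (u : ι → N) (m : ℕ)
  (v : Fin m → N) (G : N) (τ₀ : ℝ), Trc τ → F.card = g → (∀ s, Un (u s)) → 0 ≤ G → G ≤ 1 →
  0 < τ₀ → 0 < hsf τ v → (∀ x, dfm τ v x ≤ 2 * hs τ x) →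
  ∃ h : N, 0 ≤ h ∧ h ≤ 1 ∧ rt τ (1 - h) ≤ τ₀ / 10 ^ 8 ∧ En τ F u h ≤ e * τ₀ ∧
  ∀ a : N, 0 ≤ a → a ≤ 1 → En τ F u a ≤ e₂ * τ₀ →
    (1 - 1 / 10 ^ 46) * hsf τ v ≤ avh τ F u k (fun j => G * v j) →
    (∀ (m' : ℕ) (E : Fin m' → N),
      (∀ x, dfm τ (fun j => a * h * v j) x ≤ aa * hs τ x + dfm τ E x) →
      1 / (3 * 10 ^ 44) * hsf τ v ≤ hsf τ E) →
    ∃ (d : ℕ) (w : Fin d → N), 0 < d ∧ (∀ i j, τ (star (w i) * w j) = if i = j then 1 else 0) ∧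
      ∑ j, w j * star (w j) ≤ (C₂ * d / τ₀ : ℝ) • a ∧
      ∑ s ∈ F, ((d : ℝ) - ∑ i, ∑ j, ‖τ (star (w i) * u s * w j)‖ ^ 2) ≤ e * d

end Helper61.HT
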