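import Pool.Agent.Helper61.HT.StB
import Pool.Agent.Helper85.IE.Defs

/-!
# Project HT: statements, part C (Haagerup property, greedy process, local theorem, random
selection, gap from property (T), macroscopic step, main theorem)
-/

namespace Helper61.HT

open scoped ComplexOrder
open Filter Topology

section

variable {N : Type} [CStarAlgebra N] [PartialOrder N]

/-- Complete positivity. -/
def CPm (φ : N →ₗ[ℂ] N) : Prop := ∀ (m : ℕ) (a b : Fin m → N),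
  0 ≤ ∑ i, ∑ j, star (b i) * φ (star (a i) * a j) * b j

/-- The map extends to a compact operator on `L²(N, τ)`: the image of the unit ball of the 2-norm
is totally bounded in the 2-norm. -/
def Cpt (τ : N →ₗ[ℂ] ℂ) (φ : N →ₗ[ℂ] N) : Prop := ∀ ε : ℝ, 0 < ε →
  ∃ s : Finset N, ∀ x, hs τ x ≤ 1 → ∃ y ∈ s, hs τ (φ x - y) ≤ ε

/-- The Haagerup property. -/
def Haag (τ : N →ₗ[ℂ] ℂ) : Prop := ∃ φ : ℕ → N →ₗ[ℂ] N,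
  (∀ k, CPm (φ k) ∧ (∀ x, 0 ≤ x → rt τ (φ k x) ≤ rt τ x) ∧ Cpt τ (φ k)) ∧
  ∀ x, Tendsto (fun k => hs τ (φ k x - x)) atTop (𝓝 0)

/-- `M ⊆ q N q` is a finite dimensional *-subalgebra which contains the `u s q`, `s ∈ F`, up to
`ε`. -/
structure GP (τ : N →ₗ[ℂ] ℂ) {ι : Type} (F : Finset ι) (u : ι → N) (ε : ℝ) (q : N)
    (M : NonUnitalStarSubalgebra ℂ N) : Prop where
  pr : Pr q
  fd : FiniteDimensional ℂ M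
  le : ∀ y ∈ M, q * y * q = y
  app : ∀ s ∈ F, ∃ y ∈ M, ‖y‖ ≤ 1 ∧ hs τ (u s * q - y) ≤ ε * rt τ q

end

/-- The initial object. -/
def StInit : Prop := ∀ (N : Type) [CStarAlgebra N] [PartialOrder N] [StarOrderedRing N]
  (τ : N →ₗ[ℂ] ℂ) (ι : Type) (F : Finset ι) (u : ι → N) (Q : N) (ε : ℝ), Trc τ → Cpl τ →
  Haag τ → (∀ s, Un (u s)) → Pr Q → 0 < rt τ (1 - Q) → 0 < ε →
  En τ F u Q ≤ ε / 20 * rt τ (1 - Q) →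
  ∃ (ψ : N →ₗ[ℂ] N) (m : ℕ) (w : Fin m → N), Obj τ F u ε (1 - Q) ψ ∧
    rt τ (1 - Q) - rt τ (ψ 1) ≤ 1 / 10 ^ 4 * rt τ (1 - Q) ∧ Bd τ aa ψ w

/-- The greedy process. -/
def StGreedy : Prop := ∀ (N : Type) [CStarAlgebra N] [PartialOrder N] [StarOrderedRing N]
  (τ : N →ₗ[ℂ] ℂ) (ι : Type) (F : Finset ι) (u : ι → N) (Q : N) (ε Λ ε₀ : ℝ)
  (ψ₀ : N →ₗ[ℂ] N) (m₀ : ℕ) (w₀ : Fin m₀ → N), Trc τ → F.Nonempty → (∀ s, Un (u s)) →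
  RRFacts τ F u → Pr Q → 0 < rt τ (1 - Q) → 0 < ε → 1 ≤ Λ → 0 < ε₀ → ε₀ < 1 →
  Obj τ F u ε (1 - Q) ψ₀ → rt τ (1 - Q) - rt τ (ψ₀ 1) ≤ 1 / 10 ^ 4 * rt τ (1 - Q) →
  Bd τ aa ψ₀ w₀ →
  ∃ (n : ℕ) (q : ℕ → N) (ψ : ℕ → N →ₗ[ℂ] N) (m : ℕ → ℕ) (v : ∀ i, Fin (m i) → N) (R : ℕ → ℝ),
    (∀ i < n, Obj τ F u ε (q i) (ψ i) ∧ Bd τ aa (ψ i) (v i) ∧
      (∀ j, q i * v i j * q i = v i j) ∧ 0 < hsf τ (v i) ∧ 0 < R i ∧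
      NearMax τ F u ε Λ (Hi F u Q q i) (R i) ∧
      (1 - ε₀) * R i * hsf τ (v i) ≤ Gam τ Λ (Hi F u Q q i) (q i) (ψ i) ∧
      0 < Gam τ Λ (Hi F u Q q i) (q i) (ψ i)) ∧
    rt τ (1 - Q) / (2 * Λ) ≤ ∑ i ∈ Finset.range n, rt τ (q i)

/-- The local theorem: a typical object gives an almost invariant finite dimensional subspace. -/
def StLoc : Prop := ∃ C₂ > (0 : ℝ), ∀ Λ : ℝ, 10 ^ 10 ≤ Λ → ∃ σ > (0 : ℝ), ∀ (e ε₁ : ℝ) (g : ℕ),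
  0 < e → 0 < ε₁ → 0 < g → ∃ ε₀ > (0 : ℝ), ∀ ε : ℝ, 0 < ε → ε ≤ ε₀ → ∃ k₀ : ℕ, ∀ k ≥ k₀,
  ∀ (N : Type) [CStarAlgebra N] [PartialOrder N] [StarOrderedRing N]
  (τ : N →ₗ[ℂ] ℂ) (ι : Type) (F : Finset ι) (u : ι → N) (H q : N) (ψ : N →ₗ[ℂ] N) (m : ℕ)
  (v : Fin m → N) (R : ℝ), Trc τ → Cpl τ → F.card = g → (∀ s, Un (u s)) → 0 ≤ H → H ≤ 1 →
  Obj τ F u ε q ψ → Bd τ aa ψ v → (∀ j, q * v j * q = v j) → 0 < hsf τ v → 0 < R →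
  NearMax τ F u ε Λ H R → (1 - 1 / 10 ^ 47) * R * hsf τ v ≤ Gam τ Λ H q ψ →
  0 < Gam τ Λ H q ψ → Λ * rt τ (q * H) ≤ 1 / 10 ^ 90 * rt τ q →
  hs τ ((1 - H) * q * (1 - H)) - hs τ ((TT F u ^ k) ((1 - H) * q * (1 - H))) ≤ σ * rt τ q →
  ∃ (p : Fin 2 → N) (φ : Fin 2 → N →ₗ[ℂ] N),
    (∀ b, Pr (p b) ∧ p b ≤ q ∧ SCP τ (φ b) ∧ φ b 1 ≤ p b ∧ EnM τ F u (φ b) ≤ ε₁ * rt τ q ∧
      En τ F u (p b) ≤ ε₁ * rt τ q) ∧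
    ((∀ b, gap τ F u k (Cj (1 - H) (φ b)) ≤ σ * rt τ q ∧
      hs τ ((1 - H) * p b * (1 - H)) - hs τ ((TT F u ^ k) ((1 - H) * p b * (1 - H))) ≤
        σ * rt τ q) →
    gap τ F u k (Cj (1 - H) ψ) ≤ σ * rt τ q →
    ∃ (d : ℕ) (w : Fin d → N), 0 < d ∧ (∀ i j, τ (star (w i) * w j) = if i = j then 1 else 0) ∧
      ∑ j, w j * star (w j) ≤ (C₂ * d / rt τ q : ℝ) • (TT F u ^ k) ((1 - H) * q * (1 - H)) ∧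
      ∑ s ∈ F, ((d : ℝ) - ∑ i, ∑ j, ‖τ (star (w i) * u s * w j)‖ ^ 2) ≤ e * d)

/-- Random selection: from a family of almost invariant finite dimensional subspaces of bounded
total left density to a finite dimensional subalgebra. -/
def StR : Prop := ∀ (C ε' : ℝ), 1 ≤ C → 0 < ε' → ∃ (κ η : ℝ), 0 < κ ∧ 0 < η ∧
  ∀ (εf : ℝ) (g : ℕ), 0 < εf → ∃ e > (0 : ℝ),
  ∀ (N : Type) [CStarAlgebra N] [PartialOrder N] [StarOrderedRing N]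
  (τ : N →ₗ[ℂ] ℂ) (ι : Type) (F : Finset ι) (u : ι → N) (Q : N) (I : Finset ℕ) (d : ℕ → ℕ)
  (w : ∀ i, Fin (d i) → N) (t : ℕ → ℝ), II1 τ → F.card = g → (∀ s, Un (u s)) → Pr Q →
  (∀ i ∈ I, 0 < t i ∧ 0 < d i ∧
    (∀ j j', τ (star (w i j) * w i j') = if j = j' then 1 else 0) ∧
    ∑ s ∈ F, ((d i : ℝ) - ∑ j, ∑ j', ‖τ (star (w i j) * u s * w i j')‖ ^ 2) ≤ e * d i) →
  ∑ i ∈ I, t i • ∑ j, w i j * star (w i j) ≤ C • (1 : N) →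
  rt τ ((∑ i ∈ I, t i • ∑ j, w i j * star (w i j)) * Q) ≤ κ * ∑ i ∈ I, t i * d i →
  0 < ∑ i ∈ I, t i * d i → En τ F u Q ≤ e * ∑ i ∈ I, t i * d i →
  ∃ (q : N) (M : NonUnitalStarSubalgebra ℂ N), q * Q = 0 ∧ η * ∑ i ∈ I, t i * d i ≤ rt τ q ∧
    En τ F u q ≤ εf ∧ GP τ F u ε' q M

/-- The macroscopic step. -/
def StFMT : Prop := ∀ ε' : ℝ, 0 < ε' → ∃ c₀ > (0 : ℝ), ∀ c : ℝ, 0 < c → ∃ δ > (0 : ℝ),
  ∀ (K εf : ℝ) (g : ℕ), 0 < εf → 0 < g → ∃ (k : ℕ) (ω : ℝ), 0 < ω ∧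
  ∀ (N : Type) [CStarAlgebra N] [PartialOrder N] [StarOrderedRing N]
  (τ : N →ₗ[ℂ] ℂ) (ι : Type) (F S : Finset ι) (u : ι → N) (Q : N), II1 τ → Haag τ →
  F.card = g → S ⊆ F → (∀ s, Un (u s)) → GapF τ F u S k K δ → Pr Q → En τ F u Q ≤ ω →
  c ≤ rt τ (1 - Q) →
  ∃ (q : N) (M : NonUnitalStarSubalgebra ℂ N), q * Q = 0 ∧ c₀ * rt τ (1 - Q) ≤ rt τ q ∧
    En τ F u q ≤ εf ∧ GP τ F u ε' q M

/-- Property (T) gives the gap at every scale along the ultrafilter. -/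
def StGapT : Prop := ∀ (N : Type) [CStarAlgebra N] [PartialOrder N] [StarOrderedRing N]
  (τ : N →ₗ[ℂ] ℂ) (G : Type) [Group G] [Countable G] (χ : G → ℂ) (U : Ultrafilter ℕ)
  (u : ℕ → G → N), Trc τ → (∀ n g, Un (u n g)) →
  (∀ g h, Tendsto (fun n => hs τ (u n (g * h) - u n g * u n h)) U (𝓝 0)) →
  (∀ g, Tendsto (fun n => τ (u n g)) U (𝓝 (χ g))) → Helper85.IE.PropT χ →
  ∀ δ : ℝ, 0 < δ → ∃ (S : Finset G) (K : ℝ), ∀ F : Finset G, S ⊆ F → F.Nonempty → ∀ k : ℕ,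
    ∀ᶠ n in (U : Filter ℕ), GapF τ F (u n) S k K δ

/-- The main theorem. -/
def StMain : Prop := ∀ (N : Type) [CStarAlgebra N] [PartialOrder N] [StarOrderedRing N]
  (τ : N →ₗ[ℂ] ℂ) (G : Type) [Group G] [Countable G] (χ : G → ℂ) (U : Ultrafilter ℕ)
  (u : ℕ → G → N), (U : Filter ℕ) ≤ atTop → II1 τ → Haag τ → (∀ n g, Un (u n g)) →
  (∀ g h, Tendsto (fun n => hs τ (u n (g * h) - u n g * u n h)) U (𝓝 0)) →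
  (∀ g, Tendsto (fun n => τ (u n g)) U (𝓝 (χ g))) → Helper85.IE.PropT χ →
  ∃ M : ℕ → StarSubalgebra ℂ N, (∀ n, FiniteDimensional ℂ (M n)) ∧
    ∀ g, ∃ y : ℕ → N, (∀ n, y n ∈ M n ∧ ‖y n‖ ≤ 1) ∧
      Tendsto (fun n => hs τ (u n g - y n)) U (𝓝 0)

end Helper61.HT
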