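import Pool.Agent.Helper61.HT.StE

/-!
# Project HT: statements, part F (von Neumann subalgebras of ultrapowers, property (T))
-/

namespace Helper61.HT

open scoped ComplexOrder
open Filter Topology

/-- `θ` is a choice of representing sequences of a trace preserving unital *-homomorphism of
`(B, τB)` to the tracial ultrapower of `(N, τ)` along `U`. -/
structure Emb {B N : Type} [CStarAlgebra B] [CStarAlgebra N] (U : Ultrafilter ℕ)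
    (τB : B →ₗ[ℂ] ℂ) (τ : N →ₗ[ℂ] ℂ) (θ : ℕ → B → N) : Prop where
  bdd : ∀ b, ∃ C : ℝ, ∀ n, ‖θ n b‖ ≤ C
  add : ∀ a b, Tendsto (fun n => hs τ (θ n (a + b) - (θ n a + θ n b))) U (𝓝 0)
  smul : ∀ (c : ℂ) b, Tendsto (fun n => hs τ (θ n (c • b) - c • θ n b)) U (𝓝 0)
  mul : ∀ a b, Tendsto (fun n => hs τ (θ n (a * b) - θ n a * θ n b)) U (𝓝 0)
  star : ∀ b, Tendsto (fun n => hs τ (θ n (star b) - star (θ n b))) U (𝓝 0)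
  one : Tendsto (fun n => hs τ (θ n 1 - 1)) U (𝓝 0)
  tr : ∀ b, Tendsto (fun n => τ (θ n b)) U (𝓝 (τB b))

/-- Property (T), formulation with completely positive maps (Popa): completely positive,
subunital, subtracial maps close to the identity on a finite set are close to the identity
uniformly on the unit ball. -/
def PropTcp {B : Type} [CStarAlgebra B] [PartialOrder B] (τ : B →ₗ[ℂ] ℂ) : Prop :=
  ∀ ε : ℝ, 0 < ε → ∃ (F : Finset B) (δ : ℝ), 0 < δ ∧ ∀ φ : B →ₗ[ℂ] B, CPm φ → φ 1 ≤ 1 →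
    (∀ x, 0 ≤ x → rt τ (φ x) ≤ rt τ x) → (∀ x ∈ F, hs τ (φ x - x) ≤ δ) →
    ∀ b, ‖b‖ ≤ 1 → hs τ (φ b - b) ≤ ε

/-- A normal Hilbert `B`-`B`-bimodule: `L x ξ = x ξ`, `R x ξ = ξ x`. -/
structure HBim {B : Type} [CStarAlgebra B] (τ : B →ₗ[ℂ] ℂ) (H : Type) [NormedAddCommGroup H]
    [InnerProductSpace ℂ H] (L R : B →ₗ[ℂ] (H →L[ℂ] H)) : Prop where
  L_one : ∀ v, L 1 v = v
  R_one : ∀ v, R 1 v = v
  L_mul : ∀ x y v, L (x * y) v = L x (L y v)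
  R_mul : ∀ x y v, R (x * y) v = R y (R x v)
  comm : ∀ x y v, L x (R y v) = R y (L x v)
  L_adj : ∀ x v w, inner ℂ (L x v) w = inner ℂ v (L (star x) w)
  R_adj : ∀ x v w, inner ℂ (R x v) w = inner ℂ v (R (star x) w)
  L_normal : ∀ v, ∀ ε : ℝ, 0 < ε → ∃ δ : ℝ, 0 < δ ∧ ∀ x, ‖x‖ ≤ 1 → hs τ x ≤ δ → ‖L x v‖ ≤ ε
  R_normal : ∀ v, ∀ ε : ℝ, 0 < ε → ∃ δ : ℝ, 0 < δ ∧ ∀ x, ‖x‖ ≤ 1 → hs τ x ≤ δ → ‖R x v‖ ≤ ε

/-- Property (T), formulation with bimodules: almost central subtracial vectors are close to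
central vectors. -/
def PropTbim {B : Type} [CStarAlgebra B] (τ : B →ₗ[ℂ] ℂ) : Prop :=
  ∀ ε : ℝ, 0 < ε → ∃ (F : Finset B) (δ : ℝ), 0 < δ ∧ ∀ (H : Type) [NormedAddCommGroup H]
    [InnerProductSpace ℂ H] [CompleteSpace H] (L R : B →ₗ[ℂ] (H →L[ℂ] H)), HBim τ H L R →
    ∀ ξ : H, (∀ x, ‖L x ξ‖ ^ 2 ≤ hs τ x) → (∀ x, ‖R x ξ‖ ^ 2 ≤ hs τ x) →
    (∀ x ∈ F, ‖L x ξ - R x ξ‖ ≤ δ) → ∃ η : H, (∀ x, L x η = R x η) ∧ ‖ξ - η‖ ≤ ε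

/-- Powers-Stoermer inequality. -/
def StPS : Prop := ∀ (B : Type) [CStarAlgebra B] [PartialOrder B] [StarOrderedRing B]
  (τ : B →ₗ[ℂ] ℂ), Trc τ → Cpl τ → ∀ a b : B, 0 ≤ a → 0 ≤ b →
  hs τ (a - b) ≤ Real.sqrt (hs τ (a * a - b * b))

/-- Uniform form of property (T) for symmetric completely positive maps. -/
def Unif {B : Type} [CStarAlgebra B] [PartialOrder B] (τ : B →ₗ[ℂ] ℂ) : Prop :=
  ∀ ε : ℝ, 0 < ε → ∃ (V : Finset B) (κ : ℝ), (∀ v ∈ V, Un v) ∧ 0 < κ ∧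
    ∀ φ : B →ₗ[ℂ] B, SCP τ φ → CPm φ →
    (∀ v ∈ V, rt τ (φ 1) - rt τ (star v * φ v) ≤ κ) →
    ∀ w, Un w → rt τ (φ 1) - rt τ (star w * φ w) ≤ ε

def StUnifA : Prop := ∀ (B : Type) [CStarAlgebra B] [PartialOrder B] [StarOrderedRing B]
  (τ : B →ₗ[ℂ] ℂ), Trc τ → Cpl τ → PropTcp τ → Unif τ

def StUnifB : Prop := ∀ (B : Type) [CStarAlgebra B] [PartialOrder B] [StarOrderedRing B]
  (τ : B →ₗ[ℂ] ℂ), Trc τ → Cpl τ → PropTbim τ → Unif τ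

/-- The limit of a sequence of maps, compressed to `B`. -/
def StLim : Prop := ∀ (N : Type) [CStarAlgebra N] [PartialOrder N] [StarOrderedRing N]
  (τ : N →ₗ[ℂ] ℂ) (B : Type) [CStarAlgebra B] [PartialOrder B] [StarOrderedRing B]
  (τB : B →ₗ[ℂ] ℂ) (U : Ultrafilter ℕ) (θ : ℕ → B → N) (ψ : ℕ → N →ₗ[ℂ] N),
  Trc τ → Trc τB → Cpl τB → Emb U τB τ θ → (∀ n, SCP τ (ψ n)) →
  ∃ φ : B →ₗ[ℂ] B, SCP τB φ ∧ CPm φ ∧
    (∀ a b, Tendsto (fun n => τ (θ n a * ψ n (θ n b))) U (𝓝 (τB (a * φ b)))) ∧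
    ∀ (x y : ℕ → N) (a b : B), Tendsto (fun n => hs τ (x n - θ n a)) U (𝓝 0) →
      Tendsto (fun n => hs τ (y n - θ n b)) U (𝓝 0) →
      Tendsto (fun n => τ (x n * ψ n (y n))) U (𝓝 (τB (a * φ b)))

/-- The gap along the ultrafilter. -/
def StGapB : Prop := ∀ (B : Type) [CStarAlgebra B] [PartialOrder B] [StarOrderedRing B]
  (τB : B →ₗ[ℂ] ℂ), Trc τB → Cpl τB → Unif τB → ∀ δ : ℝ, 0 < δ →
  ∃ (V : Finset B) (K : ℝ), (∀ v ∈ V, Un v) ∧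
  ∀ (N : Type) [CStarAlgebra N] [PartialOrder N] [StarOrderedRing N] (τ : N →ₗ[ℂ] ℂ)
  (U : Ultrafilter ℕ) (θ : ℕ → B → N) (ι : Type) (b : ι → B) (u : ℕ → ι → N) (S : Finset ι),
  Trc τ → Emb U τB τ θ → (∀ i, Un (b i)) → (∀ n i, Un (u n i)) →
  (∀ i, Tendsto (fun n => hs τ (u n i - θ n (b i))) U (𝓝 0)) → (∀ v ∈ V, ∃ i ∈ S, b i = v) →
  ∀ F : Finset ι, S ⊆ F → F.Nonempty → ∀ k : ℕ,
    ∀ᶠ n in (U : Filter ℕ), GapF τ F (u n) S k K δ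

/-- The conditional expectation onto a finite dimensional subalgebra. -/
def StCE : Prop := ∀ (N : Type) [CStarAlgebra N] [PartialOrder N] [StarOrderedRing N]
  (τ : N →ₗ[ℂ] ℂ) (M : StarSubalgebra ℂ N), Trc τ → FiniteDimensional ℂ M →
  ∃ E : N →ₗ[ℂ] N, SCP τ E ∧ (∀ x, E x ∈ M) ∧ (∀ x ∈ M, E x = x) ∧
    (∀ x, hs τ (x - E x) = hs τ x - rt τ (star x * E x)) ∧ ∀ x, ‖E x‖ ≤ 2 * ‖x‖

/-- The main theorem for families with spectral gap. -/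
def StMainG : Prop := ∀ (N : Type) [CStarAlgebra N] [PartialOrder N] [StarOrderedRing N]
  (τ : N →ₗ[ℂ] ℂ) (G : Type) [Countable G] [Nonempty G] (U : Ultrafilter ℕ) (u : ℕ → G → N),
  (U : Filter ℕ) ≤ atTop → II1 τ → Haag τ → (∀ n g, Un (u n g)) →
  (∀ δ : ℝ, 0 < δ → ∃ (S : Finset G) (K : ℝ), ∀ F : Finset G, S ⊆ F → F.Nonempty → ∀ k : ℕ,
    ∀ᶠ n in (U : Filter ℕ), GapF τ F (u n) S k K δ) →
  ∃ M : ℕ → StarSubalgebra ℂ N, (∀ n, FiniteDimensional ℂ (M n)) ∧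
    ∀ g, ∃ y : ℕ → N, (∀ n, y n ∈ M n ∧ ‖y n‖ ≤ 1) ∧
      Tendsto (fun n => hs τ (u n g - y n)) U (𝓝 0)

end Helper61.HT
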