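import Pool.Agent.Helper61.HT.PT

/-!
# Project HT: statements, part G (property (T) of Connes and Jones for II_1 factors)
-/

namespace Helper61.HT

open scoped ComplexOrder
open Filter Topology

/-- `v` is a unit vector, almost central and almost tracial on `F`. -/
structure AlmU {H : Type} [NormedAddCommGroup H] [InnerProductSpace ℂ H] {B : Type}
    [CStarAlgebra B] (τ : B →ₗ[ℂ] ℂ) (L R : B → H → H) (F : Finset B) (δ : ℝ) (v : H) :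
    Prop where
  unit : nm v = 1
  com : ∀ x ∈ F, nm (L x v - R x v) ≤ δ
  trL : ∀ x ∈ F, ‖ip v (L x v) - τ x‖ ≤ δ
  trR : ∀ x ∈ F, ‖ip v (R x v) - τ x‖ ≤ δ

/-- Property (T) of Connes and Jones: normal Hilbert bimodules with almost central almost tracial
unit vectors have nonzero central vectors. -/
def PropTcj {B : Type} [CStarAlgebra B] (τ : B →ₗ[ℂ] ℂ) : Prop :=
  ∀ (H : Type) [NormedAddCommGroup H] [InnerProductSpace ℂ H] [CompleteSpace H]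
    (L R : B → H → H), Bimo τ L R →
    (∀ (F : Finset B) (δ : ℝ), 0 < δ → ∃ v : H, AlmU τ L R F δ v) →
    ∃ w : H, w ≠ 0 ∧ ∀ x, L x w = R x w

section

variable {B : Type} [CStarAlgebra B] {H : Type} [NormedAddCommGroup H] [InnerProductSpace ℂ H]

/-- The same as `AlmU` for linear actions. -/
def AU (τ : B →ₗ[ℂ] ℂ) (L R : B →ₗ[ℂ] (H →L[ℂ] H)) (F : Finset B) (δ : ℝ) (v : H) : Prop :=
  ‖v‖ = 1 ∧ ∀ x ∈ F, ‖L x v - R x v‖ ≤ δ ∧ ‖inner ℂ v (L x v) - τ x‖ ≤ δ ∧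
    ‖inner ℂ v (R x v) - τ x‖ ≤ δ

/-- Central vectors. -/
def Cen (L R : B →ₗ[ℂ] (H →L[ℂ] H)) (c : H) : Prop := ∀ x, L x c = R x c

/-- There is no nonzero central vector. -/
def NoC (L R : B →ₗ[ℂ] (H →L[ℂ] H)) : Prop := ∀ w, Cen L R w → w = 0

/-- `ξ` is orthogonal to all vectors `L x c`, `c` central. -/
def Perp (L R : B →ₗ[ℂ] (H →L[ℂ] H)) (ξ : H) : Prop :=
  ∀ c, Cen L R c → ∀ x, inner ℂ c (L x ξ) = 0

/-- The span of the vectors `L x c`, `c` central. -/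
def CenSp (L R : B →ₗ[ℂ] (H →L[ℂ] H)) : Submodule ℂ H :=
  Submodule.span ℂ {v | ∃ x c, Cen L R c ∧ v = L x c}

/-- Left and right subtracial vectors. -/
def SubT (τ : B →ₗ[ℂ] ℂ) (L R : B →ₗ[ℂ] (H →L[ℂ] H)) (ξ : H) : Prop :=
  (∀ x, ‖L x ξ‖ ^ 2 ≤ hs τ x) ∧ ∀ x, ‖R x ξ‖ ^ 2 ≤ hs τ x

end

/-- The algebra is separable in the 2-norm. -/
def Sep {B : Type} [CStarAlgebra B] (τ : B →ₗ[ℂ] ℂ) : Prop :=
  ∃ D : ℕ → B, ∀ x, ∀ ε : ℝ, 0 < ε → ∃ k, hs τ (x - D k) ≤ ε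

/-! ## bimodules without central vectors -/

/-- The largest sub-bimodule without central vectors. -/
def StNC : Prop := ∀ (B : Type) [CStarAlgebra B] (τ : B →ₗ[ℂ] ℂ) (H : Type)
  [NormedAddCommGroup H] [InnerProductSpace ℂ H] [CompleteSpace H]
  (L R : B →ₗ[ℂ] (H →L[ℂ] H)), HBim τ H L R →
  ∃ (H₀ : Type) (_ : NormedAddCommGroup H₀) (_ : InnerProductSpace ℂ H₀) (_ : CompleteSpace H₀)
    (L₀ R₀ : B →ₗ[ℂ] (H₀ →L[ℂ] H₀)) (J : H₀ →ₗᵢ[ℂ] H), HBim τ H₀ L₀ R₀ ∧ NoC L₀ R₀ ∧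
    (∀ x v, J (L₀ x v) = L x (J v)) ∧ (∀ x v, J (R₀ x v) = R x (J v)) ∧
    ∀ ξ, Perp L R ξ → ∃ v, J v = ξ

/-- Direct sums of bimodules without central vectors. -/
def StDS : Prop := ∀ (B : Type) [CStarAlgebra B] [PartialOrder B] [StarOrderedRing B]
  (τ : B →ₗ[ℂ] ℂ) (I : Type) (H : I → Type)
  [∀ i, NormedAddCommGroup (H i)] [∀ i, InnerProductSpace ℂ (H i)] [∀ i, CompleteSpace (H i)]
  (L R : ∀ i, B →ₗ[ℂ] (H i →L[ℂ] H i)), (∀ i, HBim τ (H i) (L i) (R i)) →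
  (∀ i, NoC (L i) (R i)) →
  ∃ (K : Type) (_ : NormedAddCommGroup K) (_ : InnerProductSpace ℂ K) (_ : CompleteSpace K)
    (LK RK : B →ₗ[ℂ] (K →L[ℂ] K)), HBim τ K LK RK ∧ NoC LK RK ∧
    ∀ i, ∃ J : H i →ₗᵢ[ℂ] K, (∀ x v, J (L i x v) = LK x (J v)) ∧
      ∀ x v, J (R i x v) = RK x (J v)

/-- Uniform form of `PropTcj`. -/
def StW1 : Prop := ∀ (B : Type) [CStarAlgebra B] [PartialOrder B] [StarOrderedRing B]
  (τ : B →ₗ[ℂ] ℂ), Trc τ → PropTcj τ →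
  ∃ (F : Finset B) (δ : ℝ), 0 < δ ∧ ∀ (H : Type) [NormedAddCommGroup H]
    [InnerProductSpace ℂ H] [CompleteSpace H] (L R : B →ₗ[ℂ] (H →L[ℂ] H)), HBim τ H L R →
    NoC L R → ∀ v, ¬ AU τ L R F δ v

/-- In a factor central vectors are tracial. -/
def StTC : Prop := ∀ (B : Type) [CStarAlgebra B] [PartialOrder B] [StarOrderedRing B]
  (τ : B →ₗ[ℂ] ℂ), II1 τ → ∀ (H : Type) [NormedAddCommGroup H] [InnerProductSpace ℂ H]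
  [CompleteSpace H] (L R : B →ₗ[ℂ] (H →L[ℂ] H)), HBim τ H L R → ∀ c c' : H, Cen L R c →
  Cen L R c' → ∀ x y, inner ℂ (L x c) (L y c') = τ (star x * y) * inner ℂ c c'

/-- Almost central subtracial vectors are close to the span of the central vectors. -/
def StW2 : Prop := ∀ (B : Type) [CStarAlgebra B] [PartialOrder B] [StarOrderedRing B]
  (τ : B →ₗ[ℂ] ℂ), II1 τ → PropTcj τ → ∀ ε : ℝ, 0 < ε →
  ∃ (F : Finset B) (δ : ℝ), 0 < δ ∧ ∀ (H : Type) [NormedAddCommGroup H]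
    [InnerProductSpace ℂ H] [CompleteSpace H] (L R : B →ₗ[ℂ] (H →L[ℂ] H)), HBim τ H L R →
    ∀ ξ, SubT τ L R ξ → (∀ x ∈ F, ‖L x ξ - R x ξ‖ ≤ δ) →
    ∃ η, η ∈ closure (CenSp L R : Set H) ∧ ‖ξ - η‖ ≤ ε ∧ SubT τ L R η ∧
      ∀ x, ‖L x η - R x η‖ ≤ ‖L x ξ - R x ξ‖

/-! ## finite families -/

/-- Truncation of families. -/
def StTru : Prop := ∀ (B : Type) [CStarAlgebra B] [PartialOrder B] [StarOrderedRing B]
  (τ : B →ₗ[ℂ] ℂ) (n : ℕ) (x : Fin n → B) (ε : ℝ), Trc τ → 0 < ε →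
  (∀ g : B, 0 ≤ g → g ≤ 1 → rt τ (g * ∑ j, x j * star (x j)) ≤ rt τ g + ε) →
  (∀ g : B, 0 ≤ g → g ≤ 1 → rt τ (g * ∑ j, star (x j) * x j) ≤ rt τ g + ε) →
  ∃ y : Fin n → B, ∑ j, y j * star (y j) ≤ 1 ∧ ∑ j, star (y j) * y j ≤ 1 ∧
    ∑ j, hs τ (x j - y j) ≤ 8 * ε

/-- Subtracial vectors in the closed span of the central vectors. -/
def StAP : Prop := ∀ (B : Type) [CStarAlgebra B] [PartialOrder B] [StarOrderedRing B]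
  (τ : B →ₗ[ℂ] ℂ), II1 τ → ∀ (H : Type) [NormedAddCommGroup H] [InnerProductSpace ℂ H]
  [CompleteSpace H] (L R : B →ₗ[ℂ] (H →L[ℂ] H)), HBim τ H L R →
  ∀ η, η ∈ closure (CenSp L R : Set H) → SubT τ L R η → ∀ ε : ℝ, 0 < ε →
  ∃ (n : ℕ) (x : Fin n → B) (c : Fin n → H), Orthonormal ℂ c ∧ (∀ j, Cen L R (c j)) ∧
    ∑ j, x j * star (x j) ≤ 1 ∧ ∑ j, star (x j) * x j ≤ 1 ∧ ‖η - ∑ j, L (x j) (c j)‖ ≤ ε

/-- Symmetrization and completion to a bi-unital family. -/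
def StSY : Prop := ∀ (B : Type) [CStarAlgebra B] [PartialOrder B] [StarOrderedRing B]
  (τ : B →ₗ[ℂ] ℂ) (n : ℕ) (x : Fin n → B), Trc τ → Cpl τ →
  ∑ j, x j * star (x j) ≤ 1 → ∑ j, star (x j) * x j ≤ 1 →
  ∃ (m : ℕ) (z : Fin m → B), ∑ i, star (z i) * z i = 1 ∧ ∑ i, z i * star (z i) = 1 ∧
    ∑ i, ‖τ (z i)‖ ^ 2 ≤ 1 - ∑ j, hs τ (x j - τ (x j) • (1 : B)) ∧
    ∀ (u : B) (e : ℝ), Un u → ∑ j, hs τ (u * x j - x j * u) ≤ e →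
      ∑ j, hs τ (star u * x j - x j * star u) ≤ e →
      ∑ i, hs τ (u * z i - z i * u) ≤ e + 2 * Real.sqrt e

/-- There are almost central bi-unital families far from the scalars. -/
def Fam {B : Type} [CStarAlgebra B] (τ : B →ₗ[ℂ] ℂ) (r : ℝ) : Prop :=
  ∀ (G : Finset B) (δ : ℝ), 0 < δ → ∃ (m : ℕ) (z : Fin m → B),
    ∑ i, star (z i) * z i = 1 ∧ ∑ i, z i * star (z i) = 1 ∧
    (∀ y ∈ G, ∑ i, hs τ (y * z i - z i * y) ≤ δ) ∧ ∑ i, ‖τ (z i)‖ ^ 2 ≤ 1 - r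

def StFM : Prop := ∀ (B : Type) [CStarAlgebra B] [PartialOrder B] [StarOrderedRing B]
  (τ : B →ₗ[ℂ] ℂ), II1 τ → PropTcj τ → ¬ PropTbim τ → ∃ r : ℝ, 0 < r ∧ Fam τ r

/-! ## the infinite product -/

/-- Average of unitary conjugates. -/
noncomputable def Av {B : Type} [CStarAlgebra B] {l : ℕ} (c : Fin l → ℝ) (v : Fin l → B) (y : B) :
    B := ∑ i, c i • (v i * y * star (v i))

/-- A sequence of families `Z n`, with products `X n`, and averages `Av (c n) (v n)`, each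
asymptotically commuting with the earlier ones. -/
structure PSeq {B : Type} [CStarAlgebra B] (τ : B →ₗ[ℂ] ℂ) (D : ℕ → B) (F : Finset B)
    (δ r : ℝ) (m k l : ℕ → ℕ) (X : ∀ n, Fin (m n) → B) (Z : ∀ n, Fin (k n) → B)
    (c : ∀ n, Fin (l n) → ℝ) (v : ∀ n, Fin (l n) → B) : Prop where
  x0 : ∀ y : B, ∑ w, hs τ (y * X 0 w - X 0 w * y) = 0
  bX : ∀ n, ∑ w, star (X n w) * X n w = 1 ∧ ∑ w, X n w * star (X n w) = 1
  bZ : ∀ n, ∑ i, star (Z n i) * Z n i = 1 ∧ ∑ i, Z n i * star (Z n i) = 1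
  step : ∀ n, ∃ e : Fin (m (n + 1)) ≃ Fin (m n) × Fin (k n),
    ∀ w, X (n + 1) w = X n (e w).1 * Z n (e w).2
  zF : ∀ n, ∀ y ∈ F, ∑ i, hs τ (y * Z n i - Z n i * y) ≤ δ / 4 ^ (n + 1)
  zD : ∀ n, ∀ j ≤ n, ∑ i, hs τ (D j * Z n i - Z n i * D j) ≤ 1 / 4 ^ (n + 1)
  zv : ∀ n, ∀ j ≤ n, ∀ a, (1 + ∑ i ∈ Finset.range (j + 1), ‖D i‖) ^ 2 *
    ∑ i, hs τ (star (v j a) * Z n i - Z n i * star (v j a)) ≤ 1 / 4 ^ (n + 1)
  cv : ∀ n, (∀ i, 0 ≤ c n i) ∧ ∑ i, c n i = 1 ∧ ∀ i, Un (v n i)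
  av : ∀ n, ∀ j ≤ n, ∑ w, hs τ (Av (c n) (v n) (D j * X n w) -
    τ (D j * X n w) • (1 : B)) ≤ 1 / 4 ^ n
  zr : ∀ n, ∑ i, ‖τ (Z n i)‖ ^ 2 ≤ 1 - r

/-- Construction of the sequence. -/
def StIS : Prop := ∀ (B : Type) [CStarAlgebra B] [PartialOrder B] [StarOrderedRing B]
  (τ : B →ₗ[ℂ] ℂ) (D : ℕ → B) (F : Finset B) (δ r : ℝ), II1 τ → Fam τ r → 0 < δ →
  ∃ (m k l : ℕ → ℕ) (X : ∀ n, Fin (m n) → B) (Z : ∀ n, Fin (k n) → B)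
    (c : ∀ n, Fin (l n) → ℝ) (v : ∀ n, Fin (l n) → B), PSeq τ D F δ r m k l X Z c v

/-- Commutators of the products with `F`, decay of the scalar parts. -/
def StID : Prop := ∀ (B : Type) [CStarAlgebra B] [PartialOrder B] [StarOrderedRing B]
  (τ : B →ₗ[ℂ] ℂ) (D : ℕ → B) (F : Finset B) (δ r : ℝ) (m k l : ℕ → ℕ)
  (X : ∀ n, Fin (m n) → B) (Z : ∀ n, Fin (k n) → B) (c : ∀ n, Fin (l n) → ℝ)
  (v : ∀ n, Fin (l n) → B), Trc τ → 0 < δ → 0 < r → PSeq τ D F δ r m k l X Z c v →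
  (∀ n, ∀ y ∈ F, ∑ w, hs τ (y * X n w - X n w * y) ≤ δ) ∧
  ∀ j, Tendsto (fun n => ∑ w, ‖τ (D j * X n w)‖ ^ 2) atTop (𝓝 0)

/-- Convergence of the maps. -/
def StIL : Prop := ∀ (B : Type) [CStarAlgebra B] [PartialOrder B] [StarOrderedRing B]
  (τ : B →ₗ[ℂ] ℂ) (D : ℕ → B) (F : Finset B) (δ r : ℝ) (m k l : ℕ → ℕ)
  (X : ∀ n, Fin (m n) → B) (Z : ∀ n, Fin (k n) → B) (c : ∀ n, Fin (l n) → ℝ)
  (v : ∀ n, Fin (l n) → B), Trc τ → Cpl τ → PSeq τ D F δ r m k l X Z c v →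
  (∀ x, ∀ ε : ℝ, 0 < ε → ∃ j, hs τ (x - D j) ≤ ε) →
  ∃ φ : B →ₗ[ℂ] B, CPm φ ∧ φ 1 = 1 ∧ (∀ x, τ (φ x) = τ x) ∧
    ∀ q, Tendsto (fun n => hs τ (∑ w, X n w * q * star (X n w) - φ q)) atTop (𝓝 0)

/-- The averages of the products. -/
def StIC : Prop := ∀ (B : Type) [CStarAlgebra B] [PartialOrder B] [StarOrderedRing B]
  (τ : B →ₗ[ℂ] ℂ) (D : ℕ → B) (F : Finset B) (δ r : ℝ) (m k l : ℕ → ℕ)
  (X : ∀ n, Fin (m n) → B) (Z : ∀ n, Fin (k n) → B) (c : ∀ n, Fin (l n) → ℝ)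
  (v : ∀ n, Fin (l n) → B), Trc τ → PSeq τ D F δ r m k l X Z c v →
  (∀ x, ∀ ε : ℝ, 0 < ε → ∃ j, hs τ (x - D j) ≤ ε) →
  (∀ j, Tendsto (fun n => ∑ w, ‖τ (D j * X n w)‖ ^ 2) atTop (𝓝 0)) →
  ∀ x, ∀ ε : ℝ, 0 < ε → ∃ n₀, ∀ n ≥ n₀, ∑ w, hs τ (Av (c n₀) (v n₀) (x * X n w)) ≤ ε

/-- The Hilbert bimodule of a completely positive map. -/
def StBC : Prop := ∀ (B : Type) [CStarAlgebra B] [PartialOrder B] [StarOrderedRing B]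
  (τ : B →ₗ[ℂ] ℂ) (φ : B →ₗ[ℂ] B), Trc τ → CPm φ → φ 1 ≤ 1 →
  (∀ x, 0 ≤ x → rt τ (φ x) ≤ rt τ x) →
  ∃ (H : Type) (_ : NormedAddCommGroup H) (_ : InnerProductSpace ℂ H) (_ : CompleteSpace H)
    (L R : B →ₗ[ℂ] (H →L[ℂ] H)) (ξ : H), HBim τ H L R ∧
    (∀ x y, inner ℂ ξ (L x (R y ξ)) = τ (x * φ y)) ∧
    Dense (Submodule.span ℂ {v | ∃ x y, v = L x (R y ξ)} : Set H)

/-- The separable case. -/
def StSA : Prop := ∀ (B : Type) [CStarAlgebra B] [PartialOrder B] [StarOrderedRing B]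
  (τ : B →ₗ[ℂ] ℂ), II1 τ → PropTcj τ → Sep τ → PropTbim τ

/-! ## separability -/

/-- `E` is the conditional expectation onto the closure of the *-subalgebra `A`. -/
structure CEx {B : Type} [CStarAlgebra B] [PartialOrder B] (τ : B →ₗ[ℂ] ℂ)
    (A : StarSubalgebra ℂ B) (E : B →ₗ[ℂ] B) : Prop where
  cp : CPm E
  id : ∀ x ∈ A, E x = x
  cl : ∀ x, ∀ ε : ℝ, 0 < ε → ∃ a ∈ A, hs τ (E x - a) ≤ ε
  tr : ∀ a ∈ A, ∀ x, τ (a * E x) = τ (a * x)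

def StEQ : Prop := ∀ (B : Type) [CStarAlgebra B] [PartialOrder B] [StarOrderedRing B]
  (τ : B →ₗ[ℂ] ℂ), Trc τ → Cpl τ → ∀ A : StarSubalgebra ℂ B, ∃ E, CEx τ A E

/-- First part of `StEQ`: the projection onto the closure of `A` in `L²` maps positive
contractions to positive contractions. -/
def StEQ1 : Prop := ∀ (B : Type) [CStarAlgebra B] [PartialOrder B] [StarOrderedRing B]
  (τ : B →ₗ[ℂ] ℂ), Trc τ → Cpl τ → ∀ A : StarSubalgebra ℂ B, ∀ b : B, 0 ≤ b → b ≤ 1 →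
  ∃ y : B, 0 ≤ y ∧ y ≤ 1 ∧ (∀ ε : ℝ, 0 < ε → ∃ a ∈ A, hs τ (y - a) ≤ ε) ∧
    ∀ a ∈ A, τ (a * y) = τ (a * b)

/-- If the bimodule of the conditional expectation onto a countably generated subalgebra has a
nontrivial central vector, then the factor is separable. -/
def StNS : Prop := ∀ (B : Type) [CStarAlgebra B] [PartialOrder B] [StarOrderedRing B]
  (τ : B →ₗ[ℂ] ℂ), II1 τ → ∀ (S : Set B) (E : B →ₗ[ℂ] B), S.Countable →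
  CEx τ (StarAlgebra.adjoin ℂ S) E → ∀ (H : Type) [NormedAddCommGroup H]
  [InnerProductSpace ℂ H] [CompleteSpace H] (L R : B →ₗ[ℂ] (H →L[ℂ] H)) (ξ : H),
  HBim τ H L R → (∀ x y, inner ℂ ξ (L x (R y ξ)) = τ (x * E y)) →
  Dense (Submodule.span ℂ {v | ∃ x y, v = L x (R y ξ)} : Set H) →
  ∀ c, Cen L R c → c ≠ 0 → Sep τ

/-- A factor with property (T) is separable. -/
def StSB : Prop := ∀ (B : Type) [CStarAlgebra B] [PartialOrder B] [StarOrderedRing B]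
  (τ : B →ₗ[ℂ] ℂ), II1 τ → PropTcj τ → Sep τ

end Helper61.HT
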